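import Pool.Agent.L3E.GJ.Gen

set_option autoImplicit false

/-!
# L3E, module GJ.Br: from the graded relations to exact relations

If a word in four letters vanishes in every graded model of the leading forms of the
D-relations, then it vanishes in every nilpotent ring in which the D-relations hold exactly.
-/

namespace Pool.Agent.L3E.GJ

open Finsupp

/-! ### Contents -/

/-- The content of a word. -/
noncomputable def brC (w : List (Fin 4)) : Fin 4 →₀ ℕ := (w.map fun i => single i 1).sum

theorem brC_nil : brC [] = 0 := rfl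

theorem brC_cons (i : Fin 4) (w : List (Fin 4)) : brC (i :: w) = single i 1 + brC w := by
  simp [brC]

theorem brC_append (w v : List (Fin 4)) : brC (w ++ v) = brC w + brC v := by simp [brC]

theorem brC_apply (w : List (Fin 4)) (i : Fin 4) : brC w i = w.count i := by
  induction w with
  | nil => simp [brC]
  | cons j w ih =>
    rw [brC_cons, Finsupp.add_apply, ih, List.count_cons, Finsupp.single_apply, add_comm]
    simp [beq_iff_eq]

theorem brC_length {v w : List (Fin 4)} (h : brC v < brC w) : v.length < w.length := by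
  have key : ∀ u : List (Fin 4), (∑ i, brC u i) = u.length := by
    intro u
    induction u with
    | nil => simp [brC]
    | cons j u ih =>
      simp only [brC_cons, Finsupp.add_apply, Finset.sum_add_distrib, ih, List.length_cons]
      rw [add_comm]
      congr 1
      simp [Finsupp.single_apply]
  rw [← key v, ← key w]
  obtain ⟨h1, i, hi⟩ := Pi.lt_def.mp (show (brC v : Fin 4 → ℕ) < brC w from h)
  exact Finset.sum_lt_sum (fun j _ => h1 j) ⟨i, Finset.mem_univ i, hi⟩

/-! ### The filtration -/

section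
variable {R : Type} [Ring R]

theorem br_closure_mul {S T U : Set R} (h : ∀ s ∈ S, ∀ t ∈ T, s * t ∈ U) {x y : R}
    (hx : x ∈ AddSubgroup.closure S) (hy : y ∈ AddSubgroup.closure T) :
    x * y ∈ AddSubgroup.closure U := by
  induction hx using AddSubgroup.closure_induction with
  | mem s hs =>
    induction hy using AddSubgroup.closure_induction with
    | mem t ht => exact AddSubgroup.subset_closure (h s hs t ht)
    | zero => rw [mul_zero]; exact zero_mem _
    | add x y _ _ hx hy => rw [mul_add]; exact add_mem hx hy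
    | neg x _ hx => rw [mul_neg]; exact neg_mem hx
  | zero => rw [zero_mul]; exact zero_mem _
  | add x y _ _ hx hy => rw [add_mul]; exact add_mem hx hy
  | neg x _ hx => rw [neg_mul]; exact neg_mem hx

/-- The span of the words of content at least `n`. -/
def brW (a : Fin 4 → R) (n : Fin 4 →₀ ℕ) : AddSubgroup R :=
  AddSubgroup.closure {r | ∃ w : List (Fin 4), n ≤ brC w ∧ r = (w.map a).prod}

/-- The span of the words of content strictly larger than `n`. -/
def brH (a : Fin 4 → R) (n : Fin 4 →₀ ℕ) : AddSubgroup R :=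
  AddSubgroup.closure {r | ∃ w : List (Fin 4), n < brC w ∧ r = (w.map a).prod}

variable {a : Fin 4 → R}

theorem brW_mul {n m : Fin 4 →₀ ℕ} {x y : R} (hx : x ∈ brW a n) (hy : y ∈ brW a m) :
    x * y ∈ brW a (n + m) := by
  refine br_closure_mul ?_ hx hy
  rintro _ ⟨w, hw, rfl⟩ _ ⟨v, hv, rfl⟩
  exact ⟨w ++ v, by rw [brC_append]; exact add_le_add hw hv, by simp⟩

theorem brH_mul {n m : Fin 4 →₀ ℕ} {x y : R} (hx : x ∈ brH a n) (hy : y ∈ brW a m) :
    x * y ∈ brH a (n + m) := by
  refine br_closure_mul ?_ hx hy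
  rintro _ ⟨w, hw, rfl⟩ _ ⟨v, hv, rfl⟩
  exact ⟨w ++ v, by rw [brC_append]; exact add_lt_add_of_lt_of_le hw hv, by simp⟩

theorem brH_mul' {n m : Fin 4 →₀ ℕ} {x y : R} (hx : x ∈ brW a n) (hy : y ∈ brH a m) :
    x * y ∈ brH a (n + m) := by
  refine br_closure_mul ?_ hx hy
  rintro _ ⟨w, hw, rfl⟩ _ ⟨v, hv, rfl⟩
  exact ⟨w ++ v, by rw [brC_append]; exact add_lt_add_of_le_of_lt hw hv, by simp⟩

theorem brW_W {n m : Fin 4 →₀ ℕ} (h : n ≤ m) {x : R} (hx : x ∈ brW a m) : x ∈ brW a n := by
  refine AddSubgroup.closure_mono ?_ hx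
  rintro _ ⟨w, hw, rfl⟩
  exact ⟨w, h.trans hw, rfl⟩

theorem brW_H {n m : Fin 4 →₀ ℕ} (h : n < m) {x : R} (hx : x ∈ brW a m) : x ∈ brH a n := by
  refine AddSubgroup.closure_mono ?_ hx
  rintro _ ⟨w, hw, rfl⟩
  exact ⟨w, lt_of_lt_of_le h hw, rfl⟩

theorem brH_H {n m : Fin 4 →₀ ℕ} (h : n ≤ m) {x : R} (hx : x ∈ brH a m) : x ∈ brH a n := by
  refine AddSubgroup.closure_mono ?_ hx
  rintro _ ⟨w, hw, rfl⟩
  exact ⟨w, lt_of_le_of_lt h hw, rfl⟩

theorem brW_letter (i : Fin 4) : a i ∈ brW a (single i 1) :=
  AddSubgroup.subset_closure ⟨[i], by simp [brC], by simp⟩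

theorem brW_one : (1 : R) ∈ brW a 0 :=
  AddSubgroup.subset_closure ⟨[], by simp [brC], by simp⟩

theorem br_single_pos (i : Fin 4) : (0 : Fin 4 →₀ ℕ) < single i 1 := by
  rw [pos_iff_ne_zero]
  intro h
  have := DFunLike.congr_fun h i
  simp at this

/-! ### Biadditive maps -/

/-- Biadditive maps. -/
structure brBA (φ : R → R → R) : Prop where
  addl : ∀ A A' B, φ (A + A') B = φ A B + φ A' B
  addr : ∀ A B B', φ A (B + B') = φ A B + φ A B'

/-- The leading part of the operator `brEx`. -/
def brLead (d : R) (φ : R → R → R) (A B : R) : R := φ (A * d + d * A) B + φ A (B * d + d * B)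

/-- Conjugation by `1 + l`. -/
def brCj (l A : R) : R := A + (A * l + l * A) + l * A * l

/-- The exact operator. -/
def brEx (l : R) (φ : R → R → R) (A B : R) : R := φ (brCj l A) (brCj l B) - φ A B

theorem brBA_lead {φ : R → R → R} (h : brBA φ) (d : R) : brBA (brLead d φ) where
  addl A A' B := by
    simp only [brLead, add_mul, mul_add, h.addl, h.addr]
    abel
  addr A B B' := by
    simp only [brLead, add_mul, mul_add, h.addl, h.addr]
    abel

theorem brCj_add (l A A' : R) : brCj l (A + A') = brCj l A + brCj l A' := by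
  simp only [brCj]; noncomm_ring

theorem brBA_ex {φ : R → R → R} (h : brBA φ) (l : R) : brBA (brEx l φ) where
  addl A A' B := by
    simp only [brEx, brCj_add]
    rw [h.addl, h.addl]
    abel
  addr A B B' := by
    simp only [brEx, brCj_add]
    rw [h.addr, h.addr]
    abel

theorem brBA_add {φ ψ : R → R → R} (h : brBA φ) (h' : brBA ψ) : brBA (φ + ψ) where
  addl A A' B := by
    simp only [Pi.add_apply]; rw [h.addl, h'.addl]; abel
  addr A B B' := by
    simp only [Pi.add_apply]; rw [h.addr, h'.addr]; abel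

theorem brBA_neg {φ : R → R → R} (h : brBA φ) : brBA (-φ) where
  addl A A' B := by
    simp only [Pi.neg_apply]; rw [h.addl]; abel
  addr A B B' := by
    simp only [Pi.neg_apply]; rw [h.addr]; abel

theorem brBA_sub {φ ψ : R → R → R} (h : brBA φ) (h' : brBA ψ) : brBA (φ - ψ) := by
  rw [sub_eq_add_neg]; exact brBA_add h (brBA_neg h')

theorem brBA_zero : brBA (0 : R → R → R) where
  addl A A' B := by simp
  addr A B B' := by simp

/-- Biadditive maps of degree `n`. -/
structure brDg (a : Fin 4 → R) (n : Fin 4 →₀ ℕ) (φ : R → R → R) : Prop where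
  ba : brBA φ
  ww : ∀ s t A B, A ∈ brW a s → B ∈ brW a t → φ A B ∈ brW a (s + t + n)

/-- Biadditive maps of degree larger than `n`. -/
structure brNg (a : Fin 4 → R) (n : Fin 4 →₀ ℕ) (φ : R → R → R) : Prop where
  ba : brBA φ
  wh : ∀ s t A B, A ∈ brW a s → B ∈ brW a t → φ A B ∈ brH a (s + t + n)

theorem br_com {s : Fin 4 →₀ ℕ} {A : R} (hA : A ∈ brW a s) (i : Fin 4) :
    A * a i + a i * A ∈ brW a (s + single i 1) := by
  refine add_mem (brW_mul hA (brW_letter i)) ?_
  rw [add_comm s]
  exact brW_mul (brW_letter i) hA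

theorem br_lal {s : Fin 4 →₀ ℕ} {A : R} (hA : A ∈ brW a s) (i : Fin 4) :
    a i * A * a i ∈ brW a (s + single i 1 + single i 1) := by
  rw [add_comm s]
  exact brW_mul (brW_mul (brW_letter i) hA) (brW_letter i)

theorem brDg_lead {n : Fin 4 →₀ ℕ} {φ : R → R → R} (h : brDg a n φ) (i : Fin 4) :
    brDg a (n + single i 1) (brLead (a i) φ) where
  ba := brBA_lead h.ba _
  ww s t A B hA hB := by
    refine add_mem ?_ ?_
    · have := h.ww _ _ _ _ (br_com hA i) hB
      rwa [show s + single i 1 + t + n = s + t + (n + single i 1) by abel] at this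
    · have := h.ww _ _ _ _ hA (br_com hB i)
      rwa [show s + (t + single i 1) + n = s + t + (n + single i 1) by abel] at this

theorem brNg_exlead {n : Fin 4 →₀ ℕ} {φ : R → R → R} (h : brDg a n φ) (i : Fin 4) :
    brNg a (n + single i 1) (brEx (a i) φ - brLead (a i) φ) where
  ba := brBA_sub (brBA_ex h.ba _) (brBA_lead h.ba _)
  wh s t A B hA hB := by
    set e : Fin 4 →₀ ℕ := single i 1 with he
    have hpos : (0 : Fin 4 →₀ ℕ) < e := br_single_pos i
    have toH : ∀ (m k : Fin 4 →₀ ℕ) (x : R), m = s + t + (n + e) + (e + k) → x ∈ brW a m →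
        x ∈ brH a (s + t + (n + e)) := by
      intro m k x hm hx
      refine brW_H ?_ hx
      rw [hm]
      exact lt_add_of_pos_right _ (add_pos_of_pos_of_nonneg hpos zero_le)
    have e1 : (brEx (a i) φ - brLead (a i) φ) A B =
        φ A (a i * B * a i) + φ (A * a i + a i * A) (B * a i + a i * B) +
        φ (A * a i + a i * A) (a i * B * a i) + φ (a i * A * a i) B +
        φ (a i * A * a i) (B * a i + a i * B) + φ (a i * A * a i) (a i * B * a i) := by
      simp only [Pi.sub_apply, brEx, brLead, brCj, h.ba.addl, h.ba.addr]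
      abel
    rw [e1]
    have hu := br_com hA i
    have hu' := br_lal hA i
    have hv := br_com hB i
    have hv' := br_lal hB i
    rw [← he] at hu hu' hv hv'
    refine add_mem (add_mem (add_mem (add_mem (add_mem ?_ ?_) ?_) ?_) ?_) ?_
    · exact toH _ 0 _ (by abel) (h.ww _ _ _ _ hA hv')
    · exact toH _ 0 _ (by abel) (h.ww _ _ _ _ hu hv)
    · exact toH _ e _ (by abel) (h.ww _ _ _ _ hu hv')
    · exact toH _ 0 _ (by abel) (h.ww _ _ _ _ hu' hB)
    · exact toH _ e _ (by abel) (h.ww _ _ _ _ hu' hv)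
    · exact toH _ (e + e) _ (by abel) (h.ww _ _ _ _ hu' hv')

theorem brNg_ex {n : Fin 4 →₀ ℕ} {φ : R → R → R} (h : brNg a n φ) (i : Fin 4) :
    brNg a (n + single i 1) (brEx (a i) φ) where
  ba := brBA_ex h.ba _
  wh s t A B hA hB := by
    set e : Fin 4 →₀ ℕ := single i 1 with he
    have toH : ∀ (m k : Fin 4 →₀ ℕ) (x : R), m = s + t + (n + e) + k → x ∈ brH a m →
        x ∈ brH a (s + t + (n + e)) := by
      intro m k x hm hx
      refine brH_H ?_ hx
      rw [hm]
      exact le_self_add
    have e1 : brEx (a i) φ A B =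
        φ A (B * a i + a i * B) + φ A (a i * B * a i) + φ (A * a i + a i * A) B +
        φ (A * a i + a i * A) (B * a i + a i * B) +
        φ (A * a i + a i * A) (a i * B * a i) + φ (a i * A * a i) B +
        φ (a i * A * a i) (B * a i + a i * B) + φ (a i * A * a i) (a i * B * a i) := by
      simp only [brEx, brCj, h.ba.addl, h.ba.addr]
      abel
    rw [e1]
    have hu := br_com hA i
    have hu' := br_lal hA i
    have hv := br_com hB i
    have hv' := br_lal hB i
    rw [← he] at hu hu' hv hv'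
    refine add_mem (add_mem (add_mem (add_mem (add_mem (add_mem (add_mem ?_ ?_) ?_) ?_) ?_) ?_)
      ?_) ?_
    · exact toH _ 0 _ (by abel) (h.wh _ _ _ _ hA hv)
    · exact toH _ e _ (by abel) (h.wh _ _ _ _ hA hv')
    · exact toH _ 0 _ (by abel) (h.wh _ _ _ _ hu hB)
    · exact toH _ e _ (by abel) (h.wh _ _ _ _ hu hv)
    · exact toH _ (e + e) _ (by abel) (h.wh _ _ _ _ hu hv')
    · exact toH _ e _ (by abel) (h.wh _ _ _ _ hu' hB)
    · exact toH _ (e + e) _ (by abel) (h.wh _ _ _ _ hu' hv)
    · exact toH _ (e + e + e) _ (by abel) (h.wh _ _ _ _ hu' hv')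

theorem brEx_sub (l : R) (φ ψ : R → R → R) : brEx l (φ - ψ) = brEx l φ - brEx l ψ := by
  funext A B
  simp only [brEx, Pi.sub_apply]
  abel

theorem brNg_add {n : Fin 4 →₀ ℕ} {φ ψ : R → R → R} (h : brNg a n φ) (h' : brNg a n ψ) :
    brNg a n (φ + ψ) where
  ba := brBA_add h.ba h'.ba
  wh s t A B hA hB := add_mem (h.wh s t A B hA hB) (h'.wh s t A B hA hB)

/-- Iterated leading operators. -/
def brLL (φ : R → R → R) : List R → R → R → R
  | [] => φ
  | d :: ds => brLead d (brLL φ ds)

/-- Iterated exact operators. -/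
def brEE (φ : R → R → R) : List R → R → R → R
  | [] => φ
  | d :: ds => brEx d (brEE φ ds)

theorem br_diff {n : Fin 4 →₀ ℕ} {φ : R → R → R} (h : brDg a n φ) (ls : List (Fin 4)) :
    brDg a (n + brC ls) (brLL φ (ls.map a)) ∧
      brNg a (n + brC ls) (brEE φ (ls.map a) - brLL φ (ls.map a)) := by
  induction ls with
  | nil =>
    refine ⟨by simpa [brC, brLL] using h, ?_⟩
    have e : brEE φ (List.map a []) - brLL φ (List.map a []) = 0 := by
      simp [brEE, brLL]
    rw [e]
    exact ⟨brBA_zero, fun s t A B _ _ => zero_mem _⟩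
  | cons i ls ih =>
    obtain ⟨h1, h2⟩ := ih
    have hc : n + brC (i :: ls) = n + brC ls + single i 1 := by rw [brC_cons]; abel
    rw [hc]
    refine ⟨brDg_lead h1 i, ?_⟩
    have e : brEE φ (List.map a (i :: ls)) - brLL φ (List.map a (i :: ls)) =
        brEx (a i) (brEE φ (ls.map a) - brLL φ (ls.map a)) +
          (brEx (a i) (brLL φ (ls.map a)) - brLead (a i) (brLL φ (ls.map a))) := by
      rw [brEx_sub]
      simp only [List.map_cons, brEE, brLL]
      abel
    rw [e]
    exact brNg_add (brNg_ex h2 i) (brNg_exlead h1 i)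

/-! ### The exact relations -/

/-- The bilinear form of a relation. -/
def brPhi (m : ℕ) (p A B : R) : R := if m = 0 then p * A * p * B else A * p * B * p

theorem brBA_phi (m : ℕ) (p : R) : brBA (brPhi m p) where
  addl A A' B := by
    unfold brPhi
    split_ifs <;> noncomm_ring
  addr A B B' := by
    unfold brPhi
    split_ifs <;> noncomm_ring

theorem brDg_phi (m : ℕ) (i : Fin 4) : brDg a (single i 1 + single i 1) (brPhi m (a i)) where
  ba := brBA_phi m _
  ww s t A B hA hB := by
    unfold brPhi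
    split_ifs
    · have := brW_mul (brW_mul (brW_mul (brW_letter (a := a) i) hA) (brW_letter i)) hB
      rwa [show single i 1 + s + single i 1 + t = s + t + (single i 1 + single i 1) by abel]
        at this
    · have := brW_mul (brW_mul (brW_mul hA (brW_letter i)) hB) (brW_letter i)
      rwa [show s + single i 1 + t + single i 1 = s + t + (single i 1 + single i 1) by abel]
        at this

theorem br_exact {D : Set R} (hxy : ∀ X ∈ D, ∀ Y ∈ D, X * Y * X * Y = 0)
    (hcl : ∀ X ∈ D, ∀ Y ∈ D, (1 + Y) * X * (1 + Y) ∈ D) (m : ℕ) {p : R} (hp : p ∈ D)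
    (ls : List R) (hls : ∀ l ∈ ls, l ∈ D) : ∀ q ∈ D, brEE (brPhi m p) ls q q = 0 := by
  induction ls with
  | nil =>
    intro q hq
    change brPhi m p q q = 0
    unfold brPhi
    split_ifs
    · exact hxy p hp q hq
    · exact hxy q hq p hp
  | cons l ls ih =>
    intro q hq
    have ih' := ih (fun l' hl' => hls l' (List.mem_cons_of_mem _ hl'))
    have hl : l ∈ D := hls l List.mem_cons_self
    change brEE (brPhi m p) ls (brCj l q) (brCj l q) - brEE (brPhi m p) ls q q = 0
    have e : brCj l q = (1 + l) * q * (1 + l) := by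
      unfold brCj; noncomm_ring
    rw [e, ih' _ (hcl q hq l hl), ih' q hq, sub_zero]

theorem br_letters {D : Set R} (hxy : ∀ X ∈ D, ∀ Y ∈ D, X * Y * X * Y = 0)
    (hcl : ∀ X ∈ D, ∀ Y ∈ D, (1 + Y) * X * (1 + Y) ∈ D) (ha : ∀ i, a i ∈ D) (m : ℕ) (p q : Fin 4)
    (ls : List (Fin 4)) : brLL (brPhi m (a p)) (ls.map a) (a q) (a q) ∈
      brH a (single q 1 + single q 1 + (single p 1 + single p 1 + brC ls)) := by
  have h1 := (br_diff (brDg_phi (a := a) m p) ls).2.wh _ _ _ _ (brW_letter q) (brW_letter q)
  have h2 := br_exact hxy hcl m (ha p) (ls.map a) (by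
    intro l hl
    obtain ⟨i, _, rfl⟩ := List.mem_map.mp hl
    exact ha i) (a q) (ha q)
  rw [Pi.sub_apply, Pi.sub_apply, h2, zero_sub] at h1
  exact neg_mem_iff.mp h1

/-! ### Lie monomials -/

/-- The span of the iterated leading operators of content `n`. -/
def brG (a : Fin 4 → R) (φ : R → R → R) (n : Fin 4 →₀ ℕ) : AddSubgroup (R → R → R) :=
  AddSubgroup.closure {ψ | ∃ ls : List (Fin 4), brC ls = n ∧ ψ = brLL φ (ls.map a)}

theorem brBA_LL {φ : R → R → R} (h : brBA φ) (ls : List R) : brBA (brLL φ ls) := by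
  induction ls with
  | nil => exact h
  | cons d ls ih => exact brBA_lead ih d

theorem brG_ba {φ : R → R → R} (h : brBA φ) {n : Fin 4 →₀ ℕ} {ψ : R → R → R}
    (hψ : ψ ∈ brG a φ n) : brBA ψ := by
  induction hψ using AddSubgroup.closure_induction with
  | mem x hx =>
    obtain ⟨ls, -, rfl⟩ := hx
    exact brBA_LL h _
  | zero => exact brBA_zero
  | add x y _ _ hx hy => exact brBA_add hx hy
  | neg x _ hx => exact brBA_neg hx

theorem brLead_add (d : R) (φ ψ : R → R → R) : brLead d (φ + ψ) = brLead d φ + brLead d ψ := by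
  funext A B
  simp only [brLead, Pi.add_apply]
  abel

theorem brLead_neg (d : R) (φ : R → R → R) : brLead d (-φ) = -brLead d φ := by
  funext A B
  simp only [brLead, Pi.neg_apply]
  abel

theorem brLead_zero (d : R) : brLead d (0 : R → R → R) = 0 := by
  funext A B
  simp [brLead]

theorem brG_letter {φ : R → R → R} {n : Fin 4 →₀ ℕ} {ψ : R → R → R} (hψ : ψ ∈ brG a φ n)
    (i : Fin 4) : brLead (a i) ψ ∈ brG a φ (single i 1 + n) := by
  induction hψ using AddSubgroup.closure_induction with
  | mem x hx =>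
    obtain ⟨ls, hls, rfl⟩ := hx
    exact AddSubgroup.subset_closure ⟨i :: ls, by rw [brC_cons, hls], rfl⟩
  | zero => rw [brLead_zero]; exact zero_mem _
  | add x y _ _ hx hy => rw [brLead_add]; exact add_mem hx hy
  | neg x _ hx => rw [brLead_neg]; exact neg_mem hx

theorem brLead_lie (h2 : (2 : R) = 0) {φ : R → R → R} (h : brBA φ) (d l : R) :
    brLead (d * l + l * d) φ = brLead d (brLead l φ) + brLead l (brLead d φ) := by
  have hdd : ∀ x : R, x + x = 0 := fun x => by rw [← two_mul, h2, zero_mul]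
  have jac : ∀ A : R, A * (d * l + l * d) + (d * l + l * d) * A =
      ((A * d + d * A) * l + l * (A * d + d * A)) + ((A * l + l * A) * d + d * (A * l + l * A)) := by
    intro A
    have e : ((A * d + d * A) * l + l * (A * d + d * A)) +
        ((A * l + l * A) * d + d * (A * l + l * A)) =
        A * (d * l + l * d) + (d * l + l * d) * A + ((d * A * l + d * A * l) +
          (l * A * d + l * A * d)) := by noncomm_ring
    rw [e, hdd, hdd, add_zero, add_zero]
  funext A B
  simp only [brLead, Pi.add_apply]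
  rw [jac A, jac B, h.addl, h.addr]
  have c1 := hdd (φ (A * d + d * A) (B * l + l * B))
  have c2 := hdd (φ (A * l + l * A) (B * d + d * B))
  generalize φ (A * d + d * A) (B * l + l * B) = X at *
  generalize φ (A * l + l * A) (B * d + d * B) = Y at *
  generalize φ ((A * d + d * A) * l + l * (A * d + d * A)) B = P at *
  generalize φ ((A * l + l * A) * d + d * (A * l + l * A)) B = Q at *
  generalize φ A ((B * d + d * B) * l + l * (B * d + d * B)) = P' at *
  generalize φ A ((B * l + l * B) * d + d * (B * l + l * B)) = Q' at *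
  calc P + Q + (P' + Q') = P + Q + (P' + Q') + (X + X) + (Y + Y) := by
        rw [c1, c2, add_zero, add_zero]
    _ = _ := by abel

theorem brG_lie (h2 : (2 : R) = 0) {φ : R → R → R} (h : brBA φ) (x : Fin 4) (ls : List (Fin 4)) :
    ∀ {n : Fin 4 →₀ ℕ} {ψ : R → R → R}, ψ ∈ brG a φ n →
      brLead (lieE (a x) (ls.map a)) ψ ∈ brG a φ (brC (x :: ls) + n) := by
  induction ls with
  | nil =>
    intro n ψ hψ
    have := brG_letter hψ x
    simpa [brC, lieE] using this
  | cons l ls ih =>
    intro n ψ hψ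
    change brLead (lieE (a x) (ls.map a) * a l + a l * lieE (a x) (ls.map a)) ψ ∈ _
    rw [brLead_lie h2 (brG_ba h hψ)]
    have e1 : brC (x :: l :: ls) + n = brC (x :: ls) + (single l 1 + n) := by
      simp only [brC_cons]; abel
    have e2 : brC (x :: l :: ls) + n = single l 1 + (brC (x :: ls) + n) := by
      simp only [brC_cons]; abel
    refine add_mem ?_ ?_
    · rw [e1]
      exact ih (brG_letter hψ l)
    · rw [e2]
      exact brG_letter (ih hψ) l

/-- The letters of a Lie monomial. -/
def brLm {K : Type} (x : Fin 4 → K) (d : Fin 4 × List (Fin 4)) : K × List K := (x d.1, d.2.map x)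

/-- The content of a list of Lie monomials. -/
noncomputable def brCL (ds : List (Fin 4 × List (Fin 4))) : Fin 4 →₀ ℕ :=
  (ds.map fun d => brC (d.1 :: d.2)).sum

theorem brCL_cons (d : Fin 4 × List (Fin 4)) (ds : List (Fin 4 × List (Fin 4))) :
    brCL (d :: ds) = brC (d.1 :: d.2) + brCL ds := by simp [brCL]

theorem brG_LL (h2 : (2 : R) = 0) {φ : R → R → R} (h : brBA φ)
    (ds : List (Fin 4 × List (Fin 4))) :
    brLL φ ((ds.map (brLm a)).map fun d => lieE d.1 d.2) ∈ brG a φ (brCL ds) := by
  induction ds with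
  | nil => exact AddSubgroup.subset_closure ⟨[], rfl, rfl⟩
  | cons d ds ih =>
    rw [brCL_cons]
    exact brG_lie h2 h d.1 d.2 ih

theorem br_sumS (m : ℕ) (p q : R) (ds : List (R × List R)) : ∀ s1 s2 : List (R × List R),
    sumS m p q ds s1 s2 =
      brLL (brPhi m p) (ds.map fun d => lieE d.1 d.2) (hatE q s1) (hatE q s2) := by
  induction ds with
  | nil => intro s1 s2; rfl
  | cons d ds ih =>
    intro s1 s2
    change sumS m p q ds (d :: s1) s2 + sumS m p q ds s1 (d :: s2) = _
    rw [ih, ih]
    rfl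

theorem br_inst (h2 : (2 : R) = 0) {D : Set R} (hxy : ∀ X ∈ D, ∀ Y ∈ D, X * Y * X * Y = 0)
    (hcl : ∀ X ∈ D, ∀ Y ∈ D, (1 + Y) * X * (1 + Y) ∈ D) (ha : ∀ i, a i ∈ D) (m : ℕ) (p q : Fin 4)
    (ds : List (Fin 4 × List (Fin 4))) : sumS m (a p) (a q) (ds.map (brLm a)) [] [] ∈
      brH a (single q 1 + single q 1 + (single p 1 + single p 1 + brCL ds)) := by
  rw [br_sumS]
  have h := brG_LL (a := a) h2 (brBA_phi m (a p)) ds
  generalize brLL (brPhi m (a p)) ((ds.map (brLm a)).map fun d => lieE d.1 d.2) = ψ at h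
  change ψ (a q) (a q) ∈ _
  generalize brCL ds = n at *
  induction h using AddSubgroup.closure_induction with
  | mem x hx =>
    obtain ⟨ls, hls, rfl⟩ := hx
    rw [← hls]
    exact br_letters hxy hcl ha m p q ls
  | zero => exact zero_mem _
  | add x y _ _ hx hy => exact add_mem hx hy
  | neg x _ hx => exact neg_mem hx

/-! ### The graded ring -/

/-- The Rees type subring. -/
def brS (a : Fin 4 → R) : Subring (MvPowerSeries (Fin 4) R) where
  carrier := {f | ∀ n, MvPowerSeries.coeff n f ∈ brW a n}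
  mul_mem' := by
    classical
    intro f g hf hg n
    rw [MvPowerSeries.coeff_mul]
    refine sum_mem fun ij hij => ?_
    rw [← Finset.HasAntidiagonal.mem_antidiagonal.mp hij]
    exact brW_mul (hf _) (hg _)
  one_mem' := by
    classical
    intro n
    rw [MvPowerSeries.coeff_one]
    split_ifs with h
    · rw [h]; exact brW_one
    · exact zero_mem _
  add_mem' := by
    intro f g hf hg n
    rw [map_add]
    exact add_mem (hf n) (hg n)
  zero_mem' := by
    intro n
    rw [map_zero]
    exact zero_mem _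
  neg_mem' := by
    intro f hf n
    rw [map_neg]
    exact neg_mem (hf n)

theorem brS_coeff (f : brS a) (n : Fin 4 →₀ ℕ) : MvPowerSeries.coeff n f.1 ∈ brW a n := f.2 n

/-- The ideal of the elements of larger content. -/
def brI (a : Fin 4 → R) : Ideal (brS a) where
  carrier := {f | ∀ n, MvPowerSeries.coeff n f.1 ∈ brH a n}
  add_mem' := by
    intro f g hf hg n
    change MvPowerSeries.coeff n (f.1 + g.1) ∈ brH a n
    rw [map_add]
    exact add_mem (hf n) (hg n)
  zero_mem' := by
    intro n
    change MvPowerSeries.coeff n (0 : MvPowerSeries (Fin 4) R) ∈ brH a n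
    rw [map_zero]
    exact zero_mem _
  smul_mem' := by
    classical
    intro c f hf n
    change MvPowerSeries.coeff n (c.1 * f.1) ∈ brH a n
    rw [MvPowerSeries.coeff_mul]
    refine sum_mem fun ij hij => ?_
    rw [← Finset.HasAntidiagonal.mem_antidiagonal.mp hij]
    exact brH_mul' (brS_coeff c _) (hf _)

instance brI_two (a : Fin 4 → R) : (brI a).IsTwoSided where
  mul_mem_of_left := by
    classical
    intro f c hf n
    change MvPowerSeries.coeff n (f.1 * c.1) ∈ brH a n
    rw [MvPowerSeries.coeff_mul]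
    refine sum_mem fun ij hij => ?_
    rw [← Finset.HasAntidiagonal.mem_antidiagonal.mp hij]
    exact brH_mul (hf _) (brS_coeff c _)

/-- Homogeneous elements. -/
noncomputable def brMon (a : Fin 4 → R) (n : Fin 4 →₀ ℕ) (r : R) (h : r ∈ brW a n) : brS a :=
  ⟨MvPowerSeries.monomial n r, by
    classical
    intro k
    rw [MvPowerSeries.coeff_monomial]
    split_ifs with hk
    · rw [hk]; exact h
    · exact zero_mem _⟩

/-- The graded ring. -/
abbrev brK (a : Fin 4 → R) : Type := brS a ⧸ brI a

/-- `X` is the class of the homogeneous element with coefficient `r` and degree `n`. -/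
def brRep (a : Fin 4 → R) (X : brK a) (n : Fin 4 →₀ ℕ) (r : R) : Prop :=
  ∃ h : r ∈ brW a n, X = Ideal.Quotient.mk (brI a) (brMon a n r h)

theorem brRep_mul {X Y : brK a} {n m : Fin 4 →₀ ℕ} {r s : R} (hX : brRep a X n r)
    (hY : brRep a Y m s) : brRep a (X * Y) (n + m) (r * s) := by
  obtain ⟨h1, rfl⟩ := hX
  obtain ⟨h2, rfl⟩ := hY
  refine ⟨brW_mul h1 h2, ?_⟩
  rw [← map_mul]
  congr 1
  apply Subtype.ext
  change MvPowerSeries.monomial n r * MvPowerSeries.monomial m s =
    MvPowerSeries.monomial (n + m) (r * s)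
  exact MvPowerSeries.monomial_mul_monomial _ _ _ _

theorem brRep_add {X Y : brK a} {n : Fin 4 →₀ ℕ} {r s : R} (hX : brRep a X n r)
    (hY : brRep a Y n s) : brRep a (X + Y) n (r + s) := by
  obtain ⟨h1, rfl⟩ := hX
  obtain ⟨h2, rfl⟩ := hY
  refine ⟨add_mem h1 h2, ?_⟩
  rw [← map_add]
  congr 1
  apply Subtype.ext
  change MvPowerSeries.monomial n r + MvPowerSeries.monomial n s =
    MvPowerSeries.monomial n (r + s)
  exact (map_add _ _ _).symm

theorem brRep_H {X : brK a} {n : Fin 4 →₀ ℕ} {r : R} (hX : brRep a X n r) (h : X = 0) :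
    r ∈ brH a n := by
  obtain ⟨h1, rfl⟩ := hX
  have := Ideal.Quotient.eq_zero_iff_mem.mp h
  have := this n
  change MvPowerSeries.coeff n (MvPowerSeries.monomial n r) ∈ _ at this
  rwa [MvPowerSeries.coeff_monomial_same] at this

theorem brRep_zero {X : brK a} {n : Fin 4 →₀ ℕ} {r : R} (hX : brRep a X n r)
    (h : r ∈ brH a n) : X = 0 := by
  classical
  obtain ⟨h1, rfl⟩ := hX
  refine Ideal.Quotient.eq_zero_iff_mem.mpr fun k => ?_
  change MvPowerSeries.coeff k (MvPowerSeries.monomial n r) ∈ _
  rw [MvPowerSeries.coeff_monomial]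
  split_ifs with hk
  · rw [hk]; exact h
  · exact zero_mem _

theorem brRep_deg {X : brK a} {n m : Fin 4 →₀ ℕ} {r : R} (hX : brRep a X n r) (h : n = m) :
    brRep a X m r := h ▸ hX

theorem brRep_one : brRep a 1 0 1 := by
  refine ⟨brW_one, ?_⟩
  rw [← map_one (Ideal.Quotient.mk (brI a))]
  congr 1

/-- The letters of the graded ring. -/
noncomputable def brX (a : Fin 4 → R) (i : Fin 4) : brK a :=
  Ideal.Quotient.mk (brI a) (brMon a (single i 1) (a i) (brW_letter i))

theorem brRep_X (i : Fin 4) : brRep a (brX a i) (single i 1) (a i) := ⟨brW_letter i, rfl⟩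

theorem brRep_word (w : List (Fin 4)) :
    brRep a (w.map (brX a)).prod (brC w) (w.map a).prod := by
  induction w with
  | nil => exact brRep_one
  | cons i w ih =>
    rw [brC_cons, List.map_cons, List.map_cons, List.prod_cons, List.prod_cons]
    exact brRep_mul (brRep_X i) ih

theorem brRep_lie (x : Fin 4) (ls : List (Fin 4)) :
    brRep a (lieE (brX a x) (ls.map (brX a))) (brC (x :: ls)) (lieE (a x) (ls.map a)) := by
  induction ls with
  | nil => exact brRep_deg (brRep_X x) (by simp [brC])
  | cons l ls ih =>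
    have e1 : brC (x :: ls) + single l 1 = brC (x :: l :: ls) := by
      simp only [brC_cons]; abel
    have e2 : single l 1 + brC (x :: ls) = brC (x :: l :: ls) := by
      simp only [brC_cons]; abel
    exact brRep_add (brRep_deg (brRep_mul ih (brRep_X l)) e1)
      (brRep_deg (brRep_mul (brRep_X l) ih) e2)

theorem brRep_hat (q : Fin 4) (ds : List (Fin 4 × List (Fin 4))) :
    brRep a (hatE (brX a q) (ds.map (brLm (brX a)))) (single q 1 + brCL ds)
      (hatE (a q) (ds.map (brLm a))) := by
  induction ds with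
  | nil => exact brRep_deg (brRep_X q) (by simp [brCL])
  | cons d ds ih =>
    have e1 : single q 1 + brCL ds + brC (d.1 :: d.2) = single q 1 + brCL (d :: ds) := by
      rw [brCL_cons]; abel
    have e2 : brC (d.1 :: d.2) + (single q 1 + brCL ds) = single q 1 + brCL (d :: ds) := by
      rw [brCL_cons]; abel
    exact brRep_add (brRep_deg (brRep_mul ih (brRep_lie d.1 d.2)) e1)
      (brRep_deg (brRep_mul (brRep_lie d.1 d.2) ih) e2)

theorem brRep_sumS (m : ℕ) (p q : Fin 4) (ds : List (Fin 4 × List (Fin 4))) :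
    ∀ s1 s2 : List (Fin 4 × List (Fin 4)),
    brRep a (sumS m (brX a p) (brX a q) (ds.map (brLm (brX a))) (s1.map (brLm (brX a)))
        (s2.map (brLm (brX a))))
      (single q 1 + single q 1 + (single p 1 + single p 1 + (brCL ds + brCL s1 + brCL s2)))
      (sumS m (a p) (a q) (ds.map (brLm a)) (s1.map (brLm a)) (s2.map (brLm a))) := by
  induction ds with
  | nil =>
    intro s1 s2
    have h1 := brRep_hat (a := a) q s1
    have h2 := brRep_hat (a := a) q s2
    have hp := brRep_X (a := a) p
    change brRep a (if m = 0 then _ else _) _ (if m = 0 then _ else _)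
    have e0 : brCL [] = 0 := rfl
    split_ifs
    · exact brRep_deg (brRep_mul (brRep_mul (brRep_mul hp h1) hp) h2) (by rw [e0]; abel)
    · exact brRep_deg (brRep_mul (brRep_mul (brRep_mul h1 hp) h2) hp) (by rw [e0]; abel)
  | cons d ds ih =>
    intro s1 s2
    refine brRep_add (brRep_deg (ih (d :: s1) s2) ?_) (brRep_deg (ih s1 (d :: s2)) ?_)
    · simp only [brCL_cons]; abel
    · simp only [brCL_cons]; abel

theorem br_RlS (h2 : (2 : R) = 0) {D : Set R} (hsq : ∀ X ∈ D, X * X = 0)
    (hxy : ∀ X ∈ D, ∀ Y ∈ D, X * Y * X * Y = 0)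
    (hcl : ∀ X ∈ D, ∀ Y ∈ D, (1 + Y) * X * (1 + Y) ∈ D) (ha : ∀ i, a i ∈ D) :
    RlS (Set.range (brX a)) where
  two := by
    have h3 : (2 : MvPowerSeries (Fin 4) R) = 0 := by
      have e : (2 : MvPowerSeries (Fin 4) R) = MvPowerSeries.C (2 : R) := by
        rw [map_ofNat]
      rw [e, h2, map_zero]
    have h4 : (2 : brS a) = 0 := Subtype.ext h3
    have e : (2 : brK a) = Ideal.Quotient.mk (brI a) 2 := by rw [map_ofNat]
    rw [e, h4, map_zero]
  sq := by
    rintro _ ⟨i, rfl⟩
    refine brRep_zero (brRep_mul (brRep_X i) (brRep_X i)) ?_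
    rw [hsq _ (ha i)]
    exact zero_mem _
  inst := by
    rintro m _ ⟨p, rfl⟩ _ ⟨q, rfl⟩ ds hds
    obtain ⟨ds', rfl⟩ : ∃ ds' : List (Fin 4 × List (Fin 4)), ds = ds'.map (brLm (brX a)) := by
      induction ds with
      | nil => exact ⟨[], rfl⟩
      | cons d ds ih =>
        obtain ⟨ds', hds'⟩ := ih (fun d' hd' => hds d' (List.mem_cons_of_mem _ hd'))
        obtain ⟨⟨i, hi⟩, hls⟩ := hds d List.mem_cons_self
        obtain ⟨ls, hls'⟩ : ∃ ls : List (Fin 4), ls.map (brX a) = d.2 := by
          have : ∀ L : List (brK a), (∀ x ∈ L, x ∈ Set.range (brX a)) →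
              ∃ ls : List (Fin 4), ls.map (brX a) = L := by
            intro L
            induction L with
            | nil => intro _; exact ⟨[], rfl⟩
            | cons x L ihL =>
              intro hL
              obtain ⟨ls, hl⟩ := ihL (fun y hy => hL y (List.mem_cons_of_mem _ hy))
              obtain ⟨j, hj⟩ := hL x List.mem_cons_self
              exact ⟨j :: ls, by rw [List.map_cons, hl, hj]⟩
          exact this d.2 hls
        refine ⟨(i, ls) :: ds', ?_⟩
        rw [List.map_cons, ← hds']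
        congr 1
        exact Prod.ext hi.symm hls'.symm
    have h := brRep_sumS (a := a) m p q ds' [] []
    refine brRep_zero h ?_
    have h5 := br_inst h2 hxy hcl ha m p q ds'
    have e0 : brCL [] = 0 := rfl
    rw [e0, add_zero, add_zero]
    exact h5

end

/-- The bridge from the graded relations to exact relations. -/
theorem bridge {R : Type} [Ring R] (h2 : (2 : R) = 0) (D : Set R) (hsq : ∀ X ∈ D, X * X = 0)
    (hxy : ∀ X ∈ D, ∀ Y ∈ D, X * Y * X * Y = 0)
    (hcl : ∀ X ∈ D, ∀ Y ∈ D, (1 + Y) * X * (1 + Y) ∈ D)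
    (hnil : ∃ N : ℕ, ∀ l : List R, l.length = N → (∀ X ∈ l, X ∈ D) → l.prod = 0)
    (a : Fin 4 → R) (ha : ∀ i, a i ∈ D) (P : (Fin 4 → ℕ) → Prop)
    (hP : ∀ n n', P n → n ≤ n' → P n')
    (hK : ∀ (K : Type) [Ring K] (A : Set K), RlS A → ∀ x : Fin 4 → K, (∀ i, x i ∈ A) →
      ∀ w : List (Fin 4), P (fun i => w.count i) → (w.map x).prod = 0) :
    ∀ w : List (Fin 4), P (fun i => w.count i) → (w.map a).prod = 0 := by
  obtain ⟨N, hN⟩ := hnil
  have hlong : ∀ w : List (Fin 4), N ≤ w.length → (w.map a).prod = 0 := by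
    intro w hw
    have h1 : ((w.map a).take N).prod = 0 := by
      refine hN _ (by simp [hw]) fun X hX => ?_
      obtain ⟨i, _, rfl⟩ := List.mem_map.mp (List.mem_of_mem_take hX)
      exact ha i
    rw [← List.take_append_drop N (w.map a), List.prod_append, h1, zero_mul]
  have hfun : ∀ w : List (Fin 4), (fun i => w.count i) = (brC w : Fin 4 → ℕ) := fun w => by
    funext i
    exact (brC_apply w i).symm
  have key : ∀ k : ℕ, ∀ w : List (Fin 4), N - w.length ≤ k → P (fun i => w.count i) →
      (w.map a).prod = 0 := by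
    intro k
    induction k with
    | zero =>
      intro w hw _
      exact hlong w (by omega)
    | succ k ih =>
      intro w hw hPw
      by_cases hlen : N ≤ w.length
      · exact hlong w hlen
      · have hz : (w.map (brX a)).prod = 0 :=
          hK (brK a) (Set.range (brX a)) (br_RlS h2 hsq hxy hcl ha) (brX a)
            (fun i => ⟨i, rfl⟩) w hPw
        have hH : (w.map a).prod ∈ brH a (brC w) := brRep_H (brRep_word w) hz
        have hbot : brH a (brC w) = ⊥ := by
          rw [brH, AddSubgroup.closure_eq_bot_iff]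
          rintro _ ⟨v, hv, rfl⟩
          have hlt := brC_length hv
          rw [Set.mem_singleton_iff]
          refine ih v (by omega) (hP _ _ hPw ?_)
          rw [hfun, hfun]
          exact hv.le
        rw [hbot] at hH
        exact (AddSubgroup.mem_bot).mp hH
  intro w hw
  exact key (N - w.length) w le_rfl hw

end Pool.Agent.L3E.GJ
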