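import Pool.Agent.L3E.GJ.F4
import Pool.Agent.L3E.GJ.Br

set_option autoImplicit false

/-!
# L3E, module GJ.Fin: words of large content in four letters of `D` vanish
-/

namespace Pool.Agent.L3E.GJ

/-- The content vector of a quadruple. -/
def v4 (c : ℕ × ℕ × ℕ × ℕ) : Fin 4 → ℕ := ![c.1, c.2.1, c.2.2.1, c.2.2.2]

/-- Contents of the nonzero blocks. -/
def AL : List (ℕ × ℕ × ℕ × ℕ) := [(0, 0, 0, 0), (1, 0, 0, 0), (1, 1, 0, 0), (2, 1, 0, 0), (1, 1, 1, 0), (2, 1, 1, 0), (1, 1, 1, 1), (3, 1, 1, 0), (2, 2, 1, 0), (2, 1, 1, 1), (3, 2, 1, 0), (3, 1, 1, 1), (2, 2, 2, 0), (2, 2, 1, 1), (4, 2, 1, 0), (4, 1, 1, 1), (3, 2, 2, 0), (3, 2, 1, 1), (2, 2, 2, 1), (4, 2, 2, 0), (4, 2, 1, 1), (3, 3, 2, 0), (3, 3, 1, 1), (3, 2, 2, 1), (2, 2, 2, 2), (5, 2, 2, 0), (5, 2, 1, 1), (4, 3, 2, 0), (4, 3, 1, 1), (4, 2, 2, 1), (3, 3, 2, 1), (3, 2, 2, 2), (5, 2, 2, 1), (4, 3, 2, 1), (4, 2, 2, 2), (3, 3, 3, 1), (3, 3, 2, 2), (6, 2, 2, 1), (5, 3, 2,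 1), (5, 2, 2, 2), (4, 4, 2, 1), (4, 3, 3, 1), (4, 3, 2, 2), (3, 3, 3, 2), (6, 2, 2, 2), (5, 4, 2, 1), (5, 3, 2, 2), (4, 4, 3, 1), (4, 4, 2, 2), (4, 3, 3, 2), (3, 3, 3, 3), (7, 2, 2, 2), (6, 3, 2, 2), (5, 4, 2, 2), (5, 3, 3, 2), (4, 4, 3, 2), (4, 3, 3, 3), (6, 4, 2, 2), (5, 4, 3, 2), (5, 3, 3, 3), (4, 4, 3, 3), (5, 4, 3, 3), (4, 4, 4, 3)]

/-- Contents of the zero blocks. -/
def DL : List (ℕ × ℕ × ℕ × ℕ) := [(2, 0, 0, 0), (3, 1, 0, 0), (2, 2, 0, 0), (4, 1, 1, 0), (3, 3, 1, 0), (5, 2, 1, 0), (5, 1, 1, 1), (4, 3, 1, 0), (3, 3, 3, 0), (6, 2, 2, 0), (6, 2, 1, 1), (5, 3, 2, 0), (5, 3, 1, 1), (4, 4, 2, 0), (4, 4, 1, 1), (4, 3, 3, 0), (7, 2, 2, 1), (6, 3, 2, 1), (5, 3, 3, 1), (6, 4, 2, 1), (5, 5, 2, 1), (5, 4, 3, 1), (4, 4, 4, 1), (8, 2, 2, 2), (7, 3, 2, 2), (6, 3, 3, 2), (5, 5, 2, 2), (4, 4, 4, 2), (7, 4, 2, 2), (6, 5, 2, 2), (6, 4, 3, 2), (6, 3, 3, 3), (5, 5, 3, 2), (5, 4, 4, 2), (6, 4, 3, 3), (5, 5, 3, 3), (5, 4, 4, 3), (4,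 4, 4, 4)]

section
variable {K : Type} [Ring K] {A : Set K}

/-- All words of content `n` in letters from `A` vanish. -/
def ZW (A : Set K) (n : Fin 4 → ℕ) : Prop :=
  ∀ x : Fin 4 → K, (∀ i, x i ∈ A) → ∀ w : List (Fin 4), (∀ i, w.count i = n i) →
    (w.map x).prod = 0

theorem zw_perm {n : Fin 4 → ℕ} (τ : Equiv.Perm (Fin 4)) (h : ZW A (n ∘ τ)) : ZW A n := by
  intro x hx w hw
  have := h (x ∘ τ) (fun i => hx _) (w.map τ.symm) (fun i => by
    have e := List.count_map_of_injective w τ.symm τ.symm.injective (τ i)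
    rw [τ.symm_apply_apply] at e
    rw [e, hw (τ i)]
    rfl)
  rw [List.map_map] at this
  rw [← this]
  congr 2
  funext i
  simp

theorem zw_of {c : ℕ × ℕ × ℕ × ℕ} {e : K → K → K → K → ℕ → K}
    (hw : ∀ {a b c' d : K}, Q A a b c' d → WP (v4 c) ![a, b, c', d] (e a b c' d))
    (he : ∀ {a b c' d : K}, ∀ k, 0 ≤ k → e a b c' d k = 0) (hA : RlS A) : ZW A (v4 c) := by
  intro x hx w hw'
  have hx4 : x = ![x 0, x 1, x 2, x 3] := by
    funext i
    fin_cases i <;> rfl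
  obtain ⟨v, hv⟩ := hw ⟨hA, hx 0, hx 1, hx 2, hx 3⟩ w hw'
  rw [← hx4, vec_null _ (fun k => he k (Nat.zero_le k))] at hv
  exact hv

theorem zw_DL (hA : RlS A) : ∀ c ∈ DL, ZW A (v4 c) := by
  intro c hc
  simp only [DL, List.mem_cons, List.not_mem_nil, or_false] at hc
  rcases hc with rfl | rfl | rfl | rfl | rfl | rfl | rfl | rfl | rfl | rfl | rfl | rfl | rfl | rfl | rfl | rfl | rfl | rfl | rfl | rfl | rfl | rfl | rfl | rfl | rfl | rfl | rfl | rfl | rfl | rfl | rfl | rfl | rfl | rfl | rfl | rfl | rfl | rfl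
  · exact zw_of (fun h => w2000 h) ez2000 hA
  · exact zw_of (fun h => w3100 h) ez3100 hA
  · exact zw_of (fun h => w2200 h) ez2200 hA
  · exact zw_of (fun h => w4110 h) ez4110 hA
  · exact zw_of (fun h => w3310 h) ez3310 hA
  · exact zw_of (fun h => w5210 h) ez5210 hA
  · exact zw_of (fun h => w5111 h) ez5111 hA
  · exact zw_of (fun h => w4310 h) ez4310 hA
  · exact zw_of (fun h => w3330 h) ez3330 hA
  · exact zw_of (fun h => w6220 h) ez6220 hA
  · exact zw_of (fun h => w6211 h) ez6211 hA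
  · exact zw_of (fun h => w5320 h) ez5320 hA
  · exact zw_of (fun h => w5311 h) ez5311 hA
  · exact zw_of (fun h => w4420 h) ez4420 hA
  · exact zw_of (fun h => w4411 h) ez4411 hA
  · exact zw_of (fun h => w4330 h) ez4330 hA
  · exact zw_of (fun h => w7221 h) ez7221 hA
  · exact zw_of (fun h => w6321 h) ez6321 hA
  · exact zw_of (fun h => w5331 h) ez5331 hA
  · exact zw_of (fun h => w6421 h) ez6421 hA
  · exact zw_of (fun h => w5521 h) ez5521 hA
  · exact zw_of (fun h => w5431 h) ez5431 hA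
  · exact zw_of (fun h => w4441 h) ez4441 hA
  · exact zw_of (fun h => w8222 h) ez8222 hA
  · exact zw_of (fun h => w7322 h) ez7322 hA
  · exact zw_of (fun h => w6332 h) ez6332 hA
  · exact zw_of (fun h => w5522 h) ez5522 hA
  · exact zw_of (fun h => w4442 h) ez4442 hA
  · exact zw_of (fun h => w7422 h) ez7422 hA
  · exact zw_of (fun h => w6522 h) ez6522 hA
  · exact zw_of (fun h => w6432 h) ez6432 hA
  · exact zw_of (fun h => w6333 h) ez6333 hA
  · exact zw_of (fun h => w5532 h) ez5532 hA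
  · exact zw_of (fun h => w5442 h) ez5442 hA
  · exact zw_of (fun h => w6433 h) ez6433 hA
  · exact zw_of (fun h => w5533 h) ez5533 hA
  · exact zw_of (fun h => w5443 h) ez5443 hA
  · exact zw_of (fun h => w4444 h) ez4444 hA

theorem zw_step {n : Fin 4 → ℕ} (h0 : ∃ i, n i ≠ 0)
    (h : ∀ i, n i ≠ 0 → ZW A (fun j => n j - if j = i then 1 else 0)) : ZW A n := by
  intro x hx w hw
  rcases List.eq_nil_or_concat w with rfl | ⟨w', l, rfl⟩
  · obtain ⟨i, hi⟩ := h0
    exact absurd (hw i).symm (by simpa using hi)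
  · have hc : ∀ i, w'.count i + (if i = l then 1 else 0) = n i := by
      intro i
      rw [← hw i, List.concat_eq_append, List.count_append]
      congr 1
      rw [List.count_singleton]
      by_cases h : i = l
      · simp [h]
      · have h' : ¬ l = i := fun h2 => h h2.symm
        simp [h, h']
    have := h l (by rw [← hc l, if_pos rfl]; omega) x hx w' (fun i => by
      have := hc i
      change w'.count i = n i - if i = l then 1 else 0
      omega)
    rw [List.concat_eq_append, List.map_append, List.prod_append, this, zero_mul]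

theorem chkAD : ∀ c ∈ AL, ∀ j : Fin 4, ∃ f : Fin 4, ∃ c' ∈ AL ++ DL, ∀ i,
    v4 c' i = v4 c (Equiv.swap f j i) + if Equiv.swap f j i = j then 1 else 0 := by
  decide +kernel

theorem zw_or (hA : RlS A) : ∀ N : ℕ, ∀ n : Fin 4 → ℕ, ∑ i, n i = N →
    (∃ c ∈ AL, ∃ τ : Equiv.Perm (Fin 4), n ∘ τ = v4 c) ∨ ZW A n := by
  intro N
  induction N with
  | zero =>
    intro n hn
    left
    refine ⟨(0, 0, 0, 0), by decide +kernel, 1, ?_⟩
    funext i
    have : n i = 0 := by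
      rw [Finset.sum_eq_zero_iff] at hn
      exact hn i (Finset.mem_univ i)
    change n i = _
    rw [this]
    fin_cases i <;> rfl
  | succ N ih =>
    intro n hn
    by_cases h : ∀ i, n i ≠ 0 → ZW A (fun j => n j - if j = i then 1 else 0)
    · right
      refine zw_step ?_ h
      by_contra hcon
      push Not at hcon
      rw [Finset.sum_eq_zero (fun i _ => hcon i)] at hn
      omega
    · push Not at h
      obtain ⟨i, hi, hZ⟩ := h
      have hs : ∑ j, (n j - if j = i then 1 else 0) = N := by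
        have e : ∑ j, ((n j - if j = i then 1 else 0) + if j = i then 1 else 0) = ∑ j, n j := by
          refine Finset.sum_congr rfl fun j _ => ?_
          by_cases hj : j = i
          · subst hj
            rw [if_pos rfl]
            omega
          · rw [if_neg hj]
            omega
        rw [Finset.sum_add_distrib, Finset.sum_ite_eq' Finset.univ i] at e
        simp only [Finset.mem_univ, if_true] at e
        omega
      rcases ih _ hs with ⟨c, hc, τ, hτ⟩ | hZ'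
      · obtain ⟨f, c', hc', hf⟩ := chkAD c hc (τ.symm i)
        have key : n ∘ (Equiv.swap f (τ.symm i) * τ : Equiv.Perm (Fin 4)) = n ∘ (Equiv.swap f (τ.symm i) * τ) := rfl
        have hn' : ∀ k, n (τ k) = v4 c k + if k = τ.symm i then 1 else 0 := by
          intro k
          rw [← hτ]
          change n (τ k) = (n (τ k) - if τ k = i then 1 else 0) + if k = τ.symm i then 1 else 0
          by_cases hk : k = τ.symm i
          · subst hk
            rw [τ.apply_symm_apply, if_pos rfl, if_pos rfl]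
            omega
          · have hk' : τ k ≠ i := fun h => hk (by rw [← h, τ.symm_apply_apply])
            rw [if_neg hk, if_neg hk']
            omega
        have hcomp : n ∘ (τ * Equiv.swap f (τ.symm i) : Equiv.Perm (Fin 4)) = v4 c' := by
          funext k
          rw [hf k]
          exact hn' _
        rcases List.mem_append.mp hc' with h1 | h1
        · exact Or.inl ⟨c', h1, _, hcomp⟩
        · right
          apply zw_perm (τ * Equiv.swap f (τ.symm i))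
          rw [hcomp]
          exact zw_DL hA c' h1
      · exact absurd hZ' hZ

theorem chk544 : ∀ c ∈ AL, ∀ i j k : Fin 4, i ≠ j → i ≠ k → j ≠ k →
    ¬ (5 ≤ v4 c i ∧ 4 ≤ v4 c j ∧ 4 ≤ v4 c k) := by decide +kernel

theorem chk4444 : ∀ c ∈ AL, ¬ ∀ i, 4 ≤ v4 c i := by decide +kernel

/-- The large contents. -/
def Big (n : Fin 4 → ℕ) : Prop :=
  (5 ≤ n 0 ∧ 4 ≤ n 1 ∧ 4 ≤ n 2) ∨ (4 ≤ n 0 ∧ 5 ≤ n 1 ∧ 4 ≤ n 2) ∨ (4 ≤ n 0 ∧ 4 ≤ n 1 ∧ 5 ≤ n 2) ∨
    (4 ≤ n 0 ∧ 4 ≤ n 1 ∧ 4 ≤ n 2 ∧ 4 ≤ n 3)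

theorem big_zw (hA : RlS A) {n : Fin 4 → ℕ} (hn : Big n) : ZW A n := by
  rcases zw_or hA _ n rfl with ⟨c, hc, τ, hτ⟩ | h
  · exfalso
    have hv : ∀ i, n i = v4 c (τ.symm i) := fun i => by
      rw [← hτ]
      change n i = n (τ (τ.symm i))
      rw [τ.apply_symm_apply]
    have hne : ∀ {i j : Fin 4}, i ≠ j → τ.symm i ≠ τ.symm j := fun h h' => h (τ.symm.injective h')
    rcases hn with ⟨h1, h2, h3⟩ | ⟨h1, h2, h3⟩ | ⟨h1, h2, h3⟩ | ⟨h0, h1, h2, h3⟩
    · rw [hv] at h1 h2 h3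
      exact chk544 c hc _ _ _ (hne (by decide)) (hne (by decide)) (hne (by decide)) ⟨h1, h2, h3⟩
    · rw [hv] at h1 h2 h3
      exact chk544 c hc _ _ _ (hne (by decide)) (hne (by decide)) (hne (by decide)) ⟨h2, h1, h3⟩
    · rw [hv] at h1 h2 h3
      exact chk544 c hc _ _ _ (hne (by decide)) (hne (by decide)) (hne (by decide)) ⟨h3, h1, h2⟩
    · refine chk4444 c hc fun i => ?_
      have hi := hv (τ i)
      rw [τ.symm_apply_apply] at hi
      rw [← hi]
      have hall : ∀ j : Fin 4, 4 ≤ n j := by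
        intro j
        fin_cases j
        · exact h0
        · exact h1
        · exact h2
        · exact h3
      exact hall _
  · exact h

end

/-- Words in four letters of `D` of large content vanish. -/
theorem big_words {R : Type} [Ring R] (h2 : (2 : R) = 0) (D : Set R) (hsq : ∀ X ∈ D, X * X = 0)
    (hxy : ∀ X ∈ D, ∀ Y ∈ D, X * Y * X * Y = 0)
    (hcl : ∀ X ∈ D, ∀ Y ∈ D, (1 + Y) * X * (1 + Y) ∈ D)
    (hnil : ∃ N : ℕ, ∀ l : List R, l.length = N → (∀ X ∈ l, X ∈ D) → l.prod = 0)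
    (a : Fin 4 → R) (ha : ∀ i, a i ∈ D) (w : List (Fin 4)) (hw : Big fun i => w.count i) :
    (w.map a).prod = 0 := by
  refine bridge h2 D hsq hxy hcl hnil a ha Big ?_ ?_ w hw
  · intro n n' hn h
    have h0 : n 0 ≤ n' 0 := h 0
    have h1 : n 1 ≤ n' 1 := h 1
    have h2 : n 2 ≤ n' 2 := h 2
    have h3 : n 3 ≤ n' 3 := h 3
    clear hw
    unfold Big at *
    omega
  · intro K _ A hA x hx w hw
    exact big_zw hA hw x hx w (fun _ => rfl)

end Pool.Agent.L3E.GJ
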