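import Pool.Agent.L3E.J1S
import Pool.Agent.L3E.GJ.Fin

set_option autoImplicit false

/-!
# L3E, module GJ.Big: the big words vanish (part (I) of (J1))
-/

namespace Pool.Agent.L3E

/-- The big words vanish. -/
theorem stmt_big : Stmt_Big := fun _ _ D h2 hsq hxy hcl hnil a ha w hw =>
  GJ.big_words h2 D hsq hxy hcl hnil a ha w hw

end Pool.Agent.L3E
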