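import Pool.Agent.L3E.GJ.Core

set_option autoImplicit false

/-!
# L3E, module GJ.Blk: the check of one block and its soundness
-/

namespace Pool.Agent.L3E.GJ

/-! ### Lists of tables and plans -/

/-- The composition of a list of tables, applied from left to right. -/
noncomputable def opsApp (ts : List Tab) : ℕ → ℕ :=
  List.rec (motive := fun _ => ℕ → ℕ) (fun v => v) (fun T _ ih v => ih (appM T v)) ts

/-- One entry of a plan: source dimension `2 ^ n`, tables, target dimension, target offset. -/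
structure Ent : Type where
  D : ℕ
  ts : List Tab
  D' : ℕ
  o : ℕ

/-- The linear map of a plan. -/
noncomputable def rowL (es : List Ent) : ℕ → ℕ :=
  List.rec (motive := fun _ => ℕ → ℕ) (fun _ => 0)
    (fun e _ ih r => Nat.xor (Nat.shiftLeft (Nat.mod (opsApp e.ts (Nat.mod r e.D)) e.D') e.o)
      (ih (Nat.div r e.D))) es

section
variable {K : Type} [Ring K]

/-- The family of symbols: the pieces one after the other. -/
def symOf : List (ℕ × (ℕ → K)) → ℕ → K
  | [], _ => 0
  | p :: ps, s => if s < p.1 then p.2 s else symOf ps (s - p.1)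

/-- The number of symbols. -/
def psize : List (ℕ × (ℕ → K)) → ℕ
  | [] => 0
  | p :: ps => p.1 + psize ps

theorem symOf_ge : ∀ (ps : List (ℕ × (ℕ → K))) (s : ℕ), psize ps ≤ s → symOf ps s = 0
  | [], _, _ => rfl
  | p :: ps, s, h => by
    simp only [psize] at h
    rw [symOf, if_neg (by omega)]
    exact symOf_ge ps _ (by omega)

theorem vec_symOf (p : ℕ × (ℕ → K)) (ps : List (ℕ × (ℕ → K))) (r : ℕ) :
    vec (symOf (p :: ps)) r = vec p.2 (r % 2 ^ p.1) + vec (symOf ps) (r / 2 ^ p.1) := by
  rw [vec_split _ p.1]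
  congr 1
  · refine vec_congr_lt (Nat.mod_lt _ (by positivity)) fun k hk => ?_
    rw [symOf, if_pos hk]
  · congr 1
    funext k
    rw [symOf, if_neg (by omega), Nat.add_sub_cancel]

/-- A plan entry is correct for a piece of the source, the target family `g` and the left
factor `z`. -/
def EntOk (z : K) (g : ℕ → K) (p : ℕ × (ℕ → K)) (e : Ent) : Prop :=
  e.D = 2 ^ p.1 ∧
    ∀ v, z * vec p.2 v = vec g (Nat.shiftLeft (Nat.mod (opsApp e.ts v) e.D') e.o)

theorem rowL_spec (h2 : (2 : K) = 0) {z : K} {g : ℕ → K} {ps : List (ℕ × (ℕ → K))}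
    {es : List Ent} (h : List.Forall₂ (EntOk z g) ps es) :
    ∀ r, z * vec (symOf ps) r = vec g (rowL es r) := by
  induction h with
  | nil =>
    intro r
    change z * vec (symOf []) r = vec g 0
    rw [vec_zero, vec_null (f := symOf []) _ (fun k => rfl), mul_zero]
  | @cons p e ps es hp _ ih =>
    intro r
    obtain ⟨hD, hv⟩ := hp
    have e1 : rowL (e :: es) r = Nat.xor
      (Nat.shiftLeft (Nat.mod (opsApp e.ts (r % e.D)) e.D') e.o) (rowL es (r / e.D)) := rfl
    rw [e1, vec_xor h2, vec_symOf, mul_add, ih, hD, hv]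

theorem ops_nil (E : ℕ → K) : ∀ v, 1 * vec E v = vec E (opsApp [] v) := fun _ => one_mul _

theorem ops_S {z : K} {E E' G : ℕ → K} {T : Tab} {ts : List Tab}
    (h : ∀ v, vec E v = vec E' (appM T v)) (hr : ∀ v, z * vec E' v = vec G (opsApp ts v)) :
    ∀ v, z * vec E v = vec G (opsApp (T :: ts) v) := fun v => by
  rw [h]
  exact hr _

theorem ops_L {z : K} {E E' G : ℕ → K} {T : Tab} {ts : List Tab}
    (h : ∀ v, z * vec E v = vec E' (appM T v)) (hr : ∀ v, 1 * vec E' v = vec G (opsApp ts v)) :
    ∀ v, z * vec E v = vec G (opsApp (T :: ts) v) := fun v => by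
  rw [h, ← one_mul (vec E' _)]
  exact hr _

theorem ent_intro {z l : K} {E E' g : ℕ → K} {ts : List Tab} {n n' o : ℕ}
    (h : ∀ v, z * vec E v = vec E' (opsApp ts v)) (hz : ∀ k, n' ≤ k → E' k = 0)
    (hp : ∀ k, k < n' → g (k + o) = E' k * l) :
    EntOk z g (n, fun k => E k * l) ⟨2 ^ n, ts, 2 ^ n', o⟩ := by
  refine ⟨rfl, fun v => ?_⟩
  change z * vec (fun k => E k * l) v = vec g (Nat.shiftLeft (opsApp ts v % 2 ^ n') o)
  rw [← vec_mul, ← mul_assoc, h, vec_mod hz, vec_shl, vec_mul]
  exact vec_congr_lt (Nat.mod_lt _ (by positivity)) fun k hk => (hp k hk).symm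

/-- An entry for a piece of dimension zero. -/
theorem ent_null {z l : K} {E g : ℕ → K} (hE : ∀ k, 0 ≤ k → E k = 0) :
    EntOk z g (0, fun k => E k * l) ⟨2 ^ 0, [], 2 ^ 0, 0⟩ := by
  refine ⟨rfl, fun v => ?_⟩
  have e : Nat.shiftLeft (Nat.mod (opsApp [] v) (2 ^ 0)) 0 = 0 := by
    change (v % 2 ^ 0) <<< 0 = 0
    simp [Nat.mod_one]
  change z * vec (fun k => E k * l) v = vec g (Nat.shiftLeft (Nat.mod (opsApp [] v) (2 ^ 0)) 0)
  rw [e, vec_zero, vec_null _ (fun k => by simp [hE k (Nat.zero_le k)]), mul_zero]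

end

/-! ### Rows -/

/-- The relation expressing symbol `s` by the basis. -/
noncomputable def relQ (NF Ex : Tab) (s : ℕ) : ℕ :=
  Nat.xor (Nat.shiftLeft 1 s) (appM Ex (appM NF (Nat.shiftLeft 1 s)))

/-- The rows coming from the relations of a source block by a plan. -/
noncomputable def srcRow (NF Ex : Tab) (es : List Ent) (s : ℕ) : ℕ :=
  Nat.casesOn (motive := fun _ => ℕ) (relQ NF Ex s) 0 (fun r => rowL es (Nat.succ r))

/-- The `s`-th member of a list, with default zero. -/
noncomputable def nthL (G : List ℕ) : ℕ → ℕ :=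
  List.rec (motive := fun _ => ℕ → ℕ) (fun _ => 0)
    (fun m _ ih i => Nat.casesOn (motive := fun _ => ℕ) i m (fun j => ih j)) G

/-- The `i`-th function of a list at `s`, with default zero. -/
noncomputable def nthF (fs : List (ℕ → ℕ)) : ℕ → ℕ → ℕ :=
  List.rec (motive := fun _ => ℕ → ℕ → ℕ) (fun _ _ => 0)
    (fun f _ ih i s => Nat.casesOn (motive := fun _ => ℕ) i (f s) (fun j => ih j s)) fs

/-- Row number `n = 8 s + i`. -/
noncomputable def rawOf (fs : List (ℕ → ℕ)) (n : ℕ) : ℕ :=
  nthF fs (Nat.mod n 8) (Nat.div n 8)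

section
variable {K : Type} [Ring K]

theorem srcRow_spec (h2 : (2 : K) = 0) {z : K} {g : ℕ → K} {ps : List (ℕ × (ℕ → K))}
    {es : List Ent} (h : List.Forall₂ (EntOk z g) ps es) {NF Ex : Tab}
    (hNF : ∀ r, vec (symOf ps) r = vec (eOf Ex.t (symOf ps)) (appM NF r)) {n : ℕ}
    (hEx : wfT Ex n = true) (s : ℕ) : vec g (srcRow NF Ex es s) = 0 := by
  have key : vec (symOf ps) (relQ NF Ex s) = 0 := by
    rw [relQ, vec_xor h2, appM_spec h2 _ hEx, ← hNF, ← two_mul, h2, zero_mul]
  have h3 := rowL_spec h2 h (relQ NF Ex s)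
  rw [key, mul_zero] at h3
  rw [srcRow]
  rcases hr : relQ NF Ex s with _ | r
  · exact vec_zero g
  · rw [hr] at h3
    exact h3.symm

theorem nthL_spec {g : ℕ → K} {G : List ℕ} (h : ∀ m ∈ G, vec g m = 0) : ∀ s, vec g (nthL G s) = 0 := by
  induction G with
  | nil => intro s; exact vec_zero g
  | cons m G ih =>
    intro s
    rcases s with _ | s
    · exact h m (by simp)
    · exact ih (fun m hm => h m (by simp [hm])) s

theorem nthF_spec {g : ℕ → K} {fs : List (ℕ → ℕ)} (h : ∀ f ∈ fs, ∀ s, vec g (f s) = 0) :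
    ∀ i s, vec g (nthF fs i s) = 0 := by
  induction fs with
  | nil => intro i s; exact vec_zero g
  | cons f fs ih =>
    intro i s
    rcases i with _ | i
    · exact h f (by simp) s
    · exact ih (fun f hf => h f (by simp [hf])) i s

theorem rawOf_spec {g : ℕ → K} {fs : List (ℕ → ℕ)} (h : ∀ f ∈ fs, ∀ s, vec g (f s) = 0)
    (n : ℕ) : vec g (rawOf fs n) = 0 := nthF_spec h _ _

end

/-! ### The check of a block -/

/-- The list of leaves. -/
noncomputable def toL (t : Tr) : List ℕ → List ℕ :=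
  Tr.rec (motive := fun _ => List ℕ → List ℕ) (fun m acc => m :: acc)
    (fun _ _ _ _ ih1 ih2 acc => ih1 (ih2 acc)) t

theorem mem_toL {t : Tr} : ∀ {acc : List ℕ} {m : ℕ}, m ∈ acc → m ∈ toL t acc := by
  induction t with
  | l m' =>
    intro acc m h
    change m ∈ m' :: acc
    simp [h]
  | b e d s t ih1 ih2 =>
    intro acc m h
    exact ih1 (ih2 h)

theorem lf_toL {t : Tr} : ∀ (acc : List ℕ) (j : ℕ), lf t j = 0 ∨ lf t j ∈ toL t acc := by
  induction t with
  | l m =>
    intro acc j
    change (if j = 0 then m else 0) = 0 ∨ (if j = 0 then m else 0) ∈ m :: acc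
    split_ifs
    · right; simp
    · left; rfl
  | b e d s t ih1 ih2 =>
    intro acc j
    change (if j < e then lf s j else lf t (j - e)) = 0 ∨
      (if j < e then lf s j else lf t (j - e)) ∈ toL s (toL t acc)
    split_ifs
    · exact ih1 _ _
    · rcases ih2 acc (j - e) with h | h
      · exact Or.inl h
      · exact Or.inr (mem_toL h)

theorem toL_mem {t : Tr} : ∀ {n : ℕ}, wf t n = true → ∀ {acc : List ℕ} {m : ℕ}, m ∈ toL t acc →
    m ∈ acc ∨ m = 0 ∨ ∃ j < n, lf t j = m := by
  induction t with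
  | l m' =>
    intro n h acc m hm
    rcases List.mem_cons.mp (show m ∈ m' :: acc from hm) with rfl | hm
    · rcases wf_l h with rfl | h
      · exact Or.inr (Or.inr ⟨0, by norm_num, rfl⟩)
      · exact Or.inr (Or.inl h)
    · exact Or.inl hm
  | b e d s t ih1 ih2 =>
    intro n h acc m hm
    obtain ⟨-, hlt, hs, ht⟩ := wf_b h
    rcases ih1 hs (show m ∈ toL s (toL t acc) from hm) with hm | hm | ⟨j, hj, rfl⟩
    · rcases ih2 ht hm with hm | hm | ⟨j, hj, rfl⟩
      · exact Or.inl hm
      · exact Or.inr (Or.inl hm)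
      · refine Or.inr (Or.inr ⟨j + e, by omega, ?_⟩)
        change (if j + e < e then lf s (j + e) else lf t (j + e - e)) = lf t j
        rw [if_neg (by omega), Nat.add_sub_cancel]
    · exact Or.inr (Or.inl hm)
    · refine Or.inr (Or.inr ⟨j, by omega, ?_⟩)
      change (if j < e then lf s j else lf t (j - e)) = lf s j
      rw [if_pos hj]

/-- Basis symbols have the expected normal forms. -/
noncomputable def chkB (NF : Tab) (t : Tr) : ℕ → Bool :=
  Tr.rec (motive := fun _ => ℕ → Bool)
    (fun m j => Nat.casesOn (motive := fun _ => Bool) m true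
      (fun m' => Nat.beq (appM NF (Nat.succ m')) (Nat.shiftLeft 1 j)))
    (fun h _ _ _ ih1 ih2 j => ih1 j && ih2 (Nat.add j h)) t

/-- One elimination step: the row has exactly one unknown symbol. -/
noncomputable def stepU (d U : ℕ) (k : ℕ → Bool) : Bool :=
  Nat.casesOn (motive := fun _ => Bool) (Nat.land d U) false
    (fun t => Nat.beq (Nat.land (Nat.succ t) t) 0 &&
      Nat.casesOn (motive := fun _ => Bool) (Nat.xor U (Nat.succ t)) (k 0)
        (fun u => k (Nat.succ u)))

/-- The basis symbols are known. -/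
noncomputable def kB (k : ℕ → Bool) (L : List ℕ) : ℕ → Bool :=
  List.rec (motive := fun _ => ℕ → Bool) k
    (fun m _ ih U => Nat.casesOn (motive := fun _ => Bool) m (ih U)
      (fun m' => stepU (Nat.succ m') U ih)) L

/-- The rows make the other symbols known. -/
noncomputable def kR (NF : Tab) (raw : ℕ → ℕ) (k : ℕ → Bool) (L : List ℕ) : ℕ → Bool :=
  List.rec (motive := fun _ => ℕ → Bool) k
    (fun n _ ih U => Nat.casesOn (motive := fun _ => Bool) (raw n) false
      (fun d => Nat.beq (appM NF (Nat.succ d)) 0 && stepU (Nat.succ d) U ih)) L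

/-- The leaves are the given rows. -/
noncomputable def coreEq (raw : ℕ → ℕ) (L : List ℕ) : List ℕ → Bool :=
  List.rec (motive := fun _ => List ℕ → Bool) (fun _ => true)
    (fun m _ ih S => List.casesOn (motive := fun _ => Bool) S false
      (fun n S' => Nat.beq (raw n) m && ih S')) L

/-- The check of one block. -/
noncomputable def blockChk (ns dim : ℕ) (NF Ex : Tab) (raw : ℕ → ℕ) (peel cs : List ℕ) (nR : ℕ)
    (Rt : Tab) (masks : List ℕ) : Bool :=
  wfT NF ns && wfT Ex dim && wfT Rt nR && chkB NF Ex.t 0 && coreEq raw (toL Rt.t []) cs &&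
    kB (kR NF raw (kR NF (appM Rt) (fun U => Nat.beq U 0) masks) peel) (toL Ex.t [])
      (Nat.sub (Nat.pow 2 ns) 1)

section
variable {K : Type} [Ring K]

theorem chkB_spec {NF : Tab} {t : Tr} : ∀ {j : ℕ}, chkB NF t j = true → ∀ i,
    lf t i = 0 ∨ appM NF (lf t i) = 2 ^ (j + i) := by
  induction t with
  | l m =>
    intro j h i
    change (if i = 0 then m else 0) = 0 ∨ appM NF (if i = 0 then m else 0) = 2 ^ (j + i)
    split_ifs with hi
    · subst hi
      rcases m with _ | m
      · left; rfl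
      · right
        have h' : Nat.beq (appM NF (Nat.succ m)) (Nat.shiftLeft 1 j) = true := h
        rw [Nat.eq_of_beq_eq_true h']
        change 1 <<< j = _
        rw [Nat.one_shiftLeft, add_zero]
    · left; rfl
  | b e d s t ih1 ih2 =>
    intro j h i
    have h' : (chkB NF s j && chkB NF t (j + e)) = true := h
    rw [Bool.and_eq_true] at h'
    change (if i < e then lf s i else lf t (i - e)) = 0 ∨
      appM NF (if i < e then lf s i else lf t (i - e)) = 2 ^ (j + i)
    split_ifs with hi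
    · exact ih1 h'.1 i
    · have := ih2 h'.2 (i - e)
      rwa [show j + e + (i - e) = j + i by omega] at this

/-- All symbols outside `U` satisfy `δ = 0`. -/
def Known (δ : ℕ → K) (U : ℕ) : Prop := ∀ s, U.testBit s = false → δ s = 0

theorem vec_land {δ : ℕ → K} {U : ℕ} (h : Known δ U) (d : ℕ) :
    vec δ (Nat.land d U) = vec δ d := by
  obtain ⟨n, hd, -⟩ := exists_bound d U
  have hl : Nat.land d U < 2 ^ n := lt_of_le_of_lt Nat.and_le_left hd
  rw [vec_eq δ hd, vec_eq δ hl]
  refine Finset.sum_congr rfl fun k _ => ?_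
  have e : (Nat.land d U).testBit k = (d.testBit k && U.testBit k) := Nat.testBit_and d U k
  rw [e]
  cases hU : U.testBit k
  · simp [h k hU]
  · simp

theorem pow_of_land {t : ℕ} (h : Nat.land (Nat.succ t) t = 0) : ∃ p, Nat.succ t = 2 ^ p := by
  refine ⟨Nat.log2 (Nat.succ t), ?_⟩
  set p := Nat.log2 (Nat.succ t) with hp
  have h1 : 2 ^ p ≤ t + 1 := Nat.log2_self_le (by omega)
  have h2 : t + 1 < 2 ^ (p + 1) := Nat.lt_log2_self
  by_contra hne
  have h3 : 2 ^ p ≤ t := by
    have : t + 1 ≠ 2 ^ p := hne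
    omega
  have hb : ∀ m : ℕ, 2 ^ p ≤ m → m < 2 ^ (p + 1) → m.testBit p = true := by
    intro m h4 h5
    rw [Nat.testBit_eq_decide_div_mod_eq]
    have h6 : m / 2 ^ p = 1 := by
      apply Nat.div_eq_of_lt_le
      · omega
      · rw [pow_succ] at h5; omega
    rw [h6]
    rfl
  have e : (Nat.land (t + 1) t).testBit p = ((t + 1).testBit p && t.testBit p) :=
    Nat.testBit_and (t + 1) t p
  rw [h, hb _ h1 h2, hb _ h3 (by omega), Nat.zero_testBit] at e
  exact absurd e (by decide)

theorem stepU_spec {δ : ℕ → K} {d U : ℕ} {k : ℕ → Bool} (hU : Known δ U) (hd : vec δ d = 0)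
    (h : stepU d U k = true) : ∃ U', Known δ U' ∧ k U' = true := by
  rw [stepU] at h
  rcases ht : Nat.land d U with _ | t
  · rw [ht] at h
    exact absurd h (by simp)
  · rw [ht] at h
    have h' : (Nat.beq (Nat.land (Nat.succ t) t) 0 &&
      Nat.casesOn (motive := fun _ => Bool) (Nat.xor U (Nat.succ t)) (k 0)
        (fun u => k (Nat.succ u))) = true := h
    rw [Bool.and_eq_true] at h'
    obtain ⟨h1, h2⟩ := h'
    obtain ⟨p, hp⟩ := pow_of_land (Nat.eq_of_beq_eq_true h1)
    have hδ : δ p = 0 := by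
      rw [← vec_two_pow δ p, ← hp]
      have := vec_land hU d
      rw [ht] at this
      rw [Nat.succ_eq_add_one, this, hd]
    refine ⟨Nat.xor U (Nat.succ t), ?_, ?_⟩
    · intro s hs
      have e : (Nat.xor U (Nat.succ t)).testBit s = (U.testBit s ^^ (Nat.succ t).testBit s) :=
        Nat.testBit_xor U (Nat.succ t) s
      rw [e, hp, Nat.testBit_two_pow] at hs
      by_cases hsp : p = s
      · rw [← hsp]; exact hδ
      · simp only [hsp, decide_false, Bool.xor_false] at hs
        exact hU s hs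
    · rcases hx : Nat.xor U (Nat.succ t) with _ | u
      · rw [hx] at h2; exact h2
      · rw [hx] at h2; exact h2

theorem kB_spec {δ : ℕ → K} {k : ℕ → Bool} : ∀ {L : List ℕ} {U : ℕ}, Known δ U →
    (∀ m ∈ L, vec δ m = 0) → kB k L U = true → ∃ U', Known δ U' ∧ k U' = true := by
  intro L
  induction L with
  | nil => intro U hU _ h; exact ⟨U, hU, h⟩
  | cons m L ih =>
    intro U hU hL h
    rcases m with _ | m
    · exact ih hU (fun m hm => hL m (by simp [hm])) h
    · obtain ⟨U', h1, h2⟩ := stepU_spec hU (hL _ (by simp)) (k := kB k L) h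
      exact ih h1 (fun m hm => hL m (by simp [hm])) h2

theorem kR_spec {δ : ℕ → K} {k : ℕ → Bool} {NF : Tab} {raw : ℕ → ℕ}
    (hraw : ∀ n, appM NF (raw n) = 0 → vec δ (raw n) = 0) : ∀ {L : List ℕ} {U : ℕ}, Known δ U →
    kR NF raw k L U = true → ∃ U', Known δ U' ∧ k U' = true := by
  intro L
  induction L with
  | nil => intro U hU h; exact ⟨U, hU, h⟩
  | cons n L ih =>
    intro U hU h
    have h' : (Nat.casesOn (motive := fun _ => Bool) (raw n) false
      (fun d => Nat.beq (appM NF (Nat.succ d)) 0 && stepU (Nat.succ d) U (kR NF raw k L)))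
        = true := h
    rcases hr : raw n with _ | d
    · rw [hr] at h'
      exact absurd h' (by simp)
    · rw [hr] at h'
      have h'' : (Nat.beq (appM NF (Nat.succ d)) 0 && stepU (Nat.succ d) U (kR NF raw k L))
        = true := h'
      rw [Bool.and_eq_true] at h''
      have h0 := hraw n (by rw [hr]; exact Nat.eq_of_beq_eq_true h''.1)
      rw [hr] at h0
      obtain ⟨U', h1, h2⟩ := stepU_spec hU h0 h''.2
      exact ih h1 h2

theorem coreEq_spec {g : ℕ → K} {raw : ℕ → ℕ} (hraw : ∀ n, vec g (raw n) = 0) :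
    ∀ {L S : List ℕ}, coreEq raw L S = true → ∀ m ∈ L, vec g m = 0 := by
  intro L
  induction L with
  | nil => intro S _ m hm; simp at hm
  | cons m L ih =>
    intro S h m' hm'
    rcases S with _ | ⟨n, S⟩
    · exact absurd h (by simp [coreEq])
    · have h' : (Nat.beq (raw n) m && coreEq raw L S) = true := h
      rw [Bool.and_eq_true] at h'
      rcases List.mem_cons.mp hm' with rfl | hm'
      · rw [← Nat.eq_of_beq_eq_true h'.1]
        exact hraw n
      · exact ih h'.2 m' hm'

/-- Soundness of the check of a block. -/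
theorem block_sound (h2 : (2 : K) = 0) {ps : List (ℕ × (ℕ → K))} {ns dim : ℕ}
    (hps : psize ps = ns) {NF Ex Rt : Tab} {raw : ℕ → ℕ} {peel cs masks : List ℕ} {nR : ℕ}
    (hraw : ∀ n, vec (symOf ps) (raw n) = 0)
    (h : blockChk ns dim NF Ex raw peel cs nR Rt masks = true) :
    (∀ r, vec (symOf ps) r = vec (eOf Ex.t (symOf ps)) (appM NF r)) ∧ wfT Ex dim = true := by
  simp only [blockChk, Bool.and_eq_true] at h
  obtain ⟨⟨⟨⟨⟨h1, h3⟩, h4⟩, h5⟩, h6⟩, h7⟩ := h
  refine ⟨?_, h3⟩
  set g := symOf ps with hg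
  set e := eOf Ex.t g with he
  -- the defect
  set δ : ℕ → K := fun s => g s - vec e (lf NF.t s) with hδ
  have hvec : ∀ r, vec δ r = vec g r - vec e (appM NF r) := by
    intro r
    rw [appM_spec h2 e h1, hδ, vec_sub]
    rfl
  have hcore : ∀ n, vec g (appM Rt n) = 0 := by
    intro n
    rw [appM_spec h2 g h4]
    refine vec_null n fun k => ?_
    change vec g (lf Rt.t k) = 0
    rcases lf_toL (t := Rt.t) [] k with h | h
    · rw [h, vec_zero]
    · exact coreEq_spec hraw h6 _ h
  have hK0 : Known δ (Nat.sub (Nat.pow 2 ns) 1) := by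
    intro s hs
    have : (2 ^ ns - 1).testBit s = false := hs
    rw [Nat.testBit_two_pow_sub_one] at this
    have hs' : ns ≤ s := by simpa using this
    rw [hδ]
    simp only []
    rw [hg, symOf_ge ps s (by rw [hps]; exact hs'), lf_ge (wfT_D h1).2 hs', vec_zero, sub_zero]
  have hbas : ∀ m ∈ toL Ex.t [], vec δ m = 0 := by
    intro m hm
    rcases toL_mem (wfT_D h3).2 hm with hm | rfl | ⟨j, -, rfl⟩
    · simp at hm
    · exact vec_zero δ
    · rcases chkB_spec h5 j with h | h
      · rw [h, vec_zero]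
      · rw [hvec, h, zero_add, vec_two_pow, he, eOf, sub_self]
  obtain ⟨U1, hU1, hk1⟩ := kB_spec hK0 hbas h7
  obtain ⟨U2, hU2, hk2⟩ := kR_spec (fun n hn => by rw [hvec, hn, hraw, vec_zero, sub_zero]) hU1 hk1
  obtain ⟨U3, hU3, hk3⟩ := kR_spec (fun n hn => by rw [hvec, hn, hcore, vec_zero, sub_zero]) hU2 hk2
  have hU30 : U3 = 0 := Nat.eq_of_beq_eq_true hk3
  have hall : ∀ s, δ s = 0 := fun s => hU3 s (by rw [hU30, Nat.zero_testBit])
  intro r
  have := hvec r
  rw [vec_null r hall] at this
  exact (sub_eq_zero.mp this.symm)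

/-- The second tree is the image of the first one under `F`. -/
noncomputable def chk2 (F : ℕ → ℕ) (t : Tr) : Tr → Bool :=
  Tr.rec (motive := fun _ => Tr → Bool)
    (fun m t2 => Tr.casesOn (motive := fun _ => Bool) t2 (fun m2 => Nat.beq m2 (F m))
      (fun _ _ _ _ => false))
    (fun h _ _ _ ih1 ih2 t2 => Tr.casesOn (motive := fun _ => Bool) t2 (fun _ => false)
      (fun h2 _ s2 t2 => Nat.beq h h2 && ih1 s2 && ih2 t2)) t

theorem chk2_spec {F : ℕ → ℕ} {t : Tr} : ∀ {t2 : Tr}, chk2 F t t2 = true → ∀ j,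
    lf t2 j = F (lf t j) ∨ (lf t j = 0 ∧ lf t2 j = 0) := by
  induction t with
  | l m =>
    intro t2 h j
    cases t2 with
    | l m2 =>
      have h' : Nat.beq m2 (F m) = true := h
      change (if j = 0 then m2 else 0) = F (if j = 0 then m else 0) ∨
        ((if j = 0 then m else 0) = 0 ∧ (if j = 0 then m2 else 0) = 0)
      split_ifs
      · exact Or.inl (Nat.eq_of_beq_eq_true h')
      · exact Or.inr ⟨rfl, rfl⟩
    | b e2 d2 s2 t2 => exact absurd (show false = true from h) (by simp)
  | b e d s t ih1 ih2 =>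
    intro t2 h j
    cases t2 with
    | l m2 => exact absurd (show false = true from h) (by simp)
    | b e2 d2 s2 t2 =>
      have h' : (Nat.beq e e2 && chk2 F s s2 && chk2 F t t2) = true := h
      simp only [Bool.and_eq_true] at h'
      obtain ⟨⟨h0, h1⟩, h2⟩ := h'
      have hd := Nat.eq_of_beq_eq_true h0
      subst hd
      change (if j < e then lf s2 j else lf t2 (j - e)) =
        F (if j < e then lf s j else lf t (j - e)) ∨
        ((if j < e then lf s j else lf t (j - e)) = 0 ∧
        (if j < e then lf s2 j else lf t2 (j - e)) = 0)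
      split_ifs
      · exact ih1 h1 j
      · exact ih2 h2 _

/-- The table with source `Ex`, computed by the plan `es` and the normal forms `NF`. -/
noncomputable def tabChk (NF : Tab) (es : List Ent) (Ex T : Tab) (n : ℕ) : Bool :=
  wfT T n && chk2 (fun m => appM NF (rowL es m)) Ex.t T.t

theorem table_sound (h2 : (2 : K) = 0) {z : K} {ps : List (ℕ × (ℕ → K))} {g e : ℕ → K}
    {es : List Ent} (h : List.Forall₂ (EntOk z g) ps es) {NF : Tab}
    (hNF : ∀ r, vec g r = vec e (appM NF r)) {Ex T : Tab} {n : ℕ}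
    (hc : tabChk NF es Ex T n = true) :
    ∀ v, z * vec (eOf Ex.t (symOf ps)) v = vec e (appM T v) := by
  rw [tabChk, Bool.and_eq_true] at hc
  intro v
  rw [appM_spec h2 e hc.1, mul_vec]
  congr 1
  funext j
  change z * vec (symOf ps) (lf Ex.t j) = vec e (lf T.t j)
  rcases chk2_spec hc.2 j with h3 | ⟨h3, h4⟩
  · rw [h3, ← hNF, rowL_spec h2 h]
  · rw [h3, h4, vec_zero, vec_zero, mul_zero]

end

end Pool.Agent.L3E.GJ
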