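import Pool.Agent.L3E.GJ.Pl

set_option autoImplicit false
set_option maxRecDepth 100000
set_option linter.unusedVariables false
set_option exponentiation.threshold 100000

/-! # L3E, module GJ.C0: kernel checks -/

namespace Pool.Agent.L3E.GJ

theorem kG2200_0 : gChk AT4 30007 [g2200_0] = true := by decide +kernel
theorem kG3221_0 : gChk AT8 30031 [g3221_0] = true := by decide +kernel
theorem kG3321_0 : gChk AT9 30039 [g3321_0] = true := by decide +kernel
theorem kG4321_2 : gChk AT10 30049 [g4321_2] = true := by decide +kernel
theorem kG3322_0 : gChk AT10 30052 [g3322_0] = true := by decide +kernel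
theorem kG5222_8 : gChk AT11 30055 [g5222_8] = true := by decide +kernel
theorem kG4322_15 : gChk AT11 30058 [g4322_15] = true := by decide +kernel
theorem kG3332_22 : gChk AT11 30059 [g3332_22] = true := by decide +kernel
theorem kS2222_1_320 : chk2 (fun m => appM N2222 (rowL pS2222_1 m)) X2222c320 S2222_1c320 = true := by decide +kernel
theorem kS3222_2_0 : chk2 (fun m => appM N3222 (rowL pS3222_2 m)) X3222c0 S3222_2c0 = true := by decide +kernel
theorem kS4222_3_64 : chk2 (fun m => appM N4222 (rowL pS4222_3 m)) X4222c64 S4222_3c64 = true := by decide +kernel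
theorem kS3322_3_320 : chk2 (fun m => appM N3322 (rowL pS3322_3 m)) X3322c320 S3322_3c320 = true := by decide +kernel
theorem kS3332_1_256 : chk2 (fun m => appM N3332 (rowL pS3332_1 m)) X3332c256 S3332_1c256 = true := by decide +kernel
theorem kS5322_3_0 : chk2 (fun m => appM N5322 (rowL pS5322_3 m)) X5322c0 S5322_3c0 = true := by decide +kernel
theorem kS3333_1_640 : chk2 (fun m => appM N3333 (rowL pS3333_1 m)) X3333c640 S3333_1c640 = true := by decide +kernel
theorem kS3333_3_384 : chk2 (fun m => appM N3333 (rowL pS3333_3 m)) X3333c384 S3333_3c384 = true := by decide +kernel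
theorem kS5333_3 : chk2 (fun m => appM N5333 (rowL pS5333_3 m)) X5333.t S5333_3.t = true := by decide +kernel
theorem kL2220_2 : chk2 (fun m => appM N2220 (rowL pL2220_2 m)) X2210.t L2220_2.t = true := by decide +kernel
theorem kL4211_3 : chk2 (fun m => appM N4211 (rowL pL4211_3 m)) X4210.t L4211_3.t = true := by decide +kernel
theorem kL3321_1_64 : chk2 (fun m => appM N3321 (rowL pL3321_1 m)) X3221c64 L3321_1c64 = true := by decide +kernel
theorem kL5221_3 : chk2 (fun m => appM N5221 (rowL pL5221_3 m)) X5220.t L5221_3.t = true := by decide +kernel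
theorem kL3331_2_64 : chk2 (fun m => appM N3331 (rowL pL3331_2 m)) X3321c64 L3331_2c64 = true := by decide +kernel
theorem kL5222_0_192 : chk2 (fun m => appM N5222 (rowL pL5222_0 m)) X4222c192 L5222_0c192 = true := by decide +kernel
theorem kL4322_1_0 : chk2 (fun m => appM N4322 (rowL pL4322_1 m)) X4222c0 L4322_1c0 = true := by decide +kernel
theorem kL3332_2_448 : chk2 (fun m => appM N3332 (rowL pL3332_2 m)) X3322c448 L3332_2c448 = true := by decide +kernel
theorem kL5322_1_0 : chk2 (fun m => appM N5322 (rowL pL5322_1 m)) X5222c0 L5322_1c0 = true := by decide +kernel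
theorem km4332_8 : kM (appM R4332) (fun u => Nat.beq u (nat_lit 0x3ffefff7fbfeff7f5ff7f9e77fdf08fbfc0000000000000000000000002fa9880ea6012420000400405010100000)) M4332_8 (nat_lit 0x1fbffeff5effffe0ffbfffefff7fbfeff7f5ff7f9e77fdf08fbfc0000000000000000000000002fa9880ea6012420000400405010100000) = true := by decide +kernel
theorem km3333_1 : kM (appM R3333) (fun u => Nat.beq u (nat_lit 0xd1a7dfd7fcfefbe4c604bfc07203205ffff5fffffffffffdffff7ffff9ff7fbfaffbfdfffffffd7ffec000000000000000000000000000000008200d08b79db0026a082980000000001c800808005880240640b2fa2a7effff9f6ffbffd4ff7f53469f7f5ff3fbef931812ff01c80c817fffd7fffffffffff7fffdffffe7fdfefebfeff7fffffff5fffb0000000000000000000000000000000020803422de76c009a820a6000000000072002020016200901902cbe8a9fbfffe7dbfefff53fdfd4d1a7dfd7fcfefbe4c604bfc07203205ffff5fffffffffffdffff7ffff9ff7fbfaffbfdfffffffd7ffec000000000000000000000000000000008200d08b79db0026a082980000000001c800808005880240640b2fa2a7effff9f6ffbffd4ff7f53469f7f5ff3fbef931812ff01c80c817fffd7fffffffffff7fffdffffe7fdfefebfeff7fffffff5fffb)) M3333_1 (nat_lit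 0x3fffe7dbfefff53fdfd4d1a7dfd7fcfefbe4c604bfc07203205ffff5fffffffffffdffff7ffff9ff7fbfaffbfdfffffffd7ffec000000000000000000000000000000008200d08b79db0026a082980000000001c800808005880240640b2fa2a7effff9f6ffbffd4ff7f53469f7f5ff3fbef931812ff01c80c817fffd7fffffffffff7fffdffffe7fdfefebfeff7fffffff5fffb0000000000000000000000000000000020803422de76c009a820a6000000000072002020016200901902cbe8a9fbfffe7dbfefff53fdfd4d1a7dfd7fcfefbe4c604bfc07203205ffff5fffffffffffdffff7ffff9ff7fbfaffbfdfffffffd7ffec000000000000000000000000000000008200d08b79db0026a082980000000001c800808005880240640b2fa2a7effff9f6ffbffd4ff7f53469f7f5ff3fbef931812ff01c80c817fffd7fffffffffff7fffdffffe7fdfefebfeff7fffffff5fffb) = true := by decide +kernel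
theorem kL3333_3_64 : chk2 (fun m => appM N3333 (rowL pL3333_3 m)) X3332c64 L3333_3c64 = true := by decide +kernel
theorem kL5422_1_64 : chk2 (fun m => appM N5422 (rowL pL5422_1 m)) X5322c64 L5422_1c64 = true := by decide +kernel
theorem km4333_5 : kM (appM R4333) (fun u => Nat.beq u (nat_lit 0x1fdbfeeff737fffffffffffffffffffe7ffffffffffbffffffffffffffffffffffffbfffffffffffffffffffb2fa0c54280801fd0038004928000101028001008009007602200)) M4333_5 (nat_lit 0x7fffffbfffffbfffffdbfeeff737fffffffffffffffffffe7ffffffffffbffffffffffffffffffffffffbfffffffffffffffffffb2fa0c54280801fd0038004928000101028001008009007602200) = true := by decide +kernel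
theorem kL4333_3_192 : chk2 (fun m => appM N4333 (rowL pL4333_3 m)) X4332c192 L4333_3c192 = true := by decide +kernel
theorem kL7422_0 : chk2 (fun m => appM N7422 (rowL pL7422_0 m)) X6422.t L7422_0.t = true := by decide +kernel
theorem kp3221_0 : kR N3221 (rawOf F3221) (fun u => Nat.beq u (nat_lit 0xa1055000000028415400000000000ac0400f1943f2000300000c0)) P3221_0 (nat_lit 0x700000af07f01c00002bc1fc00000000001af0400f9967fe3ffffffffff) = true := by decide +kernel
theorem kc3222_16 : coreNF N3222 (rawOf F3222) (toL R3222c16 []) C3222_16 = true := by decide +kernel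
theorem kc3331_16 : coreNF N3331 (rawOf F3331) (toL R3331c16 []) C3331_16 = true := by decide +kernel
theorem kc3322_208 : coreNF N3322 (rawOf F3322) (toL R3322c208 []) C3322_208 = true := by decide +kernel
theorem kc4322_48 : coreNF N4322 (rawOf F4322) (toL R4322c48 []) C4322_48 = true := by decide +kernel
theorem kc3332_16 : coreNF N3332 (rawOf F3332) (toL R3332c16 []) C3332_16 = true := by decide +kernel
theorem kc3332_400 : coreNF N3332 (rawOf F3332) (toL R3332c400 []) C3332_400 = true := by decide +kernel
theorem kc6222_0 : coreNF N6222 (rawOf F6222) (toL R6222c0 []) C6222_0 = true := by decide +kernel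
theorem kc4422_96 : coreNF N4422 (rawOf F4422) (toL R4422c96 []) C4422_96 = true := by decide +kernel
theorem kc4332_144 : coreNF N4332 (rawOf F4332) (toL R4332c144 []) C4332_144 = true := by decide +kernel
theorem kc4332_528 : coreNF N4332 (rawOf F4332) (toL R4332c528 []) C4332_528 = true := by decide +kernel
theorem kc3333_64 : coreNF N3333 (rawOf F3333) (toL R3333c64 []) C3333_64 = true := by decide +kernel
theorem kc3333_448 : coreNF N3333 (rawOf F3333) (toL R3333c448 []) C3333_448 = true := by decide +kernel
theorem kc3333_832 : coreNF N3333 (rawOf F3333) (toL R3333c832 []) C3333_832 = true := by decide +kernel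
theorem kc3333_1216 : coreNF N3333 (rawOf F3333) (toL R3333c1216 []) C3333_1216 = true := by decide +kernel
theorem kp3333_3 : kR N3333 (rawOf F3333) (fun u => Nat.beq u (nat_lit 0x68c50394081833981cc430c9800000020803422de76c009aa20a6000000000072002020016200961932fbfea9fffffe7dbffffffffffffffe7fff7fcfffbe4c604bfc073c3265ffffdfffffffffffffffffffffffffffffffffffffffffd7fffc1e7173e79677ecfed7f50c32600000008200d08b79db0026a882980000000001c8008080058802ff7edbeffaa7fffff9f6fffffffffffffff9fffdff3ffef931812ff01dfefdb7ffff7fffffffffffffffffffffffffffffffffffffffff5ffff079c5cf9e59dfb3fb5fd430c9800000020803422de76c009aa20a6000000000072002020016200bfdfb6fbfea9fffffe7dbffffffffffffffe7fff7fcfffbe4c604bfc077fbf6dffffdfffffffffffffffffffffffffffffffffffffffffd7fffc1e7173e79677ecfed7f50c32600000008200d08b79db0026a882980000000001c8008080058802ff7ccbeffaa7fffff9f6fffffffffffffff9fffdff3ffef931812ff01cf0c997ffff7fffffffffffffffffffffffffffffffffffffffff5ffff)) P3333_3 (nat_lit 0x79c5cf9e59dfb3fb5fd430c9800000020803422de76c009aa20a6000000000072002020016200bfdfb6fbfea9ff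fffe7dbffffffffffffffe7fff7fcfffbe4c604bfc077fbf6dffffdfffffffffffffffffffffffffffffffffffffffffd7fffc1e7173e79677ecfed7f50c32600000008200d08b79db0026a882980000000001c8008080058802ff7edbeffaa7fffff9f6fffffffffffffff9fffdff3ffef931812ff01dfefdb7ffff7fffffffffffffffffffffffffffffffffffffffff5ffff27bf7cf9e59ffffffffd430c9800000020803422de76c009aa20a6000000000072002020016200bfdfb6fbfea9fffffe7dbffffffffffffffe7fff7fcfffbe4c604bfc077fbf6dffffdfffffffffffffffffffffffffffffffffffffffffd7fffc1e7173e79677ecfed7f50c32600000008200d08b79db0026a882980000000001c8008080058802ff7edbeffaa7fffff9f6fffffffffffffff9fffdff3ffef931812ff01dfefdb7ffff7fffffffffffffffffffffffffffffffffffffffff5ffff) = true := by decide +kernel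
theorem kp4432_3 : kR N4432 (rawOf F4432) (fun u => Nat.beq u (nat_lit 0x5ae60008f3c1f6d23a2bbfb1fff7ffe674577f49825cf1f5f822dffff43ffffe280000000000009385b1838fbfefffff3fffb9ffffffffffff9304b9e3ebf045bfffe87ffffc50000000000001270140001f7fdffffe7fff73fffffbf77f9c)) P4432_3 (nat_lit 0x5ae60008f3c1f6d23a2bffb1fff7ffe67457ff4d8a5df1f5fc2adffff67ffffe2961301a080241b3adb3838fbfffffff7fffbdffffffffffff9b14bbe3ebf855bfffecfffffc52c26030100481674b63071f7fdffffe7fff73ffffffffffff) = true := by decide +kernel
theorem kc4333_272 : coreNF N4333 (rawOf F4333) (toL R4333c272 []) C4333_272 = true := by decide +kernel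
theorem kc4333_656 : coreNF N4333 (rawOf F4333) (toL R4333c656 []) C4333_656 = true := by decide +kernel
theorem kp4442_0 : kR N4442 (rawOf F4442) (fun u => Nat.beq u (nat_lit 0x31bb7e723fbbbbfc6edf9c8feeeeffd82122239b3bb3)) P4442_0 (nat_lit 0x3fffffffffffffffffffffffffffffffffffffffffff) = true := by decide +kernel
theorem kv4333_0 : wfT L4333_0 848 = true := by decide +kernel
theorem kw3222_3 : wfT S3222_3 501 = true := by decide +kernel
theorem kp3331_2 : kR N3331 (rawOf F3331) (fun u => Nat.beq u (nat_lit 0x3744006a030003f3e884ff572ff6000000003744006a030003f3e884ff572ff6000000003744006a030003f3e884ff572ff6)) P3331_2 (nat_lit 0x3f44006a930003f7e884ff57ffff000000003f44006a930003f7e884ff57ffff000000003f44006a930003f7e884ff57fff6) = true := by decide +kernel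
theorem kp4333_12 : kR N4333 (rawOf F4333) (fun u => Nat.beq u (nat_lit 0x10080682000028e00080000000020504b000966221011d01c35003025a08026210500000000020100d04000051c00100000000040a0960012cc442023a0386a00604b41004c420a00000000040201a080000a3800200000000081412c0025988840474070d400c0968200988414000000a2fdbbfedeb7bf9a7f3ea00403f7bfffff5ffdf7fdfffe7ffffffffffbfffffbfffffdbfeeff737fffffffffffffffffffe7ffffffffffbffffffffffffffffffffffffbfffffffffffffffffffb2fa0c54280801fd0038004928000101028001008009007602200)) P4333_12 (nat_lit 0x10080682000028e00080000000020504b000966221011d01c35003025a08076210d07000000020100d04000051c00100000000040a0960012cc442023a0386a00604b4100ec421a0e000000040201a080000a3800200000000081412c0025988840474070d400c0968201d884341c0000a2fdbbfedeb7bf9a7f3ea00403f7bfffff5ffdf7fdfffe7ffffffffffbfffffbfffffdbfeeff737fffffffffffffffffffe7ffffffffffbffffffffffffffffffffffffbfffffffffffffffffffb2fa0c54280801fd0038004928000101028001018009007602200) = true := by decide +kernel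
theorem kx4222_64 : chkB N4222 X4222c64 (nat_lit 64) = true := by decide +kernel
theorem kx4322_256 : chkB N4322 X4322c256 (nat_lit 256) = true := by decide +kernel
theorem kx4332_256 : chkB N4332 X4332c256 (nat_lit 256) = true := by decide +kernel
theorem kx3211 : chkB N3211 X3211.t 0 = true := by decide +kernel
theorem kp3320_0 : kR N3320 (rawOf F3320) (fun u => Nat.beq u (nat_lit 0)) P3320_0 (nat_lit 16191) = true := by decide +kernel
theorem kv6222_0 : wfT L6222_0 132 = true := by decide +kernel
theorem kp4432_10 : kR N4432 (rawOf F4432) (fun u => Nat.beq u (nat_lit 0x638082100a00220108c2e144200030000240410000000000000000000000000000000000000000040200180a0000004100444202000004808200000000000000000000000000000000000000000804003014000000820088840400)) P4432_10 (nat_lit 0x638082100a00220108c2e144200030000240410000000000000000000000000000000000000000040200180a0000004100e442020400048082000000000000000000000000000000000000000008040030140000008201c8840408) = true := by decide +kernel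
theorem kp3110_0 : kR N3110 (rawOf F3110) (fun u => Nat.beq u (nat_lit 0)) P3110_0 (nat_lit 15) = true := by decide +kernel
theorem kv4433_3 : wfT L4433_3 58 = true := by decide +kernel
theorem ka4210 : (wfT N4210 3 && wfT R4210 1) = true := by decide +kernel
theorem ka4221 : (wfT N4221 191 && wfT R4221 1) = true := by decide +kernel
theorem ka4322 : (wfT N4322 1140 && wfT R4322 297) = true := by decide +kernel
theorem ka4333 : (wfT N4333 1757 && wfT R4333 770) = true := by decide +kernel
theorem kx2110 : chkB N2110 X2110.t 0 = true := by decide +kernel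
theorem kp4210_0 : kR N4210 (rawOf F4210) (fun u => Nat.beq u (nat_lit 0)) P4210_0 (nat_lit 3) = true := by decide +kernel
theorem kv4221_2 : wfT L4221_2 21 = true := by decide +kernel
theorem kx1100 : chkB N1100 X1100.t 0 = true := by decide +kernel
theorem kp6220_0 : kR N6220 (rawOf F6220) (fun u => Nat.beq u (nat_lit 0)) P6220_0 (nat_lit 1) = true := by decide +kernel
theorem kw1000_3 : wfT S1000_3 1 = true := by decide +kernel
theorem kv1111_3 : wfT L1111_3 6 = true := by decide +kernel
theorem kv3220_2 : wfT L3220_2 3 = true := by decide +kernel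
theorem kv4320_1 : wfT L4320_1 5 = true := by decide +kernel
theorem kx7221 : chkB N7221 X7221.t 0 = true := by decide +kernel
theorem kv4441_2 : wfT L4441_2 4 = true := by decide +kernel
theorem kx5532 : chkB N5532 X5532.t 0 = true := by decide +kernel

end Pool.Agent.L3E.GJ
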