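import Pool.Agent.L3E.GJ.Pl

set_option autoImplicit false
set_option maxRecDepth 100000
set_option linter.unusedVariables false
set_option exponentiation.threshold 100000

/-! # L3E, module GJ.C1: kernel checks -/

namespace Pool.Agent.L3E.GJ

theorem kG2200_1 : gChk AT4 30007 [g2200_1] = true := by decide +kernel
theorem kG3221_1 : gChk AT8 30031 [g3221_1] = true := by decide +kernel
theorem kG3321_1 : gChk AT9 30039 [g3321_1] = true := by decide +kernel
theorem kG4321_3 : gChk AT10 30049 [g4321_3] = true := by decide +kernel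
theorem kG3322_1 : gChk AT10 30052 [g3322_1] = true := by decide +kernel
theorem kG5222_9 : gChk AT11 30055 [g5222_9] = true := by decide +kernel
theorem kG4322_16 : gChk AT11 30058 [g4322_16] = true := by decide +kernel
theorem kG3332_23 : gChk AT11 30059 [g3332_23] = true := by decide +kernel
theorem kS2222_1_384 : chk2 (fun m => appM N2222 (rowL pS2222_1 m)) X2222c384 S2222_1c384 = true := by decide +kernel
theorem kS3222_2_64 : chk2 (fun m => appM N3222 (rowL pS3222_2 m)) X3222c64 S3222_2c64 = true := by decide +kernel
theorem kS4222_3_128 : chk2 (fun m => appM N4222 (rowL pS4222_3 m)) X4222c128 S4222_3c128 = true := by decide +kernel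
theorem kS3322_3_384 : chk2 (fun m => appM N3322 (rowL pS3322_3 m)) X3322c384 S3322_3c384 = true := by decide +kernel
theorem kS3332_1_320 : chk2 (fun m => appM N3332 (rowL pS3332_1 m)) X3332c320 S3332_1c320 = true := by decide +kernel
theorem kS5322_3_64 : chk2 (fun m => appM N5322 (rowL pS5322_3 m)) X5322c64 S5322_3c64 = true := by decide +kernel
theorem kS3333_1_704 : chk2 (fun m => appM N3333 (rowL pS3333_1 m)) X3333c704 S3333_1c704 = true := by decide +kernel
theorem kS3333_3_448 : chk2 (fun m => appM N3333 (rowL pS3333_3 m)) X3333c448 S3333_3c448 = true := by decide +kernel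
theorem kS4433_1 : chk2 (fun m => appM N4433 (rowL pS4433_1 m)) X4433.t S4433_1.t = true := by decide +kernel
theorem kL2211_1 : chk2 (fun m => appM N2211 (rowL pL2211_1 m)) X2111.t L2211_1.t = true := by decide +kernel
theorem kL3320_1 : chk2 (fun m => appM N3320 (rowL pL3320_1 m)) X3220.t L3320_1.t = true := by decide +kernel
theorem kL3321_1_128 : chk2 (fun m => appM N3321 (rowL pL3321_1 m)) X3221c128 L3321_1c128 = true := by decide +kernel
theorem kL4420_1 : chk2 (fun m => appM N4420 (rowL pL4420_1 m)) X4320.t L4420_1.t = true := by decide +kernel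
theorem kL3331_2_128 : chk2 (fun m => appM N3331 (rowL pL3331_2 m)) X3321c128 L3331_2c128 = true := by decide +kernel
theorem kL5222_0_256 : chk2 (fun m => appM N5222 (rowL pL5222_0 m)) X4222c256 L5222_0c256 = true := by decide +kernel
theorem kL4322_1_64 : chk2 (fun m => appM N4322 (rowL pL4322_1 m)) X4222c64 L4322_1c64 = true := by decide +kernel
theorem kL3332_2_512 : chk2 (fun m => appM N3332 (rowL pL3332_2 m)) X3322c512 L3332_2c512 = true := by decide +kernel
theorem kL5322_1_64 : chk2 (fun m => appM N5322 (rowL pL5322_1 m)) X5222c64 L5322_1c64 = true := by decide +kernel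
theorem km4332_9 : kM (appM R4332) (fun u => Nat.beq u (nat_lit 0x77f9e77fdf08fbfc0000000000000000000000002fa9880ea6012420000400405010100000)) M4332_9 (nat_lit 0x3ffefff7fbfeff7f5ff7f9e77fdf08fbfc0000000000000000000000002fa9880ea6012420000400405010100000) = true := by decide +kernel
theorem km3333_2 : kM (appM R3333) (fun u => Nat.beq u (nat_lit 0x3205ffff5fffffffffffdffff7ffff9ff7fbfaffbfdfffffffd7ffec000000000000000000000000000000008200d08b79db0026a082980000000001c800808005880240640b2fa2a7effff9f6ffbffd4ff7f53469f7f5ff3fbef931812ff01c80c817fffd7fffffffffff7fffdffffe7fdfefebfeff7fffffff5fffb0000000000000000000000000000000020803422de76c009a820a6000000000072002020016200901902cbe8a9fbfffe7dbfefff53fdfd4d1a7dfd7fcfefbe4c604bfc07203205ffff5fffffffffffdffff7ffff9ff7fbfaffbfdfffffffd7ffec000000000000000000000000000000008200d08b79db0026a082980000000001c800808005880240640b2fa2a7effff9f6ffbffd4ff7f53469f7f5ff3fbef931812ff01c80c817fffd7fffffffffff7fffdffffe7fdfefebfeff7fffffff5fffb)) M3333_2 (nat_lit 0xd1a7dfd7fcfefbe4c604bfc07203205ffff5fffffffffffdffff7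ffff9ff7fbfaffbfdfffffffd7ffec000000000000000000000000000000008200d08b79db0026a082980000000001c800808005880240640b2fa2a7effff9f6ffbffd4ff7f53469f7f5ff3fbef931812ff01c80c817fffd7fffffffffff7fffdffffe7fdfefebfeff7fffffff5fffb0000000000000000000000000000000020803422de76c009a820a6000000000072002020016200901902cbe8a9fbfffe7dbfefff53fdfd4d1a7dfd7fcfefbe4c604bfc07203205ffff5fffffffffffdffff7ffff9ff7fbfaffbfdfffffffd7ffec000000000000000000000000000000008200d08b79db0026a082980000000001c800808005880240640b2fa2a7effff9f6ffbffd4ff7f53469f7f5ff3fbef931812ff01c80c817fffd7fffffffffff7fffdffffe7fdfefebfeff7fffffff5fffb) = true := by decide +kernel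
theorem kL3333_3_128 : chk2 (fun m => appM N3333 (rowL pL3333_3 m)) X3332c128 L3333_3c128 = true := by decide +kernel
theorem kL5422_3 : chk2 (fun m => appM N5422 (rowL pL5422_3 m)) X5421.t L5422_3.t = true := by decide +kernel
theorem km4333_6 : kM (appM R4333) (fun u => Nat.beq u (nat_lit 0x1ffffffffffffe7ffffffffffbffffffffffffffffffffffffbfffffffffffffffffffb2fa0c54280801fd0038004928000101028001008009007602200)) M4333_6 (nat_lit 0x1fdbfeeff737fffffffffffffffffffe7ffffffffffbffffffffffffffffffffffffbfffffffffffffffffffb2fa0c54280801fd0038004928000101028001008009007602200) = true := by decide +kernel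
theorem kL4333_3_256 : chk2 (fun m => appM N4333 (rowL pL4333_3 m)) X4332c256 L4333_3c256 = true := by decide +kernel
theorem kL6522_1 : chk2 (fun m => appM N6522 (rowL pL6522_1 m)) X6422.t L6522_1.t = true := by decide +kernel
theorem kc2222_0 : coreNF N2222 (rawOf F2222) (toL R2222c0 []) C2222_0 = true := by decide +kernel
theorem kc3222_32 : coreNF N3222 (rawOf F3222) (toL R3222c32 []) C3222_32 = true := by decide +kernel
theorem kc3331_32 : coreNF N3331 (rawOf F3331) (toL R3331c32 []) C3331_32 = true := by decide +kernel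
theorem kc3322_224 : coreNF N3322 (rawOf F3322) (toL R3322c224 []) C3322_224 = true := by decide +kernel
theorem kc4322_64 : coreNF N4322 (rawOf F4322) (toL R4322c64 []) C4322_64 = true := by decide +kernel
theorem kc3332_32 : coreNF N3332 (rawOf F3332) (toL R3332c32 []) C3332_32 = true := by decide +kernel
theorem kc3332_416 : coreNF N3332 (rawOf F3332) (toL R3332c416 []) C3332_416 = true := by decide +kernel
theorem kc6222_16 : coreNF N6222 (rawOf F6222) (toL R6222c16 []) C6222_16 = true := by decide +kernel
theorem kc4422_112 : coreNF N4422 (rawOf F4422) (toL R4422c112 []) C4422_112 = true := by decide +kernel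
theorem kc4332_160 : coreNF N4332 (rawOf F4332) (toL R4332c160 []) C4332_160 = true := by decide +kernel
theorem kc4332_544 : coreNF N4332 (rawOf F4332) (toL R4332c544 []) C4332_544 = true := by decide +kernel
theorem kc3333_80 : coreNF N3333 (rawOf F3333) (toL R3333c80 []) C3333_80 = true := by decide +kernel
theorem kc3333_464 : coreNF N3333 (rawOf F3333) (toL R3333c464 []) C3333_464 = true := by decide +kernel
theorem kc3333_848 : coreNF N3333 (rawOf F3333) (toL R3333c848 []) C3333_848 = true := by decide +kernel
theorem kc3333_1232 : coreNF N3333 (rawOf F3333) (toL R3333c1232 []) C3333_1232 = true := by decide +kernel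
theorem kp3333_4 : kR N3333 (rawOf F3333) (fun u => Nat.beq u (nat_lit 0x68c50394081833981cc430c9800000020803422de76c009aa20a6000000000072002020016200961932fbfea9fffffe7dbffffffffffffffe7fff7fcfffbe4c604bfc073c3265ffffdfffffffffffffffffffffffffffffffffffffffffd7fffc1e7173e79677ecfed7f50c32600000008200d08b79db0026a882980000000001c8008080058802ff7edbeffaa7fffff9f6fffffffffffffff9fffdff3ffef931812ff01dfefdb7ffff7fffffffffffffffffffffffffffffffffffffffff5ffff079c5cf9e581833981cc430c9800000020803422de76c009aa20a6000000000072002020016200961932fbfea9fffffe7dbffffffffffffffe7fff7fcfffbe4c604bfc073c3265ffffdfffffffffffffffffffffffffffffffffffffffffd7fffc1a3140e502060ce607310c32600000008200d08b79db0026a882980000000001c80080800588025864cbeffaa7fffff9f6fffffffffffffff9fffdff3ffef931812ff01cf0c997ffff7fffffffffffffffffffffffffffffffffffffffff5ffff)) P3333_4 (nat_lit 0x68c50394081833981cc430c9800000020803422de76c009aa20a6000000000072002020016200961932fbfea9fffffe7dbffffffffffffffe7fff7fcfffbe4c604bfc073c3265ffffdfffffffffffffffffffffffffffffffffffffffffd7fffc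1e7173e79677ecfed7f50c32600000008200d08b79db0026a882980000000001c8008080058802ff7edbeffaa7fffff9f6fffffffffffffff9fffdff3ffef931812ff01dfefdb7ffff7fffffffffffffffffffffffffffffffffffffffff5ffff079c5cf9e59dfb3fb5fd430c9800000020803422de76c009aa20a6000000000072002020016200bfdfb6fbfea9fffffe7dbffffffffffffffe7fff7fcfffbe4c604bfc077fbf6dffffdfffffffffffffffffffffffffffffffffffffffffd7fffc1e7173e79677ecfed7f50c32600000008200d08b79db0026a882980000000001c8008080058802ff7ccbeffaa7fffff9f6fffffffffffffff9fffdff3ffef931812ff01cf0c997ffff7fffffffffffffffffffffffffffffffffffffffff5ffff) = true := by decide +kernel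
theorem kp4432_4 : kR N4432 (rawOf F4432) (fun u => Nat.beq u (nat_lit 0x1ae40000e3c1f2d23a033a81fff7f7e674007509025c61d57822dffff43fd772200000000000009380a0000f3febffff3fdfb9fffffdfbbfce1204b8c3aaf045bfffe87faee440000000000001270140001e7fd7fffe7fbf73fffffbf77f9c)) P4432_4 (nat_lit 0x5ae60008f3c1f6d23a2bbfb1fff7ffe674577f49825cf1f5f822dffff43ffffe280000000000009385b1838fbfefffff3fffb9ffffffffffff9304b9e3ebf045bfffe87ffffc50000000000001270140001f7fdffffe7fff73fffffbf77f9c) = true := by decide +kernel
theorem kc4333_288 : coreNF N4333 (rawOf F4333) (toL R4333c288 []) C4333_288 = true := by decide +kernel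
theorem kc4333_672 : coreNF N4333 (rawOf F4333) (toL R4333c672 []) C4333_672 = true := by decide +kernel
theorem kp4442_1 : kR N4442 (rawOf F4442) (fun u => Nat.beq u (nat_lit 0x396c501f8a03fc0000008e6080cc00000001982033)) P4442_1 (nat_lit 0x31bb7e723fbbbbfc6edf9c8feeeeffd82122239b3bb3) = true := by decide +kernel
theorem kp4421_1 : kR N4421 (rawOf F4421) (fun u => Nat.beq u (nat_lit 0)) P4421_1 (nat_lit 0x61e3e35d75000000061fbffdd75) = true := by decide +kernel
theorem kp5322_4 : kR N5322 (rawOf F5322) (fun u => Nat.beq u (nat_lit 0x101a084d000003a6275e4650231e751001000500a18f0acc2abd1ffaffe9cc1f6fc9ffbb61ebf215fa82c248000000000000000000000000000000000000000)) P5322_4 (nat_lit 0x101a084d000003a627de4650237f7d1f31000500a18f0ace2abd1ffaffe9cc1f6fc9fffb61ebf21ffe8ae2c800000054160000220080000000a882000002000) = true := by decide +kernel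
theorem km3333_24 : kM (appM R3333) (fun u => Nat.beq u (nat_lit 0)) M3333_24 (nat_lit 131067) = true := by decide +kernel
theorem kv4333_3 : wfT L4333_3 303 = true := by decide +kernel
theorem kx4222_128 : chkB N4222 X4222c128 (nat_lit 128) = true := by decide +kernel
theorem kx4322_320 : chkB N4322 X4322c320 (nat_lit 320) = true := by decide +kernel
theorem kx3333_0 : chkB N3333 X3333c0 (nat_lit 0) = true := by decide +kernel
theorem kp5311_0 : kR N5311 (rawOf F5311) (fun u => Nat.beq u (nat_lit 0)) P5311_0 (nat_lit 8191) = true := by decide +kernel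
theorem km3221_0 : kM (appM R3221) (fun u => Nat.beq u (nat_lit 0)) M3221_0 (nat_lit 0xa0014000000028005000000000000000000000000000000000000) = true := by decide +kernel
theorem kv5322_1 : wfT L5322_1 132 = true := by decide +kernel
theorem kx5333 : chkB N5333 X5333.t 0 = true := by decide +kernel
theorem ke2211 : kB (fun u => Nat.beq u (nat_lit 0xfc003f000fc003f)) (toL X2211.t []) (nat_lit 0xfffffffffffffffffffff) = true := by decide +kernel
theorem kp6432_0 : kR N6432 (rawOf F6432) (fun u => Nat.beq u (nat_lit 0)) P6432_0 (nat_lit 15) = true := by decide +kernel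
theorem ka4111 : (wfT N4111 24 && wfT R4111 1) = true := by decide +kernel
theorem ka3330 : (wfT N3330 12 && wfT R3330 1) = true := by decide +kernel
theorem ka3332 : (wfT N3332 2040 && wfT R3332 639) = true := by decide +kernel
theorem ka8222 : (wfT N8222 2 && wfT R8222 1) = true := by decide +kernel
theorem kp2110_0 : kR N2110 (rawOf F2110) (fun u => Nat.beq u (nat_lit 0)) P2110_0 (nat_lit 3) = true := by decide +kernel
theorem kv4111_0 : wfT L4111_0 24 = true := by decide +kernel
theorem ke5221 : kB (fun u => Nat.beq u (nat_lit 0x90c0417edffffffffffffff)) (toL X5221.t []) (nat_lit 0x3fffffffffffffffffffffff) = true := by decide +kernel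
theorem kp2100_0 : kR N2100 (rawOf F2100) (fun u => Nat.beq u (nat_lit 0)) P2100_0 (nat_lit 1) = true := by decide +kernel
theorem kv5311_0 : wfT L5311_0 10 = true := by decide +kernel
theorem kx2000 : chkB N2000 X2000.t 0 = true := by decide +kernel
theorem ke3110 : kB (fun u => Nat.beq u (nat_lit 15)) (toL X3110.t []) (nat_lit 63) = true := by decide +kernel
theorem kv3211_3 : wfT L3211_3 3 = true := by decide +kernel
theorem kv4221_3 : wfT L4221_3 5 = true := by decide +kernel
theorem kv7221_0 : wfT L7221_0 2 = true := by decide +kernel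
theorem kv4432_3 : wfT L4432_3 4 = true := by decide +kernel
theorem kv5532_1 : wfT L5532_1 3 = true := by decide +kernel

end Pool.Agent.L3E.GJ
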