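import Pool.Agent.L3E.GJ.Pl

set_option autoImplicit false
set_option maxRecDepth 100000
set_option linter.unusedVariables false
set_option exponentiation.threshold 100000

/-! # L3E, module GJ.C10: kernel checks -/

namespace Pool.Agent.L3E.GJ

theorem kG3211_1 : gChk AT7 30022 [g3211_1] = true := by decide +kernel
theorem kG2222_6 : gChk AT8 30032 [g2222_6] = true := by decide +kernel
theorem kG3222_4 : gChk AT9 30040 [g3222_4] = true := by decide +kernel
theorem kG4222_7 : gChk AT10 30050 [g4222_7] = true := by decide +kernel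
theorem kG3322_10 : gChk AT10 30052 [g3322_10] = true := by decide +kernel
theorem kG4322_1 : gChk AT11 30058 [g4322_1] = true := by decide +kernel
theorem kG3332_8 : gChk AT11 30059 [g3332_8] = true := by decide +kernel
theorem kS1111_1 : chk2 (fun m => appM N1111 (rowL pS1111_1 m)) X1111.t S1111_1.t = true := by decide +kernel
theorem kS2221_2_128 : chk2 (fun m => appM N2221 (rowL pS2221_2 m)) X2221c128 S2221_2c128 = true := by decide +kernel
theorem kS2222_3_64 : chk2 (fun m => appM N2222 (rowL pS2222_3 m)) X2222c64 S2222_3c64 = true := by decide +kernel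
theorem kS3222_3_128 : chk2 (fun m => appM N3222 (rowL pS3222_3 m)) X3222c128 S3222_3c128 = true := by decide +kernel
theorem kS3322_1_64 : chk2 (fun m => appM N3322 (rowL pS3322_1 m)) X3322c64 S3322_1c64 = true := by decide +kernel
theorem kS5222_3_64 : chk2 (fun m => appM N5222 (rowL pS5222_3 m)) X5222c64 S5222_3c64 = true := by decide +kernel
theorem kS3332_2_64 : chk2 (fun m => appM N3332 (rowL pS3332_2 m)) X3332c64 S3332_2c64 = true := by decide +kernel
theorem kS4332_2_64 : chk2 (fun m => appM N4332 (rowL pS4332_2 m)) X4332c64 S4332_2c64 = true := by decide +kernel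
theorem kS3333_2_384 : chk2 (fun m => appM N3333 (rowL pS3333_2 m)) X3333c384 S3333_2c384 = true := by decide +kernel
theorem kS6322_3 : chk2 (fun m => appM N6322 (rowL pS6322_3 m)) X6322.t S6322_3.t = true := by decide +kernel
theorem kL3100_0 : chk2 (fun m => appM N3100 (rowL pL3100_0 m)) X2100.t L3100_0.t = true := by decide +kernel
theorem kL3220_0 : chk2 (fun m => appM N3220 (rowL pL3220_0 m)) X2220.t L3220_0.t = true := by decide +kernel
theorem kL2222_3_128 : chk2 (fun m => appM N2222 (rowL pL2222_3 m)) X2221c128 L2222_3c128 = true := by decide +kernel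
theorem kL3222_0_320 : chk2 (fun m => appM N3222 (rowL pL3222_0 m)) X2222c320 L3222_0c320 = true := by decide +kernel
theorem kL4321_3 : chk2 (fun m => appM N4321 (rowL pL4321_3 m)) X4320.t L4321_3.t = true := by decide +kernel
theorem kL3322_1_256 : chk2 (fun m => appM N3322 (rowL pL3322_1 m)) X3222c256 L3322_1c256 = true := by decide +kernel
theorem km4322_0 : kM (appM R4322) (fun u => Nat.beq u (nat_lit 0x1ffb1f4ef50d09aaae12600000000000000000000000000000d524806608032b8007d4bff97bfcabfbde2d80ccebaa47feafb6ef658a8336eabcfeebde453f800000000020001000000008000000002d042800800002120c000080)) M4322_0 (nat_lit 0x85040000802001021410040250c0040000000000001a001565ac520dbbd62d86515503ffb1f4ef50d09aaae12600000000000000000000000000000d524806608032b8007d4bff97bfcabfbde2d80ccebaa47feafb6ef658a8336eabcfeebde453f800000000020001000000008000000002d042800800002120c000080) = true := by decide +kernel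
theorem km3332_2 : kM (appM R3332) (fun u => Nat.beq u (nat_lit 0xbbd68bcd40000000000000000000000000000000000000000000000000001201a0d4240b4082000081beaa16abd562814828223cb01403c941bb6bffabfbf7ffb7daaeaa46faeffeaf558a073eaa88feef5a2f35000000000000000000000000000000000000000000000000000048068350902d0208000206faa85aaf558a0520a088f2c0500f2506edaffeafefdffedf6abaa91bebbffabd56281cfaaa23fbbd68bcd4)) M3332_2 (nat_lit 0xbaa91bebbffabd56281cfaaa23fbbd68bcd40000000000000000000000000000000000000000000000000001201a0d4240b4082000081beaa16abd562814828223cb01403c941bb6bffabfbf7ffb7daaeaa46faeffeaf558a073eaa88feef5a2f35000000000000000000000000000000000000000000000000000048068350902d0208000206faa85aaf558a0520a088f2c0500f2506edaffeafefdffedf6abaa91bebbffabd56281cfaaa23fbbd68bcd4) = true := by decide +kernel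
theorem kL6222_0_128 : chk2 (fun m => appM N6222 (rowL pL6222_0 m)) X5222c128 L6222_0c128 = true := by decide +kernel
theorem kL4422_1_64 : chk2 (fun m => appM N4422 (rowL pL4422_1 m)) X4322c64 L4422_1c64 = true := by decide +kernel
theorem kL4332_0_448 : chk2 (fun m => appM N4332 (rowL pL4332_0 m)) X3332c448 L4332_0c448 = true := by decide +kernel
theorem km3333_11 : kM (appM R3333) (fun u => Nat.beq u (nat_lit 0x1fb0000000000000000000000000000000020803422de76c009a820a6000000000072002020016200901902cbe8a9fbfffe7dbfefff53fdfd4d1a7dfd7fcfefbe4c604bfc07203205ffff5fffffffffffdffff7ffff9ff7fbfaffbfdfffffffd7ffec000000000000000000000000000000008200d08b79db0026a082980000000001c800808005880240640b2fa2a7effff9f6ffbffd4ff7f53469f7f5ff3fbef931812ff01c80c817fffd7fffffffffff7fffdffffe7fdfefebfeff7fffffff5fffb)) M3333_11 (nat_lit 0x7ebfeff7fffffff5fffb0000000000000000000000000000000020803422de76c009a820a6000000000072002020016200901902cbe8a9fbfffe7dbfefff53fdfd4d1a7dfd7fcfefbe4c604bfc07203205ffff5fffffffffffdffff7ffff9ff7fbfaffbfdfffffffd7ffec000000000000000000000000000000008200d08b79db0026a082980000000001c800808005880240640b2fa2a7effff9f6ffbffd4ff7f53469f7f5ff3fbef931812ff01c80c817fffd7fffffffffff7fffdffffe7fdfefebfeff7fffffff5fffb)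 = true := by decide +kernel
theorem kL3333_3_704 : chk2 (fun m => appM N3333 (rowL pL3333_3 m)) X3332c704 L3333_3c704 = true := by decide +kernel
theorem kL4432_1_0 : chk2 (fun m => appM N4432 (rowL pL4432_1 m)) X4332c0 L4432_1c0 = true := by decide +kernel
theorem kL4333_0_192 : chk2 (fun m => appM N4333 (rowL pL4333_0 m)) X3333c192 L4333_0c192 = true := by decide +kernel
theorem kL5432_0 : chk2 (fun m => appM N5432 (rowL pL5432_0 m)) X4432.t L5432_0.t = true := by decide +kernel
theorem kL4443_2 : chk2 (fun m => appM N4443 (rowL pL4443_2 m)) X4433.t L4443_2.t = true := by decide +kernel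
theorem kp4321_1 : kR N4321 (rawOf F4321) (fun u => Nat.beq u (nat_lit 0x4214100008415d48080e000000002805c48e5ab176b000000000000000)) P4321_1 (nat_lit 0xb4614381098415dfecb7fe50000083907f7fedefff7f8888998108c6204) = true := by decide +kernel
theorem kc3322_32 : coreNF N3322 (rawOf F3322) (toL R3322c32 []) C3322_32 = true := by decide +kernel
theorem kc5222_48 : coreNF N5222 (rawOf F5222) (toL R5222c48 []) C5222_48 = true := by decide +kernel
theorem kc4322_256 : coreNF N4322 (rawOf F4322) (toL R4322c256 []) C4322_256 = true := by decide +kernel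
theorem kc3332_224 : coreNF N3332 (rawOf F3332) (toL R3332c224 []) C3332_224 = true := by decide +kernel
theorem kc3332_608 : coreNF N3332 (rawOf F3332) (toL R3332c608 []) C3332_608 = true := by decide +kernel
theorem kp5322_0 : kR N5322 (rawOf F5322) (fun u => Nat.beq u (nat_lit 0x701f21ac94d60017ba677ff66587bffffdfbd220500b58f1ede2abdfffefffffe9ffffffffff7fffffffffffffea77ed5d7bfd2ffffdffb5ea774affabff7ffbf7)) P5322_0 (nat_lit 0x701f31ad9cd6fffffae7fff7e587bffffffbd260500b58f1ffe2abdfffefffffffffffffffffffffffffffffffffffffffffffffffffffffffffffffffffffffff) = true := by decide +kernel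
theorem kp4422_4 : kR N4422 (rawOf F4422) (fun u => Nat.beq u (nat_lit 0x480000100087c39808c53e0000000001a000000000680138028812c7fffc17dff7d55bff6fcbffff2fbff557d3fc7120000040021f0e602314f800000000068000000001a004e00a204b1ffff05f7fdf552fbdbf2ffffcbeffd55f4ff1c)) P4422_4 (nat_lit 0x1c4001c4480000100087c39808c53e0000008005a400002000680138028812d7fffc5ffff7f7ffffffffffff3ffffdfffffd7520000040021f0e602314f800000000068000000001a004e00a204b5ffff17fffdfdffffffffffffcfffff7fffff5d) = true := by decide +kernel
theorem kc4332_352 : coreNF N4332 (rawOf F4332) (toL R4332c352 []) C4332_352 = true := by decide +kernel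
theorem kp4332_1 : kR N4332 (rawOf F4332) (fun u => Nat.beq u (nat_lit 0x3df8d260417ac8b04d08dede72d7e15ceb85ed1ff04dbb8fbea6c00f0dfffffffffffffffff8dffbffffffffff7fffff3f498105eb22c134237b79cb5f8573ae17b47fc136ee3efa9b003c37ffffffffffffffffe37feffffffffffdfffffcfd000050000058300405a01bdfeafd7fff827ffc9ffe53dff7ffbfffffeefe72bfff7ffffffffdf7ffffffffffff5fffffffffffffffff7ffffffffdffffffffffffffffed4efdb97fcbfdd7dbe37fd0a2ffffebeef6bef6be89fdef4d47bfeef05)) P4332_1 (nat_lit 0x3df8d260417ac8b1fffffffffff7e15ceb85ed1fffffbb8fbea6c00f0dfffffffffffffffff8dffbffffffffff7fffff3f498105eb22c7fffb7b79cb5f8573ae17b47fc136ee3efa9b003c37ffffffffffffffffe37feffffffffffdfffffcfd000050000058300405a01bdfeafd7fff827ffc9ffe53dff7ffbfffffeefe72bfff7ffffffffdf7ffffffffffff5fffffffffffffffff7ffffffffdffffffffffffffffefffffff7fdfffd7dbeb7ff5abffffebeef6befebe89fdef4d5fbfeff87) = true := by decide +kernel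
theorem kc3333_272 : coreNF N3333 (rawOf F3333) (toL R3333c272 []) C3333_272 = true := by decide +kernel
theorem kc3333_656 : coreNF N3333 (rawOf F3333) (toL R3333c656 []) C3333_656 = true := by decide +kernel
theorem kc3333_1040 : coreNF N3333 (rawOf F3333) (toL R3333c1040 []) C3333_1040 = true := by decide +kernel
theorem kc3333_1424 : coreNF N3333 (rawOf F3333) (toL R3333c1424 []) C3333_1424 = true := by decide +kernel
theorem kp5332_2 : kR N5332 (rawOf F5332) (fun u => Nat.beq u (nat_lit 0x24026061eb1d7d7afff212013030f58ebebd7ff9034c1a7ce6a6c3d676fb7faee7c79ff6d178cfff67f5dcf8004881c8046339028ad3d885241c)) P5332_2 (nat_lit 0x24026071ef5d7d7bffff3a553838f7afbebfffff8b5c1b7ce6aed3d676ffffffffff9ff6d97affff6fffffff055881ca046339028ad7dc8dec7f) = true := by decide +kernel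
theorem kc4333_96 : coreNF N4333 (rawOf F4333) (toL R4333c96 []) C4333_96 = true := by decide +kernel
theorem kc4333_480 : coreNF N4333 (rawOf F4333) (toL R4333c480 []) C4333_480 = true := by decide +kernel
theorem kp4333_5 : kR N4333 (rawOf F4333) (fun u => Nat.beq u (nat_lit 0x100a1fb2c80029e4339102ff4be7cdfff53c977627d77f6ffbddcffffebbff6fddfe7c00000020153f65900253c8672205fe97cf9bffea792eec4faefeffffbb9ffffd77fedfb9bce0000000402a7ecb2004a790ce440bfd2f9f37ffd4f25dd89f5dfdbfef773ffffaeffdbf7379c0000a2fdbbfedeb7bf9a7f3ea00403ffbfffff5ffdf7fdfffe7ffffffffffbfffffbffffffbfeeff737fffffffffffffffffffe7ffffffffffbffffffffffffffffffffffffbfffffffffffffffffffb2fa0ffca96ad1fd18384259b88a016312a02113800f48762260c)) P4333_5 (nat_lit 0x1000109a9fb2cc0129e4339102ff5be7fffff53c97763fd77f7fffddcffffebfff7fffff7c00201021353f65980353c9672205feb7efffffeb792eec4fbefffffffffffffd7fffdfbbfcf8004020426a7ecb3006a792ce440bfd6f9fffffd4f25dd89f5dfdffff773ffffafffdbf77f9f0000a2fdbbfedeb7bf9a7f3ea00403ffbfffff5ffdf7fffffe7ffffffffffbfffffbffffffbfeeff737fffffffffffffffffffe7ffffffffffbffffffffffffffffffffffffbfffffffffffffffffffb2fa0ffca96ad1fd18384259b88a01e312a02113800f48762260c)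 = true := by decide +kernel
theorem kp4443_1 : kR N4443 (rawOf F4443) (fun u => Nat.beq u (nat_lit 0)) P4443_1 (nat_lit 0x3c3c19f19f03c3019f19f03c3019f19f) = true := by decide +kernel
theorem kv3333_3 : wfT L3333_3 774 = true := by decide +kernel
theorem kp6322_1 : kR N6322 (rawOf F6322) (fun u => Nat.beq u (nat_lit 0x800010a0000000000)) P6322_1 (nat_lit 0x28d23e010870d7ff400004000c) = true := by decide +kernel
theorem kv4422_1 : wfT L4422_1 374 = true := by decide +kernel
theorem kx2221_64 : chkB N2221 X2221c64 (nat_lit 64) = true := by decide +kernel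
theorem kx4221_0 : chkB N4221 X4221c0 (nat_lit 0) = true := by decide +kernel
theorem kx3322_64 : chkB N3322 X3322c64 (nat_lit 64) = true := by decide +kernel
theorem kx3332_384 : chkB N3332 X3332c384 (nat_lit 384) = true := by decide +kernel
theorem kx3333_448 : chkB N3333 X3333c448 (nat_lit 448) = true := by decide +kernel
theorem kp3322_6 : kR N3322 (rawOf F3322) (fun u => Nat.beq u (nat_lit 0x80002f38440108800000000000000000000080002f3844010880000000000000000000000000000000000000000028224400100000000000000000000000000210b4020dc802b2da0177d57ffb483bcc3796d61b7ffaf7599e000000000000000000000000000000000000000141122000800000000000000000000000001085a0106e401596d00bbeabffda41de61bcb6b0dbffd7baccf)) P3322_6 (nat_lit 0x80002f38440108800000000000000000000080002f3844010880000000000000000000000000000000000000000028224400100000000000000000000200000210b4020dc802b2da0177d57ffb483fcc3796f6bb7ffaff59de000000000000000000000000000000000000000141122000800000000000000000001000001085a0106e401596d00bbeabffda41fe61bcb7b1dbffd7faccf) = true := by decide +kernel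
theorem ke3331 : kB (fun u => Nat.beq u (nat_lit 0xfffffc03fffc06ad30003f7fffcffffffff0fffffc03fffc06ad30003f7fffcffffffff0fffffc03fffc06ad30003f7fffcffffffff)) (toL X3331.t []) (nat_lit 0xffffffffffffffffffffffffffffffffffffffffffffffffffffffffffffffffffffffffffffffffffffffffffffffffffffffffffff) = true := by decide +kernel
theorem kx1111 : chkB N1111 X1111.t 0 = true := by decide +kernel
theorem kv2221_2 : wfT L2221_2 60 = true := by decide +kernel
theorem kw3211_3 : wfT S3211_3 50 = true := by decide +kernel
theorem kw2111_3 : wfT S2111_3 36 = true := by decide +kernel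
theorem kw3311_3 : wfT S3311_3 34 = true := by decide +kernel
theorem ka3322 : (wfT N3322 1290 && wfT R3322 256) = true := by decide +kernel
theorem ka6421 : (wfT N6421 1 && wfT R6421 1) = true := by decide +kernel
theorem ka5433 : (wfT N5433 72 && wfT R5433 1) = true := by decide +kernel
theorem kw5332_2 : wfT S5332_2 31 = true := by decide +kernel
theorem kw6222_3 : wfT S6222_3 22 = true := by decide +kernel
theorem kv3220_0 : wfT L3220_0 12 = true := by decide +kernel
theorem kx7222 : chkB N7222 X7222.t 0 = true := by decide +kernel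
theorem kv2100_0 : wfT L2100_0 2 = true := by decide +kernel
theorem ke3210 : kB (fun u => Nat.beq u (nat_lit 87)) (toL X3210.t []) (nat_lit 255) = true := by decide +kernel
theorem kv4220_2 : wfT L4220_2 1 = true := by decide +kernel
theorem kv5320_0 : wfT L5320_0 1 = true := by decide +kernel
theorem ke7222 : kB (fun u => Nat.beq u (nat_lit 0xfffff)) (toL X7222.t []) (nat_lit 0x3fffff) = true := by decide +kernel
theorem kv6422_1 : wfT L6422_1 5 = true := by decide +kernel
theorem kx6433 : chkB N6433 X6433.t 0 = true := by decide +kernel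

end Pool.Agent.L3E.GJ
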