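import Pool.Agent.L3E.GJ.Pl

set_option autoImplicit false
set_option maxRecDepth 100000
set_option linter.unusedVariables false
set_option exponentiation.threshold 100000

/-! # L3E, module GJ.C11: kernel checks -/

namespace Pool.Agent.L3E.GJ

theorem kG2221_0 : gChk AT7 30023 [g2221_0] = true := by decide +kernel
theorem kG2222_7 : gChk AT8 30032 [g2222_7] = true := by decide +kernel
theorem kG3222_5 : gChk AT9 30040 [g3222_5] = true := by decide +kernel
theorem kG4222_8 : gChk AT10 30050 [g4222_8] = true := by decide +kernel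
theorem kG3322_11 : gChk AT10 30052 [g3322_11] = true := by decide +kernel
theorem kG4322_2 : gChk AT11 30058 [g4322_2] = true := by decide +kernel
theorem kG3332_9 : gChk AT11 30059 [g3332_9] = true := by decide +kernel
theorem kS1111_2 : chk2 (fun m => appM N1111 (rowL pS1111_2 m)) X1111.t S1111_2.t = true := by decide +kernel
theorem kS4220_2 : chk2 (fun m => appM N4220 (rowL pS4220_2 m)) X4220.t S4220_2.t = true := by decide +kernel
theorem kS2222_3_128 : chk2 (fun m => appM N2222 (rowL pS2222_3 m)) X2222c128 S2222_3c128 = true := by decide +kernel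
theorem kS3222_3_192 : chk2 (fun m => appM N3222 (rowL pS3222_3 m)) X3222c192 S3222_3c192 = true := by decide +kernel
theorem kS3322_1_128 : chk2 (fun m => appM N3322 (rowL pS3322_1 m)) X3322c128 S3322_1c128 = true := by decide +kernel
theorem kS5222_3_128 : chk2 (fun m => appM N5222 (rowL pS5222_3 m)) X5222c128 S5222_3c128 = true := by decide +kernel
theorem kS3332_2_128 : chk2 (fun m => appM N3332 (rowL pS3332_2 m)) X3332c128 S3332_2c128 = true := by decide +kernel
theorem kS4332_2_128 : chk2 (fun m => appM N4332 (rowL pS4332_2 m)) X4332c128 S4332_2c128 = true := by decide +kernel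
theorem kS3333_2_448 : chk2 (fun m => appM N3333 (rowL pS3333_2 m)) X3333c448 S3333_2c448 = true := by decide +kernel
theorem kS5422_3 : chk2 (fun m => appM N5422 (rowL pS5422_3 m)) X5422.t S5422_3.t = true := by decide +kernel
theorem kL2200_1 : chk2 (fun m => appM N2200 (rowL pL2200_1 m)) X2100.t L2200_1.t = true := by decide +kernel
theorem kL3220_2 : chk2 (fun m => appM N3220 (rowL pL3220_2 m)) X3210.t L3220_2.t = true := by decide +kernel
theorem kL5220_0 : chk2 (fun m => appM N5220 (rowL pL5220_0 m)) X4220.t L5220_0.t = true := by decide +kernel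
theorem kL3222_0_384 : chk2 (fun m => appM N3222 (rowL pL3222_0 m)) X2222c384 L3222_0c384 = true := by decide +kernel
theorem kL4222_0_0 : chk2 (fun m => appM N4222 (rowL pL4222_0 m)) X3222c0 L4222_0c0 = true := by decide +kernel
theorem kL3322_1_320 : chk2 (fun m => appM N3322 (rowL pL3322_1 m)) X3222c320 L3322_1c320 = true := by decide +kernel
theorem km4322_1 : kM (appM R4322) (fun u => Nat.beq u (nat_lit 0x8007d4bff97bfcabfbde2d80ccebaa47feafb6ef658a8336eabcfeebde453f800000000020001000000008000000002d042800800002120c000080)) M4322_1 (nat_lit 0x1ffb1f4ef50d09aaae12600000000000000000000000000000d524806608032b8007d4bff97bfcabfbde2d80ccebaa47feafb6ef658a8336eabcfeebde453f800000000020001000000008000000002d042800800002120c000080) = true := by decide +kernel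
theorem km3332_3 : kM (appM R3332) (fun u => Nat.beq u (nat_lit 0x22814828223cb01403c941bb6bffabfbf7ffb7daaeaa46faeffeaf558a073eaa88feef5a2f35000000000000000000000000000000000000000000000000000048068350902d0208000206faa85aaf558a0520a088f2c0500f2506edaffeafefdffedf6abaa91bebbffabd56281cfaaa23fbbd68bcd4)) M3332_3 (nat_lit 0xbbd68bcd40000000000000000000000000000000000000000000000000001201a0d4240b4082000081beaa16abd562814828223cb01403c941bb6bffabfbf7ffb7daaeaa46faeffeaf558a073eaa88feef5a2f35000000000000000000000000000000000000000000000000000048068350902d0208000206faa85aaf558a0520a088f2c0500f2506edaffeafefdffedf6abaa91bebbffabd56281cfaaa23fbbd68bcd4) = true := by decide +kernel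
theorem kL6222_3 : chk2 (fun m => appM N6222 (rowL pL6222_3 m)) X6221.t L6222_3.t = true := by decide +kernel
theorem kL4422_1_128 : chk2 (fun m => appM N4422 (rowL pL4422_1 m)) X4322c128 L4422_1c128 = true := by decide +kernel
theorem kL4332_0_512 : chk2 (fun m => appM N4332 (rowL pL4332_0 m)) X3332c512 L4332_0c512 = true := by decide +kernel
theorem km3333_12 : kM (appM R3333) (fun u => Nat.beq u (nat_lit 0x29fbfffe7dbfefff53fdfd4d1a7dfd7fcfefbe4c604bfc07203205ffff5fffffffffffdffff7ffff9ff7fbfaffbfdfffffffd7ffec000000000000000000000000000000008200d08b79db0026a082980000000001c800808005880240640b2fa2a7effff9f6ffbffd4ff7f53469f7f5ff3fbef931812ff01c80c817fffd7fffffffffff7fffdffffe7fdfefebfeff7fffffff5fffb)) M3333_12 (nat_lit 0x1fb0000000000000000000000000000000020803422de76c009a820a6000000000072002020016200901902cbe8a9fbfffe7dbfefff53fdfd4d1a7dfd7fcfefbe4c604bfc07203205ffff5fffffffffffdffff7ffff9ff7fbfaffbfdfffffffd7ffec000000000000000000000000000000008200d08b79db0026a082980000000001c800808005880240640b2fa2a7effff9f6ffbffd4ff7f53469f7f5ff3fbef931812ff01c80c817fffd7fffffffffff7fffdffffe7fdfefebfeff7fffffff5fffb)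 = true := by decide +kernel
theorem kL3333_3_768 : chk2 (fun m => appM N3333 (rowL pL3333_3 m)) X3332c768 L3333_3c768 = true := by decide +kernel
theorem kL4432_1_64 : chk2 (fun m => appM N4432 (rowL pL4432_1 m)) X4332c64 L4432_1c64 = true := by decide +kernel
theorem kL4333_0_256 : chk2 (fun m => appM N4333 (rowL pL4333_0 m)) X3333c256 L4333_0c256 = true := by decide +kernel
theorem kL5432_1 : chk2 (fun m => appM N5432 (rowL pL5432_1 m)) X5332.t L5432_1.t = true := by decide +kernel
theorem kL6433_0 : chk2 (fun m => appM N6433 (rowL pL6433_0 m)) X5433.t L6433_0.t = true := by decide +kernel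
theorem kc4222_0 : coreNF N4222 (rawOf F4222) (toL R4222c0 []) C4222_0 = true := by decide +kernel
theorem kc3322_48 : coreNF N3322 (rawOf F3322) (toL R3322c48 []) C3322_48 = true := by decide +kernel
theorem kp5222_0 : kR N5222 (rawOf F5222) (fun u => Nat.beq u (nat_lit 0x40c0c18181830303040000000f000028389f7039becb3eb9fffffffffffdfeffffa94e97c814a74beebffff0053e6852bcfffffc7b77f)) P5222_0 (nat_lit 0x40c0c18181830303040000000f000028389f7039becb3eb9fffffffffffdfefffffffffffffffffffffffffffffffffffffffffffffff) = true := by decide +kernel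
theorem kc4322_272 : coreNF N4322 (rawOf F4322) (toL R4322c272 []) C4322_272 = true := by decide +kernel
theorem kc3332_240 : coreNF N3332 (rawOf F3332) (toL R3332c240 []) C3332_240 = true := by decide +kernel
theorem kc3332_624 : coreNF N3332 (rawOf F3332) (toL R3332c624 []) C3332_624 = true := by decide +kernel
theorem kp5322_1 : kR N5322 (rawOf F5322) (fun u => Nat.beq u (nat_lit 0x701d21ac94d60016ba677ff66587bffffdfbd200500b18f1ece2abddffefffffe9ffffffffff3ffffdffffffffe006401559e10ad6e5ac1108070abc22bf6be0f4)) P5322_1 (nat_lit 0x701f21ac94d60017ba677ff66587bffffdfbd220500b58f1ede2abdfffefffffe9ffffffffff7fffffffffffffea77ed5d7bfd2ffffdffb5ea774affabff7ffbf7) = true := by decide +kernel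
theorem kp4422_5 : kR N4422 (rawOf F4422) (fun u => Nat.beq u (nat_lit 0x480000000086c39800c53e0000000001a000000000680000008012c7fffc17ddf7d40bea67897fff2eaff54293902120000000021b0e600314f800000000068000000001a0000002004b1ffff05f77df502fa99e25fffcbabfd50a42408)) P4422_5 (nat_lit 0x480000100087c39808c53e0000000001a000000000680138028812c7fffc17dff7d55bff6fcbffff2fbff557d3fc7120000040021f0e602314f800000000068000000001a004e00a204b1ffff05f7fdf552fbdbf2ffffcbeffd55f4ff1c) = true := by decide +kernel
theorem kc4332_368 : coreNF N4332 (rawOf F4332) (toL R4332c368 []) C4332_368 = true := by decide +kernel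
theorem kp4332_2 : kR N4332 (rawOf F4332) (fun u => Nat.beq u (nat_lit 0x3df8d240417a88b0000014cc0057e15c6385ed1ff049bb8fbea6c00f0dfffffffffffffffff8d7fbffffffffff7ffbff3f498105eb22c134237b69cb5f8573ae17b47fc132ee3efa9b003c37ffffffffffffffffe37feffffffffffdfffbfcfc000050000058300405a01bdfeafd7fff827ffc9efe53dff7ffbfffffeefe72bfff7ffffffffdf7ffffffffffff5fffffffffffffffff7ffffffffdfffffff7ffffffffed48c8197fcbfdd7dbe34b5082fbbdc1eaf636d216816ccf0d453feef05)) P4332_2 (nat_lit 0x3df8d260417ac8b04d08dede72d7e15ceb85ed1ff04dbb8fbea6c00f0dfffffffffffffffff8dffbffffffffff7fffff3f498105eb22c134237b79cb5f8573ae17b47fc136ee3efa9b003c37ffffffffffffffffe37feffffffffffdfffffcfd000050000058300405a01bdfeafd7fff827ffc9ffe53dff7ffbfffffeefe72bfff7ffffffffdf7ffffffffffff5fffffffffffffffff7ffffffffdffffffffffffffffed4efdb97fcbfdd7dbe37fd0a2ffffebeef6bef6be89fdef4d47bfeef05) = true := by decide +kernel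
theorem kc3333_288 : coreNF N3333 (rawOf F3333) (toL R3333c288 []) C3333_288 = true := by decide +kernel
theorem kc3333_672 : coreNF N3333 (rawOf F3333) (toL R3333c672 []) C3333_672 = true := by decide +kernel
theorem kc3333_1056 : coreNF N3333 (rawOf F3333) (toL R3333c1056 []) C3333_1056 = true := by decide +kernel
theorem kc3333_1440 : coreNF N3333 (rawOf F3333) (toL R3333c1440 []) C3333_1440 = true := by decide +kernel
theorem kp5332_3 : kR N5332 (rawOf F5332) (fun u => Nat.beq u (nat_lit 0x20024021ab143c5af6b210012010d58a1e2d7b59020c1210060681d476c97faee64307a691300ffd27f5dcf8000000c8040339028ac3d885241c)) P5332_3 (nat_lit 0x24026061eb1d7d7afff212013030f58ebebd7ff9034c1a7ce6a6c3d676fb7faee7c79ff6d178cfff67f5dcf8004881c8046339028ad3d885241c) = true := by decide +kernel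
theorem kc4333_112 : coreNF N4333 (rawOf F4333) (toL R4333c112 []) C4333_112 = true := by decide +kernel
theorem kc4333_496 : coreNF N4333 (rawOf F4333) (toL R4333c496 []) C4333_496 = true := by decide +kernel
theorem kp4333_6 : kR N4333 (rawOf F4333) (fun u => Nat.beq u (nat_lit 0x100a1ea2c80029e4239102df4be6c57ff53c977223d77f6ffbddcfdffeabff6bdcde7000000020143d45900053c8472205be97cd8affea792ee4472efedff7bb9fbffd56fed7b9bce000000040281a882000a7908e440a342f9b15ffd4f25dc8865cfdbfef473f7ffaadfdaf7379c0000a2fdbbfedeb7bf9a7f3ea00403f7bfffff5ffdf7fdfffe7ffffffffffbfffffbffffffbfeeff737fffffffffffffffffffe7ffffffffffbffffffffffffffffffffffffbfffffffffffffffffffb2fa0fdca96ad1fd18384259b88a016312a02113800f48762260c)) P4333_6 (nat_lit 0x100a1fb2c80029e4339102ff4be7cdfff53c977627d77f6ffbddcffffebbff6fddfe7c00000020153f65900253c8672205fe97cf9bffea792eec4faefeffffbb9ffffd77fedfb9bce0000000402a7ecb2004a790ce440bfd2f9f37ffd4f25dd89f5dfdbfef773ffffaeffdbf7379c0000a2fdbbfedeb7bf9a7f3ea00403ffbfffff5ffdf7fdfffe7ffffffffffbfffffbffffffbfeeff737fffffffffffffffffffe7ffffffffffbffffffffffffffffffffffffbfffffffffffffffffffb2fa0ffca96ad1fd18384259b88a016312a02113800f48762260c)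 = true := by decide +kernel
theorem km4322_4 : kM (appM R4322) (fun u => Nat.beq u (nat_lit 0)) M4322_4 (nat_lit 0x6ebde453f800000000020001000000008000000002d042800800002120c000080) = true := by decide +kernel
theorem kv4332_0 : wfT L4332_0 774 = true := by decide +kernel
theorem kp4332_8 : kR N4332 (rawOf F4332) (fun u => Nat.beq u (nat_lit 0x1240402008b0000000000007615c4384ec1ae000ba052486800e04b5bfffb7f57ff572f8d3ea7fffffeb5d70b025094901008022c000000000001d85710e13b06b8002e814921a003812d6fffedfd5ffd5cbe34fa9ffffffad75c2c09424000050000000300405a01bde6add7f7f827ffc907e53dff7ffbfdff7eafa72bfcf3bfef847dde3fffcffbffeff5effffe0ffbfffefff7fbfeff7f5ff7f9e77fdf08fbfc0000000000000000000000002fa9880ea6012420000400405010100000)) P4332_8 (nat_lit 0x1240402008b0000000000007615c4384ec1be000ba052486800e04bdffffb7f57ff572f8d3ea7fffffebfd70b0350b4901008022c000000000001d85710e13b06fc002e81c9a1a003812ffffffffd5ffd5cbe34fa9ffffffaff5c2c0d42c000050000000300405a01bde6add7f7f827ffc927e53dff7ffbfdff7eafa72bfcf3bfef847dde3fffcffbffeff5effffe4ffbfffefff7fbfeff7f5ff7f9e77fdf08fbfc0000000000000000000001002fa9880ea6012420000400c0d41010c300)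 = true := by decide +kernel
theorem kp4444_0 : kR N4444 (rawOf F4444) (fun u => Nat.beq u (nat_lit 0)) P4444_0 (nat_lit 0xffffff) = true := by decide +kernel
theorem kx2221_128 : chkB N2221 X2221c128 (nat_lit 128) = true := by decide +kernel
theorem kx4221_64 : chkB N4221 X4221c64 (nat_lit 64) = true := by decide +kernel
theorem kx3322_128 : chkB N3322 X3322c128 (nat_lit 128) = true := by decide +kernel
theorem kx3332_448 : chkB N3332 X3332c448 (nat_lit 448) = true := by decide +kernel
theorem kx3333_512 : chkB N3333 X3333c512 (nat_lit 512) = true := by decide +kernel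
theorem kp6321_0 : kR N6321 (rawOf F6321) (fun u => Nat.beq u (nat_lit 0)) P6321_0 (nat_lit 4095) = true := by decide +kernel
theorem kw3331_1 : wfT S3331_1 126 = true := by decide +kernel
theorem kx3111 : chkB N3111 X3111.t 0 = true := by decide +kernel
theorem kp5220_0 : kR N5220 (rawOf F5220) (fun u => Nat.beq u (nat_lit 0)) P5220_0 (nat_lit 15) = true := by decide +kernel
theorem kv4211_0 : wfT L4211_0 50 = true := by decide +kernel
theorem ka4110 : (wfT N4110 2 && wfT R4110 1) = true := by decide +kernel
theorem ka3221 : (wfT N3221 246 && wfT R3221 8) = true := by decide +kernel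
theorem ka6221 : (wfT N6221 23 && wfT R6221 1) = true := by decide +kernel
theorem ka6322 : (wfT N6322 103 && wfT R6322 4) = true := by decide +kernel
theorem ka4443 : (wfT N4443 132 && wfT R4443 1) = true := by decide +kernel
theorem kp8222_0 : kR N8222 (rawOf F8222) (fun u => Nat.beq u (nat_lit 0)) P8222_0 (nat_lit 3) = true := by decide +kernel
theorem kv5421_0 : wfT L5421_0 20 = true := by decide +kernel
theorem kv2221_3 : wfT L2221_3 12 = true := by decide +kernel
theorem kp6421_0 : kR N6421 (rawOf F6421) (fun u => Nat.beq u (nat_lit 0)) P6421_0 (nat_lit 1) = true := by decide +kernel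
theorem ke1110 : kB (fun u => Nat.beq u (nat_lit 0)) (toL X1110.t []) (nat_lit 63) = true := by decide +kernel
theorem kv3210_0 : wfT L3210_0 6 = true := by decide +kernel
theorem kv4211_1 : wfT L4211_1 5 = true := by decide +kernel
theorem kv5320_1 : wfT L5320_1 1 = true := by decide +kernel
theorem kw7222_2 : wfT S7222_2 2 = true := by decide +kernel
theorem kx6332 : chkB N6332 X6332.t 0 = true := by decide +kernel
theorem kv6433_0 : wfT L6433_0 2 = true := by decide +kernel

end Pool.Agent.L3E.GJ
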