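import Pool.Agent.L3E.GJ.Pl

set_option autoImplicit false
set_option maxRecDepth 100000
set_option linter.unusedVariables false
set_option exponentiation.threshold 100000

/-! # L3E, module GJ.C12: kernel checks -/

namespace Pool.Agent.L3E.GJ

theorem kG2221_1 : gChk AT7 30023 [g2221_1] = true := by decide +kernel
theorem kG2222_8 : gChk AT8 30032 [g2222_8] = true := by decide +kernel
theorem kG3222_6 : gChk AT9 30040 [g3222_6] = true := by decide +kernel
theorem kG4222_9 : gChk AT10 30050 [g4222_9] = true := by decide +kernel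
theorem kG3322_12 : gChk AT10 30052 [g3322_12] = true := by decide +kernel
theorem kG4322_3 : gChk AT11 30058 [g4322_3] = true := by decide +kernel
theorem kG3332_10 : gChk AT11 30059 [g3332_10] = true := by decide +kernel
theorem kS1111_3 : chk2 (fun m => appM N1111 (rowL pS1111_3 m)) X1111.t S1111_3.t = true := by decide +kernel
theorem kS4211_3 : chk2 (fun m => appM N4211 (rowL pS4211_3 m)) X4211.t S4211_3.t = true := by decide +kernel
theorem kS2222_3_192 : chk2 (fun m => appM N2222 (rowL pS2222_3 m)) X2222c192 S2222_3c192 = true := by decide +kernel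
theorem kS3222_3_256 : chk2 (fun m => appM N3222 (rowL pS3222_3 m)) X3222c256 S3222_3c256 = true := by decide +kernel
theorem kS3322_1_192 : chk2 (fun m => appM N3322 (rowL pS3322_1 m)) X3322c192 S3322_1c192 = true := by decide +kernel
theorem kS4421_1 : chk2 (fun m => appM N4421 (rowL pS4421_1 m)) X4421.t S4421_1.t = true := by decide +kernel
theorem kS3332_2_192 : chk2 (fun m => appM N3332 (rowL pS3332_2 m)) X3332c192 S3332_2c192 = true := by decide +kernel
theorem kS4332_2_192 : chk2 (fun m => appM N4332 (rowL pS4332_2 m)) X4332c192 S4332_2c192 = true := by decide +kernel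
theorem kS3333_2_512 : chk2 (fun m => appM N3333 (rowL pS3333_2 m)) X3333c512 S3333_2c512 = true := by decide +kernel
theorem kS5332_2 : chk2 (fun m => appM N5332 (rowL pS5332_2 m)) X5332.t S5332_2.t = true := by decide +kernel
theorem kL2110_0 : chk2 (fun m => appM N2110 (rowL pL2110_0 m)) X1110.t L2110_0.t = true := by decide +kernel
theorem kL3211_0 : chk2 (fun m => appM N3211 (rowL pL3211_0 m)) X2211.t L3211_0.t = true := by decide +kernel
theorem kL5211_0 : chk2 (fun m => appM N5211 (rowL pL5211_0 m)) X4211.t L5211_0.t = true := by decide +kernel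
theorem kL3222_3_0 : chk2 (fun m => appM N3222 (rowL pL3222_3 m)) X3221c0 L3222_3c0 = true := by decide +kernel
theorem kL4222_0_64 : chk2 (fun m => appM N4222 (rowL pL4222_0 m)) X3222c64 L4222_0c64 = true := by decide +kernel
theorem kL3322_1_384 : chk2 (fun m => appM N3322 (rowL pL3322_1 m)) X3222c384 L3322_1c384 = true := by decide +kernel
theorem km4322_2 : kM (appM R4322) (fun u => Nat.beq u (nat_lit 0x3aa47feafb6ef658a8336eabcfeebde453f800000000020001000000008000000002d042800800002120c000080)) M4322_2 (nat_lit 0x8007d4bff97bfcabfbde2d80ccebaa47feafb6ef658a8336eabcfeebde453f800000000020001000000008000000002d042800800002120c000080) = true := by decide +kernel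
theorem km3332_4 : kM (appM R3332) (fun u => Nat.beq u (nat_lit 0x1ffb7daaeaa46faeffeaf558a073eaa88feef5a2f35000000000000000000000000000000000000000000000000000048068350902d0208000206faa85aaf558a0520a088f2c0500f2506edaffeafefdffedf6abaa91bebbffabd56281cfaaa23fbbd68bcd4)) M3332_4 (nat_lit 0x22814828223cb01403c941bb6bffabfbf7ffb7daaeaa46faeffeaf558a073eaa88feef5a2f35000000000000000000000000000000000000000000000000000048068350902d0208000206faa85aaf558a0520a088f2c0500f2506edaffeafefdffedf6abaa91bebbffabd56281cfaaa23fbbd68bcd4) = true := by decide +kernel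
theorem kL5421_0 : chk2 (fun m => appM N5421 (rowL pL5421_0 m)) X4421.t L5421_0.t = true := by decide +kernel
theorem kL4422_1_192 : chk2 (fun m => appM N4422 (rowL pL4422_1 m)) X4322c192 L4422_1c192 = true := by decide +kernel
theorem kL4332_0_576 : chk2 (fun m => appM N4332 (rowL pL4332_0 m)) X3332c576 L4332_0c576 = true := by decide +kernel
theorem km3333_13 : kM (appM R3333) (fun u => Nat.beq u (nat_lit 0xfd4d1a7dfd7fcfefbe4c604bfc07203205ffff5fffffffffffdffff7ffff9ff7fbfaffbfdfffffffd7ffec000000000000000000000000000000008200d08b79db0026a082980000000001c800808005880240640b2fa2a7effff9f6ffbffd4ff7f53469f7f5ff3fbef931812ff01c80c817fffd7fffffffffff7fffdffffe7fdfefebfeff7fffffff5fffb)) M3333_13 (nat_lit 0x29fbfffe7dbfefff53fdfd4d1a7dfd7fcfefbe4c604bfc07203205ffff5fffffffffffdffff7ffff9ff7fbfaffbfdfffffffd7ffec000000000000000000000000000000008200d08b79db0026a082980000000001c800808005880240640b2fa2a7effff9f6ffbffd4ff7f53469f7f5ff3fbef931812ff01c80c817fffd7fffffffffff7fffdffffe7fdfefebfeff7fffffff5fffb) = true := by decide +kernel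
theorem kL7222_0 : chk2 (fun m => appM N7222 (rowL pL7222_0 m)) X6222.t L7222_0.t = true := by decide +kernel
theorem kL4432_1_128 : chk2 (fun m => appM N4432 (rowL pL4432_1 m)) X4332c128 L4432_1c128 = true := by decide +kernel
theorem kL4333_0_320 : chk2 (fun m => appM N4333 (rowL pL4333_0 m)) X3333c320 L4333_0c320 = true := by decide +kernel
theorem kL5432_2 : chk2 (fun m => appM N5432 (rowL pL5432_2 m)) X5422.t L5432_2.t = true := by decide +kernel
theorem kL5533_1 : chk2 (fun m => appM N5533 (rowL pL5533_1 m)) X5433.t L5533_1.t = true := by decide +kernel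
theorem kc4222_16 : coreNF N4222 (rawOf F4222) (toL R4222c16 []) C4222_16 = true := by decide +kernel
theorem kc3322_64 : coreNF N3322 (rawOf F3322) (toL R3322c64 []) C3322_64 = true := by decide +kernel
theorem kp5222_1 : kR N5222 (rawOf F5222) (fun u => Nat.beq u (nat_lit 0x40c100818201030400000001000028389f703986cb3eb9ffffffff5ffdfe7e000842854810a1496a22d410011e6852bcae97fc1b707)) P5222_1 (nat_lit 0x40c0c18181830303040000000f000028389f7039becb3eb9fffffffffffdfeffffa94e97c814a74beebffff0053e6852bcfffffc7b77f) = true := by decide +kernel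
theorem kc4322_288 : coreNF N4322 (rawOf F4322) (toL R4322c288 []) C4322_288 = true := by decide +kernel
theorem kc3332_256 : coreNF N3332 (rawOf F3332) (toL R3332c256 []) C3332_256 = true := by decide +kernel
theorem kp3332_0 : kR N3332 (rawOf F3332) (fun u => Nat.beq u (nat_lit 0x7f01600203ffffffc093c00000000000000000000000153bf6afd7bfd2ffffdf7f6bde0048068350902f8208000206fff85feffffffd20a3fef2c0702f253eedafffbfefffffffeefff91bffffffff7ffd7ffbffffffffffffff00000000000000000000000054efdabf5eff4bffff7dfdaf7801201a0d4240be082000081bffe17fbffffff4828ffbcb01c0bc94fbb6bffeffbfffffffbbffe46ffffffffdfff5ffeffffffffffffffc000000000000000000000001fffffffd7b7f6f7ffdff7fdfe0048068350902f8208000206fff85feffdfff520a3fef2c0702f253eedafffbfefffffffeefff91bfffffffff7ffdffbffffffffffffff)) P3332_0 (nat_lit 0x7f01600203ffffffc093c000000000000000000000001ffffffffffffffffffffffffe0048068350902f8208000206fff85feffffffd20a3fef2c0702f253eedafffbfefffffffeefff91bfffffffffffffffbffffffffffffff0000000000000000000000007ffffffffffffffffffffffff801201a0d4240be082000081bffe17fbffffff4828ffbcb01c0bc94fbb6bffeffbfffffffbbffe46fffffffffffffffeffffffffffffffc000000000000000000000001ffffffffffffffffffffffffe0048068350902f8208000206fff85feffffffd20a3fef2c0702f253eedafffbfefffffffeefff91bfffffffffffffffbffffffffffffff)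 = true := by decide +kernel
theorem kp5322_2 : kR N5322 (rawOf F5322) (fun u => Nat.beq u (nat_lit 0x701d21a094d00010ba627fe66587bff7f5fb1000500a18f1ece2abd5ffeffebee9f7fffffff73efffdffffef6fc000000541610006e0881008070a882004202000)) P5322_2 (nat_lit 0x701d21ac94d60016ba677ff66587bffffdfbd200500b18f1ece2abddffefffffe9ffffffffff3ffffdffffffffe006401559e10ad6e5ac1108070abc22bf6be0f4) = true := by decide +kernel
theorem kc4332_0 : coreNF N4332 (rawOf F4332) (toL R4332c0 []) C4332_0 = true := by decide +kernel
theorem kc4332_384 : coreNF N4332 (rawOf F4332) (toL R4332c384 []) C4332_384 = true := by decide +kernel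
theorem kp4332_3 : kR N4332 (rawOf F4332) (fun u => Nat.beq u (nat_lit 0x3df8d240417a88b0000014c80057e15c6385ed1ff048bb8fbea6c00f0dfffffffffffffffff8d7fbffffffffff7ffaff3f490105ea22c000005320015f85718e17b47fc122ee3efa9b003c37ffffffffffffffffe35feffffffffffdffebfcfc000050000018300405a01bdfeafd7fff827ffc9efe53dff7ffbfffffeefe72bfff7bfffffffdf7ffffffffffff5ffffffdffffffffff7ffffffffdfffffff7ffffffffec00c8105f438d435b824b5082fbbdc1eaf636d202806c4c0d41210e700)) P4332_3 (nat_lit 0x3df8d240417a88b0000014cc0057e15c6385ed1ff049bb8fbea6c00f0dfffffffffffffffff8d7fbffffffffff7ffbff3f498105eb22c134237b69cb5f8573ae17b47fc132ee3efa9b003c37ffffffffffffffffe37feffffffffffdfffbfcfc000050000058300405a01bdfeafd7fff827ffc9efe53dff7ffbfffffeefe72bfff7ffffffffdf7ffffffffffff5fffffffffffffffff7ffffffffdfffffff7ffffffffed48c8197fcbfdd7dbe34b5082fbbdc1eaf636d216816ccf0d453feef05) = true := by decide +kernel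
theorem kc3333_304 : coreNF N3333 (rawOf F3333) (toL R3333c304 []) C3333_304 = true := by decide +kernel
theorem kc3333_688 : coreNF N3333 (rawOf F3333) (toL R3333c688 []) C3333_688 = true := by decide +kernel
theorem kc3333_1072 : coreNF N3333 (rawOf F3333) (toL R3333c1072 []) C3333_1072 = true := by decide +kernel
theorem kc3333_1456 : coreNF N3333 (rawOf F3333) (toL R3333c1456 []) C3333_1456 = true := by decide +kernel
theorem kp5332_4 : kR N5332 (rawOf F5332) (fun u => Nat.beq u (nat_lit 0x200000002b001052649010000000158008293248000402000400810066887faec20002a211200f7d27f598f000000008000339008ac3d885241c)) P5332_4 (nat_lit 0x20024021ab143c5af6b210012010d58a1e2d7b59020c1210060681d476c97faee64307a691300ffd27f5dcf8000000c8040339028ac3d885241c) = true := by decide +kernel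
theorem kc4333_128 : coreNF N4333 (rawOf F4333) (toL R4333c128 []) C4333_128 = true := by decide +kernel
theorem kc4333_512 : coreNF N4333 (rawOf F4333) (toL R4333c512 []) C4333_512 = true := by decide +kernel
theorem kp4333_7 : kR N4333 (rawOf F4333) (fun u => Nat.beq u (nat_lit 0x100a06a2080029e42291028d0b66c56df52c967221973f6ffbd18fdffeab7f6bdcde7000000020140d44100053c84522051a16cd8a9bea592ce4422e3edff7a31fbffd56fed7b9bce000000040281a082000a7908a4408242d9b1437d43259c8845c7dbfef463f7ffaadfdaf7379c0000a2fdbbfedeb7bf9a7f3ea00403f7bfffff5ffdf7fdfffe7ffffffffffbfffffbfffffdbfeeff737fffffffffffffffffffe7ffffffffffbffffffffffffffffffffffffbfffffffffffffffffffb2fa0dd4a92ad1fd18380059b88a016312a02113800f48762260c)) P4333_7 (nat_lit 0x100a1ea2c80029e4239102df4be6c57ff53c977223d77f6ffbddcfdffeabff6bdcde7000000020143d45900053c8472205be97cd8affea792ee4472efedff7bb9fbffd56fed7b9bce000000040281a882000a7908e440a342f9b15ffd4f25dc8865cfdbfef473f7ffaadfdaf7379c0000a2fdbbfedeb7bf9a7f3ea00403f7bfffff5ffdf7fdfffe7ffffffffffbfffffbffffffbfeeff737fffffffffffffffffffe7ffffffffffbffffffffffffffffffffffffbfffffffffffffffffffb2fa0fdca96ad1fd18384259b88a016312a02113800f48762260c)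 = true := by decide +kernel
theorem kp5222_3 : kR N5222 (rawOf F5222) (fun u => Nat.beq u (nat_lit 0x20208c501882ca1e981f392ef207ac7a60000000000000000000000000000000000000000000000)) P5222_3 (nat_lit 0x40c100818201030400000000000020208f703982cb3e999fbfffff0ffdfe7e000000000000000008205400000e00100402028018100) = true := by decide +kernel
theorem kp2222_1 : kR N2222 (rawOf F2222) (fun u => Nat.beq u (nat_lit 0x20540508b0000000000000000000000000081501422c000000000000000000000000020540508b0000000000000000010000000085521422c)) P2222_1 (nat_lit 0x80400000002174e55dbc000000000000002010000000085d39576f00000000000000080400000002174e55dbc000000000000002010000000085d39576f) = true := by decide +kernel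
theorem kp4331_3 : kR N4331 (rawOf F4331) (fun u => Nat.beq u (nat_lit 0)) P4331_3 (nat_lit 0x802c0001c00000000800400004000000039020a8c433f4080000002400) = true := by decide +kernel
theorem kp2211_0 : kR N2211 (rawOf F2211) (fun u => Nat.beq u (nat_lit 0)) P2211_0 (nat_lit 0xfc003f000fc003f) = true := by decide +kernel
theorem kp7222_0 : kR N7222 (rawOf F7222) (fun u => Nat.beq u (nat_lit 0)) P7222_0 (nat_lit 0xfffff) = true := by decide +kernel
theorem kx4222_192 : chkB N4222 X4222c192 (nat_lit 192) = true := by decide +kernel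
theorem kx3332_0 : chkB N3332 X3332c0 (nat_lit 0) = true := by decide +kernel
theorem kx3333_64 : chkB N3333 X3333c64 (nat_lit 64) = true := by decide +kernel
theorem ke4333 : kB (fun u => Nat.beq u (nat_lit 0x1fffffff9bfbff2cc01ffe4bb911ffffffffffffffc97763fffffffffffffffffffffffffff7ffffffff37f7fe59803ffc977223ffffffffffffff92eec7ffffffffffffffffffffffffffeffffffffe6feffcb3007ff92ee447ffffffffffffff25dd8fffffffffffffffffffffffffffdf0000a2fdfbfefeb7bf9a7f3ea00403ffbfffff5ffdf7fffffe7ffffffffffffffffbffffffffeeff737fffffffffffffffffffe7ffffffffffffffffffffffffffffffffffffffffffffffffffffffffffffffffffffffffffffffffffffffffffffffffffffffffffff)) (toL X4333.t []) (nat_lit 0x1fffffffffffffffffffffffffffffffffffffffffffffffffffffffffffffffffffffffffffffffffffffffffffffffffffffffffffffffffffffffffffffffffffffffffffffffffffffffffffffffffffffffffffffffffffffffffffffffffffffffffffffffffffffffffffffffffffffffffffffffffffffffffffffffffffffffffffffffffffffffffffffffffffffffffffffffffffffffffffffffffffffffffffffffffffffffffffffffffffffffffffffffffffffffffffffffffffffffffffffffffffffffffffffffffffffffffffffffffffffff)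 = true := by decide +kernel
theorem kp4441_0 : kR N4441 (rawOf F4441) (fun u => Nat.beq u (nat_lit 0)) P4441_0 (nat_lit 4095) = true := by decide +kernel
theorem kw3331_2 : wfT S3331_2 126 = true := by decide +kernel
theorem kp2210_0 : kR N2210 (rawOf F2210) (fun u => Nat.beq u (nat_lit 0)) P2210_0 (nat_lit 1235) = true := by decide +kernel
theorem kp5111_0 : kR N5111 (rawOf F5111) (fun u => Nat.beq u (nat_lit 0)) P5111_0 (nat_lit 31) = true := by decide +kernel
theorem kw4433_1 : wfT S4433_1 44 = true := by decide +kernel
theorem ka3210 : (wfT N3210 8 && wfT R3210 1) = true := by decide +kernel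
theorem ka2222 : (wfT N2222 552 && wfT R2222 43) = true := by decide +kernel
theorem ka5321 : (wfT N5321 91 && wfT R5321 7) = true := by decide +kernel
theorem ka5521 : (wfT N5521 2 && wfT R5521 1) = true := by decide +kernel
theorem ka6433 : (wfT N6433 2 && wfT R6433 1) = true := by decide +kernel
theorem kv6332_0 : wfT L6332_0 31 = true := by decide +kernel
theorem kx4431 : chkB N4431 X4431.t 0 = true := by decide +kernel
theorem kp5210_0 : kR N5210 (rawOf F5210) (fun u => Nat.beq u (nat_lit 0)) P5210_0 (nat_lit 1) = true := by decide +kernel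
theorem ke5422 : kB (fun u => Nat.beq u (nat_lit 0x4efdffffffffffffef7f97fdfff7fffffffffffffffffffffffffffffff)) (toL X5422.t []) (nat_lit 0x1fffffffffffffffffffffffffffffffffffffffffffffffffffffffffff) = true := by decide +kernel
theorem kw1110_1 : wfT S1110_1 6 = true := by decide +kernel
theorem kv3210_1 : wfT L3210_1 2 = true := by decide +kernel
theorem kv4211_3 : wfT L4211_3 1 = true := by decide +kernel
theorem kx5311 : chkB N5311 X5311.t 0 = true := by decide +kernel
theorem kw7222_3 : wfT S7222_3 2 = true := by decide +kernel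
theorem kv6332_2 : wfT L6332_2 5 = true := by decide +kernel
theorem kx5533 : chkB N5533 X5533.t 0 = true := by decide +kernel

end Pool.Agent.L3E.GJ
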