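import Pool.Agent.L3E.GJ.Pl

set_option autoImplicit false
set_option maxRecDepth 100000
set_option linter.unusedVariables false
set_option exponentiation.threshold 100000

/-! # L3E, module GJ.C13: kernel checks -/

namespace Pool.Agent.L3E.GJ

theorem kG2221_2 : gChk AT7 30023 [g2221_2] = true := by decide +kernel
theorem kG2222_9 : gChk AT8 30032 [g2222_9] = true := by decide +kernel
theorem kG3222_7 : gChk AT9 30040 [g3222_7] = true := by decide +kernel
theorem kG4222_10 : gChk AT10 30050 [g4222_10] = true := by decide +kernel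
theorem kG3322_13 : gChk AT10 30052 [g3322_13] = true := by decide +kernel
theorem kG4322_4 : gChk AT11 30058 [g4322_4] = true := by decide +kernel
theorem kG3332_11 : gChk AT11 30059 [g3332_11] = true := by decide +kernel
theorem kS3110_2 : chk2 (fun m => appM N3110 (rowL pS3110_2 m)) X3110.t S3110_2.t = true := by decide +kernel
theorem kS3320_1 : chk2 (fun m => appM N3320 (rowL pS3320_1 m)) X3320.t S3320_1.t = true := by decide +kernel
theorem kS2222_3_256 : chk2 (fun m => appM N2222 (rowL pS2222_3 m)) X2222c256 S2222_3c256 = true := by decide +kernel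
theorem kS3222_3_320 : chk2 (fun m => appM N3222 (rowL pS3222_3 m)) X3222c320 S3222_3c320 = true := by decide +kernel
theorem kS3322_1_256 : chk2 (fun m => appM N3322 (rowL pS3322_1 m)) X3322c256 S3322_1c256 = true := by decide +kernel
theorem kS4331_2 : chk2 (fun m => appM N4331 (rowL pS4331_2 m)) X4331.t S4331_2.t = true := by decide +kernel
theorem kS3332_2_256 : chk2 (fun m => appM N3332 (rowL pS3332_2 m)) X3332c256 S3332_2c256 = true := by decide +kernel
theorem kS4332_2_256 : chk2 (fun m => appM N4332 (rowL pS4332_2 m)) X4332c256 S4332_2c256 = true := by decide +kernel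
theorem kS3333_2_576 : chk2 (fun m => appM N3333 (rowL pS3333_2 m)) X3333c576 S3333_2c576 = true := by decide +kernel
theorem kS4432_1 : chk2 (fun m => appM N4432 (rowL pS4432_1 m)) X4432.t S4432_1.t = true := by decide +kernel
theorem kL2110_2 : chk2 (fun m => appM N2110 (rowL pL2110_2 m)) X2100.t L2110_2.t = true := by decide +kernel
theorem kL3211_1 : chk2 (fun m => appM N3211 (rowL pL3211_1 m)) X3111.t L3211_1.t = true := by decide +kernel
theorem kL4320_0 : chk2 (fun m => appM N4320 (rowL pL4320_0 m)) X3320.t L4320_0.t = true := by decide +kernel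
theorem kL3222_3_64 : chk2 (fun m => appM N3222 (rowL pL3222_3 m)) X3221c64 L3222_3c64 = true := by decide +kernel
theorem kL4222_0_128 : chk2 (fun m => appM N4222 (rowL pL4222_0 m)) X3222c128 L4222_0c128 = true := by decide +kernel
theorem kL3322_1_448 : chk2 (fun m => appM N3322 (rowL pL3322_1 m)) X3222c448 L3322_1c448 = true := by decide +kernel
theorem km4322_3 : kM (appM R4322) (fun u => Nat.beq u (nat_lit 0x6ebde453f800000000020001000000008000000002d042800800002120c000080)) M4322_3 (nat_lit 0x3aa47feafb6ef658a8336eabcfeebde453f800000000020001000000008000000002d042800800002120c000080) = true := by decide +kernel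
theorem km3332_5 : kM (appM R3332) (fun u => Nat.beq u (nat_lit 0x2073eaa88feef5a2f35000000000000000000000000000000000000000000000000000048068350902d0208000206faa85aaf558a0520a088f2c0500f2506edaffeafefdffedf6abaa91bebbffabd56281cfaaa23fbbd68bcd4)) M3332_5 (nat_lit 0x1ffb7daaeaa46faeffeaf558a073eaa88feef5a2f35000000000000000000000000000000000000000000000000000048068350902d0208000206faa85aaf558a0520a088f2c0500f2506edaffeafefdffedf6abaa91bebbffabd56281cfaaa23fbbd68bcd4) = true := by decide +kernel
theorem kL5421_1 : chk2 (fun m => appM N5421 (rowL pL5421_1 m)) X5321.t L5421_1.t = true := by decide +kernel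
theorem kL4422_1_256 : chk2 (fun m => appM N4422 (rowL pL4422_1 m)) X4322c256 L4422_1c256 = true := by decide +kernel
theorem kL4332_0_640 : chk2 (fun m => appM N4332 (rowL pL4332_0 m)) X3332c640 L4332_0c640 = true := by decide +kernel
theorem km3333_14 : kM (appM R3333) (fun u => Nat.beq u (nat_lit 0x3c07203205ffff5fffffffffffdffff7ffff9ff7fbfaffbfdfffffffd7ffec000000000000000000000000000000008200d08b79db0026a082980000000001c800808005880240640b2fa2a7effff9f6ffbffd4ff7f53469f7f5ff3fbef931812ff01c80c817fffd7fffffffffff7fffdffffe7fdfefebfeff7fffffff5fffb)) M3333_14 (nat_lit 0xfd4d1a7dfd7fcfefbe4c604bfc07203205ffff5fffffffffffdffff7ffff9ff7fbfaffbfdfffffffd7ffec000000000000000000000000000000008200d08b79db0026a082980000000001c800808005880240640b2fa2a7effff9f6ffbffd4ff7f53469f7f5ff3fbef931812ff01c80c817fffd7fffffffffff7fffdffffe7fdfefebfeff7fffffff5fffb) = true := by decide +kernel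
theorem kL6421_0 : chk2 (fun m => appM N6421 (rowL pL6421_0 m)) X5421.t L6421_0.t = true := by decide +kernel
theorem kL4432_1_192 : chk2 (fun m => appM N4432 (rowL pL4432_1 m)) X4332c192 L4432_1c192 = true := by decide +kernel
theorem kL4333_0_384 : chk2 (fun m => appM N4333 (rowL pL4333_0 m)) X3333c384 L4333_0c384 = true := by decide +kernel
theorem kL5333_0_0 : chk2 (fun m => appM N5333 (rowL pL5333_0 m)) X4333c0 L5333_0c0 = true := by decide +kernel
theorem kL5443_0 : chk2 (fun m => appM N5443 (rowL pL5443_0 m)) X4443.t L5443_0.t = true := by decide +kernel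
theorem kc4222_32 : coreNF N4222 (rawOf F4222) (toL R4222c32 []) C4222_32 = true := by decide +kernel
theorem kc3322_80 : coreNF N3322 (rawOf F3322) (toL R3322c80 []) C3322_80 = true := by decide +kernel
theorem kp5222_2 : kR N5222 (rawOf F5222) (fun u => Nat.beq u (nat_lit 0x40c100818201030400000000000020208f703982cb3e999fbfffff0ffdfe7e000000000000000008205400000e00100402028018100)) P5222_2 (nat_lit 0x40c100818201030400000001000028389f703986cb3eb9ffffffff5ffdfe7e000842854810a1496a22d410011e6852bcae97fc1b707) = true := by decide +kernel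
theorem kp4322_0 : kR N4322 (rawOf F4322) (fun u => Nat.beq u (nat_lit 0x8080006017c099ff18080006017c099ff1850f0000c020111e143c060350c0447ffff8435414fbe7d5e5fc520fffd7ef97d9df1bffbdf7ff7ffbfffbfffffc000000700000000000280002300d5af806608032f815ff4bff97ffdaffffffff7ffffbff7fefff6fffffff7fffbfffffffffffff7f7bcfb5ffbfffd7bf6d5fefbeef3ed7f7ffd77ad5fdfbfffd7fffb)) P4322_0 (nat_lit 0x8080006017c099ff18080006017c099ff1850f0000c020111e143c060350c0447fffffffffffffffd5e5fc520fffd7ef97d9df1bffbdf7ff7ffbfffbfffffc000000700000000000380002300d5af806608032f81dff4bff97ffdaffffffff7ffffbff7fefff6fffffff7fffbffffffffffffffffffffffffffffffffffffffffffffffffffffffffffffffffffff) = true := by decide +kernel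
theorem kc3332_272 : coreNF N3332 (rawOf F3332) (toL R3332c272 []) C3332_272 = true := by decide +kernel
theorem kp3332_1 : kR N3332 (rawOf F3332) (fun u => Nat.beq u (nat_lit 0x7f01600203ffffffc093c000000000000000000000001003200b559e10adfe5a182b5e0048068350902f8208000206fff85fefdfff5d20a3fef2c0702f253eedafffbfefffffffeefff91bffffffff7ffd7ffbffffffffffffff00000000000000000000000054efdabf5edf4bdfff7ddda77801201a0d4240be082000081bffe17fbff7ffd4828ffbcb01c0bc94fbb6bffeffbfffffffbbffe46ffffffffddff57feffffffffffffffc00000000000000000000000153bf6afd7b7d2f7ffdf7769de0048068350902f8208000206fff85feffdfff520a3fef2c0702f253eedafffbfefffffffeefff91bffffffff77fd5ffbffffffffffffff)) P3332_1 (nat_lit 0x7f01600203ffffffc093c00000000000000000000000153bf6afd7bfd2ffffdf7f6bde0048068350902f8208000206fff85feffffffd20a3fef2c0702f253eedafffbfefffffffeefff91bffffffff7ffd7ffbffffffffffffff00000000000000000000000054efdabf5eff4bffff7dfdaf7801201a0d4240be082000081bffe17fbffffff4828ffbcb01c0bc94fbb6bffeffbfffffffbbffe46ffffffffdfff5ffeffffffffffffffc000000000000000000000001fffffffd7b7f6f7ffdff7fdfe0048068350902f8208000206fff85feffdfff520a3fef2c0702f253eedafffbfefffffffeefff91bfffffffff7ffdffbffffffffffffff)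 = true := by decide +kernel
theorem kp5322_3 : kR N5322 (rawOf F5322) (fun u => Nat.beq u (nat_lit 0x101a084d000003a627de4650237f7d1f31000500a18f0ace2abd1ffaffe9cc1f6fc9fffb61ebf21ffe8ae2c800000054160000220080000000a882000002000)) P5322_3 (nat_lit 0x701d21a094d00010ba627fe66587bff7f5fb1000500a18f1ece2abd5ffeffebee9f7fffffff73efffdffffef6fc000000541610006e0881008070a882004202000) = true := by decide +kernel
theorem kc4332_16 : coreNF N4332 (rawOf F4332) (toL R4332c16 []) C4332_16 = true := by decide +kernel
theorem kc4332_400 : coreNF N4332 (rawOf F4332) (toL R4332c400 []) C4332_400 = true := by decide +kernel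
theorem kp4332_4 : kR N4332 (rawOf F4332) (fun u => Nat.beq u (nat_lit 0x3df8d240417a88b0000014c80057e15c6385ed1ff048bb8fbea6c00f0dfffffffffffffffff8d7fbffffffffff75f83f3f490105e822c000000300001f85710e13b07fc002ea3c9a9b003833fffffffffdffffffe34fefffffffbff5d2c0fcfc000050000018300405a01bdfeafd7f7f827ffc9e7e53dff7ffbfdff7eafa72bfef7bfffe7fddf3fffffffffeff5ffffffcffffffffff7fbfeff7f5fffffff7fffcffbfe400c8105f418d415b82495002fb9dc0ea7616c202806c4c0d41210e700)) P4332_4 (nat_lit 0x3df8d240417a88b0000014c80057e15c6385ed1ff048bb8fbea6c00f0dfffffffffffffffff8d7fbffffffffff7ffaff3f490105ea22c000005320015f85718e17b47fc122ee3efa9b003c37ffffffffffffffffe35feffffffffffdffebfcfc000050000018300405a01bdfeafd7fff827ffc9efe53dff7ffbfffffeefe72bfff7bfffffffdf7ffffffffffff5ffffffdffffffffff7ffffffffdfffffff7ffffffffec00c8105f438d435b824b5082fbbdc1eaf636d202806c4c0d41210e700) = true := by decide +kernel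
theorem kc3333_320 : coreNF N3333 (rawOf F3333) (toL R3333c320 []) C3333_320 = true := by decide +kernel
theorem kc3333_704 : coreNF N3333 (rawOf F3333) (toL R3333c704 []) C3333_704 = true := by decide +kernel
theorem kc3333_1088 : coreNF N3333 (rawOf F3333) (toL R3333c1088 []) C3333_1088 = true := by decide +kernel
theorem kc3333_1472 : coreNF N3333 (rawOf F3333) (toL R3333c1472 []) C3333_1472 = true := by decide +kernel
theorem kp5332_5 : kR N5332 (rawOf F5332) (fun u => Nat.beq u (nat_lit 0x200000000b000002041010000000058000010208000402000000000002001f80820000021100004003f01000000000000000100008c14884241c)) P5332_5 (nat_lit 0x200000002b001052649010000000158008293248000402000400810066887faec20002a211200f7d27f598f000000008000339008ac3d885241c) = true := by decide +kernel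
theorem kc4333_144 : coreNF N4333 (rawOf F4333) (toL R4333c144 []) C4333_144 = true := by decide +kernel
theorem kc4333_528 : coreNF N4333 (rawOf F4333) (toL R4333c528 []) C4333_528 = true := by decide +kernel
theorem kp4333_8 : kR N4333 (rawOf F4333) (fun u => Nat.beq u (nat_lit 0x100a0682000029e4029100000b26850df004967221171f67ebd18fdfdeab7f6adcde7000000020100d04000053c805220000120d0a1b60092ce4422e3ecfd7a31fbfbd56fed5b9bce000000040201a080000a7900a440000241a1436c01259c8845c7d9faf463f7f7aadfdab7379c0000a2fdbbfedeb7bf9a7f3ea00403f7bfffff5ffdf7fdfffe7ffffffffffbfffffbfffffdbfeeff737fffffffffffffffffffe7ffffffffffbffffffffffffffffffffffffbfffffffffffffffffffb2fa0dd4a92ad1fd18380059b888016312a02113800f48762260c)) P4333_8 (nat_lit 0x100a06a2080029e42291028d0b66c56df52c967221973f6ffbd18fdffeab7f6bdcde7000000020140d44100053c84522051a16cd8a9bea592ce4422e3edff7a31fbffd56fed7b9bce000000040281a082000a7908a4408242d9b1437d43259c8845c7dbfef463f7ffaadfdaf7379c0000a2fdbbfedeb7bf9a7f3ea00403f7bfffff5ffdf7fdfffe7ffffffffffbfffffbfffffdbfeeff737fffffffffffffffffffe7ffffffffffbffffffffffffffffffffffffbfffffffffffffffffffb2fa0dd4a92ad1fd18380059b88a016312a02113800f48762260c)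 = true := by decide +kernel
theorem kp5331_0 : kR N5331 (rawOf F5331) (fun u => Nat.beq u (nat_lit 0)) P5331_0 (nat_lit 0x1ffffffffffffff) = true := by decide +kernel
theorem ke3332 : kB (fun u => Nat.beq u (nat_lit 0x7f01600203ffffffc093c000000000000000000000001ffffffffffffffffffffffffe0048068350902f8208000206fff85feffffffd20a3fef2c0702f253eedafffbfefffffffeefff91bfffffffffffffffbffffffffffffff0000000000000000000000007ffffffffffffffffffffffff801201a0d4240be082000081bffe17fbffffff4828ffbcb01c0bc94fbb6bffeffbfffffffbbffe46fffffffffffffffeffffffffffffffc000000000000000000000001ffffffffffffffffffffffffe0048068350902f8208000206fff85feffffffd20a3fef2c0702f253eedafffbfefffffffeefff91bfffffffffffffffbffffffffffffff)) (toL X3332.t []) (nat_lit 0xffffffffffffffffffffffffffffffffffffffffffffffffffffffffffffffffffffffffffffffffffffffffffffffffffffffffffffffffffffffffffffffffffffffffffffffffffffffffffffffffffffffffffffffffffffffffffffffffffffffffffffffffffffffffffffffffffffffffffffffffffffffffffffffffffffffffffffffffffffffffffffffffffffffffffffffffffffffffffffffffffffffffffffffffffffffffffffffffffffffffffffffffffffffffffffffffffffffffffffffffffffffffffffffffffffffffffffffffffffffffffffffffffffffffffffffffffffffffffffffffffffffffffffffffffffffffffffff)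 = true := by decide +kernel
theorem kp5432_1 : kR N5432 (rawOf F5432) (fun u => Nat.beq u (nat_lit 0)) P5432_1 (nat_lit 0x208d11484c0396cd0df8200b) = true := by decide +kernel
theorem kv4332_2 : wfT L4332_2 374 = true := by decide +kernel
theorem kx3221_0 : chkB N3221 X3221c0 (nat_lit 0) = true := by decide +kernel
theorem kx3321_0 : chkB N3321 X3321c0 (nat_lit 0) = true := by decide +kernel
theorem kx3322_192 : chkB N3322 X3322c192 (nat_lit 192) = true := by decide +kernel
theorem kx3332_512 : chkB N3332 X3332c512 (nat_lit 512) = true := by decide +kernel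
theorem kx3333_576 : chkB N3333 X3333c576 (nat_lit 576) = true := by decide +kernel
theorem kx4433 : chkB N4433 X4433.t 0 = true := by decide +kernel
theorem kv2222_3 : wfT L2222_3 138 = true := by decide +kernel
theorem kv4321_1 : wfT L4321_1 87 = true := by decide +kernel
theorem kp4220_0 : kR N4220 (rawOf F4220) (fun u => Nat.beq u (nat_lit 0)) P4220_0 (nat_lit 47) = true := by decide +kernel
theorem kw4433_3 : wfT S4433_3 44 = true := by decide +kernel
theorem ka3111 : (wfT N3111 42 && wfT R3111 1) = true := by decide +kernel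
theorem ka5220 : (wfT N5220 5 && wfT R5220 1) = true := by decide +kernel
theorem ka5222 : (wfT N5222 435 && wfT R5222 54) = true := by decide +kernel
theorem ka5431 : (wfT N5431 5 && wfT R5431 1) = true := by decide +kernel
theorem ka5533 : (wfT N5533 4 && wfT R5533 1) = true := by decide +kernel
theorem kv5432_1 : wfT L5432_1 31 = true := by decide +kernel
theorem kv4431_2 : wfT L4431_2 20 = true := by decide +kernel
theorem kp4310_0 : kR N4310 (rawOf F4310) (fun u => Nat.beq u (nat_lit 0)) P4310_0 (nat_lit 1) = true := by decide +kernel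
theorem kw5422_3 : wfT S5422_3 13 = true := by decide +kernel
theorem kw1110_2 : wfT S1110_2 6 = true := by decide +kernel
theorem kv3111_3 : wfT L3111_3 2 = true := by decide +kernel
theorem ke3320 : kB (fun u => Nat.beq u (nat_lit 16191)) (toL X3320.t []) (nat_lit 65535) = true := by decide +kernel
theorem kv5311_1 : wfT L5311_1 3 = true := by decide +kernel
theorem kx6421 : chkB N6421 X6421.t 0 = true := by decide +kernel
theorem kx5522 : chkB N5522 X5522.t 0 = true := by decide +kernel
theorem kv5533_1 : wfT L5533_1 2 = true := by decide +kernel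

end Pool.Agent.L3E.GJ
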