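import Pool.Agent.L3E.GJ.Pl

set_option autoImplicit false
set_option maxRecDepth 100000
set_option linter.unusedVariables false
set_option exponentiation.threshold 100000

/-! # L3E, module GJ.C15: kernel checks -/

namespace Pool.Agent.L3E.GJ

theorem kG2221_4 : gChk AT7 30023 [g2221_4] = true := by decide +kernel
theorem kG2222_11 : gChk AT8 30032 [g2222_11] = true := by decide +kernel
theorem kG3222_9 : gChk AT9 30040 [g3222_9] = true := by decide +kernel
theorem kG4222_12 : gChk AT10 30050 [g4222_12] = true := by decide +kernel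
theorem kG5321_1 : gChk AT11 30054 [g5321_1] = true := by decide +kernel
theorem kG4322_6 : gChk AT11 30058 [g4322_6] = true := by decide +kernel
theorem kG3332_13 : gChk AT11 30059 [g3332_13] = true := by decide +kernel
theorem kS2111_2 : chk2 (fun m => appM N2111 (rowL pS2111_2 m)) X2111.t S2111_2.t = true := by decide +kernel
theorem kS3311_3 : chk2 (fun m => appM N3311 (rowL pS3311_3 m)) X3311.t S3311_3.t = true := by decide +kernel
theorem kS2222_3_384 : chk2 (fun m => appM N2222 (rowL pS2222_3 m)) X2222c384 S2222_3c384 = true := by decide +kernel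
theorem kS3222_3_448 : chk2 (fun m => appM N3222 (rowL pS3222_3 m)) X3222c448 S3222_3c448 = true := by decide +kernel
theorem kS3322_1_384 : chk2 (fun m => appM N3322 (rowL pS3322_1 m)) X3322c384 S3322_1c384 = true := by decide +kernel
theorem kS4322_3_64 : chk2 (fun m => appM N4322 (rowL pS4322_3 m)) X4322c64 S4322_3c64 = true := by decide +kernel
theorem kS3332_2_384 : chk2 (fun m => appM N3332 (rowL pS3332_2 m)) X3332c384 S3332_2c384 = true := by decide +kernel
theorem kS3333_1_64 : chk2 (fun m => appM N3333 (rowL pS3333_1 m)) X3333c64 S3333_1c64 = true := by decide +kernel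
theorem kS3333_2_704 : chk2 (fun m => appM N3333 (rowL pS3333_2 m)) X3333c704 S3333_2c704 = true := by decide +kernel
theorem kS4333_2_64 : chk2 (fun m => appM N4333 (rowL pS4333_2 m)) X4333c64 S4333_2c64 = true := by decide +kernel
theorem kL3110_0 : chk2 (fun m => appM N3110 (rowL pL3110_0 m)) X2110.t L3110_0.t = true := by decide +kernel
theorem kL2221_2 : chk2 (fun m => appM N2221 (rowL pL2221_2 m)) X2211.t L2221_2.t = true := by decide +kernel
theorem kL4311_0 : chk2 (fun m => appM N4311 (rowL pL4311_0 m)) X3311.t L4311_0.t = true := by decide +kernel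
theorem kL6220_0 : chk2 (fun m => appM N6220 (rowL pL6220_0 m)) X5220.t L6220_0.t = true := by decide +kernel
theorem kL4222_0_256 : chk2 (fun m => appM N4222 (rowL pL4222_0 m)) X3222c256 L4222_0c256 = true := by decide +kernel
theorem kL3322_3_64 : chk2 (fun m => appM N3322 (rowL pL3322_3 m)) X3321c64 L3322_3c64 = true := by decide +kernel
theorem kL4322_0_64 : chk2 (fun m => appM N4322 (rowL pL4322_0 m)) X3322c64 L4322_0c64 = true := by decide +kernel
theorem km3332_7 : kM (appM R3332) (fun u => Nat.beq u (nat_lit 0x1eafefdffedf6abaa91bebbffabd56281cfaaa23fbbd68bcd4)) M3332_7 (nat_lit 0x3aa85aaf558a0520a088f2c0500f2506edaffeafefdffedf6abaa91bebbffabd56281cfaaa23fbbd68bcd4) = true := by decide +kernel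
theorem kL5331_2 : chk2 (fun m => appM N5331 (rowL pL5331_2 m)) X5321.t L5331_2.t = true := by decide +kernel
theorem kL4422_3 : chk2 (fun m => appM N4422 (rowL pL4422_3 m)) X4421.t L4422_3.t = true := by decide +kernel
theorem kL4332_0_768 : chk2 (fun m => appM N4332 (rowL pL4332_0 m)) X3332c768 L4332_0c768 = true := by decide +kernel
theorem km3333_16 : kM (appM R3333) (fun u => Nat.beq u (nat_lit 0x3bfaffbfdfffffffd7ffec000000000000000000000000000000008200d08b79db0026a082980000000001c800808005880240640b2fa2a7effff9f6ffbffd4ff7f53469f7f5ff3fbef931812ff01c80c817fffd7fffffffffff7fffdffffe7fdfefebfeff7fffffff5fffb)) M3333_16 (nat_lit 0x7ffdffff7ffff9ff7fbfaffbfdfffffffd7ffec000000000000000000000000000000008200d08b79db0026a082980000000001c800808005880240640b2fa2a7effff9f6ffbffd4ff7f53469f7f5ff3fbef931812ff01c80c817fffd7fffffffffff7fffdffffe7fdfefebfeff7fffffff5fffb) = true := by decide +kernel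
theorem kL6322_0_64 : chk2 (fun m => appM N6322 (rowL pL6322_0 m)) X5322c64 L6322_0c64 = true := by decide +kernel
theorem kL4432_2_0 : chk2 (fun m => appM N4432 (rowL pL4432_2 m)) X4422c0 L4432_2c0 = true := by decide +kernel
theorem kL4333_0_512 : chk2 (fun m => appM N4333 (rowL pL4333_0 m)) X3333c512 L4333_0c512 = true := by decide +kernel
theorem kL5333_0_128 : chk2 (fun m => appM N5333 (rowL pL5333_0 m)) X4333c128 L5333_0c128 = true := by decide +kernel
theorem kL4444_3 : chk2 (fun m => appM N4444 (rowL pL4444_3 m)) X4443.t L4444_3.t = true := by decide +kernel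
theorem kp4222_0 : kR N4222 (rawOf F4222) (fun u => Nat.beq u (nat_lit 0x6000000001fc004243c0f0c000000003f800848781e18000000007f001090f03c000000000400000017c000000400163a5ad00108417e2cc095cf3de7b5ffcf7bef77f6cfbde70bf5d7febddffbaffd7fffb03b14bceeffdd7ff5febffffff)) P4222_0 (nat_lit 0x3e000000007fc004243c0f7c00000000ff800848781ef800000001ff001090f03c00000000040000001fc000000400163a5ad0010841fe2cc095cf3de7b5ffcf7bef7ff6cfbdfffffffffffffffffffffffffffffffffffffffffffffffffff) = true := by decide +kernel
theorem kc3322_112 : coreNF N3322 (rawOf F3322) (toL R3322c112 []) C3322_112 = true := by decide +kernel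
theorem kp4331_0 : kR N4331 (rawOf F4331) (fun u => Nat.beq u (nat_lit 0x304843aeefe443fa4f84c43afefecd3f80d27fdffbefbdff3bfff99abfc0fd6a)) P4331_0 (nat_lit 0x3ffffc43afeffff3fbffffc43afeffff3fa8f27fdfffffbdffffffffffffffffff) = true := by decide +kernel
theorem kp4322_2 : kR N4322 (rawOf F4322) (fun u => Nat.beq u (nat_lit 0x6011c099ff10000006011c099ff1850e00008020111e1438060350c0447000804204041b4795e5fc520dffd7ef97d9df1bffbdf7ff7ffbdffbffff1c000000300000000000000002300d5af806608032f801ff4bff97ffdaffffffff7dfffbff7fefff6fffffff7f7fbffffffffffffc411b0a0166839f4335405a8222682852f27fd47850fdb9b2fc17fba)) P4322_2 (nat_lit 0x8000006015c099ff18000006015c099ff1850e0000c020111e1438060350c0447021a0435414fbe7d5e5fc520fffd7ef97d9df1bffbdf7ff7ffbfffbfffffc000000700000000000280002300d5af806608032f815ff4bff97ffdaffffffff7ffffbff7fefff6fffffff7fffbffffffffffffc413b0a15678bffd73d455fee226c2856f2ffd67a55fdf9f7fc7ffbb) = true := by decide +kernel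
theorem kc3332_304 : coreNF N3332 (rawOf F3332) (toL R3332c304 []) C3332_304 = true := by decide +kernel
theorem kp3332_3 : kR N3332 (rawOf F3332) (fun u => Nat.beq u (nat_lit 0x7f01600203ffffffc093c000000000000000000000001003200b559610a5fe5a10295e0048068350902f8208000206fff85fefddff5520a3fef2c0702f253eedafffbfefffffffeefff91bffffffff77fd5ffbffffffffffffff000000000000000000000000400c802d56584297f96840803801201a0d4240be082000081bffe17fbd567814828ffbcb01c0bc94fbb6bffeffbfffffffbbffe46ffffffff559e07feffffffffffffffc0000000000000000000000010032009551610056e0810000e0048068350902f8208000206fff85fef559e0520a3fef2c0702f253eedafffbfefffffffeefff91bfffffffd56781ffbffffffffffffff)) P3332_3 (nat_lit 0x7f01600203ffffffc093c000000000000000000000001003200b559e10adfe5a182b5e0048068350902f8208000206fff85fefdfff5d20a3fef2c0702f253eedafffbfefffffffeefff91bffffffff7ffd7ffbffffffffffffff00000000000000000000000054ef802d56584297f96840a57801201a0d4240be082000081bffe17fbff7ffd4828ffbcb01c0bc94fbb6bffeffbfffffffbbffe46ffffffffddff57feffffffffffffffc000000000000000000000001003200b559610a5fe5a10295e0048068350902f8208000206fff85fefddff5520a3fef2c0702f253eedafffbfefffffffeefff91bffffffff77fd5ffbffffffffffffff)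 = true := by decide +kernel
theorem kc4422_0 : coreNF N4422 (rawOf F4422) (toL R4422c0 []) C4422_0 = true := by decide +kernel
theorem kc4332_48 : coreNF N4332 (rawOf F4332) (toL R4332c48 []) C4332_48 = true := by decide +kernel
theorem kc4332_432 : coreNF N4332 (rawOf F4332) (toL R4332c432 []) C4332_432 = true := by decide +kernel
theorem kp4332_6 : kR N4332 (rawOf F4332) (fun u => Nat.beq u (nat_lit 0x1240406a08b0000000000007615c4384ec1bf000ba8f26a6c00e0cbffffffff57ff776f8d3faffffffebfd70b03f3f490101a822c000000000001d85710e13b06fc002ea3c9a9b003832ffffffffd5ffdddbe34febffffffaff5c2c0fcfc000050000000300405a01bdfeadd7f7f827ffc927e53dff7ffbfdff7eafa72bfcf3bfef847dde3ffffffbffeff5effffe4ffbfffefff7fbfeff7f5ff7f9e77fdf08fbfc0000010170181410900011002fa9c80ea7012420280400c0d41210e700)) P4332_6 (nat_lit 0x2430d240416a08b0000000000007e15c4384ec1ff000ba8f26a6c00e0cfffffffffd7ff7fff8d3fbffffffebfd74b03f3f490105a822c000000000001f85710e13b07fc002ea3c9a9b003833fffffffff5ffdfffe34fefffffffaff5d2c0fcfc000050000018300405a01bdfeafd7f7f827ffc967e53dff7ffbfdff7eafa72bfef7bfffe7fddf3fffffffffeff5fffffecffffffffff7fbfeff7f5fffffff7fffcffbfe0000010570189410b80415002fa9c80ea7012420280640c0d41210e700)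 = true := by decide +kernel
theorem kc3333_352 : coreNF N3333 (rawOf F3333) (toL R3333c352 []) C3333_352 = true := by decide +kernel
theorem kc3333_736 : coreNF N3333 (rawOf F3333) (toL R3333c736 []) C3333_736 = true := by decide +kernel
theorem kc3333_1120 : coreNF N3333 (rawOf F3333) (toL R3333c1120 []) C3333_1120 = true := by decide +kernel
theorem kc3333_1504 : coreNF N3333 (rawOf F3333) (toL R3333c1504 []) C3333_1504 = true := by decide +kernel
theorem kc4432_16 : coreNF N4432 (rawOf F4432) (toL R4432c16 []) C4432_16 = true := by decide +kernel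
theorem kc4333_176 : coreNF N4333 (rawOf F4333) (toL R4333c176 []) C4333_176 = true := by decide +kernel
theorem kc4333_560 : coreNF N4333 (rawOf F4333) (toL R4333c560 []) C4333_560 = true := by decide +kernel
theorem kp4333_10 : kR N4333 (rawOf F4333) (fun u => Nat.beq u (nat_lit 0x10080682000028e4028000000102050db000966221011d01c3d003c65a0a7f6a14da7000000020100d04000051c80500000002040a1b60012cc442023a0387a0079cb414fed429b4e000000040201a080000a3900a00000004081436c0025988840474070f400f196829fda85369c0000a2fdbbfedeb7bf9a7f3ea00403f7bfffff5ffdf7fdfffe7ffffffffffbfffffbfffffdbfeeff737fffffffffffffffffffe7ffffffffffbffffffffffffffffffffffffbfffffffffffffffffffb2fa0c54280801fd003800492880016312a001118009007622600)) P4333_10 (nat_lit 0x10080682000028e4028000000906850db000966221151f07ebd18bde5aab7f6a14de7000000020100d04000051c805000000120d0a1b60092cc4422a3e0fd7a317bcb556fed429bce000000040201a080000a3900a000000241a1436c012598884547c1faf462f796aadfda85379c0000a2fdbbfedeb7bf9a7f3ea00403f7bfffff5ffdf7fdfffe7ffffffffffbfffffbfffffdbfeeff737fffffffffffffffffffe7ffffffffffbffffffffffffffffffffffffbfffffffffffffffffffb2fa0c54280811fd003800492880016312a00111800f487622604)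 = true := by decide +kernel
theorem kp4433_6 : kR N4433 (rawOf F4433) (fun u => Nat.beq u (nat_lit 0x107d1810190000098000000000000000000000000000000000107d18101900000980)) P4433_6 (nat_lit 0x2800008100052e0410200000000000107d18121bd5e449f0002800008100152e0410200000000000107d18121bc5e449f0) = true := by decide +kernel
theorem kp5332_6 : kR N5332 (rawOf F5332) (fun u => Nat.beq u (nat_lit 0)) P5332_6 (nat_lit 0x200000000b000002041010000000058000010208000402000000000002001f80820000021100004003f01000000000000000100008c14884241c) = true := by decide +kernel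
theorem kp5422_3 : kR N5422 (rawOf F5422) (fun u => Nat.beq u (nat_lit 0)) P5422_3 (nat_lit 0x810000002c400002d080020800638c0205882818880000000000100000) = true := by decide +kernel
theorem kw2222_2 : wfT S2222_2 396 = true := by decide +kernel
theorem kp4111_0 : kR N4111 (rawOf F4111) (fun u => Nat.beq u (nat_lit 0)) P4111_0 (nat_lit 524287) = true := by decide +kernel
theorem kx3222_384 : chkB N3222 X3222c384 (nat_lit 384) = true := by decide +kernel
theorem kx5222_128 : chkB N5222 X5222c128 (nat_lit 128) = true := by decide +kernel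
theorem kx4422_128 : chkB N4422 X4422c128 (nat_lit 128) = true := by decide +kernel
theorem kx2211 : chkB N2211 X2211.t 0 = true := by decide +kernel
theorem kv4432_2 : wfT L4432_2 154 = true := by decide +kernel
theorem kw5222_2 : wfT S5222_2 132 = true := by decide +kernel
theorem kp2220_0 : kR N2220 (rawOf F2220) (fun u => Nat.beq u (nat_lit 0)) P2220_0 (nat_lit 12483) = true := by decide +kernel
theorem ke4321 : kB (fun u => Nat.beq u (nat_lit 0xb46143ffff8c17dfecb7fff0180083b07f7ffdefff7ffffffffffffffff)) (toL X4321.t []) (nat_lit 0x3ffffffffffffffffffffffffffffffffffffffffffffffffffffffffffff) = true := by decide +kernel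
theorem kv3311_1 : wfT L3311_1 50 = true := by decide +kernel
theorem ka2220 : (wfT N2220 18 && wfT R2220 1) = true := by decide +kernel
theorem ka4320 : (wfT N4320 9 && wfT R4320 1) = true := by decide +kernel
theorem ka4331 : (wfT N4331 262 && wfT R4331 1) = true := by decide +kernel
theorem ka5332 : (wfT N5332 465 && wfT R5332 1) = true := by decide +kernel
theorem ka4444 : (wfT N4444 24 && wfT R4444 1) = true := by decide +kernel
theorem kx4443 : chkB N4443 X4443.t 0 = true := by decide +kernel
theorem kv7222_0 : wfT L7222_0 22 = true := by decide +kernel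
theorem kv3320_1 : wfT L3320_1 8 = true := by decide +kernel
theorem kv5522_1 : wfT L5522_1 13 = true := by decide +kernel
theorem kx3100 : chkB N3100 X3100.t 0 = true := by decide +kernel
theorem kv2211_3 : wfT L2211_3 6 = true := by decide +kernel
theorem kx5220 : chkB N5220 X5220.t 0 = true := by decide +kernel
theorem kv5221_3 : wfT L5221_3 1 = true := by decide +kernel
theorem ke6322 : kB (fun u => Nat.beq u (nat_lit 0x7ff67f7bffffffffffffffffff)) (toL X6322.t []) (nat_lit 0x7fffffffffffffffffffffffff) = true := by decide +kernel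
theorem kx4442 : chkB N4442 X4442.t 0 = true := by decide +kernel
theorem kv5443_0 : wfT L5443_0 6 = true := by decide +kernel

end Pool.Agent.L3E.GJ
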