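import Pool.Agent.L3E.GJ.Pl

set_option autoImplicit false
set_option maxRecDepth 100000
set_option linter.unusedVariables false
set_option exponentiation.threshold 100000

/-! # L3E, module GJ.C16: kernel checks -/

namespace Pool.Agent.L3E.GJ

theorem kG2221_5 : gChk AT7 30023 [g2221_5] = true := by decide +kernel
theorem kG5220_0 : gChk AT9 30033 [g5220_0] = true := by decide +kernel
theorem kG3222_10 : gChk AT9 30040 [g3222_10] = true := by decide +kernel
theorem kG4222_13 : gChk AT10 30050 [g4222_13] = true := by decide +kernel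
theorem kG5222_0 : gChk AT11 30055 [g5222_0] = true := by decide +kernel
theorem kG4322_7 : gChk AT11 30058 [g4322_7] = true := by decide +kernel
theorem kG3332_14 : gChk AT11 30059 [g3332_14] = true := by decide +kernel
theorem kS2111_3 : chk2 (fun m => appM N2111 (rowL pS2111_3 m)) X2111.t S2111_3.t = true := by decide +kernel
theorem kS3221_2_0 : chk2 (fun m => appM N3221 (rowL pS3221_2 m)) X3221c0 S3221_2c0 = true := by decide +kernel
theorem kS5220_2 : chk2 (fun m => appM N5220 (rowL pS5220_2 m)) X5220.t S5220_2.t = true := by decide +kernel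
theorem kS5221_2 : chk2 (fun m => appM N5221 (rowL pS5221_2 m)) X5221.t S5221_2.t = true := by decide +kernel
theorem kS3322_1_448 : chk2 (fun m => appM N3322 (rowL pS3322_1 m)) X3322c448 S3322_1c448 = true := by decide +kernel
theorem kS4322_3_128 : chk2 (fun m => appM N4322 (rowL pS4322_3 m)) X4322c128 S4322_3c128 = true := by decide +kernel
theorem kS3332_2_448 : chk2 (fun m => appM N3332 (rowL pS3332_2 m)) X3332c448 S3332_2c448 = true := by decide +kernel
theorem kS3333_1_128 : chk2 (fun m => appM N3333 (rowL pS3333_1 m)) X3333c128 S3333_1c128 = true := by decide +kernel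
theorem kS3333_2_768 : chk2 (fun m => appM N3333 (rowL pS3333_2 m)) X3333c768 S3333_2c768 = true := by decide +kernel
theorem kS4333_2_128 : chk2 (fun m => appM N4333 (rowL pS4333_2 m)) X4333c128 S4333_2c128 = true := by decide +kernel
theorem kL2210_1 : chk2 (fun m => appM N2210 (rowL pL2210_1 m)) X2110.t L2210_1.t = true := by decide +kernel
theorem kL2221_3 : chk2 (fun m => appM N2221 (rowL pL2221_3 m)) X2220.t L2221_3.t = true := by decide +kernel
theorem kL4311_1 : chk2 (fun m => appM N4311 (rowL pL4311_1 m)) X4211.t L4311_1.t = true := by decide +kernel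
theorem kL6211_0 : chk2 (fun m => appM N6211 (rowL pL6211_0 m)) X5211.t L6211_0.t = true := by decide +kernel
theorem kL4222_0_320 : chk2 (fun m => appM N4222 (rowL pL4222_0 m)) X3222c320 L4222_0c320 = true := by decide +kernel
theorem kL3322_3_128 : chk2 (fun m => appM N3322 (rowL pL3322_3 m)) X3321c128 L3322_3c128 = true := by decide +kernel
theorem kL4322_0_128 : chk2 (fun m => appM N4322 (rowL pL4322_0 m)) X3322c128 L4322_0c128 = true := by decide +kernel
theorem km3332_8 : kM (appM R3332) (fun u => Nat.beq u (nat_lit 0xffabd56281cfaaa23fbbd68bcd4)) M3332_8 (nat_lit 0x1eafefdffedf6abaa91bebbffabd56281cfaaa23fbbd68bcd4) = true := by decide +kernel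
theorem km5322_0 : kM (appM R5322) (fun u => Nat.beq u (nat_lit 0x1d1ffaffe9cc1f6fc9ffbb61ebf215fa82c248000000000000000000000000000000000000000)) M5322_0 (nat_lit 0x101a084d000003a6275e4650231e751001000500a18f0acc2abd1ffaffe9cc1f6fc9ffbb61ebf215fa82c248000000000000000000000000000000000000000) = true := by decide +kernel
theorem km4332_0 : kM (appM R4332) (fun u => Nat.beq u (nat_lit 0xffb7f57ff572f8d3ea7fffffeb5d70b025094901008022c000000000001d85710e13b06b8002e814921a003812d6fffedfd5ffd5cbe34fa9ffffffad75c2c09424000050000000300405a01bde6add7f7f827ffc907e53dff7ffbfdff7eafa72bfcf3bfef847dde3fffcffbffeff5effffe0ffbfffefff7fbfeff7f5ff7f9e77fdf08fbfc0000000000000000000000002fa9880ea6012420000400405010100000)) M4332_0 (nat_lit 0x1240402008b0000000000007615c4384ec1ae000ba052486800e04b5bfffb7f57ff572f8d3ea7fffffeb5d70b025094901008022c000000000001d85710e13b06b8002e814921a003812d6fffedfd5ffd5cbe34fa9ffffffad75c2c09424000050000000300405a01bde6add7f7f827ffc907e53dff7ffbfdff7eafa72bfcf3bfef847dde3fffcffbffeff5effffe0ffbfffefff7fbfeff7f5ff7f9e77fdf08fbfc0000000000000000000000002fa9880ea6012420000400405010100000)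 = true := by decide +kernel
theorem kL4332_2_0 : chk2 (fun m => appM N4332 (rowL pL4332_2 m)) X4322c0 L4332_2c0 = true := by decide +kernel
theorem km3333_17 : kM (appM R3333) (fun u => Nat.beq u (nat_lit 0x7fec000000000000000000000000000000008200d08b79db0026a082980000000001c800808005880240640b2fa2a7effff9f6ffbffd4ff7f53469f7f5ff3fbef931812ff01c80c817fffd7fffffffffff7fffdffffe7fdfefebfeff7fffffff5fffb)) M3333_17 (nat_lit 0x3bfaffbfdfffffffd7ffec000000000000000000000000000000008200d08b79db0026a082980000000001c800808005880240640b2fa2a7effff9f6ffbffd4ff7f53469f7f5ff3fbef931812ff01c80c817fffd7fffffffffff7fffdffffe7fdfefebfeff7fffffff5fffb) = true := by decide +kernel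
theorem kL6322_1 : chk2 (fun m => appM N6322 (rowL pL6322_1 m)) X6222.t L6322_1.t = true := by decide +kernel
theorem kL4432_2_64 : chk2 (fun m => appM N4432 (rowL pL4432_2 m)) X4422c64 L4432_2c64 = true := by decide +kernel
theorem kL4333_0_576 : chk2 (fun m => appM N4333 (rowL pL4333_0 m)) X3333c576 L4333_0c576 = true := by decide +kernel
theorem kL5333_0_192 : chk2 (fun m => appM N5333 (rowL pL5333_0 m)) X4333c192 L5333_0c192 = true := by decide +kernel
theorem km3332_9 : kM (appM R3332) (fun u => Nat.beq u (nat_lit 0)) M3332_9 (nat_lit 0xffabd56281cfaaa23fbbd68bcd4) = true := by decide +kernel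
theorem kc3222_80 : coreNF N3222 (rawOf F3222) (toL R3222c80 []) C3222_80 = true := by decide +kernel
theorem kc3331_80 : coreNF N3331 (rawOf F3331) (toL R3331c80 []) C3331_80 = true := by decide +kernel
theorem kp3322_1 : kR N3322 (rawOf F3322) (fun u => Nat.beq u (nat_lit 0x1080100000000802feff9f401fff100000001080100000000802feff9f401fff100000000020000000000000000181000003a04002822440010080a43a5e20290e97afb2f5ffa18be020dd8fffffe397fdf7ffbe87fcffffff7fffffffffffe00000000100000000000000000c0800001d0200141122000804052152f1014874bd3d050fed0c5f0106ec7fffff1cbfefbffdf43fe7fffffbffffffffffff)) P3322_1 (nat_lit 0x18000001080100000000806feff9f401fff118000001080100000000806feff9f401fff100000000020000000000000000181000003a04002822440010080a53a5f20294e97efbaffffe18be020dd8fffffe397fdf7ffbe87fcffffff7fffffffffffe00000000700000000000000000c0800007d020014112200081ffff7fff7fffdfffd7d97affd0c5f0106ec7fffff1cbfefbffdf43fe7fffffbffffffffffff) = true := by decide +kernel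
theorem kc4322_112 : coreNF N4322 (rawOf F4322) (toL R4322c112 []) C4322_112 = true := by decide +kernel
theorem kc3332_80 : coreNF N3332 (rawOf F3332) (toL R3332c80 []) C3332_80 = true := by decide +kernel
theorem kc3332_464 : coreNF N3332 (rawOf F3332) (toL R3332c464 []) C3332_464 = true := by decide +kernel
theorem kc5322_16 : coreNF N5322 (rawOf F5322) (toL R5322c16 []) C5322_16 = true := by decide +kernel
theorem kc4422_160 : coreNF N4422 (rawOf F4422) (toL R4422c160 []) C4422_160 = true := by decide +kernel
theorem kc4332_208 : coreNF N4332 (rawOf F4332) (toL R4332c208 []) C4332_208 = true := by decide +kernel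
theorem kc4332_592 : coreNF N4332 (rawOf F4332) (toL R4332c592 []) C4332_592 = true := by decide +kernel
theorem kc3333_128 : coreNF N3333 (rawOf F3333) (toL R3333c128 []) C3333_128 = true := by decide +kernel
theorem kc3333_512 : coreNF N3333 (rawOf F3333) (toL R3333c512 []) C3333_512 = true := by decide +kernel
theorem kc3333_896 : coreNF N3333 (rawOf F3333) (toL R3333c896 []) C3333_896 = true := by decide +kernel
theorem kc3333_1280 : coreNF N3333 (rawOf F3333) (toL R3333c1280 []) C3333_1280 = true := by decide +kernel
theorem kp3333_7 : kR N3333 (rawOf F3333) (fun u => Nat.beq u (nat_lit 0x10190080033981cc00000000000020803422de76c009aa20a6000000000072002020016200901902fbfca9fffffe7dbfeffff7fffd5fde7ffd7fcfffbe4c604bfc07303205ffffdfffffffffffdfffffffffffffffffffffffffffffd7fffc0000406402000ce607300000000000008200d08b79db0026a882980000000001c80080800588024064cbeff2a7fffff9f6ffbfffeffff73f69fff5ff3ffef931812ff01cc0c997ffff7fffffffffff7fffffffff7fffffffffffffffffff5ffff000010190080033981cc00000000000020803422de76c009aa20a6000000000072002020016200901932fbfca9fffffe7dbfeffffbfffdcfda7ffd7fcfffbe4c604bfc07303265ffffdfffffffffffdfffffffffdfffffffffffffffffffd7fffc0000406402000ce607300000000000008200d08b79db0026a882980000000001c800808005880240640beff2a7fffff9f6ffbfffcffff53f69fff5ff3ffef931812ff01cc0c817ffff7fffffffffff7fffffffff7fffffffffffffffffff5ffff))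 P3333_7 (nat_lit 0x410390080833981cc00001800000020803422de76c009aa20a6000000000072002020016200901932fbfca9fffffe7dbfeffffffffffffe7ffd7fcfffbe4c604bfc073c3265ffffdfffffffffffdfffffffffffffffffffffffffffffd7fffc0000406402000ce607300000600000008200d08b79db0026a882980000000001c80080800588024064cbeff2a7fffff9f6ffbffffffffffff9fff5ff3ffef931812ff01cf0c997ffff7fffffffffff7fffffffffffffffffffffffffffff5ffff000010190080033981cc00001800000020803422de76c009aa20a6000000000072002020016200901932fbfca9fffffe7dbfeffffffffffffe7ffd7fcfffbe4c604bfc073c3265ffffdfffffffffffdfffffffffffffffffffffffffffffd7fffc001140e402060ce607300c00600000008200d08b79db0026a882980000000001c80080800588025864cbeff2a7fffff9f6ffbffffffffffff9fff5ff3ffef931812ff01cf0c997ffff7fffffffffff7fffffffffffffffffffffffffffff5ffff) = true := by decide +kernel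
theorem kp4432_7 : kR N4432 (rawOf F4432) (fun u => Nat.beq u (nat_lit 0xe38082121a003a81dae3e764340074080240410028020029000f8770200000000000000000000004120adffe008c10d561fdeb9bce000480820010040052001f0ee04000000000000000000000080415bffc011021aac3dbd7379c)) P4432_7 (nat_lit 0x800000e380a2121a003a81dfe3e764340074090248411468228229642f977020000000000000808000000413eafffe099f99d563fdeb9bce1204908228d0450452c85f2ee040000000000001010000000827d5fffc033933aac7fbd7379c) = true := by decide +kernel
theorem kc4333_336 : coreNF N4333 (rawOf F4333) (toL R4333c336 []) C4333_336 = true := by decide +kernel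
theorem kc4333_720 : coreNF N4333 (rawOf F4333) (toL R4333c720 []) C4333_720 = true := by decide +kernel
theorem kp4433_0 : kR N4433 (rawOf F4433) (fun u => Nat.beq u (nat_lit 0xc6e5b9cbe0feff31b96e72f83fbfc1f7fc7c7fffffffffcfffc845a7f7dfbffffffffffffffefff1f6dc7c7ff3fffbffcffe7dfffe061835fffffffffffffffff)) P4433_0 (nat_lit 0xffe5bfffe1ffff3ff96ffff87fffc1f7fc7c7fffffffffcffffffffffffffffffffffffffffffff1f7fc7c7fffffffffcffffffffffffffffffffffffffffffff) = true := by decide +kernel
theorem km4433_0 : kM (appM R4433) (fun u => Nat.beq u (nat_lit 0)) M4433_0 (nat_lit 0x107d1810190000098000000000000000000000000000000000107d18101900000980) = true := by decide +kernel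
theorem kp5421_0 : kR N5421 (rawOf F5421) (fun u => Nat.beq u (nat_lit 0)) P5421_0 (nat_lit 0x3fefffff) = true := by decide +kernel
theorem kp3321_2 : kR N3321 (rawOf F3321) (fun u => Nat.beq u (nat_lit 0x8001ac410011ea00000000000000000000008001ac410011ea00)) P3321_2 (nat_lit 0x18501ed63d511ea80000000000000000000018501ed61d511ea00) = true := by decide +kernel
theorem kv5332_0 : wfT L5332_0 303 = true := by decide +kernel
theorem kx4321_64 : chkB N4321 X4321c64 (nat_lit 64) = true := by decide +kernel
theorem kx4322_128 : chkB N4322 X4322c128 (nat_lit 128) = true := by decide +kernel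
theorem kx4332_128 : chkB N4332 X4332c128 (nat_lit 128) = true := by decide +kernel
theorem kp4222_5 : kR N4222 (rawOf F4222) (fun u => Nat.beq u (nat_lit 0x100802d0010840102800818f2960906fca5ba741328abdc00000000000000000000000000000000000000000000000000)) P4222_5 (nat_lit 0x100802d0010840102800818f2960906fca5ba761328abde000000000000000000000000000000000ac8000001e1000c00) = true := by decide +kernel
theorem kp3220_0 : kR N3220 (rawOf F3220) (fun u => Nat.beq u (nat_lit 0)) P3220_0 (nat_lit 74207) = true := by decide +kernel
theorem kv3222_3 : wfT L3222_3 144 = true := by decide +kernel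
theorem kp3310_0 : kR N3310 (rawOf F3310) (fun u => Nat.beq u (nat_lit 0)) P3310_0 (nat_lit 63) = true := by decide +kernel
theorem kv5321_0 : wfT L5321_0 68 = true := by decide +kernel
theorem kv3221_2 : wfT L3221_2 50 = true := by decide +kernel
theorem ka2211 : (wfT N2211 84 && wfT R2211 1) = true := by decide +kernel
theorem ka4311 : (wfT N4311 55 && wfT R4311 1) = true := by decide +kernel
theorem ke4331 : kB (fun u => Nat.beq u (nat_lit 0x3ffffc43afeffff3fbffffc43afeffff3fa8f27fdfffffbdffffffffffffffffff)) (toL X4331.t []) (nat_lit 0x3fffffffffffffffffffffffffffffffffffffffffffffffffffffffffffffffff) = true := by decide +kernel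
theorem ka4441 : (wfT N4441 12 && wfT R4441 1) = true := by decide +kernel
theorem kx1110 : chkB N1110 X1110.t 0 = true := by decide +kernel
theorem kv2111_0 : wfT L2111_0 24 = true := by decide +kernel
theorem ke4211 : kB (fun u => Nat.beq u (nat_lit 0xc0049dfffffff)) (toL X4211.t []) (nat_lit 0x1ffffffffffffff) = true := by decide +kernel
theorem kw5333_2 : wfT S5333_2 22 = true := by decide +kernel
theorem kx5432 : chkB N5432 X5432.t 0 = true := by decide +kernel
theorem kv3100_0 : wfT L3100_0 1 = true := by decide +kernel
theorem kx4210 : chkB N4210 X4210.t 0 = true := by decide +kernel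
theorem ke5220 : kB (fun u => Nat.beq u (nat_lit 15)) (toL X5220.t []) (nat_lit 31) = true := by decide +kernel
theorem kx4420 : chkB N4420 X4420.t 0 = true := by decide +kernel
theorem kw6322_3 : wfT S6322_3 5 = true := by decide +kernel
theorem kx7422 : chkB N7422 X7422.t 0 = true := by decide +kernel
theorem kv5443_2 : wfT L5443_2 2 = true := by decide +kernel

end Pool.Agent.L3E.GJ
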