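import Pool.Agent.L3E.GJ.Pl

set_option autoImplicit false
set_option maxRecDepth 100000
set_option linter.unusedVariables false
set_option exponentiation.threshold 100000

/-! # L3E, module GJ.C17: kernel checks -/

namespace Pool.Agent.L3E.GJ

theorem kG4220_0 : gChk AT8 30027 [g4220_0] = true := by decide +kernel
theorem kG5211_0 : gChk AT9 30034 [g5211_0] = true := by decide +kernel
theorem kG3222_11 : gChk AT9 30040 [g3222_11] = true := by decide +kernel
theorem kG4222_14 : gChk AT10 30050 [g4222_14] = true := by decide +kernel
theorem kG5222_1 : gChk AT11 30055 [g5222_1] = true := by decide +kernel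
theorem kG4322_8 : gChk AT11 30058 [g4322_8] = true := by decide +kernel
theorem kG3332_15 : gChk AT11 30059 [g3332_15] = true := by decide +kernel
theorem kS3111_2 : chk2 (fun m => appM N3111 (rowL pS3111_2 m)) X3111.t S3111_2.t = true := by decide +kernel
theorem kS3221_2_64 : chk2 (fun m => appM N3221 (rowL pS3221_2 m)) X3221c64 S3221_2c64 = true := by decide +kernel
theorem kS5211_3 : chk2 (fun m => appM N5211 (rowL pS5211_3 m)) X5211.t S5211_3.t = true := by decide +kernel
theorem kS4222_2_0 : chk2 (fun m => appM N4222 (rowL pS4222_2 m)) X4222c0 S4222_2c0 = true := by decide +kernel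
theorem kS3322_1_512 : chk2 (fun m => appM N3322 (rowL pS3322_1 m)) X3322c512 S3322_1c512 = true := by decide +kernel
theorem kS4322_3_192 : chk2 (fun m => appM N4322 (rowL pS4322_3 m)) X4322c192 S4322_3c192 = true := by decide +kernel
theorem kS3332_2_512 : chk2 (fun m => appM N3332 (rowL pS3332_2 m)) X3332c512 S3332_2c512 = true := by decide +kernel
theorem kS3333_1_192 : chk2 (fun m => appM N3333 (rowL pS3333_1 m)) X3333c192 S3333_1c192 = true := by decide +kernel
theorem kS3333_2_832 : chk2 (fun m => appM N3333 (rowL pS3333_2 m)) X3333c832 S3333_2c832 = true := by decide +kernel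
theorem kS4333_2_192 : chk2 (fun m => appM N4333 (rowL pS4333_2 m)) X4333c192 S4333_2c192 = true := by decide +kernel
theorem kL2111_0 : chk2 (fun m => appM N2111 (rowL pL2111_0 m)) X1111.t L2111_0.t = true := by decide +kernel
theorem kL5210_0 : chk2 (fun m => appM N5210 (rowL pL5210_0 m)) X4210.t L5210_0.t = true := by decide +kernel
theorem kL4221_0_0 : chk2 (fun m => appM N4221 (rowL pL4221_0 m)) X3221c0 L4221_0c0 = true := by decide +kernel
theorem kL5320_0 : chk2 (fun m => appM N5320 (rowL pL5320_0 m)) X4320.t L5320_0.t = true := by decide +kernel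
theorem kL4222_0_384 : chk2 (fun m => appM N4222 (rowL pL4222_0 m)) X3222c384 L4222_0c384 = true := by decide +kernel
theorem kL6221_0 : chk2 (fun m => appM N6221 (rowL pL6221_0 m)) X5221.t L6221_0.t = true := by decide +kernel
theorem kL4322_0_192 : chk2 (fun m => appM N4322 (rowL pL4322_0 m)) X3322c192 L4322_0c192 = true := by decide +kernel
theorem kL3332_2_0 : chk2 (fun m => appM N3332 (rowL pL3332_2 m)) X3322c0 L3332_2c0 = true := by decide +kernel
theorem km5322_1 : kM (appM R5322) (fun u => Nat.beq u (nat_lit 0xebf215fa82c248000000000000000000000000000000000000000)) M5322_1 (nat_lit 0x1d1ffaffe9cc1f6fc9ffbb61ebf215fa82c248000000000000000000000000000000000000000) = true := by decide +kernel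
theorem km4332_1 : kM (appM R4332) (fun u => Nat.beq u (nat_lit 0x7ffeb5d70b025094901008022c000000000001d85710e13b06b8002e814921a003812d6fffedfd5ffd5cbe34fa9ffffffad75c2c09424000050000000300405a01bde6add7f7f827ffc907e53dff7ffbfdff7eafa72bfcf3bfef847dde3fffcffbffeff5effffe0ffbfffefff7fbfeff7f5ff7f9e77fdf08fbfc0000000000000000000000002fa9880ea6012420000400405010100000)) M4332_1 (nat_lit 0xffb7f57ff572f8d3ea7fffffeb5d70b025094901008022c000000000001d85710e13b06b8002e814921a003812d6fffedfd5ffd5cbe34fa9ffffffad75c2c09424000050000000300405a01bde6add7f7f827ffc907e53dff7ffbfdff7eafa72bfcf3bfef847dde3fffcffbffeff5effffe0ffbfffefff7fbfeff7f5ff7f9e77fdf08fbfc0000000000000000000000002fa9880ea6012420000400405010100000) = true := by decide +kernel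
theorem kL4332_2_64 : chk2 (fun m => appM N4332 (rowL pL4332_2 m)) X4322c64 L4332_2c64 = true := by decide +kernel
theorem km3333_18 : kM (appM R3333) (fun u => Nat.beq u (nat_lit 0x1a2a7effff9f6ffbffd4ff7f53469f7f5ff3fbef931812ff01c80c817fffd7fffffffffff7fffdffffe7fdfefebfeff7fffffff5fffb)) M3333_18 (nat_lit 0x7fec000000000000000000000000000000008200d08b79db0026a082980000000001c800808005880240640b2fa2a7effff9f6ffbffd4ff7f53469f7f5ff3fbef931812ff01c80c817fffd7fffffffffff7fffdffffe7fdfefebfeff7fffffff5fffb) = true := by decide +kernel
theorem kL5521_1 : chk2 (fun m => appM N5521 (rowL pL5521_1 m)) X5421.t L5521_1.t = true := by decide +kernel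
theorem kL4432_2_128 : chk2 (fun m => appM N4432 (rowL pL4432_2 m)) X4422c128 L4432_2c128 = true := by decide +kernel
theorem kL4333_0_640 : chk2 (fun m => appM N4333 (rowL pL4333_0 m)) X3333c640 L4333_0c640 = true := by decide +kernel
theorem kL5333_3 : chk2 (fun m => appM N5333 (rowL pL5333_3 m)) X5332.t L5333_3.t = true := by decide +kernel
theorem km4222_0 : kM (appM R4222) (fun u => Nat.beq u (nat_lit 0)) M4222_0 (nat_lit 0x100802d0010840102800818f2960906fca5ba741328abdc00000000000000000000000000000000000000000000000000) = true := by decide +kernel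
theorem kc3222_64 : coreNF N3222 (rawOf F3222) (toL R3222c64 []) C3222_64 = true := by decide +kernel
theorem kc3331_64 : coreNF N3331 (rawOf F3331) (toL R3331c64 []) C3331_64 = true := by decide +kernel
theorem kp3322_0 : kR N3322 (rawOf F3322) (fun u => Nat.beq u (nat_lit 0x18000001080100000000806feff9f401fff118000001080100000000806feff9f401fff100000000020000000000000000181000003a04002822440010080a53a5f20294e97efbaffffe18be020dd8fffffe397fdf7ffbe87fcffffff7fffffffffffe00000000700000000000000000c0800007d020014112200081ffff7fff7fffdfffd7d97affd0c5f0106ec7fffff1cbfefbffdf43fe7fffffbffffffffffff)) P3322_0 (nat_lit 0x3c000003080100000000806feff9f401fff13c000003080100000000806feff9f401fff1000000000e000000000000000018100000fa040028224400103ffffffffffffffffffffffffe18be020dd8fffffe397fdf7ffbe87fcffffff7fffffffffffe00000000700000000000000000c0800007d020014112200081fffffffffffffffffffffffff0c5f0106ec7fffff1cbfefbffdf43fe7fffffbffffffffffff) = true := by decide +kernel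
theorem kc4322_96 : coreNF N4322 (rawOf F4322) (toL R4322c96 []) C4322_96 = true := by decide +kernel
theorem kc3332_64 : coreNF N3332 (rawOf F3332) (toL R3332c64 []) C3332_64 = true := by decide +kernel
theorem kc3332_448 : coreNF N3332 (rawOf F3332) (toL R3332c448 []) C3332_448 = true := by decide +kernel
theorem kc5322_0 : coreNF N5322 (rawOf F5322) (toL R5322c0 []) C5322_0 = true := by decide +kernel
theorem kc4422_144 : coreNF N4422 (rawOf F4422) (toL R4422c144 []) C4422_144 = true := by decide +kernel
theorem kc4332_192 : coreNF N4332 (rawOf F4332) (toL R4332c192 []) C4332_192 = true := by decide +kernel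
theorem kc4332_576 : coreNF N4332 (rawOf F4332) (toL R4332c576 []) C4332_576 = true := by decide +kernel
theorem kc3333_112 : coreNF N3333 (rawOf F3333) (toL R3333c112 []) C3333_112 = true := by decide +kernel
theorem kc3333_496 : coreNF N3333 (rawOf F3333) (toL R3333c496 []) C3333_496 = true := by decide +kernel
theorem kc3333_880 : coreNF N3333 (rawOf F3333) (toL R3333c880 []) C3333_880 = true := by decide +kernel
theorem kc3333_1264 : coreNF N3333 (rawOf F3333) (toL R3333c1264 []) C3333_1264 = true := by decide +kernel
theorem kp3333_6 : kR N3333 (rawOf F3333) (fun u => Nat.beq u (nat_lit 0x410390080833981cc00001800000020803422de76c009aa20a6000000000072002020016200901932fbfca9fffffe7dbfeffffffffffffe7ffd7fcfffbe4c604bfc073c3265ffffdfffffffffffdfffffffffffffffffffffffffffffd7fffc0000406402000ce607300000600000008200d08b79db0026a882980000000001c80080800588024064cbeff2a7fffff9f6ffbffffffffffff9fff5ff3ffef931812ff01cf0c997ffff7fffffffffff7fffffffffffffffffffffffffffff5ffff000010190080033981cc00001800000020803422de76c009aa20a6000000000072002020016200901932fbfca9fffffe7dbfeffffffffffffe7ffd7fcfffbe4c604bfc073c3265ffffdfffffffffffdfffffffffffffffffffffffffffffd7fffc001140e402060ce607300c00600000008200d08b79db0026a882980000000001c80080800588025864cbeff2a7fffff9f6ffbffffffffffff9fff5ff3ffef931812ff01cf0c997ffff7fffffffffff7fffffffffffffffffffffffffffff5ffff))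 P3333_6 (nat_lit 0x68c50394081833981cc430c9800000020803422de76c009aa20a6000000000072002020016200961932fbfea9fffffe7dbffffffffffffffe7fff7fcfffbe4c604bfc073c3265ffffdfffffffffffffffffffffffffffffffffffffffffd7fffc1a3140e502060ce607310c02600000008200d08b79db0026a882980000000001c80080800588025864cbeff2a7fffff9f6fffffffffffffff9fffdff3ffef931812ff01cf0c997ffff7fffffffffffffffffffffffffffffffffffffffff5ffff040450390081833981cc03001800000020803422de76c009aa20a6000000000072002020016200961932fbfca9fffffe7dbffffffffffffffe7fff7fcfffbe4c604bfc073c3265ffffdfffffffffffffffffffffffffffffffffffffffffd7fffc1a3140e502060ce607310c32600000008200d08b79db0026a882980000000001c80080800588025864cbeffaa7fffff9f6fffffffffffffff9fffdff3ffef931812ff01cf0c997ffff7fffffffffffffffffffffffffffffffffffffffff5ffff) = true := by decide +kernel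
theorem kp4432_6 : kR N4432 (rawOf F4432) (fun u => Nat.beq u (nat_lit 0x800000e380a2121a003a81dfe3e764340074090248411468228229642f977020000000000000808000000413eafffe099f99d563fdeb9bce1204908228d0450452c85f2ee040000000000001010000000827d5fffc033933aac7fbd7379c)) P4432_6 (nat_lit 0x840000e380a2d21a003a81dff7e7e434007409024c61d56822d7ff643fd77020000000000000818080000437eaffff1fdf99d563fdeb9bce1204b8c3a8d0453fdac87f2ee040000000000001030000001c3fd5fffe7f3f33fff7fbf7379c) = true := by decide +kernel
theorem kc4333_320 : coreNF N4333 (rawOf F4333) (toL R4333c320 []) C4333_320 = true := by decide +kernel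
theorem kc4333_704 : coreNF N4333 (rawOf F4333) (toL R4333c704 []) C4333_704 = true := by decide +kernel
theorem kc4433_16 : coreNF N4433 (rawOf F4433) (toL R4433c16 []) C4433_16 = true := by decide +kernel
theorem kw3332_2 : wfT S3332_2 774 = true := by decide +kernel
theorem kp6222_1 : kR N6222 (rawOf F6222) (fun u => Nat.beq u (nat_lit 0x20787424e2000000000007400400200)) P6222_1 (nat_lit 0x29787ebcffa0014084800f40860b37d) = true := by decide +kernel
theorem ke4222 : kB (fun u => Nat.beq u (nat_lit 0x3e000000007fc004243c0f7c00000000ff800848781ef800000001ff001090f03c00000000040000001fc000000400163a5ad0010841fe2cc095cf3de7b5ffcf7bef7ff6cfbdfffffffffffffffffffffffffffffffffffffffffffffffffff)) (toL X4222.t []) (nat_lit 0x3ffffffffffffffffffffffffffffffffffffffffffffffffffffffffffffffffffffffffffffffffffffffffffffffffffffffffffffffffffffffffffffffffffffffffffffffffffffffffffffffffffffffffffffffffffffffffffffff) = true := by decide +kernel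
theorem kv4432_1 : wfT L4432_1 303 = true := by decide +kernel
theorem kx4222_0 : chkB N4222 X4222c0 (nat_lit 0) = true := by decide +kernel
theorem kx4322_192 : chkB N4322 X4322c192 (nat_lit 192) = true := by decide +kernel
theorem kx4332_192 : chkB N4332 X4332c192 (nat_lit 192) = true := by decide +kernel
theorem kp4422_6 : kR N4422 (rawOf F4422) (fun u => Nat.beq u (nat_lit 0x480000000086c39800c5360000000001a000000000680000008012c7fdf8175df7d00bea67897fbf2eaff54290902120000000021b0e600314d800000000068000000001a0000002004b1ff7e05d77df402fa99e25fefcbabfd50a42408)) P4422_6 (nat_lit 0x480000000086c39800c53e0000000001a000000000680000008012c7fffc17ddf7d40bea67897fff2eaff54293902120000000021b0e600314f800000000068000000001a0000002004b1ffff05f77df502fa99e25fffcbabfd50a42408) = true := by decide +kernel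
theorem kp5321_1 : kR N5321 (rawOf F5321) (fun u => Nat.beq u (nat_lit 0x3748000000000000000000)) P5321_1 (nat_lit 0x3748001c0446a000000001) = true := by decide +kernel
theorem kv4321_0 : wfT L4321_0 144 = true := by decide +kernel
theorem kx5221 : chkB N5221 X5221.t 0 = true := by decide +kernel
theorem kv4421_1 : wfT L4421_1 68 = true := by decide +kernel
theorem kx5422 : chkB N5422 X5422.t 0 = true := by decide +kernel
theorem kv2211_1 : wfT L2211_1 36 = true := by decide +kernel
theorem kv4311_0 : wfT L4311_0 34 = true := by decide +kernel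
theorem kw4331_2 : wfT S4331_2 37 = true := by decide +kernel
theorem ka4432 : (wfT N4432 764 && wfT R4432 60) = true := by decide +kernel
theorem kp2200_0 : kR N2200 (rawOf F2200) (fun u => Nat.beq u (nat_lit 0)) P2200_0 (nat_lit 3) = true := by decide +kernel
theorem kp4110_0 : kR N4110 (rawOf F4110) (fun u => Nat.beq u (nat_lit 0)) P4110_0 (nat_lit 3) = true := by decide +kernel
theorem kw4211_3 : wfT S4211_3 21 = true := by decide +kernel
theorem kw5333_3 : wfT S5333_3 22 = true := by decide +kernel
theorem kv5432_2 : wfT L5432_2 13 = true := by decide +kernel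
theorem kx2200 : chkB N2200 X2200.t 0 = true := by decide +kernel
theorem ke4210 : kB (fun u => Nat.beq u (nat_lit 3)) (toL X4210.t []) (nat_lit 7) = true := by decide +kernel
theorem kw5220_2 : wfT S5220_2 1 = true := by decide +kernel
theorem kv4420_1 : wfT L4420_1 1 = true := by decide +kernel
theorem kx5521 : chkB N5521 X5521.t 0 = true := by decide +kernel
theorem kv7422_0 : wfT L7422_0 1 = true := by decide +kernel
theorem kx4444 : chkB N4444 X4444.t 0 = true := by decide +kernel

end Pool.Agent.L3E.GJ
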