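import Pool.Agent.L3E.GJ.Pl

set_option autoImplicit false
set_option maxRecDepth 100000
set_option linter.unusedVariables false
set_option exponentiation.threshold 100000

/-! # L3E, module GJ.C18: kernel checks -/

namespace Pool.Agent.L3E.GJ

theorem kG4211_0 : gChk AT8 30028 [g4211_0] = true := by decide +kernel
theorem kG4311_0 : gChk AT9 30036 [g4311_0] = true := by decide +kernel
theorem kG5221_0 : gChk AT10 30045 [g5221_0] = true := by decide +kernel
theorem kG3331_0 : gChk AT10 30051 [g3331_0] = true := by decide +kernel
theorem kG5222_2 : gChk AT11 30055 [g5222_2] = true := by decide +kernel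
theorem kG4322_9 : gChk AT11 30058 [g4322_9] = true := by decide +kernel
theorem kG3332_16 : gChk AT11 30059 [g3332_16] = true := by decide +kernel
theorem kS3111_3 : chk2 (fun m => appM N3111 (rowL pS3111_3 m)) X3111.t S3111_3.t = true := by decide +kernel
theorem kS3221_2_128 : chk2 (fun m => appM N3221 (rowL pS3221_2 m)) X3221c128 S3221_2c128 = true := by decide +kernel
theorem kS4311_3 : chk2 (fun m => appM N4311 (rowL pS4311_3 m)) X4311.t S4311_3.t = true := by decide +kernel
theorem kS4222_2_64 : chk2 (fun m => appM N4222 (rowL pS4222_2 m)) X4222c64 S4222_2c64 = true := by decide +kernel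
theorem kS3322_1_576 : chk2 (fun m => appM N3322 (rowL pS3322_1 m)) X3322c576 S3322_1c576 = true := by decide +kernel
theorem kS4322_3_256 : chk2 (fun m => appM N4322 (rowL pS4322_3 m)) X4322c256 S4322_3c256 = true := by decide +kernel
theorem kS3332_2_576 : chk2 (fun m => appM N3332 (rowL pS3332_2 m)) X3332c576 S3332_2c576 = true := by decide +kernel
theorem kS3333_1_256 : chk2 (fun m => appM N3333 (rowL pS3333_1 m)) X3333c256 S3333_1c256 = true := by decide +kernel
theorem kS3333_3_0 : chk2 (fun m => appM N3333 (rowL pS3333_3 m)) X3333c0 S3333_3c0 = true := by decide +kernel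
theorem kS4333_3_0 : chk2 (fun m => appM N4333 (rowL pS4333_3 m)) X4333c0 S4333_3c0 = true := by decide +kernel
theorem kL2111_3 : chk2 (fun m => appM N2111 (rowL pL2111_3 m)) X2110.t L2111_3.t = true := by decide +kernel
theorem kL5111_0 : chk2 (fun m => appM N5111 (rowL pL5111_0 m)) X4111.t L5111_0.t = true := by decide +kernel
theorem kL4221_0_64 : chk2 (fun m => appM N4221 (rowL pL4221_0 m)) X3221c64 L4221_0c64 = true := by decide +kernel
theorem kL5320_1 : chk2 (fun m => appM N5320 (rowL pL5320_1 m)) X5220.t L5320_1.t = true := by decide +kernel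
theorem kL4222_0_448 : chk2 (fun m => appM N4222 (rowL pL4222_0 m)) X3222c448 L4222_0c448 = true := by decide +kernel
theorem kL5321_0_0 : chk2 (fun m => appM N5321 (rowL pL5321_0 m)) X4321c0 L5321_0c0 = true := by decide +kernel
theorem kL4322_0_256 : chk2 (fun m => appM N4322 (rowL pL4322_0 m)) X3322c256 L4322_0c256 = true := by decide +kernel
theorem kL3332_2_64 : chk2 (fun m => appM N3332 (rowL pL3332_2 m)) X3322c64 L3332_2c64 = true := by decide +kernel
theorem kL5322_0_0 : chk2 (fun m => appM N5322 (rowL pL5322_0 m)) X4322c0 L5322_0c0 = true := by decide +kernel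
theorem km4332_2 : kM (appM R4332) (fun u => Nat.beq u (nat_lit 0xb8002e814921a003812d6fffedfd5ffd5cbe34fa9ffffffad75c2c09424000050000000300405a01bde6add7f7f827ffc907e53dff7ffbfdff7eafa72bfcf3bfef847dde3fffcffbffeff5effffe0ffbfffefff7fbfeff7f5ff7f9e77fdf08fbfc0000000000000000000000002fa9880ea6012420000400405010100000)) M4332_2 (nat_lit 0x7ffeb5d70b025094901008022c000000000001d85710e13b06b8002e814921a003812d6fffedfd5ffd5cbe34fa9ffffffad75c2c09424000050000000300405a01bde6add7f7f827ffc907e53dff7ffbfdff7eafa72bfcf3bfef847dde3fffcffbffeff5effffe0ffbfffefff7fbfeff7f5ff7f9e77fdf08fbfc0000000000000000000000002fa9880ea6012420000400405010100000) = true := by decide +kernel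
theorem kL4332_2_128 : chk2 (fun m => appM N4332 (rowL pL4332_2 m)) X4322c128 L4332_2c128 = true := by decide +kernel
theorem km3333_19 : kM (appM R3333) (fun u => Nat.beq u (nat_lit 0x77f53469f7f5ff3fbef931812ff01c80c817fffd7fffffffffff7fffdffffe7fdfefebfeff7fffffff5fffb)) M3333_19 (nat_lit 0x1a2a7effff9f6ffbffd4ff7f53469f7f5ff3fbef931812ff01c80c817fffd7fffffffffff7fffdffffe7fdfefebfeff7fffffff5fffb) = true := by decide +kernel
theorem kL5431_0 : chk2 (fun m => appM N5431 (rowL pL5431_0 m)) X4431.t L5431_0.t = true := by decide +kernel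
theorem kL4432_3 : chk2 (fun m => appM N4432 (rowL pL4432_3 m)) X4431.t L4432_3.t = true := by decide +kernel
theorem kL4333_0_704 : chk2 (fun m => appM N4333 (rowL pL4333_0 m)) X3333c704 L4333_0c704 = true := by decide +kernel
theorem kL4442_2 : chk2 (fun m => appM N4442 (rowL pL4442_2 m)) X4432.t L4442_2.t = true := by decide +kernel
theorem km4432_0 : kM (appM R4432) (fun u => Nat.beq u (nat_lit 0)) M4432_0 (nat_lit 0x638082100a00220108c2e144200030000240410000000000000000000000000000000000000000040200180a0000004100444202000004808200000000000000000000000000000000000000000804003014000000820088840400) = true := by decide +kernel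
theorem kc3222_48 : coreNF N3222 (rawOf F3222) (toL R3222c48 []) C3222_48 = true := by decide +kernel
theorem kc3331_48 : coreNF N3331 (rawOf F3331) (toL R3331c48 []) C3331_48 = true := by decide +kernel
theorem kc3322_240 : coreNF N3322 (rawOf F3322) (toL R3322c240 []) C3322_240 = true := by decide +kernel
theorem kc4322_80 : coreNF N4322 (rawOf F4322) (toL R4322c80 []) C4322_80 = true := by decide +kernel
theorem kc3332_48 : coreNF N3332 (rawOf F3332) (toL R3332c48 []) C3332_48 = true := by decide +kernel
theorem kc3332_432 : coreNF N3332 (rawOf F3332) (toL R3332c432 []) C3332_432 = true := by decide +kernel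
theorem kp6222_0 : kR N6222 (rawOf F6222) (fun u => Nat.beq u (nat_lit 0x29787ebcffa0014084800f40860b37d)) P6222_0 (nat_lit 0xc297e7ebffffffffffffffffffffffff) = true := by decide +kernel
theorem kc4422_128 : coreNF N4422 (rawOf F4422) (toL R4422c128 []) C4422_128 = true := by decide +kernel
theorem kc4332_176 : coreNF N4332 (rawOf F4332) (toL R4332c176 []) C4332_176 = true := by decide +kernel
theorem kc4332_560 : coreNF N4332 (rawOf F4332) (toL R4332c560 []) C4332_560 = true := by decide +kernel
theorem kc3333_96 : coreNF N3333 (rawOf F3333) (toL R3333c96 []) C3333_96 = true := by decide +kernel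
theorem kc3333_480 : coreNF N3333 (rawOf F3333) (toL R3333c480 []) C3333_480 = true := by decide +kernel
theorem kc3333_864 : coreNF N3333 (rawOf F3333) (toL R3333c864 []) C3333_864 = true := by decide +kernel
theorem kc3333_1248 : coreNF N3333 (rawOf F3333) (toL R3333c1248 []) C3333_1248 = true := by decide +kernel
theorem kp3333_5 : kR N3333 (rawOf F3333) (fun u => Nat.beq u (nat_lit 0x68c50394081833981cc430c9800000020803422de76c009aa20a6000000000072002020016200961932fbfea9fffffe7dbffffffffffffffe7fff7fcfffbe4c604bfc073c3265ffffdfffffffffffffffffffffffffffffffffffffffffd7fffc1a3140e502060ce607310c02600000008200d08b79db0026a882980000000001c80080800588025864cbeff2a7fffff9f6fffffffffffffff9fffdff3ffef931812ff01cf0c997ffff7fffffffffffffffffffffffffffffffffffffffff5ffff040450390081833981cc03001800000020803422de76c009aa20a6000000000072002020016200961932fbfca9fffffe7dbffffffffffffffe7fff7fcfffbe4c604bfc073c3265ffffdfffffffffffffffffffffffffffffffffffffffffd7fffc1a3140e502060ce607310c32600000008200d08b79db0026a882980000000001c80080800588025864cbeffaa7fffff9f6fffffffffffffff9fffdff3ffef931812ff01cf0c997ffff7fffffffffffffffffffffffffffffffffffffffff5ffff))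 P3333_5 (nat_lit 0x68c50394081833981cc430c9800000020803422de76c009aa20a6000000000072002020016200961932fbfea9fffffe7dbffffffffffffffe7fff7fcfffbe4c604bfc073c3265ffffdfffffffffffffffffffffffffffffffffffffffffd7fffc1e7173e79677ecfed7f50c32600000008200d08b79db0026a882980000000001c8008080058802ff7edbeffaa7fffff9f6fffffffffffffff9fffdff3ffef931812ff01dfefdb7ffff7fffffffffffffffffffffffffffffffffffffffff5ffff079c5cf9e581833981cc430c9800000020803422de76c009aa20a6000000000072002020016200961932fbfea9fffffe7dbffffffffffffffe7fff7fcfffbe4c604bfc073c3265ffffdfffffffffffffffffffffffffffffffffffffffffd7fffc1a3140e502060ce607310c32600000008200d08b79db0026a882980000000001c80080800588025864cbeffaa7fffff9f6fffffffffffffff9fffdff3ffef931812ff01cf0c997ffff7fffffffffffffffffffffffffffffffffffffffff5ffff) = true := by decide +kernel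
theorem kp4432_5 : kR N4432 (rawOf F4432) (fun u => Nat.beq u (nat_lit 0x840000e380a2d21a003a81dff7e7e434007409024c61d56822d7ff643fd77020000000000000818080000437eaffff1fdf99d563fdeb9bce1204b8c3a8d0453fdac87f2ee040000000000001030000001c3fd5fffe7f3f33fff7fbf7379c)) P4432_5 (nat_lit 0x1ae40000e3c1f2d23a033a81fff7f7e674007509025c61d57822dffff43fd772200000000000009380a0000f3febffff3fdfb9fffffdfbbfce1204b8c3aaf045bfffe87faee440000000000001270140001e7fd7fffe7fbf73fffffbf77f9c) = true := by decide +kernel
theorem kc4333_304 : coreNF N4333 (rawOf F4333) (toL R4333c304 []) C4333_304 = true := by decide +kernel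
theorem kc4333_688 : coreNF N4333 (rawOf F4333) (toL R4333c688 []) C4333_688 = true := by decide +kernel
theorem kc4433_0 : coreNF N4433 (rawOf F4433) (toL R4433c0 []) C4433_0 = true := by decide +kernel
theorem kw3332_1 : wfT S3332_1 774 = true := by decide +kernel
theorem ke3222 : kB (fun u => Nat.beq u (nat_lit 0xff0000000000000000004f7ff901413ffc07ff0000000000000000004f7ff901413ffc07ff0000000000000000004f7ff901413ffc07000000000000000000007e00020000205780000000078ffe40f017658ef87fd6cb3df3fffffffffffffffffffffffffffff)) (toL X3222.t []) (nat_lit 0xfffffffffffffffffffffffffffffffffffffffffffffffffffffffffffffffffffffffffffffffffffffffffffffffffffffffffffffffffffffffffffffffffffffffffffffffffffffffffffffffffffffffffffffffffffffffffffffffffffffffffffffff) = true := by decide +kernel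
theorem kw2222_3 : wfT S2222_3 396 = true := by decide +kernel
theorem ke4332 : kB (fun u => Nat.beq u (nat_lit 0x3df8d260417ac8b1fffffffffff7e15ceb85ed1fffffbb8fbea6c00f0dfffffffffffffffff8dffbffffffffff7fffff3f498105eb22c7ffffffffffdf8573ae17b47ffffeee3efa9b003c37ffffffffffffffffe37feffffffffffdfffffcfd000050000058300405a01bdfeafd7fff827ffc9ffe53dff7ffbfffffeefe72bfff7ffffffffdffffffffffffff5fffffffffffffffff7ffffffffdfffffffffffffffffffffffffffffffffffffffffffffffffffffffffffffffffffffffffff)) (toL X4332.t []) (nat_lit 0x7fffffffffffffffffffffffffffffffffffffffffffffffffffffffffffffffffffffffffffffffffffffffffffffffffffffffffffffffffffffffffffffffffffffffffffffffffffffffffffffffffffffffffffffffffffffffffffffffffffffffffffffffffffffffffffffffffffffffffffffffffffffffffffffffffffffffffffffffffffffffffffffffffffffffffffffffffffffffffffffffffffffffffffffffffffffffffffffffffffffffffffffffffffffffffffffffffffff) = true := by decide +kernel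
theorem kx3222_448 : chkB N3222 X3222c448 (nat_lit 448) = true := by decide +kernel
theorem kx4322_0 : chkB N4322 X4322c0 (nat_lit 0) = true := by decide +kernel
theorem kx4332_0 : chkB N4332 X4332c0 (nat_lit 0) = true := by decide +kernel
theorem km4332_11 : kM (appM R4332) (fun u => Nat.beq u (nat_lit 0)) M4332_11 (nat_lit 0x12420000400405010100000) = true := by decide +kernel
theorem kw4422_3 : wfT S4422_3 154 = true := by decide +kernel
theorem ke2221 : kB (fun u => Nat.beq u (nat_lit 0x3f0100001128bf03f0100001128bf03f0100001128bf)) (toL X2221.t []) (nat_lit 0xffffffffffffffffffffffffffffffffffffffffffffffff) = true := by decide +kernel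
theorem kx6222 : chkB N6222 X6222.t 0 = true := by decide +kernel
theorem kv4331_2 : wfT L4331_2 68 = true := by decide +kernel
theorem kx4311 : chkB N4311 X4311.t 0 = true := by decide +kernel
theorem ka3100 : (wfT N3100 1 && wfT R3100 1) = true := by decide +kernel
theorem ka5210 : (wfT N5210 1 && wfT R5210 1) = true := by decide +kernel
theorem ka5320 : (wfT N5320 2 && wfT R5320 1) = true := by decide +kernel
theorem kv5331_0 : wfT L5331_0 37 = true := by decide +kernel
theorem ka5333 : (wfT N5333 293 && wfT R5333 16) = true := by decide +kernel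
theorem ke3111 : kB (fun u => Nat.beq u (nat_lit 262143)) (toL X3111.t []) (nat_lit 0x3ffffffffff) = true := by decide +kernel
theorem kx3320 : chkB N3320 X3320.t 0 = true := by decide +kernel
theorem kv6333_0 : wfT L6333_0 22 = true := by decide +kernel
theorem kp7422_0 : kR N7422 (rawOf F7422) (fun u => Nat.beq u (nat_lit 0)) P7422_0 (nat_lit 1) = true := by decide +kernel
theorem kv2200_1 : wfT L2200_1 1 = true := by decide +kernel
theorem kv4210_0 : wfT L4210_0 3 = true := by decide +kernel
theorem kv5220_0 : wfT L5220_0 5 = true := by decide +kernel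
theorem kx4411 : chkB N4411 X4411.t 0 = true := by decide +kernel
theorem kv5521_1 : wfT L5521_1 1 = true := by decide +kernel
theorem kx6522 : chkB N6522 X6522.t 0 = true := by decide +kernel
theorem kv4444_3 : wfT L4444_3 6 = true := by decide +kernel

end Pool.Agent.L3E.GJ
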