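import Pool.Agent.L3E.GJ.Pl

set_option autoImplicit false
set_option maxRecDepth 100000
set_option linter.unusedVariables false
set_option exponentiation.threshold 100000

/-! # L3E, module GJ.C19: kernel checks -/

namespace Pool.Agent.L3E.GJ

theorem kG4211_1 : gChk AT8 30028 [g4211_1] = true := by decide +kernel
theorem kG4221_0 : gChk AT9 30037 [g4221_0] = true := by decide +kernel
theorem kG5221_1 : gChk AT10 30045 [g5221_1] = true := by decide +kernel
theorem kG3331_1 : gChk AT10 30051 [g3331_1] = true := by decide +kernel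
theorem kG5222_3 : gChk AT11 30055 [g5222_3] = true := by decide +kernel
theorem kG4322_10 : gChk AT11 30058 [g4322_10] = true := by decide +kernel
theorem kG3332_17 : gChk AT11 30059 [g3332_17] = true := by decide +kernel
theorem kS2220_1 : chk2 (fun m => appM N2220 (rowL pS2220_1 m)) X2220.t S2220_1.t = true := by decide +kernel
theorem kS2222_1_0 : chk2 (fun m => appM N2222 (rowL pS2222_1 m)) X2222c0 S2222_1c0 = true := by decide +kernel
theorem kS4221_2_0 : chk2 (fun m => appM N4221 (rowL pS4221_2 m)) X4221c0 S4221_2c0 = true := by decide +kernel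
theorem kS4222_2_128 : chk2 (fun m => appM N4222 (rowL pS4222_2 m)) X4222c128 S4222_2c128 = true := by decide +kernel
theorem kS3322_3_0 : chk2 (fun m => appM N3322 (rowL pS3322_3 m)) X3322c0 S3322_3c0 = true := by decide +kernel
theorem kS4322_3_320 : chk2 (fun m => appM N4322 (rowL pS4322_3 m)) X4322c320 S4322_3c320 = true := by decide +kernel
theorem kS3332_2_640 : chk2 (fun m => appM N3332 (rowL pS3332_2 m)) X3332c640 S3332_2c640 = true := by decide +kernel
theorem kS3333_1_320 : chk2 (fun m => appM N3333 (rowL pS3333_1 m)) X3333c320 S3333_1c320 = true := by decide +kernel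
theorem kS3333_3_64 : chk2 (fun m => appM N3333 (rowL pS3333_3 m)) X3333c64 S3333_3c64 = true := by decide +kernel
theorem kS4333_3_64 : chk2 (fun m => appM N4333 (rowL pS4333_3 m)) X4333c64 S4333_3c64 = true := by decide +kernel
theorem kL4110_0 : chk2 (fun m => appM N4110 (rowL pL4110_0 m)) X3110.t L4110_0.t = true := by decide +kernel
theorem kL4310_1 : chk2 (fun m => appM N4310 (rowL pL4310_1 m)) X4210.t L4310_1.t = true := by decide +kernel
theorem kL4221_0_128 : chk2 (fun m => appM N4221 (rowL pL4221_0 m)) X3221c128 L4221_0c128 = true := by decide +kernel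
theorem kL5311_0 : chk2 (fun m => appM N5311 (rowL pL5311_0 m)) X4311.t L5311_0.t = true := by decide +kernel
theorem kL4222_3_0 : chk2 (fun m => appM N4222 (rowL pL4222_3 m)) X4221c0 L4222_3c0 = true := by decide +kernel
theorem kL5321_0_64 : chk2 (fun m => appM N5321 (rowL pL5321_0 m)) X4321c64 L5321_0c64 = true := by decide +kernel
theorem kL4322_0_320 : chk2 (fun m => appM N4322 (rowL pL4322_0 m)) X3322c320 L4322_0c320 = true := by decide +kernel
theorem kL3332_2_128 : chk2 (fun m => appM N3332 (rowL pL3332_2 m)) X3322c128 L3332_2c128 = true := by decide +kernel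
theorem kL5322_0_64 : chk2 (fun m => appM N5322 (rowL pL5322_0 m)) X4322c64 L5322_0c64 = true := by decide +kernel
theorem km4332_3 : kM (appM R4332) (fun u => Nat.beq u (nat_lit 0x15cbe34fa9ffffffad75c2c09424000050000000300405a01bde6add7f7f827ffc907e53dff7ffbfdff7eafa72bfcf3bfef847dde3fffcffbffeff5effffe0ffbfffefff7fbfeff7f5ff7f9e77fdf08fbfc0000000000000000000000002fa9880ea6012420000400405010100000)) M4332_3 (nat_lit 0xb8002e814921a003812d6fffedfd5ffd5cbe34fa9ffffffad75c2c09424000050000000300405a01bde6add7f7f827ffc907e53dff7ffbfdff7eafa72bfcf3bfef847dde3fffcffbffeff5effffe0ffbfffefff7fbfeff7f5ff7f9e77fdf08fbfc0000000000000000000000002fa9880ea6012420000400405010100000) = true := by decide +kernel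
theorem kL4332_2_192 : chk2 (fun m => appM N4332 (rowL pL4332_2 m)) X4322c192 L4332_2c192 = true := by decide +kernel
theorem km3333_20 : kM (appM R3333) (fun u => Nat.beq u (nat_lit 0xff01c80c817fffd7fffffffffff7fffdffffe7fdfefebfeff7fffffff5fffb)) M3333_20 (nat_lit 0x77f53469f7f5ff3fbef931812ff01c80c817fffd7fffffffffff7fffdffffe7fdfefebfeff7fffffff5fffb) = true := by decide +kernel
theorem kL5431_2 : chk2 (fun m => appM N5431 (rowL pL5431_2 m)) X5421.t L5431_2.t = true := by decide +kernel
theorem km4333_0 : kM (appM R4333) (fun u => Nat.beq u (nat_lit 0xc00100000000040a0960012cc442023a0386a00604b41004c420a00000000040201a080000a3800200000000081412c0025988840474070d400c0968200988414000000a2fdbbfedeb7bf9a7f3ea00403f7bfffff5ffdf7fdfffe7ffffffffffbfffffbfffffdbfeeff737fffffffffffffffffffe7ffffffffffbffffffffffffffffffffffffbfffffffffffffffffffb2fa0c54280801fd0038004928000101028001008009007602200)) M4333_0 (nat_lit 0x10080682000028e00080000000020504b000966221011d01c35003025a08026210500000000020100d04000051c00100000000040a0960012cc442023a0386a00604b41004c420a00000000040201a080000a3800200000000081412c0025988840474070d400c0968200988414000000a2fdbbfedeb7bf9a7f3ea00403f7bfffff5ffdf7fdfffe7ffffffffffbfffffbfffffdbfeeff737fffffffffffffffffffe7ffffffffffbffffffffffffffffffffffffbfffffffffffffffffffb2fa0c54280801fd0038004928000101028001008009007602200)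 = true := by decide +kernel
theorem kL4333_0_768 : chk2 (fun m => appM N4333 (rowL pL4333_0 m)) X3333c768 L4333_0c768 = true := by decide +kernel
theorem kL4433_1_0 : chk2 (fun m => appM N4433 (rowL pL4433_1 m)) X4333c0 L4433_1c0 = true := by decide +kernel
theorem km5222_0 : kM (appM R5222) (fun u => Nat.beq u (nat_lit 0)) M5222_0 (nat_lit 0x20208c501882ca1e981f392ef207ac7a60000000000000000000000000000000000000000000000) = true := by decide +kernel
theorem kc3222_0 : coreNF N3222 (rawOf F3222) (toL R3222c0 []) C3222_0 = true := by decide +kernel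
theorem kc3331_0 : coreNF N3331 (rawOf F3331) (toL R3331c0 []) C3331_0 = true := by decide +kernel
theorem kc3322_192 : coreNF N3322 (rawOf F3322) (toL R3322c192 []) C3322_192 = true := by decide +kernel
theorem kc4322_32 : coreNF N4322 (rawOf F4322) (toL R4322c32 []) C4322_32 = true := by decide +kernel
theorem kc3332_0 : coreNF N3332 (rawOf F3332) (toL R3332c0 []) C3332_0 = true := by decide +kernel
theorem kc3332_384 : coreNF N3332 (rawOf F3332) (toL R3332c384 []) C3332_384 = true := by decide +kernel
theorem kp3332_8 : kR N3332 (rawOf F3332) (fun u => Nat.beq u (nat_lit 0xc130010800000000000000000000000000000000000000000000000000048068350902d0208000206faa85aaf558a0520a2caf2c0700f2506edaffeafeffffedf6ebaa91bebbffabd56281efbabfbffbdf8ffdf0000000000000000000000000000000000000000000000000001201a0d4240b4082000081beaa16abd562814828a2bcb01403c941bb6bffabfbffffb7daaeaa46faeffeaf558a073eaa8affef5e3ff7400000000000000000000000000000000000000000000000000048068350902d0208000206faa85aaf558a0520a28af2c0500f2506edaffeafeffffedf6abaa91bebbffabd56281cfaaa2bffbd78ffdd))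 P3332_8 (nat_lit 0x6b010000019adc5fc013c00000000000000000000000000000000000000000001000000048068350902d0208000206faa85aaf558a0520a2daf2c0700f2506edaffeafefffffdfeebae91bfbbffabd56281efbabfbffbdfaffdf0000000000000000000000000000000000000000000040000001201a0d4240b4082000081beaa16abd562814828b6bcb01c03c941bb6bffabfbfffff7fbaeba46feeffeaf558a07beeafeffef7ebff7c00000000000000000000000000000000000000000001000000048068350902d0208000206faa85aaf558a0520a2daf2c0700f2506edaffeafeffffedfeebae91bfbbffabd56281efbabfbffbdfaffdf) = true := by decide +kernel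
theorem kc4422_80 : coreNF N4422 (rawOf F4422) (toL R4422c80 []) C4422_80 = true := by decide +kernel
theorem kc4332_128 : coreNF N4332 (rawOf F4332) (toL R4332c128 []) C4332_128 = true := by decide +kernel
theorem kc4332_512 : coreNF N4332 (rawOf F4332) (toL R4332c512 []) C4332_512 = true := by decide +kernel
theorem kc3333_48 : coreNF N3333 (rawOf F3333) (toL R3333c48 []) C3333_48 = true := by decide +kernel
theorem kc3333_432 : coreNF N3333 (rawOf F3333) (toL R3333c432 []) C3333_432 = true := by decide +kernel
theorem kc3333_816 : coreNF N3333 (rawOf F3333) (toL R3333c816 []) C3333_816 = true := by decide +kernel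
theorem kc3333_1200 : coreNF N3333 (rawOf F3333) (toL R3333c1200 []) C3333_1200 = true := by decide +kernel
theorem kp3333_2 : kR N3333 (rawOf F3333) (fun u => Nat.beq u (nat_lit 0x79c5cf9e59dfb3fb5fd430c9800000020803422de76c009aa20a6000000000072002020016200bfdfb6fbfea9fffffe7dbffffffffffffffe7fff7fcfffbe4c604bfc077fbf6dffffdfffffffffffffffffffffffffffffffffffffffffd7fffc1e7173e79677ecfed7f50c32600000008200d08b79db0026a882980000000001c8008080058802ff7edbeffaa7fffff9f6fffffffffffffff9fffdff3ffef931812ff01dfefdb7ffff7fffffffffffffffffffffffffffffffffffffffff5ffff27bf7cf9e59ffffffffd430c9800000020803422de76c009aa20a6000000000072002020016200bfdfb6fbfea9fffffe7dbffffffffffffffe7fff7fcfffbe4c604bfc077fbf6dffffdfffffffffffffffffffffffffffffffffffffffffd7fffc1e7173e79677ecfed7f50c32600000008200d08b79db0026a882980000000001c8008080058802ff7edbeffaa7fffff9f6fffffffffffffff9fffdff3ffef931812ff01dfefdb7ffff7fffffffffffffffffffffffffffffffffffffffff5ffff)) P3333_2 (nat_lit 0x27bf7cf9e59ffffffffd430c9800000020803422de76c009aa20a6000000000072002020016200bfdfb6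fbfea9fffffe7dbffffffffffffffe7fff7fcfffbe4c604bfc077fbf6dffffdfffffffffffffffffffffffffffffffffffffffffd7fffc1e7173e79677ecfed7f50c32600000008200d08b79db0026a882980000000001c8008080058802ff7edbeffaa7fffff9f6fffffffffffffff9fffdff3ffef931812ff01dfefdb7ffff7fffffffffffffffffffffffffffffffffffffffff5ffff67bffcffff9ffffffffd57efda00000020803422de76c009aa20a6000000000072002020016200bfdfb6fbfea9fffffe7dbffffffffffffffe7fff7fcfffbe4c604bfc07fffffdffffdfffffffffffffffffffffffffffffffffffffffffd7fffd9efff3fffe7ffffffff55fbf680000008200d08b79db0026a882980000000001c8008080058802ff7edbeffaa7fffff9f6fffffffffffffff9fffdff3ffef931812ff01ffffff7ffff7fffffffffffffffffffffffffffffffffffffffff5ffff) = true := by decide +kernel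
theorem kp4432_2 : kR N4432 (rawOf F4432) (fun u => Nat.beq u (nat_lit 0x5ae60008f3c1f6d23a2bffb1fff7ffe67457ff4d8a5df1f5fc2adffff67ffffe2961301a080241b3adb3838fbfffffff7fffbdffffffffffff9b14bbe3ebf855bfffecfffffc52c26030100481674b63071f7fdffffe7fff73ffffffffffff)) P4432_2 (nat_lit 0x7fe69f8df3c5f6d63fbbffb5fff7fff674dfff4d9a7df3fdfcbadffffffffffe2961369b48a2d7fbbfffdfafbfffffff7fffffffffffffffff9f14bbe3ebf855bfffecfffffc52c26034100483675b67071f7ffffffeffff7bffffffffffff) = true := by decide +kernel
theorem kc4333_256 : coreNF N4333 (rawOf F4333) (toL R4333c256 []) C4333_256 = true := by decide +kernel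
theorem kc4333_640 : coreNF N4333 (rawOf F4333) (toL R4333c640 []) C4333_640 = true := by decide +kernel
theorem kp5333_2 : kR N5333 (rawOf F5333) (fun u => Nat.beq u (nat_lit 0x80068001000d8002001b000820688042076f05100840a5e0a385107d18721b55c809e0)) P5333_2 (nat_lit 0x40a801fd9b5013fb16a007f128a2c69b072576f8d362e4aeff1a7c5d17d18fa1bf5c809e0) = true := by decide +kernel
theorem kw3333_3 : wfT S3333_3 848 = true := by decide +kernel
theorem kv3332_2 : wfT L3332_2 638 = true := by decide +kernel
theorem kv4322_1 : wfT L4322_1 366 = true := by decide +kernel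
theorem kx2222_0 : chkB N2222 X2222c0 (nat_lit 0) = true := by decide +kernel
theorem kx3222_128 : chkB N3222 X3222c128 (nat_lit 128) = true := by decide +kernel
theorem kx3322_512 : chkB N3322 X3322c512 (nat_lit 512) = true := by decide +kernel
theorem kx5322_0 : chkB N5322 X5322c0 (nat_lit 0) = true := by decide +kernel
theorem kx4333_0 : chkB N4333 X4333c0 (nat_lit 0) = true := by decide +kernel
theorem kp5443_0 : kR N5443 (rawOf F5443) (fun u => Nat.beq u (nat_lit 0)) P5443_0 (nat_lit 1023) = true := by decide +kernel
theorem kw5222_3 : wfT S5222_3 132 = true := by decide +kernel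
theorem km6322_0 : kM (appM R6322) (fun u => Nat.beq u (nat_lit 0)) M6322_0 (nat_lit 0x800010a0000000000) = true := by decide +kernel
theorem kv4322_3 : wfT L4322_3 68 = true := by decide +kernel
theorem kp6211_0 : kR N6211 (rawOf F6211) (fun u => Nat.beq u (nat_lit 0)) P6211_0 (nat_lit 7) = true := by decide +kernel
theorem ka2200 : (wfT N2200 2 && wfT R2200 1) = true := by decide +kernel
theorem ka5111 : (wfT N5111 5 && wfT R5111 1) = true := by decide +kernel
theorem ka5311 : (wfT N5311 13 && wfT R5311 1) = true := by decide +kernel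
theorem ka5322 : (wfT N5322 526 && wfT R5322 155) = true := by decide +kernel
theorem ka4442 : (wfT N4442 174 && wfT R4442 1) = true := by decide +kernel
theorem kw3111_2 : wfT S3111_2 24 = true := by decide +kernel
theorem kv5211_0 : wfT L5211_0 21 = true := by decide +kernel
theorem kv5433_1 : wfT L5433_1 22 = true := by decide +kernel
theorem kp6522_0 : kR N6522 (rawOf F6522) (fun u => Nat.beq u (nat_lit 0)) P6522_0 (nat_lit 1) = true := by decide +kernel
theorem ke2110 : kB (fun u => Nat.beq u (nat_lit 3)) (toL X2110.t []) (nat_lit 255) = true := by decide +kernel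
theorem ke4111 : kB (fun u => Nat.beq u (nat_lit 524287)) (toL X4111.t []) (nat_lit 0xffffff) = true := by decide +kernel
theorem ke5211 : kB (fun u => Nat.beq u (nat_lit 262143)) (toL X5211.t []) (nat_lit 0x1fffff) = true := by decide +kernel
theorem kx4330 : chkB N4330 X4330.t 0 = true := by decide +kernel
theorem kx5431 : chkB N5431 X5431.t 0 = true := by decide +kernel
theorem kv6522_1 : wfT L6522_1 1 = true := by decide +kernel

end Pool.Agent.L3E.GJ
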