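import Pool.Agent.L3E.GJ.Pl

set_option autoImplicit false
set_option maxRecDepth 100000
set_option linter.unusedVariables false
set_option exponentiation.threshold 100000

/-! # L3E, module GJ.C2: kernel checks -/

namespace Pool.Agent.L3E.GJ

theorem kG2210_0 : gChk AT5 30011 [g2210_0] = true := by decide +kernel
theorem kG3221_2 : gChk AT8 30031 [g3221_2] = true := by decide +kernel
theorem kG3321_2 : gChk AT9 30039 [g3321_2] = true := by decide +kernel
theorem kG4321_4 : gChk AT10 30049 [g4321_4] = true := by decide +kernel
theorem kG3322_2 : gChk AT10 30052 [g3322_2] = true := by decide +kernel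
theorem kG5222_10 : gChk AT11 30055 [g5222_10] = true := by decide +kernel
theorem kG3332_0 : gChk AT11 30059 [g3332_0] = true := by decide +kernel
theorem kS1000_2 : chk2 (fun m => appM N1000 (rowL pS1000_2 m)) X1000.t S1000_2.t = true := by decide +kernel
theorem kS4111_3 : chk2 (fun m => appM N4111 (rowL pS4111_3 m)) X4111.t S4111_3.t = true := by decide +kernel
theorem kS2222_2_0 : chk2 (fun m => appM N2222 (rowL pS2222_2 m)) X2222c0 S2222_2c0 = true := by decide +kernel
theorem kS3222_2_128 : chk2 (fun m => appM N3222 (rowL pS3222_2 m)) X3222c128 S3222_2c128 = true := by decide +kernel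
theorem kS4222_3_192 : chk2 (fun m => appM N4222 (rowL pS4222_3 m)) X4222c192 S4222_3c192 = true := by decide +kernel
theorem kS3322_3_448 : chk2 (fun m => appM N3322 (rowL pS3322_3 m)) X3322c448 S3322_3c448 = true := by decide +kernel
theorem kS3332_1_384 : chk2 (fun m => appM N3332 (rowL pS3332_1 m)) X3332c384 S3332_1c384 = true := by decide +kernel
theorem kS4431_1 : chk2 (fun m => appM N4431 (rowL pS4431_1 m)) X4431.t S4431_1.t = true := by decide +kernel
theorem kS3333_1_768 : chk2 (fun m => appM N3333 (rowL pS3333_1 m)) X3333c768 S3333_1c768 = true := by decide +kernel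
theorem kS3333_3_512 : chk2 (fun m => appM N3333 (rowL pS3333_3 m)) X3333c512 S3333_3c512 = true := by decide +kernel
theorem kS4433_3 : chk2 (fun m => appM N4433 (rowL pS4433_3 m)) X4433.t S4433_3.t = true := by decide +kernel
theorem kL3311_1 : chk2 (fun m => appM N3311 (rowL pL3311_1 m)) X3211.t L3311_1.t = true := by decide +kernel
theorem kL3321_2 : chk2 (fun m => appM N3321 (rowL pL3321_2 m)) X3311.t L3321_2.t = true := by decide +kernel
theorem kL4411_1 : chk2 (fun m => appM N4411 (rowL pL4411_1 m)) X4311.t L4411_1.t = true := by decide +kernel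
theorem km3322_0 : kM (appM R3322) (fun u => Nat.beq u (nat_lit 0x1d57ffb483bcc3796d61b7ffaf7599e000000000000000000000000000000000000000141122000800000000000000000000000001085a0106e401596d00bbeabffda41de61bcb6b0dbffd7baccf)) M3322_0 (nat_lit 0x80002f38440108800000000000000000000080002f3844010880000000000000000000000000000000000000000028224400100000000000000000000000000210b4020dc802b2da0177d57ffb483bcc3796d61b7ffaf7599e000000000000000000000000000000000000000141122000800000000000000000000000001085a0106e401596d00bbeabffda41de61bcb6b0dbffd7baccf) = true := by decide +kernel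
theorem kL5222_0_320 : chk2 (fun m => appM N5222 (rowL pL5222_0 m)) X4222c320 L5222_0c320 = true := by decide +kernel
theorem kL4322_1_128 : chk2 (fun m => appM N4322 (rowL pL4322_1 m)) X4222c128 L4322_1c128 = true := by decide +kernel
theorem kL3332_2_576 : chk2 (fun m => appM N3332 (rowL pL3332_2 m)) X3322c576 L3332_2c576 = true := by decide +kernel
theorem kL5322_1_128 : chk2 (fun m => appM N5322 (rowL pL5322_1 m)) X5222c128 L5322_1c128 = true := by decide +kernel
theorem km4332_10 : kM (appM R4332) (fun u => Nat.beq u (nat_lit 0x12420000400405010100000)) M4332_10 (nat_lit 0x77f9e77fdf08fbfc0000000000000000000000002fa9880ea6012420000400405010100000) = true := by decide +kernel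
theorem km3333_3 : kM (appM R3333) (fun u => Nat.beq u (nat_lit 0x7dffff7ffff9ff7fbfaffbfdfffffffd7ffec000000000000000000000000000000008200d08b79db0026a082980000000001c800808005880240640b2fa2a7effff9f6ffbffd4ff7f53469f7f5ff3fbef931812ff01c80c817fffd7fffffffffff7fffdffffe7fdfefebfeff7fffffff5fffb0000000000000000000000000000000020803422de76c009a820a6000000000072002020016200901902cbe8a9fbfffe7dbfefff53fdfd4d1a7dfd7fcfefbe4c604bfc07203205ffff5fffffffffffdffff7ffff9ff7fbfaffbfdfffffffd7ffec000000000000000000000000000000008200d08b79db0026a082980000000001c800808005880240640b2fa2a7effff9f6ffbffd4ff7f53469f7f5ff3fbef931812ff01c80c817fffd7fffffffffff7fffdffffe7fdfefebfeff7fffffff5fffb)) M3333_3 (nat_lit 0x3205ffff5fffffffffffdffff7ffff9ff7fbfaffbfdfffffffd7ffec000000000000000000000000000000008200d08b79db0026a082980000000001c800808005880240640b2fa2a7effff9f6ffbffd4ff7f53469f7f5ff3fbef931812ff01c80c817fffd7fffffffffff7fffdffffe7fdfefebfeff7fffffff5fffb0000000000000000000000000000000020803422de76c009a820a6000000000072002020016200901902cbe8a9fbfffe7dbfefff53fdfd4d1a7dfd7fcfefbe4c604bfc07203205ffff5fffffffffffdffff7ffff9ff7fbfaffbfdfffffffd7ffec000000000000000000000000000000008200d08b79db0026a082980000000001c800808005880240640b2fa2a7effff9f6ffbffd4ff7f53469f7f5ff3fbef931812ff01c80c817fffd7fffffffffff7fffdffffe7fdfefebfeff7fffffff5fffb)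 = true := by decide +kernel
theorem kL3333_3_192 : chk2 (fun m => appM N3333 (rowL pL3333_3 m)) X3332c192 L3333_3c192 = true := by decide +kernel
theorem kL5332_0_0 : chk2 (fun m => appM N5332 (rowL pL5332_0 m)) X4332c0 L5332_0c0 = true := by decide +kernel
theorem km4333_7 : kM (appM R4333) (fun u => Nat.beq u (nat_lit 0x7fffffffbffffffffffffffffffffffffbfffffffffffffffffffb2fa0c54280801fd0038004928000101028001008009007602200)) M4333_7 (nat_lit 0x1ffffffffffffe7ffffffffffbffffffffffffffffffffffffbfffffffffffffffffffb2fa0c54280801fd0038004928000101028001008009007602200) = true := by decide +kernel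
theorem kL8222_0 : chk2 (fun m => appM N8222 (rowL pL8222_0 m)) X7222.t L8222_0.t = true := by decide +kernel
theorem kL6432_0 : chk2 (fun m => appM N6432 (rowL pL6432_0 m)) X5432.t L6432_0.t = true := by decide +kernel
theorem kc2222_16 : coreNF N2222 (rawOf F2222) (toL R2222c16 []) C2222_16 = true := by decide +kernel
theorem kp3222_0 : kR N3222 (rawOf F3222) (fun u => Nat.beq u (nat_lit 0x110000000000000000004b7ff901413ffc07110000000000000000004b7ff901413ffc07530000000000000000004f7ff901413ffc07000000000000000000005c00020000205780000000078bbe40f017658ef87fd6cb3df3ffff902f974838777f6e97f1eef52)) P3222_0 (nat_lit 0xff0000000000000000004f7ff901413ffc07ff0000000000000000004f7ff901413ffc07ff0000000000000000004f7ff901413ffc07000000000000000000007e00020000205780000000078ffe40f017658ef87fd6cb3df3fffffffffffffffffffffffffffff) = true := by decide +kernel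
theorem kc3331_96 : coreNF N3331 (rawOf F3331) (toL R3331c96 []) C3331_96 = true := by decide +kernel
theorem kp3322_2 : kR N3322 (rawOf F3322) (fun u => Nat.beq u (nat_lit 0x80100000000800feff9f401fff100000001080100000000802feff9f401fff100000000000000000000000000181000003a04002822440010000200a1420210292a6a00150218be020dd8fffffe397fdf7ffbe87fcffffff7fffffffffffe00000000000000000000000000c0800000d0200141122000800000050000000140135000a810c5f0106ec7fffff1cbfefbffdf43fe7fffffbffffffffffff)) P3322_2 (nat_lit 0x1080100000000802feff9f401fff100000001080100000000802feff9f401fff100000000020000000000000000181000003a04002822440010080a43a5e20290e97afb2f5ffa18be020dd8fffffe397fdf7ffbe87fcffffff7fffffffffffe00000000100000000000000000c0800001d0200141122000804052152f1014874bd3d050fed0c5f0106ec7fffff1cbfefbffdf43fe7fffffbffffffffffff) = true := by decide +kernel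
theorem kc4322_128 : coreNF N4322 (rawOf F4322) (toL R4322c128 []) C4322_128 = true := by decide +kernel
theorem kc3332_96 : coreNF N3332 (rawOf F3332) (toL R3332c96 []) C3332_96 = true := by decide +kernel
theorem kc3332_480 : coreNF N3332 (rawOf F3332) (toL R3332c480 []) C3332_480 = true := by decide +kernel
theorem kc5322_32 : coreNF N5322 (rawOf F5322) (toL R5322c32 []) C5322_32 = true := by decide +kernel
theorem kc4422_176 : coreNF N4422 (rawOf F4422) (toL R4422c176 []) C4422_176 = true := by decide +kernel
theorem kc4332_224 : coreNF N4332 (rawOf F4332) (toL R4332c224 []) C4332_224 = true := by decide +kernel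
theorem kc4332_608 : coreNF N4332 (rawOf F4332) (toL R4332c608 []) C4332_608 = true := by decide +kernel
theorem kc3333_144 : coreNF N3333 (rawOf F3333) (toL R3333c144 []) C3333_144 = true := by decide +kernel
theorem kc3333_528 : coreNF N3333 (rawOf F3333) (toL R3333c528 []) C3333_528 = true := by decide +kernel
theorem kc3333_912 : coreNF N3333 (rawOf F3333) (toL R3333c912 []) C3333_912 = true := by decide +kernel
theorem kc3333_1296 : coreNF N3333 (rawOf F3333) (toL R3333c1296 []) C3333_1296 = true := by decide +kernel
theorem kp3333_8 : kR N3333 (rawOf F3333) (fun u => Nat.beq u (nat_lit 0x90000001901cc00000000000020803422de76c009aa20a6000000000072002020016200901902fbeca9fffffe7dbfefff73fdfd4fda7ffd7fcfffbe4c604bfc07303205ffffdfffffffffffdfffffffffdffffffeffffffffffffd7fffc000000240000006407300000000000008200d08b79db0026a882980000000001c800808005880240640beff2a7fffff9f6ffbfffcff7f53f69fff5ff3ffef931812ff01cc0c817fffd7fffffffffff7fffffffff7fdffffbffffffffffff5ffff000000090000001901cc00000000000020803422de76c009aa20a6000000000072002020016200901902fbfca9fffffe7dbfeffff3fdfd4fda7dfd7fcfefbe4c604bfc07303205ffff5fffffffffffdfffffffffdff7fffeffffffffffffd7fffc000000240000006407300000000000008200d08b79db0026a882980000000001c800808005880240640beff2a7fffff9f6ffbfffcff7f53f69f7f5ff3fbef931812ff01cc0c817fffd7fffffffffff7fffffffff7fdffffbffffffffffff5ffff))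 P3333_8 (nat_lit 0x10190080033981cc00000000000020803422de76c009aa20a6000000000072002020016200901902fbfca9fffffe7dbfeffff7fffd5fde7ffd7fcfffbe4c604bfc07303205ffffdfffffffffffdfffffffffffffffffffffffffffffd7fffc0000406402000ce607300000000000008200d08b79db0026a882980000000001c80080800588024064cbeff2a7fffff9f6ffbfffeffff73f69fff5ff3ffef931812ff01cc0c997ffff7fffffffffff7fffffffff7fffffffffffffffffff5ffff000010190080033981cc00000000000020803422de76c009aa20a6000000000072002020016200901932fbfca9fffffe7dbfeffffbfffdcfda7ffd7fcfffbe4c604bfc07303265ffffdfffffffffffdfffffffffdfffffffffffffffffffd7fffc0000406402000ce607300000000000008200d08b79db0026a882980000000001c800808005880240640beff2a7fffff9f6ffbfffcffff53f69fff5ff3ffef931812ff01cc0c817ffff7fffffffffff7fffffffff7fffffffffffffffffff5ffff) = true := by decide +kernel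
theorem kp4432_8 : kR N4432 (rawOf F4432) (fun u => Nat.beq u (nat_lit 0x638082100a002281dae3e764340030000240410000000009000001200000000000000000000000040200d9fa0088104521e5c313ce000480820000000012000002400000000000000000000000080401b3f40110208a43cb86279c)) P4432_8 (nat_lit 0xe38082121a003a81dae3e764340074080240410028020029000f8770200000000000000000000004120adffe008c10d561fdeb9bce000480820010040052001f0ee04000000000000000000000080415bffc011021aac3dbd7379c) = true := by decide +kernel
theorem kc4333_352 : coreNF N4333 (rawOf F4333) (toL R4333c352 []) C4333_352 = true := by decide +kernel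
theorem kc4333_736 : coreNF N4333 (rawOf F4333) (toL R4333c736 []) C4333_736 = true := by decide +kernel
theorem kp4433_1 : kR N4433 (rawOf F4433) (fun u => Nat.beq u (nat_lit 0xe5b1c3e0387f00396c70f80e1fc1f6dc7c7ff3fffbffcffe4845a6061835fffffffffffffefff1f6dc7c7ff3fffbffcfee4845a6061835dff7ffeffffedeffc)) P4433_1 (nat_lit 0xc6e5b9cbe0feff31b96e72f83fbfc1f7fc7c7fffffffffcfffc845a7f7dfbffffffffffffffefff1f6dc7c7ff3fffbffcffe7dfffe061835fffffffffffffffff) = true := by decide +kernel
theorem kp4442_2 : kR N4442 (rawOf F4442) (fun u => Nat.beq u (nat_lit 0)) P4442_2 (nat_lit 0x396c501f8a03fc0000008e6080cc00000001982033) = true := by decide +kernel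
theorem kp3221_1 : kR N3221 (rawOf F3221) (fun u => Nat.beq u (nat_lit 0xa0014000000028005000000000000000000000000000000000000)) P3221_1 (nat_lit 0xa1055000000028415400000000000ac0400f1943f2000300000c0) = true := by decide +kernel
theorem km5333_0 : kM (appM R5333) (fun u => Nat.beq u (nat_lit 0)) M5333_0 (nat_lit 0x107d18101900000980) = true := by decide +kernel
theorem kp3111_0 : kR N3111 (rawOf F3111) (fun u => Nat.beq u (nat_lit 0)) P3111_0 (nat_lit 262143) = true := by decide +kernel
theorem kx3222_192 : chkB N3222 X3222c192 (nat_lit 192) = true := by decide +kernel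
theorem kx3322_576 : chkB N3322 X3322c576 (nat_lit 576) = true := by decide +kernel
theorem kx5322_64 : chkB N5322 X5322c64 (nat_lit 64) = true := by decide +kernel
theorem kx4333_64 : chkB N4333 X4333c64 (nat_lit 64) = true := by decide +kernel
theorem kx2111 : chkB N2111 X2111.t 0 = true := by decide +kernel
theorem kw2221_1 : wfT S2221_1 138 = true := by decide +kernel
theorem kp5532_0 : kR N5532 (rawOf F5532) (fun u => Nat.beq u (nat_lit 0)) P5532_0 (nat_lit 63) = true := by decide +kernel
theorem kw2211_1 : wfT S2211_1 60 = true := by decide +kernel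
theorem kp5533_0 : kR N5533 (rawOf F5533) (fun u => Nat.beq u (nat_lit 0)) P5533_0 (nat_lit 15) = true := by decide +kernel
theorem ka3310 : (wfT N3310 6 && wfT R3310 1) = true := by decide +kernel
theorem ka3321 : (wfT N3321 326 && wfT R3321 30) = true := by decide +kernel
theorem ka7221 : (wfT N7221 2 && wfT R7221 1) = true := by decide +kernel
theorem ka7322 : (wfT N7322 7 && wfT R7322 1) = true := by decide +kernel
theorem ke1111 : kB (fun u => Nat.beq u (nat_lit 0)) (toL X1111.t []) (nat_lit 0xffffff) = true := by decide +kernel
theorem kv3211_1 : wfT L3211_1 24 = true := by decide +kernel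
theorem kw5221_2 : wfT S5221_2 23 = true := by decide +kernel
theorem kp3100_0 : kR N3100 (rawOf F3100) (fun u => Nat.beq u (nat_lit 0)) P3100_0 (nat_lit 1) = true := by decide +kernel
theorem kv4411_1 : wfT L4411_1 10 = true := by decide +kernel
theorem kv2000_0 : wfT L2000_0 1 = true := by decide +kernel
theorem kw3110_2 : wfT S3110_2 2 = true := by decide +kernel
theorem kx5210 : chkB N5210 X5210.t 0 = true := by decide +kernel
theorem kx3330 : chkB N3330 X3330.t 0 = true := by decide +kernel
theorem kx6321 : chkB N6321 X6321.t 0 = true := by decide +kernel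
theorem kx8222 : chkB N8222 X8222.t 0 = true := by decide +kernel
theorem kx5442 : chkB N5442 X5442.t 0 = true := by decide +kernel

end Pool.Agent.L3E.GJ
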