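import Pool.Agent.L3E.GJ.Pl

set_option autoImplicit false
set_option maxRecDepth 100000
set_option linter.unusedVariables false
set_option exponentiation.threshold 100000

/-! # L3E, module GJ.C20: kernel checks -/

namespace Pool.Agent.L3E.GJ

theorem kG3311_0 : gChk AT8 30030 [g3311_0] = true := by decide +kernel
theorem kG4221_1 : gChk AT9 30037 [g4221_1] = true := by decide +kernel
theorem kG5221_2 : gChk AT10 30045 [g5221_2] = true := by decide +kernel
theorem kG3331_2 : gChk AT10 30051 [g3331_2] = true := by decide +kernel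
theorem kG5222_4 : gChk AT11 30055 [g5222_4] = true := by decide +kernel
theorem kG4322_11 : gChk AT11 30058 [g4322_11] = true := by decide +kernel
theorem kG3332_18 : gChk AT11 30059 [g3332_18] = true := by decide +kernel
theorem kS2220_2 : chk2 (fun m => appM N2220 (rowL pS2220_2 m)) X2220.t S2220_2.t = true := by decide +kernel
theorem kS2222_1_64 : chk2 (fun m => appM N2222 (rowL pS2222_1 m)) X2222c64 S2222_1c64 = true := by decide +kernel
theorem kS4221_2_64 : chk2 (fun m => appM N4221 (rowL pS4221_2 m)) X4221c64 S4221_2c64 = true := by decide +kernel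
theorem kS4222_2_192 : chk2 (fun m => appM N4222 (rowL pS4222_2 m)) X4222c192 S4222_2c192 = true := by decide +kernel
theorem kS3322_3_64 : chk2 (fun m => appM N3322 (rowL pS3322_3 m)) X3322c64 S3322_3c64 = true := by decide +kernel
theorem kS3332_1_0 : chk2 (fun m => appM N3332 (rowL pS3332_1 m)) X3332c0 S3332_1c0 = true := by decide +kernel
theorem kS3332_2_704 : chk2 (fun m => appM N3332 (rowL pS3332_2 m)) X3332c704 S3332_2c704 = true := by decide +kernel
theorem kS3333_1_384 : chk2 (fun m => appM N3333 (rowL pS3333_1 m)) X3333c384 S3333_1c384 = true := by decide +kernel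
theorem kS3333_3_128 : chk2 (fun m => appM N3333 (rowL pS3333_3 m)) X3333c128 S3333_3c128 = true := by decide +kernel
theorem kS4333_3_128 : chk2 (fun m => appM N4333 (rowL pS4333_3 m)) X4333c128 S4333_3c128 = true := by decide +kernel
theorem kL3210_0 : chk2 (fun m => appM N3210 (rowL pL3210_0 m)) X2210.t L3210_0.t = true := by decide +kernel
theorem kL4220_0 : chk2 (fun m => appM N4220 (rowL pL4220_0 m)) X3220.t L4220_0.t = true := by decide +kernel
theorem kL4221_2 : chk2 (fun m => appM N4221 (rowL pL4221_2 m)) X4211.t L4221_2.t = true := by decide +kernel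
theorem kL5311_1 : chk2 (fun m => appM N5311 (rowL pL5311_1 m)) X5211.t L5311_1.t = true := by decide +kernel
theorem kL4222_3_64 : chk2 (fun m => appM N4222 (rowL pL4222_3 m)) X4221c64 L4222_3c64 = true := by decide +kernel
theorem kL5321_1 : chk2 (fun m => appM N5321 (rowL pL5321_1 m)) X5221.t L5321_1.t = true := by decide +kernel
theorem kL4322_0_384 : chk2 (fun m => appM N4322 (rowL pL4322_0 m)) X3322c384 L4322_0c384 = true := by decide +kernel
theorem kL3332_2_192 : chk2 (fun m => appM N3332 (rowL pL3332_2 m)) X3322c192 L3332_2c192 = true := by decide +kernel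
theorem kL5322_0_128 : chk2 (fun m => appM N5322 (rowL pL5322_0 m)) X4322c128 L5322_0c128 = true := by decide +kernel
theorem km4332_4 : kM (appM R4332) (fun u => Nat.beq u (nat_lit 0x24000050000000300405a01bde6add7f7f827ffc907e53dff7ffbfdff7eafa72bfcf3bfef847dde3fffcffbffeff5effffe0ffbfffefff7fbfeff7f5ff7f9e77fdf08fbfc0000000000000000000000002fa9880ea6012420000400405010100000)) M4332_4 (nat_lit 0x15cbe34fa9ffffffad75c2c09424000050000000300405a01bde6add7f7f827ffc907e53dff7ffbfdff7eafa72bfcf3bfef847dde3fffcffbffeff5effffe0ffbfffefff7fbfeff7f5ff7f9e77fdf08fbfc0000000000000000000000002fa9880ea6012420000400405010100000) = true := by decide +kernel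
theorem kL4332_2_256 : chk2 (fun m => appM N4332 (rowL pL4332_2 m)) X4322c256 L4332_2c256 = true := by decide +kernel
theorem km3333_21 : kM (appM R3333) (fun u => Nat.beq u (nat_lit 0x1ffff7fffdffffe7fdfefebfeff7fffffff5fffb)) M3333_21 (nat_lit 0xff01c80c817fffd7fffffffffff7fffdffffe7fdfefebfeff7fffffff5fffb) = true := by decide +kernel
theorem kL5422_0_0 : chk2 (fun m => appM N5422 (rowL pL5422_0 m)) X4422c0 L5422_0c0 = true := by decide +kernel
theorem km4333_1 : kM (appM R4333) (fun u => Nat.beq u (nat_lit 0x40025988840474070d400c0968200988414000000a2fdbbfedeb7bf9a7f3ea00403f7bfffff5ffdf7fdfffe7ffffffffffbfffffbfffffdbfeeff737fffffffffffffffffffe7ffffffffffbffffffffffffffffffffffffbfffffffffffffffffffb2fa0c54280801fd0038004928000101028001008009007602200)) M4333_1 (nat_lit 0xc00100000000040a0960012cc442023a0386a00604b41004c420a00000000040201a080000a3800200000000081412c0025988840474070d400c0968200988414000000a2fdbbfedeb7bf9a7f3ea00403f7bfffff5ffdf7fdfffe7ffffffffffbfffffbfffffdbfeeff737fffffffffffffffffffe7ffffffffffbffffffffffffffffffffffffbfffffffffffffffffffb2fa0c54280801fd0038004928000101028001008009007602200)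 = true := by decide +kernel
theorem kL4333_0_832 : chk2 (fun m => appM N4333 (rowL pL4333_0 m)) X3333c832 L4333_0c832 = true := by decide +kernel
theorem kL4433_1_64 : chk2 (fun m => appM N4433 (rowL pL4433_1 m)) X4333c64 L4433_1c64 = true := by decide +kernel
theorem km4321_0 : kM (appM R4321) (fun u => Nat.beq u (nat_lit 0)) M4321_0 (nat_lit 0x4214100008415d48080e000000002805c48e5ab176b000000000000000) = true := by decide +kernel
theorem kp3321_1 : kR N3321 (rawOf F3321) (fun u => Nat.beq u (nat_lit 0x18501ed63d511ea80000000000000000000018501ed61d511ea00)) P3321_1 (nat_lit 0x1199f0000000000080853a4b98503efe3ff3ffffc000000000008001020198503efe3ff3fffe8) = true := by decide +kernel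
theorem kp4222_4 : kR N4222 (rawOf F4222) (fun u => Nat.beq u (nat_lit 0x100802d0010840102800818f2960906fca5ba761328abde000000000000000000000000000000000ac8000001e1000c00)) P4222_4 (nat_lit 0x4040006000000000000000808000c00000000000000101000180000000000000000010000000000160a5ad0010840122cc0958f3de4b5efce7baf6136cfbde001800006001590000c0b003018001800ac9000405e1010c00) = true := by decide +kernel
theorem kc3322_176 : coreNF N3322 (rawOf F3322) (toL R3322c176 []) C3322_176 = true := by decide +kernel
theorem kc4322_16 : coreNF N4322 (rawOf F4322) (toL R4322c16 []) C4322_16 = true := by decide +kernel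
theorem kp4322_6 : kR N4322 (rawOf F4322) (fun u => Nat.beq u (nat_lit 0x85040000802001021410040250c0040000000000001a001565ac520dbbd62d8651550bffb1f4ef50d09aaae12600000000000000000000000002000d524806608032f8007d4bff97bfdabfbde2d80ccebaa77feafb6ef778a8336fabdfefbdeef3fc00000000020001000100008000000002d042800800002132c400480)) P4322_6 (nat_lit 0x2001809802100000020018090021850400008020010a1410040250c0042000000000001a009565ac520dbbd6ed9659550bffb1f5ef56db9fabe72700000000000000000000000002000d5a4806608032f8017d4bff97bfdaffbde3d80ceefabf7feeff6ff778e8336fabdfeffdfefbfc0102000026810b401100008002080002d042800800002132c402c90) = true := by decide +kernel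
theorem kc3332_368 : coreNF N3332 (rawOf F3332) (toL R3332c368 []) C3332_368 = true := by decide +kernel
theorem kp3332_7 : kR N3332 (rawOf F3332) (fun u => Nat.beq u (nat_lit 0x6b010000019adc5fc013c00000000000000000000000000000000000000000001000000048068350902d0208000206faa85aaf558a0520a2daf2c0700f2506edaffeafefffffdfeebae91bfbbffabd56281efbabfbffbdfaffdf0000000000000000000000000000000000000000000040000001201a0d4240b4082000081beaa16abd562814828b6bcb01c03c941bb6bffabfbfffff7fbaeba46feeffeaf558a07beeafeffef7ebff7c00000000000000000000000000000000000000000001000000048068350902d0208000206faa85aaf558a0520a2daf2c0700f2506edaffeafeffffedfeebae91bfbbffabd56281efbabfbffbdfaffdf)) P3332_7 (nat_lit 0x6b01600203feffffc013c00000000000000000000000000000000400000020001000000048068350902f8208000206faa85aaf558a0520a3def2c0702f2506edaffebfefffffdfeebfe91bfbbffbbd56281ffbabfbffffffffff0000000000000000000000000000000010000000800040000001201a0d4240be082000081beaa16abd562814828f7bcb01c0bc941bb6bffaffbfffff7fbaffa46feeffeef558a07feeafeffffffffffc00000000000000000000000000000000400000020001000000048068350902f8208000206faa85aaf558a0520a3def2c0702f2506edaffebfefffffdfeebfe91bfbbffbbd56281ffbabfbffffffffff)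 = true := by decide +kernel
theorem kc4422_64 : coreNF N4422 (rawOf F4422) (toL R4422c64 []) C4422_64 = true := by decide +kernel
theorem kc4332_112 : coreNF N4332 (rawOf F4332) (toL R4332c112 []) C4332_112 = true := by decide +kernel
theorem kc4332_496 : coreNF N4332 (rawOf F4332) (toL R4332c496 []) C4332_496 = true := by decide +kernel
theorem kc3333_32 : coreNF N3333 (rawOf F3333) (toL R3333c32 []) C3333_32 = true := by decide +kernel
theorem kc3333_416 : coreNF N3333 (rawOf F3333) (toL R3333c416 []) C3333_416 = true := by decide +kernel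
theorem kc3333_800 : coreNF N3333 (rawOf F3333) (toL R3333c800 []) C3333_800 = true := by decide +kernel
theorem kc3333_1184 : coreNF N3333 (rawOf F3333) (toL R3333c1184 []) C3333_1184 = true := by decide +kernel
theorem kp3333_1 : kR N3333 (rawOf F3333) (fun u => Nat.beq u (nat_lit 0x27bf7cf9e59ffffffffd430c9800000020803422de76c009aa20a6000000000072002020016200bfdfb6fbfea9fffffe7dbffffffffffffffe7fff7fcfffbe4c604bfc077fbf6dffffdfffffffffffffffffffffffffffffffffffffffffd7fffc1e7173e79677ecfed7f50c32600000008200d08b79db0026a882980000000001c8008080058802ff7edbeffaa7fffff9f6fffffffffffffff9fffdff3ffef931812ff01dfefdb7ffff7fffffffffffffffffffffffffffffffffffffffff5ffff67bffcffff9ffffffffd57efda00000020803422de76c009aa20a6000000000072002020016200bfdfb6fbfea9fffffe7dbffffffffffffffe7fff7fcfffbe4c604bfc07fffffdffffdfffffffffffffffffffffffffffffffffffffffffd7fffd9efff3fffe7ffffffff55fbf680000008200d08b79db0026a882980000000001c8008080058802ff7edbeffaa7fffff9f6fffffffffffffff9fffdff3ffef931812ff01ffffff7ffff7fffffffffffffffffffffffffffffffffffffffff5ffff)) P3333_1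 (nat_lit 0x67bffcffff9ffffffffd57efda00000020803422de76c009aa20a6000000000072002020016200bfdfb6fbfea9fffffe7dbffffffffffffffe7fff7fcfffbe4c604bfc07fffffdffffdfffffffffffffffffffffffffffffffffffffffffd7fffd9efff3fffe7ffffffff55fbf680000008200d08b79db0026a882980000000001c8008080058802ff7edbeffaa7fffff9f6fffffffffffffff9fffdff3ffef931812ff01ffffff7ffff7fffffffffffffffffffffffffffffffffffffffff5ffff67bffcffff9ffffffffd57efda00000020803422de76c009aa20a6000000000072002020016200bfdfb6fbfea9fffffe7dbffffffffffffffe7fff7fcfffbe4c604bfc07fffffdffffdfffffffffffffffffffffffffffffffffffffffffd7ffffffffffffffffffffffff7fbfe80000008200d08b79db0026a882980000000001c8008080058802ff7edbeffaa7fffff9f6fffffffffffffff9fffdff3ffef931812ff01ffffff7ffff7fffffffffffffffffffffffffffffffffffffffff5ffff) = true := by decide +kernel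
theorem kp4432_1 : kR N4432 (rawOf F4432) (fun u => Nat.beq u (nat_lit 0x7fe69f8df3c5f6d63fbbffb5fff7fff674dfff4d9a7df3fdfcbadffffffffffe2961369b48a2d7fbbfffdfafbfffffff7fffffffffffffffff9f14bbe3ebf855bfffecfffffc52c26034100483675b67071f7ffffffeffff7bffffffffffff)) P4432_1 (nat_lit 0xfffffffff3c5f6de3fffffbffffffffe7fffff4d9a7df3fdfcbadffffffffffe2961369b48a2d7fbbfffdfafbfffffff7fffffffffffffffff9f34fbebebf857ffffecfffffc57fff6ff7ebfd3ffdb6747bfffffffffffff7bffffffffffff) = true := by decide +kernel
theorem kc4333_240 : coreNF N4333 (rawOf F4333) (toL R4333c240 []) C4333_240 = true := by decide +kernel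
theorem kc4333_624 : coreNF N4333 (rawOf F4333) (toL R4333c624 []) C4333_624 = true := by decide +kernel
theorem kp5333_1 : kR N5333 (rawOf F5333) (fun u => Nat.beq u (nat_lit 0x40a801fd9b5013fb16a007f128a2c69b072576f8d362e4aeff1a7c5d17d18fa1bf5c809e0)) P5333_1 (nat_lit 0xcda809fd9b5013fb37bb27f138e2ffffe7277efffffeecefff1e7c7d37d3bffffffc9efff) = true := by decide +kernel
theorem kw3333_2 : wfT S3333_2 848 = true := by decide +kernel
theorem kv4322_0 : wfT L4322_0 638 = true := by decide +kernel
theorem kw2222_1 : wfT S2222_1 396 = true := by decide +kernel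
theorem kp4411_0 : kR N4411 (rawOf F4411) (fun u => Nat.beq u (nat_lit 0)) P4411_0 (nat_lit 0xfffff) = true := by decide +kernel
theorem kx2222_320 : chkB N2222 X2222c320 (nat_lit 320) = true := by decide +kernel
theorem kx3331_64 : chkB N3331 X3331c64 (nat_lit 64) = true := by decide +kernel
theorem kx3332_256 : chkB N3332 X3332c256 (nat_lit 256) = true := by decide +kernel
theorem kx3333_320 : chkB N3333 X3333c320 (nat_lit 320) = true := by decide +kernel
theorem kv4433_1 : wfT L4433_1 200 = true := by decide +kernel
theorem kv3321_1 : wfT L3321_1 144 = true := by decide +kernel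
theorem kp5221_1 : kR N5221 (rawOf F5221) (fun u => Nat.beq u (nat_lit 0)) P5221_1 (nat_lit 0x6e120000000000000) = true := by decide +kernel
theorem kw5322_3 : wfT S5322_3 81 = true := by decide +kernel
theorem kx5321 : chkB N5321 X5321.t 0 = true := by decide +kernel
theorem ka2110 : (wfT N2110 8 && wfT R2110 1) = true := by decide +kernel
theorem ka4310 : (wfT N4310 1 && wfT R4310 1) = true := by decide +kernel
theorem ka5221 : (wfT N5221 94 && wfT R5221 1) = true := by decide +kernel
theorem ka4431 : (wfT N4431 94 && wfT R4431 1) = true := by decide +kernel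
theorem ka4433 : (wfT N4433 516 && wfT R4433 32) = true := by decide +kernel
theorem kw3111_3 : wfT S3111_3 24 = true := by decide +kernel
theorem kv4311_1 : wfT L4311_1 21 = true := by decide +kernel
theorem kp2000_0 : kR N2000 (rawOf F2000) (fun u => Nat.beq u (nat_lit 0)) P2000_0 (nat_lit 1) = true := by decide +kernel
theorem kv3221_3 : wfT L3221_3 8 = true := by decide +kernel
theorem kx5433 : chkB N5433 X5433.t 0 = true := by decide +kernel
theorem kw4111_2 : wfT S4111_2 5 = true := by decide +kernel
theorem kw5211_3 : wfT S5211_3 3 = true := by decide +kernel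
theorem kv4330_2 : wfT L4330_2 1 = true := by decide +kernel
theorem kv5431_0 : wfT L5431_0 4 = true := by decide +kernel
theorem kx6432 : chkB N6432 X6432.t 0 = true := by decide +kernel

end Pool.Agent.L3E.GJ
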