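import Pool.Agent.L3E.GJ.Pl

set_option autoImplicit false
set_option maxRecDepth 100000
set_option linter.unusedVariables false
set_option exponentiation.threshold 100000

/-! # L3E, module GJ.C21: kernel checks -/

namespace Pool.Agent.L3E.GJ

theorem kG3311_1 : gChk AT8 30030 [g3311_1] = true := by decide +kernel
theorem kG4221_2 : gChk AT9 30037 [g4221_2] = true := by decide +kernel
theorem kG5221_3 : gChk AT10 30045 [g5221_3] = true := by decide +kernel
theorem kG3331_3 : gChk AT10 30051 [g3331_3] = true := by decide +kernel
theorem kG5222_5 : gChk AT11 30055 [g5222_5] = true := by decide +kernel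
theorem kG4322_12 : gChk AT11 30058 [g4322_12] = true := by decide +kernel
theorem kG3332_19 : gChk AT11 30059 [g3332_19] = true := by decide +kernel
theorem kS2211_1 : chk2 (fun m => appM N2211 (rowL pS2211_1 m)) X2211.t S2211_1.t = true := by decide +kernel
theorem kS2222_1_128 : chk2 (fun m => appM N2222 (rowL pS2222_1 m)) X2222c128 S2222_1c128 = true := by decide +kernel
theorem kS3321_1_0 : chk2 (fun m => appM N3321 (rowL pS3321_1 m)) X3321c0 S3321_1c0 = true := by decide +kernel
theorem kS4222_2_256 : chk2 (fun m => appM N4222 (rowL pS4222_2 m)) X4222c256 S4222_2c256 = true := by decide +kernel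
theorem kS3322_3_128 : chk2 (fun m => appM N3322 (rowL pS3322_3 m)) X3322c128 S3322_3c128 = true := by decide +kernel
theorem kS3332_1_64 : chk2 (fun m => appM N3332 (rowL pS3332_1 m)) X3332c64 S3332_1c64 = true := by decide +kernel
theorem kS3332_2_768 : chk2 (fun m => appM N3332 (rowL pS3332_2 m)) X3332c768 S3332_2c768 = true := by decide +kernel
theorem kS3333_1_448 : chk2 (fun m => appM N3333 (rowL pS3333_1 m)) X3333c448 S3333_1c448 = true := by decide +kernel
theorem kS3333_3_192 : chk2 (fun m => appM N3333 (rowL pS3333_3 m)) X3333c192 S3333_3c192 = true := by decide +kernel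
theorem kS4333_3_192 : chk2 (fun m => appM N4333 (rowL pS4333_3 m)) X4333c192 S4333_3c192 = true := by decide +kernel
theorem kL3210_1 : chk2 (fun m => appM N3210 (rowL pL3210_1 m)) X3110.t L3210_1.t = true := by decide +kernel
theorem kL4220_2 : chk2 (fun m => appM N4220 (rowL pL4220_2 m)) X4210.t L4220_2.t = true := by decide +kernel
theorem kL4221_3 : chk2 (fun m => appM N4221 (rowL pL4221_3 m)) X4220.t L4221_3.t = true := by decide +kernel
theorem kL5221_0_0 : chk2 (fun m => appM N5221 (rowL pL5221_0 m)) X4221c0 L5221_0c0 = true := by decide +kernel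
theorem km3331_0 : kM (appM R3331) (fun u => Nat.beq u (nat_lit 0x3f3e884ff572ff6000000003744006a030003f3e884ff572ff6)) M3331_0 (nat_lit 0x3744006a030003f3e884ff572ff6000000003744006a030003f3e884ff572ff6000000003744006a030003f3e884ff572ff6) = true := by decide +kernel
theorem kL5222_0_0 : chk2 (fun m => appM N5222 (rowL pL5222_0 m)) X4222c0 L5222_0c0 = true := by decide +kernel
theorem kL4322_0_448 : chk2 (fun m => appM N4322 (rowL pL4322_0 m)) X3322c448 L4322_0c448 = true := by decide +kernel
theorem kL3332_2_256 : chk2 (fun m => appM N3332 (rowL pL3332_2 m)) X3322c256 L3332_2c256 = true := by decide +kernel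
theorem kL5322_0_192 : chk2 (fun m => appM N5322 (rowL pL5322_0 m)) X4322c192 L5322_0c192 = true := by decide +kernel
theorem km4332_5 : kM (appM R4332) (fun u => Nat.beq u (nat_lit 0x1e53dff7ffbfdff7eafa72bfcf3bfef847dde3fffcffbffeff5effffe0ffbfffefff7fbfeff7f5ff7f9e77fdf08fbfc0000000000000000000000002fa9880ea6012420000400405010100000)) M4332_5 (nat_lit 0x24000050000000300405a01bde6add7f7f827ffc907e53dff7ffbfdff7eafa72bfcf3bfef847dde3fffcffbffeff5effffe0ffbfffefff7fbfeff7f5ff7f9e77fdf08fbfc0000000000000000000000002fa9880ea6012420000400405010100000) = true := by decide +kernel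
theorem kL4332_2_320 : chk2 (fun m => appM N4332 (rowL pL4332_2 m)) X4322c320 L4332_2c320 = true := by decide +kernel
theorem km3333_22 : kM (appM R3333) (fun u => Nat.beq u (nat_lit 0xfefebfeff7fffffff5fffb)) M3333_22 (nat_lit 0x1ffff7fffdffffe7fdfefebfeff7fffffff5fffb) = true := by decide +kernel
theorem kL5422_0_64 : chk2 (fun m => appM N5422 (rowL pL5422_0 m)) X4422c64 L5422_0c64 = true := by decide +kernel
theorem km4333_2 : kM (appM R4333) (fun u => Nat.beq u (nat_lit 0x6b7bf9a7f3ea00403f7bfffff5ffdf7fdfffe7ffffffffffbfffffbfffffdbfeeff737fffffffffffffffffffe7ffffffffffbffffffffffffffffffffffffbfffffffffffffffffffb2fa0c54280801fd0038004928000101028001008009007602200)) M4333_2 (nat_lit 0x40025988840474070d400c0968200988414000000a2fdbbfedeb7bf9a7f3ea00403f7bfffff5ffdf7fdfffe7ffffffffffbfffffbfffffdbfeeff737fffffffffffffffffffe7ffffffffffbffffffffffffffffffffffffbfffffffffffffffffffb2fa0c54280801fd0038004928000101028001008009007602200) = true := by decide +kernel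
theorem kL4333_3_0 : chk2 (fun m => appM N4333 (rowL pL4333_3 m)) X4332c0 L4333_3c0 = true := by decide +kernel
theorem kL4433_1_128 : chk2 (fun m => appM N4433 (rowL pL4433_1 m)) X4333c128 L4433_1c128 = true := by decide +kernel
theorem km4422_3 : kM (appM R4422) (fun u => Nat.beq u (nat_lit 0)) M4422_3 (nat_lit 0x9e25fefcbabfd50a42408) = true := by decide +kernel
theorem kp3321_0 : kR N3321 (rawOf F3321) (fun u => Nat.beq u (nat_lit 0x1199f0000000000080853a4b98503efe3ff3ffffc000000000008001020198503efe3ff3fffe8)) P3321_0 (nat_lit 0x4001399f00060000003ffffffff98503efe3ff3fffff00060000003ffffffff98503efe3ff3fffff) = true := by decide +kernel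
theorem kp4222_3 : kR N4222 (rawOf F4222) (fun u => Nat.beq u (nat_lit 0x4040006000000000000000808000c00000000000000101000180000000000000000010000000000160a5ad0010840122cc0958f3de4b5efce7baf6136cfbde001800006001590000c0b003018001800ac9000405e1010c00)) P4222_3 (nat_lit 0x7c004243c0f04000000001f800848781e08000000003f001090f03c0000000004000000110000000400163a5ad0010841322cc095cf3de7b5ffcf7bef7376cfbde001a00006041590000c0f12b01a001820ac9000405e1010c00) = true := by decide +kernel
theorem kc3322_160 : coreNF N3322 (rawOf F3322) (toL R3322c160 []) C3322_160 = true := by decide +kernel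
theorem kc4322_0 : coreNF N4322 (rawOf F4322) (toL R4322c0 []) C4322_0 = true := by decide +kernel
theorem kp4322_5 : kR N4322 (rawOf F4322) (fun u => Nat.beq u (nat_lit 0x2001809802100000020018090021850400008020010a1410040250c0042000000000001a009565ac520dbbd6ed9659550bffb1f5ef56db9fabe72700000000000000000000000002000d5a4806608032f8017d4bff97bfdaffbde3d80ceefabf7feeff6ff778e8336fabdfeffdfefbfc0102000026810b401100008002080002d042800800002132c402c90)) P4322_5 (nat_lit 0x6001c0980710000006001c098071850400008020011a1410060250c0046000000000001a009565fc520dffd7ef96595f1bffbdf5ff7ffb9ffbff3f00000000000000000000000002200d5ad806608032f801ff4bff97ffdafffde3fd0ceffaff7feeff6fff7cfd337fafdffffffefffc0112000066810b4011000a8002080002d042800800a03132d402c90) = true := by decide +kernel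
theorem kc3332_352 : coreNF N3332 (rawOf F3332) (toL R3332c352 []) C3332_352 = true := by decide +kernel
theorem kp3332_6 : kR N3332 (rawOf F3332) (fun u => Nat.beq u (nat_lit 0x6b01600203feffffc013c00000000000000000000000000000000400000020001000000048068350902f8208000206faa85aaf558a0520a3def2c0702f2506edaffebfefffffdfeebfe91bfbbffbbd56281ffbabfbffffffffff0000000000000000000000000000000010000000800040000001201a0d4240be082000081beaa16abd562814828f7bcb01c0bc941bb6bffaffbfffff7fbaffa46feeffeef558a07feeafeffffffffffc00000000000000000000000000000000400000020001000000048068350902f8208000206faa85aaf558a0520a3def2c0702f2506edaffebfefffffdfeebfe91bfbbffbbd56281ffbabfbffffffffff)) P3332_6 (nat_lit 0x6b01600203ffffffc093c00000000000000000000000000000005416000024001000000048068350902f8208000206faa85eef558a0520a3fef2c0702f251eedafffbfefffffffeefff91bfbfffbfd56281ffbfffbffffffffff0000000000000000000000000000000150580000980040000001201a0d4240be082000081beaa17bbd562814828ffbcb01c0bc947bb6bffeffbfffffffbbffe46fefffeff558a07fefffeffffffffffc00000000000000000000000000000005416000026001000000048068350902f8208000206faa85eef558a0520a3fef2c0702f251eedafffbfefffffffeefff91bfbfffbfd56281ffbfffbffffffffff)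 = true := by decide +kernel
theorem kc4422_48 : coreNF N4422 (rawOf F4422) (toL R4422c48 []) C4422_48 = true := by decide +kernel
theorem kc4332_96 : coreNF N4332 (rawOf F4332) (toL R4332c96 []) C4332_96 = true := by decide +kernel
theorem kc4332_480 : coreNF N4332 (rawOf F4332) (toL R4332c480 []) C4332_480 = true := by decide +kernel
theorem kc3333_16 : coreNF N3333 (rawOf F3333) (toL R3333c16 []) C3333_16 = true := by decide +kernel
theorem kc3333_400 : coreNF N3333 (rawOf F3333) (toL R3333c400 []) C3333_400 = true := by decide +kernel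
theorem kc3333_784 : coreNF N3333 (rawOf F3333) (toL R3333c784 []) C3333_784 = true := by decide +kernel
theorem kc3333_1168 : coreNF N3333 (rawOf F3333) (toL R3333c1168 []) C3333_1168 = true := by decide +kernel
theorem kp3333_0 : kR N3333 (rawOf F3333) (fun u => Nat.beq u (nat_lit 0x67bffcffff9ffffffffd57efda00000020803422de76c009aa20a6000000000072002020016200bfdfb6fbfea9fffffe7dbffffffffffffffe7fff7fcfffbe4c604bfc07fffffdffffdfffffffffffffffffffffffffffffffffffffffffd7fffd9efff3fffe7ffffffff55fbf680000008200d08b79db0026a882980000000001c8008080058802ff7edbeffaa7fffff9f6fffffffffffffff9fffdff3ffef931812ff01ffffff7ffff7fffffffffffffffffffffffffffffffffffffffff5ffff67bffcffff9ffffffffd57efda00000020803422de76c009aa20a6000000000072002020016200bfdfb6fbfea9fffffe7dbffffffffffffffe7fff7fcfffbe4c604bfc07fffffdffffdfffffffffffffffffffffffffffffffffffffffffd7ffffffffffffffffffffffff7fbfe80000008200d08b79db0026a882980000000001c8008080058802ff7edbeffaa7fffff9f6fffffffffffffff9fffdff3ffef931812ff01ffffff7ffff7fffffffffffffffffffffffffffffffffffffffff5ffff)) P3333_0 (nat_lit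 0xfffffffffffffffffffffffffe00000020803422de76c009aa20a6000000000072002020016200fffffefbfea9fffffe7dbffffffffffffffe7fff7fcfffbe4c604bfc07fffffdffffdfffffffffffffffffffffffffffffffffffffffffd7fffffffffffffffffffffffffffff80000008200d08b79db0026a882980000000001c8008080058803fffffbeffaa7fffff9f6fffffffffffffff9fffdff3ffef931812ff01ffffff7ffff7fffffffffffffffffffffffffffffffffffffffff5fffffffffffffffffffffffffffffe00000020803422de76c009aa20a6000000000072002020016200fffffefbfea9fffffe7dbffffffffffffffe7fff7fcfffbe4c604bfc07fffffdffffdfffffffffffffffffffffffffffffffffffffffffd7fffffffffffffffffffffffffffff80000008200d08b79db0026a882980000000001c8008080058803fffffbeffaa7fffff9f6fffffffffffffff9fffdff3ffef931812ff01ffffff7ffff7fffffffffffffffffffffffffffffffffffffffff5ffff) = true := by decide +kernel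
theorem kp4432_0 : kR N4432 (rawOf F4432) (fun u => Nat.beq u (nat_lit 0xfffffffff3c5f6de3fffffbffffffffe7fffff4d9a7df3fdfcbadffffffffffe2961369b48a2d7fbbfffdfafbfffffff7fffffffffffffffff9f34fbebebf857ffffecfffffc57fff6ff7ebfd3ffdb6747bfffffffffffff7bffffffffffff)) P4432_0 (nat_lit 0xfffffffff3c5f6de3fffffbffffffffe7fffff4f9a7df7fdfcbbfffffffffffe2bffffffffffffffffffffffffffffffffffffffffffffffff9f34fbeffbf977fffffffffffc57ffffffffffffffffffffffffffffffffffffffffffffffff) = true := by decide +kernel
theorem kc4333_224 : coreNF N4333 (rawOf F4333) (toL R4333c224 []) C4333_224 = true := by decide +kernel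
theorem kc4333_608 : coreNF N4333 (rawOf F4333) (toL R4333c608 []) C4333_608 = true := by decide +kernel
theorem kp5333_0 : kR N5333 (rawOf F5333) (fun u => Nat.beq u (nat_lit 0xcda809fd9b5013fb37bb27f138e2ffffe7277efffffeecefff1e7c7d37d3bffffffc9efff)) P5333_0 (nat_lit 0xddeefffdbbddfffb77bbfff7fce3fffffffffefffffffffffffffffffffffffffffffffff) = true := by decide +kernel
theorem kw3333_1 : wfT S3333_1 848 = true := by decide +kernel
theorem kw3322_3 : wfT S3322_3 638 = true := by decide +kernel
theorem ke2222 : kB (fun u => Nat.beq u (nat_lit 0xfff000000000000c0400000003175e57dbfffc0000000000030100000000c5d795f6ffff000000000000c0400000003175e57dbfffc0000000000030100000000c5d795f6f)) (toL X2222.t []) (nat_lit 0xffffffffffffffffffffffffffffffffffffffffffffffffffffffffffffffffffffffffffffffffffffffffffffffffffffffffffffffffffffffffffffffffffffffffff) = true := by decide +kernel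
theorem kc3221 : coreNF N3221 (rawOf F3221) (toL R3221.t []) C3221 = true := by decide +kernel
theorem kx2222_128 : chkB N2222 X2222c128 (nat_lit 128) = true := by decide +kernel
theorem kx4222_256 : chkB N4222 X4222c256 (nat_lit 256) = true := by decide +kernel
theorem kx3332_64 : chkB N3332 X3332c64 (nat_lit 64) = true := by decide +kernel
theorem kx3333_128 : chkB N3333 X3333c128 (nat_lit 128) = true := by decide +kernel
theorem kw4333_2 : wfT S4333_2 200 = true := by decide +kernel
theorem kv4221_0 : wfT L4221_0 144 = true := by decide +kernel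
theorem kv4331_0 : wfT L4331_0 126 = true := by decide +kernel
theorem kv4222_3 : wfT L4222_3 87 = true := by decide +kernel
theorem kw4432_1 : wfT S4432_1 58 = true := by decide +kernel
theorem ka1100 : (wfT N1100 2 && wfT R1100 1) = true := by decide +kernel
theorem kx3220 : chkB N3220 X3220.t 0 = true := by decide +kernel
theorem ka3222 : (wfT N3222 828 && wfT R3222 89) = true := by decide +kernel
theorem ka6222 : (wfT N6222 138 && wfT R6222 21) = true := by decide +kernel
theorem ka6332 : (wfT N6332 41 && wfT R6332 1) = true := by decide +kernel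
theorem kw1111_2 : wfT S1111_2 24 = true := by decide +kernel
theorem kp6433_0 : kR N6433 (rawOf F6433) (fun u => Nat.beq u (nat_lit 0)) P6433_0 (nat_lit 3) = true := by decide +kernel
theorem kx6322 : chkB N6322 X6322.t 0 = true := by decide +kernel
theorem kx5211 : chkB N5211 X5211.t 0 = true := by decide +kernel
theorem kx1000 : chkB N1000 X1000.t 0 = true := by decide +kernel
theorem kw2110_2 : wfT S2110_2 6 = true := by decide +kernel
theorem kw4111_3 : wfT S4111_3 5 = true := by decide +kernel
theorem kx4320 : chkB N4320 X4320.t 0 = true := by decide +kernel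
theorem kv4321_3 : wfT L4321_3 1 = true := by decide +kernel
theorem kv5431_2 : wfT L5431_2 1 = true := by decide +kernel
theorem kv6432_0 : wfT L6432_0 3 = true := by decide +kernel

end Pool.Agent.L3E.GJ
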