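import Pool.Agent.L3E.GJ.Pl

set_option autoImplicit false
set_option maxRecDepth 100000
set_option linter.unusedVariables false
set_option exponentiation.threshold 100000

/-! # L3E, module GJ.C22: kernel checks -/

namespace Pool.Agent.L3E.GJ

theorem kG3311_2 : gChk AT8 30030 [g3311_2] = true := by decide +kernel
theorem kG4221_3 : gChk AT9 30037 [g4221_3] = true := by decide +kernel
theorem kG4321_0 : gChk AT10 30049 [g4321_0] = true := by decide +kernel
theorem kG3331_4 : gChk AT10 30051 [g3331_4] = true := by decide +kernel
theorem kG5222_6 : gChk AT11 30055 [g5222_6] = true := by decide +kernel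
theorem kG4322_13 : gChk AT11 30058 [g4322_13] = true := by decide +kernel
theorem kG3332_20 : gChk AT11 30059 [g3332_20] = true := by decide +kernel
theorem kS2211_3 : chk2 (fun m => appM N2211 (rowL pS2211_3 m)) X2211.t S2211_3.t = true := by decide +kernel
theorem kS2222_1_192 : chk2 (fun m => appM N2222 (rowL pS2222_1 m)) X2222c192 S2222_1c192 = true := by decide +kernel
theorem kS3321_1_64 : chk2 (fun m => appM N3321 (rowL pS3321_1 m)) X3321c64 S3321_1c64 = true := by decide +kernel
theorem kS4222_2_320 : chk2 (fun m => appM N4222 (rowL pS4222_2 m)) X4222c320 S4222_2c320 = true := by decide +kernel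
theorem kS3322_3_192 : chk2 (fun m => appM N3322 (rowL pS3322_3 m)) X3322c192 S3322_3c192 = true := by decide +kernel
theorem kS3332_1_128 : chk2 (fun m => appM N3332 (rowL pS3332_1 m)) X3332c128 S3332_1c128 = true := by decide +kernel
theorem kS6222_2 : chk2 (fun m => appM N6222 (rowL pS6222_2 m)) X6222.t S6222_2.t = true := by decide +kernel
theorem kS3333_1_512 : chk2 (fun m => appM N3333 (rowL pS3333_1 m)) X3333c512 S3333_1c512 = true := by decide +kernel
theorem kS3333_3_256 : chk2 (fun m => appM N3333 (rowL pS3333_3 m)) X3333c256 S3333_3c256 = true := by decide +kernel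
theorem kS6422_3 : chk2 (fun m => appM N6422 (rowL pS6422_3 m)) X6422.t S6422_3.t = true := by decide +kernel
theorem kL3111_0 : chk2 (fun m => appM N3111 (rowL pL3111_0 m)) X2111.t L3111_0.t = true := by decide +kernel
theorem kL4211_0 : chk2 (fun m => appM N4211 (rowL pL4211_0 m)) X3211.t L4211_0.t = true := by decide +kernel
theorem kL3330_2 : chk2 (fun m => appM N3330 (rowL pL3330_2 m)) X3320.t L3330_2.t = true := by decide +kernel
theorem kL5221_0_64 : chk2 (fun m => appM N5221 (rowL pL5221_0 m)) X4221c64 L5221_0c64 = true := by decide +kernel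
theorem km3331_1 : kM (appM R3331) (fun u => Nat.beq u (nat_lit 0x4ff572ff6)) M3331_1 (nat_lit 0x3f3e884ff572ff6000000003744006a030003f3e884ff572ff6) = true := by decide +kernel
theorem kL5222_0_64 : chk2 (fun m => appM N5222 (rowL pL5222_0 m)) X4222c64 L5222_0c64 = true := by decide +kernel
theorem kL4322_0_512 : chk2 (fun m => appM N4322 (rowL pL4322_0 m)) X3322c512 L4322_0c512 = true := by decide +kernel
theorem kL3332_2_320 : chk2 (fun m => appM N3332 (rowL pL3332_2 m)) X3322c320 L3332_2c320 = true := by decide +kernel
theorem kL5322_0_256 : chk2 (fun m => appM N5322 (rowL pL5322_0 m)) X4322c256 L5322_0c256 = true := by decide +kernel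
theorem km4332_6 : kM (appM R4332) (fun u => Nat.beq u (nat_lit 0x12bfcf3bfef847dde3fffcffbffeff5effffe0ffbfffefff7fbfeff7f5ff7f9e77fdf08fbfc0000000000000000000000002fa9880ea6012420000400405010100000)) M4332_6 (nat_lit 0x1e53dff7ffbfdff7eafa72bfcf3bfef847dde3fffcffbffeff5effffe0ffbfffefff7fbfeff7f5ff7f9e77fdf08fbfc0000000000000000000000002fa9880ea6012420000400405010100000) = true := by decide +kernel
theorem kL4332_3 : chk2 (fun m => appM N4332 (rowL pL4332_3 m)) X4331.t L4332_3.t = true := by decide +kernel
theorem km3333_23 : kM (appM R3333) (fun u => Nat.beq u (nat_lit 131067)) M3333_23 (nat_lit 0xfefebfeff7fffffff5fffb) = true := by decide +kernel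
theorem kL5422_0_128 : chk2 (fun m => appM N5422 (rowL pL5422_0 m)) X4422c128 L5422_0c128 = true := by decide +kernel
theorem km4333_3 : kM (appM R4333) (fun u => Nat.beq u (nat_lit 0x35ffdf7fdfffe7ffffffffffbfffffbfffffdbfeeff737fffffffffffffffffffe7ffffffffffbffffffffffffffffffffffffbfffffffffffffffffffb2fa0c54280801fd0038004928000101028001008009007602200)) M4333_3 (nat_lit 0x6b7bf9a7f3ea00403f7bfffff5ffdf7fdfffe7ffffffffffbfffffbfffffdbfeeff737fffffffffffffffffffe7ffffffffffbffffffffffffffffffffffffbfffffffffffffffffffb2fa0c54280801fd0038004928000101028001008009007602200) = true := by decide +kernel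
theorem kL4333_3_64 : chk2 (fun m => appM N4333 (rowL pL4333_3 m)) X4332c64 L4333_3c64 = true := by decide +kernel
theorem kL4433_1_192 : chk2 (fun m => appM N4433 (rowL pL4433_1 m)) X4333c192 L4433_1c192 = true := by decide +kernel
theorem km2222_0 : kM (appM R2222) (fun u => Nat.beq u (nat_lit 0)) M2222_0 (nat_lit 0x20540508b0000000000000000000000000081501422c000000000000000000000000020540508b0000000000000000010000000085521422c) = true := by decide +kernel
theorem kc3321_16 : coreNF N3321 (rawOf F3321) (toL R3321c16 []) C3321_16 = true := by decide +kernel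
theorem kp4222_2 : kR N4222 (rawOf F4222) (fun u => Nat.beq u (nat_lit 0x7c004243c0f04000000001f800848781e08000000003f001090f03c0000000004000000110000000400163a5ad0010841322cc095cf3de7b5ffcf7bef7376cfbde001a00006041590000c0f12b01a001820ac9000405e1010c00)) P4222_2 (nat_lit 0x2000000000fc004243c0f04000000001f800848781e18000000007f001090f03c000000000400000011c000000400163a5ad00108413e2cc095cf3de7b5ffcf7bef77f6cfbde003b005068415b00a0d0f9fb03b14bceeefd97f65fe311bfb2) = true := by decide +kernel
theorem kc3322_144 : coreNF N3322 (rawOf F3322) (toL R3322c144 []) C3322_144 = true := by decide +kernel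
theorem kp4331_2 : kR N4331 (rawOf F4331) (fun u => Nat.beq u (nat_lit 0x802c0001c00000000800400004000000039020a8c433f4080000002400)) P4331_2 (nat_lit 0x300042a2ae8403d00300042a2ae8401d00c07ccfdb6dbdff3bf6d8001100e402) = true := by decide +kernel
theorem kp4322_4 : kR N4322 (rawOf F4322) (fun u => Nat.beq u (nat_lit 0x6001c0980710000006001c098071850400008020011a1410060250c0046000000000001a009565fc520dffd7ef96595f1bffbdf5ff7ffb9ffbff3f00000000000000000000000002200d5ad806608032f801ff4bff97ffdafffde3fd0ceffaff7feeff6fff7cfd337fafdffffffefffc0112000066810b4011000a8002080002d042800800a03132d402c90)) P4322_4 (nat_lit 0x6011c099ff10000006011c099ff1850400008020111a1410060250c0446000000000001a0095e5fc520dffd7ef9759df1bffbdf5ff7ffbdffbffff00000000300000000000000002300d5ad806608032f801ff4bff97ffdaffffffff5deffbff7fefff6fffffff377fbffffffffffffc411a0a0066819f4135000a8022282802d067805800a031b2d403c90) = true := by decide +kernel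
theorem kc3332_336 : coreNF N3332 (rawOf F3332) (toL R3332c336 []) C3332_336 = true := by decide +kernel
theorem kp3332_5 : kR N3332 (rawOf F3332) (fun u => Nat.beq u (nat_lit 0x6b01600203ffffffc093c00000000000000000000000000000005416000024001000000048068350902f8208000206faa85eef558a0520a3fef2c0702f251eedafffbfefffffffeefff91bfbfffbfd56281ffbfffbffffffffff0000000000000000000000000000000150580000980040000001201a0d4240be082000081beaa17bbd562814828ffbcb01c0bc947bb6bffeffbfffffffbbffe46fefffeff558a07fefffeffffffffffc00000000000000000000000000000005416000026001000000048068350902f8208000206faa85eef558a0520a3fef2c0702f251eedafffbfefffffffeefff91bfbfffbfd56281ffbfffbffffffffff)) P3332_5 (nat_lit 0x7f01600203ffffffc093c0000000000000000000000000000001541610046e081000060048068350902f8208000206fff85fef559e0520a3fef2c0702f251eedafffbfefffffffeefff91bfffffffd56781ffbffffffffffffff0000000000000000000000000000000550584011b82040001801201a0d4240be082000081bffe17fbd567814828ffbcb01c0bc94fbb6bffeffbfffffffbbffe46ffffffff559e07feffffffffffffffc0000000000000000000000000000001541610046e081000060048068350902f8208000206fff85fef559e0520a3fef2c0702f253eedafffbfefffffffeefff91bfffffffd56781ffbfffbffffffffff)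 = true := by decide +kernel
theorem kc4422_32 : coreNF N4422 (rawOf F4422) (toL R4422c32 []) C4422_32 = true := by decide +kernel
theorem kc4332_80 : coreNF N4332 (rawOf F4332) (toL R4332c80 []) C4332_80 = true := by decide +kernel
theorem kc4332_464 : coreNF N4332 (rawOf F4332) (toL R4332c464 []) C4332_464 = true := by decide +kernel
theorem kc3333_0 : coreNF N3333 (rawOf F3333) (toL R3333c0 []) C3333_0 = true := by decide +kernel
theorem kc3333_384 : coreNF N3333 (rawOf F3333) (toL R3333c384 []) C3333_384 = true := by decide +kernel
theorem kc3333_768 : coreNF N3333 (rawOf F3333) (toL R3333c768 []) C3333_768 = true := by decide +kernel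
theorem kc3333_1152 : coreNF N3333 (rawOf F3333) (toL R3333c1152 []) C3333_1152 = true := by decide +kernel
theorem kc3333_1536 : coreNF N3333 (rawOf F3333) (toL R3333c1536 []) C3333_1536 = true := by decide +kernel
theorem kc4432_48 : coreNF N4432 (rawOf F4432) (toL R4432c48 []) C4432_48 = true := by decide +kernel
theorem kc4333_208 : coreNF N4333 (rawOf F4333) (toL R4333c208 []) C4333_208 = true := by decide +kernel
theorem kc4333_592 : coreNF N4333 (rawOf F4333) (toL R4333c592 []) C4333_592 = true := by decide +kernel
theorem kp5432_0 : kR N5432 (rawOf F5432) (fun u => Nat.beq u (nat_lit 0x208d11484c0396cd0df8200b)) P5432_0 (nat_lit 0x3fbffdfffffffff7ffffffffff) = true := by decide +kernel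
theorem ke3333 : kB (fun u => Nat.beq u (nat_lit 0xfffffffffffffffffffffffffe00000020803422de76c009aa20a6000000000072002020016200fffffefbfea9fffffe7dbffffffffffffffe7fff7fcfffbe4c604bfc07fffffdffffdfffffffffffffffffffffffffffffffffffffffffd7fffffffffffffffffffffffffffff80000008200d08b79db0026a882980000000001c8008080058803fffffbeffaa7fffff9f6fffffffffffffff9fffdff3ffef931812ff01ffffff7ffff7fffffffffffffffffffffffffffffffffffffffff5fffffffffffffffffffffffffffffe00000020803422de76c009aa20a6000000000072002020016200fffffefbfea9fffffe7dbffffffffffffffe7fff7fcfffbe4c604bfc07fffffdffffdfffffffffffffffffffffffffffffffffffffffffd7fffffffffffffffffffffffffffff80000008200d08b79db0026a882980000000001c8008080058803fffffbeffaa7fffff9f6fffffffffffffff9fffdff3ffef931812ff01ffffff7ffff7fffffffffffffffffffffffffffffffffffffffff5ffff)) (toL X3333.t []) (nat_lit 0xffffffffffffffffffffffffffffffffffffffffffffffffffffffffffffffffffffffffffffffffffffffffffffffffffffffffffffffffffffffffffffffffffffffffffffffffffffffffffffffffffffffffffffffffffffffffffffffffffffffffffffffffffffffffffffffffffffffffffffffffffffffffffffffffffffffffffffffffffffffffffffffffffffffffffffffffffffffffffffffffffffffffffffffffffffffffffffffffffffffffffffffffffffffffffffffffffffffffffffffffffffffffffffffffffffffffffffffffffffffffffffffffffffffffffffffffffffffffffffffffffffffffffffffffffffffffffffffffffffffffffffffffffffffffffffffffffffffffffffffffffffffffffffffffffffffffffffffffffffffffffffffffffffffffffffffffffffffffffffffffffffffffffffffffffffffffffffffffffffffffffffffffffffffffffffffffffffffffffffffffffffffffffffffffffffffffffffffffffffffffffffffffffffff)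 = true := by decide +kernel
theorem ke3322 : kB (fun u => Nat.beq u (nat_lit 0x3c000003080100000000806feff9f401fff13c000003080100000000806feff9f401fff1000000000e000000000000000018100000fa040028224400103ffffffffffffffffffffffffe18be020dd8fffffe397fdf7ffbe87fcffffff7fffffffffffe00000000700000000000000000c0800007d020014112200081fffffffffffffffffffffffff0c5f0106ec7fffff1cbfefbffdf43fe7fffffbffffffffffff)) (toL X3322.t []) (nat_lit 0x3ffffffffffffffffffffffffffffffffffffffffffffffffffffffffffffffffffffffffffffffffffffffffffffffffffffffffffffffffffffffffffffffffffffffffffffffffffffffffffffffffffffffffffffffffffffffffffffffffffffffffffffffffffffffffffffffffffffffffffffffffffffffffffffffffffffffffffffffffffffffffffffffffffffffffffffffffffffffffffffffffff) = true := by decide +kernel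
theorem kp4431_1 : kR N4431 (rawOf F4431) (fun u => Nat.beq u (nat_lit 0)) P4431_1 (nat_lit 0x10040030491fe0010048ff) = true := by decide +kernel
theorem kp6221_0 : kR N6221 (rawOf F6221) (fun u => Nat.beq u (nat_lit 0)) P6221_0 (nat_lit 0x4fffff) = true := by decide +kernel
theorem kx2222_192 : chkB N2222 X2222c192 (nat_lit 192) = true := by decide +kernel
theorem kx4222_320 : chkB N4222 X4222c320 (nat_lit 320) = true := by decide +kernel
theorem kx3332_128 : chkB N3332 X3332c128 (nat_lit 128) = true := by decide +kernel
theorem kx3333_192 : chkB N3333 X3333c192 (nat_lit 192) = true := by decide +kernel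
theorem kw4333_3 : wfT S4333_3 200 = true := by decide +kernel
theorem ke3321 : kB (fun u => Nat.beq u (nat_lit 0x4001399f00060000003ffffffff98503efe3ff3fffff00060000003ffffffff98503efe3ff3fffff)) (toL X3321.t []) (nat_lit 0x3fffffffffffffffffffffffffffffffffffffffffffffffffffffffffffffffffffffffffffffffff) = true := by decide +kernel
theorem kv3332_3 : wfT L3332_3 126 = true := by decide +kernel
theorem kx4421 : chkB N4421 X4421.t 0 = true := by decide +kernel
theorem kv5432_0 : wfT L5432_0 58 = true := by decide +kernel
theorem ka2100 : (wfT N2100 2 && wfT R2100 1) = true := by decide +kernel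
theorem ka3211 : (wfT N3211 90 && wfT R3211 1) = true := by decide +kernel
theorem ka6220 : (wfT N6220 1 && wfT R6220 1) = true := by decide +kernel
theorem ka5421 : (wfT N5421 30 && wfT R5421 1) = true := by decide +kernel
theorem ka5522 : (wfT N5522 26 && wfT R5522 1) = true := by decide +kernel
theorem kw1111_3 : wfT S1111_3 24 = true := by decide +kernel
theorem kx4111 : chkB N4111 X4111.t 0 = true := by decide +kernel
theorem kv6322_1 : wfT L6322_1 22 = true := by decide +kernel
theorem ke4311 : kB (fun u => Nat.beq u (nat_lit 0x7c5ffc2effffff)) (toL X4311.t []) (nat_lit 0x7fffffffffffff) = true := by decide +kernel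
theorem ke1000 : kB (fun u => Nat.beq u (nat_lit 0)) (toL X1000.t []) (nat_lit 1) = true := by decide +kernel
theorem kv2110_0 : wfT L2110_0 6 = true := by decide +kernel
theorem kx3310 : chkB N3310 X3310.t 0 = true := by decide +kernel
theorem ke4320 : kB (fun u => Nat.beq u (nat_lit 479)) (toL X4320.t []) (nat_lit 511) = true := by decide +kernel
theorem ke6221 : kB (fun u => Nat.beq u (nat_lit 0x4fffff)) (toL X6221.t []) (nat_lit 0x7fffff) = true := by decide +kernel
theorem kv5422_3 : wfT L5422_3 1 = true := by decide +kernel
theorem kv6432_2 : wfT L6432_2 1 = true := by decide +kernel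

end Pool.Agent.L3E.GJ
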