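import Pool.Agent.L3E.GJ.Pl

set_option autoImplicit false
set_option maxRecDepth 100000
set_option linter.unusedVariables false
set_option exponentiation.threshold 100000

/-! # L3E, module GJ.C3: kernel checks -/

namespace Pool.Agent.L3E.GJ

theorem kG2210_1 : gChk AT5 30011 [g2210_1] = true := by decide +kernel
theorem kG3221_3 : gChk AT8 30031 [g3221_3] = true := by decide +kernel
theorem kG3321_3 : gChk AT9 30039 [g3321_3] = true := by decide +kernel
theorem kG4222_0 : gChk AT10 30050 [g4222_0] = true := by decide +kernel
theorem kG3322_3 : gChk AT10 30052 [g3322_3] = true := by decide +kernel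
theorem kG5222_11 : gChk AT11 30055 [g5222_11] = true := by decide +kernel
theorem kG3332_1 : gChk AT11 30059 [g3332_1] = true := by decide +kernel
theorem kS1000_3 : chk2 (fun m => appM N1000 (rowL pS1000_3 m)) X1000.t S1000_3.t = true := by decide +kernel
theorem kS3220_2 : chk2 (fun m => appM N3220 (rowL pS3220_2 m)) X3220.t S3220_2.t = true := by decide +kernel
theorem kS2222_2_64 : chk2 (fun m => appM N2222 (rowL pS2222_2 m)) X2222c64 S2222_2c64 = true := by decide +kernel
theorem kS3222_2_192 : chk2 (fun m => appM N3222 (rowL pS3222_2 m)) X3222c192 S3222_2c192 = true := by decide +kernel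
theorem kS4222_3_256 : chk2 (fun m => appM N4222 (rowL pS4222_3 m)) X4222c256 S4222_3c256 = true := by decide +kernel
theorem kS3322_3_512 : chk2 (fun m => appM N3322 (rowL pS3322_3 m)) X3322c512 S3322_3c512 = true := by decide +kernel
theorem kS3332_1_448 : chk2 (fun m => appM N3332 (rowL pS3332_1 m)) X3332c448 S3332_1c448 = true := by decide +kernel
theorem kS4422_1_0 : chk2 (fun m => appM N4422 (rowL pS4422_1 m)) X4422c0 S4422_1c0 = true := by decide +kernel
theorem kS3333_1_832 : chk2 (fun m => appM N3333 (rowL pS3333_1 m)) X3333c832 S3333_1c832 = true := by decide +kernel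
theorem kS3333_3_576 : chk2 (fun m => appM N3333 (rowL pS3333_3 m)) X3333c576 S3333_3c576 = true := by decide +kernel
theorem kS5433_3 : chk2 (fun m => appM N5433 (rowL pS5433_3 m)) X5433.t S5433_3.t = true := by decide +kernel
theorem kL3221_0_0 : chk2 (fun m => appM N3221 (rowL pL3221_0 m)) X2221c0 L3221_0c0 = true := by decide +kernel
theorem kL3321_3 : chk2 (fun m => appM N3321 (rowL pL3321_3 m)) X3320.t L3321_3.t = true := by decide +kernel
theorem kL4330_2 : chk2 (fun m => appM N4330 (rowL pL4330_2 m)) X4320.t L4330_2.t = true := by decide +kernel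
theorem km3322_1 : kM (appM R3322) (fun u => Nat.beq u (nat_lit 0x37599e000000000000000000000000000000000000000141122000800000000000000000000000001085a0106e401596d00bbeabffda41de61bcb6b0dbffd7baccf)) M3322_1 (nat_lit 0x1d57ffb483bcc3796d61b7ffaf7599e000000000000000000000000000000000000000141122000800000000000000000000000001085a0106e401596d00bbeabffda41de61bcb6b0dbffd7baccf) = true := by decide +kernel
theorem kL5222_3 : chk2 (fun m => appM N5222 (rowL pL5222_3 m)) X5221.t L5222_3.t = true := by decide +kernel
theorem kL4322_1_192 : chk2 (fun m => appM N4322 (rowL pL4322_1 m)) X4222c192 L4322_1c192 = true := by decide +kernel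
theorem kL3332_3_0 : chk2 (fun m => appM N3332 (rowL pL3332_3 m)) X3331c0 L3332_3c0 = true := by decide +kernel
theorem kL5322_3 : chk2 (fun m => appM N5322 (rowL pL5322_3 m)) X5321.t L5322_3.t = true := by decide +kernel
theorem kL4332_0_0 : chk2 (fun m => appM N4332 (rowL pL4332_0 m)) X3332c0 L4332_0c0 = true := by decide +kernel
theorem km3333_4 : kM (appM R3333) (fun u => Nat.beq u (nat_lit 0x1affbfdfffffffd7ffec000000000000000000000000000000008200d08b79db0026a082980000000001c800808005880240640b2fa2a7effff9f6ffbffd4ff7f53469f7f5ff3fbef931812ff01c80c817fffd7fffffffffff7fffdffffe7fdfefebfeff7fffffff5fffb0000000000000000000000000000000020803422de76c009a820a6000000000072002020016200901902cbe8a9fbfffe7dbfefff53fdfd4d1a7dfd7fcfefbe4c604bfc07203205ffff5fffffffffffdffff7ffff9ff7fbfaffbfdfffffffd7ffec000000000000000000000000000000008200d08b79db0026a082980000000001c800808005880240640b2fa2a7effff9f6ffbffd4ff7f53469f7f5ff3fbef931812ff01c80c817fffd7fffffffffff7fffdffffe7fdfefebfeff7fffffff5fffb)) M3333_4 (nat_lit 0x7dffff7ffff9ff7fbfaffbfdfffffffd7ffec000000000000000000000000000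000008200d08b79db0026a082980000000001c800808005880240640b2fa2a7effff9f6ffbffd4ff7f53469f7f5ff3fbef931812ff01c80c817fffd7fffffffffff7fffdffffe7fdfefebfeff7fffffff5fffb0000000000000000000000000000000020803422de76c009a820a6000000000072002020016200901902cbe8a9fbfffe7dbfefff53fdfd4d1a7dfd7fcfefbe4c604bfc07203205ffff5fffffffffffdffff7ffff9ff7fbfaffbfdfffffffd7ffec000000000000000000000000000000008200d08b79db0026a082980000000001c800808005880240640b2fa2a7effff9f6ffbffd4ff7f53469f7f5ff3fbef931812ff01c80c817fffd7fffffffffff7fffdffffe7fdfefebfeff7fffffff5fffb) = true := by decide +kernel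
theorem kL3333_3_256 : chk2 (fun m => appM N3333 (rowL pL3333_3 m)) X3332c256 L3333_3c256 = true := by decide +kernel
theorem kL5332_0_64 : chk2 (fun m => appM N5332 (rowL pL5332_0 m)) X4332c64 L5332_0c64 = true := by decide +kernel
theorem km4333_8 : kM (appM R4333) (fun u => Nat.beq u (nat_lit 0x3ffffffffffffffffbfffffffffffffffffffb2fa0c54280801fd0038004928000101028001008009007602200)) M4333_8 (nat_lit 0x7fffffffbffffffffffffffffffffffffbfffffffffffffffffffb2fa0c54280801fd0038004928000101028001008009007602200) = true := by decide +kernel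
theorem kL7322_0 : chk2 (fun m => appM N7322 (rowL pL7322_0 m)) X6322.t L7322_0.t = true := by decide +kernel
theorem kL6432_2 : chk2 (fun m => appM N6432 (rowL pL6432_2 m)) X6422.t L6432_2.t = true := by decide +kernel
theorem kc2222_32 : coreNF N2222 (rawOf F2222) (toL R2222c32 []) C2222_32 = true := by decide +kernel
theorem kp3222_1 : kR N3222 (rawOf F3222) (fun u => Nat.beq u (nat_lit 0x497ff901413ffc0700000000000000000000417ff901413ffc0700000000000000000000497ff901413ffc0700000000000000000000080000000020578000000007813e40f017658ef87fd6cb3df327ff8006000018005640003024b02)) P3222_1 (nat_lit 0x110000000000000000004b7ff901413ffc07110000000000000000004b7ff901413ffc07530000000000000000004f7ff901413ffc07000000000000000000005c00020000205780000000078bbe40f017658ef87fd6cb3df3ffff902f974838777f6e97f1eef52) = true := by decide +kernel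
theorem kc3331_112 : coreNF N3331 (rawOf F3331) (toL R3331c112 []) C3331_112 = true := by decide +kernel
theorem kp3322_3 : kR N3322 (rawOf F3322) (fun u => Nat.beq u (nat_lit 0x100000000800def79f401d9f000000000000100000000800def79f401d9f000000000000000000000000000001000000a040028224400100000000000000000002200150218be020dd8c6fffe197fdf7ffbc87fcf3ffff7fffffffffffe000000000000000000000000000080000050200141122000800000000000000000011000a810c5f0106ec637fff0cbfefbffde43fe71ffffb7fffffffffff)) P3322_3 (nat_lit 0x80100000000800feff9f401fff100000001080100000000802feff9f401fff100000000000000000000000000181000003a04002822440010000200a1420210292a6a00150218be020dd8fffffe397fdf7ffbe87fcffffff7fffffffffffe00000000000000000000000000c0800000d0200141122000800000050000000140135000a810c5f0106ec7fffff1cbfefbffdf43fe7fffffbffffffffffff) = true := by decide +kernel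
theorem kc4322_144 : coreNF N4322 (rawOf F4322) (toL R4322c144 []) C4322_144 = true := by decide +kernel
theorem kc3332_112 : coreNF N3332 (rawOf F3332) (toL R3332c112 []) C3332_112 = true := by decide +kernel
theorem kc3332_496 : coreNF N3332 (rawOf F3332) (toL R3332c496 []) C3332_496 = true := by decide +kernel
theorem kc5322_48 : coreNF N5322 (rawOf F5322) (toL R5322c48 []) C5322_48 = true := by decide +kernel
theorem kc4422_192 : coreNF N4422 (rawOf F4422) (toL R4422c192 []) C4422_192 = true := by decide +kernel
theorem kc4332_240 : coreNF N4332 (rawOf F4332) (toL R4332c240 []) C4332_240 = true := by decide +kernel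
theorem kc4332_624 : coreNF N4332 (rawOf F4332) (toL R4332c624 []) C4332_624 = true := by decide +kernel
theorem kc3333_160 : coreNF N3333 (rawOf F3333) (toL R3333c160 []) C3333_160 = true := by decide +kernel
theorem kc3333_544 : coreNF N3333 (rawOf F3333) (toL R3333c544 []) C3333_544 = true := by decide +kernel
theorem kc3333_928 : coreNF N3333 (rawOf F3333) (toL R3333c928 []) C3333_928 = true := by decide +kernel
theorem kc3333_1312 : coreNF N3333 (rawOf F3333) (toL R3333c1312 []) C3333_1312 = true := by decide +kernel
theorem kp3333_9 : kR N3333 (rawOf F3333) (fun u => Nat.beq u (nat_lit 0x10008800000000000020803422de76c009aa20a6000000000072002020016200901902dbeca9fffffe7dbfefff73fdfd4f9a7dfd7fcfefbe4c604bfc07203205ffff5fffffffffffdfffffffffdff7fbfeffbfffffffffd7ffec000000000000004002200000000000008200d08b79db0026a882980000000001c800808005880240640b6fb2a7fffff9f6ffbffdcff7f53e69f7f5ff3fbef931812ff01c80c817fffd7fffffffffff7fffffffff7fdfeffbfeffffffffff5fffb0000000000000010008800000000000020803422de76c009aa20a6000000000072002020016200901902dbeca9fffffe7dbfefff73fdfd4f9a7dfd7fcfefbe4c604bfc07203205ffff5fffffffffffdfffffffffdff7fbfeffbfffffffffd7ffec000000000000004002200000000000008200d08b79db0026a882980000000001c800808005880240640b6fb2a7fffff9f6ffbffdcff7f53e69f7f5ff3fbef931812ff01c80c817fffd7fffffffffff7fffffffff7fdfeffbfeffffffffff5fffb))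 P3333_9 (nat_lit 0x90000001901cc00000000000020803422de76c009aa20a6000000000072002020016200901902fbeca9fffffe7dbfefff73fdfd4fda7ffd7fcfffbe4c604bfc07303205ffffdfffffffffffdfffffffffdffffffeffffffffffffd7fffc000000240000006407300000000000008200d08b79db0026a882980000000001c800808005880240640beff2a7fffff9f6ffbfffcff7f53f69fff5ff3ffef931812ff01cc0c817fffd7fffffffffff7fffffffff7fdffffbffffffffffff5ffff000000090000001901cc00000000000020803422de76c009aa20a6000000000072002020016200901902fbfca9fffffe7dbfeffff3fdfd4fda7dfd7fcfefbe4c604bfc07303205ffff5fffffffffffdfffffffffdff7fffeffffffffffffd7fffc000000240000006407300000000000008200d08b79db0026a882980000000001c800808005880240640beff2a7fffff9f6ffbfffcff7f53f69f7f5ff3fbef931812ff01cc0c817fffd7fffffffffff7fffffffff7fdffffbffffffffffff5ffff) = true := by decide +kernel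
theorem kp4432_9 : kR N4432 (rawOf F4432) (fun u => Nat.beq u (nat_lit 0x638082100a00220108c2e144200030000240410000000000000000000000000000000000000000040200180a0000004100e442020400048082000000000000000000000000000000000000000008040030140000008201c8840408)) P4432_9 (nat_lit 0x638082100a002281dae3e764340030000240410000000009000001200000000000000000000000040200d9fa0088104521e5c313ce000480820000000012000002400000000000000000000000080401b3f40110208a43cb86279c) = true := by decide +kernel
theorem kc4333_368 : coreNF N4333 (rawOf F4333) (toL R4333c368 []) C4333_368 = true := by decide +kernel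
theorem kc4333_752 : coreNF N4333 (rawOf F4333) (toL R4333c752 []) C4333_752 = true := by decide +kernel
theorem kp4433_2 : kR N4433 (rawOf F4433) (fun u => Nat.beq u (nat_lit 0x83e0107f00396c70f80e1fc1e6947c7ff3fffbf8c3c2404520061805dff7ffeffffedeffc1e6947c7ff3fffbf8c3c2404520061805dff7ffabbf7ec69f0)) P4433_2 (nat_lit 0xe5b1c3e0387f00396c70f80e1fc1f6dc7c7ff3fffbffcffe4845a6061835fffffffffffffefff1f6dc7c7ff3fffbffcfee4845a6061835dff7ffeffffedeffc) = true := by decide +kernel
theorem kp4311_0 : kR N4311 (rawOf F4311) (fun u => Nat.beq u (nat_lit 0)) P4311_0 (nat_lit 0x7c5ffc2effffff) = true := by decide +kernel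
theorem kv4222_0 : wfT L4222_0 501 = true := by decide +kernel
theorem ke4322 : kB (fun u => Nat.beq u (nat_lit 0x8080006017c099ff18080006017c099ff1850f0000c020111e143c060350c0447fffffffffffffffd5e5fc520fffd7ef97d9df1bffbdf7ff7ffbfffbfffffc000000700000000000380002300d5af806608032f81dff4bff97ffdaffffffff7ffffbff7fefff6fffffff7fffbffffffffffffffffffffffffffffffffffffffffffffffffffffffffffffffffffff)) (toL X4322.t []) (nat_lit 0xfffffffffffffffffffffffffffffffffffffffffffffffffffffffffffffffffffffffffffffffffffffffffffffffffffffffffffffffffffffffffffffffffffffffffffffffffffffffffffffffffffffffffffffffffffffffffffffffffffffffffffffffffffffffffffffffffffffffffffffffffffffffffffffffffffffffffffffffffffffffffffff) = true := by decide +kernel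
theorem kp5211_0 : kR N5211 (rawOf F5211) (fun u => Nat.beq u (nat_lit 0)) P5211_0 (nat_lit 262143) = true := by decide +kernel
theorem kx3222_256 : chkB N3222 X3222c256 (nat_lit 256) = true := by decide +kernel
theorem kx5222_0 : chkB N5222 X5222c0 (nat_lit 0) = true := by decide +kernel
theorem kx4422_0 : chkB N4422 X4422c0 (nat_lit 0) = true := by decide +kernel
theorem kx4333_128 : chkB N4333 X4333c128 (nat_lit 128) = true := by decide +kernel
theorem ke3221 : kB (fun u => Nat.beq u (nat_lit 0x700000af07f01c00002bc1fc00000000001af0400f9967fe3ffffffffff)) (toL X3221.t []) (nat_lit 0x3fffffffffffffffffffffffffffffffffffffffffffffffffffffffffffff) = true := by decide +kernel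
theorem kw2221_2 : wfT S2221_2 138 = true := by decide +kernel
theorem kp5442_0 : kR N5442 (rawOf F5442) (fun u => Nat.beq u (nat_lit 0)) P5442_0 (nat_lit 63) = true := by decide +kernel
theorem kw2211_3 : wfT S2211_3 60 = true := by decide +kernel
theorem kx2220 : chkB N2220 X2220.t 0 = true := by decide +kernel
theorem ka1111 : (wfT N1111 24 && wfT R1111 1) = true := by decide +kernel
theorem ka4220 : (wfT N4220 10 && wfT R4220 1) = true := by decide +kernel
theorem ka4420 : (wfT N4420 2 && wfT R4420 1) = true := by decide +kernel
theorem kv4431_1 : wfT L4431_1 37 = true := by decide +kernel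
theorem ka7422 : (wfT N7422 1 && wfT R7422 1) = true := by decide +kernel
theorem kp3311_1 : kR N3311 (rawOf F3311) (fun u => Nat.beq u (nat_lit 0)) P3311_1 (nat_lit 0x800000000008000) = true := by decide +kernel
theorem kv6221_0 : wfT L6221_0 23 = true := by decide +kernel
theorem kx3110 : chkB N3110 X3110.t 0 = true := by decide +kernel
theorem kv4321_2 : wfT L4321_2 10 = true := by decide +kernel
theorem ke1100 : kB (fun u => Nat.beq u (nat_lit 0)) (toL X1100.t []) (nat_lit 3) = true := by decide +kernel
theorem kv3110_0 : wfT L3110_0 6 = true := by decide +kernel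
theorem kv5210_0 : wfT L5210_0 1 = true := by decide +kernel
theorem kv3330_2 : wfT L3330_2 4 = true := by decide +kernel
theorem kv6321_1 : wfT L6321_1 2 = true := by decide +kernel
theorem kv8222_0 : wfT L8222_0 2 = true := by decide +kernel
theorem kv5442_2 : wfT L5442_2 3 = true := by decide +kernel

end Pool.Agent.L3E.GJ
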