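import Pool.Agent.L3E.GJ.Pl

set_option autoImplicit false
set_option maxRecDepth 100000
set_option linter.unusedVariables false
set_option exponentiation.threshold 100000

/-! # L3E, module GJ.C4: kernel checks -/

namespace Pool.Agent.L3E.GJ

theorem kG2211_0 : gChk AT6 30017 [g2211_0] = true := by decide +kernel
theorem kG2222_0 : gChk AT8 30032 [g2222_0] = true := by decide +kernel
theorem kG3321_4 : gChk AT9 30039 [g3321_4] = true := by decide +kernel
theorem kG4222_1 : gChk AT10 30050 [g4222_1] = true := by decide +kernel
theorem kG3322_4 : gChk AT10 30052 [g3322_4] = true := by decide +kernel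
theorem kG5222_12 : gChk AT11 30055 [g5222_12] = true := by decide +kernel
theorem kG3332_2 : gChk AT11 30059 [g3332_2] = true := by decide +kernel
theorem kS1100_1 : chk2 (fun m => appM N1100 (rowL pS1100_1 m)) X1100.t S1100_1.t = true := by decide +kernel
theorem kS3211_3 : chk2 (fun m => appM N3211 (rowL pS3211_3 m)) X3211.t S3211_3.t = true := by decide +kernel
theorem kS2222_2_128 : chk2 (fun m => appM N2222 (rowL pS2222_2 m)) X2222c128 S2222_2c128 = true := by decide +kernel
theorem kS3222_2_256 : chk2 (fun m => appM N3222 (rowL pS3222_2 m)) X3222c256 S3222_2c256 = true := by decide +kernel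
theorem kS4222_3_320 : chk2 (fun m => appM N4222 (rowL pS4222_3 m)) X4222c320 S4222_3c320 = true := by decide +kernel
theorem kS3322_3_576 : chk2 (fun m => appM N3322 (rowL pS3322_3 m)) X3322c576 S3322_3c576 = true := by decide +kernel
theorem kS3332_1_512 : chk2 (fun m => appM N3332 (rowL pS3332_1 m)) X3332c512 S3332_1c512 = true := by decide +kernel
theorem kS4422_1_64 : chk2 (fun m => appM N4422 (rowL pS4422_1 m)) X4422c64 S4422_1c64 = true := by decide +kernel
theorem kS3333_2_0 : chk2 (fun m => appM N3333 (rowL pS3333_2 m)) X3333c0 S3333_2c0 = true := by decide +kernel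
theorem kS3333_3_640 : chk2 (fun m => appM N3333 (rowL pS3333_3 m)) X3333c640 S3333_3c640 = true := by decide +kernel
theorem kS4443_1 : chk2 (fun m => appM N4443 (rowL pS4443_1 m)) X4443.t S4443_1.t = true := by decide +kernel
theorem kL3221_0_64 : chk2 (fun m => appM N3221 (rowL pL3221_0 m)) X2221c64 L3221_0c64 = true := by decide +kernel
theorem km3222_0 : kM (appM R3222) (fun u => Nat.beq u (nat_lit 0x1d2c83d9205bd8000000000000000000000000)) M3222_0 (nat_lit 0x4040a9004111a000000000000000000000004040a9004111a000000000000000000000004040a9004111a00000000000000000000000000000000000560000000005802400a013448ec86fd2c83d9205bd8000000000000000000000000) = true := by decide +kernel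
theorem kL4321_0_0 : chk2 (fun m => appM N4321 (rowL pL4321_0 m)) X3321c0 L4321_0c0 = true := by decide +kernel
theorem km3322_2 : kM (appM R3322) (fun u => Nat.beq u (nat_lit 0x3da41de61bcb6b0dbffd7baccf)) M3322_2 (nat_lit 0x37599e000000000000000000000000000000000000000141122000800000000000000000000000001085a0106e401596d00bbeabffda41de61bcb6b0dbffd7baccf) = true := by decide +kernel
theorem kL4421_1_0 : chk2 (fun m => appM N4421 (rowL pL4421_1 m)) X4321c0 L4421_1c0 = true := by decide +kernel
theorem kL4322_1_256 : chk2 (fun m => appM N4322 (rowL pL4322_1 m)) X4222c256 L4322_1c256 = true := by decide +kernel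
theorem kL3332_3_64 : chk2 (fun m => appM N3332 (rowL pL3332_3 m)) X3331c64 L3332_3c64 = true := by decide +kernel
theorem kL4431_1 : chk2 (fun m => appM N4431 (rowL pL4431_1 m)) X4331.t L4431_1.t = true := by decide +kernel
theorem kL4332_0_64 : chk2 (fun m => appM N4332 (rowL pL4332_0 m)) X3332c64 L4332_0c64 = true := by decide +kernel
theorem km3333_5 : kM (appM R3333) (fun u => Nat.beq u (nat_lit 0x6c000000000000000000000000000000008200d08b79db0026a082980000000001c800808005880240640b2fa2a7effff9f6ffbffd4ff7f53469f7f5ff3fbef931812ff01c80c817fffd7fffffffffff7fffdffffe7fdfefebfeff7fffffff5fffb0000000000000000000000000000000020803422de76c009a820a6000000000072002020016200901902cbe8a9fbfffe7dbfefff53fdfd4d1a7dfd7fcfefbe4c604bfc07203205ffff5fffffffffffdffff7ffff9ff7fbfaffbfdfffffffd7ffec000000000000000000000000000000008200d08b79db0026a082980000000001c800808005880240640b2fa2a7effff9f6ffbffd4ff7f53469f7f5ff3fbef931812ff01c80c817fffd7fffffffffff7fffdffffe7fdfefebfeff7fffffff5fffb)) M3333_5 (nat_lit 0x1affbfdfffffffd7ffec000000000000000000000000000000008200d08b79db0026a082980000000001c800808005880240640b2fa2a7effff9f6ffbffd4ff7f53469f7f5ff3fbef931812ff01c80c817fffd7fffffffffff7fffdffffe7fdfefebfeff7fffffff5fffb0000000000000000000000000000000020803422de76c009a820a6000000000072002020016200901902cbe8a9fbfffe7dbfefff53fdfd4d1a7dfd7fcfefbe4c604bfc07203205ffff5fffffffffffdffff7ffff9ff7fbfaffbfdfffffffd7ffec000000000000000000000000000000008200d08b79db0026a082980000000001c800808005880240640b2fa2a7effff9f6ffbffd4ff7f53469f7f5ff3fbef931812ff01c80c817fffd7fffffffffff7fffdffffe7fdfefebfeff7fffffff5fffb)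 = true := by decide +kernel
theorem kL3333_3_320 : chk2 (fun m => appM N3333 (rowL pL3333_3 m)) X3332c320 L3333_3c320 = true := by decide +kernel
theorem kL5332_0_128 : chk2 (fun m => appM N5332 (rowL pL5332_0 m)) X4332c128 L5332_0c128 = true := by decide +kernel
theorem km4333_9 : kM (appM R4333) (fun u => Nat.beq u (nat_lit 0x3bfffffffffffffffffffb2fa0c54280801fd0038004928000101028001008009007602200)) M4333_9 (nat_lit 0x3ffffffffffffffffbfffffffffffffffffffb2fa0c54280801fd0038004928000101028001008009007602200) = true := by decide +kernel
theorem kL7322_1 : chk2 (fun m => appM N7322 (rowL pL7322_1 m)) X7222.t L7322_1.t = true := by decide +kernel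
theorem kL6333_0 : chk2 (fun m => appM N6333 (rowL pL6333_0 m)) X5333.t L6333_0.t = true := by decide +kernel
theorem kp2222_0 : kR N2222 (rawOf F2222) (fun u => Nat.beq u (nat_lit 0x80400000002174e55dbc000000000000002010000000085d39576f00000000000000080400000002174e55dbc000000000000002010000000085d39576f)) P2222_0 (nat_lit 0xfff000000000000c0400000003175e57dbfffc0000000000030100000000c5d795f6ffff000000000000c0400000003175e57dbfffc0000000000030100000000c5d795f6f) = true := by decide +kernel
theorem kp3222_2 : kR N3222 (rawOf F3222) (fun u => Nat.beq u (nat_lit 0x4044a9014111e800000000000000000000004044a9014139e800000000000000000000004044a9014111e80000000000000000000000000000000020570000000007802e40b017658ef86fd6cb3df205ff8006000018005640003000a00)) P3222_2 (nat_lit 0x497ff901413ffc0700000000000000000000417ff901413ffc0700000000000000000000497ff901413ffc0700000000000000000000080000000020578000000007813e40f017658ef87fd6cb3df327ff8006000018005640003024b02) = true := by decide +kernel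
theorem kc3331_128 : coreNF N3331 (rawOf F3331) (toL R3331c128 []) C3331_128 = true := by decide +kernel
theorem kp3322_4 : kR N3322 (rawOf F3322) (fun u => Nat.beq u (nat_lit 0x80002f396401c8800000000000000000000080002f396401c880000000000000000000000000000010000000000028224400100000000000000000002200010218b4020dd886bfde197fdf7ffb487fcc37fef6fffffefffbde0000000000000000000000000000800000000001411220008000000000000000000110000810c5a0106ec435fef0cbfefbffda43fe61bff7b7fffff7ffdef)) P3322_4 (nat_lit 0x100000000800def79f401d9f000000000000100000000800def79f401d9f000000000000000000000000000001000000a040028224400100000000000000000002200150218be020dd8c6fffe197fdf7ffbc87fcf3ffff7fffffffffffe000000000000000000000000000080000050200141122000800000000000000000011000a810c5f0106ec637fff0cbfefbffde43fe71ffffb7fffffffffff) = true := by decide +kernel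
theorem kc4322_160 : coreNF N4322 (rawOf F4322) (toL R4322c160 []) C4322_160 = true := by decide +kernel
theorem kc3332_128 : coreNF N3332 (rawOf F3332) (toL R3332c128 []) C3332_128 = true := by decide +kernel
theorem kc3332_512 : coreNF N3332 (rawOf F3332) (toL R3332c512 []) C3332_512 = true := by decide +kernel
theorem kc5322_64 : coreNF N5322 (rawOf F5322) (toL R5322c64 []) C5322_64 = true := by decide +kernel
theorem kc4422_208 : coreNF N4422 (rawOf F4422) (toL R4422c208 []) C4422_208 = true := by decide +kernel
theorem kc4332_256 : coreNF N4332 (rawOf F4332) (toL R4332c256 []) C4332_256 = true := by decide +kernel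
theorem kc4332_640 : coreNF N4332 (rawOf F4332) (toL R4332c640 []) C4332_640 = true := by decide +kernel
theorem kc3333_176 : coreNF N3333 (rawOf F3333) (toL R3333c176 []) C3333_176 = true := by decide +kernel
theorem kc3333_560 : coreNF N3333 (rawOf F3333) (toL R3333c560 []) C3333_560 = true := by decide +kernel
theorem kc3333_944 : coreNF N3333 (rawOf F3333) (toL R3333c944 []) C3333_944 = true := by decide +kernel
theorem kc3333_1328 : coreNF N3333 (rawOf F3333) (toL R3333c1328 []) C3333_1328 = true := by decide +kernel
theorem kp6322_0 : kR N6322 (rawOf F6322) (fun u => Nat.beq u (nat_lit 0x28d23e010870d7ff400004000c)) P6322_0 (nat_lit 0x7ff67f7bffffffffffffffffff) = true := by decide +kernel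
theorem kc4333_0 : coreNF N4333 (rawOf F4333) (toL R4333c0 []) C4333_0 = true := by decide +kernel
theorem kc4333_384 : coreNF N4333 (rawOf F4333) (toL R4333c384 []) C4333_384 = true := by decide +kernel
theorem kc4333_768 : coreNF N4333 (rawOf F4333) (toL R4333c768 []) C4333_768 = true := by decide +kernel
theorem kp4433_3 : kR N4433 (rawOf F4433) (fun u => Nat.beq u (nat_lit 0x83e0107f00000020f8041fc1e694441e137df2f8c3c24004000000055ff5ffabbf7ec69f01e694441e13fdf2f8c3c2400400000005dff5ffabbf7ec69f0)) P4433_3 (nat_lit 0x83e0107f00396c70f80e1fc1e6947c7ff3fffbf8c3c2404520061805dff7ffeffffedeffc1e6947c7ff3fffbf8c3c2404520061805dff7ffabbf7ec69f0) = true := by decide +kernel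
theorem km3321_0 : kM (appM R3321) (fun u => Nat.beq u (nat_lit 0)) M3321_0 (nat_lit 0x8001ac410011ea00000000000000000000008001ac410011ea00) = true := by decide +kernel
theorem kv3322_1 : wfT L3322_1 501 = true := by decide +kernel
theorem kw4322_3 : wfT S4322_3 374 = true := by decide +kernel
theorem kc5321 : coreNF N5321 (rawOf F5321) (toL R5321.t []) C5321 = true := by decide +kernel
theorem kx3222_64 : chkB N3222 X3222c64 (nat_lit 64) = true := by decide +kernel
theorem kx3322_448 : chkB N3322 X3322c448 (nat_lit 448) = true := by decide +kernel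
theorem kx3332_768 : chkB N3332 X3332c768 (nat_lit 768) = true := by decide +kernel
theorem kx3333_832 : chkB N3333 X3333c832 (nat_lit 832) = true := by decide +kernel
theorem kc6322 : coreNF N6322 (rawOf F6322) (toL R6322.t []) C6322 = true := by decide +kernel
theorem kx3311 : chkB N3311 X3311.t 0 = true := by decide +kernel
theorem kp5433_1 : kR N5433 (rawOf F5433) (fun u => Nat.beq u (nat_lit 0)) P5433_1 (nat_lit 0x8c010000000a0000) = true := by decide +kernel
theorem kv3211_0 : wfT L3211_0 60 = true := by decide +kernel
theorem ke3211 : kB (fun u => Nat.beq u (nat_lit 0xc023f000000b2effffff)) (toL X3211.t []) (nat_lit 0x3ffffffffffffffffffffff) = true := by decide +kernel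
theorem ka3110 : (wfT N3110 6 && wfT R3110 1) = true := by decide +kernel
theorem ka4211 : (wfT N4211 57 && wfT R4211 1) = true := by decide +kernel
theorem ka4411 : (wfT N4411 20 && wfT R4411 1) = true := by decide +kernel
theorem ka4422 : (wfT N4422 788 && wfT R4422 236) = true := by decide +kernel
theorem ka6522 : (wfT N6522 1 && wfT R6522 1) = true := by decide +kernel
theorem kp5320_0 : kR N5320 (rawOf F5320) (fun u => Nat.beq u (nat_lit 0)) P5320_0 (nat_lit 3) = true := by decide +kernel
theorem kv5321_1 : wfT L5321_1 23 = true := by decide +kernel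
theorem kx3210 : chkB N3210 X3210.t 0 = true := by decide +kernel
theorem kx6221 : chkB N6221 X6221.t 0 = true := by decide +kernel
theorem kw1100_1 : wfT S1100_1 2 = true := by decide +kernel
theorem ke2210 : kB (fun u => Nat.beq u (nat_lit 1235)) (toL X2210.t []) (nat_lit 4095) = true := by decide +kernel
theorem kx5111 : chkB N5111 X5111.t 0 = true := by decide +kernel
theorem kv3321_3 : wfT L3321_3 4 = true := by decide +kernel
theorem kv6222_3 : wfT L6222_3 2 = true := by decide +kernel
theorem kx7322 : chkB N7322 X7322.t 0 = true := by decide +kernel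
theorem ke5433 : kB (fun u => Nat.beq u (nat_lit 0xfefffffdffffffffff)) (toL X5433.t []) (nat_lit 0xffffffffffffffffff) = true := by decide +kernel

end Pool.Agent.L3E.GJ
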