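import Pool.Agent.L3E.GJ.Pl

set_option autoImplicit false
set_option maxRecDepth 100000
set_option linter.unusedVariables false
set_option exponentiation.threshold 100000

/-! # L3E, module GJ.C5: kernel checks -/

namespace Pool.Agent.L3E.GJ

theorem kG2211_1 : gChk AT6 30017 [g2211_1] = true := by decide +kernel
theorem kG2222_1 : gChk AT8 30032 [g2222_1] = true := by decide +kernel
theorem kG3321_5 : gChk AT9 30039 [g3321_5] = true := by decide +kernel
theorem kG4222_2 : gChk AT10 30050 [g4222_2] = true := by decide +kernel
theorem kG3322_5 : gChk AT10 30052 [g3322_5] = true := by decide +kernel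
theorem kG5222_13 : gChk AT11 30055 [g5222_13] = true := by decide +kernel
theorem kG3332_3 : gChk AT11 30059 [g3332_3] = true := by decide +kernel
theorem kS1100_3 : chk2 (fun m => appM N1100 (rowL pS1100_3 m)) X1100.t S1100_3.t = true := by decide +kernel
theorem kS2221_1_0 : chk2 (fun m => appM N2221 (rowL pS2221_1 m)) X2221c0 S2221_1c0 = true := by decide +kernel
theorem kS2222_2_192 : chk2 (fun m => appM N2222 (rowL pS2222_2 m)) X2222c192 S2222_2c192 = true := by decide +kernel
theorem kS3222_2_320 : chk2 (fun m => appM N3222 (rowL pS3222_2 m)) X3222c320 S3222_2c320 = true := by decide +kernel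
theorem kS3331_1_0 : chk2 (fun m => appM N3331 (rowL pS3331_1 m)) X3331c0 S3331_1c0 = true := by decide +kernel
theorem kS6221_2 : chk2 (fun m => appM N6221 (rowL pS6221_2 m)) X6221.t S6221_2.t = true := by decide +kernel
theorem kS3332_1_576 : chk2 (fun m => appM N3332 (rowL pS3332_1 m)) X3332c576 S3332_1c576 = true := by decide +kernel
theorem kS4422_1_128 : chk2 (fun m => appM N4422 (rowL pS4422_1 m)) X4422c128 S4422_1c128 = true := by decide +kernel
theorem kS3333_2_64 : chk2 (fun m => appM N3333 (rowL pS3333_2 m)) X3333c64 S3333_2c64 = true := by decide +kernel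
theorem kS3333_3_704 : chk2 (fun m => appM N3333 (rowL pS3333_3 m)) X3333c704 S3333_3c704 = true := by decide +kernel
theorem kS4443_2 : chk2 (fun m => appM N4443 (rowL pS4443_2 m)) X4443.t S4443_2.t = true := by decide +kernel
theorem kL3221_0_128 : chk2 (fun m => appM N3221 (rowL pL3221_0 m)) X2221c128 L3221_0c128 = true := by decide +kernel
theorem kL3222_0_0 : chk2 (fun m => appM N3222 (rowL pL3222_0 m)) X2222c0 L3222_0c0 = true := by decide +kernel
theorem kL4321_0_64 : chk2 (fun m => appM N4321 (rowL pL4321_0 m)) X3321c64 L4321_0c64 = true := by decide +kernel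
theorem km3322_3 : kM (appM R3322) (fun u => Nat.beq u (nat_lit 0)) M3322_3 (nat_lit 0x3da41de61bcb6b0dbffd7baccf) = true := by decide +kernel
theorem kL4421_1_64 : chk2 (fun m => appM N4421 (rowL pL4421_1 m)) X4321c64 L4421_1c64 = true := by decide +kernel
theorem kL4322_1_320 : chk2 (fun m => appM N4322 (rowL pL4322_1 m)) X4222c320 L4322_1c320 = true := by decide +kernel
theorem kL7221_0 : chk2 (fun m => appM N7221 (rowL pL7221_0 m)) X6221.t L7221_0.t = true := by decide +kernel
theorem kL4431_2 : chk2 (fun m => appM N4431 (rowL pL4431_2 m)) X4421.t L4431_2.t = true := by decide +kernel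
theorem kL4332_0_128 : chk2 (fun m => appM N4332 (rowL pL4332_0 m)) X3332c128 L4332_0c128 = true := by decide +kernel
theorem km3333_6 : kM (appM R3333) (fun u => Nat.beq u (nat_lit 0x1effff9f6ffbffd4ff7f53469f7f5ff3fbef931812ff01c80c817fffd7fffffffffff7fffdffffe7fdfefebfeff7fffffff5fffb0000000000000000000000000000000020803422de76c009a820a6000000000072002020016200901902cbe8a9fbfffe7dbfefff53fdfd4d1a7dfd7fcfefbe4c604bfc07203205ffff5fffffffffffdffff7ffff9ff7fbfaffbfdfffffffd7ffec000000000000000000000000000000008200d08b79db0026a082980000000001c800808005880240640b2fa2a7effff9f6ffbffd4ff7f53469f7f5ff3fbef931812ff01c80c817fffd7fffffffffff7fffdffffe7fdfefebfeff7fffffff5fffb)) M3333_6 (nat_lit 0x6c000000000000000000000000000000008200d08b79db0026a082980000000001c800808005880240640b2fa2a7effff9f6ffbffd4ff7f53469f7f5ff3fbef931812ff01c80c817fffd7fffffffffff7fffdffffe7fdfefebfeff7fffffff5fffb0000000000000000000000000000000020803422de76c009a820a6000000000072002020016200901902cbe8a9fbfffe7dbfefff53fdfd4d1a7dfd7fcfefbe4c604bfc07203205ffff5fffffffffffdffff7ffff9ff7fbfaffbfdfffffffd7ffec000000000000000000000000000000008200d08b79db0026a082980000000001c800808005880240640b2fa2a7effff9f6ffbffd4ff7f53469f7f5ff3fbef931812ff01c80c817fffd7fffffffffff7fffdffffe7fdfefebfeff7fffffff5fffb)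 = true := by decide +kernel
theorem kL3333_3_384 : chk2 (fun m => appM N3333 (rowL pL3333_3 m)) X3332c384 L3333_3c384 = true := by decide +kernel
theorem kL5332_0_192 : chk2 (fun m => appM N5332 (rowL pL5332_0 m)) X4332c192 L5332_0c192 = true := by decide +kernel
theorem km4333_10 : kM (appM R4333) (fun u => Nat.beq u (nat_lit 0x1ffffb2fa0c54280801fd0038004928000101028001008009007602200)) M4333_10 (nat_lit 0x3bfffffffffffffffffffb2fa0c54280801fd0038004928000101028001008009007602200) = true := by decide +kernel
theorem kL6422_0 : chk2 (fun m => appM N6422 (rowL pL6422_0 m)) X5422.t L6422_0.t = true := by decide +kernel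
theorem kL5532_1 : chk2 (fun m => appM N5532 (rowL pL5532_1 m)) X5432.t L5532_1.t = true := by decide +kernel
theorem kp4221_0 : kR N4221 (rawOf F4221) (fun u => Nat.beq u (nat_lit 0x1c0000e00000003000a1a7bc82e999000d8004006200)) P4221_0 (nat_lit 0x1019c080ce00000003180a1a7bce2efffffffffffffffff) = true := by decide +kernel
theorem kp5221_0 : kR N5221 (rawOf F5221) (fun u => Nat.beq u (nat_lit 0x6e120000000000000)) P5221_0 (nat_lit 0x90c0417edffffffffffffff) = true := by decide +kernel
theorem kc3331_144 : coreNF N3331 (rawOf F3331) (toL R3331c144 []) C3331_144 = true := by decide +kernel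
theorem kp3322_5 : kR N3322 (rawOf F3322) (fun u => Nat.beq u (nat_lit 0x80002f38440108800000000000000000000080002f3844010880000000000000000000000000000000000000000028224400100000000000000000000200000210b4020dc802b2da0177d57ffb483fcc3796f6bb7ffaff59de000000000000000000000000000000000000000141122000800000000000000000001000001085a0106e401596d00bbeabffda41fe61bcb7b1dbffd7faccf)) P3322_5 (nat_lit 0x80002f396401c8800000000000000000000080002f396401c880000000000000000000000000000010000000000028224400100000000000000000002200010218b4020dd886bfde197fdf7ffb487fcc37fef6fffffefffbde0000000000000000000000000000800000000001411220008000000000000000000110000810c5a0106ec435fef0cbfefbffda43fe61bff7b7fffff7ffdef) = true := by decide +kernel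
theorem kc4322_176 : coreNF N4322 (rawOf F4322) (toL R4322c176 []) C4322_176 = true := by decide +kernel
theorem kc3332_144 : coreNF N3332 (rawOf F3332) (toL R3332c144 []) C3332_144 = true := by decide +kernel
theorem kc3332_528 : coreNF N3332 (rawOf F3332) (toL R3332c528 []) C3332_528 = true := by decide +kernel
theorem kc5322_80 : coreNF N5322 (rawOf F5322) (toL R5322c80 []) C5322_80 = true := by decide +kernel
theorem kc4422_224 : coreNF N4422 (rawOf F4422) (toL R4422c224 []) C4422_224 = true := by decide +kernel
theorem kc4332_272 : coreNF N4332 (rawOf F4332) (toL R4332c272 []) C4332_272 = true := by decide +kernel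
theorem kc4332_656 : coreNF N4332 (rawOf F4332) (toL R4332c656 []) C4332_656 = true := by decide +kernel
theorem kc3333_192 : coreNF N3333 (rawOf F3333) (toL R3333c192 []) C3333_192 = true := by decide +kernel
theorem kc3333_576 : coreNF N3333 (rawOf F3333) (toL R3333c576 []) C3333_576 = true := by decide +kernel
theorem kc3333_960 : coreNF N3333 (rawOf F3333) (toL R3333c960 []) C3333_960 = true := by decide +kernel
theorem kc3333_1344 : coreNF N3333 (rawOf F3333) (toL R3333c1344 []) C3333_1344 = true := by decide +kernel
theorem kp5422_0 : kR N5422 (rawOf F5422) (fun u => Nat.beq u (nat_lit 0x4cf80e1d6ffffeffef7f95f9ffe7ffcffffff7bfffd818053600a515e2b)) P5422_0 (nat_lit 0x4efdffffffffffffef7f97fdfff7fffffffffffffffffffffffffffffff) = true := by decide +kernel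
theorem kc4333_16 : coreNF N4333 (rawOf F4333) (toL R4333c16 []) C4333_16 = true := by decide +kernel
theorem kc4333_400 : coreNF N4333 (rawOf F4333) (toL R4333c400 []) C4333_400 = true := by decide +kernel
theorem kp4333_0 : kR N4333 (rawOf F4333) (fun u => Nat.beq u (nat_lit 0x1fffffff9bfbff2cc01ffe4bb911ffffffffffffffc97763fffffffffffffffffffffffffff7efff75eb37f7fe59803ffc9772217fffffffffffff92eec7ffffffffffffffffd7ffffffffefd97ecbd66feffcb3007ff92ee442ffffffffffffff25dd8fffffffffffffffffafffffffffdf0000a2fdfbfefeb7bf9a7f3ea00403ffbfffff5ffdf7fffffe7ffffffffffffffffbffffffffeeff737fffffffffffffffffffe7fffffffffffffffffffffffffffffffffffffffffffffffffffffffffffefffbfffdbffdfbf7f7fbfaffbef3ffde11bfaefd97ee27ec)) P4333_0 (nat_lit 0x1fffffff9bfbff2cc01ffe4bb911ffffffffffffffc97763fffffffffffffffffffffffffff7ffffffff37f7fe59803ffc977223ffffffffffffff92eec7ffffffffffffffffffffffffffeffffffffe6feffcb3007ff92ee447ffffffffffffff25dd8fffffffffffffffffffffffffffdf0000a2fdfbfefeb7bf9a7f3ea00403ffbfffff5ffdf7fffffe7ffffffffffffffffbffffffffeeff737fffffffffffffffffffe7ffffffffffffffffffffffffffffffffffffffffffffffffffffffffffffffffffffffffffffffffffffffffffffffffffffffffffff)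 = true := by decide +kernel
theorem kp4433_4 : kR N4433 (rawOf F4433) (fun u => Nat.beq u (nat_lit 0x12000340000000048000dc1e6944418103dd2e8c30200000000000517d187a1bd7ec49f01e6944418103dd2e8c30200000000000517d187a1bd7ec49f0)) P4433_4 (nat_lit 0x83e0107f00000020f8041fc1e694441e137df2f8c3c24004000000055ff5ffabbf7ec69f01e694441e13fdf2f8c3c2400400000005dff5ffabbf7ec69f0) = true := by decide +kernel
theorem kp6332_0 : kR N6332 (rawOf F6332) (fun u => Nat.beq u (nat_lit 0)) P6332_0 (nat_lit 0x1ffffffffff) = true := by decide +kernel
theorem kp4211_0 : kR N4211 (rawOf F4211) (fun u => Nat.beq u (nat_lit 0)) P4211_0 (nat_lit 0xc0049dfffffff) = true := by decide +kernel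
theorem kw4222_2 : wfT S4222_2 366 = true := by decide +kernel
theorem kp6422_0 : kR N6422 (rawOf F6422) (fun u => Nat.beq u (nat_lit 0)) P6422_0 (nat_lit 253951) = true := by decide +kernel
theorem kx3321_128 : chkB N3321 X3321c128 (nat_lit 128) = true := by decide +kernel
theorem kx3322_320 : chkB N3322 X3322c320 (nat_lit 320) = true := by decide +kernel
theorem kx3332_640 : chkB N3332 X3332c640 (nat_lit 640) = true := by decide +kernel
theorem kx3333_704 : chkB N3333 X3333c704 (nat_lit 704) = true := by decide +kernel
theorem ke4422 : kB (fun u => Nat.beq u (nat_lit 0x803c4803c4498000110087cf9808cd3e3fffffffffffffffffffffffffffffffdffffffffffff7fffffffffffffffffdfffffffd26000044021f3e602334f8ffffffffffffffffffffffffffffffff7fffffffffffdffffffffffffffffff7fffffff)) (toL X4422.t []) (nat_lit 0xfffffffffffffffffffffffffffffffffffffffffffffffffffffffffffffffffffffffffffffffffffffffffffffffffffffffffffffffffffffffffffffffffffffffffffffffffffffffffffffffffffffffffffffffffffffffffffffffffffff) = true := by decide +kernel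
theorem kv3331_2 : wfT L3331_2 144 = true := by decide +kernel
theorem kx4211 : chkB N4211 X4211.t 0 = true := by decide +kernel
theorem kv6322_0 : wfT L6322_0 81 = true := by decide +kernel
theorem kv4443_2 : wfT L4443_2 44 = true := by decide +kernel
theorem ka3220 : (wfT N3220 18 && wfT R3220 1) = true := by decide +kernel
theorem kv3321_2 : wfT L3321_2 34 = true := by decide +kernel
theorem ka6321 : (wfT N6321 12 && wfT R6321 1) = true := by decide +kernel
theorem ka6422 : (wfT N6422 18 && wfT R6422 1) = true := by decide +kernel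
theorem kw1111_1 : wfT S1111_1 24 = true := by decide +kernel
theorem kp4420_0 : kR N4420 (rawOf F4420) (fun u => Nat.beq u (nat_lit 0)) P4420_0 (nat_lit 3) = true := by decide +kernel
theorem kv5222_3 : wfT L5222_3 23 = true := by decide +kernel
theorem ke2220 : kB (fun u => Nat.beq u (nat_lit 12483)) (toL X2220.t []) (nat_lit 262143) = true := by decide +kernel
theorem ke5321 : kB (fun u => Nat.beq u (nat_lit 0x6f7ebf21fffffffffffffff)) (toL X5321.t []) (nat_lit 0x7ffffffffffffffffffffff) = true := by decide +kernel
theorem kw1100_3 : wfT S1100_3 2 = true := by decide +kernel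
theorem kw2210_1 : wfT S2210_1 6 = true := by decide +kernel
theorem kv5111_0 : wfT L5111_0 5 = true := by decide +kernel
theorem kx6220 : chkB N6220 X6220.t 0 = true := by decide +kernel
theorem kx5421 : chkB N5421 X5421.t 0 = true := by decide +kernel
theorem kv7322_0 : wfT L7322_0 5 = true := by decide +kernel
theorem kw5433_3 : wfT S5433_3 2 = true := by decide +kernel

end Pool.Agent.L3E.GJ
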