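import Pool.Agent.L3E.GJ.Pl

set_option autoImplicit false
set_option maxRecDepth 100000
set_option linter.unusedVariables false
set_option exponentiation.threshold 100000

/-! # L3E, module GJ.C6: kernel checks -/

namespace Pool.Agent.L3E.GJ

theorem kG2211_2 : gChk AT6 30017 [g2211_2] = true := by decide +kernel
theorem kG2222_2 : gChk AT8 30032 [g2222_2] = true := by decide +kernel
theorem kG3222_0 : gChk AT9 30040 [g3222_0] = true := by decide +kernel
theorem kG4222_3 : gChk AT10 30050 [g4222_3] = true := by decide +kernel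
theorem kG3322_6 : gChk AT10 30052 [g3322_6] = true := by decide +kernel
theorem kG5222_14 : gChk AT11 30055 [g5222_14] = true := by decide +kernel
theorem kG3332_4 : gChk AT11 30059 [g3332_4] = true := by decide +kernel
theorem kS2100_3 : chk2 (fun m => appM N2100 (rowL pS2100_3 m)) X2100.t S2100_3.t = true := by decide +kernel
theorem kS2221_1_64 : chk2 (fun m => appM N2221 (rowL pS2221_1 m)) X2221c64 S2221_1c64 = true := by decide +kernel
theorem kS2222_2_256 : chk2 (fun m => appM N2222 (rowL pS2222_2 m)) X2222c256 S2222_2c256 = true := by decide +kernel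
theorem kS3222_2_384 : chk2 (fun m => appM N3222 (rowL pS3222_2 m)) X3222c384 S3222_2c384 = true := by decide +kernel
theorem kS3331_1_64 : chk2 (fun m => appM N3331 (rowL pS3331_1 m)) X3331c64 S3331_1c64 = true := by decide +kernel
theorem kS5222_2_0 : chk2 (fun m => appM N5222 (rowL pS5222_2 m)) X5222c0 S5222_2c0 = true := by decide +kernel
theorem kS3332_1_640 : chk2 (fun m => appM N3332 (rowL pS3332_1 m)) X3332c640 S3332_1c640 = true := by decide +kernel
theorem kS4422_3_0 : chk2 (fun m => appM N4422 (rowL pS4422_3 m)) X4422c0 S4422_3c0 = true := by decide +kernel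
theorem kS3333_2_128 : chk2 (fun m => appM N3333 (rowL pS3333_2 m)) X3333c128 S3333_2c128 = true := by decide +kernel
theorem kS3333_3_768 : chk2 (fun m => appM N3333 (rowL pS3333_3 m)) X3333c768 S3333_3c768 = true := by decide +kernel
theorem kL2000_0 : chk2 (fun m => appM N2000 (rowL pL2000_0 m)) X1000.t L2000_0.t = true := by decide +kernel
theorem kL2211_3 : chk2 (fun m => appM N2211 (rowL pL2211_3 m)) X2210.t L2211_3.t = true := by decide +kernel
theorem kL3221_2 : chk2 (fun m => appM N3221 (rowL pL3221_2 m)) X3211.t L3221_2.t = true := by decide +kernel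
theorem kL3222_0_64 : chk2 (fun m => appM N3222 (rowL pL3222_0 m)) X2222c64 L3222_0c64 = true := by decide +kernel
theorem kL4321_0_128 : chk2 (fun m => appM N4321 (rowL pL4321_0 m)) X3321c128 L4321_0c128 = true := by decide +kernel
theorem kL3322_1_0 : chk2 (fun m => appM N3322 (rowL pL3322_1 m)) X3222c0 L3322_1c0 = true := by decide +kernel
theorem kL4331_0_0 : chk2 (fun m => appM N4331 (rowL pL4331_0 m)) X3331c0 L4331_0c0 = true := by decide +kernel
theorem kL4322_3_0 : chk2 (fun m => appM N4322 (rowL pL4322_3 m)) X4321c0 L4322_3c0 = true := by decide +kernel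
theorem kL6321_0 : chk2 (fun m => appM N6321 (rowL pL6321_0 m)) X5321.t L6321_0.t = true := by decide +kernel
theorem km4422_0 : kM (appM R4422) (fun u => Nat.beq u (nat_lit 0x100bea67897fbf2eaff54290902120000000021b0e600314d800000000068000000001a0000002004b1ff7e05d77df402fa99e25fefcbabfd50a42408)) M4422_0 (nat_lit 0x480000000086c39800c5360000000001a000000000680000008012c7fdf8175df7d00bea67897fbf2eaff54290902120000000021b0e600314d800000000068000000001a0000002004b1ff7e05d77df402fa99e25fefcbabfd50a42408) = true := by decide +kernel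
theorem kL4332_0_192 : chk2 (fun m => appM N4332 (rowL pL4332_0 m)) X3332c192 L4332_0c192 = true := by decide +kernel
theorem km3333_7 : kM (appM R3333) (fun u => Nat.beq u (nat_lit 0x353469f7f5ff3fbef931812ff01c80c817fffd7fffffffffff7fffdffffe7fdfefebfeff7fffffff5fffb0000000000000000000000000000000020803422de76c009a820a6000000000072002020016200901902cbe8a9fbfffe7dbfefff53fdfd4d1a7dfd7fcfefbe4c604bfc07203205ffff5fffffffffffdffff7ffff9ff7fbfaffbfdfffffffd7ffec000000000000000000000000000000008200d08b79db0026a082980000000001c800808005880240640b2fa2a7effff9f6ffbffd4ff7f53469f7f5ff3fbef931812ff01c80c817fffd7fffffffffff7fffdffffe7fdfefebfeff7fffffff5fffb)) M3333_7 (nat_lit 0x1effff9f6ffbffd4ff7f53469f7f5ff3fbef931812ff01c80c817fffd7fffffffffff7fffdffffe7fdfefebfeff7fffffff5fffb0000000000000000000000000000000020803422de76c009a820a6000000000072002020016200901902cbe8a9fbfffe7dbfefff53fdfd4d1a7dfd7fcfefbe4c604bfc07203205ffff5fffffffffffdffff7ffff9ff7fbfaffbfdfffffffd7ffec000000000000000000000000000000008200d08b79db0026a082980000000001c800808005880240640b2fa2a7effff9f6ffbffd4ff7f53469f7f5ff3fbef931812ff01c80c817fffd7fffffffffff7fffdffffe7fdfefebfeff7fffffff5fffb)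 = true := by decide +kernel
theorem kL3333_3_448 : chk2 (fun m => appM N3333 (rowL pL3333_3 m)) X3332c448 L3333_3c448 = true := by decide +kernel
theorem kL5332_0_256 : chk2 (fun m => appM N5332 (rowL pL5332_0 m)) X4332c256 L5332_0c256 = true := by decide +kernel
theorem km4333_11 : kM (appM R4333) (fun u => Nat.beq u (nat_lit 8704)) M4333_11 (nat_lit 0x1ffffb2fa0c54280801fd0038004928000101028001008009007602200) = true := by decide +kernel
theorem kL6422_1 : chk2 (fun m => appM N6422 (rowL pL6422_1 m)) X6322.t L6422_1.t = true := by decide +kernel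
theorem kL5442_2 : chk2 (fun m => appM N5442 (rowL pL5442_2 m)) X5432.t L5442_2.t = true := by decide +kernel
theorem kc4321_0 : coreNF N4321 (rawOf F4321) (toL R4321c0 []) C4321_0 = true := by decide +kernel
theorem kp3331_0 : kR N3331 (rawOf F3331) (fun u => Nat.beq u (nat_lit 0x80190003f4c406ad30003f7e98cffffffff0a9dfb403f65406ad30003f7fadcffffffff0a9dfb403f65406ad30003f7e88cffffffff)) P3331_0 (nat_lit 0xfffffc03fffc06ad30003f7fffcffffffff0fffffc03fffc06ad30003f7fffcffffffff0fffffc03fffc06ad30003f7fffcffffffff) = true := by decide +kernel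
theorem kp5321_0 : kR N5321 (rawOf F5321) (fun u => Nat.beq u (nat_lit 0x3748001c0446a000000001)) P5321_0 (nat_lit 0x6f7ebf21fffffffffffffff) = true := by decide +kernel
theorem kc4322_192 : coreNF N4322 (rawOf F4322) (toL R4322c192 []) C4322_192 = true := by decide +kernel
theorem kc3332_160 : coreNF N3332 (rawOf F3332) (toL R3332c160 []) C3332_160 = true := by decide +kernel
theorem kc3332_544 : coreNF N3332 (rawOf F3332) (toL R3332c544 []) C3332_544 = true := by decide +kernel
theorem kc5322_96 : coreNF N5322 (rawOf F5322) (toL R5322c96 []) C5322_96 = true := by decide +kernel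
theorem kp4422_0 : kR N4422 (rawOf F4422) (fun u => Nat.beq u (nat_lit 0x803c4803c4488000110087c79808cd3e022086a0afbd84413517ef69fbffffffdffffd7ffff7f7ffffffffffff3ffffdfffffffd26000044021f3e602334f8ffffff7fffffffffffffffffffffffff5ffffb7fffffdffffffffffffffffff7fffffff)) P4422_0 (nat_lit 0x803c4803c4498000110087cf9808cd3e3fffffffffffffffffffffffffffffffdffffffffffff7fffffffffffffffffdfffffffd26000044021f3e602334f8ffffffffffffffffffffffffffffffff7fffffffffffdffffffffffffffffff7fffffff) = true := by decide +kernel
theorem kc4332_288 : coreNF N4332 (rawOf F4332) (toL R4332c288 []) C4332_288 = true := by decide +kernel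
theorem kc4332_672 : coreNF N4332 (rawOf F4332) (toL R4332c672 []) C4332_672 = true := by decide +kernel
theorem kc3333_208 : coreNF N3333 (rawOf F3333) (toL R3333c208 []) C3333_208 = true := by decide +kernel
theorem kc3333_592 : coreNF N3333 (rawOf F3333) (toL R3333c592 []) C3333_592 = true := by decide +kernel
theorem kc3333_976 : coreNF N3333 (rawOf F3333) (toL R3333c976 []) C3333_976 = true := by decide +kernel
theorem kc3333_1360 : coreNF N3333 (rawOf F3333) (toL R3333c1360 []) C3333_1360 = true := by decide +kernel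
theorem kp5422_1 : kR N5422 (rawOf F5422) (fun u => Nat.beq u (nat_lit 0x48f008102ecf7e43ad7884a9f3a6bfcd7cff87b5ce80180000000500000)) P5422_1 (nat_lit 0x4cf80e1d6ffffeffef7f95f9ffe7ffcffffff7bfffd818053600a515e2b) = true := by decide +kernel
theorem kc4333_32 : coreNF N4333 (rawOf F4333) (toL R4333c32 []) C4333_32 = true := by decide +kernel
theorem kc4333_416 : coreNF N4333 (rawOf F4333) (toL R4333c416 []) C4333_416 = true := by decide +kernel
theorem kp4333_1 : kR N4333 (rawOf F4333) (fun u => Nat.beq u (nat_lit 0x61582f11bbbff2cc01bfe4bb910bffdbf7fffffdbc97763ffffffffffffffffebfffffffff7cc2b05e23777fe598037fc9772217ffb7effffffb792eec7ffffffffffffffffd7ffffffffefd97ecbd66feffcb3007ff92ee442ffffffffffffff25dd8fffffffffffffffffafffffffffdf0000a2fdfbfefeb7bf9a7f3ea00403ffbfffff5ffdf7fffffe7ffffffffffffffffbffffffffeeff737fffffffffffffffffffe7ffffffffffbfffffffffffffffffffffffffffffffffffffffffffff7ff4fffafffdbffdfbf7f5fbd8ff9ef3ef06113f8efd97ee27ec)) P4333_1 (nat_lit 0x1fffffff9bfbff2cc01ffe4bb911ffffffffffffffc97763fffffffffffffffffffffffffff7efff75eb37f7fe59803ffc9772217fffffffffffff92eec7ffffffffffffffffd7ffffffffefd97ecbd66feffcb3007ff92ee442ffffffffffffff25dd8fffffffffffffffffafffffffffdf0000a2fdfbfefeb7bf9a7f3ea00403ffbfffff5ffdf7fffffe7ffffffffffffffffbffffffffeeff737fffffffffffffffffffe7fffffffffffffffffffffffffffffffffffffffffffffffffffffffffffefffbfffdbffdfbf7f7fbfaffbef3ffde11bfaefd97ee27ec)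 = true := by decide +kernel
theorem kp4433_5 : kR N4433 (rawOf F4433) (fun u => Nat.beq u (nat_lit 0x2800008100052e0410200000000000107d18121bd5e449f0002800008100152e0410200000000000107d18121bc5e449f0)) P4433_5 (nat_lit 0x12000340000000048000dc1e6944418103dd2e8c30200000000000517d187a1bd7ec49f01e6944418103dd2e8c30200000000000517d187a1bd7ec49f0) = true := by decide +kernel
theorem km5322_2 : kM (appM R5322) (fun u => Nat.beq u (nat_lit 0)) M5322_2 (nat_lit 0xebf215fa82c248000000000000000000000000000000000000000) = true := by decide +kernel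
theorem km3331_2 : kM (appM R3331) (fun u => Nat.beq u (nat_lit 0)) M3331_2 (nat_lit 0x4ff572ff6) = true := by decide +kernel
theorem kv5222_0 : wfT L5222_0 366 = true := by decide +kernel
theorem kx3221_128 : chkB N3221 X3221c128 (nat_lit 128) = true := by decide +kernel
theorem kx3222_0 : chkB N3222 X3222c0 (nat_lit 0) = true := by decide +kernel
theorem kx3322_384 : chkB N3322 X3322c384 (nat_lit 384) = true := by decide +kernel
theorem kx3332_704 : chkB N3332 X3332c704 (nat_lit 704) = true := by decide +kernel
theorem kx3333_768 : chkB N3333 X3333c768 (nat_lit 768) = true := by decide +kernel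
theorem kw4422_1 : wfT S4422_1 154 = true := by decide +kernel
theorem kv3322_3 : wfT L3322_3 144 = true := by decide +kernel
theorem ke4221 : kB (fun u => Nat.beq u (nat_lit 0x1019c080ce00000003180a1a7bce2efffffffffffffffff)) (toL X4221.t []) (nat_lit 0x7fffffffffffffffffffffffffffffffffffffffffffffff) = true := by decide +kernel
theorem kv5422_1 : wfT L5422_1 81 = true := by decide +kernel
theorem ka1000 : (wfT N1000 1 && wfT R1000 1) = true := by decide +kernel
theorem ka2210 : (wfT N2210 12 && wfT R2210 1) = true := by decide +kernel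
theorem ka3320 : (wfT N3320 16 && wfT R3320 1) = true := by decide +kernel
theorem ka4330 : (wfT N4330 2 && wfT R4330 1) = true := by decide +kernel
theorem ka4332 : (wfT N4332 1559 && wfT R4332 714) = true := by decide +kernel
theorem ka6432 : (wfT N6432 4 && wfT R6432 1) = true := by decide +kernel
theorem kp4330_0 : kR N4330 (rawOf F4330) (fun u => Nat.beq u (nat_lit 0)) P4330_0 (nat_lit 3) = true := by decide +kernel
theorem ke4421 : kB (fun u => Nat.beq u (nat_lit 0xffffffffbffdfff00ffffffffbffdfff)) (toL X4421.t []) (nat_lit 0xffffffffffffffffffffffffffffffffff) = true := by decide +kernel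
theorem kw2220_1 : wfT S2220_1 12 = true := by decide +kernel
theorem kv6321_0 : wfT L6321_0 10 = true := by decide +kernel
theorem kv1100_1 : wfT L1100_1 1 = true := by decide +kernel
theorem kv2210_1 : wfT L2210_1 6 = true := by decide +kernel
theorem kx4310 : chkB N4310 X4310.t 0 = true := by decide +kernel
theorem kv6220_0 : wfT L6220_0 1 = true := by decide +kernel
theorem ke5421 : kB (fun u => Nat.beq u (nat_lit 0x3fefffff)) (toL X5421.t []) (nat_lit 0x3fffffff) = true := by decide +kernel
theorem kv7322_1 : wfT L7322_1 2 = true := by decide +kernel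
theorem kv5433_3 : wfT L5433_3 3 = true := by decide +kernel

end Pool.Agent.L3E.GJ
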