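import Pool.Agent.L3E.GJ.Pl

set_option autoImplicit false
set_option maxRecDepth 100000
set_option linter.unusedVariables false
set_option exponentiation.threshold 100000

/-! # L3E, module GJ.C7: kernel checks -/

namespace Pool.Agent.L3E.GJ

theorem kG2211_3 : gChk AT6 30017 [g2211_3] = true := by decide +kernel
theorem kG2222_3 : gChk AT8 30032 [g2222_3] = true := by decide +kernel
theorem kG3222_1 : gChk AT9 30040 [g3222_1] = true := by decide +kernel
theorem kG4222_4 : gChk AT10 30050 [g4222_4] = true := by decide +kernel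
theorem kG3322_7 : gChk AT10 30052 [g3322_7] = true := by decide +kernel
theorem kG5222_15 : gChk AT11 30055 [g5222_15] = true := by decide +kernel
theorem kG3332_5 : gChk AT11 30059 [g3332_5] = true := by decide +kernel
theorem kS1110_1 : chk2 (fun m => appM N1110 (rowL pS1110_1 m)) X1110.t S1110_1.t = true := by decide +kernel
theorem kS2221_1_128 : chk2 (fun m => appM N2221 (rowL pS2221_1 m)) X2221c128 S2221_1c128 = true := by decide +kernel
theorem kS2222_2_320 : chk2 (fun m => appM N2222 (rowL pS2222_2 m)) X2222c320 S2222_2c320 = true := by decide +kernel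
theorem kS3222_2_448 : chk2 (fun m => appM N3222 (rowL pS3222_2 m)) X3222c448 S3222_2c448 = true := by decide +kernel
theorem kS3331_2_0 : chk2 (fun m => appM N3331 (rowL pS3331_2 m)) X3331c0 S3331_2c0 = true := by decide +kernel
theorem kS5222_2_64 : chk2 (fun m => appM N5222 (rowL pS5222_2 m)) X5222c64 S5222_2c64 = true := by decide +kernel
theorem kS3332_1_704 : chk2 (fun m => appM N3332 (rowL pS3332_1 m)) X3332c704 S3332_1c704 = true := by decide +kernel
theorem kS4422_3_64 : chk2 (fun m => appM N4422 (rowL pS4422_3 m)) X4422c64 S4422_3c64 = true := by decide +kernel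
theorem kS3333_2_192 : chk2 (fun m => appM N3333 (rowL pS3333_2 m)) X3333c192 S3333_2c192 = true := by decide +kernel
theorem kS3333_3_832 : chk2 (fun m => appM N3333 (rowL pS3333_3 m)) X3333c832 S3333_3c832 = true := by decide +kernel
theorem kL1100_1 : chk2 (fun m => appM N1100 (rowL pL1100_1 m)) X1000.t L1100_1.t = true := by decide +kernel
theorem kL4210_0 : chk2 (fun m => appM N4210 (rowL pL4210_0 m)) X3210.t L4210_0.t = true := by decide +kernel
theorem kL3221_3 : chk2 (fun m => appM N3221 (rowL pL3221_3 m)) X3220.t L3221_3.t = true := by decide +kernel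
theorem kL3222_0_128 : chk2 (fun m => appM N3222 (rowL pL3222_0 m)) X2222c128 L3222_0c128 = true := by decide +kernel
theorem kL4321_1_0 : chk2 (fun m => appM N4321 (rowL pL4321_1 m)) X4221c0 L4321_1c0 = true := by decide +kernel
theorem kL3322_1_64 : chk2 (fun m => appM N3322 (rowL pL3322_1 m)) X3222c64 L3322_1c64 = true := by decide +kernel
theorem kL4331_0_64 : chk2 (fun m => appM N4331 (rowL pL4331_0 m)) X3331c64 L4331_0c64 = true := by decide +kernel
theorem kL4322_3_64 : chk2 (fun m => appM N4322 (rowL pL4322_3 m)) X4321c64 L4322_3c64 = true := by decide +kernel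
theorem kL6321_1 : chk2 (fun m => appM N6321 (rowL pL6321_1 m)) X6221.t L6321_1.t = true := by decide +kernel
theorem km4422_1 : kM (appM R4422) (fun u => Nat.beq u (nat_lit 0x600314d800000000068000000001a0000002004b1ff7e05d77df402fa99e25fefcbabfd50a42408)) M4422_1 (nat_lit 0x100bea67897fbf2eaff54290902120000000021b0e600314d800000000068000000001a0000002004b1ff7e05d77df402fa99e25fefcbabfd50a42408) = true := by decide +kernel
theorem kL4332_0_256 : chk2 (fun m => appM N4332 (rowL pL4332_0 m)) X3332c256 L4332_0c256 = true := by decide +kernel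
theorem km3333_8 : kM (appM R3333) (fun u => Nat.beq u (nat_lit 0x1c80c817fffd7fffffffffff7fffdffffe7fdfefebfeff7fffffff5fffb0000000000000000000000000000000020803422de76c009a820a6000000000072002020016200901902cbe8a9fbfffe7dbfefff53fdfd4d1a7dfd7fcfefbe4c604bfc07203205ffff5fffffffffffdffff7ffff9ff7fbfaffbfdfffffffd7ffec000000000000000000000000000000008200d08b79db0026a082980000000001c800808005880240640b2fa2a7effff9f6ffbffd4ff7f53469f7f5ff3fbef931812ff01c80c817fffd7fffffffffff7fffdffffe7fdfefebfeff7fffffff5fffb)) M3333_8 (nat_lit 0x353469f7f5ff3fbef931812ff01c80c817fffd7fffffffffff7fffdffffe7fdfefebfeff7fffffff5fffb0000000000000000000000000000000020803422de76c009a820a6000000000072002020016200901902cbe8a9fbfffe7dbfefff53fdfd4d1a7dfd7fcfefbe4c604bfc07203205ffff5fffffffffffdffff7ffff9ff7fbfaffbfdfffffffd7ffec000000000000000000000000000000008200d08b79db0026a082980000000001c800808005880240640b2fa2a7effff9f6ffbffd4ff7f53469f7f5ff3fbef931812ff01c80c817fffd7fffffffffff7fffdffffe7fdfefebfeff7fffffff5fffb) = true := by decide +kernel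
theorem kL3333_3_512 : chk2 (fun m => appM N3333 (rowL pL3333_3 m)) X3332c512 L3333_3c512 = true := by decide +kernel
theorem kL5332_2_0 : chk2 (fun m => appM N5332 (rowL pL5332_2 m)) X5322c0 L5332_2c0 = true := by decide +kernel
theorem kL4333_0_0 : chk2 (fun m => appM N4333 (rowL pL4333_0 m)) X3333c0 L4333_0c0 = true := by decide +kernel
theorem kL6332_0 : chk2 (fun m => appM N6332 (rowL pL6332_0 m)) X5332.t L6332_0.t = true := by decide +kernel
theorem kL5433_0 : chk2 (fun m => appM N5433 (rowL pL5433_0 m)) X4433.t L5433_0.t = true := by decide +kernel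
theorem kc4321_16 : coreNF N4321 (rawOf F4321) (toL R4321c16 []) C4321_16 = true := by decide +kernel
theorem kp3331_1 : kR N3331 (rawOf F3331) (fun u => Nat.beq u (nat_lit 0x3f44006a930003f7e884ff57ffff000000003f44006a930003f7e884ff57ffff000000003f44006a930003f7e884ff57fff6)) P3331_1 (nat_lit 0x80190003f4c406ad30003f7e98cffffffff0a9dfb403f65406ad30003f7fadcffffffff0a9dfb403f65406ad30003f7e88cffffffff) = true := by decide +kernel
theorem kc5222_0 : coreNF N5222 (rawOf F5222) (toL R5222c0 []) C5222_0 = true := by decide +kernel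
theorem kc4322_208 : coreNF N4322 (rawOf F4322) (toL R4322c208 []) C4322_208 = true := by decide +kernel
theorem kc3332_176 : coreNF N3332 (rawOf F3332) (toL R3332c176 []) C3332_176 = true := by decide +kernel
theorem kc3332_560 : coreNF N3332 (rawOf F3332) (toL R3332c560 []) C3332_560 = true := by decide +kernel
theorem kc5322_112 : coreNF N5322 (rawOf F5322) (toL R5322c112 []) C5322_112 = true := by decide +kernel
theorem kp4422_1 : kR N4422 (rawOf F4422) (fun u => Nat.beq u (nat_lit 0x801c4801c4488000110087c79808cd3e022086a0afbd84413517ef69fbffffffdffffd7ffff7f7ffffffffffff3ffffdfffffffd24000040021f2e602314f8f77ff70096b600049015ad86e57f3dff5ffffb7fffffdffffffffffffffffff7fffffff)) P4422_1 (nat_lit 0x803c4803c4488000110087c79808cd3e022086a0afbd84413517ef69fbffffffdffffd7ffff7f7ffffffffffff3ffffdfffffffd26000044021f3e602334f8ffffff7fffffffffffffffffffffffff5ffffb7fffffdffffffffffffffffff7fffffff) = true := by decide +kernel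
theorem kc4332_304 : coreNF N4332 (rawOf F4332) (toL R4332c304 []) C4332_304 = true := by decide +kernel
theorem kc4332_688 : coreNF N4332 (rawOf F4332) (toL R4332c688 []) C4332_688 = true := by decide +kernel
theorem kc3333_224 : coreNF N3333 (rawOf F3333) (toL R3333c224 []) C3333_224 = true := by decide +kernel
theorem kc3333_608 : coreNF N3333 (rawOf F3333) (toL R3333c608 []) C3333_608 = true := by decide +kernel
theorem kc3333_992 : coreNF N3333 (rawOf F3333) (toL R3333c992 []) C3333_992 = true := by decide +kernel
theorem kc3333_1376 : coreNF N3333 (rawOf F3333) (toL R3333c1376 []) C3333_1376 = true := by decide +kernel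
theorem kp5422_2 : kR N5422 (rawOf F5422) (fun u => Nat.beq u (nat_lit 0x810000002c400002d080020800638c0205882818880000000000100000)) P5422_2 (nat_lit 0x48f008102ecf7e43ad7884a9f3a6bfcd7cff87b5ce80180000000500000) = true := by decide +kernel
theorem kc4333_48 : coreNF N4333 (rawOf F4333) (toL R4333c48 []) C4333_48 = true := by decide +kernel
theorem kc4333_432 : coreNF N4333 (rawOf F4333) (toL R4333c432 []) C4333_432 = true := by decide +kernel
theorem kp4333_2 : kR N4333 (rawOf F4333) (fun u => Nat.beq u (nat_lit 0x100e11ba9fb2cc01ade4bb9102ff5bf7fffff5bc97763fff7ffffffffffffebfffffffff7cc2b05e23777fe598037fc9772217ffb7effffffb792eec7ffffffffffffffffd7ffffffffef98560bc46eeffcb3006ff92ee442fff6fdffffff6f25dd8fffffffffffffffffafffffffffdf0000a2fdfbfefeb7bf9a7f3ea00403ffbfffff5ffdf7fffffe7ffffffffffbfffffbffffffffeeff737fffffffffffffffffffe7ffffffffffbfffffffffffffffffffffffffffffffffffffffffffff6ff4fffafffdbfd9ebd7f5bbd8a01ef3ea0211380af48762260c)) P4333_2 (nat_lit 0x61582f11bbbff2cc01bfe4bb910bffdbf7fffffdbc97763ffffffffffffffffebfffffffff7cc2b05e23777fe598037fc9772217ffb7effffffb792eec7ffffffffffffffffd7ffffffffefd97ecbd66feffcb3007ff92ee442ffffffffffffff25dd8fffffffffffffffffafffffffffdf0000a2fdfbfefeb7bf9a7f3ea00403ffbfffff5ffdf7fffffe7ffffffffffffffffbffffffffeeff737fffffffffffffffffffe7ffffffffffbfffffffffffffffffffffffffffffffffffffffffffff7ff4fffafffdbffdfbf7f5fbd8ff9ef3ef06113f8efd97ee27ec)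 = true := by decide +kernel
theorem kp5433_0 : kR N5433 (rawOf F5433) (fun u => Nat.beq u (nat_lit 0x8c010000000a0000)) P5433_0 (nat_lit 0xfefffffdffffffffff) = true := by decide +kernel
theorem kp3211_0 : kR N3211 (rawOf F3211) (fun u => Nat.beq u (nat_lit 0)) P3211_0 (nat_lit 0xc023f000000b2effffff) = true := by decide +kernel
theorem kc5333 : coreNF N5333 (rawOf F5333) (toL R5333.t []) C5333 = true := by decide +kernel
theorem kp6333_0 : kR N6333 (rawOf F6333) (fun u => Nat.beq u (nat_lit 0)) P6333_0 (nat_lit 0x3fffff) = true := by decide +kernel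
theorem kx2222_64 : chkB N2222 X2222c64 (nat_lit 64) = true := by decide +kernel
theorem kx3222_320 : chkB N3222 X3222c320 (nat_lit 320) = true := by decide +kernel
theorem kx5222_64 : chkB N5222 X5222c64 (nat_lit 64) = true := by decide +kernel
theorem kx4422_64 : chkB N4422 X4422c64 (nat_lit 64) = true := by decide +kernel
theorem kx4333_192 : chkB N4333 X4333c192 (nat_lit 192) = true := by decide +kernel
theorem kw3221_2 : wfT S3221_2 144 = true := by decide +kernel
theorem kv3221_0 : wfT L3221_0 138 = true := by decide +kernel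
theorem kw4221_2 : wfT S4221_2 87 = true := by decide +kernel
theorem kv5332_2 : wfT L5332_2 81 = true := by decide +kernel
theorem ka2000 : (wfT N2000 1 && wfT R2000 1) = true := by decide +kernel
theorem ka2111 : (wfT N2111 42 && wfT R2111 1) = true := by decide +kernel
theorem ka3311 : (wfT N3311 100 && wfT R3311 1) = true := by decide +kernel
theorem ka4321 : (wfT N4321 242 && wfT R4321 46) = true := by decide +kernel
theorem kv4332_3 : wfT L4332_3 37 = true := by decide +kernel
theorem ka6333 : (wfT N6333 22 && wfT R6333 1) = true := by decide +kernel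
theorem kp7221_0 : kR N7221 (rawOf F7221) (fun u => Nat.beq u (nat_lit 0)) P7221_0 (nat_lit 3) = true := by decide +kernel
theorem kw4421_1 : wfT S4421_1 20 = true := by decide +kernel
theorem kw2220_2 : wfT S2220_2 12 = true := by decide +kernel
theorem kv5421_1 : wfT L5421_1 10 = true := by decide +kernel
theorem kx2100 : chkB N2100 X2100.t 0 = true := by decide +kernel
theorem kv2111_3 : wfT L2111_3 6 = true := by decide +kernel
theorem kv4310_1 : wfT L4310_1 1 = true := by decide +kernel
theorem kx6211 : chkB N6211 X6211.t 0 = true := by decide +kernel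
theorem kx5331 : chkB N5331 X5331.t 0 = true := by decide +kernel
theorem kx6422 : chkB N6422 X6422.t 0 = true := by decide +kernel
theorem ke4443 : kB (fun u => Nat.beq u (nat_lit 0xf3ffffffffff3ffffffffff3fffffffff)) (toL X4443.t []) (nat_lit 0xfffffffffffffffffffffffffffffffff) = true := by decide +kernel

end Pool.Agent.L3E.GJ
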