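import Pool.Agent.L3E.GJ.Pl

set_option autoImplicit false
set_option maxRecDepth 100000
set_option linter.unusedVariables false
set_option exponentiation.threshold 100000

/-! # L3E, module GJ.C8: kernel checks -/

namespace Pool.Agent.L3E.GJ

theorem kG4111_0 : gChk AT7 30019 [g4111_0] = true := by decide +kernel
theorem kG2222_4 : gChk AT8 30032 [g2222_4] = true := by decide +kernel
theorem kG3222_2 : gChk AT9 30040 [g3222_2] = true := by decide +kernel
theorem kG4222_5 : gChk AT10 30050 [g4222_5] = true := by decide +kernel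
theorem kG3322_8 : gChk AT10 30052 [g3322_8] = true := by decide +kernel
theorem kG5222_16 : gChk AT11 30055 [g5222_16] = true := by decide +kernel
theorem kG3332_6 : gChk AT11 30059 [g3332_6] = true := by decide +kernel
theorem kS1110_2 : chk2 (fun m => appM N1110 (rowL pS1110_2 m)) X1110.t S1110_2.t = true := by decide +kernel
theorem kS2221_2_0 : chk2 (fun m => appM N2221 (rowL pS2221_2 m)) X2221c0 S2221_2c0 = true := by decide +kernel
theorem kS2222_2_384 : chk2 (fun m => appM N2222 (rowL pS2222_2 m)) X2222c384 S2222_2c384 = true := by decide +kernel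
theorem kS3222_3_0 : chk2 (fun m => appM N3222 (rowL pS3222_3 m)) X3222c0 S3222_3c0 = true := by decide +kernel
theorem kS3331_2_64 : chk2 (fun m => appM N3331 (rowL pS3331_2 m)) X3331c64 S3331_2c64 = true := by decide +kernel
theorem kS5222_2_128 : chk2 (fun m => appM N5222 (rowL pS5222_2 m)) X5222c128 S5222_2c128 = true := by decide +kernel
theorem kS3332_1_768 : chk2 (fun m => appM N3332 (rowL pS3332_1 m)) X3332c768 S3332_1c768 = true := by decide +kernel
theorem kS4422_3_128 : chk2 (fun m => appM N4422 (rowL pS4422_3 m)) X4422c128 S4422_3c128 = true := by decide +kernel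
theorem kS3333_2_256 : chk2 (fun m => appM N3333 (rowL pS3333_2 m)) X3333c256 S3333_2c256 = true := by decide +kernel
theorem kS7222_2 : chk2 (fun m => appM N7222 (rowL pS7222_2 m)) X7222.t S7222_2.t = true := by decide +kernel
theorem kL2100_0 : chk2 (fun m => appM N2100 (rowL pL2100_0 m)) X1100.t L2100_0.t = true := by decide +kernel
theorem kL4111_0 : chk2 (fun m => appM N4111 (rowL pL4111_0 m)) X3111.t L4111_0.t = true := by decide +kernel
theorem kL2222_3_0 : chk2 (fun m => appM N2222 (rowL pL2222_3 m)) X2221c0 L2222_3c0 = true := by decide +kernel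
theorem kL3222_0_192 : chk2 (fun m => appM N3222 (rowL pL3222_0 m)) X2222c192 L3222_0c192 = true := by decide +kernel
theorem kL4321_1_64 : chk2 (fun m => appM N4321 (rowL pL4321_1 m)) X4221c64 L4321_1c64 = true := by decide +kernel
theorem kL3322_1_128 : chk2 (fun m => appM N3322 (rowL pL3322_1 m)) X3222c128 L3322_1c128 = true := by decide +kernel
theorem kL4331_2_0 : chk2 (fun m => appM N4331 (rowL pL4331_2 m)) X4321c0 L4331_2c0 = true := by decide +kernel
theorem km3332_0 : kM (appM R3332) (fun u => Nat.beq u (nat_lit 0x32506edaffeafefdffedf6abaa91bebbffabd56281cfaaa23fbbd68bcd40000000000000000000000000000000000000000000000000001201a0d4240b4082000081beaa16abd562814828223cb01403c941bb6bffabfbf7ffb7daaeaa46faeffeaf558a073eaa88feef5a2f35000000000000000000000000000000000000000000000000000048068350902d0208000206faa85aaf558a0520a088f2c0500f2506edaffeafefdffedf6abaa91bebbffabd56281cfaaa23fbbd68bcd4)) M3332_0 (nat_lit 0x48068350902d0208000206faa85aaf558a0520a088f2c0500f2506edaffeafefdffedf6abaa91bebbffabd56281cfaaa23fbbd68bcd40000000000000000000000000000000000000000000000000001201a0d4240b4082000081beaa16abd562814828223cb01403c941bb6bffabfbf7ffb7daaeaa46faeffeaf558a073eaa88feef5a2f35000000000000000000000000000000000000000000000000000048068350902d0208000206faa85aaf558a0520a088f2c0500f2506edaffeafefdffedf6abaa91bebbffabd56281cfaaa23fbbd68bcd4)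 = true := by decide +kernel
theorem kL6222_0_0 : chk2 (fun m => appM N6222 (rowL pL6222_0 m)) X5222c0 L6222_0c0 = true := by decide +kernel
theorem km4422_2 : kM (appM R4422) (fun u => Nat.beq u (nat_lit 0x9e25fefcbabfd50a42408)) M4422_2 (nat_lit 0x600314d800000000068000000001a0000002004b1ff7e05d77df402fa99e25fefcbabfd50a42408) = true := by decide +kernel
theorem kL4332_0_320 : chk2 (fun m => appM N4332 (rowL pL4332_0 m)) X3332c320 L4332_0c320 = true := by decide +kernel
theorem km3333_9 : kM (appM R3333) (fun u => Nat.beq u (nat_lit 0x1ff7fffdffffe7fdfefebfeff7fffffff5fffb0000000000000000000000000000000020803422de76c009a820a6000000000072002020016200901902cbe8a9fbfffe7dbfefff53fdfd4d1a7dfd7fcfefbe4c604bfc07203205ffff5fffffffffffdffff7ffff9ff7fbfaffbfdfffffffd7ffec000000000000000000000000000000008200d08b79db0026a082980000000001c800808005880240640b2fa2a7effff9f6ffbffd4ff7f53469f7f5ff3fbef931812ff01c80c817fffd7fffffffffff7fffdffffe7fdfefebfeff7fffffff5fffb)) M3333_9 (nat_lit 0x1c80c817fffd7fffffffffff7fffdffffe7fdfefebfeff7fffffff5fffb0000000000000000000000000000000020803422de76c009a820a6000000000072002020016200901902cbe8a9fbfffe7dbfefff53fdfd4d1a7dfd7fcfefbe4c604bfc07203205ffff5fffffffffffdffff7ffff9ff7fbfaffbfdfffffffd7ffec000000000000000000000000000000008200d08b79db0026a082980000000001c800808005880240640b2fa2a7effff9f6ffbffd4ff7f53469f7f5ff3fbef931812ff01c80c817fffd7fffffffffff7fffdffffe7fdfefebfeff7fffffff5fffb)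 = true := by decide +kernel
theorem kL3333_3_576 : chk2 (fun m => appM N3333 (rowL pL3333_3 m)) X3332c576 L3333_3c576 = true := by decide +kernel
theorem kL5332_2_64 : chk2 (fun m => appM N5332 (rowL pL5332_2 m)) X5322c64 L5332_2c64 = true := by decide +kernel
theorem kL4333_0_64 : chk2 (fun m => appM N4333 (rowL pL4333_0 m)) X3333c64 L4333_0c64 = true := by decide +kernel
theorem kL6332_2 : chk2 (fun m => appM N6332 (rowL pL6332_2 m)) X6322.t L6332_2.t = true := by decide +kernel
theorem kL5433_1 : chk2 (fun m => appM N5433 (rowL pL5433_1 m)) X5333.t L5433_1.t = true := by decide +kernel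
theorem kc4321_32 : coreNF N4321 (rawOf F4321) (toL R4321c32 []) C4321_32 = true := by decide +kernel
theorem kc3322_0 : coreNF N3322 (rawOf F3322) (toL R3322c0 []) C3322_0 = true := by decide +kernel
theorem kc5222_16 : coreNF N5222 (rawOf F5222) (toL R5222c16 []) C5222_16 = true := by decide +kernel
theorem kc4322_224 : coreNF N4322 (rawOf F4322) (toL R4322c224 []) C4322_224 = true := by decide +kernel
theorem kc3332_192 : coreNF N3332 (rawOf F3332) (toL R3332c192 []) C3332_192 = true := by decide +kernel
theorem kc3332_576 : coreNF N3332 (rawOf F3332) (toL R3332c576 []) C3332_576 = true := by decide +kernel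
theorem kc5322_128 : coreNF N5322 (rawOf F5322) (toL R5322c128 []) C5322_128 = true := by decide +kernel
theorem kp4422_2 : kR N4422 (rawOf F4422) (fun u => Nat.beq u (nat_lit 0x1c4001c4480000100087c39808c53e0000848025ad800124056b61b95fcf7fd7fffc5ffff7f7ffffffffffff3ffffdfffffffd20000040021f0e602314f80002120096b600049015ad86e45b31ff5ffff17fffdfdffffffffffffcfffff7ffffffd)) P4422_2 (nat_lit 0x801c4801c4488000110087c79808cd3e022086a0afbd84413517ef69fbffffffdffffd7ffff7f7ffffffffffff3ffffdfffffffd24000040021f2e602314f8f77ff70096b600049015ad86e57f3dff5ffffb7fffffdffffffffffffffffff7fffffff) = true := by decide +kernel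
theorem kc4332_320 : coreNF N4332 (rawOf F4332) (toL R4332c320 []) C4332_320 = true := by decide +kernel
theorem kc4332_704 : coreNF N4332 (rawOf F4332) (toL R4332c704 []) C4332_704 = true := by decide +kernel
theorem kc3333_240 : coreNF N3333 (rawOf F3333) (toL R3333c240 []) C3333_240 = true := by decide +kernel
theorem kc3333_624 : coreNF N3333 (rawOf F3333) (toL R3333c624 []) C3333_624 = true := by decide +kernel
theorem kc3333_1008 : coreNF N3333 (rawOf F3333) (toL R3333c1008 []) C3333_1008 = true := by decide +kernel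
theorem kc3333_1392 : coreNF N3333 (rawOf F3333) (toL R3333c1392 []) C3333_1392 = true := by decide +kernel
theorem kp5332_0 : kR N5332 (rawOf F5332) (fun u => Nat.beq u (nat_lit 0x74aa7071ef5f7d7fffff3a553838f7afbebfffff9b7cdbfee6eff7de76ffffffffffdffffffbffffffffffff4f78a7cf2cffffffaad7fddfefff)) P5332_0 (nat_lit 0x1ffff77f1ef7ffd7fffffffffbbf8f7bffebfffff9f7cfbffe6eff7fff6ffffffffffffffffffffffffffffffffffffffffffffffffffffffffff) = true := by decide +kernel
theorem kc4333_64 : coreNF N4333 (rawOf F4333) (toL R4333c64 []) C4333_64 = true := by decide +kernel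
theorem kc4333_448 : coreNF N4333 (rawOf F4333) (toL R4333c448 []) C4333_448 = true := by decide +kernel
theorem kp4333_3 : kR N4333 (rawOf F4333) (fun u => Nat.beq u (nat_lit 0x100e11ba9fb2cc01ade4bb9102ff5bf7fffff5bc97763fff7ffffffffffffebfffffffff7c00201c21353f6598035bc9772205feb7efffffeb792eec7ffefffffffffffffd7ffffffffef8004028426a7ecb3006b792ee440bfd6fdfffffd6f25dd8fffdfffffffffffffafffffffffdf0000a2fdbbfefeb7bf9a7f3ea00403ffbfffff5ffdf7fffffe7ffffffffffbfffffbffffffffeeff737fffffffffffffffffffe7ffffffffffbfffffffffffffffffffffffffffffffffffffffffffff2fe4ffdab6ad1fd9c385a5bb88a01e312a0211380af48762260c)) P4333_3 (nat_lit 0x100e11ba9fb2cc01ade4bb9102ff5bf7fffff5bc97763fff7ffffffffffffebfffffffff7cc2b05e23777fe598037fc9772217ffb7effffffb792eec7ffffffffffffffffd7ffffffffef98560bc46eeffcb3006ff92ee442fff6fdffffff6f25dd8fffffffffffffffffafffffffffdf0000a2fdfbfefeb7bf9a7f3ea00403ffbfffff5ffdf7fffffe7ffffffffffbfffffbffffffffeeff737fffffffffffffffffffe7ffffffffffbfffffffffffffffffffffffffffffffffffffffffffff6ff4fffafffdbfd9ebd7f5bbd8a01ef3ea0211380af48762260c)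 = true := by decide +kernel
theorem kp4443_0 : kR N4443 (rawOf F4443) (fun u => Nat.beq u (nat_lit 0x3c3c19f19f03c3019f19f03c3019f19f)) P4443_0 (nat_lit 0xf3ffffffffff3ffffffffff3fffffffff) = true := by decide +kernel
theorem kp4221_1 : kR N4221 (rawOf F4221) (fun u => Nat.beq u (nat_lit 0)) P4221_1 (nat_lit 0x1c0000e00000003000a1a7bc82e999000d8004006200) = true := by decide +kernel
theorem km3222_1 : kM (appM R3222) (fun u => Nat.beq u (nat_lit 0)) M3222_1 (nat_lit 0x1d2c83d9205bd8000000000000000000000000) = true := by decide +kernel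
theorem kw4222_3 : wfT S4222_3 366 = true := by decide +kernel
theorem kx3221_64 : chkB N3221 X3221c64 (nat_lit 64) = true := by decide +kernel
theorem kx3321_64 : chkB N3321 X3321c64 (nat_lit 64) = true := by decide +kernel
theorem kx3322_256 : chkB N3322 X3322c256 (nat_lit 256) = true := by decide +kernel
theorem kx3332_576 : chkB N3332 X3332c576 (nat_lit 576) = true := by decide +kernel
theorem kx3333_640 : chkB N3333 X3333c640 (nat_lit 640) = true := by decide +kernel
theorem km5321_0 : kM (appM R5321) (fun u => Nat.beq u (nat_lit 0)) M5321_0 (nat_lit 0x3748000000000000000000) = true := by decide +kernel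
theorem kx4331 : chkB N4331 X4331.t 0 = true := by decide +kernel
theorem kv5221_0 : wfT L5221_0 87 = true := by decide +kernel
theorem kp3210_0 : kR N3210 (rawOf F3210) (fun u => Nat.beq u (nat_lit 0)) P3210_0 (nat_lit 87) = true := by decide +kernel
theorem km4333_12 : kM (appM R4333) (fun u => Nat.beq u (nat_lit 0)) M4333_12 (nat_lit 8704) = true := by decide +kernel
theorem ke2111 : kB (fun u => Nat.beq u (nat_lit 63)) (toL X2111.t []) (nat_lit 0x3ffffffffff) = true := by decide +kernel
theorem ke3311 : kB (fun u => Nat.beq u (nat_lit 0x3fff8027fffc0fffe009ffff)) (toL X3311.t []) (nat_lit 0xfffffffffffffffffffffffff) = true := by decide +kernel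
theorem ka4222 : (wfT N4222 762 && wfT R4222 62) = true := by decide +kernel
theorem ka3333 : (wfT N3333 3096 && wfT R3333 1552) = true := by decide +kernel
theorem ka5532 : (wfT N5532 6 && wfT R5532 1) = true := by decide +kernel
theorem kp5521_0 : kR N5521 (rawOf F5521) (fun u => Nat.beq u (nat_lit 0)) P5521_0 (nat_lit 3) = true := by decide +kernel
theorem ke6222 : kB (fun u => Nat.beq u (nat_lit 0xc297e7ebffffffffffffffffffffffff)) (toL X6222.t []) (nat_lit 0x3ffffffffffffffffffffffffffffffffff) = true := by decide +kernel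
theorem ke3220 : kB (fun u => Nat.beq u (nat_lit 74207)) (toL X3220.t []) (nat_lit 262143) = true := by decide +kernel
theorem kv5331_2 : wfT L5331_2 10 = true := by decide +kernel
theorem ke2100 : kB (fun u => Nat.beq u (nat_lit 1)) (toL X2100.t []) (nat_lit 3) = true := by decide +kernel
theorem kx4110 : chkB N4110 X4110.t 0 = true := by decide +kernel
theorem ke4220 : kB (fun u => Nat.beq u (nat_lit 47)) (toL X4220.t []) (nat_lit 1023) = true := by decide +kernel
theorem kv6211_0 : wfT L6211_0 3 = true := by decide +kernel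
theorem ke4431 : kB (fun u => Nat.beq u (nat_lit 0x3ffffffebffffffff5ffffff)) (toL X4431.t []) (nat_lit 0x3fffffffffffffffffffffff) = true := by decide +kernel
theorem ke6422 : kB (fun u => Nat.beq u (nat_lit 253951)) (toL X6422.t []) (nat_lit 262143) = true := by decide +kernel
theorem kw4443_1 : wfT S4443_1 6 = true := by decide +kernel

end Pool.Agent.L3E.GJ
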