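import Pool.Agent.L3E.GJ.Pl

set_option autoImplicit false
set_option maxRecDepth 100000
set_option linter.unusedVariables false
set_option exponentiation.threshold 100000

/-! # L3E, module GJ.C9: kernel checks -/

namespace Pool.Agent.L3E.GJ

theorem kG3211_0 : gChk AT7 30022 [g3211_0] = true := by decide +kernel
theorem kG2222_5 : gChk AT8 30032 [g2222_5] = true := by decide +kernel
theorem kG3222_3 : gChk AT9 30040 [g3222_3] = true := by decide +kernel
theorem kG4222_6 : gChk AT10 30050 [g4222_6] = true := by decide +kernel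
theorem kG3322_9 : gChk AT10 30052 [g3322_9] = true := by decide +kernel
theorem kG4322_0 : gChk AT11 30058 [g4322_0] = true := by decide +kernel
theorem kG3332_7 : gChk AT11 30059 [g3332_7] = true := by decide +kernel
theorem kS2110_2 : chk2 (fun m => appM N2110 (rowL pS2110_2 m)) X2110.t S2110_2.t = true := by decide +kernel
theorem kS2221_2_64 : chk2 (fun m => appM N2221 (rowL pS2221_2 m)) X2221c64 S2221_2c64 = true := by decide +kernel
theorem kS2222_3_0 : chk2 (fun m => appM N2222 (rowL pS2222_3 m)) X2222c0 S2222_3c0 = true := by decide +kernel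
theorem kS3222_3_64 : chk2 (fun m => appM N3222 (rowL pS3222_3 m)) X3222c64 S3222_3c64 = true := by decide +kernel
theorem kS3322_1_0 : chk2 (fun m => appM N3322 (rowL pS3322_1 m)) X3322c0 S3322_1c0 = true := by decide +kernel
theorem kS5222_3_0 : chk2 (fun m => appM N5222 (rowL pS5222_3 m)) X5222c0 S5222_3c0 = true := by decide +kernel
theorem kS3332_2_0 : chk2 (fun m => appM N3332 (rowL pS3332_2 m)) X3332c0 S3332_2c0 = true := by decide +kernel
theorem kS4332_2_0 : chk2 (fun m => appM N4332 (rowL pS4332_2 m)) X4332c0 S4332_2c0 = true := by decide +kernel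
theorem kS3333_2_320 : chk2 (fun m => appM N3333 (rowL pS3333_2 m)) X3333c320 S3333_2c320 = true := by decide +kernel
theorem kS7222_3 : chk2 (fun m => appM N7222 (rowL pS7222_3 m)) X7222.t S7222_3.t = true := by decide +kernel
theorem kL1110_2 : chk2 (fun m => appM N1110 (rowL pL1110_2 m)) X1100.t L1110_2.t = true := by decide +kernel
theorem kL3310_1 : chk2 (fun m => appM N3310 (rowL pL3310_1 m)) X3210.t L3310_1.t = true := by decide +kernel
theorem kL2222_3_64 : chk2 (fun m => appM N2222 (rowL pL2222_3 m)) X2221c64 L2222_3c64 = true := by decide +kernel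
theorem kL3222_0_256 : chk2 (fun m => appM N3222 (rowL pL3222_0 m)) X2222c256 L3222_0c256 = true := by decide +kernel
theorem kL4321_2 : chk2 (fun m => appM N4321 (rowL pL4321_2 m)) X4311.t L4321_2.t = true := by decide +kernel
theorem kL3322_1_192 : chk2 (fun m => appM N3322 (rowL pL3322_1 m)) X3222c192 L3322_1c192 = true := by decide +kernel
theorem kL4331_2_64 : chk2 (fun m => appM N4331 (rowL pL4331_2 m)) X4321c64 L4331_2c64 = true := by decide +kernel
theorem km3332_1 : kM (appM R3332) (fun u => Nat.beq u (nat_lit 0xbaa91bebbffabd56281cfaaa23fbbd68bcd40000000000000000000000000000000000000000000000000001201a0d4240b4082000081beaa16abd562814828223cb01403c941bb6bffabfbf7ffb7daaeaa46faeffeaf558a073eaa88feef5a2f35000000000000000000000000000000000000000000000000000048068350902d0208000206faa85aaf558a0520a088f2c0500f2506edaffeafefdffedf6abaa91bebbffabd56281cfaaa23fbbd68bcd4)) M3332_1 (nat_lit 0x32506edaffeafefdffedf6abaa91bebbffabd56281cfaaa23fbbd68bcd40000000000000000000000000000000000000000000000000001201a0d4240b4082000081beaa16abd562814828223cb01403c941bb6bffabfbf7ffb7daaeaa46faeffeaf558a073eaa88feef5a2f35000000000000000000000000000000000000000000000000000048068350902d0208000206faa85aaf558a0520a088f2c0500f2506edaffeafefdffedf6abaa91bebbffabd56281cfaaa23fbbd68bcd4)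 = true := by decide +kernel
theorem kL6222_0_64 : chk2 (fun m => appM N6222 (rowL pL6222_0 m)) X5222c64 L6222_0c64 = true := by decide +kernel
theorem kL4422_1_0 : chk2 (fun m => appM N4422 (rowL pL4422_1 m)) X4322c0 L4422_1c0 = true := by decide +kernel
theorem kL4332_0_384 : chk2 (fun m => appM N4332 (rowL pL4332_0 m)) X3332c384 L4332_0c384 = true := by decide +kernel
theorem km3333_10 : kM (appM R3333) (fun u => Nat.beq u (nat_lit 0x7ebfeff7fffffff5fffb0000000000000000000000000000000020803422de76c009a820a6000000000072002020016200901902cbe8a9fbfffe7dbfefff53fdfd4d1a7dfd7fcfefbe4c604bfc07203205ffff5fffffffffffdffff7ffff9ff7fbfaffbfdfffffffd7ffec000000000000000000000000000000008200d08b79db0026a082980000000001c800808005880240640b2fa2a7effff9f6ffbffd4ff7f53469f7f5ff3fbef931812ff01c80c817fffd7fffffffffff7fffdffffe7fdfefebfeff7fffffff5fffb)) M3333_10 (nat_lit 0x1ff7fffdffffe7fdfefebfeff7fffffff5fffb0000000000000000000000000000000020803422de76c009a820a6000000000072002020016200901902cbe8a9fbfffe7dbfefff53fdfd4d1a7dfd7fcfefbe4c604bfc07203205ffff5fffffffffffdffff7ffff9ff7fbfaffbfdfffffffd7ffec000000000000000000000000000000008200d08b79db0026a082980000000001c800808005880240640b2fa2a7effff9f6ffbffd4ff7f53469f7f5ff3fbef931812ff01c80c817fffd7fffffffffff7fffdffffe7fdfefebfeff7fffffff5fffb)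 = true := by decide +kernel
theorem kL3333_3_640 : chk2 (fun m => appM N3333 (rowL pL3333_3 m)) X3332c640 L3333_3c640 = true := by decide +kernel
theorem kL4441_2 : chk2 (fun m => appM N4441 (rowL pL4441_2 m)) X4431.t L4441_2.t = true := by decide +kernel
theorem kL4333_0_128 : chk2 (fun m => appM N4333 (rowL pL4333_0 m)) X3333c128 L4333_0c128 = true := by decide +kernel
theorem kL5522_1 : chk2 (fun m => appM N5522 (rowL pL5522_1 m)) X5422.t L5522_1.t = true := by decide +kernel
theorem kL5433_3 : chk2 (fun m => appM N5433 (rowL pL5433_3 m)) X5432.t L5433_3.t = true := by decide +kernel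
theorem kp4321_0 : kR N4321 (rawOf F4321) (fun u => Nat.beq u (nat_lit 0xb4614381098415dfecb7fe50000083907f7fedefff7f8888998108c6204)) P4321_0 (nat_lit 0xb46143ffff8c17dfecb7fff0180083b07f7ffdefff7ffffffffffffffff) = true := by decide +kernel
theorem kc3322_16 : coreNF N3322 (rawOf F3322) (toL R3322c16 []) C3322_16 = true := by decide +kernel
theorem kc5222_32 : coreNF N5222 (rawOf F5222) (toL R5222c32 []) C5222_32 = true := by decide +kernel
theorem kc4322_240 : coreNF N4322 (rawOf F4322) (toL R4322c240 []) C4322_240 = true := by decide +kernel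
theorem kc3332_208 : coreNF N3332 (rawOf F3332) (toL R3332c208 []) C3332_208 = true := by decide +kernel
theorem kc3332_592 : coreNF N3332 (rawOf F3332) (toL R3332c592 []) C3332_592 = true := by decide +kernel
theorem kc5322_144 : coreNF N5322 (rawOf F5322) (toL R5322c144 []) C5322_144 = true := by decide +kernel
theorem kp4422_3 : kR N4422 (rawOf F4422) (fun u => Nat.beq u (nat_lit 0x1c4001c4480000100087c39808c53e0000008005a400002000680138028812d7fffc5ffff7f7ffffffffffff3ffffdfffffd7520000040021f0e602314f800000000068000000001a004e00a204b5ffff17fffdfdffffffffffffcfffff7fffff5d)) P4422_3 (nat_lit 0x1c4001c4480000100087c39808c53e0000848025ad800124056b61b95fcf7fd7fffc5ffff7f7ffffffffffff3ffffdfffffffd20000040021f0e602314f80002120096b600049015ad86e45b31ff5ffff17fffdfdffffffffffffcfffff7ffffffd) = true := by decide +kernel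
theorem kc4332_336 : coreNF N4332 (rawOf F4332) (toL R4332c336 []) C4332_336 = true := by decide +kernel
theorem kp4332_0 : kR N4332 (rawOf F4332) (fun u => Nat.beq u (nat_lit 0x3df8d260417ac8b1fffffffffff7e15ceb85ed1fffffbb8fbea6c00f0dfffffffffffffffff8dffbffffffffff7fffff3f498105eb22c7fffb7b79cb5f8573ae17b47fc136ee3efa9b003c37ffffffffffffffffe37feffffffffffdfffffcfd000050000058300405a01bdfeafd7fff827ffc9ffe53dff7ffbfffffeefe72bfff7ffffffffdf7ffffffffffff5fffffffffffffffff7ffffffffdffffffffffffffffefffffff7fdfffd7dbeb7ff5abffffebeef6befebe89fdef4d5fbfeff87)) P4332_0 (nat_lit 0x3df8d260417ac8b1fffffffffff7e15ceb85ed1fffffbb8fbea6c00f0dfffffffffffffffff8dffbffffffffff7fffff3f498105eb22c7ffffffffffdf8573ae17b47ffffeee3efa9b003c37ffffffffffffffffe37feffffffffffdfffffcfd000050000058300405a01bdfeafd7fff827ffc9ffe53dff7ffbfffffeefe72bfff7ffffffffdffffffffffffff5fffffffffffffffff7ffffffffdfffffffffffffffffffffffffffffffffffffffffffffffffffffffffffffffffffffffffff) = true := by decide +kernel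
theorem kc3333_256 : coreNF N3333 (rawOf F3333) (toL R3333c256 []) C3333_256 = true := by decide +kernel
theorem kc3333_640 : coreNF N3333 (rawOf F3333) (toL R3333c640 []) C3333_640 = true := by decide +kernel
theorem kc3333_1024 : coreNF N3333 (rawOf F3333) (toL R3333c1024 []) C3333_1024 = true := by decide +kernel
theorem kc3333_1408 : coreNF N3333 (rawOf F3333) (toL R3333c1408 []) C3333_1408 = true := by decide +kernel
theorem kp5332_1 : kR N5332 (rawOf F5332) (fun u => Nat.beq u (nat_lit 0x24026071ef5d7d7bffff3a553838f7afbebfffff8b5c1b7ce6aed3d676ffffffffff9ff6d97affff6fffffff055881ca046339028ad7dc8dec7f)) P5332_1 (nat_lit 0x74aa7071ef5f7d7fffff3a553838f7afbebfffff9b7cdbfee6eff7de76ffffffffffdffffffbffffffffffff4f78a7cf2cffffffaad7fddfefff) = true := by decide +kernel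
theorem kc4333_80 : coreNF N4333 (rawOf F4333) (toL R4333c80 []) C4333_80 = true := by decide +kernel
theorem kc4333_464 : coreNF N4333 (rawOf F4333) (toL R4333c464 []) C4333_464 = true := by decide +kernel
theorem kp4333_4 : kR N4333 (rawOf F4333) (fun u => Nat.beq u (nat_lit 0x1000109a9fb2cc0129e4339102ff5be7fffff53c97763fd77f7fffddcffffebfff7fffff7c00201021353f65980353c9672205feb7efffffeb792eec4fbefffffffffffffd7fffdfbbfcf8004020426a7ecb3006a792ce440bfd6f9fffffd4f25dd89f5dfdffff773ffffafffdbf77f9f0000a2fdbbfedeb7bf9a7f3ea00403ffbfffff5ffdf7fffffe7ffffffffffbfffffbffffffbfeeff737fffffffffffffffffffe7ffffffffffbffffffffffffffffffffffffbfffffffffffffffffffb2fa0ffca96ad1fd18384259b88a01e312a02113800f48762260c)) P4333_4 (nat_lit 0x100e11ba9fb2cc01ade4bb9102ff5bf7fffff5bc97763fff7ffffffffffffebfffffffff7c00201c21353f6598035bc9772205feb7efffffeb792eec7ffefffffffffffffd7ffffffffef8004028426a7ecb3006b792ee440bfd6fdfffffd6f25dd8fffdfffffffffffffafffffffffdf0000a2fdbbfefeb7bf9a7f3ea00403ffbfffff5ffdf7fffffe7ffffffffffbfffffbffffffffeeff737fffffffffffffffffffe7ffffffffffbfffffffffffffffffffffffffffffffffffffffffffff2fe4ffdab6ad1fd9c385a5bb88a01e312a0211380af48762260c)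 = true := by decide +kernel
theorem kp5333_3 : kR N5333 (rawOf F5333) (fun u => Nat.beq u (nat_lit 0x107d18101900000980)) P5333_3 (nat_lit 0x80068001000d8002001b000820688042076f05100840a5e0a385107d18721b55c809e0) = true := by decide +kernel
theorem kp3222_3 : kR N3222 (rawOf F3222) (fun u => Nat.beq u (nat_lit 0x4040a9004111a000000000000000000000004040a9004111a000000000000000000000004040a9004111a00000000000000000000000000000000000560000000005802400a013448ec86fd2c83d9205bd8000000000000000000000000)) P3222_3 (nat_lit 0x4044a9014111e800000000000000000000004044a9014139e800000000000000000000004044a9014111e80000000000000000000000000000000020570000000007802e40b017658ef86fd6cb3df205ff8006000018005640003000a00) = true := by decide +kernel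
theorem km6222_0 : kM (appM R6222) (fun u => Nat.beq u (nat_lit 0)) M6222_0 (nat_lit 0x20787424e2000000000007400400200) = true := by decide +kernel
theorem kv5322_0 : wfT L5322_0 374 = true := by decide +kernel
theorem kx2221_0 : chkB N2221 X2221c0 (nat_lit 0) = true := by decide +kernel
theorem kx2222_384 : chkB N2222 X2222c384 (nat_lit 384) = true := by decide +kernel
theorem kx3322_0 : chkB N3322 X3322c0 (nat_lit 0) = true := by decide +kernel
theorem kx3332_320 : chkB N3332 X3332c320 (nat_lit 320) = true := by decide +kernel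
theorem kx3333_384 : chkB N3333 X3333c384 (nat_lit 384) = true := by decide +kernel
theorem kp3330_0 : kR N3330 (rawOf F3330) (fun u => Nat.beq u (nat_lit 0)) P3330_0 (nat_lit 4095) = true := by decide +kernel
theorem kp4320_0 : kR N4320 (rawOf F4320) (fun u => Nat.beq u (nat_lit 0)) P4320_0 (nat_lit 479) = true := by decide +kernel
theorem kp7322_0 : kR N7322 (rawOf F7322) (fun u => Nat.beq u (nat_lit 0)) P7322_0 (nat_lit 127) = true := by decide +kernel
theorem ke4432 : kB (fun u => Nat.beq u (nat_lit 0xfffffffff3c5f6de3fffffbffffffffe7fffff4f9a7df7fdfcbbfffffffffffe2bffffffffffffffffffffffffffffffffffffffffffffffff9f34fbeffbf977fffffffffffc57ffffffffffffffffffffffffffffffffffffffffffffffff)) (toL X4432.t []) (nat_lit 0xfffffffffffffffffffffffffffffffffffffffffffffffffffffffffffffffffffffffffffffffffffffffffffffffffffffffffffffffffffffffffffffffffffffffffffffffffffffffffffffffffffffffffffffffffffffffffffffff) = true := by decide +kernel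
theorem ke4433 : kB (fun u => Nat.beq u (nat_lit 0xffe5bfffe1ffff3ff96ffff87fffc1f7fc7c7fffffffffcffffffffffffffffffffffffffffffff1f7fc7c7fffffffffcffffffffffffffffffffffffffffffff)) (toL X4433.t []) (nat_lit 0xfffffffffffffffffffffffffffffffffffffffffffffffffffffffffffffffffffffffffffffffffffffffffffffffffffffffffffffffffffffffffffffffff) = true := by decide +kernel
theorem kw2111_2 : wfT S2111_2 36 = true := by decide +kernel
theorem kw3311_1 : wfT S3311_1 34 = true := by decide +kernel
theorem ka3331 : (wfT N3331 432 && wfT R3331 153) = true := by decide +kernel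
theorem ka7222 : (wfT N7222 22 && wfT R7222 1) = true := by decide +kernel
theorem ka5442 : (wfT N5442 6 && wfT R5442 1) = true := by decide +kernel
theorem ke5332 : kB (fun u => Nat.beq u (nat_lit 0x1ffff77f1ef7ffd7fffffffffbbf8f7bffebfffff9f7cfbffe6eff7fff6ffffffffffffffffffffffffffffffffffffffffffffffffffffffffff)) (toL X5332.t []) (nat_lit 0x1ffffffffffffffffffffffffffffffffffffffffffffffffffffffffffffffffffffffffffffffffffffffffffffffffffffffffffffffffffff) = true := by decide +kernel
theorem kw6222_2 : wfT S6222_2 22 = true := by decide +kernel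
theorem kw3220_2 : wfT S3220_2 8 = true := by decide +kernel
theorem kv5322_3 : wfT L5322_3 10 = true := by decide +kernel
theorem kw2100_3 : wfT S2100_3 1 = true := by decide +kernel
theorem kv4110_0 : wfT L4110_0 2 = true := by decide +kernel
theorem kw4220_2 : wfT S4220_2 5 = true := by decide +kernel
theorem kx5320 : chkB N5320 X5320.t 0 = true := by decide +kernel
theorem kw4431_1 : wfT S4431_1 4 = true := by decide +kernel
theorem kw6422_3 : wfT S6422_3 1 = true := by decide +kernel
theorem kw4443_2 : wfT S4443_2 6 = true := by decide +kernel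

end Pool.Agent.L3E.GJ
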