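import Pool.Agent.L3E.GJ.C0
import Pool.Agent.L3E.GJ.C1
import Pool.Agent.L3E.GJ.C2
import Pool.Agent.L3E.GJ.C3
import Pool.Agent.L3E.GJ.C4
import Pool.Agent.L3E.GJ.C5
import Pool.Agent.L3E.GJ.C6
import Pool.Agent.L3E.GJ.C7
import Pool.Agent.L3E.GJ.C8
import Pool.Agent.L3E.GJ.C9
import Pool.Agent.L3E.GJ.C10
import Pool.Agent.L3E.GJ.C11
import Pool.Agent.L3E.GJ.C12
import Pool.Agent.L3E.GJ.C13
import Pool.Agent.L3E.GJ.C14
import Pool.Agent.L3E.GJ.C15
import Pool.Agent.L3E.GJ.C16
import Pool.Agent.L3E.GJ.C17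
import Pool.Agent.L3E.GJ.C18
import Pool.Agent.L3E.GJ.C19
import Pool.Agent.L3E.GJ.C20
import Pool.Agent.L3E.GJ.C21
import Pool.Agent.L3E.GJ.C22
import Pool.Agent.L3E.GJ.C23

set_option autoImplicit false
set_option maxRecDepth 100000
set_option linter.unusedVariables false
set_option exponentiation.threshold 100000

/-! # L3E, module GJ.Ca: assembly of the kernel checks -/

namespace Pool.Agent.L3E.GJ

theorem wf1000 : wfT X1000 1 = true := by decide +kernel
theorem kb1000 : chkBase 1 1 N1000 X1000 1 R1000 = true := base_of ka1000 wf1000 kx1000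
theorem co1000 : CoreOk N1000 (rawOf F1000) R1000.t := core_z
theorem el1000 : Elim N1000 X1000 (rawOf F1000) R1000 (nat_lit 1) (nat_lit 0) :=
  (elim_B ke1000)
theorem u1000 : Nat.beq (Nat.sub (Nat.pow 2 1) 1) (nat_lit 1) = true := by decide +kernel
theorem wf2000 : wfT X2000 0 = true := by decide +kernel
theorem kb2000 : chkBase 1 0 N2000 X2000 1 R2000 = true := base_of ka2000 wf2000 kx2000
theorem co2000 : CoreOk N2000 (rawOf F2000) R2000.t := core_z
theorem el2000 : Elim N2000 X2000 (rawOf F2000) R2000 (nat_lit 1) (nat_lit 0) :=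
  (elim_R kp2000_0)
theorem u2000 : Nat.beq (Nat.sub (Nat.pow 2 1) 1) (nat_lit 1) = true := by decide +kernel
theorem wf1100 : wfT X1100 2 = true := by decide +kernel
theorem kb1100 : chkBase 2 2 N1100 X1100 1 R1100 = true := base_of ka1100 wf1100 kx1100
theorem co1100 : CoreOk N1100 (rawOf F1100) R1100.t := core_z
theorem el1100 : Elim N1100 X1100 (rawOf F1100) R1100 (nat_lit 3) (nat_lit 0) :=
  (elim_B ke1100)
theorem u1100 : Nat.beq (Nat.sub (Nat.pow 2 2) 1) (nat_lit 3) = true := by decide +kernel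
theorem wf2100 : wfT X2100 1 = true := by decide +kernel
theorem kb2100 : chkBase 2 1 N2100 X2100 1 R2100 = true := base_of ka2100 wf2100 kx2100
theorem co2100 : CoreOk N2100 (rawOf F2100) R2100.t := core_z
theorem el2100 : Elim N2100 X2100 (rawOf F2100) R2100 (nat_lit 3) (nat_lit 0) :=
  (elim_trans (elim_B ke2100)
  (elim_R kp2100_0))
theorem u2100 : Nat.beq (Nat.sub (Nat.pow 2 2) 1) (nat_lit 3) = true := by decide +kernel
theorem wf1110 : wfT X1110 6 = true := by decide +kernel
theorem kb1110 : chkBase 6 6 N1110 X1110 1 R1110 = true := base_of ka1110 wf1110 kx1110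
theorem co1110 : CoreOk N1110 (rawOf F1110) R1110.t := core_z
theorem el1110 : Elim N1110 X1110 (rawOf F1110) R1110 (nat_lit 63) (nat_lit 0) :=
  (elim_B ke1110)
theorem u1110 : Nat.beq (Nat.sub (Nat.pow 2 6) 1) (nat_lit 63) = true := by decide +kernel
theorem wf3100 : wfT X3100 0 = true := by decide +kernel
theorem kb3100 : chkBase 1 0 N3100 X3100 1 R3100 = true := base_of ka3100 wf3100 kx3100
theorem co3100 : CoreOk N3100 (rawOf F3100) R3100.t := core_z
theorem el3100 : Elim N3100 X3100 (rawOf F3100) R3100 (nat_lit 1) (nat_lit 0) :=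
  (elim_R kp3100_0)
theorem u3100 : Nat.beq (Nat.sub (Nat.pow 2 1) 1) (nat_lit 1) = true := by decide +kernel
theorem wf2200 : wfT X2200 0 = true := by decide +kernel
theorem kb2200 : chkBase 2 0 N2200 X2200 1 R2200 = true := base_of ka2200 wf2200 kx2200
theorem co2200 : CoreOk N2200 (rawOf F2200) R2200.t := core_z
theorem el2200 : Elim N2200 X2200 (rawOf F2200) R2200 (nat_lit 3) (nat_lit 0) :=
  (elim_R kp2200_0)
theorem u2200 : Nat.beq (Nat.sub (Nat.pow 2 2) 1) (nat_lit 3) = true := by decide +kernel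
theorem wf2110 : wfT X2110 6 = true := by decide +kernel
theorem kb2110 : chkBase 8 6 N2110 X2110 1 R2110 = true := base_of ka2110 wf2110 kx2110
theorem co2110 : CoreOk N2110 (rawOf F2110) R2110.t := core_z
theorem el2110 : Elim N2110 X2110 (rawOf F2110) R2110 (nat_lit 255) (nat_lit 0) :=
  (elim_trans (elim_B ke2110)
  (elim_R kp2110_0))
theorem u2110 : Nat.beq (Nat.sub (Nat.pow 2 8) 1) (nat_lit 255) = true := by decide +kernel
theorem wf1111 : wfT X1111 24 = true := by decide +kernel
theorem kb1111 : chkBase 24 24 N1111 X1111 1 R1111 = true := base_of ka1111 wf1111 kx1111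
theorem co1111 : CoreOk N1111 (rawOf F1111) R1111.t := core_z
theorem el1111 : Elim N1111 X1111 (rawOf F1111) R1111 (nat_lit 0xffffff) (nat_lit 0) :=
  (elim_B ke1111)
theorem u1111 : Nat.beq (Nat.sub (Nat.pow 2 24) 1) (nat_lit 0xffffff) = true := by decide +kernel
theorem wf3110 : wfT X3110 2 = true := by decide +kernel
theorem kb3110 : chkBase 6 2 N3110 X3110 1 R3110 = true := base_of ka3110 wf3110 kx3110
theorem co3110 : CoreOk N3110 (rawOf F3110) R3110.t := core_z
theorem el3110 : Elim N3110 X3110 (rawOf F3110) R3110 (nat_lit 63) (nat_lit 0) :=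
  (elim_trans (elim_B ke3110)
  (elim_R kp3110_0))
theorem u3110 : Nat.beq (Nat.sub (Nat.pow 2 6) 1) (nat_lit 63) = true := by decide +kernel
theorem wf2210 : wfT X2210 6 = true := by decide +kernel
theorem kb2210 : chkBase 12 6 N2210 X2210 1 R2210 = true := base_of ka2210 wf2210 kx2210
theorem co2210 : CoreOk N2210 (rawOf F2210) R2210.t := core_z
theorem el2210 : Elim N2210 X2210 (rawOf F2210) R2210 (nat_lit 4095) (nat_lit 0) :=
  (elim_trans (elim_B ke2210)
  (elim_R kp2210_0))
theorem u2210 : Nat.beq (Nat.sub (Nat.pow 2 12) 1) (nat_lit 4095) = true := by decide +kernel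
theorem wf2111 : wfT X2111 36 = true := by decide +kernel
theorem kb2111 : chkBase 42 36 N2111 X2111 1 R2111 = true := base_of ka2111 wf2111 kx2111
theorem co2111 : CoreOk N2111 (rawOf F2111) R2111.t := core_z
theorem el2111 : Elim N2111 X2111 (rawOf F2111) R2111 (nat_lit 0x3ffffffffff) (nat_lit 0) :=
  (elim_trans (elim_B ke2111)
  (elim_R kp2111_0))
theorem u2111 : Nat.beq (Nat.sub (Nat.pow 2 42) 1) (nat_lit 0x3ffffffffff) = true := by decide +kernel
theorem wf4110 : wfT X4110 0 = true := by decide +kernel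
theorem kb4110 : chkBase 2 0 N4110 X4110 1 R4110 = true := base_of ka4110 wf4110 kx4110
theorem co4110 : CoreOk N4110 (rawOf F4110) R4110.t := core_z
theorem el4110 : Elim N4110 X4110 (rawOf F4110) R4110 (nat_lit 3) (nat_lit 0) :=
  (elim_R kp4110_0)
theorem u4110 : Nat.beq (Nat.sub (Nat.pow 2 2) 1) (nat_lit 3) = true := by decide +kernel
theorem wf3210 : wfT X3210 3 = true := by decide +kernel
theorem kb3210 : chkBase 8 3 N3210 X3210 1 R3210 = true := base_of ka3210 wf3210 kx3210
theorem co3210 : CoreOk N3210 (rawOf F3210) R3210.t := core_z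
theorem el3210 : Elim N3210 X3210 (rawOf F3210) R3210 (nat_lit 255) (nat_lit 0) :=
  (elim_trans (elim_B ke3210)
  (elim_R kp3210_0))
theorem u3210 : Nat.beq (Nat.sub (Nat.pow 2 8) 1) (nat_lit 255) = true := by decide +kernel
theorem wf3111 : wfT X3111 24 = true := by decide +kernel
theorem kb3111 : chkBase 42 24 N3111 X3111 1 R3111 = true := base_of ka3111 wf3111 kx3111
theorem co3111 : CoreOk N3111 (rawOf F3111) R3111.t := core_z
theorem el3111 : Elim N3111 X3111 (rawOf F3111) R3111 (nat_lit 0x3ffffffffff) (nat_lit 0) :=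
  (elim_trans (elim_B ke3111)
  (elim_R kp3111_0))
theorem u3111 : Nat.beq (Nat.sub (Nat.pow 2 42) 1) (nat_lit 0x3ffffffffff) = true := by decide +kernel
theorem wf2220 : wfT X2220 12 = true := by decide +kernel
theorem kb2220 : chkBase 18 12 N2220 X2220 1 R2220 = true := base_of ka2220 wf2220 kx2220
theorem co2220 : CoreOk N2220 (rawOf F2220) R2220.t := core_z
theorem el2220 : Elim N2220 X2220 (rawOf F2220) R2220 (nat_lit 262143) (nat_lit 0) :=
  (elim_trans (elim_B ke2220)
  (elim_R kp2220_0))
theorem u2220 : Nat.beq (Nat.sub (Nat.pow 2 18) 1) (nat_lit 262143) = true := by decide +kernel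
theorem wf2211 : wfT X2211 60 = true := by decide +kernel
theorem kb2211 : chkBase 84 60 N2211 X2211 1 R2211 = true := base_of ka2211 wf2211 kx2211
theorem co2211 : CoreOk N2211 (rawOf F2211) R2211.t := core_z
theorem el2211 : Elim N2211 X2211 (rawOf F2211) R2211 (nat_lit 0xfffffffffffffffffffff) (nat_lit 0) :=
  (elim_trans (elim_B ke2211)
  (elim_R kp2211_0))
theorem u2211 : Nat.beq (Nat.sub (Nat.pow 2 84) 1) (nat_lit 0xfffffffffffffffffffff) = true := by decide +kernel
theorem wf4210 : wfT X4210 1 = true := by decide +kernel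
theorem kb4210 : chkBase 3 1 N4210 X4210 1 R4210 = true := base_of ka4210 wf4210 kx4210
theorem co4210 : CoreOk N4210 (rawOf F4210) R4210.t := core_z
theorem el4210 : Elim N4210 X4210 (rawOf F4210) R4210 (nat_lit 7) (nat_lit 0) :=
  (elim_trans (elim_B ke4210)
  (elim_R kp4210_0))
theorem u4210 : Nat.beq (Nat.sub (Nat.pow 2 3) 1) (nat_lit 7) = true := by decide +kernel
theorem wf4111 : wfT X4111 5 = true := by decide +kernel
theorem kb4111 : chkBase 24 5 N4111 X4111 1 R4111 = true := base_of ka4111 wf4111 kx4111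
theorem co4111 : CoreOk N4111 (rawOf F4111) R4111.t := core_z
theorem el4111 : Elim N4111 X4111 (rawOf F4111) R4111 (nat_lit 0xffffff) (nat_lit 0) :=
  (elim_trans (elim_B ke4111)
  (elim_R kp4111_0))
theorem u4111 : Nat.beq (Nat.sub (Nat.pow 2 24) 1) (nat_lit 0xffffff) = true := by decide +kernel
theorem wf3310 : wfT X3310 0 = true := by decide +kernel
theorem kb3310 : chkBase 6 0 N3310 X3310 1 R3310 = true := base_of ka3310 wf3310 kx3310
theorem co3310 : CoreOk N3310 (rawOf F3310) R3310.t := core_z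
theorem el3310 : Elim N3310 X3310 (rawOf F3310) R3310 (nat_lit 63) (nat_lit 0) :=
  (elim_R kp3310_0)
theorem u3310 : Nat.beq (Nat.sub (Nat.pow 2 6) 1) (nat_lit 63) = true := by decide +kernel
theorem wf3220 : wfT X3220 8 = true := by decide +kernel
theorem kb3220 : chkBase 18 8 N3220 X3220 1 R3220 = true := base_of ka3220 wf3220 kx3220
theorem co3220 : CoreOk N3220 (rawOf F3220) R3220.t := core_z
theorem el3220 : Elim N3220 X3220 (rawOf F3220) R3220 (nat_lit 262143) (nat_lit 0) :=
  (elim_trans (elim_B ke3220)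
  (elim_R kp3220_0))
theorem u3220 : Nat.beq (Nat.sub (Nat.pow 2 18) 1) (nat_lit 262143) = true := by decide +kernel
theorem wf3211 : wfT X3211 50 = true := by decide +kernel
theorem kb3211 : chkBase 90 50 N3211 X3211 1 R3211 = true := base_of ka3211 wf3211 kx3211
theorem co3211 : CoreOk N3211 (rawOf F3211) R3211.t := core_z
theorem el3211 : Elim N3211 X3211 (rawOf F3211) R3211 (nat_lit 0x3ffffffffffffffffffffff) (nat_lit 0) :=
  (elim_trans (elim_B ke3211)
  (elim_R kp3211_0))
theorem u3211 : Nat.beq (Nat.sub (Nat.pow 2 90) 1) (nat_lit 0x3ffffffffffffffffffffff) = true := by decide +kernel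
theorem wf2221 : wfT X2221 138 = true := by decide +kernel
theorem kx2221 : chkB N2221 X2221.t 0 = true :=
  (chkB_b (chkB_b kx2221_0 kx2221_64) kx2221_128)
theorem kb2221 : chkBase 192 138 N2221 X2221 1 R2221 = true := base_of ka2221 wf2221 kx2221
theorem co2221 : CoreOk N2221 (rawOf F2221) R2221.t := core_z
theorem el2221 : Elim N2221 X2221 (rawOf F2221) R2221 (nat_lit 0xffffffffffffffffffffffffffffffffffffffffffffffff) (nat_lit 0) :=
  (elim_trans (elim_B ke2221)
  (elim_R kp2221_0))
theorem u2221 : Nat.beq (Nat.sub (Nat.pow 2 192) 1) (nat_lit 0xffffffffffffffffffffffffffffffffffffffffffffffff) = true := by decide +kernel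
theorem kS2221_1 : chk2 (fun m => appM N2221 (rowL pS2221_1 m)) X2221.t S2221_1.t = true :=
  (chk2_b (chk2_b kS2221_1_0 kS2221_1_64) kS2221_1_128)
theorem kS2221_2 : chk2 (fun m => appM N2221 (rowL pS2221_2 m)) X2221.t S2221_2.t = true :=
  (chk2_b (chk2_b kS2221_2_0 kS2221_2_64) kS2221_2_128)
theorem wf5210 : wfT X5210 0 = true := by decide +kernel
theorem kb5210 : chkBase 1 0 N5210 X5210 1 R5210 = true := base_of ka5210 wf5210 kx5210
theorem co5210 : CoreOk N5210 (rawOf F5210) R5210.t := core_z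
theorem el5210 : Elim N5210 X5210 (rawOf F5210) R5210 (nat_lit 1) (nat_lit 0) :=
  (elim_R kp5210_0)
theorem u5210 : Nat.beq (Nat.sub (Nat.pow 2 1) 1) (nat_lit 1) = true := by decide +kernel
theorem wf5111 : wfT X5111 0 = true := by decide +kernel
theorem kb5111 : chkBase 5 0 N5111 X5111 1 R5111 = true := base_of ka5111 wf5111 kx5111
theorem co5111 : CoreOk N5111 (rawOf F5111) R5111.t := core_z
theorem el5111 : Elim N5111 X5111 (rawOf F5111) R5111 (nat_lit 31) (nat_lit 0) :=
  (elim_R kp5111_0)
theorem u5111 : Nat.beq (Nat.sub (Nat.pow 2 5) 1) (nat_lit 31) = true := by decide +kernel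
theorem wf4310 : wfT X4310 0 = true := by decide +kernel
theorem kb4310 : chkBase 1 0 N4310 X4310 1 R4310 = true := base_of ka4310 wf4310 kx4310
theorem co4310 : CoreOk N4310 (rawOf F4310) R4310.t := core_z
theorem el4310 : Elim N4310 X4310 (rawOf F4310) R4310 (nat_lit 1) (nat_lit 0) :=
  (elim_R kp4310_0)
theorem u4310 : Nat.beq (Nat.sub (Nat.pow 2 1) 1) (nat_lit 1) = true := by decide +kernel
theorem wf4220 : wfT X4220 5 = true := by decide +kernel
theorem kb4220 : chkBase 10 5 N4220 X4220 1 R4220 = true := base_of ka4220 wf4220 kx4220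
theorem co4220 : CoreOk N4220 (rawOf F4220) R4220.t := core_z
theorem el4220 : Elim N4220 X4220 (rawOf F4220) R4220 (nat_lit 1023) (nat_lit 0) :=
  (elim_trans (elim_B ke4220)
  (elim_R kp4220_0))
theorem u4220 : Nat.beq (Nat.sub (Nat.pow 2 10) 1) (nat_lit 1023) = true := by decide +kernel
theorem wf4211 : wfT X4211 21 = true := by decide +kernel
theorem kb4211 : chkBase 57 21 N4211 X4211 1 R4211 = true := base_of ka4211 wf4211 kx4211
theorem co4211 : CoreOk N4211 (rawOf F4211) R4211.t := core_z
theorem el4211 : Elim N4211 X4211 (rawOf F4211) R4211 (nat_lit 0x1ffffffffffffff) (nat_lit 0) :=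
  (elim_trans (elim_B ke4211)
  (elim_R kp4211_0))
theorem u4211 : Nat.beq (Nat.sub (Nat.pow 2 57) 1) (nat_lit 0x1ffffffffffffff) = true := by decide +kernel
theorem wf3320 : wfT X3320 4 = true := by decide +kernel
theorem kb3320 : chkBase 16 4 N3320 X3320 1 R3320 = true := base_of ka3320 wf3320 kx3320
theorem co3320 : CoreOk N3320 (rawOf F3320) R3320.t := core_z
theorem el3320 : Elim N3320 X3320 (rawOf F3320) R3320 (nat_lit 65535) (nat_lit 0) :=
  (elim_trans (elim_B ke3320)
  (elim_R kp3320_0))
theorem u3320 : Nat.beq (Nat.sub (Nat.pow 2 16) 1) (nat_lit 65535) = true := by decide +kernel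
theorem wf3311 : wfT X3311 34 = true := by decide +kernel
theorem kb3311 : chkBase 100 34 N3311 X3311 1 R3311 = true := base_of ka3311 wf3311 kx3311
theorem co3311 : CoreOk N3311 (rawOf F3311) R3311.t := core_z
theorem el3311 : Elim N3311 X3311 (rawOf F3311) R3311 (nat_lit 0xfffffffffffffffffffffffff) (nat_lit 0) :=
  (elim_trans (elim_B ke3311)
  (elim_trans (elim_R kp3311_0)
  (elim_R kp3311_1)))
theorem u3311 : Nat.beq (Nat.sub (Nat.pow 2 100) 1) (nat_lit 0xfffffffffffffffffffffffff) = true := by decide +kernel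
theorem wf3221 : wfT X3221 144 = true := by decide +kernel
theorem kx3221 : chkB N3221 X3221.t 0 = true :=
  (chkB_b (chkB_b kx3221_0 kx3221_64) kx3221_128)
theorem kb3221 : chkBase 246 144 N3221 X3221 8 R3221 = true := base_of ka3221 wf3221 kx3221
theorem co3221 : CoreOk N3221 (rawOf F3221) R3221.t := core_of kc3221
theorem el3221 : Elim N3221 X3221 (rawOf F3221) R3221 (nat_lit 0x3fffffffffffffffffffffffffffffffffffffffffffffffffffffffffffff) (nat_lit 0) :=
  (elim_trans (elim_B ke3221)
  (elim_trans (elim_R kp3221_0)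
  (elim_trans (elim_R kp3221_1)
  (elim_M km3221_0))))
theorem u3221 : Nat.beq (Nat.sub (Nat.pow 2 246) 1) (nat_lit 0x3fffffffffffffffffffffffffffffffffffffffffffffffffffffffffffff) = true := by decide +kernel
theorem kS3221_2 : chk2 (fun m => appM N3221 (rowL pS3221_2 m)) X3221.t S3221_2.t = true :=
  (chk2_b (chk2_b kS3221_2_0 kS3221_2_64) kS3221_2_128)
theorem kL3221_0 : chk2 (fun m => appM N3221 (rowL pL3221_0 m)) X2221.t L3221_0.t = true :=
  (chk2_b (chk2_b kL3221_0_0 kL3221_0_64) kL3221_0_128)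
theorem wf2222 : wfT X2222 396 = true := by decide +kernel
theorem kx2222 : chkB N2222 X2222.t 0 = true :=
  (chkB_b (chkB_b (chkB_b kx2222_0 kx2222_64) (chkB_b kx2222_128 kx2222_192)) (chkB_b (chkB_b kx2222_256 kx2222_320) kx2222_384))
theorem kb2222 : chkBase 552 396 N2222 X2222 43 R2222 = true := base_of ka2222 wf2222 kx2222
theorem co2222 : CoreOk N2222 (rawOf F2222) R2222.t :=
  (core_b (core_b (core_of kc2222_0) (core_of kc2222_16)) (core_of kc2222_32))
theorem el2222 : Elim N2222 X2222 (rawOf F2222) R2222 (nat_lit 0xffffffffffffffffffffffffffffffffffffffffffffffffffffffffffffffffffffffffffffffffffffffffffffffffffffffffffffffffffffffffffffffffffffffffff) (nat_lit 0) :=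
  (elim_trans (elim_B ke2222)
  (elim_trans (elim_R kp2222_0)
  (elim_trans (elim_R kp2222_1)
  (elim_M km2222_0))))
theorem u2222 : Nat.beq (Nat.sub (Nat.pow 2 552) 1) (nat_lit 0xffffffffffffffffffffffffffffffffffffffffffffffffffffffffffffffffffffffffffffffffffffffffffffffffffffffffffffffffffffffffffffffffffffffffff) = true := by decide +kernel
theorem kS2222_1 : chk2 (fun m => appM N2222 (rowL pS2222_1 m)) X2222.t S2222_1.t = true :=
  (chk2_b (chk2_b (chk2_b kS2222_1_0 kS2222_1_64) (chk2_b kS2222_1_128 kS2222_1_192)) (chk2_b (chk2_b kS2222_1_256 kS2222_1_320) kS2222_1_384))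
theorem kS2222_2 : chk2 (fun m => appM N2222 (rowL pS2222_2 m)) X2222.t S2222_2.t = true :=
  (chk2_b (chk2_b (chk2_b kS2222_2_0 kS2222_2_64) (chk2_b kS2222_2_128 kS2222_2_192)) (chk2_b (chk2_b kS2222_2_256 kS2222_2_320) kS2222_2_384))
theorem kS2222_3 : chk2 (fun m => appM N2222 (rowL pS2222_3 m)) X2222.t S2222_3.t = true :=
  (chk2_b (chk2_b (chk2_b kS2222_3_0 kS2222_3_64) (chk2_b kS2222_3_128 kS2222_3_192)) (chk2_b (chk2_b kS2222_3_256 kS2222_3_320) kS2222_3_384))
theorem kL2222_3 : chk2 (fun m => appM N2222 (rowL pL2222_3 m)) X2221.t L2222_3.t = true :=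
  (chk2_b (chk2_b kL2222_3_0 kL2222_3_64) kL2222_3_128)
theorem wf5220 : wfT X5220 1 = true := by decide +kernel
theorem kb5220 : chkBase 5 1 N5220 X5220 1 R5220 = true := base_of ka5220 wf5220 kx5220
theorem co5220 : CoreOk N5220 (rawOf F5220) R5220.t := core_z
theorem el5220 : Elim N5220 X5220 (rawOf F5220) R5220 (nat_lit 31) (nat_lit 0) :=
  (elim_trans (elim_B ke5220)
  (elim_R kp5220_0))
theorem u5220 : Nat.beq (Nat.sub (Nat.pow 2 5) 1) (nat_lit 31) = true := by decide +kernel
theorem wf5211 : wfT X5211 3 = true := by decide +kernel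
theorem kb5211 : chkBase 21 3 N5211 X5211 1 R5211 = true := base_of ka5211 wf5211 kx5211
theorem co5211 : CoreOk N5211 (rawOf F5211) R5211.t := core_z
theorem el5211 : Elim N5211 X5211 (rawOf F5211) R5211 (nat_lit 0x1fffff) (nat_lit 0) :=
  (elim_trans (elim_B ke5211)
  (elim_R kp5211_0))
theorem u5211 : Nat.beq (Nat.sub (Nat.pow 2 21) 1) (nat_lit 0x1fffff) = true := by decide +kernel
theorem wf4320 : wfT X4320 1 = true := by decide +kernel
theorem kb4320 : chkBase 9 1 N4320 X4320 1 R4320 = true := base_of ka4320 wf4320 kx4320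
theorem co4320 : CoreOk N4320 (rawOf F4320) R4320.t := core_z
theorem el4320 : Elim N4320 X4320 (rawOf F4320) R4320 (nat_lit 511) (nat_lit 0) :=
  (elim_trans (elim_B ke4320)
  (elim_R kp4320_0))
theorem u4320 : Nat.beq (Nat.sub (Nat.pow 2 9) 1) (nat_lit 511) = true := by decide +kernel
theorem wf4311 : wfT X4311 10 = true := by decide +kernel
theorem kb4311 : chkBase 55 10 N4311 X4311 1 R4311 = true := base_of ka4311 wf4311 kx4311
theorem co4311 : CoreOk N4311 (rawOf F4311) R4311.t := core_z
theorem el4311 : Elim N4311 X4311 (rawOf F4311) R4311 (nat_lit 0x7fffffffffffff) (nat_lit 0) :=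
  (elim_trans (elim_B ke4311)
  (elim_R kp4311_0))
theorem u4311 : Nat.beq (Nat.sub (Nat.pow 2 55) 1) (nat_lit 0x7fffffffffffff) = true := by decide +kernel
theorem wf4221 : wfT X4221 87 = true := by decide +kernel
theorem kx4221 : chkB N4221 X4221.t 0 = true :=
  (chkB_b kx4221_0 kx4221_64)
theorem kb4221 : chkBase 191 87 N4221 X4221 1 R4221 = true := base_of ka4221 wf4221 kx4221
theorem co4221 : CoreOk N4221 (rawOf F4221) R4221.t := core_z
theorem el4221 : Elim N4221 X4221 (rawOf F4221) R4221 (nat_lit 0x7fffffffffffffffffffffffffffffffffffffffffffffff) (nat_lit 0) :=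
  (elim_trans (elim_B ke4221)
  (elim_trans (elim_R kp4221_0)
  (elim_R kp4221_1)))
theorem u4221 : Nat.beq (Nat.sub (Nat.pow 2 191) 1) (nat_lit 0x7fffffffffffffffffffffffffffffffffffffffffffffff) = true := by decide +kernel
theorem kS4221_2 : chk2 (fun m => appM N4221 (rowL pS4221_2 m)) X4221.t S4221_2.t = true :=
  (chk2_b kS4221_2_0 kS4221_2_64)
theorem kL4221_0 : chk2 (fun m => appM N4221 (rowL pL4221_0 m)) X3221.t L4221_0.t = true :=
  (chk2_b (chk2_b kL4221_0_0 kL4221_0_64) kL4221_0_128)
theorem wf3330 : wfT X3330 0 = true := by decide +kernel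
theorem kb3330 : chkBase 12 0 N3330 X3330 1 R3330 = true := base_of ka3330 wf3330 kx3330
theorem co3330 : CoreOk N3330 (rawOf F3330) R3330.t := core_z
theorem el3330 : Elim N3330 X3330 (rawOf F3330) R3330 (nat_lit 4095) (nat_lit 0) :=
  (elim_R kp3330_0)
theorem u3330 : Nat.beq (Nat.sub (Nat.pow 2 12) 1) (nat_lit 4095) = true := by decide +kernel
theorem wf3321 : wfT X3321 144 = true := by decide +kernel
theorem kx3321 : chkB N3321 X3321.t 0 = true :=
  (chkB_b (chkB_b kx3321_0 kx3321_64) kx3321_128)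
theorem kb3321 : chkBase 326 144 N3321 X3321 30 R3321 = true := base_of ka3321 wf3321 kx3321
theorem co3321 : CoreOk N3321 (rawOf F3321) R3321.t :=
  (core_b (core_of kc3321_0) (core_of kc3321_16))
theorem el3321 : Elim N3321 X3321 (rawOf F3321) R3321 (nat_lit 0x3fffffffffffffffffffffffffffffffffffffffffffffffffffffffffffffffffffffffffffffffff) (nat_lit 0) :=
  (elim_trans (elim_B ke3321)
  (elim_trans (elim_R kp3321_0)
  (elim_trans (elim_R kp3321_1)
  (elim_trans (elim_R kp3321_2)
  (elim_M km3321_0)))))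
theorem u3321 : Nat.beq (Nat.sub (Nat.pow 2 326) 1) (nat_lit 0x3fffffffffffffffffffffffffffffffffffffffffffffffffffffffffffffffffffffffffffffffff) = true := by decide +kernel
theorem kS3321_1 : chk2 (fun m => appM N3321 (rowL pS3321_1 m)) X3321.t S3321_1.t = true :=
  (chk2_b (chk2_b kS3321_1_0 kS3321_1_64) kS3321_1_128)
theorem kL3321_1 : chk2 (fun m => appM N3321 (rowL pL3321_1 m)) X3221.t L3321_1.t = true :=
  (chk2_b (chk2_b kL3321_1_0 kL3321_1_64) kL3321_1_128)
theorem wf3222 : wfT X3222 501 = true := by decide +kernel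
theorem kx3222 : chkB N3222 X3222.t 0 = true :=
  (chkB_b (chkB_b (chkB_b kx3222_0 kx3222_64) (chkB_b kx3222_128 kx3222_192)) (chkB_b (chkB_b kx3222_256 kx3222_320) (chkB_b kx3222_384 kx3222_448)))
theorem kb3222 : chkBase 828 501 N3222 X3222 89 R3222 = true := base_of ka3222 wf3222 kx3222
theorem co3222 : CoreOk N3222 (rawOf F3222) R3222.t :=
  (core_b (core_b (core_b (core_of kc3222_0) (core_of kc3222_16)) (core_b (core_of kc3222_32) (core_of kc3222_48))) (core_b (core_of kc3222_64) (core_of kc3222_80)))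
theorem el3222 : Elim N3222 X3222 (rawOf F3222) R3222 (nat_lit 0xfffffffffffffffffffffffffffffffffffffffffffffffffffffffffffffffffffffffffffffffffffffffffffffffffffffffffffffffffffffffffffffffffffffffffffffffffffffffffffffffffffffffffffffffffffffffffffffffffffffffffffffff) (nat_lit 0) :=
  (elim_trans (elim_B ke3222)
  (elim_trans (elim_R kp3222_0)
  (elim_trans (elim_R kp3222_1)
  (elim_trans (elim_R kp3222_2)
  (elim_trans (elim_R kp3222_3)
  (elim_trans (elim_M km3222_0)
  (elim_M km3222_1)))))))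
theorem u3222 : Nat.beq (Nat.sub (Nat.pow 2 828) 1) (nat_lit 0xfffffffffffffffffffffffffffffffffffffffffffffffffffffffffffffffffffffffffffffffffffffffffffffffffffffffffffffffffffffffffffffffffffffffffffffffffffffffffffffffffffffffffffffffffffffffffffffffffffffffffffffff) = true := by decide +kernel
theorem kS3222_2 : chk2 (fun m => appM N3222 (rowL pS3222_2 m)) X3222.t S3222_2.t = true :=
  (chk2_b (chk2_b (chk2_b kS3222_2_0 kS3222_2_64) (chk2_b kS3222_2_128 kS3222_2_192)) (chk2_b (chk2_b kS3222_2_256 kS3222_2_320) (chk2_b kS3222_2_384 kS3222_2_448)))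
theorem kS3222_3 : chk2 (fun m => appM N3222 (rowL pS3222_3 m)) X3222.t S3222_3.t = true :=
  (chk2_b (chk2_b (chk2_b kS3222_3_0 kS3222_3_64) (chk2_b kS3222_3_128 kS3222_3_192)) (chk2_b (chk2_b kS3222_3_256 kS3222_3_320) (chk2_b kS3222_3_384 kS3222_3_448)))
theorem kL3222_0 : chk2 (fun m => appM N3222 (rowL pL3222_0 m)) X2222.t L3222_0.t = true :=
  (chk2_b (chk2_b (chk2_b kL3222_0_0 kL3222_0_64) (chk2_b kL3222_0_128 kL3222_0_192)) (chk2_b (chk2_b kL3222_0_256 kL3222_0_320) kL3222_0_384))
theorem kL3222_3 : chk2 (fun m => appM N3222 (rowL pL3222_3 m)) X3221.t L3222_3.t = true :=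
  (chk2_b (chk2_b kL3222_3_0 kL3222_3_64) kL3222_3_128)
theorem wf6220 : wfT X6220 0 = true := by decide +kernel
theorem kb6220 : chkBase 1 0 N6220 X6220 1 R6220 = true := base_of ka6220 wf6220 kx6220
theorem co6220 : CoreOk N6220 (rawOf F6220) R6220.t := core_z
theorem el6220 : Elim N6220 X6220 (rawOf F6220) R6220 (nat_lit 1) (nat_lit 0) :=
  (elim_R kp6220_0)
theorem u6220 : Nat.beq (Nat.sub (Nat.pow 2 1) 1) (nat_lit 1) = true := by decide +kernel
theorem wf6211 : wfT X6211 0 = true := by decide +kernel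
theorem kb6211 : chkBase 3 0 N6211 X6211 1 R6211 = true := base_of ka6211 wf6211 kx6211
theorem co6211 : CoreOk N6211 (rawOf F6211) R6211.t := core_z
theorem el6211 : Elim N6211 X6211 (rawOf F6211) R6211 (nat_lit 7) (nat_lit 0) :=
  (elim_R kp6211_0)
theorem u6211 : Nat.beq (Nat.sub (Nat.pow 2 3) 1) (nat_lit 7) = true := by decide +kernel
theorem wf5320 : wfT X5320 0 = true := by decide +kernel
theorem kb5320 : chkBase 2 0 N5320 X5320 1 R5320 = true := base_of ka5320 wf5320 kx5320
theorem co5320 : CoreOk N5320 (rawOf F5320) R5320.t := core_z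
theorem el5320 : Elim N5320 X5320 (rawOf F5320) R5320 (nat_lit 3) (nat_lit 0) :=
  (elim_R kp5320_0)
theorem u5320 : Nat.beq (Nat.sub (Nat.pow 2 2) 1) (nat_lit 3) = true := by decide +kernel
theorem wf5311 : wfT X5311 0 = true := by decide +kernel
theorem kb5311 : chkBase 13 0 N5311 X5311 1 R5311 = true := base_of ka5311 wf5311 kx5311
theorem co5311 : CoreOk N5311 (rawOf F5311) R5311.t := core_z
theorem el5311 : Elim N5311 X5311 (rawOf F5311) R5311 (nat_lit 8191) (nat_lit 0) :=
  (elim_R kp5311_0)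
theorem u5311 : Nat.beq (Nat.sub (Nat.pow 2 13) 1) (nat_lit 8191) = true := by decide +kernel
theorem wf5221 : wfT X5221 23 = true := by decide +kernel
theorem kb5221 : chkBase 94 23 N5221 X5221 1 R5221 = true := base_of ka5221 wf5221 kx5221
theorem co5221 : CoreOk N5221 (rawOf F5221) R5221.t := core_z
theorem el5221 : Elim N5221 X5221 (rawOf F5221) R5221 (nat_lit 0x3fffffffffffffffffffffff) (nat_lit 0) :=
  (elim_trans (elim_B ke5221)
  (elim_trans (elim_R kp5221_0)
  (elim_R kp5221_1)))
theorem u5221 : Nat.beq (Nat.sub (Nat.pow 2 94) 1) (nat_lit 0x3fffffffffffffffffffffff) = true := by decide +kernel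
theorem kL5221_0 : chk2 (fun m => appM N5221 (rowL pL5221_0 m)) X4221.t L5221_0.t = true :=
  (chk2_b kL5221_0_0 kL5221_0_64)
theorem wf4420 : wfT X4420 0 = true := by decide +kernel
theorem kb4420 : chkBase 2 0 N4420 X4420 1 R4420 = true := base_of ka4420 wf4420 kx4420
theorem co4420 : CoreOk N4420 (rawOf F4420) R4420.t := core_z
theorem el4420 : Elim N4420 X4420 (rawOf F4420) R4420 (nat_lit 3) (nat_lit 0) :=
  (elim_R kp4420_0)
theorem u4420 : Nat.beq (Nat.sub (Nat.pow 2 2) 1) (nat_lit 3) = true := by decide +kernel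
theorem wf4411 : wfT X4411 0 = true := by decide +kernel
theorem kb4411 : chkBase 20 0 N4411 X4411 1 R4411 = true := base_of ka4411 wf4411 kx4411
theorem co4411 : CoreOk N4411 (rawOf F4411) R4411.t := core_z
theorem el4411 : Elim N4411 X4411 (rawOf F4411) R4411 (nat_lit 0xfffff) (nat_lit 0) :=
  (elim_R kp4411_0)
theorem u4411 : Nat.beq (Nat.sub (Nat.pow 2 20) 1) (nat_lit 0xfffff) = true := by decide +kernel
theorem wf4330 : wfT X4330 0 = true := by decide +kernel
theorem kb4330 : chkBase 2 0 N4330 X4330 1 R4330 = true := base_of ka4330 wf4330 kx4330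
theorem co4330 : CoreOk N4330 (rawOf F4330) R4330.t := core_z
theorem el4330 : Elim N4330 X4330 (rawOf F4330) R4330 (nat_lit 3) (nat_lit 0) :=
  (elim_R kp4330_0)
theorem u4330 : Nat.beq (Nat.sub (Nat.pow 2 2) 1) (nat_lit 3) = true := by decide +kernel
theorem wf4321 : wfT X4321 68 = true := by decide +kernel
theorem kx4321 : chkB N4321 X4321.t 0 = true :=
  (chkB_b kx4321_0 kx4321_64)
theorem kb4321 : chkBase 242 68 N4321 X4321 46 R4321 = true := base_of ka4321 wf4321 kx4321
theorem co4321 : CoreOk N4321 (rawOf F4321) R4321.t :=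
  (core_b (core_b (core_of kc4321_0) (core_of kc4321_16)) (core_of kc4321_32))
theorem el4321 : Elim N4321 X4321 (rawOf F4321) R4321 (nat_lit 0x3ffffffffffffffffffffffffffffffffffffffffffffffffffffffffffff) (nat_lit 0) :=
  (elim_trans (elim_B ke4321)
  (elim_trans (elim_R kp4321_0)
  (elim_trans (elim_R kp4321_1)
  (elim_M km4321_0))))
theorem u4321 : Nat.beq (Nat.sub (Nat.pow 2 242) 1) (nat_lit 0x3ffffffffffffffffffffffffffffffffffffffffffffffffffffffffffff) = true := by decide +kernel
theorem kL4321_0 : chk2 (fun m => appM N4321 (rowL pL4321_0 m)) X3321.t L4321_0.t = true :=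
  (chk2_b (chk2_b kL4321_0_0 kL4321_0_64) kL4321_0_128)
theorem kL4321_1 : chk2 (fun m => appM N4321 (rowL pL4321_1 m)) X4221.t L4321_1.t = true :=
  (chk2_b kL4321_1_0 kL4321_1_64)
theorem wf4222 : wfT X4222 366 = true := by decide +kernel
theorem kx4222 : chkB N4222 X4222.t 0 = true :=
  (chkB_b (chkB_b (chkB_b kx4222_0 kx4222_64) (chkB_b kx4222_128 kx4222_192)) (chkB_b kx4222_256 kx4222_320))
theorem kb4222 : chkBase 762 366 N4222 X4222 62 R4222 = true := base_of ka4222 wf4222 kx4222
theorem co4222 : CoreOk N4222 (rawOf F4222) R4222.t :=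
  (core_b (core_b (core_of kc4222_0) (core_of kc4222_16)) (core_b (core_of kc4222_32) (core_of kc4222_48)))
theorem el4222 : Elim N4222 X4222 (rawOf F4222) R4222 (nat_lit 0x3ffffffffffffffffffffffffffffffffffffffffffffffffffffffffffffffffffffffffffffffffffffffffffffffffffffffffffffffffffffffffffffffffffffffffffffffffffffffffffffffffffffffffffffffffffffffffffffff) (nat_lit 0) :=
  (elim_trans (elim_B ke4222)
  (elim_trans (elim_R kp4222_0)
  (elim_trans (elim_R kp4222_1)
  (elim_trans (elim_R kp4222_2)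
  (elim_trans (elim_R kp4222_3)
  (elim_trans (elim_R kp4222_4)
  (elim_trans (elim_R kp4222_5)
  (elim_M km4222_0))))))))
theorem u4222 : Nat.beq (Nat.sub (Nat.pow 2 762) 1) (nat_lit 0x3ffffffffffffffffffffffffffffffffffffffffffffffffffffffffffffffffffffffffffffffffffffffffffffffffffffffffffffffffffffffffffffffffffffffffffffffffffffffffffffffffffffffffffffffffffffffffffffff) = true := by decide +kernel
theorem kS4222_2 : chk2 (fun m => appM N4222 (rowL pS4222_2 m)) X4222.t S4222_2.t = true :=
  (chk2_b (chk2_b (chk2_b kS4222_2_0 kS4222_2_64) (chk2_b kS4222_2_128 kS4222_2_192)) (chk2_b kS4222_2_256 kS4222_2_320))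
theorem kS4222_3 : chk2 (fun m => appM N4222 (rowL pS4222_3 m)) X4222.t S4222_3.t = true :=
  (chk2_b (chk2_b (chk2_b kS4222_3_0 kS4222_3_64) (chk2_b kS4222_3_128 kS4222_3_192)) (chk2_b kS4222_3_256 kS4222_3_320))
theorem kL4222_0 : chk2 (fun m => appM N4222 (rowL pL4222_0 m)) X3222.t L4222_0.t = true :=
  (chk2_b (chk2_b (chk2_b kL4222_0_0 kL4222_0_64) (chk2_b kL4222_0_128 kL4222_0_192)) (chk2_b (chk2_b kL4222_0_256 kL4222_0_320) (chk2_b kL4222_0_384 kL4222_0_448)))
theorem kL4222_3 : chk2 (fun m => appM N4222 (rowL pL4222_3 m)) X4221.t L4222_3.t = true :=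
  (chk2_b kL4222_3_0 kL4222_3_64)
theorem wf3331 : wfT X3331 126 = true := by decide +kernel
theorem kx3331 : chkB N3331 X3331.t 0 = true :=
  (chkB_b kx3331_0 kx3331_64)
theorem kb3331 : chkBase 432 126 N3331 X3331 153 R3331 = true := base_of ka3331 wf3331 kx3331
theorem co3331 : CoreOk N3331 (rawOf F3331) R3331.t :=
  (core_b (core_b (core_b (core_b (core_of kc3331_0) (core_of kc3331_16)) (core_b (core_of kc3331_32) (core_of kc3331_48))) (core_b (core_b (core_of kc3331_64) (core_of kc3331_80)) (core_b (core_of kc3331_96) (core_of kc3331_112)))) (core_b (core_of kc3331_128) (core_of kc3331_144)))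
theorem el3331 : Elim N3331 X3331 (rawOf F3331) R3331 (nat_lit 0xffffffffffffffffffffffffffffffffffffffffffffffffffffffffffffffffffffffffffffffffffffffffffffffffffffffffffff) (nat_lit 0) :=
  (elim_trans (elim_B ke3331)
  (elim_trans (elim_R kp3331_0)
  (elim_trans (elim_R kp3331_1)
  (elim_trans (elim_R kp3331_2)
  (elim_trans (elim_M km3331_0)
  (elim_trans (elim_M km3331_1)
  (elim_M km3331_2)))))))
theorem u3331 : Nat.beq (Nat.sub (Nat.pow 2 432) 1) (nat_lit 0xffffffffffffffffffffffffffffffffffffffffffffffffffffffffffffffffffffffffffffffffffffffffffffffffffffffffffff) = true := by decide +kernel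
theorem kS3331_1 : chk2 (fun m => appM N3331 (rowL pS3331_1 m)) X3331.t S3331_1.t = true :=
  (chk2_b kS3331_1_0 kS3331_1_64)
theorem kS3331_2 : chk2 (fun m => appM N3331 (rowL pS3331_2 m)) X3331.t S3331_2.t = true :=
  (chk2_b kS3331_2_0 kS3331_2_64)
theorem kL3331_2 : chk2 (fun m => appM N3331 (rowL pL3331_2 m)) X3321.t L3331_2.t = true :=
  (chk2_b (chk2_b kL3331_2_0 kL3331_2_64) kL3331_2_128)
theorem wf3322 : wfT X3322 638 = true := by decide +kernel
theorem kx3322 : chkB N3322 X3322.t 0 = true :=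
  (chkB_b (chkB_b (chkB_b (chkB_b kx3322_0 kx3322_64) (chkB_b kx3322_128 kx3322_192)) (chkB_b (chkB_b kx3322_256 kx3322_320) (chkB_b kx3322_384 kx3322_448))) (chkB_b kx3322_512 kx3322_576))
theorem kb3322 : chkBase 1290 638 N3322 X3322 256 R3322 = true := base_of ka3322 wf3322 kx3322
theorem co3322 : CoreOk N3322 (rawOf F3322) R3322.t :=
  (core_b (core_b (core_b (core_b (core_of kc3322_0) (core_of kc3322_16)) (core_b (core_of kc3322_32) (core_of kc3322_48))) (core_b (core_b (core_of kc3322_64) (core_of kc3322_80)) (core_b (core_of kc3322_96) (core_of kc3322_112)))) (core_b (core_b (core_b (core_of kc3322_128) (core_of kc3322_144)) (core_b (core_of kc3322_160) (core_of kc3322_176))) (core_b (core_b (core_of kc3322_192) (core_of kc3322_208)) (core_b (core_of kc3322_224) (core_of kc3322_240)))))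
theorem el3322 : Elim N3322 X3322 (rawOf F3322) R3322 (nat_lit 0x3ffffffffffffffffffffffffffffffffffffffffffffffffffffffffffffffffffffffffffffffffffffffffffffffffffffffffffffffffffffffffffffffffffffffffffffffffffffffffffffffffffffffffffffffffffffffffffffffffffffffffffffffffffffffffffffffffffffffffffffffffffffffffffffffffffffffffffffffffffffffffffffffffffffffffffffffffffffffffffffffffff) (nat_lit 0) :=
  (elim_trans (elim_B ke3322)
  (elim_trans (elim_R kp3322_0)
  (elim_trans (elim_R kp3322_1)
  (elim_trans (elim_R kp3322_2)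
  (elim_trans (elim_R kp3322_3)
  (elim_trans (elim_R kp3322_4)
  (elim_trans (elim_R kp3322_5)
  (elim_trans (elim_R kp3322_6)
  (elim_trans (elim_M km3322_0)
  (elim_trans (elim_M km3322_1)
  (elim_trans (elim_M km3322_2)
  (elim_M km3322_3))))))))))))
theorem u3322 : Nat.beq (Nat.sub (Nat.pow 2 1290) 1) (nat_lit 0x3ffffffffffffffffffffffffffffffffffffffffffffffffffffffffffffffffffffffffffffffffffffffffffffffffffffffffffffffffffffffffffffffffffffffffffffffffffffffffffffffffffffffffffffffffffffffffffffffffffffffffffffffffffffffffffffffffffffffffffffffffffffffffffffffffffffffffffffffffffffffffffffffffffffffffffffffffffffffffffffffffff) = true := by decide +kernel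
theorem kS3322_1 : chk2 (fun m => appM N3322 (rowL pS3322_1 m)) X3322.t S3322_1.t = true :=
  (chk2_b (chk2_b (chk2_b (chk2_b kS3322_1_0 kS3322_1_64) (chk2_b kS3322_1_128 kS3322_1_192)) (chk2_b (chk2_b kS3322_1_256 kS3322_1_320) (chk2_b kS3322_1_384 kS3322_1_448))) (chk2_b kS3322_1_512 kS3322_1_576))
theorem kS3322_3 : chk2 (fun m => appM N3322 (rowL pS3322_3 m)) X3322.t S3322_3.t = true :=
  (chk2_b (chk2_b (chk2_b (chk2_b kS3322_3_0 kS3322_3_64) (chk2_b kS3322_3_128 kS3322_3_192)) (chk2_b (chk2_b kS3322_3_256 kS3322_3_320) (chk2_b kS3322_3_384 kS3322_3_448))) (chk2_b kS3322_3_512 kS3322_3_576))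
theorem kL3322_1 : chk2 (fun m => appM N3322 (rowL pL3322_1 m)) X3222.t L3322_1.t = true :=
  (chk2_b (chk2_b (chk2_b kL3322_1_0 kL3322_1_64) (chk2_b kL3322_1_128 kL3322_1_192)) (chk2_b (chk2_b kL3322_1_256 kL3322_1_320) (chk2_b kL3322_1_384 kL3322_1_448)))
theorem kL3322_3 : chk2 (fun m => appM N3322 (rowL pL3322_3 m)) X3321.t L3322_3.t = true :=
  (chk2_b (chk2_b kL3322_3_0 kL3322_3_64) kL3322_3_128)
theorem wf6221 : wfT X6221 2 = true := by decide +kernel
theorem kb6221 : chkBase 23 2 N6221 X6221 1 R6221 = true := base_of ka6221 wf6221 kx6221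
theorem co6221 : CoreOk N6221 (rawOf F6221) R6221.t := core_z
theorem el6221 : Elim N6221 X6221 (rawOf F6221) R6221 (nat_lit 0x7fffff) (nat_lit 0) :=
  (elim_trans (elim_B ke6221)
  (elim_R kp6221_0))
theorem u6221 : Nat.beq (Nat.sub (Nat.pow 2 23) 1) (nat_lit 0x7fffff) = true := by decide +kernel
theorem wf5321 : wfT X5321 10 = true := by decide +kernel
theorem kb5321 : chkBase 91 10 N5321 X5321 7 R5321 = true := base_of ka5321 wf5321 kx5321
theorem co5321 : CoreOk N5321 (rawOf F5321) R5321.t := core_of kc5321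
theorem el5321 : Elim N5321 X5321 (rawOf F5321) R5321 (nat_lit 0x7ffffffffffffffffffffff) (nat_lit 0) :=
  (elim_trans (elim_B ke5321)
  (elim_trans (elim_R kp5321_0)
  (elim_trans (elim_R kp5321_1)
  (elim_M km5321_0))))
theorem u5321 : Nat.beq (Nat.sub (Nat.pow 2 91) 1) (nat_lit 0x7ffffffffffffffffffffff) = true := by decide +kernel
theorem kL5321_0 : chk2 (fun m => appM N5321 (rowL pL5321_0 m)) X4321.t L5321_0.t = true :=
  (chk2_b kL5321_0_0 kL5321_0_64)
theorem wf5222 : wfT X5222 132 = true := by decide +kernel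
theorem kx5222 : chkB N5222 X5222.t 0 = true :=
  (chkB_b (chkB_b kx5222_0 kx5222_64) kx5222_128)
theorem kb5222 : chkBase 435 132 N5222 X5222 54 R5222 = true := base_of ka5222 wf5222 kx5222
theorem co5222 : CoreOk N5222 (rawOf F5222) R5222.t :=
  (core_b (core_b (core_of kc5222_0) (core_of kc5222_16)) (core_b (core_of kc5222_32) (core_of kc5222_48)))
theorem el5222 : Elim N5222 X5222 (rawOf F5222) R5222 (nat_lit 0x7ffffffffffffffffffffffffffffffffffffffffffffffffffffffffffffffffffffffffffffffffffffffffffffffffffffffffffff) (nat_lit 0) :=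
  (elim_trans (elim_B ke5222)
  (elim_trans (elim_R kp5222_0)
  (elim_trans (elim_R kp5222_1)
  (elim_trans (elim_R kp5222_2)
  (elim_trans (elim_R kp5222_3)
  (elim_M km5222_0))))))
theorem u5222 : Nat.beq (Nat.sub (Nat.pow 2 435) 1) (nat_lit 0x7ffffffffffffffffffffffffffffffffffffffffffffffffffffffffffffffffffffffffffffffffffffffffffffffffffffffffffff) = true := by decide +kernel
theorem kS5222_2 : chk2 (fun m => appM N5222 (rowL pS5222_2 m)) X5222.t S5222_2.t = true :=
  (chk2_b (chk2_b kS5222_2_0 kS5222_2_64) kS5222_2_128)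
theorem kS5222_3 : chk2 (fun m => appM N5222 (rowL pS5222_3 m)) X5222.t S5222_3.t = true :=
  (chk2_b (chk2_b kS5222_3_0 kS5222_3_64) kS5222_3_128)
theorem kL5222_0 : chk2 (fun m => appM N5222 (rowL pL5222_0 m)) X4222.t L5222_0.t = true :=
  (chk2_b (chk2_b (chk2_b kL5222_0_0 kL5222_0_64) (chk2_b kL5222_0_128 kL5222_0_192)) (chk2_b kL5222_0_256 kL5222_0_320))
theorem wf4421 : wfT X4421 20 = true := by decide +kernel
theorem kb4421 : chkBase 136 20 N4421 X4421 1 R4421 = true := base_of ka4421 wf4421 kx4421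
theorem co4421 : CoreOk N4421 (rawOf F4421) R4421.t := core_z
theorem el4421 : Elim N4421 X4421 (rawOf F4421) R4421 (nat_lit 0xffffffffffffffffffffffffffffffffff) (nat_lit 0) :=
  (elim_trans (elim_B ke4421)
  (elim_trans (elim_R kp4421_0)
  (elim_R kp4421_1)))
theorem u4421 : Nat.beq (Nat.sub (Nat.pow 2 136) 1) (nat_lit 0xffffffffffffffffffffffffffffffffff) = true := by decide +kernel
theorem kL4421_1 : chk2 (fun m => appM N4421 (rowL pL4421_1 m)) X4321.t L4421_1.t = true :=
  (chk2_b kL4421_1_0 kL4421_1_64)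
theorem wf4331 : wfT X4331 37 = true := by decide +kernel
theorem kb4331 : chkBase 262 37 N4331 X4331 1 R4331 = true := base_of ka4331 wf4331 kx4331
theorem co4331 : CoreOk N4331 (rawOf F4331) R4331.t := core_z
theorem el4331 : Elim N4331 X4331 (rawOf F4331) R4331 (nat_lit 0x3fffffffffffffffffffffffffffffffffffffffffffffffffffffffffffffffff) (nat_lit 0) :=
  (elim_trans (elim_B ke4331)
  (elim_trans (elim_R kp4331_0)
  (elim_trans (elim_R kp4331_1)
  (elim_trans (elim_R kp4331_2)
  (elim_R kp4331_3)))))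
theorem u4331 : Nat.beq (Nat.sub (Nat.pow 2 262) 1) (nat_lit 0x3fffffffffffffffffffffffffffffffffffffffffffffffffffffffffffffffff) = true := by decide +kernel
theorem kL4331_0 : chk2 (fun m => appM N4331 (rowL pL4331_0 m)) X3331.t L4331_0.t = true :=
  (chk2_b kL4331_0_0 kL4331_0_64)
theorem kL4331_2 : chk2 (fun m => appM N4331 (rowL pL4331_2 m)) X4321.t L4331_2.t = true :=
  (chk2_b kL4331_2_0 kL4331_2_64)
theorem wf4322 : wfT X4322 374 = true := by decide +kernel
theorem kx4322 : chkB N4322 X4322.t 0 = true :=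
  (chkB_b (chkB_b (chkB_b kx4322_0 kx4322_64) (chkB_b kx4322_128 kx4322_192)) (chkB_b kx4322_256 kx4322_320))
theorem kb4322 : chkBase 1140 374 N4322 X4322 297 R4322 = true := base_of ka4322 wf4322 kx4322
theorem co4322 : CoreOk N4322 (rawOf F4322) R4322.t :=
  (core_b (core_b (core_b (core_b (core_b (core_of kc4322_0) (core_of kc4322_16)) (core_b (core_of kc4322_32) (core_of kc4322_48))) (core_b (core_b (core_of kc4322_64) (core_of kc4322_80)) (core_b (core_of kc4322_96) (core_of kc4322_112)))) (core_b (core_b (core_b (core_of kc4322_128) (core_of kc4322_144)) (core_b (core_of kc4322_160) (core_of kc4322_176))) (core_b (core_b (core_of kc4322_192) (core_of kc4322_208)) (core_b (core_of kc4322_224) (core_of kc4322_240))))) (core_b (core_b (core_of kc4322_256) (core_of kc4322_272)) (core_of kc4322_288)))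
theorem el4322 : Elim N4322 X4322 (rawOf F4322) R4322 (nat_lit 0xfffffffffffffffffffffffffffffffffffffffffffffffffffffffffffffffffffffffffffffffffffffffffffffffffffffffffffffffffffffffffffffffffffffffffffffffffffffffffffffffffffffffffffffffffffffffffffffffffffffffffffffffffffffffffffffffffffffffffffffffffffffffffffffffffffffffffffffffffffffffffffff) (nat_lit 0) :=
  (elim_trans (elim_B ke4322)
  (elim_trans (elim_R kp4322_0)
  (elim_trans (elim_R kp4322_1)
  (elim_trans (elim_R kp4322_2)
  (elim_trans (elim_R kp4322_3)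
  (elim_trans (elim_R kp4322_4)
  (elim_trans (elim_R kp4322_5)
  (elim_trans (elim_R kp4322_6)
  (elim_trans (elim_R kp4322_7)
  (elim_trans (elim_M km4322_0)
  (elim_trans (elim_M km4322_1)
  (elim_trans (elim_M km4322_2)
  (elim_trans (elim_M km4322_3)
  (elim_M km4322_4))))))))))))))
theorem u4322 : Nat.beq (Nat.sub (Nat.pow 2 1140) 1) (nat_lit 0xfffffffffffffffffffffffffffffffffffffffffffffffffffffffffffffffffffffffffffffffffffffffffffffffffffffffffffffffffffffffffffffffffffffffffffffffffffffffffffffffffffffffffffffffffffffffffffffffffffffffffffffffffffffffffffffffffffffffffffffffffffffffffffffffffffffffffffffffffffffffffffff) = true := by decide +kernel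
theorem kS4322_3 : chk2 (fun m => appM N4322 (rowL pS4322_3 m)) X4322.t S4322_3.t = true :=
  (chk2_b (chk2_b (chk2_b kS4322_3_0 kS4322_3_64) (chk2_b kS4322_3_128 kS4322_3_192)) (chk2_b kS4322_3_256 kS4322_3_320))
theorem kL4322_0 : chk2 (fun m => appM N4322 (rowL pL4322_0 m)) X3322.t L4322_0.t = true :=
  (chk2_b (chk2_b (chk2_b (chk2_b kL4322_0_0 kL4322_0_64) (chk2_b kL4322_0_128 kL4322_0_192)) (chk2_b (chk2_b kL4322_0_256 kL4322_0_320) (chk2_b kL4322_0_384 kL4322_0_448))) (chk2_b kL4322_0_512 kL4322_0_576))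
theorem kL4322_1 : chk2 (fun m => appM N4322 (rowL pL4322_1 m)) X4222.t L4322_1.t = true :=
  (chk2_b (chk2_b (chk2_b kL4322_1_0 kL4322_1_64) (chk2_b kL4322_1_128 kL4322_1_192)) (chk2_b kL4322_1_256 kL4322_1_320))
theorem kL4322_3 : chk2 (fun m => appM N4322 (rowL pL4322_3 m)) X4321.t L4322_3.t = true :=
  (chk2_b kL4322_3_0 kL4322_3_64)
theorem wf3332 : wfT X3332 774 = true := by decide +kernel
theorem kx3332 : chkB N3332 X3332.t 0 = true :=
  (chkB_b (chkB_b (chkB_b (chkB_b kx3332_0 kx3332_64) (chkB_b kx3332_128 kx3332_192)) (chkB_b (chkB_b kx3332_256 kx3332_320) (chkB_b kx3332_384 kx3332_448))) (chkB_b (chkB_b (chkB_b kx3332_512 kx3332_576) (chkB_b kx3332_640 kx3332_704)) kx3332_768))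
theorem kb3332 : chkBase 2040 774 N3332 X3332 639 R3332 = true := base_of ka3332 wf3332 kx3332
theorem co3332 : CoreOk N3332 (rawOf F3332) R3332.t :=
  (core_b (core_b (core_b (core_b (core_b (core_b (core_of kc3332_0) (core_of kc3332_16)) (core_b (core_of kc3332_32) (core_of kc3332_48))) (core_b (core_b (core_of kc3332_64) (core_of kc3332_80)) (core_b (core_of kc3332_96) (core_of kc3332_112)))) (core_b (core_b (core_b (core_of kc3332_128) (core_of kc3332_144)) (core_b (core_of kc3332_160) (core_of kc3332_176))) (core_b (core_b (core_of kc3332_192) (core_of kc3332_208)) (core_b (core_of kc3332_224) (core_of kc3332_240))))) (core_b (core_b (core_b (core_b (core_of kc3332_256) (core_of kc3332_272)) (core_b (core_of kc3332_288) (core_of kc3332_304))) (core_b (core_b (core_of kc3332_320) (core_of kc3332_336)) (core_b (core_of kc3332_352) (core_of kc3332_368)))) (core_b (core_b (core_b (core_of kc3332_384) (core_of kc3332_400)) (core_b (core_of kc3332_416) (core_of kc3332_432))) (core_b (core_b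 (core_of kc3332_448) (core_of kc3332_464)) (core_b (core_of kc3332_480) (core_of kc3332_496)))))) (core_b (core_b (core_b (core_of kc3332_512) (core_of kc3332_528)) (core_b (core_of kc3332_544) (core_of kc3332_560))) (core_b (core_b (core_of kc3332_576) (core_of kc3332_592)) (core_b (core_of kc3332_608) (core_of kc3332_624)))))
theorem el3332 : Elim N3332 X3332 (rawOf F3332) R3332 (nat_lit 0xffffffffffffffffffffffffffffffffffffffffffffffffffffffffffffffffffffffffffffffffffffffffffffffffffffffffffffffffffffffffffffffffffffffffffffffffffffffffffffffffffffffffffffffffffffffffffffffffffffffffffffffffffffffffffffffffffffffffffffffffffffffffffffffffffffffffffffffffffffffffffffffffffffffffffffffffffffffffffffffffffffffffffffffffffffffffffffffffffffffffffffffffffffffffffffffffffffffffffffffffffffffffffffffffffffffffffffffffffffffffffffffffffffffffffffffffffffffffffffffffffffffffffffffffffffffffffffff) (nat_lit 0) :=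
  (elim_trans (elim_B ke3332)
  (elim_trans (elim_R kp3332_0)
  (elim_trans (elim_R kp3332_1)
  (elim_trans (elim_R kp3332_2)
  (elim_trans (elim_R kp3332_3)
  (elim_trans (elim_R kp3332_4)
  (elim_trans (elim_R kp3332_5)
  (elim_trans (elim_R kp3332_6)
  (elim_trans (elim_R kp3332_7)
  (elim_trans (elim_R kp3332_8)
  (elim_trans (elim_R kp3332_9)
  (elim_trans (elim_M km3332_0)
  (elim_trans (elim_M km3332_1)
  (elim_trans (elim_M km3332_2)
  (elim_trans (elim_M km3332_3)
  (elim_trans (elim_M km3332_4)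
  (elim_trans (elim_M km3332_5)
  (elim_trans (elim_M km3332_6)
  (elim_trans (elim_M km3332_7)
  (elim_trans (elim_M km3332_8)
  (elim_M km3332_9)))))))))))))))))))))
theorem u3332 : Nat.beq (Nat.sub (Nat.pow 2 2040) 1) (nat_lit 0xffffffffffffffffffffffffffffffffffffffffffffffffffffffffffffffffffffffffffffffffffffffffffffffffffffffffffffffffffffffffffffffffffffffffffffffffffffffffffffffffffffffffffffffffffffffffffffffffffffffffffffffffffffffffffffffffffffffffffffffffffffffffffffffffffffffffffffffffffffffffffffffffffffffffffffffffffffffffffffffffffffffffffffffffffffffffffffffffffffffffffffffffffffffffffffffffffffffffffffffffffffffffffffffffffffffffffffffffffffffffffffffffffffffffffffffffffffffffffffffffffffffffffffffffffffffffffffff) = true := by decide +kernel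
theorem kS3332_1 : chk2 (fun m => appM N3332 (rowL pS3332_1 m)) X3332.t S3332_1.t = true :=
  (chk2_b (chk2_b (chk2_b (chk2_b kS3332_1_0 kS3332_1_64) (chk2_b kS3332_1_128 kS3332_1_192)) (chk2_b (chk2_b kS3332_1_256 kS3332_1_320) (chk2_b kS3332_1_384 kS3332_1_448))) (chk2_b (chk2_b (chk2_b kS3332_1_512 kS3332_1_576) (chk2_b kS3332_1_640 kS3332_1_704)) kS3332_1_768))
theorem kS3332_2 : chk2 (fun m => appM N3332 (rowL pS3332_2 m)) X3332.t S3332_2.t = true :=
  (chk2_b (chk2_b (chk2_b (chk2_b kS3332_2_0 kS3332_2_64) (chk2_b kS3332_2_128 kS3332_2_192)) (chk2_b (chk2_b kS3332_2_256 kS3332_2_320) (chk2_b kS3332_2_384 kS3332_2_448))) (chk2_b (chk2_b (chk2_b kS3332_2_512 kS3332_2_576) (chk2_b kS3332_2_640 kS3332_2_704)) kS3332_2_768))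
theorem kL3332_2 : chk2 (fun m => appM N3332 (rowL pL3332_2 m)) X3322.t L3332_2.t = true :=
  (chk2_b (chk2_b (chk2_b (chk2_b kL3332_2_0 kL3332_2_64) (chk2_b kL3332_2_128 kL3332_2_192)) (chk2_b (chk2_b kL3332_2_256 kL3332_2_320) (chk2_b kL3332_2_384 kL3332_2_448))) (chk2_b kL3332_2_512 kL3332_2_576))
theorem kL3332_3 : chk2 (fun m => appM N3332 (rowL pL3332_3 m)) X3331.t L3332_3.t = true :=
  (chk2_b kL3332_3_0 kL3332_3_64)
theorem wf7221 : wfT X7221 0 = true := by decide +kernel
theorem kb7221 : chkBase 2 0 N7221 X7221 1 R7221 = true := base_of ka7221 wf7221 kx7221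
theorem co7221 : CoreOk N7221 (rawOf F7221) R7221.t := core_z
theorem el7221 : Elim N7221 X7221 (rawOf F7221) R7221 (nat_lit 3) (nat_lit 0) :=
  (elim_R kp7221_0)
theorem u7221 : Nat.beq (Nat.sub (Nat.pow 2 2) 1) (nat_lit 3) = true := by decide +kernel
theorem wf6321 : wfT X6321 0 = true := by decide +kernel
theorem kb6321 : chkBase 12 0 N6321 X6321 1 R6321 = true := base_of ka6321 wf6321 kx6321
theorem co6321 : CoreOk N6321 (rawOf F6321) R6321.t := core_z
theorem el6321 : Elim N6321 X6321 (rawOf F6321) R6321 (nat_lit 4095) (nat_lit 0) :=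
  (elim_R kp6321_0)
theorem u6321 : Nat.beq (Nat.sub (Nat.pow 2 12) 1) (nat_lit 4095) = true := by decide +kernel
theorem wf6222 : wfT X6222 22 = true := by decide +kernel
theorem kb6222 : chkBase 138 22 N6222 X6222 21 R6222 = true := base_of ka6222 wf6222 kx6222
theorem co6222 : CoreOk N6222 (rawOf F6222) R6222.t :=
  (core_b (core_of kc6222_0) (core_of kc6222_16))
theorem el6222 : Elim N6222 X6222 (rawOf F6222) R6222 (nat_lit 0x3ffffffffffffffffffffffffffffffffff) (nat_lit 0) :=
  (elim_trans (elim_B ke6222)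
  (elim_trans (elim_R kp6222_0)
  (elim_trans (elim_R kp6222_1)
  (elim_M km6222_0))))
theorem u6222 : Nat.beq (Nat.sub (Nat.pow 2 138) 1) (nat_lit 0x3ffffffffffffffffffffffffffffffffff) = true := by decide +kernel
theorem kL6222_0 : chk2 (fun m => appM N6222 (rowL pL6222_0 m)) X5222.t L6222_0.t = true :=
  (chk2_b (chk2_b kL6222_0_0 kL6222_0_64) kL6222_0_128)
theorem wf5421 : wfT X5421 1 = true := by decide +kernel
theorem kb5421 : chkBase 30 1 N5421 X5421 1 R5421 = true := base_of ka5421 wf5421 kx5421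
theorem co5421 : CoreOk N5421 (rawOf F5421) R5421.t := core_z
theorem el5421 : Elim N5421 X5421 (rawOf F5421) R5421 (nat_lit 0x3fffffff) (nat_lit 0) :=
  (elim_trans (elim_B ke5421)
  (elim_R kp5421_0))
theorem u5421 : Nat.beq (Nat.sub (Nat.pow 2 30) 1) (nat_lit 0x3fffffff) = true := by decide +kernel
theorem wf5331 : wfT X5331 0 = true := by decide +kernel
theorem kb5331 : chkBase 57 0 N5331 X5331 1 R5331 = true := base_of ka5331 wf5331 kx5331
theorem co5331 : CoreOk N5331 (rawOf F5331) R5331.t := core_z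
theorem el5331 : Elim N5331 X5331 (rawOf F5331) R5331 (nat_lit 0x1ffffffffffffff) (nat_lit 0) :=
  (elim_R kp5331_0)
theorem u5331 : Nat.beq (Nat.sub (Nat.pow 2 57) 1) (nat_lit 0x1ffffffffffffff) = true := by decide +kernel
theorem wf5322 : wfT X5322 81 = true := by decide +kernel
theorem kx5322 : chkB N5322 X5322.t 0 = true :=
  (chkB_b kx5322_0 kx5322_64)
theorem kb5322 : chkBase 526 81 N5322 X5322 155 R5322 = true := base_of ka5322 wf5322 kx5322
theorem co5322 : CoreOk N5322 (rawOf F5322) R5322.t :=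
  (core_b (core_b (core_b (core_b (core_of kc5322_0) (core_of kc5322_16)) (core_b (core_of kc5322_32) (core_of kc5322_48))) (core_b (core_b (core_of kc5322_64) (core_of kc5322_80)) (core_b (core_of kc5322_96) (core_of kc5322_112)))) (core_b (core_of kc5322_128) (core_of kc5322_144)))
theorem el5322 : Elim N5322 X5322 (rawOf F5322) R5322 (nat_lit 0x3fffffffffffffffffffffffffffffffffffffffffffffffffffffffffffffffffffffffffffffffffffffffffffffffffffffffffffffffffffffffffffffffffff) (nat_lit 0) :=
  (elim_trans (elim_B ke5322)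
  (elim_trans (elim_R kp5322_0)
  (elim_trans (elim_R kp5322_1)
  (elim_trans (elim_R kp5322_2)
  (elim_trans (elim_R kp5322_3)
  (elim_trans (elim_R kp5322_4)
  (elim_trans (elim_M km5322_0)
  (elim_trans (elim_M km5322_1)
  (elim_M km5322_2)))))))))
theorem u5322 : Nat.beq (Nat.sub (Nat.pow 2 526) 1) (nat_lit 0x3fffffffffffffffffffffffffffffffffffffffffffffffffffffffffffffffffffffffffffffffffffffffffffffffffffffffffffffffffffffffffffffffffff) = true := by decide +kernel
theorem kS5322_3 : chk2 (fun m => appM N5322 (rowL pS5322_3 m)) X5322.t S5322_3.t = true :=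
  (chk2_b kS5322_3_0 kS5322_3_64)
theorem kL5322_0 : chk2 (fun m => appM N5322 (rowL pL5322_0 m)) X4322.t L5322_0.t = true :=
  (chk2_b (chk2_b (chk2_b kL5322_0_0 kL5322_0_64) (chk2_b kL5322_0_128 kL5322_0_192)) (chk2_b kL5322_0_256 kL5322_0_320))
theorem kL5322_1 : chk2 (fun m => appM N5322 (rowL pL5322_1 m)) X5222.t L5322_1.t = true :=
  (chk2_b (chk2_b kL5322_1_0 kL5322_1_64) kL5322_1_128)
theorem wf4431 : wfT X4431 4 = true := by decide +kernel
theorem kb4431 : chkBase 94 4 N4431 X4431 1 R4431 = true := base_of ka4431 wf4431 kx4431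
theorem co4431 : CoreOk N4431 (rawOf F4431) R4431.t := core_z
theorem el4431 : Elim N4431 X4431 (rawOf F4431) R4431 (nat_lit 0x3fffffffffffffffffffffff) (nat_lit 0) :=
  (elim_trans (elim_B ke4431)
  (elim_trans (elim_R kp4431_0)
  (elim_R kp4431_1)))
theorem u4431 : Nat.beq (Nat.sub (Nat.pow 2 94) 1) (nat_lit 0x3fffffffffffffffffffffff) = true := by decide +kernel
theorem wf4422 : wfT X4422 154 = true := by decide +kernel
theorem kx4422 : chkB N4422 X4422.t 0 = true :=
  (chkB_b (chkB_b kx4422_0 kx4422_64) kx4422_128)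
theorem kb4422 : chkBase 788 154 N4422 X4422 236 R4422 = true := base_of ka4422 wf4422 kx4422
theorem co4422 : CoreOk N4422 (rawOf F4422) R4422.t :=
  (core_b (core_b (core_b (core_b (core_of kc4422_0) (core_of kc4422_16)) (core_b (core_of kc4422_32) (core_of kc4422_48))) (core_b (core_b (core_of kc4422_64) (core_of kc4422_80)) (core_b (core_of kc4422_96) (core_of kc4422_112)))) (core_b (core_b (core_b (core_of kc4422_128) (core_of kc4422_144)) (core_b (core_of kc4422_160) (core_of kc4422_176))) (core_b (core_b (core_of kc4422_192) (core_of kc4422_208)) (core_of kc4422_224))))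
theorem el4422 : Elim N4422 X4422 (rawOf F4422) R4422 (nat_lit 0xfffffffffffffffffffffffffffffffffffffffffffffffffffffffffffffffffffffffffffffffffffffffffffffffffffffffffffffffffffffffffffffffffffffffffffffffffffffffffffffffffffffffffffffffffffffffffffffffffffff) (nat_lit 0) :=
  (elim_trans (elim_B ke4422)
  (elim_trans (elim_R kp4422_0)
  (elim_trans (elim_R kp4422_1)
  (elim_trans (elim_R kp4422_2)
  (elim_trans (elim_R kp4422_3)
  (elim_trans (elim_R kp4422_4)
  (elim_trans (elim_R kp4422_5)
  (elim_trans (elim_R kp4422_6)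
  (elim_trans (elim_M km4422_0)
  (elim_trans (elim_M km4422_1)
  (elim_trans (elim_M km4422_2)
  (elim_M km4422_3))))))))))))
theorem u4422 : Nat.beq (Nat.sub (Nat.pow 2 788) 1) (nat_lit 0xfffffffffffffffffffffffffffffffffffffffffffffffffffffffffffffffffffffffffffffffffffffffffffffffffffffffffffffffffffffffffffffffffffffffffffffffffffffffffffffffffffffffffffffffffffffffffffffffffffff) = true := by decide +kernel
theorem kS4422_1 : chk2 (fun m => appM N4422 (rowL pS4422_1 m)) X4422.t S4422_1.t = true :=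
  (chk2_b (chk2_b kS4422_1_0 kS4422_1_64) kS4422_1_128)
theorem kS4422_3 : chk2 (fun m => appM N4422 (rowL pS4422_3 m)) X4422.t S4422_3.t = true :=
  (chk2_b (chk2_b kS4422_3_0 kS4422_3_64) kS4422_3_128)
theorem kL4422_1 : chk2 (fun m => appM N4422 (rowL pL4422_1 m)) X4322.t L4422_1.t = true :=
  (chk2_b (chk2_b (chk2_b kL4422_1_0 kL4422_1_64) (chk2_b kL4422_1_128 kL4422_1_192)) (chk2_b kL4422_1_256 kL4422_1_320))
theorem wf4332 : wfT X4332 303 = true := by decide +kernel
theorem kx4332 : chkB N4332 X4332.t 0 = true :=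
  (chkB_b (chkB_b (chkB_b kx4332_0 kx4332_64) (chkB_b kx4332_128 kx4332_192)) kx4332_256)
theorem kb4332 : chkBase 1559 303 N4332 X4332 714 R4332 = true := base_of ka4332 wf4332 kx4332
theorem co4332 : CoreOk N4332 (rawOf F4332) R4332.t :=
  (core_b (core_b (core_b (core_b (core_b (core_b (core_of kc4332_0) (core_of kc4332_16)) (core_b (core_of kc4332_32) (core_of kc4332_48))) (core_b (core_b (core_of kc4332_64) (core_of kc4332_80)) (core_b (core_of kc4332_96) (core_of kc4332_112)))) (core_b (core_b (core_b (core_of kc4332_128) (core_of kc4332_144)) (core_b (core_of kc4332_160) (core_of kc4332_176))) (core_b (core_b (core_of kc4332_192) (core_of kc4332_208)) (core_b (core_of kc4332_224) (core_of kc4332_240))))) (core_b (core_b (core_b (core_b (core_of kc4332_256) (core_of kc4332_272)) (core_b (core_of kc4332_288) (core_of kc4332_304))) (core_b (core_b (core_of kc4332_320) (core_of kc4332_336)) (core_b (core_of kc4332_352) (core_of kc4332_368)))) (core_b (core_b (core_b (core_of kc4332_384)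 (core_of kc4332_400)) (core_b (core_of kc4332_416) (core_of kc4332_432))) (core_b (core_b (core_of kc4332_448) (core_of kc4332_464)) (core_b (core_of kc4332_480) (core_of kc4332_496)))))) (core_b (core_b (core_b (core_b (core_of kc4332_512) (core_of kc4332_528)) (core_b (core_of kc4332_544) (core_of kc4332_560))) (core_b (core_b (core_of kc4332_576) (core_of kc4332_592)) (core_b (core_of kc4332_608) (core_of kc4332_624)))) (core_b (core_b (core_b (core_of kc4332_640) (core_of kc4332_656)) (core_b (core_of kc4332_672) (core_of kc4332_688))) (core_of kc4332_704))))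
theorem el4332 : Elim N4332 X4332 (rawOf F4332) R4332 (nat_lit 0x7fffffffffffffffffffffffffffffffffffffffffffffffffffffffffffffffffffffffffffffffffffffffffffffffffffffffffffffffffffffffffffffffffffffffffffffffffffffffffffffffffffffffffffffffffffffffffffffffffffffffffffffffffffffffffffffffffffffffffffffffffffffffffffffffffffffffffffffffffffffffffffffffffffffffffffffffffffffffffffffffffffffffffffffffffffffffffffffffffffffffffffffffffffffffffffffffffffff) (nat_lit 0) :=
  (elim_trans (elim_B ke4332)
  (elim_trans (elim_R kp4332_0)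
  (elim_trans (elim_R kp4332_1)
  (elim_trans (elim_R kp4332_2)
  (elim_trans (elim_R kp4332_3)
  (elim_trans (elim_R kp4332_4)
  (elim_trans (elim_R kp4332_5)
  (elim_trans (elim_R kp4332_6)
  (elim_trans (elim_R kp4332_7)
  (elim_trans (elim_R kp4332_8)
  (elim_trans (elim_M km4332_0)
  (elim_trans (elim_M km4332_1)
  (elim_trans (elim_M km4332_2)
  (elim_trans (elim_M km4332_3)
  (elim_trans (elim_M km4332_4)
  (elim_trans (elim_M km4332_5)
  (elim_trans (elim_M km4332_6)
  (elim_trans (elim_M km4332_7)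
  (elim_trans (elim_M km4332_8)
  (elim_trans (elim_M km4332_9)
  (elim_trans (elim_M km4332_10)
  (elim_M km4332_11))))))))))))))))))))))
theorem u4332 : Nat.beq (Nat.sub (Nat.pow 2 1559) 1) (nat_lit 0x7fffffffffffffffffffffffffffffffffffffffffffffffffffffffffffffffffffffffffffffffffffffffffffffffffffffffffffffffffffffffffffffffffffffffffffffffffffffffffffffffffffffffffffffffffffffffffffffffffffffffffffffffffffffffffffffffffffffffffffffffffffffffffffffffffffffffffffffffffffffffffffffffffffffffffffffffffffffffffffffffffffffffffffffffffffffffffffffffffffffffffffffffffffffffffffffffffffff) = true := by decide +kernel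
theorem kS4332_2 : chk2 (fun m => appM N4332 (rowL pS4332_2 m)) X4332.t S4332_2.t = true :=
  (chk2_b (chk2_b (chk2_b kS4332_2_0 kS4332_2_64) (chk2_b kS4332_2_128 kS4332_2_192)) kS4332_2_256)
theorem kL4332_0 : chk2 (fun m => appM N4332 (rowL pL4332_0 m)) X3332.t L4332_0.t = true :=
  (chk2_b (chk2_b (chk2_b (chk2_b kL4332_0_0 kL4332_0_64) (chk2_b kL4332_0_128 kL4332_0_192)) (chk2_b (chk2_b kL4332_0_256 kL4332_0_320) (chk2_b kL4332_0_384 kL4332_0_448))) (chk2_b (chk2_b (chk2_b kL4332_0_512 kL4332_0_576) (chk2_b kL4332_0_640 kL4332_0_704)) kL4332_0_768))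
theorem kL4332_2 : chk2 (fun m => appM N4332 (rowL pL4332_2 m)) X4322.t L4332_2.t = true :=
  (chk2_b (chk2_b (chk2_b kL4332_2_0 kL4332_2_64) (chk2_b kL4332_2_128 kL4332_2_192)) (chk2_b kL4332_2_256 kL4332_2_320))
theorem wf3333 : wfT X3333 848 = true := by decide +kernel
theorem kx3333 : chkB N3333 X3333.t 0 = true :=
  (chkB_b (chkB_b (chkB_b (chkB_b kx3333_0 kx3333_64) (chkB_b kx3333_128 kx3333_192)) (chkB_b (chkB_b kx3333_256 kx3333_320) (chkB_b kx3333_384 kx3333_448))) (chkB_b (chkB_b (chkB_b kx3333_512 kx3333_576) (chkB_b kx3333_640 kx3333_704)) (chkB_b kx3333_768 kx3333_832)))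
theorem kb3333 : chkBase 3096 848 N3333 X3333 1552 R3333 = true := base_of ka3333 wf3333 kx3333
theorem co3333 : CoreOk N3333 (rawOf F3333) R3333.t :=
  (core_b (core_b (core_b (core_b (core_b (core_b (core_b (core_of kc3333_0) (core_of kc3333_16)) (core_b (core_of kc3333_32) (core_of kc3333_48))) (core_b (core_b (core_of kc3333_64) (core_of kc3333_80)) (core_b (core_of kc3333_96) (core_of kc3333_112)))) (core_b (core_b (core_b (core_of kc3333_128) (core_of kc3333_144)) (core_b (core_of kc3333_160) (core_of kc3333_176))) (core_b (core_b (core_of kc3333_192) (core_of kc3333_208)) (core_b (core_of kc3333_224) (core_of kc3333_240))))) (core_b (core_b (core_b (core_b (core_of kc3333_256) (core_of kc3333_272)) (core_b (core_of kc3333_288) (core_of kc3333_304))) (core_b (core_b (core_of kc3333_320) (core_of kc3333_336)) (core_b (core_of kc3333_352) (core_of kc3333_368)))) (core_b (core_b (core_b (core_of kc3333_384) (core_of kc3333_400)) (core_b (core_of kc3333_416) (core_of kc3333_432))) (core_b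 (core_b (core_of kc3333_448) (core_of kc3333_464)) (core_b (core_of kc3333_480) (core_of kc3333_496)))))) (core_b (core_b (core_b (core_b (core_b (core_of kc3333_512) (core_of kc3333_528)) (core_b (core_of kc3333_544) (core_of kc3333_560))) (core_b (core_b (core_of kc3333_576) (core_of kc3333_592)) (core_b (core_of kc3333_608) (core_of kc3333_624)))) (core_b (core_b (core_b (core_of kc3333_640) (core_of kc3333_656)) (core_b (core_of kc3333_672) (core_of kc3333_688))) (core_b (core_b (core_of kc3333_704) (core_of kc3333_720)) (core_b (core_of kc3333_736) (core_of kc3333_752))))) (core_b (core_b (core_b (core_b (core_of kc3333_768) (core_of kc3333_784)) (core_b (core_of kc3333_800) (core_of kc3333_816))) (core_b (core_b (core_of kc3333_832) (core_of kc3333_848)) (core_b (core_of kc3333_864) (core_of kc3333_880)))) (core_b (core_b (core_b (core_of kc3333_896) (core_of kc3333_912)) (core_b (core_of kc3333_928) (core_of kc3333_944))) (core_b (core_b (core_of kc3333_960) (core_of kc3333_976)) (core_b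 (core_of kc3333_992) (core_of kc3333_1008))))))) (core_b (core_b (core_b (core_b (core_b (core_b (core_of kc3333_1024) (core_of kc3333_1040)) (core_b (core_of kc3333_1056) (core_of kc3333_1072))) (core_b (core_b (core_of kc3333_1088) (core_of kc3333_1104)) (core_b (core_of kc3333_1120) (core_of kc3333_1136)))) (core_b (core_b (core_b (core_of kc3333_1152) (core_of kc3333_1168)) (core_b (core_of kc3333_1184) (core_of kc3333_1200))) (core_b (core_b (core_of kc3333_1216) (core_of kc3333_1232)) (core_b (core_of kc3333_1248) (core_of kc3333_1264))))) (core_b (core_b (core_b (core_b (core_of kc3333_1280) (core_of kc3333_1296)) (core_b (core_of kc3333_1312) (core_of kc3333_1328))) (core_b (core_b (core_of kc3333_1344) (core_of kc3333_1360)) (core_b (core_of kc3333_1376) (core_of kc3333_1392)))) (core_b (core_b (core_b (core_of kc3333_1408) (core_of kc3333_1424)) (core_b (core_of kc3333_1440) (core_of kc3333_1456))) (core_b (core_b (core_of kc3333_1472) (core_of kc3333_1488)) (core_b (core_of kc3333_1504)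 (core_of kc3333_1520)))))) (core_of kc3333_1536)))
theorem el3333 : Elim N3333 X3333 (rawOf F3333) R3333 (nat_lit 0xffffffffffffffffffffffffffffffffffffffffffffffffffffffffffffffffffffffffffffffffffffffffffffffffffffffffffffffffffffffffffffffffffffffffffffffffffffffffffffffffffffffffffffffffffffffffffffffffffffffffffffffffffffffffffffffffffffffffffffffffffffffffffffffffffffffffffffffffffffffffffffffffffffffffffffffffffffffffffffffffffffffffffffffffffffffffffffffffffffffffffffffffffffffffffffffffffffffffffffffffffffffffffffffffffffffffffffffffffffffffffffffffffffffffffffffffffffffffffffffffffffffffffffffffffffffffffffffffffffffffffffffffffffffffffffffffffffffffffffffffffffffffffffffffffffffffffffffffffffffffffffffffffffffffffffffffffffffffffffffffffffffffffffffffffffffffffffffffffffffffffffffffffffffffffffffffffffffffffffffffffffffffffffffffffffffffffffffffffffffffffffffffffffff) (nat_lit 0) :=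
  (elim_trans (elim_B ke3333)
  (elim_trans (elim_R kp3333_0)
  (elim_trans (elim_R kp3333_1)
  (elim_trans (elim_R kp3333_2)
  (elim_trans (elim_R kp3333_3)
  (elim_trans (elim_R kp3333_4)
  (elim_trans (elim_R kp3333_5)
  (elim_trans (elim_R kp3333_6)
  (elim_trans (elim_R kp3333_7)
  (elim_trans (elim_R kp3333_8)
  (elim_trans (elim_R kp3333_9)
  (elim_trans (elim_R kp3333_10)
  (elim_trans (elim_M km3333_0)
  (elim_trans (elim_M km3333_1)
  (elim_trans (elim_M km3333_2)
  (elim_trans (elim_M km3333_3)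
  (elim_trans (elim_M km3333_4)
  (elim_trans (elim_M km3333_5)
  (elim_trans (elim_M km3333_6)
  (elim_trans (elim_M km3333_7)
  (elim_trans (elim_M km3333_8)
  (elim_trans (elim_M km3333_9)
  (elim_trans (elim_M km3333_10)
  (elim_trans (elim_M km3333_11)
  (elim_trans (elim_M km3333_12)
  (elim_trans (elim_M km3333_13)
  (elim_trans (elim_M km3333_14)
  (elim_trans (elim_M km3333_15)
  (elim_trans (elim_M km3333_16)
  (elim_trans (elim_M km3333_17)
  (elim_trans (elim_M km3333_18)
  (elim_trans (elim_M km3333_19)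
  (elim_trans (elim_M km3333_20)
  (elim_trans (elim_M km3333_21)
  (elim_trans (elim_M km3333_22)
  (elim_trans (elim_M km3333_23)
  (elim_M km3333_24)))))))))))))))))))))))))))))))))))))
theorem u3333 : Nat.beq (Nat.sub (Nat.pow 2 3096) 1) (nat_lit 0xffffffffffffffffffffffffffffffffffffffffffffffffffffffffffffffffffffffffffffffffffffffffffffffffffffffffffffffffffffffffffffffffffffffffffffffffffffffffffffffffffffffffffffffffffffffffffffffffffffffffffffffffffffffffffffffffffffffffffffffffffffffffffffffffffffffffffffffffffffffffffffffffffffffffffffffffffffffffffffffffffffffffffffffffffffffffffffffffffffffffffffffffffffffffffffffffffffffffffffffffffffffffffffffffffffffffffffffffffffffffffffffffffffffffffffffffffffffffffffffffffffffffffffffffffffffffffffffffffffffffffffffffffffffffffffffffffffffffffffffffffffffffffffffffffffffffffffffffffffffffffffffffffffffffffffffffffffffffffffffffffffffffffffffffffffffffffffffffffffffffffffffffffffffffffffffffffffffffffffffffffffffffffffffffffffffffffffffffffffffffffffffffffffff)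 = true := by decide +kernel
theorem kS3333_1 : chk2 (fun m => appM N3333 (rowL pS3333_1 m)) X3333.t S3333_1.t = true :=
  (chk2_b (chk2_b (chk2_b (chk2_b kS3333_1_0 kS3333_1_64) (chk2_b kS3333_1_128 kS3333_1_192)) (chk2_b (chk2_b kS3333_1_256 kS3333_1_320) (chk2_b kS3333_1_384 kS3333_1_448))) (chk2_b (chk2_b (chk2_b kS3333_1_512 kS3333_1_576) (chk2_b kS3333_1_640 kS3333_1_704)) (chk2_b kS3333_1_768 kS3333_1_832)))
theorem kS3333_2 : chk2 (fun m => appM N3333 (rowL pS3333_2 m)) X3333.t S3333_2.t = true :=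
  (chk2_b (chk2_b (chk2_b (chk2_b kS3333_2_0 kS3333_2_64) (chk2_b kS3333_2_128 kS3333_2_192)) (chk2_b (chk2_b kS3333_2_256 kS3333_2_320) (chk2_b kS3333_2_384 kS3333_2_448))) (chk2_b (chk2_b (chk2_b kS3333_2_512 kS3333_2_576) (chk2_b kS3333_2_640 kS3333_2_704)) (chk2_b kS3333_2_768 kS3333_2_832)))
theorem kS3333_3 : chk2 (fun m => appM N3333 (rowL pS3333_3 m)) X3333.t S3333_3.t = true :=
  (chk2_b (chk2_b (chk2_b (chk2_b kS3333_3_0 kS3333_3_64) (chk2_b kS3333_3_128 kS3333_3_192)) (chk2_b (chk2_b kS3333_3_256 kS3333_3_320) (chk2_b kS3333_3_384 kS3333_3_448))) (chk2_b (chk2_b (chk2_b kS3333_3_512 kS3333_3_576) (chk2_b kS3333_3_640 kS3333_3_704)) (chk2_b kS3333_3_768 kS3333_3_832)))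
theorem kL3333_3 : chk2 (fun m => appM N3333 (rowL pL3333_3 m)) X3332.t L3333_3.t = true :=
  (chk2_b (chk2_b (chk2_b (chk2_b kL3333_3_0 kL3333_3_64) (chk2_b kL3333_3_128 kL3333_3_192)) (chk2_b (chk2_b kL3333_3_256 kL3333_3_320) (chk2_b kL3333_3_384 kL3333_3_448))) (chk2_b (chk2_b (chk2_b kL3333_3_512 kL3333_3_576) (chk2_b kL3333_3_640 kL3333_3_704)) kL3333_3_768))
theorem wf7222 : wfT X7222 2 = true := by decide +kernel
theorem kb7222 : chkBase 22 2 N7222 X7222 1 R7222 = true := base_of ka7222 wf7222 kx7222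
theorem co7222 : CoreOk N7222 (rawOf F7222) R7222.t := core_z
theorem el7222 : Elim N7222 X7222 (rawOf F7222) R7222 (nat_lit 0x3fffff) (nat_lit 0) :=
  (elim_trans (elim_B ke7222)
  (elim_R kp7222_0))
theorem u7222 : Nat.beq (Nat.sub (Nat.pow 2 22) 1) (nat_lit 0x3fffff) = true := by decide +kernel
theorem wf6421 : wfT X6421 0 = true := by decide +kernel
theorem kb6421 : chkBase 1 0 N6421 X6421 1 R6421 = true := base_of ka6421 wf6421 kx6421
theorem co6421 : CoreOk N6421 (rawOf F6421) R6421.t := core_z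
theorem el6421 : Elim N6421 X6421 (rawOf F6421) R6421 (nat_lit 1) (nat_lit 0) :=
  (elim_R kp6421_0)
theorem u6421 : Nat.beq (Nat.sub (Nat.pow 2 1) 1) (nat_lit 1) = true := by decide +kernel
theorem wf6322 : wfT X6322 5 = true := by decide +kernel
theorem kb6322 : chkBase 103 5 N6322 X6322 4 R6322 = true := base_of ka6322 wf6322 kx6322
theorem co6322 : CoreOk N6322 (rawOf F6322) R6322.t := core_of kc6322
theorem el6322 : Elim N6322 X6322 (rawOf F6322) R6322 (nat_lit 0x7fffffffffffffffffffffffff) (nat_lit 0) :=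
  (elim_trans (elim_B ke6322)
  (elim_trans (elim_R kp6322_0)
  (elim_trans (elim_R kp6322_1)
  (elim_M km6322_0))))
theorem u6322 : Nat.beq (Nat.sub (Nat.pow 2 103) 1) (nat_lit 0x7fffffffffffffffffffffffff) = true := by decide +kernel
theorem kL6322_0 : chk2 (fun m => appM N6322 (rowL pL6322_0 m)) X5322.t L6322_0.t = true :=
  (chk2_b kL6322_0_0 kL6322_0_64)
theorem wf5521 : wfT X5521 0 = true := by decide +kernel
theorem kb5521 : chkBase 2 0 N5521 X5521 1 R5521 = true := base_of ka5521 wf5521 kx5521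
theorem co5521 : CoreOk N5521 (rawOf F5521) R5521.t := core_z
theorem el5521 : Elim N5521 X5521 (rawOf F5521) R5521 (nat_lit 3) (nat_lit 0) :=
  (elim_R kp5521_0)
theorem u5521 : Nat.beq (Nat.sub (Nat.pow 2 2) 1) (nat_lit 3) = true := by decide +kernel
theorem wf5431 : wfT X5431 0 = true := by decide +kernel
theorem kb5431 : chkBase 5 0 N5431 X5431 1 R5431 = true := base_of ka5431 wf5431 kx5431
theorem co5431 : CoreOk N5431 (rawOf F5431) R5431.t := core_z
theorem el5431 : Elim N5431 X5431 (rawOf F5431) R5431 (nat_lit 31) (nat_lit 0) :=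
  (elim_R kp5431_0)
theorem u5431 : Nat.beq (Nat.sub (Nat.pow 2 5) 1) (nat_lit 31) = true := by decide +kernel
theorem wf5422 : wfT X5422 13 = true := by decide +kernel
theorem kb5422 : chkBase 237 13 N5422 X5422 1 R5422 = true := base_of ka5422 wf5422 kx5422
theorem co5422 : CoreOk N5422 (rawOf F5422) R5422.t := core_z
theorem el5422 : Elim N5422 X5422 (rawOf F5422) R5422 (nat_lit 0x1fffffffffffffffffffffffffffffffffffffffffffffffffffffffffff) (nat_lit 0) :=
  (elim_trans (elim_B ke5422)
  (elim_trans (elim_R kp5422_0)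
  (elim_trans (elim_R kp5422_1)
  (elim_trans (elim_R kp5422_2)
  (elim_R kp5422_3)))))
theorem u5422 : Nat.beq (Nat.sub (Nat.pow 2 237) 1) (nat_lit 0x1fffffffffffffffffffffffffffffffffffffffffffffffffffffffffff) = true := by decide +kernel
theorem kL5422_0 : chk2 (fun m => appM N5422 (rowL pL5422_0 m)) X4422.t L5422_0.t = true :=
  (chk2_b (chk2_b kL5422_0_0 kL5422_0_64) kL5422_0_128)
theorem kL5422_1 : chk2 (fun m => appM N5422 (rowL pL5422_1 m)) X5322.t L5422_1.t = true :=
  (chk2_b kL5422_1_0 kL5422_1_64)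
theorem wf5332 : wfT X5332 31 = true := by decide +kernel
theorem kb5332 : chkBase 465 31 N5332 X5332 1 R5332 = true := base_of ka5332 wf5332 kx5332
theorem co5332 : CoreOk N5332 (rawOf F5332) R5332.t := core_z
theorem el5332 : Elim N5332 X5332 (rawOf F5332) R5332 (nat_lit 0x1ffffffffffffffffffffffffffffffffffffffffffffffffffffffffffffffffffffffffffffffffffffffffffffffffffffffffffffffffffff) (nat_lit 0) :=
  (elim_trans (elim_B ke5332)
  (elim_trans (elim_R kp5332_0)
  (elim_trans (elim_R kp5332_1)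
  (elim_trans (elim_R kp5332_2)
  (elim_trans (elim_R kp5332_3)
  (elim_trans (elim_R kp5332_4)
  (elim_trans (elim_R kp5332_5)
  (elim_R kp5332_6))))))))
theorem u5332 : Nat.beq (Nat.sub (Nat.pow 2 465) 1) (nat_lit 0x1ffffffffffffffffffffffffffffffffffffffffffffffffffffffffffffffffffffffffffffffffffffffffffffffffffffffffffffffffffff) = true := by decide +kernel
theorem kL5332_0 : chk2 (fun m => appM N5332 (rowL pL5332_0 m)) X4332.t L5332_0.t = true :=
  (chk2_b (chk2_b (chk2_b kL5332_0_0 kL5332_0_64) (chk2_b kL5332_0_128 kL5332_0_192)) kL5332_0_256)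
theorem kL5332_2 : chk2 (fun m => appM N5332 (rowL pL5332_2 m)) X5322.t L5332_2.t = true :=
  (chk2_b kL5332_2_0 kL5332_2_64)
theorem wf4441 : wfT X4441 0 = true := by decide +kernel
theorem kb4441 : chkBase 12 0 N4441 X4441 1 R4441 = true := base_of ka4441 wf4441 kx4441
theorem co4441 : CoreOk N4441 (rawOf F4441) R4441.t := core_z
theorem el4441 : Elim N4441 X4441 (rawOf F4441) R4441 (nat_lit 4095) (nat_lit 0) :=
  (elim_R kp4441_0)
theorem u4441 : Nat.beq (Nat.sub (Nat.pow 2 12) 1) (nat_lit 4095) = true := by decide +kernel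
theorem wf4432 : wfT X4432 58 = true := by decide +kernel
theorem kb4432 : chkBase 764 58 N4432 X4432 60 R4432 = true := base_of ka4432 wf4432 kx4432
theorem co4432 : CoreOk N4432 (rawOf F4432) R4432.t :=
  (core_b (core_b (core_of kc4432_0) (core_of kc4432_16)) (core_b (core_of kc4432_32) (core_of kc4432_48)))
theorem el4432 : Elim N4432 X4432 (rawOf F4432) R4432 (nat_lit 0xfffffffffffffffffffffffffffffffffffffffffffffffffffffffffffffffffffffffffffffffffffffffffffffffffffffffffffffffffffffffffffffffffffffffffffffffffffffffffffffffffffffffffffffffffffffffffffffff) (nat_lit 0) :=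
  (elim_trans (elim_B ke4432)
  (elim_trans (elim_R kp4432_0)
  (elim_trans (elim_R kp4432_1)
  (elim_trans (elim_R kp4432_2)
  (elim_trans (elim_R kp4432_3)
  (elim_trans (elim_R kp4432_4)
  (elim_trans (elim_R kp4432_5)
  (elim_trans (elim_R kp4432_6)
  (elim_trans (elim_R kp4432_7)
  (elim_trans (elim_R kp4432_8)
  (elim_trans (elim_R kp4432_9)
  (elim_trans (elim_R kp4432_10)
  (elim_M km4432_0)))))))))))))
theorem u4432 : Nat.beq (Nat.sub (Nat.pow 2 764) 1) (nat_lit 0xfffffffffffffffffffffffffffffffffffffffffffffffffffffffffffffffffffffffffffffffffffffffffffffffffffffffffffffffffffffffffffffffffffffffffffffffffffffffffffffffffffffffffffffffffffffffffffffff) = true := by decide +kernel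
theorem kL4432_1 : chk2 (fun m => appM N4432 (rowL pL4432_1 m)) X4332.t L4432_1.t = true :=
  (chk2_b (chk2_b (chk2_b kL4432_1_0 kL4432_1_64) (chk2_b kL4432_1_128 kL4432_1_192)) kL4432_1_256)
theorem kL4432_2 : chk2 (fun m => appM N4432 (rowL pL4432_2 m)) X4422.t L4432_2.t = true :=
  (chk2_b (chk2_b kL4432_2_0 kL4432_2_64) kL4432_2_128)
theorem wf4333 : wfT X4333 200 = true := by decide +kernel
theorem kx4333 : chkB N4333 X4333.t 0 = true :=
  (chkB_b (chkB_b kx4333_0 kx4333_64) (chkB_b kx4333_128 kx4333_192))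
theorem kb4333 : chkBase 1757 200 N4333 X4333 770 R4333 = true := base_of ka4333 wf4333 kx4333
theorem co4333 : CoreOk N4333 (rawOf F4333) R4333.t :=
  (core_b (core_b (core_b (core_b (core_b (core_b (core_of kc4333_0) (core_of kc4333_16)) (core_b (core_of kc4333_32) (core_of kc4333_48))) (core_b (core_b (core_of kc4333_64) (core_of kc4333_80)) (core_b (core_of kc4333_96) (core_of kc4333_112)))) (core_b (core_b (core_b (core_of kc4333_128) (core_of kc4333_144)) (core_b (core_of kc4333_160) (core_of kc4333_176))) (core_b (core_b (core_of kc4333_192) (core_of kc4333_208)) (core_b (core_of kc4333_224) (core_of kc4333_240))))) (core_b (core_b (core_b (core_b (core_of kc4333_256) (core_of kc4333_272)) (core_b (core_of kc4333_288) (core_of kc4333_304))) (core_b (core_b (core_of kc4333_320) (core_of kc4333_336)) (core_b (core_of kc4333_352) (core_of kc4333_368)))) (core_b (core_b (core_b (core_of kc4333_384) (core_of kc4333_400)) (core_b (core_of kc4333_416) (core_of kc4333_432))) (core_b (core_b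 (core_of kc4333_448) (core_of kc4333_464)) (core_b (core_of kc4333_480) (core_of kc4333_496)))))) (core_b (core_b (core_b (core_b (core_b (core_of kc4333_512) (core_of kc4333_528)) (core_b (core_of kc4333_544) (core_of kc4333_560))) (core_b (core_b (core_of kc4333_576) (core_of kc4333_592)) (core_b (core_of kc4333_608) (core_of kc4333_624)))) (core_b (core_b (core_b (core_of kc4333_640) (core_of kc4333_656)) (core_b (core_of kc4333_672) (core_of kc4333_688))) (core_b (core_b (core_of kc4333_704) (core_of kc4333_720)) (core_b (core_of kc4333_736) (core_of kc4333_752))))) (core_of kc4333_768)))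
theorem el4333 : Elim N4333 X4333 (rawOf F4333) R4333 (nat_lit 0x1fffffffffffffffffffffffffffffffffffffffffffffffffffffffffffffffffffffffffffffffffffffffffffffffffffffffffffffffffffffffffffffffffffffffffffffffffffffffffffffffffffffffffffffffffffffffffffffffffffffffffffffffffffffffffffffffffffffffffffffffffffffffffffffffffffffffffffffffffffffffffffffffffffffffffffffffffffffffffffffffffffffffffffffffffffffffffffffffffffffffffffffffffffffffffffffffffffffffffffffffffffffffffffffffffffffffffffffffffffffff) (nat_lit 0) :=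
  (elim_trans (elim_B ke4333)
  (elim_trans (elim_R kp4333_0)
  (elim_trans (elim_R kp4333_1)
  (elim_trans (elim_R kp4333_2)
  (elim_trans (elim_R kp4333_3)
  (elim_trans (elim_R kp4333_4)
  (elim_trans (elim_R kp4333_5)
  (elim_trans (elim_R kp4333_6)
  (elim_trans (elim_R kp4333_7)
  (elim_trans (elim_R kp4333_8)
  (elim_trans (elim_R kp4333_9)
  (elim_trans (elim_R kp4333_10)
  (elim_trans (elim_R kp4333_11)
  (elim_trans (elim_R kp4333_12)
  (elim_trans (elim_M km4333_0)
  (elim_trans (elim_M km4333_1)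
  (elim_trans (elim_M km4333_2)
  (elim_trans (elim_M km4333_3)
  (elim_trans (elim_M km4333_4)
  (elim_trans (elim_M km4333_5)
  (elim_trans (elim_M km4333_6)
  (elim_trans (elim_M km4333_7)
  (elim_trans (elim_M km4333_8)
  (elim_trans (elim_M km4333_9)
  (elim_trans (elim_M km4333_10)
  (elim_trans (elim_M km4333_11)
  (elim_M km4333_12)))))))))))))))))))))))))))
theorem u4333 : Nat.beq (Nat.sub (Nat.pow 2 1757) 1) (nat_lit 0x1fffffffffffffffffffffffffffffffffffffffffffffffffffffffffffffffffffffffffffffffffffffffffffffffffffffffffffffffffffffffffffffffffffffffffffffffffffffffffffffffffffffffffffffffffffffffffffffffffffffffffffffffffffffffffffffffffffffffffffffffffffffffffffffffffffffffffffffffffffffffffffffffffffffffffffffffffffffffffffffffffffffffffffffffffffffffffffffffffffffffffffffffffffffffffffffffffffffffffffffffffffffffffffffffffffffffffffffffffffffff) = true := by decide +kernel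
theorem kS4333_2 : chk2 (fun m => appM N4333 (rowL pS4333_2 m)) X4333.t S4333_2.t = true :=
  (chk2_b (chk2_b kS4333_2_0 kS4333_2_64) (chk2_b kS4333_2_128 kS4333_2_192))
theorem kS4333_3 : chk2 (fun m => appM N4333 (rowL pS4333_3 m)) X4333.t S4333_3.t = true :=
  (chk2_b (chk2_b kS4333_3_0 kS4333_3_64) (chk2_b kS4333_3_128 kS4333_3_192))
theorem kL4333_0 : chk2 (fun m => appM N4333 (rowL pL4333_0 m)) X3333.t L4333_0.t = true :=
  (chk2_b (chk2_b (chk2_b (chk2_b kL4333_0_0 kL4333_0_64) (chk2_b kL4333_0_128 kL4333_0_192)) (chk2_b (chk2_b kL4333_0_256 kL4333_0_320) (chk2_b kL4333_0_384 kL4333_0_448))) (chk2_b (chk2_b (chk2_b kL4333_0_512 kL4333_0_576) (chk2_b kL4333_0_640 kL4333_0_704)) (chk2_b kL4333_0_768 kL4333_0_832)))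
theorem kL4333_3 : chk2 (fun m => appM N4333 (rowL pL4333_3 m)) X4332.t L4333_3.t = true :=
  (chk2_b (chk2_b (chk2_b kL4333_3_0 kL4333_3_64) (chk2_b kL4333_3_128 kL4333_3_192)) kL4333_3_256)
theorem wf8222 : wfT X8222 0 = true := by decide +kernel
theorem kb8222 : chkBase 2 0 N8222 X8222 1 R8222 = true := base_of ka8222 wf8222 kx8222
theorem co8222 : CoreOk N8222 (rawOf F8222) R8222.t := core_z
theorem el8222 : Elim N8222 X8222 (rawOf F8222) R8222 (nat_lit 3) (nat_lit 0) :=
  (elim_R kp8222_0)
theorem u8222 : Nat.beq (Nat.sub (Nat.pow 2 2) 1) (nat_lit 3) = true := by decide +kernel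
theorem wf7322 : wfT X7322 0 = true := by decide +kernel
theorem kb7322 : chkBase 7 0 N7322 X7322 1 R7322 = true := base_of ka7322 wf7322 kx7322
theorem co7322 : CoreOk N7322 (rawOf F7322) R7322.t := core_z
theorem el7322 : Elim N7322 X7322 (rawOf F7322) R7322 (nat_lit 127) (nat_lit 0) :=
  (elim_R kp7322_0)
theorem u7322 : Nat.beq (Nat.sub (Nat.pow 2 7) 1) (nat_lit 127) = true := by decide +kernel
theorem wf6422 : wfT X6422 1 = true := by decide +kernel
theorem kb6422 : chkBase 18 1 N6422 X6422 1 R6422 = true := base_of ka6422 wf6422 kx6422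
theorem co6422 : CoreOk N6422 (rawOf F6422) R6422.t := core_z
theorem el6422 : Elim N6422 X6422 (rawOf F6422) R6422 (nat_lit 262143) (nat_lit 0) :=
  (elim_trans (elim_B ke6422)
  (elim_R kp6422_0))
theorem u6422 : Nat.beq (Nat.sub (Nat.pow 2 18) 1) (nat_lit 262143) = true := by decide +kernel
theorem wf6332 : wfT X6332 0 = true := by decide +kernel
theorem kb6332 : chkBase 41 0 N6332 X6332 1 R6332 = true := base_of ka6332 wf6332 kx6332
theorem co6332 : CoreOk N6332 (rawOf F6332) R6332.t := core_z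
theorem el6332 : Elim N6332 X6332 (rawOf F6332) R6332 (nat_lit 0x1ffffffffff) (nat_lit 0) :=
  (elim_R kp6332_0)
theorem u6332 : Nat.beq (Nat.sub (Nat.pow 2 41) 1) (nat_lit 0x1ffffffffff) = true := by decide +kernel
theorem wf5522 : wfT X5522 0 = true := by decide +kernel
theorem kb5522 : chkBase 26 0 N5522 X5522 1 R5522 = true := base_of ka5522 wf5522 kx5522
theorem co5522 : CoreOk N5522 (rawOf F5522) R5522.t := core_z
theorem el5522 : Elim N5522 X5522 (rawOf F5522) R5522 (nat_lit 0x3ffffff) (nat_lit 0) :=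
  (elim_R kp5522_0)
theorem u5522 : Nat.beq (Nat.sub (Nat.pow 2 26) 1) (nat_lit 0x3ffffff) = true := by decide +kernel
theorem wf5432 : wfT X5432 3 = true := by decide +kernel
theorem kb5432 : chkBase 102 3 N5432 X5432 1 R5432 = true := base_of ka5432 wf5432 kx5432
theorem co5432 : CoreOk N5432 (rawOf F5432) R5432.t := core_z
theorem el5432 : Elim N5432 X5432 (rawOf F5432) R5432 (nat_lit 0x3fffffffffffffffffffffffff) (nat_lit 0) :=
  (elim_trans (elim_B ke5432)
  (elim_trans (elim_R kp5432_0)
  (elim_R kp5432_1)))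
theorem u5432 : Nat.beq (Nat.sub (Nat.pow 2 102) 1) (nat_lit 0x3fffffffffffffffffffffffff) = true := by decide +kernel
theorem wf5333 : wfT X5333 22 = true := by decide +kernel
theorem kb5333 : chkBase 293 22 N5333 X5333 16 R5333 = true := base_of ka5333 wf5333 kx5333
theorem co5333 : CoreOk N5333 (rawOf F5333) R5333.t := core_of kc5333
theorem el5333 : Elim N5333 X5333 (rawOf F5333) R5333 (nat_lit 0x1fffffffffffffffffffffffffffffffffffffffffffffffffffffffffffffffffffffffff) (nat_lit 0) :=
  (elim_trans (elim_B ke5333)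
  (elim_trans (elim_R kp5333_0)
  (elim_trans (elim_R kp5333_1)
  (elim_trans (elim_R kp5333_2)
  (elim_trans (elim_R kp5333_3)
  (elim_M km5333_0))))))
theorem u5333 : Nat.beq (Nat.sub (Nat.pow 2 293) 1) (nat_lit 0x1fffffffffffffffffffffffffffffffffffffffffffffffffffffffffffffffffffffffff) = true := by decide +kernel
theorem kL5333_0 : chk2 (fun m => appM N5333 (rowL pL5333_0 m)) X4333.t L5333_0.t = true :=
  (chk2_b (chk2_b kL5333_0_0 kL5333_0_64) (chk2_b kL5333_0_128 kL5333_0_192))
theorem wf4442 : wfT X4442 0 = true := by decide +kernel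
theorem kb4442 : chkBase 174 0 N4442 X4442 1 R4442 = true := base_of ka4442 wf4442 kx4442
theorem co4442 : CoreOk N4442 (rawOf F4442) R4442.t := core_z
theorem el4442 : Elim N4442 X4442 (rawOf F4442) R4442 (nat_lit 0x3fffffffffffffffffffffffffffffffffffffffffff) (nat_lit 0) :=
  (elim_trans (elim_R kp4442_0)
  (elim_trans (elim_R kp4442_1)
  (elim_R kp4442_2)))
theorem u4442 : Nat.beq (Nat.sub (Nat.pow 2 174) 1) (nat_lit 0x3fffffffffffffffffffffffffffffffffffffffffff) = true := by decide +kernel
theorem wf4433 : wfT X4433 44 = true := by decide +kernel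
theorem kb4433 : chkBase 516 44 N4433 X4433 32 R4433 = true := base_of ka4433 wf4433 kx4433
theorem co4433 : CoreOk N4433 (rawOf F4433) R4433.t :=
  (core_b (core_of kc4433_0) (core_of kc4433_16))
theorem el4433 : Elim N4433 X4433 (rawOf F4433) R4433 (nat_lit 0xfffffffffffffffffffffffffffffffffffffffffffffffffffffffffffffffffffffffffffffffffffffffffffffffffffffffffffffffffffffffffffffffff) (nat_lit 0) :=
  (elim_trans (elim_B ke4433)
  (elim_trans (elim_R kp4433_0)
  (elim_trans (elim_R kp4433_1)
  (elim_trans (elim_R kp4433_2)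
  (elim_trans (elim_R kp4433_3)
  (elim_trans (elim_R kp4433_4)
  (elim_trans (elim_R kp4433_5)
  (elim_trans (elim_R kp4433_6)
  (elim_M km4433_0)))))))))
theorem u4433 : Nat.beq (Nat.sub (Nat.pow 2 516) 1) (nat_lit 0xfffffffffffffffffffffffffffffffffffffffffffffffffffffffffffffffffffffffffffffffffffffffffffffffffffffffffffffffffffffffffffffffff) = true := by decide +kernel
theorem kL4433_1 : chk2 (fun m => appM N4433 (rowL pL4433_1 m)) X4333.t L4433_1.t = true :=
  (chk2_b (chk2_b kL4433_1_0 kL4433_1_64) (chk2_b kL4433_1_128 kL4433_1_192))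
theorem wf7422 : wfT X7422 0 = true := by decide +kernel
theorem kb7422 : chkBase 1 0 N7422 X7422 1 R7422 = true := base_of ka7422 wf7422 kx7422
theorem co7422 : CoreOk N7422 (rawOf F7422) R7422.t := core_z
theorem el7422 : Elim N7422 X7422 (rawOf F7422) R7422 (nat_lit 1) (nat_lit 0) :=
  (elim_R kp7422_0)
theorem u7422 : Nat.beq (Nat.sub (Nat.pow 2 1) 1) (nat_lit 1) = true := by decide +kernel
theorem wf6522 : wfT X6522 0 = true := by decide +kernel
theorem kb6522 : chkBase 1 0 N6522 X6522 1 R6522 = true := base_of ka6522 wf6522 kx6522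
theorem co6522 : CoreOk N6522 (rawOf F6522) R6522.t := core_z
theorem el6522 : Elim N6522 X6522 (rawOf F6522) R6522 (nat_lit 1) (nat_lit 0) :=
  (elim_R kp6522_0)
theorem u6522 : Nat.beq (Nat.sub (Nat.pow 2 1) 1) (nat_lit 1) = true := by decide +kernel
theorem wf6432 : wfT X6432 0 = true := by decide +kernel
theorem kb6432 : chkBase 4 0 N6432 X6432 1 R6432 = true := base_of ka6432 wf6432 kx6432
theorem co6432 : CoreOk N6432 (rawOf F6432) R6432.t := core_z
theorem el6432 : Elim N6432 X6432 (rawOf F6432) R6432 (nat_lit 15) (nat_lit 0) :=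
  (elim_R kp6432_0)
theorem u6432 : Nat.beq (Nat.sub (Nat.pow 2 4) 1) (nat_lit 15) = true := by decide +kernel
theorem wf6333 : wfT X6333 0 = true := by decide +kernel
theorem kb6333 : chkBase 22 0 N6333 X6333 1 R6333 = true := base_of ka6333 wf6333 kx6333
theorem co6333 : CoreOk N6333 (rawOf F6333) R6333.t := core_z
theorem el6333 : Elim N6333 X6333 (rawOf F6333) R6333 (nat_lit 0x3fffff) (nat_lit 0) :=
  (elim_R kp6333_0)
theorem u6333 : Nat.beq (Nat.sub (Nat.pow 2 22) 1) (nat_lit 0x3fffff) = true := by decide +kernel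
theorem wf5532 : wfT X5532 0 = true := by decide +kernel
theorem kb5532 : chkBase 6 0 N5532 X5532 1 R5532 = true := base_of ka5532 wf5532 kx5532
theorem co5532 : CoreOk N5532 (rawOf F5532) R5532.t := core_z
theorem el5532 : Elim N5532 X5532 (rawOf F5532) R5532 (nat_lit 63) (nat_lit 0) :=
  (elim_R kp5532_0)
theorem u5532 : Nat.beq (Nat.sub (Nat.pow 2 6) 1) (nat_lit 63) = true := by decide +kernel
theorem wf5442 : wfT X5442 0 = true := by decide +kernel
theorem kb5442 : chkBase 6 0 N5442 X5442 1 R5442 = true := base_of ka5442 wf5442 kx5442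
theorem co5442 : CoreOk N5442 (rawOf F5442) R5442.t := core_z
theorem el5442 : Elim N5442 X5442 (rawOf F5442) R5442 (nat_lit 63) (nat_lit 0) :=
  (elim_R kp5442_0)
theorem u5442 : Nat.beq (Nat.sub (Nat.pow 2 6) 1) (nat_lit 63) = true := by decide +kernel
theorem wf5433 : wfT X5433 2 = true := by decide +kernel
theorem kb5433 : chkBase 72 2 N5433 X5433 1 R5433 = true := base_of ka5433 wf5433 kx5433
theorem co5433 : CoreOk N5433 (rawOf F5433) R5433.t := core_z
theorem el5433 : Elim N5433 X5433 (rawOf F5433) R5433 (nat_lit 0xffffffffffffffffff) (nat_lit 0) :=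
  (elim_trans (elim_B ke5433)
  (elim_trans (elim_R kp5433_0)
  (elim_R kp5433_1)))
theorem u5433 : Nat.beq (Nat.sub (Nat.pow 2 72) 1) (nat_lit 0xffffffffffffffffff) = true := by decide +kernel
theorem wf4443 : wfT X4443 6 = true := by decide +kernel
theorem kb4443 : chkBase 132 6 N4443 X4443 1 R4443 = true := base_of ka4443 wf4443 kx4443
theorem co4443 : CoreOk N4443 (rawOf F4443) R4443.t := core_z
theorem el4443 : Elim N4443 X4443 (rawOf F4443) R4443 (nat_lit 0xfffffffffffffffffffffffffffffffff) (nat_lit 0) :=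
  (elim_trans (elim_B ke4443)
  (elim_trans (elim_R kp4443_0)
  (elim_R kp4443_1)))
theorem u4443 : Nat.beq (Nat.sub (Nat.pow 2 132) 1) (nat_lit 0xfffffffffffffffffffffffffffffffff) = true := by decide +kernel
theorem wf6433 : wfT X6433 0 = true := by decide +kernel
theorem kb6433 : chkBase 2 0 N6433 X6433 1 R6433 = true := base_of ka6433 wf6433 kx6433
theorem co6433 : CoreOk N6433 (rawOf F6433) R6433.t := core_z
theorem el6433 : Elim N6433 X6433 (rawOf F6433) R6433 (nat_lit 3) (nat_lit 0) :=
  (elim_R kp6433_0)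
theorem u6433 : Nat.beq (Nat.sub (Nat.pow 2 2) 1) (nat_lit 3) = true := by decide +kernel
theorem wf5533 : wfT X5533 0 = true := by decide +kernel
theorem kb5533 : chkBase 4 0 N5533 X5533 1 R5533 = true := base_of ka5533 wf5533 kx5533
theorem co5533 : CoreOk N5533 (rawOf F5533) R5533.t := core_z
theorem el5533 : Elim N5533 X5533 (rawOf F5533) R5533 (nat_lit 15) (nat_lit 0) :=
  (elim_R kp5533_0)
theorem u5533 : Nat.beq (Nat.sub (Nat.pow 2 4) 1) (nat_lit 15) = true := by decide +kernel
theorem wf5443 : wfT X5443 0 = true := by decide +kernel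
theorem kb5443 : chkBase 10 0 N5443 X5443 1 R5443 = true := base_of ka5443 wf5443 kx5443
theorem co5443 : CoreOk N5443 (rawOf F5443) R5443.t := core_z
theorem el5443 : Elim N5443 X5443 (rawOf F5443) R5443 (nat_lit 1023) (nat_lit 0) :=
  (elim_R kp5443_0)
theorem u5443 : Nat.beq (Nat.sub (Nat.pow 2 10) 1) (nat_lit 1023) = true := by decide +kernel
theorem wf4444 : wfT X4444 0 = true := by decide +kernel
theorem kb4444 : chkBase 24 0 N4444 X4444 1 R4444 = true := base_of ka4444 wf4444 kx4444
theorem co4444 : CoreOk N4444 (rawOf F4444) R4444.t := core_z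
theorem el4444 : Elim N4444 X4444 (rawOf F4444) R4444 (nat_lit 0xffffff) (nat_lit 0) :=
  (elim_R kp4444_0)
theorem u4444 : Nat.beq (Nat.sub (Nat.pow 2 24) 1) (nat_lit 0xffffff) = true := by decide +kernel
theorem kG2200 : gChk AT4 30007 G2200 = true := (gChk_cons kG2200_0 (gChk_cons kG2200_1 rfl))
theorem kH2200 : ltChk G2200 = true := by decide +kernel
theorem kG2210 : gChk AT5 30011 G2210 = true := (gChk_cons kG2210_0 (gChk_cons kG2210_1 rfl))
theorem kH2210 : ltChk G2210 = true := by decide +kernel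
theorem kG2211 : gChk AT6 30017 G2211 = true := (gChk_cons kG2211_0 (gChk_cons kG2211_1 (gChk_cons kG2211_2 (gChk_cons kG2211_3 rfl))))
theorem kH2211 : ltChk G2211 = true := by decide +kernel
theorem kG4111 : gChk AT7 30019 G4111 = true := (gChk_cons kG4111_0 rfl)
theorem kH4111 : ltChk G4111 = true := by decide +kernel
theorem kG3211 : gChk AT7 30022 G3211 = true := (gChk_cons kG3211_0 (gChk_cons kG3211_1 rfl))
theorem kH3211 : ltChk G3211 = true := by decide +kernel
theorem kG2221 : gChk AT7 30023 G2221 = true := (gChk_cons kG2221_0 (gChk_cons kG2221_1 (gChk_cons kG2221_2 (gChk_cons kG2221_3 (gChk_cons kG2221_4 (gChk_cons kG2221_5 rfl))))))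
theorem kH2221 : ltChk G2221 = true := by decide +kernel
theorem kG4220 : gChk AT8 30027 G4220 = true := (gChk_cons kG4220_0 rfl)
theorem kH4220 : ltChk G4220 = true := by decide +kernel
theorem kG4211 : gChk AT8 30028 G4211 = true := (gChk_cons kG4211_0 (gChk_cons kG4211_1 rfl))
theorem kH4211 : ltChk G4211 = true := by decide +kernel
theorem kG3311 : gChk AT8 30030 G3311 = true := (gChk_cons kG3311_0 (gChk_cons kG3311_1 (gChk_cons kG3311_2 (gChk_cons kG3311_3 rfl))))
theorem kH3311 : ltChk G3311 = true := by decide +kernel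
theorem kG3221 : gChk AT8 30031 G3221 = true := (gChk_cons kG3221_0 (gChk_cons kG3221_1 (gChk_cons kG3221_2 (gChk_cons kG3221_3 rfl))))
theorem kH3221 : ltChk G3221 = true := by decide +kernel
theorem kG2222 : gChk AT8 30032 G2222 = true := (gChk_cons kG2222_0 (gChk_cons kG2222_1 (gChk_cons kG2222_2 (gChk_cons kG2222_3 (gChk_cons kG2222_4 (gChk_cons kG2222_5 (gChk_cons kG2222_6 (gChk_cons kG2222_7 (gChk_cons kG2222_8 (gChk_cons kG2222_9 (gChk_cons kG2222_10 (gChk_cons kG2222_11 rfl))))))))))))
theorem kH2222 : ltChk G2222 = true := by decide +kernel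
theorem kG5220 : gChk AT9 30033 G5220 = true := (gChk_cons kG5220_0 rfl)
theorem kH5220 : ltChk G5220 = true := by decide +kernel
theorem kG5211 : gChk AT9 30034 G5211 = true := (gChk_cons kG5211_0 rfl)
theorem kH5211 : ltChk G5211 = true := by decide +kernel
theorem kG4311 : gChk AT9 30036 G4311 = true := (gChk_cons kG4311_0 rfl)
theorem kH4311 : ltChk G4311 = true := by decide +kernel
theorem kG4221 : gChk AT9 30037 G4221 = true := (gChk_cons kG4221_0 (gChk_cons kG4221_1 (gChk_cons kG4221_2 (gChk_cons kG4221_3 (gChk_cons kG4221_4 rfl)))))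
theorem kH4221 : ltChk G4221 = true := by decide +kernel
theorem kG3321 : gChk AT9 30039 G3321 = true := (gChk_cons kG3321_0 (gChk_cons kG3321_1 (gChk_cons kG3321_2 (gChk_cons kG3321_3 (gChk_cons kG3321_4 (gChk_cons kG3321_5 rfl))))))
theorem kH3321 : ltChk G3321 = true := by decide +kernel
theorem kG3222 : gChk AT9 30040 G3222 = true := (gChk_cons kG3222_0 (gChk_cons kG3222_1 (gChk_cons kG3222_2 (gChk_cons kG3222_3 (gChk_cons kG3222_4 (gChk_cons kG3222_5 (gChk_cons kG3222_6 (gChk_cons kG3222_7 (gChk_cons kG3222_8 (gChk_cons kG3222_9 (gChk_cons kG3222_10 (gChk_cons kG3222_11 rfl))))))))))))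
theorem kH3222 : ltChk G3222 = true := by decide +kernel
theorem kG5221 : gChk AT10 30045 G5221 = true := (gChk_cons kG5221_0 (gChk_cons kG5221_1 (gChk_cons kG5221_2 (gChk_cons kG5221_3 rfl))))
theorem kH5221 : ltChk G5221 = true := by decide +kernel
theorem kG4321 : gChk AT10 30049 G4321 = true := (gChk_cons kG4321_0 (gChk_cons kG4321_1 (gChk_cons kG4321_2 (gChk_cons kG4321_3 (gChk_cons kG4321_4 rfl)))))
theorem kH4321 : ltChk G4321 = true := by decide +kernel
theorem kG4222 : gChk AT10 30050 G4222 = true := (gChk_cons kG4222_0 (gChk_cons kG4222_1 (gChk_cons kG4222_2 (gChk_cons kG4222_3 (gChk_cons kG4222_4 (gChk_cons kG4222_5 (gChk_cons kG4222_6 (gChk_cons kG4222_7 (gChk_cons kG4222_8 (gChk_cons kG4222_9 (gChk_cons kG4222_10 (gChk_cons kG4222_11 (gChk_cons kG4222_12 (gChk_cons kG4222_13 (gChk_cons kG4222_14 rfl)))))))))))))))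
theorem kH4222 : ltChk G4222 = true := by decide +kernel
theorem kG3331 : gChk AT10 30051 G3331 = true := (gChk_cons kG3331_0 (gChk_cons kG3331_1 (gChk_cons kG3331_2 (gChk_cons kG3331_3 (gChk_cons kG3331_4 (gChk_cons kG3331_5 rfl))))))
theorem kH3331 : ltChk G3331 = true := by decide +kernel
theorem kG3322 : gChk AT10 30052 G3322 = true := (gChk_cons kG3322_0 (gChk_cons kG3322_1 (gChk_cons kG3322_2 (gChk_cons kG3322_3 (gChk_cons kG3322_4 (gChk_cons kG3322_5 (gChk_cons kG3322_6 (gChk_cons kG3322_7 (gChk_cons kG3322_8 (gChk_cons kG3322_9 (gChk_cons kG3322_10 (gChk_cons kG3322_11 (gChk_cons kG3322_12 (gChk_cons kG3322_13 rfl))))))))))))))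
theorem kH3322 : ltChk G3322 = true := by decide +kernel
theorem kG5321 : gChk AT11 30054 G5321 = true := (gChk_cons kG5321_0 (gChk_cons kG5321_1 rfl))
theorem kH5321 : ltChk G5321 = true := by decide +kernel
theorem kG5222 : gChk AT11 30055 G5222 = true := (gChk_cons kG5222_0 (gChk_cons kG5222_1 (gChk_cons kG5222_2 (gChk_cons kG5222_3 (gChk_cons kG5222_4 (gChk_cons kG5222_5 (gChk_cons kG5222_6 (gChk_cons kG5222_7 (gChk_cons kG5222_8 (gChk_cons kG5222_9 (gChk_cons kG5222_10 (gChk_cons kG5222_11 (gChk_cons kG5222_12 (gChk_cons kG5222_13 (gChk_cons kG5222_14 (gChk_cons kG5222_15 (gChk_cons kG5222_16 rfl)))))))))))))))))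
theorem kH5222 : ltChk G5222 = true := by decide +kernel
theorem kG4322 : gChk AT11 30058 G4322 = true := (gChk_cons kG4322_0 (gChk_cons kG4322_1 (gChk_cons kG4322_2 (gChk_cons kG4322_3 (gChk_cons kG4322_4 (gChk_cons kG4322_5 (gChk_cons kG4322_6 (gChk_cons kG4322_7 (gChk_cons kG4322_8 (gChk_cons kG4322_9 (gChk_cons kG4322_10 (gChk_cons kG4322_11 (gChk_cons kG4322_12 (gChk_cons kG4322_13 (gChk_cons kG4322_14 (gChk_cons kG4322_15 (gChk_cons kG4322_16 rfl)))))))))))))))))
theorem kH4322 : ltChk G4322 = true := by decide +kernel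
theorem kG3332 : gChk AT11 30059 G3332 = true := (gChk_cons kG3332_0 (gChk_cons kG3332_1 (gChk_cons kG3332_2 (gChk_cons kG3332_3 (gChk_cons kG3332_4 (gChk_cons kG3332_5 (gChk_cons kG3332_6 (gChk_cons kG3332_7 (gChk_cons kG3332_8 (gChk_cons kG3332_9 (gChk_cons kG3332_10 (gChk_cons kG3332_11 (gChk_cons kG3332_12 (gChk_cons kG3332_13 (gChk_cons kG3332_14 (gChk_cons kG3332_15 (gChk_cons kG3332_16 (gChk_cons kG3332_17 (gChk_cons kG3332_18 (gChk_cons kG3332_19 (gChk_cons kG3332_20 (gChk_cons kG3332_21 (gChk_cons kG3332_22 (gChk_cons kG3332_23 rfl))))))))))))))))))))))))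
theorem kH3332 : ltChk G3332 = true := by decide +kernel

end Pool.Agent.L3E.GJ
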