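import Pool.Agent.L3E.GJ.Pl

set_option autoImplicit false
set_option maxRecDepth 100000
set_option linter.unusedVariables false
set_option exponentiation.threshold 100000

/-! # L3E, module GJ.Df: definitions of the families -/

namespace Pool.Agent.L3E.GJ

section
variable {K : Type} [Ring K]

noncomputable def ps1000 (a b c d : K) : List (ℕ × (ℕ → K)) :=
  [(1, fun k => e0000 a b c d k * a)]
noncomputable def e1000 (a b c d : K) : ℕ → K := eOf X1000.t (symOf (ps1000 a b c d))
noncomputable def ps2000 (a b c d : K) : List (ℕ × (ℕ → K)) :=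
  [(1, fun k => e1000 a b c d k * a)]
noncomputable def e2000 (a b c d : K) : ℕ → K := eOf X2000.t (symOf (ps2000 a b c d))
noncomputable def ps1100 (a b c d : K) : List (ℕ × (ℕ → K)) :=
  [(1, fun k => e1000 b a c d k * a), (1, fun k => e1000 a b c d k * b)]
noncomputable def e1100 (a b c d : K) : ℕ → K := eOf X1100.t (symOf (ps1100 a b c d))
noncomputable def ps2100 (a b c d : K) : List (ℕ × (ℕ → K)) :=
  [(2, fun k => e1100 a b c d k * a), (0, fun k => e2000 a b c d k * b)]
noncomputable def e2100 (a b c d : K) : ℕ → K := eOf X2100.t (symOf (ps2100 a b c d))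
noncomputable def ps1110 (a b c d : K) : List (ℕ × (ℕ → K)) :=
  [(2, fun k => e1100 b c a d k * a), (2, fun k => e1100 a c b d k * b), (2, fun k => e1100 a b c d k * c)]
noncomputable def e1110 (a b c d : K) : ℕ → K := eOf X1110.t (symOf (ps1110 a b c d))
noncomputable def ps3100 (a b c d : K) : List (ℕ × (ℕ → K)) :=
  [(1, fun k => e2100 a b c d k * a)]
noncomputable def e3100 (a b c d : K) : ℕ → K := eOf X3100.t (symOf (ps3100 a b c d))
noncomputable def ps2200 (a b c d : K) : List (ℕ × (ℕ → K)) :=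
  [(1, fun k => e2100 b a c d k * a), (1, fun k => e2100 a b c d k * b)]
noncomputable def e2200 (a b c d : K) : ℕ → K := eOf X2200.t (symOf (ps2200 a b c d))
noncomputable def ps2110 (a b c d : K) : List (ℕ × (ℕ → K)) :=
  [(6, fun k => e1110 a b c d k * a), (1, fun k => e2100 a c b d k * b), (1, fun k => e2100 a b c d k * c)]
noncomputable def e2110 (a b c d : K) : ℕ → K := eOf X2110.t (symOf (ps2110 a b c d))
noncomputable def ps1111 (a b c d : K) : List (ℕ × (ℕ → K)) :=
  [(6, fun k => e1110 b c d a k * a), (6, fun k => e1110 a c d b k * b), (6, fun k => e1110 a b d c k * c), (6, fun k => e1110 a b c d k * d)]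
noncomputable def e1111 (a b c d : K) : ℕ → K := eOf X1111.t (symOf (ps1111 a b c d))
noncomputable def ps3110 (a b c d : K) : List (ℕ × (ℕ → K)) :=
  [(6, fun k => e2110 a b c d k * a), (0, fun k => e3100 a c b d k * b), (0, fun k => e3100 a b c d k * c)]
noncomputable def e3110 (a b c d : K) : ℕ → K := eOf X3110.t (symOf (ps3110 a b c d))
noncomputable def ps2210 (a b c d : K) : List (ℕ × (ℕ → K)) :=
  [(6, fun k => e2110 b a c d k * a), (6, fun k => e2110 a b c d k * b), (0, fun k => e2200 a b c d k * c)]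
noncomputable def e2210 (a b c d : K) : ℕ → K := eOf X2210.t (symOf (ps2210 a b c d))
noncomputable def ps2111 (a b c d : K) : List (ℕ × (ℕ → K)) :=
  [(24, fun k => e1111 a b c d k * a), (6, fun k => e2110 a c d b k * b), (6, fun k => e2110 a b d c k * c), (6, fun k => e2110 a b c d k * d)]
noncomputable def e2111 (a b c d : K) : ℕ → K := eOf X2111.t (symOf (ps2111 a b c d))
noncomputable def ps4110 (a b c d : K) : List (ℕ × (ℕ → K)) :=
  [(2, fun k => e3110 a b c d k * a)]
noncomputable def e4110 (a b c d : K) : ℕ → K := eOf X4110.t (symOf (ps4110 a b c d))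
noncomputable def ps3210 (a b c d : K) : List (ℕ × (ℕ → K)) :=
  [(6, fun k => e2210 a b c d k * a), (2, fun k => e3110 a b c d k * b)]
noncomputable def e3210 (a b c d : K) : ℕ → K := eOf X3210.t (symOf (ps3210 a b c d))
noncomputable def ps3111 (a b c d : K) : List (ℕ × (ℕ → K)) :=
  [(36, fun k => e2111 a b c d k * a), (2, fun k => e3110 a c d b k * b), (2, fun k => e3110 a b d c k * c), (2, fun k => e3110 a b c d k * d)]
noncomputable def e3111 (a b c d : K) : ℕ → K := eOf X3111.t (symOf (ps3111 a b c d))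
noncomputable def ps2220 (a b c d : K) : List (ℕ × (ℕ → K)) :=
  [(6, fun k => e2210 b c a d k * a), (6, fun k => e2210 a c b d k * b), (6, fun k => e2210 a b c d k * c)]
noncomputable def e2220 (a b c d : K) : ℕ → K := eOf X2220.t (symOf (ps2220 a b c d))
noncomputable def ps2211 (a b c d : K) : List (ℕ × (ℕ → K)) :=
  [(36, fun k => e2111 b a c d k * a), (36, fun k => e2111 a b c d k * b), (6, fun k => e2210 a b d c k * c), (6, fun k => e2210 a b c d k * d)]
noncomputable def e2211 (a b c d : K) : ℕ → K := eOf X2211.t (symOf (ps2211 a b c d))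
noncomputable def ps4210 (a b c d : K) : List (ℕ × (ℕ → K)) :=
  [(3, fun k => e3210 a b c d k * a), (0, fun k => e4110 a b c d k * b)]
noncomputable def e4210 (a b c d : K) : ℕ → K := eOf X4210.t (symOf (ps4210 a b c d))
noncomputable def ps4111 (a b c d : K) : List (ℕ × (ℕ → K)) :=
  [(24, fun k => e3111 a b c d k * a), (0, fun k => e4110 a c d b k * b), (0, fun k => e4110 a b d c k * c), (0, fun k => e4110 a b c d k * d)]
noncomputable def e4111 (a b c d : K) : ℕ → K := eOf X4111.t (symOf (ps4111 a b c d))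
noncomputable def ps3310 (a b c d : K) : List (ℕ × (ℕ → K)) :=
  [(3, fun k => e3210 b a c d k * a), (3, fun k => e3210 a b c d k * b)]
noncomputable def e3310 (a b c d : K) : ℕ → K := eOf X3310.t (symOf (ps3310 a b c d))
noncomputable def ps3220 (a b c d : K) : List (ℕ × (ℕ → K)) :=
  [(12, fun k => e2220 a b c d k * a), (3, fun k => e3210 a c b d k * b), (3, fun k => e3210 a b c d k * c)]
noncomputable def e3220 (a b c d : K) : ℕ → K := eOf X3220.t (symOf (ps3220 a b c d))
noncomputable def ps3211 (a b c d : K) : List (ℕ × (ℕ → K)) :=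
  [(60, fun k => e2211 a b c d k * a), (24, fun k => e3111 a b c d k * b), (3, fun k => e3210 a b d c k * c), (3, fun k => e3210 a b c d k * d)]
noncomputable def e3211 (a b c d : K) : ℕ → K := eOf X3211.t (symOf (ps3211 a b c d))
noncomputable def ps2221 (a b c d : K) : List (ℕ × (ℕ → K)) :=
  [(60, fun k => e2211 b c a d k * a), (60, fun k => e2211 a c b d k * b), (60, fun k => e2211 a b c d k * c), (12, fun k => e2220 a b c d k * d)]
noncomputable def e2221 (a b c d : K) : ℕ → K := eOf X2221.t (symOf (ps2221 a b c d))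
noncomputable def ps5210 (a b c d : K) : List (ℕ × (ℕ → K)) :=
  [(1, fun k => e4210 a b c d k * a)]
noncomputable def e5210 (a b c d : K) : ℕ → K := eOf X5210.t (symOf (ps5210 a b c d))
noncomputable def ps5111 (a b c d : K) : List (ℕ × (ℕ → K)) :=
  [(5, fun k => e4111 a b c d k * a)]
noncomputable def e5111 (a b c d : K) : ℕ → K := eOf X5111.t (symOf (ps5111 a b c d))
noncomputable def ps4310 (a b c d : K) : List (ℕ × (ℕ → K)) :=
  [(0, fun k => e3310 a b c d k * a), (1, fun k => e4210 a b c d k * b)]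
noncomputable def e4310 (a b c d : K) : ℕ → K := eOf X4310.t (symOf (ps4310 a b c d))
noncomputable def ps4220 (a b c d : K) : List (ℕ × (ℕ → K)) :=
  [(8, fun k => e3220 a b c d k * a), (1, fun k => e4210 a c b d k * b), (1, fun k => e4210 a b c d k * c)]
noncomputable def e4220 (a b c d : K) : ℕ → K := eOf X4220.t (symOf (ps4220 a b c d))
noncomputable def ps4211 (a b c d : K) : List (ℕ × (ℕ → K)) :=
  [(50, fun k => e3211 a b c d k * a), (5, fun k => e4111 a b c d k * b), (1, fun k => e4210 a b d c k * c), (1, fun k => e4210 a b c d k * d)]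
noncomputable def e4211 (a b c d : K) : ℕ → K := eOf X4211.t (symOf (ps4211 a b c d))
noncomputable def ps3320 (a b c d : K) : List (ℕ × (ℕ → K)) :=
  [(8, fun k => e3220 b a c d k * a), (8, fun k => e3220 a b c d k * b), (0, fun k => e3310 a b c d k * c)]
noncomputable def e3320 (a b c d : K) : ℕ → K := eOf X3320.t (symOf (ps3320 a b c d))
noncomputable def ps3311 (a b c d : K) : List (ℕ × (ℕ → K)) :=
  [(50, fun k => e3211 b a c d k * a), (50, fun k => e3211 a b c d k * b), (0, fun k => e3310 a b d c k * c), (0, fun k => e3310 a b c d k * d)]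
noncomputable def e3311 (a b c d : K) : ℕ → K := eOf X3311.t (symOf (ps3311 a b c d))
noncomputable def ps3221 (a b c d : K) : List (ℕ × (ℕ → K)) :=
  [(138, fun k => e2221 a b c d k * a), (50, fun k => e3211 a c b d k * b), (50, fun k => e3211 a b c d k * c), (8, fun k => e3220 a b c d k * d)]
noncomputable def e3221 (a b c d : K) : ℕ → K := eOf X3221.t (symOf (ps3221 a b c d))
noncomputable def ps2222 (a b c d : K) : List (ℕ × (ℕ → K)) :=
  [(138, fun k => e2221 b c d a k * a), (138, fun k => e2221 a c d b k * b), (138, fun k => e2221 a b d c k * c), (138, fun k => e2221 a b c d k * d)]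
noncomputable def e2222 (a b c d : K) : ℕ → K := eOf X2222.t (symOf (ps2222 a b c d))
noncomputable def ps5220 (a b c d : K) : List (ℕ × (ℕ → K)) :=
  [(5, fun k => e4220 a b c d k * a), (0, fun k => e5210 a c b d k * b), (0, fun k => e5210 a b c d k * c)]
noncomputable def e5220 (a b c d : K) : ℕ → K := eOf X5220.t (symOf (ps5220 a b c d))
noncomputable def ps5211 (a b c d : K) : List (ℕ × (ℕ → K)) :=
  [(21, fun k => e4211 a b c d k * a), (0, fun k => e5111 a b c d k * b), (0, fun k => e5210 a b d c k * c), (0, fun k => e5210 a b c d k * d)]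
noncomputable def e5211 (a b c d : K) : ℕ → K := eOf X5211.t (symOf (ps5211 a b c d))
noncomputable def ps4320 (a b c d : K) : List (ℕ × (ℕ → K)) :=
  [(4, fun k => e3320 a b c d k * a), (5, fun k => e4220 a b c d k * b), (0, fun k => e4310 a b c d k * c)]
noncomputable def e4320 (a b c d : K) : ℕ → K := eOf X4320.t (symOf (ps4320 a b c d))
noncomputable def ps4311 (a b c d : K) : List (ℕ × (ℕ → K)) :=
  [(34, fun k => e3311 a b c d k * a), (21, fun k => e4211 a b c d k * b), (0, fun k => e4310 a b d c k * c), (0, fun k => e4310 a b c d k * d)]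
noncomputable def e4311 (a b c d : K) : ℕ → K := eOf X4311.t (symOf (ps4311 a b c d))
noncomputable def ps4221 (a b c d : K) : List (ℕ × (ℕ → K)) :=
  [(144, fun k => e3221 a b c d k * a), (21, fun k => e4211 a c b d k * b), (21, fun k => e4211 a b c d k * c), (5, fun k => e4220 a b c d k * d)]
noncomputable def e4221 (a b c d : K) : ℕ → K := eOf X4221.t (symOf (ps4221 a b c d))
noncomputable def ps3330 (a b c d : K) : List (ℕ × (ℕ → K)) :=
  [(4, fun k => e3320 b c a d k * a), (4, fun k => e3320 a c b d k * b), (4, fun k => e3320 a b c d k * c)]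
noncomputable def e3330 (a b c d : K) : ℕ → K := eOf X3330.t (symOf (ps3330 a b c d))
noncomputable def ps3321 (a b c d : K) : List (ℕ × (ℕ → K)) :=
  [(144, fun k => e3221 b a c d k * a), (144, fun k => e3221 a b c d k * b), (34, fun k => e3311 a b c d k * c), (4, fun k => e3320 a b c d k * d)]
noncomputable def e3321 (a b c d : K) : ℕ → K := eOf X3321.t (symOf (ps3321 a b c d))
noncomputable def ps3222 (a b c d : K) : List (ℕ × (ℕ → K)) :=
  [(396, fun k => e2222 a b c d k * a), (144, fun k => e3221 a c d b k * b), (144, fun k => e3221 a b d c k * c), (144, fun k => e3221 a b c d k * d)]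
noncomputable def e3222 (a b c d : K) : ℕ → K := eOf X3222.t (symOf (ps3222 a b c d))
noncomputable def ps6220 (a b c d : K) : List (ℕ × (ℕ → K)) :=
  [(1, fun k => e5220 a b c d k * a)]
noncomputable def e6220 (a b c d : K) : ℕ → K := eOf X6220.t (symOf (ps6220 a b c d))
noncomputable def ps6211 (a b c d : K) : List (ℕ × (ℕ → K)) :=
  [(3, fun k => e5211 a b c d k * a)]
noncomputable def e6211 (a b c d : K) : ℕ → K := eOf X6211.t (symOf (ps6211 a b c d))
noncomputable def ps5320 (a b c d : K) : List (ℕ × (ℕ → K)) :=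
  [(1, fun k => e4320 a b c d k * a), (1, fun k => e5220 a b c d k * b)]
noncomputable def e5320 (a b c d : K) : ℕ → K := eOf X5320.t (symOf (ps5320 a b c d))
noncomputable def ps5311 (a b c d : K) : List (ℕ × (ℕ → K)) :=
  [(10, fun k => e4311 a b c d k * a), (3, fun k => e5211 a b c d k * b)]
noncomputable def e5311 (a b c d : K) : ℕ → K := eOf X5311.t (symOf (ps5311 a b c d))
noncomputable def ps5221 (a b c d : K) : List (ℕ × (ℕ → K)) :=
  [(87, fun k => e4221 a b c d k * a), (3, fun k => e5211 a c b d k * b), (3, fun k => e5211 a b c d k * c), (1, fun k => e5220 a b c d k * d)]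
noncomputable def e5221 (a b c d : K) : ℕ → K := eOf X5221.t (symOf (ps5221 a b c d))
noncomputable def ps4420 (a b c d : K) : List (ℕ × (ℕ → K)) :=
  [(1, fun k => e4320 b a c d k * a), (1, fun k => e4320 a b c d k * b)]
noncomputable def e4420 (a b c d : K) : ℕ → K := eOf X4420.t (symOf (ps4420 a b c d))
noncomputable def ps4411 (a b c d : K) : List (ℕ × (ℕ → K)) :=
  [(10, fun k => e4311 b a c d k * a), (10, fun k => e4311 a b c d k * b)]
noncomputable def e4411 (a b c d : K) : ℕ → K := eOf X4411.t (symOf (ps4411 a b c d))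
noncomputable def ps4330 (a b c d : K) : List (ℕ × (ℕ → K)) :=
  [(0, fun k => e3330 a b c d k * a), (1, fun k => e4320 a c b d k * b), (1, fun k => e4320 a b c d k * c)]
noncomputable def e4330 (a b c d : K) : ℕ → K := eOf X4330.t (symOf (ps4330 a b c d))
noncomputable def ps4321 (a b c d : K) : List (ℕ × (ℕ → K)) :=
  [(144, fun k => e3321 a b c d k * a), (87, fun k => e4221 a b c d k * b), (10, fun k => e4311 a b c d k * c), (1, fun k => e4320 a b c d k * d)]
noncomputable def e4321 (a b c d : K) : ℕ → K := eOf X4321.t (symOf (ps4321 a b c d))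
noncomputable def ps4222 (a b c d : K) : List (ℕ × (ℕ → K)) :=
  [(501, fun k => e3222 a b c d k * a), (87, fun k => e4221 a c d b k * b), (87, fun k => e4221 a b d c k * c), (87, fun k => e4221 a b c d k * d)]
noncomputable def e4222 (a b c d : K) : ℕ → K := eOf X4222.t (symOf (ps4222 a b c d))
noncomputable def ps3331 (a b c d : K) : List (ℕ × (ℕ → K)) :=
  [(144, fun k => e3321 b c a d k * a), (144, fun k => e3321 a c b d k * b), (144, fun k => e3321 a b c d k * c), (0, fun k => e3330 a b c d k * d)]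
noncomputable def e3331 (a b c d : K) : ℕ → K := eOf X3331.t (symOf (ps3331 a b c d))
noncomputable def ps3322 (a b c d : K) : List (ℕ × (ℕ → K)) :=
  [(501, fun k => e3222 b a c d k * a), (501, fun k => e3222 a b c d k * b), (144, fun k => e3321 a b d c k * c), (144, fun k => e3321 a b c d k * d)]
noncomputable def e3322 (a b c d : K) : ℕ → K := eOf X3322.t (symOf (ps3322 a b c d))
noncomputable def ps6221 (a b c d : K) : List (ℕ × (ℕ → K)) :=
  [(23, fun k => e5221 a b c d k * a), (0, fun k => e6211 a c b d k * b), (0, fun k => e6211 a b c d k * c), (0, fun k => e6220 a b c d k * d)]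
noncomputable def e6221 (a b c d : K) : ℕ → K := eOf X6221.t (symOf (ps6221 a b c d))
noncomputable def ps5321 (a b c d : K) : List (ℕ × (ℕ → K)) :=
  [(68, fun k => e4321 a b c d k * a), (23, fun k => e5221 a b c d k * b), (0, fun k => e5311 a b c d k * c), (0, fun k => e5320 a b c d k * d)]
noncomputable def e5321 (a b c d : K) : ℕ → K := eOf X5321.t (symOf (ps5321 a b c d))
noncomputable def ps5222 (a b c d : K) : List (ℕ × (ℕ → K)) :=
  [(366, fun k => e4222 a b c d k * a), (23, fun k => e5221 a c d b k * b), (23, fun k => e5221 a b d c k * c), (23, fun k => e5221 a b c d k * d)]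
noncomputable def e5222 (a b c d : K) : ℕ → K := eOf X5222.t (symOf (ps5222 a b c d))
noncomputable def ps4421 (a b c d : K) : List (ℕ × (ℕ → K)) :=
  [(68, fun k => e4321 b a c d k * a), (68, fun k => e4321 a b c d k * b), (0, fun k => e4411 a b c d k * c), (0, fun k => e4420 a b c d k * d)]
noncomputable def e4421 (a b c d : K) : ℕ → K := eOf X4421.t (symOf (ps4421 a b c d))
noncomputable def ps4331 (a b c d : K) : List (ℕ × (ℕ → K)) :=
  [(126, fun k => e3331 a b c d k * a), (68, fun k => e4321 a c b d k * b), (68, fun k => e4321 a b c d k * c), (0, fun k => e4330 a b c d k * d)]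
noncomputable def e4331 (a b c d : K) : ℕ → K := eOf X4331.t (symOf (ps4331 a b c d))
noncomputable def ps4322 (a b c d : K) : List (ℕ × (ℕ → K)) :=
  [(638, fun k => e3322 a b c d k * a), (366, fun k => e4222 a b c d k * b), (68, fun k => e4321 a b d c k * c), (68, fun k => e4321 a b c d k * d)]
noncomputable def e4322 (a b c d : K) : ℕ → K := eOf X4322.t (symOf (ps4322 a b c d))
noncomputable def ps3332 (a b c d : K) : List (ℕ × (ℕ → K)) :=
  [(638, fun k => e3322 b c a d k * a), (638, fun k => e3322 a c b d k * b), (638, fun k => e3322 a b c d k * c), (126, fun k => e3331 a b c d k * d)]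
noncomputable def e3332 (a b c d : K) : ℕ → K := eOf X3332.t (symOf (ps3332 a b c d))
noncomputable def ps7221 (a b c d : K) : List (ℕ × (ℕ → K)) :=
  [(2, fun k => e6221 a b c d k * a)]
noncomputable def e7221 (a b c d : K) : ℕ → K := eOf X7221.t (symOf (ps7221 a b c d))
noncomputable def ps6321 (a b c d : K) : List (ℕ × (ℕ → K)) :=
  [(10, fun k => e5321 a b c d k * a), (2, fun k => e6221 a b c d k * b)]
noncomputable def e6321 (a b c d : K) : ℕ → K := eOf X6321.t (symOf (ps6321 a b c d))
noncomputable def ps6222 (a b c d : K) : List (ℕ × (ℕ → K)) :=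
  [(132, fun k => e5222 a b c d k * a), (2, fun k => e6221 a c d b k * b), (2, fun k => e6221 a b d c k * c), (2, fun k => e6221 a b c d k * d)]
noncomputable def e6222 (a b c d : K) : ℕ → K := eOf X6222.t (symOf (ps6222 a b c d))
noncomputable def ps5421 (a b c d : K) : List (ℕ × (ℕ → K)) :=
  [(20, fun k => e4421 a b c d k * a), (10, fun k => e5321 a b c d k * b)]
noncomputable def e5421 (a b c d : K) : ℕ → K := eOf X5421.t (symOf (ps5421 a b c d))
noncomputable def ps5331 (a b c d : K) : List (ℕ × (ℕ → K)) :=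
  [(37, fun k => e4331 a b c d k * a), (10, fun k => e5321 a c b d k * b), (10, fun k => e5321 a b c d k * c)]
noncomputable def e5331 (a b c d : K) : ℕ → K := eOf X5331.t (symOf (ps5331 a b c d))
noncomputable def ps5322 (a b c d : K) : List (ℕ × (ℕ → K)) :=
  [(374, fun k => e4322 a b c d k * a), (132, fun k => e5222 a b c d k * b), (10, fun k => e5321 a b d c k * c), (10, fun k => e5321 a b c d k * d)]
noncomputable def e5322 (a b c d : K) : ℕ → K := eOf X5322.t (symOf (ps5322 a b c d))
noncomputable def ps4431 (a b c d : K) : List (ℕ × (ℕ → K)) :=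
  [(37, fun k => e4331 b a c d k * a), (37, fun k => e4331 a b c d k * b), (20, fun k => e4421 a b c d k * c)]
noncomputable def e4431 (a b c d : K) : ℕ → K := eOf X4431.t (symOf (ps4431 a b c d))
noncomputable def ps4422 (a b c d : K) : List (ℕ × (ℕ → K)) :=
  [(374, fun k => e4322 b a c d k * a), (374, fun k => e4322 a b c d k * b), (20, fun k => e4421 a b d c k * c), (20, fun k => e4421 a b c d k * d)]
noncomputable def e4422 (a b c d : K) : ℕ → K := eOf X4422.t (symOf (ps4422 a b c d))
noncomputable def ps4332 (a b c d : K) : List (ℕ × (ℕ → K)) :=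
  [(774, fun k => e3332 a b c d k * a), (374, fun k => e4322 a c b d k * b), (374, fun k => e4322 a b c d k * c), (37, fun k => e4331 a b c d k * d)]
noncomputable def e4332 (a b c d : K) : ℕ → K := eOf X4332.t (symOf (ps4332 a b c d))
noncomputable def ps3333 (a b c d : K) : List (ℕ × (ℕ → K)) :=
  [(774, fun k => e3332 b c d a k * a), (774, fun k => e3332 a c d b k * b), (774, fun k => e3332 a b d c k * c), (774, fun k => e3332 a b c d k * d)]
noncomputable def e3333 (a b c d : K) : ℕ → K := eOf X3333.t (symOf (ps3333 a b c d))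
noncomputable def ps7222 (a b c d : K) : List (ℕ × (ℕ → K)) :=
  [(22, fun k => e6222 a b c d k * a), (0, fun k => e7221 a c d b k * b), (0, fun k => e7221 a b d c k * c), (0, fun k => e7221 a b c d k * d)]
noncomputable def e7222 (a b c d : K) : ℕ → K := eOf X7222.t (symOf (ps7222 a b c d))
noncomputable def ps6421 (a b c d : K) : List (ℕ × (ℕ → K)) :=
  [(1, fun k => e5421 a b c d k * a), (0, fun k => e6321 a b c d k * b)]
noncomputable def e6421 (a b c d : K) : ℕ → K := eOf X6421.t (symOf (ps6421 a b c d))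
noncomputable def ps6322 (a b c d : K) : List (ℕ × (ℕ → K)) :=
  [(81, fun k => e5322 a b c d k * a), (22, fun k => e6222 a b c d k * b), (0, fun k => e6321 a b d c k * c), (0, fun k => e6321 a b c d k * d)]
noncomputable def e6322 (a b c d : K) : ℕ → K := eOf X6322.t (symOf (ps6322 a b c d))
noncomputable def ps5521 (a b c d : K) : List (ℕ × (ℕ → K)) :=
  [(1, fun k => e5421 b a c d k * a), (1, fun k => e5421 a b c d k * b)]
noncomputable def e5521 (a b c d : K) : ℕ → K := eOf X5521.t (symOf (ps5521 a b c d))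
noncomputable def ps5431 (a b c d : K) : List (ℕ × (ℕ → K)) :=
  [(4, fun k => e4431 a b c d k * a), (0, fun k => e5331 a b c d k * b), (1, fun k => e5421 a b c d k * c)]
noncomputable def e5431 (a b c d : K) : ℕ → K := eOf X5431.t (symOf (ps5431 a b c d))
noncomputable def ps5422 (a b c d : K) : List (ℕ × (ℕ → K)) :=
  [(154, fun k => e4422 a b c d k * a), (81, fun k => e5322 a b c d k * b), (1, fun k => e5421 a b d c k * c), (1, fun k => e5421 a b c d k * d)]
noncomputable def e5422 (a b c d : K) : ℕ → K := eOf X5422.t (symOf (ps5422 a b c d))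
noncomputable def ps5332 (a b c d : K) : List (ℕ × (ℕ → K)) :=
  [(303, fun k => e4332 a b c d k * a), (81, fun k => e5322 a c b d k * b), (81, fun k => e5322 a b c d k * c), (0, fun k => e5331 a b c d k * d)]
noncomputable def e5332 (a b c d : K) : ℕ → K := eOf X5332.t (symOf (ps5332 a b c d))
noncomputable def ps4441 (a b c d : K) : List (ℕ × (ℕ → K)) :=
  [(4, fun k => e4431 b c a d k * a), (4, fun k => e4431 a c b d k * b), (4, fun k => e4431 a b c d k * c)]
noncomputable def e4441 (a b c d : K) : ℕ → K := eOf X4441.t (symOf (ps4441 a b c d))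
noncomputable def ps4432 (a b c d : K) : List (ℕ × (ℕ → K)) :=
  [(303, fun k => e4332 b a c d k * a), (303, fun k => e4332 a b c d k * b), (154, fun k => e4422 a b c d k * c), (4, fun k => e4431 a b c d k * d)]
noncomputable def e4432 (a b c d : K) : ℕ → K := eOf X4432.t (symOf (ps4432 a b c d))
noncomputable def ps4333 (a b c d : K) : List (ℕ × (ℕ → K)) :=
  [(848, fun k => e3333 a b c d k * a), (303, fun k => e4332 a c d b k * b), (303, fun k => e4332 a b d c k * c), (303, fun k => e4332 a b c d k * d)]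
noncomputable def e4333 (a b c d : K) : ℕ → K := eOf X4333.t (symOf (ps4333 a b c d))
noncomputable def ps8222 (a b c d : K) : List (ℕ × (ℕ → K)) :=
  [(2, fun k => e7222 a b c d k * a)]
noncomputable def e8222 (a b c d : K) : ℕ → K := eOf X8222.t (symOf (ps8222 a b c d))
noncomputable def ps7322 (a b c d : K) : List (ℕ × (ℕ → K)) :=
  [(5, fun k => e6322 a b c d k * a), (2, fun k => e7222 a b c d k * b)]
noncomputable def e7322 (a b c d : K) : ℕ → K := eOf X7322.t (symOf (ps7322 a b c d))
noncomputable def ps6422 (a b c d : K) : List (ℕ × (ℕ → K)) :=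
  [(13, fun k => e5422 a b c d k * a), (5, fun k => e6322 a b c d k * b), (0, fun k => e6421 a b d c k * c), (0, fun k => e6421 a b c d k * d)]
noncomputable def e6422 (a b c d : K) : ℕ → K := eOf X6422.t (symOf (ps6422 a b c d))
noncomputable def ps6332 (a b c d : K) : List (ℕ × (ℕ → K)) :=
  [(31, fun k => e5332 a b c d k * a), (5, fun k => e6322 a c b d k * b), (5, fun k => e6322 a b c d k * c)]
noncomputable def e6332 (a b c d : K) : ℕ → K := eOf X6332.t (symOf (ps6332 a b c d))
noncomputable def ps5522 (a b c d : K) : List (ℕ × (ℕ → K)) :=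
  [(13, fun k => e5422 b a c d k * a), (13, fun k => e5422 a b c d k * b), (0, fun k => e5521 a b d c k * c), (0, fun k => e5521 a b c d k * d)]
noncomputable def e5522 (a b c d : K) : ℕ → K := eOf X5522.t (symOf (ps5522 a b c d))
noncomputable def ps5432 (a b c d : K) : List (ℕ × (ℕ → K)) :=
  [(58, fun k => e4432 a b c d k * a), (31, fun k => e5332 a b c d k * b), (13, fun k => e5422 a b c d k * c), (0, fun k => e5431 a b c d k * d)]
noncomputable def e5432 (a b c d : K) : ℕ → K := eOf X5432.t (symOf (ps5432 a b c d))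
noncomputable def ps5333 (a b c d : K) : List (ℕ × (ℕ → K)) :=
  [(200, fun k => e4333 a b c d k * a), (31, fun k => e5332 a c d b k * b), (31, fun k => e5332 a b d c k * c), (31, fun k => e5332 a b c d k * d)]
noncomputable def e5333 (a b c d : K) : ℕ → K := eOf X5333.t (symOf (ps5333 a b c d))
noncomputable def ps4442 (a b c d : K) : List (ℕ × (ℕ → K)) :=
  [(58, fun k => e4432 b c a d k * a), (58, fun k => e4432 a c b d k * b), (58, fun k => e4432 a b c d k * c), (0, fun k => e4441 a b c d k * d)]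
noncomputable def e4442 (a b c d : K) : ℕ → K := eOf X4442.t (symOf (ps4442 a b c d))
noncomputable def ps4433 (a b c d : K) : List (ℕ × (ℕ → K)) :=
  [(200, fun k => e4333 b a c d k * a), (200, fun k => e4333 a b c d k * b), (58, fun k => e4432 a b d c k * c), (58, fun k => e4432 a b c d k * d)]
noncomputable def e4433 (a b c d : K) : ℕ → K := eOf X4433.t (symOf (ps4433 a b c d))
noncomputable def ps7422 (a b c d : K) : List (ℕ × (ℕ → K)) :=
  [(1, fun k => e6422 a b c d k * a), (0, fun k => e7322 a b c d k * b)]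
noncomputable def e7422 (a b c d : K) : ℕ → K := eOf X7422.t (symOf (ps7422 a b c d))
noncomputable def ps6522 (a b c d : K) : List (ℕ × (ℕ → K)) :=
  [(0, fun k => e5522 a b c d k * a), (1, fun k => e6422 a b c d k * b)]
noncomputable def e6522 (a b c d : K) : ℕ → K := eOf X6522.t (symOf (ps6522 a b c d))
noncomputable def ps6432 (a b c d : K) : List (ℕ × (ℕ → K)) :=
  [(3, fun k => e5432 a b c d k * a), (0, fun k => e6332 a b c d k * b), (1, fun k => e6422 a b c d k * c)]
noncomputable def e6432 (a b c d : K) : ℕ → K := eOf X6432.t (symOf (ps6432 a b c d))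
noncomputable def ps6333 (a b c d : K) : List (ℕ × (ℕ → K)) :=
  [(22, fun k => e5333 a b c d k * a), (0, fun k => e6332 a c d b k * b), (0, fun k => e6332 a b d c k * c), (0, fun k => e6332 a b c d k * d)]
noncomputable def e6333 (a b c d : K) : ℕ → K := eOf X6333.t (symOf (ps6333 a b c d))
noncomputable def ps5532 (a b c d : K) : List (ℕ × (ℕ → K)) :=
  [(3, fun k => e5432 b a c d k * a), (3, fun k => e5432 a b c d k * b), (0, fun k => e5522 a b c d k * c)]
noncomputable def e5532 (a b c d : K) : ℕ → K := eOf X5532.t (symOf (ps5532 a b c d))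
noncomputable def ps5442 (a b c d : K) : List (ℕ × (ℕ → K)) :=
  [(0, fun k => e4442 a b c d k * a), (3, fun k => e5432 a c b d k * b), (3, fun k => e5432 a b c d k * c)]
noncomputable def e5442 (a b c d : K) : ℕ → K := eOf X5442.t (symOf (ps5442 a b c d))
noncomputable def ps5433 (a b c d : K) : List (ℕ × (ℕ → K)) :=
  [(44, fun k => e4433 a b c d k * a), (22, fun k => e5333 a b c d k * b), (3, fun k => e5432 a b d c k * c), (3, fun k => e5432 a b c d k * d)]
noncomputable def e5433 (a b c d : K) : ℕ → K := eOf X5433.t (symOf (ps5433 a b c d))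
noncomputable def ps4443 (a b c d : K) : List (ℕ × (ℕ → K)) :=
  [(44, fun k => e4433 b c a d k * a), (44, fun k => e4433 a c b d k * b), (44, fun k => e4433 a b c d k * c), (0, fun k => e4442 a b c d k * d)]
noncomputable def e4443 (a b c d : K) : ℕ → K := eOf X4443.t (symOf (ps4443 a b c d))
noncomputable def ps6433 (a b c d : K) : List (ℕ × (ℕ → K)) :=
  [(2, fun k => e5433 a b c d k * a), (0, fun k => e6333 a b c d k * b), (0, fun k => e6432 a b d c k * c), (0, fun k => e6432 a b c d k * d)]
noncomputable def e6433 (a b c d : K) : ℕ → K := eOf X6433.t (symOf (ps6433 a b c d))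
noncomputable def ps5533 (a b c d : K) : List (ℕ × (ℕ → K)) :=
  [(2, fun k => e5433 b a c d k * a), (2, fun k => e5433 a b c d k * b), (0, fun k => e5532 a b d c k * c), (0, fun k => e5532 a b c d k * d)]
noncomputable def e5533 (a b c d : K) : ℕ → K := eOf X5533.t (symOf (ps5533 a b c d))
noncomputable def ps5443 (a b c d : K) : List (ℕ × (ℕ → K)) :=
  [(6, fun k => e4443 a b c d k * a), (2, fun k => e5433 a c b d k * b), (2, fun k => e5433 a b c d k * c), (0, fun k => e5442 a b c d k * d)]
noncomputable def e5443 (a b c d : K) : ℕ → K := eOf X5443.t (symOf (ps5443 a b c d))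
noncomputable def ps4444 (a b c d : K) : List (ℕ × (ℕ → K)) :=
  [(6, fun k => e4443 b c d a k * a), (6, fun k => e4443 a c d b k * b), (6, fun k => e4443 a b d c k * c), (6, fun k => e4443 a b c d k * d)]
noncomputable def e4444 (a b c d : K) : ℕ → K := eOf X4444.t (symOf (ps4444 a b c d))

/-- The meaning of the states. -/
noncomputable def SEM (a b c d : K) : ℕ → ℕ → K := smL (.b (nat_lit 7007) (.b (nat_lit 5011) (.b (nat_lit 3014) (.b (nat_lit 3001) (.b (nat_lit 2001) (.b (nat_lit 1002) (.b (nat_lit 1000) (.l (e0000 a b c d)) (.b (nat_lit 1001) (.l (e1000 d a b c)) (.l (e1000 c a b d)))) (.b (nat_lit 1003) (.l (e1000 b a c d)) (.b (nat_lit 2000) (.l (e1000 a b c d)) (.l (e1100 c d a b))))) (.b (nat_lit 2004) (.b (nat_lit 2002) (.l (e1100 b d a c)) (.b (nat_lit 2003) (.l (e1100 b c a d)) (.l (e1100 a d b c)))) (.b (nat_lit 2005) (.l (e1100 a c b d)) (.b (nat_lit 3000) (.l (e1100 a b c d)) (.l (e2100 d c a b)))))) (.b (nat_lit 3007) (.b (nat_lit 3004) (.b (nat_lit 3002) (.l (e2100 c d a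 b)) (.b (nat_lit 3003) (.l (e2100 d b a c)) (.l (e1110 b c d a)))) (.b (nat_lit 3005) (.l (e2100 c b a d)) (.b (nat_lit 3006) (.l (e2100 b d a c)) (.l (e2100 b c a d))))) (.b (nat_lit 3010) (.b (nat_lit 3008) (.l (e2100 d a b c)) (.b (nat_lit 3009) (.l (e1110 a c d b)) (.l (e2100 c a b d)))) (.b (nat_lit 3012) (.b (nat_lit 3011) (.l (e1110 a b d c)) (.l (e1110 a b c d))) (.b (nat_lit 3013) (.l (e2100 b a c d)) (.l (e2100 a d b c))))))) (.b (nat_lit 4011) (.b (nat_lit 4004) (.b (nat_lit 4001) (.b (nat_lit 3015) (.l (e2100 a c b d)) (.b (nat_lit 4000) (.l (e2100 a b c d)) (.l (e2110 d b c a)))) (.b (nat_lit 4002) (.l (e2110 c b d a)) (.b (nat_lit 4003) (.l (e2110 b c d a)) (.l (e2110 d a c b))))) (.b (nat_lit 4007) (.b (nat_lit 4005) (.l (e2110 c a d b)) (.b (nat_lit 4006) (.l (e2110 d a b c)) (.l (e1111 a b c d)))) (.b (nat_lit 4009) (.b (nat_lit 4008) (.l (e2110 c a b d)) (.l (e2110 b a d c))) (.b (nat_lit 4010) (.l (e2110 b a c d)) (.l (e2110 a c d b)))))) (.b (nat_lit 5004) (.b (nat_lit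 5001) (.b (nat_lit 4012) (.l (e2110 a b d c)) (.b (nat_lit 5000) (.l (e2110 a b c d)) (.l (e2210 c d b a)))) (.b (nat_lit 5002) (.l (e3110 c b d a)) (.b (nat_lit 5003) (.l (e2210 b d c a)) (.l (e2210 b c d a))))) (.b (nat_lit 5007) (.b (nat_lit 5005) (.l (e3110 b c d a)) (.b (nat_lit 5006) (.l (e2210 c d a b)) (.l (e3110 c a d b)))) (.b (nat_lit 5009) (.b (nat_lit 5008) (.l (e2111 d a b c)) (.l (e2111 c a b d))) (.b (nat_lit 5010) (.l (e3110 c a b d)) (.l (e2210 b d a c)))))))) (.b (nat_lit 6012) (.b (nat_lit 5024) (.b (nat_lit 5017) (.b (nat_lit 5014) (.b (nat_lit 5012) (.l (e2111 b a c d)) (.b (nat_lit 5013) (.l (e2210 b c a d)) (.l (e3110 b a d c)))) (.b (nat_lit 5015) (.l (e3110 b a c d)) (.b (nat_lit 5016) (.l (e2210 a d c b)) (.l (e2210 a c d b))))) (.b (nat_lit 5020) (.b (nat_lit 5018) (.l (e2210 a d b c)) (.b (nat_lit 5019) (.l (e2111 a b c d)) (.l (e2210 a c b d)))) (.b (nat_lit 5022) (.b (nat_lit 5021) (.l (e2210 a b d c)) (.l (e2210 a b c d))) (.b (nat_lit 5023) (.l (e3110 a c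 d b)) (.l (e3110 a b d c)))))) (.b (nat_lit 6005) (.b (nat_lit 6002) (.b (nat_lit 6000) (.l (e3110 a b c d)) (.b (nat_lit 6001) (.l (e3210 c d b a)) (.l (e2220 b c d a)))) (.b (nat_lit 6003) (.l (e3210 c b d a)) (.b (nat_lit 6004) (.l (e3210 b d c a)) (.l (e3210 b c d a))))) (.b (nat_lit 6008) (.b (nat_lit 6006) (.l (e3210 c d a b)) (.b (nat_lit 6007) (.l (e2211 c d a b)) (.l (e3111 c a b d)))) (.b (nat_lit 6010) (.b (nat_lit 6009) (.l (e2211 b d a c)) (.l (e2211 b c a d))) (.b (nat_lit 6011) (.l (e3210 c b a d)) (.l (e3210 b d a c))))))) (.b (nat_lit 6025) (.b (nat_lit 6018) (.b (nat_lit 6015) (.b (nat_lit 6013) (.l (e3111 b a c d)) (.b (nat_lit 6014) (.l (e3210 b c a d)) (.l (e2220 a c d b)))) (.b (nat_lit 6016) (.l (e3210 c a d b)) (.b (nat_lit 6017) (.l (e2211 a d b c)) (.l (e2211 a c b d))))) (.b (nat_lit 6021) (.b (nat_lit 6019) (.l (e3210 c a b d)) (.b (nat_lit 6020) (.l (e2220 a b d c)) (.l (e2211 a b c d)))) (.b (nat_lit 6023) (.b (nat_lit 6022) (.l (e2220 a b c d)) (.l (e3210 b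 a d c))) (.b (nat_lit 6024) (.l (e3210 b a c d)) (.l (e3210 a d c b)))))) (.b (nat_lit 7000) (.b (nat_lit 6028) (.b (nat_lit 6026) (.l (e3210 a c d b)) (.b (nat_lit 6027) (.l (e3210 a d b c)) (.l (e3111 a b c d)))) (.b (nat_lit 6029) (.l (e3210 a c b d)) (.b (nat_lit 6030) (.l (e3210 a b d c)) (.l (e3210 a b c d))))) (.b (nat_lit 7003) (.b (nat_lit 7001) (.l (e3220 c b d a)) (.b (nat_lit 7002) (.l (e3220 b c d a)) (.l (e3211 c d a b)))) (.b (nat_lit 7005) (.b (nat_lit 7004) (.l (e2221 b c d a)) (.l (e3211 c b a d))) (.b (nat_lit 7006) (.l (e3211 b d a c)) (.l (e3211 b c a d))))))))) (.b (nat_lit 9005) (.b (nat_lit 8004) (.b (nat_lit 7020) (.b (nat_lit 7013) (.b (nat_lit 7010) (.b (nat_lit 7008) (.l (e3220 c a d b)) (.b (nat_lit 7009) (.l (e2221 a c d b)) (.l (e3211 c a b d)))) (.b (nat_lit 7011) (.l (e2221 a b d c)) (.b (nat_lit 7012) (.l (e2221 a b c d)) (.l (e3220 c a b d))))) (.b (nat_lit 7016) (.b (nat_lit 7014) (.l (e3220 b a d c)) (.b (nat_lit 7015) (.l (e3211 b a c d)) (.l (e3220 b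 a c d)))) (.b (nat_lit 7018) (.b (nat_lit 7017) (.l (e3220 a c d b)) (.l (e3211 a d b c))) (.b (nat_lit 7019) (.l (e3211 a c b d)) (.l (e3220 a b d c)))))) (.b (nat_lit 7026) (.b (nat_lit 7023) (.b (nat_lit 7021) (.l (e3211 a b c d)) (.b (nat_lit 7022) (.l (e3220 a b c d)) (.l (e4210 a d c b)))) (.b (nat_lit 7024) (.l (e4210 a c d b)) (.b (nat_lit 7025) (.l (e4210 a d b c)) (.l (e4111 a b c d))))) (.b (nat_lit 8000) (.b (nat_lit 7027) (.l (e4210 a c b d)) (.b (nat_lit 7028) (.l (e4210 a b d c)) (.l (e4210 a b c d)))) (.b (nat_lit 8002) (.b (nat_lit 8001) (.l (e3320 b c d a)) (.l (e3221 c b d a))) (.b (nat_lit 8003) (.l (e3221 b c d a)) (.l (e3311 b c a d))))))) (.b (nat_lit 8017) (.b (nat_lit 8010) (.b (nat_lit 8007) (.b (nat_lit 8005) (.l (e3221 c a d b)) (.b (nat_lit 8006) (.l (e2222 a b c d)) (.l (e3221 c a b d)))) (.b (nat_lit 8008) (.l (e3221 b a d c)) (.b (nat_lit 8009) (.l (e3221 b a c d)) (.l (e3320 b c a d))))) (.b (nat_lit 8013) (.b (nat_lit 8011) (.l (e3320 a c d b)) (.b (nat_lit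 8012) (.l (e3221 a c d b)) (.l (e3311 a c b d)))) (.b (nat_lit 8015) (.b (nat_lit 8014) (.l (e3221 a b d c)) (.l (e3221 a b c d))) (.b (nat_lit 8016) (.l (e3320 a c b d)) (.l (e3320 a b d c)))))) (.b (nat_lit 8023) (.b (nat_lit 8020) (.b (nat_lit 8018) (.l (e3311 a b c d)) (.b (nat_lit 8019) (.l (e3320 a b c d)) (.l (e4220 a c d b)))) (.b (nat_lit 8021) (.l (e4211 a d b c)) (.b (nat_lit 8022) (.l (e4211 a c b d)) (.l (e4220 a b d c))))) (.b (nat_lit 9001) (.b (nat_lit 8024) (.l (e4211 a b c d)) (.b (nat_lit 9000) (.l (e4220 a b c d)) (.l (e3321 b c d a)))) (.b (nat_lit 9003) (.b (nat_lit 9002) (.l (e3222 c a b d)) (.l (e3222 b a c d))) (.b (nat_lit 9004) (.l (e3321 b c a d)) (.l (e3321 a c d b)))))))) (.b (nat_lit 30007) (.b (nat_lit 9018) (.b (nat_lit 9011) (.b (nat_lit 9008) (.b (nat_lit 9006) (.l (e3222 a b c d)) (.b (nat_lit 9007) (.l (e3321 a c b d)) (.l (e3321 a b d c)))) (.b (nat_lit 9009) (.l (e3321 a b c d)) (.b (nat_lit 9010) (.l (e4221 a c d b)) (.l (e4221 a b d c))))) (.b (nat_lit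 9014) (.b (nat_lit 9012) (.l (e4221 a b c d)) (.b (nat_lit 9013) (.l (e4320 a b d c)) (.l (e4311 a b c d)))) (.b (nat_lit 9016) (.b (nat_lit 9015) (.l (e4320 a b c d)) (.l (e5220 a c d b))) (.b (nat_lit 9017) (.l (e5211 a d b c)) (.l (e5211 a c b d)))))) (.b (nat_lit 10003) (.b (nat_lit 10000) (.b (nat_lit 9019) (.l (e5220 a b d c)) (.b (nat_lit 9020) (.l (e5211 a b c d)) (.l (e5220 a b c d)))) (.b (nat_lit 10001) (.l (e3322 b c a d)) (.b (nat_lit 10002) (.l (e3322 a c b d)) (.l (e3322 a b c d))))) (.b (nat_lit 10006) (.b (nat_lit 10004) (.l (e3331 a b c d)) (.b (nat_lit 10005) (.l (e4222 a b c d)) (.l (e4321 a b d c)))) (.b (nat_lit 10008) (.b (nat_lit 10007) (.l (e4321 a b c d)) (.l (e5221 a c d b))) (.b (nat_lit 10009) (.l (e5221 a b d c)) (.l (e5221 a b c d))))))) (.b (nat_lit 30036) (.b (nat_lit 30027) (.b (nat_lit 30019) (.b (nat_lit 30011) (.l (symOf (ps2200 a b c d))) (.b (nat_lit 30017) (.l (symOf (ps2210 a b c d))) (.l (symOf (ps2211 a b c d))))) (.b (nat_lit 30022) (.l (symOf (ps4111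 a b c d))) (.b (nat_lit 30023) (.l (symOf (ps3211 a b c d))) (.l (symOf (ps2221 a b c d)))))) (.b (nat_lit 30031) (.b (nat_lit 30028) (.l (symOf (ps4220 a b c d))) (.b (nat_lit 30030) (.l (symOf (ps4211 a b c d))) (.l (symOf (ps3311 a b c d))))) (.b (nat_lit 30033) (.b (nat_lit 30032) (.l (symOf (ps3221 a b c d))) (.l (symOf (ps2222 a b c d)))) (.b (nat_lit 30034) (.l (symOf (ps5220 a b c d))) (.l (symOf (ps5211 a b c d))))))) (.b (nat_lit 30050) (.b (nat_lit 30040) (.b (nat_lit 30037) (.l (symOf (ps4311 a b c d))) (.b (nat_lit 30039) (.l (symOf (ps4221 a b c d))) (.l (symOf (ps3321 a b c d))))) (.b (nat_lit 30045) (.l (symOf (ps3222 a b c d))) (.b (nat_lit 30049) (.l (symOf (ps5221 a b c d))) (.l (symOf (ps4321 a b c d)))))) (.b (nat_lit 30054) (.b (nat_lit 30051) (.l (symOf (ps4222 a b c d))) (.b (nat_lit 30052) (.l (symOf (ps3331 a b c d))) (.l (symOf (ps3322 a b c d))))) (.b (nat_lit 30058) (.b (nat_lit 30055) (.l (symOf (ps5321 a b c d))) (.l (symOf (ps5222 a b c d)))) (.b (nat_lit 30059)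 (.l (symOf (ps4322 a b c d))) (.l (symOf (ps3332 a b c d)))))))))))

end

end Pool.Agent.L3E.GJ
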