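import Pool.Agent.L3E.GJ.Df
import Pool.Agent.L3E.GJ.Ca

set_option autoImplicit false
set_option maxRecDepth 100000
set_option linter.unusedVariables false
set_option exponentiation.threshold 100000

/-! # L3E, module GJ.F0: facts -/

namespace Pool.Agent.L3E.GJ

section
variable {K : Type} [Ring K] {A : Set K} {a b c d : K}

/-- The zero family. -/
def zfam : ℕ → K := fun _ => 0

theorem zf_spec (g : ℕ → K) : ∀ s, vec g (zf s) = 0 := fun _ => vec_zero g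

theorem raw5 {g : ℕ → K} {f0 f1 f2 f3 f4 : ℕ → ℕ} (h0 : ∀ s, vec g (f0 s) = 0)
    (h1 : ∀ s, vec g (f1 s) = 0) (h2 : ∀ s, vec g (f2 s) = 0) (h3 : ∀ s, vec g (f3 s) = 0)
    (h4 : ∀ s, vec g (f4 s) = 0) : ∀ n, vec g (rawOf [f0, f1, f2, f3, f4] n) = 0 := by
  apply rawOf_spec
  intro f hf
  simp only [List.mem_cons, List.not_mem_nil, or_false] at hf
  rcases hf with rfl | rfl | rfl | rfl | rfl <;> assumption

theorem init_val (sem : ℕ → ℕ → K) (hs : sem 2 = e0000 a b c d) : Val sem 65538 1 := by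
  right
  change vec (sem 2) 1 = 1
  rw [hs, show (1 : ℕ) = 2 ^ 0 from rfl, vec_two_pow]
  rfl

theorem sS0000_1 (h : Q A a b c d) : ∀ v, vec (e0000 a b c d) v = vec (e0000 b a c d) (appM I0 v) :=
  s0000 h.h.two
theorem sS0000_2 (h : Q A a b c d) : ∀ v, vec (e0000 a b c d) v = vec (e0000 c b a d) (appM I0 v) :=
  s0000 h.h.two
theorem sS0000_3 (h : Q A a b c d) : ∀ v, vec (e0000 a b c d) v = vec (e0000 d b c a) (appM I0 v) :=
  s0000 h.h.two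

theorem e1000_zero : e1000 a b c d 0 = a := by
  change vec (symOf (ps1000 a b c d)) 1 = a
  rw [show (1 : ℕ) = 2 ^ 0 from rfl, vec_two_pow]
  change (1 : K) * a = a
  rw [one_mul]

theorem l1_aux (h : Q A a b c d) :
    ∀ v, a * vec (e0000 a b c d) v = vec (e1000 a b c d) (appM L1000_0 v) := fun v => by
  rw [appM_spec h.h.two _ (show wfT L1000_0 1 = true by decide +kernel), mul_vec]
  congr 1
  funext k
  rcases k with _ | k
  · change a * 1 = vec (e1000 a b c d) 1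
    rw [show (1 : ℕ) = 2 ^ 0 from rfl, vec_two_pow, e1000_zero, mul_one]
  · change a * 0 = vec (e1000 a b c d) 0
    rw [vec_zero, mul_zero]

theorem sq_aux (h : Q A a b c d) : symOf (ps2000 a b c d) 0 = 0 := by
  change e1000 a b c d 0 * a = 0
  rw [e1000_zero]
  exact h.h.sq a h.a

theorem wp_step4 {n0 n1 n2 n3 : ℕ} {g e : ℕ → K} {F : ℕ → ℕ}
    (hg : ∀ r, vec g r = vec e (F r)) (hn : ¬ (n0 = 0 ∧ n1 = 0 ∧ n2 = 0 ∧ n3 = 0))
    (H0 : n0 = 0 ∨ ∃ f : ℕ → K, WP ![n0 - 1, n1, n2, n3] ![a, b, c, d] f ∧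
      ∀ v, ∃ r, vec f v * a = vec g r)
    (H1 : n1 = 0 ∨ ∃ f : ℕ → K, WP ![n0, n1 - 1, n2, n3] ![a, b, c, d] f ∧
      ∀ v, ∃ r, vec f v * b = vec g r)
    (H2 : n2 = 0 ∨ ∃ f : ℕ → K, WP ![n0, n1, n2 - 1, n3] ![a, b, c, d] f ∧
      ∀ v, ∃ r, vec f v * c = vec g r)
    (H3 : n3 = 0 ∨ ∃ f : ℕ → K, WP ![n0, n1, n2, n3 - 1] ![a, b, c, d] f ∧
      ∀ v, ∃ r, vec f v * d = vec g r) : WP ![n0, n1, n2, n3] ![a, b, c, d] e := by
  have hcase : ∀ i : Fin 4, i = 0 ∨ i = 1 ∨ i = 2 ∨ i = 3 := by decide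
  refine wp_step hg ?_ ?_
  · by_contra hcon
    push Not at hcon
    exact hn ⟨hcon 0, hcon 1, hcon 2, hcon 3⟩
  · intro i hi
    rcases hcase i with rfl | rfl | rfl | rfl
    · rcases H0 with h0 | ⟨f, hf, hr⟩
      · exact absurd h0 hi
      · have hi' : n0 ≠ 0 := hi
        refine ⟨_, f, ?_, hf, hr⟩
        intro j
        rcases hcase j with rfl | rfl | rfl | rfl
        · change n0 = n0 - 1 + 1
          omega
        · rfl
        · rfl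
        · rfl
    · rcases H1 with h0 | ⟨f, hf, hr⟩
      · exact absurd h0 hi
      · have hi' : n1 ≠ 0 := hi
        refine ⟨_, f, ?_, hf, hr⟩
        intro j
        rcases hcase j with rfl | rfl | rfl | rfl
        · rfl
        · change n1 = n1 - 1 + 1
          omega
        · rfl
        · rfl
    · rcases H2 with h0 | ⟨f, hf, hr⟩
      · exact absurd h0 hi
      · have hi' : n2 ≠ 0 := hi
        refine ⟨_, f, ?_, hf, hr⟩
        intro j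
        rcases hcase j with rfl | rfl | rfl | rfl
        · rfl
        · rfl
        · change n2 = n2 - 1 + 1
          omega
        · rfl
    · rcases H3 with h0 | ⟨f, hf, hr⟩
      · exact absurd h0 hi
      · have hi' : n3 ≠ 0 := hi
        refine ⟨_, f, ?_, hf, hr⟩
        intro j
        rcases hcase j with rfl | rfl | rfl | rfl
        · rfl
        · rfl
        · rfl
        · change n3 = n3 - 1 + 1
          omega

theorem y1000_0 : ∀ k, k < 1 → symOf (ps1000 a b c d) (k + 0) = e0000 a b c d k * a :=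
  sy_hd
theorem nf1000 (h : Q A a b c d) : ∀ r, vec (symOf (ps1000 a b c d)) r = vec (e1000 a b c d) (appM N1000 r) :=
  block_sound2 h.h.two (ps := ps1000 a b c d) (ns := 1) rfl (raw5 (zf_spec _) (zf_spec _) (zf_spec _) (zf_spec _) (zf_spec _)) kb1000 co1000 u1000 el1000
theorem ez1000 : ∀ k, 1 ≤ k → e1000 a b c d k = 0 := eOf_ge _ (wfT_D wf1000).2
theorem qS1000_2 (h : Q A a b c d) : List.Forall₂ (EntOk 1 (symOf (ps1000 a b c d)))
    (ps1000 a c b d) pS1000_2 :=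
  (.cons (ent_i rfl rfl (ops_S (sS0000_1 h.p0213) (ops_S (sS0000_2 h.p2013) (ops_S (sS0000_1 h.p1023) (ops_nil _)))) ez0000 y1000_0) .nil)
theorem sS1000_2 (h : Q A a b c d) : ∀ v, vec (e1000 a b c d) v = vec (e1000 a c b d) (appM S1000_2 v) :=
  fun v => (one_mul _).symm.trans (table_sound2 h.h.two (qS1000_2 h.p0213) (nf1000 h.p0213) kw1000_2 kS1000_2 v)
theorem qS1000_3 (h : Q A a b c d) : List.Forall₂ (EntOk 1 (symOf (ps1000 a b c d)))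
    (ps1000 a d c b) pS1000_3 :=
  (.cons (ent_i rfl rfl (ops_S (sS0000_1 h.p0321) (ops_S (sS0000_3 h.p3021) (ops_S (sS0000_1 h.p1023) (ops_nil _)))) ez0000 y1000_0) .nil)
theorem sS1000_3 (h : Q A a b c d) : ∀ v, vec (e1000 a b c d) v = vec (e1000 a d c b) (appM S1000_3 v) :=
  fun v => (one_mul _).symm.trans (table_sound2 h.h.two (qS1000_3 h.p0321) (nf1000 h.p0321) kw1000_3 kS1000_3 v)
theorem lL1000_0 (h : Q A a b c d) : ∀ v, a * vec (e0000 a b c d) v = vec (e1000 a b c d) (appM L1000_0 v) := l1_aux h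
theorem rR1000_0 (h : Q A a b c d) : ∀ v, vec (e0000 a b c d) v * a = vec (e1000 a b c d) (appM N1000 (Nat.shiftLeft (Nat.mod v 2) 0)) :=
  r_fact (n := 1) rfl ez0000 y1000_0 (nf1000 h)
theorem w1000 (h : Q A a b c d) : WP ![1, 0, 0, 0] ![a, b, c, d] (e1000 a b c d) :=
  wp_step4 (nf1000 h) (by decide) (Or.inr ⟨_, wp0123 (w0000), wp_r ez0000 y1000_0⟩) (Or.inl rfl) (Or.inl rfl) (Or.inl rfl)

theorem tl0000 (h : Q A a b c d) : ATok (SEM a b c d) (ltr a b c d) al0000 :=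
  at_l rfl (ae_ok (run_R (rR1000_0 h) (run_nil _)) rfl rfl rfl) (ae_ok (run_S (sS0000_1 h) (run_R (rR1000_0 h.p1023) (run_nil _))) rfl rfl rfl) (ae_ok (run_S (sS0000_2 h) (run_R (rR1000_0 h.p2103) (run_S (sS1000_2 h.p2103) (run_nil _)))) rfl rfl rfl) (ae_ok (run_S (sS0000_3 h) (run_R (rR1000_0 h.p3120) (run_S (sS1000_2 h.p3120) (run_S (sS1000_3 h.p3210) (run_S (sS1000_2 h.p3012) (run_S (sS1000_2 h.p3102) (run_nil _))))))) rfl rfl rfl)
theorem TV0 (h : Q A a b c d) : ATok (SEM a b c d) (ltr a b c d) AV0 :=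
  tl0000 h
theorem TW1 (h : Q A a b c d) : ATok (SEM a b c d) (ltr a b c d) AW1 := TV0 h
theorem y2000_0 : ∀ k, k < 1 → symOf (ps2000 a b c d) (k + 0) = e1000 a b c d k * a :=
  sy_hd
theorem y1100_0 : ∀ k, k < 1 → symOf (ps1100 a b c d) (k + 0) = e1000 b a c d k * a :=
  sy_hd
theorem y1100_1 : ∀ k, k < 1 → symOf (ps1100 a b c d) (k + 1) = e1000 a b c d k * b :=
  sy_tl (o := 0) (o' := 1) (sy_hd) rfl
theorem qL2000_0 (h : Q A a b c d) : List.Forall₂ (EntOk a (symOf (ps2000 a b c d)))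
    (ps1000 a b c d) pL2000_0 :=
  (.cons (ent_i rfl rfl (ops_L (lL1000_0 h) (ops_nil _)) ez1000 y2000_0) .nil)
theorem sq2000 (h : Q A a b c d) : ∀ m ∈ [1], vec (symOf (ps2000 a b c d)) m = 0 := by
  intro m hm
  obtain rfl : m = 2 ^ 0 := by simpa using hm
  rw [vec_two_pow]
  exact sq_aux h
theorem nf2000 (h : Q A a b c d) : ∀ r, vec (symOf (ps2000 a b c d)) r = vec (e2000 a b c d) (appM N2000 r) :=
  block_sound2 h.h.two (ps := ps2000 a b c d) (ns := 1) rfl (raw5 (srcRow_spec h.h.two (qL2000_0 h) (nf1000 h) wf1000) (zf_spec _) (zf_spec _) (zf_spec _) (nthL_spec (sq2000 h))) kb2000 co2000 u2000 el2000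
theorem ez2000 : ∀ k, 0 ≤ k → e2000 a b c d k = 0 := eOf_ge _ (wfT_D wf2000).2
theorem lL2000_0 (h : Q A a b c d) : ∀ v, a * vec (e1000 a b c d) v = vec (e2000 a b c d) (appM L2000_0 v) :=
  table_sound2 h.h.two (qL2000_0 h) (nf2000 h) kv2000_0 kL2000_0
theorem rR2000_0 (h : Q A a b c d) : ∀ v, vec (e1000 a b c d) v * a = vec (e2000 a b c d) (appM N2000 (Nat.shiftLeft (Nat.mod v 2) 0)) :=
  r_fact (n := 1) rfl ez1000 y2000_0 (nf2000 h)
theorem w2000 (h : Q A a b c d) : WP ![2, 0, 0, 0] ![a, b, c, d] (e2000 a b c d) :=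
  wp_step4 (nf2000 h) (by decide) (Or.inr ⟨_, wp0123 (w1000 h), wp_r ez1000 y2000_0⟩) (Or.inl rfl) (Or.inl rfl) (Or.inl rfl)

theorem qL1100_0 (h : Q A a b c d) : List.Forall₂ (EntOk a (symOf (ps1100 a b c d)))
    (ps1000 b a c d) pL1100_0 :=
  (.cons (ent_i rfl rfl (ops_S (sS0000_1 h.p1023) (ops_L (lL1000_0 h) (ops_nil _))) ez1000 y1100_1) .nil)
theorem qL1100_1 (h : Q A a b c d) : List.Forall₂ (EntOk b (symOf (ps1100 a b c d)))
    (ps1000 a b c d) pL1100_1 :=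
  (.cons (ent_i rfl rfl (ops_S (sS0000_1 h) (ops_L (lL1000_0 h.p1023) (ops_nil _))) ez1000 y1100_0) .nil)
theorem nf1100 (h : Q A a b c d) : ∀ r, vec (symOf (ps1100 a b c d)) r = vec (e1100 a b c d) (appM N1100 r) :=
  block_sound2 h.h.two (ps := ps1100 a b c d) (ns := 2) rfl (raw5 (srcRow_spec h.h.two (qL1100_0 h) (nf1000 h.p1023) wf1000) (srcRow_spec h.h.two (qL1100_1 h) (nf1000 h) wf1000) (zf_spec _) (zf_spec _) (zf_spec _)) kb1100 co1100 u1100 el1100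
theorem ez1100 : ∀ k, 2 ≤ k → e1100 a b c d k = 0 := eOf_ge _ (wfT_D wf1100).2
theorem qS1100_1 (h : Q A a b c d) : List.Forall₂ (EntOk 1 (symOf (ps1100 a b c d)))
    (ps1100 b a c d) pS1100_1 :=
  (.cons (ent_i rfl rfl (ops_nil _) ez1000 y1100_1) (.cons (ent_i rfl rfl (ops_nil _) ez1000 y1100_0) .nil))
theorem sS1100_1 (h : Q A a b c d) : ∀ v, vec (e1100 a b c d) v = vec (e1100 b a c d) (appM S1100_1 v) :=
  fun v => (one_mul _).symm.trans (table_sound2 h.h.two (qS1100_1 h.p1023) (nf1100 h.p1023) kw1100_1 kS1100_1 v)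
theorem qS1100_3 (h : Q A a b c d) : List.Forall₂ (EntOk 1 (symOf (ps1100 a b c d)))
    (ps1100 a b d c) pS1100_3 :=
  (.cons (ent_i rfl rfl (ops_S (sS1000_2 h.p1032) (ops_S (sS1000_3 h.p1302) (ops_S (sS1000_2 h.p1203) (ops_nil _)))) ez1000 y1100_0) (.cons (ent_i rfl rfl (ops_S (sS1000_2 h.p0132) (ops_S (sS1000_3 h.p0312) (ops_S (sS1000_2 h.p0213) (ops_nil _)))) ez1000 y1100_1) .nil))
theorem sS1100_3 (h : Q A a b c d) : ∀ v, vec (e1100 a b c d) v = vec (e1100 a b d c) (appM S1100_3 v) :=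
  fun v => (one_mul _).symm.trans (table_sound2 h.h.two (qS1100_3 h.p0132) (nf1100 h.p0132) kw1100_3 kS1100_3 v)
theorem lL1100_1 (h : Q A a b c d) : ∀ v, b * vec (e1000 a b c d) v = vec (e1100 a b c d) (appM L1100_1 v) :=
  table_sound2 h.h.two (qL1100_1 h) (nf1100 h) kv1100_1 kL1100_1
theorem rR1100_1 (h : Q A a b c d) : ∀ v, vec (e1000 a b c d) v * b = vec (e1100 a b c d) (appM N1100 (Nat.shiftLeft (Nat.mod v 2) 1)) :=
  r_fact (n := 1) rfl ez1000 y1100_1 (nf1100 h)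
theorem w1100 (h : Q A a b c d) : WP ![1, 1, 0, 0] ![a, b, c, d] (e1100 a b c d) :=
  wp_step4 (nf1100 h) (by decide) (Or.inr ⟨_, wp1023 (w1000 h.p1023), wp_r ez1000 y1100_0⟩) (Or.inr ⟨_, wp0123 (w1000 h), wp_r ez1000 y1100_1⟩) (Or.inl rfl) (Or.inl rfl)

theorem tl0001 (h : Q A a b c d) : ATok (SEM a b c d) (ltr a b c d) al0001 :=
  at_l rfl (ae_ok (run_R (rR1100_1 h.p3012) (run_S (sS1100_1 h.p3012) (run_nil _))) rfl rfl rfl) (ae_ok (run_S (sS1000_2 h.p3012) (run_R (rR1100_1 h.p3102) (run_S (sS1100_1 h.p3102) (run_nil _)))) rfl rfl rfl) (ae_ok (run_S (sS1000_3 h.p3012) (run_R (rR1100_1 h.p3210) (run_S (sS1100_3 h.p3210) (run_S (sS1100_1 h.p3201) (run_nil _))))) rfl rfl rfl) (ae_ok (run_Z (run_R (rR2000_0 h.p3012) (run_nil _)) (fun k => ez2000 k (Nat.zero_le k))) rfl rfl rfl)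
theorem tl0010 (h : Q A a b c d) : ATok (SEM a b c d) (ltr a b c d) al0010 :=
  at_l rfl (ae_ok (run_R (rR1100_1 h.p2013) (run_S (sS1100_1 h.p2013) (run_nil _))) rfl rfl rfl) (ae_ok (run_S (sS1000_2 h.p2013) (run_R (rR1100_1 h.p2103) (run_S (sS1100_1 h.p2103) (run_nil _)))) rfl rfl rfl) (ae_ok (run_Z (run_R (rR2000_0 h.p2013) (run_nil _)) (fun k => ez2000 k (Nat.zero_le k))) rfl rfl rfl) (ae_ok (run_S (sS1000_3 h.p2013) (run_R (rR1100_1 h.p2310) (run_S (sS1100_3 h.p2310) (run_nil _)))) rfl rfl rfl)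
theorem tl0100 (h : Q A a b c d) : ATok (SEM a b c d) (ltr a b c d) al0100 :=
  at_l rfl (ae_ok (run_R (rR1100_1 h.p1023) (run_S (sS1100_1 h.p1023) (run_nil _))) rfl rfl rfl) (ae_ok (run_Z (run_R (rR2000_0 h.p1023) (run_nil _)) (fun k => ez2000 k (Nat.zero_le k))) rfl rfl rfl) (ae_ok (run_S (sS1000_2 h.p1023) (run_R (rR1100_1 h.p1203) (run_nil _))) rfl rfl rfl) (ae_ok (run_S (sS1000_3 h.p1023) (run_R (rR1100_1 h.p1320) (run_S (sS1100_3 h.p1320) (run_nil _)))) rfl rfl rfl)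
theorem tl1000 (h : Q A a b c d) : ATok (SEM a b c d) (ltr a b c d) al1000 :=
  at_l rfl (ae_ok (run_Z (run_R (rR2000_0 h) (run_nil _)) (fun k => ez2000 k (Nat.zero_le k))) rfl rfl rfl) (ae_ok (run_R (rR1100_1 h) (run_nil _)) rfl rfl rfl) (ae_ok (run_S (sS1000_2 h) (run_R (rR1100_1 h.p0213) (run_nil _))) rfl rfl rfl) (ae_ok (run_S (sS1000_3 h) (run_R (rR1100_1 h.p0321) (run_S (sS1100_3 h.p0321) (run_nil _)))) rfl rfl rfl)
theorem TV1 (h : Q A a b c d) : ATok (SEM a b c d) (ltr a b c d) AV1 :=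
  ⟨⟨tl0001 h, tl0010 h⟩, ⟨tl0100 h, tl1000 h⟩⟩
theorem TW2 (h : Q A a b c d) : ATok (SEM a b c d) (ltr a b c d) AW2 := ⟨TW1 h, TV1 h⟩
theorem z3000 (h : Q A a b c d) : WP ![3, 0, 0, 0] ![a, b, c, d] (zfam : ℕ → K) :=
  wp_step4 (F := fun r => r) (fun _ => rfl) (by decide) (Or.inr ⟨_, wp0123 (w2000 h), wp_z ez2000⟩) (Or.inl rfl) (Or.inl rfl) (Or.inl rfl)
theorem y2100_0 : ∀ k, k < 2 → symOf (ps2100 a b c d) (k + 0) = e1100 a b c d k * a :=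
  sy_hd
theorem y1110_0 : ∀ k, k < 2 → symOf (ps1110 a b c d) (k + 0) = e1100 b c a d k * a :=
  sy_hd
theorem y1110_1 : ∀ k, k < 2 → symOf (ps1110 a b c d) (k + 2) = e1100 a c b d k * b :=
  sy_tl (o := 0) (o' := 2) (sy_hd) rfl
theorem y1110_2 : ∀ k, k < 2 → symOf (ps1110 a b c d) (k + 4) = e1100 a b c d k * c :=
  sy_tl (o := 2) (o' := 4) (sy_tl (o := 0) (o' := 2) (sy_hd) rfl) rfl
theorem qL2100_0 (h : Q A a b c d) : List.Forall₂ (EntOk a (symOf (ps2100 a b c d)))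
    (ps1100 a b c d) pL2100_0 :=
  (.cons (ent_i rfl rfl (ops_L (lL1100_1 h.p1023) (ops_S (sS1100_1 h.p1023) (ops_nil _))) ez1100 y2100_0) (.cons (ent_z rfl (ops_L (lL2000_0 h) (ops_nil _)) ez2000) .nil))
theorem qL2100_1 (h : Q A a b c d) : List.Forall₂ (EntOk b (symOf (ps2100 a b c d)))
    (ps2000 a b c d) pL2100_1 :=
  (.cons (ent_i rfl rfl (ops_L (lL1100_1 h) (ops_nil _)) ez1100 y2100_0) .nil)
theorem nf2100 (h : Q A a b c d) : ∀ r, vec (symOf (ps2100 a b c d)) r = vec (e2100 a b c d) (appM N2100 r) :=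
  block_sound2 h.h.two (ps := ps2100 a b c d) (ns := 2) rfl (raw5 (srcRow_spec h.h.two (qL2100_0 h) (nf1100 h) wf1100) (srcRow_spec h.h.two (qL2100_1 h) (nf2000 h) wf2000) (zf_spec _) (zf_spec _) (zf_spec _)) kb2100 co2100 u2100 el2100
theorem ez2100 : ∀ k, 1 ≤ k → e2100 a b c d k = 0 := eOf_ge _ (wfT_D wf2100).2
theorem qS2100_3 (h : Q A a b c d) : List.Forall₂ (EntOk 1 (symOf (ps2100 a b c d)))
    (ps2100 a b d c) pS2100_3 :=
  (.cons (ent_i rfl rfl (ops_S (sS1100_3 h.p0132) (ops_nil _)) ez1100 y2100_0) (.cons (ent_n ez2000) .nil))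
theorem sS2100_3 (h : Q A a b c d) : ∀ v, vec (e2100 a b c d) v = vec (e2100 a b d c) (appM S2100_3 v) :=
  fun v => (one_mul _).symm.trans (table_sound2 h.h.two (qS2100_3 h.p0132) (nf2100 h.p0132) kw2100_3 kS2100_3 v)
theorem lL2100_0 (h : Q A a b c d) : ∀ v, a * vec (e1100 a b c d) v = vec (e2100 a b c d) (appM L2100_0 v) :=
  table_sound2 h.h.two (qL2100_0 h) (nf2100 h) kv2100_0 kL2100_0
theorem rR2100_0 (h : Q A a b c d) : ∀ v, vec (e1100 a b c d) v * a = vec (e2100 a b c d) (appM N2100 (Nat.shiftLeft (Nat.mod v 4) 0)) :=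
  r_fact (n := 2) rfl ez1100 y2100_0 (nf2100 h)
theorem w2100 (h : Q A a b c d) : WP ![2, 1, 0, 0] ![a, b, c, d] (e2100 a b c d) :=
  wp_step4 (nf2100 h) (by decide) (Or.inr ⟨_, wp0123 (w1100 h), wp_r ez1100 y2100_0⟩) (Or.inr ⟨_, wp0123 (w2000 h), wp_z ez2000⟩) (Or.inl rfl) (Or.inl rfl)

theorem qL1110_0 (h : Q A a b c d) : List.Forall₂ (EntOk a (symOf (ps1110 a b c d)))
    (ps1100 b c a d) pL1110_0 :=
  (.cons (ent_i rfl rfl (ops_S (sS1000_2 h.p2103) (ops_L (lL1100_1 h.p2013) (ops_S (sS1100_1 h.p2013) (ops_nil _)))) ez1100 y1110_1) (.cons (ent_i rfl rfl (ops_S (sS1000_2 h.p1203) (ops_L (lL1100_1 h.p1023) (ops_S (sS1100_1 h.p1023) (ops_nil _)))) ez1100 y1110_2) .nil))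
theorem qL1110_1 (h : Q A a b c d) : List.Forall₂ (EntOk b (symOf (ps1110 a b c d)))
    (ps1100 a c b d) pL1110_1 :=
  (.cons (ent_i rfl rfl (ops_S (sS1000_2 h.p2013) (ops_L (lL1100_1 h.p2103) (ops_S (sS1100_1 h.p2103) (ops_nil _)))) ez1100 y1110_0) (.cons (ent_i rfl rfl (ops_S (sS1000_2 h.p0213) (ops_L (lL1100_1 h) (ops_nil _))) ez1100 y1110_2) .nil))
theorem qL1110_2 (h : Q A a b c d) : List.Forall₂ (EntOk c (symOf (ps1110 a b c d)))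
    (ps1100 a b c d) pL1110_2 :=
  (.cons (ent_i rfl rfl (ops_S (sS1000_2 h.p1023) (ops_L (lL1100_1 h.p1203) (ops_nil _))) ez1100 y1110_0) (.cons (ent_i rfl rfl (ops_S (sS1000_2 h) (ops_L (lL1100_1 h.p0213) (ops_nil _))) ez1100 y1110_1) .nil))
theorem nf1110 (h : Q A a b c d) : ∀ r, vec (symOf (ps1110 a b c d)) r = vec (e1110 a b c d) (appM N1110 r) :=
  block_sound2 h.h.two (ps := ps1110 a b c d) (ns := 6) rfl (raw5 (srcRow_spec h.h.two (qL1110_0 h) (nf1100 h.p1203) wf1100) (srcRow_spec h.h.two (qL1110_1 h) (nf1100 h.p0213) wf1100) (srcRow_spec h.h.two (qL1110_2 h) (nf1100 h) wf1100) (zf_spec _) (zf_spec _)) kb1110 co1110 u1110 el1110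
theorem ez1110 : ∀ k, 6 ≤ k → e1110 a b c d k = 0 := eOf_ge _ (wfT_D wf1110).2
theorem qS1110_1 (h : Q A a b c d) : List.Forall₂ (EntOk 1 (symOf (ps1110 a b c d)))
    (ps1110 b a c d) pS1110_1 :=
  (.cons (ent_i rfl rfl (ops_nil _) ez1100 y1110_1) (.cons (ent_i rfl rfl (ops_nil _) ez1100 y1110_0) (.cons (ent_i rfl rfl (ops_S (sS1100_1 h.p1023) (ops_nil _)) ez1100 y1110_2) .nil)))
theorem sS1110_1 (h : Q A a b c d) : ∀ v, vec (e1110 a b c d) v = vec (e1110 b a c d) (appM S1110_1 v) :=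
  fun v => (one_mul _).symm.trans (table_sound2 h.h.two (qS1110_1 h.p1023) (nf1110 h.p1023) kw1110_1 kS1110_1 v)
theorem qS1110_2 (h : Q A a b c d) : List.Forall₂ (EntOk 1 (symOf (ps1110 a b c d)))
    (ps1110 c b a d) pS1110_2 :=
  (.cons (ent_i rfl rfl (ops_S (sS1100_1 h.p1023) (ops_nil _)) ez1100 y1110_2) (.cons (ent_i rfl rfl (ops_S (sS1100_1 h.p2013) (ops_nil _)) ez1100 y1110_1) (.cons (ent_i rfl rfl (ops_S (sS1100_1 h.p2103) (ops_nil _)) ez1100 y1110_0) .nil)))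
theorem sS1110_2 (h : Q A a b c d) : ∀ v, vec (e1110 a b c d) v = vec (e1110 c b a d) (appM S1110_2 v) :=
  fun v => (one_mul _).symm.trans (table_sound2 h.h.two (qS1110_2 h.p2103) (nf1110 h.p2103) kw1110_2 kS1110_2 v)
theorem lL1110_2 (h : Q A a b c d) : ∀ v, c * vec (e1100 a b c d) v = vec (e1110 a b c d) (appM L1110_2 v) :=
  table_sound2 h.h.two (qL1110_2 h) (nf1110 h) kv1110_2 kL1110_2
theorem rR1110_2 (h : Q A a b c d) : ∀ v, vec (e1100 a b c d) v * c = vec (e1110 a b c d) (appM N1110 (Nat.shiftLeft (Nat.mod v 4) 4)) :=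
  r_fact (n := 2) rfl ez1100 y1110_2 (nf1110 h)
theorem w1110 (h : Q A a b c d) : WP ![1, 1, 1, 0] ![a, b, c, d] (e1110 a b c d) :=
  wp_step4 (nf1110 h) (by decide) (Or.inr ⟨_, wp1203 (w1100 h.p1203), wp_r ez1100 y1110_0⟩) (Or.inr ⟨_, wp0213 (w1100 h.p0213), wp_r ez1100 y1110_1⟩) (Or.inr ⟨_, wp0123 (w1100 h), wp_r ez1100 y1110_2⟩) (Or.inl rfl)

theorem tl0011 (h : Q A a b c d) : ATok (SEM a b c d) (ltr a b c d) al0011 :=
  at_l rfl (ae_ok (run_R (rR1110_2 h.p2301) (run_S (sS1110_1 h.p2301) (run_S (sS1110_2 h.p3201) (run_S (sS1110_1 h.p0231) (run_S (sS1110_1 h.p2031) (run_nil _)))))) rfl rfl rfl) (ae_ok (run_S (sS1100_3 h.p2301) (run_R (rR1110_2 h.p2310) (run_S (sS1110_1 h.p2310) (run_S (sS1110_2 h.p3210) (run_S (sS1110_1 h.p1230) (run_S (sS1110_1 h.p2130) (run_nil _))))))) rfl rfl rfl) (ae_ok (run_R (rR2100_0 h.p2301) (run_nil _)) rfl rfl rfl) (ae_ok (run_S (sS1100_1 h.p2301)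 (run_R (rR2100_0 h.p3201) (run_nil _))) rfl rfl rfl)
theorem tl0101 (h : Q A a b c d) : ATok (SEM a b c d) (ltr a b c d) al0101 :=
  at_l rfl (ae_ok (run_R (rR1110_2 h.p1302) (run_S (sS1110_1 h.p1302) (run_S (sS1110_2 h.p3102) (run_S (sS1110_1 h.p0132) (run_S (sS1110_1 h.p1032) (run_nil _)))))) rfl rfl rfl) (ae_ok (run_R (rR2100_0 h.p1302) (run_nil _)) rfl rfl rfl) (ae_ok (run_S (sS1100_3 h.p1302) (run_R (rR1110_2 h.p1320) (run_S (sS1110_1 h.p1320) (run_S (sS1110_2 h.p3120) (run_S (sS1110_1 h.p2130) (run_nil _)))))) rfl rfl rfl) (ae_ok (run_S (sS1100_1 h.p1302) (run_R (rR2100_0 h.p3102) (run_nil _))) rfl rfl rfl)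
theorem tl0110 (h : Q A a b c d) : ATok (SEM a b c d) (ltr a b c d) al0110 :=
  at_l rfl (ae_ok (run_R (rR1110_2 h.p1203) (run_S (sS1110_1 h.p1203) (run_S (sS1110_2 h.p2103) (run_S (sS1110_1 h) (run_S (sS1110_1 h.p1023) (run_nil _)))))) rfl rfl rfl) (ae_ok (run_R (rR2100_0 h.p1203) (run_nil _)) rfl rfl rfl) (ae_ok (run_S (sS1100_1 h.p1203) (run_R (rR2100_0 h.p2103) (run_nil _))) rfl rfl rfl) (ae_ok (run_S (sS1100_3 h.p1203) (run_R (rR1110_2 h.p1230) (run_nil _))) rfl rfl rfl)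
theorem tl1001 (h : Q A a b c d) : ATok (SEM a b c d) (ltr a b c d) al1001 :=
  at_l rfl (ae_ok (run_R (rR2100_0 h.p0312) (run_nil _)) rfl rfl rfl) (ae_ok (run_R (rR1110_2 h.p0312) (run_S (sS1110_1 h.p0312) (run_S (sS1110_2 h.p3012) (run_S (sS1110_1 h.p1032) (run_nil _))))) rfl rfl rfl) (ae_ok (run_S (sS1100_3 h.p0312) (run_R (rR1110_2 h.p0321) (run_S (sS1110_1 h.p0321) (run_S (sS1110_2 h.p3021) (run_S (sS1110_1 h.p2031) (run_nil _)))))) rfl rfl rfl) (ae_ok (run_S (sS1100_1 h.p0312) (run_R (rR2100_0 h.p3012) (run_nil _))) rfl rfl rfl)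
theorem tl1010 (h : Q A a b c d) : ATok (SEM a b c d) (ltr a b c d) al1010 :=
  at_l rfl (ae_ok (run_R (rR2100_0 h.p0213) (run_nil _)) rfl rfl rfl) (ae_ok (run_R (rR1110_2 h.p0213) (run_S (sS1110_1 h.p0213) (run_S (sS1110_2 h.p2013) (run_S (sS1110_1 h.p1023) (run_nil _))))) rfl rfl rfl) (ae_ok (run_S (sS1100_1 h.p0213) (run_R (rR2100_0 h.p2013) (run_nil _))) rfl rfl rfl) (ae_ok (run_S (sS1100_3 h.p0213) (run_R (rR1110_2 h.p0231) (run_nil _))) rfl rfl rfl)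
theorem tl1100 (h : Q A a b c d) : ATok (SEM a b c d) (ltr a b c d) al1100 :=
  at_l rfl (ae_ok (run_R (rR2100_0 h) (run_nil _)) rfl rfl rfl) (ae_ok (run_S (sS1100_1 h) (run_R (rR2100_0 h.p1023) (run_nil _))) rfl rfl rfl) (ae_ok (run_R (rR1110_2 h) (run_nil _)) rfl rfl rfl) (ae_ok (run_S (sS1100_3 h) (run_R (rR1110_2 h.p0132) (run_nil _))) rfl rfl rfl)
theorem TV2 (h : Q A a b c d) : ATok (SEM a b c d) (ltr a b c d) AV2 :=
  ⟨⟨tl0011 h, ⟨tl0101 h, tl0110 h⟩⟩, ⟨tl1001 h, ⟨tl1010 h, tl1100 h⟩⟩⟩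
theorem TW3 (h : Q A a b c d) : ATok (SEM a b c d) (ltr a b c d) AW3 := ⟨TW2 h, TV2 h⟩
theorem z4000 (h : Q A a b c d) : WP ![4, 0, 0, 0] ![a, b, c, d] (zfam : ℕ → K) :=
  wp_step4 (F := fun r => r) (fun _ => rfl) (by decide) (Or.inr ⟨_, wp0123 (z3000 h), wp_z (fun _ _ => rfl)⟩) (Or.inl rfl) (Or.inl rfl) (Or.inl rfl)
theorem y3100_0 : ∀ k, k < 1 → symOf (ps3100 a b c d) (k + 0) = e2100 a b c d k * a :=
  sy_hd
theorem y2200_0 : ∀ k, k < 1 → symOf (ps2200 a b c d) (k + 0) = e2100 b a c d k * a :=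
  sy_hd
theorem y2200_1 : ∀ k, k < 1 → symOf (ps2200 a b c d) (k + 1) = e2100 a b c d k * b :=
  sy_tl (o := 0) (o' := 1) (sy_hd) rfl
theorem y2110_0 : ∀ k, k < 6 → symOf (ps2110 a b c d) (k + 0) = e1110 a b c d k * a :=
  sy_hd
theorem y2110_1 : ∀ k, k < 1 → symOf (ps2110 a b c d) (k + 6) = e2100 a c b d k * b :=
  sy_tl (o := 0) (o' := 6) (sy_hd) rfl
theorem y2110_2 : ∀ k, k < 1 → symOf (ps2110 a b c d) (k + 7) = e2100 a b c d k * c :=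
  sy_tl (o := 1) (o' := 7) (sy_tl (o := 0) (o' := 1) (sy_hd) rfl) rfl
theorem y1111_0 : ∀ k, k < 6 → symOf (ps1111 a b c d) (k + 0) = e1110 b c d a k * a :=
  sy_hd
theorem y1111_1 : ∀ k, k < 6 → symOf (ps1111 a b c d) (k + 6) = e1110 a c d b k * b :=
  sy_tl (o := 0) (o' := 6) (sy_hd) rfl
theorem y1111_2 : ∀ k, k < 6 → symOf (ps1111 a b c d) (k + 12) = e1110 a b d c k * c :=
  sy_tl (o := 6) (o' := 12) (sy_tl (o := 0) (o' := 6) (sy_hd) rfl) rfl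
theorem y1111_3 : ∀ k, k < 6 → symOf (ps1111 a b c d) (k + 18) = e1110 a b c d k * d :=
  sy_tl (o := 12) (o' := 18) (sy_tl (o := 6) (o' := 12) (sy_tl (o := 0) (o' := 6) (sy_hd) rfl) rfl) rfl
theorem tf4_1200 (h : Q A a b c d) : ATok (SEM a b c d) (ltr a b c d) af4_1200 :=
  at_l rfl (ae_ok (run_F (n := 1) rfl ez2100 y2200_0) rfl rfl rfl) ae_no ae_no ae_no
theorem tf4_2100 (h : Q A a b c d) : ATok (SEM a b c d) (ltr a b c d) af4_2100 :=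
  at_l rfl ae_no (ae_ok (run_F (n := 1) rfl ez2100 y2200_1) rfl rfl rfl) ae_no ae_no
theorem TF4 (h : Q A a b c d) : ATok (SEM a b c d) (ltr a b c d) AF4 :=
  ⟨tf4_1200 h, tf4_2100 h⟩
theorem TT4 (h : Q A a b c d) : ATok (SEM a b c d) (ltr a b c d) AT4 := ⟨TW3 h, TF4 h⟩
theorem qL3100_0 (h : Q A a b c d) : List.Forall₂ (EntOk a (symOf (ps3100 a b c d)))
    (ps2100 a b c d) pL3100_0 :=
  (.cons (ent_i rfl rfl (ops_L (lL2100_0 h) (ops_nil _)) ez2100 y3100_0) (.cons (ent_n ez2000) .nil))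
theorem nf3100 (h : Q A a b c d) : ∀ r, vec (symOf (ps3100 a b c d)) r = vec (e3100 a b c d) (appM N3100 r) :=
  block_sound2 h.h.two (ps := ps3100 a b c d) (ns := 1) rfl (raw5 (srcRow_spec h.h.two (qL3100_0 h) (nf2100 h) wf2100) (zf_spec _) (zf_spec _) (zf_spec _) (zf_spec _)) kb3100 co3100 u3100 el3100
theorem ez3100 : ∀ k, 0 ≤ k → e3100 a b c d k = 0 := eOf_ge _ (wfT_D wf3100).2
theorem lL3100_0 (h : Q A a b c d) : ∀ v, a * vec (e2100 a b c d) v = vec (e3100 a b c d) (appM L3100_0 v) :=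
  table_sound2 h.h.two (qL3100_0 h) (nf3100 h) kv3100_0 kL3100_0
theorem rR3100_0 (h : Q A a b c d) : ∀ v, vec (e2100 a b c d) v * a = vec (e3100 a b c d) (appM N3100 (Nat.shiftLeft (Nat.mod v 2) 0)) :=
  r_fact (n := 1) rfl ez2100 y3100_0 (nf3100 h)
theorem w3100 (h : Q A a b c d) : WP ![3, 1, 0, 0] ![a, b, c, d] (e3100 a b c d) :=
  wp_step4 (nf3100 h) (by decide) (Or.inr ⟨_, wp0123 (w2100 h), wp_r ez2100 y3100_0⟩) (Or.inr ⟨_, wp0123 (z3000 h), wp_z (fun _ _ => rfl)⟩) (Or.inl rfl) (Or.inl rfl)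

theorem qL2200_0 (h : Q A a b c d) : List.Forall₂ (EntOk a (symOf (ps2200 a b c d)))
    (ps2100 b a c d) pL2200_0 :=
  (.cons (ent_i rfl rfl (ops_S (sS1100_1 h.p1023) (ops_L (lL2100_0 h) (ops_nil _))) ez2100 y2200_1) (.cons (ent_n ez2000) .nil))
theorem qL2200_1 (h : Q A a b c d) : List.Forall₂ (EntOk b (symOf (ps2200 a b c d)))
    (ps2100 a b c d) pL2200_1 :=
  (.cons (ent_i rfl rfl (ops_S (sS1100_1 h) (ops_L (lL2100_0 h.p1023) (ops_nil _))) ez2100 y2200_0) (.cons (ent_n ez2000) .nil))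
theorem gen2200 (h : Q A a b c d) : ∀ m ∈ gList G2200, vec (symOf (ps2200 a b c d)) m = 0 :=
  gChk_spec (sem := SEM a b c d) (c := 30007) h.h (TT4 h) (init_val (a := a) (b := b) (c := c) (d := d) _ rfl) (ltr_mem h) (by norm_num) (by norm_num) kG2200 kH2200
theorem nf2200 (h : Q A a b c d) : ∀ r, vec (symOf (ps2200 a b c d)) r = vec (e2200 a b c d) (appM N2200 r) :=
  block_sound2 h.h.two (ps := ps2200 a b c d) (ns := 2) rfl (raw5 (srcRow_spec h.h.two (qL2200_0 h) (nf2100 h.p1023) wf2100) (srcRow_spec h.h.two (qL2200_1 h) (nf2100 h) wf2100) (zf_spec _) (zf_spec _) (nthL_spec (gen2200 h))) kb2200 co2200 u2200 el2200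
theorem ez2200 : ∀ k, 0 ≤ k → e2200 a b c d k = 0 := eOf_ge _ (wfT_D wf2200).2
theorem lL2200_1 (h : Q A a b c d) : ∀ v, b * vec (e2100 a b c d) v = vec (e2200 a b c d) (appM L2200_1 v) :=
  table_sound2 h.h.two (qL2200_1 h) (nf2200 h) kv2200_1 kL2200_1
theorem rR2200_1 (h : Q A a b c d) : ∀ v, vec (e2100 a b c d) v * b = vec (e2200 a b c d) (appM N2200 (Nat.shiftLeft (Nat.mod v 2) 1)) :=
  r_fact (n := 1) rfl ez2100 y2200_1 (nf2200 h)
theorem w2200 (h : Q A a b c d) : WP ![2, 2, 0, 0] ![a, b, c, d] (e2200 a b c d) :=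
  wp_step4 (nf2200 h) (by decide) (Or.inr ⟨_, wp1023 (w2100 h.p1023), wp_r ez2100 y2200_0⟩) (Or.inr ⟨_, wp0123 (w2100 h), wp_r ez2100 y2200_1⟩) (Or.inl rfl) (Or.inl rfl)

theorem qL2110_0 (h : Q A a b c d) : List.Forall₂ (EntOk a (symOf (ps2110 a b c d)))
    (ps1110 a b c d) pL2110_0 :=
  (.cons (ent_i rfl rfl (ops_L (lL1110_2 h.p1203) (ops_S (sS1110_1 h.p1203) (ops_S (sS1110_2 h.p2103) (ops_S (sS1110_1 h) (ops_S (sS1110_1 h.p1023) (ops_nil _)))))) ez1110 y2110_0) (.cons (ent_i rfl rfl (ops_L (lL2100_0 h.p0213) (ops_nil _)) ez2100 y2110_1) (.cons (ent_i rfl rfl (ops_L (lL2100_0 h) (ops_nil _)) ez2100 y2110_2) .nil)))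
theorem qL2110_1 (h : Q A a b c d) : List.Forall₂ (EntOk b (symOf (ps2110 a b c d)))
    (ps2100 a c b d) pL2110_1 :=
  (.cons (ent_i rfl rfl (ops_L (lL1110_2 h.p0213) (ops_S (sS1110_1 h.p0213) (ops_S (sS1110_2 h.p2013) (ops_S (sS1110_1 h.p1023) (ops_nil _))))) ez1110 y2110_0) (.cons (ent_n ez2000) .nil))
theorem qL2110_2 (h : Q A a b c d) : List.Forall₂ (EntOk c (symOf (ps2110 a b c d)))
    (ps2100 a b c d) pL2110_2 :=
  (.cons (ent_i rfl rfl (ops_L (lL1110_2 h) (ops_nil _)) ez1110 y2110_0) (.cons (ent_n ez2000) .nil))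
theorem nf2110 (h : Q A a b c d) : ∀ r, vec (symOf (ps2110 a b c d)) r = vec (e2110 a b c d) (appM N2110 r) :=
  block_sound2 h.h.two (ps := ps2110 a b c d) (ns := 8) rfl (raw5 (srcRow_spec h.h.two (qL2110_0 h) (nf1110 h) wf1110) (srcRow_spec h.h.two (qL2110_1 h) (nf2100 h.p0213) wf2100) (srcRow_spec h.h.two (qL2110_2 h) (nf2100 h) wf2100) (zf_spec _) (zf_spec _)) kb2110 co2110 u2110 el2110
theorem ez2110 : ∀ k, 6 ≤ k → e2110 a b c d k = 0 := eOf_ge _ (wfT_D wf2110).2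
theorem qS2110_2 (h : Q A a b c d) : List.Forall₂ (EntOk 1 (symOf (ps2110 a b c d)))
    (ps2110 a c b d) pS2110_2 :=
  (.cons (ent_i rfl rfl (ops_S (sS1110_1 h.p0213) (ops_S (sS1110_2 h.p2013) (ops_S (sS1110_1 h.p1023) (ops_nil _)))) ez1110 y2110_0) (.cons (ent_i rfl rfl (ops_nil _) ez2100 y2110_2) (.cons (ent_i rfl rfl (ops_nil _) ez2100 y2110_1) .nil)))
theorem sS2110_2 (h : Q A a b c d) : ∀ v, vec (e2110 a b c d) v = vec (e2110 a c b d) (appM S2110_2 v) :=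
  fun v => (one_mul _).symm.trans (table_sound2 h.h.two (qS2110_2 h.p0213) (nf2110 h.p0213) kw2110_2 kS2110_2 v)
theorem lL2110_0 (h : Q A a b c d) : ∀ v, a * vec (e1110 a b c d) v = vec (e2110 a b c d) (appM L2110_0 v) :=
  table_sound2 h.h.two (qL2110_0 h) (nf2110 h) kv2110_0 kL2110_0
theorem lL2110_2 (h : Q A a b c d) : ∀ v, c * vec (e2100 a b c d) v = vec (e2110 a b c d) (appM L2110_2 v) :=
  table_sound2 h.h.two (qL2110_2 h) (nf2110 h) kv2110_2 kL2110_2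
theorem rR2110_0 (h : Q A a b c d) : ∀ v, vec (e1110 a b c d) v * a = vec (e2110 a b c d) (appM N2110 (Nat.shiftLeft (Nat.mod v 64) 0)) :=
  r_fact (n := 6) rfl ez1110 y2110_0 (nf2110 h)
theorem rR2110_2 (h : Q A a b c d) : ∀ v, vec (e2100 a b c d) v * c = vec (e2110 a b c d) (appM N2110 (Nat.shiftLeft (Nat.mod v 2) 7)) :=
  r_fact (n := 1) rfl ez2100 y2110_2 (nf2110 h)
theorem w2110 (h : Q A a b c d) : WP ![2, 1, 1, 0] ![a, b, c, d] (e2110 a b c d) :=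
  wp_step4 (nf2110 h) (by decide) (Or.inr ⟨_, wp0123 (w1110 h), wp_r ez1110 y2110_0⟩) (Or.inr ⟨_, wp0213 (w2100 h.p0213), wp_r ez2100 y2110_1⟩) (Or.inr ⟨_, wp0123 (w2100 h), wp_r ez2100 y2110_2⟩) (Or.inl rfl)

theorem qL1111_0 (h : Q A a b c d) : List.Forall₂ (EntOk a (symOf (ps1111 a b c d)))
    (ps1110 b c d a) pL1111_0 :=
  (.cons (ent_i rfl rfl (ops_S (sS1100_3 h.p2310) (ops_L (lL1110_2 h.p2301) (ops_S (sS1110_1 h.p2301) (ops_S (sS1110_2 h.p3201) (ops_S (sS1110_1 h.p0231) (ops_S (sS1110_1 h.p2031) (ops_nil _))))))) ez1110 y1111_1) (.cons (ent_i rfl rfl (ops_S (sS1100_3 h.p1320) (ops_L (lL1110_2 h.p1302) (ops_S (sS1110_1 h.p1302) (ops_S (sS1110_2 h.p3102) (ops_S (sS1110_1 h.p0132) (ops_S (sS1110_1 h.p1032) (ops_nil _))))))) ez1110 y1111_2) (.cons (ent_i rfl rfl (ops_S (sS1100_3 h.p1230) (ops_L (lL1110_2 h.p1203) (ops_S (sS1110_1 h.p1203) (ops_S (sS1110_2 h.p2103) (ops_S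 (sS1110_1 h) (ops_S (sS1110_1 h.p1023) (ops_nil _))))))) ez1110 y1111_3) .nil)))
theorem qL1111_1 (h : Q A a b c d) : List.Forall₂ (EntOk b (symOf (ps1111 a b c d)))
    (ps1110 a c d b) pL1111_1 :=
  (.cons (ent_i rfl rfl (ops_S (sS1100_3 h.p2301) (ops_L (lL1110_2 h.p2310) (ops_S (sS1110_1 h.p2310) (ops_S (sS1110_2 h.p3210) (ops_S (sS1110_1 h.p1230) (ops_S (sS1110_1 h.p2130) (ops_nil _))))))) ez1110 y1111_0) (.cons (ent_i rfl rfl (ops_S (sS1100_3 h.p0321) (ops_L (lL1110_2 h.p0312) (ops_S (sS1110_1 h.p0312) (ops_S (sS1110_2 h.p3012) (ops_S (sS1110_1 h.p1032) (ops_nil _)))))) ez1110 y1111_2) (.cons (ent_i rfl rfl (ops_S (sS1100_3 h.p0231) (ops_L (lL1110_2 h.p0213) (ops_S (sS1110_1 h.p0213) (ops_S (sS1110_2 h.p2013) (ops_S (sS1110_1 h.p1023) (ops_nil _)))))) ez1110 y1111_3) .nil)))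
theorem qL1111_2 (h : Q A a b c d) : List.Forall₂ (EntOk c (symOf (ps1111 a b c d)))
    (ps1110 a b d c) pL1111_2 :=
  (.cons (ent_i rfl rfl (ops_S (sS1100_3 h.p1302) (ops_L (lL1110_2 h.p1320) (ops_S (sS1110_1 h.p1320) (ops_S (sS1110_2 h.p3120) (ops_S (sS1110_1 h.p2130) (ops_nil _)))))) ez1110 y1111_0) (.cons (ent_i rfl rfl (ops_S (sS1100_3 h.p0312) (ops_L (lL1110_2 h.p0321) (ops_S (sS1110_1 h.p0321) (ops_S (sS1110_2 h.p3021) (ops_S (sS1110_1 h.p2031) (ops_nil _)))))) ez1110 y1111_1) (.cons (ent_i rfl rfl (ops_S (sS1100_3 h.p0132) (ops_L (lL1110_2 h) (ops_nil _))) ez1110 y1111_3) .nil)))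
theorem qL1111_3 (h : Q A a b c d) : List.Forall₂ (EntOk d (symOf (ps1111 a b c d)))
    (ps1110 a b c d) pL1111_3 :=
  (.cons (ent_i rfl rfl (ops_S (sS1100_3 h.p1203) (ops_L (lL1110_2 h.p1230) (ops_nil _))) ez1110 y1111_0) (.cons (ent_i rfl rfl (ops_S (sS1100_3 h.p0213) (ops_L (lL1110_2 h.p0231) (ops_nil _))) ez1110 y1111_1) (.cons (ent_i rfl rfl (ops_S (sS1100_3 h) (ops_L (lL1110_2 h.p0132) (ops_nil _))) ez1110 y1111_2) .nil)))
theorem nf1111 (h : Q A a b c d) : ∀ r, vec (symOf (ps1111 a b c d)) r = vec (e1111 a b c d) (appM N1111 r) :=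
  block_sound2 h.h.two (ps := ps1111 a b c d) (ns := 24) rfl (raw5 (srcRow_spec h.h.two (qL1111_0 h) (nf1110 h.p1230) wf1110) (srcRow_spec h.h.two (qL1111_1 h) (nf1110 h.p0231) wf1110) (srcRow_spec h.h.two (qL1111_2 h) (nf1110 h.p0132) wf1110) (srcRow_spec h.h.two (qL1111_3 h) (nf1110 h) wf1110) (zf_spec _)) kb1111 co1111 u1111 el1111
theorem ez1111 : ∀ k, 24 ≤ k → e1111 a b c d k = 0 := eOf_ge _ (wfT_D wf1111).2
theorem qS1111_1 (h : Q A a b c d) : List.Forall₂ (EntOk 1 (symOf (ps1111 a b c d)))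
    (ps1111 b a c d) pS1111_1 :=
  (.cons (ent_i rfl rfl (ops_nil _) ez1110 y1111_1) (.cons (ent_i rfl rfl (ops_nil _) ez1110 y1111_0) (.cons (ent_i rfl rfl (ops_S (sS1110_1 h.p1032) (ops_nil _)) ez1110 y1111_2) (.cons (ent_i rfl rfl (ops_S (sS1110_1 h.p1023) (ops_nil _)) ez1110 y1111_3) .nil))))
theorem sS1111_1 (h : Q A a b c d) : ∀ v, vec (e1111 a b c d) v = vec (e1111 b a c d) (appM S1111_1 v) :=
  fun v => (one_mul _).symm.trans (table_sound2 h.h.two (qS1111_1 h.p1023) (nf1111 h.p1023) kw1111_1 kS1111_1 v)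
theorem qS1111_2 (h : Q A a b c d) : List.Forall₂ (EntOk 1 (symOf (ps1111 a b c d)))
    (ps1111 c b a d) pS1111_2 :=
  (.cons (ent_i rfl rfl (ops_S (sS1110_1 h.p1032) (ops_nil _)) ez1110 y1111_2) (.cons (ent_i rfl rfl (ops_S (sS1110_1 h.p2031) (ops_nil _)) ez1110 y1111_1) (.cons (ent_i rfl rfl (ops_S (sS1110_1 h.p2130) (ops_nil _)) ez1110 y1111_0) (.cons (ent_i rfl rfl (ops_S (sS1110_2 h.p2103) (ops_nil _)) ez1110 y1111_3) .nil))))
theorem sS1111_2 (h : Q A a b c d) : ∀ v, vec (e1111 a b c d) v = vec (e1111 c b a d) (appM S1111_2 v) :=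
  fun v => (one_mul _).symm.trans (table_sound2 h.h.two (qS1111_2 h.p2103) (nf1111 h.p2103) kw1111_2 kS1111_2 v)
theorem qS1111_3 (h : Q A a b c d) : List.Forall₂ (EntOk 1 (symOf (ps1111 a b c d)))
    (ps1111 d b c a) pS1111_3 :=
  (.cons (ent_i rfl rfl (ops_S (sS1110_1 h.p1203) (ops_S (sS1110_2 h.p2103) (ops_S (sS1110_1 h) (ops_S (sS1110_1 h.p1023) (ops_nil _))))) ez1110 y1111_3) (.cons (ent_i rfl rfl (ops_S (sS1110_2 h.p3201) (ops_nil _)) ez1110 y1111_1) (.cons (ent_i rfl rfl (ops_S (sS1110_2 h.p3102) (ops_nil _)) ez1110 y1111_2) (.cons (ent_i rfl rfl (ops_S (sS1110_1 h.p3120) (ops_S (sS1110_2 h.p1320) (ops_S (sS1110_1 h.p2310) (ops_S (sS1110_2 h.p3210) (ops_nil _))))) ez1110 y1111_0) .nil))))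
theorem sS1111_3 (h : Q A a b c d) : ∀ v, vec (e1111 a b c d) v = vec (e1111 d b c a) (appM S1111_3 v) :=
  fun v => (one_mul _).symm.trans (table_sound2 h.h.two (qS1111_3 h.p3120) (nf1111 h.p3120) kw1111_3 kS1111_3 v)
theorem lL1111_3 (h : Q A a b c d) : ∀ v, d * vec (e1110 a b c d) v = vec (e1111 a b c d) (appM L1111_3 v) :=
  table_sound2 h.h.two (qL1111_3 h) (nf1111 h) kv1111_3 kL1111_3
theorem rR1111_3 (h : Q A a b c d) : ∀ v, vec (e1110 a b c d) v * d = vec (e1111 a b c d) (appM N1111 (Nat.shiftLeft (Nat.mod v 64) 18)) :=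
  r_fact (n := 6) rfl ez1110 y1111_3 (nf1111 h)
theorem w1111 (h : Q A a b c d) : WP ![1, 1, 1, 1] ![a, b, c, d] (e1111 a b c d) :=
  wp_step4 (nf1111 h) (by decide) (Or.inr ⟨_, wp1230 (w1110 h.p1230), wp_r ez1110 y1111_0⟩) (Or.inr ⟨_, wp0231 (w1110 h.p0231), wp_r ez1110 y1111_1⟩) (Or.inr ⟨_, wp0132 (w1110 h.p0132), wp_r ez1110 y1111_2⟩) (Or.inr ⟨_, wp0123 (w1110 h), wp_r ez1110 y1111_3⟩)

theorem tl0012 (h : Q A a b c d) : ATok (SEM a b c d) (ltr a b c d) al0012 :=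
  at_l rfl (ae_ok (run_R (rR2110_2 h.p3201) (run_S (sS2110_2 h.p3201) (run_nil _))) rfl rfl rfl) (ae_ok (run_S (sS2100_3 h.p3201) (run_R (rR2110_2 h.p3210) (run_S (sS2110_2 h.p3210) (run_nil _)))) rfl rfl rfl) (ae_ok (run_Z (run_R (rR2200_1 h.p3201) (run_nil _)) (fun k => ez2200 k (Nat.zero_le k))) rfl rfl rfl) ae_no
theorem tl0021 (h : Q A a b c d) : ATok (SEM a b c d) (ltr a b c d) al0021 :=
  at_l rfl (ae_ok (run_R (rR2110_2 h.p2301) (run_S (sS2110_2 h.p2301) (run_nil _))) rfl rfl rfl) (ae_ok (run_S (sS2100_3 h.p2301) (run_R (rR2110_2 h.p2310) (run_S (sS2110_2 h.p2310) (run_nil _)))) rfl rfl rfl) (ae_ok (run_Z (run_R (rR3100_0 h.p2301) (run_nil _)) (fun k => ez3100 k (Nat.zero_le k))) rfl rfl rfl) (ae_ok (run_Z (run_R (rR2200_1 h.p2301) (run_nil _)) (fun k => ez2200 k (Nat.zero_le k))) rfl rfl rfl)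
theorem tl0102 (h : Q A a b c d) : ATok (SEM a b c d) (ltr a b c d) al0102 :=
  at_l rfl (ae_ok (run_R (rR2110_2 h.p3102) (run_S (sS2110_2 h.p3102) (run_nil _))) rfl rfl rfl) (ae_ok (run_Z (run_R (rR2200_1 h.p3102) (run_nil _)) (fun k => ez2200 k (Nat.zero_le k))) rfl rfl rfl) (ae_ok (run_S (sS2100_3 h.p3102) (run_R (rR2110_2 h.p3120) (run_nil _))) rfl rfl rfl) ae_no
theorem tl0111 (h : Q A a b c d) : ATok (SEM a b c d) (ltr a b c d) al0111 :=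
  at_l rfl (ae_ok (run_R (rR1111_3 h.p1230) (run_S (sS1111_2 h.p1230) (run_S (sS1111_3 h.p3210) (run_S (sS1111_2 h.p0213) (run_S (sS1111_1 h.p1203) (run_S (sS1111_2 h.p2103) (run_S (sS1111_1 h) (run_S (sS1111_1 h.p1023) (run_nil _))))))))) rfl rfl rfl) (ae_ok (run_R (rR2110_0 h.p1230) (run_nil _)) rfl rfl rfl) (ae_ok (run_S (sS1110_1 h.p1230) (run_R (rR2110_0 h.p2130) (run_nil _))) rfl rfl rfl) (ae_ok (run_S (sS1110_2 h.p1230) (run_R (rR2110_0 h.p3210) (run_S (sS2110_2 h.p3210) (run_nil _)))) rfl rfl rfl)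
theorem tl0120 (h : Q A a b c d) : ATok (SEM a b c d) (ltr a b c d) al0120 :=
  at_l rfl (ae_ok (run_R (rR2110_2 h.p2103) (run_S (sS2110_2 h.p2103) (run_nil _))) rfl rfl rfl) (ae_ok (run_Z (run_R (rR2200_1 h.p2103) (run_nil _)) (fun k => ez2200 k (Nat.zero_le k))) rfl rfl rfl) (ae_ok (run_Z (run_R (rR3100_0 h.p2103) (run_nil _)) (fun k => ez3100 k (Nat.zero_le k))) rfl rfl rfl) (ae_ok (run_S (sS2100_3 h.p2103) (run_R (rR2110_2 h.p2130) (run_nil _))) rfl rfl rfl)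
theorem tl0201 (h : Q A a b c d) : ATok (SEM a b c d) (ltr a b c d) al0201 :=
  at_l rfl (ae_ok (run_R (rR2110_2 h.p1302) (run_S (sS2110_2 h.p1302) (run_nil _))) rfl rfl rfl) (ae_ok (run_Z (run_R (rR3100_0 h.p1302) (run_nil _)) (fun k => ez3100 k (Nat.zero_le k))) rfl rfl rfl) (ae_ok (run_S (sS2100_3 h.p1302) (run_R (rR2110_2 h.p1320) (run_S (sS2110_2 h.p1320) (run_nil _)))) rfl rfl rfl) (ae_ok (run_Z (run_R (rR2200_1 h.p1302) (run_nil _)) (fun k => ez2200 k (Nat.zero_le k))) rfl rfl rfl)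
theorem tl0210 (h : Q A a b c d) : ATok (SEM a b c d) (ltr a b c d) al0210 :=
  at_l rfl (ae_ok (run_R (rR2110_2 h.p1203) (run_S (sS2110_2 h.p1203) (run_nil _))) rfl rfl rfl) (ae_ok (run_Z (run_R (rR3100_0 h.p1203) (run_nil _)) (fun k => ez3100 k (Nat.zero_le k))) rfl rfl rfl) (ae_ok (run_Z (run_R (rR2200_1 h.p1203) (run_nil _)) (fun k => ez2200 k (Nat.zero_le k))) rfl rfl rfl) (ae_ok (run_S (sS2100_3 h.p1203) (run_R (rR2110_2 h.p1230) (run_nil _))) rfl rfl rfl)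
theorem tl1002 (h : Q A a b c d) : ATok (SEM a b c d) (ltr a b c d) al1002 :=
  at_l rfl (ae_ok (run_Z (run_R (rR2200_1 h.p3012) (run_nil _)) (fun k => ez2200 k (Nat.zero_le k))) rfl rfl rfl) (ae_ok (run_R (rR2110_2 h.p3012) (run_nil _)) rfl rfl rfl) (ae_ok (run_S (sS2100_3 h.p3012) (run_R (rR2110_2 h.p3021) (run_nil _))) rfl rfl rfl) ae_no
theorem tl1011 (h : Q A a b c d) : ATok (SEM a b c d) (ltr a b c d) al1011 :=
  at_l rfl (ae_ok (run_R (rR2110_0 h.p0231) (run_nil _)) rfl rfl rfl) (ae_ok (run_R (rR1111_3 h.p0231) (run_S (sS1111_2 h.p0231) (run_S (sS1111_3 h.p3201) (run_S (sS1111_2 h.p1203) (run_S (sS1111_1 h.p0213) (run_S (sS1111_2 h.p2013) (run_S (sS1111_1 h.p1023) (run_nil _)))))))) rfl rfl rfl) (ae_ok (run_S (sS1110_1 h.p0231) (run_R (rR2110_0 h.p2031) (run_nil _))) rfl rfl rfl) (ae_ok (run_S (sS1110_2 h.p0231) (run_R (rR2110_0 h.p3201) (run_S (sS2110_2 h.p3201)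 (run_nil _)))) rfl rfl rfl)
theorem tl1020 (h : Q A a b c d) : ATok (SEM a b c d) (ltr a b c d) al1020 :=
  at_l rfl (ae_ok (run_Z (run_R (rR2200_1 h.p2013) (run_nil _)) (fun k => ez2200 k (Nat.zero_le k))) rfl rfl rfl) (ae_ok (run_R (rR2110_2 h.p2013) (run_nil _)) rfl rfl rfl) (ae_ok (run_Z (run_R (rR3100_0 h.p2013) (run_nil _)) (fun k => ez3100 k (Nat.zero_le k))) rfl rfl rfl) (ae_ok (run_S (sS2100_3 h.p2013) (run_R (rR2110_2 h.p2031) (run_nil _))) rfl rfl rfl)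
theorem tl1101 (h : Q A a b c d) : ATok (SEM a b c d) (ltr a b c d) al1101 :=
  at_l rfl (ae_ok (run_R (rR2110_0 h.p0132) (run_nil _)) rfl rfl rfl) (ae_ok (run_S (sS1110_1 h.p0132) (run_R (rR2110_0 h.p1032) (run_nil _))) rfl rfl rfl) (ae_ok (run_R (rR1111_3 h.p0132) (run_S (sS1111_2 h.p0132) (run_S (sS1111_3 h.p3102) (run_S (sS1111_2 h.p2103) (run_nil _))))) rfl rfl rfl) (ae_ok (run_S (sS1110_2 h.p0132) (run_R (rR2110_0 h.p3102) (run_S (sS2110_2 h.p3102) (run_nil _)))) rfl rfl rfl)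
theorem tl1110 (h : Q A a b c d) : ATok (SEM a b c d) (ltr a b c d) al1110 :=
  at_l rfl (ae_ok (run_R (rR2110_0 h) (run_nil _)) rfl rfl rfl) (ae_ok (run_S (sS1110_1 h) (run_R (rR2110_0 h.p1023) (run_nil _))) rfl rfl rfl) (ae_ok (run_S (sS1110_2 h) (run_R (rR2110_0 h.p2103) (run_S (sS2110_2 h.p2103) (run_nil _)))) rfl rfl rfl) (ae_ok (run_R (rR1111_3 h) (run_nil _)) rfl rfl rfl)
theorem tl1200 (h : Q A a b c d) : ATok (SEM a b c d) (ltr a b c d) al1200 :=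
  at_l rfl (ae_ok (run_Z (run_R (rR2200_1 h.p1023) (run_nil _)) (fun k => ez2200 k (Nat.zero_le k))) rfl rfl rfl) (ae_ok (run_Z (run_R (rR3100_0 h.p1023) (run_nil _)) (fun k => ez3100 k (Nat.zero_le k))) rfl rfl rfl) (ae_ok (run_R (rR2110_2 h.p1023) (run_nil _)) rfl rfl rfl) (ae_ok (run_S (sS2100_3 h.p1023) (run_R (rR2110_2 h.p1032) (run_nil _))) rfl rfl rfl)
theorem tl2001 (h : Q A a b c d) : ATok (SEM a b c d) (ltr a b c d) al2001 :=
  at_l rfl (ae_ok (run_Z (run_R (rR3100_0 h.p0312) (run_nil _)) (fun k => ez3100 k (Nat.zero_le k))) rfl rfl rfl) (ae_ok (run_R (rR2110_2 h.p0312) (run_S (sS2110_2 h.p0312) (run_nil _))) rfl rfl rfl) (ae_ok (run_S (sS2100_3 h.p0312) (run_R (rR2110_2 h.p0321) (run_S (sS2110_2 h.p0321) (run_nil _)))) rfl rfl rfl) (ae_ok (run_Z (run_R (rR2200_1 h.p0312) (run_nil _)) (fun k => ez2200 k (Nat.zero_le k))) rfl rfl rfl)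
theorem tl2010 (h : Q A a b c d) : ATok (SEM a b c d) (ltr a b c d) al2010 :=
  at_l rfl (ae_ok (run_Z (run_R (rR3100_0 h.p0213) (run_nil _)) (fun k => ez3100 k (Nat.zero_le k))) rfl rfl rfl) (ae_ok (run_R (rR2110_2 h.p0213) (run_S (sS2110_2 h.p0213) (run_nil _))) rfl rfl rfl) (ae_ok (run_Z (run_R (rR2200_1 h.p0213) (run_nil _)) (fun k => ez2200 k (Nat.zero_le k))) rfl rfl rfl) (ae_ok (run_S (sS2100_3 h.p0213) (run_R (rR2110_2 h.p0231) (run_nil _))) rfl rfl rfl)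
theorem tl2100 (h : Q A a b c d) : ATok (SEM a b c d) (ltr a b c d) al2100 :=
  at_l rfl (ae_ok (run_Z (run_R (rR3100_0 h) (run_nil _)) (fun k => ez3100 k (Nat.zero_le k))) rfl rfl rfl) (ae_ok (run_Z (run_R (rR2200_1 h) (run_nil _)) (fun k => ez2200 k (Nat.zero_le k))) rfl rfl rfl) (ae_ok (run_R (rR2110_2 h) (run_nil _)) rfl rfl rfl) (ae_ok (run_S (sS2100_3 h) (run_R (rR2110_2 h.p0132) (run_nil _))) rfl rfl rfl)
theorem TV3 (h : Q A a b c d) : ATok (SEM a b c d) (ltr a b c d) AV3 :=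
  ⟨⟨⟨⟨tl0012 h, tl0021 h⟩, ⟨tl0102 h, tl0111 h⟩⟩, ⟨⟨tl0120 h, tl0201 h⟩, ⟨tl0210 h, tl1002 h⟩⟩⟩, ⟨⟨⟨tl1011 h, tl1020 h⟩, ⟨tl1101 h, tl1110 h⟩⟩, ⟨⟨tl1200 h, tl2001 h⟩, ⟨tl2010 h, tl2100 h⟩⟩⟩⟩
theorem TW4 (h : Q A a b c d) : ATok (SEM a b c d) (ltr a b c d) AW4 := ⟨TW3 h, TV3 h⟩
theorem z3200 (h : Q A a b c d) : WP ![3, 2, 0, 0] ![a, b, c, d] (zfam : ℕ → K) :=
  wp_step4 (F := fun r => r) (fun _ => rfl) (by decide) (Or.inr ⟨_, wp0123 (w2200 h), wp_z ez2200⟩) (Or.inr ⟨_, wp0123 (w3100 h), wp_z ez3100⟩) (Or.inl rfl) (Or.inl rfl)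
theorem z4100 (h : Q A a b c d) : WP ![4, 1, 0, 0] ![a, b, c, d] (zfam : ℕ → K) :=
  wp_step4 (F := fun r => r) (fun _ => rfl) (by decide) (Or.inr ⟨_, wp0123 (w3100 h), wp_z ez3100⟩) (Or.inr ⟨_, wp0123 (z4000 h), wp_z (fun _ _ => rfl)⟩) (Or.inl rfl) (Or.inl rfl)
theorem z5000 (h : Q A a b c d) : WP ![5, 0, 0, 0] ![a, b, c, d] (zfam : ℕ → K) :=
  wp_step4 (F := fun r => r) (fun _ => rfl) (by decide) (Or.inr ⟨_, wp0123 (z4000 h), wp_z (fun _ _ => rfl)⟩) (Or.inl rfl) (Or.inl rfl) (Or.inl rfl)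
theorem y3110_0 : ∀ k, k < 6 → symOf (ps3110 a b c d) (k + 0) = e2110 a b c d k * a :=
  sy_hd
theorem y2210_0 : ∀ k, k < 6 → symOf (ps2210 a b c d) (k + 0) = e2110 b a c d k * a :=
  sy_hd
theorem y2210_1 : ∀ k, k < 6 → symOf (ps2210 a b c d) (k + 6) = e2110 a b c d k * b :=
  sy_tl (o := 0) (o' := 6) (sy_hd) rfl
theorem y2111_0 : ∀ k, k < 24 → symOf (ps2111 a b c d) (k + 0) = e1111 a b c d k * a :=
  sy_hd
theorem y2111_1 : ∀ k, k < 6 → symOf (ps2111 a b c d) (k + 24) = e2110 a c d b k * b :=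
  sy_tl (o := 0) (o' := 24) (sy_hd) rfl
theorem y2111_2 : ∀ k, k < 6 → symOf (ps2111 a b c d) (k + 30) = e2110 a b d c k * c :=
  sy_tl (o := 6) (o' := 30) (sy_tl (o := 0) (o' := 6) (sy_hd) rfl) rfl
theorem y2111_3 : ∀ k, k < 6 → symOf (ps2111 a b c d) (k + 36) = e2110 a b c d k * d :=
  sy_tl (o := 12) (o' := 36) (sy_tl (o := 6) (o' := 12) (sy_tl (o := 0) (o' := 6) (sy_hd) rfl) rfl) rfl
theorem tf5_1210 (h : Q A a b c d) : ATok (SEM a b c d) (ltr a b c d) af5_1210 :=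
  at_l rfl (ae_ok (run_F (n := 6) rfl ez2110 y2210_0) rfl rfl rfl) ae_no ae_no ae_no
theorem tf5_2110 (h : Q A a b c d) : ATok (SEM a b c d) (ltr a b c d) af5_2110 :=
  at_l rfl ae_no (ae_ok (run_F (n := 6) rfl ez2110 y2210_1) rfl rfl rfl) ae_no ae_no
theorem TF5 (h : Q A a b c d) : ATok (SEM a b c d) (ltr a b c d) AF5 :=
  ⟨tf5_1210 h, tf5_2110 h⟩
theorem TT5 (h : Q A a b c d) : ATok (SEM a b c d) (ltr a b c d) AT5 := ⟨TW4 h, TF5 h⟩
theorem qL3110_0 (h : Q A a b c d) : List.Forall₂ (EntOk a (symOf (ps3110 a b c d)))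
    (ps2110 a b c d) pL3110_0 :=
  (.cons (ent_i rfl rfl (ops_L (lL2110_0 h) (ops_nil _)) ez2110 y3110_0) (.cons (ent_z rfl (ops_L (lL3100_0 h.p0213) (ops_nil _)) ez3100) (.cons (ent_z rfl (ops_L (lL3100_0 h) (ops_nil _)) ez3100) .nil)))
theorem qL3110_1 (h : Q A a b c d) : List.Forall₂ (EntOk b (symOf (ps3110 a b c d)))
    (ps3100 a c b d) pL3110_1 :=
  (.cons (ent_i rfl rfl (ops_L (lL2110_2 h.p0213) (ops_S (sS2110_2 h.p0213) (ops_nil _))) ez2110 y3110_0) .nil)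
theorem qL3110_2 (h : Q A a b c d) : List.Forall₂ (EntOk c (symOf (ps3110 a b c d)))
    (ps3100 a b c d) pL3110_2 :=
  (.cons (ent_i rfl rfl (ops_L (lL2110_2 h) (ops_nil _)) ez2110 y3110_0) .nil)
theorem nf3110 (h : Q A a b c d) : ∀ r, vec (symOf (ps3110 a b c d)) r = vec (e3110 a b c d) (appM N3110 r) :=
  block_sound2 h.h.two (ps := ps3110 a b c d) (ns := 6) rfl (raw5 (srcRow_spec h.h.two (qL3110_0 h) (nf2110 h) wf2110) (srcRow_spec h.h.two (qL3110_1 h) (nf3100 h.p0213) wf3100) (srcRow_spec h.h.two (qL3110_2 h) (nf3100 h) wf3100) (zf_spec _) (zf_spec _)) kb3110 co3110 u3110 el3110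
theorem ez3110 : ∀ k, 2 ≤ k → e3110 a b c d k = 0 := eOf_ge _ (wfT_D wf3110).2
theorem qS3110_2 (h : Q A a b c d) : List.Forall₂ (EntOk 1 (symOf (ps3110 a b c d)))
    (ps3110 a c b d) pS3110_2 :=
  (.cons (ent_i rfl rfl (ops_S (sS2110_2 h.p0213) (ops_nil _)) ez2110 y3110_0) (.cons (ent_n ez3100) (.cons (ent_n ez3100) .nil)))
theorem sS3110_2 (h : Q A a b c d) : ∀ v, vec (e3110 a b c d) v = vec (e3110 a c b d) (appM S3110_2 v) :=
  fun v => (one_mul _).symm.trans (table_sound2 h.h.two (qS3110_2 h.p0213) (nf3110 h.p0213) kw3110_2 kS3110_2 v)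
theorem lL3110_0 (h : Q A a b c d) : ∀ v, a * vec (e2110 a b c d) v = vec (e3110 a b c d) (appM L3110_0 v) :=
  table_sound2 h.h.two (qL3110_0 h) (nf3110 h) kv3110_0 kL3110_0
theorem rR3110_0 (h : Q A a b c d) : ∀ v, vec (e2110 a b c d) v * a = vec (e3110 a b c d) (appM N3110 (Nat.shiftLeft (Nat.mod v 64) 0)) :=
  r_fact (n := 6) rfl ez2110 y3110_0 (nf3110 h)
theorem w3110 (h : Q A a b c d) : WP ![3, 1, 1, 0] ![a, b, c, d] (e3110 a b c d) :=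
  wp_step4 (nf3110 h) (by decide) (Or.inr ⟨_, wp0123 (w2110 h), wp_r ez2110 y3110_0⟩) (Or.inr ⟨_, wp0213 (w3100 h.p0213), wp_z ez3100⟩) (Or.inr ⟨_, wp0123 (w3100 h), wp_z ez3100⟩) (Or.inl rfl)

theorem qL2210_0 (h : Q A a b c d) : List.Forall₂ (EntOk a (symOf (ps2210 a b c d)))
    (ps2110 b a c d) pL2210_0 :=
  (.cons (ent_i rfl rfl (ops_S (sS1110_1 h.p1023) (ops_L (lL2110_0 h) (ops_nil _))) ez2110 y2210_1) (.cons (ent_i rfl rfl (ops_L (lL2110_2 h.p1203) (ops_S (sS2110_2 h.p1203) (ops_nil _))) ez2110 y2210_0) (.cons (ent_z rfl (ops_L (lL2200_1 h.p1023) (ops_nil _)) ez2200) .nil)))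
theorem qL2210_1 (h : Q A a b c d) : List.Forall₂ (EntOk b (symOf (ps2210 a b c d)))
    (ps2110 a b c d) pL2210_1 :=
  (.cons (ent_i rfl rfl (ops_S (sS1110_1 h) (ops_L (lL2110_0 h.p1023) (ops_nil _))) ez2110 y2210_0) (.cons (ent_i rfl rfl (ops_L (lL2110_2 h.p0213) (ops_S (sS2110_2 h.p0213) (ops_nil _))) ez2110 y2210_1) (.cons (ent_z rfl (ops_L (lL2200_1 h) (ops_nil _)) ez2200) .nil)))
theorem qL2210_2 (h : Q A a b c d) : List.Forall₂ (EntOk c (symOf (ps2210 a b c d)))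
    (ps2200 a b c d) pL2210_2 :=
  (.cons (ent_i rfl rfl (ops_L (lL2110_2 h.p1023) (ops_nil _)) ez2110 y2210_0) (.cons (ent_i rfl rfl (ops_L (lL2110_2 h) (ops_nil _)) ez2110 y2210_1) .nil))
theorem gen2210 (h : Q A a b c d) : ∀ m ∈ gList G2210, vec (symOf (ps2210 a b c d)) m = 0 :=
  gChk_spec (sem := SEM a b c d) (c := 30011) h.h (TT5 h) (init_val (a := a) (b := b) (c := c) (d := d) _ rfl) (ltr_mem h) (by norm_num) (by norm_num) kG2210 kH2210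
theorem nf2210 (h : Q A a b c d) : ∀ r, vec (symOf (ps2210 a b c d)) r = vec (e2210 a b c d) (appM N2210 r) :=
  block_sound2 h.h.two (ps := ps2210 a b c d) (ns := 12) rfl (raw5 (srcRow_spec h.h.two (qL2210_0 h) (nf2110 h.p1023) wf2110) (srcRow_spec h.h.two (qL2210_1 h) (nf2110 h) wf2110) (srcRow_spec h.h.two (qL2210_2 h) (nf2200 h) wf2200) (zf_spec _) (nthL_spec (gen2210 h))) kb2210 co2210 u2210 el2210
theorem ez2210 : ∀ k, 6 ≤ k → e2210 a b c d k = 0 := eOf_ge _ (wfT_D wf2210).2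
theorem qS2210_1 (h : Q A a b c d) : List.Forall₂ (EntOk 1 (symOf (ps2210 a b c d)))
    (ps2210 b a c d) pS2210_1 :=
  (.cons (ent_i rfl rfl (ops_nil _) ez2110 y2210_1) (.cons (ent_i rfl rfl (ops_nil _) ez2110 y2210_0) (.cons (ent_n ez2200) .nil)))
theorem sS2210_1 (h : Q A a b c d) : ∀ v, vec (e2210 a b c d) v = vec (e2210 b a c d) (appM S2210_1 v) :=
  fun v => (one_mul _).symm.trans (table_sound2 h.h.two (qS2210_1 h.p1023) (nf2210 h.p1023) kw2210_1 kS2210_1 v)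
theorem lL2210_1 (h : Q A a b c d) : ∀ v, b * vec (e2110 a b c d) v = vec (e2210 a b c d) (appM L2210_1 v) :=
  table_sound2 h.h.two (qL2210_1 h) (nf2210 h) kv2210_1 kL2210_1
theorem rR2210_1 (h : Q A a b c d) : ∀ v, vec (e2110 a b c d) v * b = vec (e2210 a b c d) (appM N2210 (Nat.shiftLeft (Nat.mod v 64) 6)) :=
  r_fact (n := 6) rfl ez2110 y2210_1 (nf2210 h)
theorem w2210 (h : Q A a b c d) : WP ![2, 2, 1, 0] ![a, b, c, d] (e2210 a b c d) :=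
  wp_step4 (nf2210 h) (by decide) (Or.inr ⟨_, wp1023 (w2110 h.p1023), wp_r ez2110 y2210_0⟩) (Or.inr ⟨_, wp0123 (w2110 h), wp_r ez2110 y2210_1⟩) (Or.inr ⟨_, wp0123 (w2200 h), wp_z ez2200⟩) (Or.inl rfl)

theorem qL2111_0 (h : Q A a b c d) : List.Forall₂ (EntOk a (symOf (ps2111 a b c d)))
    (ps1111 a b c d) pL2111_0 :=
  (.cons (ent_i rfl rfl (ops_L (lL1111_3 h.p1230) (ops_S (sS1111_2 h.p1230) (ops_S (sS1111_3 h.p3210) (ops_S (sS1111_2 h.p0213) (ops_S (sS1111_1 h.p1203) (ops_S (sS1111_2 h.p2103) (ops_S (sS1111_1 h) (ops_S (sS1111_1 h.p1023) (ops_nil _))))))))) ez1111 y2111_0) (.cons (ent_i rfl rfl (ops_L (lL2110_0 h.p0231) (ops_nil _)) ez2110 y2111_1) (.cons (ent_i rfl rfl (ops_L (lL2110_0 h.p0132) (ops_nil _)) ez2110 y2111_2) (.cons (ent_i rfl rfl (ops_L (lL2110_0 h) (ops_nil _)) ez2110 y2111_3) .nil))))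
theorem qL2111_1 (h : Q A a b c d) : List.Forall₂ (EntOk b (symOf (ps2111 a b c d)))
    (ps2110 a c d b) pL2111_1 :=
  (.cons (ent_i rfl rfl (ops_L (lL1111_3 h.p0231) (ops_S (sS1111_2 h.p0231) (ops_S (sS1111_3 h.p3201) (ops_S (sS1111_2 h.p1203) (ops_S (sS1111_1 h.p0213) (ops_S (sS1111_2 h.p2013) (ops_S (sS1111_1 h.p1023) (ops_nil _)))))))) ez1111 y2111_0) (.cons (ent_i rfl rfl (ops_S (sS2100_3 h.p0321) (ops_L (lL2110_2 h.p0312) (ops_S (sS2110_2 h.p0312) (ops_nil _)))) ez2110 y2111_2) (.cons (ent_i rfl rfl (ops_S (sS2100_3 h.p0231) (ops_L (lL2110_2 h.p0213) (ops_S (sS2110_2 h.p0213) (ops_nil _)))) ez2110 y2111_3) .nil)))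
theorem qL2111_2 (h : Q A a b c d) : List.Forall₂ (EntOk c (symOf (ps2111 a b c d)))
    (ps2110 a b d c) pL2111_2 :=
  (.cons (ent_i rfl rfl (ops_L (lL1111_3 h.p0132) (ops_S (sS1111_2 h.p0132) (ops_S (sS1111_3 h.p3102) (ops_S (sS1111_2 h.p2103) (ops_nil _))))) ez1111 y2111_0) (.cons (ent_i rfl rfl (ops_S (sS2100_3 h.p0312) (ops_L (lL2110_2 h.p0321) (ops_S (sS2110_2 h.p0321) (ops_nil _)))) ez2110 y2111_1) (.cons (ent_i rfl rfl (ops_S (sS2100_3 h.p0132) (ops_L (lL2110_2 h) (ops_nil _))) ez2110 y2111_3) .nil)))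
theorem qL2111_3 (h : Q A a b c d) : List.Forall₂ (EntOk d (symOf (ps2111 a b c d)))
    (ps2110 a b c d) pL2111_3 :=
  (.cons (ent_i rfl rfl (ops_L (lL1111_3 h) (ops_nil _)) ez1111 y2111_0) (.cons (ent_i rfl rfl (ops_S (sS2100_3 h.p0213) (ops_L (lL2110_2 h.p0231) (ops_nil _))) ez2110 y2111_1) (.cons (ent_i rfl rfl (ops_S (sS2100_3 h) (ops_L (lL2110_2 h.p0132) (ops_nil _))) ez2110 y2111_2) .nil)))
theorem nf2111 (h : Q A a b c d) : ∀ r, vec (symOf (ps2111 a b c d)) r = vec (e2111 a b c d) (appM N2111 r) :=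
  block_sound2 h.h.two (ps := ps2111 a b c d) (ns := 42) rfl (raw5 (srcRow_spec h.h.two (qL2111_0 h) (nf1111 h) wf1111) (srcRow_spec h.h.two (qL2111_1 h) (nf2110 h.p0231) wf2110) (srcRow_spec h.h.two (qL2111_2 h) (nf2110 h.p0132) wf2110) (srcRow_spec h.h.two (qL2111_3 h) (nf2110 h) wf2110) (zf_spec _)) kb2111 co2111 u2111 el2111
theorem ez2111 : ∀ k, 36 ≤ k → e2111 a b c d k = 0 := eOf_ge _ (wfT_D wf2111).2
theorem qS2111_2 (h : Q A a b c d) : List.Forall₂ (EntOk 1 (symOf (ps2111 a b c d)))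
    (ps2111 a c b d) pS2111_2 :=
  (.cons (ent_i rfl rfl (ops_S (sS1111_1 h.p0213) (ops_S (sS1111_2 h.p2013) (ops_S (sS1111_1 h.p1023) (ops_nil _)))) ez1111 y2111_0) (.cons (ent_i rfl rfl (ops_nil _) ez2110 y2111_2) (.cons (ent_i rfl rfl (ops_nil _) ez2110 y2111_1) (.cons (ent_i rfl rfl (ops_S (sS2110_2 h.p0213) (ops_nil _)) ez2110 y2111_3) .nil))))
theorem sS2111_2 (h : Q A a b c d) : ∀ v, vec (e2111 a b c d) v = vec (e2111 a c b d) (appM S2111_2 v) :=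
  fun v => (one_mul _).symm.trans (table_sound2 h.h.two (qS2111_2 h.p0213) (nf2111 h.p0213) kw2111_2 kS2111_2 v)
theorem qS2111_3 (h : Q A a b c d) : List.Forall₂ (EntOk 1 (symOf (ps2111 a b c d)))
    (ps2111 a d c b) pS2111_3 :=
  (.cons (ent_i rfl rfl (ops_S (sS1111_1 h.p0321) (ops_S (sS1111_3 h.p3021) (ops_S (sS1111_1 h.p1023) (ops_nil _)))) ez1111 y2111_0) (.cons (ent_i rfl rfl (ops_S (sS2110_2 h.p0213) (ops_nil _)) ez2110 y2111_3) (.cons (ent_i rfl rfl (ops_S (sS2110_2 h.p0312) (ops_nil _)) ez2110 y2111_2) (.cons (ent_i rfl rfl (ops_S (sS2110_2 h.p0321) (ops_nil _)) ez2110 y2111_1) .nil))))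
theorem sS2111_3 (h : Q A a b c d) : ∀ v, vec (e2111 a b c d) v = vec (e2111 a d c b) (appM S2111_3 v) :=
  fun v => (one_mul _).symm.trans (table_sound2 h.h.two (qS2111_3 h.p0321) (nf2111 h.p0321) kw2111_3 kS2111_3 v)
theorem lL2111_0 (h : Q A a b c d) : ∀ v, a * vec (e1111 a b c d) v = vec (e2111 a b c d) (appM L2111_0 v) :=
  table_sound2 h.h.two (qL2111_0 h) (nf2111 h) kv2111_0 kL2111_0
theorem lL2111_3 (h : Q A a b c d) : ∀ v, d * vec (e2110 a b c d) v = vec (e2111 a b c d) (appM L2111_3 v) :=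
  table_sound2 h.h.two (qL2111_3 h) (nf2111 h) kv2111_3 kL2111_3
theorem rR2111_0 (h : Q A a b c d) : ∀ v, vec (e1111 a b c d) v * a = vec (e2111 a b c d) (appM N2111 (Nat.shiftLeft (Nat.mod v 0x1000000) 0)) :=
  r_fact (n := 24) rfl ez1111 y2111_0 (nf2111 h)
theorem rR2111_3 (h : Q A a b c d) : ∀ v, vec (e2110 a b c d) v * d = vec (e2111 a b c d) (appM N2111 (Nat.shiftLeft (Nat.mod v 64) 36)) :=
  r_fact (n := 6) rfl ez2110 y2111_3 (nf2111 h)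
theorem w2111 (h : Q A a b c d) : WP ![2, 1, 1, 1] ![a, b, c, d] (e2111 a b c d) :=
  wp_step4 (nf2111 h) (by decide) (Or.inr ⟨_, wp0123 (w1111 h), wp_r ez1111 y2111_0⟩) (Or.inr ⟨_, wp0231 (w2110 h.p0231), wp_r ez2110 y2111_1⟩) (Or.inr ⟨_, wp0132 (w2110 h.p0132), wp_r ez2110 y2111_2⟩) (Or.inr ⟨_, wp0123 (w2110 h), wp_r ez2110 y2111_3⟩)

theorem tl0112 (h : Q A a b c d) : ATok (SEM a b c d) (ltr a b c d) al0112 :=
  at_l rfl (ae_ok (run_R (rR2111_3 h.p3120) (run_S (sS2111_2 h.p3120) (run_S (sS2111_3 h.p3210) (run_S (sS2111_2 h.p3012) (run_S (sS2111_2 h.p3102) (run_nil _)))))) rfl rfl rfl) (ae_ok (run_R (rR2210_1 h.p3120) (run_S (sS2210_1 h.p3120) (run_nil _))) rfl rfl rfl) (ae_ok (run_S (sS2110_2 h.p3120) (run_R (rR2210_1 h.p3210) (run_S (sS2210_1 h.p3210) (run_nil _)))) rfl rfl rfl) ae_no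
theorem tl0121 (h : Q A a b c d) : ATok (SEM a b c d) (ltr a b c d) al0121 :=
  at_l rfl (ae_ok (run_R (rR2111_3 h.p2130) (run_S (sS2111_2 h.p2130) (run_S (sS2111_3 h.p2310) (run_S (sS2111_2 h.p2013) (run_S (sS2111_2 h.p2103) (run_nil _)))))) rfl rfl rfl) (ae_ok (run_R (rR2210_1 h.p2130) (run_S (sS2210_1 h.p2130) (run_nil _))) rfl rfl rfl) (ae_ok (run_R (rR3110_0 h.p2130) (run_nil _)) rfl rfl rfl) (ae_ok (run_S (sS2110_2 h.p2130) (run_R (rR2210_1 h.p2310) (run_nil _))) rfl rfl rfl)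
theorem tl0211 (h : Q A a b c d) : ATok (SEM a b c d) (ltr a b c d) al0211 :=
  at_l rfl (ae_ok (run_R (rR2111_3 h.p1230) (run_S (sS2111_2 h.p1230) (run_S (sS2111_3 h.p1320) (run_S (sS2111_2 h.p1023) (run_S (sS2111_2 h.p1203) (run_nil _)))))) rfl rfl rfl) (ae_ok (run_R (rR3110_0 h.p1230) (run_nil _)) rfl rfl rfl) (ae_ok (run_R (rR2210_1 h.p1230) (run_nil _)) rfl rfl rfl) (ae_ok (run_S (sS2110_2 h.p1230) (run_R (rR2210_1 h.p1320) (run_nil _))) rfl rfl rfl)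
theorem tl1012 (h : Q A a b c d) : ATok (SEM a b c d) (ltr a b c d) al1012 :=
  at_l rfl (ae_ok (run_R (rR2210_1 h.p3021) (run_S (sS2210_1 h.p3021) (run_nil _))) rfl rfl rfl) (ae_ok (run_R (rR2111_3 h.p3021) (run_S (sS2111_2 h.p3021) (run_S (sS2111_3 h.p3201) (run_S (sS2111_2 h.p3102) (run_nil _))))) rfl rfl rfl) (ae_ok (run_S (sS2110_2 h.p3021) (run_R (rR2210_1 h.p3201) (run_S (sS2210_1 h.p3201) (run_nil _)))) rfl rfl rfl) ae_no
theorem tl1021 (h : Q A a b c d) : ATok (SEM a b c d) (ltr a b c d) al1021 :=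
  at_l rfl (ae_ok (run_R (rR2210_1 h.p2031) (run_S (sS2210_1 h.p2031) (run_nil _))) rfl rfl rfl) (ae_ok (run_R (rR2111_3 h.p2031) (run_S (sS2111_2 h.p2031) (run_S (sS2111_3 h.p2301) (run_S (sS2111_2 h.p2103) (run_nil _))))) rfl rfl rfl) (ae_ok (run_R (rR3110_0 h.p2031) (run_nil _)) rfl rfl rfl) (ae_ok (run_S (sS2110_2 h.p2031) (run_R (rR2210_1 h.p2301) (run_nil _))) rfl rfl rfl)
theorem tl1102 (h : Q A a b c d) : ATok (SEM a b c d) (ltr a b c d) al1102 :=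
  at_l rfl (ae_ok (run_R (rR2210_1 h.p3012) (run_S (sS2210_1 h.p3012) (run_nil _))) rfl rfl rfl) (ae_ok (run_S (sS2110_2 h.p3012) (run_R (rR2210_1 h.p3102) (run_S (sS2210_1 h.p3102) (run_nil _)))) rfl rfl rfl) (ae_ok (run_R (rR2111_3 h.p3012) (run_nil _)) rfl rfl rfl) ae_no
theorem tl1111 (h : Q A a b c d) : ATok (SEM a b c d) (ltr a b c d) al1111 :=
  at_l rfl (ae_ok (run_R (rR2111_0 h) (run_nil _)) rfl rfl rfl) (ae_ok (run_S (sS1111_1 h) (run_R (rR2111_0 h.p1023) (run_nil _))) rfl rfl rfl) (ae_ok (run_S (sS1111_2 h) (run_R (rR2111_0 h.p2103) (run_S (sS2111_2 h.p2103) (run_nil _)))) rfl rfl rfl) (ae_ok (run_S (sS1111_3 h) (run_R (rR2111_0 h.p3120) (run_S (sS2111_2 h.p3120) (run_S (sS2111_3 h.p3210) (run_S (sS2111_2 h.p3012) (run_S (sS2111_2 h.p3102) (run_nil _))))))) rfl rfl rfl)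
theorem tl1120 (h : Q A a b c d) : ATok (SEM a b c d) (ltr a b c d) al1120 :=
  at_l rfl (ae_ok (run_R (rR2210_1 h.p2013) (run_S (sS2210_1 h.p2013) (run_nil _))) rfl rfl rfl) (ae_ok (run_S (sS2110_2 h.p2013) (run_R (rR2210_1 h.p2103) (run_S (sS2210_1 h.p2103) (run_nil _)))) rfl rfl rfl) (ae_ok (run_R (rR3110_0 h.p2013) (run_nil _)) rfl rfl rfl) (ae_ok (run_R (rR2111_3 h.p2013) (run_nil _)) rfl rfl rfl)
theorem tl1201 (h : Q A a b c d) : ATok (SEM a b c d) (ltr a b c d) al1201 :=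
  at_l rfl (ae_ok (run_R (rR2210_1 h.p1032) (run_S (sS2210_1 h.p1032) (run_nil _))) rfl rfl rfl) (ae_ok (run_R (rR3110_0 h.p1032) (run_nil _)) rfl rfl rfl) (ae_ok (run_R (rR2111_3 h.p1032) (run_S (sS2111_2 h.p1032) (run_S (sS2111_3 h.p1302) (run_S (sS2111_2 h.p1203) (run_nil _))))) rfl rfl rfl) (ae_ok (run_S (sS2110_2 h.p1032) (run_R (rR2210_1 h.p1302) (run_nil _))) rfl rfl rfl)
theorem tl1210 (h : Q A a b c d) : ATok (SEM a b c d) (ltr a b c d) al1210 :=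
  at_l rfl (ae_ok (run_R (rR2210_1 h.p1023) (run_S (sS2210_1 h.p1023) (run_nil _))) rfl rfl rfl) (ae_ok (run_R (rR3110_0 h.p1023) (run_nil _)) rfl rfl rfl) (ae_ok (run_S (sS2110_2 h.p1023) (run_R (rR2210_1 h.p1203) (run_nil _))) rfl rfl rfl) (ae_ok (run_R (rR2111_3 h.p1023) (run_nil _)) rfl rfl rfl)
theorem tl2011 (h : Q A a b c d) : ATok (SEM a b c d) (ltr a b c d) al2011 :=
  at_l rfl (ae_ok (run_R (rR3110_0 h.p0231) (run_nil _)) rfl rfl rfl) (ae_ok (run_R (rR2111_3 h.p0231) (run_S (sS2111_2 h.p0231) (run_S (sS2111_3 h.p0321) (run_S (sS2111_2 h) (run_S (sS2111_2 h.p0213) (run_nil _)))))) rfl rfl rfl) (ae_ok (run_R (rR2210_1 h.p0231) (run_nil _)) rfl rfl rfl) (ae_ok (run_S (sS2110_2 h.p0231) (run_R (rR2210_1 h.p0321) (run_nil _))) rfl rfl rfl)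
theorem tl2101 (h : Q A a b c d) : ATok (SEM a b c d) (ltr a b c d) al2101 :=
  at_l rfl (ae_ok (run_R (rR3110_0 h.p0132) (run_nil _)) rfl rfl rfl) (ae_ok (run_R (rR2210_1 h.p0132) (run_nil _)) rfl rfl rfl) (ae_ok (run_R (rR2111_3 h.p0132) (run_S (sS2111_2 h.p0132) (run_S (sS2111_3 h.p0312) (run_S (sS2111_2 h.p0213) (run_nil _))))) rfl rfl rfl) (ae_ok (run_S (sS2110_2 h.p0132) (run_R (rR2210_1 h.p0312) (run_nil _))) rfl rfl rfl)
theorem tl2110 (h : Q A a b c d) : ATok (SEM a b c d) (ltr a b c d) al2110 :=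
  at_l rfl (ae_ok (run_R (rR3110_0 h) (run_nil _)) rfl rfl rfl) (ae_ok (run_R (rR2210_1 h) (run_nil _)) rfl rfl rfl) (ae_ok (run_S (sS2110_2 h) (run_R (rR2210_1 h.p0213) (run_nil _))) rfl rfl rfl) (ae_ok (run_R (rR2111_3 h) (run_nil _)) rfl rfl rfl)
theorem TV4 (h : Q A a b c d) : ATok (SEM a b c d) (ltr a b c d) AV4 :=
  ⟨⟨⟨tl0112 h, ⟨tl0121 h, tl0211 h⟩⟩, ⟨tl1012 h, ⟨tl1021 h, tl1102 h⟩⟩⟩, ⟨⟨tl1111 h, ⟨tl1120 h, tl1201 h⟩⟩, ⟨⟨tl1210 h, tl2011 h⟩, ⟨tl2101 h, tl2110 h⟩⟩⟩⟩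
theorem TW5 (h : Q A a b c d) : ATok (SEM a b c d) (ltr a b c d) AW5 := ⟨TW4 h, TV4 h⟩

end

end Pool.Agent.L3E.GJ
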