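import Pool.Agent.L3E.GJ.F0

set_option autoImplicit false
set_option maxRecDepth 100000
set_option linter.unusedVariables false
set_option exponentiation.threshold 100000

/-! # L3E, module GJ.F1: facts -/

namespace Pool.Agent.L3E.GJ

section
variable {K : Type} [Ring K] {A : Set K} {a b c d : K}

theorem z3300 (h : Q A a b c d) : WP ![3, 3, 0, 0] ![a, b, c, d] (zfam : ℕ → K) :=
  wp_step4 (F := fun r => r) (fun _ => rfl) (by decide) (Or.inr ⟨_, wp1023 (z3200 h.p1023), wp_z (fun _ _ => rfl)⟩) (Or.inr ⟨_, wp0123 (z3200 h), wp_z (fun _ _ => rfl)⟩) (Or.inl rfl) (Or.inl rfl)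
theorem z4200 (h : Q A a b c d) : WP ![4, 2, 0, 0] ![a, b, c, d] (zfam : ℕ → K) :=
  wp_step4 (F := fun r => r) (fun _ => rfl) (by decide) (Or.inr ⟨_, wp0123 (z3200 h), wp_z (fun _ _ => rfl)⟩) (Or.inr ⟨_, wp0123 (z4100 h), wp_z (fun _ _ => rfl)⟩) (Or.inl rfl) (Or.inl rfl)
theorem z5100 (h : Q A a b c d) : WP ![5, 1, 0, 0] ![a, b, c, d] (zfam : ℕ → K) :=
  wp_step4 (F := fun r => r) (fun _ => rfl) (by decide) (Or.inr ⟨_, wp0123 (z4100 h), wp_z (fun _ _ => rfl)⟩) (Or.inr ⟨_, wp0123 (z5000 h), wp_z (fun _ _ => rfl)⟩) (Or.inl rfl) (Or.inl rfl)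
theorem z6000 (h : Q A a b c d) : WP ![6, 0, 0, 0] ![a, b, c, d] (zfam : ℕ → K) :=
  wp_step4 (F := fun r => r) (fun _ => rfl) (by decide) (Or.inr ⟨_, wp0123 (z5000 h), wp_z (fun _ _ => rfl)⟩) (Or.inl rfl) (Or.inl rfl) (Or.inl rfl)
theorem y4110_0 : ∀ k, k < 2 → symOf (ps4110 a b c d) (k + 0) = e3110 a b c d k * a :=
  sy_hd
theorem y3210_0 : ∀ k, k < 6 → symOf (ps3210 a b c d) (k + 0) = e2210 a b c d k * a :=
  sy_hd
theorem y3210_1 : ∀ k, k < 2 → symOf (ps3210 a b c d) (k + 6) = e3110 a b c d k * b :=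
  sy_tl (o := 0) (o' := 6) (sy_hd) rfl
theorem y3111_0 : ∀ k, k < 36 → symOf (ps3111 a b c d) (k + 0) = e2111 a b c d k * a :=
  sy_hd
theorem y3111_1 : ∀ k, k < 2 → symOf (ps3111 a b c d) (k + 36) = e3110 a c d b k * b :=
  sy_tl (o := 0) (o' := 36) (sy_hd) rfl
theorem y3111_2 : ∀ k, k < 2 → symOf (ps3111 a b c d) (k + 38) = e3110 a b d c k * c :=
  sy_tl (o := 2) (o' := 38) (sy_tl (o := 0) (o' := 2) (sy_hd) rfl) rfl
theorem y3111_3 : ∀ k, k < 2 → symOf (ps3111 a b c d) (k + 40) = e3110 a b c d k * d :=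
  sy_tl (o := 4) (o' := 40) (sy_tl (o := 2) (o' := 4) (sy_tl (o := 0) (o' := 2) (sy_hd) rfl) rfl) rfl
theorem y2220_0 : ∀ k, k < 6 → symOf (ps2220 a b c d) (k + 0) = e2210 b c a d k * a :=
  sy_hd
theorem y2220_1 : ∀ k, k < 6 → symOf (ps2220 a b c d) (k + 6) = e2210 a c b d k * b :=
  sy_tl (o := 0) (o' := 6) (sy_hd) rfl
theorem y2220_2 : ∀ k, k < 6 → symOf (ps2220 a b c d) (k + 12) = e2210 a b c d k * c :=
  sy_tl (o := 6) (o' := 12) (sy_tl (o := 0) (o' := 6) (sy_hd) rfl) rfl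
theorem y2211_0 : ∀ k, k < 36 → symOf (ps2211 a b c d) (k + 0) = e2111 b a c d k * a :=
  sy_hd
theorem y2211_1 : ∀ k, k < 36 → symOf (ps2211 a b c d) (k + 36) = e2111 a b c d k * b :=
  sy_tl (o := 0) (o' := 36) (sy_hd) rfl
theorem y2211_2 : ∀ k, k < 6 → symOf (ps2211 a b c d) (k + 72) = e2210 a b d c k * c :=
  sy_tl (o := 36) (o' := 72) (sy_tl (o := 0) (o' := 36) (sy_hd) rfl) rfl
theorem y2211_3 : ∀ k, k < 6 → symOf (ps2211 a b c d) (k + 78) = e2210 a b c d k * d :=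
  sy_tl (o := 42) (o' := 78) (sy_tl (o := 6) (o' := 42) (sy_tl (o := 0) (o' := 6) (sy_hd) rfl) rfl) rfl
theorem tf6_1211 (h : Q A a b c d) : ATok (SEM a b c d) (ltr a b c d) af6_1211 :=
  at_l rfl (ae_ok (run_F (n := 36) rfl ez2111 y2211_0) rfl rfl rfl) ae_no ae_no ae_no
theorem tf6_2111 (h : Q A a b c d) : ATok (SEM a b c d) (ltr a b c d) af6_2111 :=
  at_l rfl ae_no (ae_ok (run_F (n := 36) rfl ez2111 y2211_1) rfl rfl rfl) ae_no ae_no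
theorem tf6_2201 (h : Q A a b c d) : ATok (SEM a b c d) (ltr a b c d) af6_2201 :=
  at_l rfl ae_no ae_no (ae_ok (run_F (n := 6) rfl ez2210 y2211_2) rfl rfl rfl) ae_no
theorem tf6_2210 (h : Q A a b c d) : ATok (SEM a b c d) (ltr a b c d) af6_2210 :=
  at_l rfl ae_no ae_no ae_no (ae_ok (run_F (n := 6) rfl ez2210 y2211_3) rfl rfl rfl)
theorem TF6 (h : Q A a b c d) : ATok (SEM a b c d) (ltr a b c d) AF6 :=
  ⟨⟨tf6_1211 h, tf6_2111 h⟩, ⟨tf6_2201 h, tf6_2210 h⟩⟩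
theorem TT6 (h : Q A a b c d) : ATok (SEM a b c d) (ltr a b c d) AT6 := ⟨TW5 h, TF6 h⟩
theorem qL4110_0 (h : Q A a b c d) : List.Forall₂ (EntOk a (symOf (ps4110 a b c d)))
    (ps3110 a b c d) pL4110_0 :=
  (.cons (ent_i rfl rfl (ops_L (lL3110_0 h) (ops_nil _)) ez3110 y4110_0) (.cons (ent_n ez3100) (.cons (ent_n ez3100) .nil)))
theorem nf4110 (h : Q A a b c d) : ∀ r, vec (symOf (ps4110 a b c d)) r = vec (e4110 a b c d) (appM N4110 r) :=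
  block_sound2 h.h.two (ps := ps4110 a b c d) (ns := 2) rfl (raw5 (srcRow_spec h.h.two (qL4110_0 h) (nf3110 h) wf3110) (zf_spec _) (zf_spec _) (zf_spec _) (zf_spec _)) kb4110 co4110 u4110 el4110
theorem ez4110 : ∀ k, 0 ≤ k → e4110 a b c d k = 0 := eOf_ge _ (wfT_D wf4110).2
theorem lL4110_0 (h : Q A a b c d) : ∀ v, a * vec (e3110 a b c d) v = vec (e4110 a b c d) (appM L4110_0 v) :=
  table_sound2 h.h.two (qL4110_0 h) (nf4110 h) kv4110_0 kL4110_0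
theorem rR4110_0 (h : Q A a b c d) : ∀ v, vec (e3110 a b c d) v * a = vec (e4110 a b c d) (appM N4110 (Nat.shiftLeft (Nat.mod v 4) 0)) :=
  r_fact (n := 2) rfl ez3110 y4110_0 (nf4110 h)
theorem w4110 (h : Q A a b c d) : WP ![4, 1, 1, 0] ![a, b, c, d] (e4110 a b c d) :=
  wp_step4 (nf4110 h) (by decide) (Or.inr ⟨_, wp0123 (w3110 h), wp_r ez3110 y4110_0⟩) (Or.inr ⟨_, wp0213 (z4100 h.p0213), wp_z (fun _ _ => rfl)⟩) (Or.inr ⟨_, wp0123 (z4100 h), wp_z (fun _ _ => rfl)⟩) (Or.inl rfl)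

theorem qL3210_0 (h : Q A a b c d) : List.Forall₂ (EntOk a (symOf (ps3210 a b c d)))
    (ps2210 a b c d) pL3210_0 :=
  (.cons (ent_i rfl rfl (ops_L (lL2210_1 h.p1023) (ops_S (sS2210_1 h.p1023) (ops_nil _))) ez2210 y3210_0) (.cons (ent_i rfl rfl (ops_L (lL3110_0 h) (ops_nil _)) ez3110 y3210_1) (.cons (ent_n ez2200) .nil)))
theorem qL3210_1 (h : Q A a b c d) : List.Forall₂ (EntOk b (symOf (ps3210 a b c d)))
    (ps3110 a b c d) pL3210_1 :=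
  (.cons (ent_i rfl rfl (ops_L (lL2210_1 h) (ops_nil _)) ez2210 y3210_0) (.cons (ent_n ez3100) (.cons (ent_n ez3100) .nil)))
theorem nf3210 (h : Q A a b c d) : ∀ r, vec (symOf (ps3210 a b c d)) r = vec (e3210 a b c d) (appM N3210 r) :=
  block_sound2 h.h.two (ps := ps3210 a b c d) (ns := 8) rfl (raw5 (srcRow_spec h.h.two (qL3210_0 h) (nf2210 h) wf2210) (srcRow_spec h.h.two (qL3210_1 h) (nf3110 h) wf3110) (zf_spec _) (zf_spec _) (zf_spec _)) kb3210 co3210 u3210 el3210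
theorem ez3210 : ∀ k, 3 ≤ k → e3210 a b c d k = 0 := eOf_ge _ (wfT_D wf3210).2
theorem lL3210_0 (h : Q A a b c d) : ∀ v, a * vec (e2210 a b c d) v = vec (e3210 a b c d) (appM L3210_0 v) :=
  table_sound2 h.h.two (qL3210_0 h) (nf3210 h) kv3210_0 kL3210_0
theorem lL3210_1 (h : Q A a b c d) : ∀ v, b * vec (e3110 a b c d) v = vec (e3210 a b c d) (appM L3210_1 v) :=
  table_sound2 h.h.two (qL3210_1 h) (nf3210 h) kv3210_1 kL3210_1
theorem rR3210_0 (h : Q A a b c d) : ∀ v, vec (e2210 a b c d) v * a = vec (e3210 a b c d) (appM N3210 (Nat.shiftLeft (Nat.mod v 64) 0)) :=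
  r_fact (n := 6) rfl ez2210 y3210_0 (nf3210 h)
theorem rR3210_1 (h : Q A a b c d) : ∀ v, vec (e3110 a b c d) v * b = vec (e3210 a b c d) (appM N3210 (Nat.shiftLeft (Nat.mod v 4) 6)) :=
  r_fact (n := 2) rfl ez3110 y3210_1 (nf3210 h)
theorem w3210 (h : Q A a b c d) : WP ![3, 2, 1, 0] ![a, b, c, d] (e3210 a b c d) :=
  wp_step4 (nf3210 h) (by decide) (Or.inr ⟨_, wp0123 (w2210 h), wp_r ez2210 y3210_0⟩) (Or.inr ⟨_, wp0123 (w3110 h), wp_r ez3110 y3210_1⟩) (Or.inr ⟨_, wp0123 (z3200 h), wp_z (fun _ _ => rfl)⟩) (Or.inl rfl)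

theorem qL3111_0 (h : Q A a b c d) : List.Forall₂ (EntOk a (symOf (ps3111 a b c d)))
    (ps2111 a b c d) pL3111_0 :=
  (.cons (ent_i rfl rfl (ops_L (lL2111_0 h) (ops_nil _)) ez2111 y3111_0) (.cons (ent_i rfl rfl (ops_L (lL3110_0 h.p0231) (ops_nil _)) ez3110 y3111_1) (.cons (ent_i rfl rfl (ops_L (lL3110_0 h.p0132) (ops_nil _)) ez3110 y3111_2) (.cons (ent_i rfl rfl (ops_L (lL3110_0 h) (ops_nil _)) ez3110 y3111_3) .nil))))
theorem qL3111_1 (h : Q A a b c d) : List.Forall₂ (EntOk b (symOf (ps3111 a b c d)))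
    (ps3110 a c d b) pL3111_1 :=
  (.cons (ent_i rfl rfl (ops_L (lL2111_3 h.p0231) (ops_S (sS2111_2 h.p0231) (ops_S (sS2111_3 h.p0321) (ops_S (sS2111_2 h) (ops_S (sS2111_2 h.p0213) (ops_nil _)))))) ez2111 y3111_0) (.cons (ent_n ez3100) (.cons (ent_n ez3100) .nil)))
theorem qL3111_2 (h : Q A a b c d) : List.Forall₂ (EntOk c (symOf (ps3111 a b c d)))
    (ps3110 a b d c) pL3111_2 :=
  (.cons (ent_i rfl rfl (ops_L (lL2111_3 h.p0132) (ops_S (sS2111_2 h.p0132) (ops_S (sS2111_3 h.p0312) (ops_S (sS2111_2 h.p0213) (ops_nil _))))) ez2111 y3111_0) (.cons (ent_n ez3100) (.cons (ent_n ez3100) .nil)))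
theorem qL3111_3 (h : Q A a b c d) : List.Forall₂ (EntOk d (symOf (ps3111 a b c d)))
    (ps3110 a b c d) pL3111_3 :=
  (.cons (ent_i rfl rfl (ops_L (lL2111_3 h) (ops_nil _)) ez2111 y3111_0) (.cons (ent_n ez3100) (.cons (ent_n ez3100) .nil)))
theorem nf3111 (h : Q A a b c d) : ∀ r, vec (symOf (ps3111 a b c d)) r = vec (e3111 a b c d) (appM N3111 r) :=
  block_sound2 h.h.two (ps := ps3111 a b c d) (ns := 42) rfl (raw5 (srcRow_spec h.h.two (qL3111_0 h) (nf2111 h) wf2111) (srcRow_spec h.h.two (qL3111_1 h) (nf3110 h.p0231) wf3110) (srcRow_spec h.h.two (qL3111_2 h) (nf3110 h.p0132) wf3110) (srcRow_spec h.h.two (qL3111_3 h) (nf3110 h) wf3110) (zf_spec _)) kb3111 co3111 u3111 el3111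
theorem ez3111 : ∀ k, 24 ≤ k → e3111 a b c d k = 0 := eOf_ge _ (wfT_D wf3111).2
theorem qS3111_2 (h : Q A a b c d) : List.Forall₂ (EntOk 1 (symOf (ps3111 a b c d)))
    (ps3111 a c b d) pS3111_2 :=
  (.cons (ent_i rfl rfl (ops_S (sS2111_2 h.p0213) (ops_nil _)) ez2111 y3111_0) (.cons (ent_i rfl rfl (ops_nil _) ez3110 y3111_2) (.cons (ent_i rfl rfl (ops_nil _) ez3110 y3111_1) (.cons (ent_i rfl rfl (ops_S (sS3110_2 h.p0213) (ops_nil _)) ez3110 y3111_3) .nil))))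
theorem sS3111_2 (h : Q A a b c d) : ∀ v, vec (e3111 a b c d) v = vec (e3111 a c b d) (appM S3111_2 v) :=
  fun v => (one_mul _).symm.trans (table_sound2 h.h.two (qS3111_2 h.p0213) (nf3111 h.p0213) kw3111_2 kS3111_2 v)
theorem qS3111_3 (h : Q A a b c d) : List.Forall₂ (EntOk 1 (symOf (ps3111 a b c d)))
    (ps3111 a d c b) pS3111_3 :=
  (.cons (ent_i rfl rfl (ops_S (sS2111_3 h.p0321) (ops_nil _)) ez2111 y3111_0) (.cons (ent_i rfl rfl (ops_S (sS3110_2 h.p0213) (ops_nil _)) ez3110 y3111_3) (.cons (ent_i rfl rfl (ops_S (sS3110_2 h.p0312) (ops_nil _)) ez3110 y3111_2) (.cons (ent_i rfl rfl (ops_S (sS3110_2 h.p0321) (ops_nil _)) ez3110 y3111_1) .nil))))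
theorem sS3111_3 (h : Q A a b c d) : ∀ v, vec (e3111 a b c d) v = vec (e3111 a d c b) (appM S3111_3 v) :=
  fun v => (one_mul _).symm.trans (table_sound2 h.h.two (qS3111_3 h.p0321) (nf3111 h.p0321) kw3111_3 kS3111_3 v)
theorem lL3111_0 (h : Q A a b c d) : ∀ v, a * vec (e2111 a b c d) v = vec (e3111 a b c d) (appM L3111_0 v) :=
  table_sound2 h.h.two (qL3111_0 h) (nf3111 h) kv3111_0 kL3111_0
theorem lL3111_3 (h : Q A a b c d) : ∀ v, d * vec (e3110 a b c d) v = vec (e3111 a b c d) (appM L3111_3 v) :=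
  table_sound2 h.h.two (qL3111_3 h) (nf3111 h) kv3111_3 kL3111_3
theorem rR3111_0 (h : Q A a b c d) : ∀ v, vec (e2111 a b c d) v * a = vec (e3111 a b c d) (appM N3111 (Nat.shiftLeft (Nat.mod v 0x1000000000) 0)) :=
  r_fact (n := 36) rfl ez2111 y3111_0 (nf3111 h)
theorem rR3111_3 (h : Q A a b c d) : ∀ v, vec (e3110 a b c d) v * d = vec (e3111 a b c d) (appM N3111 (Nat.shiftLeft (Nat.mod v 4) 40)) :=
  r_fact (n := 2) rfl ez3110 y3111_3 (nf3111 h)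
theorem w3111 (h : Q A a b c d) : WP ![3, 1, 1, 1] ![a, b, c, d] (e3111 a b c d) :=
  wp_step4 (nf3111 h) (by decide) (Or.inr ⟨_, wp0123 (w2111 h), wp_r ez2111 y3111_0⟩) (Or.inr ⟨_, wp0231 (w3110 h.p0231), wp_r ez3110 y3111_1⟩) (Or.inr ⟨_, wp0132 (w3110 h.p0132), wp_r ez3110 y3111_2⟩) (Or.inr ⟨_, wp0123 (w3110 h), wp_r ez3110 y3111_3⟩)

theorem qL2220_0 (h : Q A a b c d) : List.Forall₂ (EntOk a (symOf (ps2220 a b c d)))
    (ps2210 b c a d) pL2220_0 :=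
  (.cons (ent_i rfl rfl (ops_S (sS2110_2 h.p2103) (ops_L (lL2210_1 h.p2013) (ops_S (sS2210_1 h.p2013) (ops_nil _)))) ez2210 y2220_1) (.cons (ent_i rfl rfl (ops_S (sS2110_2 h.p1203) (ops_L (lL2210_1 h.p1023) (ops_S (sS2210_1 h.p1023) (ops_nil _)))) ez2210 y2220_2) (.cons (ent_n ez2200) .nil)))
theorem qL2220_1 (h : Q A a b c d) : List.Forall₂ (EntOk b (symOf (ps2220 a b c d)))
    (ps2210 a c b d) pL2220_1 :=
  (.cons (ent_i rfl rfl (ops_S (sS2110_2 h.p2013) (ops_L (lL2210_1 h.p2103) (ops_S (sS2210_1 h.p2103) (ops_nil _)))) ez2210 y2220_0) (.cons (ent_i rfl rfl (ops_S (sS2110_2 h.p0213) (ops_L (lL2210_1 h) (ops_nil _))) ez2210 y2220_2) (.cons (ent_n ez2200) .nil)))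
theorem qL2220_2 (h : Q A a b c d) : List.Forall₂ (EntOk c (symOf (ps2220 a b c d)))
    (ps2210 a b c d) pL2220_2 :=
  (.cons (ent_i rfl rfl (ops_S (sS2110_2 h.p1023) (ops_L (lL2210_1 h.p1203) (ops_nil _))) ez2210 y2220_0) (.cons (ent_i rfl rfl (ops_S (sS2110_2 h) (ops_L (lL2210_1 h.p0213) (ops_nil _))) ez2210 y2220_1) (.cons (ent_n ez2200) .nil)))
theorem nf2220 (h : Q A a b c d) : ∀ r, vec (symOf (ps2220 a b c d)) r = vec (e2220 a b c d) (appM N2220 r) :=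
  block_sound2 h.h.two (ps := ps2220 a b c d) (ns := 18) rfl (raw5 (srcRow_spec h.h.two (qL2220_0 h) (nf2210 h.p1203) wf2210) (srcRow_spec h.h.two (qL2220_1 h) (nf2210 h.p0213) wf2210) (srcRow_spec h.h.two (qL2220_2 h) (nf2210 h) wf2210) (zf_spec _) (zf_spec _)) kb2220 co2220 u2220 el2220
theorem ez2220 : ∀ k, 12 ≤ k → e2220 a b c d k = 0 := eOf_ge _ (wfT_D wf2220).2
theorem qS2220_1 (h : Q A a b c d) : List.Forall₂ (EntOk 1 (symOf (ps2220 a b c d)))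
    (ps2220 b a c d) pS2220_1 :=
  (.cons (ent_i rfl rfl (ops_nil _) ez2210 y2220_1) (.cons (ent_i rfl rfl (ops_nil _) ez2210 y2220_0) (.cons (ent_i rfl rfl (ops_S (sS2210_1 h.p1023) (ops_nil _)) ez2210 y2220_2) .nil)))
theorem sS2220_1 (h : Q A a b c d) : ∀ v, vec (e2220 a b c d) v = vec (e2220 b a c d) (appM S2220_1 v) :=
  fun v => (one_mul _).symm.trans (table_sound2 h.h.two (qS2220_1 h.p1023) (nf2220 h.p1023) kw2220_1 kS2220_1 v)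
theorem qS2220_2 (h : Q A a b c d) : List.Forall₂ (EntOk 1 (symOf (ps2220 a b c d)))
    (ps2220 c b a d) pS2220_2 :=
  (.cons (ent_i rfl rfl (ops_S (sS2210_1 h.p1023) (ops_nil _)) ez2210 y2220_2) (.cons (ent_i rfl rfl (ops_S (sS2210_1 h.p2013) (ops_nil _)) ez2210 y2220_1) (.cons (ent_i rfl rfl (ops_S (sS2210_1 h.p2103) (ops_nil _)) ez2210 y2220_0) .nil)))
theorem sS2220_2 (h : Q A a b c d) : ∀ v, vec (e2220 a b c d) v = vec (e2220 c b a d) (appM S2220_2 v) :=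
  fun v => (one_mul _).symm.trans (table_sound2 h.h.two (qS2220_2 h.p2103) (nf2220 h.p2103) kw2220_2 kS2220_2 v)
theorem lL2220_2 (h : Q A a b c d) : ∀ v, c * vec (e2210 a b c d) v = vec (e2220 a b c d) (appM L2220_2 v) :=
  table_sound2 h.h.two (qL2220_2 h) (nf2220 h) kv2220_2 kL2220_2
theorem rR2220_2 (h : Q A a b c d) : ∀ v, vec (e2210 a b c d) v * c = vec (e2220 a b c d) (appM N2220 (Nat.shiftLeft (Nat.mod v 64) 12)) :=
  r_fact (n := 6) rfl ez2210 y2220_2 (nf2220 h)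
theorem w2220 (h : Q A a b c d) : WP ![2, 2, 2, 0] ![a, b, c, d] (e2220 a b c d) :=
  wp_step4 (nf2220 h) (by decide) (Or.inr ⟨_, wp1203 (w2210 h.p1203), wp_r ez2210 y2220_0⟩) (Or.inr ⟨_, wp0213 (w2210 h.p0213), wp_r ez2210 y2220_1⟩) (Or.inr ⟨_, wp0123 (w2210 h), wp_r ez2210 y2220_2⟩) (Or.inl rfl)

theorem qL2211_0 (h : Q A a b c d) : List.Forall₂ (EntOk a (symOf (ps2211 a b c d)))
    (ps2111 b a c d) pL2211_0 :=
  (.cons (ent_i rfl rfl (ops_S (sS1111_1 h.p1023) (ops_L (lL2111_0 h) (ops_nil _))) ez2111 y2211_1) (.cons (ent_i rfl rfl (ops_L (lL2111_3 h.p1230) (ops_S (sS2111_2 h.p1230) (ops_S (sS2111_3 h.p1320) (ops_S (sS2111_2 h.p1023) (ops_S (sS2111_2 h.p1203) (ops_nil _)))))) ez2111 y2211_0) (.cons (ent_i rfl rfl (ops_L (lL2210_1 h.p1032) (ops_S (sS2210_1 h.p1032) (ops_nil _))) ez2210 y2211_2) (.cons (ent_i rfl rfl (ops_L (lL2210_1 h.p1023) (ops_S (sS2210_1 h.p1023)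 (ops_nil _))) ez2210 y2211_3) .nil))))
theorem qL2211_1 (h : Q A a b c d) : List.Forall₂ (EntOk b (symOf (ps2211 a b c d)))
    (ps2111 a b c d) pL2211_1 :=
  (.cons (ent_i rfl rfl (ops_S (sS1111_1 h) (ops_L (lL2111_0 h.p1023) (ops_nil _))) ez2111 y2211_0) (.cons (ent_i rfl rfl (ops_L (lL2111_3 h.p0231) (ops_S (sS2111_2 h.p0231) (ops_S (sS2111_3 h.p0321) (ops_S (sS2111_2 h) (ops_S (sS2111_2 h.p0213) (ops_nil _)))))) ez2111 y2211_1) (.cons (ent_i rfl rfl (ops_L (lL2210_1 h.p0132) (ops_nil _)) ez2210 y2211_2) (.cons (ent_i rfl rfl (ops_L (lL2210_1 h) (ops_nil _)) ez2210 y2211_3) .nil))))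
theorem qL2211_2 (h : Q A a b c d) : List.Forall₂ (EntOk c (symOf (ps2211 a b c d)))
    (ps2210 a b d c) pL2211_2 :=
  (.cons (ent_i rfl rfl (ops_L (lL2111_3 h.p1032) (ops_S (sS2111_2 h.p1032) (ops_S (sS2111_3 h.p1302) (ops_S (sS2111_2 h.p1203) (ops_nil _))))) ez2111 y2211_0) (.cons (ent_i rfl rfl (ops_L (lL2111_3 h.p0132) (ops_S (sS2111_2 h.p0132) (ops_S (sS2111_3 h.p0312) (ops_S (sS2111_2 h.p0213) (ops_nil _))))) ez2111 y2211_1) (.cons (ent_n ez2200) .nil)))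
theorem qL2211_3 (h : Q A a b c d) : List.Forall₂ (EntOk d (symOf (ps2211 a b c d)))
    (ps2210 a b c d) pL2211_3 :=
  (.cons (ent_i rfl rfl (ops_L (lL2111_3 h.p1023) (ops_nil _)) ez2111 y2211_0) (.cons (ent_i rfl rfl (ops_L (lL2111_3 h) (ops_nil _)) ez2111 y2211_1) (.cons (ent_n ez2200) .nil)))
theorem gen2211 (h : Q A a b c d) : ∀ m ∈ gList G2211, vec (symOf (ps2211 a b c d)) m = 0 :=
  gChk_spec (sem := SEM a b c d) (c := 30017) h.h (TT6 h) (init_val (a := a) (b := b) (c := c) (d := d) _ rfl) (ltr_mem h) (by norm_num) (by norm_num) kG2211 kH2211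
theorem nf2211 (h : Q A a b c d) : ∀ r, vec (symOf (ps2211 a b c d)) r = vec (e2211 a b c d) (appM N2211 r) :=
  block_sound2 h.h.two (ps := ps2211 a b c d) (ns := 84) rfl (raw5 (srcRow_spec h.h.two (qL2211_0 h) (nf2111 h.p1023) wf2111) (srcRow_spec h.h.two (qL2211_1 h) (nf2111 h) wf2111) (srcRow_spec h.h.two (qL2211_2 h) (nf2210 h.p0132) wf2210) (srcRow_spec h.h.two (qL2211_3 h) (nf2210 h) wf2210) (nthL_spec (gen2211 h))) kb2211 co2211 u2211 el2211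
theorem ez2211 : ∀ k, 60 ≤ k → e2211 a b c d k = 0 := eOf_ge _ (wfT_D wf2211).2
theorem qS2211_1 (h : Q A a b c d) : List.Forall₂ (EntOk 1 (symOf (ps2211 a b c d)))
    (ps2211 b a c d) pS2211_1 :=
  (.cons (ent_i rfl rfl (ops_nil _) ez2111 y2211_1) (.cons (ent_i rfl rfl (ops_nil _) ez2111 y2211_0) (.cons (ent_i rfl rfl (ops_S (sS2210_1 h.p1032) (ops_nil _)) ez2210 y2211_2) (.cons (ent_i rfl rfl (ops_S (sS2210_1 h.p1023) (ops_nil _)) ez2210 y2211_3) .nil))))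
theorem sS2211_1 (h : Q A a b c d) : ∀ v, vec (e2211 a b c d) v = vec (e2211 b a c d) (appM S2211_1 v) :=
  fun v => (one_mul _).symm.trans (table_sound2 h.h.two (qS2211_1 h.p1023) (nf2211 h.p1023) kw2211_1 kS2211_1 v)
theorem qS2211_3 (h : Q A a b c d) : List.Forall₂ (EntOk 1 (symOf (ps2211 a b c d)))
    (ps2211 a b d c) pS2211_3 :=
  (.cons (ent_i rfl rfl (ops_S (sS2111_2 h.p1032) (ops_S (sS2111_3 h.p1302) (ops_S (sS2111_2 h.p1203) (ops_nil _)))) ez2111 y2211_0) (.cons (ent_i rfl rfl (ops_S (sS2111_2 h.p0132) (ops_S (sS2111_3 h.p0312) (ops_S (sS2111_2 h.p0213) (ops_nil _)))) ez2111 y2211_1) (.cons (ent_i rfl rfl (ops_nil _) ez2210 y2211_3) (.cons (ent_i rfl rfl (ops_nil _) ez2210 y2211_2) .nil))))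
theorem sS2211_3 (h : Q A a b c d) : ∀ v, vec (e2211 a b c d) v = vec (e2211 a b d c) (appM S2211_3 v) :=
  fun v => (one_mul _).symm.trans (table_sound2 h.h.two (qS2211_3 h.p0132) (nf2211 h.p0132) kw2211_3 kS2211_3 v)
theorem lL2211_1 (h : Q A a b c d) : ∀ v, b * vec (e2111 a b c d) v = vec (e2211 a b c d) (appM L2211_1 v) :=
  table_sound2 h.h.two (qL2211_1 h) (nf2211 h) kv2211_1 kL2211_1
theorem lL2211_3 (h : Q A a b c d) : ∀ v, d * vec (e2210 a b c d) v = vec (e2211 a b c d) (appM L2211_3 v) :=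
  table_sound2 h.h.two (qL2211_3 h) (nf2211 h) kv2211_3 kL2211_3
theorem rR2211_1 (h : Q A a b c d) : ∀ v, vec (e2111 a b c d) v * b = vec (e2211 a b c d) (appM N2211 (Nat.shiftLeft (Nat.mod v 0x1000000000) 36)) :=
  r_fact (n := 36) rfl ez2111 y2211_1 (nf2211 h)
theorem rR2211_3 (h : Q A a b c d) : ∀ v, vec (e2210 a b c d) v * d = vec (e2211 a b c d) (appM N2211 (Nat.shiftLeft (Nat.mod v 64) 78)) :=
  r_fact (n := 6) rfl ez2210 y2211_3 (nf2211 h)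
theorem w2211 (h : Q A a b c d) : WP ![2, 2, 1, 1] ![a, b, c, d] (e2211 a b c d) :=
  wp_step4 (nf2211 h) (by decide) (Or.inr ⟨_, wp1023 (w2111 h.p1023), wp_r ez2111 y2211_0⟩) (Or.inr ⟨_, wp0123 (w2111 h), wp_r ez2111 y2211_1⟩) (Or.inr ⟨_, wp0132 (w2210 h.p0132), wp_r ez2210 y2211_2⟩) (Or.inr ⟨_, wp0123 (w2210 h), wp_r ez2210 y2211_3⟩)

theorem tl0122 (h : Q A a b c d) : ATok (SEM a b c d) (ltr a b c d) al0122 :=
  at_l rfl (ae_ok (run_R (rR2211_3 h.p2310) (run_S (sS2211_3 h.p2310) (run_nil _))) rfl rfl rfl) (ae_ok (run_R (rR2220_2 h.p2310) (run_S (sS2220_1 h.p2310) (run_S (sS2220_2 h.p3210) (run_S (sS2220_1 h.p1230) (run_S (sS2220_1 h.p2130) (run_nil _)))))) rfl rfl rfl) (ae_ok (run_R (rR3210_0 h.p2310) (run_nil _)) rfl rfl rfl) ae_no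
theorem tl0131 (h : Q A a b c d) : ATok (SEM a b c d) (ltr a b c d) al0131 :=
  at_l rfl (ae_ok (run_R (rR3111_3 h.p2130) (run_S (sS3111_2 h.p2130) (run_S (sS3111_3 h.p2310) (run_S (sS3111_2 h.p2013) (run_S (sS3111_2 h.p2103) (run_nil _)))))) rfl rfl rfl) (ae_ok (run_R (rR3210_1 h.p2130) (run_nil _)) rfl rfl rfl) ae_no (ae_ok (run_S (sS3110_2 h.p2130) (run_R (rR3210_1 h.p2310) (run_nil _))) rfl rfl rfl)
theorem tl0212 (h : Q A a b c d) : ATok (SEM a b c d) (ltr a b c d) al0212 :=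
  at_l rfl (ae_ok (run_R (rR2211_3 h.p1320) (run_S (sS2211_3 h.p1320) (run_nil _))) rfl rfl rfl) (ae_ok (run_R (rR3210_0 h.p1320) (run_nil _)) rfl rfl rfl) (ae_ok (run_R (rR2220_2 h.p1320) (run_S (sS2220_1 h.p1320) (run_S (sS2220_2 h.p3120) (run_S (sS2220_1 h.p2130) (run_nil _))))) rfl rfl rfl) ae_no
theorem tl0221 (h : Q A a b c d) : ATok (SEM a b c d) (ltr a b c d) al0221 :=
  at_l rfl (ae_ok (run_R (rR2211_3 h.p1230) (run_S (sS2211_3 h.p1230) (run_nil _))) rfl rfl rfl) (ae_ok (run_R (rR3210_0 h.p1230) (run_nil _)) rfl rfl rfl) (ae_ok (run_S (sS2210_1 h.p1230) (run_R (rR3210_0 h.p2130) (run_nil _))) rfl rfl rfl) (ae_ok (run_R (rR2220_2 h.p1230) (run_nil _)) rfl rfl rfl)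
theorem tl0311 (h : Q A a b c d) : ATok (SEM a b c d) (ltr a b c d) al0311 :=
  at_l rfl (ae_ok (run_R (rR3111_3 h.p1230) (run_S (sS3111_2 h.p1230) (run_S (sS3111_3 h.p1320) (run_S (sS3111_2 h.p1023) (run_S (sS3111_2 h.p1203) (run_nil _)))))) rfl rfl rfl) ae_no (ae_ok (run_R (rR3210_1 h.p1230) (run_nil _)) rfl rfl rfl) (ae_ok (run_S (sS3110_2 h.p1230) (run_R (rR3210_1 h.p1320) (run_nil _))) rfl rfl rfl)
theorem tl1022 (h : Q A a b c d) : ATok (SEM a b c d) (ltr a b c d) al1022 :=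
  at_l rfl (ae_ok (run_R (rR2220_2 h.p2301) (run_S (sS2220_1 h.p2301) (run_S (sS2220_2 h.p3201) (run_S (sS2220_1 h.p0231) (run_S (sS2220_1 h.p2031) (run_nil _)))))) rfl rfl rfl) (ae_ok (run_R (rR2211_3 h.p2301) (run_nil _)) rfl rfl rfl) (ae_ok (run_R (rR3210_0 h.p2301) (run_nil _)) rfl rfl rfl) ae_no
theorem tl1031 (h : Q A a b c d) : ATok (SEM a b c d) (ltr a b c d) al1031 :=
  at_l rfl (ae_ok (run_R (rR3210_1 h.p2031) (run_nil _)) rfl rfl rfl) (ae_ok (run_R (rR3111_3 h.p2031) (run_S (sS3111_2 h.p2031) (run_S (sS3111_3 h.p2301) (run_S (sS3111_2 h.p2103) (run_nil _))))) rfl rfl rfl) ae_no (ae_ok (run_S (sS3110_2 h.p2031) (run_R (rR3210_1 h.p2301) (run_nil _))) rfl rfl rfl)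
theorem tl1112 (h : Q A a b c d) : ATok (SEM a b c d) (ltr a b c d) al1112 :=
  at_l rfl (ae_ok (run_R (rR2211_1 h.p3012) (run_S (sS2211_1 h.p3012) (run_nil _))) rfl rfl rfl) (ae_ok (run_S (sS2111_2 h.p3012) (run_R (rR2211_1 h.p3102) (run_S (sS2211_1 h.p3102) (run_nil _)))) rfl rfl rfl) (ae_ok (run_S (sS2111_3 h.p3012) (run_R (rR2211_1 h.p3210) (run_S (sS2211_3 h.p3210) (run_S (sS2211_1 h.p3201) (run_nil _))))) rfl rfl rfl) ae_no
theorem tl1121 (h : Q A a b c d) : ATok (SEM a b c d) (ltr a b c d) al1121 :=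
  at_l rfl (ae_ok (run_R (rR2211_1 h.p2013) (run_S (sS2211_1 h.p2013) (run_nil _))) rfl rfl rfl) (ae_ok (run_S (sS2111_2 h.p2013) (run_R (rR2211_1 h.p2103) (run_S (sS2211_1 h.p2103) (run_nil _)))) rfl rfl rfl) (ae_ok (run_R (rR3111_0 h.p2013) (run_nil _)) rfl rfl rfl) (ae_ok (run_S (sS2111_3 h.p2013) (run_R (rR2211_1 h.p2310) (run_S (sS2211_3 h.p2310) (run_nil _)))) rfl rfl rfl)
theorem tl1130 (h : Q A a b c d) : ATok (SEM a b c d) (ltr a b c d) al1130 :=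
  at_l rfl (ae_ok (run_R (rR3210_1 h.p2013) (run_nil _)) rfl rfl rfl) (ae_ok (run_S (sS3110_2 h.p2013) (run_R (rR3210_1 h.p2103) (run_nil _))) rfl rfl rfl) ae_no (ae_ok (run_R (rR3111_3 h.p2013) (run_nil _)) rfl rfl rfl)
theorem tl1202 (h : Q A a b c d) : ATok (SEM a b c d) (ltr a b c d) al1202 :=
  at_l rfl (ae_ok (run_R (rR2220_2 h.p1302) (run_S (sS2220_1 h.p1302) (run_S (sS2220_2 h.p3102) (run_S (sS2220_1 h.p0132) (run_S (sS2220_1 h.p1032) (run_nil _)))))) rfl rfl rfl) (ae_ok (run_R (rR3210_0 h.p1302) (run_nil _)) rfl rfl rfl) (ae_ok (run_R (rR2211_3 h.p1302) (run_nil _)) rfl rfl rfl) ae_no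
theorem tl1211 (h : Q A a b c d) : ATok (SEM a b c d) (ltr a b c d) al1211 :=
  at_l rfl (ae_ok (run_R (rR2211_1 h.p1023) (run_S (sS2211_1 h.p1023) (run_nil _))) rfl rfl rfl) (ae_ok (run_R (rR3111_0 h.p1023) (run_nil _)) rfl rfl rfl) (ae_ok (run_S (sS2111_2 h.p1023) (run_R (rR2211_1 h.p1203) (run_nil _))) rfl rfl rfl) (ae_ok (run_S (sS2111_3 h.p1023) (run_R (rR2211_1 h.p1320) (run_S (sS2211_3 h.p1320) (run_nil _)))) rfl rfl rfl)
theorem tl1220 (h : Q A a b c d) : ATok (SEM a b c d) (ltr a b c d) al1220 :=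
  at_l rfl (ae_ok (run_R (rR2220_2 h.p1203) (run_S (sS2220_1 h.p1203) (run_S (sS2220_2 h.p2103) (run_S (sS2220_1 h) (run_S (sS2220_1 h.p1023) (run_nil _)))))) rfl rfl rfl) (ae_ok (run_R (rR3210_0 h.p1203) (run_nil _)) rfl rfl rfl) (ae_ok (run_S (sS2210_1 h.p1203) (run_R (rR3210_0 h.p2103) (run_nil _))) rfl rfl rfl) (ae_ok (run_R (rR2211_3 h.p1203) (run_nil _)) rfl rfl rfl)
theorem tl1301 (h : Q A a b c d) : ATok (SEM a b c d) (ltr a b c d) al1301 :=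
  at_l rfl (ae_ok (run_R (rR3210_1 h.p1032) (run_nil _)) rfl rfl rfl) ae_no (ae_ok (run_R (rR3111_3 h.p1032) (run_S (sS3111_2 h.p1032) (run_S (sS3111_3 h.p1302) (run_S (sS3111_2 h.p1203) (run_nil _))))) rfl rfl rfl) (ae_ok (run_S (sS3110_2 h.p1032) (run_R (rR3210_1 h.p1302) (run_nil _))) rfl rfl rfl)
theorem tl1310 (h : Q A a b c d) : ATok (SEM a b c d) (ltr a b c d) al1310 :=
  at_l rfl (ae_ok (run_R (rR3210_1 h.p1023) (run_nil _)) rfl rfl rfl) ae_no (ae_ok (run_S (sS3110_2 h.p1023) (run_R (rR3210_1 h.p1203) (run_nil _))) rfl rfl rfl) (ae_ok (run_R (rR3111_3 h.p1023) (run_nil _)) rfl rfl rfl)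
theorem tl2012 (h : Q A a b c d) : ATok (SEM a b c d) (ltr a b c d) al2012 :=
  at_l rfl (ae_ok (run_R (rR3210_0 h.p0321) (run_nil _)) rfl rfl rfl) (ae_ok (run_R (rR2211_3 h.p0321) (run_S (sS2211_3 h.p0321) (run_nil _))) rfl rfl rfl) (ae_ok (run_R (rR2220_2 h.p0321) (run_S (sS2220_1 h.p0321) (run_S (sS2220_2 h.p3021) (run_S (sS2220_1 h.p2031) (run_nil _))))) rfl rfl rfl) ae_no
theorem tl2021 (h : Q A a b c d) : ATok (SEM a b c d) (ltr a b c d) al2021 :=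
  at_l rfl (ae_ok (run_R (rR3210_0 h.p0231) (run_nil _)) rfl rfl rfl) (ae_ok (run_R (rR2211_3 h.p0231) (run_S (sS2211_3 h.p0231) (run_nil _))) rfl rfl rfl) (ae_ok (run_S (sS2210_1 h.p0231) (run_R (rR3210_0 h.p2031) (run_nil _))) rfl rfl rfl) (ae_ok (run_R (rR2220_2 h.p0231) (run_nil _)) rfl rfl rfl)
theorem tl2102 (h : Q A a b c d) : ATok (SEM a b c d) (ltr a b c d) al2102 :=
  at_l rfl (ae_ok (run_R (rR3210_0 h.p0312) (run_nil _)) rfl rfl rfl) (ae_ok (run_R (rR2220_2 h.p0312) (run_S (sS2220_1 h.p0312) (run_S (sS2220_2 h.p3012) (run_S (sS2220_1 h.p1032) (run_nil _))))) rfl rfl rfl) (ae_ok (run_R (rR2211_3 h.p0312) (run_nil _)) rfl rfl rfl) ae_no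
theorem tl2111 (h : Q A a b c d) : ATok (SEM a b c d) (ltr a b c d) al2111 :=
  at_l rfl (ae_ok (run_R (rR3111_0 h) (run_nil _)) rfl rfl rfl) (ae_ok (run_R (rR2211_1 h) (run_nil _)) rfl rfl rfl) (ae_ok (run_S (sS2111_2 h) (run_R (rR2211_1 h.p0213) (run_nil _))) rfl rfl rfl) (ae_ok (run_S (sS2111_3 h) (run_R (rR2211_1 h.p0321) (run_S (sS2211_3 h.p0321) (run_nil _)))) rfl rfl rfl)
theorem tl2120 (h : Q A a b c d) : ATok (SEM a b c d) (ltr a b c d) al2120 :=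
  at_l rfl (ae_ok (run_R (rR3210_0 h.p0213) (run_nil _)) rfl rfl rfl) (ae_ok (run_R (rR2220_2 h.p0213) (run_S (sS2220_1 h.p0213) (run_S (sS2220_2 h.p2013) (run_S (sS2220_1 h.p1023) (run_nil _))))) rfl rfl rfl) (ae_ok (run_S (sS2210_1 h.p0213) (run_R (rR3210_0 h.p2013) (run_nil _))) rfl rfl rfl) (ae_ok (run_R (rR2211_3 h.p0213) (run_nil _)) rfl rfl rfl)
theorem tl2201 (h : Q A a b c d) : ATok (SEM a b c d) (ltr a b c d) al2201 :=
  at_l rfl (ae_ok (run_R (rR3210_0 h.p0132) (run_nil _)) rfl rfl rfl) (ae_ok (run_S (sS2210_1 h.p0132) (run_R (rR3210_0 h.p1032) (run_nil _))) rfl rfl rfl) (ae_ok (run_R (rR2211_3 h.p0132) (run_S (sS2211_3 h.p0132) (run_nil _))) rfl rfl rfl) (ae_ok (run_R (rR2220_2 h.p0132) (run_nil _)) rfl rfl rfl)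
theorem tl2210 (h : Q A a b c d) : ATok (SEM a b c d) (ltr a b c d) al2210 :=
  at_l rfl (ae_ok (run_R (rR3210_0 h) (run_nil _)) rfl rfl rfl) (ae_ok (run_S (sS2210_1 h) (run_R (rR3210_0 h.p1023) (run_nil _))) rfl rfl rfl) (ae_ok (run_R (rR2220_2 h) (run_nil _)) rfl rfl rfl) (ae_ok (run_R (rR2211_3 h) (run_nil _)) rfl rfl rfl)
theorem tl3011 (h : Q A a b c d) : ATok (SEM a b c d) (ltr a b c d) al3011 :=
  at_l rfl (ae_ok (run_Z (run_R (rR4110_0 h.p0231) (run_nil _)) (fun k => ez4110 k (Nat.zero_le k))) rfl rfl rfl) (ae_ok (run_R (rR3111_3 h.p0231) (run_S (sS3111_2 h.p0231) (run_S (sS3111_3 h.p0321) (run_S (sS3111_2 h) (run_S (sS3111_2 h.p0213) (run_nil _)))))) rfl rfl rfl) (ae_ok (run_R (rR3210_1 h.p0231) (run_nil _)) rfl rfl rfl) (ae_ok (run_S (sS3110_2 h.p0231) (run_R (rR3210_1 h.p0321) (run_nil _))) rfl rfl rfl)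
theorem tl3101 (h : Q A a b c d) : ATok (SEM a b c d) (ltr a b c d) al3101 :=
  at_l rfl (ae_ok (run_Z (run_R (rR4110_0 h.p0132) (run_nil _)) (fun k => ez4110 k (Nat.zero_le k))) rfl rfl rfl) (ae_ok (run_R (rR3210_1 h.p0132) (run_nil _)) rfl rfl rfl) (ae_ok (run_R (rR3111_3 h.p0132) (run_S (sS3111_2 h.p0132) (run_S (sS3111_3 h.p0312) (run_S (sS3111_2 h.p0213) (run_nil _))))) rfl rfl rfl) (ae_ok (run_S (sS3110_2 h.p0132) (run_R (rR3210_1 h.p0312) (run_nil _))) rfl rfl rfl)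
theorem tl3110 (h : Q A a b c d) : ATok (SEM a b c d) (ltr a b c d) al3110 :=
  at_l rfl (ae_ok (run_Z (run_R (rR4110_0 h) (run_nil _)) (fun k => ez4110 k (Nat.zero_le k))) rfl rfl rfl) (ae_ok (run_R (rR3210_1 h) (run_nil _)) rfl rfl rfl) (ae_ok (run_S (sS3110_2 h) (run_R (rR3210_1 h.p0213) (run_nil _))) rfl rfl rfl) (ae_ok (run_R (rR3111_3 h) (run_nil _)) rfl rfl rfl)
theorem TV5 (h : Q A a b c d) : ATok (SEM a b c d) (ltr a b c d) AV5 :=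
  ⟨⟨⟨⟨tl0122 h, ⟨tl0131 h, tl0212 h⟩⟩, ⟨tl0221 h, ⟨tl0311 h, tl1022 h⟩⟩⟩, ⟨⟨tl1031 h, ⟨tl1112 h, tl1121 h⟩⟩, ⟨tl1130 h, ⟨tl1202 h, tl1211 h⟩⟩⟩⟩, ⟨⟨⟨tl1220 h, ⟨tl1301 h, tl1310 h⟩⟩, ⟨tl2012 h, ⟨tl2021 h, tl2102 h⟩⟩⟩, ⟨⟨tl2111 h, ⟨tl2120 h, tl2201 h⟩⟩, ⟨⟨tl2210 h, tl3011 h⟩, ⟨tl3101 h, tl3110 h⟩⟩⟩⟩⟩
theorem TW6 (h : Q A a b c d) : ATok (SEM a b c d) (ltr a b c d) AW6 := ⟨TW5 h, TV5 h⟩
theorem z4300 (h : Q A a b c d) : WP ![4, 3, 0, 0] ![a, b, c, d] (zfam : ℕ → K) :=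
  wp_step4 (F := fun r => r) (fun _ => rfl) (by decide) (Or.inr ⟨_, wp0123 (z3300 h), wp_z (fun _ _ => rfl)⟩) (Or.inr ⟨_, wp0123 (z4200 h), wp_z (fun _ _ => rfl)⟩) (Or.inl rfl) (Or.inl rfl)
theorem z5110 (h : Q A a b c d) : WP ![5, 1, 1, 0] ![a, b, c, d] (zfam : ℕ → K) :=
  wp_step4 (F := fun r => r) (fun _ => rfl) (by decide) (Or.inr ⟨_, wp0123 (w4110 h), wp_z ez4110⟩) (Or.inr ⟨_, wp0213 (z5100 h.p0213), wp_z (fun _ _ => rfl)⟩) (Or.inr ⟨_, wp0123 (z5100 h), wp_z (fun _ _ => rfl)⟩) (Or.inl rfl)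
theorem z5200 (h : Q A a b c d) : WP ![5, 2, 0, 0] ![a, b, c, d] (zfam : ℕ → K) :=
  wp_step4 (F := fun r => r) (fun _ => rfl) (by decide) (Or.inr ⟨_, wp0123 (z4200 h), wp_z (fun _ _ => rfl)⟩) (Or.inr ⟨_, wp0123 (z5100 h), wp_z (fun _ _ => rfl)⟩) (Or.inl rfl) (Or.inl rfl)
theorem z6100 (h : Q A a b c d) : WP ![6, 1, 0, 0] ![a, b, c, d] (zfam : ℕ → K) :=
  wp_step4 (F := fun r => r) (fun _ => rfl) (by decide) (Or.inr ⟨_, wp0123 (z5100 h), wp_z (fun _ _ => rfl)⟩) (Or.inr ⟨_, wp0123 (z6000 h), wp_z (fun _ _ => rfl)⟩) (Or.inl rfl) (Or.inl rfl)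
theorem z7000 (h : Q A a b c d) : WP ![7, 0, 0, 0] ![a, b, c, d] (zfam : ℕ → K) :=
  wp_step4 (F := fun r => r) (fun _ => rfl) (by decide) (Or.inr ⟨_, wp0123 (z6000 h), wp_z (fun _ _ => rfl)⟩) (Or.inl rfl) (Or.inl rfl) (Or.inl rfl)
theorem y4210_0 : ∀ k, k < 3 → symOf (ps4210 a b c d) (k + 0) = e3210 a b c d k * a :=
  sy_hd
theorem y4111_0 : ∀ k, k < 24 → symOf (ps4111 a b c d) (k + 0) = e3111 a b c d k * a :=
  sy_hd
theorem y3310_0 : ∀ k, k < 3 → symOf (ps3310 a b c d) (k + 0) = e3210 b a c d k * a :=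
  sy_hd
theorem y3310_1 : ∀ k, k < 3 → symOf (ps3310 a b c d) (k + 3) = e3210 a b c d k * b :=
  sy_tl (o := 0) (o' := 3) (sy_hd) rfl
theorem y3220_0 : ∀ k, k < 12 → symOf (ps3220 a b c d) (k + 0) = e2220 a b c d k * a :=
  sy_hd
theorem y3220_1 : ∀ k, k < 3 → symOf (ps3220 a b c d) (k + 12) = e3210 a c b d k * b :=
  sy_tl (o := 0) (o' := 12) (sy_hd) rfl
theorem y3220_2 : ∀ k, k < 3 → symOf (ps3220 a b c d) (k + 15) = e3210 a b c d k * c :=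
  sy_tl (o := 3) (o' := 15) (sy_tl (o := 0) (o' := 3) (sy_hd) rfl) rfl
theorem y3211_0 : ∀ k, k < 60 → symOf (ps3211 a b c d) (k + 0) = e2211 a b c d k * a :=
  sy_hd
theorem y3211_1 : ∀ k, k < 24 → symOf (ps3211 a b c d) (k + 60) = e3111 a b c d k * b :=
  sy_tl (o := 0) (o' := 60) (sy_hd) rfl
theorem y3211_2 : ∀ k, k < 3 → symOf (ps3211 a b c d) (k + 84) = e3210 a b d c k * c :=
  sy_tl (o := 24) (o' := 84) (sy_tl (o := 0) (o' := 24) (sy_hd) rfl) rfl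
theorem y3211_3 : ∀ k, k < 3 → symOf (ps3211 a b c d) (k + 87) = e3210 a b c d k * d :=
  sy_tl (o := 27) (o' := 87) (sy_tl (o := 3) (o' := 27) (sy_tl (o := 0) (o' := 3) (sy_hd) rfl) rfl) rfl
theorem y2221_0 : ∀ k, k < 60 → symOf (ps2221 a b c d) (k + 0) = e2211 b c a d k * a :=
  sy_hd
theorem y2221_1 : ∀ k, k < 60 → symOf (ps2221 a b c d) (k + 60) = e2211 a c b d k * b :=
  sy_tl (o := 0) (o' := 60) (sy_hd) rfl
theorem y2221_2 : ∀ k, k < 60 → symOf (ps2221 a b c d) (k + 120) = e2211 a b c d k * c :=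
  sy_tl (o := 60) (o' := 120) (sy_tl (o := 0) (o' := 60) (sy_hd) rfl) rfl
theorem y2221_3 : ∀ k, k < 12 → symOf (ps2221 a b c d) (k + 180) = e2220 a b c d k * d :=
  sy_tl (o := 120) (o' := 180) (sy_tl (o := 60) (o' := 120) (sy_tl (o := 0) (o' := 60) (sy_hd) rfl) rfl) rfl
theorem tf7_1221 (h : Q A a b c d) : ATok (SEM a b c d) (ltr a b c d) af7_1221 :=
  at_l rfl (ae_ok (run_F (n := 60) rfl ez2211 y2221_0) rfl rfl rfl) ae_no ae_no ae_no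
theorem tf7_2121 (h : Q A a b c d) : ATok (SEM a b c d) (ltr a b c d) af7_2121 :=
  at_l rfl ae_no (ae_ok (run_F (n := 60) rfl ez2211 y2221_1) rfl rfl rfl) ae_no ae_no
theorem tf7_2211 (h : Q A a b c d) : ATok (SEM a b c d) (ltr a b c d) af7_2211 :=
  at_l rfl (ae_ok (run_F (n := 60) rfl ez2211 y3211_0) rfl rfl rfl) ae_no (ae_ok (run_F (n := 60) rfl ez2211 y2221_2) rfl rfl rfl) ae_no
theorem tf7_2220 (h : Q A a b c d) : ATok (SEM a b c d) (ltr a b c d) af7_2220 :=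
  at_l rfl ae_no ae_no ae_no (ae_ok (run_F (n := 12) rfl ez2220 y2221_3) rfl rfl rfl)
theorem tf7_3111 (h : Q A a b c d) : ATok (SEM a b c d) (ltr a b c d) af7_3111 :=
  at_l rfl (ae_ok (run_F (n := 24) rfl ez3111 y4111_0) rfl rfl rfl) (ae_ok (run_F (n := 24) rfl ez3111 y3211_1) rfl rfl rfl) ae_no ae_no
theorem tf7_3201 (h : Q A a b c d) : ATok (SEM a b c d) (ltr a b c d) af7_3201 :=
  at_l rfl ae_no ae_no (ae_ok (run_F (n := 3) rfl ez3210 y3211_2) rfl rfl rfl) ae_no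
theorem tf7_3210 (h : Q A a b c d) : ATok (SEM a b c d) (ltr a b c d) af7_3210 :=
  at_l rfl ae_no ae_no ae_no (ae_ok (run_F (n := 3) rfl ez3210 y3211_3) rfl rfl rfl)
theorem TF7 (h : Q A a b c d) : ATok (SEM a b c d) (ltr a b c d) AF7 :=
  ⟨⟨tf7_1221 h, ⟨tf7_2121 h, tf7_2211 h⟩⟩, ⟨⟨tf7_2220 h, tf7_3111 h⟩, ⟨tf7_3201 h, tf7_3210 h⟩⟩⟩
theorem TT7 (h : Q A a b c d) : ATok (SEM a b c d) (ltr a b c d) AT7 := ⟨TW6 h, TF7 h⟩
theorem qL4210_0 (h : Q A a b c d) : List.Forall₂ (EntOk a (symOf (ps4210 a b c d)))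
    (ps3210 a b c d) pL4210_0 :=
  (.cons (ent_i rfl rfl (ops_L (lL3210_0 h) (ops_nil _)) ez3210 y4210_0) (.cons (ent_z rfl (ops_L (lL4110_0 h) (ops_nil _)) ez4110) .nil))
theorem qL4210_1 (h : Q A a b c d) : List.Forall₂ (EntOk b (symOf (ps4210 a b c d)))
    (ps4110 a b c d) pL4210_1 :=
  (.cons (ent_i rfl rfl (ops_L (lL3210_1 h) (ops_nil _)) ez3210 y4210_0) .nil)
theorem nf4210 (h : Q A a b c d) : ∀ r, vec (symOf (ps4210 a b c d)) r = vec (e4210 a b c d) (appM N4210 r) :=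
  block_sound2 h.h.two (ps := ps4210 a b c d) (ns := 3) rfl (raw5 (srcRow_spec h.h.two (qL4210_0 h) (nf3210 h) wf3210) (srcRow_spec h.h.two (qL4210_1 h) (nf4110 h) wf4110) (zf_spec _) (zf_spec _) (zf_spec _)) kb4210 co4210 u4210 el4210
theorem ez4210 : ∀ k, 1 ≤ k → e4210 a b c d k = 0 := eOf_ge _ (wfT_D wf4210).2
theorem lL4210_0 (h : Q A a b c d) : ∀ v, a * vec (e3210 a b c d) v = vec (e4210 a b c d) (appM L4210_0 v) :=
  table_sound2 h.h.two (qL4210_0 h) (nf4210 h) kv4210_0 kL4210_0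
theorem rR4210_0 (h : Q A a b c d) : ∀ v, vec (e3210 a b c d) v * a = vec (e4210 a b c d) (appM N4210 (Nat.shiftLeft (Nat.mod v 8) 0)) :=
  r_fact (n := 3) rfl ez3210 y4210_0 (nf4210 h)
theorem w4210 (h : Q A a b c d) : WP ![4, 2, 1, 0] ![a, b, c, d] (e4210 a b c d) :=
  wp_step4 (nf4210 h) (by decide) (Or.inr ⟨_, wp0123 (w3210 h), wp_r ez3210 y4210_0⟩) (Or.inr ⟨_, wp0123 (w4110 h), wp_z ez4110⟩) (Or.inr ⟨_, wp0123 (z4200 h), wp_z (fun _ _ => rfl)⟩) (Or.inl rfl)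

theorem qL4111_0 (h : Q A a b c d) : List.Forall₂ (EntOk a (symOf (ps4111 a b c d)))
    (ps3111 a b c d) pL4111_0 :=
  (.cons (ent_i rfl rfl (ops_L (lL3111_0 h) (ops_nil _)) ez3111 y4111_0) (.cons (ent_z rfl (ops_L (lL4110_0 h.p0231) (ops_nil _)) ez4110) (.cons (ent_z rfl (ops_L (lL4110_0 h.p0132) (ops_nil _)) ez4110) (.cons (ent_z rfl (ops_L (lL4110_0 h) (ops_nil _)) ez4110) .nil))))
theorem qL4111_1 (h : Q A a b c d) : List.Forall₂ (EntOk b (symOf (ps4111 a b c d)))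
    (ps4110 a c d b) pL4111_1 :=
  (.cons (ent_i rfl rfl (ops_L (lL3111_3 h.p0231) (ops_S (sS3111_2 h.p0231) (ops_S (sS3111_3 h.p0321) (ops_S (sS3111_2 h) (ops_S (sS3111_2 h.p0213) (ops_nil _)))))) ez3111 y4111_0) .nil)
theorem qL4111_2 (h : Q A a b c d) : List.Forall₂ (EntOk c (symOf (ps4111 a b c d)))
    (ps4110 a b d c) pL4111_2 :=
  (.cons (ent_i rfl rfl (ops_L (lL3111_3 h.p0132) (ops_S (sS3111_2 h.p0132) (ops_S (sS3111_3 h.p0312) (ops_S (sS3111_2 h.p0213) (ops_nil _))))) ez3111 y4111_0) .nil)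
theorem qL4111_3 (h : Q A a b c d) : List.Forall₂ (EntOk d (symOf (ps4111 a b c d)))
    (ps4110 a b c d) pL4111_3 :=
  (.cons (ent_i rfl rfl (ops_L (lL3111_3 h) (ops_nil _)) ez3111 y4111_0) .nil)
theorem gen4111 (h : Q A a b c d) : ∀ m ∈ gList G4111, vec (symOf (ps4111 a b c d)) m = 0 :=
  gChk_spec (sem := SEM a b c d) (c := 30019) h.h (TT7 h) (init_val (a := a) (b := b) (c := c) (d := d) _ rfl) (ltr_mem h) (by norm_num) (by norm_num) kG4111 kH4111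
theorem nf4111 (h : Q A a b c d) : ∀ r, vec (symOf (ps4111 a b c d)) r = vec (e4111 a b c d) (appM N4111 r) :=
  block_sound2 h.h.two (ps := ps4111 a b c d) (ns := 24) rfl (raw5 (srcRow_spec h.h.two (qL4111_0 h) (nf3111 h) wf3111) (srcRow_spec h.h.two (qL4111_1 h) (nf4110 h.p0231) wf4110) (srcRow_spec h.h.two (qL4111_2 h) (nf4110 h.p0132) wf4110) (srcRow_spec h.h.two (qL4111_3 h) (nf4110 h) wf4110) (nthL_spec (gen4111 h))) kb4111 co4111 u4111 el4111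
theorem ez4111 : ∀ k, 5 ≤ k → e4111 a b c d k = 0 := eOf_ge _ (wfT_D wf4111).2
theorem qS4111_2 (h : Q A a b c d) : List.Forall₂ (EntOk 1 (symOf (ps4111 a b c d)))
    (ps4111 a c b d) pS4111_2 :=
  (.cons (ent_i rfl rfl (ops_S (sS3111_2 h.p0213) (ops_nil _)) ez3111 y4111_0) (.cons (ent_n ez4110) (.cons (ent_n ez4110) (.cons (ent_n ez4110) .nil))))
theorem sS4111_2 (h : Q A a b c d) : ∀ v, vec (e4111 a b c d) v = vec (e4111 a c b d) (appM S4111_2 v) :=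
  fun v => (one_mul _).symm.trans (table_sound2 h.h.two (qS4111_2 h.p0213) (nf4111 h.p0213) kw4111_2 kS4111_2 v)
theorem qS4111_3 (h : Q A a b c d) : List.Forall₂ (EntOk 1 (symOf (ps4111 a b c d)))
    (ps4111 a d c b) pS4111_3 :=
  (.cons (ent_i rfl rfl (ops_S (sS3111_3 h.p0321) (ops_nil _)) ez3111 y4111_0) (.cons (ent_n ez4110) (.cons (ent_n ez4110) (.cons (ent_n ez4110) .nil))))
theorem sS4111_3 (h : Q A a b c d) : ∀ v, vec (e4111 a b c d) v = vec (e4111 a d c b) (appM S4111_3 v) :=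
  fun v => (one_mul _).symm.trans (table_sound2 h.h.two (qS4111_3 h.p0321) (nf4111 h.p0321) kw4111_3 kS4111_3 v)
theorem lL4111_0 (h : Q A a b c d) : ∀ v, a * vec (e3111 a b c d) v = vec (e4111 a b c d) (appM L4111_0 v) :=
  table_sound2 h.h.two (qL4111_0 h) (nf4111 h) kv4111_0 kL4111_0
theorem rR4111_0 (h : Q A a b c d) : ∀ v, vec (e3111 a b c d) v * a = vec (e4111 a b c d) (appM N4111 (Nat.shiftLeft (Nat.mod v 0x1000000) 0)) :=
  r_fact (n := 24) rfl ez3111 y4111_0 (nf4111 h)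
theorem w4111 (h : Q A a b c d) : WP ![4, 1, 1, 1] ![a, b, c, d] (e4111 a b c d) :=
  wp_step4 (nf4111 h) (by decide) (Or.inr ⟨_, wp0123 (w3111 h), wp_r ez3111 y4111_0⟩) (Or.inr ⟨_, wp0231 (w4110 h.p0231), wp_z ez4110⟩) (Or.inr ⟨_, wp0132 (w4110 h.p0132), wp_z ez4110⟩) (Or.inr ⟨_, wp0123 (w4110 h), wp_z ez4110⟩)

theorem qL3310_0 (h : Q A a b c d) : List.Forall₂ (EntOk a (symOf (ps3310 a b c d)))
    (ps3210 b a c d) pL3310_0 :=
  (.cons (ent_i rfl rfl (ops_S (sS2210_1 h.p1023) (ops_L (lL3210_0 h) (ops_nil _))) ez3210 y3310_1) (.cons (ent_i rfl rfl (ops_L (lL3210_1 h.p1023) (ops_nil _)) ez3210 y3310_0) .nil))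
theorem qL3310_1 (h : Q A a b c d) : List.Forall₂ (EntOk b (symOf (ps3310 a b c d)))
    (ps3210 a b c d) pL3310_1 :=
  (.cons (ent_i rfl rfl (ops_S (sS2210_1 h) (ops_L (lL3210_0 h.p1023) (ops_nil _))) ez3210 y3310_0) (.cons (ent_i rfl rfl (ops_L (lL3210_1 h) (ops_nil _)) ez3210 y3310_1) .nil))
theorem nf3310 (h : Q A a b c d) : ∀ r, vec (symOf (ps3310 a b c d)) r = vec (e3310 a b c d) (appM N3310 r) :=
  block_sound2 h.h.two (ps := ps3310 a b c d) (ns := 6) rfl (raw5 (srcRow_spec h.h.two (qL3310_0 h) (nf3210 h.p1023) wf3210) (srcRow_spec h.h.two (qL3310_1 h) (nf3210 h) wf3210) (zf_spec _) (zf_spec _) (zf_spec _)) kb3310 co3310 u3310 el3310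
theorem ez3310 : ∀ k, 0 ≤ k → e3310 a b c d k = 0 := eOf_ge _ (wfT_D wf3310).2
theorem lL3310_1 (h : Q A a b c d) : ∀ v, b * vec (e3210 a b c d) v = vec (e3310 a b c d) (appM L3310_1 v) :=
  table_sound2 h.h.two (qL3310_1 h) (nf3310 h) kv3310_1 kL3310_1
theorem rR3310_1 (h : Q A a b c d) : ∀ v, vec (e3210 a b c d) v * b = vec (e3310 a b c d) (appM N3310 (Nat.shiftLeft (Nat.mod v 8) 3)) :=
  r_fact (n := 3) rfl ez3210 y3310_1 (nf3310 h)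
theorem w3310 (h : Q A a b c d) : WP ![3, 3, 1, 0] ![a, b, c, d] (e3310 a b c d) :=
  wp_step4 (nf3310 h) (by decide) (Or.inr ⟨_, wp1023 (w3210 h.p1023), wp_r ez3210 y3310_0⟩) (Or.inr ⟨_, wp0123 (w3210 h), wp_r ez3210 y3310_1⟩) (Or.inr ⟨_, wp0123 (z3300 h), wp_z (fun _ _ => rfl)⟩) (Or.inl rfl)

theorem qL3220_0 (h : Q A a b c d) : List.Forall₂ (EntOk a (symOf (ps3220 a b c d)))
    (ps2220 a b c d) pL3220_0 :=
  (.cons (ent_i rfl rfl (ops_L (lL2220_2 h.p1203) (ops_S (sS2220_1 h.p1203) (ops_S (sS2220_2 h.p2103) (ops_S (sS2220_1 h) (ops_S (sS2220_1 h.p1023) (ops_nil _)))))) ez2220 y3220_0) (.cons (ent_i rfl rfl (ops_L (lL3210_0 h.p0213) (ops_nil _)) ez3210 y3220_1) (.cons (ent_i rfl rfl (ops_L (lL3210_0 h) (ops_nil _)) ez3210 y3220_2) .nil)))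
theorem qL3220_1 (h : Q A a b c d) : List.Forall₂ (EntOk b (symOf (ps3220 a b c d)))
    (ps3210 a c b d) pL3220_1 :=
  (.cons (ent_i rfl rfl (ops_L (lL2220_2 h.p0213) (ops_S (sS2220_1 h.p0213) (ops_S (sS2220_2 h.p2013) (ops_S (sS2220_1 h.p1023) (ops_nil _))))) ez2220 y3220_0) (.cons (ent_i rfl rfl (ops_S (sS3110_2 h.p0213) (ops_L (lL3210_1 h) (ops_nil _))) ez3210 y3220_2) .nil))
theorem qL3220_2 (h : Q A a b c d) : List.Forall₂ (EntOk c (symOf (ps3220 a b c d)))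
    (ps3210 a b c d) pL3220_2 :=
  (.cons (ent_i rfl rfl (ops_L (lL2220_2 h) (ops_nil _)) ez2220 y3220_0) (.cons (ent_i rfl rfl (ops_S (sS3110_2 h) (ops_L (lL3210_1 h.p0213) (ops_nil _))) ez3210 y3220_1) .nil))
theorem nf3220 (h : Q A a b c d) : ∀ r, vec (symOf (ps3220 a b c d)) r = vec (e3220 a b c d) (appM N3220 r) :=
  block_sound2 h.h.two (ps := ps3220 a b c d) (ns := 18) rfl (raw5 (srcRow_spec h.h.two (qL3220_0 h) (nf2220 h) wf2220) (srcRow_spec h.h.two (qL3220_1 h) (nf3210 h.p0213) wf3210) (srcRow_spec h.h.two (qL3220_2 h) (nf3210 h) wf3210) (zf_spec _) (zf_spec _)) kb3220 co3220 u3220 el3220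
theorem ez3220 : ∀ k, 8 ≤ k → e3220 a b c d k = 0 := eOf_ge _ (wfT_D wf3220).2
theorem qS3220_2 (h : Q A a b c d) : List.Forall₂ (EntOk 1 (symOf (ps3220 a b c d)))
    (ps3220 a c b d) pS3220_2 :=
  (.cons (ent_i rfl rfl (ops_S (sS2220_1 h.p0213) (ops_S (sS2220_2 h.p2013) (ops_S (sS2220_1 h.p1023) (ops_nil _)))) ez2220 y3220_0) (.cons (ent_i rfl rfl (ops_nil _) ez3210 y3220_2) (.cons (ent_i rfl rfl (ops_nil _) ez3210 y3220_1) .nil)))
theorem sS3220_2 (h : Q A a b c d) : ∀ v, vec (e3220 a b c d) v = vec (e3220 a c b d) (appM S3220_2 v) :=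
  fun v => (one_mul _).symm.trans (table_sound2 h.h.two (qS3220_2 h.p0213) (nf3220 h.p0213) kw3220_2 kS3220_2 v)
theorem lL3220_0 (h : Q A a b c d) : ∀ v, a * vec (e2220 a b c d) v = vec (e3220 a b c d) (appM L3220_0 v) :=
  table_sound2 h.h.two (qL3220_0 h) (nf3220 h) kv3220_0 kL3220_0
theorem lL3220_2 (h : Q A a b c d) : ∀ v, c * vec (e3210 a b c d) v = vec (e3220 a b c d) (appM L3220_2 v) :=
  table_sound2 h.h.two (qL3220_2 h) (nf3220 h) kv3220_2 kL3220_2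
theorem rR3220_0 (h : Q A a b c d) : ∀ v, vec (e2220 a b c d) v * a = vec (e3220 a b c d) (appM N3220 (Nat.shiftLeft (Nat.mod v 4096) 0)) :=
  r_fact (n := 12) rfl ez2220 y3220_0 (nf3220 h)
theorem rR3220_2 (h : Q A a b c d) : ∀ v, vec (e3210 a b c d) v * c = vec (e3220 a b c d) (appM N3220 (Nat.shiftLeft (Nat.mod v 8) 15)) :=
  r_fact (n := 3) rfl ez3210 y3220_2 (nf3220 h)
theorem w3220 (h : Q A a b c d) : WP ![3, 2, 2, 0] ![a, b, c, d] (e3220 a b c d) :=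
  wp_step4 (nf3220 h) (by decide) (Or.inr ⟨_, wp0123 (w2220 h), wp_r ez2220 y3220_0⟩) (Or.inr ⟨_, wp0213 (w3210 h.p0213), wp_r ez3210 y3220_1⟩) (Or.inr ⟨_, wp0123 (w3210 h), wp_r ez3210 y3220_2⟩) (Or.inl rfl)

theorem qL3211_0 (h : Q A a b c d) : List.Forall₂ (EntOk a (symOf (ps3211 a b c d)))
    (ps2211 a b c d) pL3211_0 :=
  (.cons (ent_i rfl rfl (ops_L (lL2211_1 h.p1023) (ops_S (sS2211_1 h.p1023) (ops_nil _))) ez2211 y3211_0) (.cons (ent_i rfl rfl (ops_L (lL3111_0 h) (ops_nil _)) ez3111 y3211_1) (.cons (ent_i rfl rfl (ops_L (lL3210_0 h.p0132) (ops_nil _)) ez3210 y3211_2) (.cons (ent_i rfl rfl (ops_L (lL3210_0 h) (ops_nil _)) ez3210 y3211_3) .nil))))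
theorem qL3211_1 (h : Q A a b c d) : List.Forall₂ (EntOk b (symOf (ps3211 a b c d)))
    (ps3111 a b c d) pL3211_1 :=
  (.cons (ent_i rfl rfl (ops_L (lL2211_1 h) (ops_nil _)) ez2211 y3211_0) (.cons (ent_i rfl rfl (ops_L (lL3111_3 h.p0231) (ops_S (sS3111_2 h.p0231) (ops_S (sS3111_3 h.p0321) (ops_S (sS3111_2 h) (ops_S (sS3111_2 h.p0213) (ops_nil _)))))) ez3111 y3211_1) (.cons (ent_i rfl rfl (ops_L (lL3210_1 h.p0132) (ops_nil _)) ez3210 y3211_2) (.cons (ent_i rfl rfl (ops_L (lL3210_1 h) (ops_nil _)) ez3210 y3211_3) .nil))))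
theorem qL3211_2 (h : Q A a b c d) : List.Forall₂ (EntOk c (symOf (ps3211 a b c d)))
    (ps3210 a b d c) pL3211_2 :=
  (.cons (ent_i rfl rfl (ops_L (lL2211_3 h.p0132) (ops_S (sS2211_3 h.p0132) (ops_nil _))) ez2211 y3211_0) (.cons (ent_i rfl rfl (ops_L (lL3111_3 h.p0132) (ops_S (sS3111_2 h.p0132) (ops_S (sS3111_3 h.p0312) (ops_S (sS3111_2 h.p0213) (ops_nil _))))) ez3111 y3211_1) .nil))
theorem qL3211_3 (h : Q A a b c d) : List.Forall₂ (EntOk d (symOf (ps3211 a b c d)))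
    (ps3210 a b c d) pL3211_3 :=
  (.cons (ent_i rfl rfl (ops_L (lL2211_3 h) (ops_nil _)) ez2211 y3211_0) (.cons (ent_i rfl rfl (ops_L (lL3111_3 h) (ops_nil _)) ez3111 y3211_1) .nil))
theorem gen3211 (h : Q A a b c d) : ∀ m ∈ gList G3211, vec (symOf (ps3211 a b c d)) m = 0 :=
  gChk_spec (sem := SEM a b c d) (c := 30022) h.h (TT7 h) (init_val (a := a) (b := b) (c := c) (d := d) _ rfl) (ltr_mem h) (by norm_num) (by norm_num) kG3211 kH3211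
theorem nf3211 (h : Q A a b c d) : ∀ r, vec (symOf (ps3211 a b c d)) r = vec (e3211 a b c d) (appM N3211 r) :=
  block_sound2 h.h.two (ps := ps3211 a b c d) (ns := 90) rfl (raw5 (srcRow_spec h.h.two (qL3211_0 h) (nf2211 h) wf2211) (srcRow_spec h.h.two (qL3211_1 h) (nf3111 h) wf3111) (srcRow_spec h.h.two (qL3211_2 h) (nf3210 h.p0132) wf3210) (srcRow_spec h.h.two (qL3211_3 h) (nf3210 h) wf3210) (nthL_spec (gen3211 h))) kb3211 co3211 u3211 el3211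
theorem ez3211 : ∀ k, 50 ≤ k → e3211 a b c d k = 0 := eOf_ge _ (wfT_D wf3211).2
theorem qS3211_3 (h : Q A a b c d) : List.Forall₂ (EntOk 1 (symOf (ps3211 a b c d)))
    (ps3211 a b d c) pS3211_3 :=
  (.cons (ent_i rfl rfl (ops_S (sS2211_3 h.p0132) (ops_nil _)) ez2211 y3211_0) (.cons (ent_i rfl rfl (ops_S (sS3111_2 h.p0132) (ops_S (sS3111_3 h.p0312) (ops_S (sS3111_2 h.p0213) (ops_nil _)))) ez3111 y3211_1) (.cons (ent_i rfl rfl (ops_nil _) ez3210 y3211_3) (.cons (ent_i rfl rfl (ops_nil _) ez3210 y3211_2) .nil))))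
theorem sS3211_3 (h : Q A a b c d) : ∀ v, vec (e3211 a b c d) v = vec (e3211 a b d c) (appM S3211_3 v) :=
  fun v => (one_mul _).symm.trans (table_sound2 h.h.two (qS3211_3 h.p0132) (nf3211 h.p0132) kw3211_3 kS3211_3 v)
theorem lL3211_0 (h : Q A a b c d) : ∀ v, a * vec (e2211 a b c d) v = vec (e3211 a b c d) (appM L3211_0 v) :=
  table_sound2 h.h.two (qL3211_0 h) (nf3211 h) kv3211_0 kL3211_0
theorem lL3211_1 (h : Q A a b c d) : ∀ v, b * vec (e3111 a b c d) v = vec (e3211 a b c d) (appM L3211_1 v) :=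
  table_sound2 h.h.two (qL3211_1 h) (nf3211 h) kv3211_1 kL3211_1
theorem lL3211_3 (h : Q A a b c d) : ∀ v, d * vec (e3210 a b c d) v = vec (e3211 a b c d) (appM L3211_3 v) :=
  table_sound2 h.h.two (qL3211_3 h) (nf3211 h) kv3211_3 kL3211_3
theorem rR3211_0 (h : Q A a b c d) : ∀ v, vec (e2211 a b c d) v * a = vec (e3211 a b c d) (appM N3211 (Nat.shiftLeft (Nat.mod v 0x1000000000000000) 0)) :=
  r_fact (n := 60) rfl ez2211 y3211_0 (nf3211 h)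
theorem rR3211_1 (h : Q A a b c d) : ∀ v, vec (e3111 a b c d) v * b = vec (e3211 a b c d) (appM N3211 (Nat.shiftLeft (Nat.mod v 0x1000000) 60)) :=
  r_fact (n := 24) rfl ez3111 y3211_1 (nf3211 h)
theorem rR3211_3 (h : Q A a b c d) : ∀ v, vec (e3210 a b c d) v * d = vec (e3211 a b c d) (appM N3211 (Nat.shiftLeft (Nat.mod v 8) 87)) :=
  r_fact (n := 3) rfl ez3210 y3211_3 (nf3211 h)
theorem w3211 (h : Q A a b c d) : WP ![3, 2, 1, 1] ![a, b, c, d] (e3211 a b c d) :=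
  wp_step4 (nf3211 h) (by decide) (Or.inr ⟨_, wp0123 (w2211 h), wp_r ez2211 y3211_0⟩) (Or.inr ⟨_, wp0123 (w3111 h), wp_r ez3111 y3211_1⟩) (Or.inr ⟨_, wp0132 (w3210 h.p0132), wp_r ez3210 y3211_2⟩) (Or.inr ⟨_, wp0123 (w3210 h), wp_r ez3210 y3211_3⟩)

theorem qL2221_0 (h : Q A a b c d) : List.Forall₂ (EntOk a (symOf (ps2221 a b c d)))
    (ps2211 b c a d) pL2221_0 :=
  (.cons (ent_i rfl rfl (ops_S (sS2111_2 h.p2103) (ops_L (lL2211_1 h.p2013) (ops_S (sS2211_1 h.p2013) (ops_nil _)))) ez2211 y2221_1) (.cons (ent_i rfl rfl (ops_S (sS2111_2 h.p1203) (ops_L (lL2211_1 h.p1023) (ops_S (sS2211_1 h.p1023) (ops_nil _)))) ez2211 y2221_2) (.cons (ent_i rfl rfl (ops_L (lL2211_3 h.p1230) (ops_S (sS2211_3 h.p1230) (ops_nil _))) ez2211 y2221_0) (.cons (ent_i rfl rfl (ops_L (lL2220_2 h.p1203) (ops_S (sS2220_1 h.p1203) (ops_S (sS2220_2 h.p2103) (ops_S (sS2220_1 h) (ops_S (sS2220_1 h.p1023)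 (ops_nil _)))))) ez2220 y2221_3) .nil))))
theorem qL2221_1 (h : Q A a b c d) : List.Forall₂ (EntOk b (symOf (ps2221 a b c d)))
    (ps2211 a c b d) pL2221_1 :=
  (.cons (ent_i rfl rfl (ops_S (sS2111_2 h.p2013) (ops_L (lL2211_1 h.p2103) (ops_S (sS2211_1 h.p2103) (ops_nil _)))) ez2211 y2221_0) (.cons (ent_i rfl rfl (ops_S (sS2111_2 h.p0213) (ops_L (lL2211_1 h) (ops_nil _))) ez2211 y2221_2) (.cons (ent_i rfl rfl (ops_L (lL2211_3 h.p0231) (ops_S (sS2211_3 h.p0231) (ops_nil _))) ez2211 y2221_1) (.cons (ent_i rfl rfl (ops_L (lL2220_2 h.p0213) (ops_S (sS2220_1 h.p0213) (ops_S (sS2220_2 h.p2013) (ops_S (sS2220_1 h.p1023) (ops_nil _))))) ez2220 y2221_3) .nil))))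
theorem qL2221_2 (h : Q A a b c d) : List.Forall₂ (EntOk c (symOf (ps2221 a b c d)))
    (ps2211 a b c d) pL2221_2 :=
  (.cons (ent_i rfl rfl (ops_S (sS2111_2 h.p1023) (ops_L (lL2211_1 h.p1203) (ops_nil _))) ez2211 y2221_0) (.cons (ent_i rfl rfl (ops_S (sS2111_2 h) (ops_L (lL2211_1 h.p0213) (ops_nil _))) ez2211 y2221_1) (.cons (ent_i rfl rfl (ops_L (lL2211_3 h.p0132) (ops_S (sS2211_3 h.p0132) (ops_nil _))) ez2211 y2221_2) (.cons (ent_i rfl rfl (ops_L (lL2220_2 h) (ops_nil _)) ez2220 y2221_3) .nil))))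
theorem qL2221_3 (h : Q A a b c d) : List.Forall₂ (EntOk d (symOf (ps2221 a b c d)))
    (ps2220 a b c d) pL2221_3 :=
  (.cons (ent_i rfl rfl (ops_L (lL2211_3 h.p1203) (ops_nil _)) ez2211 y2221_0) (.cons (ent_i rfl rfl (ops_L (lL2211_3 h.p0213) (ops_nil _)) ez2211 y2221_1) (.cons (ent_i rfl rfl (ops_L (lL2211_3 h) (ops_nil _)) ez2211 y2221_2) .nil)))
theorem gen2221 (h : Q A a b c d) : ∀ m ∈ gList G2221, vec (symOf (ps2221 a b c d)) m = 0 :=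
  gChk_spec (sem := SEM a b c d) (c := 30023) h.h (TT7 h) (init_val (a := a) (b := b) (c := c) (d := d) _ rfl) (ltr_mem h) (by norm_num) (by norm_num) kG2221 kH2221
theorem nf2221 (h : Q A a b c d) : ∀ r, vec (symOf (ps2221 a b c d)) r = vec (e2221 a b c d) (appM N2221 r) :=
  block_sound2 h.h.two (ps := ps2221 a b c d) (ns := 192) rfl (raw5 (srcRow_spec h.h.two (qL2221_0 h) (nf2211 h.p1203) wf2211) (srcRow_spec h.h.two (qL2221_1 h) (nf2211 h.p0213) wf2211) (srcRow_spec h.h.two (qL2221_2 h) (nf2211 h) wf2211) (srcRow_spec h.h.two (qL2221_3 h) (nf2220 h) wf2220) (nthL_spec (gen2221 h))) kb2221 co2221 u2221 el2221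
theorem ez2221 : ∀ k, 138 ≤ k → e2221 a b c d k = 0 := eOf_ge _ (wfT_D wf2221).2
theorem qS2221_1 (h : Q A a b c d) : List.Forall₂ (EntOk 1 (symOf (ps2221 a b c d)))
    (ps2221 b a c d) pS2221_1 :=
  (.cons (ent_i rfl rfl (ops_nil _) ez2211 y2221_1) (.cons (ent_i rfl rfl (ops_nil _) ez2211 y2221_0) (.cons (ent_i rfl rfl (ops_S (sS2211_1 h.p1023) (ops_nil _)) ez2211 y2221_2) (.cons (ent_i rfl rfl (ops_S (sS2220_1 h.p1023) (ops_nil _)) ez2220 y2221_3) .nil))))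
theorem sS2221_1 (h : Q A a b c d) : ∀ v, vec (e2221 a b c d) v = vec (e2221 b a c d) (appM S2221_1 v) :=
  fun v => (one_mul _).symm.trans (table_sound2 h.h.two (qS2221_1 h.p1023) (nf2221 h.p1023) kw2221_1 kS2221_1 v)
theorem qS2221_2 (h : Q A a b c d) : List.Forall₂ (EntOk 1 (symOf (ps2221 a b c d)))
    (ps2221 c b a d) pS2221_2 :=
  (.cons (ent_i rfl rfl (ops_S (sS2211_1 h.p1023) (ops_nil _)) ez2211 y2221_2) (.cons (ent_i rfl rfl (ops_S (sS2211_1 h.p2013) (ops_nil _)) ez2211 y2221_1) (.cons (ent_i rfl rfl (ops_S (sS2211_1 h.p2103) (ops_nil _)) ez2211 y2221_0) (.cons (ent_i rfl rfl (ops_S (sS2220_2 h.p2103) (ops_nil _)) ez2220 y2221_3) .nil))))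
theorem sS2221_2 (h : Q A a b c d) : ∀ v, vec (e2221 a b c d) v = vec (e2221 c b a d) (appM S2221_2 v) :=
  fun v => (one_mul _).symm.trans (table_sound2 h.h.two (qS2221_2 h.p2103) (nf2221 h.p2103) kw2221_2 kS2221_2 v)
theorem lL2221_2 (h : Q A a b c d) : ∀ v, c * vec (e2211 a b c d) v = vec (e2221 a b c d) (appM L2221_2 v) :=
  table_sound2 h.h.two (qL2221_2 h) (nf2221 h) kv2221_2 kL2221_2
theorem lL2221_3 (h : Q A a b c d) : ∀ v, d * vec (e2220 a b c d) v = vec (e2221 a b c d) (appM L2221_3 v) :=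
  table_sound2 h.h.two (qL2221_3 h) (nf2221 h) kv2221_3 kL2221_3
theorem rR2221_2 (h : Q A a b c d) : ∀ v, vec (e2211 a b c d) v * c = vec (e2221 a b c d) (appM N2221 (Nat.shiftLeft (Nat.mod v 0x1000000000000000) 120)) :=
  r_fact (n := 60) rfl ez2211 y2221_2 (nf2221 h)
theorem rR2221_3 (h : Q A a b c d) : ∀ v, vec (e2220 a b c d) v * d = vec (e2221 a b c d) (appM N2221 (Nat.shiftLeft (Nat.mod v 4096) 180)) :=
  r_fact (n := 12) rfl ez2220 y2221_3 (nf2221 h)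
theorem w2221 (h : Q A a b c d) : WP ![2, 2, 2, 1] ![a, b, c, d] (e2221 a b c d) :=
  wp_step4 (nf2221 h) (by decide) (Or.inr ⟨_, wp1203 (w2211 h.p1203), wp_r ez2211 y2221_0⟩) (Or.inr ⟨_, wp0213 (w2211 h.p0213), wp_r ez2211 y2221_1⟩) (Or.inr ⟨_, wp0123 (w2211 h), wp_r ez2211 y2221_2⟩) (Or.inr ⟨_, wp0123 (w2220 h), wp_r ez2220 y2221_3⟩)

theorem tl0132 (h : Q A a b c d) : ATok (SEM a b c d) (ltr a b c d) al0132 :=
  at_l rfl (ae_ok (run_R (rR3211_3 h.p2310) (run_S (sS3211_3 h.p2310) (run_nil _))) rfl rfl rfl) (ae_ok (run_R (rR3220_2 h.p2310) (run_S (sS3220_2 h.p2310) (run_nil _))) rfl rfl rfl) ae_no ae_no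
theorem tl0222 (h : Q A a b c d) : ATok (SEM a b c d) (ltr a b c d) al0222 :=
  at_l rfl (ae_ok (run_R (rR2221_3 h.p1230) (run_nil _)) rfl rfl rfl) (ae_ok (run_R (rR3220_0 h.p1230) (run_nil _)) rfl rfl rfl) (ae_ok (run_S (sS2220_1 h.p1230) (run_R (rR3220_0 h.p2130) (run_nil _))) rfl rfl rfl) ae_no
theorem tl0231 (h : Q A a b c d) : ATok (SEM a b c d) (ltr a b c d) al0231 :=
  at_l rfl (ae_ok (run_R (rR3211_3 h.p2130) (run_S (sS3211_3 h.p2130) (run_nil _))) rfl rfl rfl) (ae_ok (run_Z (run_R (rR3310_1 h.p2130) (run_nil _)) (fun k => ez3310 k (Nat.zero_le k))) rfl rfl rfl) ae_no (ae_ok (run_R (rR3220_2 h.p2130) (run_nil _)) rfl rfl rfl)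
theorem tl0312 (h : Q A a b c d) : ATok (SEM a b c d) (ltr a b c d) al0312 :=
  at_l rfl (ae_ok (run_R (rR3211_3 h.p1320) (run_S (sS3211_3 h.p1320) (run_nil _))) rfl rfl rfl) ae_no (ae_ok (run_R (rR3220_2 h.p1320) (run_S (sS3220_2 h.p1320) (run_nil _))) rfl rfl rfl) ae_no
theorem tl0321 (h : Q A a b c d) : ATok (SEM a b c d) (ltr a b c d) al0321 :=
  at_l rfl (ae_ok (run_R (rR3211_3 h.p1230) (run_S (sS3211_3 h.p1230) (run_nil _))) rfl rfl rfl) ae_no (ae_ok (run_Z (run_R (rR3310_1 h.p1230) (run_nil _)) (fun k => ez3310 k (Nat.zero_le k))) rfl rfl rfl) (ae_ok (run_R (rR3220_2 h.p1230) (run_nil _)) rfl rfl rfl)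
theorem tl1032 (h : Q A a b c d) : ATok (SEM a b c d) (ltr a b c d) al1032 :=
  at_l rfl (ae_ok (run_R (rR3220_2 h.p2301) (run_S (sS3220_2 h.p2301) (run_nil _))) rfl rfl rfl) (ae_ok (run_R (rR3211_3 h.p2301) (run_nil _)) rfl rfl rfl) ae_no ae_no
theorem tl1122 (h : Q A a b c d) : ATok (SEM a b c d) (ltr a b c d) al1122 :=
  at_l rfl (ae_ok (run_R (rR2221_2 h.p2301) (run_S (sS2221_1 h.p2301) (run_S (sS2221_2 h.p3201) (run_S (sS2221_1 h.p0231) (run_S (sS2221_1 h.p2031) (run_nil _)))))) rfl rfl rfl) (ae_ok (run_S (sS2211_3 h.p2301) (run_R (rR2221_2 h.p2310) (run_S (sS2221_1 h.p2310) (run_S (sS2221_2 h.p3210) (run_S (sS2221_1 h.p1230) (run_S (sS2221_1 h.p2130) (run_nil _))))))) rfl rfl rfl) (ae_ok (run_R (rR3211_0 h.p2301) (run_nil _)) rfl rfl rfl) ae_no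
theorem tl1131 (h : Q A a b c d) : ATok (SEM a b c d) (ltr a b c d) al1131 :=
  at_l rfl (ae_ok (run_R (rR3211_1 h.p2013) (run_nil _)) rfl rfl rfl) (ae_ok (run_S (sS3111_2 h.p2013) (run_R (rR3211_1 h.p2103) (run_nil _))) rfl rfl rfl) ae_no (ae_ok (run_S (sS3111_3 h.p2013) (run_R (rR3211_1 h.p2310) (run_S (sS3211_3 h.p2310) (run_nil _)))) rfl rfl rfl)
theorem tl1212 (h : Q A a b c d) : ATok (SEM a b c d) (ltr a b c d) al1212 :=
  at_l rfl (ae_ok (run_R (rR2221_2 h.p1302) (run_S (sS2221_1 h.p1302) (run_S (sS2221_2 h.p3102) (run_S (sS2221_1 h.p0132) (run_S (sS2221_1 h.p1032) (run_nil _)))))) rfl rfl rfl) (ae_ok (run_R (rR3211_0 h.p1302) (run_nil _)) rfl rfl rfl) (ae_ok (run_S (sS2211_3 h.p1302) (run_R (rR2221_2 h.p1320) (run_S (sS2221_1 h.p1320) (run_S (sS2221_2 h.p3120) (run_S (sS2221_1 h.p2130) (run_nil _)))))) rfl rfl rfl) ae_no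
theorem tl1221 (h : Q A a b c d) : ATok (SEM a b c d) (ltr a b c d) al1221 :=
  at_l rfl (ae_ok (run_R (rR2221_2 h.p1203) (run_S (sS2221_1 h.p1203) (run_S (sS2221_2 h.p2103) (run_S (sS2221_1 h) (run_S (sS2221_1 h.p1023) (run_nil _)))))) rfl rfl rfl) (ae_ok (run_R (rR3211_0 h.p1203) (run_nil _)) rfl rfl rfl) (ae_ok (run_S (sS2211_1 h.p1203) (run_R (rR3211_0 h.p2103) (run_nil _))) rfl rfl rfl) (ae_ok (run_S (sS2211_3 h.p1203) (run_R (rR2221_2 h.p1230) (run_nil _))) rfl rfl rfl)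
theorem tl1230 (h : Q A a b c d) : ATok (SEM a b c d) (ltr a b c d) al1230 :=
  at_l rfl (ae_ok (run_R (rR3220_2 h.p2103) (run_S (sS3220_2 h.p2103) (run_nil _))) rfl rfl rfl) (ae_ok (run_Z (run_R (rR3310_1 h.p2103) (run_nil _)) (fun k => ez3310 k (Nat.zero_le k))) rfl rfl rfl) ae_no (ae_ok (run_R (rR3211_3 h.p2103) (run_nil _)) rfl rfl rfl)
theorem tl1302 (h : Q A a b c d) : ATok (SEM a b c d) (ltr a b c d) al1302 :=
  at_l rfl (ae_ok (run_R (rR3220_2 h.p1302) (run_S (sS3220_2 h.p1302) (run_nil _))) rfl rfl rfl) ae_no (ae_ok (run_R (rR3211_3 h.p1302) (run_nil _)) rfl rfl rfl) ae_no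
theorem tl1311 (h : Q A a b c d) : ATok (SEM a b c d) (ltr a b c d) al1311 :=
  at_l rfl (ae_ok (run_R (rR3211_1 h.p1023) (run_nil _)) rfl rfl rfl) ae_no (ae_ok (run_S (sS3111_2 h.p1023) (run_R (rR3211_1 h.p1203) (run_nil _))) rfl rfl rfl) (ae_ok (run_S (sS3111_3 h.p1023) (run_R (rR3211_1 h.p1320) (run_S (sS3211_3 h.p1320) (run_nil _)))) rfl rfl rfl)
theorem tl1320 (h : Q A a b c d) : ATok (SEM a b c d) (ltr a b c d) al1320 :=
  at_l rfl (ae_ok (run_R (rR3220_2 h.p1203) (run_S (sS3220_2 h.p1203) (run_nil _))) rfl rfl rfl) ae_no (ae_ok (run_Z (run_R (rR3310_1 h.p1203) (run_nil _)) (fun k => ez3310 k (Nat.zero_le k))) rfl rfl rfl) (ae_ok (run_R (rR3211_3 h.p1203) (run_nil _)) rfl rfl rfl)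
theorem tl2022 (h : Q A a b c d) : ATok (SEM a b c d) (ltr a b c d) al2022 :=
  at_l rfl (ae_ok (run_R (rR3220_0 h.p0231) (run_nil _)) rfl rfl rfl) (ae_ok (run_R (rR2221_3 h.p0231) (run_nil _)) rfl rfl rfl) (ae_ok (run_S (sS2220_1 h.p0231) (run_R (rR3220_0 h.p2031) (run_nil _))) rfl rfl rfl) ae_no
theorem tl2031 (h : Q A a b c d) : ATok (SEM a b c d) (ltr a b c d) al2031 :=
  at_l rfl (ae_ok (run_Z (run_R (rR3310_1 h.p2031) (run_nil _)) (fun k => ez3310 k (Nat.zero_le k))) rfl rfl rfl) (ae_ok (run_R (rR3211_3 h.p2031) (run_S (sS3211_3 h.p2031) (run_nil _))) rfl rfl rfl) ae_no (ae_ok (run_R (rR3220_2 h.p2031) (run_nil _)) rfl rfl rfl)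
theorem tl2112 (h : Q A a b c d) : ATok (SEM a b c d) (ltr a b c d) al2112 :=
  at_l rfl (ae_ok (run_R (rR3211_0 h.p0312) (run_nil _)) rfl rfl rfl) (ae_ok (run_R (rR2221_2 h.p0312) (run_S (sS2221_1 h.p0312) (run_S (sS2221_2 h.p3012) (run_S (sS2221_1 h.p1032) (run_nil _))))) rfl rfl rfl) (ae_ok (run_S (sS2211_3 h.p0312) (run_R (rR2221_2 h.p0321) (run_S (sS2221_1 h.p0321) (run_S (sS2221_2 h.p3021) (run_S (sS2221_1 h.p2031) (run_nil _)))))) rfl rfl rfl) ae_no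
theorem tl2121 (h : Q A a b c d) : ATok (SEM a b c d) (ltr a b c d) al2121 :=
  at_l rfl (ae_ok (run_R (rR3211_0 h.p0213) (run_nil _)) rfl rfl rfl) (ae_ok (run_R (rR2221_2 h.p0213) (run_S (sS2221_1 h.p0213) (run_S (sS2221_2 h.p2013) (run_S (sS2221_1 h.p1023) (run_nil _))))) rfl rfl rfl) (ae_ok (run_S (sS2211_1 h.p0213) (run_R (rR3211_0 h.p2013) (run_nil _))) rfl rfl rfl) (ae_ok (run_S (sS2211_3 h.p0213) (run_R (rR2221_2 h.p0231) (run_nil _))) rfl rfl rfl)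
theorem tl2130 (h : Q A a b c d) : ATok (SEM a b c d) (ltr a b c d) al2130 :=
  at_l rfl (ae_ok (run_Z (run_R (rR3310_1 h.p2013) (run_nil _)) (fun k => ez3310 k (Nat.zero_le k))) rfl rfl rfl) (ae_ok (run_R (rR3220_2 h.p2013) (run_nil _)) rfl rfl rfl) ae_no (ae_ok (run_R (rR3211_3 h.p2013) (run_nil _)) rfl rfl rfl)
theorem tl2202 (h : Q A a b c d) : ATok (SEM a b c d) (ltr a b c d) al2202 :=
  at_l rfl (ae_ok (run_R (rR3220_0 h.p0132) (run_nil _)) rfl rfl rfl) (ae_ok (run_S (sS2220_1 h.p0132) (run_R (rR3220_0 h.p1032) (run_nil _))) rfl rfl rfl) (ae_ok (run_R (rR2221_3 h.p0132) (run_nil _)) rfl rfl rfl) ae_no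
theorem tl2211 (h : Q A a b c d) : ATok (SEM a b c d) (ltr a b c d) al2211 :=
  at_l rfl (ae_ok (run_R (rR3211_0 h) (run_nil _)) rfl rfl rfl) (ae_ok (run_S (sS2211_1 h) (run_R (rR3211_0 h.p1023) (run_nil _))) rfl rfl rfl) (ae_ok (run_R (rR2221_2 h) (run_nil _)) rfl rfl rfl) (ae_ok (run_S (sS2211_3 h) (run_R (rR2221_2 h.p0132) (run_nil _))) rfl rfl rfl)
theorem tl2220 (h : Q A a b c d) : ATok (SEM a b c d) (ltr a b c d) al2220 :=
  at_l rfl (ae_ok (run_R (rR3220_0 h) (run_nil _)) rfl rfl rfl) (ae_ok (run_S (sS2220_1 h) (run_R (rR3220_0 h.p1023) (run_nil _))) rfl rfl rfl) (ae_ok (run_S (sS2220_2 h) (run_R (rR3220_0 h.p2103) (run_S (sS3220_2 h.p2103) (run_nil _)))) rfl rfl rfl) (ae_ok (run_R (rR2221_3 h) (run_nil _)) rfl rfl rfl)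
theorem tl2301 (h : Q A a b c d) : ATok (SEM a b c d) (ltr a b c d) al2301 :=
  at_l rfl (ae_ok (run_Z (run_R (rR3310_1 h.p1032) (run_nil _)) (fun k => ez3310 k (Nat.zero_le k))) rfl rfl rfl) ae_no (ae_ok (run_R (rR3211_3 h.p1032) (run_S (sS3211_3 h.p1032) (run_nil _))) rfl rfl rfl) (ae_ok (run_R (rR3220_2 h.p1032) (run_nil _)) rfl rfl rfl)
theorem tl2310 (h : Q A a b c d) : ATok (SEM a b c d) (ltr a b c d) al2310 :=
  at_l rfl (ae_ok (run_Z (run_R (rR3310_1 h.p1023) (run_nil _)) (fun k => ez3310 k (Nat.zero_le k))) rfl rfl rfl) ae_no (ae_ok (run_R (rR3220_2 h.p1023) (run_nil _)) rfl rfl rfl) (ae_ok (run_R (rR3211_3 h.p1023) (run_nil _)) rfl rfl rfl)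
theorem tl3012 (h : Q A a b c d) : ATok (SEM a b c d) (ltr a b c d) al3012 :=
  at_l rfl (ae_ok (run_R (rR4210_0 h.p0321) (run_nil _)) rfl rfl rfl) (ae_ok (run_R (rR3211_3 h.p0321) (run_S (sS3211_3 h.p0321) (run_nil _))) rfl rfl rfl) (ae_ok (run_R (rR3220_2 h.p0321) (run_S (sS3220_2 h.p0321) (run_nil _))) rfl rfl rfl) ae_no
theorem tl3021 (h : Q A a b c d) : ATok (SEM a b c d) (ltr a b c d) al3021 :=
  at_l rfl (ae_ok (run_R (rR4210_0 h.p0231) (run_nil _)) rfl rfl rfl) (ae_ok (run_R (rR3211_3 h.p0231) (run_S (sS3211_3 h.p0231) (run_nil _))) rfl rfl rfl) (ae_ok (run_Z (run_R (rR3310_1 h.p0231) (run_nil _)) (fun k => ez3310 k (Nat.zero_le k))) rfl rfl rfl) (ae_ok (run_R (rR3220_2 h.p0231) (run_nil _)) rfl rfl rfl)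
theorem tl3102 (h : Q A a b c d) : ATok (SEM a b c d) (ltr a b c d) al3102 :=
  at_l rfl (ae_ok (run_R (rR4210_0 h.p0312) (run_nil _)) rfl rfl rfl) (ae_ok (run_R (rR3220_2 h.p0312) (run_S (sS3220_2 h.p0312) (run_nil _))) rfl rfl rfl) (ae_ok (run_R (rR3211_3 h.p0312) (run_nil _)) rfl rfl rfl) ae_no
theorem tl3111 (h : Q A a b c d) : ATok (SEM a b c d) (ltr a b c d) al3111 :=
  at_l rfl (ae_ok (run_R (rR4111_0 h) (run_nil _)) rfl rfl rfl) (ae_ok (run_R (rR3211_1 h) (run_nil _)) rfl rfl rfl) (ae_ok (run_S (sS3111_2 h) (run_R (rR3211_1 h.p0213) (run_nil _))) rfl rfl rfl) (ae_ok (run_S (sS3111_3 h) (run_R (rR3211_1 h.p0321) (run_S (sS3211_3 h.p0321) (run_nil _)))) rfl rfl rfl)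
theorem tl3120 (h : Q A a b c d) : ATok (SEM a b c d) (ltr a b c d) al3120 :=
  at_l rfl (ae_ok (run_R (rR4210_0 h.p0213) (run_nil _)) rfl rfl rfl) (ae_ok (run_R (rR3220_2 h.p0213) (run_S (sS3220_2 h.p0213) (run_nil _))) rfl rfl rfl) (ae_ok (run_Z (run_R (rR3310_1 h.p0213) (run_nil _)) (fun k => ez3310 k (Nat.zero_le k))) rfl rfl rfl) (ae_ok (run_R (rR3211_3 h.p0213) (run_nil _)) rfl rfl rfl)
theorem tl3201 (h : Q A a b c d) : ATok (SEM a b c d) (ltr a b c d) al3201 :=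
  at_l rfl (ae_ok (run_R (rR4210_0 h.p0132) (run_nil _)) rfl rfl rfl) (ae_ok (run_Z (run_R (rR3310_1 h.p0132) (run_nil _)) (fun k => ez3310 k (Nat.zero_le k))) rfl rfl rfl) (ae_ok (run_R (rR3211_3 h.p0132) (run_S (sS3211_3 h.p0132) (run_nil _))) rfl rfl rfl) (ae_ok (run_R (rR3220_2 h.p0132) (run_nil _)) rfl rfl rfl)
theorem tl3210 (h : Q A a b c d) : ATok (SEM a b c d) (ltr a b c d) al3210 :=
  at_l rfl (ae_ok (run_R (rR4210_0 h) (run_nil _)) rfl rfl rfl) (ae_ok (run_Z (run_R (rR3310_1 h) (run_nil _)) (fun k => ez3310 k (Nat.zero_le k))) rfl rfl rfl) (ae_ok (run_R (rR3220_2 h) (run_nil _)) rfl rfl rfl) (ae_ok (run_R (rR3211_3 h) (run_nil _)) rfl rfl rfl)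
theorem TV6 (h : Q A a b c d) : ATok (SEM a b c d) (ltr a b c d) AV6 :=
  ⟨⟨⟨⟨tl0132 h, ⟨tl0222 h, tl0231 h⟩⟩, ⟨⟨tl0312 h, tl0321 h⟩, ⟨tl1032 h, tl1122 h⟩⟩⟩, ⟨⟨⟨tl1131 h, tl1212 h⟩, ⟨tl1221 h, tl1230 h⟩⟩, ⟨⟨tl1302 h, tl1311 h⟩, ⟨tl1320 h, tl2022 h⟩⟩⟩⟩, ⟨⟨⟨⟨tl2031 h, tl2112 h⟩, ⟨tl2121 h, tl2130 h⟩⟩, ⟨⟨tl2202 h, tl2211 h⟩, ⟨tl2220 h, tl2301 h⟩⟩⟩, ⟨⟨⟨tl2310 h, tl3012 h⟩, ⟨tl3021 h, tl3102 h⟩⟩, ⟨⟨tl3111 h, tl3120 h⟩, ⟨tl3201 h, tl3210 h⟩⟩⟩⟩⟩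
theorem TW7 (h : Q A a b c d) : ATok (SEM a b c d) (ltr a b c d) AW7 := ⟨TW6 h, TV6 h⟩
theorem z4400 (h : Q A a b c d) : WP ![4, 4, 0, 0] ![a, b, c, d] (zfam : ℕ → K) :=
  wp_step4 (F := fun r => r) (fun _ => rfl) (by decide) (Or.inr ⟨_, wp1023 (z4300 h.p1023), wp_z (fun _ _ => rfl)⟩) (Or.inr ⟨_, wp0123 (z4300 h), wp_z (fun _ _ => rfl)⟩) (Or.inl rfl) (Or.inl rfl)
theorem z5300 (h : Q A a b c d) : WP ![5, 3, 0, 0] ![a, b, c, d] (zfam : ℕ → K) :=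
  wp_step4 (F := fun r => r) (fun _ => rfl) (by decide) (Or.inr ⟨_, wp0123 (z4300 h), wp_z (fun _ _ => rfl)⟩) (Or.inr ⟨_, wp0123 (z5200 h), wp_z (fun _ _ => rfl)⟩) (Or.inl rfl) (Or.inl rfl)
theorem z6110 (h : Q A a b c d) : WP ![6, 1, 1, 0] ![a, b, c, d] (zfam : ℕ → K) :=
  wp_step4 (F := fun r => r) (fun _ => rfl) (by decide) (Or.inr ⟨_, wp0123 (z5110 h), wp_z (fun _ _ => rfl)⟩) (Or.inr ⟨_, wp0213 (z6100 h.p0213), wp_z (fun _ _ => rfl)⟩) (Or.inr ⟨_, wp0123 (z6100 h), wp_z (fun _ _ => rfl)⟩) (Or.inl rfl)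
theorem z6200 (h : Q A a b c d) : WP ![6, 2, 0, 0] ![a, b, c, d] (zfam : ℕ → K) :=
  wp_step4 (F := fun r => r) (fun _ => rfl) (by decide) (Or.inr ⟨_, wp0123 (z5200 h), wp_z (fun _ _ => rfl)⟩) (Or.inr ⟨_, wp0123 (z6100 h), wp_z (fun _ _ => rfl)⟩) (Or.inl rfl) (Or.inl rfl)
theorem z7100 (h : Q A a b c d) : WP ![7, 1, 0, 0] ![a, b, c, d] (zfam : ℕ → K) :=
  wp_step4 (F := fun r => r) (fun _ => rfl) (by decide) (Or.inr ⟨_, wp0123 (z6100 h), wp_z (fun _ _ => rfl)⟩) (Or.inr ⟨_, wp0123 (z7000 h), wp_z (fun _ _ => rfl)⟩) (Or.inl rfl) (Or.inl rfl)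
theorem z8000 (h : Q A a b c d) : WP ![8, 0, 0, 0] ![a, b, c, d] (zfam : ℕ → K) :=
  wp_step4 (F := fun r => r) (fun _ => rfl) (by decide) (Or.inr ⟨_, wp0123 (z7000 h), wp_z (fun _ _ => rfl)⟩) (Or.inl rfl) (Or.inl rfl) (Or.inl rfl)
theorem y5210_0 : ∀ k, k < 1 → symOf (ps5210 a b c d) (k + 0) = e4210 a b c d k * a :=
  sy_hd
theorem y5111_0 : ∀ k, k < 5 → symOf (ps5111 a b c d) (k + 0) = e4111 a b c d k * a :=
  sy_hd
theorem y4310_1 : ∀ k, k < 1 → symOf (ps4310 a b c d) (k + 0) = e4210 a b c d k * b :=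
  sy_tl (o := 0) (o' := 0) (sy_hd) rfl
theorem y4220_0 : ∀ k, k < 8 → symOf (ps4220 a b c d) (k + 0) = e3220 a b c d k * a :=
  sy_hd
theorem y4220_1 : ∀ k, k < 1 → symOf (ps4220 a b c d) (k + 8) = e4210 a c b d k * b :=
  sy_tl (o := 0) (o' := 8) (sy_hd) rfl
theorem y4220_2 : ∀ k, k < 1 → symOf (ps4220 a b c d) (k + 9) = e4210 a b c d k * c :=
  sy_tl (o := 1) (o' := 9) (sy_tl (o := 0) (o' := 1) (sy_hd) rfl) rfl
theorem y4211_0 : ∀ k, k < 50 → symOf (ps4211 a b c d) (k + 0) = e3211 a b c d k * a :=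
  sy_hd
theorem y4211_1 : ∀ k, k < 5 → symOf (ps4211 a b c d) (k + 50) = e4111 a b c d k * b :=
  sy_tl (o := 0) (o' := 50) (sy_hd) rfl
theorem y4211_2 : ∀ k, k < 1 → symOf (ps4211 a b c d) (k + 55) = e4210 a b d c k * c :=
  sy_tl (o := 5) (o' := 55) (sy_tl (o := 0) (o' := 5) (sy_hd) rfl) rfl
theorem y4211_3 : ∀ k, k < 1 → symOf (ps4211 a b c d) (k + 56) = e4210 a b c d k * d :=
  sy_tl (o := 6) (o' := 56) (sy_tl (o := 1) (o' := 6) (sy_tl (o := 0) (o' := 1) (sy_hd) rfl) rfl) rfl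
theorem y3320_0 : ∀ k, k < 8 → symOf (ps3320 a b c d) (k + 0) = e3220 b a c d k * a :=
  sy_hd
theorem y3320_1 : ∀ k, k < 8 → symOf (ps3320 a b c d) (k + 8) = e3220 a b c d k * b :=
  sy_tl (o := 0) (o' := 8) (sy_hd) rfl
theorem y3311_0 : ∀ k, k < 50 → symOf (ps3311 a b c d) (k + 0) = e3211 b a c d k * a :=
  sy_hd
theorem y3311_1 : ∀ k, k < 50 → symOf (ps3311 a b c d) (k + 50) = e3211 a b c d k * b :=
  sy_tl (o := 0) (o' := 50) (sy_hd) rfl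
theorem y3221_0 : ∀ k, k < 138 → symOf (ps3221 a b c d) (k + 0) = e2221 a b c d k * a :=
  sy_hd
theorem y3221_1 : ∀ k, k < 50 → symOf (ps3221 a b c d) (k + 138) = e3211 a c b d k * b :=
  sy_tl (o := 0) (o' := 138) (sy_hd) rfl
theorem y3221_2 : ∀ k, k < 50 → symOf (ps3221 a b c d) (k + 188) = e3211 a b c d k * c :=
  sy_tl (o := 50) (o' := 188) (sy_tl (o := 0) (o' := 50) (sy_hd) rfl) rfl
theorem y3221_3 : ∀ k, k < 8 → symOf (ps3221 a b c d) (k + 238) = e3220 a b c d k * d :=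
  sy_tl (o := 100) (o' := 238) (sy_tl (o := 50) (o' := 100) (sy_tl (o := 0) (o' := 50) (sy_hd) rfl) rfl) rfl
theorem y2222_0 : ∀ k, k < 138 → symOf (ps2222 a b c d) (k + 0) = e2221 b c d a k * a :=
  sy_hd
theorem y2222_1 : ∀ k, k < 138 → symOf (ps2222 a b c d) (k + 138) = e2221 a c d b k * b :=
  sy_tl (o := 0) (o' := 138) (sy_hd) rfl
theorem y2222_2 : ∀ k, k < 138 → symOf (ps2222 a b c d) (k + 276) = e2221 a b d c k * c :=
  sy_tl (o := 138) (o' := 276) (sy_tl (o := 0) (o' := 138) (sy_hd) rfl) rfl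
theorem y2222_3 : ∀ k, k < 138 → symOf (ps2222 a b c d) (k + 414) = e2221 a b c d k * d :=
  sy_tl (o := 276) (o' := 414) (sy_tl (o := 138) (o' := 276) (sy_tl (o := 0) (o' := 138) (sy_hd) rfl) rfl) rfl
theorem tf8_1222 (h : Q A a b c d) : ATok (SEM a b c d) (ltr a b c d) af8_1222 :=
  at_l rfl (ae_ok (run_F (n := 138) rfl ez2221 y2222_0) rfl rfl rfl) ae_no ae_no ae_no
theorem tf8_2122 (h : Q A a b c d) : ATok (SEM a b c d) (ltr a b c d) af8_2122 :=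
  at_l rfl ae_no (ae_ok (run_F (n := 138) rfl ez2221 y2222_1) rfl rfl rfl) ae_no ae_no
theorem tf8_2212 (h : Q A a b c d) : ATok (SEM a b c d) (ltr a b c d) af8_2212 :=
  at_l rfl ae_no ae_no (ae_ok (run_F (n := 138) rfl ez2221 y2222_2) rfl rfl rfl) ae_no
theorem tf8_2221 (h : Q A a b c d) : ATok (SEM a b c d) (ltr a b c d) af8_2221 :=
  at_l rfl (ae_ok (run_F (n := 138) rfl ez2221 y3221_0) rfl rfl rfl) ae_no ae_no (ae_ok (run_F (n := 138) rfl ez2221 y2222_3) rfl rfl rfl)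
theorem tf8_2311 (h : Q A a b c d) : ATok (SEM a b c d) (ltr a b c d) af8_2311 :=
  at_l rfl (ae_ok (run_F (n := 50) rfl ez3211 y3311_0) rfl rfl rfl) ae_no ae_no ae_no
theorem tf8_3121 (h : Q A a b c d) : ATok (SEM a b c d) (ltr a b c d) af8_3121 :=
  at_l rfl ae_no (ae_ok (run_F (n := 50) rfl ez3211 y3221_1) rfl rfl rfl) ae_no ae_no
theorem tf8_3211 (h : Q A a b c d) : ATok (SEM a b c d) (ltr a b c d) af8_3211 :=
  at_l rfl (ae_ok (run_F (n := 50) rfl ez3211 y4211_0) rfl rfl rfl) (ae_ok (run_F (n := 50) rfl ez3211 y3311_1) rfl rfl rfl) (ae_ok (run_F (n := 50) rfl ez3211 y3221_2) rfl rfl rfl) ae_no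
theorem tf8_3220 (h : Q A a b c d) : ATok (SEM a b c d) (ltr a b c d) af8_3220 :=
  at_l rfl (ae_ok (run_F (n := 8) rfl ez3220 y4220_0) rfl rfl rfl) ae_no ae_no (ae_ok (run_F (n := 8) rfl ez3220 y3221_3) rfl rfl rfl)
theorem tf8_4111 (h : Q A a b c d) : ATok (SEM a b c d) (ltr a b c d) af8_4111 :=
  at_l rfl ae_no (ae_ok (run_F (n := 5) rfl ez4111 y4211_1) rfl rfl rfl) ae_no ae_no
theorem tf8_4120 (h : Q A a b c d) : ATok (SEM a b c d) (ltr a b c d) af8_4120 :=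
  at_l rfl ae_no (ae_ok (run_F (n := 1) rfl ez4210 y4220_1) rfl rfl rfl) ae_no ae_no
theorem tf8_4201 (h : Q A a b c d) : ATok (SEM a b c d) (ltr a b c d) af8_4201 :=
  at_l rfl ae_no ae_no (ae_ok (run_F (n := 1) rfl ez4210 y4211_2) rfl rfl rfl) ae_no
theorem tf8_4210 (h : Q A a b c d) : ATok (SEM a b c d) (ltr a b c d) af8_4210 :=
  at_l rfl ae_no ae_no (ae_ok (run_F (n := 1) rfl ez4210 y4220_2) rfl rfl rfl) (ae_ok (run_F (n := 1) rfl ez4210 y4211_3) rfl rfl rfl)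
theorem TF8 (h : Q A a b c d) : ATok (SEM a b c d) (ltr a b c d) AF8 :=
  ⟨⟨⟨tf8_1222 h, ⟨tf8_2122 h, tf8_2212 h⟩⟩, ⟨tf8_2221 h, ⟨tf8_2311 h, tf8_3121 h⟩⟩⟩, ⟨⟨tf8_3211 h, ⟨tf8_3220 h, tf8_4111 h⟩⟩, ⟨tf8_4120 h, ⟨tf8_4201 h, tf8_4210 h⟩⟩⟩⟩
theorem TT8 (h : Q A a b c d) : ATok (SEM a b c d) (ltr a b c d) AT8 := ⟨TW7 h, TF8 h⟩
theorem qL5210_0 (h : Q A a b c d) : List.Forall₂ (EntOk a (symOf (ps5210 a b c d)))
    (ps4210 a b c d) pL5210_0 :=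
  (.cons (ent_i rfl rfl (ops_L (lL4210_0 h) (ops_nil _)) ez4210 y5210_0) (.cons (ent_n ez4110) .nil))
theorem nf5210 (h : Q A a b c d) : ∀ r, vec (symOf (ps5210 a b c d)) r = vec (e5210 a b c d) (appM N5210 r) :=
  block_sound2 h.h.two (ps := ps5210 a b c d) (ns := 1) rfl (raw5 (srcRow_spec h.h.two (qL5210_0 h) (nf4210 h) wf4210) (zf_spec _) (zf_spec _) (zf_spec _) (zf_spec _)) kb5210 co5210 u5210 el5210
theorem ez5210 : ∀ k, 0 ≤ k → e5210 a b c d k = 0 := eOf_ge _ (wfT_D wf5210).2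
theorem lL5210_0 (h : Q A a b c d) : ∀ v, a * vec (e4210 a b c d) v = vec (e5210 a b c d) (appM L5210_0 v) :=
  table_sound2 h.h.two (qL5210_0 h) (nf5210 h) kv5210_0 kL5210_0
theorem rR5210_0 (h : Q A a b c d) : ∀ v, vec (e4210 a b c d) v * a = vec (e5210 a b c d) (appM N5210 (Nat.shiftLeft (Nat.mod v 2) 0)) :=
  r_fact (n := 1) rfl ez4210 y5210_0 (nf5210 h)
theorem w5210 (h : Q A a b c d) : WP ![5, 2, 1, 0] ![a, b, c, d] (e5210 a b c d) :=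
  wp_step4 (nf5210 h) (by decide) (Or.inr ⟨_, wp0123 (w4210 h), wp_r ez4210 y5210_0⟩) (Or.inr ⟨_, wp0123 (z5110 h), wp_z (fun _ _ => rfl)⟩) (Or.inr ⟨_, wp0123 (z5200 h), wp_z (fun _ _ => rfl)⟩) (Or.inl rfl)

theorem qL5111_0 (h : Q A a b c d) : List.Forall₂ (EntOk a (symOf (ps5111 a b c d)))
    (ps4111 a b c d) pL5111_0 :=
  (.cons (ent_i rfl rfl (ops_L (lL4111_0 h) (ops_nil _)) ez4111 y5111_0) (.cons (ent_n ez4110) (.cons (ent_n ez4110) (.cons (ent_n ez4110) .nil))))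
theorem nf5111 (h : Q A a b c d) : ∀ r, vec (symOf (ps5111 a b c d)) r = vec (e5111 a b c d) (appM N5111 r) :=
  block_sound2 h.h.two (ps := ps5111 a b c d) (ns := 5) rfl (raw5 (srcRow_spec h.h.two (qL5111_0 h) (nf4111 h) wf4111) (zf_spec _) (zf_spec _) (zf_spec _) (zf_spec _)) kb5111 co5111 u5111 el5111
theorem ez5111 : ∀ k, 0 ≤ k → e5111 a b c d k = 0 := eOf_ge _ (wfT_D wf5111).2
theorem lL5111_0 (h : Q A a b c d) : ∀ v, a * vec (e4111 a b c d) v = vec (e5111 a b c d) (appM L5111_0 v) :=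
  table_sound2 h.h.two (qL5111_0 h) (nf5111 h) kv5111_0 kL5111_0
theorem rR5111_0 (h : Q A a b c d) : ∀ v, vec (e4111 a b c d) v * a = vec (e5111 a b c d) (appM N5111 (Nat.shiftLeft (Nat.mod v 32) 0)) :=
  r_fact (n := 5) rfl ez4111 y5111_0 (nf5111 h)
theorem w5111 (h : Q A a b c d) : WP ![5, 1, 1, 1] ![a, b, c, d] (e5111 a b c d) :=
  wp_step4 (nf5111 h) (by decide) (Or.inr ⟨_, wp0123 (w4111 h), wp_r ez4111 y5111_0⟩) (Or.inr ⟨_, wp0231 (z5110 h.p0231), wp_z (fun _ _ => rfl)⟩) (Or.inr ⟨_, wp0132 (z5110 h.p0132), wp_z (fun _ _ => rfl)⟩) (Or.inr ⟨_, wp0123 (z5110 h), wp_z (fun _ _ => rfl)⟩)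

theorem qL4310_0 (h : Q A a b c d) : List.Forall₂ (EntOk a (symOf (ps4310 a b c d)))
    (ps3310 a b c d) pL4310_0 :=
  (.cons (ent_z rfl (ops_L (lL3310_1 h.p1023) (ops_nil _)) ez3310) (.cons (ent_i rfl rfl (ops_L (lL4210_0 h) (ops_nil _)) ez4210 y4310_1) .nil))
theorem qL4310_1 (h : Q A a b c d) : List.Forall₂ (EntOk b (symOf (ps4310 a b c d)))
    (ps4210 a b c d) pL4310_1 :=
  (.cons (ent_z rfl (ops_L (lL3310_1 h) (ops_nil _)) ez3310) (.cons (ent_n ez4110) .nil))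
theorem nf4310 (h : Q A a b c d) : ∀ r, vec (symOf (ps4310 a b c d)) r = vec (e4310 a b c d) (appM N4310 r) :=
  block_sound2 h.h.two (ps := ps4310 a b c d) (ns := 1) rfl (raw5 (srcRow_spec h.h.two (qL4310_0 h) (nf3310 h) wf3310) (srcRow_spec h.h.two (qL4310_1 h) (nf4210 h) wf4210) (zf_spec _) (zf_spec _) (zf_spec _)) kb4310 co4310 u4310 el4310
theorem ez4310 : ∀ k, 0 ≤ k → e4310 a b c d k = 0 := eOf_ge _ (wfT_D wf4310).2
theorem lL4310_1 (h : Q A a b c d) : ∀ v, b * vec (e4210 a b c d) v = vec (e4310 a b c d) (appM L4310_1 v) :=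
  table_sound2 h.h.two (qL4310_1 h) (nf4310 h) kv4310_1 kL4310_1
theorem rR4310_1 (h : Q A a b c d) : ∀ v, vec (e4210 a b c d) v * b = vec (e4310 a b c d) (appM N4310 (Nat.shiftLeft (Nat.mod v 2) 0)) :=
  r_fact (n := 1) rfl ez4210 y4310_1 (nf4310 h)
theorem w4310 (h : Q A a b c d) : WP ![4, 3, 1, 0] ![a, b, c, d] (e4310 a b c d) :=
  wp_step4 (nf4310 h) (by decide) (Or.inr ⟨_, wp0123 (w3310 h), wp_z ez3310⟩) (Or.inr ⟨_, wp0123 (w4210 h), wp_r ez4210 y4310_1⟩) (Or.inr ⟨_, wp0123 (z4300 h), wp_z (fun _ _ => rfl)⟩) (Or.inl rfl)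

theorem qL4220_0 (h : Q A a b c d) : List.Forall₂ (EntOk a (symOf (ps4220 a b c d)))
    (ps3220 a b c d) pL4220_0 :=
  (.cons (ent_i rfl rfl (ops_L (lL3220_0 h) (ops_nil _)) ez3220 y4220_0) (.cons (ent_i rfl rfl (ops_L (lL4210_0 h.p0213) (ops_nil _)) ez4210 y4220_1) (.cons (ent_i rfl rfl (ops_L (lL4210_0 h) (ops_nil _)) ez4210 y4220_2) .nil)))
theorem qL4220_1 (h : Q A a b c d) : List.Forall₂ (EntOk b (symOf (ps4220 a b c d)))
    (ps4210 a c b d) pL4220_1 :=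
  (.cons (ent_i rfl rfl (ops_L (lL3220_2 h.p0213) (ops_S (sS3220_2 h.p0213) (ops_nil _))) ez3220 y4220_0) (.cons (ent_n ez4110) .nil))
theorem qL4220_2 (h : Q A a b c d) : List.Forall₂ (EntOk c (symOf (ps4220 a b c d)))
    (ps4210 a b c d) pL4220_2 :=
  (.cons (ent_i rfl rfl (ops_L (lL3220_2 h) (ops_nil _)) ez3220 y4220_0) (.cons (ent_n ez4110) .nil))
theorem gen4220 (h : Q A a b c d) : ∀ m ∈ gList G4220, vec (symOf (ps4220 a b c d)) m = 0 :=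
  gChk_spec (sem := SEM a b c d) (c := 30027) h.h (TT8 h) (init_val (a := a) (b := b) (c := c) (d := d) _ rfl) (ltr_mem h) (by norm_num) (by norm_num) kG4220 kH4220
theorem nf4220 (h : Q A a b c d) : ∀ r, vec (symOf (ps4220 a b c d)) r = vec (e4220 a b c d) (appM N4220 r) :=
  block_sound2 h.h.two (ps := ps4220 a b c d) (ns := 10) rfl (raw5 (srcRow_spec h.h.two (qL4220_0 h) (nf3220 h) wf3220) (srcRow_spec h.h.two (qL4220_1 h) (nf4210 h.p0213) wf4210) (srcRow_spec h.h.two (qL4220_2 h) (nf4210 h) wf4210) (zf_spec _) (nthL_spec (gen4220 h))) kb4220 co4220 u4220 el4220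
theorem ez4220 : ∀ k, 5 ≤ k → e4220 a b c d k = 0 := eOf_ge _ (wfT_D wf4220).2
theorem qS4220_2 (h : Q A a b c d) : List.Forall₂ (EntOk 1 (symOf (ps4220 a b c d)))
    (ps4220 a c b d) pS4220_2 :=
  (.cons (ent_i rfl rfl (ops_S (sS3220_2 h.p0213) (ops_nil _)) ez3220 y4220_0) (.cons (ent_i rfl rfl (ops_nil _) ez4210 y4220_2) (.cons (ent_i rfl rfl (ops_nil _) ez4210 y4220_1) .nil)))
theorem sS4220_2 (h : Q A a b c d) : ∀ v, vec (e4220 a b c d) v = vec (e4220 a c b d) (appM S4220_2 v) :=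
  fun v => (one_mul _).symm.trans (table_sound2 h.h.two (qS4220_2 h.p0213) (nf4220 h.p0213) kw4220_2 kS4220_2 v)
theorem lL4220_0 (h : Q A a b c d) : ∀ v, a * vec (e3220 a b c d) v = vec (e4220 a b c d) (appM L4220_0 v) :=
  table_sound2 h.h.two (qL4220_0 h) (nf4220 h) kv4220_0 kL4220_0
theorem lL4220_2 (h : Q A a b c d) : ∀ v, c * vec (e4210 a b c d) v = vec (e4220 a b c d) (appM L4220_2 v) :=
  table_sound2 h.h.two (qL4220_2 h) (nf4220 h) kv4220_2 kL4220_2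
theorem rR4220_0 (h : Q A a b c d) : ∀ v, vec (e3220 a b c d) v * a = vec (e4220 a b c d) (appM N4220 (Nat.shiftLeft (Nat.mod v 256) 0)) :=
  r_fact (n := 8) rfl ez3220 y4220_0 (nf4220 h)
theorem rR4220_2 (h : Q A a b c d) : ∀ v, vec (e4210 a b c d) v * c = vec (e4220 a b c d) (appM N4220 (Nat.shiftLeft (Nat.mod v 2) 9)) :=
  r_fact (n := 1) rfl ez4210 y4220_2 (nf4220 h)
theorem w4220 (h : Q A a b c d) : WP ![4, 2, 2, 0] ![a, b, c, d] (e4220 a b c d) :=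
  wp_step4 (nf4220 h) (by decide) (Or.inr ⟨_, wp0123 (w3220 h), wp_r ez3220 y4220_0⟩) (Or.inr ⟨_, wp0213 (w4210 h.p0213), wp_r ez4210 y4220_1⟩) (Or.inr ⟨_, wp0123 (w4210 h), wp_r ez4210 y4220_2⟩) (Or.inl rfl)

theorem qL4211_0 (h : Q A a b c d) : List.Forall₂ (EntOk a (symOf (ps4211 a b c d)))
    (ps3211 a b c d) pL4211_0 :=
  (.cons (ent_i rfl rfl (ops_L (lL3211_0 h) (ops_nil _)) ez3211 y4211_0) (.cons (ent_i rfl rfl (ops_L (lL4111_0 h) (ops_nil _)) ez4111 y4211_1) (.cons (ent_i rfl rfl (ops_L (lL4210_0 h.p0132) (ops_nil _)) ez4210 y4211_2) (.cons (ent_i rfl rfl (ops_L (lL4210_0 h) (ops_nil _)) ez4210 y4211_3) .nil))))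
theorem qL4211_1 (h : Q A a b c d) : List.Forall₂ (EntOk b (symOf (ps4211 a b c d)))
    (ps4111 a b c d) pL4211_1 :=
  (.cons (ent_i rfl rfl (ops_L (lL3211_1 h) (ops_nil _)) ez3211 y4211_0) (.cons (ent_n ez4110) (.cons (ent_n ez4110) (.cons (ent_n ez4110) .nil))))
theorem qL4211_2 (h : Q A a b c d) : List.Forall₂ (EntOk c (symOf (ps4211 a b c d)))
    (ps4210 a b d c) pL4211_2 :=
  (.cons (ent_i rfl rfl (ops_L (lL3211_3 h.p0132) (ops_S (sS3211_3 h.p0132) (ops_nil _))) ez3211 y4211_0) (.cons (ent_n ez4110) .nil))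
theorem qL4211_3 (h : Q A a b c d) : List.Forall₂ (EntOk d (symOf (ps4211 a b c d)))
    (ps4210 a b c d) pL4211_3 :=
  (.cons (ent_i rfl rfl (ops_L (lL3211_3 h) (ops_nil _)) ez3211 y4211_0) (.cons (ent_n ez4110) .nil))
theorem gen4211 (h : Q A a b c d) : ∀ m ∈ gList G4211, vec (symOf (ps4211 a b c d)) m = 0 :=
  gChk_spec (sem := SEM a b c d) (c := 30028) h.h (TT8 h) (init_val (a := a) (b := b) (c := c) (d := d) _ rfl) (ltr_mem h) (by norm_num) (by norm_num) kG4211 kH4211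
theorem nf4211 (h : Q A a b c d) : ∀ r, vec (symOf (ps4211 a b c d)) r = vec (e4211 a b c d) (appM N4211 r) :=
  block_sound2 h.h.two (ps := ps4211 a b c d) (ns := 57) rfl (raw5 (srcRow_spec h.h.two (qL4211_0 h) (nf3211 h) wf3211) (srcRow_spec h.h.two (qL4211_1 h) (nf4111 h) wf4111) (srcRow_spec h.h.two (qL4211_2 h) (nf4210 h.p0132) wf4210) (srcRow_spec h.h.two (qL4211_3 h) (nf4210 h) wf4210) (nthL_spec (gen4211 h))) kb4211 co4211 u4211 el4211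
theorem ez4211 : ∀ k, 21 ≤ k → e4211 a b c d k = 0 := eOf_ge _ (wfT_D wf4211).2
theorem qS4211_3 (h : Q A a b c d) : List.Forall₂ (EntOk 1 (symOf (ps4211 a b c d)))
    (ps4211 a b d c) pS4211_3 :=
  (.cons (ent_i rfl rfl (ops_S (sS3211_3 h.p0132) (ops_nil _)) ez3211 y4211_0) (.cons (ent_i rfl rfl (ops_S (sS4111_2 h.p0132) (ops_S (sS4111_3 h.p0312) (ops_S (sS4111_2 h.p0213) (ops_nil _)))) ez4111 y4211_1) (.cons (ent_i rfl rfl (ops_nil _) ez4210 y4211_3) (.cons (ent_i rfl rfl (ops_nil _) ez4210 y4211_2) .nil))))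
theorem sS4211_3 (h : Q A a b c d) : ∀ v, vec (e4211 a b c d) v = vec (e4211 a b d c) (appM S4211_3 v) :=
  fun v => (one_mul _).symm.trans (table_sound2 h.h.two (qS4211_3 h.p0132) (nf4211 h.p0132) kw4211_3 kS4211_3 v)
theorem lL4211_0 (h : Q A a b c d) : ∀ v, a * vec (e3211 a b c d) v = vec (e4211 a b c d) (appM L4211_0 v) :=
  table_sound2 h.h.two (qL4211_0 h) (nf4211 h) kv4211_0 kL4211_0
theorem lL4211_1 (h : Q A a b c d) : ∀ v, b * vec (e4111 a b c d) v = vec (e4211 a b c d) (appM L4211_1 v) :=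
  table_sound2 h.h.two (qL4211_1 h) (nf4211 h) kv4211_1 kL4211_1
theorem lL4211_3 (h : Q A a b c d) : ∀ v, d * vec (e4210 a b c d) v = vec (e4211 a b c d) (appM L4211_3 v) :=
  table_sound2 h.h.two (qL4211_3 h) (nf4211 h) kv4211_3 kL4211_3
theorem rR4211_0 (h : Q A a b c d) : ∀ v, vec (e3211 a b c d) v * a = vec (e4211 a b c d) (appM N4211 (Nat.shiftLeft (Nat.mod v 0x4000000000000) 0)) :=
  r_fact (n := 50) rfl ez3211 y4211_0 (nf4211 h)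
theorem rR4211_1 (h : Q A a b c d) : ∀ v, vec (e4111 a b c d) v * b = vec (e4211 a b c d) (appM N4211 (Nat.shiftLeft (Nat.mod v 32) 50)) :=
  r_fact (n := 5) rfl ez4111 y4211_1 (nf4211 h)
theorem rR4211_3 (h : Q A a b c d) : ∀ v, vec (e4210 a b c d) v * d = vec (e4211 a b c d) (appM N4211 (Nat.shiftLeft (Nat.mod v 2) 56)) :=
  r_fact (n := 1) rfl ez4210 y4211_3 (nf4211 h)
theorem w4211 (h : Q A a b c d) : WP ![4, 2, 1, 1] ![a, b, c, d] (e4211 a b c d) :=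
  wp_step4 (nf4211 h) (by decide) (Or.inr ⟨_, wp0123 (w3211 h), wp_r ez3211 y4211_0⟩) (Or.inr ⟨_, wp0123 (w4111 h), wp_r ez4111 y4211_1⟩) (Or.inr ⟨_, wp0132 (w4210 h.p0132), wp_r ez4210 y4211_2⟩) (Or.inr ⟨_, wp0123 (w4210 h), wp_r ez4210 y4211_3⟩)

theorem qL3320_0 (h : Q A a b c d) : List.Forall₂ (EntOk a (symOf (ps3320 a b c d)))
    (ps3220 b a c d) pL3320_0 :=
  (.cons (ent_i rfl rfl (ops_S (sS2220_1 h.p1023) (ops_L (lL3220_0 h) (ops_nil _))) ez3220 y3320_1) (.cons (ent_i rfl rfl (ops_L (lL3220_2 h.p1203) (ops_S (sS3220_2 h.p1203) (ops_nil _))) ez3220 y3320_0) (.cons (ent_z rfl (ops_L (lL3310_1 h.p1023) (ops_nil _)) ez3310) .nil)))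
theorem qL3320_1 (h : Q A a b c d) : List.Forall₂ (EntOk b (symOf (ps3320 a b c d)))
    (ps3220 a b c d) pL3320_1 :=
  (.cons (ent_i rfl rfl (ops_S (sS2220_1 h) (ops_L (lL3220_0 h.p1023) (ops_nil _))) ez3220 y3320_0) (.cons (ent_i rfl rfl (ops_L (lL3220_2 h.p0213) (ops_S (sS3220_2 h.p0213) (ops_nil _))) ez3220 y3320_1) (.cons (ent_z rfl (ops_L (lL3310_1 h) (ops_nil _)) ez3310) .nil)))
theorem qL3320_2 (h : Q A a b c d) : List.Forall₂ (EntOk c (symOf (ps3320 a b c d)))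
    (ps3310 a b c d) pL3320_2 :=
  (.cons (ent_i rfl rfl (ops_L (lL3220_2 h.p1023) (ops_nil _)) ez3220 y3320_0) (.cons (ent_i rfl rfl (ops_L (lL3220_2 h) (ops_nil _)) ez3220 y3320_1) .nil))
theorem nf3320 (h : Q A a b c d) : ∀ r, vec (symOf (ps3320 a b c d)) r = vec (e3320 a b c d) (appM N3320 r) :=
  block_sound2 h.h.two (ps := ps3320 a b c d) (ns := 16) rfl (raw5 (srcRow_spec h.h.two (qL3320_0 h) (nf3220 h.p1023) wf3220) (srcRow_spec h.h.two (qL3320_1 h) (nf3220 h) wf3220) (srcRow_spec h.h.two (qL3320_2 h) (nf3310 h) wf3310) (zf_spec _) (zf_spec _)) kb3320 co3320 u3320 el3320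
theorem ez3320 : ∀ k, 4 ≤ k → e3320 a b c d k = 0 := eOf_ge _ (wfT_D wf3320).2
theorem qS3320_1 (h : Q A a b c d) : List.Forall₂ (EntOk 1 (symOf (ps3320 a b c d)))
    (ps3320 b a c d) pS3320_1 :=
  (.cons (ent_i rfl rfl (ops_nil _) ez3220 y3320_1) (.cons (ent_i rfl rfl (ops_nil _) ez3220 y3320_0) (.cons (ent_n ez3310) .nil)))
theorem sS3320_1 (h : Q A a b c d) : ∀ v, vec (e3320 a b c d) v = vec (e3320 b a c d) (appM S3320_1 v) :=
  fun v => (one_mul _).symm.trans (table_sound2 h.h.two (qS3320_1 h.p1023) (nf3320 h.p1023) kw3320_1 kS3320_1 v)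
theorem lL3320_1 (h : Q A a b c d) : ∀ v, b * vec (e3220 a b c d) v = vec (e3320 a b c d) (appM L3320_1 v) :=
  table_sound2 h.h.two (qL3320_1 h) (nf3320 h) kv3320_1 kL3320_1
theorem rR3320_1 (h : Q A a b c d) : ∀ v, vec (e3220 a b c d) v * b = vec (e3320 a b c d) (appM N3320 (Nat.shiftLeft (Nat.mod v 256) 8)) :=
  r_fact (n := 8) rfl ez3220 y3320_1 (nf3320 h)
theorem w3320 (h : Q A a b c d) : WP ![3, 3, 2, 0] ![a, b, c, d] (e3320 a b c d) :=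
  wp_step4 (nf3320 h) (by decide) (Or.inr ⟨_, wp1023 (w3220 h.p1023), wp_r ez3220 y3320_0⟩) (Or.inr ⟨_, wp0123 (w3220 h), wp_r ez3220 y3320_1⟩) (Or.inr ⟨_, wp0123 (w3310 h), wp_z ez3310⟩) (Or.inl rfl)

theorem qL3311_0 (h : Q A a b c d) : List.Forall₂ (EntOk a (symOf (ps3311 a b c d)))
    (ps3211 b a c d) pL3311_0 :=
  (.cons (ent_i rfl rfl (ops_S (sS2211_1 h.p1023) (ops_L (lL3211_0 h) (ops_nil _))) ez3211 y3311_1) (.cons (ent_i rfl rfl (ops_L (lL3211_1 h.p1023) (ops_nil _)) ez3211 y3311_0) (.cons (ent_z rfl (ops_L (lL3310_1 h.p1032) (ops_nil _)) ez3310) (.cons (ent_z rfl (ops_L (lL3310_1 h.p1023) (ops_nil _)) ez3310) .nil))))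
theorem qL3311_1 (h : Q A a b c d) : List.Forall₂ (EntOk b (symOf (ps3311 a b c d)))
    (ps3211 a b c d) pL3311_1 :=
  (.cons (ent_i rfl rfl (ops_S (sS2211_1 h) (ops_L (lL3211_0 h.p1023) (ops_nil _))) ez3211 y3311_0) (.cons (ent_i rfl rfl (ops_L (lL3211_1 h) (ops_nil _)) ez3211 y3311_1) (.cons (ent_z rfl (ops_L (lL3310_1 h.p0132) (ops_nil _)) ez3310) (.cons (ent_z rfl (ops_L (lL3310_1 h) (ops_nil _)) ez3310) .nil))))
theorem qL3311_2 (h : Q A a b c d) : List.Forall₂ (EntOk c (symOf (ps3311 a b c d)))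
    (ps3310 a b d c) pL3311_2 :=
  (.cons (ent_i rfl rfl (ops_L (lL3211_3 h.p1032) (ops_S (sS3211_3 h.p1032) (ops_nil _))) ez3211 y3311_0) (.cons (ent_i rfl rfl (ops_L (lL3211_3 h.p0132) (ops_S (sS3211_3 h.p0132) (ops_nil _))) ez3211 y3311_1) .nil))
theorem qL3311_3 (h : Q A a b c d) : List.Forall₂ (EntOk d (symOf (ps3311 a b c d)))
    (ps3310 a b c d) pL3311_3 :=
  (.cons (ent_i rfl rfl (ops_L (lL3211_3 h.p1023) (ops_nil _)) ez3211 y3311_0) (.cons (ent_i rfl rfl (ops_L (lL3211_3 h) (ops_nil _)) ez3211 y3311_1) .nil))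
theorem gen3311 (h : Q A a b c d) : ∀ m ∈ gList G3311, vec (symOf (ps3311 a b c d)) m = 0 :=
  gChk_spec (sem := SEM a b c d) (c := 30030) h.h (TT8 h) (init_val (a := a) (b := b) (c := c) (d := d) _ rfl) (ltr_mem h) (by norm_num) (by norm_num) kG3311 kH3311
theorem nf3311 (h : Q A a b c d) : ∀ r, vec (symOf (ps3311 a b c d)) r = vec (e3311 a b c d) (appM N3311 r) :=
  block_sound2 h.h.two (ps := ps3311 a b c d) (ns := 100) rfl (raw5 (srcRow_spec h.h.two (qL3311_0 h) (nf3211 h.p1023) wf3211) (srcRow_spec h.h.two (qL3311_1 h) (nf3211 h) wf3211) (srcRow_spec h.h.two (qL3311_2 h) (nf3310 h.p0132) wf3310) (srcRow_spec h.h.two (qL3311_3 h) (nf3310 h) wf3310) (nthL_spec (gen3311 h))) kb3311 co3311 u3311 el3311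
theorem ez3311 : ∀ k, 34 ≤ k → e3311 a b c d k = 0 := eOf_ge _ (wfT_D wf3311).2
theorem qS3311_1 (h : Q A a b c d) : List.Forall₂ (EntOk 1 (symOf (ps3311 a b c d)))
    (ps3311 b a c d) pS3311_1 :=
  (.cons (ent_i rfl rfl (ops_nil _) ez3211 y3311_1) (.cons (ent_i rfl rfl (ops_nil _) ez3211 y3311_0) (.cons (ent_n ez3310) (.cons (ent_n ez3310) .nil))))
theorem sS3311_1 (h : Q A a b c d) : ∀ v, vec (e3311 a b c d) v = vec (e3311 b a c d) (appM S3311_1 v) :=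
  fun v => (one_mul _).symm.trans (table_sound2 h.h.two (qS3311_1 h.p1023) (nf3311 h.p1023) kw3311_1 kS3311_1 v)
theorem qS3311_3 (h : Q A a b c d) : List.Forall₂ (EntOk 1 (symOf (ps3311 a b c d)))
    (ps3311 a b d c) pS3311_3 :=
  (.cons (ent_i rfl rfl (ops_S (sS3211_3 h.p1032) (ops_nil _)) ez3211 y3311_0) (.cons (ent_i rfl rfl (ops_S (sS3211_3 h.p0132) (ops_nil _)) ez3211 y3311_1) (.cons (ent_n ez3310) (.cons (ent_n ez3310) .nil))))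
theorem sS3311_3 (h : Q A a b c d) : ∀ v, vec (e3311 a b c d) v = vec (e3311 a b d c) (appM S3311_3 v) :=
  fun v => (one_mul _).symm.trans (table_sound2 h.h.two (qS3311_3 h.p0132) (nf3311 h.p0132) kw3311_3 kS3311_3 v)
theorem lL3311_1 (h : Q A a b c d) : ∀ v, b * vec (e3211 a b c d) v = vec (e3311 a b c d) (appM L3311_1 v) :=
  table_sound2 h.h.two (qL3311_1 h) (nf3311 h) kv3311_1 kL3311_1
theorem rR3311_1 (h : Q A a b c d) : ∀ v, vec (e3211 a b c d) v * b = vec (e3311 a b c d) (appM N3311 (Nat.shiftLeft (Nat.mod v 0x4000000000000) 50)) :=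
  r_fact (n := 50) rfl ez3211 y3311_1 (nf3311 h)
theorem w3311 (h : Q A a b c d) : WP ![3, 3, 1, 1] ![a, b, c, d] (e3311 a b c d) :=
  wp_step4 (nf3311 h) (by decide) (Or.inr ⟨_, wp1023 (w3211 h.p1023), wp_r ez3211 y3311_0⟩) (Or.inr ⟨_, wp0123 (w3211 h), wp_r ez3211 y3311_1⟩) (Or.inr ⟨_, wp0132 (w3310 h.p0132), wp_z ez3310⟩) (Or.inr ⟨_, wp0123 (w3310 h), wp_z ez3310⟩)

theorem qL3221_0 (h : Q A a b c d) : List.Forall₂ (EntOk a (symOf (ps3221 a b c d)))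
    (ps2221 a b c d) pL3221_0 :=
  (.cons (ent_i rfl rfl (ops_L (lL2221_2 h.p1203) (ops_S (sS2221_1 h.p1203) (ops_S (sS2221_2 h.p2103) (ops_S (sS2221_1 h) (ops_S (sS2221_1 h.p1023) (ops_nil _)))))) ez2221 y3221_0) (.cons (ent_i rfl rfl (ops_L (lL3211_0 h.p0213) (ops_nil _)) ez3211 y3221_1) (.cons (ent_i rfl rfl (ops_L (lL3211_0 h) (ops_nil _)) ez3211 y3221_2) (.cons (ent_i rfl rfl (ops_L (lL3220_0 h) (ops_nil _)) ez3220 y3221_3) .nil))))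
theorem qL3221_1 (h : Q A a b c d) : List.Forall₂ (EntOk b (symOf (ps3221 a b c d)))
    (ps3211 a c b d) pL3221_1 :=
  (.cons (ent_i rfl rfl (ops_L (lL2221_2 h.p0213) (ops_S (sS2221_1 h.p0213) (ops_S (sS2221_2 h.p2013) (ops_S (sS2221_1 h.p1023) (ops_nil _))))) ez2221 y3221_0) (.cons (ent_i rfl rfl (ops_S (sS3111_2 h.p0213) (ops_L (lL3211_1 h) (ops_nil _))) ez3211 y3221_2) (.cons (ent_i rfl rfl (ops_L (lL3211_3 h.p0231) (ops_S (sS3211_3 h.p0231) (ops_nil _))) ez3211 y3221_1) (.cons (ent_i rfl rfl (ops_L (lL3220_2 h.p0213) (ops_S (sS3220_2 h.p0213) (ops_nil _))) ez3220 y3221_3) .nil))))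
theorem qL3221_2 (h : Q A a b c d) : List.Forall₂ (EntOk c (symOf (ps3221 a b c d)))
    (ps3211 a b c d) pL3221_2 :=
  (.cons (ent_i rfl rfl (ops_L (lL2221_2 h) (ops_nil _)) ez2221 y3221_0) (.cons (ent_i rfl rfl (ops_S (sS3111_2 h) (ops_L (lL3211_1 h.p0213) (ops_nil _))) ez3211 y3221_1) (.cons (ent_i rfl rfl (ops_L (lL3211_3 h.p0132) (ops_S (sS3211_3 h.p0132) (ops_nil _))) ez3211 y3221_2) (.cons (ent_i rfl rfl (ops_L (lL3220_2 h) (ops_nil _)) ez3220 y3221_3) .nil))))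
theorem qL3221_3 (h : Q A a b c d) : List.Forall₂ (EntOk d (symOf (ps3221 a b c d)))
    (ps3220 a b c d) pL3221_3 :=
  (.cons (ent_i rfl rfl (ops_L (lL2221_3 h) (ops_nil _)) ez2221 y3221_0) (.cons (ent_i rfl rfl (ops_L (lL3211_3 h.p0213) (ops_nil _)) ez3211 y3221_1) (.cons (ent_i rfl rfl (ops_L (lL3211_3 h) (ops_nil _)) ez3211 y3221_2) .nil)))
theorem gen3221 (h : Q A a b c d) : ∀ m ∈ gList G3221, vec (symOf (ps3221 a b c d)) m = 0 :=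
  gChk_spec (sem := SEM a b c d) (c := 30031) h.h (TT8 h) (init_val (a := a) (b := b) (c := c) (d := d) _ rfl) (ltr_mem h) (by norm_num) (by norm_num) kG3221 kH3221
theorem nf3221 (h : Q A a b c d) : ∀ r, vec (symOf (ps3221 a b c d)) r = vec (e3221 a b c d) (appM N3221 r) :=
  block_sound2 h.h.two (ps := ps3221 a b c d) (ns := 246) rfl (raw5 (srcRow_spec h.h.two (qL3221_0 h) (nf2221 h) wf2221) (srcRow_spec h.h.two (qL3221_1 h) (nf3211 h.p0213) wf3211) (srcRow_spec h.h.two (qL3221_2 h) (nf3211 h) wf3211) (srcRow_spec h.h.two (qL3221_3 h) (nf3220 h) wf3220) (nthL_spec (gen3221 h))) kb3221 co3221 u3221 el3221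
theorem ez3221 : ∀ k, 144 ≤ k → e3221 a b c d k = 0 := eOf_ge _ (wfT_D wf3221).2
theorem qS3221_2 (h : Q A a b c d) : List.Forall₂ (EntOk 1 (symOf (ps3221 a b c d)))
    (ps3221 a c b d) pS3221_2 :=
  (.cons (ent_i rfl rfl (ops_S (sS2221_1 h.p0213) (ops_S (sS2221_2 h.p2013) (ops_S (sS2221_1 h.p1023) (ops_nil _)))) ez2221 y3221_0) (.cons (ent_i rfl rfl (ops_nil _) ez3211 y3221_2) (.cons (ent_i rfl rfl (ops_nil _) ez3211 y3221_1) (.cons (ent_i rfl rfl (ops_S (sS3220_2 h.p0213) (ops_nil _)) ez3220 y3221_3) .nil))))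
theorem sS3221_2 (h : Q A a b c d) : ∀ v, vec (e3221 a b c d) v = vec (e3221 a c b d) (appM S3221_2 v) :=
  fun v => (one_mul _).symm.trans (table_sound2 h.h.two (qS3221_2 h.p0213) (nf3221 h.p0213) kw3221_2 kS3221_2 v)
theorem lL3221_0 (h : Q A a b c d) : ∀ v, a * vec (e2221 a b c d) v = vec (e3221 a b c d) (appM L3221_0 v) :=
  table_sound2 h.h.two (qL3221_0 h) (nf3221 h) kv3221_0 kL3221_0
theorem lL3221_2 (h : Q A a b c d) : ∀ v, c * vec (e3211 a b c d) v = vec (e3221 a b c d) (appM L3221_2 v) :=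
  table_sound2 h.h.two (qL3221_2 h) (nf3221 h) kv3221_2 kL3221_2
theorem lL3221_3 (h : Q A a b c d) : ∀ v, d * vec (e3220 a b c d) v = vec (e3221 a b c d) (appM L3221_3 v) :=
  table_sound2 h.h.two (qL3221_3 h) (nf3221 h) kv3221_3 kL3221_3
theorem rR3221_0 (h : Q A a b c d) : ∀ v, vec (e2221 a b c d) v * a = vec (e3221 a b c d) (appM N3221 (Nat.shiftLeft (Nat.mod v 0x40000000000000000000000000000000000) 0)) :=
  r_fact (n := 138) rfl ez2221 y3221_0 (nf3221 h)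
theorem rR3221_2 (h : Q A a b c d) : ∀ v, vec (e3211 a b c d) v * c = vec (e3221 a b c d) (appM N3221 (Nat.shiftLeft (Nat.mod v 0x4000000000000) 188)) :=
  r_fact (n := 50) rfl ez3211 y3221_2 (nf3221 h)
theorem rR3221_3 (h : Q A a b c d) : ∀ v, vec (e3220 a b c d) v * d = vec (e3221 a b c d) (appM N3221 (Nat.shiftLeft (Nat.mod v 256) 238)) :=
  r_fact (n := 8) rfl ez3220 y3221_3 (nf3221 h)
theorem w3221 (h : Q A a b c d) : WP ![3, 2, 2, 1] ![a, b, c, d] (e3221 a b c d) :=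
  wp_step4 (nf3221 h) (by decide) (Or.inr ⟨_, wp0123 (w2221 h), wp_r ez2221 y3221_0⟩) (Or.inr ⟨_, wp0213 (w3211 h.p0213), wp_r ez3211 y3221_1⟩) (Or.inr ⟨_, wp0123 (w3211 h), wp_r ez3211 y3221_2⟩) (Or.inr ⟨_, wp0123 (w3220 h), wp_r ez3220 y3221_3⟩)

theorem qL2222_0 (h : Q A a b c d) : List.Forall₂ (EntOk a (symOf (ps2222 a b c d)))
    (ps2221 b c d a) pL2222_0 :=
  (.cons (ent_i rfl rfl (ops_S (sS2211_3 h.p2310) (ops_L (lL2221_2 h.p2301) (ops_S (sS2221_1 h.p2301) (ops_S (sS2221_2 h.p3201) (ops_S (sS2221_1 h.p0231) (ops_S (sS2221_1 h.p2031) (ops_nil _))))))) ez2221 y2222_1) (.cons (ent_i rfl rfl (ops_S (sS2211_3 h.p1320) (ops_L (lL2221_2 h.p1302) (ops_S (sS2221_1 h.p1302) (ops_S (sS2221_2 h.p3102) (ops_S (sS2221_1 h.p0132) (ops_S (sS2221_1 h.p1032) (ops_nil _))))))) ez2221 y2222_2) (.cons (ent_i rfl rfl (ops_S (sS2211_3 h.p1230) (ops_L (lL2221_2 h.p1203) (ops_S (sS2221_1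 h.p1203) (ops_S (sS2221_2 h.p2103) (ops_S (sS2221_1 h) (ops_S (sS2221_1 h.p1023) (ops_nil _))))))) ez2221 y2222_3) (.cons (ent_i rfl rfl (ops_L (lL2221_3 h.p1230) (ops_nil _)) ez2221 y2222_0) .nil))))
theorem qL2222_1 (h : Q A a b c d) : List.Forall₂ (EntOk b (symOf (ps2222 a b c d)))
    (ps2221 a c d b) pL2222_1 :=
  (.cons (ent_i rfl rfl (ops_S (sS2211_3 h.p2301) (ops_L (lL2221_2 h.p2310) (ops_S (sS2221_1 h.p2310) (ops_S (sS2221_2 h.p3210) (ops_S (sS2221_1 h.p1230) (ops_S (sS2221_1 h.p2130) (ops_nil _))))))) ez2221 y2222_0) (.cons (ent_i rfl rfl (ops_S (sS2211_3 h.p0321) (ops_L (lL2221_2 h.p0312) (ops_S (sS2221_1 h.p0312) (ops_S (sS2221_2 h.p3012) (ops_S (sS2221_1 h.p1032) (ops_nil _)))))) ez2221 y2222_2) (.cons (ent_i rfl rfl (ops_S (sS2211_3 h.p0231) (ops_L (lL2221_2 h.p0213) (ops_S (sS2221_1 h.p0213) (ops_S (sS2221_2 h.p2013) (ops_S (sS2221_1 h.p1023) (ops_nil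 _)))))) ez2221 y2222_3) (.cons (ent_i rfl rfl (ops_L (lL2221_3 h.p0231) (ops_nil _)) ez2221 y2222_1) .nil))))
theorem qL2222_2 (h : Q A a b c d) : List.Forall₂ (EntOk c (symOf (ps2222 a b c d)))
    (ps2221 a b d c) pL2222_2 :=
  (.cons (ent_i rfl rfl (ops_S (sS2211_3 h.p1302) (ops_L (lL2221_2 h.p1320) (ops_S (sS2221_1 h.p1320) (ops_S (sS2221_2 h.p3120) (ops_S (sS2221_1 h.p2130) (ops_nil _)))))) ez2221 y2222_0) (.cons (ent_i rfl rfl (ops_S (sS2211_3 h.p0312) (ops_L (lL2221_2 h.p0321) (ops_S (sS2221_1 h.p0321) (ops_S (sS2221_2 h.p3021) (ops_S (sS2221_1 h.p2031) (ops_nil _)))))) ez2221 y2222_1) (.cons (ent_i rfl rfl (ops_S (sS2211_3 h.p0132) (ops_L (lL2221_2 h) (ops_nil _))) ez2221 y2222_3) (.cons (ent_i rfl rfl (ops_L (lL2221_3 h.p0132) (ops_nil _)) ez2221 y2222_2) .nil))))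
theorem qL2222_3 (h : Q A a b c d) : List.Forall₂ (EntOk d (symOf (ps2222 a b c d)))
    (ps2221 a b c d) pL2222_3 :=
  (.cons (ent_i rfl rfl (ops_S (sS2211_3 h.p1203) (ops_L (lL2221_2 h.p1230) (ops_nil _))) ez2221 y2222_0) (.cons (ent_i rfl rfl (ops_S (sS2211_3 h.p0213) (ops_L (lL2221_2 h.p0231) (ops_nil _))) ez2221 y2222_1) (.cons (ent_i rfl rfl (ops_S (sS2211_3 h) (ops_L (lL2221_2 h.p0132) (ops_nil _))) ez2221 y2222_2) (.cons (ent_i rfl rfl (ops_L (lL2221_3 h) (ops_nil _)) ez2221 y2222_3) .nil))))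
theorem gen2222 (h : Q A a b c d) : ∀ m ∈ gList G2222, vec (symOf (ps2222 a b c d)) m = 0 :=
  gChk_spec (sem := SEM a b c d) (c := 30032) h.h (TT8 h) (init_val (a := a) (b := b) (c := c) (d := d) _ rfl) (ltr_mem h) (by norm_num) (by norm_num) kG2222 kH2222
theorem nf2222 (h : Q A a b c d) : ∀ r, vec (symOf (ps2222 a b c d)) r = vec (e2222 a b c d) (appM N2222 r) :=
  block_sound2 h.h.two (ps := ps2222 a b c d) (ns := 552) rfl (raw5 (srcRow_spec h.h.two (qL2222_0 h) (nf2221 h.p1230) wf2221) (srcRow_spec h.h.two (qL2222_1 h) (nf2221 h.p0231) wf2221) (srcRow_spec h.h.two (qL2222_2 h) (nf2221 h.p0132) wf2221) (srcRow_spec h.h.two (qL2222_3 h) (nf2221 h) wf2221) (nthL_spec (gen2222 h))) kb2222 co2222 u2222 el2222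
theorem ez2222 : ∀ k, 396 ≤ k → e2222 a b c d k = 0 := eOf_ge _ (wfT_D wf2222).2
theorem qS2222_1 (h : Q A a b c d) : List.Forall₂ (EntOk 1 (symOf (ps2222 a b c d)))
    (ps2222 b a c d) pS2222_1 :=
  (.cons (ent_i rfl rfl (ops_nil _) ez2221 y2222_1) (.cons (ent_i rfl rfl (ops_nil _) ez2221 y2222_0) (.cons (ent_i rfl rfl (ops_S (sS2221_1 h.p1032) (ops_nil _)) ez2221 y2222_2) (.cons (ent_i rfl rfl (ops_S (sS2221_1 h.p1023) (ops_nil _)) ez2221 y2222_3) .nil))))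
theorem sS2222_1 (h : Q A a b c d) : ∀ v, vec (e2222 a b c d) v = vec (e2222 b a c d) (appM S2222_1 v) :=
  fun v => (one_mul _).symm.trans (table_sound2 h.h.two (qS2222_1 h.p1023) (nf2222 h.p1023) kw2222_1 kS2222_1 v)
theorem qS2222_2 (h : Q A a b c d) : List.Forall₂ (EntOk 1 (symOf (ps2222 a b c d)))
    (ps2222 c b a d) pS2222_2 :=
  (.cons (ent_i rfl rfl (ops_S (sS2221_1 h.p1032) (ops_nil _)) ez2221 y2222_2) (.cons (ent_i rfl rfl (ops_S (sS2221_1 h.p2031) (ops_nil _)) ez2221 y2222_1) (.cons (ent_i rfl rfl (ops_S (sS2221_1 h.p2130) (ops_nil _)) ez2221 y2222_0) (.cons (ent_i rfl rfl (ops_S (sS2221_2 h.p2103) (ops_nil _)) ez2221 y2222_3) .nil))))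
theorem sS2222_2 (h : Q A a b c d) : ∀ v, vec (e2222 a b c d) v = vec (e2222 c b a d) (appM S2222_2 v) :=
  fun v => (one_mul _).symm.trans (table_sound2 h.h.two (qS2222_2 h.p2103) (nf2222 h.p2103) kw2222_2 kS2222_2 v)
theorem qS2222_3 (h : Q A a b c d) : List.Forall₂ (EntOk 1 (symOf (ps2222 a b c d)))
    (ps2222 d b c a) pS2222_3 :=
  (.cons (ent_i rfl rfl (ops_S (sS2221_1 h.p1203) (ops_S (sS2221_2 h.p2103) (ops_S (sS2221_1 h) (ops_S (sS2221_1 h.p1023) (ops_nil _))))) ez2221 y2222_3) (.cons (ent_i rfl rfl (ops_S (sS2221_2 h.p3201) (ops_nil _)) ez2221 y2222_1) (.cons (ent_i rfl rfl (ops_S (sS2221_2 h.p3102) (ops_nil _)) ez2221 y2222_2) (.cons (ent_i rfl rfl (ops_S (sS2221_1 h.p3120) (ops_S (sS2221_2 h.p1320) (ops_S (sS2221_1 h.p2310) (ops_S (sS2221_2 h.p3210) (ops_nil _))))) ez2221 y2222_0) .nil))))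
theorem sS2222_3 (h : Q A a b c d) : ∀ v, vec (e2222 a b c d) v = vec (e2222 d b c a) (appM S2222_3 v) :=
  fun v => (one_mul _).symm.trans (table_sound2 h.h.two (qS2222_3 h.p3120) (nf2222 h.p3120) kw2222_3 kS2222_3 v)
theorem lL2222_3 (h : Q A a b c d) : ∀ v, d * vec (e2221 a b c d) v = vec (e2222 a b c d) (appM L2222_3 v) :=
  table_sound2 h.h.two (qL2222_3 h) (nf2222 h) kv2222_3 kL2222_3
theorem rR2222_3 (h : Q A a b c d) : ∀ v, vec (e2221 a b c d) v * d = vec (e2222 a b c d) (appM N2222 (Nat.shiftLeft (Nat.mod v 0x40000000000000000000000000000000000) 414)) :=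
  r_fact (n := 138) rfl ez2221 y2222_3 (nf2222 h)
theorem w2222 (h : Q A a b c d) : WP ![2, 2, 2, 2] ![a, b, c, d] (e2222 a b c d) :=
  wp_step4 (nf2222 h) (by decide) (Or.inr ⟨_, wp1230 (w2221 h.p1230), wp_r ez2221 y2222_0⟩) (Or.inr ⟨_, wp0231 (w2221 h.p0231), wp_r ez2221 y2222_1⟩) (Or.inr ⟨_, wp0132 (w2221 h.p0132), wp_r ez2221 y2222_2⟩) (Or.inr ⟨_, wp0123 (w2221 h), wp_r ez2221 y2222_3⟩)

theorem tl0232 (h : Q A a b c d) : ATok (SEM a b c d) (ltr a b c d) al0232 :=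
  at_l rfl (ae_ok (run_R (rR3221_3 h.p2130) (run_nil _)) rfl rfl rfl) (ae_ok (run_R (rR3320_1 h.p2130) (run_S (sS3320_1 h.p2130) (run_nil _))) rfl rfl rfl) ae_no ae_no
theorem tl0322 (h : Q A a b c d) : ATok (SEM a b c d) (ltr a b c d) al0322 :=
  at_l rfl (ae_ok (run_R (rR3221_3 h.p1230) (run_nil _)) rfl rfl rfl) ae_no (ae_ok (run_R (rR3320_1 h.p1230) (run_nil _)) rfl rfl rfl) ae_no
theorem tl1132 (h : Q A a b c d) : ATok (SEM a b c d) (ltr a b c d) al1132 :=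
  at_l rfl (ae_ok (run_R (rR3221_2 h.p2301) (run_S (sS3221_2 h.p2301) (run_nil _))) rfl rfl rfl) (ae_ok (run_S (sS3211_3 h.p2301) (run_R (rR3221_2 h.p2310) (run_S (sS3221_2 h.p2310) (run_nil _)))) rfl rfl rfl) ae_no ae_no
theorem tl1222 (h : Q A a b c d) : ATok (SEM a b c d) (ltr a b c d) al1222 :=
  at_l rfl (ae_ok (run_R (rR2222_3 h.p1230) (run_S (sS2222_2 h.p1230) (run_S (sS2222_3 h.p3210) (run_S (sS2222_2 h.p0213) (run_S (sS2222_1 h.p1203) (run_S (sS2222_2 h.p2103) (run_S (sS2222_1 h) (run_S (sS2222_1 h.p1023) (run_nil _))))))))) rfl rfl rfl) (ae_ok (run_R (rR3221_0 h.p1230) (run_nil _)) rfl rfl rfl) (ae_ok (run_S (sS2221_1 h.p1230) (run_R (rR3221_0 h.p2130) (run_nil _))) rfl rfl rfl) ae_no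
theorem tl1231 (h : Q A a b c d) : ATok (SEM a b c d) (ltr a b c d) al1231 :=
  at_l rfl (ae_ok (run_R (rR3221_2 h.p2103) (run_S (sS3221_2 h.p2103) (run_nil _))) rfl rfl rfl) (ae_ok (run_R (rR3311_1 h.p2103) (run_S (sS3311_1 h.p2103) (run_nil _))) rfl rfl rfl) ae_no (ae_ok (run_S (sS3211_3 h.p2103) (run_R (rR3221_2 h.p2130) (run_nil _))) rfl rfl rfl)
theorem tl1312 (h : Q A a b c d) : ATok (SEM a b c d) (ltr a b c d) al1312 :=
  at_l rfl (ae_ok (run_R (rR3221_2 h.p1302) (run_S (sS3221_2 h.p1302) (run_nil _))) rfl rfl rfl) ae_no (ae_ok (run_S (sS3211_3 h.p1302) (run_R (rR3221_2 h.p1320) (run_S (sS3221_2 h.p1320) (run_nil _)))) rfl rfl rfl) ae_no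
theorem tl1321 (h : Q A a b c d) : ATok (SEM a b c d) (ltr a b c d) al1321 :=
  at_l rfl (ae_ok (run_R (rR3221_2 h.p1203) (run_S (sS3221_2 h.p1203) (run_nil _))) rfl rfl rfl) ae_no (ae_ok (run_R (rR3311_1 h.p1203) (run_nil _)) rfl rfl rfl) (ae_ok (run_S (sS3211_3 h.p1203) (run_R (rR3221_2 h.p1230) (run_nil _))) rfl rfl rfl)
theorem tl2032 (h : Q A a b c d) : ATok (SEM a b c d) (ltr a b c d) al2032 :=
  at_l rfl (ae_ok (run_R (rR3320_1 h.p2031) (run_S (sS3320_1 h.p2031) (run_nil _))) rfl rfl rfl) (ae_ok (run_R (rR3221_3 h.p2031) (run_nil _)) rfl rfl rfl) ae_no ae_no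
theorem tl2122 (h : Q A a b c d) : ATok (SEM a b c d) (ltr a b c d) al2122 :=
  at_l rfl (ae_ok (run_R (rR3221_0 h.p0231) (run_nil _)) rfl rfl rfl) (ae_ok (run_R (rR2222_3 h.p0231) (run_S (sS2222_2 h.p0231) (run_S (sS2222_3 h.p3201) (run_S (sS2222_2 h.p1203) (run_S (sS2222_1 h.p0213) (run_S (sS2222_2 h.p2013) (run_S (sS2222_1 h.p1023) (run_nil _)))))))) rfl rfl rfl) (ae_ok (run_S (sS2221_1 h.p0231) (run_R (rR3221_0 h.p2031) (run_nil _))) rfl rfl rfl) ae_no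
theorem tl2131 (h : Q A a b c d) : ATok (SEM a b c d) (ltr a b c d) al2131 :=
  at_l rfl (ae_ok (run_R (rR3311_1 h.p2013) (run_S (sS3311_1 h.p2013) (run_nil _))) rfl rfl rfl) (ae_ok (run_R (rR3221_2 h.p2013) (run_nil _)) rfl rfl rfl) ae_no (ae_ok (run_S (sS3211_3 h.p2013) (run_R (rR3221_2 h.p2031) (run_nil _))) rfl rfl rfl)
theorem tl2212 (h : Q A a b c d) : ATok (SEM a b c d) (ltr a b c d) al2212 :=
  at_l rfl (ae_ok (run_R (rR3221_0 h.p0132) (run_nil _)) rfl rfl rfl) (ae_ok (run_S (sS2221_1 h.p0132) (run_R (rR3221_0 h.p1032) (run_nil _))) rfl rfl rfl) (ae_ok (run_R (rR2222_3 h.p0132) (run_S (sS2222_2 h.p0132) (run_S (sS2222_3 h.p3102) (run_S (sS2222_2 h.p2103) (run_nil _))))) rfl rfl rfl) ae_no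
theorem tl2221 (h : Q A a b c d) : ATok (SEM a b c d) (ltr a b c d) al2221 :=
  at_l rfl (ae_ok (run_R (rR3221_0 h) (run_nil _)) rfl rfl rfl) (ae_ok (run_S (sS2221_1 h) (run_R (rR3221_0 h.p1023) (run_nil _))) rfl rfl rfl) (ae_ok (run_S (sS2221_2 h) (run_R (rR3221_0 h.p2103) (run_S (sS3221_2 h.p2103) (run_nil _)))) rfl rfl rfl) (ae_ok (run_R (rR2222_3 h) (run_nil _)) rfl rfl rfl)
theorem tl2230 (h : Q A a b c d) : ATok (SEM a b c d) (ltr a b c d) al2230 :=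
  at_l rfl (ae_ok (run_R (rR3320_1 h.p2013) (run_S (sS3320_1 h.p2013) (run_nil _))) rfl rfl rfl) (ae_ok (run_S (sS3220_2 h.p2013) (run_R (rR3320_1 h.p2103) (run_S (sS3320_1 h.p2103) (run_nil _)))) rfl rfl rfl) ae_no (ae_ok (run_R (rR3221_3 h.p2013) (run_nil _)) rfl rfl rfl)
theorem tl2302 (h : Q A a b c d) : ATok (SEM a b c d) (ltr a b c d) al2302 :=
  at_l rfl (ae_ok (run_R (rR3320_1 h.p1032) (run_S (sS3320_1 h.p1032) (run_nil _))) rfl rfl rfl) ae_no (ae_ok (run_R (rR3221_3 h.p1032) (run_nil _)) rfl rfl rfl) ae_no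
theorem tl2311 (h : Q A a b c d) : ATok (SEM a b c d) (ltr a b c d) al2311 :=
  at_l rfl (ae_ok (run_R (rR3311_1 h.p1023) (run_S (sS3311_1 h.p1023) (run_nil _))) rfl rfl rfl) ae_no (ae_ok (run_R (rR3221_2 h.p1023) (run_nil _)) rfl rfl rfl) (ae_ok (run_S (sS3211_3 h.p1023) (run_R (rR3221_2 h.p1032) (run_nil _))) rfl rfl rfl)
theorem tl2320 (h : Q A a b c d) : ATok (SEM a b c d) (ltr a b c d) al2320 :=
  at_l rfl (ae_ok (run_R (rR3320_1 h.p1023) (run_S (sS3320_1 h.p1023) (run_nil _))) rfl rfl rfl) ae_no (ae_ok (run_S (sS3220_2 h.p1023) (run_R (rR3320_1 h.p1203) (run_nil _))) rfl rfl rfl) (ae_ok (run_R (rR3221_3 h.p1023) (run_nil _)) rfl rfl rfl)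
theorem tl3022 (h : Q A a b c d) : ATok (SEM a b c d) (ltr a b c d) al3022 :=
  at_l rfl (ae_ok (run_R (rR4220_0 h.p0231) (run_nil _)) rfl rfl rfl) (ae_ok (run_R (rR3221_3 h.p0231) (run_nil _)) rfl rfl rfl) (ae_ok (run_R (rR3320_1 h.p0231) (run_nil _)) rfl rfl rfl) ae_no
theorem tl3112 (h : Q A a b c d) : ATok (SEM a b c d) (ltr a b c d) al3112 :=
  at_l rfl (ae_ok (run_R (rR4211_0 h.p0312) (run_nil _)) rfl rfl rfl) (ae_ok (run_R (rR3221_2 h.p0312) (run_S (sS3221_2 h.p0312) (run_nil _))) rfl rfl rfl) (ae_ok (run_S (sS3211_3 h.p0312) (run_R (rR3221_2 h.p0321) (run_S (sS3221_2 h.p0321) (run_nil _)))) rfl rfl rfl) ae_no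
theorem tl3121 (h : Q A a b c d) : ATok (SEM a b c d) (ltr a b c d) al3121 :=
  at_l rfl (ae_ok (run_R (rR4211_0 h.p0213) (run_nil _)) rfl rfl rfl) (ae_ok (run_R (rR3221_2 h.p0213) (run_S (sS3221_2 h.p0213) (run_nil _))) rfl rfl rfl) (ae_ok (run_R (rR3311_1 h.p0213) (run_nil _)) rfl rfl rfl) (ae_ok (run_S (sS3211_3 h.p0213) (run_R (rR3221_2 h.p0231) (run_nil _))) rfl rfl rfl)
theorem tl3202 (h : Q A a b c d) : ATok (SEM a b c d) (ltr a b c d) al3202 :=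
  at_l rfl (ae_ok (run_R (rR4220_0 h.p0132) (run_nil _)) rfl rfl rfl) (ae_ok (run_R (rR3320_1 h.p0132) (run_nil _)) rfl rfl rfl) (ae_ok (run_R (rR3221_3 h.p0132) (run_nil _)) rfl rfl rfl) ae_no
theorem tl3211 (h : Q A a b c d) : ATok (SEM a b c d) (ltr a b c d) al3211 :=
  at_l rfl (ae_ok (run_R (rR4211_0 h) (run_nil _)) rfl rfl rfl) (ae_ok (run_R (rR3311_1 h) (run_nil _)) rfl rfl rfl) (ae_ok (run_R (rR3221_2 h) (run_nil _)) rfl rfl rfl) (ae_ok (run_S (sS3211_3 h) (run_R (rR3221_2 h.p0132) (run_nil _))) rfl rfl rfl)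
theorem tl3220 (h : Q A a b c d) : ATok (SEM a b c d) (ltr a b c d) al3220 :=
  at_l rfl (ae_ok (run_R (rR4220_0 h) (run_nil _)) rfl rfl rfl) (ae_ok (run_R (rR3320_1 h) (run_nil _)) rfl rfl rfl) (ae_ok (run_S (sS3220_2 h) (run_R (rR3320_1 h.p0213) (run_nil _))) rfl rfl rfl) (ae_ok (run_R (rR3221_3 h) (run_nil _)) rfl rfl rfl)
theorem tl4012 (h : Q A a b c d) : ATok (SEM a b c d) (ltr a b c d) al4012 :=
  at_l rfl (ae_ok (run_Z (run_R (rR5210_0 h.p0321) (run_nil _)) (fun k => ez5210 k (Nat.zero_le k))) rfl rfl rfl) (ae_ok (run_R (rR4211_3 h.p0321) (run_S (sS4211_3 h.p0321) (run_nil _))) rfl rfl rfl) (ae_ok (run_R (rR4220_2 h.p0321) (run_S (sS4220_2 h.p0321) (run_nil _))) rfl rfl rfl) ae_no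
theorem tl4021 (h : Q A a b c d) : ATok (SEM a b c d) (ltr a b c d) al4021 :=
  at_l rfl (ae_ok (run_Z (run_R (rR5210_0 h.p0231) (run_nil _)) (fun k => ez5210 k (Nat.zero_le k))) rfl rfl rfl) (ae_ok (run_R (rR4211_3 h.p0231) (run_S (sS4211_3 h.p0231) (run_nil _))) rfl rfl rfl) ae_no (ae_ok (run_R (rR4220_2 h.p0231) (run_nil _)) rfl rfl rfl)
theorem tl4102 (h : Q A a b c d) : ATok (SEM a b c d) (ltr a b c d) al4102 :=
  at_l rfl (ae_ok (run_Z (run_R (rR5210_0 h.p0312) (run_nil _)) (fun k => ez5210 k (Nat.zero_le k))) rfl rfl rfl) (ae_ok (run_R (rR4220_2 h.p0312) (run_S (sS4220_2 h.p0312) (run_nil _))) rfl rfl rfl) (ae_ok (run_R (rR4211_3 h.p0312) (run_nil _)) rfl rfl rfl) ae_no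
theorem tl4111 (h : Q A a b c d) : ATok (SEM a b c d) (ltr a b c d) al4111 :=
  at_l rfl (ae_ok (run_Z (run_R (rR5111_0 h) (run_nil _)) (fun k => ez5111 k (Nat.zero_le k))) rfl rfl rfl) (ae_ok (run_R (rR4211_1 h) (run_nil _)) rfl rfl rfl) (ae_ok (run_S (sS4111_2 h) (run_R (rR4211_1 h.p0213) (run_nil _))) rfl rfl rfl) (ae_ok (run_S (sS4111_3 h) (run_R (rR4211_1 h.p0321) (run_S (sS4211_3 h.p0321) (run_nil _)))) rfl rfl rfl)
theorem tl4120 (h : Q A a b c d) : ATok (SEM a b c d) (ltr a b c d) al4120 :=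
  at_l rfl (ae_ok (run_Z (run_R (rR5210_0 h.p0213) (run_nil _)) (fun k => ez5210 k (Nat.zero_le k))) rfl rfl rfl) (ae_ok (run_R (rR4220_2 h.p0213) (run_S (sS4220_2 h.p0213) (run_nil _))) rfl rfl rfl) ae_no (ae_ok (run_R (rR4211_3 h.p0213) (run_nil _)) rfl rfl rfl)
theorem tl4201 (h : Q A a b c d) : ATok (SEM a b c d) (ltr a b c d) al4201 :=
  at_l rfl (ae_ok (run_Z (run_R (rR5210_0 h.p0132) (run_nil _)) (fun k => ez5210 k (Nat.zero_le k))) rfl rfl rfl) (ae_ok (run_Z (run_R (rR4310_1 h.p0132) (run_nil _)) (fun k => ez4310 k (Nat.zero_le k))) rfl rfl rfl) (ae_ok (run_R (rR4211_3 h.p0132) (run_S (sS4211_3 h.p0132) (run_nil _))) rfl rfl rfl) (ae_ok (run_R (rR4220_2 h.p0132) (run_nil _)) rfl rfl rfl)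
theorem tl4210 (h : Q A a b c d) : ATok (SEM a b c d) (ltr a b c d) al4210 :=
  at_l rfl (ae_ok (run_Z (run_R (rR5210_0 h) (run_nil _)) (fun k => ez5210 k (Nat.zero_le k))) rfl rfl rfl) (ae_ok (run_Z (run_R (rR4310_1 h) (run_nil _)) (fun k => ez4310 k (Nat.zero_le k))) rfl rfl rfl) (ae_ok (run_R (rR4220_2 h) (run_nil _)) rfl rfl rfl) (ae_ok (run_R (rR4211_3 h) (run_nil _)) rfl rfl rfl)
theorem TV7 (h : Q A a b c d) : ATok (SEM a b c d) (ltr a b c d) AV7 :=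
  ⟨⟨⟨⟨tl0232 h, ⟨tl0322 h, tl1132 h⟩⟩, ⟨⟨tl1222 h, tl1231 h⟩, ⟨tl1312 h, tl1321 h⟩⟩⟩, ⟨⟨tl2032 h, ⟨tl2122 h, tl2131 h⟩⟩, ⟨⟨tl2212 h, tl2221 h⟩, ⟨tl2230 h, tl2302 h⟩⟩⟩⟩, ⟨⟨⟨tl2311 h, ⟨tl2320 h, tl3022 h⟩⟩, ⟨⟨tl3112 h, tl3121 h⟩, ⟨tl3202 h, tl3211 h⟩⟩⟩, ⟨⟨⟨tl3220 h, tl4012 h⟩, ⟨tl4021 h, tl4102 h⟩⟩, ⟨⟨tl4111 h, tl4120 h⟩, ⟨tl4201 h, tl4210 h⟩⟩⟩⟩⟩
theorem TW8 (h : Q A a b c d) : ATok (SEM a b c d) (ltr a b c d) AW8 := ⟨TW7 h, TV7 h⟩

end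

end Pool.Agent.L3E.GJ
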