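import Pool.Agent.L3E.GJ.F1

set_option autoImplicit false
set_option maxRecDepth 100000
set_option linter.unusedVariables false
set_option exponentiation.threshold 100000

/-! # L3E, module GJ.F2: facts -/

namespace Pool.Agent.L3E.GJ

section
variable {K : Type} [Ring K] {A : Set K} {a b c d : K}

theorem z4410 (h : Q A a b c d) : WP ![4, 4, 1, 0] ![a, b, c, d] (zfam : ℕ → K) :=
  wp_step4 (F := fun r => r) (fun _ => rfl) (by decide) (Or.inr ⟨_, wp1023 (w4310 h.p1023), wp_z ez4310⟩) (Or.inr ⟨_, wp0123 (w4310 h), wp_z ez4310⟩) (Or.inr ⟨_, wp0123 (z4400 h), wp_z (fun _ _ => rfl)⟩) (Or.inl rfl)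
theorem z5310 (h : Q A a b c d) : WP ![5, 3, 1, 0] ![a, b, c, d] (zfam : ℕ → K) :=
  wp_step4 (F := fun r => r) (fun _ => rfl) (by decide) (Or.inr ⟨_, wp0123 (w4310 h), wp_z ez4310⟩) (Or.inr ⟨_, wp0123 (w5210 h), wp_z ez5210⟩) (Or.inr ⟨_, wp0123 (z5300 h), wp_z (fun _ _ => rfl)⟩) (Or.inl rfl)
theorem z5400 (h : Q A a b c d) : WP ![5, 4, 0, 0] ![a, b, c, d] (zfam : ℕ → K) :=
  wp_step4 (F := fun r => r) (fun _ => rfl) (by decide) (Or.inr ⟨_, wp0123 (z4400 h), wp_z (fun _ _ => rfl)⟩) (Or.inr ⟨_, wp0123 (z5300 h), wp_z (fun _ _ => rfl)⟩) (Or.inl rfl) (Or.inl rfl)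
theorem z6111 (h : Q A a b c d) : WP ![6, 1, 1, 1] ![a, b, c, d] (zfam : ℕ → K) :=
  wp_step4 (F := fun r => r) (fun _ => rfl) (by decide) (Or.inr ⟨_, wp0123 (w5111 h), wp_z ez5111⟩) (Or.inr ⟨_, wp0231 (z6110 h.p0231), wp_z (fun _ _ => rfl)⟩) (Or.inr ⟨_, wp0132 (z6110 h.p0132), wp_z (fun _ _ => rfl)⟩) (Or.inr ⟨_, wp0123 (z6110 h), wp_z (fun _ _ => rfl)⟩)
theorem z6210 (h : Q A a b c d) : WP ![6, 2, 1, 0] ![a, b, c, d] (zfam : ℕ → K) :=
  wp_step4 (F := fun r => r) (fun _ => rfl) (by decide) (Or.inr ⟨_, wp0123 (w5210 h), wp_z ez5210⟩) (Or.inr ⟨_, wp0123 (z6110 h), wp_z (fun _ _ => rfl)⟩) (Or.inr ⟨_, wp0123 (z6200 h), wp_z (fun _ _ => rfl)⟩) (Or.inl rfl)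
theorem z6300 (h : Q A a b c d) : WP ![6, 3, 0, 0] ![a, b, c, d] (zfam : ℕ → K) :=
  wp_step4 (F := fun r => r) (fun _ => rfl) (by decide) (Or.inr ⟨_, wp0123 (z5300 h), wp_z (fun _ _ => rfl)⟩) (Or.inr ⟨_, wp0123 (z6200 h), wp_z (fun _ _ => rfl)⟩) (Or.inl rfl) (Or.inl rfl)
theorem z7110 (h : Q A a b c d) : WP ![7, 1, 1, 0] ![a, b, c, d] (zfam : ℕ → K) :=
  wp_step4 (F := fun r => r) (fun _ => rfl) (by decide) (Or.inr ⟨_, wp0123 (z6110 h), wp_z (fun _ _ => rfl)⟩) (Or.inr ⟨_, wp0213 (z7100 h.p0213), wp_z (fun _ _ => rfl)⟩) (Or.inr ⟨_, wp0123 (z7100 h), wp_z (fun _ _ => rfl)⟩) (Or.inl rfl)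
theorem z7200 (h : Q A a b c d) : WP ![7, 2, 0, 0] ![a, b, c, d] (zfam : ℕ → K) :=
  wp_step4 (F := fun r => r) (fun _ => rfl) (by decide) (Or.inr ⟨_, wp0123 (z6200 h), wp_z (fun _ _ => rfl)⟩) (Or.inr ⟨_, wp0123 (z7100 h), wp_z (fun _ _ => rfl)⟩) (Or.inl rfl) (Or.inl rfl)
theorem z8100 (h : Q A a b c d) : WP ![8, 1, 0, 0] ![a, b, c, d] (zfam : ℕ → K) :=
  wp_step4 (F := fun r => r) (fun _ => rfl) (by decide) (Or.inr ⟨_, wp0123 (z7100 h), wp_z (fun _ _ => rfl)⟩) (Or.inr ⟨_, wp0123 (z8000 h), wp_z (fun _ _ => rfl)⟩) (Or.inl rfl) (Or.inl rfl)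
theorem y5220_0 : ∀ k, k < 5 → symOf (ps5220 a b c d) (k + 0) = e4220 a b c d k * a :=
  sy_hd
theorem y5211_0 : ∀ k, k < 21 → symOf (ps5211 a b c d) (k + 0) = e4211 a b c d k * a :=
  sy_hd
theorem y4320_0 : ∀ k, k < 4 → symOf (ps4320 a b c d) (k + 0) = e3320 a b c d k * a :=
  sy_hd
theorem y4320_1 : ∀ k, k < 5 → symOf (ps4320 a b c d) (k + 4) = e4220 a b c d k * b :=
  sy_tl (o := 0) (o' := 4) (sy_hd) rfl
theorem y4311_0 : ∀ k, k < 34 → symOf (ps4311 a b c d) (k + 0) = e3311 a b c d k * a :=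
  sy_hd
theorem y4311_1 : ∀ k, k < 21 → symOf (ps4311 a b c d) (k + 34) = e4211 a b c d k * b :=
  sy_tl (o := 0) (o' := 34) (sy_hd) rfl
theorem y4221_0 : ∀ k, k < 144 → symOf (ps4221 a b c d) (k + 0) = e3221 a b c d k * a :=
  sy_hd
theorem y4221_1 : ∀ k, k < 21 → symOf (ps4221 a b c d) (k + 144) = e4211 a c b d k * b :=
  sy_tl (o := 0) (o' := 144) (sy_hd) rfl
theorem y4221_2 : ∀ k, k < 21 → symOf (ps4221 a b c d) (k + 165) = e4211 a b c d k * c :=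
  sy_tl (o := 21) (o' := 165) (sy_tl (o := 0) (o' := 21) (sy_hd) rfl) rfl
theorem y4221_3 : ∀ k, k < 5 → symOf (ps4221 a b c d) (k + 186) = e4220 a b c d k * d :=
  sy_tl (o := 42) (o' := 186) (sy_tl (o := 21) (o' := 42) (sy_tl (o := 0) (o' := 21) (sy_hd) rfl) rfl) rfl
theorem y3330_0 : ∀ k, k < 4 → symOf (ps3330 a b c d) (k + 0) = e3320 b c a d k * a :=
  sy_hd
theorem y3330_1 : ∀ k, k < 4 → symOf (ps3330 a b c d) (k + 4) = e3320 a c b d k * b :=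
  sy_tl (o := 0) (o' := 4) (sy_hd) rfl
theorem y3330_2 : ∀ k, k < 4 → symOf (ps3330 a b c d) (k + 8) = e3320 a b c d k * c :=
  sy_tl (o := 4) (o' := 8) (sy_tl (o := 0) (o' := 4) (sy_hd) rfl) rfl
theorem y3321_0 : ∀ k, k < 144 → symOf (ps3321 a b c d) (k + 0) = e3221 b a c d k * a :=
  sy_hd
theorem y3321_1 : ∀ k, k < 144 → symOf (ps3321 a b c d) (k + 144) = e3221 a b c d k * b :=
  sy_tl (o := 0) (o' := 144) (sy_hd) rfl
theorem y3321_2 : ∀ k, k < 34 → symOf (ps3321 a b c d) (k + 288) = e3311 a b c d k * c :=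
  sy_tl (o := 144) (o' := 288) (sy_tl (o := 0) (o' := 144) (sy_hd) rfl) rfl
theorem y3321_3 : ∀ k, k < 4 → symOf (ps3321 a b c d) (k + 322) = e3320 a b c d k * d :=
  sy_tl (o := 178) (o' := 322) (sy_tl (o := 34) (o' := 178) (sy_tl (o := 0) (o' := 34) (sy_hd) rfl) rfl) rfl
theorem y3222_0 : ∀ k, k < 396 → symOf (ps3222 a b c d) (k + 0) = e2222 a b c d k * a :=
  sy_hd
theorem y3222_1 : ∀ k, k < 144 → symOf (ps3222 a b c d) (k + 396) = e3221 a c d b k * b :=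
  sy_tl (o := 0) (o' := 396) (sy_hd) rfl
theorem y3222_2 : ∀ k, k < 144 → symOf (ps3222 a b c d) (k + 540) = e3221 a b d c k * c :=
  sy_tl (o := 144) (o' := 540) (sy_tl (o := 0) (o' := 144) (sy_hd) rfl) rfl
theorem y3222_3 : ∀ k, k < 144 → symOf (ps3222 a b c d) (k + 684) = e3221 a b c d k * d :=
  sy_tl (o := 288) (o' := 684) (sy_tl (o := 144) (o' := 288) (sy_tl (o := 0) (o' := 144) (sy_hd) rfl) rfl) rfl
theorem tf9_2222 (h : Q A a b c d) : ATok (SEM a b c d) (ltr a b c d) af9_2222 :=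
  at_l rfl (ae_ok (run_F (n := 396) rfl ez2222 y3222_0) rfl rfl rfl) ae_no ae_no ae_no
theorem tf9_2321 (h : Q A a b c d) : ATok (SEM a b c d) (ltr a b c d) af9_2321 :=
  at_l rfl (ae_ok (run_F (n := 144) rfl ez3221 y3321_0) rfl rfl rfl) ae_no ae_no ae_no
theorem tf9_3122 (h : Q A a b c d) : ATok (SEM a b c d) (ltr a b c d) af9_3122 :=
  at_l rfl ae_no (ae_ok (run_F (n := 144) rfl ez3221 y3222_1) rfl rfl rfl) ae_no ae_no
theorem tf9_3212 (h : Q A a b c d) : ATok (SEM a b c d) (ltr a b c d) af9_3212 :=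
  at_l rfl ae_no ae_no (ae_ok (run_F (n := 144) rfl ez3221 y3222_2) rfl rfl rfl) ae_no
theorem tf9_3221 (h : Q A a b c d) : ATok (SEM a b c d) (ltr a b c d) af9_3221 :=
  at_l rfl (ae_ok (run_F (n := 144) rfl ez3221 y4221_0) rfl rfl rfl) (ae_ok (run_F (n := 144) rfl ez3221 y3321_1) rfl rfl rfl) ae_no (ae_ok (run_F (n := 144) rfl ez3221 y3222_3) rfl rfl rfl)
theorem tf9_3311 (h : Q A a b c d) : ATok (SEM a b c d) (ltr a b c d) af9_3311 :=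
  at_l rfl (ae_ok (run_F (n := 34) rfl ez3311 y4311_0) rfl rfl rfl) ae_no (ae_ok (run_F (n := 34) rfl ez3311 y3321_2) rfl rfl rfl) ae_no
theorem tf9_3320 (h : Q A a b c d) : ATok (SEM a b c d) (ltr a b c d) af9_3320 :=
  at_l rfl ae_no ae_no ae_no (ae_ok (run_F (n := 4) rfl ez3320 y3321_3) rfl rfl rfl)
theorem tf9_4121 (h : Q A a b c d) : ATok (SEM a b c d) (ltr a b c d) af9_4121 :=
  at_l rfl ae_no (ae_ok (run_F (n := 21) rfl ez4211 y4221_1) rfl rfl rfl) ae_no ae_no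
theorem tf9_4211 (h : Q A a b c d) : ATok (SEM a b c d) (ltr a b c d) af9_4211 :=
  at_l rfl (ae_ok (run_F (n := 21) rfl ez4211 y5211_0) rfl rfl rfl) (ae_ok (run_F (n := 21) rfl ez4211 y4311_1) rfl rfl rfl) (ae_ok (run_F (n := 21) rfl ez4211 y4221_2) rfl rfl rfl) ae_no
theorem tf9_4220 (h : Q A a b c d) : ATok (SEM a b c d) (ltr a b c d) af9_4220 :=
  at_l rfl (ae_ok (run_F (n := 5) rfl ez4220 y5220_0) rfl rfl rfl) ae_no ae_no (ae_ok (run_F (n := 5) rfl ez4220 y4221_3) rfl rfl rfl)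
theorem TF9 (h : Q A a b c d) : ATok (SEM a b c d) (ltr a b c d) AF9 :=
  ⟨⟨⟨tf9_2222 h, tf9_2321 h⟩, ⟨tf9_3122 h, ⟨tf9_3212 h, tf9_3221 h⟩⟩⟩, ⟨⟨tf9_3311 h, tf9_3320 h⟩, ⟨tf9_4121 h, ⟨tf9_4211 h, tf9_4220 h⟩⟩⟩⟩
theorem TT9 (h : Q A a b c d) : ATok (SEM a b c d) (ltr a b c d) AT9 := ⟨TW8 h, TF9 h⟩
theorem qL5220_0 (h : Q A a b c d) : List.Forall₂ (EntOk a (symOf (ps5220 a b c d)))
    (ps4220 a b c d) pL5220_0 :=
  (.cons (ent_i rfl rfl (ops_L (lL4220_0 h) (ops_nil _)) ez4220 y5220_0) (.cons (ent_z rfl (ops_L (lL5210_0 h.p0213) (ops_nil _)) ez5210) (.cons (ent_z rfl (ops_L (lL5210_0 h) (ops_nil _)) ez5210) .nil)))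
theorem qL5220_1 (h : Q A a b c d) : List.Forall₂ (EntOk b (symOf (ps5220 a b c d)))
    (ps5210 a c b d) pL5220_1 :=
  (.cons (ent_i rfl rfl (ops_L (lL4220_2 h.p0213) (ops_S (sS4220_2 h.p0213) (ops_nil _))) ez4220 y5220_0) .nil)
theorem qL5220_2 (h : Q A a b c d) : List.Forall₂ (EntOk c (symOf (ps5220 a b c d)))
    (ps5210 a b c d) pL5220_2 :=
  (.cons (ent_i rfl rfl (ops_L (lL4220_2 h) (ops_nil _)) ez4220 y5220_0) .nil)
theorem gen5220 (h : Q A a b c d) : ∀ m ∈ gList G5220, vec (symOf (ps5220 a b c d)) m = 0 :=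
  gChk_spec (sem := SEM a b c d) (c := 30033) h.h (TT9 h) (init_val (a := a) (b := b) (c := c) (d := d) _ rfl) (ltr_mem h) (by norm_num) (by norm_num) kG5220 kH5220
theorem nf5220 (h : Q A a b c d) : ∀ r, vec (symOf (ps5220 a b c d)) r = vec (e5220 a b c d) (appM N5220 r) :=
  block_sound2 h.h.two (ps := ps5220 a b c d) (ns := 5) rfl (raw5 (srcRow_spec h.h.two (qL5220_0 h) (nf4220 h) wf4220) (srcRow_spec h.h.two (qL5220_1 h) (nf5210 h.p0213) wf5210) (srcRow_spec h.h.two (qL5220_2 h) (nf5210 h) wf5210) (zf_spec _) (nthL_spec (gen5220 h))) kb5220 co5220 u5220 el5220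
theorem ez5220 : ∀ k, 1 ≤ k → e5220 a b c d k = 0 := eOf_ge _ (wfT_D wf5220).2
theorem qS5220_2 (h : Q A a b c d) : List.Forall₂ (EntOk 1 (symOf (ps5220 a b c d)))
    (ps5220 a c b d) pS5220_2 :=
  (.cons (ent_i rfl rfl (ops_S (sS4220_2 h.p0213) (ops_nil _)) ez4220 y5220_0) (.cons (ent_n ez5210) (.cons (ent_n ez5210) .nil)))
theorem sS5220_2 (h : Q A a b c d) : ∀ v, vec (e5220 a b c d) v = vec (e5220 a c b d) (appM S5220_2 v) :=
  fun v => (one_mul _).symm.trans (table_sound2 h.h.two (qS5220_2 h.p0213) (nf5220 h.p0213) kw5220_2 kS5220_2 v)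
theorem lL5220_0 (h : Q A a b c d) : ∀ v, a * vec (e4220 a b c d) v = vec (e5220 a b c d) (appM L5220_0 v) :=
  table_sound2 h.h.two (qL5220_0 h) (nf5220 h) kv5220_0 kL5220_0
theorem rR5220_0 (h : Q A a b c d) : ∀ v, vec (e4220 a b c d) v * a = vec (e5220 a b c d) (appM N5220 (Nat.shiftLeft (Nat.mod v 32) 0)) :=
  r_fact (n := 5) rfl ez4220 y5220_0 (nf5220 h)
theorem w5220 (h : Q A a b c d) : WP ![5, 2, 2, 0] ![a, b, c, d] (e5220 a b c d) :=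
  wp_step4 (nf5220 h) (by decide) (Or.inr ⟨_, wp0123 (w4220 h), wp_r ez4220 y5220_0⟩) (Or.inr ⟨_, wp0213 (w5210 h.p0213), wp_z ez5210⟩) (Or.inr ⟨_, wp0123 (w5210 h), wp_z ez5210⟩) (Or.inl rfl)

theorem qL5211_0 (h : Q A a b c d) : List.Forall₂ (EntOk a (symOf (ps5211 a b c d)))
    (ps4211 a b c d) pL5211_0 :=
  (.cons (ent_i rfl rfl (ops_L (lL4211_0 h) (ops_nil _)) ez4211 y5211_0) (.cons (ent_z rfl (ops_L (lL5111_0 h) (ops_nil _)) ez5111) (.cons (ent_z rfl (ops_L (lL5210_0 h.p0132) (ops_nil _)) ez5210) (.cons (ent_z rfl (ops_L (lL5210_0 h) (ops_nil _)) ez5210) .nil))))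
theorem qL5211_1 (h : Q A a b c d) : List.Forall₂ (EntOk b (symOf (ps5211 a b c d)))
    (ps5111 a b c d) pL5211_1 :=
  (.cons (ent_i rfl rfl (ops_L (lL4211_1 h) (ops_nil _)) ez4211 y5211_0) .nil)
theorem qL5211_2 (h : Q A a b c d) : List.Forall₂ (EntOk c (symOf (ps5211 a b c d)))
    (ps5210 a b d c) pL5211_2 :=
  (.cons (ent_i rfl rfl (ops_L (lL4211_3 h.p0132) (ops_S (sS4211_3 h.p0132) (ops_nil _))) ez4211 y5211_0) .nil)
theorem qL5211_3 (h : Q A a b c d) : List.Forall₂ (EntOk d (symOf (ps5211 a b c d)))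
    (ps5210 a b c d) pL5211_3 :=
  (.cons (ent_i rfl rfl (ops_L (lL4211_3 h) (ops_nil _)) ez4211 y5211_0) .nil)
theorem gen5211 (h : Q A a b c d) : ∀ m ∈ gList G5211, vec (symOf (ps5211 a b c d)) m = 0 :=
  gChk_spec (sem := SEM a b c d) (c := 30034) h.h (TT9 h) (init_val (a := a) (b := b) (c := c) (d := d) _ rfl) (ltr_mem h) (by norm_num) (by norm_num) kG5211 kH5211
theorem nf5211 (h : Q A a b c d) : ∀ r, vec (symOf (ps5211 a b c d)) r = vec (e5211 a b c d) (appM N5211 r) :=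
  block_sound2 h.h.two (ps := ps5211 a b c d) (ns := 21) rfl (raw5 (srcRow_spec h.h.two (qL5211_0 h) (nf4211 h) wf4211) (srcRow_spec h.h.two (qL5211_1 h) (nf5111 h) wf5111) (srcRow_spec h.h.two (qL5211_2 h) (nf5210 h.p0132) wf5210) (srcRow_spec h.h.two (qL5211_3 h) (nf5210 h) wf5210) (nthL_spec (gen5211 h))) kb5211 co5211 u5211 el5211
theorem ez5211 : ∀ k, 3 ≤ k → e5211 a b c d k = 0 := eOf_ge _ (wfT_D wf5211).2
theorem qS5211_3 (h : Q A a b c d) : List.Forall₂ (EntOk 1 (symOf (ps5211 a b c d)))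
    (ps5211 a b d c) pS5211_3 :=
  (.cons (ent_i rfl rfl (ops_S (sS4211_3 h.p0132) (ops_nil _)) ez4211 y5211_0) (.cons (ent_n ez5111) (.cons (ent_n ez5210) (.cons (ent_n ez5210) .nil))))
theorem sS5211_3 (h : Q A a b c d) : ∀ v, vec (e5211 a b c d) v = vec (e5211 a b d c) (appM S5211_3 v) :=
  fun v => (one_mul _).symm.trans (table_sound2 h.h.two (qS5211_3 h.p0132) (nf5211 h.p0132) kw5211_3 kS5211_3 v)
theorem lL5211_0 (h : Q A a b c d) : ∀ v, a * vec (e4211 a b c d) v = vec (e5211 a b c d) (appM L5211_0 v) :=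
  table_sound2 h.h.two (qL5211_0 h) (nf5211 h) kv5211_0 kL5211_0
theorem rR5211_0 (h : Q A a b c d) : ∀ v, vec (e4211 a b c d) v * a = vec (e5211 a b c d) (appM N5211 (Nat.shiftLeft (Nat.mod v 0x200000) 0)) :=
  r_fact (n := 21) rfl ez4211 y5211_0 (nf5211 h)
theorem w5211 (h : Q A a b c d) : WP ![5, 2, 1, 1] ![a, b, c, d] (e5211 a b c d) :=
  wp_step4 (nf5211 h) (by decide) (Or.inr ⟨_, wp0123 (w4211 h), wp_r ez4211 y5211_0⟩) (Or.inr ⟨_, wp0123 (w5111 h), wp_z ez5111⟩) (Or.inr ⟨_, wp0132 (w5210 h.p0132), wp_z ez5210⟩) (Or.inr ⟨_, wp0123 (w5210 h), wp_z ez5210⟩)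

theorem qL4320_0 (h : Q A a b c d) : List.Forall₂ (EntOk a (symOf (ps4320 a b c d)))
    (ps3320 a b c d) pL4320_0 :=
  (.cons (ent_i rfl rfl (ops_L (lL3320_1 h.p1023) (ops_S (sS3320_1 h.p1023) (ops_nil _))) ez3320 y4320_0) (.cons (ent_i rfl rfl (ops_L (lL4220_0 h) (ops_nil _)) ez4220 y4320_1) (.cons (ent_n ez3310) .nil)))
theorem qL4320_1 (h : Q A a b c d) : List.Forall₂ (EntOk b (symOf (ps4320 a b c d)))
    (ps4220 a b c d) pL4320_1 :=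
  (.cons (ent_i rfl rfl (ops_L (lL3320_1 h) (ops_nil _)) ez3320 y4320_0) (.cons (ent_i rfl rfl (ops_L (lL4220_2 h.p0213) (ops_S (sS4220_2 h.p0213) (ops_nil _))) ez4220 y4320_1) (.cons (ent_z rfl (ops_L (lL4310_1 h) (ops_nil _)) ez4310) .nil)))
theorem qL4320_2 (h : Q A a b c d) : List.Forall₂ (EntOk c (symOf (ps4320 a b c d)))
    (ps4310 a b c d) pL4320_2 :=
  (.cons (ent_n ez3310) (.cons (ent_i rfl rfl (ops_L (lL4220_2 h) (ops_nil _)) ez4220 y4320_1) .nil))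
theorem nf4320 (h : Q A a b c d) : ∀ r, vec (symOf (ps4320 a b c d)) r = vec (e4320 a b c d) (appM N4320 r) :=
  block_sound2 h.h.two (ps := ps4320 a b c d) (ns := 9) rfl (raw5 (srcRow_spec h.h.two (qL4320_0 h) (nf3320 h) wf3320) (srcRow_spec h.h.two (qL4320_1 h) (nf4220 h) wf4220) (srcRow_spec h.h.two (qL4320_2 h) (nf4310 h) wf4310) (zf_spec _) (zf_spec _)) kb4320 co4320 u4320 el4320
theorem ez4320 : ∀ k, 1 ≤ k → e4320 a b c d k = 0 := eOf_ge _ (wfT_D wf4320).2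
theorem lL4320_0 (h : Q A a b c d) : ∀ v, a * vec (e3320 a b c d) v = vec (e4320 a b c d) (appM L4320_0 v) :=
  table_sound2 h.h.two (qL4320_0 h) (nf4320 h) kv4320_0 kL4320_0
theorem lL4320_1 (h : Q A a b c d) : ∀ v, b * vec (e4220 a b c d) v = vec (e4320 a b c d) (appM L4320_1 v) :=
  table_sound2 h.h.two (qL4320_1 h) (nf4320 h) kv4320_1 kL4320_1
theorem rR4320_0 (h : Q A a b c d) : ∀ v, vec (e3320 a b c d) v * a = vec (e4320 a b c d) (appM N4320 (Nat.shiftLeft (Nat.mod v 16) 0)) :=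
  r_fact (n := 4) rfl ez3320 y4320_0 (nf4320 h)
theorem rR4320_1 (h : Q A a b c d) : ∀ v, vec (e4220 a b c d) v * b = vec (e4320 a b c d) (appM N4320 (Nat.shiftLeft (Nat.mod v 32) 4)) :=
  r_fact (n := 5) rfl ez4220 y4320_1 (nf4320 h)
theorem w4320 (h : Q A a b c d) : WP ![4, 3, 2, 0] ![a, b, c, d] (e4320 a b c d) :=
  wp_step4 (nf4320 h) (by decide) (Or.inr ⟨_, wp0123 (w3320 h), wp_r ez3320 y4320_0⟩) (Or.inr ⟨_, wp0123 (w4220 h), wp_r ez4220 y4320_1⟩) (Or.inr ⟨_, wp0123 (w4310 h), wp_z ez4310⟩) (Or.inl rfl)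

theorem qL4311_0 (h : Q A a b c d) : List.Forall₂ (EntOk a (symOf (ps4311 a b c d)))
    (ps3311 a b c d) pL4311_0 :=
  (.cons (ent_i rfl rfl (ops_L (lL3311_1 h.p1023) (ops_S (sS3311_1 h.p1023) (ops_nil _))) ez3311 y4311_0) (.cons (ent_i rfl rfl (ops_L (lL4211_0 h) (ops_nil _)) ez4211 y4311_1) (.cons (ent_n ez3310) (.cons (ent_n ez3310) .nil))))
theorem qL4311_1 (h : Q A a b c d) : List.Forall₂ (EntOk b (symOf (ps4311 a b c d)))
    (ps4211 a b c d) pL4311_1 :=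
  (.cons (ent_i rfl rfl (ops_L (lL3311_1 h) (ops_nil _)) ez3311 y4311_0) (.cons (ent_i rfl rfl (ops_L (lL4211_1 h) (ops_nil _)) ez4211 y4311_1) (.cons (ent_z rfl (ops_L (lL4310_1 h.p0132) (ops_nil _)) ez4310) (.cons (ent_z rfl (ops_L (lL4310_1 h) (ops_nil _)) ez4310) .nil))))
theorem qL4311_2 (h : Q A a b c d) : List.Forall₂ (EntOk c (symOf (ps4311 a b c d)))
    (ps4310 a b d c) pL4311_2 :=
  (.cons (ent_n ez3310) (.cons (ent_i rfl rfl (ops_L (lL4211_3 h.p0132) (ops_S (sS4211_3 h.p0132) (ops_nil _))) ez4211 y4311_1) .nil))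
theorem qL4311_3 (h : Q A a b c d) : List.Forall₂ (EntOk d (symOf (ps4311 a b c d)))
    (ps4310 a b c d) pL4311_3 :=
  (.cons (ent_n ez3310) (.cons (ent_i rfl rfl (ops_L (lL4211_3 h) (ops_nil _)) ez4211 y4311_1) .nil))
theorem gen4311 (h : Q A a b c d) : ∀ m ∈ gList G4311, vec (symOf (ps4311 a b c d)) m = 0 :=
  gChk_spec (sem := SEM a b c d) (c := 30036) h.h (TT9 h) (init_val (a := a) (b := b) (c := c) (d := d) _ rfl) (ltr_mem h) (by norm_num) (by norm_num) kG4311 kH4311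
theorem nf4311 (h : Q A a b c d) : ∀ r, vec (symOf (ps4311 a b c d)) r = vec (e4311 a b c d) (appM N4311 r) :=
  block_sound2 h.h.two (ps := ps4311 a b c d) (ns := 55) rfl (raw5 (srcRow_spec h.h.two (qL4311_0 h) (nf3311 h) wf3311) (srcRow_spec h.h.two (qL4311_1 h) (nf4211 h) wf4211) (srcRow_spec h.h.two (qL4311_2 h) (nf4310 h.p0132) wf4310) (srcRow_spec h.h.two (qL4311_3 h) (nf4310 h) wf4310) (nthL_spec (gen4311 h))) kb4311 co4311 u4311 el4311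
theorem ez4311 : ∀ k, 10 ≤ k → e4311 a b c d k = 0 := eOf_ge _ (wfT_D wf4311).2
theorem qS4311_3 (h : Q A a b c d) : List.Forall₂ (EntOk 1 (symOf (ps4311 a b c d)))
    (ps4311 a b d c) pS4311_3 :=
  (.cons (ent_i rfl rfl (ops_S (sS3311_3 h.p0132) (ops_nil _)) ez3311 y4311_0) (.cons (ent_i rfl rfl (ops_S (sS4211_3 h.p0132) (ops_nil _)) ez4211 y4311_1) (.cons (ent_n ez4310) (.cons (ent_n ez4310) .nil))))
theorem sS4311_3 (h : Q A a b c d) : ∀ v, vec (e4311 a b c d) v = vec (e4311 a b d c) (appM S4311_3 v) :=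
  fun v => (one_mul _).symm.trans (table_sound2 h.h.two (qS4311_3 h.p0132) (nf4311 h.p0132) kw4311_3 kS4311_3 v)
theorem lL4311_0 (h : Q A a b c d) : ∀ v, a * vec (e3311 a b c d) v = vec (e4311 a b c d) (appM L4311_0 v) :=
  table_sound2 h.h.two (qL4311_0 h) (nf4311 h) kv4311_0 kL4311_0
theorem lL4311_1 (h : Q A a b c d) : ∀ v, b * vec (e4211 a b c d) v = vec (e4311 a b c d) (appM L4311_1 v) :=
  table_sound2 h.h.two (qL4311_1 h) (nf4311 h) kv4311_1 kL4311_1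
theorem rR4311_0 (h : Q A a b c d) : ∀ v, vec (e3311 a b c d) v * a = vec (e4311 a b c d) (appM N4311 (Nat.shiftLeft (Nat.mod v 0x400000000) 0)) :=
  r_fact (n := 34) rfl ez3311 y4311_0 (nf4311 h)
theorem rR4311_1 (h : Q A a b c d) : ∀ v, vec (e4211 a b c d) v * b = vec (e4311 a b c d) (appM N4311 (Nat.shiftLeft (Nat.mod v 0x200000) 34)) :=
  r_fact (n := 21) rfl ez4211 y4311_1 (nf4311 h)
theorem w4311 (h : Q A a b c d) : WP ![4, 3, 1, 1] ![a, b, c, d] (e4311 a b c d) :=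
  wp_step4 (nf4311 h) (by decide) (Or.inr ⟨_, wp0123 (w3311 h), wp_r ez3311 y4311_0⟩) (Or.inr ⟨_, wp0123 (w4211 h), wp_r ez4211 y4311_1⟩) (Or.inr ⟨_, wp0132 (w4310 h.p0132), wp_z ez4310⟩) (Or.inr ⟨_, wp0123 (w4310 h), wp_z ez4310⟩)

theorem qL4221_0 (h : Q A a b c d) : List.Forall₂ (EntOk a (symOf (ps4221 a b c d)))
    (ps3221 a b c d) pL4221_0 :=
  (.cons (ent_i rfl rfl (ops_L (lL3221_0 h) (ops_nil _)) ez3221 y4221_0) (.cons (ent_i rfl rfl (ops_L (lL4211_0 h.p0213) (ops_nil _)) ez4211 y4221_1) (.cons (ent_i rfl rfl (ops_L (lL4211_0 h) (ops_nil _)) ez4211 y4221_2) (.cons (ent_i rfl rfl (ops_L (lL4220_0 h) (ops_nil _)) ez4220 y4221_3) .nil))))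
theorem qL4221_1 (h : Q A a b c d) : List.Forall₂ (EntOk b (symOf (ps4221 a b c d)))
    (ps4211 a c b d) pL4221_1 :=
  (.cons (ent_i rfl rfl (ops_L (lL3221_2 h.p0213) (ops_S (sS3221_2 h.p0213) (ops_nil _))) ez3221 y4221_0) (.cons (ent_i rfl rfl (ops_S (sS4111_2 h.p0213) (ops_L (lL4211_1 h) (ops_nil _))) ez4211 y4221_2) (.cons (ent_i rfl rfl (ops_L (lL4211_3 h.p0231) (ops_S (sS4211_3 h.p0231) (ops_nil _))) ez4211 y4221_1) (.cons (ent_i rfl rfl (ops_L (lL4220_2 h.p0213) (ops_S (sS4220_2 h.p0213) (ops_nil _))) ez4220 y4221_3) .nil))))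
theorem qL4221_2 (h : Q A a b c d) : List.Forall₂ (EntOk c (symOf (ps4221 a b c d)))
    (ps4211 a b c d) pL4221_2 :=
  (.cons (ent_i rfl rfl (ops_L (lL3221_2 h) (ops_nil _)) ez3221 y4221_0) (.cons (ent_i rfl rfl (ops_S (sS4111_2 h) (ops_L (lL4211_1 h.p0213) (ops_nil _))) ez4211 y4221_1) (.cons (ent_i rfl rfl (ops_L (lL4211_3 h.p0132) (ops_S (sS4211_3 h.p0132) (ops_nil _))) ez4211 y4221_2) (.cons (ent_i rfl rfl (ops_L (lL4220_2 h) (ops_nil _)) ez4220 y4221_3) .nil))))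
theorem qL4221_3 (h : Q A a b c d) : List.Forall₂ (EntOk d (symOf (ps4221 a b c d)))
    (ps4220 a b c d) pL4221_3 :=
  (.cons (ent_i rfl rfl (ops_L (lL3221_3 h) (ops_nil _)) ez3221 y4221_0) (.cons (ent_i rfl rfl (ops_L (lL4211_3 h.p0213) (ops_nil _)) ez4211 y4221_1) (.cons (ent_i rfl rfl (ops_L (lL4211_3 h) (ops_nil _)) ez4211 y4221_2) .nil)))
theorem gen4221 (h : Q A a b c d) : ∀ m ∈ gList G4221, vec (symOf (ps4221 a b c d)) m = 0 :=
  gChk_spec (sem := SEM a b c d) (c := 30037) h.h (TT9 h) (init_val (a := a) (b := b) (c := c) (d := d) _ rfl) (ltr_mem h) (by norm_num) (by norm_num) kG4221 kH4221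
theorem nf4221 (h : Q A a b c d) : ∀ r, vec (symOf (ps4221 a b c d)) r = vec (e4221 a b c d) (appM N4221 r) :=
  block_sound2 h.h.two (ps := ps4221 a b c d) (ns := 191) rfl (raw5 (srcRow_spec h.h.two (qL4221_0 h) (nf3221 h) wf3221) (srcRow_spec h.h.two (qL4221_1 h) (nf4211 h.p0213) wf4211) (srcRow_spec h.h.two (qL4221_2 h) (nf4211 h) wf4211) (srcRow_spec h.h.two (qL4221_3 h) (nf4220 h) wf4220) (nthL_spec (gen4221 h))) kb4221 co4221 u4221 el4221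
theorem ez4221 : ∀ k, 87 ≤ k → e4221 a b c d k = 0 := eOf_ge _ (wfT_D wf4221).2
theorem qS4221_2 (h : Q A a b c d) : List.Forall₂ (EntOk 1 (symOf (ps4221 a b c d)))
    (ps4221 a c b d) pS4221_2 :=
  (.cons (ent_i rfl rfl (ops_S (sS3221_2 h.p0213) (ops_nil _)) ez3221 y4221_0) (.cons (ent_i rfl rfl (ops_nil _) ez4211 y4221_2) (.cons (ent_i rfl rfl (ops_nil _) ez4211 y4221_1) (.cons (ent_i rfl rfl (ops_S (sS4220_2 h.p0213) (ops_nil _)) ez4220 y4221_3) .nil))))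
theorem sS4221_2 (h : Q A a b c d) : ∀ v, vec (e4221 a b c d) v = vec (e4221 a c b d) (appM S4221_2 v) :=
  fun v => (one_mul _).symm.trans (table_sound2 h.h.two (qS4221_2 h.p0213) (nf4221 h.p0213) kw4221_2 kS4221_2 v)
theorem lL4221_0 (h : Q A a b c d) : ∀ v, a * vec (e3221 a b c d) v = vec (e4221 a b c d) (appM L4221_0 v) :=
  table_sound2 h.h.two (qL4221_0 h) (nf4221 h) kv4221_0 kL4221_0
theorem lL4221_2 (h : Q A a b c d) : ∀ v, c * vec (e4211 a b c d) v = vec (e4221 a b c d) (appM L4221_2 v) :=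
  table_sound2 h.h.two (qL4221_2 h) (nf4221 h) kv4221_2 kL4221_2
theorem lL4221_3 (h : Q A a b c d) : ∀ v, d * vec (e4220 a b c d) v = vec (e4221 a b c d) (appM L4221_3 v) :=
  table_sound2 h.h.two (qL4221_3 h) (nf4221 h) kv4221_3 kL4221_3
theorem rR4221_0 (h : Q A a b c d) : ∀ v, vec (e3221 a b c d) v * a = vec (e4221 a b c d) (appM N4221 (Nat.shiftLeft (Nat.mod v 0x1000000000000000000000000000000000000) 0)) :=
  r_fact (n := 144) rfl ez3221 y4221_0 (nf4221 h)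
theorem rR4221_2 (h : Q A a b c d) : ∀ v, vec (e4211 a b c d) v * c = vec (e4221 a b c d) (appM N4221 (Nat.shiftLeft (Nat.mod v 0x200000) 165)) :=
  r_fact (n := 21) rfl ez4211 y4221_2 (nf4221 h)
theorem rR4221_3 (h : Q A a b c d) : ∀ v, vec (e4220 a b c d) v * d = vec (e4221 a b c d) (appM N4221 (Nat.shiftLeft (Nat.mod v 32) 186)) :=
  r_fact (n := 5) rfl ez4220 y4221_3 (nf4221 h)
theorem w4221 (h : Q A a b c d) : WP ![4, 2, 2, 1] ![a, b, c, d] (e4221 a b c d) :=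
  wp_step4 (nf4221 h) (by decide) (Or.inr ⟨_, wp0123 (w3221 h), wp_r ez3221 y4221_0⟩) (Or.inr ⟨_, wp0213 (w4211 h.p0213), wp_r ez4211 y4221_1⟩) (Or.inr ⟨_, wp0123 (w4211 h), wp_r ez4211 y4221_2⟩) (Or.inr ⟨_, wp0123 (w4220 h), wp_r ez4220 y4221_3⟩)

theorem qL3330_0 (h : Q A a b c d) : List.Forall₂ (EntOk a (symOf (ps3330 a b c d)))
    (ps3320 b c a d) pL3330_0 :=
  (.cons (ent_i rfl rfl (ops_S (sS3220_2 h.p2103) (ops_L (lL3320_1 h.p2013) (ops_S (sS3320_1 h.p2013) (ops_nil _)))) ez3320 y3330_1) (.cons (ent_i rfl rfl (ops_S (sS3220_2 h.p1203) (ops_L (lL3320_1 h.p1023) (ops_S (sS3320_1 h.p1023) (ops_nil _)))) ez3320 y3330_2) (.cons (ent_n ez3310) .nil)))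
theorem qL3330_1 (h : Q A a b c d) : List.Forall₂ (EntOk b (symOf (ps3330 a b c d)))
    (ps3320 a c b d) pL3330_1 :=
  (.cons (ent_i rfl rfl (ops_S (sS3220_2 h.p2013) (ops_L (lL3320_1 h.p2103) (ops_S (sS3320_1 h.p2103) (ops_nil _)))) ez3320 y3330_0) (.cons (ent_i rfl rfl (ops_S (sS3220_2 h.p0213) (ops_L (lL3320_1 h) (ops_nil _))) ez3320 y3330_2) (.cons (ent_n ez3310) .nil)))
theorem qL3330_2 (h : Q A a b c d) : List.Forall₂ (EntOk c (symOf (ps3330 a b c d)))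
    (ps3320 a b c d) pL3330_2 :=
  (.cons (ent_i rfl rfl (ops_S (sS3220_2 h.p1023) (ops_L (lL3320_1 h.p1203) (ops_nil _))) ez3320 y3330_0) (.cons (ent_i rfl rfl (ops_S (sS3220_2 h) (ops_L (lL3320_1 h.p0213) (ops_nil _))) ez3320 y3330_1) (.cons (ent_n ez3310) .nil)))
theorem nf3330 (h : Q A a b c d) : ∀ r, vec (symOf (ps3330 a b c d)) r = vec (e3330 a b c d) (appM N3330 r) :=
  block_sound2 h.h.two (ps := ps3330 a b c d) (ns := 12) rfl (raw5 (srcRow_spec h.h.two (qL3330_0 h) (nf3320 h.p1203) wf3320) (srcRow_spec h.h.two (qL3330_1 h) (nf3320 h.p0213) wf3320) (srcRow_spec h.h.two (qL3330_2 h) (nf3320 h) wf3320) (zf_spec _) (zf_spec _)) kb3330 co3330 u3330 el3330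
theorem ez3330 : ∀ k, 0 ≤ k → e3330 a b c d k = 0 := eOf_ge _ (wfT_D wf3330).2
theorem lL3330_2 (h : Q A a b c d) : ∀ v, c * vec (e3320 a b c d) v = vec (e3330 a b c d) (appM L3330_2 v) :=
  table_sound2 h.h.two (qL3330_2 h) (nf3330 h) kv3330_2 kL3330_2
theorem rR3330_2 (h : Q A a b c d) : ∀ v, vec (e3320 a b c d) v * c = vec (e3330 a b c d) (appM N3330 (Nat.shiftLeft (Nat.mod v 16) 8)) :=
  r_fact (n := 4) rfl ez3320 y3330_2 (nf3330 h)
theorem w3330 (h : Q A a b c d) : WP ![3, 3, 3, 0] ![a, b, c, d] (e3330 a b c d) :=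
  wp_step4 (nf3330 h) (by decide) (Or.inr ⟨_, wp1203 (w3320 h.p1203), wp_r ez3320 y3330_0⟩) (Or.inr ⟨_, wp0213 (w3320 h.p0213), wp_r ez3320 y3330_1⟩) (Or.inr ⟨_, wp0123 (w3320 h), wp_r ez3320 y3330_2⟩) (Or.inl rfl)

theorem qL3321_0 (h : Q A a b c d) : List.Forall₂ (EntOk a (symOf (ps3321 a b c d)))
    (ps3221 b a c d) pL3321_0 :=
  (.cons (ent_i rfl rfl (ops_S (sS2221_1 h.p1023) (ops_L (lL3221_0 h) (ops_nil _))) ez3221 y3321_1) (.cons (ent_i rfl rfl (ops_L (lL3221_2 h.p1203) (ops_S (sS3221_2 h.p1203) (ops_nil _))) ez3221 y3321_0) (.cons (ent_i rfl rfl (ops_L (lL3311_1 h.p1023) (ops_S (sS3311_1 h.p1023) (ops_nil _))) ez3311 y3321_2) (.cons (ent_i rfl rfl (ops_L (lL3320_1 h.p1023) (ops_S (sS3320_1 h.p1023) (ops_nil _))) ez3320 y3321_3) .nil))))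
theorem qL3321_1 (h : Q A a b c d) : List.Forall₂ (EntOk b (symOf (ps3321 a b c d)))
    (ps3221 a b c d) pL3321_1 :=
  (.cons (ent_i rfl rfl (ops_S (sS2221_1 h) (ops_L (lL3221_0 h.p1023) (ops_nil _))) ez3221 y3321_0) (.cons (ent_i rfl rfl (ops_L (lL3221_2 h.p0213) (ops_S (sS3221_2 h.p0213) (ops_nil _))) ez3221 y3321_1) (.cons (ent_i rfl rfl (ops_L (lL3311_1 h) (ops_nil _)) ez3311 y3321_2) (.cons (ent_i rfl rfl (ops_L (lL3320_1 h) (ops_nil _)) ez3320 y3321_3) .nil))))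
theorem qL3321_2 (h : Q A a b c d) : List.Forall₂ (EntOk c (symOf (ps3321 a b c d)))
    (ps3311 a b c d) pL3321_2 :=
  (.cons (ent_i rfl rfl (ops_L (lL3221_2 h.p1023) (ops_nil _)) ez3221 y3321_0) (.cons (ent_i rfl rfl (ops_L (lL3221_2 h) (ops_nil _)) ez3221 y3321_1) (.cons (ent_n ez3310) (.cons (ent_n ez3310) .nil))))
theorem qL3321_3 (h : Q A a b c d) : List.Forall₂ (EntOk d (symOf (ps3321 a b c d)))
    (ps3320 a b c d) pL3321_3 :=
  (.cons (ent_i rfl rfl (ops_L (lL3221_3 h.p1023) (ops_nil _)) ez3221 y3321_0) (.cons (ent_i rfl rfl (ops_L (lL3221_3 h) (ops_nil _)) ez3221 y3321_1) (.cons (ent_n ez3310) .nil)))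
theorem gen3321 (h : Q A a b c d) : ∀ m ∈ gList G3321, vec (symOf (ps3321 a b c d)) m = 0 :=
  gChk_spec (sem := SEM a b c d) (c := 30039) h.h (TT9 h) (init_val (a := a) (b := b) (c := c) (d := d) _ rfl) (ltr_mem h) (by norm_num) (by norm_num) kG3321 kH3321
theorem nf3321 (h : Q A a b c d) : ∀ r, vec (symOf (ps3321 a b c d)) r = vec (e3321 a b c d) (appM N3321 r) :=
  block_sound2 h.h.two (ps := ps3321 a b c d) (ns := 326) rfl (raw5 (srcRow_spec h.h.two (qL3321_0 h) (nf3221 h.p1023) wf3221) (srcRow_spec h.h.two (qL3321_1 h) (nf3221 h) wf3221) (srcRow_spec h.h.two (qL3321_2 h) (nf3311 h) wf3311) (srcRow_spec h.h.two (qL3321_3 h) (nf3320 h) wf3320) (nthL_spec (gen3321 h))) kb3321 co3321 u3321 el3321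
theorem ez3321 : ∀ k, 144 ≤ k → e3321 a b c d k = 0 := eOf_ge _ (wfT_D wf3321).2
theorem qS3321_1 (h : Q A a b c d) : List.Forall₂ (EntOk 1 (symOf (ps3321 a b c d)))
    (ps3321 b a c d) pS3321_1 :=
  (.cons (ent_i rfl rfl (ops_nil _) ez3221 y3321_1) (.cons (ent_i rfl rfl (ops_nil _) ez3221 y3321_0) (.cons (ent_i rfl rfl (ops_S (sS3311_1 h.p1023) (ops_nil _)) ez3311 y3321_2) (.cons (ent_i rfl rfl (ops_S (sS3320_1 h.p1023) (ops_nil _)) ez3320 y3321_3) .nil))))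
theorem sS3321_1 (h : Q A a b c d) : ∀ v, vec (e3321 a b c d) v = vec (e3321 b a c d) (appM S3321_1 v) :=
  fun v => (one_mul _).symm.trans (table_sound2 h.h.two (qS3321_1 h.p1023) (nf3321 h.p1023) kw3321_1 kS3321_1 v)
theorem lL3321_1 (h : Q A a b c d) : ∀ v, b * vec (e3221 a b c d) v = vec (e3321 a b c d) (appM L3321_1 v) :=
  table_sound2 h.h.two (qL3321_1 h) (nf3321 h) kv3321_1 kL3321_1
theorem lL3321_2 (h : Q A a b c d) : ∀ v, c * vec (e3311 a b c d) v = vec (e3321 a b c d) (appM L3321_2 v) :=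
  table_sound2 h.h.two (qL3321_2 h) (nf3321 h) kv3321_2 kL3321_2
theorem lL3321_3 (h : Q A a b c d) : ∀ v, d * vec (e3320 a b c d) v = vec (e3321 a b c d) (appM L3321_3 v) :=
  table_sound2 h.h.two (qL3321_3 h) (nf3321 h) kv3321_3 kL3321_3
theorem rR3321_1 (h : Q A a b c d) : ∀ v, vec (e3221 a b c d) v * b = vec (e3321 a b c d) (appM N3321 (Nat.shiftLeft (Nat.mod v 0x1000000000000000000000000000000000000) 144)) :=
  r_fact (n := 144) rfl ez3221 y3321_1 (nf3321 h)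
theorem rR3321_2 (h : Q A a b c d) : ∀ v, vec (e3311 a b c d) v * c = vec (e3321 a b c d) (appM N3321 (Nat.shiftLeft (Nat.mod v 0x400000000) 288)) :=
  r_fact (n := 34) rfl ez3311 y3321_2 (nf3321 h)
theorem rR3321_3 (h : Q A a b c d) : ∀ v, vec (e3320 a b c d) v * d = vec (e3321 a b c d) (appM N3321 (Nat.shiftLeft (Nat.mod v 16) 322)) :=
  r_fact (n := 4) rfl ez3320 y3321_3 (nf3321 h)
theorem w3321 (h : Q A a b c d) : WP ![3, 3, 2, 1] ![a, b, c, d] (e3321 a b c d) :=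
  wp_step4 (nf3321 h) (by decide) (Or.inr ⟨_, wp1023 (w3221 h.p1023), wp_r ez3221 y3321_0⟩) (Or.inr ⟨_, wp0123 (w3221 h), wp_r ez3221 y3321_1⟩) (Or.inr ⟨_, wp0123 (w3311 h), wp_r ez3311 y3321_2⟩) (Or.inr ⟨_, wp0123 (w3320 h), wp_r ez3320 y3321_3⟩)

theorem qL3222_0 (h : Q A a b c d) : List.Forall₂ (EntOk a (symOf (ps3222 a b c d)))
    (ps2222 a b c d) pL3222_0 :=
  (.cons (ent_i rfl rfl (ops_L (lL2222_3 h.p1230) (ops_S (sS2222_2 h.p1230) (ops_S (sS2222_3 h.p3210) (ops_S (sS2222_2 h.p0213) (ops_S (sS2222_1 h.p1203) (ops_S (sS2222_2 h.p2103) (ops_S (sS2222_1 h) (ops_S (sS2222_1 h.p1023) (ops_nil _))))))))) ez2222 y3222_0) (.cons (ent_i rfl rfl (ops_L (lL3221_0 h.p0231) (ops_nil _)) ez3221 y3222_1) (.cons (ent_i rfl rfl (ops_L (lL3221_0 h.p0132) (ops_nil _)) ez3221 y3222_2) (.cons (ent_i rfl rfl (ops_L (lL3221_0 h) (ops_nil _)) ez3221 y3222_3) .nil))))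
theorem qL3222_1 (h : Q A a b c d) : List.Forall₂ (EntOk b (symOf (ps3222 a b c d)))
    (ps3221 a c d b) pL3222_1 :=
  (.cons (ent_i rfl rfl (ops_L (lL2222_3 h.p0231) (ops_S (sS2222_2 h.p0231) (ops_S (sS2222_3 h.p3201) (ops_S (sS2222_2 h.p1203) (ops_S (sS2222_1 h.p0213) (ops_S (sS2222_2 h.p2013) (ops_S (sS2222_1 h.p1023) (ops_nil _)))))))) ez2222 y3222_0) (.cons (ent_i rfl rfl (ops_S (sS3211_3 h.p0321) (ops_L (lL3221_2 h.p0312) (ops_S (sS3221_2 h.p0312) (ops_nil _)))) ez3221 y3222_2) (.cons (ent_i rfl rfl (ops_S (sS3211_3 h.p0231) (ops_L (lL3221_2 h.p0213) (ops_S (sS3221_2 h.p0213) (ops_nil _)))) ez3221 y3222_3) (.cons (ent_i rfl rfl (ops_L (lL3221_3 h.p0231) (ops_nil _)) ez3221 y3222_1) .nil))))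
theorem qL3222_2 (h : Q A a b c d) : List.Forall₂ (EntOk c (symOf (ps3222 a b c d)))
    (ps3221 a b d c) pL3222_2 :=
  (.cons (ent_i rfl rfl (ops_L (lL2222_3 h.p0132) (ops_S (sS2222_2 h.p0132) (ops_S (sS2222_3 h.p3102) (ops_S (sS2222_2 h.p2103) (ops_nil _))))) ez2222 y3222_0) (.cons (ent_i rfl rfl (ops_S (sS3211_3 h.p0312) (ops_L (lL3221_2 h.p0321) (ops_S (sS3221_2 h.p0321) (ops_nil _)))) ez3221 y3222_1) (.cons (ent_i rfl rfl (ops_S (sS3211_3 h.p0132) (ops_L (lL3221_2 h) (ops_nil _))) ez3221 y3222_3) (.cons (ent_i rfl rfl (ops_L (lL3221_3 h.p0132) (ops_nil _)) ez3221 y3222_2) .nil))))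
theorem qL3222_3 (h : Q A a b c d) : List.Forall₂ (EntOk d (symOf (ps3222 a b c d)))
    (ps3221 a b c d) pL3222_3 :=
  (.cons (ent_i rfl rfl (ops_L (lL2222_3 h) (ops_nil _)) ez2222 y3222_0) (.cons (ent_i rfl rfl (ops_S (sS3211_3 h.p0213) (ops_L (lL3221_2 h.p0231) (ops_nil _))) ez3221 y3222_1) (.cons (ent_i rfl rfl (ops_S (sS3211_3 h) (ops_L (lL3221_2 h.p0132) (ops_nil _))) ez3221 y3222_2) (.cons (ent_i rfl rfl (ops_L (lL3221_3 h) (ops_nil _)) ez3221 y3222_3) .nil))))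
theorem gen3222 (h : Q A a b c d) : ∀ m ∈ gList G3222, vec (symOf (ps3222 a b c d)) m = 0 :=
  gChk_spec (sem := SEM a b c d) (c := 30040) h.h (TT9 h) (init_val (a := a) (b := b) (c := c) (d := d) _ rfl) (ltr_mem h) (by norm_num) (by norm_num) kG3222 kH3222
theorem nf3222 (h : Q A a b c d) : ∀ r, vec (symOf (ps3222 a b c d)) r = vec (e3222 a b c d) (appM N3222 r) :=
  block_sound2 h.h.two (ps := ps3222 a b c d) (ns := 828) rfl (raw5 (srcRow_spec h.h.two (qL3222_0 h) (nf2222 h) wf2222) (srcRow_spec h.h.two (qL3222_1 h) (nf3221 h.p0231) wf3221) (srcRow_spec h.h.two (qL3222_2 h) (nf3221 h.p0132) wf3221) (srcRow_spec h.h.two (qL3222_3 h) (nf3221 h) wf3221) (nthL_spec (gen3222 h))) kb3222 co3222 u3222 el3222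
theorem ez3222 : ∀ k, 501 ≤ k → e3222 a b c d k = 0 := eOf_ge _ (wfT_D wf3222).2
theorem qS3222_2 (h : Q A a b c d) : List.Forall₂ (EntOk 1 (symOf (ps3222 a b c d)))
    (ps3222 a c b d) pS3222_2 :=
  (.cons (ent_i rfl rfl (ops_S (sS2222_1 h.p0213) (ops_S (sS2222_2 h.p2013) (ops_S (sS2222_1 h.p1023) (ops_nil _)))) ez2222 y3222_0) (.cons (ent_i rfl rfl (ops_nil _) ez3221 y3222_2) (.cons (ent_i rfl rfl (ops_nil _) ez3221 y3222_1) (.cons (ent_i rfl rfl (ops_S (sS3221_2 h.p0213) (ops_nil _)) ez3221 y3222_3) .nil))))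
theorem sS3222_2 (h : Q A a b c d) : ∀ v, vec (e3222 a b c d) v = vec (e3222 a c b d) (appM S3222_2 v) :=
  fun v => (one_mul _).symm.trans (table_sound2 h.h.two (qS3222_2 h.p0213) (nf3222 h.p0213) kw3222_2 kS3222_2 v)
theorem qS3222_3 (h : Q A a b c d) : List.Forall₂ (EntOk 1 (symOf (ps3222 a b c d)))
    (ps3222 a d c b) pS3222_3 :=
  (.cons (ent_i rfl rfl (ops_S (sS2222_1 h.p0321) (ops_S (sS2222_3 h.p3021) (ops_S (sS2222_1 h.p1023) (ops_nil _)))) ez2222 y3222_0) (.cons (ent_i rfl rfl (ops_S (sS3221_2 h.p0213) (ops_nil _)) ez3221 y3222_3) (.cons (ent_i rfl rfl (ops_S (sS3221_2 h.p0312) (ops_nil _)) ez3221 y3222_2) (.cons (ent_i rfl rfl (ops_S (sS3221_2 h.p0321) (ops_nil _)) ez3221 y3222_1) .nil))))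
theorem sS3222_3 (h : Q A a b c d) : ∀ v, vec (e3222 a b c d) v = vec (e3222 a d c b) (appM S3222_3 v) :=
  fun v => (one_mul _).symm.trans (table_sound2 h.h.two (qS3222_3 h.p0321) (nf3222 h.p0321) kw3222_3 kS3222_3 v)
theorem lL3222_0 (h : Q A a b c d) : ∀ v, a * vec (e2222 a b c d) v = vec (e3222 a b c d) (appM L3222_0 v) :=
  table_sound2 h.h.two (qL3222_0 h) (nf3222 h) kv3222_0 kL3222_0
theorem lL3222_3 (h : Q A a b c d) : ∀ v, d * vec (e3221 a b c d) v = vec (e3222 a b c d) (appM L3222_3 v) :=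
  table_sound2 h.h.two (qL3222_3 h) (nf3222 h) kv3222_3 kL3222_3
theorem rR3222_0 (h : Q A a b c d) : ∀ v, vec (e2222 a b c d) v * a = vec (e3222 a b c d) (appM N3222 (Nat.shiftLeft (Nat.mod v 0x1000000000000000000000000000000000000000000000000000000000000000000000000000000000000000000000000000) 0)) :=
  r_fact (n := 396) rfl ez2222 y3222_0 (nf3222 h)
theorem rR3222_3 (h : Q A a b c d) : ∀ v, vec (e3221 a b c d) v * d = vec (e3222 a b c d) (appM N3222 (Nat.shiftLeft (Nat.mod v 0x1000000000000000000000000000000000000) 684)) :=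
  r_fact (n := 144) rfl ez3221 y3222_3 (nf3222 h)
theorem w3222 (h : Q A a b c d) : WP ![3, 2, 2, 2] ![a, b, c, d] (e3222 a b c d) :=
  wp_step4 (nf3222 h) (by decide) (Or.inr ⟨_, wp0123 (w2222 h), wp_r ez2222 y3222_0⟩) (Or.inr ⟨_, wp0231 (w3221 h.p0231), wp_r ez3221 y3222_1⟩) (Or.inr ⟨_, wp0132 (w3221 h.p0132), wp_r ez3221 y3222_2⟩) (Or.inr ⟨_, wp0123 (w3221 h), wp_r ez3221 y3222_3⟩)

theorem tl0332 (h : Q A a b c d) : ATok (SEM a b c d) (ltr a b c d) al0332 :=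
  at_l rfl (ae_ok (run_R (rR3321_3 h.p1230) (run_nil _)) rfl rfl rfl) ae_no ae_no ae_no
theorem tl1232 (h : Q A a b c d) : ATok (SEM a b c d) (ltr a b c d) al1232 :=
  at_l rfl (ae_ok (run_R (rR3222_3 h.p2130) (run_S (sS3222_2 h.p2130) (run_S (sS3222_3 h.p2310) (run_S (sS3222_2 h.p2013) (run_S (sS3222_2 h.p2103) (run_nil _)))))) rfl rfl rfl) (ae_ok (run_R (rR3321_1 h.p2130) (run_S (sS3321_1 h.p2130) (run_nil _))) rfl rfl rfl) ae_no ae_no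
theorem tl1322 (h : Q A a b c d) : ATok (SEM a b c d) (ltr a b c d) al1322 :=
  at_l rfl (ae_ok (run_R (rR3222_3 h.p1230) (run_S (sS3222_2 h.p1230) (run_S (sS3222_3 h.p1320) (run_S (sS3222_2 h.p1023) (run_S (sS3222_2 h.p1203) (run_nil _)))))) rfl rfl rfl) ae_no (ae_ok (run_R (rR3321_1 h.p1230) (run_nil _)) rfl rfl rfl) ae_no
theorem tl1331 (h : Q A a b c d) : ATok (SEM a b c d) (ltr a b c d) al1331 :=
  at_l rfl (ae_ok (run_R (rR3321_2 h.p1203) (run_nil _)) rfl rfl rfl) ae_no ae_no (ae_ok (run_S (sS3311_3 h.p1203) (run_R (rR3321_2 h.p1230) (run_nil _))) rfl rfl rfl)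
theorem tl2132 (h : Q A a b c d) : ATok (SEM a b c d) (ltr a b c d) al2132 :=
  at_l rfl (ae_ok (run_R (rR3321_1 h.p2031) (run_S (sS3321_1 h.p2031) (run_nil _))) rfl rfl rfl) (ae_ok (run_R (rR3222_3 h.p2031) (run_S (sS3222_2 h.p2031) (run_S (sS3222_3 h.p2301) (run_S (sS3222_2 h.p2103) (run_nil _))))) rfl rfl rfl) ae_no ae_no
theorem tl2222 (h : Q A a b c d) : ATok (SEM a b c d) (ltr a b c d) al2222 :=
  at_l rfl (ae_ok (run_R (rR3222_0 h) (run_nil _)) rfl rfl rfl) (ae_ok (run_S (sS2222_1 h) (run_R (rR3222_0 h.p1023) (run_nil _))) rfl rfl rfl) (ae_ok (run_S (sS2222_2 h) (run_R (rR3222_0 h.p2103) (run_S (sS3222_2 h.p2103) (run_nil _)))) rfl rfl rfl) ae_no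
theorem tl2231 (h : Q A a b c d) : ATok (SEM a b c d) (ltr a b c d) al2231 :=
  at_l rfl (ae_ok (run_R (rR3321_1 h.p2013) (run_S (sS3321_1 h.p2013) (run_nil _))) rfl rfl rfl) (ae_ok (run_S (sS3221_2 h.p2013) (run_R (rR3321_1 h.p2103) (run_S (sS3321_1 h.p2103) (run_nil _)))) rfl rfl rfl) ae_no (ae_ok (run_R (rR3222_3 h.p2013) (run_nil _)) rfl rfl rfl)
theorem tl2312 (h : Q A a b c d) : ATok (SEM a b c d) (ltr a b c d) al2312 :=
  at_l rfl (ae_ok (run_R (rR3321_1 h.p1032) (run_S (sS3321_1 h.p1032) (run_nil _))) rfl rfl rfl) ae_no (ae_ok (run_R (rR3222_3 h.p1032) (run_S (sS3222_2 h.p1032) (run_S (sS3222_3 h.p1302) (run_S (sS3222_2 h.p1203) (run_nil _))))) rfl rfl rfl) ae_no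
theorem tl2321 (h : Q A a b c d) : ATok (SEM a b c d) (ltr a b c d) al2321 :=
  at_l rfl (ae_ok (run_R (rR3321_1 h.p1023) (run_S (sS3321_1 h.p1023) (run_nil _))) rfl rfl rfl) ae_no (ae_ok (run_S (sS3221_2 h.p1023) (run_R (rR3321_1 h.p1203) (run_nil _))) rfl rfl rfl) (ae_ok (run_R (rR3222_3 h.p1023) (run_nil _)) rfl rfl rfl)
theorem tl2330 (h : Q A a b c d) : ATok (SEM a b c d) (ltr a b c d) al2330 :=
  at_l rfl (ae_ok (run_Z (run_R (rR3330_2 h.p1203) (run_nil _)) (fun k => ez3330 k (Nat.zero_le k))) rfl rfl rfl) ae_no ae_no (ae_ok (run_R (rR3321_3 h.p1203) (run_nil _)) rfl rfl rfl)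
theorem tl3032 (h : Q A a b c d) : ATok (SEM a b c d) (ltr a b c d) al3032 :=
  at_l rfl ae_no (ae_ok (run_R (rR3321_3 h.p0231) (run_nil _)) rfl rfl rfl) ae_no ae_no
theorem tl3122 (h : Q A a b c d) : ATok (SEM a b c d) (ltr a b c d) al3122 :=
  at_l rfl (ae_ok (run_R (rR4221_0 h.p0231) (run_nil _)) rfl rfl rfl) (ae_ok (run_R (rR3222_3 h.p0231) (run_S (sS3222_2 h.p0231) (run_S (sS3222_3 h.p0321) (run_S (sS3222_2 h) (run_S (sS3222_2 h.p0213) (run_nil _)))))) rfl rfl rfl) (ae_ok (run_R (rR3321_1 h.p0231) (run_nil _)) rfl rfl rfl) ae_no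
theorem tl3131 (h : Q A a b c d) : ATok (SEM a b c d) (ltr a b c d) al3131 :=
  at_l rfl ae_no (ae_ok (run_R (rR3321_2 h.p0213) (run_nil _)) rfl rfl rfl) ae_no (ae_ok (run_S (sS3311_3 h.p0213) (run_R (rR3321_2 h.p0231) (run_nil _))) rfl rfl rfl)
theorem tl3212 (h : Q A a b c d) : ATok (SEM a b c d) (ltr a b c d) al3212 :=
  at_l rfl (ae_ok (run_R (rR4221_0 h.p0132) (run_nil _)) rfl rfl rfl) (ae_ok (run_R (rR3321_1 h.p0132) (run_nil _)) rfl rfl rfl) (ae_ok (run_R (rR3222_3 h.p0132) (run_S (sS3222_2 h.p0132) (run_S (sS3222_3 h.p0312) (run_S (sS3222_2 h.p0213) (run_nil _))))) rfl rfl rfl) ae_no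
theorem tl3221 (h : Q A a b c d) : ATok (SEM a b c d) (ltr a b c d) al3221 :=
  at_l rfl (ae_ok (run_R (rR4221_0 h) (run_nil _)) rfl rfl rfl) (ae_ok (run_R (rR3321_1 h) (run_nil _)) rfl rfl rfl) (ae_ok (run_S (sS3221_2 h) (run_R (rR3321_1 h.p0213) (run_nil _))) rfl rfl rfl) (ae_ok (run_R (rR3222_3 h) (run_nil _)) rfl rfl rfl)
theorem tl3230 (h : Q A a b c d) : ATok (SEM a b c d) (ltr a b c d) al3230 :=
  at_l rfl ae_no (ae_ok (run_Z (run_R (rR3330_2 h.p0213) (run_nil _)) (fun k => ez3330 k (Nat.zero_le k))) rfl rfl rfl) ae_no (ae_ok (run_R (rR3321_3 h.p0213) (run_nil _)) rfl rfl rfl)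
theorem tl3302 (h : Q A a b c d) : ATok (SEM a b c d) (ltr a b c d) al3302 :=
  at_l rfl (ae_ok (run_R (rR4320_0 h.p0132) (run_nil _)) rfl rfl rfl) ae_no (ae_ok (run_R (rR3321_3 h.p0132) (run_nil _)) rfl rfl rfl) ae_no
theorem tl3311 (h : Q A a b c d) : ATok (SEM a b c d) (ltr a b c d) al3311 :=
  at_l rfl (ae_ok (run_R (rR4311_0 h) (run_nil _)) rfl rfl rfl) ae_no (ae_ok (run_R (rR3321_2 h) (run_nil _)) rfl rfl rfl) (ae_ok (run_S (sS3311_3 h) (run_R (rR3321_2 h.p0132) (run_nil _))) rfl rfl rfl)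
theorem tl3320 (h : Q A a b c d) : ATok (SEM a b c d) (ltr a b c d) al3320 :=
  at_l rfl (ae_ok (run_R (rR4320_0 h) (run_nil _)) rfl rfl rfl) ae_no (ae_ok (run_Z (run_R (rR3330_2 h) (run_nil _)) (fun k => ez3330 k (Nat.zero_le k))) rfl rfl rfl) (ae_ok (run_R (rR3321_3 h) (run_nil _)) rfl rfl rfl)
theorem tl4022 (h : Q A a b c d) : ATok (SEM a b c d) (ltr a b c d) al4022 :=
  at_l rfl (ae_ok (run_R (rR5220_0 h.p0231) (run_nil _)) rfl rfl rfl) (ae_ok (run_R (rR4221_3 h.p0231) (run_nil _)) rfl rfl rfl) ae_no ae_no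
theorem tl4112 (h : Q A a b c d) : ATok (SEM a b c d) (ltr a b c d) al4112 :=
  at_l rfl (ae_ok (run_R (rR5211_0 h.p0312) (run_nil _)) rfl rfl rfl) (ae_ok (run_R (rR4221_2 h.p0312) (run_S (sS4221_2 h.p0312) (run_nil _))) rfl rfl rfl) (ae_ok (run_S (sS4211_3 h.p0312) (run_R (rR4221_2 h.p0321) (run_S (sS4221_2 h.p0321) (run_nil _)))) rfl rfl rfl) ae_no
theorem tl4121 (h : Q A a b c d) : ATok (SEM a b c d) (ltr a b c d) al4121 :=
  at_l rfl (ae_ok (run_R (rR5211_0 h.p0213) (run_nil _)) rfl rfl rfl) (ae_ok (run_R (rR4221_2 h.p0213) (run_S (sS4221_2 h.p0213) (run_nil _))) rfl rfl rfl) ae_no (ae_ok (run_S (sS4211_3 h.p0213) (run_R (rR4221_2 h.p0231) (run_nil _))) rfl rfl rfl)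
theorem tl4202 (h : Q A a b c d) : ATok (SEM a b c d) (ltr a b c d) al4202 :=
  at_l rfl (ae_ok (run_R (rR5220_0 h.p0132) (run_nil _)) rfl rfl rfl) (ae_ok (run_R (rR4320_1 h.p0132) (run_nil _)) rfl rfl rfl) (ae_ok (run_R (rR4221_3 h.p0132) (run_nil _)) rfl rfl rfl) ae_no
theorem tl4211 (h : Q A a b c d) : ATok (SEM a b c d) (ltr a b c d) al4211 :=
  at_l rfl (ae_ok (run_R (rR5211_0 h) (run_nil _)) rfl rfl rfl) (ae_ok (run_R (rR4311_1 h) (run_nil _)) rfl rfl rfl) (ae_ok (run_R (rR4221_2 h) (run_nil _)) rfl rfl rfl) (ae_ok (run_S (sS4211_3 h) (run_R (rR4221_2 h.p0132) (run_nil _))) rfl rfl rfl)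
theorem tl4220 (h : Q A a b c d) : ATok (SEM a b c d) (ltr a b c d) al4220 :=
  at_l rfl (ae_ok (run_R (rR5220_0 h) (run_nil _)) rfl rfl rfl) (ae_ok (run_R (rR4320_1 h) (run_nil _)) rfl rfl rfl) ae_no (ae_ok (run_R (rR4221_3 h) (run_nil _)) rfl rfl rfl)
theorem TV8 (h : Q A a b c d) : ATok (SEM a b c d) (ltr a b c d) AV8 :=
  ⟨⟨⟨⟨tl0332 h, ⟨tl1232 h, tl1322 h⟩⟩, ⟨tl1331 h, ⟨tl2132 h, tl2222 h⟩⟩⟩, ⟨⟨tl2231 h, ⟨tl2312 h, tl2321 h⟩⟩, ⟨tl2330 h, ⟨tl3032 h, tl3122 h⟩⟩⟩⟩, ⟨⟨⟨tl3131 h, ⟨tl3212 h, tl3221 h⟩⟩, ⟨tl3230 h, ⟨tl3302 h, tl3311 h⟩⟩⟩, ⟨⟨tl3320 h, ⟨tl4022 h, tl4112 h⟩⟩, ⟨⟨tl4121 h, tl4202 h⟩, ⟨tl4211 h, tl4220 h⟩⟩⟩⟩⟩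
theorem TW9 (h : Q A a b c d) : ATok (SEM a b c d) (ltr a b c d) AW9 := ⟨TW8 h, TV8 h⟩
theorem z5410 (h : Q A a b c d) : WP ![5, 4, 1, 0] ![a, b, c, d] (zfam : ℕ → K) :=
  wp_step4 (F := fun r => r) (fun _ => rfl) (by decide) (Or.inr ⟨_, wp0123 (z4410 h), wp_z (fun _ _ => rfl)⟩) (Or.inr ⟨_, wp0123 (z5310 h), wp_z (fun _ _ => rfl)⟩) (Or.inr ⟨_, wp0123 (z5400 h), wp_z (fun _ _ => rfl)⟩) (Or.inl rfl)
theorem z5500 (h : Q A a b c d) : WP ![5, 5, 0, 0] ![a, b, c, d] (zfam : ℕ → K) :=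
  wp_step4 (F := fun r => r) (fun _ => rfl) (by decide) (Or.inr ⟨_, wp1023 (z5400 h.p1023), wp_z (fun _ _ => rfl)⟩) (Or.inr ⟨_, wp0123 (z5400 h), wp_z (fun _ _ => rfl)⟩) (Or.inl rfl) (Or.inl rfl)
theorem z6310 (h : Q A a b c d) : WP ![6, 3, 1, 0] ![a, b, c, d] (zfam : ℕ → K) :=
  wp_step4 (F := fun r => r) (fun _ => rfl) (by decide) (Or.inr ⟨_, wp0123 (z5310 h), wp_z (fun _ _ => rfl)⟩) (Or.inr ⟨_, wp0123 (z6210 h), wp_z (fun _ _ => rfl)⟩) (Or.inr ⟨_, wp0123 (z6300 h), wp_z (fun _ _ => rfl)⟩) (Or.inl rfl)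
theorem z6400 (h : Q A a b c d) : WP ![6, 4, 0, 0] ![a, b, c, d] (zfam : ℕ → K) :=
  wp_step4 (F := fun r => r) (fun _ => rfl) (by decide) (Or.inr ⟨_, wp0123 (z5400 h), wp_z (fun _ _ => rfl)⟩) (Or.inr ⟨_, wp0123 (z6300 h), wp_z (fun _ _ => rfl)⟩) (Or.inl rfl) (Or.inl rfl)
theorem z7111 (h : Q A a b c d) : WP ![7, 1, 1, 1] ![a, b, c, d] (zfam : ℕ → K) :=
  wp_step4 (F := fun r => r) (fun _ => rfl) (by decide) (Or.inr ⟨_, wp0123 (z6111 h), wp_z (fun _ _ => rfl)⟩) (Or.inr ⟨_, wp0231 (z7110 h.p0231), wp_z (fun _ _ => rfl)⟩) (Or.inr ⟨_, wp0132 (z7110 h.p0132), wp_z (fun _ _ => rfl)⟩) (Or.inr ⟨_, wp0123 (z7110 h), wp_z (fun _ _ => rfl)⟩)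
theorem z7210 (h : Q A a b c d) : WP ![7, 2, 1, 0] ![a, b, c, d] (zfam : ℕ → K) :=
  wp_step4 (F := fun r => r) (fun _ => rfl) (by decide) (Or.inr ⟨_, wp0123 (z6210 h), wp_z (fun _ _ => rfl)⟩) (Or.inr ⟨_, wp0123 (z7110 h), wp_z (fun _ _ => rfl)⟩) (Or.inr ⟨_, wp0123 (z7200 h), wp_z (fun _ _ => rfl)⟩) (Or.inl rfl)
theorem z7300 (h : Q A a b c d) : WP ![7, 3, 0, 0] ![a, b, c, d] (zfam : ℕ → K) :=
  wp_step4 (F := fun r => r) (fun _ => rfl) (by decide) (Or.inr ⟨_, wp0123 (z6300 h), wp_z (fun _ _ => rfl)⟩) (Or.inr ⟨_, wp0123 (z7200 h), wp_z (fun _ _ => rfl)⟩) (Or.inl rfl) (Or.inl rfl)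
theorem z8110 (h : Q A a b c d) : WP ![8, 1, 1, 0] ![a, b, c, d] (zfam : ℕ → K) :=
  wp_step4 (F := fun r => r) (fun _ => rfl) (by decide) (Or.inr ⟨_, wp0123 (z7110 h), wp_z (fun _ _ => rfl)⟩) (Or.inr ⟨_, wp0213 (z8100 h.p0213), wp_z (fun _ _ => rfl)⟩) (Or.inr ⟨_, wp0123 (z8100 h), wp_z (fun _ _ => rfl)⟩) (Or.inl rfl)
theorem z8200 (h : Q A a b c d) : WP ![8, 2, 0, 0] ![a, b, c, d] (zfam : ℕ → K) :=
  wp_step4 (F := fun r => r) (fun _ => rfl) (by decide) (Or.inr ⟨_, wp0123 (z7200 h), wp_z (fun _ _ => rfl)⟩) (Or.inr ⟨_, wp0123 (z8100 h), wp_z (fun _ _ => rfl)⟩) (Or.inl rfl) (Or.inl rfl)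
theorem y6220_0 : ∀ k, k < 1 → symOf (ps6220 a b c d) (k + 0) = e5220 a b c d k * a :=
  sy_hd
theorem y6211_0 : ∀ k, k < 3 → symOf (ps6211 a b c d) (k + 0) = e5211 a b c d k * a :=
  sy_hd
theorem y5320_0 : ∀ k, k < 1 → symOf (ps5320 a b c d) (k + 0) = e4320 a b c d k * a :=
  sy_hd
theorem y5320_1 : ∀ k, k < 1 → symOf (ps5320 a b c d) (k + 1) = e5220 a b c d k * b :=
  sy_tl (o := 0) (o' := 1) (sy_hd) rfl
theorem y5311_0 : ∀ k, k < 10 → symOf (ps5311 a b c d) (k + 0) = e4311 a b c d k * a :=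
  sy_hd
theorem y5311_1 : ∀ k, k < 3 → symOf (ps5311 a b c d) (k + 10) = e5211 a b c d k * b :=
  sy_tl (o := 0) (o' := 10) (sy_hd) rfl
theorem y5221_0 : ∀ k, k < 87 → symOf (ps5221 a b c d) (k + 0) = e4221 a b c d k * a :=
  sy_hd
theorem y5221_1 : ∀ k, k < 3 → symOf (ps5221 a b c d) (k + 87) = e5211 a c b d k * b :=
  sy_tl (o := 0) (o' := 87) (sy_hd) rfl
theorem y5221_2 : ∀ k, k < 3 → symOf (ps5221 a b c d) (k + 90) = e5211 a b c d k * c :=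
  sy_tl (o := 3) (o' := 90) (sy_tl (o := 0) (o' := 3) (sy_hd) rfl) rfl
theorem y5221_3 : ∀ k, k < 1 → symOf (ps5221 a b c d) (k + 93) = e5220 a b c d k * d :=
  sy_tl (o := 6) (o' := 93) (sy_tl (o := 3) (o' := 6) (sy_tl (o := 0) (o' := 3) (sy_hd) rfl) rfl) rfl
theorem y4420_0 : ∀ k, k < 1 → symOf (ps4420 a b c d) (k + 0) = e4320 b a c d k * a :=
  sy_hd
theorem y4420_1 : ∀ k, k < 1 → symOf (ps4420 a b c d) (k + 1) = e4320 a b c d k * b :=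
  sy_tl (o := 0) (o' := 1) (sy_hd) rfl
theorem y4411_0 : ∀ k, k < 10 → symOf (ps4411 a b c d) (k + 0) = e4311 b a c d k * a :=
  sy_hd
theorem y4411_1 : ∀ k, k < 10 → symOf (ps4411 a b c d) (k + 10) = e4311 a b c d k * b :=
  sy_tl (o := 0) (o' := 10) (sy_hd) rfl
theorem y4330_1 : ∀ k, k < 1 → symOf (ps4330 a b c d) (k + 0) = e4320 a c b d k * b :=
  sy_tl (o := 0) (o' := 0) (sy_hd) rfl
theorem y4330_2 : ∀ k, k < 1 → symOf (ps4330 a b c d) (k + 1) = e4320 a b c d k * c :=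
  sy_tl (o := 1) (o' := 1) (sy_tl (o := 0) (o' := 1) (sy_hd) rfl) rfl
theorem y4321_0 : ∀ k, k < 144 → symOf (ps4321 a b c d) (k + 0) = e3321 a b c d k * a :=
  sy_hd
theorem y4321_1 : ∀ k, k < 87 → symOf (ps4321 a b c d) (k + 144) = e4221 a b c d k * b :=
  sy_tl (o := 0) (o' := 144) (sy_hd) rfl
theorem y4321_2 : ∀ k, k < 10 → symOf (ps4321 a b c d) (k + 231) = e4311 a b c d k * c :=
  sy_tl (o := 87) (o' := 231) (sy_tl (o := 0) (o' := 87) (sy_hd) rfl) rfl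
theorem y4321_3 : ∀ k, k < 1 → symOf (ps4321 a b c d) (k + 241) = e4320 a b c d k * d :=
  sy_tl (o := 97) (o' := 241) (sy_tl (o := 10) (o' := 97) (sy_tl (o := 0) (o' := 10) (sy_hd) rfl) rfl) rfl
theorem y4222_0 : ∀ k, k < 501 → symOf (ps4222 a b c d) (k + 0) = e3222 a b c d k * a :=
  sy_hd
theorem y4222_1 : ∀ k, k < 87 → symOf (ps4222 a b c d) (k + 501) = e4221 a c d b k * b :=
  sy_tl (o := 0) (o' := 501) (sy_hd) rfl
theorem y4222_2 : ∀ k, k < 87 → symOf (ps4222 a b c d) (k + 588) = e4221 a b d c k * c :=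
  sy_tl (o := 87) (o' := 588) (sy_tl (o := 0) (o' := 87) (sy_hd) rfl) rfl
theorem y4222_3 : ∀ k, k < 87 → symOf (ps4222 a b c d) (k + 675) = e4221 a b c d k * d :=
  sy_tl (o := 174) (o' := 675) (sy_tl (o := 87) (o' := 174) (sy_tl (o := 0) (o' := 87) (sy_hd) rfl) rfl) rfl
theorem y3331_0 : ∀ k, k < 144 → symOf (ps3331 a b c d) (k + 0) = e3321 b c a d k * a :=
  sy_hd
theorem y3331_1 : ∀ k, k < 144 → symOf (ps3331 a b c d) (k + 144) = e3321 a c b d k * b :=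
  sy_tl (o := 0) (o' := 144) (sy_hd) rfl
theorem y3331_2 : ∀ k, k < 144 → symOf (ps3331 a b c d) (k + 288) = e3321 a b c d k * c :=
  sy_tl (o := 144) (o' := 288) (sy_tl (o := 0) (o' := 144) (sy_hd) rfl) rfl
theorem y3322_0 : ∀ k, k < 501 → symOf (ps3322 a b c d) (k + 0) = e3222 b a c d k * a :=
  sy_hd
theorem y3322_1 : ∀ k, k < 501 → symOf (ps3322 a b c d) (k + 501) = e3222 a b c d k * b :=
  sy_tl (o := 0) (o' := 501) (sy_hd) rfl
theorem y3322_2 : ∀ k, k < 144 → symOf (ps3322 a b c d) (k + 1002) = e3321 a b d c k * c :=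
  sy_tl (o := 501) (o' := 1002) (sy_tl (o := 0) (o' := 501) (sy_hd) rfl) rfl
theorem y3322_3 : ∀ k, k < 144 → symOf (ps3322 a b c d) (k + 1146) = e3321 a b c d k * d :=
  sy_tl (o := 645) (o' := 1146) (sy_tl (o := 144) (o' := 645) (sy_tl (o := 0) (o' := 144) (sy_hd) rfl) rfl) rfl
theorem tf10_2322 (h : Q A a b c d) : ATok (SEM a b c d) (ltr a b c d) af10_2322 :=
  at_l rfl (ae_ok (run_F (n := 501) rfl ez3222 y3322_0) rfl rfl rfl) ae_no ae_no ae_no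
theorem tf10_2331 (h : Q A a b c d) : ATok (SEM a b c d) (ltr a b c d) af10_2331 :=
  at_l rfl (ae_ok (run_F (n := 144) rfl ez3321 y3331_0) rfl rfl rfl) ae_no ae_no ae_no
theorem tf10_3222 (h : Q A a b c d) : ATok (SEM a b c d) (ltr a b c d) af10_3222 :=
  at_l rfl (ae_ok (run_F (n := 501) rfl ez3222 y4222_0) rfl rfl rfl) (ae_ok (run_F (n := 501) rfl ez3222 y3322_1) rfl rfl rfl) ae_no ae_no
theorem tf10_3231 (h : Q A a b c d) : ATok (SEM a b c d) (ltr a b c d) af10_3231 :=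
  at_l rfl ae_no (ae_ok (run_F (n := 144) rfl ez3321 y3331_1) rfl rfl rfl) ae_no ae_no
theorem tf10_3312 (h : Q A a b c d) : ATok (SEM a b c d) (ltr a b c d) af10_3312 :=
  at_l rfl ae_no ae_no (ae_ok (run_F (n := 144) rfl ez3321 y3322_2) rfl rfl rfl) ae_no
theorem tf10_3321 (h : Q A a b c d) : ATok (SEM a b c d) (ltr a b c d) af10_3321 :=
  at_l rfl (ae_ok (run_F (n := 144) rfl ez3321 y4321_0) rfl rfl rfl) ae_no (ae_ok (run_F (n := 144) rfl ez3321 y3331_2) rfl rfl rfl) (ae_ok (run_F (n := 144) rfl ez3321 y3322_3) rfl rfl rfl)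
theorem tf10_4122 (h : Q A a b c d) : ATok (SEM a b c d) (ltr a b c d) af10_4122 :=
  at_l rfl ae_no (ae_ok (run_F (n := 87) rfl ez4221 y4222_1) rfl rfl rfl) ae_no ae_no
theorem tf10_4212 (h : Q A a b c d) : ATok (SEM a b c d) (ltr a b c d) af10_4212 :=
  at_l rfl ae_no ae_no (ae_ok (run_F (n := 87) rfl ez4221 y4222_2) rfl rfl rfl) ae_no
theorem tf10_4221 (h : Q A a b c d) : ATok (SEM a b c d) (ltr a b c d) af10_4221 :=
  at_l rfl (ae_ok (run_F (n := 87) rfl ez4221 y5221_0) rfl rfl rfl) (ae_ok (run_F (n := 87) rfl ez4221 y4321_1) rfl rfl rfl) ae_no (ae_ok (run_F (n := 87) rfl ez4221 y4222_3) rfl rfl rfl)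
theorem tf10_4311 (h : Q A a b c d) : ATok (SEM a b c d) (ltr a b c d) af10_4311 :=
  at_l rfl ae_no ae_no (ae_ok (run_F (n := 10) rfl ez4311 y4321_2) rfl rfl rfl) ae_no
theorem tf10_4320 (h : Q A a b c d) : ATok (SEM a b c d) (ltr a b c d) af10_4320 :=
  at_l rfl ae_no ae_no ae_no (ae_ok (run_F (n := 1) rfl ez4320 y4321_3) rfl rfl rfl)
theorem tf10_5121 (h : Q A a b c d) : ATok (SEM a b c d) (ltr a b c d) af10_5121 :=
  at_l rfl ae_no (ae_ok (run_F (n := 3) rfl ez5211 y5221_1) rfl rfl rfl) ae_no ae_no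
theorem tf10_5211 (h : Q A a b c d) : ATok (SEM a b c d) (ltr a b c d) af10_5211 :=
  at_l rfl ae_no ae_no (ae_ok (run_F (n := 3) rfl ez5211 y5221_2) rfl rfl rfl) ae_no
theorem tf10_5220 (h : Q A a b c d) : ATok (SEM a b c d) (ltr a b c d) af10_5220 :=
  at_l rfl ae_no ae_no ae_no (ae_ok (run_F (n := 1) rfl ez5220 y5221_3) rfl rfl rfl)
theorem TF10 (h : Q A a b c d) : ATok (SEM a b c d) (ltr a b c d) AF10 :=
  ⟨⟨⟨tf10_2322 h, ⟨tf10_2331 h, tf10_3222 h⟩⟩, ⟨⟨tf10_3231 h, tf10_3312 h⟩, ⟨tf10_3321 h, tf10_4122 h⟩⟩⟩, ⟨⟨tf10_4212 h, ⟨tf10_4221 h, tf10_4311 h⟩⟩, ⟨⟨tf10_4320 h, tf10_5121 h⟩, ⟨tf10_5211 h, tf10_5220 h⟩⟩⟩⟩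
theorem TT10 (h : Q A a b c d) : ATok (SEM a b c d) (ltr a b c d) AT10 := ⟨TW9 h, TF10 h⟩
theorem qL6220_0 (h : Q A a b c d) : List.Forall₂ (EntOk a (symOf (ps6220 a b c d)))
    (ps5220 a b c d) pL6220_0 :=
  (.cons (ent_i rfl rfl (ops_L (lL5220_0 h) (ops_nil _)) ez5220 y6220_0) (.cons (ent_n ez5210) (.cons (ent_n ez5210) .nil)))
theorem nf6220 (h : Q A a b c d) : ∀ r, vec (symOf (ps6220 a b c d)) r = vec (e6220 a b c d) (appM N6220 r) :=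
  block_sound2 h.h.two (ps := ps6220 a b c d) (ns := 1) rfl (raw5 (srcRow_spec h.h.two (qL6220_0 h) (nf5220 h) wf5220) (zf_spec _) (zf_spec _) (zf_spec _) (zf_spec _)) kb6220 co6220 u6220 el6220
theorem ez6220 : ∀ k, 0 ≤ k → e6220 a b c d k = 0 := eOf_ge _ (wfT_D wf6220).2
theorem lL6220_0 (h : Q A a b c d) : ∀ v, a * vec (e5220 a b c d) v = vec (e6220 a b c d) (appM L6220_0 v) :=
  table_sound2 h.h.two (qL6220_0 h) (nf6220 h) kv6220_0 kL6220_0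
theorem w6220 (h : Q A a b c d) : WP ![6, 2, 2, 0] ![a, b, c, d] (e6220 a b c d) :=
  wp_step4 (nf6220 h) (by decide) (Or.inr ⟨_, wp0123 (w5220 h), wp_r ez5220 y6220_0⟩) (Or.inr ⟨_, wp0213 (z6210 h.p0213), wp_z (fun _ _ => rfl)⟩) (Or.inr ⟨_, wp0123 (z6210 h), wp_z (fun _ _ => rfl)⟩) (Or.inl rfl)

theorem qL6211_0 (h : Q A a b c d) : List.Forall₂ (EntOk a (symOf (ps6211 a b c d)))
    (ps5211 a b c d) pL6211_0 :=
  (.cons (ent_i rfl rfl (ops_L (lL5211_0 h) (ops_nil _)) ez5211 y6211_0) (.cons (ent_n ez5111) (.cons (ent_n ez5210) (.cons (ent_n ez5210) .nil))))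
theorem nf6211 (h : Q A a b c d) : ∀ r, vec (symOf (ps6211 a b c d)) r = vec (e6211 a b c d) (appM N6211 r) :=
  block_sound2 h.h.two (ps := ps6211 a b c d) (ns := 3) rfl (raw5 (srcRow_spec h.h.two (qL6211_0 h) (nf5211 h) wf5211) (zf_spec _) (zf_spec _) (zf_spec _) (zf_spec _)) kb6211 co6211 u6211 el6211
theorem ez6211 : ∀ k, 0 ≤ k → e6211 a b c d k = 0 := eOf_ge _ (wfT_D wf6211).2
theorem lL6211_0 (h : Q A a b c d) : ∀ v, a * vec (e5211 a b c d) v = vec (e6211 a b c d) (appM L6211_0 v) :=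
  table_sound2 h.h.two (qL6211_0 h) (nf6211 h) kv6211_0 kL6211_0
theorem w6211 (h : Q A a b c d) : WP ![6, 2, 1, 1] ![a, b, c, d] (e6211 a b c d) :=
  wp_step4 (nf6211 h) (by decide) (Or.inr ⟨_, wp0123 (w5211 h), wp_r ez5211 y6211_0⟩) (Or.inr ⟨_, wp0123 (z6111 h), wp_z (fun _ _ => rfl)⟩) (Or.inr ⟨_, wp0132 (z6210 h.p0132), wp_z (fun _ _ => rfl)⟩) (Or.inr ⟨_, wp0123 (z6210 h), wp_z (fun _ _ => rfl)⟩)

theorem qL5320_0 (h : Q A a b c d) : List.Forall₂ (EntOk a (symOf (ps5320 a b c d)))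
    (ps4320 a b c d) pL5320_0 :=
  (.cons (ent_i rfl rfl (ops_L (lL4320_0 h) (ops_nil _)) ez4320 y5320_0) (.cons (ent_i rfl rfl (ops_L (lL5220_0 h) (ops_nil _)) ez5220 y5320_1) (.cons (ent_n ez4310) .nil)))
theorem qL5320_1 (h : Q A a b c d) : List.Forall₂ (EntOk b (symOf (ps5320 a b c d)))
    (ps5220 a b c d) pL5320_1 :=
  (.cons (ent_i rfl rfl (ops_L (lL4320_1 h) (ops_nil _)) ez4320 y5320_0) (.cons (ent_n ez5210) (.cons (ent_n ez5210) .nil)))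
theorem nf5320 (h : Q A a b c d) : ∀ r, vec (symOf (ps5320 a b c d)) r = vec (e5320 a b c d) (appM N5320 r) :=
  block_sound2 h.h.two (ps := ps5320 a b c d) (ns := 2) rfl (raw5 (srcRow_spec h.h.two (qL5320_0 h) (nf4320 h) wf4320) (srcRow_spec h.h.two (qL5320_1 h) (nf5220 h) wf5220) (zf_spec _) (zf_spec _) (zf_spec _)) kb5320 co5320 u5320 el5320
theorem ez5320 : ∀ k, 0 ≤ k → e5320 a b c d k = 0 := eOf_ge _ (wfT_D wf5320).2
theorem lL5320_0 (h : Q A a b c d) : ∀ v, a * vec (e4320 a b c d) v = vec (e5320 a b c d) (appM L5320_0 v) :=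
  table_sound2 h.h.two (qL5320_0 h) (nf5320 h) kv5320_0 kL5320_0
theorem lL5320_1 (h : Q A a b c d) : ∀ v, b * vec (e5220 a b c d) v = vec (e5320 a b c d) (appM L5320_1 v) :=
  table_sound2 h.h.two (qL5320_1 h) (nf5320 h) kv5320_1 kL5320_1
theorem rR5320_1 (h : Q A a b c d) : ∀ v, vec (e5220 a b c d) v * b = vec (e5320 a b c d) (appM N5320 (Nat.shiftLeft (Nat.mod v 2) 1)) :=
  r_fact (n := 1) rfl ez5220 y5320_1 (nf5320 h)
theorem w5320 (h : Q A a b c d) : WP ![5, 3, 2, 0] ![a, b, c, d] (e5320 a b c d) :=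
  wp_step4 (nf5320 h) (by decide) (Or.inr ⟨_, wp0123 (w4320 h), wp_r ez4320 y5320_0⟩) (Or.inr ⟨_, wp0123 (w5220 h), wp_r ez5220 y5320_1⟩) (Or.inr ⟨_, wp0123 (z5310 h), wp_z (fun _ _ => rfl)⟩) (Or.inl rfl)

theorem qL5311_0 (h : Q A a b c d) : List.Forall₂ (EntOk a (symOf (ps5311 a b c d)))
    (ps4311 a b c d) pL5311_0 :=
  (.cons (ent_i rfl rfl (ops_L (lL4311_0 h) (ops_nil _)) ez4311 y5311_0) (.cons (ent_i rfl rfl (ops_L (lL5211_0 h) (ops_nil _)) ez5211 y5311_1) (.cons (ent_n ez4310) (.cons (ent_n ez4310) .nil))))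
theorem qL5311_1 (h : Q A a b c d) : List.Forall₂ (EntOk b (symOf (ps5311 a b c d)))
    (ps5211 a b c d) pL5311_1 :=
  (.cons (ent_i rfl rfl (ops_L (lL4311_1 h) (ops_nil _)) ez4311 y5311_0) (.cons (ent_n ez5111) (.cons (ent_n ez5210) (.cons (ent_n ez5210) .nil))))
theorem nf5311 (h : Q A a b c d) : ∀ r, vec (symOf (ps5311 a b c d)) r = vec (e5311 a b c d) (appM N5311 r) :=
  block_sound2 h.h.two (ps := ps5311 a b c d) (ns := 13) rfl (raw5 (srcRow_spec h.h.two (qL5311_0 h) (nf4311 h) wf4311) (srcRow_spec h.h.two (qL5311_1 h) (nf5211 h) wf5211) (zf_spec _) (zf_spec _) (zf_spec _)) kb5311 co5311 u5311 el5311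
theorem ez5311 : ∀ k, 0 ≤ k → e5311 a b c d k = 0 := eOf_ge _ (wfT_D wf5311).2
theorem lL5311_0 (h : Q A a b c d) : ∀ v, a * vec (e4311 a b c d) v = vec (e5311 a b c d) (appM L5311_0 v) :=
  table_sound2 h.h.two (qL5311_0 h) (nf5311 h) kv5311_0 kL5311_0
theorem lL5311_1 (h : Q A a b c d) : ∀ v, b * vec (e5211 a b c d) v = vec (e5311 a b c d) (appM L5311_1 v) :=
  table_sound2 h.h.two (qL5311_1 h) (nf5311 h) kv5311_1 kL5311_1
theorem rR5311_0 (h : Q A a b c d) : ∀ v, vec (e4311 a b c d) v * a = vec (e5311 a b c d) (appM N5311 (Nat.shiftLeft (Nat.mod v 1024) 0)) :=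
  r_fact (n := 10) rfl ez4311 y5311_0 (nf5311 h)
theorem rR5311_1 (h : Q A a b c d) : ∀ v, vec (e5211 a b c d) v * b = vec (e5311 a b c d) (appM N5311 (Nat.shiftLeft (Nat.mod v 8) 10)) :=
  r_fact (n := 3) rfl ez5211 y5311_1 (nf5311 h)
theorem w5311 (h : Q A a b c d) : WP ![5, 3, 1, 1] ![a, b, c, d] (e5311 a b c d) :=
  wp_step4 (nf5311 h) (by decide) (Or.inr ⟨_, wp0123 (w4311 h), wp_r ez4311 y5311_0⟩) (Or.inr ⟨_, wp0123 (w5211 h), wp_r ez5211 y5311_1⟩) (Or.inr ⟨_, wp0132 (z5310 h.p0132), wp_z (fun _ _ => rfl)⟩) (Or.inr ⟨_, wp0123 (z5310 h), wp_z (fun _ _ => rfl)⟩)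

theorem qL5221_0 (h : Q A a b c d) : List.Forall₂ (EntOk a (symOf (ps5221 a b c d)))
    (ps4221 a b c d) pL5221_0 :=
  (.cons (ent_i rfl rfl (ops_L (lL4221_0 h) (ops_nil _)) ez4221 y5221_0) (.cons (ent_i rfl rfl (ops_L (lL5211_0 h.p0213) (ops_nil _)) ez5211 y5221_1) (.cons (ent_i rfl rfl (ops_L (lL5211_0 h) (ops_nil _)) ez5211 y5221_2) (.cons (ent_i rfl rfl (ops_L (lL5220_0 h) (ops_nil _)) ez5220 y5221_3) .nil))))
theorem qL5221_1 (h : Q A a b c d) : List.Forall₂ (EntOk b (symOf (ps5221 a b c d)))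
    (ps5211 a c b d) pL5221_1 :=
  (.cons (ent_i rfl rfl (ops_L (lL4221_2 h.p0213) (ops_S (sS4221_2 h.p0213) (ops_nil _))) ez4221 y5221_0) (.cons (ent_n ez5111) (.cons (ent_n ez5210) (.cons (ent_n ez5210) .nil))))
theorem qL5221_2 (h : Q A a b c d) : List.Forall₂ (EntOk c (symOf (ps5221 a b c d)))
    (ps5211 a b c d) pL5221_2 :=
  (.cons (ent_i rfl rfl (ops_L (lL4221_2 h) (ops_nil _)) ez4221 y5221_0) (.cons (ent_n ez5111) (.cons (ent_n ez5210) (.cons (ent_n ez5210) .nil))))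
theorem qL5221_3 (h : Q A a b c d) : List.Forall₂ (EntOk d (symOf (ps5221 a b c d)))
    (ps5220 a b c d) pL5221_3 :=
  (.cons (ent_i rfl rfl (ops_L (lL4221_3 h) (ops_nil _)) ez4221 y5221_0) (.cons (ent_n ez5210) (.cons (ent_n ez5210) .nil)))
theorem gen5221 (h : Q A a b c d) : ∀ m ∈ gList G5221, vec (symOf (ps5221 a b c d)) m = 0 :=
  gChk_spec (sem := SEM a b c d) (c := 30045) h.h (TT10 h) (init_val (a := a) (b := b) (c := c) (d := d) _ rfl) (ltr_mem h) (by norm_num) (by norm_num) kG5221 kH5221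
theorem nf5221 (h : Q A a b c d) : ∀ r, vec (symOf (ps5221 a b c d)) r = vec (e5221 a b c d) (appM N5221 r) :=
  block_sound2 h.h.two (ps := ps5221 a b c d) (ns := 94) rfl (raw5 (srcRow_spec h.h.two (qL5221_0 h) (nf4221 h) wf4221) (srcRow_spec h.h.two (qL5221_1 h) (nf5211 h.p0213) wf5211) (srcRow_spec h.h.two (qL5221_2 h) (nf5211 h) wf5211) (srcRow_spec h.h.two (qL5221_3 h) (nf5220 h) wf5220) (nthL_spec (gen5221 h))) kb5221 co5221 u5221 el5221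
theorem ez5221 : ∀ k, 23 ≤ k → e5221 a b c d k = 0 := eOf_ge _ (wfT_D wf5221).2
theorem qS5221_2 (h : Q A a b c d) : List.Forall₂ (EntOk 1 (symOf (ps5221 a b c d)))
    (ps5221 a c b d) pS5221_2 :=
  (.cons (ent_i rfl rfl (ops_S (sS4221_2 h.p0213) (ops_nil _)) ez4221 y5221_0) (.cons (ent_i rfl rfl (ops_nil _) ez5211 y5221_2) (.cons (ent_i rfl rfl (ops_nil _) ez5211 y5221_1) (.cons (ent_i rfl rfl (ops_S (sS5220_2 h.p0213) (ops_nil _)) ez5220 y5221_3) .nil))))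
theorem sS5221_2 (h : Q A a b c d) : ∀ v, vec (e5221 a b c d) v = vec (e5221 a c b d) (appM S5221_2 v) :=
  fun v => (one_mul _).symm.trans (table_sound2 h.h.two (qS5221_2 h.p0213) (nf5221 h.p0213) kw5221_2 kS5221_2 v)
theorem lL5221_0 (h : Q A a b c d) : ∀ v, a * vec (e4221 a b c d) v = vec (e5221 a b c d) (appM L5221_0 v) :=
  table_sound2 h.h.two (qL5221_0 h) (nf5221 h) kv5221_0 kL5221_0
theorem lL5221_2 (h : Q A a b c d) : ∀ v, c * vec (e5211 a b c d) v = vec (e5221 a b c d) (appM L5221_2 v) :=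
  table_sound2 h.h.two (qL5221_2 h) (nf5221 h) kv5221_2 kL5221_2
theorem lL5221_3 (h : Q A a b c d) : ∀ v, d * vec (e5220 a b c d) v = vec (e5221 a b c d) (appM L5221_3 v) :=
  table_sound2 h.h.two (qL5221_3 h) (nf5221 h) kv5221_3 kL5221_3
theorem rR5221_0 (h : Q A a b c d) : ∀ v, vec (e4221 a b c d) v * a = vec (e5221 a b c d) (appM N5221 (Nat.shiftLeft (Nat.mod v 0x8000000000000000000000) 0)) :=
  r_fact (n := 87) rfl ez4221 y5221_0 (nf5221 h)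
theorem rR5221_2 (h : Q A a b c d) : ∀ v, vec (e5211 a b c d) v * c = vec (e5221 a b c d) (appM N5221 (Nat.shiftLeft (Nat.mod v 8) 90)) :=
  r_fact (n := 3) rfl ez5211 y5221_2 (nf5221 h)
theorem rR5221_3 (h : Q A a b c d) : ∀ v, vec (e5220 a b c d) v * d = vec (e5221 a b c d) (appM N5221 (Nat.shiftLeft (Nat.mod v 2) 93)) :=
  r_fact (n := 1) rfl ez5220 y5221_3 (nf5221 h)
theorem w5221 (h : Q A a b c d) : WP ![5, 2, 2, 1] ![a, b, c, d] (e5221 a b c d) :=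
  wp_step4 (nf5221 h) (by decide) (Or.inr ⟨_, wp0123 (w4221 h), wp_r ez4221 y5221_0⟩) (Or.inr ⟨_, wp0213 (w5211 h.p0213), wp_r ez5211 y5221_1⟩) (Or.inr ⟨_, wp0123 (w5211 h), wp_r ez5211 y5221_2⟩) (Or.inr ⟨_, wp0123 (w5220 h), wp_r ez5220 y5221_3⟩)

theorem qL4420_0 (h : Q A a b c d) : List.Forall₂ (EntOk a (symOf (ps4420 a b c d)))
    (ps4320 b a c d) pL4420_0 :=
  (.cons (ent_i rfl rfl (ops_S (sS3320_1 h.p1023) (ops_L (lL4320_0 h) (ops_nil _))) ez4320 y4420_1) (.cons (ent_i rfl rfl (ops_L (lL4320_1 h.p1023) (ops_nil _)) ez4320 y4420_0) (.cons (ent_n ez4310) .nil)))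
theorem qL4420_1 (h : Q A a b c d) : List.Forall₂ (EntOk b (symOf (ps4420 a b c d)))
    (ps4320 a b c d) pL4420_1 :=
  (.cons (ent_i rfl rfl (ops_S (sS3320_1 h) (ops_L (lL4320_0 h.p1023) (ops_nil _))) ez4320 y4420_0) (.cons (ent_i rfl rfl (ops_L (lL4320_1 h) (ops_nil _)) ez4320 y4420_1) (.cons (ent_n ez4310) .nil)))
theorem nf4420 (h : Q A a b c d) : ∀ r, vec (symOf (ps4420 a b c d)) r = vec (e4420 a b c d) (appM N4420 r) :=
  block_sound2 h.h.two (ps := ps4420 a b c d) (ns := 2) rfl (raw5 (srcRow_spec h.h.two (qL4420_0 h) (nf4320 h.p1023) wf4320) (srcRow_spec h.h.two (qL4420_1 h) (nf4320 h) wf4320) (zf_spec _) (zf_spec _) (zf_spec _)) kb4420 co4420 u4420 el4420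
theorem ez4420 : ∀ k, 0 ≤ k → e4420 a b c d k = 0 := eOf_ge _ (wfT_D wf4420).2
theorem lL4420_1 (h : Q A a b c d) : ∀ v, b * vec (e4320 a b c d) v = vec (e4420 a b c d) (appM L4420_1 v) :=
  table_sound2 h.h.two (qL4420_1 h) (nf4420 h) kv4420_1 kL4420_1
theorem w4420 (h : Q A a b c d) : WP ![4, 4, 2, 0] ![a, b, c, d] (e4420 a b c d) :=
  wp_step4 (nf4420 h) (by decide) (Or.inr ⟨_, wp1023 (w4320 h.p1023), wp_r ez4320 y4420_0⟩) (Or.inr ⟨_, wp0123 (w4320 h), wp_r ez4320 y4420_1⟩) (Or.inr ⟨_, wp0123 (z4410 h), wp_z (fun _ _ => rfl)⟩) (Or.inl rfl)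

theorem qL4411_0 (h : Q A a b c d) : List.Forall₂ (EntOk a (symOf (ps4411 a b c d)))
    (ps4311 b a c d) pL4411_0 :=
  (.cons (ent_i rfl rfl (ops_S (sS3311_1 h.p1023) (ops_L (lL4311_0 h) (ops_nil _))) ez4311 y4411_1) (.cons (ent_i rfl rfl (ops_L (lL4311_1 h.p1023) (ops_nil _)) ez4311 y4411_0) (.cons (ent_n ez4310) (.cons (ent_n ez4310) .nil))))
theorem qL4411_1 (h : Q A a b c d) : List.Forall₂ (EntOk b (symOf (ps4411 a b c d)))
    (ps4311 a b c d) pL4411_1 :=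
  (.cons (ent_i rfl rfl (ops_S (sS3311_1 h) (ops_L (lL4311_0 h.p1023) (ops_nil _))) ez4311 y4411_0) (.cons (ent_i rfl rfl (ops_L (lL4311_1 h) (ops_nil _)) ez4311 y4411_1) (.cons (ent_n ez4310) (.cons (ent_n ez4310) .nil))))
theorem nf4411 (h : Q A a b c d) : ∀ r, vec (symOf (ps4411 a b c d)) r = vec (e4411 a b c d) (appM N4411 r) :=
  block_sound2 h.h.two (ps := ps4411 a b c d) (ns := 20) rfl (raw5 (srcRow_spec h.h.two (qL4411_0 h) (nf4311 h.p1023) wf4311) (srcRow_spec h.h.two (qL4411_1 h) (nf4311 h) wf4311) (zf_spec _) (zf_spec _) (zf_spec _)) kb4411 co4411 u4411 el4411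
theorem ez4411 : ∀ k, 0 ≤ k → e4411 a b c d k = 0 := eOf_ge _ (wfT_D wf4411).2
theorem lL4411_1 (h : Q A a b c d) : ∀ v, b * vec (e4311 a b c d) v = vec (e4411 a b c d) (appM L4411_1 v) :=
  table_sound2 h.h.two (qL4411_1 h) (nf4411 h) kv4411_1 kL4411_1
theorem w4411 (h : Q A a b c d) : WP ![4, 4, 1, 1] ![a, b, c, d] (e4411 a b c d) :=
  wp_step4 (nf4411 h) (by decide) (Or.inr ⟨_, wp1023 (w4311 h.p1023), wp_r ez4311 y4411_0⟩) (Or.inr ⟨_, wp0123 (w4311 h), wp_r ez4311 y4411_1⟩) (Or.inr ⟨_, wp0132 (z4410 h.p0132), wp_z (fun _ _ => rfl)⟩) (Or.inr ⟨_, wp0123 (z4410 h), wp_z (fun _ _ => rfl)⟩)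

theorem qL4330_0 (h : Q A a b c d) : List.Forall₂ (EntOk a (symOf (ps4330 a b c d)))
    (ps3330 a b c d) pL4330_0 :=
  (.cons (ent_z rfl (ops_L (lL3330_2 h.p1203) (ops_nil _)) ez3330) (.cons (ent_i rfl rfl (ops_L (lL4320_0 h.p0213) (ops_nil _)) ez4320 y4330_1) (.cons (ent_i rfl rfl (ops_L (lL4320_0 h) (ops_nil _)) ez4320 y4330_2) .nil)))
theorem qL4330_1 (h : Q A a b c d) : List.Forall₂ (EntOk b (symOf (ps4330 a b c d)))
    (ps4320 a c b d) pL4330_1 :=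
  (.cons (ent_z rfl (ops_L (lL3330_2 h.p0213) (ops_nil _)) ez3330) (.cons (ent_i rfl rfl (ops_S (sS4220_2 h.p0213) (ops_L (lL4320_1 h) (ops_nil _))) ez4320 y4330_2) (.cons (ent_n ez4310) .nil)))
theorem qL4330_2 (h : Q A a b c d) : List.Forall₂ (EntOk c (symOf (ps4330 a b c d)))
    (ps4320 a b c d) pL4330_2 :=
  (.cons (ent_z rfl (ops_L (lL3330_2 h) (ops_nil _)) ez3330) (.cons (ent_i rfl rfl (ops_S (sS4220_2 h) (ops_L (lL4320_1 h.p0213) (ops_nil _))) ez4320 y4330_1) (.cons (ent_n ez4310) .nil)))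
theorem nf4330 (h : Q A a b c d) : ∀ r, vec (symOf (ps4330 a b c d)) r = vec (e4330 a b c d) (appM N4330 r) :=
  block_sound2 h.h.two (ps := ps4330 a b c d) (ns := 2) rfl (raw5 (srcRow_spec h.h.two (qL4330_0 h) (nf3330 h) wf3330) (srcRow_spec h.h.two (qL4330_1 h) (nf4320 h.p0213) wf4320) (srcRow_spec h.h.two (qL4330_2 h) (nf4320 h) wf4320) (zf_spec _) (zf_spec _)) kb4330 co4330 u4330 el4330
theorem ez4330 : ∀ k, 0 ≤ k → e4330 a b c d k = 0 := eOf_ge _ (wfT_D wf4330).2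
theorem lL4330_2 (h : Q A a b c d) : ∀ v, c * vec (e4320 a b c d) v = vec (e4330 a b c d) (appM L4330_2 v) :=
  table_sound2 h.h.two (qL4330_2 h) (nf4330 h) kv4330_2 kL4330_2
theorem w4330 (h : Q A a b c d) : WP ![4, 3, 3, 0] ![a, b, c, d] (e4330 a b c d) :=
  wp_step4 (nf4330 h) (by decide) (Or.inr ⟨_, wp0123 (w3330 h), wp_z ez3330⟩) (Or.inr ⟨_, wp0213 (w4320 h.p0213), wp_r ez4320 y4330_1⟩) (Or.inr ⟨_, wp0123 (w4320 h), wp_r ez4320 y4330_2⟩) (Or.inl rfl)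

theorem qL4321_0 (h : Q A a b c d) : List.Forall₂ (EntOk a (symOf (ps4321 a b c d)))
    (ps3321 a b c d) pL4321_0 :=
  (.cons (ent_i rfl rfl (ops_L (lL3321_1 h.p1023) (ops_S (sS3321_1 h.p1023) (ops_nil _))) ez3321 y4321_0) (.cons (ent_i rfl rfl (ops_L (lL4221_0 h) (ops_nil _)) ez4221 y4321_1) (.cons (ent_i rfl rfl (ops_L (lL4311_0 h) (ops_nil _)) ez4311 y4321_2) (.cons (ent_i rfl rfl (ops_L (lL4320_0 h) (ops_nil _)) ez4320 y4321_3) .nil))))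
theorem qL4321_1 (h : Q A a b c d) : List.Forall₂ (EntOk b (symOf (ps4321 a b c d)))
    (ps4221 a b c d) pL4321_1 :=
  (.cons (ent_i rfl rfl (ops_L (lL3321_1 h) (ops_nil _)) ez3321 y4321_0) (.cons (ent_i rfl rfl (ops_L (lL4221_2 h.p0213) (ops_S (sS4221_2 h.p0213) (ops_nil _))) ez4221 y4321_1) (.cons (ent_i rfl rfl (ops_L (lL4311_1 h) (ops_nil _)) ez4311 y4321_2) (.cons (ent_i rfl rfl (ops_L (lL4320_1 h) (ops_nil _)) ez4320 y4321_3) .nil))))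
theorem qL4321_2 (h : Q A a b c d) : List.Forall₂ (EntOk c (symOf (ps4321 a b c d)))
    (ps4311 a b c d) pL4321_2 :=
  (.cons (ent_i rfl rfl (ops_L (lL3321_2 h) (ops_nil _)) ez3321 y4321_0) (.cons (ent_i rfl rfl (ops_L (lL4221_2 h) (ops_nil _)) ez4221 y4321_1) (.cons (ent_n ez4310) (.cons (ent_n ez4310) .nil))))
theorem qL4321_3 (h : Q A a b c d) : List.Forall₂ (EntOk d (symOf (ps4321 a b c d)))
    (ps4320 a b c d) pL4321_3 :=
  (.cons (ent_i rfl rfl (ops_L (lL3321_3 h) (ops_nil _)) ez3321 y4321_0) (.cons (ent_i rfl rfl (ops_L (lL4221_3 h) (ops_nil _)) ez4221 y4321_1) (.cons (ent_n ez4310) .nil)))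
theorem gen4321 (h : Q A a b c d) : ∀ m ∈ gList G4321, vec (symOf (ps4321 a b c d)) m = 0 :=
  gChk_spec (sem := SEM a b c d) (c := 30049) h.h (TT10 h) (init_val (a := a) (b := b) (c := c) (d := d) _ rfl) (ltr_mem h) (by norm_num) (by norm_num) kG4321 kH4321
theorem nf4321 (h : Q A a b c d) : ∀ r, vec (symOf (ps4321 a b c d)) r = vec (e4321 a b c d) (appM N4321 r) :=
  block_sound2 h.h.two (ps := ps4321 a b c d) (ns := 242) rfl (raw5 (srcRow_spec h.h.two (qL4321_0 h) (nf3321 h) wf3321) (srcRow_spec h.h.two (qL4321_1 h) (nf4221 h) wf4221) (srcRow_spec h.h.two (qL4321_2 h) (nf4311 h) wf4311) (srcRow_spec h.h.two (qL4321_3 h) (nf4320 h) wf4320) (nthL_spec (gen4321 h))) kb4321 co4321 u4321 el4321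
theorem ez4321 : ∀ k, 68 ≤ k → e4321 a b c d k = 0 := eOf_ge _ (wfT_D wf4321).2
theorem lL4321_0 (h : Q A a b c d) : ∀ v, a * vec (e3321 a b c d) v = vec (e4321 a b c d) (appM L4321_0 v) :=
  table_sound2 h.h.two (qL4321_0 h) (nf4321 h) kv4321_0 kL4321_0
theorem lL4321_1 (h : Q A a b c d) : ∀ v, b * vec (e4221 a b c d) v = vec (e4321 a b c d) (appM L4321_1 v) :=
  table_sound2 h.h.two (qL4321_1 h) (nf4321 h) kv4321_1 kL4321_1
theorem lL4321_2 (h : Q A a b c d) : ∀ v, c * vec (e4311 a b c d) v = vec (e4321 a b c d) (appM L4321_2 v) :=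
  table_sound2 h.h.two (qL4321_2 h) (nf4321 h) kv4321_2 kL4321_2
theorem lL4321_3 (h : Q A a b c d) : ∀ v, d * vec (e4320 a b c d) v = vec (e4321 a b c d) (appM L4321_3 v) :=
  table_sound2 h.h.two (qL4321_3 h) (nf4321 h) kv4321_3 kL4321_3
theorem rR4321_0 (h : Q A a b c d) : ∀ v, vec (e3321 a b c d) v * a = vec (e4321 a b c d) (appM N4321 (Nat.shiftLeft (Nat.mod v 0x1000000000000000000000000000000000000) 0)) :=
  r_fact (n := 144) rfl ez3321 y4321_0 (nf4321 h)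
theorem rR4321_1 (h : Q A a b c d) : ∀ v, vec (e4221 a b c d) v * b = vec (e4321 a b c d) (appM N4321 (Nat.shiftLeft (Nat.mod v 0x8000000000000000000000) 144)) :=
  r_fact (n := 87) rfl ez4221 y4321_1 (nf4321 h)
theorem rR4321_2 (h : Q A a b c d) : ∀ v, vec (e4311 a b c d) v * c = vec (e4321 a b c d) (appM N4321 (Nat.shiftLeft (Nat.mod v 1024) 231)) :=
  r_fact (n := 10) rfl ez4311 y4321_2 (nf4321 h)
theorem rR4321_3 (h : Q A a b c d) : ∀ v, vec (e4320 a b c d) v * d = vec (e4321 a b c d) (appM N4321 (Nat.shiftLeft (Nat.mod v 2) 241)) :=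
  r_fact (n := 1) rfl ez4320 y4321_3 (nf4321 h)
theorem w4321 (h : Q A a b c d) : WP ![4, 3, 2, 1] ![a, b, c, d] (e4321 a b c d) :=
  wp_step4 (nf4321 h) (by decide) (Or.inr ⟨_, wp0123 (w3321 h), wp_r ez3321 y4321_0⟩) (Or.inr ⟨_, wp0123 (w4221 h), wp_r ez4221 y4321_1⟩) (Or.inr ⟨_, wp0123 (w4311 h), wp_r ez4311 y4321_2⟩) (Or.inr ⟨_, wp0123 (w4320 h), wp_r ez4320 y4321_3⟩)

theorem qL4222_0 (h : Q A a b c d) : List.Forall₂ (EntOk a (symOf (ps4222 a b c d)))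
    (ps3222 a b c d) pL4222_0 :=
  (.cons (ent_i rfl rfl (ops_L (lL3222_0 h) (ops_nil _)) ez3222 y4222_0) (.cons (ent_i rfl rfl (ops_L (lL4221_0 h.p0231) (ops_nil _)) ez4221 y4222_1) (.cons (ent_i rfl rfl (ops_L (lL4221_0 h.p0132) (ops_nil _)) ez4221 y4222_2) (.cons (ent_i rfl rfl (ops_L (lL4221_0 h) (ops_nil _)) ez4221 y4222_3) .nil))))
theorem qL4222_1 (h : Q A a b c d) : List.Forall₂ (EntOk b (symOf (ps4222 a b c d)))
    (ps4221 a c d b) pL4222_1 :=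
  (.cons (ent_i rfl rfl (ops_L (lL3222_3 h.p0231) (ops_S (sS3222_2 h.p0231) (ops_S (sS3222_3 h.p0321) (ops_S (sS3222_2 h) (ops_S (sS3222_2 h.p0213) (ops_nil _)))))) ez3222 y4222_0) (.cons (ent_i rfl rfl (ops_S (sS4211_3 h.p0321) (ops_L (lL4221_2 h.p0312) (ops_S (sS4221_2 h.p0312) (ops_nil _)))) ez4221 y4222_2) (.cons (ent_i rfl rfl (ops_S (sS4211_3 h.p0231) (ops_L (lL4221_2 h.p0213) (ops_S (sS4221_2 h.p0213) (ops_nil _)))) ez4221 y4222_3) (.cons (ent_i rfl rfl (ops_L (lL4221_3 h.p0231) (ops_nil _)) ez4221 y4222_1) .nil))))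
theorem qL4222_2 (h : Q A a b c d) : List.Forall₂ (EntOk c (symOf (ps4222 a b c d)))
    (ps4221 a b d c) pL4222_2 :=
  (.cons (ent_i rfl rfl (ops_L (lL3222_3 h.p0132) (ops_S (sS3222_2 h.p0132) (ops_S (sS3222_3 h.p0312) (ops_S (sS3222_2 h.p0213) (ops_nil _))))) ez3222 y4222_0) (.cons (ent_i rfl rfl (ops_S (sS4211_3 h.p0312) (ops_L (lL4221_2 h.p0321) (ops_S (sS4221_2 h.p0321) (ops_nil _)))) ez4221 y4222_1) (.cons (ent_i rfl rfl (ops_S (sS4211_3 h.p0132) (ops_L (lL4221_2 h) (ops_nil _))) ez4221 y4222_3) (.cons (ent_i rfl rfl (ops_L (lL4221_3 h.p0132) (ops_nil _)) ez4221 y4222_2) .nil))))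
theorem qL4222_3 (h : Q A a b c d) : List.Forall₂ (EntOk d (symOf (ps4222 a b c d)))
    (ps4221 a b c d) pL4222_3 :=
  (.cons (ent_i rfl rfl (ops_L (lL3222_3 h) (ops_nil _)) ez3222 y4222_0) (.cons (ent_i rfl rfl (ops_S (sS4211_3 h.p0213) (ops_L (lL4221_2 h.p0231) (ops_nil _))) ez4221 y4222_1) (.cons (ent_i rfl rfl (ops_S (sS4211_3 h) (ops_L (lL4221_2 h.p0132) (ops_nil _))) ez4221 y4222_2) (.cons (ent_i rfl rfl (ops_L (lL4221_3 h) (ops_nil _)) ez4221 y4222_3) .nil))))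
theorem gen4222 (h : Q A a b c d) : ∀ m ∈ gList G4222, vec (symOf (ps4222 a b c d)) m = 0 :=
  gChk_spec (sem := SEM a b c d) (c := 30050) h.h (TT10 h) (init_val (a := a) (b := b) (c := c) (d := d) _ rfl) (ltr_mem h) (by norm_num) (by norm_num) kG4222 kH4222
theorem nf4222 (h : Q A a b c d) : ∀ r, vec (symOf (ps4222 a b c d)) r = vec (e4222 a b c d) (appM N4222 r) :=
  block_sound2 h.h.two (ps := ps4222 a b c d) (ns := 762) rfl (raw5 (srcRow_spec h.h.two (qL4222_0 h) (nf3222 h) wf3222) (srcRow_spec h.h.two (qL4222_1 h) (nf4221 h.p0231) wf4221) (srcRow_spec h.h.two (qL4222_2 h) (nf4221 h.p0132) wf4221) (srcRow_spec h.h.two (qL4222_3 h) (nf4221 h) wf4221) (nthL_spec (gen4222 h))) kb4222 co4222 u4222 el4222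
theorem ez4222 : ∀ k, 366 ≤ k → e4222 a b c d k = 0 := eOf_ge _ (wfT_D wf4222).2
theorem qS4222_2 (h : Q A a b c d) : List.Forall₂ (EntOk 1 (symOf (ps4222 a b c d)))
    (ps4222 a c b d) pS4222_2 :=
  (.cons (ent_i rfl rfl (ops_S (sS3222_2 h.p0213) (ops_nil _)) ez3222 y4222_0) (.cons (ent_i rfl rfl (ops_nil _) ez4221 y4222_2) (.cons (ent_i rfl rfl (ops_nil _) ez4221 y4222_1) (.cons (ent_i rfl rfl (ops_S (sS4221_2 h.p0213) (ops_nil _)) ez4221 y4222_3) .nil))))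
theorem sS4222_2 (h : Q A a b c d) : ∀ v, vec (e4222 a b c d) v = vec (e4222 a c b d) (appM S4222_2 v) :=
  fun v => (one_mul _).symm.trans (table_sound2 h.h.two (qS4222_2 h.p0213) (nf4222 h.p0213) kw4222_2 kS4222_2 v)
theorem qS4222_3 (h : Q A a b c d) : List.Forall₂ (EntOk 1 (symOf (ps4222 a b c d)))
    (ps4222 a d c b) pS4222_3 :=
  (.cons (ent_i rfl rfl (ops_S (sS3222_3 h.p0321) (ops_nil _)) ez3222 y4222_0) (.cons (ent_i rfl rfl (ops_S (sS4221_2 h.p0213) (ops_nil _)) ez4221 y4222_3) (.cons (ent_i rfl rfl (ops_S (sS4221_2 h.p0312) (ops_nil _)) ez4221 y4222_2) (.cons (ent_i rfl rfl (ops_S (sS4221_2 h.p0321) (ops_nil _)) ez4221 y4222_1) .nil))))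
theorem sS4222_3 (h : Q A a b c d) : ∀ v, vec (e4222 a b c d) v = vec (e4222 a d c b) (appM S4222_3 v) :=
  fun v => (one_mul _).symm.trans (table_sound2 h.h.two (qS4222_3 h.p0321) (nf4222 h.p0321) kw4222_3 kS4222_3 v)
theorem lL4222_0 (h : Q A a b c d) : ∀ v, a * vec (e3222 a b c d) v = vec (e4222 a b c d) (appM L4222_0 v) :=
  table_sound2 h.h.two (qL4222_0 h) (nf4222 h) kv4222_0 kL4222_0
theorem lL4222_3 (h : Q A a b c d) : ∀ v, d * vec (e4221 a b c d) v = vec (e4222 a b c d) (appM L4222_3 v) :=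
  table_sound2 h.h.two (qL4222_3 h) (nf4222 h) kv4222_3 kL4222_3
theorem rR4222_0 (h : Q A a b c d) : ∀ v, vec (e3222 a b c d) v * a = vec (e4222 a b c d) (appM N4222 (Nat.shiftLeft (Nat.mod v 0x200000000000000000000000000000000000000000000000000000000000000000000000000000000000000000000000000000000000000000000000000000) 0)) :=
  r_fact (n := 501) rfl ez3222 y4222_0 (nf4222 h)
theorem rR4222_3 (h : Q A a b c d) : ∀ v, vec (e4221 a b c d) v * d = vec (e4222 a b c d) (appM N4222 (Nat.shiftLeft (Nat.mod v 0x8000000000000000000000) 675)) :=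
  r_fact (n := 87) rfl ez4221 y4222_3 (nf4222 h)
theorem w4222 (h : Q A a b c d) : WP ![4, 2, 2, 2] ![a, b, c, d] (e4222 a b c d) :=
  wp_step4 (nf4222 h) (by decide) (Or.inr ⟨_, wp0123 (w3222 h), wp_r ez3222 y4222_0⟩) (Or.inr ⟨_, wp0231 (w4221 h.p0231), wp_r ez4221 y4222_1⟩) (Or.inr ⟨_, wp0132 (w4221 h.p0132), wp_r ez4221 y4222_2⟩) (Or.inr ⟨_, wp0123 (w4221 h), wp_r ez4221 y4222_3⟩)

theorem qL3331_0 (h : Q A a b c d) : List.Forall₂ (EntOk a (symOf (ps3331 a b c d)))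
    (ps3321 b c a d) pL3331_0 :=
  (.cons (ent_i rfl rfl (ops_S (sS3221_2 h.p2103) (ops_L (lL3321_1 h.p2013) (ops_S (sS3321_1 h.p2013) (ops_nil _)))) ez3321 y3331_1) (.cons (ent_i rfl rfl (ops_S (sS3221_2 h.p1203) (ops_L (lL3321_1 h.p1023) (ops_S (sS3321_1 h.p1023) (ops_nil _)))) ez3321 y3331_2) (.cons (ent_i rfl rfl (ops_L (lL3321_2 h.p1203) (ops_nil _)) ez3321 y3331_0) (.cons (ent_z rfl (ops_L (lL3330_2 h.p1203) (ops_nil _)) ez3330) .nil))))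
theorem qL3331_1 (h : Q A a b c d) : List.Forall₂ (EntOk b (symOf (ps3331 a b c d)))
    (ps3321 a c b d) pL3331_1 :=
  (.cons (ent_i rfl rfl (ops_S (sS3221_2 h.p2013) (ops_L (lL3321_1 h.p2103) (ops_S (sS3321_1 h.p2103) (ops_nil _)))) ez3321 y3331_0) (.cons (ent_i rfl rfl (ops_S (sS3221_2 h.p0213) (ops_L (lL3321_1 h) (ops_nil _))) ez3321 y3331_2) (.cons (ent_i rfl rfl (ops_L (lL3321_2 h.p0213) (ops_nil _)) ez3321 y3331_1) (.cons (ent_z rfl (ops_L (lL3330_2 h.p0213) (ops_nil _)) ez3330) .nil))))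
theorem qL3331_2 (h : Q A a b c d) : List.Forall₂ (EntOk c (symOf (ps3331 a b c d)))
    (ps3321 a b c d) pL3331_2 :=
  (.cons (ent_i rfl rfl (ops_S (sS3221_2 h.p1023) (ops_L (lL3321_1 h.p1203) (ops_nil _))) ez3321 y3331_0) (.cons (ent_i rfl rfl (ops_S (sS3221_2 h) (ops_L (lL3321_1 h.p0213) (ops_nil _))) ez3321 y3331_1) (.cons (ent_i rfl rfl (ops_L (lL3321_2 h) (ops_nil _)) ez3321 y3331_2) (.cons (ent_z rfl (ops_L (lL3330_2 h) (ops_nil _)) ez3330) .nil))))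
theorem qL3331_3 (h : Q A a b c d) : List.Forall₂ (EntOk d (symOf (ps3331 a b c d)))
    (ps3330 a b c d) pL3331_3 :=
  (.cons (ent_i rfl rfl (ops_L (lL3321_3 h.p1203) (ops_nil _)) ez3321 y3331_0) (.cons (ent_i rfl rfl (ops_L (lL3321_3 h.p0213) (ops_nil _)) ez3321 y3331_1) (.cons (ent_i rfl rfl (ops_L (lL3321_3 h) (ops_nil _)) ez3321 y3331_2) .nil)))
theorem gen3331 (h : Q A a b c d) : ∀ m ∈ gList G3331, vec (symOf (ps3331 a b c d)) m = 0 :=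
  gChk_spec (sem := SEM a b c d) (c := 30051) h.h (TT10 h) (init_val (a := a) (b := b) (c := c) (d := d) _ rfl) (ltr_mem h) (by norm_num) (by norm_num) kG3331 kH3331
theorem nf3331 (h : Q A a b c d) : ∀ r, vec (symOf (ps3331 a b c d)) r = vec (e3331 a b c d) (appM N3331 r) :=
  block_sound2 h.h.two (ps := ps3331 a b c d) (ns := 432) rfl (raw5 (srcRow_spec h.h.two (qL3331_0 h) (nf3321 h.p1203) wf3321) (srcRow_spec h.h.two (qL3331_1 h) (nf3321 h.p0213) wf3321) (srcRow_spec h.h.two (qL3331_2 h) (nf3321 h) wf3321) (srcRow_spec h.h.two (qL3331_3 h) (nf3330 h) wf3330) (nthL_spec (gen3331 h))) kb3331 co3331 u3331 el3331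
theorem ez3331 : ∀ k, 126 ≤ k → e3331 a b c d k = 0 := eOf_ge _ (wfT_D wf3331).2
theorem qS3331_1 (h : Q A a b c d) : List.Forall₂ (EntOk 1 (symOf (ps3331 a b c d)))
    (ps3331 b a c d) pS3331_1 :=
  (.cons (ent_i rfl rfl (ops_nil _) ez3321 y3331_1) (.cons (ent_i rfl rfl (ops_nil _) ez3321 y3331_0) (.cons (ent_i rfl rfl (ops_S (sS3321_1 h.p1023) (ops_nil _)) ez3321 y3331_2) (.cons (ent_n ez3330) .nil))))
theorem sS3331_1 (h : Q A a b c d) : ∀ v, vec (e3331 a b c d) v = vec (e3331 b a c d) (appM S3331_1 v) :=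
  fun v => (one_mul _).symm.trans (table_sound2 h.h.two (qS3331_1 h.p1023) (nf3331 h.p1023) kw3331_1 kS3331_1 v)
theorem qS3331_2 (h : Q A a b c d) : List.Forall₂ (EntOk 1 (symOf (ps3331 a b c d)))
    (ps3331 c b a d) pS3331_2 :=
  (.cons (ent_i rfl rfl (ops_S (sS3321_1 h.p1023) (ops_nil _)) ez3321 y3331_2) (.cons (ent_i rfl rfl (ops_S (sS3321_1 h.p2013) (ops_nil _)) ez3321 y3331_1) (.cons (ent_i rfl rfl (ops_S (sS3321_1 h.p2103) (ops_nil _)) ez3321 y3331_0) (.cons (ent_n ez3330) .nil))))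
theorem sS3331_2 (h : Q A a b c d) : ∀ v, vec (e3331 a b c d) v = vec (e3331 c b a d) (appM S3331_2 v) :=
  fun v => (one_mul _).symm.trans (table_sound2 h.h.two (qS3331_2 h.p2103) (nf3331 h.p2103) kw3331_2 kS3331_2 v)
theorem lL3331_2 (h : Q A a b c d) : ∀ v, c * vec (e3321 a b c d) v = vec (e3331 a b c d) (appM L3331_2 v) :=
  table_sound2 h.h.two (qL3331_2 h) (nf3331 h) kv3331_2 kL3331_2
theorem rR3331_2 (h : Q A a b c d) : ∀ v, vec (e3321 a b c d) v * c = vec (e3331 a b c d) (appM N3331 (Nat.shiftLeft (Nat.mod v 0x1000000000000000000000000000000000000) 288)) :=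
  r_fact (n := 144) rfl ez3321 y3331_2 (nf3331 h)
theorem w3331 (h : Q A a b c d) : WP ![3, 3, 3, 1] ![a, b, c, d] (e3331 a b c d) :=
  wp_step4 (nf3331 h) (by decide) (Or.inr ⟨_, wp1203 (w3321 h.p1203), wp_r ez3321 y3331_0⟩) (Or.inr ⟨_, wp0213 (w3321 h.p0213), wp_r ez3321 y3331_1⟩) (Or.inr ⟨_, wp0123 (w3321 h), wp_r ez3321 y3331_2⟩) (Or.inr ⟨_, wp0123 (w3330 h), wp_z ez3330⟩)

theorem qL3322_0 (h : Q A a b c d) : List.Forall₂ (EntOk a (symOf (ps3322 a b c d)))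
    (ps3222 b a c d) pL3322_0 :=
  (.cons (ent_i rfl rfl (ops_S (sS2222_1 h.p1023) (ops_L (lL3222_0 h) (ops_nil _))) ez3222 y3322_1) (.cons (ent_i rfl rfl (ops_L (lL3222_3 h.p1230) (ops_S (sS3222_2 h.p1230) (ops_S (sS3222_3 h.p1320) (ops_S (sS3222_2 h.p1023) (ops_S (sS3222_2 h.p1203) (ops_nil _)))))) ez3222 y3322_0) (.cons (ent_i rfl rfl (ops_L (lL3321_1 h.p1032) (ops_S (sS3321_1 h.p1032) (ops_nil _))) ez3321 y3322_2) (.cons (ent_i rfl rfl (ops_L (lL3321_1 h.p1023) (ops_S (sS3321_1 h.p1023) (ops_nil _))) ez3321 y3322_3) .nil))))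
theorem qL3322_1 (h : Q A a b c d) : List.Forall₂ (EntOk b (symOf (ps3322 a b c d)))
    (ps3222 a b c d) pL3322_1 :=
  (.cons (ent_i rfl rfl (ops_S (sS2222_1 h) (ops_L (lL3222_0 h.p1023) (ops_nil _))) ez3222 y3322_0) (.cons (ent_i rfl rfl (ops_L (lL3222_3 h.p0231) (ops_S (sS3222_2 h.p0231) (ops_S (sS3222_3 h.p0321) (ops_S (sS3222_2 h) (ops_S (sS3222_2 h.p0213) (ops_nil _)))))) ez3222 y3322_1) (.cons (ent_i rfl rfl (ops_L (lL3321_1 h.p0132) (ops_nil _)) ez3321 y3322_2) (.cons (ent_i rfl rfl (ops_L (lL3321_1 h) (ops_nil _)) ez3321 y3322_3) .nil))))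
theorem qL3322_2 (h : Q A a b c d) : List.Forall₂ (EntOk c (symOf (ps3322 a b c d)))
    (ps3321 a b d c) pL3322_2 :=
  (.cons (ent_i rfl rfl (ops_L (lL3222_3 h.p1032) (ops_S (sS3222_2 h.p1032) (ops_S (sS3222_3 h.p1302) (ops_S (sS3222_2 h.p1203) (ops_nil _))))) ez3222 y3322_0) (.cons (ent_i rfl rfl (ops_L (lL3222_3 h.p0132) (ops_S (sS3222_2 h.p0132) (ops_S (sS3222_3 h.p0312) (ops_S (sS3222_2 h.p0213) (ops_nil _))))) ez3222 y3322_1) (.cons (ent_i rfl rfl (ops_S (sS3311_3 h.p0132) (ops_L (lL3321_2 h) (ops_nil _))) ez3321 y3322_3) (.cons (ent_i rfl rfl (ops_L (lL3321_3 h.p0132) (ops_nil _)) ez3321 y3322_2) .nil))))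
theorem qL3322_3 (h : Q A a b c d) : List.Forall₂ (EntOk d (symOf (ps3322 a b c d)))
    (ps3321 a b c d) pL3322_3 :=
  (.cons (ent_i rfl rfl (ops_L (lL3222_3 h.p1023) (ops_nil _)) ez3222 y3322_0) (.cons (ent_i rfl rfl (ops_L (lL3222_3 h) (ops_nil _)) ez3222 y3322_1) (.cons (ent_i rfl rfl (ops_S (sS3311_3 h) (ops_L (lL3321_2 h.p0132) (ops_nil _))) ez3321 y3322_2) (.cons (ent_i rfl rfl (ops_L (lL3321_3 h) (ops_nil _)) ez3321 y3322_3) .nil))))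
theorem gen3322 (h : Q A a b c d) : ∀ m ∈ gList G3322, vec (symOf (ps3322 a b c d)) m = 0 :=
  gChk_spec (sem := SEM a b c d) (c := 30052) h.h (TT10 h) (init_val (a := a) (b := b) (c := c) (d := d) _ rfl) (ltr_mem h) (by norm_num) (by norm_num) kG3322 kH3322
theorem nf3322 (h : Q A a b c d) : ∀ r, vec (symOf (ps3322 a b c d)) r = vec (e3322 a b c d) (appM N3322 r) :=
  block_sound2 h.h.two (ps := ps3322 a b c d) (ns := 1290) rfl (raw5 (srcRow_spec h.h.two (qL3322_0 h) (nf3222 h.p1023) wf3222) (srcRow_spec h.h.two (qL3322_1 h) (nf3222 h) wf3222) (srcRow_spec h.h.two (qL3322_2 h) (nf3321 h.p0132) wf3321) (srcRow_spec h.h.two (qL3322_3 h) (nf3321 h) wf3321) (nthL_spec (gen3322 h))) kb3322 co3322 u3322 el3322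
theorem ez3322 : ∀ k, 638 ≤ k → e3322 a b c d k = 0 := eOf_ge _ (wfT_D wf3322).2
theorem qS3322_1 (h : Q A a b c d) : List.Forall₂ (EntOk 1 (symOf (ps3322 a b c d)))
    (ps3322 b a c d) pS3322_1 :=
  (.cons (ent_i rfl rfl (ops_nil _) ez3222 y3322_1) (.cons (ent_i rfl rfl (ops_nil _) ez3222 y3322_0) (.cons (ent_i rfl rfl (ops_S (sS3321_1 h.p1032) (ops_nil _)) ez3321 y3322_2) (.cons (ent_i rfl rfl (ops_S (sS3321_1 h.p1023) (ops_nil _)) ez3321 y3322_3) .nil))))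
theorem sS3322_1 (h : Q A a b c d) : ∀ v, vec (e3322 a b c d) v = vec (e3322 b a c d) (appM S3322_1 v) :=
  fun v => (one_mul _).symm.trans (table_sound2 h.h.two (qS3322_1 h.p1023) (nf3322 h.p1023) kw3322_1 kS3322_1 v)
theorem qS3322_3 (h : Q A a b c d) : List.Forall₂ (EntOk 1 (symOf (ps3322 a b c d)))
    (ps3322 a b d c) pS3322_3 :=
  (.cons (ent_i rfl rfl (ops_S (sS3222_2 h.p1032) (ops_S (sS3222_3 h.p1302) (ops_S (sS3222_2 h.p1203) (ops_nil _)))) ez3222 y3322_0) (.cons (ent_i rfl rfl (ops_S (sS3222_2 h.p0132) (ops_S (sS3222_3 h.p0312) (ops_S (sS3222_2 h.p0213) (ops_nil _)))) ez3222 y3322_1) (.cons (ent_i rfl rfl (ops_nil _) ez3321 y3322_3) (.cons (ent_i rfl rfl (ops_nil _) ez3321 y3322_2) .nil))))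
theorem sS3322_3 (h : Q A a b c d) : ∀ v, vec (e3322 a b c d) v = vec (e3322 a b d c) (appM S3322_3 v) :=
  fun v => (one_mul _).symm.trans (table_sound2 h.h.two (qS3322_3 h.p0132) (nf3322 h.p0132) kw3322_3 kS3322_3 v)
theorem lL3322_1 (h : Q A a b c d) : ∀ v, b * vec (e3222 a b c d) v = vec (e3322 a b c d) (appM L3322_1 v) :=
  table_sound2 h.h.two (qL3322_1 h) (nf3322 h) kv3322_1 kL3322_1
theorem lL3322_3 (h : Q A a b c d) : ∀ v, d * vec (e3321 a b c d) v = vec (e3322 a b c d) (appM L3322_3 v) :=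
  table_sound2 h.h.two (qL3322_3 h) (nf3322 h) kv3322_3 kL3322_3
theorem rR3322_1 (h : Q A a b c d) : ∀ v, vec (e3222 a b c d) v * b = vec (e3322 a b c d) (appM N3322 (Nat.shiftLeft (Nat.mod v 0x200000000000000000000000000000000000000000000000000000000000000000000000000000000000000000000000000000000000000000000000000000) 501)) :=
  r_fact (n := 501) rfl ez3222 y3322_1 (nf3322 h)
theorem rR3322_3 (h : Q A a b c d) : ∀ v, vec (e3321 a b c d) v * d = vec (e3322 a b c d) (appM N3322 (Nat.shiftLeft (Nat.mod v 0x1000000000000000000000000000000000000) 1146)) :=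
  r_fact (n := 144) rfl ez3321 y3322_3 (nf3322 h)
theorem w3322 (h : Q A a b c d) : WP ![3, 3, 2, 2] ![a, b, c, d] (e3322 a b c d) :=
  wp_step4 (nf3322 h) (by decide) (Or.inr ⟨_, wp1023 (w3222 h.p1023), wp_r ez3222 y3322_0⟩) (Or.inr ⟨_, wp0123 (w3222 h), wp_r ez3222 y3322_1⟩) (Or.inr ⟨_, wp0132 (w3321 h.p0132), wp_r ez3321 y3322_2⟩) (Or.inr ⟨_, wp0123 (w3321 h), wp_r ez3321 y3322_3⟩)

theorem tl1332 (h : Q A a b c d) : ATok (SEM a b c d) (ltr a b c d) al1332 :=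
  at_l rfl (ae_ok (run_R (rR3322_3 h.p1230) (run_S (sS3322_3 h.p1230) (run_nil _))) rfl rfl rfl) ae_no ae_no ae_no
theorem tl2232 (h : Q A a b c d) : ATok (SEM a b c d) (ltr a b c d) al2232 :=
  at_l rfl (ae_ok (run_R (rR3322_1 h.p2013) (run_S (sS3322_1 h.p2013) (run_nil _))) rfl rfl rfl) (ae_ok (run_S (sS3222_2 h.p2013) (run_R (rR3322_1 h.p2103) (run_S (sS3322_1 h.p2103) (run_nil _)))) rfl rfl rfl) ae_no ae_no
theorem tl2322 (h : Q A a b c d) : ATok (SEM a b c d) (ltr a b c d) al2322 :=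
  at_l rfl (ae_ok (run_R (rR3322_1 h.p1023) (run_S (sS3322_1 h.p1023) (run_nil _))) rfl rfl rfl) ae_no (ae_ok (run_S (sS3222_2 h.p1023) (run_R (rR3322_1 h.p1203) (run_nil _))) rfl rfl rfl) ae_no
theorem tl2331 (h : Q A a b c d) : ATok (SEM a b c d) (ltr a b c d) al2331 :=
  at_l rfl (ae_ok (run_R (rR3331_2 h.p1203) (run_S (sS3331_1 h.p1203) (run_S (sS3331_2 h.p2103) (run_S (sS3331_1 h) (run_S (sS3331_1 h.p1023) (run_nil _)))))) rfl rfl rfl) ae_no ae_no (ae_ok (run_R (rR3322_3 h.p1203) (run_nil _)) rfl rfl rfl)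
theorem tl3132 (h : Q A a b c d) : ATok (SEM a b c d) (ltr a b c d) al3132 :=
  at_l rfl ae_no (ae_ok (run_R (rR3322_3 h.p0231) (run_S (sS3322_3 h.p0231) (run_nil _))) rfl rfl rfl) ae_no ae_no
theorem tl3222 (h : Q A a b c d) : ATok (SEM a b c d) (ltr a b c d) al3222 :=
  at_l rfl (ae_ok (run_R (rR4222_0 h) (run_nil _)) rfl rfl rfl) (ae_ok (run_R (rR3322_1 h) (run_nil _)) rfl rfl rfl) (ae_ok (run_S (sS3222_2 h) (run_R (rR3322_1 h.p0213) (run_nil _))) rfl rfl rfl) ae_no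
theorem tl3231 (h : Q A a b c d) : ATok (SEM a b c d) (ltr a b c d) al3231 :=
  at_l rfl ae_no (ae_ok (run_R (rR3331_2 h.p0213) (run_S (sS3331_1 h.p0213) (run_S (sS3331_2 h.p2013) (run_S (sS3331_1 h.p1023) (run_nil _))))) rfl rfl rfl) ae_no (ae_ok (run_R (rR3322_3 h.p0213) (run_nil _)) rfl rfl rfl)
theorem tl3312 (h : Q A a b c d) : ATok (SEM a b c d) (ltr a b c d) al3312 :=
  at_l rfl (ae_ok (run_R (rR4321_0 h.p0132) (run_nil _)) rfl rfl rfl) ae_no (ae_ok (run_R (rR3322_3 h.p0132) (run_S (sS3322_3 h.p0132) (run_nil _))) rfl rfl rfl) ae_no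
theorem tl3321 (h : Q A a b c d) : ATok (SEM a b c d) (ltr a b c d) al3321 :=
  at_l rfl (ae_ok (run_R (rR4321_0 h) (run_nil _)) rfl rfl rfl) ae_no (ae_ok (run_R (rR3331_2 h) (run_nil _)) rfl rfl rfl) (ae_ok (run_R (rR3322_3 h) (run_nil _)) rfl rfl rfl)
theorem tl4122 (h : Q A a b c d) : ATok (SEM a b c d) (ltr a b c d) al4122 :=
  at_l rfl (ae_ok (run_R (rR5221_0 h.p0231) (run_nil _)) rfl rfl rfl) (ae_ok (run_R (rR4222_3 h.p0231) (run_S (sS4222_2 h.p0231) (run_S (sS4222_3 h.p0321) (run_S (sS4222_2 h) (run_S (sS4222_2 h.p0213) (run_nil _)))))) rfl rfl rfl) ae_no ae_no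
theorem tl4212 (h : Q A a b c d) : ATok (SEM a b c d) (ltr a b c d) al4212 :=
  at_l rfl (ae_ok (run_R (rR5221_0 h.p0132) (run_nil _)) rfl rfl rfl) (ae_ok (run_R (rR4321_1 h.p0132) (run_nil _)) rfl rfl rfl) (ae_ok (run_R (rR4222_3 h.p0132) (run_S (sS4222_2 h.p0132) (run_S (sS4222_3 h.p0312) (run_S (sS4222_2 h.p0213) (run_nil _))))) rfl rfl rfl) ae_no
theorem tl4221 (h : Q A a b c d) : ATok (SEM a b c d) (ltr a b c d) al4221 :=
  at_l rfl (ae_ok (run_R (rR5221_0 h) (run_nil _)) rfl rfl rfl) (ae_ok (run_R (rR4321_1 h) (run_nil _)) rfl rfl rfl) ae_no (ae_ok (run_R (rR4222_3 h) (run_nil _)) rfl rfl rfl)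
theorem tl4311 (h : Q A a b c d) : ATok (SEM a b c d) (ltr a b c d) al4311 :=
  at_l rfl (ae_ok (run_Z (run_R (rR5311_0 h) (run_nil _)) (fun k => ez5311 k (Nat.zero_le k))) rfl rfl rfl) ae_no (ae_ok (run_R (rR4321_2 h) (run_nil _)) rfl rfl rfl) (ae_ok (run_S (sS4311_3 h) (run_R (rR4321_2 h.p0132) (run_nil _))) rfl rfl rfl)
theorem tl4320 (h : Q A a b c d) : ATok (SEM a b c d) (ltr a b c d) al4320 :=
  at_l rfl ae_no ae_no ae_no (ae_ok (run_R (rR4321_3 h) (run_nil _)) rfl rfl rfl)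
theorem tl5022 (h : Q A a b c d) : ATok (SEM a b c d) (ltr a b c d) al5022 :=
  at_l rfl ae_no (ae_ok (run_R (rR5221_3 h.p0231) (run_nil _)) rfl rfl rfl) ae_no ae_no
theorem tl5112 (h : Q A a b c d) : ATok (SEM a b c d) (ltr a b c d) al5112 :=
  at_l rfl ae_no (ae_ok (run_R (rR5221_2 h.p0312) (run_S (sS5221_2 h.p0312) (run_nil _))) rfl rfl rfl) (ae_ok (run_S (sS5211_3 h.p0312) (run_R (rR5221_2 h.p0321) (run_S (sS5221_2 h.p0321) (run_nil _)))) rfl rfl rfl) ae_no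
theorem tl5121 (h : Q A a b c d) : ATok (SEM a b c d) (ltr a b c d) al5121 :=
  at_l rfl ae_no (ae_ok (run_R (rR5221_2 h.p0213) (run_S (sS5221_2 h.p0213) (run_nil _))) rfl rfl rfl) ae_no (ae_ok (run_S (sS5211_3 h.p0213) (run_R (rR5221_2 h.p0231) (run_nil _))) rfl rfl rfl)
theorem tl5202 (h : Q A a b c d) : ATok (SEM a b c d) (ltr a b c d) al5202 :=
  at_l rfl ae_no ae_no (ae_ok (run_R (rR5221_3 h.p0132) (run_nil _)) rfl rfl rfl) ae_no
theorem tl5211 (h : Q A a b c d) : ATok (SEM a b c d) (ltr a b c d) al5211 :=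
  at_l rfl ae_no (ae_ok (run_Z (run_R (rR5311_1 h) (run_nil _)) (fun k => ez5311 k (Nat.zero_le k))) rfl rfl rfl) (ae_ok (run_R (rR5221_2 h) (run_nil _)) rfl rfl rfl) (ae_ok (run_S (sS5211_3 h) (run_R (rR5221_2 h.p0132) (run_nil _))) rfl rfl rfl)
theorem tl5220 (h : Q A a b c d) : ATok (SEM a b c d) (ltr a b c d) al5220 :=
  at_l rfl ae_no (ae_ok (run_Z (run_R (rR5320_1 h) (run_nil _)) (fun k => ez5320 k (Nat.zero_le k))) rfl rfl rfl) ae_no (ae_ok (run_R (rR5221_3 h) (run_nil _)) rfl rfl rfl)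
theorem TV9 (h : Q A a b c d) : ATok (SEM a b c d) (ltr a b c d) AV9 :=
  ⟨⟨⟨⟨tl1332 h, tl2232 h⟩, ⟨tl2322 h, ⟨tl2331 h, tl3132 h⟩⟩⟩, ⟨⟨tl3222 h, tl3231 h⟩, ⟨tl3312 h, ⟨tl3321 h, tl4122 h⟩⟩⟩⟩, ⟨⟨⟨tl4212 h, tl4221 h⟩, ⟨tl4311 h, ⟨tl4320 h, tl5022 h⟩⟩⟩, ⟨⟨tl5112 h, tl5121 h⟩, ⟨tl5202 h, ⟨tl5211 h, tl5220 h⟩⟩⟩⟩⟩
theorem TW10 (h : Q A a b c d) : ATok (SEM a b c d) (ltr a b c d) AW10 := ⟨TW9 h, TV9 h⟩

end

end Pool.Agent.L3E.GJ
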