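import Pool.Agent.L3E.GJ.F2

set_option autoImplicit false
set_option maxRecDepth 100000
set_option linter.unusedVariables false
set_option exponentiation.threshold 100000

/-! # L3E, module GJ.F3: facts -/

namespace Pool.Agent.L3E.GJ

section
variable {K : Type} [Ring K] {A : Set K} {a b c d : K}

theorem z4430 (h : Q A a b c d) : WP ![4, 4, 3, 0] ![a, b, c, d] (zfam : ℕ → K) :=
  wp_step4 (F := fun r => r) (fun _ => rfl) (by decide) (Or.inr ⟨_, wp1023 (w4330 h.p1023), wp_z ez4330⟩) (Or.inr ⟨_, wp0123 (w4330 h), wp_z ez4330⟩) (Or.inr ⟨_, wp0123 (w4420 h), wp_z ez4420⟩) (Or.inl rfl)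
theorem z5330 (h : Q A a b c d) : WP ![5, 3, 3, 0] ![a, b, c, d] (zfam : ℕ → K) :=
  wp_step4 (F := fun r => r) (fun _ => rfl) (by decide) (Or.inr ⟨_, wp0123 (w4330 h), wp_z ez4330⟩) (Or.inr ⟨_, wp0213 (w5320 h.p0213), wp_z ez5320⟩) (Or.inr ⟨_, wp0123 (w5320 h), wp_z ez5320⟩) (Or.inl rfl)
theorem z5411 (h : Q A a b c d) : WP ![5, 4, 1, 1] ![a, b, c, d] (zfam : ℕ → K) :=
  wp_step4 (F := fun r => r) (fun _ => rfl) (by decide) (Or.inr ⟨_, wp0123 (w4411 h), wp_z ez4411⟩) (Or.inr ⟨_, wp0123 (w5311 h), wp_z ez5311⟩) (Or.inr ⟨_, wp0132 (z5410 h.p0132), wp_z (fun _ _ => rfl)⟩) (Or.inr ⟨_, wp0123 (z5410 h), wp_z (fun _ _ => rfl)⟩)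
theorem z5420 (h : Q A a b c d) : WP ![5, 4, 2, 0] ![a, b, c, d] (zfam : ℕ → K) :=
  wp_step4 (F := fun r => r) (fun _ => rfl) (by decide) (Or.inr ⟨_, wp0123 (w4420 h), wp_z ez4420⟩) (Or.inr ⟨_, wp0123 (w5320 h), wp_z ez5320⟩) (Or.inr ⟨_, wp0123 (z5410 h), wp_z (fun _ _ => rfl)⟩) (Or.inl rfl)
theorem z5510 (h : Q A a b c d) : WP ![5, 5, 1, 0] ![a, b, c, d] (zfam : ℕ → K) :=
  wp_step4 (F := fun r => r) (fun _ => rfl) (by decide) (Or.inr ⟨_, wp1023 (z5410 h.p1023), wp_z (fun _ _ => rfl)⟩) (Or.inr ⟨_, wp0123 (z5410 h), wp_z (fun _ _ => rfl)⟩) (Or.inr ⟨_, wp0123 (z5500 h), wp_z (fun _ _ => rfl)⟩) (Or.inl rfl)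
theorem z6311 (h : Q A a b c d) : WP ![6, 3, 1, 1] ![a, b, c, d] (zfam : ℕ → K) :=
  wp_step4 (F := fun r => r) (fun _ => rfl) (by decide) (Or.inr ⟨_, wp0123 (w5311 h), wp_z ez5311⟩) (Or.inr ⟨_, wp0123 (w6211 h), wp_z ez6211⟩) (Or.inr ⟨_, wp0132 (z6310 h.p0132), wp_z (fun _ _ => rfl)⟩) (Or.inr ⟨_, wp0123 (z6310 h), wp_z (fun _ _ => rfl)⟩)
theorem z6320 (h : Q A a b c d) : WP ![6, 3, 2, 0] ![a, b, c, d] (zfam : ℕ → K) :=
  wp_step4 (F := fun r => r) (fun _ => rfl) (by decide) (Or.inr ⟨_, wp0123 (w5320 h), wp_z ez5320⟩) (Or.inr ⟨_, wp0123 (w6220 h), wp_z ez6220⟩) (Or.inr ⟨_, wp0123 (z6310 h), wp_z (fun _ _ => rfl)⟩) (Or.inl rfl)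
theorem z6410 (h : Q A a b c d) : WP ![6, 4, 1, 0] ![a, b, c, d] (zfam : ℕ → K) :=
  wp_step4 (F := fun r => r) (fun _ => rfl) (by decide) (Or.inr ⟨_, wp0123 (z5410 h), wp_z (fun _ _ => rfl)⟩) (Or.inr ⟨_, wp0123 (z6310 h), wp_z (fun _ _ => rfl)⟩) (Or.inr ⟨_, wp0123 (z6400 h), wp_z (fun _ _ => rfl)⟩) (Or.inl rfl)
theorem z6500 (h : Q A a b c d) : WP ![6, 5, 0, 0] ![a, b, c, d] (zfam : ℕ → K) :=
  wp_step4 (F := fun r => r) (fun _ => rfl) (by decide) (Or.inr ⟨_, wp0123 (z5500 h), wp_z (fun _ _ => rfl)⟩) (Or.inr ⟨_, wp0123 (z6400 h), wp_z (fun _ _ => rfl)⟩) (Or.inl rfl) (Or.inl rfl)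
theorem z7211 (h : Q A a b c d) : WP ![7, 2, 1, 1] ![a, b, c, d] (zfam : ℕ → K) :=
  wp_step4 (F := fun r => r) (fun _ => rfl) (by decide) (Or.inr ⟨_, wp0123 (w6211 h), wp_z ez6211⟩) (Or.inr ⟨_, wp0123 (z7111 h), wp_z (fun _ _ => rfl)⟩) (Or.inr ⟨_, wp0132 (z7210 h.p0132), wp_z (fun _ _ => rfl)⟩) (Or.inr ⟨_, wp0123 (z7210 h), wp_z (fun _ _ => rfl)⟩)
theorem z7220 (h : Q A a b c d) : WP ![7, 2, 2, 0] ![a, b, c, d] (zfam : ℕ → K) :=
  wp_step4 (F := fun r => r) (fun _ => rfl) (by decide) (Or.inr ⟨_, wp0123 (w6220 h), wp_z ez6220⟩) (Or.inr ⟨_, wp0213 (z7210 h.p0213), wp_z (fun _ _ => rfl)⟩) (Or.inr ⟨_, wp0123 (z7210 h), wp_z (fun _ _ => rfl)⟩) (Or.inl rfl)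
theorem z7310 (h : Q A a b c d) : WP ![7, 3, 1, 0] ![a, b, c, d] (zfam : ℕ → K) :=
  wp_step4 (F := fun r => r) (fun _ => rfl) (by decide) (Or.inr ⟨_, wp0123 (z6310 h), wp_z (fun _ _ => rfl)⟩) (Or.inr ⟨_, wp0123 (z7210 h), wp_z (fun _ _ => rfl)⟩) (Or.inr ⟨_, wp0123 (z7300 h), wp_z (fun _ _ => rfl)⟩) (Or.inl rfl)
theorem z7400 (h : Q A a b c d) : WP ![7, 4, 0, 0] ![a, b, c, d] (zfam : ℕ → K) :=
  wp_step4 (F := fun r => r) (fun _ => rfl) (by decide) (Or.inr ⟨_, wp0123 (z6400 h), wp_z (fun _ _ => rfl)⟩) (Or.inr ⟨_, wp0123 (z7300 h), wp_z (fun _ _ => rfl)⟩) (Or.inl rfl) (Or.inl rfl)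
theorem z8111 (h : Q A a b c d) : WP ![8, 1, 1, 1] ![a, b, c, d] (zfam : ℕ → K) :=
  wp_step4 (F := fun r => r) (fun _ => rfl) (by decide) (Or.inr ⟨_, wp0123 (z7111 h), wp_z (fun _ _ => rfl)⟩) (Or.inr ⟨_, wp0231 (z8110 h.p0231), wp_z (fun _ _ => rfl)⟩) (Or.inr ⟨_, wp0132 (z8110 h.p0132), wp_z (fun _ _ => rfl)⟩) (Or.inr ⟨_, wp0123 (z8110 h), wp_z (fun _ _ => rfl)⟩)
theorem z8210 (h : Q A a b c d) : WP ![8, 2, 1, 0] ![a, b, c, d] (zfam : ℕ → K) :=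
  wp_step4 (F := fun r => r) (fun _ => rfl) (by decide) (Or.inr ⟨_, wp0123 (z7210 h), wp_z (fun _ _ => rfl)⟩) (Or.inr ⟨_, wp0123 (z8110 h), wp_z (fun _ _ => rfl)⟩) (Or.inr ⟨_, wp0123 (z8200 h), wp_z (fun _ _ => rfl)⟩) (Or.inl rfl)
theorem y6221_0 : ∀ k, k < 23 → symOf (ps6221 a b c d) (k + 0) = e5221 a b c d k * a :=
  sy_hd
theorem y5321_0 : ∀ k, k < 68 → symOf (ps5321 a b c d) (k + 0) = e4321 a b c d k * a :=
  sy_hd
theorem y5321_1 : ∀ k, k < 23 → symOf (ps5321 a b c d) (k + 68) = e5221 a b c d k * b :=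
  sy_tl (o := 0) (o' := 68) (sy_hd) rfl
theorem y5222_0 : ∀ k, k < 366 → symOf (ps5222 a b c d) (k + 0) = e4222 a b c d k * a :=
  sy_hd
theorem y5222_1 : ∀ k, k < 23 → symOf (ps5222 a b c d) (k + 366) = e5221 a c d b k * b :=
  sy_tl (o := 0) (o' := 366) (sy_hd) rfl
theorem y5222_2 : ∀ k, k < 23 → symOf (ps5222 a b c d) (k + 389) = e5221 a b d c k * c :=
  sy_tl (o := 23) (o' := 389) (sy_tl (o := 0) (o' := 23) (sy_hd) rfl) rfl
theorem y5222_3 : ∀ k, k < 23 → symOf (ps5222 a b c d) (k + 412) = e5221 a b c d k * d :=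
  sy_tl (o := 46) (o' := 412) (sy_tl (o := 23) (o' := 46) (sy_tl (o := 0) (o' := 23) (sy_hd) rfl) rfl) rfl
theorem y4421_0 : ∀ k, k < 68 → symOf (ps4421 a b c d) (k + 0) = e4321 b a c d k * a :=
  sy_hd
theorem y4421_1 : ∀ k, k < 68 → symOf (ps4421 a b c d) (k + 68) = e4321 a b c d k * b :=
  sy_tl (o := 0) (o' := 68) (sy_hd) rfl
theorem y4331_0 : ∀ k, k < 126 → symOf (ps4331 a b c d) (k + 0) = e3331 a b c d k * a :=
  sy_hd
theorem y4331_1 : ∀ k, k < 68 → symOf (ps4331 a b c d) (k + 126) = e4321 a c b d k * b :=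
  sy_tl (o := 0) (o' := 126) (sy_hd) rfl
theorem y4331_2 : ∀ k, k < 68 → symOf (ps4331 a b c d) (k + 194) = e4321 a b c d k * c :=
  sy_tl (o := 68) (o' := 194) (sy_tl (o := 0) (o' := 68) (sy_hd) rfl) rfl
theorem y4322_0 : ∀ k, k < 638 → symOf (ps4322 a b c d) (k + 0) = e3322 a b c d k * a :=
  sy_hd
theorem y4322_1 : ∀ k, k < 366 → symOf (ps4322 a b c d) (k + 638) = e4222 a b c d k * b :=
  sy_tl (o := 0) (o' := 638) (sy_hd) rfl
theorem y4322_2 : ∀ k, k < 68 → symOf (ps4322 a b c d) (k + 1004) = e4321 a b d c k * c :=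
  sy_tl (o := 366) (o' := 1004) (sy_tl (o := 0) (o' := 366) (sy_hd) rfl) rfl
theorem y4322_3 : ∀ k, k < 68 → symOf (ps4322 a b c d) (k + 1072) = e4321 a b c d k * d :=
  sy_tl (o := 434) (o' := 1072) (sy_tl (o := 68) (o' := 434) (sy_tl (o := 0) (o' := 68) (sy_hd) rfl) rfl) rfl
theorem y3332_0 : ∀ k, k < 638 → symOf (ps3332 a b c d) (k + 0) = e3322 b c a d k * a :=
  sy_hd
theorem y3332_1 : ∀ k, k < 638 → symOf (ps3332 a b c d) (k + 638) = e3322 a c b d k * b :=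
  sy_tl (o := 0) (o' := 638) (sy_hd) rfl
theorem y3332_2 : ∀ k, k < 638 → symOf (ps3332 a b c d) (k + 1276) = e3322 a b c d k * c :=
  sy_tl (o := 638) (o' := 1276) (sy_tl (o := 0) (o' := 638) (sy_hd) rfl) rfl
theorem y3332_3 : ∀ k, k < 126 → symOf (ps3332 a b c d) (k + 1914) = e3331 a b c d k * d :=
  sy_tl (o := 1276) (o' := 1914) (sy_tl (o := 638) (o' := 1276) (sy_tl (o := 0) (o' := 638) (sy_hd) rfl) rfl) rfl
theorem tf11_2332 (h : Q A a b c d) : ATok (SEM a b c d) (ltr a b c d) af11_2332 :=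
  at_l rfl (ae_ok (run_F (n := 638) rfl ez3322 y3332_0) rfl rfl rfl) ae_no ae_no ae_no
theorem tf11_3232 (h : Q A a b c d) : ATok (SEM a b c d) (ltr a b c d) af11_3232 :=
  at_l rfl ae_no (ae_ok (run_F (n := 638) rfl ez3322 y3332_1) rfl rfl rfl) ae_no ae_no
theorem tf11_3322 (h : Q A a b c d) : ATok (SEM a b c d) (ltr a b c d) af11_3322 :=
  at_l rfl (ae_ok (run_F (n := 638) rfl ez3322 y4322_0) rfl rfl rfl) ae_no (ae_ok (run_F (n := 638) rfl ez3322 y3332_2) rfl rfl rfl) ae_no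
theorem tf11_3331 (h : Q A a b c d) : ATok (SEM a b c d) (ltr a b c d) af11_3331 :=
  at_l rfl ae_no ae_no ae_no (ae_ok (run_F (n := 126) rfl ez3331 y3332_3) rfl rfl rfl)
theorem tf11_4222 (h : Q A a b c d) : ATok (SEM a b c d) (ltr a b c d) af11_4222 :=
  at_l rfl (ae_ok (run_F (n := 366) rfl ez4222 y5222_0) rfl rfl rfl) (ae_ok (run_F (n := 366) rfl ez4222 y4322_1) rfl rfl rfl) ae_no ae_no
theorem tf11_4312 (h : Q A a b c d) : ATok (SEM a b c d) (ltr a b c d) af11_4312 :=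
  at_l rfl ae_no ae_no (ae_ok (run_F (n := 68) rfl ez4321 y4322_2) rfl rfl rfl) ae_no
theorem tf11_4321 (h : Q A a b c d) : ATok (SEM a b c d) (ltr a b c d) af11_4321 :=
  at_l rfl (ae_ok (run_F (n := 68) rfl ez4321 y5321_0) rfl rfl rfl) ae_no ae_no (ae_ok (run_F (n := 68) rfl ez4321 y4322_3) rfl rfl rfl)
theorem tf11_5122 (h : Q A a b c d) : ATok (SEM a b c d) (ltr a b c d) af11_5122 :=
  at_l rfl ae_no (ae_ok (run_F (n := 23) rfl ez5221 y5222_1) rfl rfl rfl) ae_no ae_no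
theorem tf11_5212 (h : Q A a b c d) : ATok (SEM a b c d) (ltr a b c d) af11_5212 :=
  at_l rfl ae_no ae_no (ae_ok (run_F (n := 23) rfl ez5221 y5222_2) rfl rfl rfl) ae_no
theorem tf11_5221 (h : Q A a b c d) : ATok (SEM a b c d) (ltr a b c d) af11_5221 :=
  at_l rfl ae_no (ae_ok (run_F (n := 23) rfl ez5221 y5321_1) rfl rfl rfl) ae_no (ae_ok (run_F (n := 23) rfl ez5221 y5222_3) rfl rfl rfl)
theorem TF11 (h : Q A a b c d) : ATok (SEM a b c d) (ltr a b c d) AF11 :=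
  ⟨⟨⟨tf11_2332 h, tf11_3232 h⟩, ⟨tf11_3322 h, ⟨tf11_3331 h, tf11_4222 h⟩⟩⟩, ⟨⟨tf11_4312 h, tf11_4321 h⟩, ⟨tf11_5122 h, ⟨tf11_5212 h, tf11_5221 h⟩⟩⟩⟩
theorem TT11 (h : Q A a b c d) : ATok (SEM a b c d) (ltr a b c d) AT11 := ⟨TW10 h, TF11 h⟩
theorem qL6221_0 (h : Q A a b c d) : List.Forall₂ (EntOk a (symOf (ps6221 a b c d)))
    (ps5221 a b c d) pL6221_0 :=
  (.cons (ent_i rfl rfl (ops_L (lL5221_0 h) (ops_nil _)) ez5221 y6221_0) (.cons (ent_z rfl (ops_L (lL6211_0 h.p0213) (ops_nil _)) ez6211) (.cons (ent_z rfl (ops_L (lL6211_0 h) (ops_nil _)) ez6211) (.cons (ent_z rfl (ops_L (lL6220_0 h) (ops_nil _)) ez6220) .nil))))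
theorem qL6221_1 (h : Q A a b c d) : List.Forall₂ (EntOk b (symOf (ps6221 a b c d)))
    (ps6211 a c b d) pL6221_1 :=
  (.cons (ent_i rfl rfl (ops_L (lL5221_2 h.p0213) (ops_S (sS5221_2 h.p0213) (ops_nil _))) ez5221 y6221_0) .nil)
theorem qL6221_2 (h : Q A a b c d) : List.Forall₂ (EntOk c (symOf (ps6221 a b c d)))
    (ps6211 a b c d) pL6221_2 :=
  (.cons (ent_i rfl rfl (ops_L (lL5221_2 h) (ops_nil _)) ez5221 y6221_0) .nil)
theorem qL6221_3 (h : Q A a b c d) : List.Forall₂ (EntOk d (symOf (ps6221 a b c d)))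
    (ps6220 a b c d) pL6221_3 :=
  (.cons (ent_i rfl rfl (ops_L (lL5221_3 h) (ops_nil _)) ez5221 y6221_0) .nil)
theorem nf6221 (h : Q A a b c d) : ∀ r, vec (symOf (ps6221 a b c d)) r = vec (e6221 a b c d) (appM N6221 r) :=
  block_sound2 h.h.two (ps := ps6221 a b c d) (ns := 23) rfl (raw5 (srcRow_spec h.h.two (qL6221_0 h) (nf5221 h) wf5221) (srcRow_spec h.h.two (qL6221_1 h) (nf6211 h.p0213) wf6211) (srcRow_spec h.h.two (qL6221_2 h) (nf6211 h) wf6211) (srcRow_spec h.h.two (qL6221_3 h) (nf6220 h) wf6220) (zf_spec _)) kb6221 co6221 u6221 el6221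
theorem ez6221 : ∀ k, 2 ≤ k → e6221 a b c d k = 0 := eOf_ge _ (wfT_D wf6221).2
theorem qS6221_2 (h : Q A a b c d) : List.Forall₂ (EntOk 1 (symOf (ps6221 a b c d)))
    (ps6221 a c b d) pS6221_2 :=
  (.cons (ent_i rfl rfl (ops_S (sS5221_2 h.p0213) (ops_nil _)) ez5221 y6221_0) (.cons (ent_n ez6211) (.cons (ent_n ez6211) (.cons (ent_n ez6220) .nil))))
theorem sS6221_2 (h : Q A a b c d) : ∀ v, vec (e6221 a b c d) v = vec (e6221 a c b d) (appM S6221_2 v) :=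
  fun v => (one_mul _).symm.trans (table_sound2 h.h.two (qS6221_2 h.p0213) (nf6221 h.p0213) kw6221_2 kS6221_2 v)
theorem lL6221_0 (h : Q A a b c d) : ∀ v, a * vec (e5221 a b c d) v = vec (e6221 a b c d) (appM L6221_0 v) :=
  table_sound2 h.h.two (qL6221_0 h) (nf6221 h) kv6221_0 kL6221_0
theorem w6221 (h : Q A a b c d) : WP ![6, 2, 2, 1] ![a, b, c, d] (e6221 a b c d) :=
  wp_step4 (nf6221 h) (by decide) (Or.inr ⟨_, wp0123 (w5221 h), wp_r ez5221 y6221_0⟩) (Or.inr ⟨_, wp0213 (w6211 h.p0213), wp_z ez6211⟩) (Or.inr ⟨_, wp0123 (w6211 h), wp_z ez6211⟩) (Or.inr ⟨_, wp0123 (w6220 h), wp_z ez6220⟩)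

theorem qL5321_0 (h : Q A a b c d) : List.Forall₂ (EntOk a (symOf (ps5321 a b c d)))
    (ps4321 a b c d) pL5321_0 :=
  (.cons (ent_i rfl rfl (ops_L (lL4321_0 h) (ops_nil _)) ez4321 y5321_0) (.cons (ent_i rfl rfl (ops_L (lL5221_0 h) (ops_nil _)) ez5221 y5321_1) (.cons (ent_z rfl (ops_L (lL5311_0 h) (ops_nil _)) ez5311) (.cons (ent_z rfl (ops_L (lL5320_0 h) (ops_nil _)) ez5320) .nil))))
theorem qL5321_1 (h : Q A a b c d) : List.Forall₂ (EntOk b (symOf (ps5321 a b c d)))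
    (ps5221 a b c d) pL5321_1 :=
  (.cons (ent_i rfl rfl (ops_L (lL4321_1 h) (ops_nil _)) ez4321 y5321_0) (.cons (ent_i rfl rfl (ops_L (lL5221_2 h.p0213) (ops_S (sS5221_2 h.p0213) (ops_nil _))) ez5221 y5321_1) (.cons (ent_z rfl (ops_L (lL5311_1 h) (ops_nil _)) ez5311) (.cons (ent_z rfl (ops_L (lL5320_1 h) (ops_nil _)) ez5320) .nil))))
theorem qL5321_2 (h : Q A a b c d) : List.Forall₂ (EntOk c (symOf (ps5321 a b c d)))
    (ps5311 a b c d) pL5321_2 :=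
  (.cons (ent_i rfl rfl (ops_L (lL4321_2 h) (ops_nil _)) ez4321 y5321_0) (.cons (ent_i rfl rfl (ops_L (lL5221_2 h) (ops_nil _)) ez5221 y5321_1) .nil))
theorem qL5321_3 (h : Q A a b c d) : List.Forall₂ (EntOk d (symOf (ps5321 a b c d)))
    (ps5320 a b c d) pL5321_3 :=
  (.cons (ent_i rfl rfl (ops_L (lL4321_3 h) (ops_nil _)) ez4321 y5321_0) (.cons (ent_i rfl rfl (ops_L (lL5221_3 h) (ops_nil _)) ez5221 y5321_1) .nil))
theorem gen5321 (h : Q A a b c d) : ∀ m ∈ gList G5321, vec (symOf (ps5321 a b c d)) m = 0 :=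
  gChk_spec (sem := SEM a b c d) (c := 30054) h.h (TT11 h) (init_val (a := a) (b := b) (c := c) (d := d) _ rfl) (ltr_mem h) (by norm_num) (by norm_num) kG5321 kH5321
theorem nf5321 (h : Q A a b c d) : ∀ r, vec (symOf (ps5321 a b c d)) r = vec (e5321 a b c d) (appM N5321 r) :=
  block_sound2 h.h.two (ps := ps5321 a b c d) (ns := 91) rfl (raw5 (srcRow_spec h.h.two (qL5321_0 h) (nf4321 h) wf4321) (srcRow_spec h.h.two (qL5321_1 h) (nf5221 h) wf5221) (srcRow_spec h.h.two (qL5321_2 h) (nf5311 h) wf5311) (srcRow_spec h.h.two (qL5321_3 h) (nf5320 h) wf5320) (nthL_spec (gen5321 h))) kb5321 co5321 u5321 el5321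
theorem ez5321 : ∀ k, 10 ≤ k → e5321 a b c d k = 0 := eOf_ge _ (wfT_D wf5321).2
theorem lL5321_0 (h : Q A a b c d) : ∀ v, a * vec (e4321 a b c d) v = vec (e5321 a b c d) (appM L5321_0 v) :=
  table_sound2 h.h.two (qL5321_0 h) (nf5321 h) kv5321_0 kL5321_0
theorem lL5321_1 (h : Q A a b c d) : ∀ v, b * vec (e5221 a b c d) v = vec (e5321 a b c d) (appM L5321_1 v) :=
  table_sound2 h.h.two (qL5321_1 h) (nf5321 h) kv5321_1 kL5321_1
theorem w5321 (h : Q A a b c d) : WP ![5, 3, 2, 1] ![a, b, c, d] (e5321 a b c d) :=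
  wp_step4 (nf5321 h) (by decide) (Or.inr ⟨_, wp0123 (w4321 h), wp_r ez4321 y5321_0⟩) (Or.inr ⟨_, wp0123 (w5221 h), wp_r ez5221 y5321_1⟩) (Or.inr ⟨_, wp0123 (w5311 h), wp_z ez5311⟩) (Or.inr ⟨_, wp0123 (w5320 h), wp_z ez5320⟩)

theorem qL5222_0 (h : Q A a b c d) : List.Forall₂ (EntOk a (symOf (ps5222 a b c d)))
    (ps4222 a b c d) pL5222_0 :=
  (.cons (ent_i rfl rfl (ops_L (lL4222_0 h) (ops_nil _)) ez4222 y5222_0) (.cons (ent_i rfl rfl (ops_L (lL5221_0 h.p0231) (ops_nil _)) ez5221 y5222_1) (.cons (ent_i rfl rfl (ops_L (lL5221_0 h.p0132) (ops_nil _)) ez5221 y5222_2) (.cons (ent_i rfl rfl (ops_L (lL5221_0 h) (ops_nil _)) ez5221 y5222_3) .nil))))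
theorem qL5222_1 (h : Q A a b c d) : List.Forall₂ (EntOk b (symOf (ps5222 a b c d)))
    (ps5221 a c d b) pL5222_1 :=
  (.cons (ent_i rfl rfl (ops_L (lL4222_3 h.p0231) (ops_S (sS4222_2 h.p0231) (ops_S (sS4222_3 h.p0321) (ops_S (sS4222_2 h) (ops_S (sS4222_2 h.p0213) (ops_nil _)))))) ez4222 y5222_0) (.cons (ent_i rfl rfl (ops_S (sS5211_3 h.p0321) (ops_L (lL5221_2 h.p0312) (ops_S (sS5221_2 h.p0312) (ops_nil _)))) ez5221 y5222_2) (.cons (ent_i rfl rfl (ops_S (sS5211_3 h.p0231) (ops_L (lL5221_2 h.p0213) (ops_S (sS5221_2 h.p0213) (ops_nil _)))) ez5221 y5222_3) (.cons (ent_i rfl rfl (ops_L (lL5221_3 h.p0231) (ops_nil _)) ez5221 y5222_1) .nil))))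
theorem qL5222_2 (h : Q A a b c d) : List.Forall₂ (EntOk c (symOf (ps5222 a b c d)))
    (ps5221 a b d c) pL5222_2 :=
  (.cons (ent_i rfl rfl (ops_L (lL4222_3 h.p0132) (ops_S (sS4222_2 h.p0132) (ops_S (sS4222_3 h.p0312) (ops_S (sS4222_2 h.p0213) (ops_nil _))))) ez4222 y5222_0) (.cons (ent_i rfl rfl (ops_S (sS5211_3 h.p0312) (ops_L (lL5221_2 h.p0321) (ops_S (sS5221_2 h.p0321) (ops_nil _)))) ez5221 y5222_1) (.cons (ent_i rfl rfl (ops_S (sS5211_3 h.p0132) (ops_L (lL5221_2 h) (ops_nil _))) ez5221 y5222_3) (.cons (ent_i rfl rfl (ops_L (lL5221_3 h.p0132) (ops_nil _)) ez5221 y5222_2) .nil))))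
theorem qL5222_3 (h : Q A a b c d) : List.Forall₂ (EntOk d (symOf (ps5222 a b c d)))
    (ps5221 a b c d) pL5222_3 :=
  (.cons (ent_i rfl rfl (ops_L (lL4222_3 h) (ops_nil _)) ez4222 y5222_0) (.cons (ent_i rfl rfl (ops_S (sS5211_3 h.p0213) (ops_L (lL5221_2 h.p0231) (ops_nil _))) ez5221 y5222_1) (.cons (ent_i rfl rfl (ops_S (sS5211_3 h) (ops_L (lL5221_2 h.p0132) (ops_nil _))) ez5221 y5222_2) (.cons (ent_i rfl rfl (ops_L (lL5221_3 h) (ops_nil _)) ez5221 y5222_3) .nil))))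
theorem gen5222 (h : Q A a b c d) : ∀ m ∈ gList G5222, vec (symOf (ps5222 a b c d)) m = 0 :=
  gChk_spec (sem := SEM a b c d) (c := 30055) h.h (TT11 h) (init_val (a := a) (b := b) (c := c) (d := d) _ rfl) (ltr_mem h) (by norm_num) (by norm_num) kG5222 kH5222
theorem nf5222 (h : Q A a b c d) : ∀ r, vec (symOf (ps5222 a b c d)) r = vec (e5222 a b c d) (appM N5222 r) :=
  block_sound2 h.h.two (ps := ps5222 a b c d) (ns := 435) rfl (raw5 (srcRow_spec h.h.two (qL5222_0 h) (nf4222 h) wf4222) (srcRow_spec h.h.two (qL5222_1 h) (nf5221 h.p0231) wf5221) (srcRow_spec h.h.two (qL5222_2 h) (nf5221 h.p0132) wf5221) (srcRow_spec h.h.two (qL5222_3 h) (nf5221 h) wf5221) (nthL_spec (gen5222 h))) kb5222 co5222 u5222 el5222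
theorem ez5222 : ∀ k, 132 ≤ k → e5222 a b c d k = 0 := eOf_ge _ (wfT_D wf5222).2
theorem qS5222_2 (h : Q A a b c d) : List.Forall₂ (EntOk 1 (symOf (ps5222 a b c d)))
    (ps5222 a c b d) pS5222_2 :=
  (.cons (ent_i rfl rfl (ops_S (sS4222_2 h.p0213) (ops_nil _)) ez4222 y5222_0) (.cons (ent_i rfl rfl (ops_nil _) ez5221 y5222_2) (.cons (ent_i rfl rfl (ops_nil _) ez5221 y5222_1) (.cons (ent_i rfl rfl (ops_S (sS5221_2 h.p0213) (ops_nil _)) ez5221 y5222_3) .nil))))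
theorem sS5222_2 (h : Q A a b c d) : ∀ v, vec (e5222 a b c d) v = vec (e5222 a c b d) (appM S5222_2 v) :=
  fun v => (one_mul _).symm.trans (table_sound2 h.h.two (qS5222_2 h.p0213) (nf5222 h.p0213) kw5222_2 kS5222_2 v)
theorem qS5222_3 (h : Q A a b c d) : List.Forall₂ (EntOk 1 (symOf (ps5222 a b c d)))
    (ps5222 a d c b) pS5222_3 :=
  (.cons (ent_i rfl rfl (ops_S (sS4222_3 h.p0321) (ops_nil _)) ez4222 y5222_0) (.cons (ent_i rfl rfl (ops_S (sS5221_2 h.p0213) (ops_nil _)) ez5221 y5222_3) (.cons (ent_i rfl rfl (ops_S (sS5221_2 h.p0312) (ops_nil _)) ez5221 y5222_2) (.cons (ent_i rfl rfl (ops_S (sS5221_2 h.p0321) (ops_nil _)) ez5221 y5222_1) .nil))))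
theorem sS5222_3 (h : Q A a b c d) : ∀ v, vec (e5222 a b c d) v = vec (e5222 a d c b) (appM S5222_3 v) :=
  fun v => (one_mul _).symm.trans (table_sound2 h.h.two (qS5222_3 h.p0321) (nf5222 h.p0321) kw5222_3 kS5222_3 v)
theorem lL5222_0 (h : Q A a b c d) : ∀ v, a * vec (e4222 a b c d) v = vec (e5222 a b c d) (appM L5222_0 v) :=
  table_sound2 h.h.two (qL5222_0 h) (nf5222 h) kv5222_0 kL5222_0
theorem lL5222_3 (h : Q A a b c d) : ∀ v, d * vec (e5221 a b c d) v = vec (e5222 a b c d) (appM L5222_3 v) :=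
  table_sound2 h.h.two (qL5222_3 h) (nf5222 h) kv5222_3 kL5222_3
theorem w5222 (h : Q A a b c d) : WP ![5, 2, 2, 2] ![a, b, c, d] (e5222 a b c d) :=
  wp_step4 (nf5222 h) (by decide) (Or.inr ⟨_, wp0123 (w4222 h), wp_r ez4222 y5222_0⟩) (Or.inr ⟨_, wp0231 (w5221 h.p0231), wp_r ez5221 y5222_1⟩) (Or.inr ⟨_, wp0132 (w5221 h.p0132), wp_r ez5221 y5222_2⟩) (Or.inr ⟨_, wp0123 (w5221 h), wp_r ez5221 y5222_3⟩)

theorem qL4421_0 (h : Q A a b c d) : List.Forall₂ (EntOk a (symOf (ps4421 a b c d)))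
    (ps4321 b a c d) pL4421_0 :=
  (.cons (ent_i rfl rfl (ops_S (sS3321_1 h.p1023) (ops_L (lL4321_0 h) (ops_nil _))) ez4321 y4421_1) (.cons (ent_i rfl rfl (ops_L (lL4321_1 h.p1023) (ops_nil _)) ez4321 y4421_0) (.cons (ent_z rfl (ops_L (lL4411_1 h.p1023) (ops_nil _)) ez4411) (.cons (ent_z rfl (ops_L (lL4420_1 h.p1023) (ops_nil _)) ez4420) .nil))))
theorem qL4421_1 (h : Q A a b c d) : List.Forall₂ (EntOk b (symOf (ps4421 a b c d)))
    (ps4321 a b c d) pL4421_1 :=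
  (.cons (ent_i rfl rfl (ops_S (sS3321_1 h) (ops_L (lL4321_0 h.p1023) (ops_nil _))) ez4321 y4421_0) (.cons (ent_i rfl rfl (ops_L (lL4321_1 h) (ops_nil _)) ez4321 y4421_1) (.cons (ent_z rfl (ops_L (lL4411_1 h) (ops_nil _)) ez4411) (.cons (ent_z rfl (ops_L (lL4420_1 h) (ops_nil _)) ez4420) .nil))))
theorem qL4421_2 (h : Q A a b c d) : List.Forall₂ (EntOk c (symOf (ps4421 a b c d)))
    (ps4411 a b c d) pL4421_2 :=
  (.cons (ent_i rfl rfl (ops_L (lL4321_2 h.p1023) (ops_nil _)) ez4321 y4421_0) (.cons (ent_i rfl rfl (ops_L (lL4321_2 h) (ops_nil _)) ez4321 y4421_1) .nil))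
theorem qL4421_3 (h : Q A a b c d) : List.Forall₂ (EntOk d (symOf (ps4421 a b c d)))
    (ps4420 a b c d) pL4421_3 :=
  (.cons (ent_i rfl rfl (ops_L (lL4321_3 h.p1023) (ops_nil _)) ez4321 y4421_0) (.cons (ent_i rfl rfl (ops_L (lL4321_3 h) (ops_nil _)) ez4321 y4421_1) .nil))
theorem nf4421 (h : Q A a b c d) : ∀ r, vec (symOf (ps4421 a b c d)) r = vec (e4421 a b c d) (appM N4421 r) :=
  block_sound2 h.h.two (ps := ps4421 a b c d) (ns := 136) rfl (raw5 (srcRow_spec h.h.two (qL4421_0 h) (nf4321 h.p1023) wf4321) (srcRow_spec h.h.two (qL4421_1 h) (nf4321 h) wf4321) (srcRow_spec h.h.two (qL4421_2 h) (nf4411 h) wf4411) (srcRow_spec h.h.two (qL4421_3 h) (nf4420 h) wf4420) (zf_spec _)) kb4421 co4421 u4421 el4421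
theorem ez4421 : ∀ k, 20 ≤ k → e4421 a b c d k = 0 := eOf_ge _ (wfT_D wf4421).2
theorem qS4421_1 (h : Q A a b c d) : List.Forall₂ (EntOk 1 (symOf (ps4421 a b c d)))
    (ps4421 b a c d) pS4421_1 :=
  (.cons (ent_i rfl rfl (ops_nil _) ez4321 y4421_1) (.cons (ent_i rfl rfl (ops_nil _) ez4321 y4421_0) (.cons (ent_n ez4411) (.cons (ent_n ez4420) .nil))))
theorem sS4421_1 (h : Q A a b c d) : ∀ v, vec (e4421 a b c d) v = vec (e4421 b a c d) (appM S4421_1 v) :=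
  fun v => (one_mul _).symm.trans (table_sound2 h.h.two (qS4421_1 h.p1023) (nf4421 h.p1023) kw4421_1 kS4421_1 v)
theorem lL4421_1 (h : Q A a b c d) : ∀ v, b * vec (e4321 a b c d) v = vec (e4421 a b c d) (appM L4421_1 v) :=
  table_sound2 h.h.two (qL4421_1 h) (nf4421 h) kv4421_1 kL4421_1
theorem w4421 (h : Q A a b c d) : WP ![4, 4, 2, 1] ![a, b, c, d] (e4421 a b c d) :=
  wp_step4 (nf4421 h) (by decide) (Or.inr ⟨_, wp1023 (w4321 h.p1023), wp_r ez4321 y4421_0⟩) (Or.inr ⟨_, wp0123 (w4321 h), wp_r ez4321 y4421_1⟩) (Or.inr ⟨_, wp0123 (w4411 h), wp_z ez4411⟩) (Or.inr ⟨_, wp0123 (w4420 h), wp_z ez4420⟩)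

theorem qL4331_0 (h : Q A a b c d) : List.Forall₂ (EntOk a (symOf (ps4331 a b c d)))
    (ps3331 a b c d) pL4331_0 :=
  (.cons (ent_i rfl rfl (ops_L (lL3331_2 h.p1203) (ops_S (sS3331_1 h.p1203) (ops_S (sS3331_2 h.p2103) (ops_S (sS3331_1 h) (ops_S (sS3331_1 h.p1023) (ops_nil _)))))) ez3331 y4331_0) (.cons (ent_i rfl rfl (ops_L (lL4321_0 h.p0213) (ops_nil _)) ez4321 y4331_1) (.cons (ent_i rfl rfl (ops_L (lL4321_0 h) (ops_nil _)) ez4321 y4331_2) (.cons (ent_n ez3330) .nil))))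
theorem qL4331_1 (h : Q A a b c d) : List.Forall₂ (EntOk b (symOf (ps4331 a b c d)))
    (ps4321 a c b d) pL4331_1 :=
  (.cons (ent_i rfl rfl (ops_L (lL3331_2 h.p0213) (ops_S (sS3331_1 h.p0213) (ops_S (sS3331_2 h.p2013) (ops_S (sS3331_1 h.p1023) (ops_nil _))))) ez3331 y4331_0) (.cons (ent_i rfl rfl (ops_S (sS4221_2 h.p0213) (ops_L (lL4321_1 h) (ops_nil _))) ez4321 y4331_2) (.cons (ent_i rfl rfl (ops_L (lL4321_2 h.p0213) (ops_nil _)) ez4321 y4331_1) (.cons (ent_z rfl (ops_L (lL4330_2 h.p0213) (ops_nil _)) ez4330) .nil))))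
theorem qL4331_2 (h : Q A a b c d) : List.Forall₂ (EntOk c (symOf (ps4331 a b c d)))
    (ps4321 a b c d) pL4331_2 :=
  (.cons (ent_i rfl rfl (ops_L (lL3331_2 h) (ops_nil _)) ez3331 y4331_0) (.cons (ent_i rfl rfl (ops_S (sS4221_2 h) (ops_L (lL4321_1 h.p0213) (ops_nil _))) ez4321 y4331_1) (.cons (ent_i rfl rfl (ops_L (lL4321_2 h) (ops_nil _)) ez4321 y4331_2) (.cons (ent_z rfl (ops_L (lL4330_2 h) (ops_nil _)) ez4330) .nil))))
theorem qL4331_3 (h : Q A a b c d) : List.Forall₂ (EntOk d (symOf (ps4331 a b c d)))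
    (ps4330 a b c d) pL4331_3 :=
  (.cons (ent_n ez3330) (.cons (ent_i rfl rfl (ops_L (lL4321_3 h.p0213) (ops_nil _)) ez4321 y4331_1) (.cons (ent_i rfl rfl (ops_L (lL4321_3 h) (ops_nil _)) ez4321 y4331_2) .nil)))
theorem nf4331 (h : Q A a b c d) : ∀ r, vec (symOf (ps4331 a b c d)) r = vec (e4331 a b c d) (appM N4331 r) :=
  block_sound2 h.h.two (ps := ps4331 a b c d) (ns := 262) rfl (raw5 (srcRow_spec h.h.two (qL4331_0 h) (nf3331 h) wf3331) (srcRow_spec h.h.two (qL4331_1 h) (nf4321 h.p0213) wf4321) (srcRow_spec h.h.two (qL4331_2 h) (nf4321 h) wf4321) (srcRow_spec h.h.two (qL4331_3 h) (nf4330 h) wf4330) (zf_spec _)) kb4331 co4331 u4331 el4331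
theorem ez4331 : ∀ k, 37 ≤ k → e4331 a b c d k = 0 := eOf_ge _ (wfT_D wf4331).2
theorem qS4331_2 (h : Q A a b c d) : List.Forall₂ (EntOk 1 (symOf (ps4331 a b c d)))
    (ps4331 a c b d) pS4331_2 :=
  (.cons (ent_i rfl rfl (ops_S (sS3331_1 h.p0213) (ops_S (sS3331_2 h.p2013) (ops_S (sS3331_1 h.p1023) (ops_nil _)))) ez3331 y4331_0) (.cons (ent_i rfl rfl (ops_nil _) ez4321 y4331_2) (.cons (ent_i rfl rfl (ops_nil _) ez4321 y4331_1) (.cons (ent_n ez4330) .nil))))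
theorem sS4331_2 (h : Q A a b c d) : ∀ v, vec (e4331 a b c d) v = vec (e4331 a c b d) (appM S4331_2 v) :=
  fun v => (one_mul _).symm.trans (table_sound2 h.h.two (qS4331_2 h.p0213) (nf4331 h.p0213) kw4331_2 kS4331_2 v)
theorem lL4331_0 (h : Q A a b c d) : ∀ v, a * vec (e3331 a b c d) v = vec (e4331 a b c d) (appM L4331_0 v) :=
  table_sound2 h.h.two (qL4331_0 h) (nf4331 h) kv4331_0 kL4331_0
theorem lL4331_2 (h : Q A a b c d) : ∀ v, c * vec (e4321 a b c d) v = vec (e4331 a b c d) (appM L4331_2 v) :=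
  table_sound2 h.h.two (qL4331_2 h) (nf4331 h) kv4331_2 kL4331_2
theorem w4331 (h : Q A a b c d) : WP ![4, 3, 3, 1] ![a, b, c, d] (e4331 a b c d) :=
  wp_step4 (nf4331 h) (by decide) (Or.inr ⟨_, wp0123 (w3331 h), wp_r ez3331 y4331_0⟩) (Or.inr ⟨_, wp0213 (w4321 h.p0213), wp_r ez4321 y4331_1⟩) (Or.inr ⟨_, wp0123 (w4321 h), wp_r ez4321 y4331_2⟩) (Or.inr ⟨_, wp0123 (w4330 h), wp_z ez4330⟩)

theorem qL4322_0 (h : Q A a b c d) : List.Forall₂ (EntOk a (symOf (ps4322 a b c d)))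
    (ps3322 a b c d) pL4322_0 :=
  (.cons (ent_i rfl rfl (ops_L (lL3322_1 h.p1023) (ops_S (sS3322_1 h.p1023) (ops_nil _))) ez3322 y4322_0) (.cons (ent_i rfl rfl (ops_L (lL4222_0 h) (ops_nil _)) ez4222 y4322_1) (.cons (ent_i rfl rfl (ops_L (lL4321_0 h.p0132) (ops_nil _)) ez4321 y4322_2) (.cons (ent_i rfl rfl (ops_L (lL4321_0 h) (ops_nil _)) ez4321 y4322_3) .nil))))
theorem qL4322_1 (h : Q A a b c d) : List.Forall₂ (EntOk b (symOf (ps4322 a b c d)))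
    (ps4222 a b c d) pL4322_1 :=
  (.cons (ent_i rfl rfl (ops_L (lL3322_1 h) (ops_nil _)) ez3322 y4322_0) (.cons (ent_i rfl rfl (ops_L (lL4222_3 h.p0231) (ops_S (sS4222_2 h.p0231) (ops_S (sS4222_3 h.p0321) (ops_S (sS4222_2 h) (ops_S (sS4222_2 h.p0213) (ops_nil _)))))) ez4222 y4322_1) (.cons (ent_i rfl rfl (ops_L (lL4321_1 h.p0132) (ops_nil _)) ez4321 y4322_2) (.cons (ent_i rfl rfl (ops_L (lL4321_1 h) (ops_nil _)) ez4321 y4322_3) .nil))))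
theorem qL4322_2 (h : Q A a b c d) : List.Forall₂ (EntOk c (symOf (ps4322 a b c d)))
    (ps4321 a b d c) pL4322_2 :=
  (.cons (ent_i rfl rfl (ops_L (lL3322_3 h.p0132) (ops_S (sS3322_3 h.p0132) (ops_nil _))) ez3322 y4322_0) (.cons (ent_i rfl rfl (ops_L (lL4222_3 h.p0132) (ops_S (sS4222_2 h.p0132) (ops_S (sS4222_3 h.p0312) (ops_S (sS4222_2 h.p0213) (ops_nil _))))) ez4222 y4322_1) (.cons (ent_i rfl rfl (ops_S (sS4311_3 h.p0132) (ops_L (lL4321_2 h) (ops_nil _))) ez4321 y4322_3) (.cons (ent_i rfl rfl (ops_L (lL4321_3 h.p0132) (ops_nil _)) ez4321 y4322_2) .nil))))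
theorem qL4322_3 (h : Q A a b c d) : List.Forall₂ (EntOk d (symOf (ps4322 a b c d)))
    (ps4321 a b c d) pL4322_3 :=
  (.cons (ent_i rfl rfl (ops_L (lL3322_3 h) (ops_nil _)) ez3322 y4322_0) (.cons (ent_i rfl rfl (ops_L (lL4222_3 h) (ops_nil _)) ez4222 y4322_1) (.cons (ent_i rfl rfl (ops_S (sS4311_3 h) (ops_L (lL4321_2 h.p0132) (ops_nil _))) ez4321 y4322_2) (.cons (ent_i rfl rfl (ops_L (lL4321_3 h) (ops_nil _)) ez4321 y4322_3) .nil))))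
theorem gen4322 (h : Q A a b c d) : ∀ m ∈ gList G4322, vec (symOf (ps4322 a b c d)) m = 0 :=
  gChk_spec (sem := SEM a b c d) (c := 30058) h.h (TT11 h) (init_val (a := a) (b := b) (c := c) (d := d) _ rfl) (ltr_mem h) (by norm_num) (by norm_num) kG4322 kH4322
theorem nf4322 (h : Q A a b c d) : ∀ r, vec (symOf (ps4322 a b c d)) r = vec (e4322 a b c d) (appM N4322 r) :=
  block_sound2 h.h.two (ps := ps4322 a b c d) (ns := 1140) rfl (raw5 (srcRow_spec h.h.two (qL4322_0 h) (nf3322 h) wf3322) (srcRow_spec h.h.two (qL4322_1 h) (nf4222 h) wf4222) (srcRow_spec h.h.two (qL4322_2 h) (nf4321 h.p0132) wf4321) (srcRow_spec h.h.two (qL4322_3 h) (nf4321 h) wf4321) (nthL_spec (gen4322 h))) kb4322 co4322 u4322 el4322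
theorem ez4322 : ∀ k, 374 ≤ k → e4322 a b c d k = 0 := eOf_ge _ (wfT_D wf4322).2
theorem qS4322_3 (h : Q A a b c d) : List.Forall₂ (EntOk 1 (symOf (ps4322 a b c d)))
    (ps4322 a b d c) pS4322_3 :=
  (.cons (ent_i rfl rfl (ops_S (sS3322_3 h.p0132) (ops_nil _)) ez3322 y4322_0) (.cons (ent_i rfl rfl (ops_S (sS4222_2 h.p0132) (ops_S (sS4222_3 h.p0312) (ops_S (sS4222_2 h.p0213) (ops_nil _)))) ez4222 y4322_1) (.cons (ent_i rfl rfl (ops_nil _) ez4321 y4322_3) (.cons (ent_i rfl rfl (ops_nil _) ez4321 y4322_2) .nil))))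
theorem sS4322_3 (h : Q A a b c d) : ∀ v, vec (e4322 a b c d) v = vec (e4322 a b d c) (appM S4322_3 v) :=
  fun v => (one_mul _).symm.trans (table_sound2 h.h.two (qS4322_3 h.p0132) (nf4322 h.p0132) kw4322_3 kS4322_3 v)
theorem lL4322_0 (h : Q A a b c d) : ∀ v, a * vec (e3322 a b c d) v = vec (e4322 a b c d) (appM L4322_0 v) :=
  table_sound2 h.h.two (qL4322_0 h) (nf4322 h) kv4322_0 kL4322_0
theorem lL4322_1 (h : Q A a b c d) : ∀ v, b * vec (e4222 a b c d) v = vec (e4322 a b c d) (appM L4322_1 v) :=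
  table_sound2 h.h.two (qL4322_1 h) (nf4322 h) kv4322_1 kL4322_1
theorem lL4322_3 (h : Q A a b c d) : ∀ v, d * vec (e4321 a b c d) v = vec (e4322 a b c d) (appM L4322_3 v) :=
  table_sound2 h.h.two (qL4322_3 h) (nf4322 h) kv4322_3 kL4322_3
theorem w4322 (h : Q A a b c d) : WP ![4, 3, 2, 2] ![a, b, c, d] (e4322 a b c d) :=
  wp_step4 (nf4322 h) (by decide) (Or.inr ⟨_, wp0123 (w3322 h), wp_r ez3322 y4322_0⟩) (Or.inr ⟨_, wp0123 (w4222 h), wp_r ez4222 y4322_1⟩) (Or.inr ⟨_, wp0132 (w4321 h.p0132), wp_r ez4321 y4322_2⟩) (Or.inr ⟨_, wp0123 (w4321 h), wp_r ez4321 y4322_3⟩)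

theorem qL3332_0 (h : Q A a b c d) : List.Forall₂ (EntOk a (symOf (ps3332 a b c d)))
    (ps3322 b c a d) pL3332_0 :=
  (.cons (ent_i rfl rfl (ops_S (sS3222_2 h.p2103) (ops_L (lL3322_1 h.p2013) (ops_S (sS3322_1 h.p2013) (ops_nil _)))) ez3322 y3332_1) (.cons (ent_i rfl rfl (ops_S (sS3222_2 h.p1203) (ops_L (lL3322_1 h.p1023) (ops_S (sS3322_1 h.p1023) (ops_nil _)))) ez3322 y3332_2) (.cons (ent_i rfl rfl (ops_L (lL3322_3 h.p1230) (ops_S (sS3322_3 h.p1230) (ops_nil _))) ez3322 y3332_0) (.cons (ent_i rfl rfl (ops_L (lL3331_2 h.p1203) (ops_S (sS3331_1 h.p1203) (ops_S (sS3331_2 h.p2103) (ops_S (sS3331_1 h) (ops_S (sS3331_1 h.p1023) (ops_nil _)))))) ez3331 y3332_3) .nil))))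
theorem qL3332_1 (h : Q A a b c d) : List.Forall₂ (EntOk b (symOf (ps3332 a b c d)))
    (ps3322 a c b d) pL3332_1 :=
  (.cons (ent_i rfl rfl (ops_S (sS3222_2 h.p2013) (ops_L (lL3322_1 h.p2103) (ops_S (sS3322_1 h.p2103) (ops_nil _)))) ez3322 y3332_0) (.cons (ent_i rfl rfl (ops_S (sS3222_2 h.p0213) (ops_L (lL3322_1 h) (ops_nil _))) ez3322 y3332_2) (.cons (ent_i rfl rfl (ops_L (lL3322_3 h.p0231) (ops_S (sS3322_3 h.p0231) (ops_nil _))) ez3322 y3332_1) (.cons (ent_i rfl rfl (ops_L (lL3331_2 h.p0213) (ops_S (sS3331_1 h.p0213) (ops_S (sS3331_2 h.p2013) (ops_S (sS3331_1 h.p1023) (ops_nil _))))) ez3331 y3332_3) .nil))))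
theorem qL3332_2 (h : Q A a b c d) : List.Forall₂ (EntOk c (symOf (ps3332 a b c d)))
    (ps3322 a b c d) pL3332_2 :=
  (.cons (ent_i rfl rfl (ops_S (sS3222_2 h.p1023) (ops_L (lL3322_1 h.p1203) (ops_nil _))) ez3322 y3332_0) (.cons (ent_i rfl rfl (ops_S (sS3222_2 h) (ops_L (lL3322_1 h.p0213) (ops_nil _))) ez3322 y3332_1) (.cons (ent_i rfl rfl (ops_L (lL3322_3 h.p0132) (ops_S (sS3322_3 h.p0132) (ops_nil _))) ez3322 y3332_2) (.cons (ent_i rfl rfl (ops_L (lL3331_2 h) (ops_nil _)) ez3331 y3332_3) .nil))))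
theorem qL3332_3 (h : Q A a b c d) : List.Forall₂ (EntOk d (symOf (ps3332 a b c d)))
    (ps3331 a b c d) pL3332_3 :=
  (.cons (ent_i rfl rfl (ops_L (lL3322_3 h.p1203) (ops_nil _)) ez3322 y3332_0) (.cons (ent_i rfl rfl (ops_L (lL3322_3 h.p0213) (ops_nil _)) ez3322 y3332_1) (.cons (ent_i rfl rfl (ops_L (lL3322_3 h) (ops_nil _)) ez3322 y3332_2) (.cons (ent_n ez3330) .nil))))
theorem gen3332 (h : Q A a b c d) : ∀ m ∈ gList G3332, vec (symOf (ps3332 a b c d)) m = 0 :=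
  gChk_spec (sem := SEM a b c d) (c := 30059) h.h (TT11 h) (init_val (a := a) (b := b) (c := c) (d := d) _ rfl) (ltr_mem h) (by norm_num) (by norm_num) kG3332 kH3332
theorem nf3332 (h : Q A a b c d) : ∀ r, vec (symOf (ps3332 a b c d)) r = vec (e3332 a b c d) (appM N3332 r) :=
  block_sound2 h.h.two (ps := ps3332 a b c d) (ns := 2040) rfl (raw5 (srcRow_spec h.h.two (qL3332_0 h) (nf3322 h.p1203) wf3322) (srcRow_spec h.h.two (qL3332_1 h) (nf3322 h.p0213) wf3322) (srcRow_spec h.h.two (qL3332_2 h) (nf3322 h) wf3322) (srcRow_spec h.h.two (qL3332_3 h) (nf3331 h) wf3331) (nthL_spec (gen3332 h))) kb3332 co3332 u3332 el3332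
theorem ez3332 : ∀ k, 774 ≤ k → e3332 a b c d k = 0 := eOf_ge _ (wfT_D wf3332).2
theorem qS3332_1 (h : Q A a b c d) : List.Forall₂ (EntOk 1 (symOf (ps3332 a b c d)))
    (ps3332 b a c d) pS3332_1 :=
  (.cons (ent_i rfl rfl (ops_nil _) ez3322 y3332_1) (.cons (ent_i rfl rfl (ops_nil _) ez3322 y3332_0) (.cons (ent_i rfl rfl (ops_S (sS3322_1 h.p1023) (ops_nil _)) ez3322 y3332_2) (.cons (ent_i rfl rfl (ops_S (sS3331_1 h.p1023) (ops_nil _)) ez3331 y3332_3) .nil))))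
theorem sS3332_1 (h : Q A a b c d) : ∀ v, vec (e3332 a b c d) v = vec (e3332 b a c d) (appM S3332_1 v) :=
  fun v => (one_mul _).symm.trans (table_sound2 h.h.two (qS3332_1 h.p1023) (nf3332 h.p1023) kw3332_1 kS3332_1 v)
theorem qS3332_2 (h : Q A a b c d) : List.Forall₂ (EntOk 1 (symOf (ps3332 a b c d)))
    (ps3332 c b a d) pS3332_2 :=
  (.cons (ent_i rfl rfl (ops_S (sS3322_1 h.p1023) (ops_nil _)) ez3322 y3332_2) (.cons (ent_i rfl rfl (ops_S (sS3322_1 h.p2013) (ops_nil _)) ez3322 y3332_1) (.cons (ent_i rfl rfl (ops_S (sS3322_1 h.p2103) (ops_nil _)) ez3322 y3332_0) (.cons (ent_i rfl rfl (ops_S (sS3331_2 h.p2103) (ops_nil _)) ez3331 y3332_3) .nil))))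
theorem sS3332_2 (h : Q A a b c d) : ∀ v, vec (e3332 a b c d) v = vec (e3332 c b a d) (appM S3332_2 v) :=
  fun v => (one_mul _).symm.trans (table_sound2 h.h.two (qS3332_2 h.p2103) (nf3332 h.p2103) kw3332_2 kS3332_2 v)
theorem lL3332_2 (h : Q A a b c d) : ∀ v, c * vec (e3322 a b c d) v = vec (e3332 a b c d) (appM L3332_2 v) :=
  table_sound2 h.h.two (qL3332_2 h) (nf3332 h) kv3332_2 kL3332_2
theorem lL3332_3 (h : Q A a b c d) : ∀ v, d * vec (e3331 a b c d) v = vec (e3332 a b c d) (appM L3332_3 v) :=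
  table_sound2 h.h.two (qL3332_3 h) (nf3332 h) kv3332_3 kL3332_3
theorem w3332 (h : Q A a b c d) : WP ![3, 3, 3, 2] ![a, b, c, d] (e3332 a b c d) :=
  wp_step4 (nf3332 h) (by decide) (Or.inr ⟨_, wp1203 (w3322 h.p1203), wp_r ez3322 y3332_0⟩) (Or.inr ⟨_, wp0213 (w3322 h.p0213), wp_r ez3322 y3332_1⟩) (Or.inr ⟨_, wp0123 (w3322 h), wp_r ez3322 y3332_2⟩) (Or.inr ⟨_, wp0123 (w3331 h), wp_r ez3331 y3332_3⟩)


end

end Pool.Agent.L3E.GJ
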