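import Pool.Agent.L3E.GJ.F3

set_option autoImplicit false
set_option maxRecDepth 100000
set_option linter.unusedVariables false
set_option exponentiation.threshold 100000

/-! # L3E, module GJ.F4: facts -/

namespace Pool.Agent.L3E.GJ

section
variable {K : Type} [Ring K] {A : Set K} {a b c d : K}

theorem z4440 (h : Q A a b c d) : WP ![4, 4, 4, 0] ![a, b, c, d] (zfam : ℕ → K) :=
  wp_step4 (F := fun r => r) (fun _ => rfl) (by decide) (Or.inr ⟨_, wp1203 (z4430 h.p1203), wp_z (fun _ _ => rfl)⟩) (Or.inr ⟨_, wp0213 (z4430 h.p0213), wp_z (fun _ _ => rfl)⟩) (Or.inr ⟨_, wp0123 (z4430 h), wp_z (fun _ _ => rfl)⟩) (Or.inl rfl)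
theorem z5430 (h : Q A a b c d) : WP ![5, 4, 3, 0] ![a, b, c, d] (zfam : ℕ → K) :=
  wp_step4 (F := fun r => r) (fun _ => rfl) (by decide) (Or.inr ⟨_, wp0123 (z4430 h), wp_z (fun _ _ => rfl)⟩) (Or.inr ⟨_, wp0123 (z5330 h), wp_z (fun _ _ => rfl)⟩) (Or.inr ⟨_, wp0123 (z5420 h), wp_z (fun _ _ => rfl)⟩) (Or.inl rfl)
theorem z5511 (h : Q A a b c d) : WP ![5, 5, 1, 1] ![a, b, c, d] (zfam : ℕ → K) :=
  wp_step4 (F := fun r => r) (fun _ => rfl) (by decide) (Or.inr ⟨_, wp1023 (z5411 h.p1023), wp_z (fun _ _ => rfl)⟩) (Or.inr ⟨_, wp0123 (z5411 h), wp_z (fun _ _ => rfl)⟩) (Or.inr ⟨_, wp0132 (z5510 h.p0132), wp_z (fun _ _ => rfl)⟩) (Or.inr ⟨_, wp0123 (z5510 h), wp_z (fun _ _ => rfl)⟩)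
theorem z5520 (h : Q A a b c d) : WP ![5, 5, 2, 0] ![a, b, c, d] (zfam : ℕ → K) :=
  wp_step4 (F := fun r => r) (fun _ => rfl) (by decide) (Or.inr ⟨_, wp1023 (z5420 h.p1023), wp_z (fun _ _ => rfl)⟩) (Or.inr ⟨_, wp0123 (z5420 h), wp_z (fun _ _ => rfl)⟩) (Or.inr ⟨_, wp0123 (z5510 h), wp_z (fun _ _ => rfl)⟩) (Or.inl rfl)
theorem z6330 (h : Q A a b c d) : WP ![6, 3, 3, 0] ![a, b, c, d] (zfam : ℕ → K) :=
  wp_step4 (F := fun r => r) (fun _ => rfl) (by decide) (Or.inr ⟨_, wp0123 (z5330 h), wp_z (fun _ _ => rfl)⟩) (Or.inr ⟨_, wp0213 (z6320 h.p0213), wp_z (fun _ _ => rfl)⟩) (Or.inr ⟨_, wp0123 (z6320 h), wp_z (fun _ _ => rfl)⟩) (Or.inl rfl)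
theorem z6411 (h : Q A a b c d) : WP ![6, 4, 1, 1] ![a, b, c, d] (zfam : ℕ → K) :=
  wp_step4 (F := fun r => r) (fun _ => rfl) (by decide) (Or.inr ⟨_, wp0123 (z5411 h), wp_z (fun _ _ => rfl)⟩) (Or.inr ⟨_, wp0123 (z6311 h), wp_z (fun _ _ => rfl)⟩) (Or.inr ⟨_, wp0132 (z6410 h.p0132), wp_z (fun _ _ => rfl)⟩) (Or.inr ⟨_, wp0123 (z6410 h), wp_z (fun _ _ => rfl)⟩)
theorem z6420 (h : Q A a b c d) : WP ![6, 4, 2, 0] ![a, b, c, d] (zfam : ℕ → K) :=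
  wp_step4 (F := fun r => r) (fun _ => rfl) (by decide) (Or.inr ⟨_, wp0123 (z5420 h), wp_z (fun _ _ => rfl)⟩) (Or.inr ⟨_, wp0123 (z6320 h), wp_z (fun _ _ => rfl)⟩) (Or.inr ⟨_, wp0123 (z6410 h), wp_z (fun _ _ => rfl)⟩) (Or.inl rfl)
theorem z6510 (h : Q A a b c d) : WP ![6, 5, 1, 0] ![a, b, c, d] (zfam : ℕ → K) :=
  wp_step4 (F := fun r => r) (fun _ => rfl) (by decide) (Or.inr ⟨_, wp0123 (z5510 h), wp_z (fun _ _ => rfl)⟩) (Or.inr ⟨_, wp0123 (z6410 h), wp_z (fun _ _ => rfl)⟩) (Or.inr ⟨_, wp0123 (z6500 h), wp_z (fun _ _ => rfl)⟩) (Or.inl rfl)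
theorem z7311 (h : Q A a b c d) : WP ![7, 3, 1, 1] ![a, b, c, d] (zfam : ℕ → K) :=
  wp_step4 (F := fun r => r) (fun _ => rfl) (by decide) (Or.inr ⟨_, wp0123 (z6311 h), wp_z (fun _ _ => rfl)⟩) (Or.inr ⟨_, wp0123 (z7211 h), wp_z (fun _ _ => rfl)⟩) (Or.inr ⟨_, wp0132 (z7310 h.p0132), wp_z (fun _ _ => rfl)⟩) (Or.inr ⟨_, wp0123 (z7310 h), wp_z (fun _ _ => rfl)⟩)
theorem z7320 (h : Q A a b c d) : WP ![7, 3, 2, 0] ![a, b, c, d] (zfam : ℕ → K) :=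
  wp_step4 (F := fun r => r) (fun _ => rfl) (by decide) (Or.inr ⟨_, wp0123 (z6320 h), wp_z (fun _ _ => rfl)⟩) (Or.inr ⟨_, wp0123 (z7220 h), wp_z (fun _ _ => rfl)⟩) (Or.inr ⟨_, wp0123 (z7310 h), wp_z (fun _ _ => rfl)⟩) (Or.inl rfl)
theorem z7410 (h : Q A a b c d) : WP ![7, 4, 1, 0] ![a, b, c, d] (zfam : ℕ → K) :=
  wp_step4 (F := fun r => r) (fun _ => rfl) (by decide) (Or.inr ⟨_, wp0123 (z6410 h), wp_z (fun _ _ => rfl)⟩) (Or.inr ⟨_, wp0123 (z7310 h), wp_z (fun _ _ => rfl)⟩) (Or.inr ⟨_, wp0123 (z7400 h), wp_z (fun _ _ => rfl)⟩) (Or.inl rfl)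
theorem z8211 (h : Q A a b c d) : WP ![8, 2, 1, 1] ![a, b, c, d] (zfam : ℕ → K) :=
  wp_step4 (F := fun r => r) (fun _ => rfl) (by decide) (Or.inr ⟨_, wp0123 (z7211 h), wp_z (fun _ _ => rfl)⟩) (Or.inr ⟨_, wp0123 (z8111 h), wp_z (fun _ _ => rfl)⟩) (Or.inr ⟨_, wp0132 (z8210 h.p0132), wp_z (fun _ _ => rfl)⟩) (Or.inr ⟨_, wp0123 (z8210 h), wp_z (fun _ _ => rfl)⟩)
theorem z8220 (h : Q A a b c d) : WP ![8, 2, 2, 0] ![a, b, c, d] (zfam : ℕ → K) :=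
  wp_step4 (F := fun r => r) (fun _ => rfl) (by decide) (Or.inr ⟨_, wp0123 (z7220 h), wp_z (fun _ _ => rfl)⟩) (Or.inr ⟨_, wp0213 (z8210 h.p0213), wp_z (fun _ _ => rfl)⟩) (Or.inr ⟨_, wp0123 (z8210 h), wp_z (fun _ _ => rfl)⟩) (Or.inl rfl)
theorem y7221_0 : ∀ k, k < 2 → symOf (ps7221 a b c d) (k + 0) = e6221 a b c d k * a :=
  sy_hd
theorem y6321_0 : ∀ k, k < 10 → symOf (ps6321 a b c d) (k + 0) = e5321 a b c d k * a :=
  sy_hd
theorem y6321_1 : ∀ k, k < 2 → symOf (ps6321 a b c d) (k + 10) = e6221 a b c d k * b :=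
  sy_tl (o := 0) (o' := 10) (sy_hd) rfl
theorem y6222_0 : ∀ k, k < 132 → symOf (ps6222 a b c d) (k + 0) = e5222 a b c d k * a :=
  sy_hd
theorem y6222_1 : ∀ k, k < 2 → symOf (ps6222 a b c d) (k + 132) = e6221 a c d b k * b :=
  sy_tl (o := 0) (o' := 132) (sy_hd) rfl
theorem y6222_2 : ∀ k, k < 2 → symOf (ps6222 a b c d) (k + 134) = e6221 a b d c k * c :=
  sy_tl (o := 2) (o' := 134) (sy_tl (o := 0) (o' := 2) (sy_hd) rfl) rfl
theorem y6222_3 : ∀ k, k < 2 → symOf (ps6222 a b c d) (k + 136) = e6221 a b c d k * d :=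
  sy_tl (o := 4) (o' := 136) (sy_tl (o := 2) (o' := 4) (sy_tl (o := 0) (o' := 2) (sy_hd) rfl) rfl) rfl
theorem y5421_0 : ∀ k, k < 20 → symOf (ps5421 a b c d) (k + 0) = e4421 a b c d k * a :=
  sy_hd
theorem y5421_1 : ∀ k, k < 10 → symOf (ps5421 a b c d) (k + 20) = e5321 a b c d k * b :=
  sy_tl (o := 0) (o' := 20) (sy_hd) rfl
theorem y5331_0 : ∀ k, k < 37 → symOf (ps5331 a b c d) (k + 0) = e4331 a b c d k * a :=
  sy_hd
theorem y5331_1 : ∀ k, k < 10 → symOf (ps5331 a b c d) (k + 37) = e5321 a c b d k * b :=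
  sy_tl (o := 0) (o' := 37) (sy_hd) rfl
theorem y5331_2 : ∀ k, k < 10 → symOf (ps5331 a b c d) (k + 47) = e5321 a b c d k * c :=
  sy_tl (o := 10) (o' := 47) (sy_tl (o := 0) (o' := 10) (sy_hd) rfl) rfl
theorem y5322_0 : ∀ k, k < 374 → symOf (ps5322 a b c d) (k + 0) = e4322 a b c d k * a :=
  sy_hd
theorem y5322_1 : ∀ k, k < 132 → symOf (ps5322 a b c d) (k + 374) = e5222 a b c d k * b :=
  sy_tl (o := 0) (o' := 374) (sy_hd) rfl
theorem y5322_2 : ∀ k, k < 10 → symOf (ps5322 a b c d) (k + 506) = e5321 a b d c k * c :=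
  sy_tl (o := 132) (o' := 506) (sy_tl (o := 0) (o' := 132) (sy_hd) rfl) rfl
theorem y5322_3 : ∀ k, k < 10 → symOf (ps5322 a b c d) (k + 516) = e5321 a b c d k * d :=
  sy_tl (o := 142) (o' := 516) (sy_tl (o := 10) (o' := 142) (sy_tl (o := 0) (o' := 10) (sy_hd) rfl) rfl) rfl
theorem y4431_0 : ∀ k, k < 37 → symOf (ps4431 a b c d) (k + 0) = e4331 b a c d k * a :=
  sy_hd
theorem y4431_1 : ∀ k, k < 37 → symOf (ps4431 a b c d) (k + 37) = e4331 a b c d k * b :=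
  sy_tl (o := 0) (o' := 37) (sy_hd) rfl
theorem y4431_2 : ∀ k, k < 20 → symOf (ps4431 a b c d) (k + 74) = e4421 a b c d k * c :=
  sy_tl (o := 37) (o' := 74) (sy_tl (o := 0) (o' := 37) (sy_hd) rfl) rfl
theorem y4422_0 : ∀ k, k < 374 → symOf (ps4422 a b c d) (k + 0) = e4322 b a c d k * a :=
  sy_hd
theorem y4422_1 : ∀ k, k < 374 → symOf (ps4422 a b c d) (k + 374) = e4322 a b c d k * b :=
  sy_tl (o := 0) (o' := 374) (sy_hd) rfl
theorem y4422_2 : ∀ k, k < 20 → symOf (ps4422 a b c d) (k + 748) = e4421 a b d c k * c :=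
  sy_tl (o := 374) (o' := 748) (sy_tl (o := 0) (o' := 374) (sy_hd) rfl) rfl
theorem y4422_3 : ∀ k, k < 20 → symOf (ps4422 a b c d) (k + 768) = e4421 a b c d k * d :=
  sy_tl (o := 394) (o' := 768) (sy_tl (o := 20) (o' := 394) (sy_tl (o := 0) (o' := 20) (sy_hd) rfl) rfl) rfl
theorem y4332_0 : ∀ k, k < 774 → symOf (ps4332 a b c d) (k + 0) = e3332 a b c d k * a :=
  sy_hd
theorem y4332_1 : ∀ k, k < 374 → symOf (ps4332 a b c d) (k + 774) = e4322 a c b d k * b :=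
  sy_tl (o := 0) (o' := 774) (sy_hd) rfl
theorem y4332_2 : ∀ k, k < 374 → symOf (ps4332 a b c d) (k + 1148) = e4322 a b c d k * c :=
  sy_tl (o := 374) (o' := 1148) (sy_tl (o := 0) (o' := 374) (sy_hd) rfl) rfl
theorem y4332_3 : ∀ k, k < 37 → symOf (ps4332 a b c d) (k + 1522) = e4331 a b c d k * d :=
  sy_tl (o := 748) (o' := 1522) (sy_tl (o := 374) (o' := 748) (sy_tl (o := 0) (o' := 374) (sy_hd) rfl) rfl) rfl
theorem y3333_0 : ∀ k, k < 774 → symOf (ps3333 a b c d) (k + 0) = e3332 b c d a k * a :=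
  sy_hd
theorem y3333_1 : ∀ k, k < 774 → symOf (ps3333 a b c d) (k + 774) = e3332 a c d b k * b :=
  sy_tl (o := 0) (o' := 774) (sy_hd) rfl
theorem y3333_2 : ∀ k, k < 774 → symOf (ps3333 a b c d) (k + 1548) = e3332 a b d c k * c :=
  sy_tl (o := 774) (o' := 1548) (sy_tl (o := 0) (o' := 774) (sy_hd) rfl) rfl
theorem y3333_3 : ∀ k, k < 774 → symOf (ps3333 a b c d) (k + 2322) = e3332 a b c d k * d :=
  sy_tl (o := 1548) (o' := 2322) (sy_tl (o := 774) (o' := 1548) (sy_tl (o := 0) (o' := 774) (sy_hd) rfl) rfl) rfl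
theorem qL7221_0 (h : Q A a b c d) : List.Forall₂ (EntOk a (symOf (ps7221 a b c d)))
    (ps6221 a b c d) pL7221_0 :=
  (.cons (ent_i rfl rfl (ops_L (lL6221_0 h) (ops_nil _)) ez6221 y7221_0) (.cons (ent_n ez6211) (.cons (ent_n ez6211) (.cons (ent_n ez6220) .nil))))
theorem nf7221 (h : Q A a b c d) : ∀ r, vec (symOf (ps7221 a b c d)) r = vec (e7221 a b c d) (appM N7221 r) :=
  block_sound2 h.h.two (ps := ps7221 a b c d) (ns := 2) rfl (raw5 (srcRow_spec h.h.two (qL7221_0 h) (nf6221 h) wf6221) (zf_spec _) (zf_spec _) (zf_spec _) (zf_spec _)) kb7221 co7221 u7221 el7221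
theorem ez7221 : ∀ k, 0 ≤ k → e7221 a b c d k = 0 := eOf_ge _ (wfT_D wf7221).2
theorem lL7221_0 (h : Q A a b c d) : ∀ v, a * vec (e6221 a b c d) v = vec (e7221 a b c d) (appM L7221_0 v) :=
  table_sound2 h.h.two (qL7221_0 h) (nf7221 h) kv7221_0 kL7221_0
theorem w7221 (h : Q A a b c d) : WP ![7, 2, 2, 1] ![a, b, c, d] (e7221 a b c d) :=
  wp_step4 (nf7221 h) (by decide) (Or.inr ⟨_, wp0123 (w6221 h), wp_r ez6221 y7221_0⟩) (Or.inr ⟨_, wp0213 (z7211 h.p0213), wp_z (fun _ _ => rfl)⟩) (Or.inr ⟨_, wp0123 (z7211 h), wp_z (fun _ _ => rfl)⟩) (Or.inr ⟨_, wp0123 (z7220 h), wp_z (fun _ _ => rfl)⟩)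

theorem qL6321_0 (h : Q A a b c d) : List.Forall₂ (EntOk a (symOf (ps6321 a b c d)))
    (ps5321 a b c d) pL6321_0 :=
  (.cons (ent_i rfl rfl (ops_L (lL5321_0 h) (ops_nil _)) ez5321 y6321_0) (.cons (ent_i rfl rfl (ops_L (lL6221_0 h) (ops_nil _)) ez6221 y6321_1) (.cons (ent_n ez5311) (.cons (ent_n ez5320) .nil))))
theorem qL6321_1 (h : Q A a b c d) : List.Forall₂ (EntOk b (symOf (ps6321 a b c d)))
    (ps6221 a b c d) pL6321_1 :=
  (.cons (ent_i rfl rfl (ops_L (lL5321_1 h) (ops_nil _)) ez5321 y6321_0) (.cons (ent_n ez6211) (.cons (ent_n ez6211) (.cons (ent_n ez6220) .nil))))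
theorem nf6321 (h : Q A a b c d) : ∀ r, vec (symOf (ps6321 a b c d)) r = vec (e6321 a b c d) (appM N6321 r) :=
  block_sound2 h.h.two (ps := ps6321 a b c d) (ns := 12) rfl (raw5 (srcRow_spec h.h.two (qL6321_0 h) (nf5321 h) wf5321) (srcRow_spec h.h.two (qL6321_1 h) (nf6221 h) wf6221) (zf_spec _) (zf_spec _) (zf_spec _)) kb6321 co6321 u6321 el6321
theorem ez6321 : ∀ k, 0 ≤ k → e6321 a b c d k = 0 := eOf_ge _ (wfT_D wf6321).2
theorem lL6321_0 (h : Q A a b c d) : ∀ v, a * vec (e5321 a b c d) v = vec (e6321 a b c d) (appM L6321_0 v) :=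
  table_sound2 h.h.two (qL6321_0 h) (nf6321 h) kv6321_0 kL6321_0
theorem lL6321_1 (h : Q A a b c d) : ∀ v, b * vec (e6221 a b c d) v = vec (e6321 a b c d) (appM L6321_1 v) :=
  table_sound2 h.h.two (qL6321_1 h) (nf6321 h) kv6321_1 kL6321_1
theorem w6321 (h : Q A a b c d) : WP ![6, 3, 2, 1] ![a, b, c, d] (e6321 a b c d) :=
  wp_step4 (nf6321 h) (by decide) (Or.inr ⟨_, wp0123 (w5321 h), wp_r ez5321 y6321_0⟩) (Or.inr ⟨_, wp0123 (w6221 h), wp_r ez6221 y6321_1⟩) (Or.inr ⟨_, wp0123 (z6311 h), wp_z (fun _ _ => rfl)⟩) (Or.inr ⟨_, wp0123 (z6320 h), wp_z (fun _ _ => rfl)⟩)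

theorem qL6222_0 (h : Q A a b c d) : List.Forall₂ (EntOk a (symOf (ps6222 a b c d)))
    (ps5222 a b c d) pL6222_0 :=
  (.cons (ent_i rfl rfl (ops_L (lL5222_0 h) (ops_nil _)) ez5222 y6222_0) (.cons (ent_i rfl rfl (ops_L (lL6221_0 h.p0231) (ops_nil _)) ez6221 y6222_1) (.cons (ent_i rfl rfl (ops_L (lL6221_0 h.p0132) (ops_nil _)) ez6221 y6222_2) (.cons (ent_i rfl rfl (ops_L (lL6221_0 h) (ops_nil _)) ez6221 y6222_3) .nil))))
theorem qL6222_1 (h : Q A a b c d) : List.Forall₂ (EntOk b (symOf (ps6222 a b c d)))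
    (ps6221 a c d b) pL6222_1 :=
  (.cons (ent_i rfl rfl (ops_L (lL5222_3 h.p0231) (ops_S (sS5222_2 h.p0231) (ops_S (sS5222_3 h.p0321) (ops_S (sS5222_2 h) (ops_S (sS5222_2 h.p0213) (ops_nil _)))))) ez5222 y6222_0) (.cons (ent_n ez6211) (.cons (ent_n ez6211) (.cons (ent_n ez6220) .nil))))
theorem qL6222_2 (h : Q A a b c d) : List.Forall₂ (EntOk c (symOf (ps6222 a b c d)))
    (ps6221 a b d c) pL6222_2 :=
  (.cons (ent_i rfl rfl (ops_L (lL5222_3 h.p0132) (ops_S (sS5222_2 h.p0132) (ops_S (sS5222_3 h.p0312) (ops_S (sS5222_2 h.p0213) (ops_nil _))))) ez5222 y6222_0) (.cons (ent_n ez6211) (.cons (ent_n ez6211) (.cons (ent_n ez6220) .nil))))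
theorem qL6222_3 (h : Q A a b c d) : List.Forall₂ (EntOk d (symOf (ps6222 a b c d)))
    (ps6221 a b c d) pL6222_3 :=
  (.cons (ent_i rfl rfl (ops_L (lL5222_3 h) (ops_nil _)) ez5222 y6222_0) (.cons (ent_n ez6211) (.cons (ent_n ez6211) (.cons (ent_n ez6220) .nil))))
theorem nf6222 (h : Q A a b c d) : ∀ r, vec (symOf (ps6222 a b c d)) r = vec (e6222 a b c d) (appM N6222 r) :=
  block_sound2 h.h.two (ps := ps6222 a b c d) (ns := 138) rfl (raw5 (srcRow_spec h.h.two (qL6222_0 h) (nf5222 h) wf5222) (srcRow_spec h.h.two (qL6222_1 h) (nf6221 h.p0231) wf6221) (srcRow_spec h.h.two (qL6222_2 h) (nf6221 h.p0132) wf6221) (srcRow_spec h.h.two (qL6222_3 h) (nf6221 h) wf6221) (zf_spec _)) kb6222 co6222 u6222 el6222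
theorem ez6222 : ∀ k, 22 ≤ k → e6222 a b c d k = 0 := eOf_ge _ (wfT_D wf6222).2
theorem qS6222_2 (h : Q A a b c d) : List.Forall₂ (EntOk 1 (symOf (ps6222 a b c d)))
    (ps6222 a c b d) pS6222_2 :=
  (.cons (ent_i rfl rfl (ops_S (sS5222_2 h.p0213) (ops_nil _)) ez5222 y6222_0) (.cons (ent_i rfl rfl (ops_nil _) ez6221 y6222_2) (.cons (ent_i rfl rfl (ops_nil _) ez6221 y6222_1) (.cons (ent_i rfl rfl (ops_S (sS6221_2 h.p0213) (ops_nil _)) ez6221 y6222_3) .nil))))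
theorem sS6222_2 (h : Q A a b c d) : ∀ v, vec (e6222 a b c d) v = vec (e6222 a c b d) (appM S6222_2 v) :=
  fun v => (one_mul _).symm.trans (table_sound2 h.h.two (qS6222_2 h.p0213) (nf6222 h.p0213) kw6222_2 kS6222_2 v)
theorem qS6222_3 (h : Q A a b c d) : List.Forall₂ (EntOk 1 (symOf (ps6222 a b c d)))
    (ps6222 a d c b) pS6222_3 :=
  (.cons (ent_i rfl rfl (ops_S (sS5222_3 h.p0321) (ops_nil _)) ez5222 y6222_0) (.cons (ent_i rfl rfl (ops_S (sS6221_2 h.p0213) (ops_nil _)) ez6221 y6222_3) (.cons (ent_i rfl rfl (ops_S (sS6221_2 h.p0312) (ops_nil _)) ez6221 y6222_2) (.cons (ent_i rfl rfl (ops_S (sS6221_2 h.p0321) (ops_nil _)) ez6221 y6222_1) .nil))))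
theorem sS6222_3 (h : Q A a b c d) : ∀ v, vec (e6222 a b c d) v = vec (e6222 a d c b) (appM S6222_3 v) :=
  fun v => (one_mul _).symm.trans (table_sound2 h.h.two (qS6222_3 h.p0321) (nf6222 h.p0321) kw6222_3 kS6222_3 v)
theorem lL6222_0 (h : Q A a b c d) : ∀ v, a * vec (e5222 a b c d) v = vec (e6222 a b c d) (appM L6222_0 v) :=
  table_sound2 h.h.two (qL6222_0 h) (nf6222 h) kv6222_0 kL6222_0
theorem lL6222_3 (h : Q A a b c d) : ∀ v, d * vec (e6221 a b c d) v = vec (e6222 a b c d) (appM L6222_3 v) :=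
  table_sound2 h.h.two (qL6222_3 h) (nf6222 h) kv6222_3 kL6222_3
theorem w6222 (h : Q A a b c d) : WP ![6, 2, 2, 2] ![a, b, c, d] (e6222 a b c d) :=
  wp_step4 (nf6222 h) (by decide) (Or.inr ⟨_, wp0123 (w5222 h), wp_r ez5222 y6222_0⟩) (Or.inr ⟨_, wp0231 (w6221 h.p0231), wp_r ez6221 y6222_1⟩) (Or.inr ⟨_, wp0132 (w6221 h.p0132), wp_r ez6221 y6222_2⟩) (Or.inr ⟨_, wp0123 (w6221 h), wp_r ez6221 y6222_3⟩)

theorem qL5421_0 (h : Q A a b c d) : List.Forall₂ (EntOk a (symOf (ps5421 a b c d)))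
    (ps4421 a b c d) pL5421_0 :=
  (.cons (ent_i rfl rfl (ops_L (lL4421_1 h.p1023) (ops_S (sS4421_1 h.p1023) (ops_nil _))) ez4421 y5421_0) (.cons (ent_i rfl rfl (ops_L (lL5321_0 h) (ops_nil _)) ez5321 y5421_1) (.cons (ent_n ez4411) (.cons (ent_n ez4420) .nil))))
theorem qL5421_1 (h : Q A a b c d) : List.Forall₂ (EntOk b (symOf (ps5421 a b c d)))
    (ps5321 a b c d) pL5421_1 :=
  (.cons (ent_i rfl rfl (ops_L (lL4421_1 h) (ops_nil _)) ez4421 y5421_0) (.cons (ent_i rfl rfl (ops_L (lL5321_1 h) (ops_nil _)) ez5321 y5421_1) (.cons (ent_n ez5311) (.cons (ent_n ez5320) .nil))))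
theorem nf5421 (h : Q A a b c d) : ∀ r, vec (symOf (ps5421 a b c d)) r = vec (e5421 a b c d) (appM N5421 r) :=
  block_sound2 h.h.two (ps := ps5421 a b c d) (ns := 30) rfl (raw5 (srcRow_spec h.h.two (qL5421_0 h) (nf4421 h) wf4421) (srcRow_spec h.h.two (qL5421_1 h) (nf5321 h) wf5321) (zf_spec _) (zf_spec _) (zf_spec _)) kb5421 co5421 u5421 el5421
theorem ez5421 : ∀ k, 1 ≤ k → e5421 a b c d k = 0 := eOf_ge _ (wfT_D wf5421).2
theorem lL5421_0 (h : Q A a b c d) : ∀ v, a * vec (e4421 a b c d) v = vec (e5421 a b c d) (appM L5421_0 v) :=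
  table_sound2 h.h.two (qL5421_0 h) (nf5421 h) kv5421_0 kL5421_0
theorem lL5421_1 (h : Q A a b c d) : ∀ v, b * vec (e5321 a b c d) v = vec (e5421 a b c d) (appM L5421_1 v) :=
  table_sound2 h.h.two (qL5421_1 h) (nf5421 h) kv5421_1 kL5421_1
theorem w5421 (h : Q A a b c d) : WP ![5, 4, 2, 1] ![a, b, c, d] (e5421 a b c d) :=
  wp_step4 (nf5421 h) (by decide) (Or.inr ⟨_, wp0123 (w4421 h), wp_r ez4421 y5421_0⟩) (Or.inr ⟨_, wp0123 (w5321 h), wp_r ez5321 y5421_1⟩) (Or.inr ⟨_, wp0123 (z5411 h), wp_z (fun _ _ => rfl)⟩) (Or.inr ⟨_, wp0123 (z5420 h), wp_z (fun _ _ => rfl)⟩)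

theorem qL5331_0 (h : Q A a b c d) : List.Forall₂ (EntOk a (symOf (ps5331 a b c d)))
    (ps4331 a b c d) pL5331_0 :=
  (.cons (ent_i rfl rfl (ops_L (lL4331_0 h) (ops_nil _)) ez4331 y5331_0) (.cons (ent_i rfl rfl (ops_L (lL5321_0 h.p0213) (ops_nil _)) ez5321 y5331_1) (.cons (ent_i rfl rfl (ops_L (lL5321_0 h) (ops_nil _)) ez5321 y5331_2) (.cons (ent_n ez4330) .nil))))
theorem qL5331_1 (h : Q A a b c d) : List.Forall₂ (EntOk b (symOf (ps5331 a b c d)))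
    (ps5321 a c b d) pL5331_1 :=
  (.cons (ent_i rfl rfl (ops_L (lL4331_2 h.p0213) (ops_S (sS4331_2 h.p0213) (ops_nil _))) ez4331 y5331_0) (.cons (ent_i rfl rfl (ops_S (sS5221_2 h.p0213) (ops_L (lL5321_1 h) (ops_nil _))) ez5321 y5331_2) (.cons (ent_n ez5311) (.cons (ent_n ez5320) .nil))))
theorem qL5331_2 (h : Q A a b c d) : List.Forall₂ (EntOk c (symOf (ps5331 a b c d)))
    (ps5321 a b c d) pL5331_2 :=
  (.cons (ent_i rfl rfl (ops_L (lL4331_2 h) (ops_nil _)) ez4331 y5331_0) (.cons (ent_i rfl rfl (ops_S (sS5221_2 h) (ops_L (lL5321_1 h.p0213) (ops_nil _))) ez5321 y5331_1) (.cons (ent_n ez5311) (.cons (ent_n ez5320) .nil))))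
theorem nf5331 (h : Q A a b c d) : ∀ r, vec (symOf (ps5331 a b c d)) r = vec (e5331 a b c d) (appM N5331 r) :=
  block_sound2 h.h.two (ps := ps5331 a b c d) (ns := 57) rfl (raw5 (srcRow_spec h.h.two (qL5331_0 h) (nf4331 h) wf4331) (srcRow_spec h.h.two (qL5331_1 h) (nf5321 h.p0213) wf5321) (srcRow_spec h.h.two (qL5331_2 h) (nf5321 h) wf5321) (zf_spec _) (zf_spec _)) kb5331 co5331 u5331 el5331
theorem ez5331 : ∀ k, 0 ≤ k → e5331 a b c d k = 0 := eOf_ge _ (wfT_D wf5331).2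
theorem lL5331_0 (h : Q A a b c d) : ∀ v, a * vec (e4331 a b c d) v = vec (e5331 a b c d) (appM L5331_0 v) :=
  table_sound2 h.h.two (qL5331_0 h) (nf5331 h) kv5331_0 kL5331_0
theorem lL5331_2 (h : Q A a b c d) : ∀ v, c * vec (e5321 a b c d) v = vec (e5331 a b c d) (appM L5331_2 v) :=
  table_sound2 h.h.two (qL5331_2 h) (nf5331 h) kv5331_2 kL5331_2
theorem w5331 (h : Q A a b c d) : WP ![5, 3, 3, 1] ![a, b, c, d] (e5331 a b c d) :=
  wp_step4 (nf5331 h) (by decide) (Or.inr ⟨_, wp0123 (w4331 h), wp_r ez4331 y5331_0⟩) (Or.inr ⟨_, wp0213 (w5321 h.p0213), wp_r ez5321 y5331_1⟩) (Or.inr ⟨_, wp0123 (w5321 h), wp_r ez5321 y5331_2⟩) (Or.inr ⟨_, wp0123 (z5330 h), wp_z (fun _ _ => rfl)⟩)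

theorem qL5322_0 (h : Q A a b c d) : List.Forall₂ (EntOk a (symOf (ps5322 a b c d)))
    (ps4322 a b c d) pL5322_0 :=
  (.cons (ent_i rfl rfl (ops_L (lL4322_0 h) (ops_nil _)) ez4322 y5322_0) (.cons (ent_i rfl rfl (ops_L (lL5222_0 h) (ops_nil _)) ez5222 y5322_1) (.cons (ent_i rfl rfl (ops_L (lL5321_0 h.p0132) (ops_nil _)) ez5321 y5322_2) (.cons (ent_i rfl rfl (ops_L (lL5321_0 h) (ops_nil _)) ez5321 y5322_3) .nil))))
theorem qL5322_1 (h : Q A a b c d) : List.Forall₂ (EntOk b (symOf (ps5322 a b c d)))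
    (ps5222 a b c d) pL5322_1 :=
  (.cons (ent_i rfl rfl (ops_L (lL4322_1 h) (ops_nil _)) ez4322 y5322_0) (.cons (ent_i rfl rfl (ops_L (lL5222_3 h.p0231) (ops_S (sS5222_2 h.p0231) (ops_S (sS5222_3 h.p0321) (ops_S (sS5222_2 h) (ops_S (sS5222_2 h.p0213) (ops_nil _)))))) ez5222 y5322_1) (.cons (ent_i rfl rfl (ops_L (lL5321_1 h.p0132) (ops_nil _)) ez5321 y5322_2) (.cons (ent_i rfl rfl (ops_L (lL5321_1 h) (ops_nil _)) ez5321 y5322_3) .nil))))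
theorem qL5322_2 (h : Q A a b c d) : List.Forall₂ (EntOk c (symOf (ps5322 a b c d)))
    (ps5321 a b d c) pL5322_2 :=
  (.cons (ent_i rfl rfl (ops_L (lL4322_3 h.p0132) (ops_S (sS4322_3 h.p0132) (ops_nil _))) ez4322 y5322_0) (.cons (ent_i rfl rfl (ops_L (lL5222_3 h.p0132) (ops_S (sS5222_2 h.p0132) (ops_S (sS5222_3 h.p0312) (ops_S (sS5222_2 h.p0213) (ops_nil _))))) ez5222 y5322_1) (.cons (ent_n ez5311) (.cons (ent_n ez5320) .nil))))
theorem qL5322_3 (h : Q A a b c d) : List.Forall₂ (EntOk d (symOf (ps5322 a b c d)))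
    (ps5321 a b c d) pL5322_3 :=
  (.cons (ent_i rfl rfl (ops_L (lL4322_3 h) (ops_nil _)) ez4322 y5322_0) (.cons (ent_i rfl rfl (ops_L (lL5222_3 h) (ops_nil _)) ez5222 y5322_1) (.cons (ent_n ez5311) (.cons (ent_n ez5320) .nil))))
theorem nf5322 (h : Q A a b c d) : ∀ r, vec (symOf (ps5322 a b c d)) r = vec (e5322 a b c d) (appM N5322 r) :=
  block_sound2 h.h.two (ps := ps5322 a b c d) (ns := 526) rfl (raw5 (srcRow_spec h.h.two (qL5322_0 h) (nf4322 h) wf4322) (srcRow_spec h.h.two (qL5322_1 h) (nf5222 h) wf5222) (srcRow_spec h.h.two (qL5322_2 h) (nf5321 h.p0132) wf5321) (srcRow_spec h.h.two (qL5322_3 h) (nf5321 h) wf5321) (zf_spec _)) kb5322 co5322 u5322 el5322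
theorem ez5322 : ∀ k, 81 ≤ k → e5322 a b c d k = 0 := eOf_ge _ (wfT_D wf5322).2
theorem qS5322_3 (h : Q A a b c d) : List.Forall₂ (EntOk 1 (symOf (ps5322 a b c d)))
    (ps5322 a b d c) pS5322_3 :=
  (.cons (ent_i rfl rfl (ops_S (sS4322_3 h.p0132) (ops_nil _)) ez4322 y5322_0) (.cons (ent_i rfl rfl (ops_S (sS5222_2 h.p0132) (ops_S (sS5222_3 h.p0312) (ops_S (sS5222_2 h.p0213) (ops_nil _)))) ez5222 y5322_1) (.cons (ent_i rfl rfl (ops_nil _) ez5321 y5322_3) (.cons (ent_i rfl rfl (ops_nil _) ez5321 y5322_2) .nil))))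
theorem sS5322_3 (h : Q A a b c d) : ∀ v, vec (e5322 a b c d) v = vec (e5322 a b d c) (appM S5322_3 v) :=
  fun v => (one_mul _).symm.trans (table_sound2 h.h.two (qS5322_3 h.p0132) (nf5322 h.p0132) kw5322_3 kS5322_3 v)
theorem lL5322_0 (h : Q A a b c d) : ∀ v, a * vec (e4322 a b c d) v = vec (e5322 a b c d) (appM L5322_0 v) :=
  table_sound2 h.h.two (qL5322_0 h) (nf5322 h) kv5322_0 kL5322_0
theorem lL5322_1 (h : Q A a b c d) : ∀ v, b * vec (e5222 a b c d) v = vec (e5322 a b c d) (appM L5322_1 v) :=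
  table_sound2 h.h.two (qL5322_1 h) (nf5322 h) kv5322_1 kL5322_1
theorem lL5322_3 (h : Q A a b c d) : ∀ v, d * vec (e5321 a b c d) v = vec (e5322 a b c d) (appM L5322_3 v) :=
  table_sound2 h.h.two (qL5322_3 h) (nf5322 h) kv5322_3 kL5322_3
theorem w5322 (h : Q A a b c d) : WP ![5, 3, 2, 2] ![a, b, c, d] (e5322 a b c d) :=
  wp_step4 (nf5322 h) (by decide) (Or.inr ⟨_, wp0123 (w4322 h), wp_r ez4322 y5322_0⟩) (Or.inr ⟨_, wp0123 (w5222 h), wp_r ez5222 y5322_1⟩) (Or.inr ⟨_, wp0132 (w5321 h.p0132), wp_r ez5321 y5322_2⟩) (Or.inr ⟨_, wp0123 (w5321 h), wp_r ez5321 y5322_3⟩)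

theorem qL4431_0 (h : Q A a b c d) : List.Forall₂ (EntOk a (symOf (ps4431 a b c d)))
    (ps4331 b a c d) pL4431_0 :=
  (.cons (ent_i rfl rfl (ops_S (sS3331_1 h.p1023) (ops_L (lL4331_0 h) (ops_nil _))) ez4331 y4431_1) (.cons (ent_i rfl rfl (ops_L (lL4331_2 h.p1203) (ops_S (sS4331_2 h.p1203) (ops_nil _))) ez4331 y4431_0) (.cons (ent_i rfl rfl (ops_L (lL4421_1 h.p1023) (ops_S (sS4421_1 h.p1023) (ops_nil _))) ez4421 y4431_2) (.cons (ent_n ez4330) .nil))))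
theorem qL4431_1 (h : Q A a b c d) : List.Forall₂ (EntOk b (symOf (ps4431 a b c d)))
    (ps4331 a b c d) pL4431_1 :=
  (.cons (ent_i rfl rfl (ops_S (sS3331_1 h) (ops_L (lL4331_0 h.p1023) (ops_nil _))) ez4331 y4431_0) (.cons (ent_i rfl rfl (ops_L (lL4331_2 h.p0213) (ops_S (sS4331_2 h.p0213) (ops_nil _))) ez4331 y4431_1) (.cons (ent_i rfl rfl (ops_L (lL4421_1 h) (ops_nil _)) ez4421 y4431_2) (.cons (ent_n ez4330) .nil))))
theorem qL4431_2 (h : Q A a b c d) : List.Forall₂ (EntOk c (symOf (ps4431 a b c d)))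
    (ps4421 a b c d) pL4431_2 :=
  (.cons (ent_i rfl rfl (ops_L (lL4331_2 h.p1023) (ops_nil _)) ez4331 y4431_0) (.cons (ent_i rfl rfl (ops_L (lL4331_2 h) (ops_nil _)) ez4331 y4431_1) (.cons (ent_n ez4411) (.cons (ent_n ez4420) .nil))))
theorem nf4431 (h : Q A a b c d) : ∀ r, vec (symOf (ps4431 a b c d)) r = vec (e4431 a b c d) (appM N4431 r) :=
  block_sound2 h.h.two (ps := ps4431 a b c d) (ns := 94) rfl (raw5 (srcRow_spec h.h.two (qL4431_0 h) (nf4331 h.p1023) wf4331) (srcRow_spec h.h.two (qL4431_1 h) (nf4331 h) wf4331) (srcRow_spec h.h.two (qL4431_2 h) (nf4421 h) wf4421) (zf_spec _) (zf_spec _)) kb4431 co4431 u4431 el4431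
theorem ez4431 : ∀ k, 4 ≤ k → e4431 a b c d k = 0 := eOf_ge _ (wfT_D wf4431).2
theorem qS4431_1 (h : Q A a b c d) : List.Forall₂ (EntOk 1 (symOf (ps4431 a b c d)))
    (ps4431 b a c d) pS4431_1 :=
  (.cons (ent_i rfl rfl (ops_nil _) ez4331 y4431_1) (.cons (ent_i rfl rfl (ops_nil _) ez4331 y4431_0) (.cons (ent_i rfl rfl (ops_S (sS4421_1 h.p1023) (ops_nil _)) ez4421 y4431_2) .nil)))
theorem sS4431_1 (h : Q A a b c d) : ∀ v, vec (e4431 a b c d) v = vec (e4431 b a c d) (appM S4431_1 v) :=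
  fun v => (one_mul _).symm.trans (table_sound2 h.h.two (qS4431_1 h.p1023) (nf4431 h.p1023) kw4431_1 kS4431_1 v)
theorem lL4431_1 (h : Q A a b c d) : ∀ v, b * vec (e4331 a b c d) v = vec (e4431 a b c d) (appM L4431_1 v) :=
  table_sound2 h.h.two (qL4431_1 h) (nf4431 h) kv4431_1 kL4431_1
theorem lL4431_2 (h : Q A a b c d) : ∀ v, c * vec (e4421 a b c d) v = vec (e4431 a b c d) (appM L4431_2 v) :=
  table_sound2 h.h.two (qL4431_2 h) (nf4431 h) kv4431_2 kL4431_2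
theorem w4431 (h : Q A a b c d) : WP ![4, 4, 3, 1] ![a, b, c, d] (e4431 a b c d) :=
  wp_step4 (nf4431 h) (by decide) (Or.inr ⟨_, wp1023 (w4331 h.p1023), wp_r ez4331 y4431_0⟩) (Or.inr ⟨_, wp0123 (w4331 h), wp_r ez4331 y4431_1⟩) (Or.inr ⟨_, wp0123 (w4421 h), wp_r ez4421 y4431_2⟩) (Or.inr ⟨_, wp0123 (z4430 h), wp_z (fun _ _ => rfl)⟩)

theorem qL4422_0 (h : Q A a b c d) : List.Forall₂ (EntOk a (symOf (ps4422 a b c d)))
    (ps4322 b a c d) pL4422_0 :=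
  (.cons (ent_i rfl rfl (ops_S (sS3322_1 h.p1023) (ops_L (lL4322_0 h) (ops_nil _))) ez4322 y4422_1) (.cons (ent_i rfl rfl (ops_L (lL4322_1 h.p1023) (ops_nil _)) ez4322 y4422_0) (.cons (ent_i rfl rfl (ops_L (lL4421_1 h.p1032) (ops_S (sS4421_1 h.p1032) (ops_nil _))) ez4421 y4422_2) (.cons (ent_i rfl rfl (ops_L (lL4421_1 h.p1023) (ops_S (sS4421_1 h.p1023) (ops_nil _))) ez4421 y4422_3) .nil))))
theorem qL4422_1 (h : Q A a b c d) : List.Forall₂ (EntOk b (symOf (ps4422 a b c d)))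
    (ps4322 a b c d) pL4422_1 :=
  (.cons (ent_i rfl rfl (ops_S (sS3322_1 h) (ops_L (lL4322_0 h.p1023) (ops_nil _))) ez4322 y4422_0) (.cons (ent_i rfl rfl (ops_L (lL4322_1 h) (ops_nil _)) ez4322 y4422_1) (.cons (ent_i rfl rfl (ops_L (lL4421_1 h.p0132) (ops_nil _)) ez4421 y4422_2) (.cons (ent_i rfl rfl (ops_L (lL4421_1 h) (ops_nil _)) ez4421 y4422_3) .nil))))
theorem qL4422_2 (h : Q A a b c d) : List.Forall₂ (EntOk c (symOf (ps4422 a b c d)))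
    (ps4421 a b d c) pL4422_2 :=
  (.cons (ent_i rfl rfl (ops_L (lL4322_3 h.p1032) (ops_S (sS4322_3 h.p1032) (ops_nil _))) ez4322 y4422_0) (.cons (ent_i rfl rfl (ops_L (lL4322_3 h.p0132) (ops_S (sS4322_3 h.p0132) (ops_nil _))) ez4322 y4422_1) (.cons (ent_n ez4411) (.cons (ent_n ez4420) .nil))))
theorem qL4422_3 (h : Q A a b c d) : List.Forall₂ (EntOk d (symOf (ps4422 a b c d)))
    (ps4421 a b c d) pL4422_3 :=
  (.cons (ent_i rfl rfl (ops_L (lL4322_3 h.p1023) (ops_nil _)) ez4322 y4422_0) (.cons (ent_i rfl rfl (ops_L (lL4322_3 h) (ops_nil _)) ez4322 y4422_1) (.cons (ent_n ez4411) (.cons (ent_n ez4420) .nil))))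
theorem nf4422 (h : Q A a b c d) : ∀ r, vec (symOf (ps4422 a b c d)) r = vec (e4422 a b c d) (appM N4422 r) :=
  block_sound2 h.h.two (ps := ps4422 a b c d) (ns := 788) rfl (raw5 (srcRow_spec h.h.two (qL4422_0 h) (nf4322 h.p1023) wf4322) (srcRow_spec h.h.two (qL4422_1 h) (nf4322 h) wf4322) (srcRow_spec h.h.two (qL4422_2 h) (nf4421 h.p0132) wf4421) (srcRow_spec h.h.two (qL4422_3 h) (nf4421 h) wf4421) (zf_spec _)) kb4422 co4422 u4422 el4422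
theorem ez4422 : ∀ k, 154 ≤ k → e4422 a b c d k = 0 := eOf_ge _ (wfT_D wf4422).2
theorem qS4422_1 (h : Q A a b c d) : List.Forall₂ (EntOk 1 (symOf (ps4422 a b c d)))
    (ps4422 b a c d) pS4422_1 :=
  (.cons (ent_i rfl rfl (ops_nil _) ez4322 y4422_1) (.cons (ent_i rfl rfl (ops_nil _) ez4322 y4422_0) (.cons (ent_i rfl rfl (ops_S (sS4421_1 h.p1032) (ops_nil _)) ez4421 y4422_2) (.cons (ent_i rfl rfl (ops_S (sS4421_1 h.p1023) (ops_nil _)) ez4421 y4422_3) .nil))))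
theorem sS4422_1 (h : Q A a b c d) : ∀ v, vec (e4422 a b c d) v = vec (e4422 b a c d) (appM S4422_1 v) :=
  fun v => (one_mul _).symm.trans (table_sound2 h.h.two (qS4422_1 h.p1023) (nf4422 h.p1023) kw4422_1 kS4422_1 v)
theorem qS4422_3 (h : Q A a b c d) : List.Forall₂ (EntOk 1 (symOf (ps4422 a b c d)))
    (ps4422 a b d c) pS4422_3 :=
  (.cons (ent_i rfl rfl (ops_S (sS4322_3 h.p1032) (ops_nil _)) ez4322 y4422_0) (.cons (ent_i rfl rfl (ops_S (sS4322_3 h.p0132) (ops_nil _)) ez4322 y4422_1) (.cons (ent_i rfl rfl (ops_nil _) ez4421 y4422_3) (.cons (ent_i rfl rfl (ops_nil _) ez4421 y4422_2) .nil))))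
theorem sS4422_3 (h : Q A a b c d) : ∀ v, vec (e4422 a b c d) v = vec (e4422 a b d c) (appM S4422_3 v) :=
  fun v => (one_mul _).symm.trans (table_sound2 h.h.two (qS4422_3 h.p0132) (nf4422 h.p0132) kw4422_3 kS4422_3 v)
theorem lL4422_1 (h : Q A a b c d) : ∀ v, b * vec (e4322 a b c d) v = vec (e4422 a b c d) (appM L4422_1 v) :=
  table_sound2 h.h.two (qL4422_1 h) (nf4422 h) kv4422_1 kL4422_1
theorem lL4422_3 (h : Q A a b c d) : ∀ v, d * vec (e4421 a b c d) v = vec (e4422 a b c d) (appM L4422_3 v) :=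
  table_sound2 h.h.two (qL4422_3 h) (nf4422 h) kv4422_3 kL4422_3
theorem w4422 (h : Q A a b c d) : WP ![4, 4, 2, 2] ![a, b, c, d] (e4422 a b c d) :=
  wp_step4 (nf4422 h) (by decide) (Or.inr ⟨_, wp1023 (w4322 h.p1023), wp_r ez4322 y4422_0⟩) (Or.inr ⟨_, wp0123 (w4322 h), wp_r ez4322 y4422_1⟩) (Or.inr ⟨_, wp0132 (w4421 h.p0132), wp_r ez4421 y4422_2⟩) (Or.inr ⟨_, wp0123 (w4421 h), wp_r ez4421 y4422_3⟩)

theorem qL4332_0 (h : Q A a b c d) : List.Forall₂ (EntOk a (symOf (ps4332 a b c d)))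
    (ps3332 a b c d) pL4332_0 :=
  (.cons (ent_i rfl rfl (ops_L (lL3332_2 h.p1203) (ops_S (sS3332_1 h.p1203) (ops_S (sS3332_2 h.p2103) (ops_S (sS3332_1 h) (ops_S (sS3332_1 h.p1023) (ops_nil _)))))) ez3332 y4332_0) (.cons (ent_i rfl rfl (ops_L (lL4322_0 h.p0213) (ops_nil _)) ez4322 y4332_1) (.cons (ent_i rfl rfl (ops_L (lL4322_0 h) (ops_nil _)) ez4322 y4332_2) (.cons (ent_i rfl rfl (ops_L (lL4331_0 h) (ops_nil _)) ez4331 y4332_3) .nil))))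
theorem qL4332_1 (h : Q A a b c d) : List.Forall₂ (EntOk b (symOf (ps4332 a b c d)))
    (ps4322 a c b d) pL4332_1 :=
  (.cons (ent_i rfl rfl (ops_L (lL3332_2 h.p0213) (ops_S (sS3332_1 h.p0213) (ops_S (sS3332_2 h.p2013) (ops_S (sS3332_1 h.p1023) (ops_nil _))))) ez3332 y4332_0) (.cons (ent_i rfl rfl (ops_S (sS4222_2 h.p0213) (ops_L (lL4322_1 h) (ops_nil _))) ez4322 y4332_2) (.cons (ent_i rfl rfl (ops_L (lL4322_3 h.p0231) (ops_S (sS4322_3 h.p0231) (ops_nil _))) ez4322 y4332_1) (.cons (ent_i rfl rfl (ops_L (lL4331_2 h.p0213) (ops_S (sS4331_2 h.p0213) (ops_nil _))) ez4331 y4332_3) .nil))))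
theorem qL4332_2 (h : Q A a b c d) : List.Forall₂ (EntOk c (symOf (ps4332 a b c d)))
    (ps4322 a b c d) pL4332_2 :=
  (.cons (ent_i rfl rfl (ops_L (lL3332_2 h) (ops_nil _)) ez3332 y4332_0) (.cons (ent_i rfl rfl (ops_S (sS4222_2 h) (ops_L (lL4322_1 h.p0213) (ops_nil _))) ez4322 y4332_1) (.cons (ent_i rfl rfl (ops_L (lL4322_3 h.p0132) (ops_S (sS4322_3 h.p0132) (ops_nil _))) ez4322 y4332_2) (.cons (ent_i rfl rfl (ops_L (lL4331_2 h) (ops_nil _)) ez4331 y4332_3) .nil))))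
theorem qL4332_3 (h : Q A a b c d) : List.Forall₂ (EntOk d (symOf (ps4332 a b c d)))
    (ps4331 a b c d) pL4332_3 :=
  (.cons (ent_i rfl rfl (ops_L (lL3332_3 h) (ops_nil _)) ez3332 y4332_0) (.cons (ent_i rfl rfl (ops_L (lL4322_3 h.p0213) (ops_nil _)) ez4322 y4332_1) (.cons (ent_i rfl rfl (ops_L (lL4322_3 h) (ops_nil _)) ez4322 y4332_2) (.cons (ent_n ez4330) .nil))))
theorem nf4332 (h : Q A a b c d) : ∀ r, vec (symOf (ps4332 a b c d)) r = vec (e4332 a b c d) (appM N4332 r) :=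
  block_sound2 h.h.two (ps := ps4332 a b c d) (ns := 1559) rfl (raw5 (srcRow_spec h.h.two (qL4332_0 h) (nf3332 h) wf3332) (srcRow_spec h.h.two (qL4332_1 h) (nf4322 h.p0213) wf4322) (srcRow_spec h.h.two (qL4332_2 h) (nf4322 h) wf4322) (srcRow_spec h.h.two (qL4332_3 h) (nf4331 h) wf4331) (zf_spec _)) kb4332 co4332 u4332 el4332
theorem ez4332 : ∀ k, 303 ≤ k → e4332 a b c d k = 0 := eOf_ge _ (wfT_D wf4332).2
theorem qS4332_2 (h : Q A a b c d) : List.Forall₂ (EntOk 1 (symOf (ps4332 a b c d)))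
    (ps4332 a c b d) pS4332_2 :=
  (.cons (ent_i rfl rfl (ops_S (sS3332_1 h.p0213) (ops_S (sS3332_2 h.p2013) (ops_S (sS3332_1 h.p1023) (ops_nil _)))) ez3332 y4332_0) (.cons (ent_i rfl rfl (ops_nil _) ez4322 y4332_2) (.cons (ent_i rfl rfl (ops_nil _) ez4322 y4332_1) (.cons (ent_i rfl rfl (ops_S (sS4331_2 h.p0213) (ops_nil _)) ez4331 y4332_3) .nil))))
theorem sS4332_2 (h : Q A a b c d) : ∀ v, vec (e4332 a b c d) v = vec (e4332 a c b d) (appM S4332_2 v) :=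
  fun v => (one_mul _).symm.trans (table_sound2 h.h.two (qS4332_2 h.p0213) (nf4332 h.p0213) kw4332_2 kS4332_2 v)
theorem lL4332_0 (h : Q A a b c d) : ∀ v, a * vec (e3332 a b c d) v = vec (e4332 a b c d) (appM L4332_0 v) :=
  table_sound2 h.h.two (qL4332_0 h) (nf4332 h) kv4332_0 kL4332_0
theorem lL4332_2 (h : Q A a b c d) : ∀ v, c * vec (e4322 a b c d) v = vec (e4332 a b c d) (appM L4332_2 v) :=
  table_sound2 h.h.two (qL4332_2 h) (nf4332 h) kv4332_2 kL4332_2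
theorem lL4332_3 (h : Q A a b c d) : ∀ v, d * vec (e4331 a b c d) v = vec (e4332 a b c d) (appM L4332_3 v) :=
  table_sound2 h.h.two (qL4332_3 h) (nf4332 h) kv4332_3 kL4332_3
theorem w4332 (h : Q A a b c d) : WP ![4, 3, 3, 2] ![a, b, c, d] (e4332 a b c d) :=
  wp_step4 (nf4332 h) (by decide) (Or.inr ⟨_, wp0123 (w3332 h), wp_r ez3332 y4332_0⟩) (Or.inr ⟨_, wp0213 (w4322 h.p0213), wp_r ez4322 y4332_1⟩) (Or.inr ⟨_, wp0123 (w4322 h), wp_r ez4322 y4332_2⟩) (Or.inr ⟨_, wp0123 (w4331 h), wp_r ez4331 y4332_3⟩)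

theorem qL3333_0 (h : Q A a b c d) : List.Forall₂ (EntOk a (symOf (ps3333 a b c d)))
    (ps3332 b c d a) pL3333_0 :=
  (.cons (ent_i rfl rfl (ops_S (sS3322_3 h.p2310) (ops_L (lL3332_2 h.p2301) (ops_S (sS3332_1 h.p2301) (ops_S (sS3332_2 h.p3201) (ops_S (sS3332_1 h.p0231) (ops_S (sS3332_1 h.p2031) (ops_nil _))))))) ez3332 y3333_1) (.cons (ent_i rfl rfl (ops_S (sS3322_3 h.p1320) (ops_L (lL3332_2 h.p1302) (ops_S (sS3332_1 h.p1302) (ops_S (sS3332_2 h.p3102) (ops_S (sS3332_1 h.p0132) (ops_S (sS3332_1 h.p1032) (ops_nil _))))))) ez3332 y3333_2) (.cons (ent_i rfl rfl (ops_S (sS3322_3 h.p1230) (ops_L (lL3332_2 h.p1203) (ops_S (sS3332_1 h.p1203) (ops_S (sS3332_2 h.p2103) (ops_S (sS3332_1 h) (ops_S (sS3332_1 h.p1023) (ops_nil _))))))) ez3332 y3333_3) (.cons (ent_i rfl rfl (ops_L (lL3332_3 h.p1230) (ops_nil _)) ez3332 y3333_0) .nil))))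
theorem qL3333_1 (h : Q A a b c d) : List.Forall₂ (EntOk b (symOf (ps3333 a b c d)))
    (ps3332 a c d b) pL3333_1 :=
  (.cons (ent_i rfl rfl (ops_S (sS3322_3 h.p2301) (ops_L (lL3332_2 h.p2310) (ops_S (sS3332_1 h.p2310) (ops_S (sS3332_2 h.p3210) (ops_S (sS3332_1 h.p1230) (ops_S (sS3332_1 h.p2130) (ops_nil _))))))) ez3332 y3333_0) (.cons (ent_i rfl rfl (ops_S (sS3322_3 h.p0321) (ops_L (lL3332_2 h.p0312) (ops_S (sS3332_1 h.p0312) (ops_S (sS3332_2 h.p3012) (ops_S (sS3332_1 h.p1032) (ops_nil _)))))) ez3332 y3333_2) (.cons (ent_i rfl rfl (ops_S (sS3322_3 h.p0231) (ops_L (lL3332_2 h.p0213) (ops_S (sS3332_1 h.p0213) (ops_S (sS3332_2 h.p2013) (ops_S (sS3332_1 h.p1023) (ops_nil _)))))) ez3332 y3333_3) (.cons (ent_i rfl rfl (ops_L (lL3332_3 h.p0231) (ops_nil _)) ez3332 y3333_1) .nil))))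
theorem qL3333_2 (h : Q A a b c d) : List.Forall₂ (EntOk c (symOf (ps3333 a b c d)))
    (ps3332 a b d c) pL3333_2 :=
  (.cons (ent_i rfl rfl (ops_S (sS3322_3 h.p1302) (ops_L (lL3332_2 h.p1320) (ops_S (sS3332_1 h.p1320) (ops_S (sS3332_2 h.p3120) (ops_S (sS3332_1 h.p2130) (ops_nil _)))))) ez3332 y3333_0) (.cons (ent_i rfl rfl (ops_S (sS3322_3 h.p0312) (ops_L (lL3332_2 h.p0321) (ops_S (sS3332_1 h.p0321) (ops_S (sS3332_2 h.p3021) (ops_S (sS3332_1 h.p2031) (ops_nil _)))))) ez3332 y3333_1) (.cons (ent_i rfl rfl (ops_S (sS3322_3 h.p0132) (ops_L (lL3332_2 h) (ops_nil _))) ez3332 y3333_3) (.cons (ent_i rfl rfl (ops_L (lL3332_3 h.p0132) (ops_nil _)) ez3332 y3333_2) .nil))))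
theorem qL3333_3 (h : Q A a b c d) : List.Forall₂ (EntOk d (symOf (ps3333 a b c d)))
    (ps3332 a b c d) pL3333_3 :=
  (.cons (ent_i rfl rfl (ops_S (sS3322_3 h.p1203) (ops_L (lL3332_2 h.p1230) (ops_nil _))) ez3332 y3333_0) (.cons (ent_i rfl rfl (ops_S (sS3322_3 h.p0213) (ops_L (lL3332_2 h.p0231) (ops_nil _))) ez3332 y3333_1) (.cons (ent_i rfl rfl (ops_S (sS3322_3 h) (ops_L (lL3332_2 h.p0132) (ops_nil _))) ez3332 y3333_2) (.cons (ent_i rfl rfl (ops_L (lL3332_3 h) (ops_nil _)) ez3332 y3333_3) .nil))))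
theorem nf3333 (h : Q A a b c d) : ∀ r, vec (symOf (ps3333 a b c d)) r = vec (e3333 a b c d) (appM N3333 r) :=
  block_sound2 h.h.two (ps := ps3333 a b c d) (ns := 3096) rfl (raw5 (srcRow_spec h.h.two (qL3333_0 h) (nf3332 h.p1230) wf3332) (srcRow_spec h.h.two (qL3333_1 h) (nf3332 h.p0231) wf3332) (srcRow_spec h.h.two (qL3333_2 h) (nf3332 h.p0132) wf3332) (srcRow_spec h.h.two (qL3333_3 h) (nf3332 h) wf3332) (zf_spec _)) kb3333 co3333 u3333 el3333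
theorem ez3333 : ∀ k, 848 ≤ k → e3333 a b c d k = 0 := eOf_ge _ (wfT_D wf3333).2
theorem qS3333_1 (h : Q A a b c d) : List.Forall₂ (EntOk 1 (symOf (ps3333 a b c d)))
    (ps3333 b a c d) pS3333_1 :=
  (.cons (ent_i rfl rfl (ops_nil _) ez3332 y3333_1) (.cons (ent_i rfl rfl (ops_nil _) ez3332 y3333_0) (.cons (ent_i rfl rfl (ops_S (sS3332_1 h.p1032) (ops_nil _)) ez3332 y3333_2) (.cons (ent_i rfl rfl (ops_S (sS3332_1 h.p1023) (ops_nil _)) ez3332 y3333_3) .nil))))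
theorem sS3333_1 (h : Q A a b c d) : ∀ v, vec (e3333 a b c d) v = vec (e3333 b a c d) (appM S3333_1 v) :=
  fun v => (one_mul _).symm.trans (table_sound2 h.h.two (qS3333_1 h.p1023) (nf3333 h.p1023) kw3333_1 kS3333_1 v)
theorem qS3333_2 (h : Q A a b c d) : List.Forall₂ (EntOk 1 (symOf (ps3333 a b c d)))
    (ps3333 c b a d) pS3333_2 :=
  (.cons (ent_i rfl rfl (ops_S (sS3332_1 h.p1032) (ops_nil _)) ez3332 y3333_2) (.cons (ent_i rfl rfl (ops_S (sS3332_1 h.p2031) (ops_nil _)) ez3332 y3333_1) (.cons (ent_i rfl rfl (ops_S (sS3332_1 h.p2130) (ops_nil _)) ez3332 y3333_0) (.cons (ent_i rfl rfl (ops_S (sS3332_2 h.p2103) (ops_nil _)) ez3332 y3333_3) .nil))))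
theorem sS3333_2 (h : Q A a b c d) : ∀ v, vec (e3333 a b c d) v = vec (e3333 c b a d) (appM S3333_2 v) :=
  fun v => (one_mul _).symm.trans (table_sound2 h.h.two (qS3333_2 h.p2103) (nf3333 h.p2103) kw3333_2 kS3333_2 v)
theorem qS3333_3 (h : Q A a b c d) : List.Forall₂ (EntOk 1 (symOf (ps3333 a b c d)))
    (ps3333 d b c a) pS3333_3 :=
  (.cons (ent_i rfl rfl (ops_S (sS3332_1 h.p1203) (ops_S (sS3332_2 h.p2103) (ops_S (sS3332_1 h) (ops_S (sS3332_1 h.p1023) (ops_nil _))))) ez3332 y3333_3) (.cons (ent_i rfl rfl (ops_S (sS3332_2 h.p3201) (ops_nil _)) ez3332 y3333_1) (.cons (ent_i rfl rfl (ops_S (sS3332_2 h.p3102) (ops_nil _)) ez3332 y3333_2) (.cons (ent_i rfl rfl (ops_S (sS3332_1 h.p3120) (ops_S (sS3332_2 h.p1320) (ops_S (sS3332_1 h.p2310) (ops_S (sS3332_2 h.p3210) (ops_nil _))))) ez3332 y3333_0) .nil))))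
theorem sS3333_3 (h : Q A a b c d) : ∀ v, vec (e3333 a b c d) v = vec (e3333 d b c a) (appM S3333_3 v) :=
  fun v => (one_mul _).symm.trans (table_sound2 h.h.two (qS3333_3 h.p3120) (nf3333 h.p3120) kw3333_3 kS3333_3 v)
theorem lL3333_3 (h : Q A a b c d) : ∀ v, d * vec (e3332 a b c d) v = vec (e3333 a b c d) (appM L3333_3 v) :=
  table_sound2 h.h.two (qL3333_3 h) (nf3333 h) kv3333_3 kL3333_3
theorem w3333 (h : Q A a b c d) : WP ![3, 3, 3, 3] ![a, b, c, d] (e3333 a b c d) :=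
  wp_step4 (nf3333 h) (by decide) (Or.inr ⟨_, wp1230 (w3332 h.p1230), wp_r ez3332 y3333_0⟩) (Or.inr ⟨_, wp0231 (w3332 h.p0231), wp_r ez3332 y3333_1⟩) (Or.inr ⟨_, wp0132 (w3332 h.p0132), wp_r ez3332 y3333_2⟩) (Or.inr ⟨_, wp0123 (w3332 h), wp_r ez3332 y3333_3⟩)

theorem z5440 (h : Q A a b c d) : WP ![5, 4, 4, 0] ![a, b, c, d] (zfam : ℕ → K) :=
  wp_step4 (F := fun r => r) (fun _ => rfl) (by decide) (Or.inr ⟨_, wp0123 (z4440 h), wp_z (fun _ _ => rfl)⟩) (Or.inr ⟨_, wp0213 (z5430 h.p0213), wp_z (fun _ _ => rfl)⟩) (Or.inr ⟨_, wp0123 (z5430 h), wp_z (fun _ _ => rfl)⟩) (Or.inl rfl)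
theorem z5530 (h : Q A a b c d) : WP ![5, 5, 3, 0] ![a, b, c, d] (zfam : ℕ → K) :=
  wp_step4 (F := fun r => r) (fun _ => rfl) (by decide) (Or.inr ⟨_, wp1023 (z5430 h.p1023), wp_z (fun _ _ => rfl)⟩) (Or.inr ⟨_, wp0123 (z5430 h), wp_z (fun _ _ => rfl)⟩) (Or.inr ⟨_, wp0123 (z5520 h), wp_z (fun _ _ => rfl)⟩) (Or.inl rfl)
theorem z6331 (h : Q A a b c d) : WP ![6, 3, 3, 1] ![a, b, c, d] (zfam : ℕ → K) :=
  wp_step4 (F := fun r => r) (fun _ => rfl) (by decide) (Or.inr ⟨_, wp0123 (w5331 h), wp_z ez5331⟩) (Or.inr ⟨_, wp0213 (w6321 h.p0213), wp_z ez6321⟩) (Or.inr ⟨_, wp0123 (w6321 h), wp_z ez6321⟩) (Or.inr ⟨_, wp0123 (z6330 h), wp_z (fun _ _ => rfl)⟩)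
theorem z6430 (h : Q A a b c d) : WP ![6, 4, 3, 0] ![a, b, c, d] (zfam : ℕ → K) :=
  wp_step4 (F := fun r => r) (fun _ => rfl) (by decide) (Or.inr ⟨_, wp0123 (z5430 h), wp_z (fun _ _ => rfl)⟩) (Or.inr ⟨_, wp0123 (z6330 h), wp_z (fun _ _ => rfl)⟩) (Or.inr ⟨_, wp0123 (z6420 h), wp_z (fun _ _ => rfl)⟩) (Or.inl rfl)
theorem z6511 (h : Q A a b c d) : WP ![6, 5, 1, 1] ![a, b, c, d] (zfam : ℕ → K) :=
  wp_step4 (F := fun r => r) (fun _ => rfl) (by decide) (Or.inr ⟨_, wp0123 (z5511 h), wp_z (fun _ _ => rfl)⟩) (Or.inr ⟨_, wp0123 (z6411 h), wp_z (fun _ _ => rfl)⟩) (Or.inr ⟨_, wp0132 (z6510 h.p0132), wp_z (fun _ _ => rfl)⟩) (Or.inr ⟨_, wp0123 (z6510 h), wp_z (fun _ _ => rfl)⟩)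
theorem z6520 (h : Q A a b c d) : WP ![6, 5, 2, 0] ![a, b, c, d] (zfam : ℕ → K) :=
  wp_step4 (F := fun r => r) (fun _ => rfl) (by decide) (Or.inr ⟨_, wp0123 (z5520 h), wp_z (fun _ _ => rfl)⟩) (Or.inr ⟨_, wp0123 (z6420 h), wp_z (fun _ _ => rfl)⟩) (Or.inr ⟨_, wp0123 (z6510 h), wp_z (fun _ _ => rfl)⟩) (Or.inl rfl)
theorem z7321 (h : Q A a b c d) : WP ![7, 3, 2, 1] ![a, b, c, d] (zfam : ℕ → K) :=
  wp_step4 (F := fun r => r) (fun _ => rfl) (by decide) (Or.inr ⟨_, wp0123 (w6321 h), wp_z ez6321⟩) (Or.inr ⟨_, wp0123 (w7221 h), wp_z ez7221⟩) (Or.inr ⟨_, wp0123 (z7311 h), wp_z (fun _ _ => rfl)⟩) (Or.inr ⟨_, wp0123 (z7320 h), wp_z (fun _ _ => rfl)⟩)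
theorem z7411 (h : Q A a b c d) : WP ![7, 4, 1, 1] ![a, b, c, d] (zfam : ℕ → K) :=
  wp_step4 (F := fun r => r) (fun _ => rfl) (by decide) (Or.inr ⟨_, wp0123 (z6411 h), wp_z (fun _ _ => rfl)⟩) (Or.inr ⟨_, wp0123 (z7311 h), wp_z (fun _ _ => rfl)⟩) (Or.inr ⟨_, wp0132 (z7410 h.p0132), wp_z (fun _ _ => rfl)⟩) (Or.inr ⟨_, wp0123 (z7410 h), wp_z (fun _ _ => rfl)⟩)
theorem z7420 (h : Q A a b c d) : WP ![7, 4, 2, 0] ![a, b, c, d] (zfam : ℕ → K) :=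
  wp_step4 (F := fun r => r) (fun _ => rfl) (by decide) (Or.inr ⟨_, wp0123 (z6420 h), wp_z (fun _ _ => rfl)⟩) (Or.inr ⟨_, wp0123 (z7320 h), wp_z (fun _ _ => rfl)⟩) (Or.inr ⟨_, wp0123 (z7410 h), wp_z (fun _ _ => rfl)⟩) (Or.inl rfl)
theorem z8221 (h : Q A a b c d) : WP ![8, 2, 2, 1] ![a, b, c, d] (zfam : ℕ → K) :=
  wp_step4 (F := fun r => r) (fun _ => rfl) (by decide) (Or.inr ⟨_, wp0123 (w7221 h), wp_z ez7221⟩) (Or.inr ⟨_, wp0213 (z8211 h.p0213), wp_z (fun _ _ => rfl)⟩) (Or.inr ⟨_, wp0123 (z8211 h), wp_z (fun _ _ => rfl)⟩) (Or.inr ⟨_, wp0123 (z8220 h), wp_z (fun _ _ => rfl)⟩)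
theorem y7222_0 : ∀ k, k < 22 → symOf (ps7222 a b c d) (k + 0) = e6222 a b c d k * a :=
  sy_hd
theorem y6421_0 : ∀ k, k < 1 → symOf (ps6421 a b c d) (k + 0) = e5421 a b c d k * a :=
  sy_hd
theorem y6322_0 : ∀ k, k < 81 → symOf (ps6322 a b c d) (k + 0) = e5322 a b c d k * a :=
  sy_hd
theorem y6322_1 : ∀ k, k < 22 → symOf (ps6322 a b c d) (k + 81) = e6222 a b c d k * b :=
  sy_tl (o := 0) (o' := 81) (sy_hd) rfl
theorem y5521_0 : ∀ k, k < 1 → symOf (ps5521 a b c d) (k + 0) = e5421 b a c d k * a :=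
  sy_hd
theorem y5521_1 : ∀ k, k < 1 → symOf (ps5521 a b c d) (k + 1) = e5421 a b c d k * b :=
  sy_tl (o := 0) (o' := 1) (sy_hd) rfl
theorem y5431_0 : ∀ k, k < 4 → symOf (ps5431 a b c d) (k + 0) = e4431 a b c d k * a :=
  sy_hd
theorem y5431_2 : ∀ k, k < 1 → symOf (ps5431 a b c d) (k + 4) = e5421 a b c d k * c :=
  sy_tl (o := 0) (o' := 4) (sy_tl (o := 0) (o' := 0) (sy_hd) rfl) rfl
theorem y5422_0 : ∀ k, k < 154 → symOf (ps5422 a b c d) (k + 0) = e4422 a b c d k * a :=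
  sy_hd
theorem y5422_1 : ∀ k, k < 81 → symOf (ps5422 a b c d) (k + 154) = e5322 a b c d k * b :=
  sy_tl (o := 0) (o' := 154) (sy_hd) rfl
theorem y5422_2 : ∀ k, k < 1 → symOf (ps5422 a b c d) (k + 235) = e5421 a b d c k * c :=
  sy_tl (o := 81) (o' := 235) (sy_tl (o := 0) (o' := 81) (sy_hd) rfl) rfl
theorem y5422_3 : ∀ k, k < 1 → symOf (ps5422 a b c d) (k + 236) = e5421 a b c d k * d :=
  sy_tl (o := 82) (o' := 236) (sy_tl (o := 1) (o' := 82) (sy_tl (o := 0) (o' := 1) (sy_hd) rfl) rfl) rfl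
theorem y5332_0 : ∀ k, k < 303 → symOf (ps5332 a b c d) (k + 0) = e4332 a b c d k * a :=
  sy_hd
theorem y5332_1 : ∀ k, k < 81 → symOf (ps5332 a b c d) (k + 303) = e5322 a c b d k * b :=
  sy_tl (o := 0) (o' := 303) (sy_hd) rfl
theorem y5332_2 : ∀ k, k < 81 → symOf (ps5332 a b c d) (k + 384) = e5322 a b c d k * c :=
  sy_tl (o := 81) (o' := 384) (sy_tl (o := 0) (o' := 81) (sy_hd) rfl) rfl
theorem y4441_0 : ∀ k, k < 4 → symOf (ps4441 a b c d) (k + 0) = e4431 b c a d k * a :=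
  sy_hd
theorem y4441_1 : ∀ k, k < 4 → symOf (ps4441 a b c d) (k + 4) = e4431 a c b d k * b :=
  sy_tl (o := 0) (o' := 4) (sy_hd) rfl
theorem y4441_2 : ∀ k, k < 4 → symOf (ps4441 a b c d) (k + 8) = e4431 a b c d k * c :=
  sy_tl (o := 4) (o' := 8) (sy_tl (o := 0) (o' := 4) (sy_hd) rfl) rfl
theorem y4432_0 : ∀ k, k < 303 → symOf (ps4432 a b c d) (k + 0) = e4332 b a c d k * a :=
  sy_hd
theorem y4432_1 : ∀ k, k < 303 → symOf (ps4432 a b c d) (k + 303) = e4332 a b c d k * b :=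
  sy_tl (o := 0) (o' := 303) (sy_hd) rfl
theorem y4432_2 : ∀ k, k < 154 → symOf (ps4432 a b c d) (k + 606) = e4422 a b c d k * c :=
  sy_tl (o := 303) (o' := 606) (sy_tl (o := 0) (o' := 303) (sy_hd) rfl) rfl
theorem y4432_3 : ∀ k, k < 4 → symOf (ps4432 a b c d) (k + 760) = e4431 a b c d k * d :=
  sy_tl (o := 457) (o' := 760) (sy_tl (o := 154) (o' := 457) (sy_tl (o := 0) (o' := 154) (sy_hd) rfl) rfl) rfl
theorem y4333_0 : ∀ k, k < 848 → symOf (ps4333 a b c d) (k + 0) = e3333 a b c d k * a :=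
  sy_hd
theorem y4333_1 : ∀ k, k < 303 → symOf (ps4333 a b c d) (k + 848) = e4332 a c d b k * b :=
  sy_tl (o := 0) (o' := 848) (sy_hd) rfl
theorem y4333_2 : ∀ k, k < 303 → symOf (ps4333 a b c d) (k + 1151) = e4332 a b d c k * c :=
  sy_tl (o := 303) (o' := 1151) (sy_tl (o := 0) (o' := 303) (sy_hd) rfl) rfl
theorem y4333_3 : ∀ k, k < 303 → symOf (ps4333 a b c d) (k + 1454) = e4332 a b c d k * d :=
  sy_tl (o := 606) (o' := 1454) (sy_tl (o := 303) (o' := 606) (sy_tl (o := 0) (o' := 303) (sy_hd) rfl) rfl) rfl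
theorem qL7222_0 (h : Q A a b c d) : List.Forall₂ (EntOk a (symOf (ps7222 a b c d)))
    (ps6222 a b c d) pL7222_0 :=
  (.cons (ent_i rfl rfl (ops_L (lL6222_0 h) (ops_nil _)) ez6222 y7222_0) (.cons (ent_z rfl (ops_L (lL7221_0 h.p0231) (ops_nil _)) ez7221) (.cons (ent_z rfl (ops_L (lL7221_0 h.p0132) (ops_nil _)) ez7221) (.cons (ent_z rfl (ops_L (lL7221_0 h) (ops_nil _)) ez7221) .nil))))
theorem qL7222_1 (h : Q A a b c d) : List.Forall₂ (EntOk b (symOf (ps7222 a b c d)))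
    (ps7221 a c d b) pL7222_1 :=
  (.cons (ent_i rfl rfl (ops_L (lL6222_3 h.p0231) (ops_S (sS6222_2 h.p0231) (ops_S (sS6222_3 h.p0321) (ops_S (sS6222_2 h) (ops_S (sS6222_2 h.p0213) (ops_nil _)))))) ez6222 y7222_0) .nil)
theorem qL7222_2 (h : Q A a b c d) : List.Forall₂ (EntOk c (symOf (ps7222 a b c d)))
    (ps7221 a b d c) pL7222_2 :=
  (.cons (ent_i rfl rfl (ops_L (lL6222_3 h.p0132) (ops_S (sS6222_2 h.p0132) (ops_S (sS6222_3 h.p0312) (ops_S (sS6222_2 h.p0213) (ops_nil _))))) ez6222 y7222_0) .nil)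
theorem qL7222_3 (h : Q A a b c d) : List.Forall₂ (EntOk d (symOf (ps7222 a b c d)))
    (ps7221 a b c d) pL7222_3 :=
  (.cons (ent_i rfl rfl (ops_L (lL6222_3 h) (ops_nil _)) ez6222 y7222_0) .nil)
theorem nf7222 (h : Q A a b c d) : ∀ r, vec (symOf (ps7222 a b c d)) r = vec (e7222 a b c d) (appM N7222 r) :=
  block_sound2 h.h.two (ps := ps7222 a b c d) (ns := 22) rfl (raw5 (srcRow_spec h.h.two (qL7222_0 h) (nf6222 h) wf6222) (srcRow_spec h.h.two (qL7222_1 h) (nf7221 h.p0231) wf7221) (srcRow_spec h.h.two (qL7222_2 h) (nf7221 h.p0132) wf7221) (srcRow_spec h.h.two (qL7222_3 h) (nf7221 h) wf7221) (zf_spec _)) kb7222 co7222 u7222 el7222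
theorem ez7222 : ∀ k, 2 ≤ k → e7222 a b c d k = 0 := eOf_ge _ (wfT_D wf7222).2
theorem qS7222_2 (h : Q A a b c d) : List.Forall₂ (EntOk 1 (symOf (ps7222 a b c d)))
    (ps7222 a c b d) pS7222_2 :=
  (.cons (ent_i rfl rfl (ops_S (sS6222_2 h.p0213) (ops_nil _)) ez6222 y7222_0) (.cons (ent_n ez7221) (.cons (ent_n ez7221) (.cons (ent_n ez7221) .nil))))
theorem sS7222_2 (h : Q A a b c d) : ∀ v, vec (e7222 a b c d) v = vec (e7222 a c b d) (appM S7222_2 v) :=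
  fun v => (one_mul _).symm.trans (table_sound2 h.h.two (qS7222_2 h.p0213) (nf7222 h.p0213) kw7222_2 kS7222_2 v)
theorem qS7222_3 (h : Q A a b c d) : List.Forall₂ (EntOk 1 (symOf (ps7222 a b c d)))
    (ps7222 a d c b) pS7222_3 :=
  (.cons (ent_i rfl rfl (ops_S (sS6222_3 h.p0321) (ops_nil _)) ez6222 y7222_0) (.cons (ent_n ez7221) (.cons (ent_n ez7221) (.cons (ent_n ez7221) .nil))))
theorem sS7222_3 (h : Q A a b c d) : ∀ v, vec (e7222 a b c d) v = vec (e7222 a d c b) (appM S7222_3 v) :=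
  fun v => (one_mul _).symm.trans (table_sound2 h.h.two (qS7222_3 h.p0321) (nf7222 h.p0321) kw7222_3 kS7222_3 v)
theorem lL7222_0 (h : Q A a b c d) : ∀ v, a * vec (e6222 a b c d) v = vec (e7222 a b c d) (appM L7222_0 v) :=
  table_sound2 h.h.two (qL7222_0 h) (nf7222 h) kv7222_0 kL7222_0
theorem w7222 (h : Q A a b c d) : WP ![7, 2, 2, 2] ![a, b, c, d] (e7222 a b c d) :=
  wp_step4 (nf7222 h) (by decide) (Or.inr ⟨_, wp0123 (w6222 h), wp_r ez6222 y7222_0⟩) (Or.inr ⟨_, wp0231 (w7221 h.p0231), wp_z ez7221⟩) (Or.inr ⟨_, wp0132 (w7221 h.p0132), wp_z ez7221⟩) (Or.inr ⟨_, wp0123 (w7221 h), wp_z ez7221⟩)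

theorem qL6421_0 (h : Q A a b c d) : List.Forall₂ (EntOk a (symOf (ps6421 a b c d)))
    (ps5421 a b c d) pL6421_0 :=
  (.cons (ent_i rfl rfl (ops_L (lL5421_0 h) (ops_nil _)) ez5421 y6421_0) (.cons (ent_z rfl (ops_L (lL6321_0 h) (ops_nil _)) ez6321) .nil))
theorem qL6421_1 (h : Q A a b c d) : List.Forall₂ (EntOk b (symOf (ps6421 a b c d)))
    (ps6321 a b c d) pL6421_1 :=
  (.cons (ent_i rfl rfl (ops_L (lL5421_1 h) (ops_nil _)) ez5421 y6421_0) (.cons (ent_z rfl (ops_L (lL6321_1 h) (ops_nil _)) ez6321) .nil))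
theorem nf6421 (h : Q A a b c d) : ∀ r, vec (symOf (ps6421 a b c d)) r = vec (e6421 a b c d) (appM N6421 r) :=
  block_sound2 h.h.two (ps := ps6421 a b c d) (ns := 1) rfl (raw5 (srcRow_spec h.h.two (qL6421_0 h) (nf5421 h) wf5421) (srcRow_spec h.h.two (qL6421_1 h) (nf6321 h) wf6321) (zf_spec _) (zf_spec _) (zf_spec _)) kb6421 co6421 u6421 el6421
theorem ez6421 : ∀ k, 0 ≤ k → e6421 a b c d k = 0 := eOf_ge _ (wfT_D wf6421).2
theorem lL6421_0 (h : Q A a b c d) : ∀ v, a * vec (e5421 a b c d) v = vec (e6421 a b c d) (appM L6421_0 v) :=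
  table_sound2 h.h.two (qL6421_0 h) (nf6421 h) kv6421_0 kL6421_0
theorem w6421 (h : Q A a b c d) : WP ![6, 4, 2, 1] ![a, b, c, d] (e6421 a b c d) :=
  wp_step4 (nf6421 h) (by decide) (Or.inr ⟨_, wp0123 (w5421 h), wp_r ez5421 y6421_0⟩) (Or.inr ⟨_, wp0123 (w6321 h), wp_z ez6321⟩) (Or.inr ⟨_, wp0123 (z6411 h), wp_z (fun _ _ => rfl)⟩) (Or.inr ⟨_, wp0123 (z6420 h), wp_z (fun _ _ => rfl)⟩)

theorem qL6322_0 (h : Q A a b c d) : List.Forall₂ (EntOk a (symOf (ps6322 a b c d)))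
    (ps5322 a b c d) pL6322_0 :=
  (.cons (ent_i rfl rfl (ops_L (lL5322_0 h) (ops_nil _)) ez5322 y6322_0) (.cons (ent_i rfl rfl (ops_L (lL6222_0 h) (ops_nil _)) ez6222 y6322_1) (.cons (ent_z rfl (ops_L (lL6321_0 h.p0132) (ops_nil _)) ez6321) (.cons (ent_z rfl (ops_L (lL6321_0 h) (ops_nil _)) ez6321) .nil))))
theorem qL6322_1 (h : Q A a b c d) : List.Forall₂ (EntOk b (symOf (ps6322 a b c d)))
    (ps6222 a b c d) pL6322_1 :=
  (.cons (ent_i rfl rfl (ops_L (lL5322_1 h) (ops_nil _)) ez5322 y6322_0) (.cons (ent_i rfl rfl (ops_L (lL6222_3 h.p0231) (ops_S (sS6222_2 h.p0231) (ops_S (sS6222_3 h.p0321) (ops_S (sS6222_2 h) (ops_S (sS6222_2 h.p0213) (ops_nil _)))))) ez6222 y6322_1) (.cons (ent_z rfl (ops_L (lL6321_1 h.p0132) (ops_nil _)) ez6321) (.cons (ent_z rfl (ops_L (lL6321_1 h) (ops_nil _)) ez6321) .nil))))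
theorem qL6322_2 (h : Q A a b c d) : List.Forall₂ (EntOk c (symOf (ps6322 a b c d)))
    (ps6321 a b d c) pL6322_2 :=
  (.cons (ent_i rfl rfl (ops_L (lL5322_3 h.p0132) (ops_S (sS5322_3 h.p0132) (ops_nil _))) ez5322 y6322_0) (.cons (ent_i rfl rfl (ops_L (lL6222_3 h.p0132) (ops_S (sS6222_2 h.p0132) (ops_S (sS6222_3 h.p0312) (ops_S (sS6222_2 h.p0213) (ops_nil _))))) ez6222 y6322_1) .nil))
theorem qL6322_3 (h : Q A a b c d) : List.Forall₂ (EntOk d (symOf (ps6322 a b c d)))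
    (ps6321 a b c d) pL6322_3 :=
  (.cons (ent_i rfl rfl (ops_L (lL5322_3 h) (ops_nil _)) ez5322 y6322_0) (.cons (ent_i rfl rfl (ops_L (lL6222_3 h) (ops_nil _)) ez6222 y6322_1) .nil))
theorem nf6322 (h : Q A a b c d) : ∀ r, vec (symOf (ps6322 a b c d)) r = vec (e6322 a b c d) (appM N6322 r) :=
  block_sound2 h.h.two (ps := ps6322 a b c d) (ns := 103) rfl (raw5 (srcRow_spec h.h.two (qL6322_0 h) (nf5322 h) wf5322) (srcRow_spec h.h.two (qL6322_1 h) (nf6222 h) wf6222) (srcRow_spec h.h.two (qL6322_2 h) (nf6321 h.p0132) wf6321) (srcRow_spec h.h.two (qL6322_3 h) (nf6321 h) wf6321) (zf_spec _)) kb6322 co6322 u6322 el6322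
theorem ez6322 : ∀ k, 5 ≤ k → e6322 a b c d k = 0 := eOf_ge _ (wfT_D wf6322).2
theorem qS6322_3 (h : Q A a b c d) : List.Forall₂ (EntOk 1 (symOf (ps6322 a b c d)))
    (ps6322 a b d c) pS6322_3 :=
  (.cons (ent_i rfl rfl (ops_S (sS5322_3 h.p0132) (ops_nil _)) ez5322 y6322_0) (.cons (ent_i rfl rfl (ops_S (sS6222_2 h.p0132) (ops_S (sS6222_3 h.p0312) (ops_S (sS6222_2 h.p0213) (ops_nil _)))) ez6222 y6322_1) (.cons (ent_n ez6321) (.cons (ent_n ez6321) .nil))))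
theorem sS6322_3 (h : Q A a b c d) : ∀ v, vec (e6322 a b c d) v = vec (e6322 a b d c) (appM S6322_3 v) :=
  fun v => (one_mul _).symm.trans (table_sound2 h.h.two (qS6322_3 h.p0132) (nf6322 h.p0132) kw6322_3 kS6322_3 v)
theorem lL6322_0 (h : Q A a b c d) : ∀ v, a * vec (e5322 a b c d) v = vec (e6322 a b c d) (appM L6322_0 v) :=
  table_sound2 h.h.two (qL6322_0 h) (nf6322 h) kv6322_0 kL6322_0
theorem lL6322_1 (h : Q A a b c d) : ∀ v, b * vec (e6222 a b c d) v = vec (e6322 a b c d) (appM L6322_1 v) :=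
  table_sound2 h.h.two (qL6322_1 h) (nf6322 h) kv6322_1 kL6322_1
theorem w6322 (h : Q A a b c d) : WP ![6, 3, 2, 2] ![a, b, c, d] (e6322 a b c d) :=
  wp_step4 (nf6322 h) (by decide) (Or.inr ⟨_, wp0123 (w5322 h), wp_r ez5322 y6322_0⟩) (Or.inr ⟨_, wp0123 (w6222 h), wp_r ez6222 y6322_1⟩) (Or.inr ⟨_, wp0132 (w6321 h.p0132), wp_z ez6321⟩) (Or.inr ⟨_, wp0123 (w6321 h), wp_z ez6321⟩)

theorem qL5521_0 (h : Q A a b c d) : List.Forall₂ (EntOk a (symOf (ps5521 a b c d)))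
    (ps5421 b a c d) pL5521_0 :=
  (.cons (ent_i rfl rfl (ops_S (sS4421_1 h.p1023) (ops_L (lL5421_0 h) (ops_nil _))) ez5421 y5521_1) (.cons (ent_i rfl rfl (ops_L (lL5421_1 h.p1023) (ops_nil _)) ez5421 y5521_0) .nil))
theorem qL5521_1 (h : Q A a b c d) : List.Forall₂ (EntOk b (symOf (ps5521 a b c d)))
    (ps5421 a b c d) pL5521_1 :=
  (.cons (ent_i rfl rfl (ops_S (sS4421_1 h) (ops_L (lL5421_0 h.p1023) (ops_nil _))) ez5421 y5521_0) (.cons (ent_i rfl rfl (ops_L (lL5421_1 h) (ops_nil _)) ez5421 y5521_1) .nil))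
theorem nf5521 (h : Q A a b c d) : ∀ r, vec (symOf (ps5521 a b c d)) r = vec (e5521 a b c d) (appM N5521 r) :=
  block_sound2 h.h.two (ps := ps5521 a b c d) (ns := 2) rfl (raw5 (srcRow_spec h.h.two (qL5521_0 h) (nf5421 h.p1023) wf5421) (srcRow_spec h.h.two (qL5521_1 h) (nf5421 h) wf5421) (zf_spec _) (zf_spec _) (zf_spec _)) kb5521 co5521 u5521 el5521
theorem ez5521 : ∀ k, 0 ≤ k → e5521 a b c d k = 0 := eOf_ge _ (wfT_D wf5521).2
theorem lL5521_1 (h : Q A a b c d) : ∀ v, b * vec (e5421 a b c d) v = vec (e5521 a b c d) (appM L5521_1 v) :=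
  table_sound2 h.h.two (qL5521_1 h) (nf5521 h) kv5521_1 kL5521_1
theorem w5521 (h : Q A a b c d) : WP ![5, 5, 2, 1] ![a, b, c, d] (e5521 a b c d) :=
  wp_step4 (nf5521 h) (by decide) (Or.inr ⟨_, wp1023 (w5421 h.p1023), wp_r ez5421 y5521_0⟩) (Or.inr ⟨_, wp0123 (w5421 h), wp_r ez5421 y5521_1⟩) (Or.inr ⟨_, wp0123 (z5511 h), wp_z (fun _ _ => rfl)⟩) (Or.inr ⟨_, wp0123 (z5520 h), wp_z (fun _ _ => rfl)⟩)

theorem qL5431_0 (h : Q A a b c d) : List.Forall₂ (EntOk a (symOf (ps5431 a b c d)))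
    (ps4431 a b c d) pL5431_0 :=
  (.cons (ent_i rfl rfl (ops_L (lL4431_1 h.p1023) (ops_S (sS4431_1 h.p1023) (ops_nil _))) ez4431 y5431_0) (.cons (ent_z rfl (ops_L (lL5331_0 h) (ops_nil _)) ez5331) (.cons (ent_i rfl rfl (ops_L (lL5421_0 h) (ops_nil _)) ez5421 y5431_2) .nil)))
theorem qL5431_1 (h : Q A a b c d) : List.Forall₂ (EntOk b (symOf (ps5431 a b c d)))
    (ps5331 a b c d) pL5431_1 :=
  (.cons (ent_i rfl rfl (ops_L (lL4431_1 h) (ops_nil _)) ez4431 y5431_0) (.cons (ent_z rfl (ops_L (lL5331_2 h.p0213) (ops_nil _)) ez5331) (.cons (ent_i rfl rfl (ops_L (lL5421_1 h) (ops_nil _)) ez5421 y5431_2) .nil)))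
theorem qL5431_2 (h : Q A a b c d) : List.Forall₂ (EntOk c (symOf (ps5431 a b c d)))
    (ps5421 a b c d) pL5431_2 :=
  (.cons (ent_i rfl rfl (ops_L (lL4431_2 h) (ops_nil _)) ez4431 y5431_0) (.cons (ent_z rfl (ops_L (lL5331_2 h) (ops_nil _)) ez5331) .nil))
theorem nf5431 (h : Q A a b c d) : ∀ r, vec (symOf (ps5431 a b c d)) r = vec (e5431 a b c d) (appM N5431 r) :=
  block_sound2 h.h.two (ps := ps5431 a b c d) (ns := 5) rfl (raw5 (srcRow_spec h.h.two (qL5431_0 h) (nf4431 h) wf4431) (srcRow_spec h.h.two (qL5431_1 h) (nf5331 h) wf5331) (srcRow_spec h.h.two (qL5431_2 h) (nf5421 h) wf5421) (zf_spec _) (zf_spec _)) kb5431 co5431 u5431 el5431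
theorem ez5431 : ∀ k, 0 ≤ k → e5431 a b c d k = 0 := eOf_ge _ (wfT_D wf5431).2
theorem lL5431_0 (h : Q A a b c d) : ∀ v, a * vec (e4431 a b c d) v = vec (e5431 a b c d) (appM L5431_0 v) :=
  table_sound2 h.h.two (qL5431_0 h) (nf5431 h) kv5431_0 kL5431_0
theorem lL5431_2 (h : Q A a b c d) : ∀ v, c * vec (e5421 a b c d) v = vec (e5431 a b c d) (appM L5431_2 v) :=
  table_sound2 h.h.two (qL5431_2 h) (nf5431 h) kv5431_2 kL5431_2
theorem w5431 (h : Q A a b c d) : WP ![5, 4, 3, 1] ![a, b, c, d] (e5431 a b c d) :=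
  wp_step4 (nf5431 h) (by decide) (Or.inr ⟨_, wp0123 (w4431 h), wp_r ez4431 y5431_0⟩) (Or.inr ⟨_, wp0123 (w5331 h), wp_z ez5331⟩) (Or.inr ⟨_, wp0123 (w5421 h), wp_r ez5421 y5431_2⟩) (Or.inr ⟨_, wp0123 (z5430 h), wp_z (fun _ _ => rfl)⟩)

theorem qL5422_0 (h : Q A a b c d) : List.Forall₂ (EntOk a (symOf (ps5422 a b c d)))
    (ps4422 a b c d) pL5422_0 :=
  (.cons (ent_i rfl rfl (ops_L (lL4422_1 h.p1023) (ops_S (sS4422_1 h.p1023) (ops_nil _))) ez4422 y5422_0) (.cons (ent_i rfl rfl (ops_L (lL5322_0 h) (ops_nil _)) ez5322 y5422_1) (.cons (ent_i rfl rfl (ops_L (lL5421_0 h.p0132) (ops_nil _)) ez5421 y5422_2) (.cons (ent_i rfl rfl (ops_L (lL5421_0 h) (ops_nil _)) ez5421 y5422_3) .nil))))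
theorem qL5422_1 (h : Q A a b c d) : List.Forall₂ (EntOk b (symOf (ps5422 a b c d)))
    (ps5322 a b c d) pL5422_1 :=
  (.cons (ent_i rfl rfl (ops_L (lL4422_1 h) (ops_nil _)) ez4422 y5422_0) (.cons (ent_i rfl rfl (ops_L (lL5322_1 h) (ops_nil _)) ez5322 y5422_1) (.cons (ent_i rfl rfl (ops_L (lL5421_1 h.p0132) (ops_nil _)) ez5421 y5422_2) (.cons (ent_i rfl rfl (ops_L (lL5421_1 h) (ops_nil _)) ez5421 y5422_3) .nil))))
theorem qL5422_2 (h : Q A a b c d) : List.Forall₂ (EntOk c (symOf (ps5422 a b c d)))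
    (ps5421 a b d c) pL5422_2 :=
  (.cons (ent_i rfl rfl (ops_L (lL4422_3 h.p0132) (ops_S (sS4422_3 h.p0132) (ops_nil _))) ez4422 y5422_0) (.cons (ent_i rfl rfl (ops_L (lL5322_3 h.p0132) (ops_S (sS5322_3 h.p0132) (ops_nil _))) ez5322 y5422_1) .nil))
theorem qL5422_3 (h : Q A a b c d) : List.Forall₂ (EntOk d (symOf (ps5422 a b c d)))
    (ps5421 a b c d) pL5422_3 :=
  (.cons (ent_i rfl rfl (ops_L (lL4422_3 h) (ops_nil _)) ez4422 y5422_0) (.cons (ent_i rfl rfl (ops_L (lL5322_3 h) (ops_nil _)) ez5322 y5422_1) .nil))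
theorem nf5422 (h : Q A a b c d) : ∀ r, vec (symOf (ps5422 a b c d)) r = vec (e5422 a b c d) (appM N5422 r) :=
  block_sound2 h.h.two (ps := ps5422 a b c d) (ns := 237) rfl (raw5 (srcRow_spec h.h.two (qL5422_0 h) (nf4422 h) wf4422) (srcRow_spec h.h.two (qL5422_1 h) (nf5322 h) wf5322) (srcRow_spec h.h.two (qL5422_2 h) (nf5421 h.p0132) wf5421) (srcRow_spec h.h.two (qL5422_3 h) (nf5421 h) wf5421) (zf_spec _)) kb5422 co5422 u5422 el5422
theorem ez5422 : ∀ k, 13 ≤ k → e5422 a b c d k = 0 := eOf_ge _ (wfT_D wf5422).2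
theorem qS5422_3 (h : Q A a b c d) : List.Forall₂ (EntOk 1 (symOf (ps5422 a b c d)))
    (ps5422 a b d c) pS5422_3 :=
  (.cons (ent_i rfl rfl (ops_S (sS4422_3 h.p0132) (ops_nil _)) ez4422 y5422_0) (.cons (ent_i rfl rfl (ops_S (sS5322_3 h.p0132) (ops_nil _)) ez5322 y5422_1) (.cons (ent_i rfl rfl (ops_nil _) ez5421 y5422_3) (.cons (ent_i rfl rfl (ops_nil _) ez5421 y5422_2) .nil))))
theorem sS5422_3 (h : Q A a b c d) : ∀ v, vec (e5422 a b c d) v = vec (e5422 a b d c) (appM S5422_3 v) :=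
  fun v => (one_mul _).symm.trans (table_sound2 h.h.two (qS5422_3 h.p0132) (nf5422 h.p0132) kw5422_3 kS5422_3 v)
theorem lL5422_0 (h : Q A a b c d) : ∀ v, a * vec (e4422 a b c d) v = vec (e5422 a b c d) (appM L5422_0 v) :=
  table_sound2 h.h.two (qL5422_0 h) (nf5422 h) kv5422_0 kL5422_0
theorem lL5422_1 (h : Q A a b c d) : ∀ v, b * vec (e5322 a b c d) v = vec (e5422 a b c d) (appM L5422_1 v) :=
  table_sound2 h.h.two (qL5422_1 h) (nf5422 h) kv5422_1 kL5422_1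
theorem lL5422_3 (h : Q A a b c d) : ∀ v, d * vec (e5421 a b c d) v = vec (e5422 a b c d) (appM L5422_3 v) :=
  table_sound2 h.h.two (qL5422_3 h) (nf5422 h) kv5422_3 kL5422_3
theorem w5422 (h : Q A a b c d) : WP ![5, 4, 2, 2] ![a, b, c, d] (e5422 a b c d) :=
  wp_step4 (nf5422 h) (by decide) (Or.inr ⟨_, wp0123 (w4422 h), wp_r ez4422 y5422_0⟩) (Or.inr ⟨_, wp0123 (w5322 h), wp_r ez5322 y5422_1⟩) (Or.inr ⟨_, wp0132 (w5421 h.p0132), wp_r ez5421 y5422_2⟩) (Or.inr ⟨_, wp0123 (w5421 h), wp_r ez5421 y5422_3⟩)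

theorem qL5332_0 (h : Q A a b c d) : List.Forall₂ (EntOk a (symOf (ps5332 a b c d)))
    (ps4332 a b c d) pL5332_0 :=
  (.cons (ent_i rfl rfl (ops_L (lL4332_0 h) (ops_nil _)) ez4332 y5332_0) (.cons (ent_i rfl rfl (ops_L (lL5322_0 h.p0213) (ops_nil _)) ez5322 y5332_1) (.cons (ent_i rfl rfl (ops_L (lL5322_0 h) (ops_nil _)) ez5322 y5332_2) (.cons (ent_z rfl (ops_L (lL5331_0 h) (ops_nil _)) ez5331) .nil))))
theorem qL5332_1 (h : Q A a b c d) : List.Forall₂ (EntOk b (symOf (ps5332 a b c d)))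
    (ps5322 a c b d) pL5332_1 :=
  (.cons (ent_i rfl rfl (ops_L (lL4332_2 h.p0213) (ops_S (sS4332_2 h.p0213) (ops_nil _))) ez4332 y5332_0) (.cons (ent_i rfl rfl (ops_S (sS5222_2 h.p0213) (ops_L (lL5322_1 h) (ops_nil _))) ez5322 y5332_2) (.cons (ent_i rfl rfl (ops_L (lL5322_3 h.p0231) (ops_S (sS5322_3 h.p0231) (ops_nil _))) ez5322 y5332_1) (.cons (ent_z rfl (ops_L (lL5331_2 h.p0213) (ops_nil _)) ez5331) .nil))))
theorem qL5332_2 (h : Q A a b c d) : List.Forall₂ (EntOk c (symOf (ps5332 a b c d)))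
    (ps5322 a b c d) pL5332_2 :=
  (.cons (ent_i rfl rfl (ops_L (lL4332_2 h) (ops_nil _)) ez4332 y5332_0) (.cons (ent_i rfl rfl (ops_S (sS5222_2 h) (ops_L (lL5322_1 h.p0213) (ops_nil _))) ez5322 y5332_1) (.cons (ent_i rfl rfl (ops_L (lL5322_3 h.p0132) (ops_S (sS5322_3 h.p0132) (ops_nil _))) ez5322 y5332_2) (.cons (ent_z rfl (ops_L (lL5331_2 h) (ops_nil _)) ez5331) .nil))))
theorem qL5332_3 (h : Q A a b c d) : List.Forall₂ (EntOk d (symOf (ps5332 a b c d)))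
    (ps5331 a b c d) pL5332_3 :=
  (.cons (ent_i rfl rfl (ops_L (lL4332_3 h) (ops_nil _)) ez4332 y5332_0) (.cons (ent_i rfl rfl (ops_L (lL5322_3 h.p0213) (ops_nil _)) ez5322 y5332_1) (.cons (ent_i rfl rfl (ops_L (lL5322_3 h) (ops_nil _)) ez5322 y5332_2) .nil)))
theorem nf5332 (h : Q A a b c d) : ∀ r, vec (symOf (ps5332 a b c d)) r = vec (e5332 a b c d) (appM N5332 r) :=
  block_sound2 h.h.two (ps := ps5332 a b c d) (ns := 465) rfl (raw5 (srcRow_spec h.h.two (qL5332_0 h) (nf4332 h) wf4332) (srcRow_spec h.h.two (qL5332_1 h) (nf5322 h.p0213) wf5322) (srcRow_spec h.h.two (qL5332_2 h) (nf5322 h) wf5322) (srcRow_spec h.h.two (qL5332_3 h) (nf5331 h) wf5331) (zf_spec _)) kb5332 co5332 u5332 el5332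
theorem ez5332 : ∀ k, 31 ≤ k → e5332 a b c d k = 0 := eOf_ge _ (wfT_D wf5332).2
theorem qS5332_2 (h : Q A a b c d) : List.Forall₂ (EntOk 1 (symOf (ps5332 a b c d)))
    (ps5332 a c b d) pS5332_2 :=
  (.cons (ent_i rfl rfl (ops_S (sS4332_2 h.p0213) (ops_nil _)) ez4332 y5332_0) (.cons (ent_i rfl rfl (ops_nil _) ez5322 y5332_2) (.cons (ent_i rfl rfl (ops_nil _) ez5322 y5332_1) (.cons (ent_n ez5331) .nil))))
theorem sS5332_2 (h : Q A a b c d) : ∀ v, vec (e5332 a b c d) v = vec (e5332 a c b d) (appM S5332_2 v) :=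
  fun v => (one_mul _).symm.trans (table_sound2 h.h.two (qS5332_2 h.p0213) (nf5332 h.p0213) kw5332_2 kS5332_2 v)
theorem lL5332_0 (h : Q A a b c d) : ∀ v, a * vec (e4332 a b c d) v = vec (e5332 a b c d) (appM L5332_0 v) :=
  table_sound2 h.h.two (qL5332_0 h) (nf5332 h) kv5332_0 kL5332_0
theorem lL5332_2 (h : Q A a b c d) : ∀ v, c * vec (e5322 a b c d) v = vec (e5332 a b c d) (appM L5332_2 v) :=
  table_sound2 h.h.two (qL5332_2 h) (nf5332 h) kv5332_2 kL5332_2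
theorem w5332 (h : Q A a b c d) : WP ![5, 3, 3, 2] ![a, b, c, d] (e5332 a b c d) :=
  wp_step4 (nf5332 h) (by decide) (Or.inr ⟨_, wp0123 (w4332 h), wp_r ez4332 y5332_0⟩) (Or.inr ⟨_, wp0213 (w5322 h.p0213), wp_r ez5322 y5332_1⟩) (Or.inr ⟨_, wp0123 (w5322 h), wp_r ez5322 y5332_2⟩) (Or.inr ⟨_, wp0123 (w5331 h), wp_z ez5331⟩)

theorem qL4441_0 (h : Q A a b c d) : List.Forall₂ (EntOk a (symOf (ps4441 a b c d)))
    (ps4431 b c a d) pL4441_0 :=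
  (.cons (ent_i rfl rfl (ops_S (sS4331_2 h.p2103) (ops_L (lL4431_1 h.p2013) (ops_S (sS4431_1 h.p2013) (ops_nil _)))) ez4431 y4441_1) (.cons (ent_i rfl rfl (ops_S (sS4331_2 h.p1203) (ops_L (lL4431_1 h.p1023) (ops_S (sS4431_1 h.p1023) (ops_nil _)))) ez4431 y4441_2) (.cons (ent_i rfl rfl (ops_L (lL4431_2 h.p1203) (ops_nil _)) ez4431 y4441_0) .nil)))
theorem qL4441_1 (h : Q A a b c d) : List.Forall₂ (EntOk b (symOf (ps4441 a b c d)))
    (ps4431 a c b d) pL4441_1 :=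
  (.cons (ent_i rfl rfl (ops_S (sS4331_2 h.p2013) (ops_L (lL4431_1 h.p2103) (ops_S (sS4431_1 h.p2103) (ops_nil _)))) ez4431 y4441_0) (.cons (ent_i rfl rfl (ops_S (sS4331_2 h.p0213) (ops_L (lL4431_1 h) (ops_nil _))) ez4431 y4441_2) (.cons (ent_i rfl rfl (ops_L (lL4431_2 h.p0213) (ops_nil _)) ez4431 y4441_1) .nil)))
theorem qL4441_2 (h : Q A a b c d) : List.Forall₂ (EntOk c (symOf (ps4441 a b c d)))
    (ps4431 a b c d) pL4441_2 :=
  (.cons (ent_i rfl rfl (ops_S (sS4331_2 h.p1023) (ops_L (lL4431_1 h.p1203) (ops_nil _))) ez4431 y4441_0) (.cons (ent_i rfl rfl (ops_S (sS4331_2 h) (ops_L (lL4431_1 h.p0213) (ops_nil _))) ez4431 y4441_1) (.cons (ent_i rfl rfl (ops_L (lL4431_2 h) (ops_nil _)) ez4431 y4441_2) .nil)))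
theorem nf4441 (h : Q A a b c d) : ∀ r, vec (symOf (ps4441 a b c d)) r = vec (e4441 a b c d) (appM N4441 r) :=
  block_sound2 h.h.two (ps := ps4441 a b c d) (ns := 12) rfl (raw5 (srcRow_spec h.h.two (qL4441_0 h) (nf4431 h.p1203) wf4431) (srcRow_spec h.h.two (qL4441_1 h) (nf4431 h.p0213) wf4431) (srcRow_spec h.h.two (qL4441_2 h) (nf4431 h) wf4431) (zf_spec _) (zf_spec _)) kb4441 co4441 u4441 el4441
theorem ez4441 : ∀ k, 0 ≤ k → e4441 a b c d k = 0 := eOf_ge _ (wfT_D wf4441).2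
theorem lL4441_2 (h : Q A a b c d) : ∀ v, c * vec (e4431 a b c d) v = vec (e4441 a b c d) (appM L4441_2 v) :=
  table_sound2 h.h.two (qL4441_2 h) (nf4441 h) kv4441_2 kL4441_2
theorem w4441 (h : Q A a b c d) : WP ![4, 4, 4, 1] ![a, b, c, d] (e4441 a b c d) :=
  wp_step4 (nf4441 h) (by decide) (Or.inr ⟨_, wp1203 (w4431 h.p1203), wp_r ez4431 y4441_0⟩) (Or.inr ⟨_, wp0213 (w4431 h.p0213), wp_r ez4431 y4441_1⟩) (Or.inr ⟨_, wp0123 (w4431 h), wp_r ez4431 y4441_2⟩) (Or.inr ⟨_, wp0123 (z4440 h), wp_z (fun _ _ => rfl)⟩)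

theorem qL4432_0 (h : Q A a b c d) : List.Forall₂ (EntOk a (symOf (ps4432 a b c d)))
    (ps4332 b a c d) pL4432_0 :=
  (.cons (ent_i rfl rfl (ops_S (sS3332_1 h.p1023) (ops_L (lL4332_0 h) (ops_nil _))) ez4332 y4432_1) (.cons (ent_i rfl rfl (ops_L (lL4332_2 h.p1203) (ops_S (sS4332_2 h.p1203) (ops_nil _))) ez4332 y4432_0) (.cons (ent_i rfl rfl (ops_L (lL4422_1 h.p1023) (ops_S (sS4422_1 h.p1023) (ops_nil _))) ez4422 y4432_2) (.cons (ent_i rfl rfl (ops_L (lL4431_1 h.p1023) (ops_S (sS4431_1 h.p1023) (ops_nil _))) ez4431 y4432_3) .nil))))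
theorem qL4432_1 (h : Q A a b c d) : List.Forall₂ (EntOk b (symOf (ps4432 a b c d)))
    (ps4332 a b c d) pL4432_1 :=
  (.cons (ent_i rfl rfl (ops_S (sS3332_1 h) (ops_L (lL4332_0 h.p1023) (ops_nil _))) ez4332 y4432_0) (.cons (ent_i rfl rfl (ops_L (lL4332_2 h.p0213) (ops_S (sS4332_2 h.p0213) (ops_nil _))) ez4332 y4432_1) (.cons (ent_i rfl rfl (ops_L (lL4422_1 h) (ops_nil _)) ez4422 y4432_2) (.cons (ent_i rfl rfl (ops_L (lL4431_1 h) (ops_nil _)) ez4431 y4432_3) .nil))))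
theorem qL4432_2 (h : Q A a b c d) : List.Forall₂ (EntOk c (symOf (ps4432 a b c d)))
    (ps4422 a b c d) pL4432_2 :=
  (.cons (ent_i rfl rfl (ops_L (lL4332_2 h.p1023) (ops_nil _)) ez4332 y4432_0) (.cons (ent_i rfl rfl (ops_L (lL4332_2 h) (ops_nil _)) ez4332 y4432_1) (.cons (ent_i rfl rfl (ops_L (lL4422_3 h.p0132) (ops_S (sS4422_3 h.p0132) (ops_nil _))) ez4422 y4432_2) (.cons (ent_i rfl rfl (ops_L (lL4431_2 h) (ops_nil _)) ez4431 y4432_3) .nil))))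
theorem qL4432_3 (h : Q A a b c d) : List.Forall₂ (EntOk d (symOf (ps4432 a b c d)))
    (ps4431 a b c d) pL4432_3 :=
  (.cons (ent_i rfl rfl (ops_L (lL4332_3 h.p1023) (ops_nil _)) ez4332 y4432_0) (.cons (ent_i rfl rfl (ops_L (lL4332_3 h) (ops_nil _)) ez4332 y4432_1) (.cons (ent_i rfl rfl (ops_L (lL4422_3 h) (ops_nil _)) ez4422 y4432_2) .nil)))
theorem nf4432 (h : Q A a b c d) : ∀ r, vec (symOf (ps4432 a b c d)) r = vec (e4432 a b c d) (appM N4432 r) :=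
  block_sound2 h.h.two (ps := ps4432 a b c d) (ns := 764) rfl (raw5 (srcRow_spec h.h.two (qL4432_0 h) (nf4332 h.p1023) wf4332) (srcRow_spec h.h.two (qL4432_1 h) (nf4332 h) wf4332) (srcRow_spec h.h.two (qL4432_2 h) (nf4422 h) wf4422) (srcRow_spec h.h.two (qL4432_3 h) (nf4431 h) wf4431) (zf_spec _)) kb4432 co4432 u4432 el4432
theorem ez4432 : ∀ k, 58 ≤ k → e4432 a b c d k = 0 := eOf_ge _ (wfT_D wf4432).2
theorem qS4432_1 (h : Q A a b c d) : List.Forall₂ (EntOk 1 (symOf (ps4432 a b c d)))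
    (ps4432 b a c d) pS4432_1 :=
  (.cons (ent_i rfl rfl (ops_nil _) ez4332 y4432_1) (.cons (ent_i rfl rfl (ops_nil _) ez4332 y4432_0) (.cons (ent_i rfl rfl (ops_S (sS4422_1 h.p1023) (ops_nil _)) ez4422 y4432_2) (.cons (ent_i rfl rfl (ops_S (sS4431_1 h.p1023) (ops_nil _)) ez4431 y4432_3) .nil))))
theorem sS4432_1 (h : Q A a b c d) : ∀ v, vec (e4432 a b c d) v = vec (e4432 b a c d) (appM S4432_1 v) :=
  fun v => (one_mul _).symm.trans (table_sound2 h.h.two (qS4432_1 h.p1023) (nf4432 h.p1023) kw4432_1 kS4432_1 v)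
theorem lL4432_1 (h : Q A a b c d) : ∀ v, b * vec (e4332 a b c d) v = vec (e4432 a b c d) (appM L4432_1 v) :=
  table_sound2 h.h.two (qL4432_1 h) (nf4432 h) kv4432_1 kL4432_1
theorem lL4432_2 (h : Q A a b c d) : ∀ v, c * vec (e4422 a b c d) v = vec (e4432 a b c d) (appM L4432_2 v) :=
  table_sound2 h.h.two (qL4432_2 h) (nf4432 h) kv4432_2 kL4432_2
theorem lL4432_3 (h : Q A a b c d) : ∀ v, d * vec (e4431 a b c d) v = vec (e4432 a b c d) (appM L4432_3 v) :=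
  table_sound2 h.h.two (qL4432_3 h) (nf4432 h) kv4432_3 kL4432_3
theorem w4432 (h : Q A a b c d) : WP ![4, 4, 3, 2] ![a, b, c, d] (e4432 a b c d) :=
  wp_step4 (nf4432 h) (by decide) (Or.inr ⟨_, wp1023 (w4332 h.p1023), wp_r ez4332 y4432_0⟩) (Or.inr ⟨_, wp0123 (w4332 h), wp_r ez4332 y4432_1⟩) (Or.inr ⟨_, wp0123 (w4422 h), wp_r ez4422 y4432_2⟩) (Or.inr ⟨_, wp0123 (w4431 h), wp_r ez4431 y4432_3⟩)

theorem qL4333_0 (h : Q A a b c d) : List.Forall₂ (EntOk a (symOf (ps4333 a b c d)))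
    (ps3333 a b c d) pL4333_0 :=
  (.cons (ent_i rfl rfl (ops_L (lL3333_3 h.p1230) (ops_S (sS3333_2 h.p1230) (ops_S (sS3333_3 h.p3210) (ops_S (sS3333_2 h.p0213) (ops_S (sS3333_1 h.p1203) (ops_S (sS3333_2 h.p2103) (ops_S (sS3333_1 h) (ops_S (sS3333_1 h.p1023) (ops_nil _))))))))) ez3333 y4333_0) (.cons (ent_i rfl rfl (ops_L (lL4332_0 h.p0231) (ops_nil _)) ez4332 y4333_1) (.cons (ent_i rfl rfl (ops_L (lL4332_0 h.p0132) (ops_nil _)) ez4332 y4333_2) (.cons (ent_i rfl rfl (ops_L (lL4332_0 h) (ops_nil _)) ez4332 y4333_3) .nil))))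
theorem qL4333_1 (h : Q A a b c d) : List.Forall₂ (EntOk b (symOf (ps4333 a b c d)))
    (ps4332 a c d b) pL4333_1 :=
  (.cons (ent_i rfl rfl (ops_L (lL3333_3 h.p0231) (ops_S (sS3333_2 h.p0231) (ops_S (sS3333_3 h.p3201) (ops_S (sS3333_2 h.p1203) (ops_S (sS3333_1 h.p0213) (ops_S (sS3333_2 h.p2013) (ops_S (sS3333_1 h.p1023) (ops_nil _)))))))) ez3333 y4333_0) (.cons (ent_i rfl rfl (ops_S (sS4322_3 h.p0321) (ops_L (lL4332_2 h.p0312) (ops_S (sS4332_2 h.p0312) (ops_nil _)))) ez4332 y4333_2) (.cons (ent_i rfl rfl (ops_S (sS4322_3 h.p0231) (ops_L (lL4332_2 h.p0213) (ops_S (sS4332_2 h.p0213) (ops_nil _)))) ez4332 y4333_3) (.cons (ent_i rfl rfl (ops_L (lL4332_3 h.p0231) (ops_nil _)) ez4332 y4333_1) .nil))))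
theorem qL4333_2 (h : Q A a b c d) : List.Forall₂ (EntOk c (symOf (ps4333 a b c d)))
    (ps4332 a b d c) pL4333_2 :=
  (.cons (ent_i rfl rfl (ops_L (lL3333_3 h.p0132) (ops_S (sS3333_2 h.p0132) (ops_S (sS3333_3 h.p3102) (ops_S (sS3333_2 h.p2103) (ops_nil _))))) ez3333 y4333_0) (.cons (ent_i rfl rfl (ops_S (sS4322_3 h.p0312) (ops_L (lL4332_2 h.p0321) (ops_S (sS4332_2 h.p0321) (ops_nil _)))) ez4332 y4333_1) (.cons (ent_i rfl rfl (ops_S (sS4322_3 h.p0132) (ops_L (lL4332_2 h) (ops_nil _))) ez4332 y4333_3) (.cons (ent_i rfl rfl (ops_L (lL4332_3 h.p0132) (ops_nil _)) ez4332 y4333_2) .nil))))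
theorem qL4333_3 (h : Q A a b c d) : List.Forall₂ (EntOk d (symOf (ps4333 a b c d)))
    (ps4332 a b c d) pL4333_3 :=
  (.cons (ent_i rfl rfl (ops_L (lL3333_3 h) (ops_nil _)) ez3333 y4333_0) (.cons (ent_i rfl rfl (ops_S (sS4322_3 h.p0213) (ops_L (lL4332_2 h.p0231) (ops_nil _))) ez4332 y4333_1) (.cons (ent_i rfl rfl (ops_S (sS4322_3 h) (ops_L (lL4332_2 h.p0132) (ops_nil _))) ez4332 y4333_2) (.cons (ent_i rfl rfl (ops_L (lL4332_3 h) (ops_nil _)) ez4332 y4333_3) .nil))))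
theorem nf4333 (h : Q A a b c d) : ∀ r, vec (symOf (ps4333 a b c d)) r = vec (e4333 a b c d) (appM N4333 r) :=
  block_sound2 h.h.two (ps := ps4333 a b c d) (ns := 1757) rfl (raw5 (srcRow_spec h.h.two (qL4333_0 h) (nf3333 h) wf3333) (srcRow_spec h.h.two (qL4333_1 h) (nf4332 h.p0231) wf4332) (srcRow_spec h.h.two (qL4333_2 h) (nf4332 h.p0132) wf4332) (srcRow_spec h.h.two (qL4333_3 h) (nf4332 h) wf4332) (zf_spec _)) kb4333 co4333 u4333 el4333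
theorem ez4333 : ∀ k, 200 ≤ k → e4333 a b c d k = 0 := eOf_ge _ (wfT_D wf4333).2
theorem qS4333_2 (h : Q A a b c d) : List.Forall₂ (EntOk 1 (symOf (ps4333 a b c d)))
    (ps4333 a c b d) pS4333_2 :=
  (.cons (ent_i rfl rfl (ops_S (sS3333_1 h.p0213) (ops_S (sS3333_2 h.p2013) (ops_S (sS3333_1 h.p1023) (ops_nil _)))) ez3333 y4333_0) (.cons (ent_i rfl rfl (ops_nil _) ez4332 y4333_2) (.cons (ent_i rfl rfl (ops_nil _) ez4332 y4333_1) (.cons (ent_i rfl rfl (ops_S (sS4332_2 h.p0213) (ops_nil _)) ez4332 y4333_3) .nil))))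
theorem sS4333_2 (h : Q A a b c d) : ∀ v, vec (e4333 a b c d) v = vec (e4333 a c b d) (appM S4333_2 v) :=
  fun v => (one_mul _).symm.trans (table_sound2 h.h.two (qS4333_2 h.p0213) (nf4333 h.p0213) kw4333_2 kS4333_2 v)
theorem qS4333_3 (h : Q A a b c d) : List.Forall₂ (EntOk 1 (symOf (ps4333 a b c d)))
    (ps4333 a d c b) pS4333_3 :=
  (.cons (ent_i rfl rfl (ops_S (sS3333_1 h.p0321) (ops_S (sS3333_3 h.p3021) (ops_S (sS3333_1 h.p1023) (ops_nil _)))) ez3333 y4333_0) (.cons (ent_i rfl rfl (ops_S (sS4332_2 h.p0213) (ops_nil _)) ez4332 y4333_3) (.cons (ent_i rfl rfl (ops_S (sS4332_2 h.p0312) (ops_nil _)) ez4332 y4333_2) (.cons (ent_i rfl rfl (ops_S (sS4332_2 h.p0321) (ops_nil _)) ez4332 y4333_1) .nil))))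
theorem sS4333_3 (h : Q A a b c d) : ∀ v, vec (e4333 a b c d) v = vec (e4333 a d c b) (appM S4333_3 v) :=
  fun v => (one_mul _).symm.trans (table_sound2 h.h.two (qS4333_3 h.p0321) (nf4333 h.p0321) kw4333_3 kS4333_3 v)
theorem lL4333_0 (h : Q A a b c d) : ∀ v, a * vec (e3333 a b c d) v = vec (e4333 a b c d) (appM L4333_0 v) :=
  table_sound2 h.h.two (qL4333_0 h) (nf4333 h) kv4333_0 kL4333_0
theorem lL4333_3 (h : Q A a b c d) : ∀ v, d * vec (e4332 a b c d) v = vec (e4333 a b c d) (appM L4333_3 v) :=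
  table_sound2 h.h.two (qL4333_3 h) (nf4333 h) kv4333_3 kL4333_3
theorem w4333 (h : Q A a b c d) : WP ![4, 3, 3, 3] ![a, b, c, d] (e4333 a b c d) :=
  wp_step4 (nf4333 h) (by decide) (Or.inr ⟨_, wp0123 (w3333 h), wp_r ez3333 y4333_0⟩) (Or.inr ⟨_, wp0231 (w4332 h.p0231), wp_r ez4332 y4333_1⟩) (Or.inr ⟨_, wp0132 (w4332 h.p0132), wp_r ez4332 y4333_2⟩) (Or.inr ⟨_, wp0123 (w4332 h), wp_r ez4332 y4333_3⟩)

theorem z5441 (h : Q A a b c d) : WP ![5, 4, 4, 1] ![a, b, c, d] (zfam : ℕ → K) :=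
  wp_step4 (F := fun r => r) (fun _ => rfl) (by decide) (Or.inr ⟨_, wp0123 (w4441 h), wp_z ez4441⟩) (Or.inr ⟨_, wp0213 (w5431 h.p0213), wp_z ez5431⟩) (Or.inr ⟨_, wp0123 (w5431 h), wp_z ez5431⟩) (Or.inr ⟨_, wp0123 (z5440 h), wp_z (fun _ _ => rfl)⟩)
theorem z5531 (h : Q A a b c d) : WP ![5, 5, 3, 1] ![a, b, c, d] (zfam : ℕ → K) :=
  wp_step4 (F := fun r => r) (fun _ => rfl) (by decide) (Or.inr ⟨_, wp1023 (w5431 h.p1023), wp_z ez5431⟩) (Or.inr ⟨_, wp0123 (w5431 h), wp_z ez5431⟩) (Or.inr ⟨_, wp0123 (w5521 h), wp_z ez5521⟩) (Or.inr ⟨_, wp0123 (z5530 h), wp_z (fun _ _ => rfl)⟩)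
theorem z6431 (h : Q A a b c d) : WP ![6, 4, 3, 1] ![a, b, c, d] (zfam : ℕ → K) :=
  wp_step4 (F := fun r => r) (fun _ => rfl) (by decide) (Or.inr ⟨_, wp0123 (w5431 h), wp_z ez5431⟩) (Or.inr ⟨_, wp0123 (z6331 h), wp_z (fun _ _ => rfl)⟩) (Or.inr ⟨_, wp0123 (w6421 h), wp_z ez6421⟩) (Or.inr ⟨_, wp0123 (z6430 h), wp_z (fun _ _ => rfl)⟩)
theorem z6521 (h : Q A a b c d) : WP ![6, 5, 2, 1] ![a, b, c, d] (zfam : ℕ → K) :=
  wp_step4 (F := fun r => r) (fun _ => rfl) (by decide) (Or.inr ⟨_, wp0123 (w5521 h), wp_z ez5521⟩) (Or.inr ⟨_, wp0123 (w6421 h), wp_z ez6421⟩) (Or.inr ⟨_, wp0123 (z6511 h), wp_z (fun _ _ => rfl)⟩) (Or.inr ⟨_, wp0123 (z6520 h), wp_z (fun _ _ => rfl)⟩)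
theorem z7421 (h : Q A a b c d) : WP ![7, 4, 2, 1] ![a, b, c, d] (zfam : ℕ → K) :=
  wp_step4 (F := fun r => r) (fun _ => rfl) (by decide) (Or.inr ⟨_, wp0123 (w6421 h), wp_z ez6421⟩) (Or.inr ⟨_, wp0123 (z7321 h), wp_z (fun _ _ => rfl)⟩) (Or.inr ⟨_, wp0123 (z7411 h), wp_z (fun _ _ => rfl)⟩) (Or.inr ⟨_, wp0123 (z7420 h), wp_z (fun _ _ => rfl)⟩)
theorem y8222_0 : ∀ k, k < 2 → symOf (ps8222 a b c d) (k + 0) = e7222 a b c d k * a :=
  sy_hd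
theorem y7322_0 : ∀ k, k < 5 → symOf (ps7322 a b c d) (k + 0) = e6322 a b c d k * a :=
  sy_hd
theorem y7322_1 : ∀ k, k < 2 → symOf (ps7322 a b c d) (k + 5) = e7222 a b c d k * b :=
  sy_tl (o := 0) (o' := 5) (sy_hd) rfl
theorem y6422_0 : ∀ k, k < 13 → symOf (ps6422 a b c d) (k + 0) = e5422 a b c d k * a :=
  sy_hd
theorem y6422_1 : ∀ k, k < 5 → symOf (ps6422 a b c d) (k + 13) = e6322 a b c d k * b :=
  sy_tl (o := 0) (o' := 13) (sy_hd) rfl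
theorem y6332_0 : ∀ k, k < 31 → symOf (ps6332 a b c d) (k + 0) = e5332 a b c d k * a :=
  sy_hd
theorem y6332_1 : ∀ k, k < 5 → symOf (ps6332 a b c d) (k + 31) = e6322 a c b d k * b :=
  sy_tl (o := 0) (o' := 31) (sy_hd) rfl
theorem y6332_2 : ∀ k, k < 5 → symOf (ps6332 a b c d) (k + 36) = e6322 a b c d k * c :=
  sy_tl (o := 5) (o' := 36) (sy_tl (o := 0) (o' := 5) (sy_hd) rfl) rfl
theorem y5522_0 : ∀ k, k < 13 → symOf (ps5522 a b c d) (k + 0) = e5422 b a c d k * a :=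
  sy_hd
theorem y5522_1 : ∀ k, k < 13 → symOf (ps5522 a b c d) (k + 13) = e5422 a b c d k * b :=
  sy_tl (o := 0) (o' := 13) (sy_hd) rfl
theorem y5432_0 : ∀ k, k < 58 → symOf (ps5432 a b c d) (k + 0) = e4432 a b c d k * a :=
  sy_hd
theorem y5432_1 : ∀ k, k < 31 → symOf (ps5432 a b c d) (k + 58) = e5332 a b c d k * b :=
  sy_tl (o := 0) (o' := 58) (sy_hd) rfl
theorem y5432_2 : ∀ k, k < 13 → symOf (ps5432 a b c d) (k + 89) = e5422 a b c d k * c :=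
  sy_tl (o := 31) (o' := 89) (sy_tl (o := 0) (o' := 31) (sy_hd) rfl) rfl
theorem y5333_0 : ∀ k, k < 200 → symOf (ps5333 a b c d) (k + 0) = e4333 a b c d k * a :=
  sy_hd
theorem y5333_1 : ∀ k, k < 31 → symOf (ps5333 a b c d) (k + 200) = e5332 a c d b k * b :=
  sy_tl (o := 0) (o' := 200) (sy_hd) rfl
theorem y5333_2 : ∀ k, k < 31 → symOf (ps5333 a b c d) (k + 231) = e5332 a b d c k * c :=
  sy_tl (o := 31) (o' := 231) (sy_tl (o := 0) (o' := 31) (sy_hd) rfl) rfl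
theorem y5333_3 : ∀ k, k < 31 → symOf (ps5333 a b c d) (k + 262) = e5332 a b c d k * d :=
  sy_tl (o := 62) (o' := 262) (sy_tl (o := 31) (o' := 62) (sy_tl (o := 0) (o' := 31) (sy_hd) rfl) rfl) rfl
theorem y4442_0 : ∀ k, k < 58 → symOf (ps4442 a b c d) (k + 0) = e4432 b c a d k * a :=
  sy_hd
theorem y4442_1 : ∀ k, k < 58 → symOf (ps4442 a b c d) (k + 58) = e4432 a c b d k * b :=
  sy_tl (o := 0) (o' := 58) (sy_hd) rfl
theorem y4442_2 : ∀ k, k < 58 → symOf (ps4442 a b c d) (k + 116) = e4432 a b c d k * c :=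
  sy_tl (o := 58) (o' := 116) (sy_tl (o := 0) (o' := 58) (sy_hd) rfl) rfl
theorem y4433_0 : ∀ k, k < 200 → symOf (ps4433 a b c d) (k + 0) = e4333 b a c d k * a :=
  sy_hd
theorem y4433_1 : ∀ k, k < 200 → symOf (ps4433 a b c d) (k + 200) = e4333 a b c d k * b :=
  sy_tl (o := 0) (o' := 200) (sy_hd) rfl
theorem y4433_2 : ∀ k, k < 58 → symOf (ps4433 a b c d) (k + 400) = e4432 a b d c k * c :=
  sy_tl (o := 200) (o' := 400) (sy_tl (o := 0) (o' := 200) (sy_hd) rfl) rfl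
theorem y4433_3 : ∀ k, k < 58 → symOf (ps4433 a b c d) (k + 458) = e4432 a b c d k * d :=
  sy_tl (o := 258) (o' := 458) (sy_tl (o := 58) (o' := 258) (sy_tl (o := 0) (o' := 58) (sy_hd) rfl) rfl) rfl
theorem qL8222_0 (h : Q A a b c d) : List.Forall₂ (EntOk a (symOf (ps8222 a b c d)))
    (ps7222 a b c d) pL8222_0 :=
  (.cons (ent_i rfl rfl (ops_L (lL7222_0 h) (ops_nil _)) ez7222 y8222_0) (.cons (ent_n ez7221) (.cons (ent_n ez7221) (.cons (ent_n ez7221) .nil))))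
theorem nf8222 (h : Q A a b c d) : ∀ r, vec (symOf (ps8222 a b c d)) r = vec (e8222 a b c d) (appM N8222 r) :=
  block_sound2 h.h.two (ps := ps8222 a b c d) (ns := 2) rfl (raw5 (srcRow_spec h.h.two (qL8222_0 h) (nf7222 h) wf7222) (zf_spec _) (zf_spec _) (zf_spec _) (zf_spec _)) kb8222 co8222 u8222 el8222
theorem ez8222 : ∀ k, 0 ≤ k → e8222 a b c d k = 0 := eOf_ge _ (wfT_D wf8222).2
theorem lL8222_0 (h : Q A a b c d) : ∀ v, a * vec (e7222 a b c d) v = vec (e8222 a b c d) (appM L8222_0 v) :=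
  table_sound2 h.h.two (qL8222_0 h) (nf8222 h) kv8222_0 kL8222_0
theorem w8222 (h : Q A a b c d) : WP ![8, 2, 2, 2] ![a, b, c, d] (e8222 a b c d) :=
  wp_step4 (nf8222 h) (by decide) (Or.inr ⟨_, wp0123 (w7222 h), wp_r ez7222 y8222_0⟩) (Or.inr ⟨_, wp0231 (z8221 h.p0231), wp_z (fun _ _ => rfl)⟩) (Or.inr ⟨_, wp0132 (z8221 h.p0132), wp_z (fun _ _ => rfl)⟩) (Or.inr ⟨_, wp0123 (z8221 h), wp_z (fun _ _ => rfl)⟩)

theorem qL7322_0 (h : Q A a b c d) : List.Forall₂ (EntOk a (symOf (ps7322 a b c d)))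
    (ps6322 a b c d) pL7322_0 :=
  (.cons (ent_i rfl rfl (ops_L (lL6322_0 h) (ops_nil _)) ez6322 y7322_0) (.cons (ent_i rfl rfl (ops_L (lL7222_0 h) (ops_nil _)) ez7222 y7322_1) (.cons (ent_n ez6321) (.cons (ent_n ez6321) .nil))))
theorem qL7322_1 (h : Q A a b c d) : List.Forall₂ (EntOk b (symOf (ps7322 a b c d)))
    (ps7222 a b c d) pL7322_1 :=
  (.cons (ent_i rfl rfl (ops_L (lL6322_1 h) (ops_nil _)) ez6322 y7322_0) (.cons (ent_n ez7221) (.cons (ent_n ez7221) (.cons (ent_n ez7221) .nil))))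
theorem nf7322 (h : Q A a b c d) : ∀ r, vec (symOf (ps7322 a b c d)) r = vec (e7322 a b c d) (appM N7322 r) :=
  block_sound2 h.h.two (ps := ps7322 a b c d) (ns := 7) rfl (raw5 (srcRow_spec h.h.two (qL7322_0 h) (nf6322 h) wf6322) (srcRow_spec h.h.two (qL7322_1 h) (nf7222 h) wf7222) (zf_spec _) (zf_spec _) (zf_spec _)) kb7322 co7322 u7322 el7322
theorem ez7322 : ∀ k, 0 ≤ k → e7322 a b c d k = 0 := eOf_ge _ (wfT_D wf7322).2
theorem lL7322_0 (h : Q A a b c d) : ∀ v, a * vec (e6322 a b c d) v = vec (e7322 a b c d) (appM L7322_0 v) :=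
  table_sound2 h.h.two (qL7322_0 h) (nf7322 h) kv7322_0 kL7322_0
theorem lL7322_1 (h : Q A a b c d) : ∀ v, b * vec (e7222 a b c d) v = vec (e7322 a b c d) (appM L7322_1 v) :=
  table_sound2 h.h.two (qL7322_1 h) (nf7322 h) kv7322_1 kL7322_1
theorem w7322 (h : Q A a b c d) : WP ![7, 3, 2, 2] ![a, b, c, d] (e7322 a b c d) :=
  wp_step4 (nf7322 h) (by decide) (Or.inr ⟨_, wp0123 (w6322 h), wp_r ez6322 y7322_0⟩) (Or.inr ⟨_, wp0123 (w7222 h), wp_r ez7222 y7322_1⟩) (Or.inr ⟨_, wp0132 (z7321 h.p0132), wp_z (fun _ _ => rfl)⟩) (Or.inr ⟨_, wp0123 (z7321 h), wp_z (fun _ _ => rfl)⟩)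

theorem qL6422_0 (h : Q A a b c d) : List.Forall₂ (EntOk a (symOf (ps6422 a b c d)))
    (ps5422 a b c d) pL6422_0 :=
  (.cons (ent_i rfl rfl (ops_L (lL5422_0 h) (ops_nil _)) ez5422 y6422_0) (.cons (ent_i rfl rfl (ops_L (lL6322_0 h) (ops_nil _)) ez6322 y6422_1) (.cons (ent_z rfl (ops_L (lL6421_0 h.p0132) (ops_nil _)) ez6421) (.cons (ent_z rfl (ops_L (lL6421_0 h) (ops_nil _)) ez6421) .nil))))
theorem qL6422_1 (h : Q A a b c d) : List.Forall₂ (EntOk b (symOf (ps6422 a b c d)))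
    (ps6322 a b c d) pL6422_1 :=
  (.cons (ent_i rfl rfl (ops_L (lL5422_1 h) (ops_nil _)) ez5422 y6422_0) (.cons (ent_i rfl rfl (ops_L (lL6322_1 h) (ops_nil _)) ez6322 y6422_1) (.cons (ent_n ez6321) (.cons (ent_n ez6321) .nil))))
theorem qL6422_2 (h : Q A a b c d) : List.Forall₂ (EntOk c (symOf (ps6422 a b c d)))
    (ps6421 a b d c) pL6422_2 :=
  (.cons (ent_i rfl rfl (ops_L (lL5422_3 h.p0132) (ops_S (sS5422_3 h.p0132) (ops_nil _))) ez5422 y6422_0) (.cons (ent_n ez6321) .nil))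
theorem qL6422_3 (h : Q A a b c d) : List.Forall₂ (EntOk d (symOf (ps6422 a b c d)))
    (ps6421 a b c d) pL6422_3 :=
  (.cons (ent_i rfl rfl (ops_L (lL5422_3 h) (ops_nil _)) ez5422 y6422_0) (.cons (ent_n ez6321) .nil))
theorem nf6422 (h : Q A a b c d) : ∀ r, vec (symOf (ps6422 a b c d)) r = vec (e6422 a b c d) (appM N6422 r) :=
  block_sound2 h.h.two (ps := ps6422 a b c d) (ns := 18) rfl (raw5 (srcRow_spec h.h.two (qL6422_0 h) (nf5422 h) wf5422) (srcRow_spec h.h.two (qL6422_1 h) (nf6322 h) wf6322) (srcRow_spec h.h.two (qL6422_2 h) (nf6421 h.p0132) wf6421) (srcRow_spec h.h.two (qL6422_3 h) (nf6421 h) wf6421) (zf_spec _)) kb6422 co6422 u6422 el6422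
theorem ez6422 : ∀ k, 1 ≤ k → e6422 a b c d k = 0 := eOf_ge _ (wfT_D wf6422).2
theorem qS6422_3 (h : Q A a b c d) : List.Forall₂ (EntOk 1 (symOf (ps6422 a b c d)))
    (ps6422 a b d c) pS6422_3 :=
  (.cons (ent_i rfl rfl (ops_S (sS5422_3 h.p0132) (ops_nil _)) ez5422 y6422_0) (.cons (ent_i rfl rfl (ops_S (sS6322_3 h.p0132) (ops_nil _)) ez6322 y6422_1) (.cons (ent_n ez6421) (.cons (ent_n ez6421) .nil))))
theorem sS6422_3 (h : Q A a b c d) : ∀ v, vec (e6422 a b c d) v = vec (e6422 a b d c) (appM S6422_3 v) :=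
  fun v => (one_mul _).symm.trans (table_sound2 h.h.two (qS6422_3 h.p0132) (nf6422 h.p0132) kw6422_3 kS6422_3 v)
theorem lL6422_0 (h : Q A a b c d) : ∀ v, a * vec (e5422 a b c d) v = vec (e6422 a b c d) (appM L6422_0 v) :=
  table_sound2 h.h.two (qL6422_0 h) (nf6422 h) kv6422_0 kL6422_0
theorem lL6422_1 (h : Q A a b c d) : ∀ v, b * vec (e6322 a b c d) v = vec (e6422 a b c d) (appM L6422_1 v) :=
  table_sound2 h.h.two (qL6422_1 h) (nf6422 h) kv6422_1 kL6422_1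
theorem w6422 (h : Q A a b c d) : WP ![6, 4, 2, 2] ![a, b, c, d] (e6422 a b c d) :=
  wp_step4 (nf6422 h) (by decide) (Or.inr ⟨_, wp0123 (w5422 h), wp_r ez5422 y6422_0⟩) (Or.inr ⟨_, wp0123 (w6322 h), wp_r ez6322 y6422_1⟩) (Or.inr ⟨_, wp0132 (w6421 h.p0132), wp_z ez6421⟩) (Or.inr ⟨_, wp0123 (w6421 h), wp_z ez6421⟩)

theorem qL6332_0 (h : Q A a b c d) : List.Forall₂ (EntOk a (symOf (ps6332 a b c d)))
    (ps5332 a b c d) pL6332_0 :=
  (.cons (ent_i rfl rfl (ops_L (lL5332_0 h) (ops_nil _)) ez5332 y6332_0) (.cons (ent_i rfl rfl (ops_L (lL6322_0 h.p0213) (ops_nil _)) ez6322 y6332_1) (.cons (ent_i rfl rfl (ops_L (lL6322_0 h) (ops_nil _)) ez6322 y6332_2) (.cons (ent_n ez5331) .nil))))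
theorem qL6332_1 (h : Q A a b c d) : List.Forall₂ (EntOk b (symOf (ps6332 a b c d)))
    (ps6322 a c b d) pL6332_1 :=
  (.cons (ent_i rfl rfl (ops_L (lL5332_2 h.p0213) (ops_S (sS5332_2 h.p0213) (ops_nil _))) ez5332 y6332_0) (.cons (ent_i rfl rfl (ops_S (sS6222_2 h.p0213) (ops_L (lL6322_1 h) (ops_nil _))) ez6322 y6332_2) (.cons (ent_n ez6321) (.cons (ent_n ez6321) .nil))))
theorem qL6332_2 (h : Q A a b c d) : List.Forall₂ (EntOk c (symOf (ps6332 a b c d)))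
    (ps6322 a b c d) pL6332_2 :=
  (.cons (ent_i rfl rfl (ops_L (lL5332_2 h) (ops_nil _)) ez5332 y6332_0) (.cons (ent_i rfl rfl (ops_S (sS6222_2 h) (ops_L (lL6322_1 h.p0213) (ops_nil _))) ez6322 y6332_1) (.cons (ent_n ez6321) (.cons (ent_n ez6321) .nil))))
theorem nf6332 (h : Q A a b c d) : ∀ r, vec (symOf (ps6332 a b c d)) r = vec (e6332 a b c d) (appM N6332 r) :=
  block_sound2 h.h.two (ps := ps6332 a b c d) (ns := 41) rfl (raw5 (srcRow_spec h.h.two (qL6332_0 h) (nf5332 h) wf5332) (srcRow_spec h.h.two (qL6332_1 h) (nf6322 h.p0213) wf6322) (srcRow_spec h.h.two (qL6332_2 h) (nf6322 h) wf6322) (zf_spec _) (zf_spec _)) kb6332 co6332 u6332 el6332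
theorem ez6332 : ∀ k, 0 ≤ k → e6332 a b c d k = 0 := eOf_ge _ (wfT_D wf6332).2
theorem lL6332_0 (h : Q A a b c d) : ∀ v, a * vec (e5332 a b c d) v = vec (e6332 a b c d) (appM L6332_0 v) :=
  table_sound2 h.h.two (qL6332_0 h) (nf6332 h) kv6332_0 kL6332_0
theorem lL6332_2 (h : Q A a b c d) : ∀ v, c * vec (e6322 a b c d) v = vec (e6332 a b c d) (appM L6332_2 v) :=
  table_sound2 h.h.two (qL6332_2 h) (nf6332 h) kv6332_2 kL6332_2
theorem w6332 (h : Q A a b c d) : WP ![6, 3, 3, 2] ![a, b, c, d] (e6332 a b c d) :=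
  wp_step4 (nf6332 h) (by decide) (Or.inr ⟨_, wp0123 (w5332 h), wp_r ez5332 y6332_0⟩) (Or.inr ⟨_, wp0213 (w6322 h.p0213), wp_r ez6322 y6332_1⟩) (Or.inr ⟨_, wp0123 (w6322 h), wp_r ez6322 y6332_2⟩) (Or.inr ⟨_, wp0123 (z6331 h), wp_z (fun _ _ => rfl)⟩)

theorem qL5522_0 (h : Q A a b c d) : List.Forall₂ (EntOk a (symOf (ps5522 a b c d)))
    (ps5422 b a c d) pL5522_0 :=
  (.cons (ent_i rfl rfl (ops_S (sS4422_1 h.p1023) (ops_L (lL5422_0 h) (ops_nil _))) ez5422 y5522_1) (.cons (ent_i rfl rfl (ops_L (lL5422_1 h.p1023) (ops_nil _)) ez5422 y5522_0) (.cons (ent_z rfl (ops_L (lL5521_1 h.p1032) (ops_nil _)) ez5521) (.cons (ent_z rfl (ops_L (lL5521_1 h.p1023) (ops_nil _)) ez5521) .nil))))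
theorem qL5522_1 (h : Q A a b c d) : List.Forall₂ (EntOk b (symOf (ps5522 a b c d)))
    (ps5422 a b c d) pL5522_1 :=
  (.cons (ent_i rfl rfl (ops_S (sS4422_1 h) (ops_L (lL5422_0 h.p1023) (ops_nil _))) ez5422 y5522_0) (.cons (ent_i rfl rfl (ops_L (lL5422_1 h) (ops_nil _)) ez5422 y5522_1) (.cons (ent_z rfl (ops_L (lL5521_1 h.p0132) (ops_nil _)) ez5521) (.cons (ent_z rfl (ops_L (lL5521_1 h) (ops_nil _)) ez5521) .nil))))
theorem qL5522_2 (h : Q A a b c d) : List.Forall₂ (EntOk c (symOf (ps5522 a b c d)))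
    (ps5521 a b d c) pL5522_2 :=
  (.cons (ent_i rfl rfl (ops_L (lL5422_3 h.p1032) (ops_S (sS5422_3 h.p1032) (ops_nil _))) ez5422 y5522_0) (.cons (ent_i rfl rfl (ops_L (lL5422_3 h.p0132) (ops_S (sS5422_3 h.p0132) (ops_nil _))) ez5422 y5522_1) .nil))
theorem qL5522_3 (h : Q A a b c d) : List.Forall₂ (EntOk d (symOf (ps5522 a b c d)))
    (ps5521 a b c d) pL5522_3 :=
  (.cons (ent_i rfl rfl (ops_L (lL5422_3 h.p1023) (ops_nil _)) ez5422 y5522_0) (.cons (ent_i rfl rfl (ops_L (lL5422_3 h) (ops_nil _)) ez5422 y5522_1) .nil))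
theorem nf5522 (h : Q A a b c d) : ∀ r, vec (symOf (ps5522 a b c d)) r = vec (e5522 a b c d) (appM N5522 r) :=
  block_sound2 h.h.two (ps := ps5522 a b c d) (ns := 26) rfl (raw5 (srcRow_spec h.h.two (qL5522_0 h) (nf5422 h.p1023) wf5422) (srcRow_spec h.h.two (qL5522_1 h) (nf5422 h) wf5422) (srcRow_spec h.h.two (qL5522_2 h) (nf5521 h.p0132) wf5521) (srcRow_spec h.h.two (qL5522_3 h) (nf5521 h) wf5521) (zf_spec _)) kb5522 co5522 u5522 el5522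
theorem ez5522 : ∀ k, 0 ≤ k → e5522 a b c d k = 0 := eOf_ge _ (wfT_D wf5522).2
theorem lL5522_1 (h : Q A a b c d) : ∀ v, b * vec (e5422 a b c d) v = vec (e5522 a b c d) (appM L5522_1 v) :=
  table_sound2 h.h.two (qL5522_1 h) (nf5522 h) kv5522_1 kL5522_1
theorem w5522 (h : Q A a b c d) : WP ![5, 5, 2, 2] ![a, b, c, d] (e5522 a b c d) :=
  wp_step4 (nf5522 h) (by decide) (Or.inr ⟨_, wp1023 (w5422 h.p1023), wp_r ez5422 y5522_0⟩) (Or.inr ⟨_, wp0123 (w5422 h), wp_r ez5422 y5522_1⟩) (Or.inr ⟨_, wp0132 (w5521 h.p0132), wp_z ez5521⟩) (Or.inr ⟨_, wp0123 (w5521 h), wp_z ez5521⟩)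

theorem qL5432_0 (h : Q A a b c d) : List.Forall₂ (EntOk a (symOf (ps5432 a b c d)))
    (ps4432 a b c d) pL5432_0 :=
  (.cons (ent_i rfl rfl (ops_L (lL4432_1 h.p1023) (ops_S (sS4432_1 h.p1023) (ops_nil _))) ez4432 y5432_0) (.cons (ent_i rfl rfl (ops_L (lL5332_0 h) (ops_nil _)) ez5332 y5432_1) (.cons (ent_i rfl rfl (ops_L (lL5422_0 h) (ops_nil _)) ez5422 y5432_2) (.cons (ent_z rfl (ops_L (lL5431_0 h) (ops_nil _)) ez5431) .nil))))
theorem qL5432_1 (h : Q A a b c d) : List.Forall₂ (EntOk b (symOf (ps5432 a b c d)))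
    (ps5332 a b c d) pL5432_1 :=
  (.cons (ent_i rfl rfl (ops_L (lL4432_1 h) (ops_nil _)) ez4432 y5432_0) (.cons (ent_i rfl rfl (ops_L (lL5332_2 h.p0213) (ops_S (sS5332_2 h.p0213) (ops_nil _))) ez5332 y5432_1) (.cons (ent_i rfl rfl (ops_L (lL5422_1 h) (ops_nil _)) ez5422 y5432_2) (.cons (ent_n ez5331) .nil))))
theorem qL5432_2 (h : Q A a b c d) : List.Forall₂ (EntOk c (symOf (ps5432 a b c d)))
    (ps5422 a b c d) pL5432_2 :=
  (.cons (ent_i rfl rfl (ops_L (lL4432_2 h) (ops_nil _)) ez4432 y5432_0) (.cons (ent_i rfl rfl (ops_L (lL5332_2 h) (ops_nil _)) ez5332 y5432_1) (.cons (ent_i rfl rfl (ops_L (lL5422_3 h.p0132) (ops_S (sS5422_3 h.p0132) (ops_nil _))) ez5422 y5432_2) (.cons (ent_z rfl (ops_L (lL5431_2 h) (ops_nil _)) ez5431) .nil))))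
theorem qL5432_3 (h : Q A a b c d) : List.Forall₂ (EntOk d (symOf (ps5432 a b c d)))
    (ps5431 a b c d) pL5432_3 :=
  (.cons (ent_i rfl rfl (ops_L (lL4432_3 h) (ops_nil _)) ez4432 y5432_0) (.cons (ent_n ez5331) (.cons (ent_i rfl rfl (ops_L (lL5422_3 h) (ops_nil _)) ez5422 y5432_2) .nil)))
theorem nf5432 (h : Q A a b c d) : ∀ r, vec (symOf (ps5432 a b c d)) r = vec (e5432 a b c d) (appM N5432 r) :=
  block_sound2 h.h.two (ps := ps5432 a b c d) (ns := 102) rfl (raw5 (srcRow_spec h.h.two (qL5432_0 h) (nf4432 h) wf4432) (srcRow_spec h.h.two (qL5432_1 h) (nf5332 h) wf5332) (srcRow_spec h.h.two (qL5432_2 h) (nf5422 h) wf5422) (srcRow_spec h.h.two (qL5432_3 h) (nf5431 h) wf5431) (zf_spec _)) kb5432 co5432 u5432 el5432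
theorem ez5432 : ∀ k, 3 ≤ k → e5432 a b c d k = 0 := eOf_ge _ (wfT_D wf5432).2
theorem lL5432_0 (h : Q A a b c d) : ∀ v, a * vec (e4432 a b c d) v = vec (e5432 a b c d) (appM L5432_0 v) :=
  table_sound2 h.h.two (qL5432_0 h) (nf5432 h) kv5432_0 kL5432_0
theorem lL5432_1 (h : Q A a b c d) : ∀ v, b * vec (e5332 a b c d) v = vec (e5432 a b c d) (appM L5432_1 v) :=
  table_sound2 h.h.two (qL5432_1 h) (nf5432 h) kv5432_1 kL5432_1
theorem lL5432_2 (h : Q A a b c d) : ∀ v, c * vec (e5422 a b c d) v = vec (e5432 a b c d) (appM L5432_2 v) :=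
  table_sound2 h.h.two (qL5432_2 h) (nf5432 h) kv5432_2 kL5432_2
theorem w5432 (h : Q A a b c d) : WP ![5, 4, 3, 2] ![a, b, c, d] (e5432 a b c d) :=
  wp_step4 (nf5432 h) (by decide) (Or.inr ⟨_, wp0123 (w4432 h), wp_r ez4432 y5432_0⟩) (Or.inr ⟨_, wp0123 (w5332 h), wp_r ez5332 y5432_1⟩) (Or.inr ⟨_, wp0123 (w5422 h), wp_r ez5422 y5432_2⟩) (Or.inr ⟨_, wp0123 (w5431 h), wp_z ez5431⟩)

theorem qL5333_0 (h : Q A a b c d) : List.Forall₂ (EntOk a (symOf (ps5333 a b c d)))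
    (ps4333 a b c d) pL5333_0 :=
  (.cons (ent_i rfl rfl (ops_L (lL4333_0 h) (ops_nil _)) ez4333 y5333_0) (.cons (ent_i rfl rfl (ops_L (lL5332_0 h.p0231) (ops_nil _)) ez5332 y5333_1) (.cons (ent_i rfl rfl (ops_L (lL5332_0 h.p0132) (ops_nil _)) ez5332 y5333_2) (.cons (ent_i rfl rfl (ops_L (lL5332_0 h) (ops_nil _)) ez5332 y5333_3) .nil))))
theorem qL5333_1 (h : Q A a b c d) : List.Forall₂ (EntOk b (symOf (ps5333 a b c d)))
    (ps5332 a c d b) pL5333_1 :=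
  (.cons (ent_i rfl rfl (ops_L (lL4333_3 h.p0231) (ops_S (sS4333_2 h.p0231) (ops_S (sS4333_3 h.p0321) (ops_S (sS4333_2 h) (ops_S (sS4333_2 h.p0213) (ops_nil _)))))) ez4333 y5333_0) (.cons (ent_i rfl rfl (ops_S (sS5322_3 h.p0321) (ops_L (lL5332_2 h.p0312) (ops_S (sS5332_2 h.p0312) (ops_nil _)))) ez5332 y5333_2) (.cons (ent_i rfl rfl (ops_S (sS5322_3 h.p0231) (ops_L (lL5332_2 h.p0213) (ops_S (sS5332_2 h.p0213) (ops_nil _)))) ez5332 y5333_3) (.cons (ent_n ez5331) .nil))))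
theorem qL5333_2 (h : Q A a b c d) : List.Forall₂ (EntOk c (symOf (ps5333 a b c d)))
    (ps5332 a b d c) pL5333_2 :=
  (.cons (ent_i rfl rfl (ops_L (lL4333_3 h.p0132) (ops_S (sS4333_2 h.p0132) (ops_S (sS4333_3 h.p0312) (ops_S (sS4333_2 h.p0213) (ops_nil _))))) ez4333 y5333_0) (.cons (ent_i rfl rfl (ops_S (sS5322_3 h.p0312) (ops_L (lL5332_2 h.p0321) (ops_S (sS5332_2 h.p0321) (ops_nil _)))) ez5332 y5333_1) (.cons (ent_i rfl rfl (ops_S (sS5322_3 h.p0132) (ops_L (lL5332_2 h) (ops_nil _))) ez5332 y5333_3) (.cons (ent_n ez5331) .nil))))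
theorem qL5333_3 (h : Q A a b c d) : List.Forall₂ (EntOk d (symOf (ps5333 a b c d)))
    (ps5332 a b c d) pL5333_3 :=
  (.cons (ent_i rfl rfl (ops_L (lL4333_3 h) (ops_nil _)) ez4333 y5333_0) (.cons (ent_i rfl rfl (ops_S (sS5322_3 h.p0213) (ops_L (lL5332_2 h.p0231) (ops_nil _))) ez5332 y5333_1) (.cons (ent_i rfl rfl (ops_S (sS5322_3 h) (ops_L (lL5332_2 h.p0132) (ops_nil _))) ez5332 y5333_2) (.cons (ent_n ez5331) .nil))))
theorem nf5333 (h : Q A a b c d) : ∀ r, vec (symOf (ps5333 a b c d)) r = vec (e5333 a b c d) (appM N5333 r) :=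
  block_sound2 h.h.two (ps := ps5333 a b c d) (ns := 293) rfl (raw5 (srcRow_spec h.h.two (qL5333_0 h) (nf4333 h) wf4333) (srcRow_spec h.h.two (qL5333_1 h) (nf5332 h.p0231) wf5332) (srcRow_spec h.h.two (qL5333_2 h) (nf5332 h.p0132) wf5332) (srcRow_spec h.h.two (qL5333_3 h) (nf5332 h) wf5332) (zf_spec _)) kb5333 co5333 u5333 el5333
theorem ez5333 : ∀ k, 22 ≤ k → e5333 a b c d k = 0 := eOf_ge _ (wfT_D wf5333).2
theorem qS5333_2 (h : Q A a b c d) : List.Forall₂ (EntOk 1 (symOf (ps5333 a b c d)))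
    (ps5333 a c b d) pS5333_2 :=
  (.cons (ent_i rfl rfl (ops_S (sS4333_2 h.p0213) (ops_nil _)) ez4333 y5333_0) (.cons (ent_i rfl rfl (ops_nil _) ez5332 y5333_2) (.cons (ent_i rfl rfl (ops_nil _) ez5332 y5333_1) (.cons (ent_i rfl rfl (ops_S (sS5332_2 h.p0213) (ops_nil _)) ez5332 y5333_3) .nil))))
theorem sS5333_2 (h : Q A a b c d) : ∀ v, vec (e5333 a b c d) v = vec (e5333 a c b d) (appM S5333_2 v) :=
  fun v => (one_mul _).symm.trans (table_sound2 h.h.two (qS5333_2 h.p0213) (nf5333 h.p0213) kw5333_2 kS5333_2 v)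
theorem qS5333_3 (h : Q A a b c d) : List.Forall₂ (EntOk 1 (symOf (ps5333 a b c d)))
    (ps5333 a d c b) pS5333_3 :=
  (.cons (ent_i rfl rfl (ops_S (sS4333_3 h.p0321) (ops_nil _)) ez4333 y5333_0) (.cons (ent_i rfl rfl (ops_S (sS5332_2 h.p0213) (ops_nil _)) ez5332 y5333_3) (.cons (ent_i rfl rfl (ops_S (sS5332_2 h.p0312) (ops_nil _)) ez5332 y5333_2) (.cons (ent_i rfl rfl (ops_S (sS5332_2 h.p0321) (ops_nil _)) ez5332 y5333_1) .nil))))
theorem sS5333_3 (h : Q A a b c d) : ∀ v, vec (e5333 a b c d) v = vec (e5333 a d c b) (appM S5333_3 v) :=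
  fun v => (one_mul _).symm.trans (table_sound2 h.h.two (qS5333_3 h.p0321) (nf5333 h.p0321) kw5333_3 kS5333_3 v)
theorem lL5333_0 (h : Q A a b c d) : ∀ v, a * vec (e4333 a b c d) v = vec (e5333 a b c d) (appM L5333_0 v) :=
  table_sound2 h.h.two (qL5333_0 h) (nf5333 h) kv5333_0 kL5333_0
theorem lL5333_3 (h : Q A a b c d) : ∀ v, d * vec (e5332 a b c d) v = vec (e5333 a b c d) (appM L5333_3 v) :=
  table_sound2 h.h.two (qL5333_3 h) (nf5333 h) kv5333_3 kL5333_3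
theorem w5333 (h : Q A a b c d) : WP ![5, 3, 3, 3] ![a, b, c, d] (e5333 a b c d) :=
  wp_step4 (nf5333 h) (by decide) (Or.inr ⟨_, wp0123 (w4333 h), wp_r ez4333 y5333_0⟩) (Or.inr ⟨_, wp0231 (w5332 h.p0231), wp_r ez5332 y5333_1⟩) (Or.inr ⟨_, wp0132 (w5332 h.p0132), wp_r ez5332 y5333_2⟩) (Or.inr ⟨_, wp0123 (w5332 h), wp_r ez5332 y5333_3⟩)

theorem qL4442_0 (h : Q A a b c d) : List.Forall₂ (EntOk a (symOf (ps4442 a b c d)))
    (ps4432 b c a d) pL4442_0 :=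
  (.cons (ent_i rfl rfl (ops_S (sS4332_2 h.p2103) (ops_L (lL4432_1 h.p2013) (ops_S (sS4432_1 h.p2013) (ops_nil _)))) ez4432 y4442_1) (.cons (ent_i rfl rfl (ops_S (sS4332_2 h.p1203) (ops_L (lL4432_1 h.p1023) (ops_S (sS4432_1 h.p1023) (ops_nil _)))) ez4432 y4442_2) (.cons (ent_i rfl rfl (ops_L (lL4432_2 h.p1203) (ops_nil _)) ez4432 y4442_0) (.cons (ent_z rfl (ops_L (lL4441_2 h.p1203) (ops_nil _)) ez4441) .nil))))
theorem qL4442_1 (h : Q A a b c d) : List.Forall₂ (EntOk b (symOf (ps4442 a b c d)))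
    (ps4432 a c b d) pL4442_1 :=
  (.cons (ent_i rfl rfl (ops_S (sS4332_2 h.p2013) (ops_L (lL4432_1 h.p2103) (ops_S (sS4432_1 h.p2103) (ops_nil _)))) ez4432 y4442_0) (.cons (ent_i rfl rfl (ops_S (sS4332_2 h.p0213) (ops_L (lL4432_1 h) (ops_nil _))) ez4432 y4442_2) (.cons (ent_i rfl rfl (ops_L (lL4432_2 h.p0213) (ops_nil _)) ez4432 y4442_1) (.cons (ent_z rfl (ops_L (lL4441_2 h.p0213) (ops_nil _)) ez4441) .nil))))
theorem qL4442_2 (h : Q A a b c d) : List.Forall₂ (EntOk c (symOf (ps4442 a b c d)))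
    (ps4432 a b c d) pL4442_2 :=
  (.cons (ent_i rfl rfl (ops_S (sS4332_2 h.p1023) (ops_L (lL4432_1 h.p1203) (ops_nil _))) ez4432 y4442_0) (.cons (ent_i rfl rfl (ops_S (sS4332_2 h) (ops_L (lL4432_1 h.p0213) (ops_nil _))) ez4432 y4442_1) (.cons (ent_i rfl rfl (ops_L (lL4432_2 h) (ops_nil _)) ez4432 y4442_2) (.cons (ent_z rfl (ops_L (lL4441_2 h) (ops_nil _)) ez4441) .nil))))
theorem qL4442_3 (h : Q A a b c d) : List.Forall₂ (EntOk d (symOf (ps4442 a b c d)))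
    (ps4441 a b c d) pL4442_3 :=
  (.cons (ent_i rfl rfl (ops_L (lL4432_3 h.p1203) (ops_nil _)) ez4432 y4442_0) (.cons (ent_i rfl rfl (ops_L (lL4432_3 h.p0213) (ops_nil _)) ez4432 y4442_1) (.cons (ent_i rfl rfl (ops_L (lL4432_3 h) (ops_nil _)) ez4432 y4442_2) .nil)))
theorem nf4442 (h : Q A a b c d) : ∀ r, vec (symOf (ps4442 a b c d)) r = vec (e4442 a b c d) (appM N4442 r) :=
  block_sound2 h.h.two (ps := ps4442 a b c d) (ns := 174) rfl (raw5 (srcRow_spec h.h.two (qL4442_0 h) (nf4432 h.p1203) wf4432) (srcRow_spec h.h.two (qL4442_1 h) (nf4432 h.p0213) wf4432) (srcRow_spec h.h.two (qL4442_2 h) (nf4432 h) wf4432) (srcRow_spec h.h.two (qL4442_3 h) (nf4441 h) wf4441) (zf_spec _)) kb4442 co4442 u4442 el4442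
theorem ez4442 : ∀ k, 0 ≤ k → e4442 a b c d k = 0 := eOf_ge _ (wfT_D wf4442).2
theorem lL4442_2 (h : Q A a b c d) : ∀ v, c * vec (e4432 a b c d) v = vec (e4442 a b c d) (appM L4442_2 v) :=
  table_sound2 h.h.two (qL4442_2 h) (nf4442 h) kv4442_2 kL4442_2
theorem w4442 (h : Q A a b c d) : WP ![4, 4, 4, 2] ![a, b, c, d] (e4442 a b c d) :=
  wp_step4 (nf4442 h) (by decide) (Or.inr ⟨_, wp1203 (w4432 h.p1203), wp_r ez4432 y4442_0⟩) (Or.inr ⟨_, wp0213 (w4432 h.p0213), wp_r ez4432 y4442_1⟩) (Or.inr ⟨_, wp0123 (w4432 h), wp_r ez4432 y4442_2⟩) (Or.inr ⟨_, wp0123 (w4441 h), wp_z ez4441⟩)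

theorem qL4433_0 (h : Q A a b c d) : List.Forall₂ (EntOk a (symOf (ps4433 a b c d)))
    (ps4333 b a c d) pL4433_0 :=
  (.cons (ent_i rfl rfl (ops_S (sS3333_1 h.p1023) (ops_L (lL4333_0 h) (ops_nil _))) ez4333 y4433_1) (.cons (ent_i rfl rfl (ops_L (lL4333_3 h.p1230) (ops_S (sS4333_2 h.p1230) (ops_S (sS4333_3 h.p1320) (ops_S (sS4333_2 h.p1023) (ops_S (sS4333_2 h.p1203) (ops_nil _)))))) ez4333 y4433_0) (.cons (ent_i rfl rfl (ops_L (lL4432_1 h.p1032) (ops_S (sS4432_1 h.p1032) (ops_nil _))) ez4432 y4433_2) (.cons (ent_i rfl rfl (ops_L (lL4432_1 h.p1023) (ops_S (sS4432_1 h.p1023) (ops_nil _))) ez4432 y4433_3) .nil))))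
theorem qL4433_1 (h : Q A a b c d) : List.Forall₂ (EntOk b (symOf (ps4433 a b c d)))
    (ps4333 a b c d) pL4433_1 :=
  (.cons (ent_i rfl rfl (ops_S (sS3333_1 h) (ops_L (lL4333_0 h.p1023) (ops_nil _))) ez4333 y4433_0) (.cons (ent_i rfl rfl (ops_L (lL4333_3 h.p0231) (ops_S (sS4333_2 h.p0231) (ops_S (sS4333_3 h.p0321) (ops_S (sS4333_2 h) (ops_S (sS4333_2 h.p0213) (ops_nil _)))))) ez4333 y4433_1) (.cons (ent_i rfl rfl (ops_L (lL4432_1 h.p0132) (ops_nil _)) ez4432 y4433_2) (.cons (ent_i rfl rfl (ops_L (lL4432_1 h) (ops_nil _)) ez4432 y4433_3) .nil))))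
theorem qL4433_2 (h : Q A a b c d) : List.Forall₂ (EntOk c (symOf (ps4433 a b c d)))
    (ps4432 a b d c) pL4433_2 :=
  (.cons (ent_i rfl rfl (ops_L (lL4333_3 h.p1032) (ops_S (sS4333_2 h.p1032) (ops_S (sS4333_3 h.p1302) (ops_S (sS4333_2 h.p1203) (ops_nil _))))) ez4333 y4433_0) (.cons (ent_i rfl rfl (ops_L (lL4333_3 h.p0132) (ops_S (sS4333_2 h.p0132) (ops_S (sS4333_3 h.p0312) (ops_S (sS4333_2 h.p0213) (ops_nil _))))) ez4333 y4433_1) (.cons (ent_i rfl rfl (ops_S (sS4422_3 h.p0132) (ops_L (lL4432_2 h) (ops_nil _))) ez4432 y4433_3) (.cons (ent_i rfl rfl (ops_L (lL4432_3 h.p0132) (ops_nil _)) ez4432 y4433_2) .nil))))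
theorem qL4433_3 (h : Q A a b c d) : List.Forall₂ (EntOk d (symOf (ps4433 a b c d)))
    (ps4432 a b c d) pL4433_3 :=
  (.cons (ent_i rfl rfl (ops_L (lL4333_3 h.p1023) (ops_nil _)) ez4333 y4433_0) (.cons (ent_i rfl rfl (ops_L (lL4333_3 h) (ops_nil _)) ez4333 y4433_1) (.cons (ent_i rfl rfl (ops_S (sS4422_3 h) (ops_L (lL4432_2 h.p0132) (ops_nil _))) ez4432 y4433_2) (.cons (ent_i rfl rfl (ops_L (lL4432_3 h) (ops_nil _)) ez4432 y4433_3) .nil))))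
theorem nf4433 (h : Q A a b c d) : ∀ r, vec (symOf (ps4433 a b c d)) r = vec (e4433 a b c d) (appM N4433 r) :=
  block_sound2 h.h.two (ps := ps4433 a b c d) (ns := 516) rfl (raw5 (srcRow_spec h.h.two (qL4433_0 h) (nf4333 h.p1023) wf4333) (srcRow_spec h.h.two (qL4433_1 h) (nf4333 h) wf4333) (srcRow_spec h.h.two (qL4433_2 h) (nf4432 h.p0132) wf4432) (srcRow_spec h.h.two (qL4433_3 h) (nf4432 h) wf4432) (zf_spec _)) kb4433 co4433 u4433 el4433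
theorem ez4433 : ∀ k, 44 ≤ k → e4433 a b c d k = 0 := eOf_ge _ (wfT_D wf4433).2
theorem qS4433_1 (h : Q A a b c d) : List.Forall₂ (EntOk 1 (symOf (ps4433 a b c d)))
    (ps4433 b a c d) pS4433_1 :=
  (.cons (ent_i rfl rfl (ops_nil _) ez4333 y4433_1) (.cons (ent_i rfl rfl (ops_nil _) ez4333 y4433_0) (.cons (ent_i rfl rfl (ops_S (sS4432_1 h.p1032) (ops_nil _)) ez4432 y4433_2) (.cons (ent_i rfl rfl (ops_S (sS4432_1 h.p1023) (ops_nil _)) ez4432 y4433_3) .nil))))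
theorem sS4433_1 (h : Q A a b c d) : ∀ v, vec (e4433 a b c d) v = vec (e4433 b a c d) (appM S4433_1 v) :=
  fun v => (one_mul _).symm.trans (table_sound2 h.h.two (qS4433_1 h.p1023) (nf4433 h.p1023) kw4433_1 kS4433_1 v)
theorem qS4433_3 (h : Q A a b c d) : List.Forall₂ (EntOk 1 (symOf (ps4433 a b c d)))
    (ps4433 a b d c) pS4433_3 :=
  (.cons (ent_i rfl rfl (ops_S (sS4333_2 h.p1032) (ops_S (sS4333_3 h.p1302) (ops_S (sS4333_2 h.p1203) (ops_nil _)))) ez4333 y4433_0) (.cons (ent_i rfl rfl (ops_S (sS4333_2 h.p0132) (ops_S (sS4333_3 h.p0312) (ops_S (sS4333_2 h.p0213) (ops_nil _)))) ez4333 y4433_1) (.cons (ent_i rfl rfl (ops_nil _) ez4432 y4433_3) (.cons (ent_i rfl rfl (ops_nil _) ez4432 y4433_2) .nil))))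
theorem sS4433_3 (h : Q A a b c d) : ∀ v, vec (e4433 a b c d) v = vec (e4433 a b d c) (appM S4433_3 v) :=
  fun v => (one_mul _).symm.trans (table_sound2 h.h.two (qS4433_3 h.p0132) (nf4433 h.p0132) kw4433_3 kS4433_3 v)
theorem lL4433_1 (h : Q A a b c d) : ∀ v, b * vec (e4333 a b c d) v = vec (e4433 a b c d) (appM L4433_1 v) :=
  table_sound2 h.h.two (qL4433_1 h) (nf4433 h) kv4433_1 kL4433_1
theorem lL4433_3 (h : Q A a b c d) : ∀ v, d * vec (e4432 a b c d) v = vec (e4433 a b c d) (appM L4433_3 v) :=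
  table_sound2 h.h.two (qL4433_3 h) (nf4433 h) kv4433_3 kL4433_3
theorem w4433 (h : Q A a b c d) : WP ![4, 4, 3, 3] ![a, b, c, d] (e4433 a b c d) :=
  wp_step4 (nf4433 h) (by decide) (Or.inr ⟨_, wp1023 (w4333 h.p1023), wp_r ez4333 y4433_0⟩) (Or.inr ⟨_, wp0123 (w4333 h), wp_r ez4333 y4433_1⟩) (Or.inr ⟨_, wp0132 (w4432 h.p0132), wp_r ez4432 y4433_2⟩) (Or.inr ⟨_, wp0123 (w4432 h), wp_r ez4432 y4433_3⟩)

theorem y7422_0 : ∀ k, k < 1 → symOf (ps7422 a b c d) (k + 0) = e6422 a b c d k * a :=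
  sy_hd
theorem y6522_1 : ∀ k, k < 1 → symOf (ps6522 a b c d) (k + 0) = e6422 a b c d k * b :=
  sy_tl (o := 0) (o' := 0) (sy_hd) rfl
theorem y6432_0 : ∀ k, k < 3 → symOf (ps6432 a b c d) (k + 0) = e5432 a b c d k * a :=
  sy_hd
theorem y6432_2 : ∀ k, k < 1 → symOf (ps6432 a b c d) (k + 3) = e6422 a b c d k * c :=
  sy_tl (o := 0) (o' := 3) (sy_tl (o := 0) (o' := 0) (sy_hd) rfl) rfl
theorem y6333_0 : ∀ k, k < 22 → symOf (ps6333 a b c d) (k + 0) = e5333 a b c d k * a :=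
  sy_hd
theorem y5532_0 : ∀ k, k < 3 → symOf (ps5532 a b c d) (k + 0) = e5432 b a c d k * a :=
  sy_hd
theorem y5532_1 : ∀ k, k < 3 → symOf (ps5532 a b c d) (k + 3) = e5432 a b c d k * b :=
  sy_tl (o := 0) (o' := 3) (sy_hd) rfl
theorem y5442_1 : ∀ k, k < 3 → symOf (ps5442 a b c d) (k + 0) = e5432 a c b d k * b :=
  sy_tl (o := 0) (o' := 0) (sy_hd) rfl
theorem y5442_2 : ∀ k, k < 3 → symOf (ps5442 a b c d) (k + 3) = e5432 a b c d k * c :=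
  sy_tl (o := 3) (o' := 3) (sy_tl (o := 0) (o' := 3) (sy_hd) rfl) rfl
theorem y5433_0 : ∀ k, k < 44 → symOf (ps5433 a b c d) (k + 0) = e4433 a b c d k * a :=
  sy_hd
theorem y5433_1 : ∀ k, k < 22 → symOf (ps5433 a b c d) (k + 44) = e5333 a b c d k * b :=
  sy_tl (o := 0) (o' := 44) (sy_hd) rfl
theorem y5433_2 : ∀ k, k < 3 → symOf (ps5433 a b c d) (k + 66) = e5432 a b d c k * c :=
  sy_tl (o := 22) (o' := 66) (sy_tl (o := 0) (o' := 22) (sy_hd) rfl) rfl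
theorem y5433_3 : ∀ k, k < 3 → symOf (ps5433 a b c d) (k + 69) = e5432 a b c d k * d :=
  sy_tl (o := 25) (o' := 69) (sy_tl (o := 3) (o' := 25) (sy_tl (o := 0) (o' := 3) (sy_hd) rfl) rfl) rfl
theorem y4443_0 : ∀ k, k < 44 → symOf (ps4443 a b c d) (k + 0) = e4433 b c a d k * a :=
  sy_hd
theorem y4443_1 : ∀ k, k < 44 → symOf (ps4443 a b c d) (k + 44) = e4433 a c b d k * b :=
  sy_tl (o := 0) (o' := 44) (sy_hd) rfl
theorem y4443_2 : ∀ k, k < 44 → symOf (ps4443 a b c d) (k + 88) = e4433 a b c d k * c :=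
  sy_tl (o := 44) (o' := 88) (sy_tl (o := 0) (o' := 44) (sy_hd) rfl) rfl
theorem qL7422_0 (h : Q A a b c d) : List.Forall₂ (EntOk a (symOf (ps7422 a b c d)))
    (ps6422 a b c d) pL7422_0 :=
  (.cons (ent_i rfl rfl (ops_L (lL6422_0 h) (ops_nil _)) ez6422 y7422_0) (.cons (ent_z rfl (ops_L (lL7322_0 h) (ops_nil _)) ez7322) (.cons (ent_n ez6421) (.cons (ent_n ez6421) .nil))))
theorem qL7422_1 (h : Q A a b c d) : List.Forall₂ (EntOk b (symOf (ps7422 a b c d)))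
    (ps7322 a b c d) pL7422_1 :=
  (.cons (ent_i rfl rfl (ops_L (lL6422_1 h) (ops_nil _)) ez6422 y7422_0) (.cons (ent_z rfl (ops_L (lL7322_1 h) (ops_nil _)) ez7322) .nil))
theorem nf7422 (h : Q A a b c d) : ∀ r, vec (symOf (ps7422 a b c d)) r = vec (e7422 a b c d) (appM N7422 r) :=
  block_sound2 h.h.two (ps := ps7422 a b c d) (ns := 1) rfl (raw5 (srcRow_spec h.h.two (qL7422_0 h) (nf6422 h) wf6422) (srcRow_spec h.h.two (qL7422_1 h) (nf7322 h) wf7322) (zf_spec _) (zf_spec _) (zf_spec _)) kb7422 co7422 u7422 el7422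
theorem ez7422 : ∀ k, 0 ≤ k → e7422 a b c d k = 0 := eOf_ge _ (wfT_D wf7422).2
theorem lL7422_0 (h : Q A a b c d) : ∀ v, a * vec (e6422 a b c d) v = vec (e7422 a b c d) (appM L7422_0 v) :=
  table_sound2 h.h.two (qL7422_0 h) (nf7422 h) kv7422_0 kL7422_0
theorem w7422 (h : Q A a b c d) : WP ![7, 4, 2, 2] ![a, b, c, d] (e7422 a b c d) :=
  wp_step4 (nf7422 h) (by decide) (Or.inr ⟨_, wp0123 (w6422 h), wp_r ez6422 y7422_0⟩) (Or.inr ⟨_, wp0123 (w7322 h), wp_z ez7322⟩) (Or.inr ⟨_, wp0132 (z7421 h.p0132), wp_z (fun _ _ => rfl)⟩) (Or.inr ⟨_, wp0123 (z7421 h), wp_z (fun _ _ => rfl)⟩)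

theorem qL6522_0 (h : Q A a b c d) : List.Forall₂ (EntOk a (symOf (ps6522 a b c d)))
    (ps5522 a b c d) pL6522_0 :=
  (.cons (ent_z rfl (ops_L (lL5522_1 h.p1023) (ops_nil _)) ez5522) (.cons (ent_i rfl rfl (ops_L (lL6422_0 h) (ops_nil _)) ez6422 y6522_1) (.cons (ent_n ez5521) (.cons (ent_n ez5521) .nil))))
theorem qL6522_1 (h : Q A a b c d) : List.Forall₂ (EntOk b (symOf (ps6522 a b c d)))
    (ps6422 a b c d) pL6522_1 :=
  (.cons (ent_z rfl (ops_L (lL5522_1 h) (ops_nil _)) ez5522) (.cons (ent_i rfl rfl (ops_L (lL6422_1 h) (ops_nil _)) ez6422 y6522_1) (.cons (ent_n ez6421) (.cons (ent_n ez6421) .nil))))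
theorem nf6522 (h : Q A a b c d) : ∀ r, vec (symOf (ps6522 a b c d)) r = vec (e6522 a b c d) (appM N6522 r) :=
  block_sound2 h.h.two (ps := ps6522 a b c d) (ns := 1) rfl (raw5 (srcRow_spec h.h.two (qL6522_0 h) (nf5522 h) wf5522) (srcRow_spec h.h.two (qL6522_1 h) (nf6422 h) wf6422) (zf_spec _) (zf_spec _) (zf_spec _)) kb6522 co6522 u6522 el6522
theorem ez6522 : ∀ k, 0 ≤ k → e6522 a b c d k = 0 := eOf_ge _ (wfT_D wf6522).2
theorem lL6522_1 (h : Q A a b c d) : ∀ v, b * vec (e6422 a b c d) v = vec (e6522 a b c d) (appM L6522_1 v) :=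
  table_sound2 h.h.two (qL6522_1 h) (nf6522 h) kv6522_1 kL6522_1
theorem w6522 (h : Q A a b c d) : WP ![6, 5, 2, 2] ![a, b, c, d] (e6522 a b c d) :=
  wp_step4 (nf6522 h) (by decide) (Or.inr ⟨_, wp0123 (w5522 h), wp_z ez5522⟩) (Or.inr ⟨_, wp0123 (w6422 h), wp_r ez6422 y6522_1⟩) (Or.inr ⟨_, wp0132 (z6521 h.p0132), wp_z (fun _ _ => rfl)⟩) (Or.inr ⟨_, wp0123 (z6521 h), wp_z (fun _ _ => rfl)⟩)

theorem qL6432_0 (h : Q A a b c d) : List.Forall₂ (EntOk a (symOf (ps6432 a b c d)))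
    (ps5432 a b c d) pL6432_0 :=
  (.cons (ent_i rfl rfl (ops_L (lL5432_0 h) (ops_nil _)) ez5432 y6432_0) (.cons (ent_z rfl (ops_L (lL6332_0 h) (ops_nil _)) ez6332) (.cons (ent_i rfl rfl (ops_L (lL6422_0 h) (ops_nil _)) ez6422 y6432_2) (.cons (ent_n ez5431) .nil))))
theorem qL6432_1 (h : Q A a b c d) : List.Forall₂ (EntOk b (symOf (ps6432 a b c d)))
    (ps6332 a b c d) pL6432_1 :=
  (.cons (ent_i rfl rfl (ops_L (lL5432_1 h) (ops_nil _)) ez5432 y6432_0) (.cons (ent_z rfl (ops_L (lL6332_2 h.p0213) (ops_nil _)) ez6332) (.cons (ent_i rfl rfl (ops_L (lL6422_1 h) (ops_nil _)) ez6422 y6432_2) .nil)))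
theorem qL6432_2 (h : Q A a b c d) : List.Forall₂ (EntOk c (symOf (ps6432 a b c d)))
    (ps6422 a b c d) pL6432_2 :=
  (.cons (ent_i rfl rfl (ops_L (lL5432_2 h) (ops_nil _)) ez5432 y6432_0) (.cons (ent_z rfl (ops_L (lL6332_2 h) (ops_nil _)) ez6332) (.cons (ent_n ez6421) (.cons (ent_n ez6421) .nil))))
theorem nf6432 (h : Q A a b c d) : ∀ r, vec (symOf (ps6432 a b c d)) r = vec (e6432 a b c d) (appM N6432 r) :=
  block_sound2 h.h.two (ps := ps6432 a b c d) (ns := 4) rfl (raw5 (srcRow_spec h.h.two (qL6432_0 h) (nf5432 h) wf5432) (srcRow_spec h.h.two (qL6432_1 h) (nf6332 h) wf6332) (srcRow_spec h.h.two (qL6432_2 h) (nf6422 h) wf6422) (zf_spec _) (zf_spec _)) kb6432 co6432 u6432 el6432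
theorem ez6432 : ∀ k, 0 ≤ k → e6432 a b c d k = 0 := eOf_ge _ (wfT_D wf6432).2
theorem lL6432_0 (h : Q A a b c d) : ∀ v, a * vec (e5432 a b c d) v = vec (e6432 a b c d) (appM L6432_0 v) :=
  table_sound2 h.h.two (qL6432_0 h) (nf6432 h) kv6432_0 kL6432_0
theorem lL6432_2 (h : Q A a b c d) : ∀ v, c * vec (e6422 a b c d) v = vec (e6432 a b c d) (appM L6432_2 v) :=
  table_sound2 h.h.two (qL6432_2 h) (nf6432 h) kv6432_2 kL6432_2
theorem w6432 (h : Q A a b c d) : WP ![6, 4, 3, 2] ![a, b, c, d] (e6432 a b c d) :=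
  wp_step4 (nf6432 h) (by decide) (Or.inr ⟨_, wp0123 (w5432 h), wp_r ez5432 y6432_0⟩) (Or.inr ⟨_, wp0123 (w6332 h), wp_z ez6332⟩) (Or.inr ⟨_, wp0123 (w6422 h), wp_r ez6422 y6432_2⟩) (Or.inr ⟨_, wp0123 (z6431 h), wp_z (fun _ _ => rfl)⟩)

theorem qL6333_0 (h : Q A a b c d) : List.Forall₂ (EntOk a (symOf (ps6333 a b c d)))
    (ps5333 a b c d) pL6333_0 :=
  (.cons (ent_i rfl rfl (ops_L (lL5333_0 h) (ops_nil _)) ez5333 y6333_0) (.cons (ent_z rfl (ops_L (lL6332_0 h.p0231) (ops_nil _)) ez6332) (.cons (ent_z rfl (ops_L (lL6332_0 h.p0132) (ops_nil _)) ez6332) (.cons (ent_z rfl (ops_L (lL6332_0 h) (ops_nil _)) ez6332) .nil))))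
theorem qL6333_1 (h : Q A a b c d) : List.Forall₂ (EntOk b (symOf (ps6333 a b c d)))
    (ps6332 a c d b) pL6333_1 :=
  (.cons (ent_i rfl rfl (ops_L (lL5333_3 h.p0231) (ops_S (sS5333_2 h.p0231) (ops_S (sS5333_3 h.p0321) (ops_S (sS5333_2 h) (ops_S (sS5333_2 h.p0213) (ops_nil _)))))) ez5333 y6333_0) (.cons (ent_z rfl (ops_S (sS6322_3 h.p0321) (ops_L (lL6332_2 h.p0312) (ops_nil _))) ez6332) (.cons (ent_z rfl (ops_S (sS6322_3 h.p0231) (ops_L (lL6332_2 h.p0213) (ops_nil _))) ez6332) .nil)))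
theorem qL6333_2 (h : Q A a b c d) : List.Forall₂ (EntOk c (symOf (ps6333 a b c d)))
    (ps6332 a b d c) pL6333_2 :=
  (.cons (ent_i rfl rfl (ops_L (lL5333_3 h.p0132) (ops_S (sS5333_2 h.p0132) (ops_S (sS5333_3 h.p0312) (ops_S (sS5333_2 h.p0213) (ops_nil _))))) ez5333 y6333_0) (.cons (ent_z rfl (ops_S (sS6322_3 h.p0312) (ops_L (lL6332_2 h.p0321) (ops_nil _))) ez6332) (.cons (ent_z rfl (ops_S (sS6322_3 h.p0132) (ops_L (lL6332_2 h) (ops_nil _))) ez6332) .nil)))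
theorem qL6333_3 (h : Q A a b c d) : List.Forall₂ (EntOk d (symOf (ps6333 a b c d)))
    (ps6332 a b c d) pL6333_3 :=
  (.cons (ent_i rfl rfl (ops_L (lL5333_3 h) (ops_nil _)) ez5333 y6333_0) (.cons (ent_z rfl (ops_S (sS6322_3 h.p0213) (ops_L (lL6332_2 h.p0231) (ops_nil _))) ez6332) (.cons (ent_z rfl (ops_S (sS6322_3 h) (ops_L (lL6332_2 h.p0132) (ops_nil _))) ez6332) .nil)))
theorem nf6333 (h : Q A a b c d) : ∀ r, vec (symOf (ps6333 a b c d)) r = vec (e6333 a b c d) (appM N6333 r) :=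
  block_sound2 h.h.two (ps := ps6333 a b c d) (ns := 22) rfl (raw5 (srcRow_spec h.h.two (qL6333_0 h) (nf5333 h) wf5333) (srcRow_spec h.h.two (qL6333_1 h) (nf6332 h.p0231) wf6332) (srcRow_spec h.h.two (qL6333_2 h) (nf6332 h.p0132) wf6332) (srcRow_spec h.h.two (qL6333_3 h) (nf6332 h) wf6332) (zf_spec _)) kb6333 co6333 u6333 el6333
theorem ez6333 : ∀ k, 0 ≤ k → e6333 a b c d k = 0 := eOf_ge _ (wfT_D wf6333).2
theorem lL6333_0 (h : Q A a b c d) : ∀ v, a * vec (e5333 a b c d) v = vec (e6333 a b c d) (appM L6333_0 v) :=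
  table_sound2 h.h.two (qL6333_0 h) (nf6333 h) kv6333_0 kL6333_0
theorem w6333 (h : Q A a b c d) : WP ![6, 3, 3, 3] ![a, b, c, d] (e6333 a b c d) :=
  wp_step4 (nf6333 h) (by decide) (Or.inr ⟨_, wp0123 (w5333 h), wp_r ez5333 y6333_0⟩) (Or.inr ⟨_, wp0231 (w6332 h.p0231), wp_z ez6332⟩) (Or.inr ⟨_, wp0132 (w6332 h.p0132), wp_z ez6332⟩) (Or.inr ⟨_, wp0123 (w6332 h), wp_z ez6332⟩)

theorem qL5532_0 (h : Q A a b c d) : List.Forall₂ (EntOk a (symOf (ps5532 a b c d)))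
    (ps5432 b a c d) pL5532_0 :=
  (.cons (ent_i rfl rfl (ops_S (sS4432_1 h.p1023) (ops_L (lL5432_0 h) (ops_nil _))) ez5432 y5532_1) (.cons (ent_i rfl rfl (ops_L (lL5432_1 h.p1023) (ops_nil _)) ez5432 y5532_0) (.cons (ent_z rfl (ops_L (lL5522_1 h.p1023) (ops_nil _)) ez5522) (.cons (ent_n ez5431) .nil))))
theorem qL5532_1 (h : Q A a b c d) : List.Forall₂ (EntOk b (symOf (ps5532 a b c d)))
    (ps5432 a b c d) pL5532_1 :=
  (.cons (ent_i rfl rfl (ops_S (sS4432_1 h) (ops_L (lL5432_0 h.p1023) (ops_nil _))) ez5432 y5532_0) (.cons (ent_i rfl rfl (ops_L (lL5432_1 h) (ops_nil _)) ez5432 y5532_1) (.cons (ent_z rfl (ops_L (lL5522_1 h) (ops_nil _)) ez5522) (.cons (ent_n ez5431) .nil))))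
theorem qL5532_2 (h : Q A a b c d) : List.Forall₂ (EntOk c (symOf (ps5532 a b c d)))
    (ps5522 a b c d) pL5532_2 :=
  (.cons (ent_i rfl rfl (ops_L (lL5432_2 h.p1023) (ops_nil _)) ez5432 y5532_0) (.cons (ent_i rfl rfl (ops_L (lL5432_2 h) (ops_nil _)) ez5432 y5532_1) (.cons (ent_n ez5521) (.cons (ent_n ez5521) .nil))))
theorem nf5532 (h : Q A a b c d) : ∀ r, vec (symOf (ps5532 a b c d)) r = vec (e5532 a b c d) (appM N5532 r) :=
  block_sound2 h.h.two (ps := ps5532 a b c d) (ns := 6) rfl (raw5 (srcRow_spec h.h.two (qL5532_0 h) (nf5432 h.p1023) wf5432) (srcRow_spec h.h.two (qL5532_1 h) (nf5432 h) wf5432) (srcRow_spec h.h.two (qL5532_2 h) (nf5522 h) wf5522) (zf_spec _) (zf_spec _)) kb5532 co5532 u5532 el5532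
theorem ez5532 : ∀ k, 0 ≤ k → e5532 a b c d k = 0 := eOf_ge _ (wfT_D wf5532).2
theorem lL5532_1 (h : Q A a b c d) : ∀ v, b * vec (e5432 a b c d) v = vec (e5532 a b c d) (appM L5532_1 v) :=
  table_sound2 h.h.two (qL5532_1 h) (nf5532 h) kv5532_1 kL5532_1
theorem w5532 (h : Q A a b c d) : WP ![5, 5, 3, 2] ![a, b, c, d] (e5532 a b c d) :=
  wp_step4 (nf5532 h) (by decide) (Or.inr ⟨_, wp1023 (w5432 h.p1023), wp_r ez5432 y5532_0⟩) (Or.inr ⟨_, wp0123 (w5432 h), wp_r ez5432 y5532_1⟩) (Or.inr ⟨_, wp0123 (w5522 h), wp_z ez5522⟩) (Or.inr ⟨_, wp0123 (z5531 h), wp_z (fun _ _ => rfl)⟩)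

theorem qL5442_0 (h : Q A a b c d) : List.Forall₂ (EntOk a (symOf (ps5442 a b c d)))
    (ps4442 a b c d) pL5442_0 :=
  (.cons (ent_z rfl (ops_L (lL4442_2 h.p1203) (ops_nil _)) ez4442) (.cons (ent_i rfl rfl (ops_L (lL5432_0 h.p0213) (ops_nil _)) ez5432 y5442_1) (.cons (ent_i rfl rfl (ops_L (lL5432_0 h) (ops_nil _)) ez5432 y5442_2) (.cons (ent_n ez4441) .nil))))
theorem qL5442_1 (h : Q A a b c d) : List.Forall₂ (EntOk b (symOf (ps5442 a b c d)))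
    (ps5432 a c b d) pL5442_1 :=
  (.cons (ent_z rfl (ops_L (lL4442_2 h.p0213) (ops_nil _)) ez4442) (.cons (ent_i rfl rfl (ops_S (sS5332_2 h.p0213) (ops_L (lL5432_1 h) (ops_nil _))) ez5432 y5442_2) (.cons (ent_i rfl rfl (ops_L (lL5432_2 h.p0213) (ops_nil _)) ez5432 y5442_1) (.cons (ent_n ez5431) .nil))))
theorem qL5442_2 (h : Q A a b c d) : List.Forall₂ (EntOk c (symOf (ps5442 a b c d)))
    (ps5432 a b c d) pL5442_2 :=
  (.cons (ent_z rfl (ops_L (lL4442_2 h) (ops_nil _)) ez4442) (.cons (ent_i rfl rfl (ops_S (sS5332_2 h) (ops_L (lL5432_1 h.p0213) (ops_nil _))) ez5432 y5442_1) (.cons (ent_i rfl rfl (ops_L (lL5432_2 h) (ops_nil _)) ez5432 y5442_2) (.cons (ent_n ez5431) .nil))))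
theorem nf5442 (h : Q A a b c d) : ∀ r, vec (symOf (ps5442 a b c d)) r = vec (e5442 a b c d) (appM N5442 r) :=
  block_sound2 h.h.two (ps := ps5442 a b c d) (ns := 6) rfl (raw5 (srcRow_spec h.h.two (qL5442_0 h) (nf4442 h) wf4442) (srcRow_spec h.h.two (qL5442_1 h) (nf5432 h.p0213) wf5432) (srcRow_spec h.h.two (qL5442_2 h) (nf5432 h) wf5432) (zf_spec _) (zf_spec _)) kb5442 co5442 u5442 el5442
theorem ez5442 : ∀ k, 0 ≤ k → e5442 a b c d k = 0 := eOf_ge _ (wfT_D wf5442).2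
theorem lL5442_2 (h : Q A a b c d) : ∀ v, c * vec (e5432 a b c d) v = vec (e5442 a b c d) (appM L5442_2 v) :=
  table_sound2 h.h.two (qL5442_2 h) (nf5442 h) kv5442_2 kL5442_2
theorem w5442 (h : Q A a b c d) : WP ![5, 4, 4, 2] ![a, b, c, d] (e5442 a b c d) :=
  wp_step4 (nf5442 h) (by decide) (Or.inr ⟨_, wp0123 (w4442 h), wp_z ez4442⟩) (Or.inr ⟨_, wp0213 (w5432 h.p0213), wp_r ez5432 y5442_1⟩) (Or.inr ⟨_, wp0123 (w5432 h), wp_r ez5432 y5442_2⟩) (Or.inr ⟨_, wp0123 (z5441 h), wp_z (fun _ _ => rfl)⟩)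

theorem qL5433_0 (h : Q A a b c d) : List.Forall₂ (EntOk a (symOf (ps5433 a b c d)))
    (ps4433 a b c d) pL5433_0 :=
  (.cons (ent_i rfl rfl (ops_L (lL4433_1 h.p1023) (ops_S (sS4433_1 h.p1023) (ops_nil _))) ez4433 y5433_0) (.cons (ent_i rfl rfl (ops_L (lL5333_0 h) (ops_nil _)) ez5333 y5433_1) (.cons (ent_i rfl rfl (ops_L (lL5432_0 h.p0132) (ops_nil _)) ez5432 y5433_2) (.cons (ent_i rfl rfl (ops_L (lL5432_0 h) (ops_nil _)) ez5432 y5433_3) .nil))))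
theorem qL5433_1 (h : Q A a b c d) : List.Forall₂ (EntOk b (symOf (ps5433 a b c d)))
    (ps5333 a b c d) pL5433_1 :=
  (.cons (ent_i rfl rfl (ops_L (lL4433_1 h) (ops_nil _)) ez4433 y5433_0) (.cons (ent_i rfl rfl (ops_L (lL5333_3 h.p0231) (ops_S (sS5333_2 h.p0231) (ops_S (sS5333_3 h.p0321) (ops_S (sS5333_2 h) (ops_S (sS5333_2 h.p0213) (ops_nil _)))))) ez5333 y5433_1) (.cons (ent_i rfl rfl (ops_L (lL5432_1 h.p0132) (ops_nil _)) ez5432 y5433_2) (.cons (ent_i rfl rfl (ops_L (lL5432_1 h) (ops_nil _)) ez5432 y5433_3) .nil))))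
theorem qL5433_2 (h : Q A a b c d) : List.Forall₂ (EntOk c (symOf (ps5433 a b c d)))
    (ps5432 a b d c) pL5433_2 :=
  (.cons (ent_i rfl rfl (ops_L (lL4433_3 h.p0132) (ops_S (sS4433_3 h.p0132) (ops_nil _))) ez4433 y5433_0) (.cons (ent_i rfl rfl (ops_L (lL5333_3 h.p0132) (ops_S (sS5333_2 h.p0132) (ops_S (sS5333_3 h.p0312) (ops_S (sS5333_2 h.p0213) (ops_nil _))))) ez5333 y5433_1) (.cons (ent_i rfl rfl (ops_S (sS5422_3 h.p0132) (ops_L (lL5432_2 h) (ops_nil _))) ez5432 y5433_3) (.cons (ent_n ez5431) .nil))))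
theorem qL5433_3 (h : Q A a b c d) : List.Forall₂ (EntOk d (symOf (ps5433 a b c d)))
    (ps5432 a b c d) pL5433_3 :=
  (.cons (ent_i rfl rfl (ops_L (lL4433_3 h) (ops_nil _)) ez4433 y5433_0) (.cons (ent_i rfl rfl (ops_L (lL5333_3 h) (ops_nil _)) ez5333 y5433_1) (.cons (ent_i rfl rfl (ops_S (sS5422_3 h) (ops_L (lL5432_2 h.p0132) (ops_nil _))) ez5432 y5433_2) (.cons (ent_n ez5431) .nil))))
theorem nf5433 (h : Q A a b c d) : ∀ r, vec (symOf (ps5433 a b c d)) r = vec (e5433 a b c d) (appM N5433 r) :=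
  block_sound2 h.h.two (ps := ps5433 a b c d) (ns := 72) rfl (raw5 (srcRow_spec h.h.two (qL5433_0 h) (nf4433 h) wf4433) (srcRow_spec h.h.two (qL5433_1 h) (nf5333 h) wf5333) (srcRow_spec h.h.two (qL5433_2 h) (nf5432 h.p0132) wf5432) (srcRow_spec h.h.two (qL5433_3 h) (nf5432 h) wf5432) (zf_spec _)) kb5433 co5433 u5433 el5433
theorem ez5433 : ∀ k, 2 ≤ k → e5433 a b c d k = 0 := eOf_ge _ (wfT_D wf5433).2
theorem qS5433_3 (h : Q A a b c d) : List.Forall₂ (EntOk 1 (symOf (ps5433 a b c d)))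
    (ps5433 a b d c) pS5433_3 :=
  (.cons (ent_i rfl rfl (ops_S (sS4433_3 h.p0132) (ops_nil _)) ez4433 y5433_0) (.cons (ent_i rfl rfl (ops_S (sS5333_2 h.p0132) (ops_S (sS5333_3 h.p0312) (ops_S (sS5333_2 h.p0213) (ops_nil _)))) ez5333 y5433_1) (.cons (ent_i rfl rfl (ops_nil _) ez5432 y5433_3) (.cons (ent_i rfl rfl (ops_nil _) ez5432 y5433_2) .nil))))
theorem sS5433_3 (h : Q A a b c d) : ∀ v, vec (e5433 a b c d) v = vec (e5433 a b d c) (appM S5433_3 v) :=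
  fun v => (one_mul _).symm.trans (table_sound2 h.h.two (qS5433_3 h.p0132) (nf5433 h.p0132) kw5433_3 kS5433_3 v)
theorem lL5433_0 (h : Q A a b c d) : ∀ v, a * vec (e4433 a b c d) v = vec (e5433 a b c d) (appM L5433_0 v) :=
  table_sound2 h.h.two (qL5433_0 h) (nf5433 h) kv5433_0 kL5433_0
theorem lL5433_1 (h : Q A a b c d) : ∀ v, b * vec (e5333 a b c d) v = vec (e5433 a b c d) (appM L5433_1 v) :=
  table_sound2 h.h.two (qL5433_1 h) (nf5433 h) kv5433_1 kL5433_1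
theorem lL5433_3 (h : Q A a b c d) : ∀ v, d * vec (e5432 a b c d) v = vec (e5433 a b c d) (appM L5433_3 v) :=
  table_sound2 h.h.two (qL5433_3 h) (nf5433 h) kv5433_3 kL5433_3
theorem w5433 (h : Q A a b c d) : WP ![5, 4, 3, 3] ![a, b, c, d] (e5433 a b c d) :=
  wp_step4 (nf5433 h) (by decide) (Or.inr ⟨_, wp0123 (w4433 h), wp_r ez4433 y5433_0⟩) (Or.inr ⟨_, wp0123 (w5333 h), wp_r ez5333 y5433_1⟩) (Or.inr ⟨_, wp0132 (w5432 h.p0132), wp_r ez5432 y5433_2⟩) (Or.inr ⟨_, wp0123 (w5432 h), wp_r ez5432 y5433_3⟩)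

theorem qL4443_0 (h : Q A a b c d) : List.Forall₂ (EntOk a (symOf (ps4443 a b c d)))
    (ps4433 b c a d) pL4443_0 :=
  (.cons (ent_i rfl rfl (ops_S (sS4333_2 h.p2103) (ops_L (lL4433_1 h.p2013) (ops_S (sS4433_1 h.p2013) (ops_nil _)))) ez4433 y4443_1) (.cons (ent_i rfl rfl (ops_S (sS4333_2 h.p1203) (ops_L (lL4433_1 h.p1023) (ops_S (sS4433_1 h.p1023) (ops_nil _)))) ez4433 y4443_2) (.cons (ent_i rfl rfl (ops_L (lL4433_3 h.p1230) (ops_S (sS4433_3 h.p1230) (ops_nil _))) ez4433 y4443_0) (.cons (ent_z rfl (ops_L (lL4442_2 h.p1203) (ops_nil _)) ez4442) .nil))))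
theorem qL4443_1 (h : Q A a b c d) : List.Forall₂ (EntOk b (symOf (ps4443 a b c d)))
    (ps4433 a c b d) pL4443_1 :=
  (.cons (ent_i rfl rfl (ops_S (sS4333_2 h.p2013) (ops_L (lL4433_1 h.p2103) (ops_S (sS4433_1 h.p2103) (ops_nil _)))) ez4433 y4443_0) (.cons (ent_i rfl rfl (ops_S (sS4333_2 h.p0213) (ops_L (lL4433_1 h) (ops_nil _))) ez4433 y4443_2) (.cons (ent_i rfl rfl (ops_L (lL4433_3 h.p0231) (ops_S (sS4433_3 h.p0231) (ops_nil _))) ez4433 y4443_1) (.cons (ent_z rfl (ops_L (lL4442_2 h.p0213) (ops_nil _)) ez4442) .nil))))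
theorem qL4443_2 (h : Q A a b c d) : List.Forall₂ (EntOk c (symOf (ps4443 a b c d)))
    (ps4433 a b c d) pL4443_2 :=
  (.cons (ent_i rfl rfl (ops_S (sS4333_2 h.p1023) (ops_L (lL4433_1 h.p1203) (ops_nil _))) ez4433 y4443_0) (.cons (ent_i rfl rfl (ops_S (sS4333_2 h) (ops_L (lL4433_1 h.p0213) (ops_nil _))) ez4433 y4443_1) (.cons (ent_i rfl rfl (ops_L (lL4433_3 h.p0132) (ops_S (sS4433_3 h.p0132) (ops_nil _))) ez4433 y4443_2) (.cons (ent_z rfl (ops_L (lL4442_2 h) (ops_nil _)) ez4442) .nil))))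
theorem qL4443_3 (h : Q A a b c d) : List.Forall₂ (EntOk d (symOf (ps4443 a b c d)))
    (ps4442 a b c d) pL4443_3 :=
  (.cons (ent_i rfl rfl (ops_L (lL4433_3 h.p1203) (ops_nil _)) ez4433 y4443_0) (.cons (ent_i rfl rfl (ops_L (lL4433_3 h.p0213) (ops_nil _)) ez4433 y4443_1) (.cons (ent_i rfl rfl (ops_L (lL4433_3 h) (ops_nil _)) ez4433 y4443_2) (.cons (ent_n ez4441) .nil))))
theorem nf4443 (h : Q A a b c d) : ∀ r, vec (symOf (ps4443 a b c d)) r = vec (e4443 a b c d) (appM N4443 r) :=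
  block_sound2 h.h.two (ps := ps4443 a b c d) (ns := 132) rfl (raw5 (srcRow_spec h.h.two (qL4443_0 h) (nf4433 h.p1203) wf4433) (srcRow_spec h.h.two (qL4443_1 h) (nf4433 h.p0213) wf4433) (srcRow_spec h.h.two (qL4443_2 h) (nf4433 h) wf4433) (srcRow_spec h.h.two (qL4443_3 h) (nf4442 h) wf4442) (zf_spec _)) kb4443 co4443 u4443 el4443
theorem ez4443 : ∀ k, 6 ≤ k → e4443 a b c d k = 0 := eOf_ge _ (wfT_D wf4443).2
theorem qS4443_1 (h : Q A a b c d) : List.Forall₂ (EntOk 1 (symOf (ps4443 a b c d)))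
    (ps4443 b a c d) pS4443_1 :=
  (.cons (ent_i rfl rfl (ops_nil _) ez4433 y4443_1) (.cons (ent_i rfl rfl (ops_nil _) ez4433 y4443_0) (.cons (ent_i rfl rfl (ops_S (sS4433_1 h.p1023) (ops_nil _)) ez4433 y4443_2) (.cons (ent_n ez4442) .nil))))
theorem sS4443_1 (h : Q A a b c d) : ∀ v, vec (e4443 a b c d) v = vec (e4443 b a c d) (appM S4443_1 v) :=
  fun v => (one_mul _).symm.trans (table_sound2 h.h.two (qS4443_1 h.p1023) (nf4443 h.p1023) kw4443_1 kS4443_1 v)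
theorem qS4443_2 (h : Q A a b c d) : List.Forall₂ (EntOk 1 (symOf (ps4443 a b c d)))
    (ps4443 c b a d) pS4443_2 :=
  (.cons (ent_i rfl rfl (ops_S (sS4433_1 h.p1023) (ops_nil _)) ez4433 y4443_2) (.cons (ent_i rfl rfl (ops_S (sS4433_1 h.p2013) (ops_nil _)) ez4433 y4443_1) (.cons (ent_i rfl rfl (ops_S (sS4433_1 h.p2103) (ops_nil _)) ez4433 y4443_0) (.cons (ent_n ez4442) .nil))))
theorem sS4443_2 (h : Q A a b c d) : ∀ v, vec (e4443 a b c d) v = vec (e4443 c b a d) (appM S4443_2 v) :=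
  fun v => (one_mul _).symm.trans (table_sound2 h.h.two (qS4443_2 h.p2103) (nf4443 h.p2103) kw4443_2 kS4443_2 v)
theorem lL4443_2 (h : Q A a b c d) : ∀ v, c * vec (e4433 a b c d) v = vec (e4443 a b c d) (appM L4443_2 v) :=
  table_sound2 h.h.two (qL4443_2 h) (nf4443 h) kv4443_2 kL4443_2
theorem w4443 (h : Q A a b c d) : WP ![4, 4, 4, 3] ![a, b, c, d] (e4443 a b c d) :=
  wp_step4 (nf4443 h) (by decide) (Or.inr ⟨_, wp1203 (w4433 h.p1203), wp_r ez4433 y4443_0⟩) (Or.inr ⟨_, wp0213 (w4433 h.p0213), wp_r ez4433 y4443_1⟩) (Or.inr ⟨_, wp0123 (w4433 h), wp_r ez4433 y4443_2⟩) (Or.inr ⟨_, wp0123 (w4442 h), wp_z ez4442⟩)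

theorem y6433_0 : ∀ k, k < 2 → symOf (ps6433 a b c d) (k + 0) = e5433 a b c d k * a :=
  sy_hd
theorem y5533_0 : ∀ k, k < 2 → symOf (ps5533 a b c d) (k + 0) = e5433 b a c d k * a :=
  sy_hd
theorem y5533_1 : ∀ k, k < 2 → symOf (ps5533 a b c d) (k + 2) = e5433 a b c d k * b :=
  sy_tl (o := 0) (o' := 2) (sy_hd) rfl
theorem y5443_0 : ∀ k, k < 6 → symOf (ps5443 a b c d) (k + 0) = e4443 a b c d k * a :=
  sy_hd
theorem y5443_1 : ∀ k, k < 2 → symOf (ps5443 a b c d) (k + 6) = e5433 a c b d k * b :=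
  sy_tl (o := 0) (o' := 6) (sy_hd) rfl
theorem y5443_2 : ∀ k, k < 2 → symOf (ps5443 a b c d) (k + 8) = e5433 a b c d k * c :=
  sy_tl (o := 2) (o' := 8) (sy_tl (o := 0) (o' := 2) (sy_hd) rfl) rfl
theorem y4444_0 : ∀ k, k < 6 → symOf (ps4444 a b c d) (k + 0) = e4443 b c d a k * a :=
  sy_hd
theorem y4444_1 : ∀ k, k < 6 → symOf (ps4444 a b c d) (k + 6) = e4443 a c d b k * b :=
  sy_tl (o := 0) (o' := 6) (sy_hd) rfl
theorem y4444_2 : ∀ k, k < 6 → symOf (ps4444 a b c d) (k + 12) = e4443 a b d c k * c :=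
  sy_tl (o := 6) (o' := 12) (sy_tl (o := 0) (o' := 6) (sy_hd) rfl) rfl
theorem y4444_3 : ∀ k, k < 6 → symOf (ps4444 a b c d) (k + 18) = e4443 a b c d k * d :=
  sy_tl (o := 12) (o' := 18) (sy_tl (o := 6) (o' := 12) (sy_tl (o := 0) (o' := 6) (sy_hd) rfl) rfl) rfl
theorem qL6433_0 (h : Q A a b c d) : List.Forall₂ (EntOk a (symOf (ps6433 a b c d)))
    (ps5433 a b c d) pL6433_0 :=
  (.cons (ent_i rfl rfl (ops_L (lL5433_0 h) (ops_nil _)) ez5433 y6433_0) (.cons (ent_z rfl (ops_L (lL6333_0 h) (ops_nil _)) ez6333) (.cons (ent_z rfl (ops_L (lL6432_0 h.p0132) (ops_nil _)) ez6432) (.cons (ent_z rfl (ops_L (lL6432_0 h) (ops_nil _)) ez6432) .nil))))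
theorem qL6433_1 (h : Q A a b c d) : List.Forall₂ (EntOk b (symOf (ps6433 a b c d)))
    (ps6333 a b c d) pL6433_1 :=
  (.cons (ent_i rfl rfl (ops_L (lL5433_1 h) (ops_nil _)) ez5433 y6433_0) (.cons (ent_n ez6332) (.cons (ent_n ez6332) (.cons (ent_n ez6332) .nil))))
theorem qL6433_2 (h : Q A a b c d) : List.Forall₂ (EntOk c (symOf (ps6433 a b c d)))
    (ps6432 a b d c) pL6433_2 :=
  (.cons (ent_i rfl rfl (ops_L (lL5433_3 h.p0132) (ops_S (sS5433_3 h.p0132) (ops_nil _))) ez5433 y6433_0) (.cons (ent_n ez6332) (.cons (ent_z rfl (ops_S (sS6422_3 h.p0132) (ops_L (lL6432_2 h) (ops_nil _))) ez6432) .nil)))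
theorem qL6433_3 (h : Q A a b c d) : List.Forall₂ (EntOk d (symOf (ps6433 a b c d)))
    (ps6432 a b c d) pL6433_3 :=
  (.cons (ent_i rfl rfl (ops_L (lL5433_3 h) (ops_nil _)) ez5433 y6433_0) (.cons (ent_n ez6332) (.cons (ent_z rfl (ops_S (sS6422_3 h) (ops_L (lL6432_2 h.p0132) (ops_nil _))) ez6432) .nil)))
theorem nf6433 (h : Q A a b c d) : ∀ r, vec (symOf (ps6433 a b c d)) r = vec (e6433 a b c d) (appM N6433 r) :=
  block_sound2 h.h.two (ps := ps6433 a b c d) (ns := 2) rfl (raw5 (srcRow_spec h.h.two (qL6433_0 h) (nf5433 h) wf5433) (srcRow_spec h.h.two (qL6433_1 h) (nf6333 h) wf6333) (srcRow_spec h.h.two (qL6433_2 h) (nf6432 h.p0132) wf6432) (srcRow_spec h.h.two (qL6433_3 h) (nf6432 h) wf6432) (zf_spec _)) kb6433 co6433 u6433 el6433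
theorem ez6433 : ∀ k, 0 ≤ k → e6433 a b c d k = 0 := eOf_ge _ (wfT_D wf6433).2
theorem lL6433_0 (h : Q A a b c d) : ∀ v, a * vec (e5433 a b c d) v = vec (e6433 a b c d) (appM L6433_0 v) :=
  table_sound2 h.h.two (qL6433_0 h) (nf6433 h) kv6433_0 kL6433_0
theorem w6433 (h : Q A a b c d) : WP ![6, 4, 3, 3] ![a, b, c, d] (e6433 a b c d) :=
  wp_step4 (nf6433 h) (by decide) (Or.inr ⟨_, wp0123 (w5433 h), wp_r ez5433 y6433_0⟩) (Or.inr ⟨_, wp0123 (w6333 h), wp_z ez6333⟩) (Or.inr ⟨_, wp0132 (w6432 h.p0132), wp_z ez6432⟩) (Or.inr ⟨_, wp0123 (w6432 h), wp_z ez6432⟩)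

theorem qL5533_0 (h : Q A a b c d) : List.Forall₂ (EntOk a (symOf (ps5533 a b c d)))
    (ps5433 b a c d) pL5533_0 :=
  (.cons (ent_i rfl rfl (ops_S (sS4433_1 h.p1023) (ops_L (lL5433_0 h) (ops_nil _))) ez5433 y5533_1) (.cons (ent_i rfl rfl (ops_L (lL5433_1 h.p1023) (ops_nil _)) ez5433 y5533_0) (.cons (ent_z rfl (ops_L (lL5532_1 h.p1032) (ops_nil _)) ez5532) (.cons (ent_z rfl (ops_L (lL5532_1 h.p1023) (ops_nil _)) ez5532) .nil))))
theorem qL5533_1 (h : Q A a b c d) : List.Forall₂ (EntOk b (symOf (ps5533 a b c d)))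
    (ps5433 a b c d) pL5533_1 :=
  (.cons (ent_i rfl rfl (ops_S (sS4433_1 h) (ops_L (lL5433_0 h.p1023) (ops_nil _))) ez5433 y5533_0) (.cons (ent_i rfl rfl (ops_L (lL5433_1 h) (ops_nil _)) ez5433 y5533_1) (.cons (ent_z rfl (ops_L (lL5532_1 h.p0132) (ops_nil _)) ez5532) (.cons (ent_z rfl (ops_L (lL5532_1 h) (ops_nil _)) ez5532) .nil))))
theorem qL5533_2 (h : Q A a b c d) : List.Forall₂ (EntOk c (symOf (ps5533 a b c d)))
    (ps5532 a b d c) pL5533_2 :=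
  (.cons (ent_i rfl rfl (ops_L (lL5433_3 h.p1032) (ops_S (sS5433_3 h.p1032) (ops_nil _))) ez5433 y5533_0) (.cons (ent_i rfl rfl (ops_L (lL5433_3 h.p0132) (ops_S (sS5433_3 h.p0132) (ops_nil _))) ez5433 y5533_1) (.cons (ent_n ez5522) .nil)))
theorem qL5533_3 (h : Q A a b c d) : List.Forall₂ (EntOk d (symOf (ps5533 a b c d)))
    (ps5532 a b c d) pL5533_3 :=
  (.cons (ent_i rfl rfl (ops_L (lL5433_3 h.p1023) (ops_nil _)) ez5433 y5533_0) (.cons (ent_i rfl rfl (ops_L (lL5433_3 h) (ops_nil _)) ez5433 y5533_1) (.cons (ent_n ez5522) .nil)))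
theorem nf5533 (h : Q A a b c d) : ∀ r, vec (symOf (ps5533 a b c d)) r = vec (e5533 a b c d) (appM N5533 r) :=
  block_sound2 h.h.two (ps := ps5533 a b c d) (ns := 4) rfl (raw5 (srcRow_spec h.h.two (qL5533_0 h) (nf5433 h.p1023) wf5433) (srcRow_spec h.h.two (qL5533_1 h) (nf5433 h) wf5433) (srcRow_spec h.h.two (qL5533_2 h) (nf5532 h.p0132) wf5532) (srcRow_spec h.h.two (qL5533_3 h) (nf5532 h) wf5532) (zf_spec _)) kb5533 co5533 u5533 el5533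
theorem ez5533 : ∀ k, 0 ≤ k → e5533 a b c d k = 0 := eOf_ge _ (wfT_D wf5533).2
theorem lL5533_1 (h : Q A a b c d) : ∀ v, b * vec (e5433 a b c d) v = vec (e5533 a b c d) (appM L5533_1 v) :=
  table_sound2 h.h.two (qL5533_1 h) (nf5533 h) kv5533_1 kL5533_1
theorem w5533 (h : Q A a b c d) : WP ![5, 5, 3, 3] ![a, b, c, d] (e5533 a b c d) :=
  wp_step4 (nf5533 h) (by decide) (Or.inr ⟨_, wp1023 (w5433 h.p1023), wp_r ez5433 y5533_0⟩) (Or.inr ⟨_, wp0123 (w5433 h), wp_r ez5433 y5533_1⟩) (Or.inr ⟨_, wp0132 (w5532 h.p0132), wp_z ez5532⟩) (Or.inr ⟨_, wp0123 (w5532 h), wp_z ez5532⟩)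

theorem qL5443_0 (h : Q A a b c d) : List.Forall₂ (EntOk a (symOf (ps5443 a b c d)))
    (ps4443 a b c d) pL5443_0 :=
  (.cons (ent_i rfl rfl (ops_L (lL4443_2 h.p1203) (ops_S (sS4443_1 h.p1203) (ops_S (sS4443_2 h.p2103) (ops_S (sS4443_1 h) (ops_S (sS4443_1 h.p1023) (ops_nil _)))))) ez4443 y5443_0) (.cons (ent_i rfl rfl (ops_L (lL5433_0 h.p0213) (ops_nil _)) ez5433 y5443_1) (.cons (ent_i rfl rfl (ops_L (lL5433_0 h) (ops_nil _)) ez5433 y5443_2) (.cons (ent_n ez4442) .nil))))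
theorem qL5443_1 (h : Q A a b c d) : List.Forall₂ (EntOk b (symOf (ps5443 a b c d)))
    (ps5433 a c b d) pL5443_1 :=
  (.cons (ent_i rfl rfl (ops_L (lL4443_2 h.p0213) (ops_S (sS4443_1 h.p0213) (ops_S (sS4443_2 h.p2013) (ops_S (sS4443_1 h.p1023) (ops_nil _))))) ez4443 y5443_0) (.cons (ent_i rfl rfl (ops_S (sS5333_2 h.p0213) (ops_L (lL5433_1 h) (ops_nil _))) ez5433 y5443_2) (.cons (ent_i rfl rfl (ops_L (lL5433_3 h.p0231) (ops_S (sS5433_3 h.p0231) (ops_nil _))) ez5433 y5443_1) (.cons (ent_z rfl (ops_L (lL5442_2 h.p0213) (ops_nil _)) ez5442) .nil))))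
theorem qL5443_2 (h : Q A a b c d) : List.Forall₂ (EntOk c (symOf (ps5443 a b c d)))
    (ps5433 a b c d) pL5443_2 :=
  (.cons (ent_i rfl rfl (ops_L (lL4443_2 h) (ops_nil _)) ez4443 y5443_0) (.cons (ent_i rfl rfl (ops_S (sS5333_2 h) (ops_L (lL5433_1 h.p0213) (ops_nil _))) ez5433 y5443_1) (.cons (ent_i rfl rfl (ops_L (lL5433_3 h.p0132) (ops_S (sS5433_3 h.p0132) (ops_nil _))) ez5433 y5443_2) (.cons (ent_z rfl (ops_L (lL5442_2 h) (ops_nil _)) ez5442) .nil))))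
theorem qL5443_3 (h : Q A a b c d) : List.Forall₂ (EntOk d (symOf (ps5443 a b c d)))
    (ps5442 a b c d) pL5443_3 :=
  (.cons (ent_n ez4442) (.cons (ent_i rfl rfl (ops_L (lL5433_3 h.p0213) (ops_nil _)) ez5433 y5443_1) (.cons (ent_i rfl rfl (ops_L (lL5433_3 h) (ops_nil _)) ez5433 y5443_2) .nil)))
theorem nf5443 (h : Q A a b c d) : ∀ r, vec (symOf (ps5443 a b c d)) r = vec (e5443 a b c d) (appM N5443 r) :=
  block_sound2 h.h.two (ps := ps5443 a b c d) (ns := 10) rfl (raw5 (srcRow_spec h.h.two (qL5443_0 h) (nf4443 h) wf4443) (srcRow_spec h.h.two (qL5443_1 h) (nf5433 h.p0213) wf5433) (srcRow_spec h.h.two (qL5443_2 h) (nf5433 h) wf5433) (srcRow_spec h.h.two (qL5443_3 h) (nf5442 h) wf5442) (zf_spec _)) kb5443 co5443 u5443 el5443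
theorem ez5443 : ∀ k, 0 ≤ k → e5443 a b c d k = 0 := eOf_ge _ (wfT_D wf5443).2
theorem lL5443_0 (h : Q A a b c d) : ∀ v, a * vec (e4443 a b c d) v = vec (e5443 a b c d) (appM L5443_0 v) :=
  table_sound2 h.h.two (qL5443_0 h) (nf5443 h) kv5443_0 kL5443_0
theorem lL5443_2 (h : Q A a b c d) : ∀ v, c * vec (e5433 a b c d) v = vec (e5443 a b c d) (appM L5443_2 v) :=
  table_sound2 h.h.two (qL5443_2 h) (nf5443 h) kv5443_2 kL5443_2
theorem w5443 (h : Q A a b c d) : WP ![5, 4, 4, 3] ![a, b, c, d] (e5443 a b c d) :=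
  wp_step4 (nf5443 h) (by decide) (Or.inr ⟨_, wp0123 (w4443 h), wp_r ez4443 y5443_0⟩) (Or.inr ⟨_, wp0213 (w5433 h.p0213), wp_r ez5433 y5443_1⟩) (Or.inr ⟨_, wp0123 (w5433 h), wp_r ez5433 y5443_2⟩) (Or.inr ⟨_, wp0123 (w5442 h), wp_z ez5442⟩)

theorem qL4444_0 (h : Q A a b c d) : List.Forall₂ (EntOk a (symOf (ps4444 a b c d)))
    (ps4443 b c d a) pL4444_0 :=
  (.cons (ent_i rfl rfl (ops_S (sS4433_3 h.p2310) (ops_L (lL4443_2 h.p2301) (ops_S (sS4443_1 h.p2301) (ops_S (sS4443_2 h.p3201) (ops_S (sS4443_1 h.p0231) (ops_S (sS4443_1 h.p2031) (ops_nil _))))))) ez4443 y4444_1) (.cons (ent_i rfl rfl (ops_S (sS4433_3 h.p1320) (ops_L (lL4443_2 h.p1302) (ops_S (sS4443_1 h.p1302) (ops_S (sS4443_2 h.p3102) (ops_S (sS4443_1 h.p0132) (ops_S (sS4443_1 h.p1032) (ops_nil _))))))) ez4443 y4444_2) (.cons (ent_i rfl rfl (ops_S (sS4433_3 h.p1230) (ops_L (lL4443_2 h.p1203) (ops_S (sS4443_1 h.p1203)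 (ops_S (sS4443_2 h.p2103) (ops_S (sS4443_1 h) (ops_S (sS4443_1 h.p1023) (ops_nil _))))))) ez4443 y4444_3) (.cons (ent_n ez4442) .nil))))
theorem qL4444_1 (h : Q A a b c d) : List.Forall₂ (EntOk b (symOf (ps4444 a b c d)))
    (ps4443 a c d b) pL4444_1 :=
  (.cons (ent_i rfl rfl (ops_S (sS4433_3 h.p2301) (ops_L (lL4443_2 h.p2310) (ops_S (sS4443_1 h.p2310) (ops_S (sS4443_2 h.p3210) (ops_S (sS4443_1 h.p1230) (ops_S (sS4443_1 h.p2130) (ops_nil _))))))) ez4443 y4444_0) (.cons (ent_i rfl rfl (ops_S (sS4433_3 h.p0321) (ops_L (lL4443_2 h.p0312) (ops_S (sS4443_1 h.p0312) (ops_S (sS4443_2 h.p3012) (ops_S (sS4443_1 h.p1032) (ops_nil _)))))) ez4443 y4444_2) (.cons (ent_i rfl rfl (ops_S (sS4433_3 h.p0231) (ops_L (lL4443_2 h.p0213) (ops_S (sS4443_1 h.p0213) (ops_S (sS4443_2 h.p2013) (ops_S (sS4443_1 h.p1023) (ops_nil _)))))) ez4443 y4444_3) (.cons (ent_n ez4442) .nil))))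
theorem qL4444_2 (h : Q A a b c d) : List.Forall₂ (EntOk c (symOf (ps4444 a b c d)))
    (ps4443 a b d c) pL4444_2 :=
  (.cons (ent_i rfl rfl (ops_S (sS4433_3 h.p1302) (ops_L (lL4443_2 h.p1320) (ops_S (sS4443_1 h.p1320) (ops_S (sS4443_2 h.p3120) (ops_S (sS4443_1 h.p2130) (ops_nil _)))))) ez4443 y4444_0) (.cons (ent_i rfl rfl (ops_S (sS4433_3 h.p0312) (ops_L (lL4443_2 h.p0321) (ops_S (sS4443_1 h.p0321) (ops_S (sS4443_2 h.p3021) (ops_S (sS4443_1 h.p2031) (ops_nil _)))))) ez4443 y4444_1) (.cons (ent_i rfl rfl (ops_S (sS4433_3 h.p0132) (ops_L (lL4443_2 h) (ops_nil _))) ez4443 y4444_3) (.cons (ent_n ez4442) .nil))))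
theorem qL4444_3 (h : Q A a b c d) : List.Forall₂ (EntOk d (symOf (ps4444 a b c d)))
    (ps4443 a b c d) pL4444_3 :=
  (.cons (ent_i rfl rfl (ops_S (sS4433_3 h.p1203) (ops_L (lL4443_2 h.p1230) (ops_nil _))) ez4443 y4444_0) (.cons (ent_i rfl rfl (ops_S (sS4433_3 h.p0213) (ops_L (lL4443_2 h.p0231) (ops_nil _))) ez4443 y4444_1) (.cons (ent_i rfl rfl (ops_S (sS4433_3 h) (ops_L (lL4443_2 h.p0132) (ops_nil _))) ez4443 y4444_2) (.cons (ent_n ez4442) .nil))))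
theorem nf4444 (h : Q A a b c d) : ∀ r, vec (symOf (ps4444 a b c d)) r = vec (e4444 a b c d) (appM N4444 r) :=
  block_sound2 h.h.two (ps := ps4444 a b c d) (ns := 24) rfl (raw5 (srcRow_spec h.h.two (qL4444_0 h) (nf4443 h.p1230) wf4443) (srcRow_spec h.h.two (qL4444_1 h) (nf4443 h.p0231) wf4443) (srcRow_spec h.h.two (qL4444_2 h) (nf4443 h.p0132) wf4443) (srcRow_spec h.h.two (qL4444_3 h) (nf4443 h) wf4443) (zf_spec _)) kb4444 co4444 u4444 el4444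
theorem ez4444 : ∀ k, 0 ≤ k → e4444 a b c d k = 0 := eOf_ge _ (wfT_D wf4444).2
theorem lL4444_3 (h : Q A a b c d) : ∀ v, d * vec (e4443 a b c d) v = vec (e4444 a b c d) (appM L4444_3 v) :=
  table_sound2 h.h.two (qL4444_3 h) (nf4444 h) kv4444_3 kL4444_3
theorem w4444 (h : Q A a b c d) : WP ![4, 4, 4, 4] ![a, b, c, d] (e4444 a b c d) :=
  wp_step4 (nf4444 h) (by decide) (Or.inr ⟨_, wp1230 (w4443 h.p1230), wp_r ez4443 y4444_0⟩) (Or.inr ⟨_, wp0231 (w4443 h.p0231), wp_r ez4443 y4444_1⟩) (Or.inr ⟨_, wp0132 (w4443 h.p0132), wp_r ez4443 y4444_2⟩) (Or.inr ⟨_, wp0123 (w4443 h), wp_r ez4443 y4444_3⟩)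


end

end Pool.Agent.L3E.GJ
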