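import Pool.Agent.L3E.GJ.Blk

set_option autoImplicit false

/-!
# L3E, module GJ.Gen: leading forms of the D-relations and their evaluation in block tables
-/

namespace Pool.Agent.L3E.GJ

/-! ### Leading forms -/

section
variable {K : Type} [Ring K]

/-- The left-normed Lie monomial `[[x, l_1], ..., l_m]`, given as `x` and `[l_m, ..., l_1]`. -/
def lieE (x : K) : List K → K
  | [] => x
  | l :: ls => lieE x ls * l + l * lieE x ls

/-- Iterated commutator of `q` with the Lie monomials of a list (outermost first). -/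
def hatE (q : K) : List (K × List K) → K
  | [] => q
  | d :: ds => hatE q ds * lieE d.1 d.2 + lieE d.1 d.2 * hatE q ds

/-- The leading form of a D-relation, direct (`m = 0`) or mirrored: the sum over all ways to
distribute the list `ds` (innermost first) over the two factors. -/
def sumS (m : ℕ) (p q : K) : List (K × List K) → List (K × List K) → List (K × List K) → K
  | [], s1, s2 => if m = 0 then p * hatE q s1 * p * hatE q s2 else hatE q s1 * p * hatE q s2 * p
  | d :: ds, s1, s2 => sumS m p q ds (d :: s1) s2 + sumS m p q ds s1 (d :: s2)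

/-- The leading forms of all relations vanish on the set of letters `A`. -/
structure RlS (A : Set K) : Prop where
  two : (2 : K) = 0
  sq : ∀ p ∈ A, p * p = 0
  inst : ∀ m : ℕ, ∀ p ∈ A, ∀ q ∈ A, ∀ ds : List (K × List K),
    (∀ d ∈ ds, d.1 ∈ A ∧ ∀ x ∈ d.2, x ∈ A) → sumS m p q ds [] [] = 0

end

/-! ### Automata -/

/-- Operations: a table, a table after a truncation and a shift, a truncation and a shift, or
the zero map. -/
inductive OpR : Type
  | st : Tab → OpR
  | tb : ℕ → ℕ → Tab → OpR
  | sf : ℕ → ℕ → OpR
  | zr : OpR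

/-- The map of an operation. -/
noncomputable def opR (o : OpR) : ℕ → ℕ :=
  OpR.rec (motive := fun _ => ℕ → ℕ) (fun T v => appM T v)
    (fun D sh T v => appM T (Nat.shiftLeft (Nat.mod v D) sh))
    (fun D sh v => Nat.shiftLeft (Nat.mod v D) sh) (fun _ => 0) o

/-- The composition of a list of operations. -/
noncomputable def runR (ts : List OpR) : ℕ → ℕ :=
  List.rec (motive := fun _ => ℕ → ℕ) (fun v => v) (fun T _ ih v => ih (opR T v)) ts

/-- An entry of an automaton: the target and the operations. -/
structure AE : Type where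
  tgt : ℕ
  ops : List OpR

/-- Search trees with the entries of the letters. -/
inductive AT : Type
  | l : ℕ → List AE → AT
  | b : ℕ → AT → AT → AT

/-- The entry of the letter `l` applied to the vector `v`. -/
noncomputable def entR (es : List AE) : ℕ → ℕ → ℕ :=
  List.rec (motive := fun _ => ℕ → ℕ → ℕ) (fun _ _ => 1)
    (fun e _ ih l v => Nat.casesOn (motive := fun _ => ℕ) l
      (Nat.casesOn (motive := fun _ => ℕ) (runR e.ops v) 0
        (fun w => Nat.add (Nat.mul (Nat.succ w) 65536) e.tgt))
      (fun l' => ih l' v)) es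

/-- Find the state `c` and apply the entry of the letter `l` to `v`. -/
noncomputable def goA (A : AT) : ℕ → ℕ → ℕ → ℕ :=
  AT.rec (motive := fun _ => ℕ → ℕ → ℕ → ℕ)
    (fun key es c l v => Bool.casesOn (motive := fun _ => ℕ) (Nat.beq key c) 1 (entR es l v))
    (fun k _ _ ih1 ih2 c l v => Bool.casesOn (motive := fun _ => ℕ) (Nat.blt c k) (ih2 c l v)
      (ih1 c l v)) A

/-- Right multiplication of a state by the letter `l`. -/
noncomputable def mulS (A : AT) (s l : ℕ) : ℕ :=
  Nat.casesOn (motive := fun _ => ℕ) s 0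
    (fun s' => goA A (Nat.mod (Nat.succ s') 65536) l (Nat.div (Nat.succ s') 65536))

/-- The sum of two nonzero states. -/
noncomputable def addS' (a b : ℕ) : ℕ :=
  Nat.casesOn (motive := fun _ => ℕ) (Nat.mod (Nat.xor a b) 65536)
    (Nat.casesOn (motive := fun _ => ℕ) (Nat.xor a b)
      (Bool.casesOn (motive := fun _ => ℕ) (Nat.beq (Nat.mod a 65536) 1) 0 1)
      (fun x => Nat.add (Nat.succ x) (Nat.mod a 65536)))
    (fun _ => 1)

/-- The sum of two states. -/
noncomputable def addS (a b : ℕ) : ℕ :=
  Nat.casesOn (motive := fun _ => ℕ) a b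
    (fun a' => Nat.casesOn (motive := fun _ => ℕ) b (Nat.succ a')
      (fun b' => addS' (Nat.succ a') (Nat.succ b')))

/-- Multiplication by a Lie monomial. -/
noncomputable def mulLie (A : AT) (x : ℕ) (ls : List ℕ) : ℕ → ℕ :=
  List.rec (motive := fun _ => ℕ → ℕ) (fun s => mulS A s x)
    (fun l _ ih s => Nat.casesOn (motive := fun _ => ℕ) s 0
      (fun s' => addS (mulS A (ih (Nat.succ s')) l) (ih (mulS A (Nat.succ s') l)))) ls

/-- A Lie monomial in the letters. -/
structure LM : Type where
  x : ℕ
  ls : List ℕ

/-- Multiplication by an iterated commutator. -/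
noncomputable def mulH (A : AT) (q : ℕ) (ds : List LM) : ℕ → ℕ :=
  List.rec (motive := fun _ => ℕ → ℕ) (fun s => mulS A s q)
    (fun d _ ih s => Nat.casesOn (motive := fun _ => ℕ) s 0
      (fun s' => addS (mulLie A d.x d.ls (ih (Nat.succ s'))) (ih (mulLie A d.x d.ls (Nat.succ s'))))) ds

/-- One summand of a leading form. -/
noncomputable def evS (A : AT) (m p q : ℕ) (s1 s2 : List LM) : ℕ :=
  Nat.casesOn (motive := fun _ => ℕ) m
    (mulH A q s2 (mulS A (mulH A q s1 (mulS A 65538 p)) p))
    (fun _ => mulS A (mulH A q s2 (mulS A (mulH A q s1 65538) p)) p)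

/-- The value of a leading form: sum over all splittings of `ds`, `s1` and `s2` are the (reversed
order kept) parts collected so far. -/
noncomputable def evI (A : AT) (m p q : ℕ) (ds : List LM) : List LM → List LM → ℕ :=
  List.rec (motive := fun _ => List LM → List LM → ℕ) (fun s1 s2 => evS A m p q s1 s2)
    (fun d _ ih s1 s2 => addS (ih (d :: s1) s2) (ih s1 (d :: s2))) ds

/-- A leading form with its value `g` in the block with code `c`. -/
structure GI : Type where
  m : ℕ
  p : ℕ
  q : ℕ
  ds : List LM
  g : ℕ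

/-- The values are correct; the lists `ds` are given innermost first. -/
noncomputable def gChk (A : AT) (c : ℕ) (L : List GI) : Bool :=
  List.rec (motive := fun _ => Bool) true
    (fun x _ ih => Nat.beq (evI A x.m x.p x.q x.ds [] []) (Nat.add (Nat.mul x.g 65536) c) && ih) L

/-- The list of the values. -/
noncomputable def gList (L : List GI) : List ℕ :=
  List.rec (motive := fun _ => List ℕ) [] (fun x _ ih => x.g :: ih) L

/-- All letters are smaller than 4. -/
noncomputable def ltChk (L : List GI) : Bool :=
  L.all fun x => Nat.blt x.p 4 && Nat.blt x.q 4 &&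
    x.ds.all fun d => Nat.blt d.x 4 && d.ls.all fun l => Nat.blt l 4

section
variable {K : Type} [Ring K]

/-- The state `s` represents the element `q`, or it is invalid. -/
def Val (sem : ℕ → ℕ → K) (s : ℕ) (q : K) : Prop :=
  s % 65536 = 1 ∨ vec (sem (s % 65536)) (s / 65536) = q

/-- Correctness of an entry. -/
def AEok (sem : ℕ → ℕ → K) (key : ℕ) (z : K) (e : AE) : Prop :=
  e.tgt < 65536 ∧ ((e.tgt = 1 ∧ e.ops = []) ∨
    ∀ v, vec (sem key) v * z = vec (sem e.tgt) (runR e.ops v))

/-- Correctness of an automaton. -/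
def ATok (sem : ℕ → ℕ → K) (x : ℕ → K) : AT → Prop
  | .l key es => key ≠ 1 ∧ ∀ i e, es[i]? = some e → AEok sem key (x i) e
  | .b _ s t => ATok sem x s ∧ ATok sem x t

/-- Correctness of a list of operations. -/
def RunOk (E G : ℕ → K) (z : K) (ops : List OpR) : Prop :=
  ∀ v, vec E v * z = vec G (runR ops v)

theorem run_nil (E : ℕ → K) : RunOk E E 1 [] := fun _ => mul_one _

theorem run_S {z : K} {E E' G : ℕ → K} {T : Tab} {ts : List OpR}
    (h : ∀ v, vec E v = vec E' (appM T v)) (hr : RunOk E' G z ts) :
    RunOk E G z (.st T :: ts) := fun v => by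
  rw [h]
  exact hr _

theorem run_R {z : K} {E E' G : ℕ → K} {D sh : ℕ} {T : Tab} {ts : List OpR}
    (h : ∀ v, vec E v * z = vec E' (appM T (Nat.shiftLeft (Nat.mod v D) sh)))
    (hr : RunOk E' G 1 ts) : RunOk E G z (.tb D sh T :: ts) := fun v => by
  rw [h, ← mul_one (vec E' _)]
  exact hr _

/-- The right multiplication from the normal forms of the child. -/
theorem r_fact {z : K} {E G F : ℕ → K} {D sh n : ℕ} {T : Tab} (hD : D = 2 ^ n)
    (hE : ∀ k, n ≤ k → E k = 0) (hG : ∀ k, k < n → G (k + sh) = E k * z)
    (hT : ∀ r, vec G r = vec F (appM T r)) :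
    ∀ v, vec E v * z = vec F (appM T (Nat.shiftLeft (Nat.mod v D) sh)) := fun v => by
  rw [← hT, vec_shl, vec_mod hE, vec_mul, hD]
  exact vec_congr_lt (Nat.mod_lt _ (by positivity)) fun k hk => (hG k hk).symm

/-- The last step, into the symbols. -/
theorem run_F {z : K} {E G : ℕ → K} {D sh n : ℕ} (hD : D = 2 ^ n)
    (hE : ∀ k, n ≤ k → E k = 0) (hG : ∀ k, k < n → G (k + sh) = E k * z) :
    RunOk E G z [.sf D sh] := fun v => by
  change _ = vec G (Nat.shiftLeft (Nat.mod v D) sh)
  rw [vec_shl, vec_mod hE, vec_mul, hD]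
  exact vec_congr_lt (Nat.mod_lt _ (by positivity)) fun k hk => (hG k hk).symm

/-- Into a block of dimension zero. -/
theorem run_Z {z : K} {E G F : ℕ → K} {ts : List OpR} (h : RunOk E G z ts)
    (hG : ∀ k, G k = 0) : RunOk E F z [.zr] := fun v => by
  rw [h, vec_null _ hG]
  exact (vec_zero F).symm

theorem ae_ok {sem : ℕ → ℕ → K} {key : ℕ} {z : K} {tgt : ℕ} {ops : List OpR} {E G : ℕ → K}
    (h : RunOk E G z ops) (hE : sem key = E) (hG : sem tgt = G) (ht : Nat.blt tgt 65536 = true) :
    AEok sem key z ⟨tgt, ops⟩ := by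
  subst hE hG
  exact ⟨by simpa [Nat.blt] using ht, Or.inr h⟩

theorem ae_no {sem : ℕ → ℕ → K} {key : ℕ} {z : K} : AEok sem key z ⟨1, []⟩ :=
  ⟨by norm_num, Or.inl ⟨rfl, rfl⟩⟩

theorem at_l {sem : ℕ → ℕ → K} {x : ℕ → K} {key : ℕ} {e0 e1 e2 e3 : AE}
    (hk : Nat.beq key 1 = false) (h0 : AEok sem key (x 0) e0) (h1 : AEok sem key (x 1) e1)
    (h2 : AEok sem key (x 2) e2) (h3 : AEok sem key (x 3) e3) :
    ATok sem x (.l key [e0, e1, e2, e3]) := by
  refine ⟨fun h => by subst h; exact absurd hk (by decide), ?_⟩
  intro i e he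
  rcases i with _ | _ | _ | _ | i
  · simp only [List.getElem?_cons_zero, Option.some.injEq] at he; subst he; exact h0
  · simp only [List.getElem?_cons_zero, List.getElem?_cons_succ, Option.some.injEq] at he
    subst he; exact h1
  · simp only [List.getElem?_cons_zero, List.getElem?_cons_succ, Option.some.injEq] at he
    subst he; exact h2
  · simp only [List.getElem?_cons_zero, List.getElem?_cons_succ, Option.some.injEq] at he
    subst he; exact h3
  · simp at he

theorem entR_spec {sem : ℕ → ℕ → K} {key : ℕ} : ∀ {es : List AE} {x : ℕ → K},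
    (∀ i e, es[i]? = some e → AEok sem key (x i) e) → ∀ (l v : ℕ) (q : K),
    vec (sem key) v = q → Val sem (entR es l v) (q * x l) := by
  intro es
  induction es with
  | nil => intro x _ l v q _; exact Or.inl rfl
  | cons e es ih =>
    intro x h l v q hq
    rcases l with _ | l
    · obtain ⟨h1, h2⟩ := h 0 e rfl
      have hE : entR (e :: es) 0 v = Nat.casesOn (motive := fun _ => ℕ) (runR e.ops v) 0
        (fun w => Nat.add (Nat.mul (Nat.succ w) 65536) e.tgt) := rfl
      rcases hr : runR e.ops v with _ | w
      · rw [hr] at hE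
        have hE' : entR (e :: es) 0 v = 0 := hE
        rw [hE']
        right
        rw [Nat.zero_mod, Nat.zero_div, vec_zero]
        rcases h2 with ⟨-, h3⟩ | h2
        · rw [h3] at hr
          have hv : v = 0 := hr
          rw [← hq, hv, vec_zero, zero_mul]
        · rw [← hq, h2, hr, vec_zero]
      · rw [hr] at hE
        have hE' : entR (e :: es) 0 v = (w + 1) * 65536 + e.tgt := hE
        have e1 : entR (e :: es) 0 v % 65536 = e.tgt := by omega
        have e2 : entR (e :: es) 0 v / 65536 = w + 1 := by omega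
        rw [Val, e1, e2]
        rcases h2 with ⟨h3, -⟩ | h2
        · exact Or.inl h3
        · right
          rw [← hq, h2, hr]
    · exact ih (x := fun i => x (i + 1)) (fun i e he => h (i + 1) e he) l v q hq

theorem goA_spec {sem : ℕ → ℕ → K} {x : ℕ → K} {A : AT} (h : ATok sem x A) (c l v : ℕ) (q : K)
    (hq : vec (sem c) v = q) : Val sem (goA A c l v) (q * x l) := by
  induction A with
  | l key es =>
    have e : goA (.l key es) c l v = Bool.casesOn (motive := fun _ => ℕ) (Nat.beq key c) 1
      (entR es l v) := rfl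
    rw [e]
    rcases hb : Nat.beq key c with _ | _
    · exact Or.inl rfl
    · have hk := Nat.eq_of_beq_eq_true hb
      subst hk
      exact entR_spec h.2 l v q hq
  | b k s t ih1 ih2 =>
    have e : goA (.b k s t) c l v = Bool.casesOn (motive := fun _ => ℕ) (Nat.blt c k)
      (goA t c l v) (goA s c l v) := rfl
    rw [e]
    rcases Nat.blt c k with _ | _
    · exact ih2 h.2
    · exact ih1 h.1

theorem goA_one {sem : ℕ → ℕ → K} {x : ℕ → K} {A : AT} (h : ATok sem x A) (l v : ℕ) :
    goA A 1 l v = 1 := by
  induction A with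
  | l key es =>
    have e : goA (.l key es) 1 l v = Bool.casesOn (motive := fun _ => ℕ) (Nat.beq key 1) 1
      (entR es l v) := rfl
    rw [e]
    rcases hb : Nat.beq key 1 with _ | _
    · rfl
    · exact absurd (Nat.eq_of_beq_eq_true hb) h.1
  | b k s t ih1 ih2 =>
    have e : goA (.b k s t) 1 l v = Bool.casesOn (motive := fun _ => ℕ) (Nat.blt 1 k)
      (goA t 1 l v) (goA s 1 l v) := rfl
    rw [e]
    rcases Nat.blt 1 k with _ | _
    · exact ih2 h.2
    · exact ih1 h.1

theorem mulS_spec {sem : ℕ → ℕ → K} {x : ℕ → K} {A : AT} (h : ATok sem x A) {s : ℕ} {q : K}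
    (hs : Val sem s q) (l : ℕ) : Val sem (mulS A s l) (q * x l) := by
  rcases s with _ | s
  · rcases hs with hs | hs
    · simp at hs
    · rw [Nat.zero_mod, Nat.zero_div, vec_zero] at hs
      right
      change vec (sem (0 % 65536)) (0 / 65536) = _
      rw [Nat.zero_mod, Nat.zero_div, vec_zero, ← hs, zero_mul]
  · change Val sem (goA A ((s + 1) % 65536) l ((s + 1) / 65536)) _
    rcases hs with hs | hs
    · rw [hs, goA_one h]
      exact Or.inl rfl
    · exact goA_spec h _ _ _ _ hs

theorem addS_spec (h2 : (2 : K) = 0) {sem : ℕ → ℕ → K} {a b : ℕ} {q r : K} (ha : Val sem a q)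
    (hb : Val sem b r) : Val sem (addS a b) (q + r) := by
  rcases a with _ | a
  · rcases ha with ha | ha
    · simp at ha
    · rw [Nat.zero_mod, Nat.zero_div, vec_zero] at ha
      rw [← ha, zero_add]
      exact hb
  · rcases b with _ | b
    · rcases hb with hb | hb
      · simp at hb
      · rw [Nat.zero_mod, Nat.zero_div, vec_zero] at hb
        rw [← hb, add_zero]
        exact ha
    · change Val sem (addS' (a + 1) (b + 1)) _
      set A := a + 1
      set B := b + 1
      have hxm : Nat.xor A B % 65536 = Nat.xor (A % 65536) (B % 65536) := by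
        have := Nat.xor_mod_two_pow (a := A) (b := B) (n := 16)
        simpa using this
      have hxd : Nat.xor A B / 65536 = Nat.xor (A / 65536) (B / 65536) := by
        have := Nat.xor_div_two_pow (a := A) (b := B) (n := 16)
        simpa using this
      have e : addS' A B = Nat.casesOn (motive := fun _ => ℕ) (Nat.xor A B % 65536)
        (Nat.casesOn (motive := fun _ => ℕ) (Nat.xor A B)
          (Bool.casesOn (motive := fun _ => ℕ) (Nat.beq (A % 65536) 1) 0 1)
          (fun x => Nat.add (Nat.succ x) (A % 65536))) (fun _ => 1) := rfl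
      rcases hm : Nat.xor A B % 65536 with _ | m
      · rw [hm] at e
        have hAB : A % 65536 = B % 65536 := by
          rw [hxm] at hm
          exact Nat.xor_eq_zero_iff.mp hm
        rcases hx : Nat.xor A B with _ | x
        · rw [hx] at e
          have hd : A / 65536 = B / 65536 := by
            rw [hx, Nat.zero_div] at hxd
            exact Nat.xor_eq_zero_iff.mp hxd.symm
          have e' : addS' A B = Bool.casesOn (motive := fun _ => ℕ) (Nat.beq (A % 65536) 1) 0 1 := e
          rcases hbq : Nat.beq (A % 65536) 1 with _ | _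
          · rw [hbq] at e'
            have e'' : addS' A B = 0 := e'
            have hne : A % 65536 ≠ 1 := by
              intro h
              rw [h] at hbq
              exact absurd hbq (by decide)
            have ha' := ha.resolve_left hne
            have hb' := hb.resolve_left (by rw [← hAB]; exact hne)
            right
            rw [e'', Nat.zero_mod, Nat.zero_div, vec_zero, ← ha', ← hb', hAB, hd, ← two_mul, h2,
              zero_mul]
          · rw [hbq] at e'
            have e'' : addS' A B = 1 := e'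
            rw [e'']
            exact Or.inl rfl
        · rw [hx] at e
          have e' : addS' A B = (x + 1) + A % 65536 := e
          rw [hx] at hm hxd
          have e1 : addS' A B % 65536 = A % 65536 := by omega
          have e2 : addS' A B / 65536 = (x + 1) / 65536 := by omega
          rw [Val, e1, e2]
          rcases ha with ha | ha
          · exact Or.inl ha
          · rcases hb with hb | hb
            · exact Or.inl (by rw [hAB]; exact hb)
            · right
              rw [hxd, vec_xor h2, ha]
              congr 1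
              rw [hAB, hb]
      · rw [hm] at e
        have e' : addS' A B = 1 := e
        rw [e']
        exact Or.inl rfl

theorem mulLie_spec (h2 : (2 : K) = 0) {sem : ℕ → ℕ → K} {x : ℕ → K} {A : AT}
    (h : ATok sem x A) (y : ℕ) (ls : List ℕ) : ∀ {s : ℕ} {q : K}, Val sem s q →
    Val sem (mulLie A y ls s) (q * lieE (x y) (ls.map x)) := by
  induction ls with
  | nil => intro s q hs; exact mulS_spec h hs y
  | cons l ls ih =>
    intro s q hs
    rcases s with _ | s
    · rcases hs with hs | hs
      · simp at hs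
      · rw [Nat.zero_mod, Nat.zero_div, vec_zero] at hs
        right
        change vec (sem (0 % 65536)) (0 / 65536) = _
        rw [Nat.zero_mod, Nat.zero_div, vec_zero, ← hs, zero_mul]
    · change Val sem (addS (mulS A (mulLie A y ls (s + 1)) l) (mulLie A y ls (mulS A (s + 1) l)))
        (q * (lieE (x y) (ls.map x) * x l + x l * lieE (x y) (ls.map x)))
      rw [mul_add, ← mul_assoc, ← mul_assoc]
      exact addS_spec h2 (mulS_spec h (ih hs) l) (ih (mulS_spec h hs l))

/-- The Lie monomials in the letters. -/
def lmE (x : ℕ → K) (d : LM) : K × List K := (x d.x, d.ls.map x)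

theorem mulH_spec (h2 : (2 : K) = 0) {sem : ℕ → ℕ → K} {x : ℕ → K} {A : AT}
    (h : ATok sem x A) (y : ℕ) (ds : List LM) : ∀ {s : ℕ} {q : K}, Val sem s q →
    Val sem (mulH A y ds s) (q * hatE (x y) (ds.map (lmE x))) := by
  induction ds with
  | nil => intro s q hs; exact mulS_spec h hs y
  | cons d ds ih =>
    intro s q hs
    rcases s with _ | s
    · rcases hs with hs | hs
      · simp at hs
      · rw [Nat.zero_mod, Nat.zero_div, vec_zero] at hs
        right
        change vec (sem (0 % 65536)) (0 / 65536) = _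
        rw [Nat.zero_mod, Nat.zero_div, vec_zero, ← hs, zero_mul]
    · change Val sem (addS (mulLie A d.x d.ls (mulH A y ds (s + 1)))
          (mulH A y ds (mulLie A d.x d.ls (s + 1))))
        (q * (hatE (x y) (ds.map (lmE x)) * lieE (x d.x) (d.ls.map x) +
          lieE (x d.x) (d.ls.map x) * hatE (x y) (ds.map (lmE x))))
      rw [mul_add, ← mul_assoc, ← mul_assoc]
      exact addS_spec h2 (mulLie_spec h2 h _ _ (ih hs)) (ih (mulLie_spec h2 h _ _ hs))

theorem evS_spec (h2 : (2 : K) = 0) {sem : ℕ → ℕ → K} {x : ℕ → K} {A : AT}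
    (h : ATok sem x A) (h1 : Val sem 65538 1) (m p q : ℕ) (s1 s2 : List LM) :
    Val sem (evS A m p q s1 s2) (if m = 0 then
      x p * hatE (x q) (s1.map (lmE x)) * x p * hatE (x q) (s2.map (lmE x)) else
      hatE (x q) (s1.map (lmE x)) * x p * hatE (x q) (s2.map (lmE x)) * x p) := by
  rcases m with _ | m
  · rw [if_pos rfl]
    have := mulH_spec h2 h q s2 (mulS_spec h (mulH_spec h2 h q s1 (mulS_spec h h1 p)) p)
    rw [one_mul] at this
    exact this
  · rw [if_neg (by omega)]
    have := mulS_spec h (mulH_spec h2 h q s2 (mulS_spec h (mulH_spec h2 h q s1 h1) p)) p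
    rw [one_mul] at this
    exact this

theorem evI_spec (h2 : (2 : K) = 0) {sem : ℕ → ℕ → K} {x : ℕ → K} {A : AT}
    (h : ATok sem x A) (h1 : Val sem 65538 1) (m p q : ℕ) (ds : List LM) :
    ∀ s1 s2 : List LM, Val sem (evI A m p q ds s1 s2)
      (sumS m (x p) (x q) (ds.map (lmE x)) (s1.map (lmE x)) (s2.map (lmE x))) := by
  induction ds with
  | nil => intro s1 s2; exact evS_spec h2 h h1 m p q s1 s2
  | cons d ds ih =>
    intro s1 s2
    exact addS_spec h2 (ih (d :: s1) s2) (ih s1 (d :: s2))

theorem gChk_spec {B : Set K} (hB : RlS B) {sem : ℕ → ℕ → K} {x : ℕ → K} {A : AT}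
    (h : ATok sem x A) (h1 : Val sem 65538 1) (hx : ∀ i < 4, x i ∈ B) {c : ℕ} (hc : c < 65536)
    (hc1 : c ≠ 1) : ∀ {L : List GI}, gChk A c L = true → ltChk L = true →
    ∀ m ∈ gList L, vec (sem c) m = 0 := by
  intro L
  induction L with
  | nil => intro _ _ m hm; exact absurd hm (by simp [gList])
  | cons g L ih =>
    intro hg hl m hm
    have hg' : (Nat.beq (evI A g.m g.p g.q g.ds [] []) (g.g * 65536 + c) && gChk A c L) = true := hg
    rw [Bool.and_eq_true] at hg'
    have hl' : ((Nat.blt g.p 4 && Nat.blt g.q 4 &&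
      g.ds.all fun d => Nat.blt d.x 4 && d.ls.all fun l => Nat.blt l 4) && ltChk L) = true := hl
    simp only [Bool.and_eq_true, List.all_eq_true] at hl'
    obtain ⟨⟨⟨hp, hq⟩, hds⟩, hl2⟩ := hl'
    have lt4 : ∀ n : ℕ, Nat.blt n 4 = true → n < 4 := fun n hn => by simpa [Nat.blt] using hn
    rcases List.mem_cons.mp (show m ∈ g.g :: gList L from hm) with rfl | hm
    · have hev := evI_spec hB.two h h1 g.m g.p g.q g.ds [] []
      have hz := hB.inst g.m (x g.p) (hx _ (lt4 _ hp)) (x g.q) (hx _ (lt4 _ hq))
        (g.ds.map (lmE x)) (by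
          intro d hd
          obtain ⟨d', hd', rfl⟩ := List.mem_map.mp hd
          obtain ⟨h3, h4⟩ := hds d' hd'
          refine ⟨hx _ (lt4 _ h3), fun y hy => ?_⟩
          obtain ⟨l, hl, rfl⟩ := List.mem_map.mp hy
          exact hx _ (lt4 _ (h4 l hl)))
      rw [Nat.eq_of_beq_eq_true hg'.1] at hev
      have e1 : (g.g * 65536 + c) % 65536 = c := by omega
      have e2 : (g.g * 65536 + c) / 65536 = g.g := by omega
      rw [Val, e1, e2] at hev
      rcases hev with hev | hev
      · exact absurd hev hc1
      · rw [hev]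
        exact hz
    · exact ih hg'.2 hl2 m hm

end

end Pool.Agent.L3E.GJ
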