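import Pool.Agent.L3E.GJ.D0
import Pool.Agent.L3E.GJ.D1
import Pool.Agent.L3E.GJ.D2
import Pool.Agent.L3E.GJ.D3
import Pool.Agent.L3E.GJ.D4

set_option autoImplicit false
set_option maxRecDepth 100000
set_option linter.unusedVariables false
set_option exponentiation.threshold 100000

/-! # L3E, module GJ.Pl: plans, generators, automata and rows -/

namespace Pool.Agent.L3E.GJ

/-- The zero function. -/
def zf : ℕ → ℕ := fun _ => 0

noncomputable def pS1000_2 : List Ent := [⟨nat_lit 2, [I0, I0, I0], nat_lit 2, nat_lit 0⟩]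
noncomputable def pS1000_3 : List Ent := [⟨nat_lit 2, [I0, I0, I0], nat_lit 2, nat_lit 0⟩]
noncomputable def pL2000_0 : List Ent := [⟨nat_lit 2, [L1000_0], nat_lit 2, nat_lit 0⟩]
noncomputable def pL1100_0 : List Ent := [⟨nat_lit 2, [I0, L1000_0], nat_lit 2, nat_lit 1⟩]
noncomputable def pL1100_1 : List Ent := [⟨nat_lit 2, [I0, L1000_0], nat_lit 2, nat_lit 0⟩]
noncomputable def pS1100_1 : List Ent := [⟨nat_lit 2, [], nat_lit 2, nat_lit 1⟩, ⟨nat_lit 2, [], nat_lit 2, nat_lit 0⟩]
noncomputable def pS1100_3 : List Ent := [⟨nat_lit 2, [S1000_2, S1000_3, S1000_2], nat_lit 2, nat_lit 0⟩, ⟨nat_lit 2, [S1000_2, S1000_3, S1000_2], nat_lit 2, nat_lit 1⟩]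
noncomputable def pL2100_0 : List Ent := [⟨nat_lit 2, [L1100_1, S1100_1], nat_lit 4, nat_lit 0⟩, ⟨nat_lit 2, [L2000_0], nat_lit 1, nat_lit 2⟩]
noncomputable def pL2100_1 : List Ent := [⟨nat_lit 2, [L1100_1], nat_lit 4, nat_lit 0⟩]
noncomputable def pS2100_3 : List Ent := [⟨nat_lit 4, [S1100_3], nat_lit 4, nat_lit 0⟩, ⟨nat_lit 1, [], nat_lit 1, nat_lit 0⟩]
noncomputable def pL1110_0 : List Ent := [⟨nat_lit 2, [S1000_2, L1100_1, S1100_1], nat_lit 4, nat_lit 2⟩, ⟨nat_lit 2, [S1000_2, L1100_1, S1100_1], nat_lit 4, nat_lit 4⟩]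
noncomputable def pL1110_1 : List Ent := [⟨nat_lit 2, [S1000_2, L1100_1, S1100_1], nat_lit 4, nat_lit 0⟩, ⟨nat_lit 2, [S1000_2, L1100_1], nat_lit 4, nat_lit 4⟩]
noncomputable def pL1110_2 : List Ent := [⟨nat_lit 2, [S1000_2, L1100_1], nat_lit 4, nat_lit 0⟩, ⟨nat_lit 2, [S1000_2, L1100_1], nat_lit 4, nat_lit 2⟩]
noncomputable def pS1110_1 : List Ent := [⟨nat_lit 4, [], nat_lit 4, nat_lit 2⟩, ⟨nat_lit 4, [], nat_lit 4, nat_lit 0⟩, ⟨nat_lit 4, [S1100_1], nat_lit 4, nat_lit 4⟩]
noncomputable def pS1110_2 : List Ent := [⟨nat_lit 4, [S1100_1], nat_lit 4, nat_lit 4⟩, ⟨nat_lit 4, [S1100_1], nat_lit 4, nat_lit 2⟩, ⟨nat_lit 4, [S1100_1], nat_lit 4, nat_lit 0⟩]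
noncomputable def pL3100_0 : List Ent := [⟨nat_lit 4, [L2100_0], nat_lit 2, nat_lit 0⟩, ⟨nat_lit 1, [], nat_lit 1, nat_lit 0⟩]
noncomputable def pL2200_0 : List Ent := [⟨nat_lit 4, [S1100_1, L2100_0], nat_lit 2, nat_lit 1⟩, ⟨nat_lit 1, [], nat_lit 1, nat_lit 0⟩]
noncomputable def pL2200_1 : List Ent := [⟨nat_lit 4, [S1100_1, L2100_0], nat_lit 2, nat_lit 0⟩, ⟨nat_lit 1, [], nat_lit 1, nat_lit 0⟩]
noncomputable def pL2110_0 : List Ent := [⟨nat_lit 4, [L1110_2, S1110_1, S1110_2, S1110_1, S1110_1], nat_lit 64, nat_lit 0⟩, ⟨nat_lit 4, [L2100_0], nat_lit 2, nat_lit 6⟩, ⟨nat_lit 4, [L2100_0], nat_lit 2, nat_lit 7⟩]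
noncomputable def pL2110_1 : List Ent := [⟨nat_lit 4, [L1110_2, S1110_1, S1110_2, S1110_1], nat_lit 64, nat_lit 0⟩, ⟨nat_lit 1, [], nat_lit 1, nat_lit 0⟩]
noncomputable def pL2110_2 : List Ent := [⟨nat_lit 4, [L1110_2], nat_lit 64, nat_lit 0⟩, ⟨nat_lit 1, [], nat_lit 1, nat_lit 0⟩]
noncomputable def pS2110_2 : List Ent := [⟨nat_lit 64, [S1110_1, S1110_2, S1110_1], nat_lit 64, nat_lit 0⟩, ⟨nat_lit 2, [], nat_lit 2, nat_lit 7⟩, ⟨nat_lit 2, [], nat_lit 2, nat_lit 6⟩]
noncomputable def pL1111_0 : List Ent := [⟨nat_lit 4, [S1100_3, L1110_2, S1110_1, S1110_2, S1110_1, S1110_1], nat_lit 64, nat_lit 6⟩, ⟨nat_lit 4, [S1100_3, L1110_2, S1110_1, S1110_2, S1110_1, S1110_1], nat_lit 64, nat_lit 12⟩, ⟨nat_lit 4, [S1100_3, L1110_2, S1110_1, S1110_2, S1110_1, S1110_1], nat_lit 64, nat_lit 18⟩]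
noncomputable def pL1111_1 : List Ent := [⟨nat_lit 4, [S1100_3, L1110_2, S1110_1, S1110_2, S1110_1, S1110_1], nat_lit 64, nat_lit 0⟩, ⟨nat_lit 4, [S1100_3, L1110_2, S1110_1, S1110_2, S1110_1], nat_lit 64, nat_lit 12⟩, ⟨nat_lit 4, [S1100_3, L1110_2, S1110_1, S1110_2, S1110_1], nat_lit 64, nat_lit 18⟩]
noncomputable def pL1111_2 : List Ent := [⟨nat_lit 4, [S1100_3, L1110_2, S1110_1, S1110_2, S1110_1], nat_lit 64, nat_lit 0⟩, ⟨nat_lit 4, [S1100_3, L1110_2, S1110_1, S1110_2, S1110_1], nat_lit 64, nat_lit 6⟩, ⟨nat_lit 4, [S1100_3, L1110_2], nat_lit 64, nat_lit 18⟩]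
noncomputable def pL1111_3 : List Ent := [⟨nat_lit 4, [S1100_3, L1110_2], nat_lit 64, nat_lit 0⟩, ⟨nat_lit 4, [S1100_3, L1110_2], nat_lit 64, nat_lit 6⟩, ⟨nat_lit 4, [S1100_3, L1110_2], nat_lit 64, nat_lit 12⟩]
noncomputable def pS1111_1 : List Ent := [⟨nat_lit 64, [], nat_lit 64, nat_lit 6⟩, ⟨nat_lit 64, [], nat_lit 64, nat_lit 0⟩, ⟨nat_lit 64, [S1110_1], nat_lit 64, nat_lit 12⟩, ⟨nat_lit 64, [S1110_1], nat_lit 64, nat_lit 18⟩]
noncomputable def pS1111_2 : List Ent := [⟨nat_lit 64, [S1110_1], nat_lit 64, nat_lit 12⟩, ⟨nat_lit 64, [S1110_1], nat_lit 64, nat_lit 6⟩, ⟨nat_lit 64, [S1110_1], nat_lit 64, nat_lit 0⟩, ⟨nat_lit 64, [S1110_2], nat_lit 64, nat_lit 18⟩]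
noncomputable def pS1111_3 : List Ent := [⟨nat_lit 64, [S1110_1, S1110_2, S1110_1, S1110_1], nat_lit 64, nat_lit 18⟩, ⟨nat_lit 64, [S1110_2], nat_lit 64, nat_lit 6⟩, ⟨nat_lit 64, [S1110_2], nat_lit 64, nat_lit 12⟩, ⟨nat_lit 64, [S1110_1, S1110_2, S1110_1, S1110_2], nat_lit 64, nat_lit 0⟩]
noncomputable def pL3110_0 : List Ent := [⟨nat_lit 64, [L2110_0], nat_lit 64, nat_lit 0⟩, ⟨nat_lit 2, [L3100_0], nat_lit 1, nat_lit 6⟩, ⟨nat_lit 2, [L3100_0], nat_lit 1, nat_lit 6⟩]
noncomputable def pL3110_1 : List Ent := [⟨nat_lit 2, [L2110_2, S2110_2], nat_lit 64, nat_lit 0⟩]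
noncomputable def pL3110_2 : List Ent := [⟨nat_lit 2, [L2110_2], nat_lit 64, nat_lit 0⟩]
noncomputable def pS3110_2 : List Ent := [⟨nat_lit 64, [S2110_2], nat_lit 64, nat_lit 0⟩, ⟨nat_lit 1, [], nat_lit 1, nat_lit 0⟩, ⟨nat_lit 1, [], nat_lit 1, nat_lit 0⟩]
noncomputable def pL2210_0 : List Ent := [⟨nat_lit 64, [S1110_1, L2110_0], nat_lit 64, nat_lit 6⟩, ⟨nat_lit 2, [L2110_2, S2110_2], nat_lit 64, nat_lit 0⟩, ⟨nat_lit 2, [L2200_1], nat_lit 1, nat_lit 12⟩]
noncomputable def pL2210_1 : List Ent := [⟨nat_lit 64, [S1110_1, L2110_0], nat_lit 64, nat_lit 0⟩, ⟨nat_lit 2, [L2110_2, S2110_2], nat_lit 64, nat_lit 6⟩, ⟨nat_lit 2, [L2200_1], nat_lit 1, nat_lit 12⟩]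
noncomputable def pL2210_2 : List Ent := [⟨nat_lit 2, [L2110_2], nat_lit 64, nat_lit 0⟩, ⟨nat_lit 2, [L2110_2], nat_lit 64, nat_lit 6⟩]
noncomputable def pS2210_1 : List Ent := [⟨nat_lit 64, [], nat_lit 64, nat_lit 6⟩, ⟨nat_lit 64, [], nat_lit 64, nat_lit 0⟩, ⟨nat_lit 1, [], nat_lit 1, nat_lit 0⟩]
noncomputable def pL2111_0 : List Ent := [⟨nat_lit 64, [L1111_3, S1111_2, S1111_3, S1111_2, S1111_1, S1111_2, S1111_1, S1111_1], nat_lit 0x1000000, nat_lit 0⟩, ⟨nat_lit 64, [L2110_0], nat_lit 64, nat_lit 24⟩, ⟨nat_lit 64, [L2110_0], nat_lit 64, nat_lit 30⟩, ⟨nat_lit 64, [L2110_0], nat_lit 64, nat_lit 36⟩]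
noncomputable def pL2111_1 : List Ent := [⟨nat_lit 64, [L1111_3, S1111_2, S1111_3, S1111_2, S1111_1, S1111_2, S1111_1], nat_lit 0x1000000, nat_lit 0⟩, ⟨nat_lit 2, [S2100_3, L2110_2, S2110_2], nat_lit 64, nat_lit 30⟩, ⟨nat_lit 2, [S2100_3, L2110_2, S2110_2], nat_lit 64, nat_lit 36⟩]
noncomputable def pL2111_2 : List Ent := [⟨nat_lit 64, [L1111_3, S1111_2, S1111_3, S1111_2], nat_lit 0x1000000, nat_lit 0⟩, ⟨nat_lit 2, [S2100_3, L2110_2, S2110_2], nat_lit 64, nat_lit 24⟩, ⟨nat_lit 2, [S2100_3, L2110_2], nat_lit 64, nat_lit 36⟩]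
noncomputable def pL2111_3 : List Ent := [⟨nat_lit 64, [L1111_3], nat_lit 0x1000000, nat_lit 0⟩, ⟨nat_lit 2, [S2100_3, L2110_2], nat_lit 64, nat_lit 24⟩, ⟨nat_lit 2, [S2100_3, L2110_2], nat_lit 64, nat_lit 30⟩]
noncomputable def pS2111_2 : List Ent := [⟨nat_lit 0x1000000, [S1111_1, S1111_2, S1111_1], nat_lit 0x1000000, nat_lit 0⟩, ⟨nat_lit 64, [], nat_lit 64, nat_lit 30⟩, ⟨nat_lit 64, [], nat_lit 64, nat_lit 24⟩, ⟨nat_lit 64, [S2110_2], nat_lit 64, nat_lit 36⟩]
noncomputable def pS2111_3 : List Ent := [⟨nat_lit 0x1000000, [S1111_1, S1111_3, S1111_1], nat_lit 0x1000000, nat_lit 0⟩, ⟨nat_lit 64, [S2110_2], nat_lit 64, nat_lit 36⟩, ⟨nat_lit 64, [S2110_2], nat_lit 64, nat_lit 30⟩, ⟨nat_lit 64, [S2110_2], nat_lit 64, nat_lit 24⟩]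
noncomputable def pL4110_0 : List Ent := [⟨nat_lit 64, [L3110_0], nat_lit 4, nat_lit 0⟩, ⟨nat_lit 1, [], nat_lit 1, nat_lit 0⟩, ⟨nat_lit 1, [], nat_lit 1, nat_lit 0⟩]
noncomputable def pL3210_0 : List Ent := [⟨nat_lit 64, [L2210_1, S2210_1], nat_lit 64, nat_lit 0⟩, ⟨nat_lit 64, [L3110_0], nat_lit 4, nat_lit 6⟩, ⟨nat_lit 1, [], nat_lit 1, nat_lit 0⟩]
noncomputable def pL3210_1 : List Ent := [⟨nat_lit 64, [L2210_1], nat_lit 64, nat_lit 0⟩, ⟨nat_lit 1, [], nat_lit 1, nat_lit 0⟩, ⟨nat_lit 1, [], nat_lit 1, nat_lit 0⟩]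
noncomputable def pL3111_0 : List Ent := [⟨nat_lit 0x1000000, [L2111_0], nat_lit 0x1000000000, nat_lit 0⟩, ⟨nat_lit 64, [L3110_0], nat_lit 4, nat_lit 36⟩, ⟨nat_lit 64, [L3110_0], nat_lit 4, nat_lit 38⟩, ⟨nat_lit 64, [L3110_0], nat_lit 4, nat_lit 40⟩]
noncomputable def pL3111_1 : List Ent := [⟨nat_lit 64, [L2111_3, S2111_2, S2111_3, S2111_2, S2111_2], nat_lit 0x1000000000, nat_lit 0⟩, ⟨nat_lit 1, [], nat_lit 1, nat_lit 0⟩, ⟨nat_lit 1, [], nat_lit 1, nat_lit 0⟩]
noncomputable def pL3111_2 : List Ent := [⟨nat_lit 64, [L2111_3, S2111_2, S2111_3, S2111_2], nat_lit 0x1000000000, nat_lit 0⟩, ⟨nat_lit 1, [], nat_lit 1, nat_lit 0⟩, ⟨nat_lit 1, [], nat_lit 1, nat_lit 0⟩]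
noncomputable def pL3111_3 : List Ent := [⟨nat_lit 64, [L2111_3], nat_lit 0x1000000000, nat_lit 0⟩, ⟨nat_lit 1, [], nat_lit 1, nat_lit 0⟩, ⟨nat_lit 1, [], nat_lit 1, nat_lit 0⟩]
noncomputable def pS3111_2 : List Ent := [⟨nat_lit 0x1000000000, [S2111_2], nat_lit 0x1000000000, nat_lit 0⟩, ⟨nat_lit 4, [], nat_lit 4, nat_lit 38⟩, ⟨nat_lit 4, [], nat_lit 4, nat_lit 36⟩, ⟨nat_lit 4, [S3110_2], nat_lit 4, nat_lit 40⟩]
noncomputable def pS3111_3 : List Ent := [⟨nat_lit 0x1000000000, [S2111_3], nat_lit 0x1000000000, nat_lit 0⟩, ⟨nat_lit 4, [S3110_2], nat_lit 4, nat_lit 40⟩, ⟨nat_lit 4, [S3110_2], nat_lit 4, nat_lit 38⟩, ⟨nat_lit 4, [S3110_2], nat_lit 4, nat_lit 36⟩]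
noncomputable def pL2220_0 : List Ent := [⟨nat_lit 64, [S2110_2, L2210_1, S2210_1], nat_lit 64, nat_lit 6⟩, ⟨nat_lit 64, [S2110_2, L2210_1, S2210_1], nat_lit 64, nat_lit 12⟩, ⟨nat_lit 1, [], nat_lit 1, nat_lit 0⟩]
noncomputable def pL2220_1 : List Ent := [⟨nat_lit 64, [S2110_2, L2210_1, S2210_1], nat_lit 64, nat_lit 0⟩, ⟨nat_lit 64, [S2110_2, L2210_1], nat_lit 64, nat_lit 12⟩, ⟨nat_lit 1, [], nat_lit 1, nat_lit 0⟩]
noncomputable def pL2220_2 : List Ent := [⟨nat_lit 64, [S2110_2, L2210_1], nat_lit 64, nat_lit 0⟩, ⟨nat_lit 64, [S2110_2, L2210_1], nat_lit 64, nat_lit 6⟩, ⟨nat_lit 1, [], nat_lit 1, nat_lit 0⟩]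
noncomputable def pS2220_1 : List Ent := [⟨nat_lit 64, [], nat_lit 64, nat_lit 6⟩, ⟨nat_lit 64, [], nat_lit 64, nat_lit 0⟩, ⟨nat_lit 64, [S2210_1], nat_lit 64, nat_lit 12⟩]
noncomputable def pS2220_2 : List Ent := [⟨nat_lit 64, [S2210_1], nat_lit 64, nat_lit 12⟩, ⟨nat_lit 64, [S2210_1], nat_lit 64, nat_lit 6⟩, ⟨nat_lit 64, [S2210_1], nat_lit 64, nat_lit 0⟩]
noncomputable def pL2211_0 : List Ent := [⟨nat_lit 0x1000000, [S1111_1, L2111_0], nat_lit 0x1000000000, nat_lit 36⟩, ⟨nat_lit 64, [L2111_3, S2111_2, S2111_3, S2111_2, S2111_2], nat_lit 0x1000000000, nat_lit 0⟩, ⟨nat_lit 64, [L2210_1, S2210_1], nat_lit 64, nat_lit 72⟩, ⟨nat_lit 64, [L2210_1, S2210_1], nat_lit 64, nat_lit 78⟩]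
noncomputable def pL2211_1 : List Ent := [⟨nat_lit 0x1000000, [S1111_1, L2111_0], nat_lit 0x1000000000, nat_lit 0⟩, ⟨nat_lit 64, [L2111_3, S2111_2, S2111_3, S2111_2, S2111_2], nat_lit 0x1000000000, nat_lit 36⟩, ⟨nat_lit 64, [L2210_1], nat_lit 64, nat_lit 72⟩, ⟨nat_lit 64, [L2210_1], nat_lit 64, nat_lit 78⟩]
noncomputable def pL2211_2 : List Ent := [⟨nat_lit 64, [L2111_3, S2111_2, S2111_3, S2111_2], nat_lit 0x1000000000, nat_lit 0⟩, ⟨nat_lit 64, [L2111_3, S2111_2, S2111_3, S2111_2], nat_lit 0x1000000000, nat_lit 36⟩, ⟨nat_lit 1, [], nat_lit 1, nat_lit 0⟩]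
noncomputable def pL2211_3 : List Ent := [⟨nat_lit 64, [L2111_3], nat_lit 0x1000000000, nat_lit 0⟩, ⟨nat_lit 64, [L2111_3], nat_lit 0x1000000000, nat_lit 36⟩, ⟨nat_lit 1, [], nat_lit 1, nat_lit 0⟩]
noncomputable def pS2211_1 : List Ent := [⟨nat_lit 0x1000000000, [], nat_lit 0x1000000000, nat_lit 36⟩, ⟨nat_lit 0x1000000000, [], nat_lit 0x1000000000, nat_lit 0⟩, ⟨nat_lit 64, [S2210_1], nat_lit 64, nat_lit 72⟩, ⟨nat_lit 64, [S2210_1], nat_lit 64, nat_lit 78⟩]
noncomputable def pS2211_3 : List Ent := [⟨nat_lit 0x1000000000, [S2111_2, S2111_3, S2111_2], nat_lit 0x1000000000, nat_lit 0⟩, ⟨nat_lit 0x1000000000, [S2111_2, S2111_3, S2111_2], nat_lit 0x1000000000, nat_lit 36⟩, ⟨nat_lit 64, [], nat_lit 64, nat_lit 78⟩, ⟨nat_lit 64, [], nat_lit 64, nat_lit 72⟩]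
noncomputable def pL4210_0 : List Ent := [⟨nat_lit 64, [L3210_0], nat_lit 8, nat_lit 0⟩, ⟨nat_lit 4, [L4110_0], nat_lit 1, nat_lit 3⟩]
noncomputable def pL4210_1 : List Ent := [⟨nat_lit 4, [L3210_1], nat_lit 8, nat_lit 0⟩]
noncomputable def pL4111_0 : List Ent := [⟨nat_lit 0x1000000000, [L3111_0], nat_lit 0x1000000, nat_lit 0⟩, ⟨nat_lit 4, [L4110_0], nat_lit 1, nat_lit 24⟩, ⟨nat_lit 4, [L4110_0], nat_lit 1, nat_lit 24⟩, ⟨nat_lit 4, [L4110_0], nat_lit 1, nat_lit 24⟩]
noncomputable def pL4111_1 : List Ent := [⟨nat_lit 4, [L3111_3, S3111_2, S3111_3, S3111_2, S3111_2], nat_lit 0x1000000, nat_lit 0⟩]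
noncomputable def pL4111_2 : List Ent := [⟨nat_lit 4, [L3111_3, S3111_2, S3111_3, S3111_2], nat_lit 0x1000000, nat_lit 0⟩]
noncomputable def pL4111_3 : List Ent := [⟨nat_lit 4, [L3111_3], nat_lit 0x1000000, nat_lit 0⟩]
noncomputable def pS4111_2 : List Ent := [⟨nat_lit 0x1000000, [S3111_2], nat_lit 0x1000000, nat_lit 0⟩, ⟨nat_lit 1, [], nat_lit 1, nat_lit 0⟩, ⟨nat_lit 1, [], nat_lit 1, nat_lit 0⟩, ⟨nat_lit 1, [], nat_lit 1, nat_lit 0⟩]
noncomputable def pS4111_3 : List Ent := [⟨nat_lit 0x1000000, [S3111_3], nat_lit 0x1000000, nat_lit 0⟩, ⟨nat_lit 1, [], nat_lit 1, nat_lit 0⟩, ⟨nat_lit 1, [], nat_lit 1, nat_lit 0⟩, ⟨nat_lit 1, [], nat_lit 1, nat_lit 0⟩]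
noncomputable def pL3310_0 : List Ent := [⟨nat_lit 64, [S2210_1, L3210_0], nat_lit 8, nat_lit 3⟩, ⟨nat_lit 4, [L3210_1], nat_lit 8, nat_lit 0⟩]
noncomputable def pL3310_1 : List Ent := [⟨nat_lit 64, [S2210_1, L3210_0], nat_lit 8, nat_lit 0⟩, ⟨nat_lit 4, [L3210_1], nat_lit 8, nat_lit 3⟩]
noncomputable def pL3220_0 : List Ent := [⟨nat_lit 64, [L2220_2, S2220_1, S2220_2, S2220_1, S2220_1], nat_lit 4096, nat_lit 0⟩, ⟨nat_lit 64, [L3210_0], nat_lit 8, nat_lit 12⟩, ⟨nat_lit 64, [L3210_0], nat_lit 8, nat_lit 15⟩]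
noncomputable def pL3220_1 : List Ent := [⟨nat_lit 64, [L2220_2, S2220_1, S2220_2, S2220_1], nat_lit 4096, nat_lit 0⟩, ⟨nat_lit 4, [S3110_2, L3210_1], nat_lit 8, nat_lit 15⟩]
noncomputable def pL3220_2 : List Ent := [⟨nat_lit 64, [L2220_2], nat_lit 4096, nat_lit 0⟩, ⟨nat_lit 4, [S3110_2, L3210_1], nat_lit 8, nat_lit 12⟩]
noncomputable def pS3220_2 : List Ent := [⟨nat_lit 4096, [S2220_1, S2220_2, S2220_1], nat_lit 4096, nat_lit 0⟩, ⟨nat_lit 8, [], nat_lit 8, nat_lit 15⟩, ⟨nat_lit 8, [], nat_lit 8, nat_lit 12⟩]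
noncomputable def pL3211_0 : List Ent := [⟨nat_lit 0x1000000000, [L2211_1, S2211_1], nat_lit 0x1000000000000000, nat_lit 0⟩, ⟨nat_lit 0x1000000000, [L3111_0], nat_lit 0x1000000, nat_lit 60⟩, ⟨nat_lit 64, [L3210_0], nat_lit 8, nat_lit 84⟩, ⟨nat_lit 64, [L3210_0], nat_lit 8, nat_lit 87⟩]
noncomputable def pL3211_1 : List Ent := [⟨nat_lit 0x1000000000, [L2211_1], nat_lit 0x1000000000000000, nat_lit 0⟩, ⟨nat_lit 4, [L3111_3, S3111_2, S3111_3, S3111_2, S3111_2], nat_lit 0x1000000, nat_lit 60⟩, ⟨nat_lit 4, [L3210_1], nat_lit 8, nat_lit 84⟩, ⟨nat_lit 4, [L3210_1], nat_lit 8, nat_lit 87⟩]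
noncomputable def pL3211_2 : List Ent := [⟨nat_lit 64, [L2211_3, S2211_3], nat_lit 0x1000000000000000, nat_lit 0⟩, ⟨nat_lit 4, [L3111_3, S3111_2, S3111_3, S3111_2], nat_lit 0x1000000, nat_lit 60⟩]
noncomputable def pL3211_3 : List Ent := [⟨nat_lit 64, [L2211_3], nat_lit 0x1000000000000000, nat_lit 0⟩, ⟨nat_lit 4, [L3111_3], nat_lit 0x1000000, nat_lit 60⟩]
noncomputable def pS3211_3 : List Ent := [⟨nat_lit 0x1000000000000000, [S2211_3], nat_lit 0x1000000000000000, nat_lit 0⟩, ⟨nat_lit 0x1000000, [S3111_2, S3111_3, S3111_2], nat_lit 0x1000000, nat_lit 60⟩, ⟨nat_lit 8, [], nat_lit 8, nat_lit 87⟩, ⟨nat_lit 8, [], nat_lit 8, nat_lit 84⟩]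
noncomputable def pL2221_0 : List Ent := [⟨nat_lit 0x1000000000, [S2111_2, L2211_1, S2211_1], nat_lit 0x1000000000000000, nat_lit 60⟩, ⟨nat_lit 0x1000000000, [S2111_2, L2211_1, S2211_1], nat_lit 0x1000000000000000, nat_lit 120⟩, ⟨nat_lit 64, [L2211_3, S2211_3], nat_lit 0x1000000000000000, nat_lit 0⟩, ⟨nat_lit 64, [L2220_2, S2220_1, S2220_2, S2220_1, S2220_1], nat_lit 4096, nat_lit 180⟩]
noncomputable def pL2221_1 : List Ent := [⟨nat_lit 0x1000000000, [S2111_2, L2211_1, S2211_1], nat_lit 0x1000000000000000, nat_lit 0⟩, ⟨nat_lit 0x1000000000, [S2111_2, L2211_1], nat_lit 0x1000000000000000, nat_lit 120⟩, ⟨nat_lit 64, [L2211_3, S2211_3], nat_lit 0x1000000000000000, nat_lit 60⟩, ⟨nat_lit 64, [L2220_2, S2220_1, S2220_2, S2220_1], nat_lit 4096, nat_lit 180⟩]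
noncomputable def pL2221_2 : List Ent := [⟨nat_lit 0x1000000000, [S2111_2, L2211_1], nat_lit 0x1000000000000000, nat_lit 0⟩, ⟨nat_lit 0x1000000000, [S2111_2, L2211_1], nat_lit 0x1000000000000000, nat_lit 60⟩, ⟨nat_lit 64, [L2211_3, S2211_3], nat_lit 0x1000000000000000, nat_lit 120⟩, ⟨nat_lit 64, [L2220_2], nat_lit 4096, nat_lit 180⟩]
noncomputable def pL2221_3 : List Ent := [⟨nat_lit 64, [L2211_3], nat_lit 0x1000000000000000, nat_lit 0⟩, ⟨nat_lit 64, [L2211_3], nat_lit 0x1000000000000000, nat_lit 60⟩, ⟨nat_lit 64, [L2211_3], nat_lit 0x1000000000000000, nat_lit 120⟩]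
noncomputable def pS2221_1 : List Ent := [⟨nat_lit 0x1000000000000000, [], nat_lit 0x1000000000000000, nat_lit 60⟩, ⟨nat_lit 0x1000000000000000, [], nat_lit 0x1000000000000000, nat_lit 0⟩, ⟨nat_lit 0x1000000000000000, [S2211_1], nat_lit 0x1000000000000000, nat_lit 120⟩, ⟨nat_lit 4096, [S2220_1], nat_lit 4096, nat_lit 180⟩]
noncomputable def pS2221_2 : List Ent := [⟨nat_lit 0x1000000000000000, [S2211_1], nat_lit 0x1000000000000000, nat_lit 120⟩, ⟨nat_lit 0x1000000000000000, [S2211_1], nat_lit 0x1000000000000000, nat_lit 60⟩, ⟨nat_lit 0x1000000000000000, [S2211_1], nat_lit 0x1000000000000000, nat_lit 0⟩, ⟨nat_lit 4096, [S2220_2], nat_lit 4096, nat_lit 180⟩]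
noncomputable def pL5210_0 : List Ent := [⟨nat_lit 8, [L4210_0], nat_lit 2, nat_lit 0⟩, ⟨nat_lit 1, [], nat_lit 1, nat_lit 0⟩]
noncomputable def pL5111_0 : List Ent := [⟨nat_lit 0x1000000, [L4111_0], nat_lit 32, nat_lit 0⟩, ⟨nat_lit 1, [], nat_lit 1, nat_lit 0⟩, ⟨nat_lit 1, [], nat_lit 1, nat_lit 0⟩, ⟨nat_lit 1, [], nat_lit 1, nat_lit 0⟩]
noncomputable def pL4310_0 : List Ent := [⟨nat_lit 8, [L3310_1], nat_lit 1, nat_lit 0⟩, ⟨nat_lit 8, [L4210_0], nat_lit 2, nat_lit 0⟩]
noncomputable def pL4310_1 : List Ent := [⟨nat_lit 8, [L3310_1], nat_lit 1, nat_lit 0⟩, ⟨nat_lit 1, [], nat_lit 1, nat_lit 0⟩]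
noncomputable def pL4220_0 : List Ent := [⟨nat_lit 4096, [L3220_0], nat_lit 256, nat_lit 0⟩, ⟨nat_lit 8, [L4210_0], nat_lit 2, nat_lit 8⟩, ⟨nat_lit 8, [L4210_0], nat_lit 2, nat_lit 9⟩]
noncomputable def pL4220_1 : List Ent := [⟨nat_lit 8, [L3220_2, S3220_2], nat_lit 256, nat_lit 0⟩, ⟨nat_lit 1, [], nat_lit 1, nat_lit 0⟩]
noncomputable def pL4220_2 : List Ent := [⟨nat_lit 8, [L3220_2], nat_lit 256, nat_lit 0⟩, ⟨nat_lit 1, [], nat_lit 1, nat_lit 0⟩]
noncomputable def pS4220_2 : List Ent := [⟨nat_lit 256, [S3220_2], nat_lit 256, nat_lit 0⟩, ⟨nat_lit 2, [], nat_lit 2, nat_lit 9⟩, ⟨nat_lit 2, [], nat_lit 2, nat_lit 8⟩]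
noncomputable def pL4211_0 : List Ent := [⟨nat_lit 0x1000000000000000, [L3211_0], nat_lit 0x4000000000000, nat_lit 0⟩, ⟨nat_lit 0x1000000, [L4111_0], nat_lit 32, nat_lit 50⟩, ⟨nat_lit 8, [L4210_0], nat_lit 2, nat_lit 55⟩, ⟨nat_lit 8, [L4210_0], nat_lit 2, nat_lit 56⟩]
noncomputable def pL4211_1 : List Ent := [⟨nat_lit 0x1000000, [L3211_1], nat_lit 0x4000000000000, nat_lit 0⟩, ⟨nat_lit 1, [], nat_lit 1, nat_lit 0⟩, ⟨nat_lit 1, [], nat_lit 1, nat_lit 0⟩, ⟨nat_lit 1, [], nat_lit 1, nat_lit 0⟩]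
noncomputable def pL4211_2 : List Ent := [⟨nat_lit 8, [L3211_3, S3211_3], nat_lit 0x4000000000000, nat_lit 0⟩, ⟨nat_lit 1, [], nat_lit 1, nat_lit 0⟩]
noncomputable def pL4211_3 : List Ent := [⟨nat_lit 8, [L3211_3], nat_lit 0x4000000000000, nat_lit 0⟩, ⟨nat_lit 1, [], nat_lit 1, nat_lit 0⟩]
noncomputable def pS4211_3 : List Ent := [⟨nat_lit 0x4000000000000, [S3211_3], nat_lit 0x4000000000000, nat_lit 0⟩, ⟨nat_lit 32, [S4111_2, S4111_3, S4111_2], nat_lit 32, nat_lit 50⟩, ⟨nat_lit 2, [], nat_lit 2, nat_lit 56⟩, ⟨nat_lit 2, [], nat_lit 2, nat_lit 55⟩]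
noncomputable def pL3320_0 : List Ent := [⟨nat_lit 4096, [S2220_1, L3220_0], nat_lit 256, nat_lit 8⟩, ⟨nat_lit 8, [L3220_2, S3220_2], nat_lit 256, nat_lit 0⟩, ⟨nat_lit 8, [L3310_1], nat_lit 1, nat_lit 16⟩]
noncomputable def pL3320_1 : List Ent := [⟨nat_lit 4096, [S2220_1, L3220_0], nat_lit 256, nat_lit 0⟩, ⟨nat_lit 8, [L3220_2, S3220_2], nat_lit 256, nat_lit 8⟩, ⟨nat_lit 8, [L3310_1], nat_lit 1, nat_lit 16⟩]
noncomputable def pL3320_2 : List Ent := [⟨nat_lit 8, [L3220_2], nat_lit 256, nat_lit 0⟩, ⟨nat_lit 8, [L3220_2], nat_lit 256, nat_lit 8⟩]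
noncomputable def pS3320_1 : List Ent := [⟨nat_lit 256, [], nat_lit 256, nat_lit 8⟩, ⟨nat_lit 256, [], nat_lit 256, nat_lit 0⟩, ⟨nat_lit 1, [], nat_lit 1, nat_lit 0⟩]
noncomputable def pL3311_0 : List Ent := [⟨nat_lit 0x1000000000000000, [S2211_1, L3211_0], nat_lit 0x4000000000000, nat_lit 50⟩, ⟨nat_lit 0x1000000, [L3211_1], nat_lit 0x4000000000000, nat_lit 0⟩, ⟨nat_lit 8, [L3310_1], nat_lit 1, nat_lit 100⟩, ⟨nat_lit 8, [L3310_1], nat_lit 1, nat_lit 100⟩]
noncomputable def pL3311_1 : List Ent := [⟨nat_lit 0x1000000000000000, [S2211_1, L3211_0], nat_lit 0x4000000000000, nat_lit 0⟩, ⟨nat_lit 0x1000000, [L3211_1], nat_lit 0x4000000000000, nat_lit 50⟩, ⟨nat_lit 8, [L3310_1], nat_lit 1, nat_lit 100⟩, ⟨nat_lit 8, [L3310_1], nat_lit 1, nat_lit 100⟩]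
noncomputable def pL3311_2 : List Ent := [⟨nat_lit 8, [L3211_3, S3211_3], nat_lit 0x4000000000000, nat_lit 0⟩, ⟨nat_lit 8, [L3211_3, S3211_3], nat_lit 0x4000000000000, nat_lit 50⟩]
noncomputable def pL3311_3 : List Ent := [⟨nat_lit 8, [L3211_3], nat_lit 0x4000000000000, nat_lit 0⟩, ⟨nat_lit 8, [L3211_3], nat_lit 0x4000000000000, nat_lit 50⟩]
noncomputable def pS3311_1 : List Ent := [⟨nat_lit 0x4000000000000, [], nat_lit 0x4000000000000, nat_lit 50⟩, ⟨nat_lit 0x4000000000000, [], nat_lit 0x4000000000000, nat_lit 0⟩, ⟨nat_lit 1, [], nat_lit 1, nat_lit 0⟩, ⟨nat_lit 1, [], nat_lit 1, nat_lit 0⟩]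
noncomputable def pS3311_3 : List Ent := [⟨nat_lit 0x4000000000000, [S3211_3], nat_lit 0x4000000000000, nat_lit 0⟩, ⟨nat_lit 0x4000000000000, [S3211_3], nat_lit 0x4000000000000, nat_lit 50⟩, ⟨nat_lit 1, [], nat_lit 1, nat_lit 0⟩, ⟨nat_lit 1, [], nat_lit 1, nat_lit 0⟩]
noncomputable def pL3221_0 : List Ent := [⟨nat_lit 0x1000000000000000, [L2221_2, S2221_1, S2221_2, S2221_1, S2221_1], nat_lit 0x40000000000000000000000000000000000, nat_lit 0⟩, ⟨nat_lit 0x1000000000000000, [L3211_0], nat_lit 0x4000000000000, nat_lit 138⟩, ⟨nat_lit 0x1000000000000000, [L3211_0], nat_lit 0x4000000000000, nat_lit 188⟩, ⟨nat_lit 4096, [L3220_0], nat_lit 256, nat_lit 238⟩]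
noncomputable def pL3221_1 : List Ent := [⟨nat_lit 0x1000000000000000, [L2221_2, S2221_1, S2221_2, S2221_1], nat_lit 0x40000000000000000000000000000000000, nat_lit 0⟩, ⟨nat_lit 0x1000000, [S3111_2, L3211_1], nat_lit 0x4000000000000, nat_lit 188⟩, ⟨nat_lit 8, [L3211_3, S3211_3], nat_lit 0x4000000000000, nat_lit 138⟩, ⟨nat_lit 8, [L3220_2, S3220_2], nat_lit 256, nat_lit 238⟩]
noncomputable def pL3221_2 : List Ent := [⟨nat_lit 0x1000000000000000, [L2221_2], nat_lit 0x40000000000000000000000000000000000, nat_lit 0⟩, ⟨nat_lit 0x1000000, [S3111_2, L3211_1], nat_lit 0x4000000000000, nat_lit 138⟩, ⟨nat_lit 8, [L3211_3, S3211_3], nat_lit 0x4000000000000, nat_lit 188⟩, ⟨nat_lit 8, [L3220_2], nat_lit 256, nat_lit 238⟩]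
noncomputable def pL3221_3 : List Ent := [⟨nat_lit 4096, [L2221_3], nat_lit 0x40000000000000000000000000000000000, nat_lit 0⟩, ⟨nat_lit 8, [L3211_3], nat_lit 0x4000000000000, nat_lit 138⟩, ⟨nat_lit 8, [L3211_3], nat_lit 0x4000000000000, nat_lit 188⟩]
noncomputable def pS3221_2 : List Ent := [⟨nat_lit 0x40000000000000000000000000000000000, [S2221_1, S2221_2, S2221_1], nat_lit 0x40000000000000000000000000000000000, nat_lit 0⟩, ⟨nat_lit 0x4000000000000, [], nat_lit 0x4000000000000, nat_lit 188⟩, ⟨nat_lit 0x4000000000000, [], nat_lit 0x4000000000000, nat_lit 138⟩, ⟨nat_lit 256, [S3220_2], nat_lit 256, nat_lit 238⟩]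
noncomputable def pL2222_0 : List Ent := [⟨nat_lit 0x1000000000000000, [S2211_3, L2221_2, S2221_1, S2221_2, S2221_1, S2221_1], nat_lit 0x40000000000000000000000000000000000, nat_lit 138⟩, ⟨nat_lit 0x1000000000000000, [S2211_3, L2221_2, S2221_1, S2221_2, S2221_1, S2221_1], nat_lit 0x40000000000000000000000000000000000, nat_lit 276⟩, ⟨nat_lit 0x1000000000000000, [S2211_3, L2221_2, S2221_1, S2221_2, S2221_1, S2221_1], nat_lit 0x40000000000000000000000000000000000, nat_lit 414⟩, ⟨nat_lit 4096, [L2221_3], nat_lit 0x40000000000000000000000000000000000, nat_lit 0⟩]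
noncomputable def pL2222_1 : List Ent := [⟨nat_lit 0x1000000000000000, [S2211_3, L2221_2, S2221_1, S2221_2, S2221_1, S2221_1], nat_lit 0x40000000000000000000000000000000000, nat_lit 0⟩, ⟨nat_lit 0x1000000000000000, [S2211_3, L2221_2, S2221_1, S2221_2, S2221_1], nat_lit 0x40000000000000000000000000000000000, nat_lit 276⟩, ⟨nat_lit 0x1000000000000000, [S2211_3, L2221_2, S2221_1, S2221_2, S2221_1], nat_lit 0x40000000000000000000000000000000000, nat_lit 414⟩, ⟨nat_lit 4096, [L2221_3], nat_lit 0x40000000000000000000000000000000000, nat_lit 138⟩]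
noncomputable def pL2222_2 : List Ent := [⟨nat_lit 0x1000000000000000, [S2211_3, L2221_2, S2221_1, S2221_2, S2221_1], nat_lit 0x40000000000000000000000000000000000, nat_lit 0⟩, ⟨nat_lit 0x1000000000000000, [S2211_3, L2221_2, S2221_1, S2221_2, S2221_1], nat_lit 0x40000000000000000000000000000000000, nat_lit 138⟩, ⟨nat_lit 0x1000000000000000, [S2211_3, L2221_2], nat_lit 0x40000000000000000000000000000000000, nat_lit 414⟩, ⟨nat_lit 4096, [L2221_3], nat_lit 0x40000000000000000000000000000000000, nat_lit 276⟩]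
noncomputable def pL2222_3 : List Ent := [⟨nat_lit 0x1000000000000000, [S2211_3, L2221_2], nat_lit 0x40000000000000000000000000000000000, nat_lit 0⟩, ⟨nat_lit 0x1000000000000000, [S2211_3, L2221_2], nat_lit 0x40000000000000000000000000000000000, nat_lit 138⟩, ⟨nat_lit 0x1000000000000000, [S2211_3, L2221_2], nat_lit 0x40000000000000000000000000000000000, nat_lit 276⟩, ⟨nat_lit 4096, [L2221_3], nat_lit 0x40000000000000000000000000000000000, nat_lit 414⟩]
noncomputable def pS2222_1 : List Ent := [⟨nat_lit 0x40000000000000000000000000000000000, [], nat_lit 0x40000000000000000000000000000000000, nat_lit 138⟩, ⟨nat_lit 0x40000000000000000000000000000000000, [], nat_lit 0x40000000000000000000000000000000000, nat_lit 0⟩, ⟨nat_lit 0x40000000000000000000000000000000000, [S2221_1], nat_lit 0x40000000000000000000000000000000000, nat_lit 276⟩, ⟨nat_lit 0x40000000000000000000000000000000000, [S2221_1], nat_lit 0x40000000000000000000000000000000000, nat_lit 414⟩]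
noncomputable def pS2222_2 : List Ent := [⟨nat_lit 0x40000000000000000000000000000000000, [S2221_1], nat_lit 0x40000000000000000000000000000000000, nat_lit 276⟩, ⟨nat_lit 0x40000000000000000000000000000000000, [S2221_1], nat_lit 0x40000000000000000000000000000000000, nat_lit 138⟩, ⟨nat_lit 0x40000000000000000000000000000000000, [S2221_1], nat_lit 0x40000000000000000000000000000000000, nat_lit 0⟩, ⟨nat_lit 0x40000000000000000000000000000000000, [S2221_2], nat_lit 0x40000000000000000000000000000000000, nat_lit 414⟩]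
noncomputable def pS2222_3 : List Ent := [⟨nat_lit 0x40000000000000000000000000000000000, [S2221_1, S2221_2, S2221_1, S2221_1], nat_lit 0x40000000000000000000000000000000000, nat_lit 414⟩, ⟨nat_lit 0x40000000000000000000000000000000000, [S2221_2], nat_lit 0x40000000000000000000000000000000000, nat_lit 138⟩, ⟨nat_lit 0x40000000000000000000000000000000000, [S2221_2], nat_lit 0x40000000000000000000000000000000000, nat_lit 276⟩, ⟨nat_lit 0x40000000000000000000000000000000000, [S2221_1, S2221_2, S2221_1, S2221_2], nat_lit 0x40000000000000000000000000000000000, nat_lit 0⟩]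
noncomputable def pL5220_0 : List Ent := [⟨nat_lit 256, [L4220_0], nat_lit 32, nat_lit 0⟩, ⟨nat_lit 2, [L5210_0], nat_lit 1, nat_lit 5⟩, ⟨nat_lit 2, [L5210_0], nat_lit 1, nat_lit 5⟩]
noncomputable def pL5220_1 : List Ent := [⟨nat_lit 2, [L4220_2, S4220_2], nat_lit 32, nat_lit 0⟩]
noncomputable def pL5220_2 : List Ent := [⟨nat_lit 2, [L4220_2], nat_lit 32, nat_lit 0⟩]
noncomputable def pS5220_2 : List Ent := [⟨nat_lit 32, [S4220_2], nat_lit 32, nat_lit 0⟩, ⟨nat_lit 1, [], nat_lit 1, nat_lit 0⟩, ⟨nat_lit 1, [], nat_lit 1, nat_lit 0⟩]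
noncomputable def pL5211_0 : List Ent := [⟨nat_lit 0x4000000000000, [L4211_0], nat_lit 0x200000, nat_lit 0⟩, ⟨nat_lit 32, [L5111_0], nat_lit 1, nat_lit 21⟩, ⟨nat_lit 2, [L5210_0], nat_lit 1, nat_lit 21⟩, ⟨nat_lit 2, [L5210_0], nat_lit 1, nat_lit 21⟩]
noncomputable def pL5211_1 : List Ent := [⟨nat_lit 32, [L4211_1], nat_lit 0x200000, nat_lit 0⟩]
noncomputable def pL5211_2 : List Ent := [⟨nat_lit 2, [L4211_3, S4211_3], nat_lit 0x200000, nat_lit 0⟩]
noncomputable def pL5211_3 : List Ent := [⟨nat_lit 2, [L4211_3], nat_lit 0x200000, nat_lit 0⟩]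
noncomputable def pS5211_3 : List Ent := [⟨nat_lit 0x200000, [S4211_3], nat_lit 0x200000, nat_lit 0⟩, ⟨nat_lit 1, [], nat_lit 1, nat_lit 0⟩, ⟨nat_lit 1, [], nat_lit 1, nat_lit 0⟩, ⟨nat_lit 1, [], nat_lit 1, nat_lit 0⟩]
noncomputable def pL4320_0 : List Ent := [⟨nat_lit 256, [L3320_1, S3320_1], nat_lit 16, nat_lit 0⟩, ⟨nat_lit 256, [L4220_0], nat_lit 32, nat_lit 4⟩, ⟨nat_lit 1, [], nat_lit 1, nat_lit 0⟩]
noncomputable def pL4320_1 : List Ent := [⟨nat_lit 256, [L3320_1], nat_lit 16, nat_lit 0⟩, ⟨nat_lit 2, [L4220_2, S4220_2], nat_lit 32, nat_lit 4⟩, ⟨nat_lit 2, [L4310_1], nat_lit 1, nat_lit 9⟩]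
noncomputable def pL4320_2 : List Ent := [⟨nat_lit 1, [], nat_lit 1, nat_lit 0⟩, ⟨nat_lit 2, [L4220_2], nat_lit 32, nat_lit 4⟩]
noncomputable def pL4311_0 : List Ent := [⟨nat_lit 0x4000000000000, [L3311_1, S3311_1], nat_lit 0x400000000, nat_lit 0⟩, ⟨nat_lit 0x4000000000000, [L4211_0], nat_lit 0x200000, nat_lit 34⟩, ⟨nat_lit 1, [], nat_lit 1, nat_lit 0⟩, ⟨nat_lit 1, [], nat_lit 1, nat_lit 0⟩]
noncomputable def pL4311_1 : List Ent := [⟨nat_lit 0x4000000000000, [L3311_1], nat_lit 0x400000000, nat_lit 0⟩, ⟨nat_lit 32, [L4211_1], nat_lit 0x200000, nat_lit 34⟩, ⟨nat_lit 2, [L4310_1], nat_lit 1, nat_lit 55⟩, ⟨nat_lit 2, [L4310_1], nat_lit 1, nat_lit 55⟩]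
noncomputable def pL4311_2 : List Ent := [⟨nat_lit 1, [], nat_lit 1, nat_lit 0⟩, ⟨nat_lit 2, [L4211_3, S4211_3], nat_lit 0x200000, nat_lit 34⟩]
noncomputable def pL4311_3 : List Ent := [⟨nat_lit 1, [], nat_lit 1, nat_lit 0⟩, ⟨nat_lit 2, [L4211_3], nat_lit 0x200000, nat_lit 34⟩]
noncomputable def pS4311_3 : List Ent := [⟨nat_lit 0x400000000, [S3311_3], nat_lit 0x400000000, nat_lit 0⟩, ⟨nat_lit 0x200000, [S4211_3], nat_lit 0x200000, nat_lit 34⟩, ⟨nat_lit 1, [], nat_lit 1, nat_lit 0⟩, ⟨nat_lit 1, [], nat_lit 1, nat_lit 0⟩]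
noncomputable def pL4221_0 : List Ent := [⟨nat_lit 0x40000000000000000000000000000000000, [L3221_0], nat_lit 0x1000000000000000000000000000000000000, nat_lit 0⟩, ⟨nat_lit 0x4000000000000, [L4211_0], nat_lit 0x200000, nat_lit 144⟩, ⟨nat_lit 0x4000000000000, [L4211_0], nat_lit 0x200000, nat_lit 165⟩, ⟨nat_lit 256, [L4220_0], nat_lit 32, nat_lit 186⟩]
noncomputable def pL4221_1 : List Ent := [⟨nat_lit 0x4000000000000, [L3221_2, S3221_2], nat_lit 0x1000000000000000000000000000000000000, nat_lit 0⟩, ⟨nat_lit 32, [S4111_2, L4211_1], nat_lit 0x200000, nat_lit 165⟩, ⟨nat_lit 2, [L4211_3, S4211_3], nat_lit 0x200000, nat_lit 144⟩, ⟨nat_lit 2, [L4220_2, S4220_2], nat_lit 32, nat_lit 186⟩]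
noncomputable def pL4221_2 : List Ent := [⟨nat_lit 0x4000000000000, [L3221_2], nat_lit 0x1000000000000000000000000000000000000, nat_lit 0⟩, ⟨nat_lit 32, [S4111_2, L4211_1], nat_lit 0x200000, nat_lit 144⟩, ⟨nat_lit 2, [L4211_3, S4211_3], nat_lit 0x200000, nat_lit 165⟩, ⟨nat_lit 2, [L4220_2], nat_lit 32, nat_lit 186⟩]
noncomputable def pL4221_3 : List Ent := [⟨nat_lit 256, [L3221_3], nat_lit 0x1000000000000000000000000000000000000, nat_lit 0⟩, ⟨nat_lit 2, [L4211_3], nat_lit 0x200000, nat_lit 144⟩, ⟨nat_lit 2, [L4211_3], nat_lit 0x200000, nat_lit 165⟩]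
noncomputable def pS4221_2 : List Ent := [⟨nat_lit 0x1000000000000000000000000000000000000, [S3221_2], nat_lit 0x1000000000000000000000000000000000000, nat_lit 0⟩, ⟨nat_lit 0x200000, [], nat_lit 0x200000, nat_lit 165⟩, ⟨nat_lit 0x200000, [], nat_lit 0x200000, nat_lit 144⟩, ⟨nat_lit 32, [S4220_2], nat_lit 32, nat_lit 186⟩]
noncomputable def pL3330_0 : List Ent := [⟨nat_lit 256, [S3220_2, L3320_1, S3320_1], nat_lit 16, nat_lit 4⟩, ⟨nat_lit 256, [S3220_2, L3320_1, S3320_1], nat_lit 16, nat_lit 8⟩, ⟨nat_lit 1, [], nat_lit 1, nat_lit 0⟩]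
noncomputable def pL3330_1 : List Ent := [⟨nat_lit 256, [S3220_2, L3320_1, S3320_1], nat_lit 16, nat_lit 0⟩, ⟨nat_lit 256, [S3220_2, L3320_1], nat_lit 16, nat_lit 8⟩, ⟨nat_lit 1, [], nat_lit 1, nat_lit 0⟩]
noncomputable def pL3330_2 : List Ent := [⟨nat_lit 256, [S3220_2, L3320_1], nat_lit 16, nat_lit 0⟩, ⟨nat_lit 256, [S3220_2, L3320_1], nat_lit 16, nat_lit 4⟩, ⟨nat_lit 1, [], nat_lit 1, nat_lit 0⟩]
noncomputable def pL3321_0 : List Ent := [⟨nat_lit 0x40000000000000000000000000000000000, [S2221_1, L3221_0], nat_lit 0x1000000000000000000000000000000000000, nat_lit 144⟩, ⟨nat_lit 0x4000000000000, [L3221_2, S3221_2], nat_lit 0x1000000000000000000000000000000000000, nat_lit 0⟩, ⟨nat_lit 0x4000000000000, [L3311_1, S3311_1], nat_lit 0x400000000, nat_lit 288⟩, ⟨nat_lit 256, [L3320_1, S3320_1], nat_lit 16, nat_lit 322⟩]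
noncomputable def pL3321_1 : List Ent := [⟨nat_lit 0x40000000000000000000000000000000000, [S2221_1, L3221_0], nat_lit 0x1000000000000000000000000000000000000, nat_lit 0⟩, ⟨nat_lit 0x4000000000000, [L3221_2, S3221_2], nat_lit 0x1000000000000000000000000000000000000, nat_lit 144⟩, ⟨nat_lit 0x4000000000000, [L3311_1], nat_lit 0x400000000, nat_lit 288⟩, ⟨nat_lit 256, [L3320_1], nat_lit 16, nat_lit 322⟩]
noncomputable def pL3321_2 : List Ent := [⟨nat_lit 0x4000000000000, [L3221_2], nat_lit 0x1000000000000000000000000000000000000, nat_lit 0⟩, ⟨nat_lit 0x4000000000000, [L3221_2], nat_lit 0x1000000000000000000000000000000000000, nat_lit 144⟩, ⟨nat_lit 1, [], nat_lit 1, nat_lit 0⟩, ⟨nat_lit 1, [], nat_lit 1, nat_lit 0⟩]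
noncomputable def pL3321_3 : List Ent := [⟨nat_lit 256, [L3221_3], nat_lit 0x1000000000000000000000000000000000000, nat_lit 0⟩, ⟨nat_lit 256, [L3221_3], nat_lit 0x1000000000000000000000000000000000000, nat_lit 144⟩, ⟨nat_lit 1, [], nat_lit 1, nat_lit 0⟩]
noncomputable def pS3321_1 : List Ent := [⟨nat_lit 0x1000000000000000000000000000000000000, [], nat_lit 0x1000000000000000000000000000000000000, nat_lit 144⟩, ⟨nat_lit 0x1000000000000000000000000000000000000, [], nat_lit 0x1000000000000000000000000000000000000, nat_lit 0⟩, ⟨nat_lit 0x400000000, [S3311_1], nat_lit 0x400000000, nat_lit 288⟩, ⟨nat_lit 16, [S3320_1], nat_lit 16, nat_lit 322⟩]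
noncomputable def pL3222_0 : List Ent := [⟨nat_lit 0x40000000000000000000000000000000000, [L2222_3, S2222_2, S2222_3, S2222_2, S2222_1, S2222_2, S2222_1, S2222_1], nat_lit 0x1000000000000000000000000000000000000000000000000000000000000000000000000000000000000000000000000000, nat_lit 0⟩, ⟨nat_lit 0x40000000000000000000000000000000000, [L3221_0], nat_lit 0x1000000000000000000000000000000000000, nat_lit 396⟩, ⟨nat_lit 0x40000000000000000000000000000000000, [L3221_0], nat_lit 0x1000000000000000000000000000000000000, nat_lit 540⟩, ⟨nat_lit 0x40000000000000000000000000000000000, [L3221_0], nat_lit 0x1000000000000000000000000000000000000, nat_lit 684⟩]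
noncomputable def pL3222_1 : List Ent := [⟨nat_lit 0x40000000000000000000000000000000000, [L2222_3, S2222_2, S2222_3, S2222_2, S2222_1, S2222_2, S2222_1], nat_lit 0x1000000000000000000000000000000000000000000000000000000000000000000000000000000000000000000000000000, nat_lit 0⟩, ⟨nat_lit 0x4000000000000, [S3211_3, L3221_2, S3221_2], nat_lit 0x1000000000000000000000000000000000000, nat_lit 540⟩, ⟨nat_lit 0x4000000000000, [S3211_3, L3221_2, S3221_2], nat_lit 0x1000000000000000000000000000000000000, nat_lit 684⟩, ⟨nat_lit 256, [L3221_3], nat_lit 0x1000000000000000000000000000000000000, nat_lit 396⟩]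
noncomputable def pL3222_2 : List Ent := [⟨nat_lit 0x40000000000000000000000000000000000, [L2222_3, S2222_2, S2222_3, S2222_2], nat_lit 0x1000000000000000000000000000000000000000000000000000000000000000000000000000000000000000000000000000, nat_lit 0⟩, ⟨nat_lit 0x4000000000000, [S3211_3, L3221_2, S3221_2], nat_lit 0x1000000000000000000000000000000000000, nat_lit 396⟩, ⟨nat_lit 0x4000000000000, [S3211_3, L3221_2], nat_lit 0x1000000000000000000000000000000000000, nat_lit 684⟩, ⟨nat_lit 256, [L3221_3], nat_lit 0x1000000000000000000000000000000000000, nat_lit 540⟩]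
noncomputable def pL3222_3 : List Ent := [⟨nat_lit 0x40000000000000000000000000000000000, [L2222_3], nat_lit 0x1000000000000000000000000000000000000000000000000000000000000000000000000000000000000000000000000000, nat_lit 0⟩, ⟨nat_lit 0x4000000000000, [S3211_3, L3221_2], nat_lit 0x1000000000000000000000000000000000000, nat_lit 396⟩, ⟨nat_lit 0x4000000000000, [S3211_3, L3221_2], nat_lit 0x1000000000000000000000000000000000000, nat_lit 540⟩, ⟨nat_lit 256, [L3221_3], nat_lit 0x1000000000000000000000000000000000000, nat_lit 684⟩]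
noncomputable def pS3222_2 : List Ent := [⟨nat_lit 0x1000000000000000000000000000000000000000000000000000000000000000000000000000000000000000000000000000, [S2222_1, S2222_2, S2222_1], nat_lit 0x1000000000000000000000000000000000000000000000000000000000000000000000000000000000000000000000000000, nat_lit 0⟩, ⟨nat_lit 0x1000000000000000000000000000000000000, [], nat_lit 0x1000000000000000000000000000000000000, nat_lit 540⟩, ⟨nat_lit 0x1000000000000000000000000000000000000, [], nat_lit 0x1000000000000000000000000000000000000, nat_lit 396⟩, ⟨nat_lit 0x1000000000000000000000000000000000000, [S3221_2], nat_lit 0x1000000000000000000000000000000000000, nat_lit 684⟩]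
noncomputable def pS3222_3 : List Ent := [⟨nat_lit 0x1000000000000000000000000000000000000000000000000000000000000000000000000000000000000000000000000000, [S2222_1, S2222_3, S2222_1], nat_lit 0x1000000000000000000000000000000000000000000000000000000000000000000000000000000000000000000000000000, nat_lit 0⟩, ⟨nat_lit 0x1000000000000000000000000000000000000, [S3221_2], nat_lit 0x1000000000000000000000000000000000000, nat_lit 684⟩, ⟨nat_lit 0x1000000000000000000000000000000000000, [S3221_2], nat_lit 0x1000000000000000000000000000000000000, nat_lit 540⟩, ⟨nat_lit 0x1000000000000000000000000000000000000, [S3221_2], nat_lit 0x1000000000000000000000000000000000000, nat_lit 396⟩]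
noncomputable def pL6220_0 : List Ent := [⟨nat_lit 32, [L5220_0], nat_lit 2, nat_lit 0⟩, ⟨nat_lit 1, [], nat_lit 1, nat_lit 0⟩, ⟨nat_lit 1, [], nat_lit 1, nat_lit 0⟩]
noncomputable def pL6211_0 : List Ent := [⟨nat_lit 0x200000, [L5211_0], nat_lit 8, nat_lit 0⟩, ⟨nat_lit 1, [], nat_lit 1, nat_lit 0⟩, ⟨nat_lit 1, [], nat_lit 1, nat_lit 0⟩, ⟨nat_lit 1, [], nat_lit 1, nat_lit 0⟩]
noncomputable def pL5320_0 : List Ent := [⟨nat_lit 16, [L4320_0], nat_lit 2, nat_lit 0⟩, ⟨nat_lit 32, [L5220_0], nat_lit 2, nat_lit 1⟩, ⟨nat_lit 1, [], nat_lit 1, nat_lit 0⟩]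
noncomputable def pL5320_1 : List Ent := [⟨nat_lit 32, [L4320_1], nat_lit 2, nat_lit 0⟩, ⟨nat_lit 1, [], nat_lit 1, nat_lit 0⟩, ⟨nat_lit 1, [], nat_lit 1, nat_lit 0⟩]
noncomputable def pL5311_0 : List Ent := [⟨nat_lit 0x400000000, [L4311_0], nat_lit 1024, nat_lit 0⟩, ⟨nat_lit 0x200000, [L5211_0], nat_lit 8, nat_lit 10⟩, ⟨nat_lit 1, [], nat_lit 1, nat_lit 0⟩, ⟨nat_lit 1, [], nat_lit 1, nat_lit 0⟩]
noncomputable def pL5311_1 : List Ent := [⟨nat_lit 0x200000, [L4311_1], nat_lit 1024, nat_lit 0⟩, ⟨nat_lit 1, [], nat_lit 1, nat_lit 0⟩, ⟨nat_lit 1, [], nat_lit 1, nat_lit 0⟩, ⟨nat_lit 1, [], nat_lit 1, nat_lit 0⟩]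
noncomputable def pL5221_0 : List Ent := [⟨nat_lit 0x1000000000000000000000000000000000000, [L4221_0], nat_lit 0x8000000000000000000000, nat_lit 0⟩, ⟨nat_lit 0x200000, [L5211_0], nat_lit 8, nat_lit 87⟩, ⟨nat_lit 0x200000, [L5211_0], nat_lit 8, nat_lit 90⟩, ⟨nat_lit 32, [L5220_0], nat_lit 2, nat_lit 93⟩]
noncomputable def pL5221_1 : List Ent := [⟨nat_lit 0x200000, [L4221_2, S4221_2], nat_lit 0x8000000000000000000000, nat_lit 0⟩, ⟨nat_lit 1, [], nat_lit 1, nat_lit 0⟩, ⟨nat_lit 1, [], nat_lit 1, nat_lit 0⟩, ⟨nat_lit 1, [], nat_lit 1, nat_lit 0⟩]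
noncomputable def pL5221_2 : List Ent := [⟨nat_lit 0x200000, [L4221_2], nat_lit 0x8000000000000000000000, nat_lit 0⟩, ⟨nat_lit 1, [], nat_lit 1, nat_lit 0⟩, ⟨nat_lit 1, [], nat_lit 1, nat_lit 0⟩, ⟨nat_lit 1, [], nat_lit 1, nat_lit 0⟩]
noncomputable def pL5221_3 : List Ent := [⟨nat_lit 32, [L4221_3], nat_lit 0x8000000000000000000000, nat_lit 0⟩, ⟨nat_lit 1, [], nat_lit 1, nat_lit 0⟩, ⟨nat_lit 1, [], nat_lit 1, nat_lit 0⟩]
noncomputable def pS5221_2 : List Ent := [⟨nat_lit 0x8000000000000000000000, [S4221_2], nat_lit 0x8000000000000000000000, nat_lit 0⟩, ⟨nat_lit 8, [], nat_lit 8, nat_lit 90⟩, ⟨nat_lit 8, [], nat_lit 8, nat_lit 87⟩, ⟨nat_lit 2, [S5220_2], nat_lit 2, nat_lit 93⟩]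
noncomputable def pL4420_0 : List Ent := [⟨nat_lit 16, [S3320_1, L4320_0], nat_lit 2, nat_lit 1⟩, ⟨nat_lit 32, [L4320_1], nat_lit 2, nat_lit 0⟩, ⟨nat_lit 1, [], nat_lit 1, nat_lit 0⟩]
noncomputable def pL4420_1 : List Ent := [⟨nat_lit 16, [S3320_1, L4320_0], nat_lit 2, nat_lit 0⟩, ⟨nat_lit 32, [L4320_1], nat_lit 2, nat_lit 1⟩, ⟨nat_lit 1, [], nat_lit 1, nat_lit 0⟩]
noncomputable def pL4411_0 : List Ent := [⟨nat_lit 0x400000000, [S3311_1, L4311_0], nat_lit 1024, nat_lit 10⟩, ⟨nat_lit 0x200000, [L4311_1], nat_lit 1024, nat_lit 0⟩, ⟨nat_lit 1, [], nat_lit 1, nat_lit 0⟩, ⟨nat_lit 1, [], nat_lit 1, nat_lit 0⟩]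
noncomputable def pL4411_1 : List Ent := [⟨nat_lit 0x400000000, [S3311_1, L4311_0], nat_lit 1024, nat_lit 0⟩, ⟨nat_lit 0x200000, [L4311_1], nat_lit 1024, nat_lit 10⟩, ⟨nat_lit 1, [], nat_lit 1, nat_lit 0⟩, ⟨nat_lit 1, [], nat_lit 1, nat_lit 0⟩]
noncomputable def pL4330_0 : List Ent := [⟨nat_lit 16, [L3330_2], nat_lit 1, nat_lit 0⟩, ⟨nat_lit 16, [L4320_0], nat_lit 2, nat_lit 0⟩, ⟨nat_lit 16, [L4320_0], nat_lit 2, nat_lit 1⟩]
noncomputable def pL4330_1 : List Ent := [⟨nat_lit 16, [L3330_2], nat_lit 1, nat_lit 0⟩, ⟨nat_lit 32, [S4220_2, L4320_1], nat_lit 2, nat_lit 1⟩, ⟨nat_lit 1, [], nat_lit 1, nat_lit 0⟩]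
noncomputable def pL4330_2 : List Ent := [⟨nat_lit 16, [L3330_2], nat_lit 1, nat_lit 0⟩, ⟨nat_lit 32, [S4220_2, L4320_1], nat_lit 2, nat_lit 0⟩, ⟨nat_lit 1, [], nat_lit 1, nat_lit 0⟩]
noncomputable def pL4321_0 : List Ent := [⟨nat_lit 0x1000000000000000000000000000000000000, [L3321_1, S3321_1], nat_lit 0x1000000000000000000000000000000000000, nat_lit 0⟩, ⟨nat_lit 0x1000000000000000000000000000000000000, [L4221_0], nat_lit 0x8000000000000000000000, nat_lit 144⟩, ⟨nat_lit 0x400000000, [L4311_0], nat_lit 1024, nat_lit 231⟩, ⟨nat_lit 16, [L4320_0], nat_lit 2, nat_lit 241⟩]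
noncomputable def pL4321_1 : List Ent := [⟨nat_lit 0x1000000000000000000000000000000000000, [L3321_1], nat_lit 0x1000000000000000000000000000000000000, nat_lit 0⟩, ⟨nat_lit 0x200000, [L4221_2, S4221_2], nat_lit 0x8000000000000000000000, nat_lit 144⟩, ⟨nat_lit 0x200000, [L4311_1], nat_lit 1024, nat_lit 231⟩, ⟨nat_lit 32, [L4320_1], nat_lit 2, nat_lit 241⟩]
noncomputable def pL4321_2 : List Ent := [⟨nat_lit 0x400000000, [L3321_2], nat_lit 0x1000000000000000000000000000000000000, nat_lit 0⟩, ⟨nat_lit 0x200000, [L4221_2], nat_lit 0x8000000000000000000000, nat_lit 144⟩, ⟨nat_lit 1, [], nat_lit 1, nat_lit 0⟩, ⟨nat_lit 1, [], nat_lit 1, nat_lit 0⟩]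
noncomputable def pL4321_3 : List Ent := [⟨nat_lit 16, [L3321_3], nat_lit 0x1000000000000000000000000000000000000, nat_lit 0⟩, ⟨nat_lit 32, [L4221_3], nat_lit 0x8000000000000000000000, nat_lit 144⟩, ⟨nat_lit 1, [], nat_lit 1, nat_lit 0⟩]
noncomputable def pL4222_0 : List Ent := [⟨nat_lit 0x1000000000000000000000000000000000000000000000000000000000000000000000000000000000000000000000000000, [L3222_0], nat_lit 0x200000000000000000000000000000000000000000000000000000000000000000000000000000000000000000000000000000000000000000000000000000, nat_lit 0⟩, ⟨nat_lit 0x1000000000000000000000000000000000000, [L4221_0], nat_lit 0x8000000000000000000000, nat_lit 501⟩, ⟨nat_lit 0x1000000000000000000000000000000000000, [L4221_0], nat_lit 0x8000000000000000000000, nat_lit 588⟩, ⟨nat_lit 0x1000000000000000000000000000000000000, [L4221_0], nat_lit 0x8000000000000000000000, nat_lit 675⟩]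
noncomputable def pL4222_1 : List Ent := [⟨nat_lit 0x1000000000000000000000000000000000000, [L3222_3, S3222_2, S3222_3, S3222_2, S3222_2], nat_lit 0x200000000000000000000000000000000000000000000000000000000000000000000000000000000000000000000000000000000000000000000000000000, nat_lit 0⟩, ⟨nat_lit 0x200000, [S4211_3, L4221_2, S4221_2], nat_lit 0x8000000000000000000000, nat_lit 588⟩, ⟨nat_lit 0x200000, [S4211_3, L4221_2, S4221_2], nat_lit 0x8000000000000000000000, nat_lit 675⟩, ⟨nat_lit 32, [L4221_3], nat_lit 0x8000000000000000000000, nat_lit 501⟩]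
noncomputable def pL4222_2 : List Ent := [⟨nat_lit 0x1000000000000000000000000000000000000, [L3222_3, S3222_2, S3222_3, S3222_2], nat_lit 0x200000000000000000000000000000000000000000000000000000000000000000000000000000000000000000000000000000000000000000000000000000, nat_lit 0⟩, ⟨nat_lit 0x200000, [S4211_3, L4221_2, S4221_2], nat_lit 0x8000000000000000000000, nat_lit 501⟩, ⟨nat_lit 0x200000, [S4211_3, L4221_2], nat_lit 0x8000000000000000000000, nat_lit 675⟩, ⟨nat_lit 32, [L4221_3], nat_lit 0x8000000000000000000000, nat_lit 588⟩]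
noncomputable def pL4222_3 : List Ent := [⟨nat_lit 0x1000000000000000000000000000000000000, [L3222_3], nat_lit 0x200000000000000000000000000000000000000000000000000000000000000000000000000000000000000000000000000000000000000000000000000000, nat_lit 0⟩, ⟨nat_lit 0x200000, [S4211_3, L4221_2], nat_lit 0x8000000000000000000000, nat_lit 501⟩, ⟨nat_lit 0x200000, [S4211_3, L4221_2], nat_lit 0x8000000000000000000000, nat_lit 588⟩, ⟨nat_lit 32, [L4221_3], nat_lit 0x8000000000000000000000, nat_lit 675⟩]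
noncomputable def pS4222_2 : List Ent := [⟨nat_lit 0x200000000000000000000000000000000000000000000000000000000000000000000000000000000000000000000000000000000000000000000000000000, [S3222_2], nat_lit 0x200000000000000000000000000000000000000000000000000000000000000000000000000000000000000000000000000000000000000000000000000000, nat_lit 0⟩, ⟨nat_lit 0x8000000000000000000000, [], nat_lit 0x8000000000000000000000, nat_lit 588⟩, ⟨nat_lit 0x8000000000000000000000, [], nat_lit 0x8000000000000000000000, nat_lit 501⟩, ⟨nat_lit 0x8000000000000000000000, [S4221_2], nat_lit 0x8000000000000000000000, nat_lit 675⟩]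
noncomputable def pS4222_3 : List Ent := [⟨nat_lit 0x200000000000000000000000000000000000000000000000000000000000000000000000000000000000000000000000000000000000000000000000000000, [S3222_3], nat_lit 0x200000000000000000000000000000000000000000000000000000000000000000000000000000000000000000000000000000000000000000000000000000, nat_lit 0⟩, ⟨nat_lit 0x8000000000000000000000, [S4221_2], nat_lit 0x8000000000000000000000, nat_lit 675⟩, ⟨nat_lit 0x8000000000000000000000, [S4221_2], nat_lit 0x8000000000000000000000, nat_lit 588⟩, ⟨nat_lit 0x8000000000000000000000, [S4221_2], nat_lit 0x8000000000000000000000, nat_lit 501⟩]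
noncomputable def pL3331_0 : List Ent := [⟨nat_lit 0x1000000000000000000000000000000000000, [S3221_2, L3321_1, S3321_1], nat_lit 0x1000000000000000000000000000000000000, nat_lit 144⟩, ⟨nat_lit 0x1000000000000000000000000000000000000, [S3221_2, L3321_1, S3321_1], nat_lit 0x1000000000000000000000000000000000000, nat_lit 288⟩, ⟨nat_lit 0x400000000, [L3321_2], nat_lit 0x1000000000000000000000000000000000000, nat_lit 0⟩, ⟨nat_lit 16, [L3330_2], nat_lit 1, nat_lit 432⟩]
noncomputable def pL3331_1 : List Ent := [⟨nat_lit 0x1000000000000000000000000000000000000, [S3221_2, L3321_1, S3321_1], nat_lit 0x1000000000000000000000000000000000000, nat_lit 0⟩, ⟨nat_lit 0x1000000000000000000000000000000000000, [S3221_2, L3321_1], nat_lit 0x1000000000000000000000000000000000000, nat_lit 288⟩, ⟨nat_lit 0x400000000, [L3321_2], nat_lit 0x1000000000000000000000000000000000000, nat_lit 144⟩, ⟨nat_lit 16, [L3330_2], nat_lit 1, nat_lit 432⟩]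
noncomputable def pL3331_2 : List Ent := [⟨nat_lit 0x1000000000000000000000000000000000000, [S3221_2, L3321_1], nat_lit 0x1000000000000000000000000000000000000, nat_lit 0⟩, ⟨nat_lit 0x1000000000000000000000000000000000000, [S3221_2, L3321_1], nat_lit 0x1000000000000000000000000000000000000, nat_lit 144⟩, ⟨nat_lit 0x400000000, [L3321_2], nat_lit 0x1000000000000000000000000000000000000, nat_lit 288⟩, ⟨nat_lit 16, [L3330_2], nat_lit 1, nat_lit 432⟩]
noncomputable def pL3331_3 : List Ent := [⟨nat_lit 16, [L3321_3], nat_lit 0x1000000000000000000000000000000000000, nat_lit 0⟩, ⟨nat_lit 16, [L3321_3], nat_lit 0x1000000000000000000000000000000000000, nat_lit 144⟩, ⟨nat_lit 16, [L3321_3], nat_lit 0x1000000000000000000000000000000000000, nat_lit 288⟩]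
noncomputable def pS3331_1 : List Ent := [⟨nat_lit 0x1000000000000000000000000000000000000, [], nat_lit 0x1000000000000000000000000000000000000, nat_lit 144⟩, ⟨nat_lit 0x1000000000000000000000000000000000000, [], nat_lit 0x1000000000000000000000000000000000000, nat_lit 0⟩, ⟨nat_lit 0x1000000000000000000000000000000000000, [S3321_1], nat_lit 0x1000000000000000000000000000000000000, nat_lit 288⟩, ⟨nat_lit 1, [], nat_lit 1, nat_lit 0⟩]
noncomputable def pS3331_2 : List Ent := [⟨nat_lit 0x1000000000000000000000000000000000000, [S3321_1], nat_lit 0x1000000000000000000000000000000000000, nat_lit 288⟩, ⟨nat_lit 0x1000000000000000000000000000000000000, [S3321_1], nat_lit 0x1000000000000000000000000000000000000, nat_lit 144⟩, ⟨nat_lit 0x1000000000000000000000000000000000000, [S3321_1], nat_lit 0x1000000000000000000000000000000000000, nat_lit 0⟩, ⟨nat_lit 1, [], nat_lit 1, nat_lit 0⟩]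
noncomputable def pL3322_0 : List Ent := [⟨nat_lit 0x1000000000000000000000000000000000000000000000000000000000000000000000000000000000000000000000000000, [S2222_1, L3222_0], nat_lit 0x200000000000000000000000000000000000000000000000000000000000000000000000000000000000000000000000000000000000000000000000000000, nat_lit 501⟩, ⟨nat_lit 0x1000000000000000000000000000000000000, [L3222_3, S3222_2, S3222_3, S3222_2, S3222_2], nat_lit 0x200000000000000000000000000000000000000000000000000000000000000000000000000000000000000000000000000000000000000000000000000000, nat_lit 0⟩, ⟨nat_lit 0x1000000000000000000000000000000000000, [L3321_1, S3321_1], nat_lit 0x1000000000000000000000000000000000000, nat_lit 1002⟩, ⟨nat_lit 0x1000000000000000000000000000000000000, [L3321_1, S3321_1], nat_lit 0x1000000000000000000000000000000000000, nat_lit 1146⟩]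
noncomputable def pL3322_1 : List Ent := [⟨nat_lit 0x1000000000000000000000000000000000000000000000000000000000000000000000000000000000000000000000000000, [S2222_1, L3222_0], nat_lit 0x200000000000000000000000000000000000000000000000000000000000000000000000000000000000000000000000000000000000000000000000000000, nat_lit 0⟩, ⟨nat_lit 0x1000000000000000000000000000000000000, [L3222_3, S3222_2, S3222_3, S3222_2, S3222_2], nat_lit 0x200000000000000000000000000000000000000000000000000000000000000000000000000000000000000000000000000000000000000000000000000000, nat_lit 501⟩, ⟨nat_lit 0x1000000000000000000000000000000000000, [L3321_1], nat_lit 0x1000000000000000000000000000000000000, nat_lit 1002⟩, ⟨nat_lit 0x1000000000000000000000000000000000000, [L3321_1], nat_lit 0x1000000000000000000000000000000000000, nat_lit 1146⟩]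
noncomputable def pL3322_2 : List Ent := [⟨nat_lit 0x1000000000000000000000000000000000000, [L3222_3, S3222_2, S3222_3, S3222_2], nat_lit 0x200000000000000000000000000000000000000000000000000000000000000000000000000000000000000000000000000000000000000000000000000000, nat_lit 0⟩, ⟨nat_lit 0x1000000000000000000000000000000000000, [L3222_3, S3222_2, S3222_3, S3222_2], nat_lit 0x200000000000000000000000000000000000000000000000000000000000000000000000000000000000000000000000000000000000000000000000000000, nat_lit 501⟩, ⟨nat_lit 0x400000000, [S3311_3, L3321_2], nat_lit 0x1000000000000000000000000000000000000, nat_lit 1146⟩, ⟨nat_lit 16, [L3321_3], nat_lit 0x1000000000000000000000000000000000000, nat_lit 1002⟩]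
noncomputable def pL3322_3 : List Ent := [⟨nat_lit 0x1000000000000000000000000000000000000, [L3222_3], nat_lit 0x200000000000000000000000000000000000000000000000000000000000000000000000000000000000000000000000000000000000000000000000000000, nat_lit 0⟩, ⟨nat_lit 0x1000000000000000000000000000000000000, [L3222_3], nat_lit 0x200000000000000000000000000000000000000000000000000000000000000000000000000000000000000000000000000000000000000000000000000000, nat_lit 501⟩, ⟨nat_lit 0x400000000, [S3311_3, L3321_2], nat_lit 0x1000000000000000000000000000000000000, nat_lit 1002⟩, ⟨nat_lit 16, [L3321_3], nat_lit 0x1000000000000000000000000000000000000, nat_lit 1146⟩]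
noncomputable def pS3322_1 : List Ent := [⟨nat_lit 0x200000000000000000000000000000000000000000000000000000000000000000000000000000000000000000000000000000000000000000000000000000, [], nat_lit 0x200000000000000000000000000000000000000000000000000000000000000000000000000000000000000000000000000000000000000000000000000000, nat_lit 501⟩, ⟨nat_lit 0x200000000000000000000000000000000000000000000000000000000000000000000000000000000000000000000000000000000000000000000000000000, [], nat_lit 0x200000000000000000000000000000000000000000000000000000000000000000000000000000000000000000000000000000000000000000000000000000, nat_lit 0⟩, ⟨nat_lit 0x1000000000000000000000000000000000000, [S3321_1], nat_lit 0x1000000000000000000000000000000000000, nat_lit 1002⟩, ⟨nat_lit 0x1000000000000000000000000000000000000, [S3321_1], nat_lit 0x1000000000000000000000000000000000000, nat_lit 1146⟩]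
noncomputable def pS3322_3 : List Ent := [⟨nat_lit 0x200000000000000000000000000000000000000000000000000000000000000000000000000000000000000000000000000000000000000000000000000000, [S3222_2, S3222_3, S3222_2], nat_lit 0x200000000000000000000000000000000000000000000000000000000000000000000000000000000000000000000000000000000000000000000000000000, nat_lit 0⟩, ⟨nat_lit 0x200000000000000000000000000000000000000000000000000000000000000000000000000000000000000000000000000000000000000000000000000000, [S3222_2, S3222_3, S3222_2], nat_lit 0x200000000000000000000000000000000000000000000000000000000000000000000000000000000000000000000000000000000000000000000000000000, nat_lit 501⟩, ⟨nat_lit 0x1000000000000000000000000000000000000, [], nat_lit 0x1000000000000000000000000000000000000, nat_lit 1146⟩, ⟨nat_lit 0x1000000000000000000000000000000000000, [], nat_lit 0x1000000000000000000000000000000000000, nat_lit 1002⟩]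
noncomputable def pL6221_0 : List Ent := [⟨nat_lit 0x8000000000000000000000, [L5221_0], nat_lit 0x800000, nat_lit 0⟩, ⟨nat_lit 8, [L6211_0], nat_lit 1, nat_lit 23⟩, ⟨nat_lit 8, [L6211_0], nat_lit 1, nat_lit 23⟩, ⟨nat_lit 2, [L6220_0], nat_lit 1, nat_lit 23⟩]
noncomputable def pL6221_1 : List Ent := [⟨nat_lit 8, [L5221_2, S5221_2], nat_lit 0x800000, nat_lit 0⟩]
noncomputable def pL6221_2 : List Ent := [⟨nat_lit 8, [L5221_2], nat_lit 0x800000, nat_lit 0⟩]
noncomputable def pL6221_3 : List Ent := [⟨nat_lit 2, [L5221_3], nat_lit 0x800000, nat_lit 0⟩]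
noncomputable def pS6221_2 : List Ent := [⟨nat_lit 0x800000, [S5221_2], nat_lit 0x800000, nat_lit 0⟩, ⟨nat_lit 1, [], nat_lit 1, nat_lit 0⟩, ⟨nat_lit 1, [], nat_lit 1, nat_lit 0⟩, ⟨nat_lit 1, [], nat_lit 1, nat_lit 0⟩]
noncomputable def pL5321_0 : List Ent := [⟨nat_lit 0x1000000000000000000000000000000000000, [L4321_0], nat_lit 0x100000000000000000, nat_lit 0⟩, ⟨nat_lit 0x8000000000000000000000, [L5221_0], nat_lit 0x800000, nat_lit 68⟩, ⟨nat_lit 1024, [L5311_0], nat_lit 1, nat_lit 91⟩, ⟨nat_lit 2, [L5320_0], nat_lit 1, nat_lit 91⟩]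
noncomputable def pL5321_1 : List Ent := [⟨nat_lit 0x8000000000000000000000, [L4321_1], nat_lit 0x100000000000000000, nat_lit 0⟩, ⟨nat_lit 8, [L5221_2, S5221_2], nat_lit 0x800000, nat_lit 68⟩, ⟨nat_lit 8, [L5311_1], nat_lit 1, nat_lit 91⟩, ⟨nat_lit 2, [L5320_1], nat_lit 1, nat_lit 91⟩]
noncomputable def pL5321_2 : List Ent := [⟨nat_lit 1024, [L4321_2], nat_lit 0x100000000000000000, nat_lit 0⟩, ⟨nat_lit 8, [L5221_2], nat_lit 0x800000, nat_lit 68⟩]
noncomputable def pL5321_3 : List Ent := [⟨nat_lit 2, [L4321_3], nat_lit 0x100000000000000000, nat_lit 0⟩, ⟨nat_lit 2, [L5221_3], nat_lit 0x800000, nat_lit 68⟩]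
noncomputable def pL5222_0 : List Ent := [⟨nat_lit 0x200000000000000000000000000000000000000000000000000000000000000000000000000000000000000000000000000000000000000000000000000000, [L4222_0], nat_lit 0x40000000000000000000000000000000000000000000000000000000000000000000000000000000000000000000, nat_lit 0⟩, ⟨nat_lit 0x8000000000000000000000, [L5221_0], nat_lit 0x800000, nat_lit 366⟩, ⟨nat_lit 0x8000000000000000000000, [L5221_0], nat_lit 0x800000, nat_lit 389⟩, ⟨nat_lit 0x8000000000000000000000, [L5221_0], nat_lit 0x800000, nat_lit 412⟩]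
noncomputable def pL5222_1 : List Ent := [⟨nat_lit 0x8000000000000000000000, [L4222_3, S4222_2, S4222_3, S4222_2, S4222_2], nat_lit 0x40000000000000000000000000000000000000000000000000000000000000000000000000000000000000000000, nat_lit 0⟩, ⟨nat_lit 8, [S5211_3, L5221_2, S5221_2], nat_lit 0x800000, nat_lit 389⟩, ⟨nat_lit 8, [S5211_3, L5221_2, S5221_2], nat_lit 0x800000, nat_lit 412⟩, ⟨nat_lit 2, [L5221_3], nat_lit 0x800000, nat_lit 366⟩]
noncomputable def pL5222_2 : List Ent := [⟨nat_lit 0x8000000000000000000000, [L4222_3, S4222_2, S4222_3, S4222_2], nat_lit 0x40000000000000000000000000000000000000000000000000000000000000000000000000000000000000000000, nat_lit 0⟩, ⟨nat_lit 8, [S5211_3, L5221_2, S5221_2], nat_lit 0x800000, nat_lit 366⟩, ⟨nat_lit 8, [S5211_3, L5221_2], nat_lit 0x800000, nat_lit 412⟩, ⟨nat_lit 2, [L5221_3], nat_lit 0x800000, nat_lit 389⟩]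
noncomputable def pL5222_3 : List Ent := [⟨nat_lit 0x8000000000000000000000, [L4222_3], nat_lit 0x40000000000000000000000000000000000000000000000000000000000000000000000000000000000000000000, nat_lit 0⟩, ⟨nat_lit 8, [S5211_3, L5221_2], nat_lit 0x800000, nat_lit 366⟩, ⟨nat_lit 8, [S5211_3, L5221_2], nat_lit 0x800000, nat_lit 389⟩, ⟨nat_lit 2, [L5221_3], nat_lit 0x800000, nat_lit 412⟩]
noncomputable def pS5222_2 : List Ent := [⟨nat_lit 0x40000000000000000000000000000000000000000000000000000000000000000000000000000000000000000000, [S4222_2], nat_lit 0x40000000000000000000000000000000000000000000000000000000000000000000000000000000000000000000, nat_lit 0⟩, ⟨nat_lit 0x800000, [], nat_lit 0x800000, nat_lit 389⟩, ⟨nat_lit 0x800000, [], nat_lit 0x800000, nat_lit 366⟩, ⟨nat_lit 0x800000, [S5221_2], nat_lit 0x800000, nat_lit 412⟩]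
noncomputable def pS5222_3 : List Ent := [⟨nat_lit 0x40000000000000000000000000000000000000000000000000000000000000000000000000000000000000000000, [S4222_3], nat_lit 0x40000000000000000000000000000000000000000000000000000000000000000000000000000000000000000000, nat_lit 0⟩, ⟨nat_lit 0x800000, [S5221_2], nat_lit 0x800000, nat_lit 412⟩, ⟨nat_lit 0x800000, [S5221_2], nat_lit 0x800000, nat_lit 389⟩, ⟨nat_lit 0x800000, [S5221_2], nat_lit 0x800000, nat_lit 366⟩]
noncomputable def pL4421_0 : List Ent := [⟨nat_lit 0x1000000000000000000000000000000000000, [S3321_1, L4321_0], nat_lit 0x100000000000000000, nat_lit 68⟩, ⟨nat_lit 0x8000000000000000000000, [L4321_1], nat_lit 0x100000000000000000, nat_lit 0⟩, ⟨nat_lit 1024, [L4411_1], nat_lit 1, nat_lit 136⟩, ⟨nat_lit 2, [L4420_1], nat_lit 1, nat_lit 136⟩]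
noncomputable def pL4421_1 : List Ent := [⟨nat_lit 0x1000000000000000000000000000000000000, [S3321_1, L4321_0], nat_lit 0x100000000000000000, nat_lit 0⟩, ⟨nat_lit 0x8000000000000000000000, [L4321_1], nat_lit 0x100000000000000000, nat_lit 68⟩, ⟨nat_lit 1024, [L4411_1], nat_lit 1, nat_lit 136⟩, ⟨nat_lit 2, [L4420_1], nat_lit 1, nat_lit 136⟩]
noncomputable def pL4421_2 : List Ent := [⟨nat_lit 1024, [L4321_2], nat_lit 0x100000000000000000, nat_lit 0⟩, ⟨nat_lit 1024, [L4321_2], nat_lit 0x100000000000000000, nat_lit 68⟩]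
noncomputable def pL4421_3 : List Ent := [⟨nat_lit 2, [L4321_3], nat_lit 0x100000000000000000, nat_lit 0⟩, ⟨nat_lit 2, [L4321_3], nat_lit 0x100000000000000000, nat_lit 68⟩]
noncomputable def pS4421_1 : List Ent := [⟨nat_lit 0x100000000000000000, [], nat_lit 0x100000000000000000, nat_lit 68⟩, ⟨nat_lit 0x100000000000000000, [], nat_lit 0x100000000000000000, nat_lit 0⟩, ⟨nat_lit 1, [], nat_lit 1, nat_lit 0⟩, ⟨nat_lit 1, [], nat_lit 1, nat_lit 0⟩]
noncomputable def pL4331_0 : List Ent := [⟨nat_lit 0x1000000000000000000000000000000000000, [L3331_2, S3331_1, S3331_2, S3331_1, S3331_1], nat_lit 0x40000000000000000000000000000000, nat_lit 0⟩, ⟨nat_lit 0x1000000000000000000000000000000000000, [L4321_0], nat_lit 0x100000000000000000, nat_lit 126⟩, ⟨nat_lit 0x1000000000000000000000000000000000000, [L4321_0], nat_lit 0x100000000000000000, nat_lit 194⟩, ⟨nat_lit 1, [], nat_lit 1, nat_lit 0⟩]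
noncomputable def pL4331_1 : List Ent := [⟨nat_lit 0x1000000000000000000000000000000000000, [L3331_2, S3331_1, S3331_2, S3331_1], nat_lit 0x40000000000000000000000000000000, nat_lit 0⟩, ⟨nat_lit 0x8000000000000000000000, [S4221_2, L4321_1], nat_lit 0x100000000000000000, nat_lit 194⟩, ⟨nat_lit 1024, [L4321_2], nat_lit 0x100000000000000000, nat_lit 126⟩, ⟨nat_lit 2, [L4330_2], nat_lit 1, nat_lit 262⟩]
noncomputable def pL4331_2 : List Ent := [⟨nat_lit 0x1000000000000000000000000000000000000, [L3331_2], nat_lit 0x40000000000000000000000000000000, nat_lit 0⟩, ⟨nat_lit 0x8000000000000000000000, [S4221_2, L4321_1], nat_lit 0x100000000000000000, nat_lit 126⟩, ⟨nat_lit 1024, [L4321_2], nat_lit 0x100000000000000000, nat_lit 194⟩, ⟨nat_lit 2, [L4330_2], nat_lit 1, nat_lit 262⟩]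
noncomputable def pL4331_3 : List Ent := [⟨nat_lit 1, [], nat_lit 1, nat_lit 0⟩, ⟨nat_lit 2, [L4321_3], nat_lit 0x100000000000000000, nat_lit 126⟩, ⟨nat_lit 2, [L4321_3], nat_lit 0x100000000000000000, nat_lit 194⟩]
noncomputable def pS4331_2 : List Ent := [⟨nat_lit 0x40000000000000000000000000000000, [S3331_1, S3331_2, S3331_1], nat_lit 0x40000000000000000000000000000000, nat_lit 0⟩, ⟨nat_lit 0x100000000000000000, [], nat_lit 0x100000000000000000, nat_lit 194⟩, ⟨nat_lit 0x100000000000000000, [], nat_lit 0x100000000000000000, nat_lit 126⟩, ⟨nat_lit 1, [], nat_lit 1, nat_lit 0⟩]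
noncomputable def pL4322_0 : List Ent := [⟨nat_lit 0x200000000000000000000000000000000000000000000000000000000000000000000000000000000000000000000000000000000000000000000000000000, [L3322_1, S3322_1], nat_lit 0x4000000000000000000000000000000000000000000000000000000000000000000000000000000000000000000000000000000000000000000000000000000000000000000000000000000000000000, nat_lit 0⟩, ⟨nat_lit 0x200000000000000000000000000000000000000000000000000000000000000000000000000000000000000000000000000000000000000000000000000000, [L4222_0], nat_lit 0x40000000000000000000000000000000000000000000000000000000000000000000000000000000000000000000, nat_lit 638⟩, ⟨nat_lit 0x1000000000000000000000000000000000000, [L4321_0], nat_lit 0x100000000000000000, nat_lit 1004⟩, ⟨nat_lit 0x1000000000000000000000000000000000000, [L4321_0], nat_lit 0x100000000000000000, nat_lit 1072⟩]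
noncomputable def pL4322_1 : List Ent := [⟨nat_lit 0x200000000000000000000000000000000000000000000000000000000000000000000000000000000000000000000000000000000000000000000000000000, [L3322_1], nat_lit 0x4000000000000000000000000000000000000000000000000000000000000000000000000000000000000000000000000000000000000000000000000000000000000000000000000000000000000000, nat_lit 0⟩, ⟨nat_lit 0x8000000000000000000000, [L4222_3, S4222_2, S4222_3, S4222_2, S4222_2], nat_lit 0x40000000000000000000000000000000000000000000000000000000000000000000000000000000000000000000, nat_lit 638⟩, ⟨nat_lit 0x8000000000000000000000, [L4321_1], nat_lit 0x100000000000000000, nat_lit 1004⟩, ⟨nat_lit 0x8000000000000000000000, [L4321_1], nat_lit 0x100000000000000000, nat_lit 1072⟩]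
noncomputable def pL4322_2 : List Ent := [⟨nat_lit 0x1000000000000000000000000000000000000, [L3322_3, S3322_3], nat_lit 0x4000000000000000000000000000000000000000000000000000000000000000000000000000000000000000000000000000000000000000000000000000000000000000000000000000000000000000, nat_lit 0⟩, ⟨nat_lit 0x8000000000000000000000, [L4222_3, S4222_2, S4222_3, S4222_2], nat_lit 0x40000000000000000000000000000000000000000000000000000000000000000000000000000000000000000000, nat_lit 638⟩, ⟨nat_lit 1024, [S4311_3, L4321_2], nat_lit 0x100000000000000000, nat_lit 1072⟩, ⟨nat_lit 2, [L4321_3], nat_lit 0x100000000000000000, nat_lit 1004⟩]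
noncomputable def pL4322_3 : List Ent := [⟨nat_lit 0x1000000000000000000000000000000000000, [L3322_3], nat_lit 0x4000000000000000000000000000000000000000000000000000000000000000000000000000000000000000000000000000000000000000000000000000000000000000000000000000000000000000, nat_lit 0⟩, ⟨nat_lit 0x8000000000000000000000, [L4222_3], nat_lit 0x40000000000000000000000000000000000000000000000000000000000000000000000000000000000000000000, nat_lit 638⟩, ⟨nat_lit 1024, [S4311_3, L4321_2], nat_lit 0x100000000000000000, nat_lit 1004⟩, ⟨nat_lit 2, [L4321_3], nat_lit 0x100000000000000000, nat_lit 1072⟩]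
noncomputable def pS4322_3 : List Ent := [⟨nat_lit 0x4000000000000000000000000000000000000000000000000000000000000000000000000000000000000000000000000000000000000000000000000000000000000000000000000000000000000000, [S3322_3], nat_lit 0x4000000000000000000000000000000000000000000000000000000000000000000000000000000000000000000000000000000000000000000000000000000000000000000000000000000000000000, nat_lit 0⟩, ⟨nat_lit 0x40000000000000000000000000000000000000000000000000000000000000000000000000000000000000000000, [S4222_2, S4222_3, S4222_2], nat_lit 0x40000000000000000000000000000000000000000000000000000000000000000000000000000000000000000000, nat_lit 638⟩, ⟨nat_lit 0x100000000000000000, [], nat_lit 0x100000000000000000, nat_lit 1072⟩, ⟨nat_lit 0x100000000000000000, [], nat_lit 0x100000000000000000, nat_lit 1004⟩]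
noncomputable def pL3332_0 : List Ent := [⟨nat_lit 0x200000000000000000000000000000000000000000000000000000000000000000000000000000000000000000000000000000000000000000000000000000, [S3222_2, L3322_1, S3322_1], nat_lit 0x4000000000000000000000000000000000000000000000000000000000000000000000000000000000000000000000000000000000000000000000000000000000000000000000000000000000000000, nat_lit 638⟩, ⟨nat_lit 0x200000000000000000000000000000000000000000000000000000000000000000000000000000000000000000000000000000000000000000000000000000, [S3222_2, L3322_1, S3322_1], nat_lit 0x4000000000000000000000000000000000000000000000000000000000000000000000000000000000000000000000000000000000000000000000000000000000000000000000000000000000000000, nat_lit 1276⟩, ⟨nat_lit 0x1000000000000000000000000000000000000, [L3322_3, S3322_3], nat_lit 0x4000000000000000000000000000000000000000000000000000000000000000000000000000000000000000000000000000000000000000000000000000000000000000000000000000000000000000,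 nat_lit 0⟩, ⟨nat_lit 0x1000000000000000000000000000000000000, [L3331_2, S3331_1, S3331_2, S3331_1, S3331_1], nat_lit 0x40000000000000000000000000000000, nat_lit 1914⟩]
noncomputable def pL3332_1 : List Ent := [⟨nat_lit 0x200000000000000000000000000000000000000000000000000000000000000000000000000000000000000000000000000000000000000000000000000000, [S3222_2, L3322_1, S3322_1], nat_lit 0x4000000000000000000000000000000000000000000000000000000000000000000000000000000000000000000000000000000000000000000000000000000000000000000000000000000000000000, nat_lit 0⟩, ⟨nat_lit 0x200000000000000000000000000000000000000000000000000000000000000000000000000000000000000000000000000000000000000000000000000000, [S3222_2, L3322_1], nat_lit 0x4000000000000000000000000000000000000000000000000000000000000000000000000000000000000000000000000000000000000000000000000000000000000000000000000000000000000000, nat_lit 1276⟩, ⟨nat_lit 0x1000000000000000000000000000000000000, [L3322_3, S3322_3],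 nat_lit 0x4000000000000000000000000000000000000000000000000000000000000000000000000000000000000000000000000000000000000000000000000000000000000000000000000000000000000000, nat_lit 638⟩, ⟨nat_lit 0x1000000000000000000000000000000000000, [L3331_2, S3331_1, S3331_2, S3331_1], nat_lit 0x40000000000000000000000000000000, nat_lit 1914⟩]
noncomputable def pL3332_2 : List Ent := [⟨nat_lit 0x200000000000000000000000000000000000000000000000000000000000000000000000000000000000000000000000000000000000000000000000000000, [S3222_2, L3322_1], nat_lit 0x4000000000000000000000000000000000000000000000000000000000000000000000000000000000000000000000000000000000000000000000000000000000000000000000000000000000000000, nat_lit 0⟩, ⟨nat_lit 0x200000000000000000000000000000000000000000000000000000000000000000000000000000000000000000000000000000000000000000000000000000, [S3222_2, L3322_1], nat_lit 0x4000000000000000000000000000000000000000000000000000000000000000000000000000000000000000000000000000000000000000000000000000000000000000000000000000000000000000,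 nat_lit 638⟩, ⟨nat_lit 0x1000000000000000000000000000000000000, [L3322_3, S3322_3], nat_lit 0x4000000000000000000000000000000000000000000000000000000000000000000000000000000000000000000000000000000000000000000000000000000000000000000000000000000000000000, nat_lit 1276⟩, ⟨nat_lit 0x1000000000000000000000000000000000000, [L3331_2], nat_lit 0x40000000000000000000000000000000, nat_lit 1914⟩]
noncomputable def pL3332_3 : List Ent := [⟨nat_lit 0x1000000000000000000000000000000000000, [L3322_3], nat_lit 0x4000000000000000000000000000000000000000000000000000000000000000000000000000000000000000000000000000000000000000000000000000000000000000000000000000000000000000, nat_lit 0⟩, ⟨nat_lit 0x1000000000000000000000000000000000000, [L3322_3], nat_lit 0x4000000000000000000000000000000000000000000000000000000000000000000000000000000000000000000000000000000000000000000000000000000000000000000000000000000000000000, nat_lit 638⟩, ⟨nat_lit 0x1000000000000000000000000000000000000,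 [L3322_3], nat_lit 0x4000000000000000000000000000000000000000000000000000000000000000000000000000000000000000000000000000000000000000000000000000000000000000000000000000000000000000, nat_lit 1276⟩, ⟨nat_lit 1, [], nat_lit 1, nat_lit 0⟩]
noncomputable def pS3332_1 : List Ent := [⟨nat_lit 0x4000000000000000000000000000000000000000000000000000000000000000000000000000000000000000000000000000000000000000000000000000000000000000000000000000000000000000, [], nat_lit 0x4000000000000000000000000000000000000000000000000000000000000000000000000000000000000000000000000000000000000000000000000000000000000000000000000000000000000000, nat_lit 638⟩, ⟨nat_lit 0x4000000000000000000000000000000000000000000000000000000000000000000000000000000000000000000000000000000000000000000000000000000000000000000000000000000000000000, [], nat_lit 0x4000000000000000000000000000000000000000000000000000000000000000000000000000000000000000000000000000000000000000000000000000000000000000000000000000000000000000,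 nat_lit 0⟩, ⟨nat_lit 0x4000000000000000000000000000000000000000000000000000000000000000000000000000000000000000000000000000000000000000000000000000000000000000000000000000000000000000, [S3322_1], nat_lit 0x4000000000000000000000000000000000000000000000000000000000000000000000000000000000000000000000000000000000000000000000000000000000000000000000000000000000000000, nat_lit 1276⟩, ⟨nat_lit 0x40000000000000000000000000000000, [S3331_1], nat_lit 0x40000000000000000000000000000000, nat_lit 1914⟩]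
noncomputable def pS3332_2 : List Ent := [⟨nat_lit 0x4000000000000000000000000000000000000000000000000000000000000000000000000000000000000000000000000000000000000000000000000000000000000000000000000000000000000000, [S3322_1], nat_lit 0x4000000000000000000000000000000000000000000000000000000000000000000000000000000000000000000000000000000000000000000000000000000000000000000000000000000000000000, nat_lit 1276⟩, ⟨nat_lit 0x4000000000000000000000000000000000000000000000000000000000000000000000000000000000000000000000000000000000000000000000000000000000000000000000000000000000000000, [S3322_1], nat_lit 0x4000000000000000000000000000000000000000000000000000000000000000000000000000000000000000000000000000000000000000000000000000000000000000000000000000000000000000, nat_lit 638⟩, ⟨nat_lit 0x4000000000000000000000000000000000000000000000000000000000000000000000000000000000000000000000000000000000000000000000000000000000000000000000000000000000000000, [S3322_1], nat_lit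 0x4000000000000000000000000000000000000000000000000000000000000000000000000000000000000000000000000000000000000000000000000000000000000000000000000000000000000000, nat_lit 0⟩, ⟨nat_lit 0x40000000000000000000000000000000, [S3331_2], nat_lit 0x40000000000000000000000000000000, nat_lit 1914⟩]
noncomputable def pL7221_0 : List Ent := [⟨nat_lit 0x800000, [L6221_0], nat_lit 4, nat_lit 0⟩, ⟨nat_lit 1, [], nat_lit 1, nat_lit 0⟩, ⟨nat_lit 1, [], nat_lit 1, nat_lit 0⟩, ⟨nat_lit 1, [], nat_lit 1, nat_lit 0⟩]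
noncomputable def pL6321_0 : List Ent := [⟨nat_lit 0x100000000000000000, [L5321_0], nat_lit 1024, nat_lit 0⟩, ⟨nat_lit 0x800000, [L6221_0], nat_lit 4, nat_lit 10⟩, ⟨nat_lit 1, [], nat_lit 1, nat_lit 0⟩, ⟨nat_lit 1, [], nat_lit 1, nat_lit 0⟩]
noncomputable def pL6321_1 : List Ent := [⟨nat_lit 0x800000, [L5321_1], nat_lit 1024, nat_lit 0⟩, ⟨nat_lit 1, [], nat_lit 1, nat_lit 0⟩, ⟨nat_lit 1, [], nat_lit 1, nat_lit 0⟩, ⟨nat_lit 1, [], nat_lit 1, nat_lit 0⟩]
noncomputable def pL6222_0 : List Ent := [⟨nat_lit 0x40000000000000000000000000000000000000000000000000000000000000000000000000000000000000000000, [L5222_0], nat_lit 0x1000000000000000000000000000000000, nat_lit 0⟩, ⟨nat_lit 0x800000, [L6221_0], nat_lit 4, nat_lit 132⟩, ⟨nat_lit 0x800000, [L6221_0], nat_lit 4, nat_lit 134⟩, ⟨nat_lit 0x800000, [L6221_0], nat_lit 4, nat_lit 136⟩]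
noncomputable def pL6222_1 : List Ent := [⟨nat_lit 0x800000, [L5222_3, S5222_2, S5222_3, S5222_2, S5222_2], nat_lit 0x1000000000000000000000000000000000, nat_lit 0⟩, ⟨nat_lit 1, [], nat_lit 1, nat_lit 0⟩, ⟨nat_lit 1, [], nat_lit 1, nat_lit 0⟩, ⟨nat_lit 1, [], nat_lit 1, nat_lit 0⟩]
noncomputable def pL6222_2 : List Ent := [⟨nat_lit 0x800000, [L5222_3, S5222_2, S5222_3, S5222_2], nat_lit 0x1000000000000000000000000000000000, nat_lit 0⟩, ⟨nat_lit 1, [], nat_lit 1, nat_lit 0⟩, ⟨nat_lit 1, [], nat_lit 1, nat_lit 0⟩, ⟨nat_lit 1, [], nat_lit 1, nat_lit 0⟩]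
noncomputable def pL6222_3 : List Ent := [⟨nat_lit 0x800000, [L5222_3], nat_lit 0x1000000000000000000000000000000000, nat_lit 0⟩, ⟨nat_lit 1, [], nat_lit 1, nat_lit 0⟩, ⟨nat_lit 1, [], nat_lit 1, nat_lit 0⟩, ⟨nat_lit 1, [], nat_lit 1, nat_lit 0⟩]
noncomputable def pS6222_2 : List Ent := [⟨nat_lit 0x1000000000000000000000000000000000, [S5222_2], nat_lit 0x1000000000000000000000000000000000, nat_lit 0⟩, ⟨nat_lit 4, [], nat_lit 4, nat_lit 134⟩, ⟨nat_lit 4, [], nat_lit 4, nat_lit 132⟩, ⟨nat_lit 4, [S6221_2], nat_lit 4, nat_lit 136⟩]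
noncomputable def pS6222_3 : List Ent := [⟨nat_lit 0x1000000000000000000000000000000000, [S5222_3], nat_lit 0x1000000000000000000000000000000000, nat_lit 0⟩, ⟨nat_lit 4, [S6221_2], nat_lit 4, nat_lit 136⟩, ⟨nat_lit 4, [S6221_2], nat_lit 4, nat_lit 134⟩, ⟨nat_lit 4, [S6221_2], nat_lit 4, nat_lit 132⟩]
noncomputable def pL5421_0 : List Ent := [⟨nat_lit 0x100000000000000000, [L4421_1, S4421_1], nat_lit 0x100000, nat_lit 0⟩, ⟨nat_lit 0x100000000000000000, [L5321_0], nat_lit 1024, nat_lit 20⟩, ⟨nat_lit 1, [], nat_lit 1, nat_lit 0⟩, ⟨nat_lit 1, [], nat_lit 1, nat_lit 0⟩]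
noncomputable def pL5421_1 : List Ent := [⟨nat_lit 0x100000000000000000, [L4421_1], nat_lit 0x100000, nat_lit 0⟩, ⟨nat_lit 0x800000, [L5321_1], nat_lit 1024, nat_lit 20⟩, ⟨nat_lit 1, [], nat_lit 1, nat_lit 0⟩, ⟨nat_lit 1, [], nat_lit 1, nat_lit 0⟩]
noncomputable def pL5331_0 : List Ent := [⟨nat_lit 0x40000000000000000000000000000000, [L4331_0], nat_lit 0x2000000000, nat_lit 0⟩, ⟨nat_lit 0x100000000000000000, [L5321_0], nat_lit 1024, nat_lit 37⟩, ⟨nat_lit 0x100000000000000000, [L5321_0], nat_lit 1024, nat_lit 47⟩, ⟨nat_lit 1, [], nat_lit 1, nat_lit 0⟩]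
noncomputable def pL5331_1 : List Ent := [⟨nat_lit 0x100000000000000000, [L4331_2, S4331_2], nat_lit 0x2000000000, nat_lit 0⟩, ⟨nat_lit 0x800000, [S5221_2, L5321_1], nat_lit 1024, nat_lit 47⟩, ⟨nat_lit 1, [], nat_lit 1, nat_lit 0⟩, ⟨nat_lit 1, [], nat_lit 1, nat_lit 0⟩]
noncomputable def pL5331_2 : List Ent := [⟨nat_lit 0x100000000000000000, [L4331_2], nat_lit 0x2000000000, nat_lit 0⟩, ⟨nat_lit 0x800000, [S5221_2, L5321_1], nat_lit 1024, nat_lit 37⟩, ⟨nat_lit 1, [], nat_lit 1, nat_lit 0⟩, ⟨nat_lit 1, [], nat_lit 1, nat_lit 0⟩]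
noncomputable def pL5322_0 : List Ent := [⟨nat_lit 0x4000000000000000000000000000000000000000000000000000000000000000000000000000000000000000000000000000000000000000000000000000000000000000000000000000000000000000, [L4322_0], nat_lit 0x4000000000000000000000000000000000000000000000000000000000000000000000000000000000000000000000, nat_lit 0⟩, ⟨nat_lit 0x40000000000000000000000000000000000000000000000000000000000000000000000000000000000000000000, [L5222_0], nat_lit 0x1000000000000000000000000000000000, nat_lit 374⟩, ⟨nat_lit 0x100000000000000000, [L5321_0], nat_lit 1024, nat_lit 506⟩, ⟨nat_lit 0x100000000000000000, [L5321_0], nat_lit 1024, nat_lit 516⟩]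
noncomputable def pL5322_1 : List Ent := [⟨nat_lit 0x40000000000000000000000000000000000000000000000000000000000000000000000000000000000000000000, [L4322_1], nat_lit 0x4000000000000000000000000000000000000000000000000000000000000000000000000000000000000000000000, nat_lit 0⟩, ⟨nat_lit 0x800000, [L5222_3, S5222_2, S5222_3, S5222_2, S5222_2], nat_lit 0x1000000000000000000000000000000000, nat_lit 374⟩, ⟨nat_lit 0x800000, [L5321_1], nat_lit 1024, nat_lit 506⟩, ⟨nat_lit 0x800000, [L5321_1], nat_lit 1024, nat_lit 516⟩]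
noncomputable def pL5322_2 : List Ent := [⟨nat_lit 0x100000000000000000, [L4322_3, S4322_3], nat_lit 0x4000000000000000000000000000000000000000000000000000000000000000000000000000000000000000000000, nat_lit 0⟩, ⟨nat_lit 0x800000, [L5222_3, S5222_2, S5222_3, S5222_2], nat_lit 0x1000000000000000000000000000000000, nat_lit 374⟩, ⟨nat_lit 1, [], nat_lit 1, nat_lit 0⟩, ⟨nat_lit 1, [], nat_lit 1, nat_lit 0⟩]
noncomputable def pL5322_3 : List Ent := [⟨nat_lit 0x100000000000000000, [L4322_3], nat_lit 0x4000000000000000000000000000000000000000000000000000000000000000000000000000000000000000000000, nat_lit 0⟩, ⟨nat_lit 0x800000, [L5222_3], nat_lit 0x1000000000000000000000000000000000, nat_lit 374⟩, ⟨nat_lit 1, [], nat_lit 1, nat_lit 0⟩, ⟨nat_lit 1, [], nat_lit 1, nat_lit 0⟩]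
noncomputable def pS5322_3 : List Ent := [⟨nat_lit 0x4000000000000000000000000000000000000000000000000000000000000000000000000000000000000000000000, [S4322_3], nat_lit 0x4000000000000000000000000000000000000000000000000000000000000000000000000000000000000000000000, nat_lit 0⟩, ⟨nat_lit 0x1000000000000000000000000000000000, [S5222_2, S5222_3, S5222_2], nat_lit 0x1000000000000000000000000000000000, nat_lit 374⟩, ⟨nat_lit 1024, [], nat_lit 1024, nat_lit 516⟩, ⟨nat_lit 1024, [], nat_lit 1024, nat_lit 506⟩]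
noncomputable def pL4431_0 : List Ent := [⟨nat_lit 0x40000000000000000000000000000000, [S3331_1, L4331_0], nat_lit 0x2000000000, nat_lit 37⟩, ⟨nat_lit 0x100000000000000000, [L4331_2, S4331_2], nat_lit 0x2000000000, nat_lit 0⟩, ⟨nat_lit 0x100000000000000000, [L4421_1, S4421_1], nat_lit 0x100000, nat_lit 74⟩, ⟨nat_lit 1, [], nat_lit 1, nat_lit 0⟩]
noncomputable def pL4431_1 : List Ent := [⟨nat_lit 0x40000000000000000000000000000000, [S3331_1, L4331_0], nat_lit 0x2000000000, nat_lit 0⟩, ⟨nat_lit 0x100000000000000000, [L4331_2, S4331_2], nat_lit 0x2000000000, nat_lit 37⟩, ⟨nat_lit 0x100000000000000000, [L4421_1], nat_lit 0x100000, nat_lit 74⟩, ⟨nat_lit 1, [], nat_lit 1, nat_lit 0⟩]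
noncomputable def pL4431_2 : List Ent := [⟨nat_lit 0x100000000000000000, [L4331_2], nat_lit 0x2000000000, nat_lit 0⟩, ⟨nat_lit 0x100000000000000000, [L4331_2], nat_lit 0x2000000000, nat_lit 37⟩, ⟨nat_lit 1, [], nat_lit 1, nat_lit 0⟩, ⟨nat_lit 1, [], nat_lit 1, nat_lit 0⟩]
noncomputable def pS4431_1 : List Ent := [⟨nat_lit 0x2000000000, [], nat_lit 0x2000000000, nat_lit 37⟩, ⟨nat_lit 0x2000000000, [], nat_lit 0x2000000000, nat_lit 0⟩, ⟨nat_lit 0x100000, [S4421_1], nat_lit 0x100000, nat_lit 74⟩]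
noncomputable def pL4422_0 : List Ent := [⟨nat_lit 0x4000000000000000000000000000000000000000000000000000000000000000000000000000000000000000000000000000000000000000000000000000000000000000000000000000000000000000, [S3322_1, L4322_0], nat_lit 0x4000000000000000000000000000000000000000000000000000000000000000000000000000000000000000000000, nat_lit 374⟩, ⟨nat_lit 0x40000000000000000000000000000000000000000000000000000000000000000000000000000000000000000000, [L4322_1], nat_lit 0x4000000000000000000000000000000000000000000000000000000000000000000000000000000000000000000000, nat_lit 0⟩, ⟨nat_lit 0x100000000000000000, [L4421_1, S4421_1], nat_lit 0x100000, nat_lit 748⟩, ⟨nat_lit 0x100000000000000000, [L4421_1, S4421_1], nat_lit 0x100000, nat_lit 768⟩]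
noncomputable def pL4422_1 : List Ent := [⟨nat_lit 0x4000000000000000000000000000000000000000000000000000000000000000000000000000000000000000000000000000000000000000000000000000000000000000000000000000000000000000, [S3322_1, L4322_0], nat_lit 0x4000000000000000000000000000000000000000000000000000000000000000000000000000000000000000000000, nat_lit 0⟩, ⟨nat_lit 0x40000000000000000000000000000000000000000000000000000000000000000000000000000000000000000000, [L4322_1], nat_lit 0x4000000000000000000000000000000000000000000000000000000000000000000000000000000000000000000000, nat_lit 374⟩, ⟨nat_lit 0x100000000000000000, [L4421_1], nat_lit 0x100000, nat_lit 748⟩, ⟨nat_lit 0x100000000000000000, [L4421_1], nat_lit 0x100000, nat_lit 768⟩]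
noncomputable def pL4422_2 : List Ent := [⟨nat_lit 0x100000000000000000, [L4322_3, S4322_3], nat_lit 0x4000000000000000000000000000000000000000000000000000000000000000000000000000000000000000000000, nat_lit 0⟩, ⟨nat_lit 0x100000000000000000, [L4322_3, S4322_3], nat_lit 0x4000000000000000000000000000000000000000000000000000000000000000000000000000000000000000000000, nat_lit 374⟩, ⟨nat_lit 1, [], nat_lit 1, nat_lit 0⟩, ⟨nat_lit 1, [], nat_lit 1, nat_lit 0⟩]
noncomputable def pL4422_3 : List Ent := [⟨nat_lit 0x100000000000000000, [L4322_3], nat_lit 0x4000000000000000000000000000000000000000000000000000000000000000000000000000000000000000000000, nat_lit 0⟩, ⟨nat_lit 0x100000000000000000, [L4322_3], nat_lit 0x4000000000000000000000000000000000000000000000000000000000000000000000000000000000000000000000, nat_lit 374⟩, ⟨nat_lit 1, [], nat_lit 1, nat_lit 0⟩, ⟨nat_lit 1, [], nat_lit 1, nat_lit 0⟩]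
noncomputable def pS4422_1 : List Ent := [⟨nat_lit 0x4000000000000000000000000000000000000000000000000000000000000000000000000000000000000000000000, [], nat_lit 0x4000000000000000000000000000000000000000000000000000000000000000000000000000000000000000000000, nat_lit 374⟩, ⟨nat_lit 0x4000000000000000000000000000000000000000000000000000000000000000000000000000000000000000000000, [], nat_lit 0x4000000000000000000000000000000000000000000000000000000000000000000000000000000000000000000000, nat_lit 0⟩, ⟨nat_lit 0x100000, [S4421_1], nat_lit 0x100000, nat_lit 748⟩, ⟨nat_lit 0x100000, [S4421_1], nat_lit 0x100000, nat_lit 768⟩]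
noncomputable def pS4422_3 : List Ent := [⟨nat_lit 0x4000000000000000000000000000000000000000000000000000000000000000000000000000000000000000000000, [S4322_3], nat_lit 0x4000000000000000000000000000000000000000000000000000000000000000000000000000000000000000000000, nat_lit 0⟩, ⟨nat_lit 0x4000000000000000000000000000000000000000000000000000000000000000000000000000000000000000000000, [S4322_3], nat_lit 0x4000000000000000000000000000000000000000000000000000000000000000000000000000000000000000000000, nat_lit 374⟩, ⟨nat_lit 0x100000, [], nat_lit 0x100000, nat_lit 768⟩, ⟨nat_lit 0x100000, [], nat_lit 0x100000, nat_lit 748⟩]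
noncomputable def pL4332_0 : List Ent := [⟨nat_lit 0x4000000000000000000000000000000000000000000000000000000000000000000000000000000000000000000000000000000000000000000000000000000000000000000000000000000000000000, [L3332_2, S3332_1, S3332_2, S3332_1, S3332_1], nat_lit 0x40000000000000000000000000000000000000000000000000000000000000000000000000000000000000000000000000000000000000000000000000000000000000000000000000000000000000000000000000000000000000000000000000, nat_lit 0⟩, ⟨nat_lit 0x4000000000000000000000000000000000000000000000000000000000000000000000000000000000000000000000000000000000000000000000000000000000000000000000000000000000000000, [L4322_0], nat_lit 0x4000000000000000000000000000000000000000000000000000000000000000000000000000000000000000000000, nat_lit 774⟩, ⟨nat_lit 0x4000000000000000000000000000000000000000000000000000000000000000000000000000000000000000000000000000000000000000000000000000000000000000000000000000000000000000, [L4322_0], nat_lit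 0x4000000000000000000000000000000000000000000000000000000000000000000000000000000000000000000000, nat_lit 1148⟩, ⟨nat_lit 0x40000000000000000000000000000000, [L4331_0], nat_lit 0x2000000000, nat_lit 1522⟩]
noncomputable def pL4332_1 : List Ent := [⟨nat_lit 0x4000000000000000000000000000000000000000000000000000000000000000000000000000000000000000000000000000000000000000000000000000000000000000000000000000000000000000, [L3332_2, S3332_1, S3332_2, S3332_1], nat_lit 0x40000000000000000000000000000000000000000000000000000000000000000000000000000000000000000000000000000000000000000000000000000000000000000000000000000000000000000000000000000000000000000000000000, nat_lit 0⟩, ⟨nat_lit 0x40000000000000000000000000000000000000000000000000000000000000000000000000000000000000000000, [S4222_2, L4322_1], nat_lit 0x4000000000000000000000000000000000000000000000000000000000000000000000000000000000000000000000, nat_lit 1148⟩, ⟨nat_lit 0x100000000000000000, [L4322_3, S4322_3], nat_lit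 0x4000000000000000000000000000000000000000000000000000000000000000000000000000000000000000000000, nat_lit 774⟩, ⟨nat_lit 0x100000000000000000, [L4331_2, S4331_2], nat_lit 0x2000000000, nat_lit 1522⟩]
noncomputable def pL4332_2 : List Ent := [⟨nat_lit 0x4000000000000000000000000000000000000000000000000000000000000000000000000000000000000000000000000000000000000000000000000000000000000000000000000000000000000000, [L3332_2], nat_lit 0x40000000000000000000000000000000000000000000000000000000000000000000000000000000000000000000000000000000000000000000000000000000000000000000000000000000000000000000000000000000000000000000000000, nat_lit 0⟩, ⟨nat_lit 0x40000000000000000000000000000000000000000000000000000000000000000000000000000000000000000000, [S4222_2, L4322_1], nat_lit 0x4000000000000000000000000000000000000000000000000000000000000000000000000000000000000000000000, nat_lit 774⟩, ⟨nat_lit 0x100000000000000000, [L4322_3, S4322_3], nat_lit 0x4000000000000000000000000000000000000000000000000000000000000000000000000000000000000000000000,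 nat_lit 1148⟩, ⟨nat_lit 0x100000000000000000, [L4331_2], nat_lit 0x2000000000, nat_lit 1522⟩]
noncomputable def pL4332_3 : List Ent := [⟨nat_lit 0x40000000000000000000000000000000, [L3332_3], nat_lit 0x40000000000000000000000000000000000000000000000000000000000000000000000000000000000000000000000000000000000000000000000000000000000000000000000000000000000000000000000000000000000000000000000000, nat_lit 0⟩, ⟨nat_lit 0x100000000000000000, [L4322_3], nat_lit 0x4000000000000000000000000000000000000000000000000000000000000000000000000000000000000000000000, nat_lit 774⟩, ⟨nat_lit 0x100000000000000000, [L4322_3], nat_lit 0x4000000000000000000000000000000000000000000000000000000000000000000000000000000000000000000000, nat_lit 1148⟩, ⟨nat_lit 1, [], nat_lit 1, nat_lit 0⟩]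
noncomputable def pS4332_2 : List Ent := [⟨nat_lit 0x40000000000000000000000000000000000000000000000000000000000000000000000000000000000000000000000000000000000000000000000000000000000000000000000000000000000000000000000000000000000000000000000000, [S3332_1, S3332_2, S3332_1], nat_lit 0x40000000000000000000000000000000000000000000000000000000000000000000000000000000000000000000000000000000000000000000000000000000000000000000000000000000000000000000000000000000000000000000000000, nat_lit 0⟩, ⟨nat_lit 0x4000000000000000000000000000000000000000000000000000000000000000000000000000000000000000000000, [], nat_lit 0x4000000000000000000000000000000000000000000000000000000000000000000000000000000000000000000000, nat_lit 1148⟩, ⟨nat_lit 0x4000000000000000000000000000000000000000000000000000000000000000000000000000000000000000000000, [], nat_lit 0x4000000000000000000000000000000000000000000000000000000000000000000000000000000000000000000000, nat_lit 774⟩, ⟨nat_lit 0x2000000000,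 [S4331_2], nat_lit 0x2000000000, nat_lit 1522⟩]
noncomputable def pL3333_0 : List Ent := [⟨nat_lit 0x4000000000000000000000000000000000000000000000000000000000000000000000000000000000000000000000000000000000000000000000000000000000000000000000000000000000000000, [S3322_3, L3332_2, S3332_1, S3332_2, S3332_1, S3332_1], nat_lit 0x40000000000000000000000000000000000000000000000000000000000000000000000000000000000000000000000000000000000000000000000000000000000000000000000000000000000000000000000000000000000000000000000000, nat_lit 774⟩, ⟨nat_lit 0x4000000000000000000000000000000000000000000000000000000000000000000000000000000000000000000000000000000000000000000000000000000000000000000000000000000000000000, [S3322_3, L3332_2, S3332_1, S3332_2, S3332_1, S3332_1], nat_lit 0x40000000000000000000000000000000000000000000000000000000000000000000000000000000000000000000000000000000000000000000000000000000000000000000000000000000000000000000000000000000000000000000000000, nat_lit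 1548⟩, ⟨nat_lit 0x4000000000000000000000000000000000000000000000000000000000000000000000000000000000000000000000000000000000000000000000000000000000000000000000000000000000000000, [S3322_3, L3332_2, S3332_1, S3332_2, S3332_1, S3332_1], nat_lit 0x40000000000000000000000000000000000000000000000000000000000000000000000000000000000000000000000000000000000000000000000000000000000000000000000000000000000000000000000000000000000000000000000000, nat_lit 2322⟩, ⟨nat_lit 0x40000000000000000000000000000000, [L3332_3], nat_lit 0x40000000000000000000000000000000000000000000000000000000000000000000000000000000000000000000000000000000000000000000000000000000000000000000000000000000000000000000000000000000000000000000000000, nat_lit 0⟩]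
noncomputable def pL3333_1 : List Ent := [⟨nat_lit 0x4000000000000000000000000000000000000000000000000000000000000000000000000000000000000000000000000000000000000000000000000000000000000000000000000000000000000000, [S3322_3, L3332_2, S3332_1, S3332_2, S3332_1, S3332_1], nat_lit 0x40000000000000000000000000000000000000000000000000000000000000000000000000000000000000000000000000000000000000000000000000000000000000000000000000000000000000000000000000000000000000000000000000, nat_lit 0⟩, ⟨nat_lit 0x4000000000000000000000000000000000000000000000000000000000000000000000000000000000000000000000000000000000000000000000000000000000000000000000000000000000000000, [S3322_3, L3332_2, S3332_1, S3332_2, S3332_1], nat_lit 0x40000000000000000000000000000000000000000000000000000000000000000000000000000000000000000000000000000000000000000000000000000000000000000000000000000000000000000000000000000000000000000000000000, nat_lit 1548⟩, ⟨nat_lit 0x4000000000000000000000000000000000000000000000000000000000000000000000000000000000000000000000000000000000000000000000000000000000000000000000000000000000000000,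 [S3322_3, L3332_2, S3332_1, S3332_2, S3332_1], nat_lit 0x40000000000000000000000000000000000000000000000000000000000000000000000000000000000000000000000000000000000000000000000000000000000000000000000000000000000000000000000000000000000000000000000000, nat_lit 2322⟩, ⟨nat_lit 0x40000000000000000000000000000000, [L3332_3], nat_lit 0x40000000000000000000000000000000000000000000000000000000000000000000000000000000000000000000000000000000000000000000000000000000000000000000000000000000000000000000000000000000000000000000000000, nat_lit 774⟩]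
noncomputable def pL3333_2 : List Ent := [⟨nat_lit 0x4000000000000000000000000000000000000000000000000000000000000000000000000000000000000000000000000000000000000000000000000000000000000000000000000000000000000000, [S3322_3, L3332_2, S3332_1, S3332_2, S3332_1], nat_lit 0x40000000000000000000000000000000000000000000000000000000000000000000000000000000000000000000000000000000000000000000000000000000000000000000000000000000000000000000000000000000000000000000000000, nat_lit 0⟩, ⟨nat_lit 0x4000000000000000000000000000000000000000000000000000000000000000000000000000000000000000000000000000000000000000000000000000000000000000000000000000000000000000, [S3322_3, L3332_2, S3332_1, S3332_2, S3332_1], nat_lit 0x40000000000000000000000000000000000000000000000000000000000000000000000000000000000000000000000000000000000000000000000000000000000000000000000000000000000000000000000000000000000000000000000000, nat_lit 774⟩, ⟨nat_lit 0x4000000000000000000000000000000000000000000000000000000000000000000000000000000000000000000000000000000000000000000000000000000000000000000000000000000000000000,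 [S3322_3, L3332_2], nat_lit 0x40000000000000000000000000000000000000000000000000000000000000000000000000000000000000000000000000000000000000000000000000000000000000000000000000000000000000000000000000000000000000000000000000, nat_lit 2322⟩, ⟨nat_lit 0x40000000000000000000000000000000, [L3332_3], nat_lit 0x40000000000000000000000000000000000000000000000000000000000000000000000000000000000000000000000000000000000000000000000000000000000000000000000000000000000000000000000000000000000000000000000000, nat_lit 1548⟩]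
noncomputable def pL3333_3 : List Ent := [⟨nat_lit 0x4000000000000000000000000000000000000000000000000000000000000000000000000000000000000000000000000000000000000000000000000000000000000000000000000000000000000000, [S3322_3, L3332_2], nat_lit 0x40000000000000000000000000000000000000000000000000000000000000000000000000000000000000000000000000000000000000000000000000000000000000000000000000000000000000000000000000000000000000000000000000, nat_lit 0⟩, ⟨nat_lit 0x4000000000000000000000000000000000000000000000000000000000000000000000000000000000000000000000000000000000000000000000000000000000000000000000000000000000000000, [S3322_3, L3332_2], nat_lit 0x40000000000000000000000000000000000000000000000000000000000000000000000000000000000000000000000000000000000000000000000000000000000000000000000000000000000000000000000000000000000000000000000000, nat_lit 774⟩, ⟨nat_lit 0x4000000000000000000000000000000000000000000000000000000000000000000000000000000000000000000000000000000000000000000000000000000000000000000000000000000000000000,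 [S3322_3, L3332_2], nat_lit 0x40000000000000000000000000000000000000000000000000000000000000000000000000000000000000000000000000000000000000000000000000000000000000000000000000000000000000000000000000000000000000000000000000, nat_lit 1548⟩, ⟨nat_lit 0x40000000000000000000000000000000, [L3332_3], nat_lit 0x40000000000000000000000000000000000000000000000000000000000000000000000000000000000000000000000000000000000000000000000000000000000000000000000000000000000000000000000000000000000000000000000000, nat_lit 2322⟩]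
noncomputable def pS3333_1 : List Ent := [⟨nat_lit 0x40000000000000000000000000000000000000000000000000000000000000000000000000000000000000000000000000000000000000000000000000000000000000000000000000000000000000000000000000000000000000000000000000, [], nat_lit 0x40000000000000000000000000000000000000000000000000000000000000000000000000000000000000000000000000000000000000000000000000000000000000000000000000000000000000000000000000000000000000000000000000, nat_lit 774⟩, ⟨nat_lit 0x40000000000000000000000000000000000000000000000000000000000000000000000000000000000000000000000000000000000000000000000000000000000000000000000000000000000000000000000000000000000000000000000000, [], nat_lit 0x40000000000000000000000000000000000000000000000000000000000000000000000000000000000000000000000000000000000000000000000000000000000000000000000000000000000000000000000000000000000000000000000000, nat_lit 0⟩, ⟨nat_lit 0x40000000000000000000000000000000000000000000000000000000000000000000000000000000000000000000000000000000000000000000000000000000000000000000000000000000000000000000000000000000000000000000000000,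 [S3332_1], nat_lit 0x40000000000000000000000000000000000000000000000000000000000000000000000000000000000000000000000000000000000000000000000000000000000000000000000000000000000000000000000000000000000000000000000000, nat_lit 1548⟩, ⟨nat_lit 0x40000000000000000000000000000000000000000000000000000000000000000000000000000000000000000000000000000000000000000000000000000000000000000000000000000000000000000000000000000000000000000000000000, [S3332_1], nat_lit 0x40000000000000000000000000000000000000000000000000000000000000000000000000000000000000000000000000000000000000000000000000000000000000000000000000000000000000000000000000000000000000000000000000, nat_lit 2322⟩]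
noncomputable def pS3333_2 : List Ent := [⟨nat_lit 0x40000000000000000000000000000000000000000000000000000000000000000000000000000000000000000000000000000000000000000000000000000000000000000000000000000000000000000000000000000000000000000000000000, [S3332_1], nat_lit 0x40000000000000000000000000000000000000000000000000000000000000000000000000000000000000000000000000000000000000000000000000000000000000000000000000000000000000000000000000000000000000000000000000, nat_lit 1548⟩, ⟨nat_lit 0x40000000000000000000000000000000000000000000000000000000000000000000000000000000000000000000000000000000000000000000000000000000000000000000000000000000000000000000000000000000000000000000000000, [S3332_1], nat_lit 0x40000000000000000000000000000000000000000000000000000000000000000000000000000000000000000000000000000000000000000000000000000000000000000000000000000000000000000000000000000000000000000000000000, nat_lit 774⟩, ⟨nat_lit 0x40000000000000000000000000000000000000000000000000000000000000000000000000000000000000000000000000000000000000000000000000000000000000000000000000000000000000000000000000000000000000000000000000,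 [S3332_1], nat_lit 0x40000000000000000000000000000000000000000000000000000000000000000000000000000000000000000000000000000000000000000000000000000000000000000000000000000000000000000000000000000000000000000000000000, nat_lit 0⟩, ⟨nat_lit 0x40000000000000000000000000000000000000000000000000000000000000000000000000000000000000000000000000000000000000000000000000000000000000000000000000000000000000000000000000000000000000000000000000, [S3332_2], nat_lit 0x40000000000000000000000000000000000000000000000000000000000000000000000000000000000000000000000000000000000000000000000000000000000000000000000000000000000000000000000000000000000000000000000000, nat_lit 2322⟩]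
noncomputable def pS3333_3 : List Ent := [⟨nat_lit 0x40000000000000000000000000000000000000000000000000000000000000000000000000000000000000000000000000000000000000000000000000000000000000000000000000000000000000000000000000000000000000000000000000, [S3332_1, S3332_2, S3332_1, S3332_1], nat_lit 0x40000000000000000000000000000000000000000000000000000000000000000000000000000000000000000000000000000000000000000000000000000000000000000000000000000000000000000000000000000000000000000000000000, nat_lit 2322⟩, ⟨nat_lit 0x40000000000000000000000000000000000000000000000000000000000000000000000000000000000000000000000000000000000000000000000000000000000000000000000000000000000000000000000000000000000000000000000000, [S3332_2], nat_lit 0x40000000000000000000000000000000000000000000000000000000000000000000000000000000000000000000000000000000000000000000000000000000000000000000000000000000000000000000000000000000000000000000000000, nat_lit 774⟩, ⟨nat_lit 0x40000000000000000000000000000000000000000000000000000000000000000000000000000000000000000000000000000000000000000000000000000000000000000000000000000000000000000000000000000000000000000000000000,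 [S3332_2], nat_lit 0x40000000000000000000000000000000000000000000000000000000000000000000000000000000000000000000000000000000000000000000000000000000000000000000000000000000000000000000000000000000000000000000000000, nat_lit 1548⟩, ⟨nat_lit 0x40000000000000000000000000000000000000000000000000000000000000000000000000000000000000000000000000000000000000000000000000000000000000000000000000000000000000000000000000000000000000000000000000, [S3332_1, S3332_2, S3332_1, S3332_2], nat_lit 0x40000000000000000000000000000000000000000000000000000000000000000000000000000000000000000000000000000000000000000000000000000000000000000000000000000000000000000000000000000000000000000000000000, nat_lit 0⟩]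
noncomputable def pL7222_0 : List Ent := [⟨nat_lit 0x1000000000000000000000000000000000, [L6222_0], nat_lit 0x400000, nat_lit 0⟩, ⟨nat_lit 4, [L7221_0], nat_lit 1, nat_lit 22⟩, ⟨nat_lit 4, [L7221_0], nat_lit 1, nat_lit 22⟩, ⟨nat_lit 4, [L7221_0], nat_lit 1, nat_lit 22⟩]
noncomputable def pL7222_1 : List Ent := [⟨nat_lit 4, [L6222_3, S6222_2, S6222_3, S6222_2, S6222_2], nat_lit 0x400000, nat_lit 0⟩]
noncomputable def pL7222_2 : List Ent := [⟨nat_lit 4, [L6222_3, S6222_2, S6222_3, S6222_2], nat_lit 0x400000, nat_lit 0⟩]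
noncomputable def pL7222_3 : List Ent := [⟨nat_lit 4, [L6222_3], nat_lit 0x400000, nat_lit 0⟩]
noncomputable def pS7222_2 : List Ent := [⟨nat_lit 0x400000, [S6222_2], nat_lit 0x400000, nat_lit 0⟩, ⟨nat_lit 1, [], nat_lit 1, nat_lit 0⟩, ⟨nat_lit 1, [], nat_lit 1, nat_lit 0⟩, ⟨nat_lit 1, [], nat_lit 1, nat_lit 0⟩]
noncomputable def pS7222_3 : List Ent := [⟨nat_lit 0x400000, [S6222_3], nat_lit 0x400000, nat_lit 0⟩, ⟨nat_lit 1, [], nat_lit 1, nat_lit 0⟩, ⟨nat_lit 1, [], nat_lit 1, nat_lit 0⟩, ⟨nat_lit 1, [], nat_lit 1, nat_lit 0⟩]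
noncomputable def pL6421_0 : List Ent := [⟨nat_lit 0x100000, [L5421_0], nat_lit 2, nat_lit 0⟩, ⟨nat_lit 1024, [L6321_0], nat_lit 1, nat_lit 1⟩]
noncomputable def pL6421_1 : List Ent := [⟨nat_lit 1024, [L5421_1], nat_lit 2, nat_lit 0⟩, ⟨nat_lit 4, [L6321_1], nat_lit 1, nat_lit 1⟩]
noncomputable def pL6322_0 : List Ent := [⟨nat_lit 0x4000000000000000000000000000000000000000000000000000000000000000000000000000000000000000000000, [L5322_0], nat_lit 0x200000000000000000000, nat_lit 0⟩, ⟨nat_lit 0x1000000000000000000000000000000000, [L6222_0], nat_lit 0x400000, nat_lit 81⟩, ⟨nat_lit 1024, [L6321_0], nat_lit 1, nat_lit 103⟩, ⟨nat_lit 1024, [L6321_0], nat_lit 1, nat_lit 103⟩]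
noncomputable def pL6322_1 : List Ent := [⟨nat_lit 0x1000000000000000000000000000000000, [L5322_1], nat_lit 0x200000000000000000000, nat_lit 0⟩, ⟨nat_lit 4, [L6222_3, S6222_2, S6222_3, S6222_2, S6222_2], nat_lit 0x400000, nat_lit 81⟩, ⟨nat_lit 4, [L6321_1], nat_lit 1, nat_lit 103⟩, ⟨nat_lit 4, [L6321_1], nat_lit 1, nat_lit 103⟩]
noncomputable def pL6322_2 : List Ent := [⟨nat_lit 1024, [L5322_3, S5322_3], nat_lit 0x200000000000000000000, nat_lit 0⟩, ⟨nat_lit 4, [L6222_3, S6222_2, S6222_3, S6222_2], nat_lit 0x400000, nat_lit 81⟩]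
noncomputable def pL6322_3 : List Ent := [⟨nat_lit 1024, [L5322_3], nat_lit 0x200000000000000000000, nat_lit 0⟩, ⟨nat_lit 4, [L6222_3], nat_lit 0x400000, nat_lit 81⟩]
noncomputable def pS6322_3 : List Ent := [⟨nat_lit 0x200000000000000000000, [S5322_3], nat_lit 0x200000000000000000000, nat_lit 0⟩, ⟨nat_lit 0x400000, [S6222_2, S6222_3, S6222_2], nat_lit 0x400000, nat_lit 81⟩, ⟨nat_lit 1, [], nat_lit 1, nat_lit 0⟩, ⟨nat_lit 1, [], nat_lit 1, nat_lit 0⟩]
noncomputable def pL5521_0 : List Ent := [⟨nat_lit 0x100000, [S4421_1, L5421_0], nat_lit 2, nat_lit 1⟩, ⟨nat_lit 1024, [L5421_1], nat_lit 2, nat_lit 0⟩]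
noncomputable def pL5521_1 : List Ent := [⟨nat_lit 0x100000, [S4421_1, L5421_0], nat_lit 2, nat_lit 0⟩, ⟨nat_lit 1024, [L5421_1], nat_lit 2, nat_lit 1⟩]
noncomputable def pL5431_0 : List Ent := [⟨nat_lit 0x2000000000, [L4431_1, S4431_1], nat_lit 16, nat_lit 0⟩, ⟨nat_lit 0x2000000000, [L5331_0], nat_lit 1, nat_lit 4⟩, ⟨nat_lit 0x100000, [L5421_0], nat_lit 2, nat_lit 4⟩]
noncomputable def pL5431_1 : List Ent := [⟨nat_lit 0x2000000000, [L4431_1], nat_lit 16, nat_lit 0⟩, ⟨nat_lit 1024, [L5331_2], nat_lit 1, nat_lit 4⟩, ⟨nat_lit 1024, [L5421_1], nat_lit 2, nat_lit 4⟩]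
noncomputable def pL5431_2 : List Ent := [⟨nat_lit 0x100000, [L4431_2], nat_lit 16, nat_lit 0⟩, ⟨nat_lit 1024, [L5331_2], nat_lit 1, nat_lit 4⟩]
noncomputable def pL5422_0 : List Ent := [⟨nat_lit 0x4000000000000000000000000000000000000000000000000000000000000000000000000000000000000000000000, [L4422_1, S4422_1], nat_lit 0x400000000000000000000000000000000000000, nat_lit 0⟩, ⟨nat_lit 0x4000000000000000000000000000000000000000000000000000000000000000000000000000000000000000000000, [L5322_0], nat_lit 0x200000000000000000000, nat_lit 154⟩, ⟨nat_lit 0x100000, [L5421_0], nat_lit 2, nat_lit 235⟩, ⟨nat_lit 0x100000, [L5421_0], nat_lit 2, nat_lit 236⟩]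
noncomputable def pL5422_1 : List Ent := [⟨nat_lit 0x4000000000000000000000000000000000000000000000000000000000000000000000000000000000000000000000, [L4422_1], nat_lit 0x400000000000000000000000000000000000000, nat_lit 0⟩, ⟨nat_lit 0x1000000000000000000000000000000000, [L5322_1], nat_lit 0x200000000000000000000, nat_lit 154⟩, ⟨nat_lit 1024, [L5421_1], nat_lit 2, nat_lit 235⟩, ⟨nat_lit 1024, [L5421_1], nat_lit 2, nat_lit 236⟩]
noncomputable def pL5422_2 : List Ent := [⟨nat_lit 0x100000, [L4422_3, S4422_3], nat_lit 0x400000000000000000000000000000000000000, nat_lit 0⟩, ⟨nat_lit 1024, [L5322_3, S5322_3], nat_lit 0x200000000000000000000, nat_lit 154⟩]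
noncomputable def pL5422_3 : List Ent := [⟨nat_lit 0x100000, [L4422_3], nat_lit 0x400000000000000000000000000000000000000, nat_lit 0⟩, ⟨nat_lit 1024, [L5322_3], nat_lit 0x200000000000000000000, nat_lit 154⟩]
noncomputable def pS5422_3 : List Ent := [⟨nat_lit 0x400000000000000000000000000000000000000, [S4422_3], nat_lit 0x400000000000000000000000000000000000000, nat_lit 0⟩, ⟨nat_lit 0x200000000000000000000, [S5322_3], nat_lit 0x200000000000000000000, nat_lit 154⟩, ⟨nat_lit 2, [], nat_lit 2, nat_lit 236⟩, ⟨nat_lit 2, [], nat_lit 2, nat_lit 235⟩]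
noncomputable def pL5332_0 : List Ent := [⟨nat_lit 0x40000000000000000000000000000000000000000000000000000000000000000000000000000000000000000000000000000000000000000000000000000000000000000000000000000000000000000000000000000000000000000000000000, [L4332_0], nat_lit 0x8000000000000000000000000000000000000000000000000000000000000000000000000000, nat_lit 0⟩, ⟨nat_lit 0x4000000000000000000000000000000000000000000000000000000000000000000000000000000000000000000000, [L5322_0], nat_lit 0x200000000000000000000, nat_lit 303⟩, ⟨nat_lit 0x4000000000000000000000000000000000000000000000000000000000000000000000000000000000000000000000, [L5322_0], nat_lit 0x200000000000000000000, nat_lit 384⟩, ⟨nat_lit 0x2000000000, [L5331_0], nat_lit 1, nat_lit 465⟩]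
noncomputable def pL5332_1 : List Ent := [⟨nat_lit 0x4000000000000000000000000000000000000000000000000000000000000000000000000000000000000000000000, [L4332_2, S4332_2], nat_lit 0x8000000000000000000000000000000000000000000000000000000000000000000000000000, nat_lit 0⟩, ⟨nat_lit 0x1000000000000000000000000000000000, [S5222_2, L5322_1], nat_lit 0x200000000000000000000, nat_lit 384⟩, ⟨nat_lit 1024, [L5322_3, S5322_3], nat_lit 0x200000000000000000000, nat_lit 303⟩, ⟨nat_lit 1024, [L5331_2], nat_lit 1, nat_lit 465⟩]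
noncomputable def pL5332_2 : List Ent := [⟨nat_lit 0x4000000000000000000000000000000000000000000000000000000000000000000000000000000000000000000000, [L4332_2], nat_lit 0x8000000000000000000000000000000000000000000000000000000000000000000000000000, nat_lit 0⟩, ⟨nat_lit 0x1000000000000000000000000000000000, [S5222_2, L5322_1], nat_lit 0x200000000000000000000, nat_lit 303⟩, ⟨nat_lit 1024, [L5322_3, S5322_3], nat_lit 0x200000000000000000000, nat_lit 384⟩, ⟨nat_lit 1024, [L5331_2], nat_lit 1, nat_lit 465⟩]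
noncomputable def pL5332_3 : List Ent := [⟨nat_lit 0x2000000000, [L4332_3], nat_lit 0x8000000000000000000000000000000000000000000000000000000000000000000000000000, nat_lit 0⟩, ⟨nat_lit 1024, [L5322_3], nat_lit 0x200000000000000000000, nat_lit 303⟩, ⟨nat_lit 1024, [L5322_3], nat_lit 0x200000000000000000000, nat_lit 384⟩]
noncomputable def pS5332_2 : List Ent := [⟨nat_lit 0x8000000000000000000000000000000000000000000000000000000000000000000000000000, [S4332_2], nat_lit 0x8000000000000000000000000000000000000000000000000000000000000000000000000000, nat_lit 0⟩, ⟨nat_lit 0x200000000000000000000, [], nat_lit 0x200000000000000000000, nat_lit 384⟩, ⟨nat_lit 0x200000000000000000000, [], nat_lit 0x200000000000000000000, nat_lit 303⟩, ⟨nat_lit 1, [], nat_lit 1, nat_lit 0⟩]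
noncomputable def pL4441_0 : List Ent := [⟨nat_lit 0x2000000000, [S4331_2, L4431_1, S4431_1], nat_lit 16, nat_lit 4⟩, ⟨nat_lit 0x2000000000, [S4331_2, L4431_1, S4431_1], nat_lit 16, nat_lit 8⟩, ⟨nat_lit 0x100000, [L4431_2], nat_lit 16, nat_lit 0⟩]
noncomputable def pL4441_1 : List Ent := [⟨nat_lit 0x2000000000, [S4331_2, L4431_1, S4431_1], nat_lit 16, nat_lit 0⟩, ⟨nat_lit 0x2000000000, [S4331_2, L4431_1], nat_lit 16, nat_lit 8⟩, ⟨nat_lit 0x100000, [L4431_2], nat_lit 16, nat_lit 4⟩]
noncomputable def pL4441_2 : List Ent := [⟨nat_lit 0x2000000000, [S4331_2, L4431_1], nat_lit 16, nat_lit 0⟩, ⟨nat_lit 0x2000000000, [S4331_2, L4431_1], nat_lit 16, nat_lit 4⟩, ⟨nat_lit 0x100000, [L4431_2], nat_lit 16, nat_lit 8⟩]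
noncomputable def pL4432_0 : List Ent := [⟨nat_lit 0x40000000000000000000000000000000000000000000000000000000000000000000000000000000000000000000000000000000000000000000000000000000000000000000000000000000000000000000000000000000000000000000000000, [S3332_1, L4332_0], nat_lit 0x8000000000000000000000000000000000000000000000000000000000000000000000000000, nat_lit 303⟩, ⟨nat_lit 0x4000000000000000000000000000000000000000000000000000000000000000000000000000000000000000000000, [L4332_2, S4332_2], nat_lit 0x8000000000000000000000000000000000000000000000000000000000000000000000000000, nat_lit 0⟩, ⟨nat_lit 0x4000000000000000000000000000000000000000000000000000000000000000000000000000000000000000000000, [L4422_1, S4422_1], nat_lit 0x400000000000000000000000000000000000000, nat_lit 606⟩, ⟨nat_lit 0x2000000000, [L4431_1, S4431_1], nat_lit 16, nat_lit 760⟩]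
noncomputable def pL4432_1 : List Ent := [⟨nat_lit 0x40000000000000000000000000000000000000000000000000000000000000000000000000000000000000000000000000000000000000000000000000000000000000000000000000000000000000000000000000000000000000000000000000, [S3332_1, L4332_0], nat_lit 0x8000000000000000000000000000000000000000000000000000000000000000000000000000, nat_lit 0⟩, ⟨nat_lit 0x4000000000000000000000000000000000000000000000000000000000000000000000000000000000000000000000, [L4332_2, S4332_2], nat_lit 0x8000000000000000000000000000000000000000000000000000000000000000000000000000, nat_lit 303⟩, ⟨nat_lit 0x4000000000000000000000000000000000000000000000000000000000000000000000000000000000000000000000, [L4422_1], nat_lit 0x400000000000000000000000000000000000000, nat_lit 606⟩, ⟨nat_lit 0x2000000000, [L4431_1], nat_lit 16, nat_lit 760⟩]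
noncomputable def pL4432_2 : List Ent := [⟨nat_lit 0x4000000000000000000000000000000000000000000000000000000000000000000000000000000000000000000000, [L4332_2], nat_lit 0x8000000000000000000000000000000000000000000000000000000000000000000000000000, nat_lit 0⟩, ⟨nat_lit 0x4000000000000000000000000000000000000000000000000000000000000000000000000000000000000000000000, [L4332_2], nat_lit 0x8000000000000000000000000000000000000000000000000000000000000000000000000000, nat_lit 303⟩, ⟨nat_lit 0x100000, [L4422_3, S4422_3], nat_lit 0x400000000000000000000000000000000000000, nat_lit 606⟩, ⟨nat_lit 0x100000, [L4431_2], nat_lit 16, nat_lit 760⟩]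
noncomputable def pL4432_3 : List Ent := [⟨nat_lit 0x2000000000, [L4332_3], nat_lit 0x8000000000000000000000000000000000000000000000000000000000000000000000000000, nat_lit 0⟩, ⟨nat_lit 0x2000000000, [L4332_3], nat_lit 0x8000000000000000000000000000000000000000000000000000000000000000000000000000, nat_lit 303⟩, ⟨nat_lit 0x100000, [L4422_3], nat_lit 0x400000000000000000000000000000000000000, nat_lit 606⟩]
noncomputable def pS4432_1 : List Ent := [⟨nat_lit 0x8000000000000000000000000000000000000000000000000000000000000000000000000000, [], nat_lit 0x8000000000000000000000000000000000000000000000000000000000000000000000000000, nat_lit 303⟩, ⟨nat_lit 0x8000000000000000000000000000000000000000000000000000000000000000000000000000, [], nat_lit 0x8000000000000000000000000000000000000000000000000000000000000000000000000000, nat_lit 0⟩, ⟨nat_lit 0x400000000000000000000000000000000000000, [S4422_1], nat_lit 0x400000000000000000000000000000000000000, nat_lit 606⟩, ⟨nat_lit 16,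 [S4431_1], nat_lit 16, nat_lit 760⟩]
noncomputable def pL4333_0 : List Ent := [⟨nat_lit 0x40000000000000000000000000000000000000000000000000000000000000000000000000000000000000000000000000000000000000000000000000000000000000000000000000000000000000000000000000000000000000000000000000, [L3333_3, S3333_2, S3333_3, S3333_2, S3333_1, S3333_2, S3333_1, S3333_1], nat_lit 0x100000000000000000000000000000000000000000000000000000000000000000000000000000000000000000000000000000000000000000000000000000000000000000000000000000000000000000000000000000000000000000000000000000000000000000000, nat_lit 0⟩, ⟨nat_lit 0x40000000000000000000000000000000000000000000000000000000000000000000000000000000000000000000000000000000000000000000000000000000000000000000000000000000000000000000000000000000000000000000000000, [L4332_0], nat_lit 0x8000000000000000000000000000000000000000000000000000000000000000000000000000, nat_lit 848⟩, ⟨nat_lit 0x40000000000000000000000000000000000000000000000000000000000000000000000000000000000000000000000000000000000000000000000000000000000000000000000000000000000000000000000000000000000000000000000000,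 [L4332_0], nat_lit 0x8000000000000000000000000000000000000000000000000000000000000000000000000000, nat_lit 1151⟩, ⟨nat_lit 0x40000000000000000000000000000000000000000000000000000000000000000000000000000000000000000000000000000000000000000000000000000000000000000000000000000000000000000000000000000000000000000000000000, [L4332_0], nat_lit 0x8000000000000000000000000000000000000000000000000000000000000000000000000000, nat_lit 1454⟩]
noncomputable def pL4333_1 : List Ent := [⟨nat_lit 0x40000000000000000000000000000000000000000000000000000000000000000000000000000000000000000000000000000000000000000000000000000000000000000000000000000000000000000000000000000000000000000000000000, [L3333_3, S3333_2, S3333_3, S3333_2, S3333_1, S3333_2, S3333_1], nat_lit 0x100000000000000000000000000000000000000000000000000000000000000000000000000000000000000000000000000000000000000000000000000000000000000000000000000000000000000000000000000000000000000000000000000000000000000000000, nat_lit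 0⟩, ⟨nat_lit 0x4000000000000000000000000000000000000000000000000000000000000000000000000000000000000000000000, [S4322_3, L4332_2, S4332_2], nat_lit 0x8000000000000000000000000000000000000000000000000000000000000000000000000000, nat_lit 1151⟩, ⟨nat_lit 0x4000000000000000000000000000000000000000000000000000000000000000000000000000000000000000000000, [S4322_3, L4332_2, S4332_2], nat_lit 0x8000000000000000000000000000000000000000000000000000000000000000000000000000, nat_lit 1454⟩, ⟨nat_lit 0x2000000000, [L4332_3], nat_lit 0x8000000000000000000000000000000000000000000000000000000000000000000000000000, nat_lit 848⟩]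
noncomputable def pL4333_2 : List Ent := [⟨nat_lit 0x40000000000000000000000000000000000000000000000000000000000000000000000000000000000000000000000000000000000000000000000000000000000000000000000000000000000000000000000000000000000000000000000000, [L3333_3, S3333_2, S3333_3, S3333_2], nat_lit 0x100000000000000000000000000000000000000000000000000000000000000000000000000000000000000000000000000000000000000000000000000000000000000000000000000000000000000000000000000000000000000000000000000000000000000000000, nat_lit 0⟩, ⟨nat_lit 0x4000000000000000000000000000000000000000000000000000000000000000000000000000000000000000000000, [S4322_3, L4332_2, S4332_2], nat_lit 0x8000000000000000000000000000000000000000000000000000000000000000000000000000, nat_lit 848⟩, ⟨nat_lit 0x4000000000000000000000000000000000000000000000000000000000000000000000000000000000000000000000, [S4322_3, L4332_2], nat_lit 0x8000000000000000000000000000000000000000000000000000000000000000000000000000,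 nat_lit 1454⟩, ⟨nat_lit 0x2000000000, [L4332_3], nat_lit 0x8000000000000000000000000000000000000000000000000000000000000000000000000000, nat_lit 1151⟩]
noncomputable def pL4333_3 : List Ent := [⟨nat_lit 0x40000000000000000000000000000000000000000000000000000000000000000000000000000000000000000000000000000000000000000000000000000000000000000000000000000000000000000000000000000000000000000000000000, [L3333_3], nat_lit 0x100000000000000000000000000000000000000000000000000000000000000000000000000000000000000000000000000000000000000000000000000000000000000000000000000000000000000000000000000000000000000000000000000000000000000000000, nat_lit 0⟩, ⟨nat_lit 0x4000000000000000000000000000000000000000000000000000000000000000000000000000000000000000000000, [S4322_3, L4332_2], nat_lit 0x8000000000000000000000000000000000000000000000000000000000000000000000000000, nat_lit 848⟩, ⟨nat_lit 0x4000000000000000000000000000000000000000000000000000000000000000000000000000000000000000000000,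 [S4322_3, L4332_2], nat_lit 0x8000000000000000000000000000000000000000000000000000000000000000000000000000, nat_lit 1151⟩, ⟨nat_lit 0x2000000000, [L4332_3], nat_lit 0x8000000000000000000000000000000000000000000000000000000000000000000000000000, nat_lit 1454⟩]
noncomputable def pS4333_2 : List Ent := [⟨nat_lit 0x100000000000000000000000000000000000000000000000000000000000000000000000000000000000000000000000000000000000000000000000000000000000000000000000000000000000000000000000000000000000000000000000000000000000000000000, [S3333_1, S3333_2, S3333_1], nat_lit 0x100000000000000000000000000000000000000000000000000000000000000000000000000000000000000000000000000000000000000000000000000000000000000000000000000000000000000000000000000000000000000000000000000000000000000000000, nat_lit 0⟩, ⟨nat_lit 0x8000000000000000000000000000000000000000000000000000000000000000000000000000, [], nat_lit 0x8000000000000000000000000000000000000000000000000000000000000000000000000000,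 nat_lit 1151⟩, ⟨nat_lit 0x8000000000000000000000000000000000000000000000000000000000000000000000000000, [], nat_lit 0x8000000000000000000000000000000000000000000000000000000000000000000000000000, nat_lit 848⟩, ⟨nat_lit 0x8000000000000000000000000000000000000000000000000000000000000000000000000000, [S4332_2], nat_lit 0x8000000000000000000000000000000000000000000000000000000000000000000000000000, nat_lit 1454⟩]
noncomputable def pS4333_3 : List Ent := [⟨nat_lit 0x100000000000000000000000000000000000000000000000000000000000000000000000000000000000000000000000000000000000000000000000000000000000000000000000000000000000000000000000000000000000000000000000000000000000000000000, [S3333_1, S3333_3, S3333_1], nat_lit 0x100000000000000000000000000000000000000000000000000000000000000000000000000000000000000000000000000000000000000000000000000000000000000000000000000000000000000000000000000000000000000000000000000000000000000000000, nat_lit 0⟩, ⟨nat_lit 0x8000000000000000000000000000000000000000000000000000000000000000000000000000,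 [S4332_2], nat_lit 0x8000000000000000000000000000000000000000000000000000000000000000000000000000, nat_lit 1454⟩, ⟨nat_lit 0x8000000000000000000000000000000000000000000000000000000000000000000000000000, [S4332_2], nat_lit 0x8000000000000000000000000000000000000000000000000000000000000000000000000000, nat_lit 1151⟩, ⟨nat_lit 0x8000000000000000000000000000000000000000000000000000000000000000000000000000, [S4332_2], nat_lit 0x8000000000000000000000000000000000000000000000000000000000000000000000000000, nat_lit 848⟩]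
noncomputable def pL8222_0 : List Ent := [⟨nat_lit 0x400000, [L7222_0], nat_lit 4, nat_lit 0⟩, ⟨nat_lit 1, [], nat_lit 1, nat_lit 0⟩, ⟨nat_lit 1, [], nat_lit 1, nat_lit 0⟩, ⟨nat_lit 1, [], nat_lit 1, nat_lit 0⟩]
noncomputable def pL7322_0 : List Ent := [⟨nat_lit 0x200000000000000000000, [L6322_0], nat_lit 32, nat_lit 0⟩, ⟨nat_lit 0x400000, [L7222_0], nat_lit 4, nat_lit 5⟩, ⟨nat_lit 1, [], nat_lit 1, nat_lit 0⟩, ⟨nat_lit 1, [], nat_lit 1, nat_lit 0⟩]
noncomputable def pL7322_1 : List Ent := [⟨nat_lit 0x400000, [L6322_1], nat_lit 32, nat_lit 0⟩, ⟨nat_lit 1, [], nat_lit 1, nat_lit 0⟩, ⟨nat_lit 1, [], nat_lit 1, nat_lit 0⟩, ⟨nat_lit 1, [], nat_lit 1, nat_lit 0⟩]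
noncomputable def pL6422_0 : List Ent := [⟨nat_lit 0x400000000000000000000000000000000000000, [L5422_0], nat_lit 8192, nat_lit 0⟩, ⟨nat_lit 0x200000000000000000000, [L6322_0], nat_lit 32, nat_lit 13⟩, ⟨nat_lit 2, [L6421_0], nat_lit 1, nat_lit 18⟩, ⟨nat_lit 2, [L6421_0], nat_lit 1, nat_lit 18⟩]
noncomputable def pL6422_1 : List Ent := [⟨nat_lit 0x200000000000000000000, [L5422_1], nat_lit 8192, nat_lit 0⟩, ⟨nat_lit 0x400000, [L6322_1], nat_lit 32, nat_lit 13⟩, ⟨nat_lit 1, [], nat_lit 1, nat_lit 0⟩, ⟨nat_lit 1, [], nat_lit 1, nat_lit 0⟩]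
noncomputable def pL6422_2 : List Ent := [⟨nat_lit 2, [L5422_3, S5422_3], nat_lit 8192, nat_lit 0⟩, ⟨nat_lit 1, [], nat_lit 1, nat_lit 0⟩]
noncomputable def pL6422_3 : List Ent := [⟨nat_lit 2, [L5422_3], nat_lit 8192, nat_lit 0⟩, ⟨nat_lit 1, [], nat_lit 1, nat_lit 0⟩]
noncomputable def pS6422_3 : List Ent := [⟨nat_lit 8192, [S5422_3], nat_lit 8192, nat_lit 0⟩, ⟨nat_lit 32, [S6322_3], nat_lit 32, nat_lit 13⟩, ⟨nat_lit 1, [], nat_lit 1, nat_lit 0⟩, ⟨nat_lit 1, [], nat_lit 1, nat_lit 0⟩]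
noncomputable def pL6332_0 : List Ent := [⟨nat_lit 0x8000000000000000000000000000000000000000000000000000000000000000000000000000, [L5332_0], nat_lit 0x80000000, nat_lit 0⟩, ⟨nat_lit 0x200000000000000000000, [L6322_0], nat_lit 32, nat_lit 31⟩, ⟨nat_lit 0x200000000000000000000, [L6322_0], nat_lit 32, nat_lit 36⟩, ⟨nat_lit 1, [], nat_lit 1, nat_lit 0⟩]
noncomputable def pL6332_1 : List Ent := [⟨nat_lit 0x200000000000000000000, [L5332_2, S5332_2], nat_lit 0x80000000, nat_lit 0⟩, ⟨nat_lit 0x400000, [S6222_2, L6322_1], nat_lit 32, nat_lit 36⟩, ⟨nat_lit 1, [], nat_lit 1, nat_lit 0⟩, ⟨nat_lit 1, [], nat_lit 1, nat_lit 0⟩]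
noncomputable def pL6332_2 : List Ent := [⟨nat_lit 0x200000000000000000000, [L5332_2], nat_lit 0x80000000, nat_lit 0⟩, ⟨nat_lit 0x400000, [S6222_2, L6322_1], nat_lit 32, nat_lit 31⟩, ⟨nat_lit 1, [], nat_lit 1, nat_lit 0⟩, ⟨nat_lit 1, [], nat_lit 1, nat_lit 0⟩]
noncomputable def pL5522_0 : List Ent := [⟨nat_lit 0x400000000000000000000000000000000000000, [S4422_1, L5422_0], nat_lit 8192, nat_lit 13⟩, ⟨nat_lit 0x200000000000000000000, [L5422_1], nat_lit 8192, nat_lit 0⟩, ⟨nat_lit 2, [L5521_1], nat_lit 1, nat_lit 26⟩, ⟨nat_lit 2, [L5521_1], nat_lit 1, nat_lit 26⟩]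
noncomputable def pL5522_1 : List Ent := [⟨nat_lit 0x400000000000000000000000000000000000000, [S4422_1, L5422_0], nat_lit 8192, nat_lit 0⟩, ⟨nat_lit 0x200000000000000000000, [L5422_1], nat_lit 8192, nat_lit 13⟩, ⟨nat_lit 2, [L5521_1], nat_lit 1, nat_lit 26⟩, ⟨nat_lit 2, [L5521_1], nat_lit 1, nat_lit 26⟩]
noncomputable def pL5522_2 : List Ent := [⟨nat_lit 2, [L5422_3, S5422_3], nat_lit 8192, nat_lit 0⟩, ⟨nat_lit 2, [L5422_3, S5422_3], nat_lit 8192, nat_lit 13⟩]
noncomputable def pL5522_3 : List Ent := [⟨nat_lit 2, [L5422_3], nat_lit 8192, nat_lit 0⟩, ⟨nat_lit 2, [L5422_3], nat_lit 8192, nat_lit 13⟩]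
noncomputable def pL5432_0 : List Ent := [⟨nat_lit 0x8000000000000000000000000000000000000000000000000000000000000000000000000000, [L4432_1, S4432_1], nat_lit 0x400000000000000, nat_lit 0⟩, ⟨nat_lit 0x8000000000000000000000000000000000000000000000000000000000000000000000000000, [L5332_0], nat_lit 0x80000000, nat_lit 58⟩, ⟨nat_lit 0x400000000000000000000000000000000000000, [L5422_0], nat_lit 8192, nat_lit 89⟩, ⟨nat_lit 16, [L5431_0], nat_lit 1, nat_lit 102⟩]
noncomputable def pL5432_1 : List Ent := [⟨nat_lit 0x8000000000000000000000000000000000000000000000000000000000000000000000000000, [L4432_1], nat_lit 0x400000000000000, nat_lit 0⟩, ⟨nat_lit 0x200000000000000000000, [L5332_2, S5332_2], nat_lit 0x80000000, nat_lit 58⟩, ⟨nat_lit 0x200000000000000000000, [L5422_1], nat_lit 8192, nat_lit 89⟩, ⟨nat_lit 1, [], nat_lit 1, nat_lit 0⟩]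
noncomputable def pL5432_2 : List Ent := [⟨nat_lit 0x400000000000000000000000000000000000000, [L4432_2], nat_lit 0x400000000000000, nat_lit 0⟩, ⟨nat_lit 0x200000000000000000000, [L5332_2], nat_lit 0x80000000, nat_lit 58⟩, ⟨nat_lit 2, [L5422_3, S5422_3], nat_lit 8192, nat_lit 89⟩, ⟨nat_lit 2, [L5431_2], nat_lit 1, nat_lit 102⟩]
noncomputable def pL5432_3 : List Ent := [⟨nat_lit 16, [L4432_3], nat_lit 0x400000000000000, nat_lit 0⟩, ⟨nat_lit 1, [], nat_lit 1, nat_lit 0⟩, ⟨nat_lit 2, [L5422_3], nat_lit 8192, nat_lit 89⟩]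
noncomputable def pL5333_0 : List Ent := [⟨nat_lit 0x100000000000000000000000000000000000000000000000000000000000000000000000000000000000000000000000000000000000000000000000000000000000000000000000000000000000000000000000000000000000000000000000000000000000000000000, [L4333_0], nat_lit 0x100000000000000000000000000000000000000000000000000, nat_lit 0⟩, ⟨nat_lit 0x8000000000000000000000000000000000000000000000000000000000000000000000000000, [L5332_0], nat_lit 0x80000000, nat_lit 200⟩, ⟨nat_lit 0x8000000000000000000000000000000000000000000000000000000000000000000000000000, [L5332_0], nat_lit 0x80000000, nat_lit 231⟩, ⟨nat_lit 0x8000000000000000000000000000000000000000000000000000000000000000000000000000, [L5332_0], nat_lit 0x80000000, nat_lit 262⟩]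
noncomputable def pL5333_1 : List Ent := [⟨nat_lit 0x8000000000000000000000000000000000000000000000000000000000000000000000000000, [L4333_3, S4333_2, S4333_3, S4333_2, S4333_2], nat_lit 0x100000000000000000000000000000000000000000000000000, nat_lit 0⟩, ⟨nat_lit 0x200000000000000000000, [S5322_3, L5332_2, S5332_2], nat_lit 0x80000000, nat_lit 231⟩, ⟨nat_lit 0x200000000000000000000, [S5322_3, L5332_2, S5332_2], nat_lit 0x80000000, nat_lit 262⟩, ⟨nat_lit 1, [], nat_lit 1, nat_lit 0⟩]
noncomputable def pL5333_2 : List Ent := [⟨nat_lit 0x8000000000000000000000000000000000000000000000000000000000000000000000000000, [L4333_3, S4333_2, S4333_3, S4333_2], nat_lit 0x100000000000000000000000000000000000000000000000000, nat_lit 0⟩, ⟨nat_lit 0x200000000000000000000, [S5322_3, L5332_2, S5332_2], nat_lit 0x80000000, nat_lit 200⟩, ⟨nat_lit 0x200000000000000000000, [S5322_3, L5332_2], nat_lit 0x80000000, nat_lit 262⟩, ⟨nat_lit 1, [], nat_lit 1, nat_lit 0⟩]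
noncomputable def pL5333_3 : List Ent := [⟨nat_lit 0x8000000000000000000000000000000000000000000000000000000000000000000000000000, [L4333_3], nat_lit 0x100000000000000000000000000000000000000000000000000, nat_lit 0⟩, ⟨nat_lit 0x200000000000000000000, [S5322_3, L5332_2], nat_lit 0x80000000, nat_lit 200⟩, ⟨nat_lit 0x200000000000000000000, [S5322_3, L5332_2], nat_lit 0x80000000, nat_lit 231⟩, ⟨nat_lit 1, [], nat_lit 1, nat_lit 0⟩]
noncomputable def pS5333_2 : List Ent := [⟨nat_lit 0x100000000000000000000000000000000000000000000000000, [S4333_2], nat_lit 0x100000000000000000000000000000000000000000000000000, nat_lit 0⟩, ⟨nat_lit 0x80000000, [], nat_lit 0x80000000, nat_lit 231⟩, ⟨nat_lit 0x80000000, [], nat_lit 0x80000000, nat_lit 200⟩, ⟨nat_lit 0x80000000, [S5332_2], nat_lit 0x80000000, nat_lit 262⟩]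
noncomputable def pS5333_3 : List Ent := [⟨nat_lit 0x100000000000000000000000000000000000000000000000000, [S4333_3], nat_lit 0x100000000000000000000000000000000000000000000000000, nat_lit 0⟩, ⟨nat_lit 0x80000000, [S5332_2], nat_lit 0x80000000, nat_lit 262⟩, ⟨nat_lit 0x80000000, [S5332_2], nat_lit 0x80000000, nat_lit 231⟩, ⟨nat_lit 0x80000000, [S5332_2], nat_lit 0x80000000, nat_lit 200⟩]
noncomputable def pL4442_0 : List Ent := [⟨nat_lit 0x8000000000000000000000000000000000000000000000000000000000000000000000000000, [S4332_2, L4432_1, S4432_1], nat_lit 0x400000000000000, nat_lit 58⟩, ⟨nat_lit 0x8000000000000000000000000000000000000000000000000000000000000000000000000000, [S4332_2, L4432_1, S4432_1], nat_lit 0x400000000000000, nat_lit 116⟩, ⟨nat_lit 0x400000000000000000000000000000000000000, [L4432_2], nat_lit 0x400000000000000, nat_lit 0⟩, ⟨nat_lit 16, [L4441_2], nat_lit 1, nat_lit 174⟩]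
noncomputable def pL4442_1 : List Ent := [⟨nat_lit 0x8000000000000000000000000000000000000000000000000000000000000000000000000000, [S4332_2, L4432_1, S4432_1], nat_lit 0x400000000000000, nat_lit 0⟩, ⟨nat_lit 0x8000000000000000000000000000000000000000000000000000000000000000000000000000, [S4332_2, L4432_1], nat_lit 0x400000000000000, nat_lit 116⟩, ⟨nat_lit 0x400000000000000000000000000000000000000, [L4432_2], nat_lit 0x400000000000000, nat_lit 58⟩, ⟨nat_lit 16, [L4441_2], nat_lit 1, nat_lit 174⟩]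
noncomputable def pL4442_2 : List Ent := [⟨nat_lit 0x8000000000000000000000000000000000000000000000000000000000000000000000000000, [S4332_2, L4432_1], nat_lit 0x400000000000000, nat_lit 0⟩, ⟨nat_lit 0x8000000000000000000000000000000000000000000000000000000000000000000000000000, [S4332_2, L4432_1], nat_lit 0x400000000000000, nat_lit 58⟩, ⟨nat_lit 0x400000000000000000000000000000000000000, [L4432_2], nat_lit 0x400000000000000, nat_lit 116⟩, ⟨nat_lit 16, [L4441_2], nat_lit 1, nat_lit 174⟩]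
noncomputable def pL4442_3 : List Ent := [⟨nat_lit 16, [L4432_3], nat_lit 0x400000000000000, nat_lit 0⟩, ⟨nat_lit 16, [L4432_3], nat_lit 0x400000000000000, nat_lit 58⟩, ⟨nat_lit 16, [L4432_3], nat_lit 0x400000000000000, nat_lit 116⟩]
noncomputable def pL4433_0 : List Ent := [⟨nat_lit 0x100000000000000000000000000000000000000000000000000000000000000000000000000000000000000000000000000000000000000000000000000000000000000000000000000000000000000000000000000000000000000000000000000000000000000000000, [S3333_1, L4333_0], nat_lit 0x100000000000000000000000000000000000000000000000000, nat_lit 200⟩, ⟨nat_lit 0x8000000000000000000000000000000000000000000000000000000000000000000000000000, [L4333_3, S4333_2, S4333_3, S4333_2, S4333_2], nat_lit 0x100000000000000000000000000000000000000000000000000, nat_lit 0⟩, ⟨nat_lit 0x8000000000000000000000000000000000000000000000000000000000000000000000000000, [L4432_1, S4432_1], nat_lit 0x400000000000000, nat_lit 400⟩, ⟨nat_lit 0x8000000000000000000000000000000000000000000000000000000000000000000000000000,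 [L4432_1, S4432_1], nat_lit 0x400000000000000, nat_lit 458⟩]
noncomputable def pL4433_1 : List Ent := [⟨nat_lit 0x100000000000000000000000000000000000000000000000000000000000000000000000000000000000000000000000000000000000000000000000000000000000000000000000000000000000000000000000000000000000000000000000000000000000000000000, [S3333_1, L4333_0], nat_lit 0x100000000000000000000000000000000000000000000000000, nat_lit 0⟩, ⟨nat_lit 0x8000000000000000000000000000000000000000000000000000000000000000000000000000, [L4333_3, S4333_2, S4333_3, S4333_2, S4333_2], nat_lit 0x100000000000000000000000000000000000000000000000000, nat_lit 200⟩, ⟨nat_lit 0x8000000000000000000000000000000000000000000000000000000000000000000000000000, [L4432_1], nat_lit 0x400000000000000, nat_lit 400⟩, ⟨nat_lit 0x8000000000000000000000000000000000000000000000000000000000000000000000000000, [L4432_1], nat_lit 0x400000000000000, nat_lit 458⟩]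
noncomputable def pL4433_2 : List Ent := [⟨nat_lit 0x8000000000000000000000000000000000000000000000000000000000000000000000000000, [L4333_3, S4333_2, S4333_3, S4333_2], nat_lit 0x100000000000000000000000000000000000000000000000000, nat_lit 0⟩, ⟨nat_lit 0x8000000000000000000000000000000000000000000000000000000000000000000000000000, [L4333_3, S4333_2, S4333_3, S4333_2], nat_lit 0x100000000000000000000000000000000000000000000000000, nat_lit 200⟩, ⟨nat_lit 0x400000000000000000000000000000000000000, [S4422_3, L4432_2], nat_lit 0x400000000000000, nat_lit 458⟩, ⟨nat_lit 16, [L4432_3], nat_lit 0x400000000000000, nat_lit 400⟩]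
noncomputable def pL4433_3 : List Ent := [⟨nat_lit 0x8000000000000000000000000000000000000000000000000000000000000000000000000000, [L4333_3], nat_lit 0x100000000000000000000000000000000000000000000000000, nat_lit 0⟩, ⟨nat_lit 0x8000000000000000000000000000000000000000000000000000000000000000000000000000, [L4333_3], nat_lit 0x100000000000000000000000000000000000000000000000000, nat_lit 200⟩, ⟨nat_lit 0x400000000000000000000000000000000000000, [S4422_3, L4432_2], nat_lit 0x400000000000000, nat_lit 400⟩, ⟨nat_lit 16, [L4432_3], nat_lit 0x400000000000000, nat_lit 458⟩]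
noncomputable def pS4433_1 : List Ent := [⟨nat_lit 0x100000000000000000000000000000000000000000000000000, [], nat_lit 0x100000000000000000000000000000000000000000000000000, nat_lit 200⟩, ⟨nat_lit 0x100000000000000000000000000000000000000000000000000, [], nat_lit 0x100000000000000000000000000000000000000000000000000, nat_lit 0⟩, ⟨nat_lit 0x400000000000000, [S4432_1], nat_lit 0x400000000000000, nat_lit 400⟩, ⟨nat_lit 0x400000000000000, [S4432_1], nat_lit 0x400000000000000, nat_lit 458⟩]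
noncomputable def pS4433_3 : List Ent := [⟨nat_lit 0x100000000000000000000000000000000000000000000000000, [S4333_2, S4333_3, S4333_2], nat_lit 0x100000000000000000000000000000000000000000000000000, nat_lit 0⟩, ⟨nat_lit 0x100000000000000000000000000000000000000000000000000, [S4333_2, S4333_3, S4333_2], nat_lit 0x100000000000000000000000000000000000000000000000000, nat_lit 200⟩, ⟨nat_lit 0x400000000000000, [], nat_lit 0x400000000000000, nat_lit 458⟩, ⟨nat_lit 0x400000000000000, [], nat_lit 0x400000000000000, nat_lit 400⟩]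
noncomputable def pL7422_0 : List Ent := [⟨nat_lit 8192, [L6422_0], nat_lit 2, nat_lit 0⟩, ⟨nat_lit 32, [L7322_0], nat_lit 1, nat_lit 1⟩, ⟨nat_lit 1, [], nat_lit 1, nat_lit 0⟩, ⟨nat_lit 1, [], nat_lit 1, nat_lit 0⟩]
noncomputable def pL7422_1 : List Ent := [⟨nat_lit 32, [L6422_1], nat_lit 2, nat_lit 0⟩, ⟨nat_lit 4, [L7322_1], nat_lit 1, nat_lit 1⟩]
noncomputable def pL6522_0 : List Ent := [⟨nat_lit 8192, [L5522_1], nat_lit 1, nat_lit 0⟩, ⟨nat_lit 8192, [L6422_0], nat_lit 2, nat_lit 0⟩, ⟨nat_lit 1, [], nat_lit 1, nat_lit 0⟩, ⟨nat_lit 1, [], nat_lit 1, nat_lit 0⟩]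
noncomputable def pL6522_1 : List Ent := [⟨nat_lit 8192, [L5522_1], nat_lit 1, nat_lit 0⟩, ⟨nat_lit 32, [L6422_1], nat_lit 2, nat_lit 0⟩, ⟨nat_lit 1, [], nat_lit 1, nat_lit 0⟩, ⟨nat_lit 1, [], nat_lit 1, nat_lit 0⟩]
noncomputable def pL6432_0 : List Ent := [⟨nat_lit 0x400000000000000, [L5432_0], nat_lit 8, nat_lit 0⟩, ⟨nat_lit 0x80000000, [L6332_0], nat_lit 1, nat_lit 3⟩, ⟨nat_lit 8192, [L6422_0], nat_lit 2, nat_lit 3⟩, ⟨nat_lit 1, [], nat_lit 1, nat_lit 0⟩]
noncomputable def pL6432_1 : List Ent := [⟨nat_lit 0x80000000, [L5432_1], nat_lit 8, nat_lit 0⟩, ⟨nat_lit 32, [L6332_2], nat_lit 1, nat_lit 3⟩, ⟨nat_lit 32, [L6422_1], nat_lit 2, nat_lit 3⟩]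
noncomputable def pL6432_2 : List Ent := [⟨nat_lit 8192, [L5432_2], nat_lit 8, nat_lit 0⟩, ⟨nat_lit 32, [L6332_2], nat_lit 1, nat_lit 3⟩, ⟨nat_lit 1, [], nat_lit 1, nat_lit 0⟩, ⟨nat_lit 1, [], nat_lit 1, nat_lit 0⟩]
noncomputable def pL6333_0 : List Ent := [⟨nat_lit 0x100000000000000000000000000000000000000000000000000, [L5333_0], nat_lit 0x400000, nat_lit 0⟩, ⟨nat_lit 0x80000000, [L6332_0], nat_lit 1, nat_lit 22⟩, ⟨nat_lit 0x80000000, [L6332_0], nat_lit 1, nat_lit 22⟩, ⟨nat_lit 0x80000000, [L6332_0], nat_lit 1, nat_lit 22⟩]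
noncomputable def pL6333_1 : List Ent := [⟨nat_lit 0x80000000, [L5333_3, S5333_2, S5333_3, S5333_2, S5333_2], nat_lit 0x400000, nat_lit 0⟩, ⟨nat_lit 32, [S6322_3, L6332_2], nat_lit 1, nat_lit 22⟩, ⟨nat_lit 32, [S6322_3, L6332_2], nat_lit 1, nat_lit 22⟩]
noncomputable def pL6333_2 : List Ent := [⟨nat_lit 0x80000000, [L5333_3, S5333_2, S5333_3, S5333_2], nat_lit 0x400000, nat_lit 0⟩, ⟨nat_lit 32, [S6322_3, L6332_2], nat_lit 1, nat_lit 22⟩, ⟨nat_lit 32, [S6322_3, L6332_2], nat_lit 1, nat_lit 22⟩]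
noncomputable def pL6333_3 : List Ent := [⟨nat_lit 0x80000000, [L5333_3], nat_lit 0x400000, nat_lit 0⟩, ⟨nat_lit 32, [S6322_3, L6332_2], nat_lit 1, nat_lit 22⟩, ⟨nat_lit 32, [S6322_3, L6332_2], nat_lit 1, nat_lit 22⟩]
noncomputable def pL5532_0 : List Ent := [⟨nat_lit 0x400000000000000, [S4432_1, L5432_0], nat_lit 8, nat_lit 3⟩, ⟨nat_lit 0x80000000, [L5432_1], nat_lit 8, nat_lit 0⟩, ⟨nat_lit 8192, [L5522_1], nat_lit 1, nat_lit 6⟩, ⟨nat_lit 1, [], nat_lit 1, nat_lit 0⟩]
noncomputable def pL5532_1 : List Ent := [⟨nat_lit 0x400000000000000, [S4432_1, L5432_0], nat_lit 8, nat_lit 0⟩, ⟨nat_lit 0x80000000, [L5432_1], nat_lit 8, nat_lit 3⟩, ⟨nat_lit 8192, [L5522_1], nat_lit 1, nat_lit 6⟩, ⟨nat_lit 1, [], nat_lit 1, nat_lit 0⟩]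
noncomputable def pL5532_2 : List Ent := [⟨nat_lit 8192, [L5432_2], nat_lit 8, nat_lit 0⟩, ⟨nat_lit 8192, [L5432_2], nat_lit 8, nat_lit 3⟩, ⟨nat_lit 1, [], nat_lit 1, nat_lit 0⟩, ⟨nat_lit 1, [], nat_lit 1, nat_lit 0⟩]
noncomputable def pL5442_0 : List Ent := [⟨nat_lit 0x400000000000000, [L4442_2], nat_lit 1, nat_lit 0⟩, ⟨nat_lit 0x400000000000000, [L5432_0], nat_lit 8, nat_lit 0⟩, ⟨nat_lit 0x400000000000000, [L5432_0], nat_lit 8, nat_lit 3⟩, ⟨nat_lit 1, [], nat_lit 1, nat_lit 0⟩]
noncomputable def pL5442_1 : List Ent := [⟨nat_lit 0x400000000000000, [L4442_2], nat_lit 1, nat_lit 0⟩, ⟨nat_lit 0x80000000, [S5332_2, L5432_1], nat_lit 8, nat_lit 3⟩, ⟨nat_lit 8192, [L5432_2], nat_lit 8, nat_lit 0⟩, ⟨nat_lit 1, [], nat_lit 1, nat_lit 0⟩]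
noncomputable def pL5442_2 : List Ent := [⟨nat_lit 0x400000000000000, [L4442_2], nat_lit 1, nat_lit 0⟩, ⟨nat_lit 0x80000000, [S5332_2, L5432_1], nat_lit 8, nat_lit 0⟩, ⟨nat_lit 8192, [L5432_2], nat_lit 8, nat_lit 3⟩, ⟨nat_lit 1, [], nat_lit 1, nat_lit 0⟩]
noncomputable def pL5433_0 : List Ent := [⟨nat_lit 0x100000000000000000000000000000000000000000000000000, [L4433_1, S4433_1], nat_lit 0x100000000000, nat_lit 0⟩, ⟨nat_lit 0x100000000000000000000000000000000000000000000000000, [L5333_0], nat_lit 0x400000, nat_lit 44⟩, ⟨nat_lit 0x400000000000000, [L5432_0], nat_lit 8, nat_lit 66⟩, ⟨nat_lit 0x400000000000000, [L5432_0], nat_lit 8, nat_lit 69⟩]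
noncomputable def pL5433_1 : List Ent := [⟨nat_lit 0x100000000000000000000000000000000000000000000000000, [L4433_1], nat_lit 0x100000000000, nat_lit 0⟩, ⟨nat_lit 0x80000000, [L5333_3, S5333_2, S5333_3, S5333_2, S5333_2], nat_lit 0x400000, nat_lit 44⟩, ⟨nat_lit 0x80000000, [L5432_1], nat_lit 8, nat_lit 66⟩, ⟨nat_lit 0x80000000, [L5432_1], nat_lit 8, nat_lit 69⟩]
noncomputable def pL5433_2 : List Ent := [⟨nat_lit 0x400000000000000, [L4433_3, S4433_3], nat_lit 0x100000000000, nat_lit 0⟩, ⟨nat_lit 0x80000000, [L5333_3, S5333_2, S5333_3, S5333_2], nat_lit 0x400000, nat_lit 44⟩, ⟨nat_lit 8192, [S5422_3, L5432_2], nat_lit 8, nat_lit 69⟩, ⟨nat_lit 1, [], nat_lit 1, nat_lit 0⟩]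
noncomputable def pL5433_3 : List Ent := [⟨nat_lit 0x400000000000000, [L4433_3], nat_lit 0x100000000000, nat_lit 0⟩, ⟨nat_lit 0x80000000, [L5333_3], nat_lit 0x400000, nat_lit 44⟩, ⟨nat_lit 8192, [S5422_3, L5432_2], nat_lit 8, nat_lit 66⟩, ⟨nat_lit 1, [], nat_lit 1, nat_lit 0⟩]
noncomputable def pS5433_3 : List Ent := [⟨nat_lit 0x100000000000, [S4433_3], nat_lit 0x100000000000, nat_lit 0⟩, ⟨nat_lit 0x400000, [S5333_2, S5333_3, S5333_2], nat_lit 0x400000, nat_lit 44⟩, ⟨nat_lit 8, [], nat_lit 8, nat_lit 69⟩, ⟨nat_lit 8, [], nat_lit 8, nat_lit 66⟩]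
noncomputable def pL4443_0 : List Ent := [⟨nat_lit 0x100000000000000000000000000000000000000000000000000, [S4333_2, L4433_1, S4433_1], nat_lit 0x100000000000, nat_lit 44⟩, ⟨nat_lit 0x100000000000000000000000000000000000000000000000000, [S4333_2, L4433_1, S4433_1], nat_lit 0x100000000000, nat_lit 88⟩, ⟨nat_lit 0x400000000000000, [L4433_3, S4433_3], nat_lit 0x100000000000, nat_lit 0⟩, ⟨nat_lit 0x400000000000000, [L4442_2], nat_lit 1, nat_lit 132⟩]
noncomputable def pL4443_1 : List Ent := [⟨nat_lit 0x100000000000000000000000000000000000000000000000000, [S4333_2, L4433_1, S4433_1], nat_lit 0x100000000000, nat_lit 0⟩, ⟨nat_lit 0x100000000000000000000000000000000000000000000000000, [S4333_2, L4433_1], nat_lit 0x100000000000, nat_lit 88⟩, ⟨nat_lit 0x400000000000000, [L4433_3, S4433_3], nat_lit 0x100000000000, nat_lit 44⟩, ⟨nat_lit 0x400000000000000, [L4442_2], nat_lit 1, nat_lit 132⟩]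
noncomputable def pL4443_2 : List Ent := [⟨nat_lit 0x100000000000000000000000000000000000000000000000000, [S4333_2, L4433_1], nat_lit 0x100000000000, nat_lit 0⟩, ⟨nat_lit 0x100000000000000000000000000000000000000000000000000, [S4333_2, L4433_1], nat_lit 0x100000000000, nat_lit 44⟩, ⟨nat_lit 0x400000000000000, [L4433_3, S4433_3], nat_lit 0x100000000000, nat_lit 88⟩, ⟨nat_lit 0x400000000000000, [L4442_2], nat_lit 1, nat_lit 132⟩]
noncomputable def pL4443_3 : List Ent := [⟨nat_lit 0x400000000000000, [L4433_3], nat_lit 0x100000000000, nat_lit 0⟩, ⟨nat_lit 0x400000000000000, [L4433_3], nat_lit 0x100000000000, nat_lit 44⟩, ⟨nat_lit 0x400000000000000, [L4433_3], nat_lit 0x100000000000, nat_lit 88⟩, ⟨nat_lit 1, [], nat_lit 1, nat_lit 0⟩]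
noncomputable def pS4443_1 : List Ent := [⟨nat_lit 0x100000000000, [], nat_lit 0x100000000000, nat_lit 44⟩, ⟨nat_lit 0x100000000000, [], nat_lit 0x100000000000, nat_lit 0⟩, ⟨nat_lit 0x100000000000, [S4433_1], nat_lit 0x100000000000, nat_lit 88⟩, ⟨nat_lit 1, [], nat_lit 1, nat_lit 0⟩]
noncomputable def pS4443_2 : List Ent := [⟨nat_lit 0x100000000000, [S4433_1], nat_lit 0x100000000000, nat_lit 88⟩, ⟨nat_lit 0x100000000000, [S4433_1], nat_lit 0x100000000000, nat_lit 44⟩, ⟨nat_lit 0x100000000000, [S4433_1], nat_lit 0x100000000000, nat_lit 0⟩, ⟨nat_lit 1, [], nat_lit 1, nat_lit 0⟩]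
noncomputable def pL6433_0 : List Ent := [⟨nat_lit 0x100000000000, [L5433_0], nat_lit 4, nat_lit 0⟩, ⟨nat_lit 0x400000, [L6333_0], nat_lit 1, nat_lit 2⟩, ⟨nat_lit 8, [L6432_0], nat_lit 1, nat_lit 2⟩, ⟨nat_lit 8, [L6432_0], nat_lit 1, nat_lit 2⟩]
noncomputable def pL6433_1 : List Ent := [⟨nat_lit 0x400000, [L5433_1], nat_lit 4, nat_lit 0⟩, ⟨nat_lit 1, [], nat_lit 1, nat_lit 0⟩, ⟨nat_lit 1, [], nat_lit 1, nat_lit 0⟩, ⟨nat_lit 1, [], nat_lit 1, nat_lit 0⟩]
noncomputable def pL6433_2 : List Ent := [⟨nat_lit 8, [L5433_3, S5433_3], nat_lit 4, nat_lit 0⟩, ⟨nat_lit 1, [], nat_lit 1, nat_lit 0⟩, ⟨nat_lit 2, [S6422_3, L6432_2], nat_lit 1, nat_lit 2⟩]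
noncomputable def pL6433_3 : List Ent := [⟨nat_lit 8, [L5433_3], nat_lit 4, nat_lit 0⟩, ⟨nat_lit 1, [], nat_lit 1, nat_lit 0⟩, ⟨nat_lit 2, [S6422_3, L6432_2], nat_lit 1, nat_lit 2⟩]
noncomputable def pL5533_0 : List Ent := [⟨nat_lit 0x100000000000, [S4433_1, L5433_0], nat_lit 4, nat_lit 2⟩, ⟨nat_lit 0x400000, [L5433_1], nat_lit 4, nat_lit 0⟩, ⟨nat_lit 8, [L5532_1], nat_lit 1, nat_lit 4⟩, ⟨nat_lit 8, [L5532_1], nat_lit 1, nat_lit 4⟩]
noncomputable def pL5533_1 : List Ent := [⟨nat_lit 0x100000000000, [S4433_1, L5433_0], nat_lit 4, nat_lit 0⟩, ⟨nat_lit 0x400000, [L5433_1], nat_lit 4, nat_lit 2⟩, ⟨nat_lit 8, [L5532_1], nat_lit 1, nat_lit 4⟩, ⟨nat_lit 8, [L5532_1], nat_lit 1, nat_lit 4⟩]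
noncomputable def pL5533_2 : List Ent := [⟨nat_lit 8, [L5433_3, S5433_3], nat_lit 4, nat_lit 0⟩, ⟨nat_lit 8, [L5433_3, S5433_3], nat_lit 4, nat_lit 2⟩, ⟨nat_lit 1, [], nat_lit 1, nat_lit 0⟩]
noncomputable def pL5533_3 : List Ent := [⟨nat_lit 8, [L5433_3], nat_lit 4, nat_lit 0⟩, ⟨nat_lit 8, [L5433_3], nat_lit 4, nat_lit 2⟩, ⟨nat_lit 1, [], nat_lit 1, nat_lit 0⟩]
noncomputable def pL5443_0 : List Ent := [⟨nat_lit 0x100000000000, [L4443_2, S4443_1, S4443_2, S4443_1, S4443_1], nat_lit 64, nat_lit 0⟩, ⟨nat_lit 0x100000000000, [L5433_0], nat_lit 4, nat_lit 6⟩, ⟨nat_lit 0x100000000000, [L5433_0], nat_lit 4, nat_lit 8⟩, ⟨nat_lit 1, [], nat_lit 1, nat_lit 0⟩]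
noncomputable def pL5443_1 : List Ent := [⟨nat_lit 0x100000000000, [L4443_2, S4443_1, S4443_2, S4443_1], nat_lit 64, nat_lit 0⟩, ⟨nat_lit 0x400000, [S5333_2, L5433_1], nat_lit 4, nat_lit 8⟩, ⟨nat_lit 8, [L5433_3, S5433_3], nat_lit 4, nat_lit 6⟩, ⟨nat_lit 8, [L5442_2], nat_lit 1, nat_lit 10⟩]
noncomputable def pL5443_2 : List Ent := [⟨nat_lit 0x100000000000, [L4443_2], nat_lit 64, nat_lit 0⟩, ⟨nat_lit 0x400000, [S5333_2, L5433_1], nat_lit 4, nat_lit 6⟩, ⟨nat_lit 8, [L5433_3, S5433_3], nat_lit 4, nat_lit 8⟩, ⟨nat_lit 8, [L5442_2], nat_lit 1, nat_lit 10⟩]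
noncomputable def pL5443_3 : List Ent := [⟨nat_lit 1, [], nat_lit 1, nat_lit 0⟩, ⟨nat_lit 8, [L5433_3], nat_lit 4, nat_lit 6⟩, ⟨nat_lit 8, [L5433_3], nat_lit 4, nat_lit 8⟩]
noncomputable def pL4444_0 : List Ent := [⟨nat_lit 0x100000000000, [S4433_3, L4443_2, S4443_1, S4443_2, S4443_1, S4443_1], nat_lit 64, nat_lit 6⟩, ⟨nat_lit 0x100000000000, [S4433_3, L4443_2, S4443_1, S4443_2, S4443_1, S4443_1], nat_lit 64, nat_lit 12⟩, ⟨nat_lit 0x100000000000, [S4433_3, L4443_2, S4443_1, S4443_2, S4443_1, S4443_1], nat_lit 64, nat_lit 18⟩, ⟨nat_lit 1, [], nat_lit 1, nat_lit 0⟩]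
noncomputable def pL4444_1 : List Ent := [⟨nat_lit 0x100000000000, [S4433_3, L4443_2, S4443_1, S4443_2, S4443_1, S4443_1], nat_lit 64, nat_lit 0⟩, ⟨nat_lit 0x100000000000, [S4433_3, L4443_2, S4443_1, S4443_2, S4443_1], nat_lit 64, nat_lit 12⟩, ⟨nat_lit 0x100000000000, [S4433_3, L4443_2, S4443_1, S4443_2, S4443_1], nat_lit 64, nat_lit 18⟩, ⟨nat_lit 1, [], nat_lit 1, nat_lit 0⟩]
noncomputable def pL4444_2 : List Ent := [⟨nat_lit 0x100000000000, [S4433_3, L4443_2, S4443_1, S4443_2, S4443_1], nat_lit 64, nat_lit 0⟩, ⟨nat_lit 0x100000000000, [S4433_3, L4443_2, S4443_1, S4443_2, S4443_1], nat_lit 64, nat_lit 6⟩, ⟨nat_lit 0x100000000000, [S4433_3, L4443_2], nat_lit 64, nat_lit 18⟩, ⟨nat_lit 1, [], nat_lit 1, nat_lit 0⟩]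
noncomputable def pL4444_3 : List Ent := [⟨nat_lit 0x100000000000, [S4433_3, L4443_2], nat_lit 64, nat_lit 0⟩, ⟨nat_lit 0x100000000000, [S4433_3, L4443_2], nat_lit 64, nat_lit 6⟩, ⟨nat_lit 0x100000000000, [S4433_3, L4443_2], nat_lit 64, nat_lit 12⟩, ⟨nat_lit 1, [], nat_lit 1, nat_lit 0⟩]

noncomputable def g2200_0 : GI := ⟨nat_lit 0, nat_lit 0, nat_lit 1, [], nat_lit 2⟩
noncomputable def g2200_1 : GI := ⟨nat_lit 1, nat_lit 0, nat_lit 1, [], nat_lit 1⟩
noncomputable def G2200 : List GI := [g2200_0, g2200_1]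

noncomputable def g2210_0 : GI := ⟨nat_lit 0, nat_lit 0, nat_lit 1, [⟨nat_lit 2, []⟩], nat_lit 2688⟩
noncomputable def g2210_1 : GI := ⟨nat_lit 1, nat_lit 0, nat_lit 1, [⟨nat_lit 2, []⟩], nat_lit 43⟩
noncomputable def G2210 : List GI := [g2210_0, g2210_1]

noncomputable def g2211_0 : GI := ⟨nat_lit 0, nat_lit 0, nat_lit 1, [⟨nat_lit 2, [nat_lit 3]⟩], nat_lit 0x820020828000000000⟩
noncomputable def g2211_1 : GI := ⟨nat_lit 1, nat_lit 0, nat_lit 1, [⟨nat_lit 2, [nat_lit 3]⟩], nat_lit 0x82002082b⟩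
noncomputable def g2211_2 : GI := ⟨nat_lit 0, nat_lit 0, nat_lit 1, [⟨nat_lit 2, []⟩, ⟨nat_lit 3, []⟩], nat_lit 0x2aa028208000000000⟩
noncomputable def g2211_3 : GI := ⟨nat_lit 1, nat_lit 0, nat_lit 1, [⟨nat_lit 2, []⟩, ⟨nat_lit 3, []⟩], nat_lit 0xacb00cb35⟩
noncomputable def G2211 : List GI := [g2211_0, g2211_1, g2211_2, g2211_3]

noncomputable def g4111_0 : GI := ⟨nat_lit 0, nat_lit 0, nat_lit 0, [⟨nat_lit 1, []⟩, ⟨nat_lit 2, []⟩, ⟨nat_lit 3, []⟩], nat_lit 0xff2482⟩
noncomputable def G4111 : List GI := [g4111_0]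

noncomputable def g3211_0 : GI := ⟨nat_lit 0, nat_lit 0, nat_lit 1, [⟨nat_lit 0, [nat_lit 3, nat_lit 2]⟩], nat_lit 0xa28a32000000000000000⟩
noncomputable def g3211_1 : GI := ⟨nat_lit 1, nat_lit 0, nat_lit 1, [⟨nat_lit 0, [nat_lit 3, nat_lit 2]⟩], nat_lit 0x104bcf7be020000⟩
noncomputable def G3211 : List GI := [g3211_0, g3211_1]

noncomputable def g2221_0 : GI := ⟨nat_lit 0, nat_lit 0, nat_lit 1, [⟨nat_lit 2, []⟩, ⟨nat_lit 2, [nat_lit 3]⟩], nat_lit 0x800c0a000104492000000000000000⟩
noncomputable def g2221_1 : GI := ⟨nat_lit 1, nat_lit 0, nat_lit 1, [⟨nat_lit 2, []⟩, ⟨nat_lit 2, [nat_lit 3]⟩], nat_lit 0xa00d0a00333fc9e⟩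
noncomputable def g2221_2 : GI := ⟨nat_lit 0, nat_lit 0, nat_lit 2, [⟨nat_lit 1, []⟩, ⟨nat_lit 1, [nat_lit 3]⟩], nat_lit 0x800c0a000104492000000000000000000000000000000⟩
noncomputable def g2221_3 : GI := ⟨nat_lit 1, nat_lit 0, nat_lit 2, [⟨nat_lit 1, []⟩, ⟨nat_lit 1, [nat_lit 3]⟩], nat_lit 0x14033fc9ed0a003⟩
noncomputable def g2221_4 : GI := ⟨nat_lit 0, nat_lit 1, nat_lit 2, [⟨nat_lit 0, []⟩, ⟨nat_lit 0, [nat_lit 3]⟩], nat_lit 0x100104492c0a000000000000000000000000000000000⟩
noncomputable def g2221_5 : GI := ⟨nat_lit 1, nat_lit 1, nat_lit 2, [⟨nat_lit 0, []⟩, ⟨nat_lit 0, [nat_lit 3]⟩], nat_lit 0x14033fc9ed0a003000000000000000⟩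
noncomputable def G2221 : List GI := [g2221_0, g2221_1, g2221_2, g2221_3, g2221_4, g2221_5]

noncomputable def g4220_0 : GI := ⟨nat_lit 0, nat_lit 0, nat_lit 0, [⟨nat_lit 1, []⟩, ⟨nat_lit 2, []⟩, ⟨nat_lit 1, [nat_lit 2]⟩], nat_lit 160⟩
noncomputable def G4220 : List GI := [g4220_0]

noncomputable def g4211_0 : GI := ⟨nat_lit 0, nat_lit 0, nat_lit 0, [⟨nat_lit 1, []⟩, ⟨nat_lit 2, []⟩, ⟨nat_lit 1, [nat_lit 3]⟩], nat_lit 0x207e35042d140⟩
noncomputable def g4211_1 : GI := ⟨nat_lit 0, nat_lit 0, nat_lit 0, [⟨nat_lit 1, []⟩, ⟨nat_lit 3, []⟩, ⟨nat_lit 1, [nat_lit 2]⟩], nat_lit 0x422810c05340⟩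
noncomputable def G4211 : List GI := [g4211_0, g4211_1]

noncomputable def g3311_0 : GI := ⟨nat_lit 0, nat_lit 0, nat_lit 1, [⟨nat_lit 0, [nat_lit 3, nat_lit 2, nat_lit 1]⟩], nat_lit 0xd8008430b5d00000000000000⟩
noncomputable def g3311_1 : GI := ⟨nat_lit 1, nat_lit 0, nat_lit 1, [⟨nat_lit 0, [nat_lit 3, nat_lit 2, nat_lit 1]⟩], nat_lit 0x3600208a29a75⟩
noncomputable def g3311_2 : GI := ⟨nat_lit 0, nat_lit 0, nat_lit 1, [⟨nat_lit 0, [nat_lit 3, nat_lit 1, nat_lit 2]⟩], nat_lit 0x88808010a0000000000000000⟩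
noncomputable def g3311_3 : GI := ⟨nat_lit 1, nat_lit 0, nat_lit 1, [⟨nat_lit 0, [nat_lit 3, nat_lit 1, nat_lit 2]⟩], nat_lit 0x1420010e0026c⟩
noncomputable def G3311 : List GI := [g3311_0, g3311_1, g3311_2, g3311_3]

noncomputable def g3221_0 : GI := ⟨nat_lit 0, nat_lit 0, nat_lit 1, [⟨nat_lit 2, []⟩, ⟨nat_lit 0, [nat_lit 3, nat_lit 2]⟩], nat_lit 0x4008d43000d000000000000000000000000000000000000⟩
noncomputable def g3221_1 : GI := ⟨nat_lit 1, nat_lit 0, nat_lit 1, [⟨nat_lit 2, []⟩, ⟨nat_lit 0, [nat_lit 3, nat_lit 2]⟩], nat_lit 0x280bdef7d700de08c4970a00780000000⟩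
noncomputable def g3221_2 : GI := ⟨nat_lit 0, nat_lit 0, nat_lit 2, [⟨nat_lit 1, []⟩, ⟨nat_lit 0, [nat_lit 3, nat_lit 1]⟩], nat_lit 0x1002350c0034000000000000000000000000000000000000000000000000⟩
noncomputable def g3221_3 : GI := ⟨nat_lit 1, nat_lit 0, nat_lit 2, [⟨nat_lit 1, []⟩, ⟨nat_lit 0, [nat_lit 3, nat_lit 1]⟩], nat_lit 0x377823125c2802f7bdf5c001231000e00⟩
noncomputable def G3221 : List GI := [g3221_0, g3221_1, g3221_2, g3221_3]

noncomputable def g2222_0 : GI := ⟨nat_lit 0, nat_lit 0, nat_lit 1, [⟨nat_lit 2, []⟩, ⟨nat_lit 3, []⟩, ⟨nat_lit 2, [nat_lit 3]⟩], nat_lit 0x81a500000020694000000000000000000000000000000000000000000000000000⟩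
noncomputable def g2222_1 : GI := ⟨nat_lit 1, nat_lit 0, nat_lit 1, [⟨nat_lit 2, []⟩, ⟨nat_lit 3, []⟩, ⟨nat_lit 2, [nat_lit 3]⟩], nat_lit 0x267dc100b0699f70402c197025125c28⟩
noncomputable def g2222_2 : GI := ⟨nat_lit 0, nat_lit 0, nat_lit 2, [⟨nat_lit 1, []⟩, ⟨nat_lit 3, []⟩, ⟨nat_lit 1, [nat_lit 3]⟩], nat_lit 0x2069400000081a500000000000000000000000000000000000000000000000000000000000000000000000000000000000000⟩
noncomputable def g2222_3 : GI := ⟨nat_lit 1, nat_lit 0, nat_lit 2, [⟨nat_lit 1, []⟩, ⟨nat_lit 3, []⟩, ⟨nat_lit 1, [nat_lit 3]⟩], nat_lit 0x211f9f757005c0944970a267dc100b06⟩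
noncomputable def g2222_4 : GI := ⟨nat_lit 0, nat_lit 0, nat_lit 3, [⟨nat_lit 1, []⟩, ⟨nat_lit 2, []⟩, ⟨nat_lit 1, [nat_lit 2]⟩], nat_lit 0x81a500000020694000000000000000000000000000000000000000000000000000000000000000000000000000000000000000000000000000000000000000000000000⟩
noncomputable def g2222_5 : GI := ⟨nat_lit 1, nat_lit 0, nat_lit 3, [⟨nat_lit 1, []⟩, ⟨nat_lit 2, []⟩, ⟨nat_lit 1, [nat_lit 2]⟩], nat_lit 0x17025125c28847e7dd5c0211f9f75700⟩
noncomputable def g2222_6 : GI := ⟨nat_lit 0, nat_lit 1, nat_lit 2, [⟨nat_lit 0, []⟩, ⟨nat_lit 3, []⟩, ⟨nat_lit 0, [nat_lit 3]⟩], nat_lit 0x108925600000000000020694000000000000000000000000000000000000000000000000000000000000000000000000000⟩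
noncomputable def g2222_7 : GI := ⟨nat_lit 1, nat_lit 1, nat_lit 2, [⟨nat_lit 0, []⟩, ⟨nat_lit 3, []⟩, ⟨nat_lit 0, [nat_lit 3]⟩], nat_lit 0x847e7dd5c017025125c2899f70402c180000000000000000000000000000000000⟩
noncomputable def g2222_8 : GI := ⟨nat_lit 0, nat_lit 1, nat_lit 3, [⟨nat_lit 0, []⟩, ⟨nat_lit 2, []⟩, ⟨nat_lit 0, [nat_lit 2]⟩], nat_lit 0x422495800000000000081a500000000000000000000000000000000000000000000000000000000000000000000000000000000000000000000000000000000000000⟩
noncomputable def g2222_9 : GI := ⟨nat_lit 1, nat_lit 1, nat_lit 3, [⟨nat_lit 0, []⟩, ⟨nat_lit 2, []⟩, ⟨nat_lit 0, [nat_lit 2]⟩], nat_lit 0x5c0944970a211f9f75700847e7dd5c000000000000000000000000000000000000⟩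
noncomputable def g2222_10 : GI := ⟨nat_lit 0, nat_lit 2, nat_lit 3, [⟨nat_lit 0, []⟩, ⟨nat_lit 1, []⟩, ⟨nat_lit 0, [nat_lit 1]⟩], nat_lit 0x108925600004224958000000000000000000000000000000000000000000000000000000000000000000000000000000000000000000000000000000000⟩
noncomputable def g2222_11 : GI := ⟨nat_lit 1, nat_lit 2, nat_lit 3, [⟨nat_lit 0, []⟩, ⟨nat_lit 1, []⟩, ⟨nat_lit 0, [nat_lit 1]⟩], nat_lit 0x17025125c28847e7dd5c0211f9f75700000000000000000000000000000000000000000000000000000000000000000000000⟩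
noncomputable def G2222 : List GI := [g2222_0, g2222_1, g2222_2, g2222_3, g2222_4, g2222_5, g2222_6, g2222_7, g2222_8, g2222_9, g2222_10, g2222_11]

noncomputable def g5220_0 : GI := ⟨nat_lit 0, nat_lit 0, nat_lit 0, [⟨nat_lit 1, []⟩, ⟨nat_lit 2, []⟩, ⟨nat_lit 0, [nat_lit 2, nat_lit 1]⟩], nat_lit 28⟩
noncomputable def G5220 : List GI := [g5220_0]

noncomputable def g5211_0 : GI := ⟨nat_lit 0, nat_lit 0, nat_lit 0, [⟨nat_lit 1, []⟩, ⟨nat_lit 2, []⟩, ⟨nat_lit 0, [nat_lit 3, nat_lit 1]⟩], nat_lit 0x124a40⟩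
noncomputable def G5211 : List GI := [g5211_0]

noncomputable def g4311_0 : GI := ⟨nat_lit 0, nat_lit 0, nat_lit 0, [⟨nat_lit 1, []⟩, ⟨nat_lit 1, [nat_lit 2]⟩, ⟨nat_lit 1, [nat_lit 3]⟩], nat_lit 0x120000884⟩
noncomputable def G4311 : List GI := [g4311_0]

noncomputable def g4221_0 : GI := ⟨nat_lit 0, nat_lit 0, nat_lit 0, [⟨nat_lit 1, []⟩, ⟨nat_lit 2, []⟩, ⟨nat_lit 1, [nat_lit 3, nat_lit 2]⟩], nat_lit 0xa007c6a02801f1a80a04c0860d0000118000⟩
noncomputable def g4221_1 : GI := ⟨nat_lit 0, nat_lit 0, nat_lit 0, [⟨nat_lit 1, []⟩, ⟨nat_lit 2, []⟩, ⟨nat_lit 1, [nat_lit 2, nat_lit 3]⟩], nat_lit 0x2087c6a0282000000000c000050000010000⟩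
noncomputable def g4221_2 : GI := ⟨nat_lit 0, nat_lit 0, nat_lit 0, [⟨nat_lit 1, []⟩, ⟨nat_lit 1, [nat_lit 2]⟩, ⟨nat_lit 2, [nat_lit 3]⟩], nat_lit 0x10400000200080a0000c6084100108000⟩
noncomputable def g4221_3 : GI := ⟨nat_lit 0, nat_lit 0, nat_lit 0, [⟨nat_lit 2, []⟩, ⟨nat_lit 1, [nat_lit 2]⟩, ⟨nat_lit 1, [nat_lit 3]⟩], nat_lit 0x80020280041000000c000050000010000⟩
noncomputable def g4221_4 : GI := ⟨nat_lit 0, nat_lit 0, nat_lit 0, [⟨nat_lit 1, []⟩, ⟨nat_lit 2, []⟩, ⟨nat_lit 3, []⟩, ⟨nat_lit 1, [nat_lit 2]⟩], nat_lit 0xa047d4002811f5000a04c0860d0000118000⟩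
noncomputable def G4221 : List GI := [g4221_0, g4221_1, g4221_2, g4221_3, g4221_4]

noncomputable def g3321_0 : GI := ⟨nat_lit 0, nat_lit 0, nat_lit 1, [⟨nat_lit 0, [nat_lit 2, nat_lit 3, nat_lit 1, nat_lit 2]⟩], nat_lit 0x88140420000020001000c0c40d4100118000000000000000000000000000000000000000⟩
noncomputable def g3321_1 : GI := ⟨nat_lit 1, nat_lit 0, nat_lit 1, [⟨nat_lit 0, [nat_lit 2, nat_lit 3, nat_lit 1, nat_lit 2]⟩], nat_lit 0x8814042000002000000082403199030682ae⟩
noncomputable def g3321_2 : GI := ⟨nat_lit 0, nat_lit 0, nat_lit 1, [⟨nat_lit 2, []⟩, ⟨nat_lit 0, [nat_lit 3, nat_lit 2, nat_lit 1]⟩], nat_lit 0xacd116a1400000000a04c0860d000011a800000000000000000000000000000000000000⟩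
noncomputable def g3321_3 : GI := ⟨nat_lit 1, nat_lit 0, nat_lit 1, [⟨nat_lit 2, []⟩, ⟨nat_lit 0, [nat_lit 3, nat_lit 2, nat_lit 1]⟩], nat_lit 0xbdbffcfbf14000001e0d208e41c22e3db5ad⟩
noncomputable def g3321_4 : GI := ⟨nat_lit 0, nat_lit 0, nat_lit 1, [⟨nat_lit 2, []⟩, ⟨nat_lit 0, [nat_lit 3, nat_lit 1, nat_lit 2]⟩], nat_lit 0xa8840401680014000a00c0862d4040118000000000000000000000000000000000000000⟩
noncomputable def g3321_5 : GI := ⟨nat_lit 1, nat_lit 0, nat_lit 1, [⟨nat_lit 2, []⟩, ⟨nat_lit 0, [nat_lit 3, nat_lit 1, nat_lit 2]⟩], nat_lit 0x8d0fdce003003c00000c70400d876306b1ee⟩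
noncomputable def G3321 : List GI := [g3321_0, g3321_1, g3321_2, g3321_3, g3321_4, g3321_5]

noncomputable def g3222_0 : GI := ⟨nat_lit 0, nat_lit 0, nat_lit 1, [⟨nat_lit 2, [nat_lit 3]⟩, ⟨nat_lit 0, [nat_lit 3, nat_lit 2]⟩], nat_lit 0x4f52202813c0880a08408680404011a800000000000000000000000000000000000000000000000000000000000000000000000000000000000000000000000000000⟩
noncomputable def g3222_1 : GI := ⟨nat_lit 1, nat_lit 0, nat_lit 1, [⟨nat_lit 2, [nat_lit 3]⟩, ⟨nat_lit 0, [nat_lit 3, nat_lit 2]⟩], nat_lit 0x2a59967804002400a60008a8015bb0cf0080048014c00115378940003229a00200048862001d2800000100406000000000⟩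
noncomputable def g3222_2 : GI := ⟨nat_lit 0, nat_lit 0, nat_lit 2, [⟨nat_lit 1, [nat_lit 3]⟩, ⟨nat_lit 0, [nat_lit 3, nat_lit 1]⟩], nat_lit 0x4f52202813c0880a08408680404011a800000000000000000000000000000000000000000000000000000000000000000000000000000000000000000000000000000000000000000000000000000000000000000⟩
noncomputable def g3222_3 : GI := ⟨nat_lit 1, nat_lit 0, nat_lit 2, [⟨nat_lit 1, [nat_lit 3]⟩, ⟨nat_lit 0, [nat_lit 3, nat_lit 1]⟩], nat_lit 0x2a72007b1000136cf81a1351bc4a0001914d001000244310002b7619e010009002980022a28e112e8c429a060013220100⟩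
noncomputable def g3222_4 : GI := ⟨nat_lit 0, nat_lit 0, nat_lit 3, [⟨nat_lit 1, [nat_lit 2]⟩, ⟨nat_lit 0, [nat_lit 2, nat_lit 1]⟩], nat_lit 0x4f52202813c0880a08408680404011a800000000000000000000000000000000000000000000000000000000000000000000000000000000000000000000000000000000000000000000000000000000000000000000000000000000000000000000000000000⟩
noncomputable def g3222_5 : GI := ⟨nat_lit 1, nat_lit 0, nat_lit 3, [⟨nat_lit 1, [nat_lit 2]⟩, ⟨nat_lit 0, [nat_lit 2, nat_lit 1]⟩], nat_lit 0xde250000c8a68008001221880054e400f6200026d9f03426a00e9c801ec48026d33e0684d467203000990a6125d18844002⟩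
noncomputable def g3222_6 : GI := ⟨nat_lit 0, nat_lit 0, nat_lit 1, [⟨nat_lit 2, []⟩, ⟨nat_lit 3, []⟩, ⟨nat_lit 0, [nat_lit 3, nat_lit 2]⟩], nat_lit 0x9000014037c080500040c2800140110000000000000000000000000000000000000000000000000000000000000000000000000000000000000000000000000000000⟩
noncomputable def g3222_7 : GI := ⟨nat_lit 1, nat_lit 0, nat_lit 1, [⟨nat_lit 2, []⟩, ⟨nat_lit 3, []⟩, ⟨nat_lit 0, [nat_lit 3, nat_lit 2]⟩], nat_lit 0x13f7bdf6001709892e1441fa827ee492300cd4e9248c082e01834000010239c020000802200080000000105924800000000⟩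
noncomputable def g3222_8 : GI := ⟨nat_lit 0, nat_lit 0, nat_lit 2, [⟨nat_lit 1, []⟩, ⟨nat_lit 3, []⟩, ⟨nat_lit 0, [nat_lit 3, nat_lit 1]⟩], nat_lit 0x9000014037c080500040c2800140110000000000000000000000000000000000000000000000000000000000000000000000000000000000000000000000000000000000000000000000000000000000000000000⟩
noncomputable def g3222_9 : GI := ⟨nat_lit 1, nat_lit 0, nat_lit 2, [⟨nat_lit 1, []⟩, ⟨nat_lit 3, []⟩, ⟨nat_lit 0, [nat_lit 3, nat_lit 1]⟩], nat_lit 0xdcbdc495cb06137fef812db56c1a00000811ce0100004011004fdc9246019a9d24918105c06314a00124315004933826e50⟩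
noncomputable def g3222_10 : GI := ⟨nat_lit 0, nat_lit 0, nat_lit 3, [⟨nat_lit 1, []⟩, ⟨nat_lit 2, []⟩, ⟨nat_lit 0, [nat_lit 2, nat_lit 1]⟩], nat_lit 0x9000014037c080500040c2800140110000000000000000000000000000000000000000000000000000000000000000000000000000000000000000000000000000000000000000000000000000000000000000000000000000000000000000000000000000000⟩
noncomputable def g3222_11 : GI := ⟨nat_lit 1, nat_lit 0, nat_lit 3, [⟨nat_lit 1, []⟩, ⟨nat_lit 2, []⟩, ⟨nat_lit 0, [nat_lit 2, nat_lit 1]⟩], nat_lit 0x60d00000408e7008000200881b97b892b960c26ffdf025b6ac604e9249c018492480023201c50a8248fc99e6420388e6d20⟩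
noncomputable def G3222 : List GI := [g3222_0, g3222_1, g3222_2, g3222_3, g3222_4, g3222_5, g3222_6, g3222_7, g3222_8, g3222_9, g3222_10, g3222_11]

noncomputable def g5221_0 : GI := ⟨nat_lit 0, nat_lit 0, nat_lit 0, [⟨nat_lit 1, []⟩, ⟨nat_lit 2, []⟩, ⟨nat_lit 0, [nat_lit 3, nat_lit 2, nat_lit 1]⟩], nat_lit 0x7052000400802000001800⟩
noncomputable def g5221_1 : GI := ⟨nat_lit 0, nat_lit 0, nat_lit 0, [⟨nat_lit 1, []⟩, ⟨nat_lit 2, []⟩, ⟨nat_lit 0, [nat_lit 2, nat_lit 3, nat_lit 1]⟩], nat_lit 0x32520040028d2c68280000⟩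
noncomputable def g5221_2 : GI := ⟨nat_lit 0, nat_lit 0, nat_lit 0, [⟨nat_lit 1, []⟩, ⟨nat_lit 2, []⟩, ⟨nat_lit 0, [nat_lit 1, nat_lit 3, nat_lit 2]⟩], nat_lit 0x502004a402491c08281000⟩
noncomputable def g5221_3 : GI := ⟨nat_lit 0, nat_lit 0, nat_lit 0, [⟨nat_lit 1, []⟩, ⟨nat_lit 2, []⟩, ⟨nat_lit 3, []⟩, ⟨nat_lit 0, [nat_lit 2, nat_lit 1]⟩], nat_lit 0x703013402a806408000c00⟩
noncomputable def G5221 : List GI := [g5221_0, g5221_1, g5221_2, g5221_3]

noncomputable def g4321_0 : GI := ⟨nat_lit 0, nat_lit 0, nat_lit 1, [⟨nat_lit 0, [nat_lit 2, nat_lit 0, nat_lit 3, nat_lit 1, nat_lit 2]⟩], nat_lit 0x506611020acc0c08281810000000000000000000000000000000000000⟩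
noncomputable def g4321_1 : GI := ⟨nat_lit 1, nat_lit 0, nat_lit 1, [⟨nat_lit 0, [nat_lit 2, nat_lit 0, nat_lit 3, nat_lit 1, nat_lit 2]⟩], nat_lit 0x2080000303c7c0002b020004008420000800⟩
noncomputable def g4321_2 : GI := ⟨nat_lit 0, nat_lit 0, nat_lit 0, [⟨nat_lit 1, []⟩, ⟨nat_lit 2, []⟩, ⟨nat_lit 1, [nat_lit 1, nat_lit 3, nat_lit 2]⟩], nat_lit 0x8800000905c6800000000000002080402004⟩
noncomputable def g4321_3 : GI := ⟨nat_lit 0, nat_lit 0, nat_lit 0, [⟨nat_lit 1, []⟩, ⟨nat_lit 1, [nat_lit 2]⟩, ⟨nat_lit 1, [nat_lit 3, nat_lit 2]⟩], nat_lit 0x50000010504202800000210040180402304⟩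
noncomputable def g4321_4 : GI := ⟨nat_lit 0, nat_lit 0, nat_lit 0, [⟨nat_lit 1, []⟩, ⟨nat_lit 2, []⟩, ⟨nat_lit 1, [nat_lit 2]⟩, ⟨nat_lit 1, [nat_lit 3]⟩], nat_lit 0xc00100223c6814000000000000000000000⟩
noncomputable def G4321 : List GI := [g4321_0, g4321_1, g4321_2, g4321_3, g4321_4]

noncomputable def g4222_0 : GI := ⟨nat_lit 0, nat_lit 0, nat_lit 0, [⟨nat_lit 1, []⟩, ⟨nat_lit 2, []⟩, ⟨nat_lit 1, [nat_lit 3, nat_lit 2, nat_lit 3]⟩], nat_lit 0x1300000004c000000000000001180042004800002010200000118004200480000201020000008140000010634000002000088128002102ca280000c0000000⟩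
noncomputable def g4222_1 : GI := ⟨nat_lit 0, nat_lit 0, nat_lit 0, [⟨nat_lit 1, []⟩, ⟨nat_lit 3, []⟩, ⟨nat_lit 1, [nat_lit 2, nat_lit 3, nat_lit 2]⟩], nat_lit 0x11800420048000020102000001300000004c000000000000001b00040804e0000800920000008852a0001402404500280008408010011000000001a0000000⟩
noncomputable def g4222_2 : GI := ⟨nat_lit 0, nat_lit 0, nat_lit 0, [⟨nat_lit 2, []⟩, ⟨nat_lit 3, []⟩, ⟨nat_lit 1, [nat_lit 1, nat_lit 3, nat_lit 2]⟩], nat_lit 0x1b00040804e000080092000001b00040804e000080092000001300000004c000000000000001850a02800022110000080008100200020a4000000180000000⟩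
noncomputable def g4222_3 : GI := ⟨nat_lit 0, nat_lit 0, nat_lit 0, [⟨nat_lit 1, []⟩, ⟨nat_lit 2, [nat_lit 3]⟩, ⟨nat_lit 1, [nat_lit 3, nat_lit 2]⟩], nat_lit 0x3d8540500be340000000000003f8d40500be34000000000001b00040804c280080092000000830a00000420484500280008f1aa1022188a280000e0000800⟩
noncomputable def g4222_4 : GI := ⟨nat_lit 0, nat_lit 0, nat_lit 0, [⟨nat_lit 1, []⟩, ⟨nat_lit 2, [nat_lit 3]⟩, ⟨nat_lit 1, [nat_lit 2, nat_lit 3]⟩], nat_lit 0x3f8d40500be340000000000003d8540500be3400000000000110a04200480000201020000010f18a000044311450000000834a20020128a280001e0000000⟩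
noncomputable def g4222_5 : GI := ⟨nat_lit 0, nat_lit 0, nat_lit 0, [⟨nat_lit 2, []⟩, ⟨nat_lit 1, [nat_lit 3]⟩, ⟨nat_lit 1, [nat_lit 3, nat_lit 2]⟩], nat_lit 0x2f8d00000f615014000000001b00040804c2800800920000003f8d40500be3400000000000000400280102351000028000c912a0020188a280000c0000000⟩
noncomputable def g4222_6 : GI := ⟨nat_lit 0, nat_lit 0, nat_lit 0, [⟨nat_lit 2, []⟩, ⟨nat_lit 1, [nat_lit 3]⟩, ⟨nat_lit 1, [nat_lit 2, nat_lit 3]⟩], nat_lit 0x820000000000000a0a00280042800a01900000000208000000000000000000000020000000040110000080004f50a1003104000000100000000⟩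
noncomputable def g4222_7 : GI := ⟨nat_lit 0, nat_lit 0, nat_lit 0, [⟨nat_lit 3, []⟩, ⟨nat_lit 1, [nat_lit 2]⟩, ⟨nat_lit 1, [nat_lit 3, nat_lit 2]⟩], nat_lit 0xa0a00280042800a0190000000000000000082000000000000000000000008200000000000008a5880000001510000080000708210011a4000000000000800⟩
noncomputable def g4222_8 : GI := ⟨nat_lit 0, nat_lit 0, nat_lit 0, [⟨nat_lit 3, []⟩, ⟨nat_lit 1, [nat_lit 2]⟩, ⟨nat_lit 1, [nat_lit 2, nat_lit 3]⟩], nat_lit 0x1b00040804c2800800920000002f8d00000f6150140000000002f8d00000fe350140000000000952a280144251450020000c508210000a40000001a0000000⟩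
noncomputable def g4222_9 : GI := ⟨nat_lit 0, nat_lit 0, nat_lit 0, [⟨nat_lit 1, [nat_lit 2]⟩, ⟨nat_lit 1, [nat_lit 3]⟩, ⟨nat_lit 2, [nat_lit 3]⟩], nat_lit 0x3f8d40500fe350140000000003f8d40500fe350140000000003f8d40500fe350140000000018c18a2800443114500000008d1aa1022188a280000e0000000⟩
noncomputable def g4222_10 : GI := ⟨nat_lit 0, nat_lit 0, nat_lit 0, [⟨nat_lit 1, []⟩, ⟨nat_lit 2, []⟩, ⟨nat_lit 3, []⟩, ⟨nat_lit 1, [nat_lit 3, nat_lit 2]⟩], nat_lit 0x1332140806ce04080092000000af8d02502f030020092000000af8d02502f8100200920000008a18a0000041480000200008300200020a4000000180000800⟩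
noncomputable def g4222_11 : GI := ⟨nat_lit 0, nat_lit 0, nat_lit 0, [⟨nat_lit 1, []⟩, ⟨nat_lit 2, []⟩, ⟨nat_lit 3, []⟩, ⟨nat_lit 1, [nat_lit 2, nat_lit 3]⟩], nat_lit 0x9000420024e040200920000010ea400d0670300800920000018ea4028047e350b40000000000912a0000461004500080000c1a8102012ca28000160000000⟩
noncomputable def g4222_12 : GI := ⟨nat_lit 0, nat_lit 0, nat_lit 0, [⟨nat_lit 1, []⟩, ⟨nat_lit 2, []⟩, ⟨nat_lit 1, [nat_lit 3]⟩, ⟨nat_lit 2, [nat_lit 3]⟩], nat_lit 0x3f8d40d04c000020000000001368140d047e34080102000000110c4280000010b40000000000912a0000461004500080000c1a8102012ca28000160000000⟩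
noncomputable def g4222_13 : GI := ⟨nat_lit 0, nat_lit 0, nat_lit 0, [⟨nat_lit 1, []⟩, ⟨nat_lit 3, []⟩, ⟨nat_lit 1, [nat_lit 2]⟩, ⟨nat_lit 2, [nat_lit 3]⟩], nat_lit 0x1368140d047e340801020000003f8d40d04c000020000000000000042d0044310a00000000000912a0000461004500080000c1a8102012ca28000160000000⟩
noncomputable def g4222_14 : GI := ⟨nat_lit 0, nat_lit 0, nat_lit 0, [⟨nat_lit 2, []⟩, ⟨nat_lit 3, []⟩, ⟨nat_lit 1, [nat_lit 2]⟩, ⟨nat_lit 1, [nat_lit 3]⟩], nat_lit 0x18f8d420045a04034092000000000042d0044310a00000000003f8d40d04c000020000000000000022801063480000000004d1aa1023088a28000140000000⟩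
noncomputable def G4222 : List GI := [g4222_0, g4222_1, g4222_2, g4222_3, g4222_4, g4222_5, g4222_6, g4222_7, g4222_8, g4222_9, g4222_10, g4222_11, g4222_12, g4222_13, g4222_14]

noncomputable def g3331_0 : GI := ⟨nat_lit 0, nat_lit 0, nat_lit 1, [⟨nat_lit 2, []⟩, ⟨nat_lit 0, [nat_lit 2, nat_lit 3, nat_lit 1, nat_lit 2]⟩], nat_lit 0x841002231d4016820020210042100000200000000000000000000000000000000000000⟩
noncomputable def g3331_1 : GI := ⟨nat_lit 1, nat_lit 0, nat_lit 1, [⟨nat_lit 2, []⟩, ⟨nat_lit 0, [nat_lit 2, nat_lit 3, nat_lit 1, nat_lit 2]⟩], nat_lit 0xe0500001a1d1f9d8c00c3920523809852c18⟩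
noncomputable def g3331_2 : GI := ⟨nat_lit 0, nat_lit 0, nat_lit 2, [⟨nat_lit 1, []⟩, ⟨nat_lit 0, [nat_lit 1, nat_lit 3, nat_lit 2, nat_lit 1]⟩], nat_lit 0x841002231d4016820020210042100000200000000000000000000000000000000000000000000000000000000000000000000000000⟩
noncomputable def g3331_3 : GI := ⟨nat_lit 1, nat_lit 0, nat_lit 2, [⟨nat_lit 1, []⟩, ⟨nat_lit 0, [nat_lit 1, nat_lit 3, nat_lit 2, nat_lit 1]⟩], nat_lit 0xb90016090291c04c2960c0343a3f3b180187⟩
noncomputable def g3331_4 : GI := ⟨nat_lit 0, nat_lit 1, nat_lit 2, [⟨nat_lit 0, []⟩, ⟨nat_lit 0, [nat_lit 0, nat_lit 3, nat_lit 2, nat_lit 1]⟩], nat_lit 0x8021080210800001004463a802d040040000000000000000000000000000000000000000000000000000000000000000000000000⟩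
noncomputable def g3331_5 : GI := ⟨nat_lit 1, nat_lit 1, nat_lit 2, [⟨nat_lit 0, []⟩, ⟨nat_lit 0, [nat_lit 0, nat_lit 3, nat_lit 2, nat_lit 1]⟩], nat_lit 0xb90016090291c04c2960c0343a3f3b180187000000000000000000000000000000000000⟩
noncomputable def G3331 : List GI := [g3331_0, g3331_1, g3331_2, g3331_3, g3331_4, g3331_5]

noncomputable def g3322_0 : GI := ⟨nat_lit 0, nat_lit 0, nat_lit 1, [⟨nat_lit 2, []⟩, ⟨nat_lit 0, [nat_lit 3, nat_lit 2, nat_lit 1, nat_lit 3]⟩], nat_lit 0x200080a05000202832000000347020100cd8221002000000033f1a80009780204012400000012a545002886228a00400018a104200014800000034000000000000000000000000000000000000000000000000000000000000000000000000000000000000000000000000000000000000000000000000000000000000⟩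
noncomputable def g3322_1 : GI := ⟨nat_lit 1, nat_lit 0, nat_lit 1, [⟨nat_lit 2, []⟩, ⟨nat_lit 0, [nat_lit 3, nat_lit 2, nat_lit 1, nat_lit 3]⟩], nat_lit 0x900002582800143c0960000012381a29e58300bb98460f079a3b8b030000000000000000000842750cf2a7e2ec9957bdf510631100c786031f149a42142aa⟩
noncomputable def g3322_2 : GI := ⟨nat_lit 0, nat_lit 0, nat_lit 1, [⟨nat_lit 3, []⟩, ⟨nat_lit 0, [nat_lit 2, nat_lit 3, nat_lit 1, nat_lit 2]⟩], nat_lit 0x347020100cd822100200000000200080a0500020283200000021e00010087c68000204000000008005002046a200005000192254004025145000018000000000000000000000000000000000000000000000000000000000000000000000000000000000000000000000000000000000000000000000000000000000000⟩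
noncomputable def g3322_3 : GI := ⟨nat_lit 1, nat_lit 0, nat_lit 1, [⟨nat_lit 3, []⟩, ⟨nat_lit 0, [nat_lit 2, nat_lit 3, nat_lit 1, nat_lit 2]⟩], nat_lit 0x12381a29e58300bb98460f079a900002582800143c096000000000000000ee2c0c0000000000378f6beda1a51b06ae6a31d832c610904bfadee9aa50aa5082⟩
noncomputable def g3322_4 : GI := ⟨nat_lit 0, nat_lit 0, nat_lit 1, [⟨nat_lit 2, [nat_lit 3]⟩, ⟨nat_lit 0, [nat_lit 3, nat_lit 2, nat_lit 1]⟩], nat_lit 0x27c4a050017c68000000000002785a050017c680000000000033d4001a08d002128124000003041440000846228a00000001625400423114500000a800080000000000000000000000000000000000000000000000000000000000000000000000000000000000000000000000000000000000000000000000000000000⟩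
noncomputable def g3322_5 : GI := ⟨nat_lit 1, nat_lit 0, nat_lit 1, [⟨nat_lit 2, [nat_lit 3]⟩, ⟨nat_lit 0, [nat_lit 3, nat_lit 2, nat_lit 1]⟩], nat_lit 0x1e3e1b7ea9bf3c70160000000623a1a2cb9bf3c7016000000079ea000d046801094092000031d71a7652785b7337b24025c020a663c2798e2be00e543074c3⟩
noncomputable def g3322_6 : GI := ⟨nat_lit 0, nat_lit 0, nat_lit 1, [⟨nat_lit 2, [nat_lit 3]⟩, ⟨nat_lit 0, [nat_lit 3, nat_lit 1, nat_lit 2]⟩], nat_lit 0x10000810087c6a068204000002074080a0980020280000000033d4001a0c3c281001240000000000450020c69000000000090a14204611145000028000000000000000000000000000000000000000000000000000000000000000000000000000000000000000000000000000000000000000000000000000000000000⟩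
noncomputable def g3322_7 : GI := ⟨nat_lit 1, nat_lit 0, nat_lit 1, [⟨nat_lit 2, [nat_lit 3]⟩, ⟨nat_lit 0, [nat_lit 3, nat_lit 1, nat_lit 2]⟩], nat_lit 0x1a3a1c2564800103400000000760427c9dd7f3d7356000000000000000026605015800000000a45f65ae29c071117e24d49052f40e9e137076ebeb84aa5661⟩
noncomputable def g3322_8 : GI := ⟨nat_lit 0, nat_lit 0, nat_lit 1, [⟨nat_lit 0, [nat_lit 3, nat_lit 2]⟩, ⟨nat_lit 1, [nat_lit 3, nat_lit 2]⟩], nat_lit 0x240000100ce16810032000000340008500d1d001401240000000000000003c280000000000000000450020c6900000000009e214204611145000028000000000000000000000000000000000000000000000000000000000000000000000000000000000000000000000000000000000000000000000000000000000000⟩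
noncomputable def g3322_9 : GI := ⟨nat_lit 1, nat_lit 0, nat_lit 1, [⟨nat_lit 0, [nat_lit 3, nat_lit 2]⟩, ⟨nat_lit 1, [nat_lit 3, nat_lit 2]⟩], nat_lit 0x12000048068e8e0801d0821f01e0005a8068e8e0a00f2929f000000000001fd400000000000032c5285e82222e101e141f522e03060448a8566f120aaa52a2⟩
noncomputable def g3322_10 : GI := ⟨nat_lit 0, nat_lit 0, nat_lit 1, [⟨nat_lit 2, []⟩, ⟨nat_lit 3, []⟩, ⟨nat_lit 0, [nat_lit 3, nat_lit 2, nat_lit 1]⟩], nat_lit 0x12642000011c08000300000002245a00000e06014010400000100008100150001001240000011431400000829000004000106004000414800000034000080000000000000000000000000000000000000000000000000000000000000000000000000000000000000000000000000000000000000000000000000000000⟩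
noncomputable def g3322_11 : GI := ⟨nat_lit 1, nat_lit 0, nat_lit 1, [⟨nat_lit 2, []⟩, ⟨nat_lit 3, []⟩, ⟨nat_lit 0, [nat_lit 3, nat_lit 2, nat_lit 1]⟩], nat_lit 0x16a0030a0bb57232d733201d01ea0066a878b4fbab03135980c51e040f000001096126000468c1a93240c1f43b6580d944d94e3473c72ccaa8201ffe1122a2⟩
noncomputable def g3322_12 : GI := ⟨nat_lit 0, nat_lit 0, nat_lit 1, [⟨nat_lit 2, []⟩, ⟨nat_lit 3, []⟩, ⟨nat_lit 0, [nat_lit 3, nat_lit 1, nat_lit 2]⟩], nat_lit 0x127020000119080001200000003b4001005500210010400000100008100d4040100124000000008040000080320000500010c100200221000000030000000000000000000000000000000000000000000000000000000000000000000000000000000000000000000000000000000000000000000000000000000000000⟩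
noncomputable def g3322_13 : GI := ⟨nat_lit 1, nat_lit 0, nat_lit 1, [⟨nat_lit 2, []⟩, ⟨nat_lit 3, []⟩, ⟨nat_lit 0, [nat_lit 3, nat_lit 1, nat_lit 2]⟩], nat_lit 0x9a00608028481b819c5200701b00062c040e8fba5096003000000000005810959f40000000091a9324389d2bacd0402ecd830a10e0d225ea8225bfc0112a2⟩
noncomputable def G3322 : List GI := [g3322_0, g3322_1, g3322_2, g3322_3, g3322_4, g3322_5, g3322_6, g3322_7, g3322_8, g3322_9, g3322_10, g3322_11, g3322_12, g3322_13]

noncomputable def g5321_0 : GI := ⟨nat_lit 0, nat_lit 0, nat_lit 0, [⟨nat_lit 1, []⟩, ⟨nat_lit 2, []⟩, ⟨nat_lit 0, [nat_lit 1, nat_lit 3, nat_lit 2, nat_lit 1]⟩], nat_lit 0x4488040802a108840⟩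
noncomputable def g5321_1 : GI := ⟨nat_lit 0, nat_lit 0, nat_lit 0, [⟨nat_lit 1, []⟩, ⟨nat_lit 2, []⟩, ⟨nat_lit 1, [nat_lit 3]⟩, ⟨nat_lit 0, [nat_lit 2, nat_lit 1]⟩], nat_lit 0x402c000008080800⟩
noncomputable def G5321 : List GI := [g5321_0, g5321_1]

noncomputable def g5222_0 : GI := ⟨nat_lit 0, nat_lit 0, nat_lit 0, [⟨nat_lit 1, []⟩, ⟨nat_lit 2, []⟩, ⟨nat_lit 0, [nat_lit 3, nat_lit 2, nat_lit 3, nat_lit 1]⟩], nat_lit 0x100000000000000000000008000000d00220683268009419400001500000040200000000000⟩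
noncomputable def g5222_1 : GI := ⟨nat_lit 0, nat_lit 0, nat_lit 0, [⟨nat_lit 1, []⟩, ⟨nat_lit 2, []⟩, ⟨nat_lit 0, [nat_lit 3, nat_lit 2, nat_lit 1, nat_lit 3]⟩], nat_lit 0x230046000000000cd4011002820000335004400a0800001fd6816020a210300840040b4a8087a40100000204080⟩
noncomputable def g5222_2 : GI := ⟨nat_lit 0, nat_lit 0, nat_lit 0, [⟨nat_lit 1, []⟩, ⟨nat_lit 3, []⟩, ⟨nat_lit 0, [nat_lit 2, nat_lit 3, nat_lit 2, nat_lit 1]⟩], nat_lit 0x4000000000000000000000000000000106040050400008290200032a110801840040c404000000000000000000⟩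
noncomputable def g5222_3 : GI := ⟨nat_lit 0, nat_lit 0, nat_lit 0, [⟨nat_lit 2, []⟩, ⟨nat_lit 3, []⟩, ⟨nat_lit 0, [nat_lit 3, nat_lit 1, nat_lit 2, nat_lit 1]⟩], nat_lit 0x106040050400000000020000000000000000000000000cd80006836e8109419400000000000000000000000000⟩
noncomputable def g5222_4 : GI := ⟨nat_lit 0, nat_lit 0, nat_lit 0, [⟨nat_lit 1, []⟩, ⟨nat_lit 2, [nat_lit 3]⟩, ⟨nat_lit 0, [nat_lit 3, nat_lit 2, nat_lit 1]⟩], nat_lit 0x34410000020800001c8000000820000282030200fa000400294a040308a50801940000cf001878d0200000000000⟩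
noncomputable def g5222_5 : GI := ⟨nat_lit 0, nat_lit 0, nat_lit 0, [⟨nat_lit 1, []⟩, ⟨nat_lit 2, [nat_lit 3]⟩, ⟨nat_lit 0, [nat_lit 2, nat_lit 3, nat_lit 1]⟩], nat_lit 0x720000002080000d104000008200000000000000a000004292a12803e350340000000d008197890000000000000⟩
noncomputable def g5222_6 : GI := ⟨nat_lit 0, nat_lit 0, nat_lit 0, [⟨nat_lit 2, []⟩, ⟨nat_lit 1, [nat_lit 3]⟩, ⟨nat_lit 0, [nat_lit 3, nat_lit 2, nat_lit 1]⟩], nat_lit 0x37000c82a20800007cc0f182b6a001007300460020800008702202006c010101940000cb04093a40300000204080⟩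
noncomputable def g5222_7 : GI := ⟨nat_lit 0, nat_lit 0, nat_lit 0, [⟨nat_lit 2, []⟩, ⟨nat_lit 1, [nat_lit 3]⟩, ⟨nat_lit 0, [nat_lit 1, nat_lit 3, nat_lit 2]⟩], nat_lit 0x35306420a208000000000000028000034410000020800005f80004036801000100000071a4005040200000000000⟩
noncomputable def g5222_8 : GI := ⟨nat_lit 0, nat_lit 0, nat_lit 0, [⟨nat_lit 3, []⟩, ⟨nat_lit 1, [nat_lit 2]⟩, ⟨nat_lit 0, [nat_lit 3, nat_lit 2, nat_lit 1]⟩], nat_lit 0x2c203820afa00040d4c0328a882000035306a60a208000050c0014000c9102008400400404006080000000000000⟩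
noncomputable def g5222_9 : GI := ⟨nat_lit 0, nat_lit 0, nat_lit 0, [⟨nat_lit 3, []⟩, ⟨nat_lit 1, [nat_lit 2]⟩, ⟨nat_lit 0, [nat_lit 3, nat_lit 1, nat_lit 2]⟩], nat_lit 0x4000800a0a00000d4c1a982882000035300ca2a20800004002012807a9101409400008000012080000000000000⟩
noncomputable def g5222_10 : GI := ⟨nat_lit 0, nat_lit 0, nat_lit 0, [⟨nat_lit 1, []⟩, ⟨nat_lit 2, []⟩, ⟨nat_lit 3, []⟩, ⟨nat_lit 0, [nat_lit 3, nat_lit 2, nat_lit 1]⟩], nat_lit 0x195102a2a104004060400a8a8c300102f00640001040040de02016830e9001419400009404006000000000000000⟩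
noncomputable def g5222_11 : GI := ⟨nat_lit 0, nat_lit 0, nat_lit 0, [⟨nat_lit 1, []⟩, ⟨nat_lit 2, []⟩, ⟨nat_lit 3, []⟩, ⟨nat_lit 0, [nat_lit 2, nat_lit 3, nat_lit 1]⟩], nat_lit 0x1f3002a2a1040040b4400a8a8c3001002205e200ea40000ca02812803c34014184004073081918d0000000000000⟩
noncomputable def g5222_12 : GI := ⟨nat_lit 0, nat_lit 0, nat_lit 0, [⟨nat_lit 1, []⟩, ⟨nat_lit 2, []⟩, ⟨nat_lit 3, []⟩, ⟨nat_lit 0, [nat_lit 3, nat_lit 1, nat_lit 2]⟩], nat_lit 0x35713a820ea4000068c039828c300102d200e00010400408890200027a010a018400409404004080000000000000⟩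
noncomputable def g5222_13 : GI := ⟨nat_lit 0, nat_lit 0, nat_lit 0, [⟨nat_lit 1, []⟩, ⟨nat_lit 2, []⟩, ⟨nat_lit 3, []⟩, ⟨nat_lit 0, [nat_lit 1, nat_lit 3, nat_lit 2]⟩], nat_lit 0x2613a00acac0000d480e882b2b00001a100e20010400401dc421483008103008400403aa41050c0300000104080⟩
noncomputable def g5222_14 : GI := ⟨nat_lit 0, nat_lit 0, nat_lit 0, [⟨nat_lit 1, []⟩, ⟨nat_lit 2, []⟩, ⟨nat_lit 1, [nat_lit 3]⟩, ⟨nat_lit 0, [nat_lit 3, nat_lit 2]⟩], nat_lit 0x23044a0000000005881d08014100003411002002080000055600200240100419400000e00094080100000104080⟩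
noncomputable def g5222_15 : GI := ⟨nat_lit 0, nat_lit 0, nat_lit 0, [⟨nat_lit 1, []⟩, ⟨nat_lit 2, []⟩, ⟨nat_lit 2, [nat_lit 3]⟩, ⟨nat_lit 0, [nat_lit 3, nat_lit 1]⟩], nat_lit 0x2560000000000000d0040000082000014107a40050400000890010016a1108008400404404000000000000000000⟩
noncomputable def g5222_16 : GI := ⟨nat_lit 0, nat_lit 0, nat_lit 0, [⟨nat_lit 1, []⟩, ⟨nat_lit 3, []⟩, ⟨nat_lit 1, [nat_lit 2]⟩, ⟨nat_lit 0, [nat_lit 3, nat_lit 2]⟩], nat_lit 0x162074200504000008c1038000000000000006200000000d8d4006027c0008409400001f00090080100000104080⟩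
noncomputable def G5222 : List GI := [g5222_0, g5222_1, g5222_2, g5222_3, g5222_4, g5222_5, g5222_6, g5222_7, g5222_8, g5222_9, g5222_10, g5222_11, g5222_12, g5222_13, g5222_14, g5222_15, g5222_16]

noncomputable def g4322_0 : GI := ⟨nat_lit 0, nat_lit 0, nat_lit 1, [⟨nat_lit 0, [nat_lit 3, nat_lit 2, nat_lit 0, nat_lit 3, nat_lit 1, nat_lit 2]⟩], nat_lit 0xd4800080082000002200020000000000000e0000010000013428180038800c04400102e6a0202a00400000c10200000000000000000000000000000000000000000000000000000000000000000000000000000000000000000000000000000000000000000000000000000000000000000000000000000000000000000⟩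
noncomputable def g4322_1 : GI := ⟨nat_lit 1, nat_lit 0, nat_lit 1, [⟨nat_lit 0, [nat_lit 3, nat_lit 2, nat_lit 0, nat_lit 3, nat_lit 1, nat_lit 2]⟩], nat_lit 0x800284804420004020000000000140482210002010000000bbc65c64274d02640e3369ae14827591a88f055402c88000e062ce526a188000c6140a010200000104220000c5020000000000000000000⟩
noncomputable def g4322_2 : GI := ⟨nat_lit 0, nat_lit 0, nat_lit 1, [⟨nat_lit 2, []⟩, ⟨nat_lit 0, [nat_lit 3, nat_lit 1, nat_lit 0, nat_lit 3, nat_lit 2]⟩], nat_lit 0xd4800082882000002303e60a80c0000088000000000000134020080942c00c0040010382b0242b00c00000c10200000000000000000000000000000000000000000000000000000000000000000000000000000000000000000000000000000000000000000000000000000000000000000000000000000000000000000⟩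
noncomputable def g4322_3 : GI := ⟨nat_lit 1, nat_lit 0, nat_lit 1, [⟨nat_lit 2, []⟩, ⟨nat_lit 0, [nat_lit 3, nat_lit 1, nat_lit 0, nat_lit 3, nat_lit 2]⟩], nat_lit 0x28450442000402000000040014a5015c000263001800027540e40206940a5493066853a86b10f608022608dc88000c6a2105075600000c7800000000000001e2c000080000000000000000000000⟩
noncomputable def g4322_4 : GI := ⟨nat_lit 0, nat_lit 0, nat_lit 1, [⟨nat_lit 0, [nat_lit 3, nat_lit 2]⟩, ⟨nat_lit 0, [nat_lit 3, nat_lit 2, nat_lit 1]⟩], nat_lit 0x70406a0086a000022001a8023a000009c0138021410010146188120d80400c04000002300045eb00c00000810200000000000000000000000000000000000000000000000000000000000000000000000000000000000000000000000000000000000000000000000000000000000000000000000000000000000000000⟩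
noncomputable def g4322_5 : GI := ⟨nat_lit 1, nat_lit 0, nat_lit 1, [⟨nat_lit 0, [nat_lit 3, nat_lit 2]⟩, ⟨nat_lit 0, [nat_lit 3, nat_lit 2, nat_lit 1]⟩], nat_lit 0x1200244b579f920741e2ddf07fc21b052bcfc903a0f16ef83c1c06f782c980ddd7f164b8e72c85de1a0c4dc5172c8880064a68e5793022415bd1009d28a85bc2d029d9dfce300ed0039800e02020301e⟩
noncomputable def g4322_6 : GI := ⟨nat_lit 0, nat_lit 0, nat_lit 1, [⟨nat_lit 0, [nat_lit 3, nat_lit 2]⟩, ⟨nat_lit 0, [nat_lit 3, nat_lit 1, nat_lit 2]⟩], nat_lit 0x12b0000000002030706023a000009c010a8a14100102420804a003a042502500003a41004e900800000000000000000000000000000000000000000000000000000000000000000000000000000000000000000000000000000000000000000000000000000000000000000000000000000000000000000000000000⟩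
noncomputable def g4322_7 : GI := ⟨nat_lit 1, nat_lit 0, nat_lit 1, [⟨nat_lit 0, [nat_lit 3, nat_lit 2]⟩, ⟨nat_lit 0, [nat_lit 3, nat_lit 1, nat_lit 2]⟩], nat_lit 0x20000071845e120440e030301dc00e383bc3c003818176e03cad0e268010e4d014ba05f2a20acc49f984c27200f40000066829e05355000008430014110000001273b20ed044201c529f000000000000⟩
noncomputable def g4322_8 : GI := ⟨nat_lit 0, nat_lit 0, nat_lit 0, [⟨nat_lit 1, []⟩, ⟨nat_lit 2, [nat_lit 3]⟩, ⟨nat_lit 1, [nat_lit 1, nat_lit 3, nat_lit 2]⟩], nat_lit 0x3400008200000000000000001a0000410000000000000000082d60000100042d040800000068284000000800000000000000000008084280a00000008200220004110a02800000840220000020000010⟩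
noncomputable def g4322_9 : GI := ⟨nat_lit 0, nat_lit 0, nat_lit 0, [⟨nat_lit 2, []⟩, ⟨nat_lit 1, [nat_lit 3]⟩, ⟨nat_lit 1, [nat_lit 1, nat_lit 3, nat_lit 2]⟩], nat_lit 0x20000010c0000000000000000000000005000000000000000cfc6a0401c0002002480000000a0000014000000000000000000000080000040004000204092a0000000000008000800000000000000400⟩
noncomputable def g4322_10 : GI := ⟨nat_lit 0, nat_lit 0, nat_lit 0, [⟨nat_lit 1, []⟩, ⟨nat_lit 1, [nat_lit 3, nat_lit 2]⟩, ⟨nat_lit 1, [nat_lit 2, nat_lit 3]⟩], nat_lit 0x1400000000000000000000000a0000000000000000000000056c2a0283000000000000000258a80a00000000000000000000000008084280a00400008601220004110a820080028042a000c120400010⟩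
noncomputable def g4322_11 : GI := ⟨nat_lit 0, nat_lit 0, nat_lit 0, [⟨nat_lit 1, [nat_lit 2]⟩, ⟨nat_lit 1, [nat_lit 3]⟩, ⟨nat_lit 1, [nat_lit 3, nat_lit 2]⟩], nat_lit 0x2000009280080a0000000000100000084004050000000000050500140050c02d0200000002c0085a0e110a04000000000000000008000200a000000004092a8000110002808000880080004801201410⟩
noncomputable def g4322_12 : GI := ⟨nat_lit 0, nat_lit 0, nat_lit 0, [⟨nat_lit 1, []⟩, ⟨nat_lit 2, []⟩, ⟨nat_lit 3, []⟩, ⟨nat_lit 1, [nat_lit 1, nat_lit 3, nat_lit 2]⟩], nat_lit 0x10040012d2280000100000001202004869140000080000000859680000329000020800000032a00006450004000000080000000000084100a0000000820828a1001006020080008c0202200000280004⟩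
noncomputable def g4322_13 : GI := ⟨nat_lit 0, nat_lit 0, nat_lit 0, [⟨nat_lit 1, []⟩, ⟨nat_lit 2, []⟩, ⟨nat_lit 1, [nat_lit 3]⟩, ⟨nat_lit 1, [nat_lit 3, nat_lit 2]⟩], nat_lit 0x24040082b8a05a001000000002020008684000000800000001f16a00010a8028064800000020804a04000804000000080000000008000104a004000280002aa1000006000000000c0002204801281004⟩
noncomputable def g4322_14 : GI := ⟨nat_lit 0, nat_lit 0, nat_lit 0, [⟨nat_lit 1, []⟩, ⟨nat_lit 3, []⟩, ⟨nat_lit 1, [nat_lit 2]⟩, ⟨nat_lit 1, [nat_lit 3, nat_lit 2]⟩], nat_lit 0x10080010f0880000000000000a0000110c542d000000000005200014005ac02d064000000600081a0a100204000000000000000008084004000400020208020000100002008000800200004801001000⟩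
noncomputable def g4322_15 : GI := ⟨nat_lit 0, nat_lit 0, nat_lit 0, [⟨nat_lit 1, []⟩, ⟨nat_lit 1, [nat_lit 2]⟩, ⟨nat_lit 1, [nat_lit 3]⟩, ⟨nat_lit 2, [nat_lit 3]⟩], nat_lit 0x14044022a0080000100000001002205050040000080000000c38001280ca0025040000000682a80a05400a00000000080000000000084100a0000000820828a1001006020080008c0202200000280004⟩
noncomputable def g4322_16 : GI := ⟨nat_lit 0, nat_lit 0, nat_lit 0, [⟨nat_lit 1, []⟩, ⟨nat_lit 2, []⟩, ⟨nat_lit 3, []⟩, ⟨nat_lit 1, [nat_lit 2]⟩, ⟨nat_lit 1, [nat_lit 3]⟩], nat_lit 0x24040082b8a05a00100000000002205965402d00080000000520000001ba40280448000000c8a80a0e450004000000080000000008000104a004000280002aa1000006000000000c0002204801281004⟩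
noncomputable def G4322 : List GI := [g4322_0, g4322_1, g4322_2, g4322_3, g4322_4, g4322_5, g4322_6, g4322_7, g4322_8, g4322_9, g4322_10, g4322_11, g4322_12, g4322_13, g4322_14, g4322_15, g4322_16]

noncomputable def g3332_0 : GI := ⟨nat_lit 0, nat_lit 0, nat_lit 1, [⟨nat_lit 0, [nat_lit 2, nat_lit 3, nat_lit 2, nat_lit 1, nat_lit 3, nat_lit 2]⟩], nat_lit 0x100000802000004000000022100000000000000000000000d0200001a050b409000000036a210010002010000000200000000000000e10001000081004028410401848000002114a88800000a00050000000000000000000000000000000000000000000000000000000000000000000000000000000000000000000000000000000000000000000000000000000000000000000000000000000000000000⟩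
noncomputable def g3332_1 : GI := ⟨nat_lit 1, nat_lit 0, nat_lit 1, [⟨nat_lit 0, [nat_lit 2, nat_lit 3, nat_lit 2, nat_lit 1, nat_lit 3, nat_lit 2]⟩], nat_lit 0x20040010a0080000100000000000000000400000000000000c4862040328140d0008000000d08840054008040000000800000000098003800000000000080aa107010c009d38c1080022200020280414⟩
noncomputable def g3332_2 : GI := ⟨nat_lit 0, nat_lit 0, nat_lit 2, [⟨nat_lit 0, [nat_lit 3, nat_lit 1, nat_lit 2, nat_lit 1, nat_lit 3, nat_lit 1]⟩], nat_lit 0x20040010a0080000100000000000000000400000000000000c4862040328140d0008000000d08840054008040000000800000000080003800000000000080aa104010c008080000800222000202804140000000000000000000000000000000000000000000000000000000000000000000000000000000000000000000000000000000000000000000000000000000000000000000000000000000000000000000000000000000000000000000000000000000000000000000000000000000000000000000000000000000000000000000000000000000000000000000000000000000000000000000000000000000⟩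
noncomputable def g3332_3 : GI := ⟨nat_lit 1, nat_lit 0, nat_lit 2, [⟨nat_lit 0, [nat_lit 3, nat_lit 1, nat_lit 2, nat_lit 1, nat_lit 3, nat_lit 1]⟩], nat_lit 0x80028000442000402008000000014800201804023080000026000e000000000000202a841c04300274e304200088800080a0105312188100ca050340020000003422100150020100000002000000000⟩
noncomputable def g3332_4 : GI := ⟨nat_lit 0, nat_lit 1, nat_lit 2, [⟨nat_lit 0, [nat_lit 3, nat_lit 0, nat_lit 2, nat_lit 0, nat_lit 3, nat_lit 1]⟩], nat_lit 0x80028000442000402008000000014800201804023080000020000e000000000000202a8410043002020000200088800080a0105312188100ca0503400200000034221001500201000000020000000000000000000000000000000000000000000000000000000000000000000000000000000000000000000000000000000000000000000000000000000000000000000000000000000000000000000000000000000000000000000000000000000000000000000000000000000000000000000000000000000000000000000000000000000000000000000000000000000000000000000000000000000000000000⟩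
noncomputable def g3332_5 : GI := ⟨nat_lit 1, nat_lit 1, nat_lit 2, [⟨nat_lit 0, [nat_lit 3, nat_lit 0, nat_lit 2, nat_lit 0, nat_lit 3, nat_lit 1]⟩], nat_lit 0x2000a000110800100802000000005200080601008c200000098003800000000000080aa107010c009d38c1080022200020280414c4862040328140d0008000000d088400540080400000008000000000000000000000000000000000000000000000000000000000000000000000000000000000000000000000000000000000000000000000000000000000000000000000000000000000000000000000000⟩
noncomputable def g3332_6 : GI := ⟨nat_lit 0, nat_lit 0, nat_lit 1, [⟨nat_lit 2, [nat_lit 3]⟩, ⟨nat_lit 0, [nat_lit 2, nat_lit 3, nat_lit 1, nat_lit 2]⟩], nat_lit 0x8011000268016800400000006a00004111503400200000001185205a0ba900b40120000008e2814019502800000000200000000020000c00000000000824288410003002000000100088800480204050000000000000000000000000000000000000000000000000000000000000000000000000000000000000000000000000000000000000000000000000000000000000000000000000000000000000000⟩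
noncomputable def g3332_7 : GI := ⟨nat_lit 1, nat_lit 0, nat_lit 1, [⟨nat_lit 2, [nat_lit 3]⟩, ⟨nat_lit 0, [nat_lit 2, nat_lit 3, nat_lit 1, nat_lit 2]⟩], nat_lit 0x4040038c295f284131c30001a0000183cd00d20580800000f15015383bb460d814fcb6c0232a050c7140a60000018080060000032e5035c0b0d48161f0541291573f71fa260d6d95f622030c0891414⟩
noncomputable def g3332_8 : GI := ⟨nat_lit 0, nat_lit 0, nat_lit 2, [⟨nat_lit 1, [nat_lit 3]⟩, ⟨nat_lit 0, [nat_lit 1, nat_lit 3, nat_lit 2, nat_lit 1]⟩], nat_lit 0x200440009a005a00100000001a80001044540d00080000000461481682ea402d004800000238a05006540a000000000800000000080003000000000002090a2104000c008000000400222001200810140000000000000000000000000000000000000000000000000000000000000000000000000000000000000000000000000000000000000000000000000000000000000000000000000000000000000000000000000000000000000000000000000000000000000000000000000000000000000000000000000000000000000000000000000000000000000000000000000000000000000000000000000000000⟩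
noncomputable def g3332_9 : GI := ⟨nat_lit 1, nat_lit 0, nat_lit 2, [⟨nat_lit 1, [nat_lit 3]⟩, ⟨nat_lit 0, [nat_lit 1, nat_lit 3, nat_lit 2, nat_lit 1]⟩], nat_lit 0xb8024d25c37800e4103dc806110001201a08000100013580cb940d702c3520587c1504a455cfdc7e89835b657d8880c302245053c54054e0eed1836053f2db008ca81431c5029800000602001800000⟩
noncomputable def g3332_10 : GI := ⟨nat_lit 0, nat_lit 1, nat_lit 2, [⟨nat_lit 0, [nat_lit 3]⟩, ⟨nat_lit 0, [nat_lit 0, nat_lit 3, nat_lit 2, nat_lit 1]⟩], nat_lit 0x24021000001000444024e80011000000220004021081340020000c00000000000824288410003002000000100088800480204051185205a0ba900b40120000008e281401950280000000020000000000000000000000000000000000000000000000000000000000000000000000000000000000000000000000000000000000000000000000000000000000000000000000000000000000000000000000000000000000000000000000000000000000000000000000000000000000000000000000000000000000000000000000000000000000000000000000000000000000000000000000000000000000000000⟩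
noncomputable def g3332_11 : GI := ⟨nat_lit 1, nat_lit 1, nat_lit 2, [⟨nat_lit 0, [nat_lit 3]⟩, ⟨nat_lit 0, [nat_lit 0, nat_lit 3, nat_lit 2, nat_lit 1]⟩], nat_lit 0x2e00934970de0039040f7201844000480682000040004d6032e5035c0b0d48161f0541291573f71fa260d6d95f622030c0891414f15015383bb460d814fcb6c0232a050c7140a6000001808006000000000000000000000000000000000000000000000000000000000000000000000000000000000000000000000000000000000000000000000000000000000000000000000000000000000000000000000⟩
noncomputable def g3332_12 : GI := ⟨nat_lit 0, nat_lit 0, nat_lit 1, [⟨nat_lit 2, []⟩, ⟨nat_lit 3, []⟩, ⟨nat_lit 0, [nat_lit 2, nat_lit 3, nat_lit 1, nat_lit 2]⟩], nat_lit 0x4030028200000000400000000808014511503400200000002090a8100d2010340030000002c8816828120810000000320000000000000c10000000001000208410043208000002010a88802084200050000000000000000000000000000000000000000000000000000000000000000000000000000000000000000000000000000000000000000000000000000000000000000000000000000000000000000⟩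
noncomputable def g3332_13 : GI := ⟨nat_lit 1, nat_lit 0, nat_lit 1, [⟨nat_lit 2, []⟩, ⟨nat_lit 3, []⟩, ⟨nat_lit 0, [nat_lit 2, nat_lit 3, nat_lit 1, nat_lit 2]⟩], nat_lit 0x26342548bca7f204161ca4c180000031528562325a400000037941b0d20cc40a44c91650b4b604c34c3d321300077408006b0c050853a3420370d02058845f638ce0ad0d64743810a5f22034b889a855⟩
noncomputable def g3332_14 : GI := ⟨nat_lit 0, nat_lit 0, nat_lit 1, [⟨nat_lit 2, []⟩, ⟨nat_lit 2, [nat_lit 3]⟩, ⟨nat_lit 0, [nat_lit 3, nat_lit 1, nat_lit 2]⟩], nat_lit 0x5010008268016800400000004808004025500000200000003754081a05e140801900000019e0802830442810000000200000000020010e0000000000082402841004184802000a004a88842000a04050000000000000000000000000000000000000000000000000000000000000000000000000000000000000000000000000000000000000000000000000000000000000000000000000000000000000000⟩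
noncomputable def g3332_15 : GI := ⟨nat_lit 1, nat_lit 0, nat_lit 1, [⟨nat_lit 2, []⟩, ⟨nat_lit 2, [nat_lit 3]⟩, ⟨nat_lit 0, [nat_lit 3, nat_lit 1, nat_lit 2]⟩], nat_lit 0xc0424c938a5f2c0521c800010000057b2213d32b80e000001a447e3d29796c2c687f83eb6942ed6c05841b615055c0808080cc52621978c0f9c085a5c0dc6a11d7ac6102577df015ca22030c5391355⟩
noncomputable def g3332_16 : GI := ⟨nat_lit 0, nat_lit 0, nat_lit 2, [⟨nat_lit 1, []⟩, ⟨nat_lit 3, []⟩, ⟨nat_lit 0, [nat_lit 1, nat_lit 3, nat_lit 2, nat_lit 1]⟩], nat_lit 0x100c00a080000000100000000202005144540d000800000008242a040348040d000c000000b2205a0a0482040000000c8000000000000304000000000400082104010c820000008042a22008210800140000000000000000000000000000000000000000000000000000000000000000000000000000000000000000000000000000000000000000000000000000000000000000000000000000000000000000000000000000000000000000000000000000000000000000000000000000000000000000000000000000000000000000000000000000000000000000000000000000000000000000000000000000000⟩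
noncomputable def g3332_17 : GI := ⟨nat_lit 1, nat_lit 0, nat_lit 2, [⟨nat_lit 1, []⟩, ⟨nat_lit 3, []⟩, ⟨nat_lit 0, [nat_lit 1, nat_lit 3, nat_lit 2, nat_lit 1]⟩], nat_lit 0x3f84257200e5930e0d636ca06414053f7ee700061500048d0214e8d080dc3408162117d8e3382b43591d0e04297c880d2e226a154de506c34833102913245942d2d8130d30f4c84c001dd02001ac3014⟩
noncomputable def g3332_18 : GI := ⟨nat_lit 0, nat_lit 0, nat_lit 2, [⟨nat_lit 1, []⟩, ⟨nat_lit 1, [nat_lit 3]⟩, ⟨nat_lit 0, [nat_lit 3, nat_lit 2, nat_lit 1]⟩], nat_lit 0x140400209a005a00100000001202001009540000080000000dd5020681785020064000000678200a0c110a0400000008000000000800438000000000020900a1040106120080028012a22108002810140000000000000000000000000000000000000000000000000000000000000000000000000000000000000000000000000000000000000000000000000000000000000000000000000000000000000000000000000000000000000000000000000000000000000000000000000000000000000000000000000000000000000000000000000000000000000000000000000000000000000000000000000000000⟩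
noncomputable def g3332_19 : GI := ⟨nat_lit 1, nat_lit 0, nat_lit 2, [⟨nat_lit 1, []⟩, ⟨nat_lit 1, [nat_lit 3]⟩, ⟨nat_lit 0, [nat_lit 3, nat_lit 2, nat_lit 1]⟩], nat_lit 0xb802611a24580020903ec906410009e832180019201275c398865e303e70216970371a8475eb184095df7c05728880c314e44d546911f8f4a5e5b0b1a1fe0fada50bb5b016106d85415702020203314⟩
noncomputable def g3332_20 : GI := ⟨nat_lit 0, nat_lit 1, nat_lit 2, [⟨nat_lit 0, []⟩, ⟨nat_lit 3, []⟩, ⟨nat_lit 0, [nat_lit 0, nat_lit 3, nat_lit 2, nat_lit 1]⟩], nat_lit 0x28410000000406000000050004208220004021081340000000c10000000001000208410043208000002010a88802084200052090a8100d2010340030000002c881682812081000000032000000000000000000000000000000000000000000000000000000000000000000000000000000000000000000000000000000000000000000000000000000000000000000000000000000000000000000000000000000000000000000000000000000000000000000000000000000000000000000000000000000000000000000000000000000000000000000000000000000000000000000000000000000000000000⟩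
noncomputable def g3332_21 : GI := ⟨nat_lit 1, nat_lit 1, nat_lit 2, [⟨nat_lit 0, []⟩, ⟨nat_lit 3, []⟩, ⟨nat_lit 0, [nat_lit 0, nat_lit 3, nat_lit 2, nat_lit 1]⟩], nat_lit 0xfe1095c803964c38358db281905014fdfb9c0018540012340853a3420370d02058845f638ce0ad0d64743810a5f22034b889a85537941b0d20cc40a44c91650b4b604c34c3d321300077408006b0c050000000000000000000000000000000000000000000000000000000000000000000000000000000000000000000000000000000000000000000000000000000000000000000000000000000000000000⟩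
noncomputable def g3332_22 : GI := ⟨nat_lit 0, nat_lit 1, nat_lit 2, [⟨nat_lit 0, []⟩, ⟨nat_lit 0, [nat_lit 3]⟩, ⟨nat_lit 0, [nat_lit 3, nat_lit 2, nat_lit 1]⟩], nat_lit 0xa000100000100044402ce80050000800220804202093000020010e0000000000082402841004184802000a004a88842000a04053754081a05e140801900000019e080283044281000000020000000000000000000000000000000000000000000000000000000000000000000000000000000000000000000000000000000000000000000000000000000000000000000000000000000000000000000000000000000000000000000000000000000000000000000000000000000000000000000000000000000000000000000000000000000000000000000000000000000000000000000000000000000000000000⟩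
noncomputable def g3332_23 : GI := ⟨nat_lit 1, nat_lit 1, nat_lit 2, [⟨nat_lit 0, []⟩, ⟨nat_lit 0, [nat_lit 3]⟩, ⟨nat_lit 0, [nat_lit 3, nat_lit 2, nat_lit 1]⟩], nat_lit 0x2e00984689160008240fb2419040027a0c86000648049d70e621978c0f9c085a5c0dc6a11d7ac6102577df015ca22030c53913551a447e3d29796c2c687f83eb6942ed6c05841b615055c0808080cc50000000000000000000000000000000000000000000000000000000000000000000000000000000000000000000000000000000000000000000000000000000000000000000000000000000000000000⟩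
noncomputable def G3332 : List GI := [g3332_0, g3332_1, g3332_2, g3332_3, g3332_4, g3332_5, g3332_6, g3332_7, g3332_8, g3332_9, g3332_10, g3332_11, g3332_12, g3332_13, g3332_14, g3332_15, g3332_16, g3332_17, g3332_18, g3332_19, g3332_20, g3332_21, g3332_22, g3332_23]


noncomputable def al0000 : AT := .l (nat_lit 2) [⟨nat_lit 1003, [.tb (nat_lit 2) (nat_lit 0) N1000]⟩, ⟨nat_lit 1002, [.st I0, .tb (nat_lit 2) (nat_lit 0) N1000]⟩, ⟨nat_lit 1001, [.st I0, .tb (nat_lit 2) (nat_lit 0) N1000, .st S1000_2]⟩, ⟨nat_lit 1000, [.st I0, .tb (nat_lit 2) (nat_lit 0) N1000, .st S1000_2, .st S1000_3, .st S1000_2, .st S1000_2]⟩]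
noncomputable def AV0 : AT := al0000
noncomputable def al0001 : AT := .l (nat_lit 1000) [⟨nat_lit 2003, [.tb (nat_lit 2) (nat_lit 1) N1100, .st S1100_1]⟩, ⟨nat_lit 2001, [.st S1000_2, .tb (nat_lit 2) (nat_lit 1) N1100, .st S1100_1]⟩, ⟨nat_lit 2000, [.st S1000_3, .tb (nat_lit 2) (nat_lit 1) N1100, .st S1100_3, .st S1100_1]⟩, ⟨nat_lit 2, [.zr]⟩]
noncomputable def al0010 : AT := .l (nat_lit 1001) [⟨nat_lit 2004, [.tb (nat_lit 2) (nat_lit 1) N1100, .st S1100_1]⟩, ⟨nat_lit 2002, [.st S1000_2, .tb (nat_lit 2) (nat_lit 1) N1100, .st S1100_1]⟩, ⟨nat_lit 2, [.zr]⟩, ⟨nat_lit 2000, [.st S1000_3, .tb (nat_lit 2) (nat_lit 1) N1100, .st S1100_3]⟩]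
noncomputable def al0100 : AT := .l (nat_lit 1002) [⟨nat_lit 2005, [.tb (nat_lit 2) (nat_lit 1) N1100, .st S1100_1]⟩, ⟨nat_lit 2, [.zr]⟩, ⟨nat_lit 2002, [.st S1000_2, .tb (nat_lit 2) (nat_lit 1) N1100]⟩, ⟨nat_lit 2001, [.st S1000_3, .tb (nat_lit 2) (nat_lit 1) N1100, .st S1100_3]⟩]
noncomputable def al1000 : AT := .l (nat_lit 1003) [⟨nat_lit 2, [.zr]⟩, ⟨nat_lit 2005, [.tb (nat_lit 2) (nat_lit 1) N1100]⟩, ⟨nat_lit 2004, [.st S1000_2, .tb (nat_lit 2) (nat_lit 1) N1100]⟩, ⟨nat_lit 2003, [.st S1000_3, .tb (nat_lit 2) (nat_lit 1) N1100, .st S1100_3]⟩]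
noncomputable def AV1 : AT := .b (nat_lit 1002) (.b (nat_lit 1001) (al0001) (al0010)) (.b (nat_lit 1003) (al0100) (al1000))
noncomputable def al0011 : AT := .l (nat_lit 2000) [⟨nat_lit 3008, [.tb (nat_lit 4) (nat_lit 4) N1110, .st S1110_1, .st S1110_2, .st S1110_1, .st S1110_1]⟩, ⟨nat_lit 3003, [.st S1100_3, .tb (nat_lit 4) (nat_lit 4) N1110, .st S1110_1, .st S1110_2, .st S1110_1, .st S1110_1]⟩, ⟨nat_lit 3001, [.tb (nat_lit 4) (nat_lit 0) N2100]⟩, ⟨nat_lit 3000, [.st S1100_1, .tb (nat_lit 4) (nat_lit 0) N2100]⟩]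
noncomputable def al0101 : AT := .l (nat_lit 2001) [⟨nat_lit 3010, [.tb (nat_lit 4) (nat_lit 4) N1110, .st S1110_1, .st S1110_2, .st S1110_1, .st S1110_1]⟩, ⟨nat_lit 3005, [.tb (nat_lit 4) (nat_lit 0) N2100]⟩, ⟨nat_lit 3003, [.st S1100_3, .tb (nat_lit 4) (nat_lit 4) N1110, .st S1110_1, .st S1110_2, .st S1110_1]⟩, ⟨nat_lit 3002, [.st S1100_1, .tb (nat_lit 4) (nat_lit 0) N2100]⟩]
noncomputable def al0110 : AT := .l (nat_lit 2002) [⟨nat_lit 3011, [.tb (nat_lit 4) (nat_lit 4) N1110, .st S1110_1, .st S1110_2, .st S1110_1, .st S1110_1]⟩, ⟨nat_lit 3006, [.tb (nat_lit 4) (nat_lit 0) N2100]⟩, ⟨nat_lit 3004, [.st S1100_1, .tb (nat_lit 4) (nat_lit 0) N2100]⟩, ⟨nat_lit 3003, [.st S1100_3, .tb (nat_lit 4) (nat_lit 4) N1110]⟩]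
noncomputable def al1001 : AT := .l (nat_lit 2003) [⟨nat_lit 3013, [.tb (nat_lit 4) (nat_lit 0) N2100]⟩, ⟨nat_lit 3010, [.tb (nat_lit 4) (nat_lit 4) N1110, .st S1110_1, .st S1110_2, .st S1110_1]⟩, ⟨nat_lit 3008, [.st S1100_3, .tb (nat_lit 4) (nat_lit 4) N1110, .st S1110_1, .st S1110_2, .st S1110_1]⟩, ⟨nat_lit 3007, [.st S1100_1, .tb (nat_lit 4) (nat_lit 0) N2100]⟩]
noncomputable def al1010 : AT := .l (nat_lit 2004) [⟨nat_lit 3014, [.tb (nat_lit 4) (nat_lit 0) N2100]⟩, ⟨nat_lit 3011, [.tb (nat_lit 4) (nat_lit 4) N1110, .st S1110_1, .st S1110_2, .st S1110_1]⟩, ⟨nat_lit 3009, [.st S1100_1, .tb (nat_lit 4) (nat_lit 0) N2100]⟩, ⟨nat_lit 3008, [.st S1100_3, .tb (nat_lit 4) (nat_lit 4) N1110]⟩]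
noncomputable def al1100 : AT := .l (nat_lit 2005) [⟨nat_lit 3015, [.tb (nat_lit 4) (nat_lit 0) N2100]⟩, ⟨nat_lit 3012, [.st S1100_1, .tb (nat_lit 4) (nat_lit 0) N2100]⟩, ⟨nat_lit 3011, [.tb (nat_lit 4) (nat_lit 4) N1110]⟩, ⟨nat_lit 3010, [.st S1100_3, .tb (nat_lit 4) (nat_lit 4) N1110]⟩]
noncomputable def AV2 : AT := .b (nat_lit 2003) (.b (nat_lit 2001) (al0011) (.b (nat_lit 2002) (al0101) (al0110))) (.b (nat_lit 2004) (al1001) (.b (nat_lit 2005) (al1010) (al1100)))
noncomputable def al0012 : AT := .l (nat_lit 3000) [⟨nat_lit 4003, [.tb (nat_lit 2) (nat_lit 7) N2110, .st S2110_2]⟩, ⟨nat_lit 4000, [.st S2100_3, .tb (nat_lit 2) (nat_lit 7) N2110, .st S2110_2]⟩, ⟨nat_lit 2, [.zr]⟩, ⟨nat_lit 1, []⟩]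
noncomputable def al0021 : AT := .l (nat_lit 3001) [⟨nat_lit 4004, [.tb (nat_lit 2) (nat_lit 7) N2110, .st S2110_2]⟩, ⟨nat_lit 4001, [.st S2100_3, .tb (nat_lit 2) (nat_lit 7) N2110, .st S2110_2]⟩, ⟨nat_lit 2, [.zr]⟩, ⟨nat_lit 2, [.zr]⟩]
noncomputable def al0102 : AT := .l (nat_lit 3002) [⟨nat_lit 4005, [.tb (nat_lit 2) (nat_lit 7) N2110, .st S2110_2]⟩, ⟨nat_lit 2, [.zr]⟩, ⟨nat_lit 4000, [.st S2100_3, .tb (nat_lit 2) (nat_lit 7) N2110]⟩, ⟨nat_lit 1, []⟩]
noncomputable def al0111 : AT := .l (nat_lit 3003) [⟨nat_lit 4006, [.tb (nat_lit 64) (nat_lit 18) N1111, .st S1111_2, .st S1111_3, .st S1111_2, .st S1111_1, .st S1111_2, .st S1111_1, .st S1111_1]⟩, ⟨nat_lit 4002, [.tb (nat_lit 64) (nat_lit 0) N2110]⟩, ⟨nat_lit 4001, [.st S1110_1, .tb (nat_lit 64) (nat_lit 0) N2110]⟩, ⟨nat_lit 4000, [.st S1110_2, .tb (nat_lit 64) (nat_lit 0) N2110, .st S2110_2]⟩]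
noncomputable def al0120 : AT := .l (nat_lit 3004) [⟨nat_lit 4007, [.tb (nat_lit 2) (nat_lit 7) N2110, .st S2110_2]⟩, ⟨nat_lit 2, [.zr]⟩, ⟨nat_lit 2, [.zr]⟩, ⟨nat_lit 4001, [.st S2100_3, .tb (nat_lit 2) (nat_lit 7) N2110]⟩]
noncomputable def al0201 : AT := .l (nat_lit 3005) [⟨nat_lit 4008, [.tb (nat_lit 2) (nat_lit 7) N2110, .st S2110_2]⟩, ⟨nat_lit 2, [.zr]⟩, ⟨nat_lit 4002, [.st S2100_3, .tb (nat_lit 2) (nat_lit 7) N2110, .st S2110_2]⟩, ⟨nat_lit 2, [.zr]⟩]
noncomputable def al0210 : AT := .l (nat_lit 3006) [⟨nat_lit 4009, [.tb (nat_lit 2) (nat_lit 7) N2110, .st S2110_2]⟩, ⟨nat_lit 2, [.zr]⟩, ⟨nat_lit 2, [.zr]⟩, ⟨nat_lit 4002, [.st S2100_3, .tb (nat_lit 2) (nat_lit 7) N2110]⟩]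
noncomputable def al1002 : AT := .l (nat_lit 3007) [⟨nat_lit 2, [.zr]⟩, ⟨nat_lit 4005, [.tb (nat_lit 2) (nat_lit 7) N2110]⟩, ⟨nat_lit 4003, [.st S2100_3, .tb (nat_lit 2) (nat_lit 7) N2110]⟩, ⟨nat_lit 1, []⟩]
noncomputable def al1011 : AT := .l (nat_lit 3008) [⟨nat_lit 4010, [.tb (nat_lit 64) (nat_lit 0) N2110]⟩, ⟨nat_lit 4006, [.tb (nat_lit 64) (nat_lit 18) N1111, .st S1111_2, .st S1111_3, .st S1111_2, .st S1111_1, .st S1111_2, .st S1111_1]⟩, ⟨nat_lit 4004, [.st S1110_1, .tb (nat_lit 64) (nat_lit 0) N2110]⟩, ⟨nat_lit 4003, [.st S1110_2, .tb (nat_lit 64) (nat_lit 0) N2110, .st S2110_2]⟩]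
noncomputable def al1020 : AT := .l (nat_lit 3009) [⟨nat_lit 2, [.zr]⟩, ⟨nat_lit 4007, [.tb (nat_lit 2) (nat_lit 7) N2110]⟩, ⟨nat_lit 2, [.zr]⟩, ⟨nat_lit 4004, [.st S2100_3, .tb (nat_lit 2) (nat_lit 7) N2110]⟩]
noncomputable def al1101 : AT := .l (nat_lit 3010) [⟨nat_lit 4011, [.tb (nat_lit 64) (nat_lit 0) N2110]⟩, ⟨nat_lit 4008, [.st S1110_1, .tb (nat_lit 64) (nat_lit 0) N2110]⟩, ⟨nat_lit 4006, [.tb (nat_lit 64) (nat_lit 18) N1111, .st S1111_2, .st S1111_3, .st S1111_2]⟩, ⟨nat_lit 4005, [.st S1110_2, .tb (nat_lit 64) (nat_lit 0) N2110, .st S2110_2]⟩]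
noncomputable def al1110 : AT := .l (nat_lit 3011) [⟨nat_lit 4012, [.tb (nat_lit 64) (nat_lit 0) N2110]⟩, ⟨nat_lit 4009, [.st S1110_1, .tb (nat_lit 64) (nat_lit 0) N2110]⟩, ⟨nat_lit 4007, [.st S1110_2, .tb (nat_lit 64) (nat_lit 0) N2110, .st S2110_2]⟩, ⟨nat_lit 4006, [.tb (nat_lit 64) (nat_lit 18) N1111]⟩]
noncomputable def al1200 : AT := .l (nat_lit 3012) [⟨nat_lit 2, [.zr]⟩, ⟨nat_lit 2, [.zr]⟩, ⟨nat_lit 4009, [.tb (nat_lit 2) (nat_lit 7) N2110]⟩, ⟨nat_lit 4008, [.st S2100_3, .tb (nat_lit 2) (nat_lit 7) N2110]⟩]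
noncomputable def al2001 : AT := .l (nat_lit 3013) [⟨nat_lit 2, [.zr]⟩, ⟨nat_lit 4011, [.tb (nat_lit 2) (nat_lit 7) N2110, .st S2110_2]⟩, ⟨nat_lit 4010, [.st S2100_3, .tb (nat_lit 2) (nat_lit 7) N2110, .st S2110_2]⟩, ⟨nat_lit 2, [.zr]⟩]
noncomputable def al2010 : AT := .l (nat_lit 3014) [⟨nat_lit 2, [.zr]⟩, ⟨nat_lit 4012, [.tb (nat_lit 2) (nat_lit 7) N2110, .st S2110_2]⟩, ⟨nat_lit 2, [.zr]⟩, ⟨nat_lit 4010, [.st S2100_3, .tb (nat_lit 2) (nat_lit 7) N2110]⟩]
noncomputable def al2100 : AT := .l (nat_lit 3015) [⟨nat_lit 2, [.zr]⟩, ⟨nat_lit 2, [.zr]⟩, ⟨nat_lit 4012, [.tb (nat_lit 2) (nat_lit 7) N2110]⟩, ⟨nat_lit 4011, [.st S2100_3, .tb (nat_lit 2) (nat_lit 7) N2110]⟩]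
noncomputable def AV3 : AT := .b (nat_lit 3008) (.b (nat_lit 3004) (.b (nat_lit 3002) (.b (nat_lit 3001) (al0012) (al0021)) (.b (nat_lit 3003) (al0102) (al0111))) (.b (nat_lit 3006) (.b (nat_lit 3005) (al0120) (al0201)) (.b (nat_lit 3007) (al0210) (al1002)))) (.b (nat_lit 3012) (.b (nat_lit 3010) (.b (nat_lit 3009) (al1011) (al1020)) (.b (nat_lit 3011) (al1101) (al1110))) (.b (nat_lit 3014) (.b (nat_lit 3013) (al1200) (al2001)) (.b (nat_lit 3015) (al2010) (al2100))))
noncomputable def al0112 : AT := .l (nat_lit 4000) [⟨nat_lit 5007, [.tb (nat_lit 64) (nat_lit 36) N2111, .st S2111_2, .st S2111_3, .st S2111_2, .st S2111_2]⟩, ⟨nat_lit 5002, [.tb (nat_lit 64) (nat_lit 6) N2210, .st S2210_1]⟩, ⟨nat_lit 5000, [.st S2110_2, .tb (nat_lit 64) (nat_lit 6) N2210, .st S2210_1]⟩, ⟨nat_lit 1, []⟩]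
noncomputable def al0121 : AT := .l (nat_lit 4001) [⟨nat_lit 5008, [.tb (nat_lit 64) (nat_lit 36) N2111, .st S2111_2, .st S2111_3, .st S2111_2, .st S2111_2]⟩, ⟨nat_lit 5003, [.tb (nat_lit 64) (nat_lit 6) N2210, .st S2210_1]⟩, ⟨nat_lit 5001, [.tb (nat_lit 64) (nat_lit 0) N3110]⟩, ⟨nat_lit 5000, [.st S2110_2, .tb (nat_lit 64) (nat_lit 6) N2210]⟩]
noncomputable def al0211 : AT := .l (nat_lit 4002) [⟨nat_lit 5011, [.tb (nat_lit 64) (nat_lit 36) N2111, .st S2111_2, .st S2111_3, .st S2111_2, .st S2111_2]⟩, ⟨nat_lit 5004, [.tb (nat_lit 64) (nat_lit 0) N3110]⟩, ⟨nat_lit 5003, [.tb (nat_lit 64) (nat_lit 6) N2210]⟩, ⟨nat_lit 5002, [.st S2110_2, .tb (nat_lit 64) (nat_lit 6) N2210]⟩]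
noncomputable def al1012 : AT := .l (nat_lit 4003) [⟨nat_lit 5015, [.tb (nat_lit 64) (nat_lit 6) N2210, .st S2210_1]⟩, ⟨nat_lit 5007, [.tb (nat_lit 64) (nat_lit 36) N2111, .st S2111_2, .st S2111_3, .st S2111_2]⟩, ⟨nat_lit 5005, [.st S2110_2, .tb (nat_lit 64) (nat_lit 6) N2210, .st S2210_1]⟩, ⟨nat_lit 1, []⟩]
noncomputable def al1021 : AT := .l (nat_lit 4004) [⟨nat_lit 5016, [.tb (nat_lit 64) (nat_lit 6) N2210, .st S2210_1]⟩, ⟨nat_lit 5008, [.tb (nat_lit 64) (nat_lit 36) N2111, .st S2111_2, .st S2111_3, .st S2111_2]⟩, ⟨nat_lit 5006, [.tb (nat_lit 64) (nat_lit 0) N3110]⟩, ⟨nat_lit 5005, [.st S2110_2, .tb (nat_lit 64) (nat_lit 6) N2210]⟩]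
noncomputable def al1102 : AT := .l (nat_lit 4005) [⟨nat_lit 5017, [.tb (nat_lit 64) (nat_lit 6) N2210, .st S2210_1]⟩, ⟨nat_lit 5010, [.st S2110_2, .tb (nat_lit 64) (nat_lit 6) N2210, .st S2210_1]⟩, ⟨nat_lit 5007, [.tb (nat_lit 64) (nat_lit 36) N2111]⟩, ⟨nat_lit 1, []⟩]
noncomputable def al1111 : AT := .l (nat_lit 4006) [⟨nat_lit 5018, [.tb (nat_lit 0x1000000) (nat_lit 0) N2111]⟩, ⟨nat_lit 5011, [.st S1111_1, .tb (nat_lit 0x1000000) (nat_lit 0) N2111]⟩, ⟨nat_lit 5008, [.st S1111_2, .tb (nat_lit 0x1000000) (nat_lit 0) N2111, .st S2111_2]⟩, ⟨nat_lit 5007, [.st S1111_3, .tb (nat_lit 0x1000000) (nat_lit 0) N2111, .st S2111_2, .st S2111_3, .st S2111_2, .st S2111_2]⟩]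
noncomputable def al1120 : AT := .l (nat_lit 4007) [⟨nat_lit 5019, [.tb (nat_lit 64) (nat_lit 6) N2210, .st S2210_1]⟩, ⟨nat_lit 5012, [.st S2110_2, .tb (nat_lit 64) (nat_lit 6) N2210, .st S2210_1]⟩, ⟨nat_lit 5009, [.tb (nat_lit 64) (nat_lit 0) N3110]⟩, ⟨nat_lit 5008, [.tb (nat_lit 64) (nat_lit 36) N2111]⟩]
noncomputable def al1201 : AT := .l (nat_lit 4008) [⟨nat_lit 5020, [.tb (nat_lit 64) (nat_lit 6) N2210, .st S2210_1]⟩, ⟨nat_lit 5013, [.tb (nat_lit 64) (nat_lit 0) N3110]⟩, ⟨nat_lit 5011, [.tb (nat_lit 64) (nat_lit 36) N2111, .st S2111_2, .st S2111_3, .st S2111_2]⟩, ⟨nat_lit 5010, [.st S2110_2, .tb (nat_lit 64) (nat_lit 6) N2210]⟩]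
noncomputable def al1210 : AT := .l (nat_lit 4009) [⟨nat_lit 5021, [.tb (nat_lit 64) (nat_lit 6) N2210, .st S2210_1]⟩, ⟨nat_lit 5014, [.tb (nat_lit 64) (nat_lit 0) N3110]⟩, ⟨nat_lit 5012, [.st S2110_2, .tb (nat_lit 64) (nat_lit 6) N2210]⟩, ⟨nat_lit 5011, [.tb (nat_lit 64) (nat_lit 36) N2111]⟩]
noncomputable def al2011 : AT := .l (nat_lit 4010) [⟨nat_lit 5022, [.tb (nat_lit 64) (nat_lit 0) N3110]⟩, ⟨nat_lit 5018, [.tb (nat_lit 64) (nat_lit 36) N2111, .st S2111_2, .st S2111_3, .st S2111_2, .st S2111_2]⟩, ⟨nat_lit 5016, [.tb (nat_lit 64) (nat_lit 6) N2210]⟩, ⟨nat_lit 5015, [.st S2110_2, .tb (nat_lit 64) (nat_lit 6) N2210]⟩]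
noncomputable def al2101 : AT := .l (nat_lit 4011) [⟨nat_lit 5023, [.tb (nat_lit 64) (nat_lit 0) N3110]⟩, ⟨nat_lit 5020, [.tb (nat_lit 64) (nat_lit 6) N2210]⟩, ⟨nat_lit 5018, [.tb (nat_lit 64) (nat_lit 36) N2111, .st S2111_2, .st S2111_3, .st S2111_2]⟩, ⟨nat_lit 5017, [.st S2110_2, .tb (nat_lit 64) (nat_lit 6) N2210]⟩]
noncomputable def al2110 : AT := .l (nat_lit 4012) [⟨nat_lit 5024, [.tb (nat_lit 64) (nat_lit 0) N3110]⟩, ⟨nat_lit 5021, [.tb (nat_lit 64) (nat_lit 6) N2210]⟩, ⟨nat_lit 5019, [.st S2110_2, .tb (nat_lit 64) (nat_lit 6) N2210]⟩, ⟨nat_lit 5018, [.tb (nat_lit 64) (nat_lit 36) N2111]⟩]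
noncomputable def AV4 : AT := .b (nat_lit 4006) (.b (nat_lit 4003) (.b (nat_lit 4001) (al0112) (.b (nat_lit 4002) (al0121) (al0211))) (.b (nat_lit 4004) (al1012) (.b (nat_lit 4005) (al1021) (al1102)))) (.b (nat_lit 4009) (.b (nat_lit 4007) (al1111) (.b (nat_lit 4008) (al1120) (al1201))) (.b (nat_lit 4011) (.b (nat_lit 4010) (al1210) (al2011)) (.b (nat_lit 4012) (al2101) (al2110))))
noncomputable def al0122 : AT := .l (nat_lit 5000) [⟨nat_lit 6006, [.tb (nat_lit 64) (nat_lit 78) N2211, .st S2211_3]⟩, ⟨nat_lit 6001, [.tb (nat_lit 64) (nat_lit 12) N2220, .st S2220_1, .st S2220_2, .st S2220_1, .st S2220_1]⟩, ⟨nat_lit 6000, [.tb (nat_lit 64) (nat_lit 0) N3210]⟩, ⟨nat_lit 1, []⟩]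
noncomputable def al0131 : AT := .l (nat_lit 5001) [⟨nat_lit 6007, [.tb (nat_lit 4) (nat_lit 40) N3111, .st S3111_2, .st S3111_3, .st S3111_2, .st S3111_2]⟩, ⟨nat_lit 6002, [.tb (nat_lit 4) (nat_lit 6) N3210]⟩, ⟨nat_lit 1, []⟩, ⟨nat_lit 6000, [.st S3110_2, .tb (nat_lit 4) (nat_lit 6) N3210]⟩]
noncomputable def al0212 : AT := .l (nat_lit 5002) [⟨nat_lit 6008, [.tb (nat_lit 64) (nat_lit 78) N2211, .st S2211_3]⟩, ⟨nat_lit 6003, [.tb (nat_lit 64) (nat_lit 0) N3210]⟩, ⟨nat_lit 6001, [.tb (nat_lit 64) (nat_lit 12) N2220, .st S2220_1, .st S2220_2, .st S2220_1]⟩, ⟨nat_lit 1, []⟩]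
noncomputable def al0221 : AT := .l (nat_lit 5003) [⟨nat_lit 6009, [.tb (nat_lit 64) (nat_lit 78) N2211, .st S2211_3]⟩, ⟨nat_lit 6004, [.tb (nat_lit 64) (nat_lit 0) N3210]⟩, ⟨nat_lit 6002, [.st S2210_1, .tb (nat_lit 64) (nat_lit 0) N3210]⟩, ⟨nat_lit 6001, [.tb (nat_lit 64) (nat_lit 12) N2220]⟩]
noncomputable def al0311 : AT := .l (nat_lit 5004) [⟨nat_lit 6012, [.tb (nat_lit 4) (nat_lit 40) N3111, .st S3111_2, .st S3111_3, .st S3111_2, .st S3111_2]⟩, ⟨nat_lit 1, []⟩, ⟨nat_lit 6004, [.tb (nat_lit 4) (nat_lit 6) N3210]⟩, ⟨nat_lit 6003, [.st S3110_2, .tb (nat_lit 4) (nat_lit 6) N3210]⟩]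
noncomputable def al1022 : AT := .l (nat_lit 5005) [⟨nat_lit 6014, [.tb (nat_lit 64) (nat_lit 12) N2220, .st S2220_1, .st S2220_2, .st S2220_1, .st S2220_1]⟩, ⟨nat_lit 6006, [.tb (nat_lit 64) (nat_lit 78) N2211]⟩, ⟨nat_lit 6005, [.tb (nat_lit 64) (nat_lit 0) N3210]⟩, ⟨nat_lit 1, []⟩]
noncomputable def al1031 : AT := .l (nat_lit 5006) [⟨nat_lit 6015, [.tb (nat_lit 4) (nat_lit 6) N3210]⟩, ⟨nat_lit 6007, [.tb (nat_lit 4) (nat_lit 40) N3111, .st S3111_2, .st S3111_3, .st S3111_2]⟩, ⟨nat_lit 1, []⟩, ⟨nat_lit 6005, [.st S3110_2, .tb (nat_lit 4) (nat_lit 6) N3210]⟩]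
noncomputable def al1112 : AT := .l (nat_lit 5007) [⟨nat_lit 6016, [.tb (nat_lit 0x1000000000) (nat_lit 36) N2211, .st S2211_1]⟩, ⟨nat_lit 6008, [.st S2111_2, .tb (nat_lit 0x1000000000) (nat_lit 36) N2211, .st S2211_1]⟩, ⟨nat_lit 6006, [.st S2111_3, .tb (nat_lit 0x1000000000) (nat_lit 36) N2211, .st S2211_3, .st S2211_1]⟩, ⟨nat_lit 1, []⟩]
noncomputable def al1121 : AT := .l (nat_lit 5008) [⟨nat_lit 6017, [.tb (nat_lit 0x1000000000) (nat_lit 36) N2211, .st S2211_1]⟩, ⟨nat_lit 6009, [.st S2111_2, .tb (nat_lit 0x1000000000) (nat_lit 36) N2211, .st S2211_1]⟩, ⟨nat_lit 6007, [.tb (nat_lit 0x1000000000) (nat_lit 0) N3111]⟩, ⟨nat_lit 6006, [.st S2111_3, .tb (nat_lit 0x1000000000) (nat_lit 36) N2211, .st S2211_3]⟩]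
noncomputable def al1130 : AT := .l (nat_lit 5009) [⟨nat_lit 6018, [.tb (nat_lit 4) (nat_lit 6) N3210]⟩, ⟨nat_lit 6010, [.st S3110_2, .tb (nat_lit 4) (nat_lit 6) N3210]⟩, ⟨nat_lit 1, []⟩, ⟨nat_lit 6007, [.tb (nat_lit 4) (nat_lit 40) N3111]⟩]
noncomputable def al1202 : AT := .l (nat_lit 5010) [⟨nat_lit 6019, [.tb (nat_lit 64) (nat_lit 12) N2220, .st S2220_1, .st S2220_2, .st S2220_1, .st S2220_1]⟩, ⟨nat_lit 6011, [.tb (nat_lit 64) (nat_lit 0) N3210]⟩, ⟨nat_lit 6008, [.tb (nat_lit 64) (nat_lit 78) N2211]⟩, ⟨nat_lit 1, []⟩]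
noncomputable def al1211 : AT := .l (nat_lit 5011) [⟨nat_lit 6020, [.tb (nat_lit 0x1000000000) (nat_lit 36) N2211, .st S2211_1]⟩, ⟨nat_lit 6012, [.tb (nat_lit 0x1000000000) (nat_lit 0) N3111]⟩, ⟨nat_lit 6009, [.st S2111_2, .tb (nat_lit 0x1000000000) (nat_lit 36) N2211]⟩, ⟨nat_lit 6008, [.st S2111_3, .tb (nat_lit 0x1000000000) (nat_lit 36) N2211, .st S2211_3]⟩]
noncomputable def al1220 : AT := .l (nat_lit 5012) [⟨nat_lit 6021, [.tb (nat_lit 64) (nat_lit 12) N2220, .st S2220_1, .st S2220_2, .st S2220_1, .st S2220_1]⟩, ⟨nat_lit 6013, [.tb (nat_lit 64) (nat_lit 0) N3210]⟩, ⟨nat_lit 6010, [.st S2210_1, .tb (nat_lit 64) (nat_lit 0) N3210]⟩, ⟨nat_lit 6009, [.tb (nat_lit 64) (nat_lit 78) N2211]⟩]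
noncomputable def al1301 : AT := .l (nat_lit 5013) [⟨nat_lit 6022, [.tb (nat_lit 4) (nat_lit 6) N3210]⟩, ⟨nat_lit 1, []⟩, ⟨nat_lit 6012, [.tb (nat_lit 4) (nat_lit 40) N3111, .st S3111_2, .st S3111_3, .st S3111_2]⟩, ⟨nat_lit 6011, [.st S3110_2, .tb (nat_lit 4) (nat_lit 6) N3210]⟩]
noncomputable def al1310 : AT := .l (nat_lit 5014) [⟨nat_lit 6023, [.tb (nat_lit 4) (nat_lit 6) N3210]⟩, ⟨nat_lit 1, []⟩, ⟨nat_lit 6013, [.st S3110_2, .tb (nat_lit 4) (nat_lit 6) N3210]⟩, ⟨nat_lit 6012, [.tb (nat_lit 4) (nat_lit 40) N3111]⟩]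
noncomputable def al2012 : AT := .l (nat_lit 5015) [⟨nat_lit 6024, [.tb (nat_lit 64) (nat_lit 0) N3210]⟩, ⟨nat_lit 6016, [.tb (nat_lit 64) (nat_lit 78) N2211, .st S2211_3]⟩, ⟨nat_lit 6014, [.tb (nat_lit 64) (nat_lit 12) N2220, .st S2220_1, .st S2220_2, .st S2220_1]⟩, ⟨nat_lit 1, []⟩]
noncomputable def al2021 : AT := .l (nat_lit 5016) [⟨nat_lit 6025, [.tb (nat_lit 64) (nat_lit 0) N3210]⟩, ⟨nat_lit 6017, [.tb (nat_lit 64) (nat_lit 78) N2211, .st S2211_3]⟩, ⟨nat_lit 6015, [.st S2210_1, .tb (nat_lit 64) (nat_lit 0) N3210]⟩, ⟨nat_lit 6014, [.tb (nat_lit 64) (nat_lit 12) N2220]⟩]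
noncomputable def al2102 : AT := .l (nat_lit 5017) [⟨nat_lit 6026, [.tb (nat_lit 64) (nat_lit 0) N3210]⟩, ⟨nat_lit 6019, [.tb (nat_lit 64) (nat_lit 12) N2220, .st S2220_1, .st S2220_2, .st S2220_1]⟩, ⟨nat_lit 6016, [.tb (nat_lit 64) (nat_lit 78) N2211]⟩, ⟨nat_lit 1, []⟩]
noncomputable def al2111 : AT := .l (nat_lit 5018) [⟨nat_lit 6027, [.tb (nat_lit 0x1000000000) (nat_lit 0) N3111]⟩, ⟨nat_lit 6020, [.tb (nat_lit 0x1000000000) (nat_lit 36) N2211]⟩, ⟨nat_lit 6017, [.st S2111_2, .tb (nat_lit 0x1000000000) (nat_lit 36) N2211]⟩, ⟨nat_lit 6016, [.st S2111_3, .tb (nat_lit 0x1000000000) (nat_lit 36) N2211, .st S2211_3]⟩]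
noncomputable def al2120 : AT := .l (nat_lit 5019) [⟨nat_lit 6028, [.tb (nat_lit 64) (nat_lit 0) N3210]⟩, ⟨nat_lit 6021, [.tb (nat_lit 64) (nat_lit 12) N2220, .st S2220_1, .st S2220_2, .st S2220_1]⟩, ⟨nat_lit 6018, [.st S2210_1, .tb (nat_lit 64) (nat_lit 0) N3210]⟩, ⟨nat_lit 6017, [.tb (nat_lit 64) (nat_lit 78) N2211]⟩]
noncomputable def al2201 : AT := .l (nat_lit 5020) [⟨nat_lit 6029, [.tb (nat_lit 64) (nat_lit 0) N3210]⟩, ⟨nat_lit 6022, [.st S2210_1, .tb (nat_lit 64) (nat_lit 0) N3210]⟩, ⟨nat_lit 6020, [.tb (nat_lit 64) (nat_lit 78) N2211, .st S2211_3]⟩, ⟨nat_lit 6019, [.tb (nat_lit 64) (nat_lit 12) N2220]⟩]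
noncomputable def al2210 : AT := .l (nat_lit 5021) [⟨nat_lit 6030, [.tb (nat_lit 64) (nat_lit 0) N3210]⟩, ⟨nat_lit 6023, [.st S2210_1, .tb (nat_lit 64) (nat_lit 0) N3210]⟩, ⟨nat_lit 6021, [.tb (nat_lit 64) (nat_lit 12) N2220]⟩, ⟨nat_lit 6020, [.tb (nat_lit 64) (nat_lit 78) N2211]⟩]
noncomputable def al3011 : AT := .l (nat_lit 5022) [⟨nat_lit 2, [.zr]⟩, ⟨nat_lit 6027, [.tb (nat_lit 4) (nat_lit 40) N3111, .st S3111_2, .st S3111_3, .st S3111_2, .st S3111_2]⟩, ⟨nat_lit 6025, [.tb (nat_lit 4) (nat_lit 6) N3210]⟩, ⟨nat_lit 6024, [.st S3110_2, .tb (nat_lit 4) (nat_lit 6) N3210]⟩]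
noncomputable def al3101 : AT := .l (nat_lit 5023) [⟨nat_lit 2, [.zr]⟩, ⟨nat_lit 6029, [.tb (nat_lit 4) (nat_lit 6) N3210]⟩, ⟨nat_lit 6027, [.tb (nat_lit 4) (nat_lit 40) N3111, .st S3111_2, .st S3111_3, .st S3111_2]⟩, ⟨nat_lit 6026, [.st S3110_2, .tb (nat_lit 4) (nat_lit 6) N3210]⟩]
noncomputable def al3110 : AT := .l (nat_lit 5024) [⟨nat_lit 2, [.zr]⟩, ⟨nat_lit 6030, [.tb (nat_lit 4) (nat_lit 6) N3210]⟩, ⟨nat_lit 6028, [.st S3110_2, .tb (nat_lit 4) (nat_lit 6) N3210]⟩, ⟨nat_lit 6027, [.tb (nat_lit 4) (nat_lit 40) N3111]⟩]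
noncomputable def AV5 : AT := .b (nat_lit 5012) (.b (nat_lit 5006) (.b (nat_lit 5003) (.b (nat_lit 5001) (al0122) (.b (nat_lit 5002) (al0131) (al0212))) (.b (nat_lit 5004) (al0221) (.b (nat_lit 5005) (al0311) (al1022)))) (.b (nat_lit 5009) (.b (nat_lit 5007) (al1031) (.b (nat_lit 5008) (al1112) (al1121))) (.b (nat_lit 5010) (al1130) (.b (nat_lit 5011) (al1202) (al1211))))) (.b (nat_lit 5018) (.b (nat_lit 5015) (.b (nat_lit 5013) (al1220) (.b (nat_lit 5014) (al1301) (al1310))) (.b (nat_lit 5016) (al2012) (.b (nat_lit 5017) (al2021) (al2102)))) (.b (nat_lit 5021) (.b (nat_lit 5019) (al2111) (.b (nat_lit 5020) (al2120) (al2201))) (.b (nat_lit 5023) (.b (nat_lit 5022) (al2210) (al3011)) (.b (nat_lit 5024) (al3101) (al3110)))))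
noncomputable def al0132 : AT := .l (nat_lit 6000) [⟨nat_lit 7002, [.tb (nat_lit 8) (nat_lit 87) N3211, .st S3211_3]⟩, ⟨nat_lit 7000, [.tb (nat_lit 8) (nat_lit 15) N3220, .st S3220_2]⟩, ⟨nat_lit 1, []⟩, ⟨nat_lit 1, []⟩]
noncomputable def al0222 : AT := .l (nat_lit 6001) [⟨nat_lit 7003, [.tb (nat_lit 4096) (nat_lit 180) N2221]⟩, ⟨nat_lit 7001, [.tb (nat_lit 4096) (nat_lit 0) N3220]⟩, ⟨nat_lit 7000, [.st S2220_1, .tb (nat_lit 4096) (nat_lit 0) N3220]⟩, ⟨nat_lit 1, []⟩]
noncomputable def al0231 : AT := .l (nat_lit 6002) [⟨nat_lit 7004, [.tb (nat_lit 8) (nat_lit 87) N3211, .st S3211_3]⟩, ⟨nat_lit 2, [.zr]⟩, ⟨nat_lit 1, []⟩, ⟨nat_lit 7000, [.tb (nat_lit 8) (nat_lit 15) N3220]⟩]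
noncomputable def al0312 : AT := .l (nat_lit 6003) [⟨nat_lit 7005, [.tb (nat_lit 8) (nat_lit 87) N3211, .st S3211_3]⟩, ⟨nat_lit 1, []⟩, ⟨nat_lit 7001, [.tb (nat_lit 8) (nat_lit 15) N3220, .st S3220_2]⟩, ⟨nat_lit 1, []⟩]
noncomputable def al0321 : AT := .l (nat_lit 6004) [⟨nat_lit 7006, [.tb (nat_lit 8) (nat_lit 87) N3211, .st S3211_3]⟩, ⟨nat_lit 1, []⟩, ⟨nat_lit 2, [.zr]⟩, ⟨nat_lit 7001, [.tb (nat_lit 8) (nat_lit 15) N3220]⟩]
noncomputable def al1032 : AT := .l (nat_lit 6005) [⟨nat_lit 7007, [.tb (nat_lit 8) (nat_lit 15) N3220, .st S3220_2]⟩, ⟨nat_lit 7002, [.tb (nat_lit 8) (nat_lit 87) N3211]⟩, ⟨nat_lit 1, []⟩, ⟨nat_lit 1, []⟩]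
noncomputable def al1122 : AT := .l (nat_lit 6006) [⟨nat_lit 7008, [.tb (nat_lit 0x1000000000000000) (nat_lit 120) N2221, .st S2221_1, .st S2221_2, .st S2221_1, .st S2221_1]⟩, ⟨nat_lit 7003, [.st S2211_3, .tb (nat_lit 0x1000000000000000) (nat_lit 120) N2221, .st S2221_1, .st S2221_2, .st S2221_1, .st S2221_1]⟩, ⟨nat_lit 7002, [.tb (nat_lit 0x1000000000000000) (nat_lit 0) N3211]⟩, ⟨nat_lit 1, []⟩]
noncomputable def al1131 : AT := .l (nat_lit 6007) [⟨nat_lit 7009, [.tb (nat_lit 0x1000000) (nat_lit 60) N3211]⟩, ⟨nat_lit 7004, [.st S3111_2, .tb (nat_lit 0x1000000) (nat_lit 60) N3211]⟩, ⟨nat_lit 1, []⟩, ⟨nat_lit 7002, [.st S3111_3, .tb (nat_lit 0x1000000) (nat_lit 60) N3211, .st S3211_3]⟩]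
noncomputable def al1212 : AT := .l (nat_lit 6008) [⟨nat_lit 7010, [.tb (nat_lit 0x1000000000000000) (nat_lit 120) N2221, .st S2221_1, .st S2221_2, .st S2221_1, .st S2221_1]⟩, ⟨nat_lit 7005, [.tb (nat_lit 0x1000000000000000) (nat_lit 0) N3211]⟩, ⟨nat_lit 7003, [.st S2211_3, .tb (nat_lit 0x1000000000000000) (nat_lit 120) N2221, .st S2221_1, .st S2221_2, .st S2221_1]⟩, ⟨nat_lit 1, []⟩]
noncomputable def al1221 : AT := .l (nat_lit 6009) [⟨nat_lit 7011, [.tb (nat_lit 0x1000000000000000) (nat_lit 120) N2221, .st S2221_1, .st S2221_2, .st S2221_1, .st S2221_1]⟩, ⟨nat_lit 7006, [.tb (nat_lit 0x1000000000000000) (nat_lit 0) N3211]⟩, ⟨nat_lit 7004, [.st S2211_1, .tb (nat_lit 0x1000000000000000) (nat_lit 0) N3211]⟩, ⟨nat_lit 7003, [.st S2211_3, .tb (nat_lit 0x1000000000000000) (nat_lit 120) N2221]⟩]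
noncomputable def al1230 : AT := .l (nat_lit 6010) [⟨nat_lit 7012, [.tb (nat_lit 8) (nat_lit 15) N3220, .st S3220_2]⟩, ⟨nat_lit 2, [.zr]⟩, ⟨nat_lit 1, []⟩, ⟨nat_lit 7004, [.tb (nat_lit 8) (nat_lit 87) N3211]⟩]
noncomputable def al1302 : AT := .l (nat_lit 6011) [⟨nat_lit 7013, [.tb (nat_lit 8) (nat_lit 15) N3220, .st S3220_2]⟩, ⟨nat_lit 1, []⟩, ⟨nat_lit 7005, [.tb (nat_lit 8) (nat_lit 87) N3211]⟩, ⟨nat_lit 1, []⟩]
noncomputable def al1311 : AT := .l (nat_lit 6012) [⟨nat_lit 7014, [.tb (nat_lit 0x1000000) (nat_lit 60) N3211]⟩, ⟨nat_lit 1, []⟩, ⟨nat_lit 7006, [.st S3111_2, .tb (nat_lit 0x1000000) (nat_lit 60) N3211]⟩, ⟨nat_lit 7005, [.st S3111_3, .tb (nat_lit 0x1000000) (nat_lit 60) N3211, .st S3211_3]⟩]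
noncomputable def al1320 : AT := .l (nat_lit 6013) [⟨nat_lit 7015, [.tb (nat_lit 8) (nat_lit 15) N3220, .st S3220_2]⟩, ⟨nat_lit 1, []⟩, ⟨nat_lit 2, [.zr]⟩, ⟨nat_lit 7006, [.tb (nat_lit 8) (nat_lit 87) N3211]⟩]
noncomputable def al2022 : AT := .l (nat_lit 6014) [⟨nat_lit 7016, [.tb (nat_lit 4096) (nat_lit 0) N3220]⟩, ⟨nat_lit 7008, [.tb (nat_lit 4096) (nat_lit 180) N2221]⟩, ⟨nat_lit 7007, [.st S2220_1, .tb (nat_lit 4096) (nat_lit 0) N3220]⟩, ⟨nat_lit 1, []⟩]
noncomputable def al2031 : AT := .l (nat_lit 6015) [⟨nat_lit 2, [.zr]⟩, ⟨nat_lit 7009, [.tb (nat_lit 8) (nat_lit 87) N3211, .st S3211_3]⟩, ⟨nat_lit 1, []⟩, ⟨nat_lit 7007, [.tb (nat_lit 8) (nat_lit 15) N3220]⟩]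
noncomputable def al2112 : AT := .l (nat_lit 6016) [⟨nat_lit 7017, [.tb (nat_lit 0x1000000000000000) (nat_lit 0) N3211]⟩, ⟨nat_lit 7010, [.tb (nat_lit 0x1000000000000000) (nat_lit 120) N2221, .st S2221_1, .st S2221_2, .st S2221_1]⟩, ⟨nat_lit 7008, [.st S2211_3, .tb (nat_lit 0x1000000000000000) (nat_lit 120) N2221, .st S2221_1, .st S2221_2, .st S2221_1]⟩, ⟨nat_lit 1, []⟩]
noncomputable def al2121 : AT := .l (nat_lit 6017) [⟨nat_lit 7018, [.tb (nat_lit 0x1000000000000000) (nat_lit 0) N3211]⟩, ⟨nat_lit 7011, [.tb (nat_lit 0x1000000000000000) (nat_lit 120) N2221, .st S2221_1, .st S2221_2, .st S2221_1]⟩, ⟨nat_lit 7009, [.st S2211_1, .tb (nat_lit 0x1000000000000000) (nat_lit 0) N3211]⟩, ⟨nat_lit 7008, [.st S2211_3, .tb (nat_lit 0x1000000000000000) (nat_lit 120) N2221]⟩]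
noncomputable def al2130 : AT := .l (nat_lit 6018) [⟨nat_lit 2, [.zr]⟩, ⟨nat_lit 7012, [.tb (nat_lit 8) (nat_lit 15) N3220]⟩, ⟨nat_lit 1, []⟩, ⟨nat_lit 7009, [.tb (nat_lit 8) (nat_lit 87) N3211]⟩]
noncomputable def al2202 : AT := .l (nat_lit 6019) [⟨nat_lit 7019, [.tb (nat_lit 4096) (nat_lit 0) N3220]⟩, ⟨nat_lit 7013, [.st S2220_1, .tb (nat_lit 4096) (nat_lit 0) N3220]⟩, ⟨nat_lit 7010, [.tb (nat_lit 4096) (nat_lit 180) N2221]⟩, ⟨nat_lit 1, []⟩]
noncomputable def al2211 : AT := .l (nat_lit 6020) [⟨nat_lit 7020, [.tb (nat_lit 0x1000000000000000) (nat_lit 0) N3211]⟩, ⟨nat_lit 7014, [.st S2211_1, .tb (nat_lit 0x1000000000000000) (nat_lit 0) N3211]⟩, ⟨nat_lit 7011, [.tb (nat_lit 0x1000000000000000) (nat_lit 120) N2221]⟩, ⟨nat_lit 7010, [.st S2211_3, .tb (nat_lit 0x1000000000000000) (nat_lit 120) N2221]⟩]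
noncomputable def al2220 : AT := .l (nat_lit 6021) [⟨nat_lit 7021, [.tb (nat_lit 4096) (nat_lit 0) N3220]⟩, ⟨nat_lit 7015, [.st S2220_1, .tb (nat_lit 4096) (nat_lit 0) N3220]⟩, ⟨nat_lit 7012, [.st S2220_2, .tb (nat_lit 4096) (nat_lit 0) N3220, .st S3220_2]⟩, ⟨nat_lit 7011, [.tb (nat_lit 4096) (nat_lit 180) N2221]⟩]
noncomputable def al2301 : AT := .l (nat_lit 6022) [⟨nat_lit 2, [.zr]⟩, ⟨nat_lit 1, []⟩, ⟨nat_lit 7014, [.tb (nat_lit 8) (nat_lit 87) N3211, .st S3211_3]⟩, ⟨nat_lit 7013, [.tb (nat_lit 8) (nat_lit 15) N3220]⟩]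
noncomputable def al2310 : AT := .l (nat_lit 6023) [⟨nat_lit 2, [.zr]⟩, ⟨nat_lit 1, []⟩, ⟨nat_lit 7015, [.tb (nat_lit 8) (nat_lit 15) N3220]⟩, ⟨nat_lit 7014, [.tb (nat_lit 8) (nat_lit 87) N3211]⟩]
noncomputable def al3012 : AT := .l (nat_lit 6024) [⟨nat_lit 7022, [.tb (nat_lit 8) (nat_lit 0) N4210]⟩, ⟨nat_lit 7017, [.tb (nat_lit 8) (nat_lit 87) N3211, .st S3211_3]⟩, ⟨nat_lit 7016, [.tb (nat_lit 8) (nat_lit 15) N3220, .st S3220_2]⟩, ⟨nat_lit 1, []⟩]
noncomputable def al3021 : AT := .l (nat_lit 6025) [⟨nat_lit 7023, [.tb (nat_lit 8) (nat_lit 0) N4210]⟩, ⟨nat_lit 7018, [.tb (nat_lit 8) (nat_lit 87) N3211, .st S3211_3]⟩, ⟨nat_lit 2, [.zr]⟩, ⟨nat_lit 7016, [.tb (nat_lit 8) (nat_lit 15) N3220]⟩]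
noncomputable def al3102 : AT := .l (nat_lit 6026) [⟨nat_lit 7024, [.tb (nat_lit 8) (nat_lit 0) N4210]⟩, ⟨nat_lit 7019, [.tb (nat_lit 8) (nat_lit 15) N3220, .st S3220_2]⟩, ⟨nat_lit 7017, [.tb (nat_lit 8) (nat_lit 87) N3211]⟩, ⟨nat_lit 1, []⟩]
noncomputable def al3111 : AT := .l (nat_lit 6027) [⟨nat_lit 7025, [.tb (nat_lit 0x1000000) (nat_lit 0) N4111]⟩, ⟨nat_lit 7020, [.tb (nat_lit 0x1000000) (nat_lit 60) N3211]⟩, ⟨nat_lit 7018, [.st S3111_2, .tb (nat_lit 0x1000000) (nat_lit 60) N3211]⟩, ⟨nat_lit 7017, [.st S3111_3, .tb (nat_lit 0x1000000) (nat_lit 60) N3211, .st S3211_3]⟩]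
noncomputable def al3120 : AT := .l (nat_lit 6028) [⟨nat_lit 7026, [.tb (nat_lit 8) (nat_lit 0) N4210]⟩, ⟨nat_lit 7021, [.tb (nat_lit 8) (nat_lit 15) N3220, .st S3220_2]⟩, ⟨nat_lit 2, [.zr]⟩, ⟨nat_lit 7018, [.tb (nat_lit 8) (nat_lit 87) N3211]⟩]
noncomputable def al3201 : AT := .l (nat_lit 6029) [⟨nat_lit 7027, [.tb (nat_lit 8) (nat_lit 0) N4210]⟩, ⟨nat_lit 2, [.zr]⟩, ⟨nat_lit 7020, [.tb (nat_lit 8) (nat_lit 87) N3211, .st S3211_3]⟩, ⟨nat_lit 7019, [.tb (nat_lit 8) (nat_lit 15) N3220]⟩]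
noncomputable def al3210 : AT := .l (nat_lit 6030) [⟨nat_lit 7028, [.tb (nat_lit 8) (nat_lit 0) N4210]⟩, ⟨nat_lit 2, [.zr]⟩, ⟨nat_lit 7021, [.tb (nat_lit 8) (nat_lit 15) N3220]⟩, ⟨nat_lit 7020, [.tb (nat_lit 8) (nat_lit 87) N3211]⟩]
noncomputable def AV6 : AT := .b (nat_lit 6015) (.b (nat_lit 6007) (.b (nat_lit 6003) (.b (nat_lit 6001) (al0132) (.b (nat_lit 6002) (al0222) (al0231))) (.b (nat_lit 6005) (.b (nat_lit 6004) (al0312) (al0321)) (.b (nat_lit 6006) (al1032) (al1122)))) (.b (nat_lit 6011) (.b (nat_lit 6009) (.b (nat_lit 6008) (al1131) (al1212)) (.b (nat_lit 6010) (al1221) (al1230))) (.b (nat_lit 6013) (.b (nat_lit 6012) (al1302) (al1311)) (.b (nat_lit 6014) (al1320) (al2022))))) (.b (nat_lit 6023) (.b (nat_lit 6019) (.b (nat_lit 6017) (.b (nat_lit 6016) (al2031) (al2112)) (.b (nat_lit 6018) (al2121) (al2130))) (.b (nat_lit 6021) (.b (nat_lit 6020) (al2202) (al2211)) (.b (nat_lit 6022) (al2220) (al2301)))) (.b (nat_lit 6027) (.b (nat_lit 6025) (.b (nat_lit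 6024) (al2310) (al3012)) (.b (nat_lit 6026) (al3021) (al3102))) (.b (nat_lit 6029) (.b (nat_lit 6028) (al3111) (al3120)) (.b (nat_lit 6030) (al3201) (al3210)))))
noncomputable def al0232 : AT := .l (nat_lit 7000) [⟨nat_lit 8001, [.tb (nat_lit 256) (nat_lit 238) N3221]⟩, ⟨nat_lit 8000, [.tb (nat_lit 256) (nat_lit 8) N3320, .st S3320_1]⟩, ⟨nat_lit 1, []⟩, ⟨nat_lit 1, []⟩]
noncomputable def al0322 : AT := .l (nat_lit 7001) [⟨nat_lit 8002, [.tb (nat_lit 256) (nat_lit 238) N3221]⟩, ⟨nat_lit 1, []⟩, ⟨nat_lit 8000, [.tb (nat_lit 256) (nat_lit 8) N3320]⟩, ⟨nat_lit 1, []⟩]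
noncomputable def al1132 : AT := .l (nat_lit 7002) [⟨nat_lit 8004, [.tb (nat_lit 0x4000000000000) (nat_lit 188) N3221, .st S3221_2]⟩, ⟨nat_lit 8001, [.st S3211_3, .tb (nat_lit 0x4000000000000) (nat_lit 188) N3221, .st S3221_2]⟩, ⟨nat_lit 1, []⟩, ⟨nat_lit 1, []⟩]
noncomputable def al1222 : AT := .l (nat_lit 7003) [⟨nat_lit 8005, [.tb (nat_lit 0x40000000000000000000000000000000000) (nat_lit 414) N2222, .st S2222_2, .st S2222_3, .st S2222_2, .st S2222_1, .st S2222_2, .st S2222_1, .st S2222_1]⟩, ⟨nat_lit 8002, [.tb (nat_lit 0x40000000000000000000000000000000000) (nat_lit 0) N3221]⟩, ⟨nat_lit 8001, [.st S2221_1, .tb (nat_lit 0x40000000000000000000000000000000000) (nat_lit 0) N3221]⟩, ⟨nat_lit 1, []⟩]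
noncomputable def al1231 : AT := .l (nat_lit 7004) [⟨nat_lit 8006, [.tb (nat_lit 0x4000000000000) (nat_lit 188) N3221, .st S3221_2]⟩, ⟨nat_lit 8003, [.tb (nat_lit 0x4000000000000) (nat_lit 50) N3311, .st S3311_1]⟩, ⟨nat_lit 1, []⟩, ⟨nat_lit 8001, [.st S3211_3, .tb (nat_lit 0x4000000000000) (nat_lit 188) N3221]⟩]
noncomputable def al1312 : AT := .l (nat_lit 7005) [⟨nat_lit 8007, [.tb (nat_lit 0x4000000000000) (nat_lit 188) N3221, .st S3221_2]⟩, ⟨nat_lit 1, []⟩, ⟨nat_lit 8002, [.st S3211_3, .tb (nat_lit 0x4000000000000) (nat_lit 188) N3221, .st S3221_2]⟩, ⟨nat_lit 1, []⟩]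
noncomputable def al1321 : AT := .l (nat_lit 7006) [⟨nat_lit 8008, [.tb (nat_lit 0x4000000000000) (nat_lit 188) N3221, .st S3221_2]⟩, ⟨nat_lit 1, []⟩, ⟨nat_lit 8003, [.tb (nat_lit 0x4000000000000) (nat_lit 50) N3311]⟩, ⟨nat_lit 8002, [.st S3211_3, .tb (nat_lit 0x4000000000000) (nat_lit 188) N3221]⟩]
noncomputable def al2032 : AT := .l (nat_lit 7007) [⟨nat_lit 8010, [.tb (nat_lit 256) (nat_lit 8) N3320, .st S3320_1]⟩, ⟨nat_lit 8004, [.tb (nat_lit 256) (nat_lit 238) N3221]⟩, ⟨nat_lit 1, []⟩, ⟨nat_lit 1, []⟩]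
noncomputable def al2122 : AT := .l (nat_lit 7008) [⟨nat_lit 8011, [.tb (nat_lit 0x40000000000000000000000000000000000) (nat_lit 0) N3221]⟩, ⟨nat_lit 8005, [.tb (nat_lit 0x40000000000000000000000000000000000) (nat_lit 414) N2222, .st S2222_2, .st S2222_3, .st S2222_2, .st S2222_1, .st S2222_2, .st S2222_1]⟩, ⟨nat_lit 8004, [.st S2221_1, .tb (nat_lit 0x40000000000000000000000000000000000) (nat_lit 0) N3221]⟩, ⟨nat_lit 1, []⟩]
noncomputable def al2131 : AT := .l (nat_lit 7009) [⟨nat_lit 8012, [.tb (nat_lit 0x4000000000000) (nat_lit 50) N3311, .st S3311_1]⟩, ⟨nat_lit 8006, [.tb (nat_lit 0x4000000000000) (nat_lit 188) N3221]⟩, ⟨nat_lit 1, []⟩, ⟨nat_lit 8004, [.st S3211_3, .tb (nat_lit 0x4000000000000) (nat_lit 188) N3221]⟩]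
noncomputable def al2212 : AT := .l (nat_lit 7010) [⟨nat_lit 8013, [.tb (nat_lit 0x40000000000000000000000000000000000) (nat_lit 0) N3221]⟩, ⟨nat_lit 8007, [.st S2221_1, .tb (nat_lit 0x40000000000000000000000000000000000) (nat_lit 0) N3221]⟩, ⟨nat_lit 8005, [.tb (nat_lit 0x40000000000000000000000000000000000) (nat_lit 414) N2222, .st S2222_2, .st S2222_3, .st S2222_2]⟩, ⟨nat_lit 1, []⟩]
noncomputable def al2221 : AT := .l (nat_lit 7011) [⟨nat_lit 8014, [.tb (nat_lit 0x40000000000000000000000000000000000) (nat_lit 0) N3221]⟩, ⟨nat_lit 8008, [.st S2221_1, .tb (nat_lit 0x40000000000000000000000000000000000) (nat_lit 0) N3221]⟩, ⟨nat_lit 8006, [.st S2221_2, .tb (nat_lit 0x40000000000000000000000000000000000) (nat_lit 0) N3221, .st S3221_2]⟩, ⟨nat_lit 8005, [.tb (nat_lit 0x40000000000000000000000000000000000) (nat_lit 414) N2222]⟩]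
noncomputable def al2230 : AT := .l (nat_lit 7012) [⟨nat_lit 8015, [.tb (nat_lit 256) (nat_lit 8) N3320, .st S3320_1]⟩, ⟨nat_lit 8009, [.st S3220_2, .tb (nat_lit 256) (nat_lit 8) N3320, .st S3320_1]⟩, ⟨nat_lit 1, []⟩, ⟨nat_lit 8006, [.tb (nat_lit 256) (nat_lit 238) N3221]⟩]
noncomputable def al2302 : AT := .l (nat_lit 7013) [⟨nat_lit 8016, [.tb (nat_lit 256) (nat_lit 8) N3320, .st S3320_1]⟩, ⟨nat_lit 1, []⟩, ⟨nat_lit 8007, [.tb (nat_lit 256) (nat_lit 238) N3221]⟩, ⟨nat_lit 1, []⟩]
noncomputable def al2311 : AT := .l (nat_lit 7014) [⟨nat_lit 8017, [.tb (nat_lit 0x4000000000000) (nat_lit 50) N3311, .st S3311_1]⟩, ⟨nat_lit 1, []⟩, ⟨nat_lit 8008, [.tb (nat_lit 0x4000000000000) (nat_lit 188) N3221]⟩, ⟨nat_lit 8007, [.st S3211_3, .tb (nat_lit 0x4000000000000) (nat_lit 188) N3221]⟩]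
noncomputable def al2320 : AT := .l (nat_lit 7015) [⟨nat_lit 8018, [.tb (nat_lit 256) (nat_lit 8) N3320, .st S3320_1]⟩, ⟨nat_lit 1, []⟩, ⟨nat_lit 8009, [.st S3220_2, .tb (nat_lit 256) (nat_lit 8) N3320]⟩, ⟨nat_lit 8008, [.tb (nat_lit 256) (nat_lit 238) N3221]⟩]
noncomputable def al3022 : AT := .l (nat_lit 7016) [⟨nat_lit 8019, [.tb (nat_lit 256) (nat_lit 0) N4220]⟩, ⟨nat_lit 8011, [.tb (nat_lit 256) (nat_lit 238) N3221]⟩, ⟨nat_lit 8010, [.tb (nat_lit 256) (nat_lit 8) N3320]⟩, ⟨nat_lit 1, []⟩]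
noncomputable def al3112 : AT := .l (nat_lit 7017) [⟨nat_lit 8020, [.tb (nat_lit 0x4000000000000) (nat_lit 0) N4211]⟩, ⟨nat_lit 8013, [.tb (nat_lit 0x4000000000000) (nat_lit 188) N3221, .st S3221_2]⟩, ⟨nat_lit 8011, [.st S3211_3, .tb (nat_lit 0x4000000000000) (nat_lit 188) N3221, .st S3221_2]⟩, ⟨nat_lit 1, []⟩]
noncomputable def al3121 : AT := .l (nat_lit 7018) [⟨nat_lit 8021, [.tb (nat_lit 0x4000000000000) (nat_lit 0) N4211]⟩, ⟨nat_lit 8014, [.tb (nat_lit 0x4000000000000) (nat_lit 188) N3221, .st S3221_2]⟩, ⟨nat_lit 8012, [.tb (nat_lit 0x4000000000000) (nat_lit 50) N3311]⟩, ⟨nat_lit 8011, [.st S3211_3, .tb (nat_lit 0x4000000000000) (nat_lit 188) N3221]⟩]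
noncomputable def al3202 : AT := .l (nat_lit 7019) [⟨nat_lit 8022, [.tb (nat_lit 256) (nat_lit 0) N4220]⟩, ⟨nat_lit 8016, [.tb (nat_lit 256) (nat_lit 8) N3320]⟩, ⟨nat_lit 8013, [.tb (nat_lit 256) (nat_lit 238) N3221]⟩, ⟨nat_lit 1, []⟩]
noncomputable def al3211 : AT := .l (nat_lit 7020) [⟨nat_lit 8023, [.tb (nat_lit 0x4000000000000) (nat_lit 0) N4211]⟩, ⟨nat_lit 8017, [.tb (nat_lit 0x4000000000000) (nat_lit 50) N3311]⟩, ⟨nat_lit 8014, [.tb (nat_lit 0x4000000000000) (nat_lit 188) N3221]⟩, ⟨nat_lit 8013, [.st S3211_3, .tb (nat_lit 0x4000000000000) (nat_lit 188) N3221]⟩]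
noncomputable def al3220 : AT := .l (nat_lit 7021) [⟨nat_lit 8024, [.tb (nat_lit 256) (nat_lit 0) N4220]⟩, ⟨nat_lit 8018, [.tb (nat_lit 256) (nat_lit 8) N3320]⟩, ⟨nat_lit 8015, [.st S3220_2, .tb (nat_lit 256) (nat_lit 8) N3320]⟩, ⟨nat_lit 8014, [.tb (nat_lit 256) (nat_lit 238) N3221]⟩]
noncomputable def al4012 : AT := .l (nat_lit 7022) [⟨nat_lit 2, [.zr]⟩, ⟨nat_lit 8020, [.tb (nat_lit 2) (nat_lit 56) N4211, .st S4211_3]⟩, ⟨nat_lit 8019, [.tb (nat_lit 2) (nat_lit 9) N4220, .st S4220_2]⟩, ⟨nat_lit 1, []⟩]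
noncomputable def al4021 : AT := .l (nat_lit 7023) [⟨nat_lit 2, [.zr]⟩, ⟨nat_lit 8021, [.tb (nat_lit 2) (nat_lit 56) N4211, .st S4211_3]⟩, ⟨nat_lit 1, []⟩, ⟨nat_lit 8019, [.tb (nat_lit 2) (nat_lit 9) N4220]⟩]
noncomputable def al4102 : AT := .l (nat_lit 7024) [⟨nat_lit 2, [.zr]⟩, ⟨nat_lit 8022, [.tb (nat_lit 2) (nat_lit 9) N4220, .st S4220_2]⟩, ⟨nat_lit 8020, [.tb (nat_lit 2) (nat_lit 56) N4211]⟩, ⟨nat_lit 1, []⟩]
noncomputable def al4111 : AT := .l (nat_lit 7025) [⟨nat_lit 2, [.zr]⟩, ⟨nat_lit 8023, [.tb (nat_lit 32) (nat_lit 50) N4211]⟩, ⟨nat_lit 8021, [.st S4111_2, .tb (nat_lit 32) (nat_lit 50) N4211]⟩, ⟨nat_lit 8020, [.st S4111_3, .tb (nat_lit 32) (nat_lit 50) N4211, .st S4211_3]⟩]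
noncomputable def al4120 : AT := .l (nat_lit 7026) [⟨nat_lit 2, [.zr]⟩, ⟨nat_lit 8024, [.tb (nat_lit 2) (nat_lit 9) N4220, .st S4220_2]⟩, ⟨nat_lit 1, []⟩, ⟨nat_lit 8021, [.tb (nat_lit 2) (nat_lit 56) N4211]⟩]
noncomputable def al4201 : AT := .l (nat_lit 7027) [⟨nat_lit 2, [.zr]⟩, ⟨nat_lit 2, [.zr]⟩, ⟨nat_lit 8023, [.tb (nat_lit 2) (nat_lit 56) N4211, .st S4211_3]⟩, ⟨nat_lit 8022, [.tb (nat_lit 2) (nat_lit 9) N4220]⟩]
noncomputable def al4210 : AT := .l (nat_lit 7028) [⟨nat_lit 2, [.zr]⟩, ⟨nat_lit 2, [.zr]⟩, ⟨nat_lit 8024, [.tb (nat_lit 2) (nat_lit 9) N4220]⟩, ⟨nat_lit 8023, [.tb (nat_lit 2) (nat_lit 56) N4211]⟩]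
noncomputable def AV7 : AT := .b (nat_lit 7014) (.b (nat_lit 7007) (.b (nat_lit 7003) (.b (nat_lit 7001) (al0232) (.b (nat_lit 7002) (al0322) (al1132))) (.b (nat_lit 7005) (.b (nat_lit 7004) (al1222) (al1231)) (.b (nat_lit 7006) (al1312) (al1321)))) (.b (nat_lit 7010) (.b (nat_lit 7008) (al2032) (.b (nat_lit 7009) (al2122) (al2131))) (.b (nat_lit 7012) (.b (nat_lit 7011) (al2212) (al2221)) (.b (nat_lit 7013) (al2230) (al2302))))) (.b (nat_lit 7021) (.b (nat_lit 7017) (.b (nat_lit 7015) (al2311) (.b (nat_lit 7016) (al2320) (al3022))) (.b (nat_lit 7019) (.b (nat_lit 7018) (al3112) (al3121)) (.b (nat_lit 7020) (al3202) (al3211)))) (.b (nat_lit 7025) (.b (nat_lit 7023) (.b (nat_lit 7022) (al3220) (al4012)) (.b (nat_lit 7024) (al4021) (al4102))) (.b (nat_lit 7027) (.b (nat_lit 7026) (al4111) (al4120)) (.b (nat_lit 7028) (al4201) (al4210)))))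
noncomputable def al0332 : AT := .l (nat_lit 8000) [⟨nat_lit 9000, [.tb (nat_lit 16) (nat_lit 322) N3321]⟩, ⟨nat_lit 1, []⟩, ⟨nat_lit 1, []⟩, ⟨nat_lit 1, []⟩]
noncomputable def al1232 : AT := .l (nat_lit 8001) [⟨nat_lit 9001, [.tb (nat_lit 0x1000000000000000000000000000000000000) (nat_lit 684) N3222, .st S3222_2, .st S3222_3, .st S3222_2, .st S3222_2]⟩, ⟨nat_lit 9000, [.tb (nat_lit 0x1000000000000000000000000000000000000) (nat_lit 144) N3321, .st S3321_1]⟩, ⟨nat_lit 1, []⟩, ⟨nat_lit 1, []⟩]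
noncomputable def al1322 : AT := .l (nat_lit 8002) [⟨nat_lit 9002, [.tb (nat_lit 0x1000000000000000000000000000000000000) (nat_lit 684) N3222, .st S3222_2, .st S3222_3, .st S3222_2, .st S3222_2]⟩, ⟨nat_lit 1, []⟩, ⟨nat_lit 9000, [.tb (nat_lit 0x1000000000000000000000000000000000000) (nat_lit 144) N3321]⟩, ⟨nat_lit 1, []⟩]
noncomputable def al1331 : AT := .l (nat_lit 8003) [⟨nat_lit 9003, [.tb (nat_lit 0x400000000) (nat_lit 288) N3321]⟩, ⟨nat_lit 1, []⟩, ⟨nat_lit 1, []⟩, ⟨nat_lit 9000, [.st S3311_3, .tb (nat_lit 0x400000000) (nat_lit 288) N3321]⟩]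
noncomputable def al2132 : AT := .l (nat_lit 8004) [⟨nat_lit 9004, [.tb (nat_lit 0x1000000000000000000000000000000000000) (nat_lit 144) N3321, .st S3321_1]⟩, ⟨nat_lit 9001, [.tb (nat_lit 0x1000000000000000000000000000000000000) (nat_lit 684) N3222, .st S3222_2, .st S3222_3, .st S3222_2]⟩, ⟨nat_lit 1, []⟩, ⟨nat_lit 1, []⟩]
noncomputable def al2222 : AT := .l (nat_lit 8005) [⟨nat_lit 9005, [.tb (nat_lit 0x1000000000000000000000000000000000000000000000000000000000000000000000000000000000000000000000000000) (nat_lit 0) N3222]⟩, ⟨nat_lit 9002, [.st S2222_1, .tb (nat_lit 0x1000000000000000000000000000000000000000000000000000000000000000000000000000000000000000000000000000) (nat_lit 0) N3222]⟩, ⟨nat_lit 9001, [.st S2222_2, .tb (nat_lit 0x1000000000000000000000000000000000000000000000000000000000000000000000000000000000000000000000000000) (nat_lit 0) N3222, .st S3222_2]⟩, ⟨nat_lit 1, []⟩]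
noncomputable def al2231 : AT := .l (nat_lit 8006) [⟨nat_lit 9006, [.tb (nat_lit 0x1000000000000000000000000000000000000) (nat_lit 144) N3321, .st S3321_1]⟩, ⟨nat_lit 9003, [.st S3221_2, .tb (nat_lit 0x1000000000000000000000000000000000000) (nat_lit 144) N3321, .st S3321_1]⟩, ⟨nat_lit 1, []⟩, ⟨nat_lit 9001, [.tb (nat_lit 0x1000000000000000000000000000000000000) (nat_lit 684) N3222]⟩]
noncomputable def al2312 : AT := .l (nat_lit 8007) [⟨nat_lit 9007, [.tb (nat_lit 0x1000000000000000000000000000000000000) (nat_lit 144) N3321, .st S3321_1]⟩, ⟨nat_lit 1, []⟩, ⟨nat_lit 9002, [.tb (nat_lit 0x1000000000000000000000000000000000000) (nat_lit 684) N3222, .st S3222_2, .st S3222_3, .st S3222_2]⟩, ⟨nat_lit 1, []⟩]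
noncomputable def al2321 : AT := .l (nat_lit 8008) [⟨nat_lit 9008, [.tb (nat_lit 0x1000000000000000000000000000000000000) (nat_lit 144) N3321, .st S3321_1]⟩, ⟨nat_lit 1, []⟩, ⟨nat_lit 9003, [.st S3221_2, .tb (nat_lit 0x1000000000000000000000000000000000000) (nat_lit 144) N3321]⟩, ⟨nat_lit 9002, [.tb (nat_lit 0x1000000000000000000000000000000000000) (nat_lit 684) N3222]⟩]
noncomputable def al2330 : AT := .l (nat_lit 8009) [⟨nat_lit 2, [.zr]⟩, ⟨nat_lit 1, []⟩, ⟨nat_lit 1, []⟩, ⟨nat_lit 9003, [.tb (nat_lit 16) (nat_lit 322) N3321]⟩]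
noncomputable def al3032 : AT := .l (nat_lit 8010) [⟨nat_lit 1, []⟩, ⟨nat_lit 9004, [.tb (nat_lit 16) (nat_lit 322) N3321]⟩, ⟨nat_lit 1, []⟩, ⟨nat_lit 1, []⟩]
noncomputable def al3122 : AT := .l (nat_lit 8011) [⟨nat_lit 9009, [.tb (nat_lit 0x1000000000000000000000000000000000000) (nat_lit 0) N4221]⟩, ⟨nat_lit 9005, [.tb (nat_lit 0x1000000000000000000000000000000000000) (nat_lit 684) N3222, .st S3222_2, .st S3222_3, .st S3222_2, .st S3222_2]⟩, ⟨nat_lit 9004, [.tb (nat_lit 0x1000000000000000000000000000000000000) (nat_lit 144) N3321]⟩, ⟨nat_lit 1, []⟩]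
noncomputable def al3131 : AT := .l (nat_lit 8012) [⟨nat_lit 1, []⟩, ⟨nat_lit 9006, [.tb (nat_lit 0x400000000) (nat_lit 288) N3321]⟩, ⟨nat_lit 1, []⟩, ⟨nat_lit 9004, [.st S3311_3, .tb (nat_lit 0x400000000) (nat_lit 288) N3321]⟩]
noncomputable def al3212 : AT := .l (nat_lit 8013) [⟨nat_lit 9010, [.tb (nat_lit 0x1000000000000000000000000000000000000) (nat_lit 0) N4221]⟩, ⟨nat_lit 9007, [.tb (nat_lit 0x1000000000000000000000000000000000000) (nat_lit 144) N3321]⟩, ⟨nat_lit 9005, [.tb (nat_lit 0x1000000000000000000000000000000000000) (nat_lit 684) N3222, .st S3222_2, .st S3222_3, .st S3222_2]⟩, ⟨nat_lit 1, []⟩]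
noncomputable def al3221 : AT := .l (nat_lit 8014) [⟨nat_lit 9011, [.tb (nat_lit 0x1000000000000000000000000000000000000) (nat_lit 0) N4221]⟩, ⟨nat_lit 9008, [.tb (nat_lit 0x1000000000000000000000000000000000000) (nat_lit 144) N3321]⟩, ⟨nat_lit 9006, [.st S3221_2, .tb (nat_lit 0x1000000000000000000000000000000000000) (nat_lit 144) N3321]⟩, ⟨nat_lit 9005, [.tb (nat_lit 0x1000000000000000000000000000000000000) (nat_lit 684) N3222]⟩]
noncomputable def al3230 : AT := .l (nat_lit 8015) [⟨nat_lit 1, []⟩, ⟨nat_lit 2, [.zr]⟩, ⟨nat_lit 1, []⟩, ⟨nat_lit 9006, [.tb (nat_lit 16) (nat_lit 322) N3321]⟩]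
noncomputable def al3302 : AT := .l (nat_lit 8016) [⟨nat_lit 9012, [.tb (nat_lit 16) (nat_lit 0) N4320]⟩, ⟨nat_lit 1, []⟩, ⟨nat_lit 9007, [.tb (nat_lit 16) (nat_lit 322) N3321]⟩, ⟨nat_lit 1, []⟩]
noncomputable def al3311 : AT := .l (nat_lit 8017) [⟨nat_lit 9013, [.tb (nat_lit 0x400000000) (nat_lit 0) N4311]⟩, ⟨nat_lit 1, []⟩, ⟨nat_lit 9008, [.tb (nat_lit 0x400000000) (nat_lit 288) N3321]⟩, ⟨nat_lit 9007, [.st S3311_3, .tb (nat_lit 0x400000000) (nat_lit 288) N3321]⟩]
noncomputable def al3320 : AT := .l (nat_lit 8018) [⟨nat_lit 9014, [.tb (nat_lit 16) (nat_lit 0) N4320]⟩, ⟨nat_lit 1, []⟩, ⟨nat_lit 2, [.zr]⟩, ⟨nat_lit 9008, [.tb (nat_lit 16) (nat_lit 322) N3321]⟩]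
noncomputable def al4022 : AT := .l (nat_lit 8019) [⟨nat_lit 9015, [.tb (nat_lit 32) (nat_lit 0) N5220]⟩, ⟨nat_lit 9009, [.tb (nat_lit 32) (nat_lit 186) N4221]⟩, ⟨nat_lit 1, []⟩, ⟨nat_lit 1, []⟩]
noncomputable def al4112 : AT := .l (nat_lit 8020) [⟨nat_lit 9016, [.tb (nat_lit 0x200000) (nat_lit 0) N5211]⟩, ⟨nat_lit 9010, [.tb (nat_lit 0x200000) (nat_lit 165) N4221, .st S4221_2]⟩, ⟨nat_lit 9009, [.st S4211_3, .tb (nat_lit 0x200000) (nat_lit 165) N4221, .st S4221_2]⟩, ⟨nat_lit 1, []⟩]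
noncomputable def al4121 : AT := .l (nat_lit 8021) [⟨nat_lit 9017, [.tb (nat_lit 0x200000) (nat_lit 0) N5211]⟩, ⟨nat_lit 9011, [.tb (nat_lit 0x200000) (nat_lit 165) N4221, .st S4221_2]⟩, ⟨nat_lit 1, []⟩, ⟨nat_lit 9009, [.st S4211_3, .tb (nat_lit 0x200000) (nat_lit 165) N4221]⟩]
noncomputable def al4202 : AT := .l (nat_lit 8022) [⟨nat_lit 9018, [.tb (nat_lit 32) (nat_lit 0) N5220]⟩, ⟨nat_lit 9012, [.tb (nat_lit 32) (nat_lit 4) N4320]⟩, ⟨nat_lit 9010, [.tb (nat_lit 32) (nat_lit 186) N4221]⟩, ⟨nat_lit 1, []⟩]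
noncomputable def al4211 : AT := .l (nat_lit 8023) [⟨nat_lit 9019, [.tb (nat_lit 0x200000) (nat_lit 0) N5211]⟩, ⟨nat_lit 9013, [.tb (nat_lit 0x200000) (nat_lit 34) N4311]⟩, ⟨nat_lit 9011, [.tb (nat_lit 0x200000) (nat_lit 165) N4221]⟩, ⟨nat_lit 9010, [.st S4211_3, .tb (nat_lit 0x200000) (nat_lit 165) N4221]⟩]
noncomputable def al4220 : AT := .l (nat_lit 8024) [⟨nat_lit 9020, [.tb (nat_lit 32) (nat_lit 0) N5220]⟩, ⟨nat_lit 9014, [.tb (nat_lit 32) (nat_lit 4) N4320]⟩, ⟨nat_lit 1, []⟩, ⟨nat_lit 9011, [.tb (nat_lit 32) (nat_lit 186) N4221]⟩]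
noncomputable def AV8 : AT := .b (nat_lit 8012) (.b (nat_lit 8006) (.b (nat_lit 8003) (.b (nat_lit 8001) (al0332) (.b (nat_lit 8002) (al1232) (al1322))) (.b (nat_lit 8004) (al1331) (.b (nat_lit 8005) (al2132) (al2222)))) (.b (nat_lit 8009) (.b (nat_lit 8007) (al2231) (.b (nat_lit 8008) (al2312) (al2321))) (.b (nat_lit 8010) (al2330) (.b (nat_lit 8011) (al3032) (al3122))))) (.b (nat_lit 8018) (.b (nat_lit 8015) (.b (nat_lit 8013) (al3131) (.b (nat_lit 8014) (al3212) (al3221))) (.b (nat_lit 8016) (al3230) (.b (nat_lit 8017) (al3302) (al3311)))) (.b (nat_lit 8021) (.b (nat_lit 8019) (al3320) (.b (nat_lit 8020) (al4022) (al4112))) (.b (nat_lit 8023) (.b (nat_lit 8022) (al4121) (al4202)) (.b (nat_lit 8024) (al4211) (al4220)))))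
noncomputable def al1332 : AT := .l (nat_lit 9000) [⟨nat_lit 10000, [.tb (nat_lit 0x1000000000000000000000000000000000000) (nat_lit 1146) N3322, .st S3322_3]⟩, ⟨nat_lit 1, []⟩, ⟨nat_lit 1, []⟩, ⟨nat_lit 1, []⟩]
noncomputable def al2232 : AT := .l (nat_lit 9001) [⟨nat_lit 10001, [.tb (nat_lit 0x200000000000000000000000000000000000000000000000000000000000000000000000000000000000000000000000000000000000000000000000000000) (nat_lit 501) N3322, .st S3322_1]⟩, ⟨nat_lit 10000, [.st S3222_2, .tb (nat_lit 0x200000000000000000000000000000000000000000000000000000000000000000000000000000000000000000000000000000000000000000000000000000) (nat_lit 501) N3322, .st S3322_1]⟩, ⟨nat_lit 1, []⟩, ⟨nat_lit 1, []⟩]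
noncomputable def al2322 : AT := .l (nat_lit 9002) [⟨nat_lit 10002, [.tb (nat_lit 0x200000000000000000000000000000000000000000000000000000000000000000000000000000000000000000000000000000000000000000000000000000) (nat_lit 501) N3322, .st S3322_1]⟩, ⟨nat_lit 1, []⟩, ⟨nat_lit 10000, [.st S3222_2, .tb (nat_lit 0x200000000000000000000000000000000000000000000000000000000000000000000000000000000000000000000000000000000000000000000000000000) (nat_lit 501) N3322]⟩, ⟨nat_lit 1, []⟩]
noncomputable def al2331 : AT := .l (nat_lit 9003) [⟨nat_lit 10003, [.tb (nat_lit 0x1000000000000000000000000000000000000) (nat_lit 288) N3331, .st S3331_1, .st S3331_2, .st S3331_1, .st S3331_1]⟩, ⟨nat_lit 1, []⟩, ⟨nat_lit 1, []⟩, ⟨nat_lit 10000, [.tb (nat_lit 0x1000000000000000000000000000000000000) (nat_lit 1146) N3322]⟩]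
noncomputable def al3132 : AT := .l (nat_lit 9004) [⟨nat_lit 1, []⟩, ⟨nat_lit 10001, [.tb (nat_lit 0x1000000000000000000000000000000000000) (nat_lit 1146) N3322, .st S3322_3]⟩, ⟨nat_lit 1, []⟩, ⟨nat_lit 1, []⟩]
noncomputable def al3222 : AT := .l (nat_lit 9005) [⟨nat_lit 10004, [.tb (nat_lit 0x200000000000000000000000000000000000000000000000000000000000000000000000000000000000000000000000000000000000000000000000000000) (nat_lit 0) N4222]⟩, ⟨nat_lit 10002, [.tb (nat_lit 0x200000000000000000000000000000000000000000000000000000000000000000000000000000000000000000000000000000000000000000000000000000) (nat_lit 501) N3322]⟩, ⟨nat_lit 10001, [.st S3222_2, .tb (nat_lit 0x200000000000000000000000000000000000000000000000000000000000000000000000000000000000000000000000000000000000000000000000000000) (nat_lit 501) N3322]⟩, ⟨nat_lit 1, []⟩]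
noncomputable def al3231 : AT := .l (nat_lit 9006) [⟨nat_lit 1, []⟩, ⟨nat_lit 10003, [.tb (nat_lit 0x1000000000000000000000000000000000000) (nat_lit 288) N3331, .st S3331_1, .st S3331_2, .st S3331_1]⟩, ⟨nat_lit 1, []⟩, ⟨nat_lit 10001, [.tb (nat_lit 0x1000000000000000000000000000000000000) (nat_lit 1146) N3322]⟩]
noncomputable def al3312 : AT := .l (nat_lit 9007) [⟨nat_lit 10005, [.tb (nat_lit 0x1000000000000000000000000000000000000) (nat_lit 0) N4321]⟩, ⟨nat_lit 1, []⟩, ⟨nat_lit 10002, [.tb (nat_lit 0x1000000000000000000000000000000000000) (nat_lit 1146) N3322, .st S3322_3]⟩, ⟨nat_lit 1, []⟩]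
noncomputable def al3321 : AT := .l (nat_lit 9008) [⟨nat_lit 10006, [.tb (nat_lit 0x1000000000000000000000000000000000000) (nat_lit 0) N4321]⟩, ⟨nat_lit 1, []⟩, ⟨nat_lit 10003, [.tb (nat_lit 0x1000000000000000000000000000000000000) (nat_lit 288) N3331]⟩, ⟨nat_lit 10002, [.tb (nat_lit 0x1000000000000000000000000000000000000) (nat_lit 1146) N3322]⟩]
noncomputable def al4122 : AT := .l (nat_lit 9009) [⟨nat_lit 10007, [.tb (nat_lit 0x8000000000000000000000) (nat_lit 0) N5221]⟩, ⟨nat_lit 10004, [.tb (nat_lit 0x8000000000000000000000) (nat_lit 675) N4222, .st S4222_2, .st S4222_3, .st S4222_2, .st S4222_2]⟩, ⟨nat_lit 1, []⟩, ⟨nat_lit 1, []⟩]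
noncomputable def al4212 : AT := .l (nat_lit 9010) [⟨nat_lit 10008, [.tb (nat_lit 0x8000000000000000000000) (nat_lit 0) N5221]⟩, ⟨nat_lit 10005, [.tb (nat_lit 0x8000000000000000000000) (nat_lit 144) N4321]⟩, ⟨nat_lit 10004, [.tb (nat_lit 0x8000000000000000000000) (nat_lit 675) N4222, .st S4222_2, .st S4222_3, .st S4222_2]⟩, ⟨nat_lit 1, []⟩]
noncomputable def al4221 : AT := .l (nat_lit 9011) [⟨nat_lit 10009, [.tb (nat_lit 0x8000000000000000000000) (nat_lit 0) N5221]⟩, ⟨nat_lit 10006, [.tb (nat_lit 0x8000000000000000000000) (nat_lit 144) N4321]⟩, ⟨nat_lit 1, []⟩, ⟨nat_lit 10004, [.tb (nat_lit 0x8000000000000000000000) (nat_lit 675) N4222]⟩]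
noncomputable def al4311 : AT := .l (nat_lit 9013) [⟨nat_lit 2, [.zr]⟩, ⟨nat_lit 1, []⟩, ⟨nat_lit 10006, [.tb (nat_lit 1024) (nat_lit 231) N4321]⟩, ⟨nat_lit 10005, [.st S4311_3, .tb (nat_lit 1024) (nat_lit 231) N4321]⟩]
noncomputable def al4320 : AT := .l (nat_lit 9014) [⟨nat_lit 1, []⟩, ⟨nat_lit 1, []⟩, ⟨nat_lit 1, []⟩, ⟨nat_lit 10006, [.tb (nat_lit 2) (nat_lit 241) N4321]⟩]
noncomputable def al5022 : AT := .l (nat_lit 9015) [⟨nat_lit 1, []⟩, ⟨nat_lit 10007, [.tb (nat_lit 2) (nat_lit 93) N5221]⟩, ⟨nat_lit 1, []⟩, ⟨nat_lit 1, []⟩]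
noncomputable def al5112 : AT := .l (nat_lit 9016) [⟨nat_lit 1, []⟩, ⟨nat_lit 10008, [.tb (nat_lit 8) (nat_lit 90) N5221, .st S5221_2]⟩, ⟨nat_lit 10007, [.st S5211_3, .tb (nat_lit 8) (nat_lit 90) N5221, .st S5221_2]⟩, ⟨nat_lit 1, []⟩]
noncomputable def al5121 : AT := .l (nat_lit 9017) [⟨nat_lit 1, []⟩, ⟨nat_lit 10009, [.tb (nat_lit 8) (nat_lit 90) N5221, .st S5221_2]⟩, ⟨nat_lit 1, []⟩, ⟨nat_lit 10007, [.st S5211_3, .tb (nat_lit 8) (nat_lit 90) N5221]⟩]
noncomputable def al5202 : AT := .l (nat_lit 9018) [⟨nat_lit 1, []⟩, ⟨nat_lit 1, []⟩, ⟨nat_lit 10008, [.tb (nat_lit 2) (nat_lit 93) N5221]⟩, ⟨nat_lit 1, []⟩]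
noncomputable def al5211 : AT := .l (nat_lit 9019) [⟨nat_lit 1, []⟩, ⟨nat_lit 2, [.zr]⟩, ⟨nat_lit 10009, [.tb (nat_lit 8) (nat_lit 90) N5221]⟩, ⟨nat_lit 10008, [.st S5211_3, .tb (nat_lit 8) (nat_lit 90) N5221]⟩]
noncomputable def al5220 : AT := .l (nat_lit 9020) [⟨nat_lit 1, []⟩, ⟨nat_lit 2, [.zr]⟩, ⟨nat_lit 1, []⟩, ⟨nat_lit 10009, [.tb (nat_lit 2) (nat_lit 93) N5221]⟩]
noncomputable def AV9 : AT := .b (nat_lit 9010) (.b (nat_lit 9005) (.b (nat_lit 9002) (.b (nat_lit 9001) (al1332) (al2232)) (.b (nat_lit 9003) (al2322) (.b (nat_lit 9004) (al2331) (al3132)))) (.b (nat_lit 9007) (.b (nat_lit 9006) (al3222) (al3231)) (.b (nat_lit 9008) (al3312) (.b (nat_lit 9009) (al3321) (al4122))))) (.b (nat_lit 9016) (.b (nat_lit 9013) (.b (nat_lit 9011) (al4212) (al4221)) (.b (nat_lit 9014) (al4311) (.b (nat_lit 9015) (al4320) (al5022)))) (.b (nat_lit 9018) (.b (nat_lit 9017) (al5112) (al5121)) (.b (nat_lit 9019) (al5202) (.b (nat_lit 9020) (al5211) (al5220)))))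
noncomputable def AW1 : AT := AV0
noncomputable def AW2 : AT := .b (nat_lit 1000) AW1 AV1
noncomputable def AW3 : AT := .b (nat_lit 2000) AW2 AV2
noncomputable def AW4 : AT := .b (nat_lit 3000) AW3 AV3
noncomputable def AW5 : AT := .b (nat_lit 4000) AW4 AV4
noncomputable def AW6 : AT := .b (nat_lit 5000) AW5 AV5
noncomputable def AW7 : AT := .b (nat_lit 6000) AW6 AV6
noncomputable def AW8 : AT := .b (nat_lit 7000) AW7 AV7
noncomputable def AW9 : AT := .b (nat_lit 8000) AW8 AV8
noncomputable def AW10 : AT := .b (nat_lit 9000) AW9 AV9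
noncomputable def af4_1200 : AT := .l (nat_lit 3012) [⟨nat_lit 30007, [.sf (nat_lit 2) (nat_lit 0)]⟩, ⟨nat_lit 1, []⟩, ⟨nat_lit 1, []⟩, ⟨nat_lit 1, []⟩]
noncomputable def af4_2100 : AT := .l (nat_lit 3015) [⟨nat_lit 1, []⟩, ⟨nat_lit 30007, [.sf (nat_lit 2) (nat_lit 1)]⟩, ⟨nat_lit 1, []⟩, ⟨nat_lit 1, []⟩]
noncomputable def AF4 : AT := .b (nat_lit 3015) (af4_1200) (af4_2100)
noncomputable def AT4 : AT := .b (nat_lit 3000) AW3 AF4
noncomputable def af5_1210 : AT := .l (nat_lit 4009) [⟨nat_lit 30011, [.sf (nat_lit 64) (nat_lit 0)]⟩, ⟨nat_lit 1, []⟩, ⟨nat_lit 1, []⟩, ⟨nat_lit 1, []⟩]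
noncomputable def af5_2110 : AT := .l (nat_lit 4012) [⟨nat_lit 1, []⟩, ⟨nat_lit 30011, [.sf (nat_lit 64) (nat_lit 6)]⟩, ⟨nat_lit 1, []⟩, ⟨nat_lit 1, []⟩]
noncomputable def AF5 : AT := .b (nat_lit 4012) (af5_1210) (af5_2110)
noncomputable def AT5 : AT := .b (nat_lit 4000) AW4 AF5
noncomputable def af6_1211 : AT := .l (nat_lit 5011) [⟨nat_lit 30017, [.sf (nat_lit 0x1000000000) (nat_lit 0)]⟩, ⟨nat_lit 1, []⟩, ⟨nat_lit 1, []⟩, ⟨nat_lit 1, []⟩]
noncomputable def af6_2111 : AT := .l (nat_lit 5018) [⟨nat_lit 1, []⟩, ⟨nat_lit 30017, [.sf (nat_lit 0x1000000000) (nat_lit 36)]⟩, ⟨nat_lit 1, []⟩, ⟨nat_lit 1, []⟩]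
noncomputable def af6_2201 : AT := .l (nat_lit 5020) [⟨nat_lit 1, []⟩, ⟨nat_lit 1, []⟩, ⟨nat_lit 30017, [.sf (nat_lit 64) (nat_lit 72)]⟩, ⟨nat_lit 1, []⟩]
noncomputable def af6_2210 : AT := .l (nat_lit 5021) [⟨nat_lit 1, []⟩, ⟨nat_lit 1, []⟩, ⟨nat_lit 1, []⟩, ⟨nat_lit 30017, [.sf (nat_lit 64) (nat_lit 78)]⟩]
noncomputable def AF6 : AT := .b (nat_lit 5020) (.b (nat_lit 5018) (af6_1211) (af6_2111)) (.b (nat_lit 5021) (af6_2201) (af6_2210))
noncomputable def AT6 : AT := .b (nat_lit 5000) AW5 AF6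
noncomputable def af7_1221 : AT := .l (nat_lit 6009) [⟨nat_lit 30023, [.sf (nat_lit 0x1000000000000000) (nat_lit 0)]⟩, ⟨nat_lit 1, []⟩, ⟨nat_lit 1, []⟩, ⟨nat_lit 1, []⟩]
noncomputable def af7_2121 : AT := .l (nat_lit 6017) [⟨nat_lit 1, []⟩, ⟨nat_lit 30023, [.sf (nat_lit 0x1000000000000000) (nat_lit 60)]⟩, ⟨nat_lit 1, []⟩, ⟨nat_lit 1, []⟩]
noncomputable def af7_2211 : AT := .l (nat_lit 6020) [⟨nat_lit 30022, [.sf (nat_lit 0x1000000000000000) (nat_lit 0)]⟩, ⟨nat_lit 1, []⟩, ⟨nat_lit 30023, [.sf (nat_lit 0x1000000000000000) (nat_lit 120)]⟩, ⟨nat_lit 1, []⟩]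
noncomputable def af7_2220 : AT := .l (nat_lit 6021) [⟨nat_lit 1, []⟩, ⟨nat_lit 1, []⟩, ⟨nat_lit 1, []⟩, ⟨nat_lit 30023, [.sf (nat_lit 4096) (nat_lit 180)]⟩]
noncomputable def af7_3111 : AT := .l (nat_lit 6027) [⟨nat_lit 30019, [.sf (nat_lit 0x1000000) (nat_lit 0)]⟩, ⟨nat_lit 30022, [.sf (nat_lit 0x1000000) (nat_lit 60)]⟩, ⟨nat_lit 1, []⟩, ⟨nat_lit 1, []⟩]
noncomputable def af7_3201 : AT := .l (nat_lit 6029) [⟨nat_lit 1, []⟩, ⟨nat_lit 1, []⟩, ⟨nat_lit 30022, [.sf (nat_lit 8) (nat_lit 84)]⟩, ⟨nat_lit 1, []⟩]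
noncomputable def af7_3210 : AT := .l (nat_lit 6030) [⟨nat_lit 1, []⟩, ⟨nat_lit 1, []⟩, ⟨nat_lit 1, []⟩, ⟨nat_lit 30022, [.sf (nat_lit 8) (nat_lit 87)]⟩]
noncomputable def AF7 : AT := .b (nat_lit 6021) (.b (nat_lit 6017) (af7_1221) (.b (nat_lit 6020) (af7_2121) (af7_2211))) (.b (nat_lit 6029) (.b (nat_lit 6027) (af7_2220) (af7_3111)) (.b (nat_lit 6030) (af7_3201) (af7_3210)))
noncomputable def AT7 : AT := .b (nat_lit 6000) AW6 AF7
noncomputable def af8_1222 : AT := .l (nat_lit 7003) [⟨nat_lit 30032, [.sf (nat_lit 0x40000000000000000000000000000000000) (nat_lit 0)]⟩, ⟨nat_lit 1, []⟩, ⟨nat_lit 1, []⟩, ⟨nat_lit 1, []⟩]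
noncomputable def af8_2122 : AT := .l (nat_lit 7008) [⟨nat_lit 1, []⟩, ⟨nat_lit 30032, [.sf (nat_lit 0x40000000000000000000000000000000000) (nat_lit 138)]⟩, ⟨nat_lit 1, []⟩, ⟨nat_lit 1, []⟩]
noncomputable def af8_2212 : AT := .l (nat_lit 7010) [⟨nat_lit 1, []⟩, ⟨nat_lit 1, []⟩, ⟨nat_lit 30032, [.sf (nat_lit 0x40000000000000000000000000000000000) (nat_lit 276)]⟩, ⟨nat_lit 1, []⟩]
noncomputable def af8_2221 : AT := .l (nat_lit 7011) [⟨nat_lit 30031, [.sf (nat_lit 0x40000000000000000000000000000000000) (nat_lit 0)]⟩, ⟨nat_lit 1, []⟩, ⟨nat_lit 1, []⟩, ⟨nat_lit 30032, [.sf (nat_lit 0x40000000000000000000000000000000000) (nat_lit 414)]⟩]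
noncomputable def af8_2311 : AT := .l (nat_lit 7014) [⟨nat_lit 30030, [.sf (nat_lit 0x4000000000000) (nat_lit 0)]⟩, ⟨nat_lit 1, []⟩, ⟨nat_lit 1, []⟩, ⟨nat_lit 1, []⟩]
noncomputable def af8_3121 : AT := .l (nat_lit 7018) [⟨nat_lit 1, []⟩, ⟨nat_lit 30031, [.sf (nat_lit 0x4000000000000) (nat_lit 138)]⟩, ⟨nat_lit 1, []⟩, ⟨nat_lit 1, []⟩]
noncomputable def af8_3211 : AT := .l (nat_lit 7020) [⟨nat_lit 30028, [.sf (nat_lit 0x4000000000000) (nat_lit 0)]⟩, ⟨nat_lit 30030, [.sf (nat_lit 0x4000000000000) (nat_lit 50)]⟩, ⟨nat_lit 30031, [.sf (nat_lit 0x4000000000000) (nat_lit 188)]⟩, ⟨nat_lit 1, []⟩]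
noncomputable def af8_3220 : AT := .l (nat_lit 7021) [⟨nat_lit 30027, [.sf (nat_lit 256) (nat_lit 0)]⟩, ⟨nat_lit 1, []⟩, ⟨nat_lit 1, []⟩, ⟨nat_lit 30031, [.sf (nat_lit 256) (nat_lit 238)]⟩]
noncomputable def af8_4111 : AT := .l (nat_lit 7025) [⟨nat_lit 1, []⟩, ⟨nat_lit 30028, [.sf (nat_lit 32) (nat_lit 50)]⟩, ⟨nat_lit 1, []⟩, ⟨nat_lit 1, []⟩]
noncomputable def af8_4120 : AT := .l (nat_lit 7026) [⟨nat_lit 1, []⟩, ⟨nat_lit 30027, [.sf (nat_lit 2) (nat_lit 8)]⟩, ⟨nat_lit 1, []⟩, ⟨nat_lit 1, []⟩]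
noncomputable def af8_4201 : AT := .l (nat_lit 7027) [⟨nat_lit 1, []⟩, ⟨nat_lit 1, []⟩, ⟨nat_lit 30028, [.sf (nat_lit 2) (nat_lit 55)]⟩, ⟨nat_lit 1, []⟩]
noncomputable def af8_4210 : AT := .l (nat_lit 7028) [⟨nat_lit 1, []⟩, ⟨nat_lit 1, []⟩, ⟨nat_lit 30027, [.sf (nat_lit 2) (nat_lit 9)]⟩, ⟨nat_lit 30028, [.sf (nat_lit 2) (nat_lit 56)]⟩]
noncomputable def AF8 : AT := .b (nat_lit 7020) (.b (nat_lit 7011) (.b (nat_lit 7008) (af8_1222) (.b (nat_lit 7010) (af8_2122) (af8_2212))) (.b (nat_lit 7014) (af8_2221) (.b (nat_lit 7018) (af8_2311) (af8_3121)))) (.b (nat_lit 7026) (.b (nat_lit 7021) (af8_3211) (.b (nat_lit 7025) (af8_3220) (af8_4111))) (.b (nat_lit 7027) (af8_4120) (.b (nat_lit 7028) (af8_4201) (af8_4210))))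
noncomputable def AT8 : AT := .b (nat_lit 7000) AW7 AF8
noncomputable def af9_2222 : AT := .l (nat_lit 8005) [⟨nat_lit 30040, [.sf (nat_lit 0x1000000000000000000000000000000000000000000000000000000000000000000000000000000000000000000000000000) (nat_lit 0)]⟩, ⟨nat_lit 1, []⟩, ⟨nat_lit 1, []⟩, ⟨nat_lit 1, []⟩]
noncomputable def af9_2321 : AT := .l (nat_lit 8008) [⟨nat_lit 30039, [.sf (nat_lit 0x1000000000000000000000000000000000000) (nat_lit 0)]⟩, ⟨nat_lit 1, []⟩, ⟨nat_lit 1, []⟩, ⟨nat_lit 1, []⟩]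
noncomputable def af9_3122 : AT := .l (nat_lit 8011) [⟨nat_lit 1, []⟩, ⟨nat_lit 30040, [.sf (nat_lit 0x1000000000000000000000000000000000000) (nat_lit 396)]⟩, ⟨nat_lit 1, []⟩, ⟨nat_lit 1, []⟩]
noncomputable def af9_3212 : AT := .l (nat_lit 8013) [⟨nat_lit 1, []⟩, ⟨nat_lit 1, []⟩, ⟨nat_lit 30040, [.sf (nat_lit 0x1000000000000000000000000000000000000) (nat_lit 540)]⟩, ⟨nat_lit 1, []⟩]
noncomputable def af9_3221 : AT := .l (nat_lit 8014) [⟨nat_lit 30037, [.sf (nat_lit 0x1000000000000000000000000000000000000) (nat_lit 0)]⟩, ⟨nat_lit 30039, [.sf (nat_lit 0x1000000000000000000000000000000000000) (nat_lit 144)]⟩, ⟨nat_lit 1, []⟩, ⟨nat_lit 30040, [.sf (nat_lit 0x1000000000000000000000000000000000000) (nat_lit 684)]⟩]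
noncomputable def af9_3311 : AT := .l (nat_lit 8017) [⟨nat_lit 30036, [.sf (nat_lit 0x400000000) (nat_lit 0)]⟩, ⟨nat_lit 1, []⟩, ⟨nat_lit 30039, [.sf (nat_lit 0x400000000) (nat_lit 288)]⟩, ⟨nat_lit 1, []⟩]
noncomputable def af9_3320 : AT := .l (nat_lit 8018) [⟨nat_lit 1, []⟩, ⟨nat_lit 1, []⟩, ⟨nat_lit 1, []⟩, ⟨nat_lit 30039, [.sf (nat_lit 16) (nat_lit 322)]⟩]
noncomputable def af9_4121 : AT := .l (nat_lit 8021) [⟨nat_lit 1, []⟩, ⟨nat_lit 30037, [.sf (nat_lit 0x200000) (nat_lit 144)]⟩, ⟨nat_lit 1, []⟩, ⟨nat_lit 1, []⟩]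
noncomputable def af9_4211 : AT := .l (nat_lit 8023) [⟨nat_lit 30034, [.sf (nat_lit 0x200000) (nat_lit 0)]⟩, ⟨nat_lit 30036, [.sf (nat_lit 0x200000) (nat_lit 34)]⟩, ⟨nat_lit 30037, [.sf (nat_lit 0x200000) (nat_lit 165)]⟩, ⟨nat_lit 1, []⟩]
noncomputable def af9_4220 : AT := .l (nat_lit 8024) [⟨nat_lit 30033, [.sf (nat_lit 32) (nat_lit 0)]⟩, ⟨nat_lit 1, []⟩, ⟨nat_lit 1, []⟩, ⟨nat_lit 30037, [.sf (nat_lit 32) (nat_lit 186)]⟩]
noncomputable def AF9 : AT := .b (nat_lit 8017) (.b (nat_lit 8011) (.b (nat_lit 8008) (af9_2222) (af9_2321)) (.b (nat_lit 8013) (af9_3122) (.b (nat_lit 8014) (af9_3212) (af9_3221)))) (.b (nat_lit 8021) (.b (nat_lit 8018) (af9_3311) (af9_3320)) (.b (nat_lit 8023) (af9_4121) (.b (nat_lit 8024) (af9_4211) (af9_4220))))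
noncomputable def AT9 : AT := .b (nat_lit 8000) AW8 AF9
noncomputable def af10_2322 : AT := .l (nat_lit 9002) [⟨nat_lit 30052, [.sf (nat_lit 0x200000000000000000000000000000000000000000000000000000000000000000000000000000000000000000000000000000000000000000000000000000) (nat_lit 0)]⟩, ⟨nat_lit 1, []⟩, ⟨nat_lit 1, []⟩, ⟨nat_lit 1, []⟩]
noncomputable def af10_2331 : AT := .l (nat_lit 9003) [⟨nat_lit 30051, [.sf (nat_lit 0x1000000000000000000000000000000000000) (nat_lit 0)]⟩, ⟨nat_lit 1, []⟩, ⟨nat_lit 1, []⟩, ⟨nat_lit 1, []⟩]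
noncomputable def af10_3222 : AT := .l (nat_lit 9005) [⟨nat_lit 30050, [.sf (nat_lit 0x200000000000000000000000000000000000000000000000000000000000000000000000000000000000000000000000000000000000000000000000000000) (nat_lit 0)]⟩, ⟨nat_lit 30052, [.sf (nat_lit 0x200000000000000000000000000000000000000000000000000000000000000000000000000000000000000000000000000000000000000000000000000000) (nat_lit 501)]⟩, ⟨nat_lit 1, []⟩, ⟨nat_lit 1, []⟩]
noncomputable def af10_3231 : AT := .l (nat_lit 9006) [⟨nat_lit 1, []⟩, ⟨nat_lit 30051, [.sf (nat_lit 0x1000000000000000000000000000000000000) (nat_lit 144)]⟩, ⟨nat_lit 1, []⟩, ⟨nat_lit 1, []⟩]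
noncomputable def af10_3312 : AT := .l (nat_lit 9007) [⟨nat_lit 1, []⟩, ⟨nat_lit 1, []⟩, ⟨nat_lit 30052, [.sf (nat_lit 0x1000000000000000000000000000000000000) (nat_lit 1002)]⟩, ⟨nat_lit 1, []⟩]
noncomputable def af10_3321 : AT := .l (nat_lit 9008) [⟨nat_lit 30049, [.sf (nat_lit 0x1000000000000000000000000000000000000) (nat_lit 0)]⟩, ⟨nat_lit 1, []⟩, ⟨nat_lit 30051, [.sf (nat_lit 0x1000000000000000000000000000000000000) (nat_lit 288)]⟩, ⟨nat_lit 30052, [.sf (nat_lit 0x1000000000000000000000000000000000000) (nat_lit 1146)]⟩]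
noncomputable def af10_4122 : AT := .l (nat_lit 9009) [⟨nat_lit 1, []⟩, ⟨nat_lit 30050, [.sf (nat_lit 0x8000000000000000000000) (nat_lit 501)]⟩, ⟨nat_lit 1, []⟩, ⟨nat_lit 1, []⟩]
noncomputable def af10_4212 : AT := .l (nat_lit 9010) [⟨nat_lit 1, []⟩, ⟨nat_lit 1, []⟩, ⟨nat_lit 30050, [.sf (nat_lit 0x8000000000000000000000) (nat_lit 588)]⟩, ⟨nat_lit 1, []⟩]
noncomputable def af10_4221 : AT := .l (nat_lit 9011) [⟨nat_lit 30045, [.sf (nat_lit 0x8000000000000000000000) (nat_lit 0)]⟩, ⟨nat_lit 30049, [.sf (nat_lit 0x8000000000000000000000) (nat_lit 144)]⟩, ⟨nat_lit 1, []⟩, ⟨nat_lit 30050, [.sf (nat_lit 0x8000000000000000000000) (nat_lit 675)]⟩]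
noncomputable def af10_4311 : AT := .l (nat_lit 9013) [⟨nat_lit 1, []⟩, ⟨nat_lit 1, []⟩, ⟨nat_lit 30049, [.sf (nat_lit 1024) (nat_lit 231)]⟩, ⟨nat_lit 1, []⟩]
noncomputable def af10_4320 : AT := .l (nat_lit 9014) [⟨nat_lit 1, []⟩, ⟨nat_lit 1, []⟩, ⟨nat_lit 1, []⟩, ⟨nat_lit 30049, [.sf (nat_lit 2) (nat_lit 241)]⟩]
noncomputable def af10_5121 : AT := .l (nat_lit 9017) [⟨nat_lit 1, []⟩, ⟨nat_lit 30045, [.sf (nat_lit 8) (nat_lit 87)]⟩, ⟨nat_lit 1, []⟩, ⟨nat_lit 1, []⟩]
noncomputable def af10_5211 : AT := .l (nat_lit 9019) [⟨nat_lit 1, []⟩, ⟨nat_lit 1, []⟩, ⟨nat_lit 30045, [.sf (nat_lit 8) (nat_lit 90)]⟩, ⟨nat_lit 1, []⟩]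
noncomputable def af10_5220 : AT := .l (nat_lit 9020) [⟨nat_lit 1, []⟩, ⟨nat_lit 1, []⟩, ⟨nat_lit 1, []⟩, ⟨nat_lit 30045, [.sf (nat_lit 2) (nat_lit 93)]⟩]
noncomputable def AF10 : AT := .b (nat_lit 9010) (.b (nat_lit 9006) (.b (nat_lit 9003) (af10_2322) (.b (nat_lit 9005) (af10_2331) (af10_3222))) (.b (nat_lit 9008) (.b (nat_lit 9007) (af10_3231) (af10_3312)) (.b (nat_lit 9009) (af10_3321) (af10_4122)))) (.b (nat_lit 9014) (.b (nat_lit 9011) (af10_4212) (.b (nat_lit 9013) (af10_4221) (af10_4311))) (.b (nat_lit 9019) (.b (nat_lit 9017) (af10_4320) (af10_5121)) (.b (nat_lit 9020) (af10_5211) (af10_5220))))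
noncomputable def AT10 : AT := .b (nat_lit 9000) AW9 AF10
noncomputable def af11_2332 : AT := .l (nat_lit 10000) [⟨nat_lit 30059, [.sf (nat_lit 0x4000000000000000000000000000000000000000000000000000000000000000000000000000000000000000000000000000000000000000000000000000000000000000000000000000000000000000) (nat_lit 0)]⟩, ⟨nat_lit 1, []⟩, ⟨nat_lit 1, []⟩, ⟨nat_lit 1, []⟩]
noncomputable def af11_3232 : AT := .l (nat_lit 10001) [⟨nat_lit 1, []⟩, ⟨nat_lit 30059, [.sf (nat_lit 0x4000000000000000000000000000000000000000000000000000000000000000000000000000000000000000000000000000000000000000000000000000000000000000000000000000000000000000) (nat_lit 638)]⟩, ⟨nat_lit 1, []⟩, ⟨nat_lit 1, []⟩]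
noncomputable def af11_3322 : AT := .l (nat_lit 10002) [⟨nat_lit 30058, [.sf (nat_lit 0x4000000000000000000000000000000000000000000000000000000000000000000000000000000000000000000000000000000000000000000000000000000000000000000000000000000000000000) (nat_lit 0)]⟩, ⟨nat_lit 1, []⟩, ⟨nat_lit 30059, [.sf (nat_lit 0x4000000000000000000000000000000000000000000000000000000000000000000000000000000000000000000000000000000000000000000000000000000000000000000000000000000000000000) (nat_lit 1276)]⟩, ⟨nat_lit 1, []⟩]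
noncomputable def af11_3331 : AT := .l (nat_lit 10003) [⟨nat_lit 1, []⟩, ⟨nat_lit 1, []⟩, ⟨nat_lit 1, []⟩, ⟨nat_lit 30059, [.sf (nat_lit 0x40000000000000000000000000000000) (nat_lit 1914)]⟩]
noncomputable def af11_4222 : AT := .l (nat_lit 10004) [⟨nat_lit 30055, [.sf (nat_lit 0x40000000000000000000000000000000000000000000000000000000000000000000000000000000000000000000) (nat_lit 0)]⟩, ⟨nat_lit 30058, [.sf (nat_lit 0x40000000000000000000000000000000000000000000000000000000000000000000000000000000000000000000) (nat_lit 638)]⟩, ⟨nat_lit 1, []⟩, ⟨nat_lit 1, []⟩]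
noncomputable def af11_4312 : AT := .l (nat_lit 10005) [⟨nat_lit 1, []⟩, ⟨nat_lit 1, []⟩, ⟨nat_lit 30058, [.sf (nat_lit 0x100000000000000000) (nat_lit 1004)]⟩, ⟨nat_lit 1, []⟩]
noncomputable def af11_4321 : AT := .l (nat_lit 10006) [⟨nat_lit 30054, [.sf (nat_lit 0x100000000000000000) (nat_lit 0)]⟩, ⟨nat_lit 1, []⟩, ⟨nat_lit 1, []⟩, ⟨nat_lit 30058, [.sf (nat_lit 0x100000000000000000) (nat_lit 1072)]⟩]
noncomputable def af11_5122 : AT := .l (nat_lit 10007) [⟨nat_lit 1, []⟩, ⟨nat_lit 30055, [.sf (nat_lit 0x800000) (nat_lit 366)]⟩, ⟨nat_lit 1, []⟩, ⟨nat_lit 1, []⟩]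
noncomputable def af11_5212 : AT := .l (nat_lit 10008) [⟨nat_lit 1, []⟩, ⟨nat_lit 1, []⟩, ⟨nat_lit 30055, [.sf (nat_lit 0x800000) (nat_lit 389)]⟩, ⟨nat_lit 1, []⟩]
noncomputable def af11_5221 : AT := .l (nat_lit 10009) [⟨nat_lit 1, []⟩, ⟨nat_lit 30054, [.sf (nat_lit 0x800000) (nat_lit 68)]⟩, ⟨nat_lit 1, []⟩, ⟨nat_lit 30055, [.sf (nat_lit 0x800000) (nat_lit 412)]⟩]
noncomputable def AF11 : AT := .b (nat_lit 10005) (.b (nat_lit 10002) (.b (nat_lit 10001) (af11_2332) (af11_3232)) (.b (nat_lit 10003) (af11_3322) (.b (nat_lit 10004) (af11_3331) (af11_4222)))) (.b (nat_lit 10007) (.b (nat_lit 10006) (af11_4312) (af11_4321)) (.b (nat_lit 10008) (af11_5122) (.b (nat_lit 10009) (af11_5212) (af11_5221))))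
noncomputable def AT11 : AT := .b (nat_lit 10000) AW10 AF11

noncomputable def F1000 : List (ℕ → ℕ) := [zf, zf, zf, zf, zf]
noncomputable def F2000 : List (ℕ → ℕ) := [srcRow N1000 X1000 pL2000_0, zf, zf, zf, nthL [nat_lit 1]]
noncomputable def F1100 : List (ℕ → ℕ) := [srcRow N1000 X1000 pL1100_0, srcRow N1000 X1000 pL1100_1, zf, zf, zf]
noncomputable def F2100 : List (ℕ → ℕ) := [srcRow N1100 X1100 pL2100_0, srcRow N2000 X2000 pL2100_1, zf, zf, zf]
noncomputable def F1110 : List (ℕ → ℕ) := [srcRow N1100 X1100 pL1110_0, srcRow N1100 X1100 pL1110_1, srcRow N1100 X1100 pL1110_2, zf, zf]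
noncomputable def F3100 : List (ℕ → ℕ) := [srcRow N2100 X2100 pL3100_0, zf, zf, zf, zf]
noncomputable def F2200 : List (ℕ → ℕ) := [srcRow N2100 X2100 pL2200_0, srcRow N2100 X2100 pL2200_1, zf, zf, nthL (gList G2200)]
noncomputable def F2110 : List (ℕ → ℕ) := [srcRow N1110 X1110 pL2110_0, srcRow N2100 X2100 pL2110_1, srcRow N2100 X2100 pL2110_2, zf, zf]
noncomputable def F1111 : List (ℕ → ℕ) := [srcRow N1110 X1110 pL1111_0, srcRow N1110 X1110 pL1111_1, srcRow N1110 X1110 pL1111_2, srcRow N1110 X1110 pL1111_3, zf]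
noncomputable def F3110 : List (ℕ → ℕ) := [srcRow N2110 X2110 pL3110_0, srcRow N3100 X3100 pL3110_1, srcRow N3100 X3100 pL3110_2, zf, zf]
noncomputable def F2210 : List (ℕ → ℕ) := [srcRow N2110 X2110 pL2210_0, srcRow N2110 X2110 pL2210_1, srcRow N2200 X2200 pL2210_2, zf, nthL (gList G2210)]
noncomputable def F2111 : List (ℕ → ℕ) := [srcRow N1111 X1111 pL2111_0, srcRow N2110 X2110 pL2111_1, srcRow N2110 X2110 pL2111_2, srcRow N2110 X2110 pL2111_3, zf]
noncomputable def F4110 : List (ℕ → ℕ) := [srcRow N3110 X3110 pL4110_0, zf, zf, zf, zf]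
noncomputable def F3210 : List (ℕ → ℕ) := [srcRow N2210 X2210 pL3210_0, srcRow N3110 X3110 pL3210_1, zf, zf, zf]
noncomputable def F3111 : List (ℕ → ℕ) := [srcRow N2111 X2111 pL3111_0, srcRow N3110 X3110 pL3111_1, srcRow N3110 X3110 pL3111_2, srcRow N3110 X3110 pL3111_3, zf]
noncomputable def F2220 : List (ℕ → ℕ) := [srcRow N2210 X2210 pL2220_0, srcRow N2210 X2210 pL2220_1, srcRow N2210 X2210 pL2220_2, zf, zf]
noncomputable def F2211 : List (ℕ → ℕ) := [srcRow N2111 X2111 pL2211_0, srcRow N2111 X2111 pL2211_1, srcRow N2210 X2210 pL2211_2, srcRow N2210 X2210 pL2211_3, nthL (gList G2211)]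
noncomputable def F4210 : List (ℕ → ℕ) := [srcRow N3210 X3210 pL4210_0, srcRow N4110 X4110 pL4210_1, zf, zf, zf]
noncomputable def F4111 : List (ℕ → ℕ) := [srcRow N3111 X3111 pL4111_0, srcRow N4110 X4110 pL4111_1, srcRow N4110 X4110 pL4111_2, srcRow N4110 X4110 pL4111_3, nthL (gList G4111)]
noncomputable def F3310 : List (ℕ → ℕ) := [srcRow N3210 X3210 pL3310_0, srcRow N3210 X3210 pL3310_1, zf, zf, zf]
noncomputable def F3220 : List (ℕ → ℕ) := [srcRow N2220 X2220 pL3220_0, srcRow N3210 X3210 pL3220_1, srcRow N3210 X3210 pL3220_2, zf, zf]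
noncomputable def F3211 : List (ℕ → ℕ) := [srcRow N2211 X2211 pL3211_0, srcRow N3111 X3111 pL3211_1, srcRow N3210 X3210 pL3211_2, srcRow N3210 X3210 pL3211_3, nthL (gList G3211)]
noncomputable def F2221 : List (ℕ → ℕ) := [srcRow N2211 X2211 pL2221_0, srcRow N2211 X2211 pL2221_1, srcRow N2211 X2211 pL2221_2, srcRow N2220 X2220 pL2221_3, nthL (gList G2221)]
noncomputable def F5210 : List (ℕ → ℕ) := [srcRow N4210 X4210 pL5210_0, zf, zf, zf, zf]
noncomputable def F5111 : List (ℕ → ℕ) := [srcRow N4111 X4111 pL5111_0, zf, zf, zf, zf]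
noncomputable def F4310 : List (ℕ → ℕ) := [srcRow N3310 X3310 pL4310_0, srcRow N4210 X4210 pL4310_1, zf, zf, zf]
noncomputable def F4220 : List (ℕ → ℕ) := [srcRow N3220 X3220 pL4220_0, srcRow N4210 X4210 pL4220_1, srcRow N4210 X4210 pL4220_2, zf, nthL (gList G4220)]
noncomputable def F4211 : List (ℕ → ℕ) := [srcRow N3211 X3211 pL4211_0, srcRow N4111 X4111 pL4211_1, srcRow N4210 X4210 pL4211_2, srcRow N4210 X4210 pL4211_3, nthL (gList G4211)]
noncomputable def F3320 : List (ℕ → ℕ) := [srcRow N3220 X3220 pL3320_0, srcRow N3220 X3220 pL3320_1, srcRow N3310 X3310 pL3320_2, zf, zf]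
noncomputable def F3311 : List (ℕ → ℕ) := [srcRow N3211 X3211 pL3311_0, srcRow N3211 X3211 pL3311_1, srcRow N3310 X3310 pL3311_2, srcRow N3310 X3310 pL3311_3, nthL (gList G3311)]
noncomputable def F3221 : List (ℕ → ℕ) := [srcRow N2221 X2221 pL3221_0, srcRow N3211 X3211 pL3221_1, srcRow N3211 X3211 pL3221_2, srcRow N3220 X3220 pL3221_3, nthL (gList G3221)]
noncomputable def F2222 : List (ℕ → ℕ) := [srcRow N2221 X2221 pL2222_0, srcRow N2221 X2221 pL2222_1, srcRow N2221 X2221 pL2222_2, srcRow N2221 X2221 pL2222_3, nthL (gList G2222)]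
noncomputable def F5220 : List (ℕ → ℕ) := [srcRow N4220 X4220 pL5220_0, srcRow N5210 X5210 pL5220_1, srcRow N5210 X5210 pL5220_2, zf, nthL (gList G5220)]
noncomputable def F5211 : List (ℕ → ℕ) := [srcRow N4211 X4211 pL5211_0, srcRow N5111 X5111 pL5211_1, srcRow N5210 X5210 pL5211_2, srcRow N5210 X5210 pL5211_3, nthL (gList G5211)]
noncomputable def F4320 : List (ℕ → ℕ) := [srcRow N3320 X3320 pL4320_0, srcRow N4220 X4220 pL4320_1, srcRow N4310 X4310 pL4320_2, zf, zf]
noncomputable def F4311 : List (ℕ → ℕ) := [srcRow N3311 X3311 pL4311_0, srcRow N4211 X4211 pL4311_1, srcRow N4310 X4310 pL4311_2, srcRow N4310 X4310 pL4311_3, nthL (gList G4311)]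
noncomputable def F4221 : List (ℕ → ℕ) := [srcRow N3221 X3221 pL4221_0, srcRow N4211 X4211 pL4221_1, srcRow N4211 X4211 pL4221_2, srcRow N4220 X4220 pL4221_3, nthL (gList G4221)]
noncomputable def F3330 : List (ℕ → ℕ) := [srcRow N3320 X3320 pL3330_0, srcRow N3320 X3320 pL3330_1, srcRow N3320 X3320 pL3330_2, zf, zf]
noncomputable def F3321 : List (ℕ → ℕ) := [srcRow N3221 X3221 pL3321_0, srcRow N3221 X3221 pL3321_1, srcRow N3311 X3311 pL3321_2, srcRow N3320 X3320 pL3321_3, nthL (gList G3321)]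
noncomputable def F3222 : List (ℕ → ℕ) := [srcRow N2222 X2222 pL3222_0, srcRow N3221 X3221 pL3222_1, srcRow N3221 X3221 pL3222_2, srcRow N3221 X3221 pL3222_3, nthL (gList G3222)]
noncomputable def F6220 : List (ℕ → ℕ) := [srcRow N5220 X5220 pL6220_0, zf, zf, zf, zf]
noncomputable def F6211 : List (ℕ → ℕ) := [srcRow N5211 X5211 pL6211_0, zf, zf, zf, zf]
noncomputable def F5320 : List (ℕ → ℕ) := [srcRow N4320 X4320 pL5320_0, srcRow N5220 X5220 pL5320_1, zf, zf, zf]
noncomputable def F5311 : List (ℕ → ℕ) := [srcRow N4311 X4311 pL5311_0, srcRow N5211 X5211 pL5311_1, zf, zf, zf]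
noncomputable def F5221 : List (ℕ → ℕ) := [srcRow N4221 X4221 pL5221_0, srcRow N5211 X5211 pL5221_1, srcRow N5211 X5211 pL5221_2, srcRow N5220 X5220 pL5221_3, nthL (gList G5221)]
noncomputable def F4420 : List (ℕ → ℕ) := [srcRow N4320 X4320 pL4420_0, srcRow N4320 X4320 pL4420_1, zf, zf, zf]
noncomputable def F4411 : List (ℕ → ℕ) := [srcRow N4311 X4311 pL4411_0, srcRow N4311 X4311 pL4411_1, zf, zf, zf]
noncomputable def F4330 : List (ℕ → ℕ) := [srcRow N3330 X3330 pL4330_0, srcRow N4320 X4320 pL4330_1, srcRow N4320 X4320 pL4330_2, zf, zf]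
noncomputable def F4321 : List (ℕ → ℕ) := [srcRow N3321 X3321 pL4321_0, srcRow N4221 X4221 pL4321_1, srcRow N4311 X4311 pL4321_2, srcRow N4320 X4320 pL4321_3, nthL (gList G4321)]
noncomputable def F4222 : List (ℕ → ℕ) := [srcRow N3222 X3222 pL4222_0, srcRow N4221 X4221 pL4222_1, srcRow N4221 X4221 pL4222_2, srcRow N4221 X4221 pL4222_3, nthL (gList G4222)]
noncomputable def F3331 : List (ℕ → ℕ) := [srcRow N3321 X3321 pL3331_0, srcRow N3321 X3321 pL3331_1, srcRow N3321 X3321 pL3331_2, srcRow N3330 X3330 pL3331_3, nthL (gList G3331)]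
noncomputable def F3322 : List (ℕ → ℕ) := [srcRow N3222 X3222 pL3322_0, srcRow N3222 X3222 pL3322_1, srcRow N3321 X3321 pL3322_2, srcRow N3321 X3321 pL3322_3, nthL (gList G3322)]
noncomputable def F6221 : List (ℕ → ℕ) := [srcRow N5221 X5221 pL6221_0, srcRow N6211 X6211 pL6221_1, srcRow N6211 X6211 pL6221_2, srcRow N6220 X6220 pL6221_3, zf]
noncomputable def F5321 : List (ℕ → ℕ) := [srcRow N4321 X4321 pL5321_0, srcRow N5221 X5221 pL5321_1, srcRow N5311 X5311 pL5321_2, srcRow N5320 X5320 pL5321_3, nthL (gList G5321)]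
noncomputable def F5222 : List (ℕ → ℕ) := [srcRow N4222 X4222 pL5222_0, srcRow N5221 X5221 pL5222_1, srcRow N5221 X5221 pL5222_2, srcRow N5221 X5221 pL5222_3, nthL (gList G5222)]
noncomputable def F4421 : List (ℕ → ℕ) := [srcRow N4321 X4321 pL4421_0, srcRow N4321 X4321 pL4421_1, srcRow N4411 X4411 pL4421_2, srcRow N4420 X4420 pL4421_3, zf]
noncomputable def F4331 : List (ℕ → ℕ) := [srcRow N3331 X3331 pL4331_0, srcRow N4321 X4321 pL4331_1, srcRow N4321 X4321 pL4331_2, srcRow N4330 X4330 pL4331_3, zf]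
noncomputable def F4322 : List (ℕ → ℕ) := [srcRow N3322 X3322 pL4322_0, srcRow N4222 X4222 pL4322_1, srcRow N4321 X4321 pL4322_2, srcRow N4321 X4321 pL4322_3, nthL (gList G4322)]
noncomputable def F3332 : List (ℕ → ℕ) := [srcRow N3322 X3322 pL3332_0, srcRow N3322 X3322 pL3332_1, srcRow N3322 X3322 pL3332_2, srcRow N3331 X3331 pL3332_3, nthL (gList G3332)]
noncomputable def F7221 : List (ℕ → ℕ) := [srcRow N6221 X6221 pL7221_0, zf, zf, zf, zf]
noncomputable def F6321 : List (ℕ → ℕ) := [srcRow N5321 X5321 pL6321_0, srcRow N6221 X6221 pL6321_1, zf, zf, zf]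
noncomputable def F6222 : List (ℕ → ℕ) := [srcRow N5222 X5222 pL6222_0, srcRow N6221 X6221 pL6222_1, srcRow N6221 X6221 pL6222_2, srcRow N6221 X6221 pL6222_3, zf]
noncomputable def F5421 : List (ℕ → ℕ) := [srcRow N4421 X4421 pL5421_0, srcRow N5321 X5321 pL5421_1, zf, zf, zf]
noncomputable def F5331 : List (ℕ → ℕ) := [srcRow N4331 X4331 pL5331_0, srcRow N5321 X5321 pL5331_1, srcRow N5321 X5321 pL5331_2, zf, zf]
noncomputable def F5322 : List (ℕ → ℕ) := [srcRow N4322 X4322 pL5322_0, srcRow N5222 X5222 pL5322_1, srcRow N5321 X5321 pL5322_2, srcRow N5321 X5321 pL5322_3, zf]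
noncomputable def F4431 : List (ℕ → ℕ) := [srcRow N4331 X4331 pL4431_0, srcRow N4331 X4331 pL4431_1, srcRow N4421 X4421 pL4431_2, zf, zf]
noncomputable def F4422 : List (ℕ → ℕ) := [srcRow N4322 X4322 pL4422_0, srcRow N4322 X4322 pL4422_1, srcRow N4421 X4421 pL4422_2, srcRow N4421 X4421 pL4422_3, zf]
noncomputable def F4332 : List (ℕ → ℕ) := [srcRow N3332 X3332 pL4332_0, srcRow N4322 X4322 pL4332_1, srcRow N4322 X4322 pL4332_2, srcRow N4331 X4331 pL4332_3, zf]
noncomputable def F3333 : List (ℕ → ℕ) := [srcRow N3332 X3332 pL3333_0, srcRow N3332 X3332 pL3333_1, srcRow N3332 X3332 pL3333_2, srcRow N3332 X3332 pL3333_3, zf]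
noncomputable def F7222 : List (ℕ → ℕ) := [srcRow N6222 X6222 pL7222_0, srcRow N7221 X7221 pL7222_1, srcRow N7221 X7221 pL7222_2, srcRow N7221 X7221 pL7222_3, zf]
noncomputable def F6421 : List (ℕ → ℕ) := [srcRow N5421 X5421 pL6421_0, srcRow N6321 X6321 pL6421_1, zf, zf, zf]
noncomputable def F6322 : List (ℕ → ℕ) := [srcRow N5322 X5322 pL6322_0, srcRow N6222 X6222 pL6322_1, srcRow N6321 X6321 pL6322_2, srcRow N6321 X6321 pL6322_3, zf]
noncomputable def F5521 : List (ℕ → ℕ) := [srcRow N5421 X5421 pL5521_0, srcRow N5421 X5421 pL5521_1, zf, zf, zf]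
noncomputable def F5431 : List (ℕ → ℕ) := [srcRow N4431 X4431 pL5431_0, srcRow N5331 X5331 pL5431_1, srcRow N5421 X5421 pL5431_2, zf, zf]
noncomputable def F5422 : List (ℕ → ℕ) := [srcRow N4422 X4422 pL5422_0, srcRow N5322 X5322 pL5422_1, srcRow N5421 X5421 pL5422_2, srcRow N5421 X5421 pL5422_3, zf]
noncomputable def F5332 : List (ℕ → ℕ) := [srcRow N4332 X4332 pL5332_0, srcRow N5322 X5322 pL5332_1, srcRow N5322 X5322 pL5332_2, srcRow N5331 X5331 pL5332_3, zf]
noncomputable def F4441 : List (ℕ → ℕ) := [srcRow N4431 X4431 pL4441_0, srcRow N4431 X4431 pL4441_1, srcRow N4431 X4431 pL4441_2, zf, zf]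
noncomputable def F4432 : List (ℕ → ℕ) := [srcRow N4332 X4332 pL4432_0, srcRow N4332 X4332 pL4432_1, srcRow N4422 X4422 pL4432_2, srcRow N4431 X4431 pL4432_3, zf]
noncomputable def F4333 : List (ℕ → ℕ) := [srcRow N3333 X3333 pL4333_0, srcRow N4332 X4332 pL4333_1, srcRow N4332 X4332 pL4333_2, srcRow N4332 X4332 pL4333_3, zf]
noncomputable def F8222 : List (ℕ → ℕ) := [srcRow N7222 X7222 pL8222_0, zf, zf, zf, zf]
noncomputable def F7322 : List (ℕ → ℕ) := [srcRow N6322 X6322 pL7322_0, srcRow N7222 X7222 pL7322_1, zf, zf, zf]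
noncomputable def F6422 : List (ℕ → ℕ) := [srcRow N5422 X5422 pL6422_0, srcRow N6322 X6322 pL6422_1, srcRow N6421 X6421 pL6422_2, srcRow N6421 X6421 pL6422_3, zf]
noncomputable def F6332 : List (ℕ → ℕ) := [srcRow N5332 X5332 pL6332_0, srcRow N6322 X6322 pL6332_1, srcRow N6322 X6322 pL6332_2, zf, zf]
noncomputable def F5522 : List (ℕ → ℕ) := [srcRow N5422 X5422 pL5522_0, srcRow N5422 X5422 pL5522_1, srcRow N5521 X5521 pL5522_2, srcRow N5521 X5521 pL5522_3, zf]
noncomputable def F5432 : List (ℕ → ℕ) := [srcRow N4432 X4432 pL5432_0, srcRow N5332 X5332 pL5432_1, srcRow N5422 X5422 pL5432_2, srcRow N5431 X5431 pL5432_3, zf]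
noncomputable def F5333 : List (ℕ → ℕ) := [srcRow N4333 X4333 pL5333_0, srcRow N5332 X5332 pL5333_1, srcRow N5332 X5332 pL5333_2, srcRow N5332 X5332 pL5333_3, zf]
noncomputable def F4442 : List (ℕ → ℕ) := [srcRow N4432 X4432 pL4442_0, srcRow N4432 X4432 pL4442_1, srcRow N4432 X4432 pL4442_2, srcRow N4441 X4441 pL4442_3, zf]
noncomputable def F4433 : List (ℕ → ℕ) := [srcRow N4333 X4333 pL4433_0, srcRow N4333 X4333 pL4433_1, srcRow N4432 X4432 pL4433_2, srcRow N4432 X4432 pL4433_3, zf]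
noncomputable def F7422 : List (ℕ → ℕ) := [srcRow N6422 X6422 pL7422_0, srcRow N7322 X7322 pL7422_1, zf, zf, zf]
noncomputable def F6522 : List (ℕ → ℕ) := [srcRow N5522 X5522 pL6522_0, srcRow N6422 X6422 pL6522_1, zf, zf, zf]
noncomputable def F6432 : List (ℕ → ℕ) := [srcRow N5432 X5432 pL6432_0, srcRow N6332 X6332 pL6432_1, srcRow N6422 X6422 pL6432_2, zf, zf]
noncomputable def F6333 : List (ℕ → ℕ) := [srcRow N5333 X5333 pL6333_0, srcRow N6332 X6332 pL6333_1, srcRow N6332 X6332 pL6333_2, srcRow N6332 X6332 pL6333_3, zf]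
noncomputable def F5532 : List (ℕ → ℕ) := [srcRow N5432 X5432 pL5532_0, srcRow N5432 X5432 pL5532_1, srcRow N5522 X5522 pL5532_2, zf, zf]
noncomputable def F5442 : List (ℕ → ℕ) := [srcRow N4442 X4442 pL5442_0, srcRow N5432 X5432 pL5442_1, srcRow N5432 X5432 pL5442_2, zf, zf]
noncomputable def F5433 : List (ℕ → ℕ) := [srcRow N4433 X4433 pL5433_0, srcRow N5333 X5333 pL5433_1, srcRow N5432 X5432 pL5433_2, srcRow N5432 X5432 pL5433_3, zf]
noncomputable def F4443 : List (ℕ → ℕ) := [srcRow N4433 X4433 pL4443_0, srcRow N4433 X4433 pL4443_1, srcRow N4433 X4433 pL4443_2, srcRow N4442 X4442 pL4443_3, zf]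
noncomputable def F6433 : List (ℕ → ℕ) := [srcRow N5433 X5433 pL6433_0, srcRow N6333 X6333 pL6433_1, srcRow N6432 X6432 pL6433_2, srcRow N6432 X6432 pL6433_3, zf]
noncomputable def F5533 : List (ℕ → ℕ) := [srcRow N5433 X5433 pL5533_0, srcRow N5433 X5433 pL5533_1, srcRow N5532 X5532 pL5533_2, srcRow N5532 X5532 pL5533_3, zf]
noncomputable def F5443 : List (ℕ → ℕ) := [srcRow N4443 X4443 pL5443_0, srcRow N5433 X5433 pL5443_1, srcRow N5433 X5433 pL5443_2, srcRow N5442 X5442 pL5443_3, zf]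
noncomputable def F4444 : List (ℕ → ℕ) := [srcRow N4443 X4443 pL4444_0, srcRow N4443 X4443 pL4444_1, srcRow N4443 X4443 pL4444_2, srcRow N4443 X4443 pL4444_3, zf]

end Pool.Agent.L3E.GJ
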