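import Pool.Agent.L3E.GJ.Gen

set_option autoImplicit false

/-!
# L3E, module GJ.Pre: preparations for the block tables
-/

namespace Pool.Agent.L3E.GJ

section
variable {K : Type} [Ring K]

/-- Four letters of `A`. -/
structure Q (A : Set K) (a b c d : K) : Prop where
  h : RlS A
  a : a ∈ A
  b : b ∈ A
  c : c ∈ A
  d : d ∈ A

theorem Q.p0123 {A : Set K} {a b c d : K} (h : Q A a b c d) : Q A a b c d :=
  ⟨h.h, h.a, h.b, h.c, h.d⟩

theorem Q.p0132 {A : Set K} {a b c d : K} (h : Q A a b c d) : Q A a b d c :=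
  ⟨h.h, h.a, h.b, h.d, h.c⟩

theorem Q.p0213 {A : Set K} {a b c d : K} (h : Q A a b c d) : Q A a c b d :=
  ⟨h.h, h.a, h.c, h.b, h.d⟩

theorem Q.p0231 {A : Set K} {a b c d : K} (h : Q A a b c d) : Q A a c d b :=
  ⟨h.h, h.a, h.c, h.d, h.b⟩

theorem Q.p0312 {A : Set K} {a b c d : K} (h : Q A a b c d) : Q A a d b c :=
  ⟨h.h, h.a, h.d, h.b, h.c⟩

theorem Q.p0321 {A : Set K} {a b c d : K} (h : Q A a b c d) : Q A a d c b :=
  ⟨h.h, h.a, h.d, h.c, h.b⟩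

theorem Q.p1023 {A : Set K} {a b c d : K} (h : Q A a b c d) : Q A b a c d :=
  ⟨h.h, h.b, h.a, h.c, h.d⟩

theorem Q.p1032 {A : Set K} {a b c d : K} (h : Q A a b c d) : Q A b a d c :=
  ⟨h.h, h.b, h.a, h.d, h.c⟩

theorem Q.p1203 {A : Set K} {a b c d : K} (h : Q A a b c d) : Q A b c a d :=
  ⟨h.h, h.b, h.c, h.a, h.d⟩

theorem Q.p1230 {A : Set K} {a b c d : K} (h : Q A a b c d) : Q A b c d a :=
  ⟨h.h, h.b, h.c, h.d, h.a⟩

theorem Q.p1302 {A : Set K} {a b c d : K} (h : Q A a b c d) : Q A b d a c :=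
  ⟨h.h, h.b, h.d, h.a, h.c⟩

theorem Q.p1320 {A : Set K} {a b c d : K} (h : Q A a b c d) : Q A b d c a :=
  ⟨h.h, h.b, h.d, h.c, h.a⟩

theorem Q.p2013 {A : Set K} {a b c d : K} (h : Q A a b c d) : Q A c a b d :=
  ⟨h.h, h.c, h.a, h.b, h.d⟩

theorem Q.p2031 {A : Set K} {a b c d : K} (h : Q A a b c d) : Q A c a d b :=
  ⟨h.h, h.c, h.a, h.d, h.b⟩

theorem Q.p2103 {A : Set K} {a b c d : K} (h : Q A a b c d) : Q A c b a d :=
  ⟨h.h, h.c, h.b, h.a, h.d⟩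

theorem Q.p2130 {A : Set K} {a b c d : K} (h : Q A a b c d) : Q A c b d a :=
  ⟨h.h, h.c, h.b, h.d, h.a⟩

theorem Q.p2301 {A : Set K} {a b c d : K} (h : Q A a b c d) : Q A c d a b :=
  ⟨h.h, h.c, h.d, h.a, h.b⟩

theorem Q.p2310 {A : Set K} {a b c d : K} (h : Q A a b c d) : Q A c d b a :=
  ⟨h.h, h.c, h.d, h.b, h.a⟩

theorem Q.p3012 {A : Set K} {a b c d : K} (h : Q A a b c d) : Q A d a b c :=
  ⟨h.h, h.d, h.a, h.b, h.c⟩

theorem Q.p3021 {A : Set K} {a b c d : K} (h : Q A a b c d) : Q A d a c b :=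
  ⟨h.h, h.d, h.a, h.c, h.b⟩

theorem Q.p3102 {A : Set K} {a b c d : K} (h : Q A a b c d) : Q A d b a c :=
  ⟨h.h, h.d, h.b, h.a, h.c⟩

theorem Q.p3120 {A : Set K} {a b c d : K} (h : Q A a b c d) : Q A d b c a :=
  ⟨h.h, h.d, h.b, h.c, h.a⟩

theorem Q.p3201 {A : Set K} {a b c d : K} (h : Q A a b c d) : Q A d c a b :=
  ⟨h.h, h.d, h.c, h.a, h.b⟩

theorem Q.p3210 {A : Set K} {a b c d : K} (h : Q A a b c d) : Q A d c b a :=
  ⟨h.h, h.d, h.c, h.b, h.a⟩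


theorem sy_hd {n : ℕ} {f : ℕ → K} {ps : List (ℕ × (ℕ → K))} :
    ∀ k, k < n → symOf ((n, f) :: ps) (k + 0) = f k := fun k hk => by
  rw [symOf, Nat.add_zero, if_pos hk]

theorem sy_tl {n m o o' : ℕ} {f F : ℕ → K} {ps : List (ℕ × (ℕ → K))}
    (h : ∀ k, k < m → symOf ps (k + o) = F k) (ho : o' = Nat.add o n) :
    ∀ k, k < m → symOf ((n, f) :: ps) (k + o') = F k := fun k hk => by
  have ho' : o' = o + n := ho
  rw [symOf, if_neg (show ¬ k + o' < n by omega), ← h k hk]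
  congr 1
  change k + o' - n = k + o
  omega

theorem ent_i {z l : K} {E E' g : ℕ → K} {ts : List Tab} {n n' D D' o : ℕ}
    (hD : Nat.beq (Nat.pow 2 n) D = true) (hD' : Nat.beq (Nat.pow 2 n') D' = true)
    (h : ∀ v, z * vec E v = vec E' (opsApp ts v)) (hz : ∀ k, n' ≤ k → E' k = 0)
    (hp : ∀ k, k < n' → g (k + o) = E' k * l) :
    EntOk z g (n, fun k => E k * l) ⟨D, ts, D', o⟩ := by
  rw [← Nat.eq_of_beq_eq_true hD, ← Nat.eq_of_beq_eq_true hD']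
  exact ent_intro h hz hp

/-- An entry whose target block has dimension zero. -/
theorem ent_z {z l : K} {E E' g : ℕ → K} {ts : List Tab} {n D o : ℕ}
    (hD : Nat.beq (Nat.pow 2 n) D = true)
    (h : ∀ v, z * vec E v = vec E' (opsApp ts v)) (hz : ∀ k, 0 ≤ k → E' k = 0) :
    EntOk z g (n, fun k => E k * l) ⟨D, ts, 1, o⟩ := by
  rw [← Nat.eq_of_beq_eq_true hD]
  exact ent_intro (n' := 0) h hz (fun k hk => absurd hk (Nat.not_lt_zero k))

/-- An entry for a piece of dimension zero. -/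
theorem ent_n {z l : K} {E g : ℕ → K} (hE : ∀ k, 0 ≤ k → E k = 0) :
    EntOk z g (0, fun k => E k * l) ⟨1, [], 1, 0⟩ := ent_null hE

/-- The empty product. -/
def e0000 (_ _ _ _ : K) : ℕ → K := fun k => if k = 0 then 1 else 0

theorem ez0000 {a b c d : K} : ∀ k, 1 ≤ k → e0000 a b c d k = 0 := fun k hk => by
  rw [e0000, if_neg (by omega)]

/-- The identity table of dimension one. -/
def I0 : Tab := ⟨nat_lit 2, .l (nat_lit 1)⟩

theorem wfI0 : wfT I0 1 = true := by decide +kernel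

theorem s0000 {a b c d a' b' c' d' : K} (h2 : (2 : K) = 0) :
    ∀ v, vec (e0000 a b c d) v = vec (e0000 a' b' c' d') (appM I0 v) := fun v => by
  rw [appM_spec h2 _ wfI0]
  congr 1
  funext k
  rcases k with _ | k
  · change (1 : K) = vec _ 1
    rw [show (1 : ℕ) = 2 ^ 0 from rfl, vec_two_pow]
    rfl
  · change (0 : K) = vec _ 0
    rw [vec_zero]

/-- The letters as a sequence. -/
def ltr (a b c d : K) : ℕ → K
  | 0 => a
  | 1 => b
  | 2 => c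
  | _ => d

theorem ltr_mem {A : Set K} {a b c d : K} (h : Q A a b c d) : ∀ i < 4, ltr a b c d i ∈ A := by
  intro i hi
  rcases i with _ | _ | _ | _ | i
  · exact h.a
  · exact h.b
  · exact h.c
  · exact h.d
  · omega

end

/-- Search trees for the meaning of the states. -/
inductive SM (K : Type) : Type
  | l : (ℕ → K) → SM K
  | b : ℕ → SM K → SM K → SM K

/-- The meaning of a state. -/
noncomputable def smL {K : Type} (t : SM K) : ℕ → ℕ → K :=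
  SM.rec (motive := fun _ => ℕ → ℕ → K) (fun f _ => f)
    (fun k _ _ ih1 ih2 c => Bool.casesOn (motive := fun _ => ℕ → K) (Nat.blt c k) (ih2 c) (ih1 c)) t

/-! ### Words -/

section
variable {K : Type} [Ring K]

/-- All words of content `n` in the letters `x` are in the span of the family `e`. -/
def WP (n : Fin 4 → ℕ) (x : Fin 4 → K) (e : ℕ → K) : Prop :=
  ∀ w : List (Fin 4), (∀ i, w.count i = n i) → ∃ v, (w.map x).prod = vec e v

theorem wp_perm {τ ρ : Fin 4 → Fin 4} (h : ∀ i, τ (ρ i) = i) (h' : ∀ i, ρ (τ i) = i)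
    {n : Fin 4 → ℕ} {x : Fin 4 → K} {e : ℕ → K} (hw : WP (n ∘ τ) (x ∘ τ) e) : WP n x e := by
  intro w hw'
  have hinj : Function.Injective ρ := fun i j hij => by rw [← h i, ← h j, hij]
  obtain ⟨v, hv⟩ := hw (w.map ρ) (by
    intro i
    have := List.count_map_of_injective w ρ hinj (τ i)
    rw [h' i] at this
    rw [this, hw' (τ i)]
    rfl)
  refine ⟨v, ?_⟩
  rw [← hv, List.map_map]
  congr 2
  funext i
  change x i = x (τ (ρ i))
  rw [h i]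

theorem wp_step {n : Fin 4 → ℕ} {x : Fin 4 → K} {g e : ℕ → K} {F : ℕ → ℕ}
    (hg : ∀ r, vec g r = vec e (F r)) (hn : ∃ i, n i ≠ 0)
    (H : ∀ i, n i ≠ 0 → ∃ m : Fin 4 → ℕ, ∃ f : ℕ → K, (∀ j, n j = m j + if j = i then 1 else 0) ∧
      WP m x f ∧ ∀ v, ∃ r, vec f v * x i = vec g r) : WP n x e := by
  intro w hw
  rcases List.eq_nil_or_concat w with rfl | ⟨w', l, rfl⟩
  · obtain ⟨i, hi⟩ := hn
    exact absurd (hw i).symm (by simpa using hi)
  · have hc : ∀ i, w'.count i + (if i = l then 1 else 0) = n i := by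
      intro i
      rw [← hw i, List.concat_eq_append, List.count_append]
      congr 1
      rw [List.count_singleton]
      by_cases h : i = l
      · simp [h]
      · have h' : ¬ l = i := fun h2 => h h2.symm
        simp [h, h']
    obtain ⟨m, f, hm, hf, hr⟩ := H l (by rw [← hc l, if_pos rfl]; omega)
    obtain ⟨v, hv⟩ := hf w' (by
      intro i
      have := hc i
      rw [hm i] at this
      omega)
    obtain ⟨r, hr⟩ := hr v
    refine ⟨F r, ?_⟩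
    rw [← hg, ← hr, ← hv, List.concat_eq_append, List.map_append, List.prod_append]
    simp

/-- Right multiplication of a piece. -/
theorem wp_r {z : K} {E G : ℕ → K} {n o : ℕ} (hE : ∀ k, n ≤ k → E k = 0)
    (hG : ∀ k, k < n → G (k + o) = E k * z) : ∀ v, ∃ r, vec E v * z = vec G r := fun v =>
  ⟨_, run_F (D := 2 ^ n) rfl hE hG v⟩

/-- Right multiplication of a piece of dimension zero. -/
theorem wp_z {z : K} {E G : ℕ → K} (hE : ∀ k, 0 ≤ k → E k = 0) :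
    ∀ v, ∃ r, vec E v * z = vec G r := fun v => ⟨0, by
  rw [vec_null _ (fun k => hE k (Nat.zero_le k)), vec_zero, zero_mul]⟩

theorem w0000 {a b c d : K} : WP ![0, 0, 0, 0] ![a, b, c, d] (e0000 a b c d) := by
  intro w hw
  refine ⟨1, ?_⟩
  have hl : w = [] := by
    rcases w with _ | ⟨i, w⟩
    · rfl
    · have h1 := hw i
      rw [List.count_cons_self] at h1
      have h2 : (![0, 0, 0, 0] : Fin 4 → ℕ) i = 0 := by fin_cases i <;> rfl
      omega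
  subst hl
  have e1 : vec (e0000 a b c d) (2 ^ 0) = 1 := by rw [vec_two_pow]; rfl
  exact e1.symm


theorem wp0123 {n0 n1 n2 n3 : ℕ} {a b c d : K} {e : ℕ → K}
    (h : WP ![n0, n1, n2, n3] ![a, b, c, d] e) :
    WP ![n0, n1, n2, n3] ![a, b, c, d] e := by
  refine wp_perm (τ := ![0, 1, 2, 3]) (ρ := ![0, 1, 2, 3]) (by decide) (by decide) ?_
  have e1 : (![n0, n1, n2, n3] : Fin 4 → ℕ) ∘ ![0, 1, 2, 3] = ![n0, n1, n2, n3] := by
    funext i; fin_cases i <;> rfl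
  have e2 : (![a, b, c, d] : Fin 4 → K) ∘ ![0, 1, 2, 3] = ![a, b, c, d] := by
    funext i; fin_cases i <;> rfl
  rw [e1, e2]
  exact h

theorem wp0132 {n0 n1 n2 n3 : ℕ} {a b c d : K} {e : ℕ → K}
    (h : WP ![n0, n1, n3, n2] ![a, b, d, c] e) :
    WP ![n0, n1, n2, n3] ![a, b, c, d] e := by
  refine wp_perm (τ := ![0, 1, 3, 2]) (ρ := ![0, 1, 3, 2]) (by decide) (by decide) ?_
  have e1 : (![n0, n1, n2, n3] : Fin 4 → ℕ) ∘ ![0, 1, 3, 2] = ![n0, n1, n3, n2] := by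
    funext i; fin_cases i <;> rfl
  have e2 : (![a, b, c, d] : Fin 4 → K) ∘ ![0, 1, 3, 2] = ![a, b, d, c] := by
    funext i; fin_cases i <;> rfl
  rw [e1, e2]
  exact h

theorem wp0213 {n0 n1 n2 n3 : ℕ} {a b c d : K} {e : ℕ → K}
    (h : WP ![n0, n2, n1, n3] ![a, c, b, d] e) :
    WP ![n0, n1, n2, n3] ![a, b, c, d] e := by
  refine wp_perm (τ := ![0, 2, 1, 3]) (ρ := ![0, 2, 1, 3]) (by decide) (by decide) ?_
  have e1 : (![n0, n1, n2, n3] : Fin 4 → ℕ) ∘ ![0, 2, 1, 3] = ![n0, n2, n1, n3] := by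
    funext i; fin_cases i <;> rfl
  have e2 : (![a, b, c, d] : Fin 4 → K) ∘ ![0, 2, 1, 3] = ![a, c, b, d] := by
    funext i; fin_cases i <;> rfl
  rw [e1, e2]
  exact h

theorem wp0231 {n0 n1 n2 n3 : ℕ} {a b c d : K} {e : ℕ → K}
    (h : WP ![n0, n2, n3, n1] ![a, c, d, b] e) :
    WP ![n0, n1, n2, n3] ![a, b, c, d] e := by
  refine wp_perm (τ := ![0, 2, 3, 1]) (ρ := ![0, 3, 1, 2]) (by decide) (by decide) ?_
  have e1 : (![n0, n1, n2, n3] : Fin 4 → ℕ) ∘ ![0, 2, 3, 1] = ![n0, n2, n3, n1] := by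
    funext i; fin_cases i <;> rfl
  have e2 : (![a, b, c, d] : Fin 4 → K) ∘ ![0, 2, 3, 1] = ![a, c, d, b] := by
    funext i; fin_cases i <;> rfl
  rw [e1, e2]
  exact h

theorem wp0312 {n0 n1 n2 n3 : ℕ} {a b c d : K} {e : ℕ → K}
    (h : WP ![n0, n3, n1, n2] ![a, d, b, c] e) :
    WP ![n0, n1, n2, n3] ![a, b, c, d] e := by
  refine wp_perm (τ := ![0, 3, 1, 2]) (ρ := ![0, 2, 3, 1]) (by decide) (by decide) ?_
  have e1 : (![n0, n1, n2, n3] : Fin 4 → ℕ) ∘ ![0, 3, 1, 2] = ![n0, n3, n1, n2] := by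
    funext i; fin_cases i <;> rfl
  have e2 : (![a, b, c, d] : Fin 4 → K) ∘ ![0, 3, 1, 2] = ![a, d, b, c] := by
    funext i; fin_cases i <;> rfl
  rw [e1, e2]
  exact h

theorem wp0321 {n0 n1 n2 n3 : ℕ} {a b c d : K} {e : ℕ → K}
    (h : WP ![n0, n3, n2, n1] ![a, d, c, b] e) :
    WP ![n0, n1, n2, n3] ![a, b, c, d] e := by
  refine wp_perm (τ := ![0, 3, 2, 1]) (ρ := ![0, 3, 2, 1]) (by decide) (by decide) ?_
  have e1 : (![n0, n1, n2, n3] : Fin 4 → ℕ) ∘ ![0, 3, 2, 1] = ![n0, n3, n2, n1] := by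
    funext i; fin_cases i <;> rfl
  have e2 : (![a, b, c, d] : Fin 4 → K) ∘ ![0, 3, 2, 1] = ![a, d, c, b] := by
    funext i; fin_cases i <;> rfl
  rw [e1, e2]
  exact h

theorem wp1023 {n0 n1 n2 n3 : ℕ} {a b c d : K} {e : ℕ → K}
    (h : WP ![n1, n0, n2, n3] ![b, a, c, d] e) :
    WP ![n0, n1, n2, n3] ![a, b, c, d] e := by
  refine wp_perm (τ := ![1, 0, 2, 3]) (ρ := ![1, 0, 2, 3]) (by decide) (by decide) ?_
  have e1 : (![n0, n1, n2, n3] : Fin 4 → ℕ) ∘ ![1, 0, 2, 3] = ![n1, n0, n2, n3] := by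
    funext i; fin_cases i <;> rfl
  have e2 : (![a, b, c, d] : Fin 4 → K) ∘ ![1, 0, 2, 3] = ![b, a, c, d] := by
    funext i; fin_cases i <;> rfl
  rw [e1, e2]
  exact h

theorem wp1032 {n0 n1 n2 n3 : ℕ} {a b c d : K} {e : ℕ → K}
    (h : WP ![n1, n0, n3, n2] ![b, a, d, c] e) :
    WP ![n0, n1, n2, n3] ![a, b, c, d] e := by
  refine wp_perm (τ := ![1, 0, 3, 2]) (ρ := ![1, 0, 3, 2]) (by decide) (by decide) ?_
  have e1 : (![n0, n1, n2, n3] : Fin 4 → ℕ) ∘ ![1, 0, 3, 2] = ![n1, n0, n3, n2] := by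
    funext i; fin_cases i <;> rfl
  have e2 : (![a, b, c, d] : Fin 4 → K) ∘ ![1, 0, 3, 2] = ![b, a, d, c] := by
    funext i; fin_cases i <;> rfl
  rw [e1, e2]
  exact h

theorem wp1203 {n0 n1 n2 n3 : ℕ} {a b c d : K} {e : ℕ → K}
    (h : WP ![n1, n2, n0, n3] ![b, c, a, d] e) :
    WP ![n0, n1, n2, n3] ![a, b, c, d] e := by
  refine wp_perm (τ := ![1, 2, 0, 3]) (ρ := ![2, 0, 1, 3]) (by decide) (by decide) ?_
  have e1 : (![n0, n1, n2, n3] : Fin 4 → ℕ) ∘ ![1, 2, 0, 3] = ![n1, n2, n0, n3] := by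
    funext i; fin_cases i <;> rfl
  have e2 : (![a, b, c, d] : Fin 4 → K) ∘ ![1, 2, 0, 3] = ![b, c, a, d] := by
    funext i; fin_cases i <;> rfl
  rw [e1, e2]
  exact h

theorem wp1230 {n0 n1 n2 n3 : ℕ} {a b c d : K} {e : ℕ → K}
    (h : WP ![n1, n2, n3, n0] ![b, c, d, a] e) :
    WP ![n0, n1, n2, n3] ![a, b, c, d] e := by
  refine wp_perm (τ := ![1, 2, 3, 0]) (ρ := ![3, 0, 1, 2]) (by decide) (by decide) ?_
  have e1 : (![n0, n1, n2, n3] : Fin 4 → ℕ) ∘ ![1, 2, 3, 0] = ![n1, n2, n3, n0] := by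
    funext i; fin_cases i <;> rfl
  have e2 : (![a, b, c, d] : Fin 4 → K) ∘ ![1, 2, 3, 0] = ![b, c, d, a] := by
    funext i; fin_cases i <;> rfl
  rw [e1, e2]
  exact h

theorem wp1302 {n0 n1 n2 n3 : ℕ} {a b c d : K} {e : ℕ → K}
    (h : WP ![n1, n3, n0, n2] ![b, d, a, c] e) :
    WP ![n0, n1, n2, n3] ![a, b, c, d] e := by
  refine wp_perm (τ := ![1, 3, 0, 2]) (ρ := ![2, 0, 3, 1]) (by decide) (by decide) ?_
  have e1 : (![n0, n1, n2, n3] : Fin 4 → ℕ) ∘ ![1, 3, 0, 2] = ![n1, n3, n0, n2] := by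
    funext i; fin_cases i <;> rfl
  have e2 : (![a, b, c, d] : Fin 4 → K) ∘ ![1, 3, 0, 2] = ![b, d, a, c] := by
    funext i; fin_cases i <;> rfl
  rw [e1, e2]
  exact h

theorem wp1320 {n0 n1 n2 n3 : ℕ} {a b c d : K} {e : ℕ → K}
    (h : WP ![n1, n3, n2, n0] ![b, d, c, a] e) :
    WP ![n0, n1, n2, n3] ![a, b, c, d] e := by
  refine wp_perm (τ := ![1, 3, 2, 0]) (ρ := ![3, 0, 2, 1]) (by decide) (by decide) ?_
  have e1 : (![n0, n1, n2, n3] : Fin 4 → ℕ) ∘ ![1, 3, 2, 0] = ![n1, n3, n2, n0] := by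
    funext i; fin_cases i <;> rfl
  have e2 : (![a, b, c, d] : Fin 4 → K) ∘ ![1, 3, 2, 0] = ![b, d, c, a] := by
    funext i; fin_cases i <;> rfl
  rw [e1, e2]
  exact h

theorem wp2013 {n0 n1 n2 n3 : ℕ} {a b c d : K} {e : ℕ → K}
    (h : WP ![n2, n0, n1, n3] ![c, a, b, d] e) :
    WP ![n0, n1, n2, n3] ![a, b, c, d] e := by
  refine wp_perm (τ := ![2, 0, 1, 3]) (ρ := ![1, 2, 0, 3]) (by decide) (by decide) ?_
  have e1 : (![n0, n1, n2, n3] : Fin 4 → ℕ) ∘ ![2, 0, 1, 3] = ![n2, n0, n1, n3] := by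
    funext i; fin_cases i <;> rfl
  have e2 : (![a, b, c, d] : Fin 4 → K) ∘ ![2, 0, 1, 3] = ![c, a, b, d] := by
    funext i; fin_cases i <;> rfl
  rw [e1, e2]
  exact h

theorem wp2031 {n0 n1 n2 n3 : ℕ} {a b c d : K} {e : ℕ → K}
    (h : WP ![n2, n0, n3, n1] ![c, a, d, b] e) :
    WP ![n0, n1, n2, n3] ![a, b, c, d] e := by
  refine wp_perm (τ := ![2, 0, 3, 1]) (ρ := ![1, 3, 0, 2]) (by decide) (by decide) ?_
  have e1 : (![n0, n1, n2, n3] : Fin 4 → ℕ) ∘ ![2, 0, 3, 1] = ![n2, n0, n3, n1] := by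
    funext i; fin_cases i <;> rfl
  have e2 : (![a, b, c, d] : Fin 4 → K) ∘ ![2, 0, 3, 1] = ![c, a, d, b] := by
    funext i; fin_cases i <;> rfl
  rw [e1, e2]
  exact h

theorem wp2103 {n0 n1 n2 n3 : ℕ} {a b c d : K} {e : ℕ → K}
    (h : WP ![n2, n1, n0, n3] ![c, b, a, d] e) :
    WP ![n0, n1, n2, n3] ![a, b, c, d] e := by
  refine wp_perm (τ := ![2, 1, 0, 3]) (ρ := ![2, 1, 0, 3]) (by decide) (by decide) ?_
  have e1 : (![n0, n1, n2, n3] : Fin 4 → ℕ) ∘ ![2, 1, 0, 3] = ![n2, n1, n0, n3] := by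
    funext i; fin_cases i <;> rfl
  have e2 : (![a, b, c, d] : Fin 4 → K) ∘ ![2, 1, 0, 3] = ![c, b, a, d] := by
    funext i; fin_cases i <;> rfl
  rw [e1, e2]
  exact h

theorem wp2130 {n0 n1 n2 n3 : ℕ} {a b c d : K} {e : ℕ → K}
    (h : WP ![n2, n1, n3, n0] ![c, b, d, a] e) :
    WP ![n0, n1, n2, n3] ![a, b, c, d] e := by
  refine wp_perm (τ := ![2, 1, 3, 0]) (ρ := ![3, 1, 0, 2]) (by decide) (by decide) ?_
  have e1 : (![n0, n1, n2, n3] : Fin 4 → ℕ) ∘ ![2, 1, 3, 0] = ![n2, n1, n3, n0] := by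
    funext i; fin_cases i <;> rfl
  have e2 : (![a, b, c, d] : Fin 4 → K) ∘ ![2, 1, 3, 0] = ![c, b, d, a] := by
    funext i; fin_cases i <;> rfl
  rw [e1, e2]
  exact h

theorem wp2301 {n0 n1 n2 n3 : ℕ} {a b c d : K} {e : ℕ → K}
    (h : WP ![n2, n3, n0, n1] ![c, d, a, b] e) :
    WP ![n0, n1, n2, n3] ![a, b, c, d] e := by
  refine wp_perm (τ := ![2, 3, 0, 1]) (ρ := ![2, 3, 0, 1]) (by decide) (by decide) ?_
  have e1 : (![n0, n1, n2, n3] : Fin 4 → ℕ) ∘ ![2, 3, 0, 1] = ![n2, n3, n0, n1] := by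
    funext i; fin_cases i <;> rfl
  have e2 : (![a, b, c, d] : Fin 4 → K) ∘ ![2, 3, 0, 1] = ![c, d, a, b] := by
    funext i; fin_cases i <;> rfl
  rw [e1, e2]
  exact h

theorem wp2310 {n0 n1 n2 n3 : ℕ} {a b c d : K} {e : ℕ → K}
    (h : WP ![n2, n3, n1, n0] ![c, d, b, a] e) :
    WP ![n0, n1, n2, n3] ![a, b, c, d] e := by
  refine wp_perm (τ := ![2, 3, 1, 0]) (ρ := ![3, 2, 0, 1]) (by decide) (by decide) ?_
  have e1 : (![n0, n1, n2, n3] : Fin 4 → ℕ) ∘ ![2, 3, 1, 0] = ![n2, n3, n1, n0] := by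
    funext i; fin_cases i <;> rfl
  have e2 : (![a, b, c, d] : Fin 4 → K) ∘ ![2, 3, 1, 0] = ![c, d, b, a] := by
    funext i; fin_cases i <;> rfl
  rw [e1, e2]
  exact h

theorem wp3012 {n0 n1 n2 n3 : ℕ} {a b c d : K} {e : ℕ → K}
    (h : WP ![n3, n0, n1, n2] ![d, a, b, c] e) :
    WP ![n0, n1, n2, n3] ![a, b, c, d] e := by
  refine wp_perm (τ := ![3, 0, 1, 2]) (ρ := ![1, 2, 3, 0]) (by decide) (by decide) ?_
  have e1 : (![n0, n1, n2, n3] : Fin 4 → ℕ) ∘ ![3, 0, 1, 2] = ![n3, n0, n1, n2] := by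
    funext i; fin_cases i <;> rfl
  have e2 : (![a, b, c, d] : Fin 4 → K) ∘ ![3, 0, 1, 2] = ![d, a, b, c] := by
    funext i; fin_cases i <;> rfl
  rw [e1, e2]
  exact h

theorem wp3021 {n0 n1 n2 n3 : ℕ} {a b c d : K} {e : ℕ → K}
    (h : WP ![n3, n0, n2, n1] ![d, a, c, b] e) :
    WP ![n0, n1, n2, n3] ![a, b, c, d] e := by
  refine wp_perm (τ := ![3, 0, 2, 1]) (ρ := ![1, 3, 2, 0]) (by decide) (by decide) ?_
  have e1 : (![n0, n1, n2, n3] : Fin 4 → ℕ) ∘ ![3, 0, 2, 1] = ![n3, n0, n2, n1] := by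
    funext i; fin_cases i <;> rfl
  have e2 : (![a, b, c, d] : Fin 4 → K) ∘ ![3, 0, 2, 1] = ![d, a, c, b] := by
    funext i; fin_cases i <;> rfl
  rw [e1, e2]
  exact h

theorem wp3102 {n0 n1 n2 n3 : ℕ} {a b c d : K} {e : ℕ → K}
    (h : WP ![n3, n1, n0, n2] ![d, b, a, c] e) :
    WP ![n0, n1, n2, n3] ![a, b, c, d] e := by
  refine wp_perm (τ := ![3, 1, 0, 2]) (ρ := ![2, 1, 3, 0]) (by decide) (by decide) ?_
  have e1 : (![n0, n1, n2, n3] : Fin 4 → ℕ) ∘ ![3, 1, 0, 2] = ![n3, n1, n0, n2] := by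
    funext i; fin_cases i <;> rfl
  have e2 : (![a, b, c, d] : Fin 4 → K) ∘ ![3, 1, 0, 2] = ![d, b, a, c] := by
    funext i; fin_cases i <;> rfl
  rw [e1, e2]
  exact h

theorem wp3120 {n0 n1 n2 n3 : ℕ} {a b c d : K} {e : ℕ → K}
    (h : WP ![n3, n1, n2, n0] ![d, b, c, a] e) :
    WP ![n0, n1, n2, n3] ![a, b, c, d] e := by
  refine wp_perm (τ := ![3, 1, 2, 0]) (ρ := ![3, 1, 2, 0]) (by decide) (by decide) ?_
  have e1 : (![n0, n1, n2, n3] : Fin 4 → ℕ) ∘ ![3, 1, 2, 0] = ![n3, n1, n2, n0] := by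
    funext i; fin_cases i <;> rfl
  have e2 : (![a, b, c, d] : Fin 4 → K) ∘ ![3, 1, 2, 0] = ![d, b, c, a] := by
    funext i; fin_cases i <;> rfl
  rw [e1, e2]
  exact h

theorem wp3201 {n0 n1 n2 n3 : ℕ} {a b c d : K} {e : ℕ → K}
    (h : WP ![n3, n2, n0, n1] ![d, c, a, b] e) :
    WP ![n0, n1, n2, n3] ![a, b, c, d] e := by
  refine wp_perm (τ := ![3, 2, 0, 1]) (ρ := ![2, 3, 1, 0]) (by decide) (by decide) ?_
  have e1 : (![n0, n1, n2, n3] : Fin 4 → ℕ) ∘ ![3, 2, 0, 1] = ![n3, n2, n0, n1] := by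
    funext i; fin_cases i <;> rfl
  have e2 : (![a, b, c, d] : Fin 4 → K) ∘ ![3, 2, 0, 1] = ![d, c, a, b] := by
    funext i; fin_cases i <;> rfl
  rw [e1, e2]
  exact h

theorem wp3210 {n0 n1 n2 n3 : ℕ} {a b c d : K} {e : ℕ → K}
    (h : WP ![n3, n2, n1, n0] ![d, c, b, a] e) :
    WP ![n0, n1, n2, n3] ![a, b, c, d] e := by
  refine wp_perm (τ := ![3, 2, 1, 0]) (ρ := ![3, 2, 1, 0]) (by decide) (by decide) ?_
  have e1 : (![n0, n1, n2, n3] : Fin 4 → ℕ) ∘ ![3, 2, 1, 0] = ![n3, n2, n1, n0] := by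
    funext i; fin_cases i <;> rfl
  have e2 : (![a, b, c, d] : Fin 4 → K) ∘ ![3, 2, 1, 0] = ![d, c, b, a] := by
    funext i; fin_cases i <;> rfl
  rw [e1, e2]
  exact h

end

end Pool.Agent.L3E.GJ
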