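import Pool.Agent.L3E.GJ.Gen

set_option autoImplicit false

/-!
# L3E, module GJ.Seg: the check of a block cut into segments
-/

namespace Pool.Agent.L3E.GJ

/-- The part of the check without elimination. -/
noncomputable def chkBase (ns dim : ℕ) (NF Ex : Tab) (nR : ℕ) (Rt : Tab) : Bool :=
  wfT NF ns && wfT Ex dim && wfT Rt nR && chkB NF Ex.t 0

/-- All leaves are rows with zero normal form. -/
def CoreOk (NF : Tab) (raw : ℕ → ℕ) (t : Tr) : Prop :=
  ∀ j, lf t j = 0 ∨ ∃ n, lf t j = raw n ∧ appM NF (raw n) = 0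

/-- The leaves are the given rows and have zero normal form. -/
noncomputable def coreNF (NF : Tab) (raw : ℕ → ℕ) (L : List ℕ) : List ℕ → Bool :=
  List.rec (motive := fun _ => List ℕ → Bool) (fun _ => true)
    (fun m _ ih S => List.casesOn (motive := fun _ => Bool) S false
      (fun n S' => Nat.beq (raw n) m && (Nat.beq (appM NF m) 0 && ih S'))) L

theorem coreNF_spec {NF : Tab} {raw : ℕ → ℕ} : ∀ {L S : List ℕ}, coreNF NF raw L S = true →
    ∀ m ∈ L, ∃ n, m = raw n ∧ appM NF (raw n) = 0 := by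
  intro L
  induction L with
  | nil => intro S _ m hm; simp at hm
  | cons m L ih =>
    intro S h m' hm'
    rcases S with _ | ⟨n, S⟩
    · exact absurd h (by simp [coreNF])
    · have h' : (Nat.beq (raw n) m && (Nat.beq (appM NF m) 0 && coreNF NF raw L S)) = true := h
      rw [Bool.and_eq_true, Bool.and_eq_true] at h'
      rcases List.mem_cons.mp hm' with rfl | hm'
      · have e := Nat.eq_of_beq_eq_true h'.1
        exact ⟨n, e.symm, by rw [e]; exact Nat.eq_of_beq_eq_true h'.2.1⟩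
      · exact ih h'.2.2 m' hm'

theorem core_of {NF : Tab} {raw : ℕ → ℕ} {t : Tr} {cs : List ℕ}
    (h : coreNF NF raw (toL t []) cs = true) : CoreOk NF raw t := by
  intro j
  rcases lf_toL (t := t) [] j with h1 | h1
  · exact Or.inl h1
  · exact Or.inr (coreNF_spec h _ h1)

theorem core_b {NF : Tab} {raw : ℕ → ℕ} {e d : ℕ} {s t : Tr} (hs : CoreOk NF raw s)
    (ht : CoreOk NF raw t) : CoreOk NF raw (.b e d s t) := by
  intro j
  change (if j < e then lf s j else lf t (j - e)) = 0 ∨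
    ∃ n, (if j < e then lf s j else lf t (j - e)) = raw n ∧ appM NF (raw n) = 0
  split_ifs
  · exact hs j
  · exact ht (j - e)

theorem core_z {NF : Tab} {raw : ℕ → ℕ} : CoreOk NF raw (.l 0) := by
  intro j
  left
  change (if j = 0 then 0 else 0) = 0
  simp

/-- The combinations of the core rows make the other symbols known. -/
noncomputable def kM (F : ℕ → ℕ) (k : ℕ → Bool) (L : List ℕ) : ℕ → Bool :=
  List.rec (motive := fun _ => ℕ → Bool) k
    (fun n _ ih U => Nat.casesOn (motive := fun _ => Bool) (F n) false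
      (fun d => stepU (Nat.succ d) U ih)) L

/-- The elimination steps lead from the unknowns `U` to the unknowns `U'`. -/
def Elim (NF Ex : Tab) (raw : ℕ → ℕ) (Rt : Tab) (U U' : ℕ) : Prop :=
  ∀ (K : Type) [Ring K] (δ : ℕ → K), (∀ m ∈ toL Ex.t [], vec δ m = 0) →
    (∀ n, appM NF (raw n) = 0 → vec δ (raw n) = 0) → (∀ n, vec δ (appM Rt n) = 0) →
    Known δ U → Known δ U'

theorem kM_spec {K : Type} [Ring K] {δ : ℕ → K} {k : ℕ → Bool} {F : ℕ → ℕ}
    (hF : ∀ n, vec δ (F n) = 0) : ∀ {L : List ℕ} {U : ℕ}, Known δ U →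
    kM F k L U = true → ∃ U', Known δ U' ∧ k U' = true := by
  intro L
  induction L with
  | nil => intro U hU h; exact ⟨U, hU, h⟩
  | cons n L ih =>
    intro U hU h
    have h' : (Nat.casesOn (motive := fun _ => Bool) (F n) false
      (fun d => stepU (Nat.succ d) U (kM F k L))) = true := h
    rcases hr : F n with _ | d
    · rw [hr] at h'
      exact absurd h' (by simp)
    · rw [hr] at h'
      have h0 := hF n
      rw [hr] at h0
      obtain ⟨U', h1, h2⟩ := stepU_spec hU h0 h'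
      exact ih h1 h2

theorem elim_refl {NF Ex : Tab} {raw : ℕ → ℕ} {Rt : Tab} {U : ℕ} : Elim NF Ex raw Rt U U :=
  fun _ _ _ _ _ _ h => h

theorem elim_trans {NF Ex : Tab} {raw : ℕ → ℕ} {Rt : Tab} {U U' U'' : ℕ}
    (h : Elim NF Ex raw Rt U U') (h' : Elim NF Ex raw Rt U' U'') : Elim NF Ex raw Rt U U'' :=
  fun K _ δ h1 h2 h3 hU => h' K δ h1 h2 h3 (h K δ h1 h2 h3 hU)

theorem elim_B {NF Ex : Tab} {raw : ℕ → ℕ} {Rt : Tab} {U U' : ℕ}
    (h : kB (fun u => Nat.beq u U') (toL Ex.t []) U = true) : Elim NF Ex raw Rt U U' := by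
  intro K _ δ h1 _ _ hU
  obtain ⟨V, hV, hk⟩ := kB_spec hU h1 h
  rw [← Nat.eq_of_beq_eq_true hk]
  exact hV

theorem elim_R {NF Ex : Tab} {raw : ℕ → ℕ} {Rt : Tab} {U U' : ℕ} {L : List ℕ}
    (h : kR NF raw (fun u => Nat.beq u U') L U = true) : Elim NF Ex raw Rt U U' := by
  intro K _ δ _ h2 _ hU
  obtain ⟨V, hV, hk⟩ := kR_spec h2 hU h
  rw [← Nat.eq_of_beq_eq_true hk]
  exact hV

theorem elim_M {NF Ex : Tab} {raw : ℕ → ℕ} {Rt : Tab} {U U' : ℕ} {L : List ℕ}
    (h : kM (appM Rt) (fun u => Nat.beq u U') L U = true) : Elim NF Ex raw Rt U U' := by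
  intro K _ δ _ _ h3 hU
  obtain ⟨V, hV, hk⟩ := kM_spec h3 hU h
  rw [← Nat.eq_of_beq_eq_true hk]
  exact hV

section
variable {K : Type} [Ring K]

/-- Soundness of the check of a block. -/
theorem block_sound2 (h2 : (2 : K) = 0) {ps : List (ℕ × (ℕ → K))} {ns dim : ℕ}
    (hps : psize ps = ns) {NF Ex Rt : Tab} {raw : ℕ → ℕ} {nR U0 : ℕ}
    (hraw : ∀ n, vec (symOf ps) (raw n) = 0) (h : chkBase ns dim NF Ex nR Rt = true)
    (hc : CoreOk NF raw Rt.t) (hU : Nat.beq (Nat.sub (Nat.pow 2 ns) 1) U0 = true)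
    (hel : Elim NF Ex raw Rt U0 0) :
    ∀ r, vec (symOf ps) r = vec (eOf Ex.t (symOf ps)) (appM NF r) := by
  simp only [chkBase, Bool.and_eq_true] at h
  obtain ⟨⟨⟨h1, h3⟩, h4⟩, h5⟩ := h
  set g := symOf ps with hg
  set e := eOf Ex.t g with he
  -- the defect
  set δ : ℕ → K := fun s => g s - vec e (lf NF.t s) with hδ
  have hvec : ∀ r, vec δ r = vec g r - vec e (appM NF r) := by
    intro r
    rw [appM_spec h2 e h1, hδ, vec_sub]
    rfl
  have hrow : ∀ n, appM NF (raw n) = 0 → vec δ (raw n) = 0 := fun n hn => by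
    rw [hvec, hn, hraw, vec_zero, sub_zero]
  have hcore : ∀ n, vec δ (appM Rt n) = 0 := by
    intro n
    rw [appM_spec h2 δ h4]
    refine vec_null n fun k => ?_
    change vec δ (lf Rt.t k) = 0
    rcases hc k with h | ⟨m, h, hm⟩
    · rw [h, vec_zero]
    · rw [h]
      exact hrow m hm
  have hK0 : Known δ U0 := by
    rw [← Nat.eq_of_beq_eq_true hU]
    intro s hs
    have : (2 ^ ns - 1).testBit s = false := hs
    rw [Nat.testBit_two_pow_sub_one] at this
    have hs' : ns ≤ s := by simpa using this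
    rw [hδ]
    simp only []
    rw [hg, symOf_ge ps s (by rw [hps]; exact hs'), lf_ge (wfT_D h1).2 hs', vec_zero, sub_zero]
  have hbas : ∀ m ∈ toL Ex.t [], vec δ m = 0 := by
    intro m hm
    rcases toL_mem (wfT_D h3).2 hm with hm | rfl | ⟨j, -, rfl⟩
    · simp at hm
    · exact vec_zero δ
    · rcases chkB_spec h5 j with h | h
      · rw [h, vec_zero]
      · rw [hvec, h, zero_add, vec_two_pow, he, eOf, sub_self]
  have hU3 := hel K δ hbas hrow hcore hK0
  have hall : ∀ s, δ s = 0 := fun s => hU3 s (Nat.zero_testBit s)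
  intro r
  have := hvec r
  rw [vec_null r hall] at this
  exact (sub_eq_zero.mp this.symm)

theorem table_sound2 (h2 : (2 : K) = 0) {z : K} {ps : List (ℕ × (ℕ → K))} {g e : ℕ → K}
    {es : List Ent} (h : List.Forall₂ (EntOk z g) ps es) {NF : Tab}
    (hNF : ∀ r, vec g r = vec e (appM NF r)) {Ex T : Tab} {n : ℕ} (hw : wfT T n = true)
    (hc : chk2 (fun m => appM NF (rowL es m)) Ex.t T.t = true) :
    ∀ v, z * vec (eOf Ex.t (symOf ps)) v = vec e (appM T v) :=
  table_sound h2 h hNF (by rw [tabChk, hw, hc]; rfl)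

end

theorem chk2_b {F : ℕ → ℕ} {e d d' : ℕ} {s t s' t' : Tr} (hs : chk2 F s s' = true)
    (ht : chk2 F t t' = true) : chk2 F (.b e d s t) (.b e d' s' t') = true := by
  change (Nat.beq e e && chk2 F s s' && chk2 F t t') = true
  rw [hs, ht, Nat.beq_refl]
  rfl

theorem gChk_cons {A : AT} {c : ℕ} {x : GI} {L : List GI} (h1 : gChk A c [x] = true)
    (h2 : gChk A c L = true) : gChk A c (x :: L) = true := by
  have h1' : (Nat.beq (evI A x.m x.p x.q x.ds [] []) (Nat.add (Nat.mul x.g 65536) c) && true)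
    = true := h1
  rw [Bool.and_true] at h1'
  change (Nat.beq (evI A x.m x.p x.q x.ds [] []) (Nat.add (Nat.mul x.g 65536) c) && gChk A c L)
    = true
  rw [h1', h2]
  rfl

theorem chkB_b {NF : Tab} {e d j : ℕ} {s t : Tr} (hs : chkB NF s j = true)
    (ht : chkB NF t (Nat.add j e) = true) : chkB NF (.b e d s t) j = true := by
  change (chkB NF s j && chkB NF t (Nat.add j e)) = true
  rw [hs, ht]
  rfl

theorem base_of {ns dim : ℕ} {NF Ex : Tab} {nR : ℕ} {Rt : Tab}
    (h1 : (wfT NF ns && wfT Rt nR) = true) (h2 : wfT Ex dim = true)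
    (h3 : chkB NF Ex.t 0 = true) : chkBase ns dim NF Ex nR Rt = true := by
  rw [Bool.and_eq_true] at h1
  rw [chkBase, h1.1, h2, h1.2, h3]
  rfl

end Pool.Agent.L3E.GJ
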